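import Pool.Agent.P.MP_9d0e7f_co.Cyc

/-!
Base layer for maximally non-hamiltonian graphs: connected two-factors, girth, saturation.
-/

set_option autoImplicit false

namespace Pool.Agent.P.MP_439f1f_co

open SimpleGraph

variable {V : Type*}

/-- every vertex has exactly two neighbours -/
def Two (F : SimpleGraph V) : Prop := ∀ v, ∃ a b, a ≠ b ∧ ∀ w, F.Adj v w ↔ w = a ∨ w = b

/-- every set of vertices closed under adjacency is empty or everything -/
def Con (F : SimpleGraph V) : Prop :=
  ∀ A : Set V, (∀ u w, F.Adj u w → u ∈ A → w ∈ A) → ∀ u w, u ∈ A → w ∈ A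

/-- all cycles have length at least `k` -/
def GG (k : ℕ) (G : SimpleGraph V) : Prop := ∀ a (w : G.Walk a a), w.IsCycle → k ≤ w.length

theorem Con.reach {F : SimpleGraph V} (h : Con F) (u w : V) : F.Reachable u w :=
  h {x | F.Reachable u x} (fun _ _ ha hx => Reachable.trans hx ha.reachable) u w
    (Reachable.refl u)

theorem two_iff {F : SimpleGraph V} : Two F ↔ ∀ v, (F.neighborSet v).ncard = 2 := by
  refine forall_congr' fun v => ?_
  rw [Set.ncard_eq_two]
  refine exists_congr fun a => exists_congr fun b => and_congr_right fun _ => ?_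
  simp [Set.ext_iff]

theorem ham_of_two [Fintype V] [DecidableEq V] [Nonempty V] {F G : SimpleGraph V} (hle : F ≤ G)
    (h2 : Two F) (hc : Con F) : G.IsHamiltonian := by
  refine IsHamiltonian.mono hle fun _ => ?_
  obtain ⟨v⟩ := ‹Nonempty V›
  have hcy : F.IsCycles := fun v _ => two_iff.1 h2 v
  obtain ⟨a, b, -, hab⟩ := h2 v
  obtain ⟨p, hp, hv⟩ := hcy.exists_cycle_toSubgraph_verts_eq_connectedComponentSupp
    (c := F.connectedComponentMk v) (v := v) rfl ⟨a, (hab a).2 (Or.inl rfl)⟩
  refine ⟨v, p, Walk.isHamiltonianCycle_isCycle_and_isHamiltonian_tail.2 ⟨hp, ?_⟩⟩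
  refine (Walk.isCycle_iff_isPath_tail_and_le_length.1 hp).1.isHamiltonian_of_mem fun w => ?_
  have h1 : w ∈ p.toSubgraph.verts := by
    rw [hv]
    exact ConnectedComponent.sound (hc.reach w v)
  rw [Walk.verts_toSubgraph] at h1
  rw [Walk.support_tail_of_not_nil _ hp.not_nil]
  by_cases hw : w = v
  · subst hw
    exact Walk.end_mem_tail_support hp.not_nil
  · rcases (Walk.mem_support_iff p).1 h1 with h | h
    · exact absurd h hw
    · exact h

theorem two_of_ham [Fintype V] [DecidableEq V] {G : SimpleGraph V} (h1 : Fintype.card V ≠ 1)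
    (h : G.IsHamiltonian) : ∃ F, F ≤ G ∧ Two F ∧ Con F := by
  obtain ⟨v, p, hp⟩ := h h1
  obtain ⟨f, ha, hf, hc⟩ := MP_9d0e7f_co.exists_succ_of_ham G hp
  have hne : ∀ u, u ≠ f u := fun u => (ha u).ne
  refine ⟨SimpleGraph.fromRel fun u w => w = f u, ?_, ?_, ?_⟩
  · rintro u w ⟨-, rfl | rfl⟩
    · exact ha u
    · exact (ha w).symm
  · intro u
    refine ⟨f u, f.symm u, fun e => hf u ?_, fun w => ?_⟩
    · rw [e]; simp
    · rw [fromRel_adj]
      constructor
      · rintro ⟨-, rfl | rfl⟩
        · exact Or.inl rfl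
        · exact Or.inr (by simp)
      · rintro (rfl | rfl)
        · exact ⟨hne u, Or.inl rfl⟩
        · refine ⟨fun e => hne (f.symm u) ?_, Or.inr (by simp)⟩
          rw [Equiv.apply_symm_apply]; exact e.symm
  · intro A hA u w hu
    exact hc A ⟨u, hu⟩ (fun x hx => hA x (f x) ⟨hne x, Or.inl rfl⟩ hx) w

theorem GG.mono {k : ℕ} {F G : SimpleGraph V} (h : GG k G) (hle : F ≤ G) : GG k F :=
  fun a w hw => by simpa using h a (w.mapLe hle) (hw.mapLe hle)

theorem GG.le_girth {k : ℕ} {G : SimpleGraph V} (h : GG k G) (hc : ¬G.IsAcyclic) :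
    k ≤ G.girth := by
  obtain ⟨a, w, hw, e⟩ := exists_girth_eq_length.2 hc
  rw [e]; exact h a w hw

/-- a walk cannot be shorter than the growth of a potential -/
theorem walk_pot {G : SimpleGraph V} (φ : V → ℤ) {a b : V} (w : G.Walk a b)
    (h : ∀ u v, G.Adj u v → s(u, v) ∈ w.edges → φ v ≤ φ u + 1) : φ b ≤ φ a + w.length := by
  induction w with
  | nil => simp
  | cons hadj p ih =>
    have h1 := h _ _ hadj (by simp)
    have h2 := ih fun u v huv he => h u v huv (by simp [he])
    simp only [Walk.length_cons]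
    push_cast
    omega

/-- a cycle through the edge `a b` is this edge and a walk from `a` to `b` without it -/
theorem cycle_split [DecidableEq V] {G : SimpleGraph V} {x a b : V} {w : G.Walk x x}
    (hw : w.IsCycle) (he : s(a, b) ∈ w.edges) :
    ∃ p : G.Walk a b, p.length + 1 = w.length ∧ s(a, b) ∉ p.edges ∧
      ∀ e ∈ p.edges, e ∈ w.edges := by
  have ha : a ∈ w.support := w.fst_mem_support_of_mem_edges he
  have hr := hw.rotate ha
  have hperm := w.rotate_edges a ha
  have hlen : (w.rotate a ha).length = w.length := by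
    rw [← Walk.length_edges, ← Walk.length_edges]; exact hperm.perm.length_eq
  have he' : s(a, b) ∈ (w.rotate a ha).edges := hperm.mem_iff.2 he
  have hsub : ∀ e ∈ (w.rotate a ha).edges, e ∈ w.edges := fun e h => hperm.mem_iff.1 h
  generalize w.rotate a ha = q at hr hlen he' hsub
  have key : ∀ q : G.Walk a a, q.IsCycle → q.snd = b →
      ∃ p : G.Walk a b, p.length + 1 = q.length ∧ s(a, b) ∉ p.edges ∧
        ∀ e ∈ p.edges, e ∈ q.edges := by
    intro q hq hb
    cases q with
    | nil => exact absurd rfl hq.ne_nil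
    | cons hadj t =>
      simp only [Walk.snd_cons] at hb
      subst hb
      refine ⟨t.reverse, by simp, ?_, fun e h => ?_⟩
      · have := hq.isTrail.edges_nodup
        simp only [Walk.edges_cons, List.nodup_cons] at this
        simpa using this.1
      · simp only [Walk.edges_reverse, List.mem_reverse] at h
        simp [h]
  have hadj : q.toSubgraph.Adj a b := by
    rw [Walk.adj_toSubgraph_iff_mem_edges]; exact he'
  have hnb := hr.neighborSet_toSubgraph_endpoint
  have hb : b ∈ q.toSubgraph.neighborSet a := hadj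
  rw [hnb] at hb
  rcases hb with hb | hb
  · obtain ⟨p, h1, h2, h3⟩ := key q hr hb.symm
    exact ⟨p, h1.trans hlen, h2, fun e h => hsub e (h3 e h)⟩
  · obtain ⟨p, h1, h2, h3⟩ := key q.reverse hr.reverse (by rw [Walk.snd_reverse]; exact hb.symm)
    refine ⟨p, by simpa [hlen] using h1, h2, fun e h => hsub e ?_⟩
    simpa using h3 e h

/-- adding an edge between two far vertices keeps the girth -/
theorem GG.add_edge {k : ℕ} {G : SimpleGraph V} (h : GG k G) {a b : V}
    (hfar : ∀ p : G.Walk a b, k ≤ p.length + 1) : GG k (G ⊔ edge a b) := by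
  classical
  intro x w hw
  have tr : ∀ {u v : V} (p : (G ⊔ edge a b).Walk u v), s(a, b) ∉ p.edges →
      ∀ e ∈ p.edges, e ∈ G.edgeSet := by
    intro u v p hp e he
    have h1 := p.edges_subset_edgeSet he
    rw [edgeSet_sup] at h1
    rcases h1 with h1 | h1
    · exact h1
    · have := edgeSet_edge_subset h1
      rw [Set.mem_singleton_iff] at this
      exact absurd (this ▸ he) hp
  by_cases he : s(a, b) ∈ w.edges
  · obtain ⟨p, h1, h2, -⟩ := cycle_split hw he
    have := hfar (p.transfer G (tr p h2))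
    rw [Walk.length_transfer] at this
    omega
  · have := h x (w.transfer G (tr w he)) (hw.transfer _)
    rwa [Walk.length_transfer] at this

/-- Girth from ranks and potentials.  Outside the special edges `D` every vertex has at most one
neighbour whose rank is not smaller; every special edge has a potential. -/
theorem gg_of_rank {k : ℕ} {G : SimpleGraph V} (D : V → V → Prop) (ρ : V → ℕ)
    (hρ : ∀ v a b, G.Adj v a → G.Adj v b → a ≠ b → ρ v ≤ ρ a → ρ v ≤ ρ b →
      D v a ∨ D a v ∨ D v b ∨ D b v)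
    (hD : ∀ a b, D a b → ∃ φ : V → ℤ,
      (∀ u v, G.Adj u v → s(u, v) ≠ s(a, b) → φ v ≤ φ u + 1) ∧ φ a + k ≤ φ b + 1) : GG k G := by
  classical
  intro x w hw
  have fin : ∀ a b, D a b → s(a, b) ∈ w.edges → k ≤ w.length := by
    intro a b hab he
    obtain ⟨φ, h1, h2⟩ := hD a b hab
    obtain ⟨p, e1, e2, -⟩ := cycle_split hw he
    have := walk_pot φ p fun u v huv hm => h1 u v huv fun e => e2 (e ▸ hm)
    omega
  obtain ⟨v, hv, hmin⟩ := w.support.toFinset.exists_min_image ρ ⟨x, by simp⟩
  have hv' : v ∈ w.support := by simpa using hv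
  have h2 := hw.ncard_neighborSet_toSubgraph_eq_two hv'
  obtain ⟨a, b, hab, hN⟩ := Set.ncard_eq_two.1 h2
  have ha : w.toSubgraph.Adj v a := by
    have : a ∈ w.toSubgraph.neighborSet v := by rw [hN]; simp
    exact this
  have hb : w.toSubgraph.Adj v b := by
    have : b ∈ w.toSubgraph.neighborSet v := by rw [hN]; simp
    exact this
  have ea := (Walk.adj_toSubgraph_iff_mem_edges).1 ha
  have eb := (Walk.adj_toSubgraph_iff_mem_edges).1 hb
  rcases hρ v a b ha.adj_sub hb.adj_sub hab
    (hmin a (by simpa using w.snd_mem_support_of_mem_edges ea))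
    (hmin b (by simpa using w.snd_mem_support_of_mem_edges eb)) with h | h | h | h
  · exact fin _ _ h ea
  · exact fin _ _ h (Sym2.eq_swap ▸ ea)
  · exact fin _ _ h eb
  · exact fin _ _ h (Sym2.eq_swap ▸ eb)

/-- the vertices reached from `a` by a walk of length at most `r` -/
def Ball (G : SimpleGraph V) (a : V) (r : ℕ) : Set V := {b | ∃ p : G.Walk a b, p.length ≤ r}

theorem ball_card [Finite V] {G : SimpleGraph V} {Δ : ℕ} (h : ∀ v, (G.neighborSet v).ncard ≤ Δ)
    (a : V) (r : ℕ) : (Ball G a r).ncard ≤ (Δ + 1) ^ r := by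
  classical
  induction r with
  | zero =>
    have : Ball G a 0 ⊆ {a} := by
      rintro b ⟨p, hp⟩
      exact (Walk.eq_of_length_eq_zero (Nat.le_zero.1 hp)).symm
    simpa using Set.ncard_le_ncard this
  | succ r ih =>
    have := Fintype.ofFinite V
    have hs : (Ball G a (r + 1)).toFinset ⊆
        (Ball G a r).toFinset.biUnion fun v => insert v (G.neighborSet v).toFinset := by
      intro b hb
      obtain ⟨p, hp⟩ : b ∈ Ball G a (r + 1) := by simpa using hb
      simp only [Finset.mem_biUnion, Set.mem_toFinset, Finset.mem_insert, mem_neighborSet]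
      by_cases hl : p.length ≤ r
      · exact ⟨b, ⟨p, hl⟩, Or.inl rfl⟩
      · have hn : ¬p.Nil := by
          rw [Walk.not_nil_iff_lt_length]; omega
        refine ⟨p.penultimate, ⟨p.dropLast, ?_⟩, Or.inr (p.adj_penultimate hn)⟩
        have := Walk.length_dropLast_add_one hn
        omega
    have h1 := (Finset.card_le_card hs).trans (Finset.card_biUnion_le_card_mul _ _ (Δ + 1)
      fun v _ => (Finset.card_insert_le _ _).trans (by
        rw [← Set.ncard_eq_toFinset_card']; exact Nat.succ_le_succ (h v)))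
    rw [← Set.ncard_eq_toFinset_card', ← Set.ncard_eq_toFinset_card'] at h1
    rw [pow_succ]
    exact h1.trans (Nat.mul_le_mul_right _ ih)

theorem GG.add_edge_ball {k : ℕ} {G : SimpleGraph V} (h : GG k G) {a b : V}
    (hfar : b ∉ Ball G a k) : GG k (G ⊔ edge a b) :=
  h.add_edge fun p => by
    by_contra hc
    exact hfar ⟨p, by omega⟩

/-- Saturation: the conclusion is the body of the frozen statement. -/
theorem saturate [Fintype V] [DecidableEq V] {k : ℕ} {G K : SimpleGraph V} (hle : G ≤ K)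
    (hK : GG k K) (hn : ¬G.IsHamiltonian) (hc : ¬G.IsAcyclic)
    (hs : ∀ u v, u ≠ v → ¬K.Adj u v → (G ⊔ edge u v).IsHamiltonian) :
    ∃ n : ℕ, ∃ H : SimpleGraph (Fin n), ¬H.IsHamiltonian ∧
      (∀ u v : Fin n, u ≠ v → ¬H.Adj u v →
        (H ⊔ SimpleGraph.fromEdgeSet {s(u, v)}).IsHamiltonian) ∧
      ¬H.IsAcyclic ∧ k ≤ H.girth := by
  classical
  obtain ⟨M, ⟨h1, h2, h3⟩, hmax⟩ := Set.Finite.exists_maximal
    (Set.toFinite {M : SimpleGraph V | G ≤ M ∧ M ≤ K ∧ ¬M.IsHamiltonian}) ⟨G, le_rfl, hle, hn⟩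
  have hM : ∀ u v, u ≠ v → ¬M.Adj u v → (M ⊔ edge u v).IsHamiltonian := by
    intro u v huv hna
    by_cases hk : K.Adj u v
    · by_contra hc
      have h4 : M ⊔ edge u v ≤ K := sup_le h2 ((edge_le_iff K).2 (Or.inr hk))
      have h5 := hmax ⟨h1.trans le_sup_left, h4, hc⟩ le_sup_left
      exact hna (h5 (Or.inr ((edge_adj _ _ _ _).2 ⟨Or.inl ⟨rfl, rfl⟩, huv⟩)))
    · exact (hs u v huv hk).mono (sup_le_sup_right h1 _)
  have hMc : ¬M.IsAcyclic := fun h => hc (h.anti h1)
  let e := Fintype.equivFin V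
  have tr : ∀ X : SimpleGraph V, X.IsHamiltonian ↔ (X.comap e.symm).IsHamiltonian := by
    intro X
    have iso : X.comap e.symm ≃g X := Iso.comap e.symm X
    constructor
    · intro h hc1
      obtain ⟨a, p, hp⟩ := h (by simpa using hc1)
      exact ⟨_, p.map iso.symm.toHom, hp.map iso.symm.bijective⟩
    · intro h hc1
      obtain ⟨a, p, hp⟩ := h (by simpa using hc1)
      exact ⟨_, p.map iso.toHom, hp.map iso.bijective⟩
  have iso : M.comap e.symm ≃g M := Iso.comap e.symm M
  refine ⟨Fintype.card V, M.comap e.symm, fun h => h3 ((tr M).2 h), fun u v huv hna => ?_,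
    fun h => hMc (iso.isAcyclic_iff.1 h), ?_⟩
  · have h4 := (tr _).1 (hM (e.symm u) (e.symm v) (by simpa using huv) hna)
    refine h4.mono fun a b hab => ?_
    rcases hab with hab | hab
    · exact Or.inl hab
    · right
      rw [edge_adj] at hab
      simp only [EmbeddingLike.apply_eq_iff_eq, ne_eq] at hab
      rw [fromEdgeSet_adj]
      refine ⟨?_, hab.2⟩
      rcases hab.1 with ⟨rfl, rfl⟩ | ⟨rfl, rfl⟩
      · rfl
      · exact Sym2.eq_swap
  · rw [iso.girth_eq]
    exact (hK.mono h2).le_girth hMc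

end Pool.Agent.P.MP_439f1f_co
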