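import Pool.Agent.P.MP_439f1f_co.B9

/-!
Service by a finite check: a base configuration, a list of rewired lines, and the master theorems.
-/

set_option autoImplicit false

namespace Pool.Agent.P.MP_439f1f_co

open Function SimpleGraph Sum

variable {S Λ β : Type*} [LinearOrder β] {nx : S → S} {pos : S → β} {en : S → S} {ln : S → Λ}
  {m : ℕ} {hang hang' : Λ → ℕ → S → Prop} {c a b x y : S} {R0 G : Set S} {τ0 η0 : Λ → S}

theorem CO.nodup {l : List S} (h : CO pos l) : l.Nodup := by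
  obtain ⟨k, hk⟩ := h
  exact List.nodup_rotate.1 ((List.isChain_iff_pairwise.1 hk).imp fun h e => by
    rw [e] at h; exact lt_irrefl _ h)

open Classical in
/-- indicator of a proposition -/
noncomputable def ind (P : Prop) : ℕ := if P then 1 else 0

theorem ind_eq (P : Prop) [Decidable P] : (if P then 1 else 0) = ind P := by
  unfold ind
  congr

theorem ind_true : ind True = 1 := if_pos trivial

theorem ind_false : ind False = 0 := if_neg id

theorem rewire_fun [Finite Λ] {S' : Type*} (τ1 : Λ → S') :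
    ∀ Q : List (Λ × S'), (Q.map Prod.fst).Nodup → ∃ τ : Λ → S', (∀ q ∈ Q, τ q.1 = q.2) ∧
      (∀ L, (∀ q ∈ Q, L ≠ q.1) → τ L = τ1 L) ∧
      ∀ s, {L | τ L = s}.ncard + (Q.map fun q => ind (τ1 q.1 = s)).sum =
        {L | τ1 L = s}.ncard + (Q.map fun q => ind (q.2 = s)).sum
  | [], _ => ⟨τ1, by simp, fun _ _ => rfl, by simp⟩
  | q :: Q, h => by
    classical
    rw [List.map_cons, List.nodup_cons] at h
    obtain ⟨τ, h1, h2, h3⟩ := rewire_fun τ1 Q h.2
    have ne : ∀ q' ∈ Q, q.1 ≠ q'.1 := fun q' hq e => h.1 (List.mem_map.2 ⟨q', hq, e.symm⟩)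
    refine ⟨update τ q.1 q.2, fun q' hq => ?_, fun L hL => ?_, fun s => ?_⟩
    · rcases List.mem_cons.1 hq with rfl | hq
      · rw [update_self]
      · rw [update_of_ne (ne q' hq).symm, h1 q' hq]
    · rw [update_of_ne (hL q (by simp)), h2 L fun q' hq => hL q' (by simp [hq])]
    · have a1 := ncard_update τ q.1 q.2 s
      have a2 := h3 s
      rw [h2 _ ne] at a1
      simp only [List.map_cons, List.sum_cons, ind_eq] at a1 ⊢
      omega

/-- A base configuration: the tokens sit at `a` and `b`, both linked to `c`; the hubs of `G` have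
their default lines and may be used as cuts. -/
def Base (m : ℕ) (hang : Λ → ℕ → S → Prop) (c : S) (ln : S → Λ) (nx : S → S) (pos : S → β)
    (G : Set S) (a b : S) : Prop :=
  Set.InjOn ln G ∧ ∃ τ1 η1, Ends m hang a b τ1 η1 ∧ (∀ u ∈ G, τ1 (ln u) = u ∧ η1 (ln u) = nx u) ∧
    ∀ l : List S, l ≠ [] → CO pos l → (∀ z ∈ l, z ∈ G) → ∀ A : Set S,
      (∀ L, (∀ z ∈ l, L ≠ ln z) → (τ1 L ∈ A ↔ η1 L ∈ A)) →
      Arcs (fun s t => nx s ∈ A ↔ t ∈ A) l ∧ (a ∈ A ↔ c ∈ A) ∧ (b ∈ A ↔ c ∈ A) ∧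
        ((∀ z ∈ l, z ∈ A ↔ c ∈ A) → ∀ s t, s ∈ A → t ∈ A)

theorem Base.mono (h : Base m hang c ln nx pos G a b) (e : ∀ L i s, hang L i s → hang' L i s) :
    Base m hang' c ln nx pos G a b :=
  let ⟨h0, τ, η, h1, h2⟩ := h
  ⟨h0, τ, η, h1.mono e, h2⟩

theorem Base.symm (h : Base m hang c ln nx pos G a b) : Base m hang c ln nx pos G b a :=
  let ⟨h0, τ, η, h1, h2, h3⟩ := h
  ⟨h0, τ, η, h1.symm, h2, fun l a1 a2 a3 A a4 =>
    let ⟨b1, b2, b3, b4⟩ := h3 l a1 a2 a3 A a4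
    ⟨b1, b3, b2, b4⟩⟩

theorem Base.anti {G' : Set S} (h : Base m hang c ln nx pos G a b) (e : G' ⊆ G) :
    Base m hang c ln nx pos G' a b :=
  let ⟨h0, τ, η, h1, h2, h3⟩ := h
  ⟨h0.mono e, τ, η, h1, fun u hu => h2 u (e hu), fun l a1 a2 a3 =>
    h3 l a1 a2 fun z hz => e (a3 z hz)⟩

/-- two routes of even length give a base configuration -/
theorem Ref.base [Finite S] [Finite Λ] (r : Ref m hang c ln nx pos R0 en τ0 η0) {n p : ℕ}
    {v w : ℕ → S} (ra : Route hang c ln R0 en c (2 * n) v) (rb : Route hang c ln R0 en c (2 * p) w)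
    (dj : ∀ i < 2 * n, ∀ j < 2 * p, v (i + 1) ≠ w (j + 1)) :
    Base m hang c ln nx pos {z | z ≠ c ∧ Free pos (2 * n) v z ∧ Free pos (2 * p) w z}
      (v (2 * n)) (w (2 * p)) := by
  obtain ⟨τ, e, -, -, t3, h⟩ := r.two ra rb dj
  refine ⟨r.bij.injOn.mono fun _ h => h.1, τ, η0, e, fun u hu => ⟨t3 u hu.1
    (fun i hi => (r.ne_of_free ra hu.2.1 i (by omega)).symm)
    fun i hi => (r.ne_of_free rb hu.2.2 i (by omega)).symm, r.hd u hu.1⟩,
    fun l a1 a2 a3 A a4 => ?_⟩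
  have := h l a1 a2 a3 (by omega) (by omega) A a4
  rwa [show 2 * n / 2 = n by omega, show 2 * p / 2 = p by omega] at this

/-- Rewiring the lines of the cuts: `(z, t, h)` sends the tail of the line of `z` to `t` and its
head to `h`. -/
theorem Base.core [Finite Λ] (h : Base m hang c ln nx pos G a b) {S' : Type*} (ι : S → S')
    (Q : List (S × S' × S')) (ne : Q ≠ []) (co : CO pos (Q.map Prod.fst)) (hG : ∀ q ∈ Q, q.1 ∈ G) :
    ∃ (τ1 η1 : Λ → S) (τ η : Λ → S'), Ends m hang a b τ1 η1 ∧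
      (∀ q ∈ Q, τ (ln q.1) = q.2.1 ∧ η (ln q.1) = q.2.2) ∧
      (∀ L, (∀ q ∈ Q, L ≠ ln q.1) → τ L = ι (τ1 L) ∧ η L = ι (η1 L)) ∧
      (∀ s, {L | τ L = s}.ncard + {L | η L = s}.ncard +
          (Q.map fun q => ind (ι q.1 = s) + ind (ι (nx q.1) = s)).sum =
        {L | ι (τ1 L) = s}.ncard + {L | ι (η1 L) = s}.ncard +
          (Q.map fun q => ind (q.2.1 = s) + ind (q.2.2 = s)).sum) ∧
      ∀ A : Set S', (∀ L, (∀ q ∈ Q, L ≠ ln q.1) → (τ L ∈ A ↔ η L ∈ A)) →
        Arcs (fun s t => ι (nx s) ∈ A ↔ ι t ∈ A) (Q.map Prod.fst) ∧ (ι a ∈ A ↔ ι c ∈ A) ∧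
          (ι b ∈ A ↔ ι c ∈ A) ∧ ((∀ q ∈ Q, ι q.1 ∈ A ↔ ι c ∈ A) → ∀ s t, ι s ∈ A → ι t ∈ A) := by
  obtain ⟨inj, τ1, η1, e, d, f⟩ := h
  have nd : (Q.map fun q => ln q.1).Nodup := by
    have := co.nodup.map_on (f := ln) fun u hu w hw e => by
      obtain ⟨q, hq, rfl⟩ := List.mem_map.1 hu
      obtain ⟨q', hq', rfl⟩ := List.mem_map.1 hw
      exact inj (hG q hq) (hG q' hq') e
    rwa [List.map_map] at this
  obtain ⟨τ, a1, a2, a3⟩ := rewire_fun (fun L => ι (τ1 L)) (Q.map fun q => (ln q.1, q.2.1))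
    (by rwa [List.map_map])
  obtain ⟨η, b1, b2, b3⟩ := rewire_fun (fun L => ι (η1 L)) (Q.map fun q => (ln q.1, q.2.2))
    (by rwa [List.map_map])
  simp only [List.forall_mem_map, List.map_map, comp_def] at a1 a2 a3 b1 b2 b3
  have same : ∀ L, (∀ q ∈ Q, L ≠ ln q.1) → τ L = ι (τ1 L) ∧ η L = ι (η1 L) :=
    fun L hL => ⟨a2 L hL, b2 L hL⟩
  refine ⟨τ1, η1, τ, η, e, fun q hq => ⟨a1 q hq, b1 q hq⟩, same, fun s => ?_, fun A lk => ?_⟩
  · have c1 := a3 s
    have c2 := b3 s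
    rw [List.map_congr_left (g := fun q => ind (ι q.1 = s)) fun q hq => by
      rw [(d _ (hG q hq)).1]] at c1
    rw [List.map_congr_left (g := fun q => ind (ι (nx q.1) = s)) fun q hq => by
      rw [(d _ (hG q hq)).2]] at c2
    rw [List.sum_map_add, List.sum_map_add]
    omega
  · have := f (Q.map Prod.fst) (by simpa using ne) co (by simpa only [List.forall_mem_map] using hG)
      {s | ι s ∈ A} fun L hL => by
        simp only [List.forall_mem_map] at hL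
        have := lk L hL
        rwa [(same L hL).1, (same L hL).2] at this
    simpa only [List.forall_mem_map, Set.mem_ofPred_eq] using this

/-- the balance of a rewiring: new tokens and new ends against old tokens and old ends -/
def Bal (nx : S → S) (a b x y : S) (Q : List (S × S × S)) : Prop :=
  ∀ φ : S → ℕ, φ x + φ y + (Q.map fun q => φ q.2.1 + φ q.2.2).sum =
    φ a + φ b + (Q.map fun q => φ q.1 + φ (nx q.1)).sum

/-- **Rewiring**, real hubs. -/
theorem Base.rewire [Finite Λ] (h : Base m hang c ln nx pos G a b) (Q : List (S × S × S))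
    (ne : Q ≠ []) (co : CO pos (Q.map Prod.fst))
    (hG : ∀ q ∈ Q, q.1 ∈ G ∧ hang (ln q.1) 0 q.2.1 ∧ hang (ln q.1) m q.2.2)
    (bal : Bal nx a b x y Q) :
    ∃ τ η : Λ → S, Ends m hang x y τ η ∧ (∀ q ∈ Q, τ (ln q.1) = q.2.1 ∧ η (ln q.1) = q.2.2) ∧
      ∀ A : Set S, (∀ L, (∀ q ∈ Q, L ≠ ln q.1) → (τ L ∈ A ↔ η L ∈ A)) →
        Arcs (fun s t => nx s ∈ A ↔ t ∈ A) (Q.map Prod.fst) ∧ (a ∈ A ↔ c ∈ A) ∧
          (b ∈ A ↔ c ∈ A) ∧ ((∀ q ∈ Q, q.1 ∈ A ↔ c ∈ A) → ∀ s t, s ∈ A → t ∈ A) := by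
  classical
  obtain ⟨τ1, η1, τ, η, e, a1, a2, a3, a4⟩ := h.core id Q ne co fun q hq => (hG q hq).1
  have key : ∀ L, hang L 0 (τ L) ∧ hang L m (η L) := fun L => by
    by_cases hL : ∀ q ∈ Q, L ≠ ln q.1
    · rw [(a2 L hL).1, (a2 L hL).2]
      exact ⟨e.ht L, e.hh L⟩
    · push Not at hL
      obtain ⟨q, hq, rfl⟩ := hL
      rw [(a1 q hq).1, (a1 q hq).2]
      exact (hG q hq).2
  refine ⟨τ, η, ⟨fun L => (key L).1, fun L => (key L).2, fun s => ?_⟩, a1, a4⟩
  have b1 := a3 s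
  have b2 := e.load s
  have b3 := bal fun u => ind (u = s)
  simp only [id, ind_eq] at b1 b2 b3 ⊢
  omega

/-- **Master theorem, two hubs.** -/
theorem Base.pth [Finite Λ] (h : Base m hang c ln nx pos G a b) (Q : List (S × S × S))
    (ne : Q ≠ []) (co : CO pos (Q.map Prod.fst))
    (hG : ∀ q ∈ Q, q.1 ∈ G ∧ hang (ln q.1) 0 q.2.1 ∧ hang (ln q.1) m q.2.2)
    (bal : Bal nx a b x y Q)
    (fin : ∀ P : S → Prop, Arcs (fun s t => P (nx s) ↔ P t) (Q.map Prod.fst) → (P a ↔ P c) →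
      (P b ↔ P c) → (∀ q ∈ Q, P q.2.1 ↔ P q.2.2) → (P x ↔ P y) → ∀ q ∈ Q, P q.1 ↔ P c) :
    Pth m hang x y := by
  obtain ⟨τ, η, e, a1, a2⟩ := h.rewire Q ne co hG bal
  refine ⟨τ, η, e, fun A lk xy => ?_⟩
  obtain ⟨b1, b2, b3, b4⟩ := a2 A fun L _ => lk L
  refine b4 (fin (· ∈ A) b1 b2 b3 (fun q hq => ?_) xy)
  have := lk (ln q.1)
  rwa [(a1 q hq).1, (a1 q hq).2] at this

/-- **Master theorem, one gap**, on the line of the first cut `u`. -/
theorem Base.cut [Finite Λ] (h : Base m hang c ln nx pos G a b) (u t d : S)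
    (Q : List (S × S × S)) (co : CO pos (u :: Q.map Prod.fst))
    (hG : ∀ q ∈ (u, t, d) :: Q, q.1 ∈ G ∧ hang (ln q.1) 0 q.2.1 ∧ hang (ln q.1) m q.2.2)
    (bal : Bal nx a b x y ((u, t, d) :: Q))
    (fin : ∀ P : S → Prop, Arcs (fun s t => P (nx s) ↔ P t) (u :: Q.map Prod.fst) → (P a ↔ P c) →
      (P b ↔ P c) → (∀ q ∈ Q, P q.2.1 ↔ P q.2.2) → (P t ↔ P x) → (P y ↔ P d) →
      (P u ↔ P c) ∧ ∀ q ∈ Q, P q.1 ↔ P c) :
    Cut m hang (ln u) x y := by
  obtain ⟨τ, η, e, a1, a2⟩ := h.rewire ((u, t, d) :: Q) (by simp) co hG bal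
  refine ⟨τ, η, e, fun A lk c1 c2 => ?_⟩
  obtain ⟨b1, b2, b3, b4⟩ := a2 A fun L hL => lk L (hL (u, t, d) (by simp))
  have a0 := a1 (u, t, d) (by simp)
  rw [a0.1] at c1
  rw [a0.2] at c2
  refine b4 (List.forall_mem_cons.2 (fin (· ∈ A) b1 b2 b3 (fun q hq => ?_) c1 c2))
  have hq' : q ∈ (u, t, d) :: Q := List.mem_cons_of_mem _ hq
  have := lk (ln q.1) fun e => (List.nodup_cons.1 co.nodup).1
    (List.mem_map.2 ⟨q, hq, h.1 (hG q hq').1 (hG (u, t, d) (by simp)).1 e⟩)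
  rwa [(a1 q hq').1, (a1 q hq').2] at this

/-- the balance of a rewiring with the virtual hub `none` and two gaps -/
def BalO (nx : S → S) (a b : S) (x1 y1 x2 y2 : Option S) (Q : List (S × Option S × Option S)) :
    Prop :=
  ∀ φ : Option S → ℕ, φ x1 + φ y1 + φ x2 + φ y2 + (Q.map fun q => φ q.2.1 + φ q.2.2).sum =
    φ (some a) + φ (some b) + 2 * φ none + (Q.map fun q => φ (some q.1) + φ (some (nx q.1))).sum

/-- **Rewiring** with the virtual hub. -/
theorem Base.rewireO [Finite Λ] (h : Base m hang c ln nx pos G a b) {p q : Λ × Fin (m + 1)}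
    {x1 y1 x2 y2 : Option S} (Q : List (S × Option S × Option S)) (ne : Q ≠ [])
    (co : CO pos (Q.map Prod.fst))
    (hG : ∀ z ∈ Q, z.1 ∈ G ∧ hangO hang p q (ln z.1) 0 z.2.1 ∧ hangO hang p q (ln z.1) m z.2.2)
    (bal : BalO nx a b x1 y1 x2 y2 Q) :
    ∃ τ η : Λ → Option S, (∀ L, hangO hang p q L 0 (τ L)) ∧ (∀ L, hangO hang p q L m (η L)) ∧
      (∀ s, {L | τ L = s}.ncard + {L | η L = s}.ncard +
        (ind (x1 = s) + ind (x2 = s)) + (ind (y1 = s) + ind (y2 = s)) = 2) ∧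
      (∀ z ∈ Q, τ (ln z.1) = z.2.1 ∧ η (ln z.1) = z.2.2) ∧
      ∀ A : Set (Option S), (∀ L, (∀ z ∈ Q, L ≠ ln z.1) → (τ L ∈ A ↔ η L ∈ A)) →
        Arcs (fun s t => some (nx s) ∈ A ↔ some t ∈ A) (Q.map Prod.fst) ∧
          (some a ∈ A ↔ some c ∈ A) ∧ (some b ∈ A ↔ some c ∈ A) ∧
          ((none ∈ A ↔ some c ∈ A) → (∀ z ∈ Q, some z.1 ∈ A ↔ some c ∈ A) →
            ∀ s t, s ∈ A → t ∈ A) := by
  obtain ⟨τ1, η1, τ, η, e, a1, a2, a3, a4⟩ := h.core some Q ne co fun q hq => (hG q hq).1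
  have key : ∀ L, hangO hang p q L 0 (τ L) ∧ hangO hang p q L m (η L) := fun L => by
    by_cases hL : ∀ z ∈ Q, L ≠ ln z.1
    · rw [(a2 L hL).1, (a2 L hL).2]
      exact ⟨e.ht L, e.hh L⟩
    · push Not at hL
      obtain ⟨z, hz, rfl⟩ := hL
      rw [(a1 z hz).1, (a1 z hz).2]
      exact (hG z hz).2
  refine ⟨τ, η, fun L => (key L).1, fun L => (key L).2, fun s => ?_, a1, fun A lk => ?_⟩
  · have b1 := a3 s
    have b3 := bal fun u => ind (u = s)
    rcases s with _ | s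
    · simp only [reduceCtorEq, ind_false, ind_true, Set.ofPred_false, Set.ncard_empty] at b1 b3
      omega
    · have b2 := e.load s
      simp only [Option.some.injEq, reduceCtorEq, ind_false, ind_eq] at b1 b2 b3
      omega
  · obtain ⟨b1, b2, b3, b4⟩ := a4 A lk
    exact ⟨b1, b2, b3, fun h0 h1 => all_opt h0.symm (b4 h1)⟩

section
variable [Fintype S] [Fintype Λ] [DecidableEq S] [DecidableEq Λ]

/-- **Master theorem, two vertices, gaps on two lines** (of the cuts `u1`, `u2`).  The virtual hub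
`none` stands for the new edge; it holds the vertices `p` and `q`. -/
theorem Base.ppDiff (h : Base m hang c ln nx pos G a b) {p q : Λ × Fin (m + 1)} (hpq : p ≠ q)
    (hn : ¬(HL m hang).Adj (inr p) (inr q)) (u1 : S) (t1 d1 : Option S)
    (Q1 : List (S × Option S × Option S)) (u2 : S) (t2 d2 : Option S)
    (Q2 : List (S × Option S × Option S)) (i1 i2 : ℕ) (x1 y1 x2 y2 : Option S) (l1 : i1 < m)
    (l2 : i2 < m) (hx1 : hangO hang p q (ln u1) i1 x1) (hy1 : hangO hang p q (ln u1) (i1 + 1) y1)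
    (hx2 : hangO hang p q (ln u2) i2 x2) (hy2 : hangO hang p q (ln u2) (i2 + 1) y2)
    (co : CO pos (u1 :: (Q1.map Prod.fst ++ u2 :: Q2.map Prod.fst)))
    (hG : ∀ z ∈ (u1, t1, d1) :: (Q1 ++ (u2, t2, d2) :: Q2),
      z.1 ∈ G ∧ hangO hang p q (ln z.1) 0 z.2.1 ∧ hangO hang p q (ln z.1) m z.2.2)
    (bal : BalO nx a b x1 y1 x2 y2 ((u1, t1, d1) :: (Q1 ++ (u2, t2, d2) :: Q2)))
    (fin : ∀ P : Option S → Prop, Arcs (fun s t => P (some (nx s)) ↔ P (some t))
        (u1 :: (Q1.map Prod.fst ++ u2 :: Q2.map Prod.fst)) → (P (some a) ↔ P (some c)) →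
      (P (some b) ↔ P (some c)) → (∀ z ∈ Q1 ++ Q2, P z.2.1 ↔ P z.2.2) → (P t1 ↔ P x1) →
      (P y1 ↔ P d1) → (P t2 ↔ P x2) → (P y2 ↔ P d2) →
      (P none ↔ P (some c)) ∧ (P (some u1) ↔ P (some c)) ∧ (P (some u2) ↔ P (some c)) ∧
        ∀ z ∈ Q1 ++ Q2, P (some z.1) ↔ P (some c)) :
    (HL m hang ⊔ edge (inr p) (inr q)).IsHamiltonian := by
  have : Nonempty S := ⟨c⟩
  have nd := co.nodup
  obtain ⟨τ, η, ht, hh, load, a1, a2⟩ := h.rewireO ((u1, t1, d1) :: (Q1 ++ (u2, t2, d2) :: Q2))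
    (by simp) (by simpa using co) hG bal
  have g1 := (hG (u1, t1, d1) (by simp)).1
  have g2 := (hG (u2, t2, d2) (by simp)).1
  have hl : ln u1 ≠ ln u2 := fun e => by
    have := h.1 g1 g2 e
    simp only at this
    simp [this] at nd
  refine serve_pp (by omega) hpq hn (Cfg.of (Γ := Bool) (gl := fun k => cond k (ln u2) (ln u1))
    (gi := fun k => cond k i2 i1) (x := fun k => cond k x2 x1) (y := fun k => cond k y2 y1)
    (τ := τ) (η := η) ?_ ?_ ht hh ?_ ?_ (fun s => ?_) fun A c1 c2 c3 _ _ => ?_)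
  · rintro (_ | _); exacts [l1, l2]
  · rintro (_ | _) (_ | _) e _
    exacts [rfl, absurd e hl, absurd e hl.symm, rfl]
  · rintro (_ | _); exacts [hx1, hx2]
  · rintro (_ | _); exacts [hy1, hy2]
  · rw [ncard_bool, ncard_bool, ← load s]; simp [ind_eq]
  · obtain ⟨b1, b2, b3, b4⟩ := a2 A fun L hL => c1 L (by
      rintro (_ | _)
      exacts [(hL (u1, t1, d1) (by simp)).symm, (hL (u2, t2, d2) (by simp)).symm])
    have e1 := a1 (u1, t1, d1) (by simp)
    have e2 := a1 (u2, t2, d2) (by simp)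
    have f1 := c2 false (by rintro (_ | _) e; exacts [le_rfl, absurd e hl.symm])
    have f2 := c3 false (by rintro (_ | _) e; exacts [le_rfl, absurd e hl.symm])
    have f3 := c2 true (by rintro (_ | _) e; exacts [absurd e hl, le_rfl])
    have f4 := c3 true (by rintro (_ | _) e; exacts [absurd e hl, le_rfl])
    simp only [cond_false, cond_true, e1.1, e1.2, e2.1, e2.2] at f1 f2 f3 f4
    have k := fin (· ∈ A) (by simpa using b1) b2 b3 (fun z hz => ?_) f1 f2 f3 f4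
    · obtain ⟨k1, k2, k3, k4⟩ := k
      refine b4 k1 fun z hz => ?_
      simp only [List.mem_cons, List.mem_append] at hz
      rcases hz with rfl | hz | rfl | hz
      exacts [k2, k4 z (by simp [hz]), k3, k4 z (by simp [hz])]
    · have hz' : z ∈ (u1, t1, d1) :: (Q1 ++ (u2, t2, d2) :: Q2) := by
        rcases List.mem_append.1 hz with hz | hz <;> simp [hz]
      have hm : z.1 ∈ Q1.map Prod.fst ++ Q2.map Prod.fst := by
        rw [← List.map_append]
        exact List.mem_map_of_mem hz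
      have := c1 (ln z.1) (by
        rintro (_ | _) e
        · rw [← h.1 g1 (hG z hz').1 e] at hm
          refine (List.nodup_cons.1 nd).1 ?_
          rcases List.mem_append.1 hm with hm | hm
          exacts [List.mem_append_left _ hm, List.mem_append_right _ (List.mem_cons_of_mem _ hm)]
        · rw [← h.1 g2 (hG z hz').1 e] at hm
          rw [List.nodup_cons, List.nodup_middle, List.nodup_cons] at nd
          exact nd.2.1 hm)
      rwa [(a1 z hz').1, (a1 z hz').2] at this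

/-- **Master theorem, two vertices, two gaps `i1 < i2` on the line of the first cut `u`.** -/
theorem Base.ppSame (h : Base m hang c ln nx pos G a b) {p q : Λ × Fin (m + 1)} (hpq : p ≠ q)
    (hn : ¬(HL m hang).Adj (inr p) (inr q)) (u : S) (t d : Option S)
    (Q : List (S × Option S × Option S)) (i1 i2 : ℕ) (x1 y1 x2 y2 : Option S) (l1 : i1 < i2)
    (l2 : i2 < m) (hx1 : hangO hang p q (ln u) i1 x1) (hy1 : hangO hang p q (ln u) (i1 + 1) y1)
    (hx2 : hangO hang p q (ln u) i2 x2) (hy2 : hangO hang p q (ln u) (i2 + 1) y2)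
    (co : CO pos (u :: Q.map Prod.fst))
    (hG : ∀ z ∈ (u, t, d) :: Q,
      z.1 ∈ G ∧ hangO hang p q (ln z.1) 0 z.2.1 ∧ hangO hang p q (ln z.1) m z.2.2)
    (bal : BalO nx a b x1 y1 x2 y2 ((u, t, d) :: Q))
    (fin : ∀ P : Option S → Prop, Arcs (fun s t => P (some (nx s)) ↔ P (some t))
        (u :: Q.map Prod.fst) → (P (some a) ↔ P (some c)) →
      (P (some b) ↔ P (some c)) → (∀ z ∈ Q, P z.2.1 ↔ P z.2.2) → (P t ↔ P x1) →
      (P y1 ↔ P x2) → (P y2 ↔ P d) →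
      (P none ↔ P (some c)) ∧ (P (some u) ↔ P (some c)) ∧ ∀ z ∈ Q, P (some z.1) ↔ P (some c)) :
    (HL m hang ⊔ edge (inr p) (inr q)).IsHamiltonian := by
  have : Nonempty S := ⟨c⟩
  obtain ⟨τ, η, ht, hh, load, a1, a2⟩ := h.rewireO ((u, t, d) :: Q) (by simp) co hG bal
  refine serve_pp (by omega) hpq hn (Cfg.of (Γ := Bool) (gl := fun _ => ln u)
    (gi := fun k => cond k i2 i1) (x := fun k => cond k x2 x1) (y := fun k => cond k y2 y1)
    (τ := τ) (η := η) ?_ ?_ ht hh ?_ ?_ (fun s => ?_) fun A c1 c2 c3 c4 _ => ?_)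
  · rintro (_ | _); exacts [l1.trans l2, l2]
  · rintro (_ | _) (_ | _) _ e
    exacts [rfl, absurd e l1.ne, absurd e l1.ne', rfl]
  · rintro (_ | _); exacts [hx1, hx2]
  · rintro (_ | _); exacts [hy1, hy2]
  · rw [ncard_bool, ncard_bool, ← load s]; simp [ind_eq]
  · obtain ⟨b1, b2, b3, b4⟩ := a2 A fun L hL => c1 L fun _ => (hL (u, t, d) (by simp)).symm
    have e1 := a1 (u, t, d) (by simp)
    have f1 := c2 false (by rintro (_ | _) -; exacts [le_rfl, l1.le])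
    have f2 := c4 false true rfl l1 (by rintro (_ | _) -; exacts [Or.inl le_rfl, Or.inr le_rfl])
    have f3 := c3 true (by rintro (_ | _) -; exacts [l1.le, le_rfl])
    simp only [cond_false, cond_true, e1.1, e1.2] at f1 f2 f3
    have k := fin (· ∈ A) b1 b2 b3 (fun z hz => ?_) f1 f2 f3
    · exact b4 k.1 (List.forall_mem_cons.2 k.2)
    · have hz' : z ∈ (u, t, d) :: Q := List.mem_cons_of_mem _ hz
      have := c1 (ln z.1) fun _ e => (List.nodup_cons.1 co.nodup).1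
        (List.mem_map.2 ⟨z, hz, h.1 (hG z hz').1 (hG (u, t, d) (by simp)).1 e.symm⟩)
      rwa [(a1 z hz').1, (a1 z hz').2] at this

end

/-! ### two examples that show the use -/

theorem Base.pth_two [Finite Λ] (h : Base m hang c ln nx pos G a b) (hx : x ∈ G) (hy : y ∈ G)
    (h1 : hang (ln x) 0 a) (h2 : hang (ln y) 0 b) (h3 : hang (ln x) m (nx x))
    (h4 : hang (ln y) m (nx y)) (ne : pos x ≠ pos y) : Pth m hang x y :=
  h.pth [(x, a, nx x), (y, b, nx y)] (by simp) (co_two ne) (by simp [*])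
    (fun φ => by simp; omega) fun P => by simp; tauto

theorem Base.cut_three [Finite Λ] (h : Base m hang c ln nx pos G a b) {u : S} (hu : u ∈ G)
    (hx : x ∈ G) (hy : y ∈ G) (h1 : hang (ln x) 0 a) (h2 : hang (ln y) 0 b) (h0 : hang (ln u) 0 u)
    (h3 : ∀ s ∈ G, hang (ln s) m (nx s)) (co : CO pos [u, x, y]) : Cut m hang (ln u) x y :=
  h.cut u u (nx u) [(x, a, nx x), (y, b, nx y)] co (by simp [*])
    (fun φ => by simp; omega) fun P => by simp; tauto

end Pool.Agent.P.MP_439f1f_co
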