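import Pool.Agent.P.MP_439f1f_co.B10

/-!
Service by a finite check, indexed by lines: any list of transparent routes from any bases.
-/

set_option autoImplicit false

namespace Pool.Agent.P.MP_439f1f_co

open Function SimpleGraph Sum

variable {S Λ β : Type*} [LinearOrder β] {nxt en : Λ → Λ} {pos : Λ → β} {hb : Λ → S}
  {m : ℕ} {hang hang' : Λ → ℕ → S → Prop} {c x y : S} {R R0 G : Set Λ} {τ η : Λ → S}
  {T : List (S × S)}

/-- **Frame**, indexed by lines: `hb L` is the hub at the default tail of `L`. -/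
theorem lframe [Finite Λ] (o : Cyc Set.univ nxt pos) (k : Pieces Set.univ pos R en)
    (dis : R ⊆ Out Set.univ pos R en) {l : List Λ} (hl : l ≠ []) (hz : CO pos l)
    (zo : ∀ z ∈ l, z ∈ Out Set.univ pos R en) (p2 : ∀ r ∈ R, r ∉ l → τ (en r) = hb r)
    (hτ : ∀ u, u ∉ l → u ∉ R → u ∉ en '' R → τ u = hb u)
    (hη : ∀ u, (∀ z ∈ l, u ≠ jump R en z) → η u = hb (nxt u)) {A : Set S}
    (lk : ∀ u, (∀ z ∈ l, u ≠ jump R en z) → (τ u ∈ A ↔ η u ∈ A)) :
    Arcs (fun a b => hb (nxt (jump R en a)) ∈ A ↔ hb b ∈ A) l ∧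
      (∀ r ∈ R, τ r ∈ A ↔ hb (en r) ∈ A) ∧
      ∀ u, (∃ z ∈ l, (hb u ∈ A ↔ hb z ∈ A)) ∨ ∃ r ∈ R, (hb u ∈ A ↔ hb (en r) ∈ A) := by
  have c := (o.excise k).cuts (P := fun u => hb u ∈ A) hl hz zo fun u hu h => by
    have h1 : ∀ z ∈ l, jump R en u ≠ jump R en z := fun z hz e =>
      h (k.jump_inj o.inj hu (zo z hz) e ▸ hz)
    have h2 := lk _ h1
    rw [hη _ h1] at h2
    by_cases hR : u ∈ R
    · rw [jump_of_mem hR] at h2 ⊢
      rwa [p2 u hR h] at h2
    · rw [jump_of_not_mem hR] at h2 ⊢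
      rwa [hτ u h hR] at h2
      rintro ⟨r, hr, rfl⟩
      exact hu.2 r hr ⟨k.lt r hr, le_rfl⟩
  have nj : ∀ r ∈ R, ∀ v, pos r ≤ pos v → pos v < pos (en r) → ∀ z ∈ l, v ≠ jump R en z := by
    rintro r hr _ a b z hz rfl
    have a1 := k.le_jump z
    have a2 := (zo z hz).2 r hr
    rcases lt_trichotomy (pos z) (pos r) with h | h | h
    · exact absurd (jump_lt (dis hr) h) (not_lt.2 a)
    · rw [o.inj trivial trivial h, jump_of_mem hr] at b
      exact lt_irrefl _ b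
    · exact a2 ⟨h, a1.trans b.le⟩
  have ins : ∀ r ∈ R, ∀ v ∈ Set.univ, pos r < pos v → pos v < pos (en r) →
      (hb v ∈ A ↔ hb (nxt v) ∈ A) := by
    intro r hr v _ a b
    have h1 := nj r hr v a.le b
    have h2 := lk v h1
    rwa [hη v h1, hτ v] at h2
    · exact fun h => (zo v h).2 r hr ⟨a, b.le⟩
    · exact fun h => (dis h).2 r hr ⟨a, b.le⟩
    · rintro ⟨s, hs, rfl⟩
      have a3 := k.lt s hs
      rcases lt_trichotomy (pos s) (pos r) with h | h | h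
      · exact (dis hr).2 s hs ⟨h, a.le⟩
      · rw [o.inj trivial trivial h] at b
        exact lt_irrefl _ b
      · exact (dis hs).2 r hr ⟨h, (a3.trans b).le⟩
  refine ⟨c.1, fun r hr => ?_, fun u => ?_⟩
  · have h1 := nj r hr r le_rfl (k.lt r hr)
    have h2 := lk r h1
    rw [hη r h1] at h2
    exact h2.trans (o.seg (P := fun u => hb u ∈ A) trivial trivial (k.lt r hr) (ins r hr))
  · by_cases h : u ∈ Out Set.univ pos R en
    · exact Or.inl (c.2 u h)
    · obtain ⟨r, hr, a⟩ : ∃ r ∈ R, pos r < pos u ∧ pos u ≤ pos (en r) := by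
        by_contra hc
        exact h ⟨trivial, fun r hr a => hc ⟨r, hr, a⟩⟩
      exact Or.inr ⟨r, hr, o.piece (P := fun u => hb u ∈ A) k hr trivial a.1 a.2 (ins r hr)⟩

/-- The reference order of a state, indexed by lines, with its pass pairs `(r, en r)`. -/
structure LRef (m : ℕ) (hang : Λ → ℕ → S → Prop) (c : S) (hb : Λ → S) (nxt : Λ → Λ)
    (pos : Λ → β) (R0 : Set Λ) (en : Λ → Λ) : Prop where
  cyc : Cyc Set.univ nxt pos
  sur : ∀ s, s = c ∨ ∃ L, hb L = s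
  ends : Ends m hang c c hb fun L => hb (nxt L)
  lt : ∀ r ∈ R0, pos r < pos (en r)
  dis : ∀ r ∈ R0, ∀ s ∈ R0, pos r < pos s → pos (en r) < pos s

/-- A transparent route: a base hub `b` and `n` pass pairs `v (2j)`, `v (2j+1)`. -/
structure Rt (S Λ : Type*) where
  b : S
  n : ℕ
  v : ℕ → Λ

/-- the hubs of a route: the base, then the hubs of the lines -/
def Rt.hub (hb : Λ → S) (r : Rt S Λ) : ℕ → S
  | 0 => r.b
  | i + 1 => hb (r.v i)

/-- the hub at which the token ends -/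
def Rt.e (hb : Λ → S) (r : Rt S Λ) : S := r.hub hb (2 * r.n)

/-- the route is admissible -/
structure Rt.Ok (hang : Λ → ℕ → S → Prop) (hb : Λ → S) (R0 : Set Λ) (en : Λ → Λ) (r : Rt S Λ) :
    Prop where
  inj : ∀ i j, i < j → j < 2 * r.n → r.v i ≠ r.v j
  hg : ∀ i < 2 * r.n, hang (r.v i) 0 (r.hub hb i)
  pass : ∀ j < r.n, r.v (2 * j) ∈ R0 ∧ en (r.v (2 * j)) = r.v (2 * j + 1)

/-- the line `u` is outside the pieces of the route and is not the start of a piece -/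
def Rt.Free (pos : Λ → β) (r : Rt S Λ) (u : Λ) : Prop :=
  ∀ j < r.n, pos u < pos (r.v (2 * j)) ∨ pos (r.v (2 * j + 1)) < pos u

/-- two routes use different lines -/
def Rt.Dis (r s : Rt S Λ) : Prop := ∀ i < 2 * r.n, ∀ j < 2 * s.n, r.v i ≠ s.v j

/-- A base configuration.  `T` lists the pairs (end, base) of the routes; the lines of `G` are at
their default and may be used as cuts. -/
def LBase (m : ℕ) (hang : Λ → ℕ → S → Prop) (c : S) (hb : Λ → S) (nxt : Λ → Λ) (pos : Λ → β)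
    (G : Set Λ) (T : List (S × S)) : Prop :=
  ∃ τ1 η1 : Λ → S, (∀ L, hang L 0 (τ1 L)) ∧ (∀ L, hang L m (η1 L)) ∧
    (∀ s, {L | τ1 L = s}.ncard + {L | η1 L = s}.ncard + 2 * ind (c = s) +
      (T.map fun t => ind (t.1 = s)).sum = 2 + (T.map fun t => ind (t.2 = s)).sum) ∧
    (∀ u ∈ G, τ1 u = hb u ∧ η1 u = hb (nxt u)) ∧
    ∀ l : List Λ, l ≠ [] → CO pos l → (∀ z ∈ l, z ∈ G) → ∀ A : Set S,
      (∀ L, L ∉ l → (τ1 L ∈ A ↔ η1 L ∈ A)) →
      Arcs (fun s t => hb (nxt s) ∈ A ↔ hb t ∈ A) l ∧ (∀ t ∈ T, t.1 ∈ A ↔ t.2 ∈ A) ∧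
        ((∀ z ∈ l, hb z ∈ A ↔ c ∈ A) → (∀ t ∈ T, t.2 ∈ A ↔ c ∈ A) → ∀ s t, s ∈ A → t ∈ A)

theorem LBase.mono (h : LBase m hang c hb nxt pos G T) (e : ∀ L i s, hang L i s → hang' L i s) :
    LBase m hang' c hb nxt pos G T :=
  let ⟨τ, η, h1, h2, h3⟩ := h
  ⟨τ, η, fun L => e _ _ _ (h1 L), fun L => e _ _ _ (h2 L), h3⟩

theorem LBase.anti {G' : Set Λ} (h : LBase m hang c hb nxt pos G T) (e : G' ⊆ G) :
    LBase m hang c hb nxt pos G' T :=
  let ⟨τ, η, h0, h1, h2, h3, h4⟩ := h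
  ⟨τ, η, h0, h1, h2, fun u hu => h3 u (e hu), fun l a1 a2 a3 => h4 l a1 a2 fun z hz => e (a3 z hz)⟩

theorem route_fun [Finite Λ] {n : ℕ} (v : ℕ → S) (l : ℕ → Λ)
    (inj : ∀ i j, i < j → j < n → l i ≠ l j) (h1 : ∀ i < n, τ (l i) = v (i + 1)) :
    ∃ τ' : Λ → S, (∀ i < n, τ' (l i) = v i) ∧ (∀ L, (∀ i < n, L ≠ l i) → τ' L = τ L) ∧
      ∀ s, {L | τ' L = s}.ncard + ind (v n = s) = {L | τ L = s}.ncard + ind (v 0 = s) := by
  classical
  induction n with
  | zero => exact ⟨τ, fun _ h => absurd h (Nat.not_lt_zero _), fun _ _ => rfl, fun _ => rfl⟩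
  | succ n ih =>
    obtain ⟨τ', a2, a3, a1⟩ := ih (fun i j a b => inj i j a (by omega)) fun i a => h1 i (by omega)
    have a4 : τ' (l n) = v (n + 1) := by
      rw [a3 _ fun i a => (inj i n a (by omega)).symm, h1 n (by omega)]
    refine ⟨update τ' (l n) (v n), fun i a => ?_, fun L a => ?_, fun s => ?_⟩
    · by_cases h : i = n
      · rw [h, update_self]
      · rw [update_of_ne (inj i n (by omega) (by omega)), a2 i (by omega)]
    · rw [update_of_ne (a n (by omega)), a3 L fun i b => a i (by omega)]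
    · have b1 := ncard_update τ' (l n) (v n) s
      have b2 := a1 s
      simp only [a4, ind_eq] at b1
      omega

theorem routes_fun [Finite Λ] (hb : Λ → S) : ∀ Rs : List (Rt S Λ),
    (∀ r ∈ Rs, ∀ i j, i < j → j < 2 * r.n → r.v i ≠ r.v j) → Rs.Pairwise Rt.Dis →
    ∃ τ : Λ → S, (∀ r ∈ Rs, ∀ i < 2 * r.n, τ (r.v i) = r.hub hb i) ∧
      (∀ L, (∀ r ∈ Rs, ∀ i < 2 * r.n, L ≠ r.v i) → τ L = hb L) ∧
      ∀ s, {L | τ L = s}.ncard + (Rs.map fun r => ind (r.e hb = s)).sum =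
        {L | hb L = s}.ncard + (Rs.map fun r => ind (r.b = s)).sum
  | [], _, _ => ⟨hb, by simp, fun _ _ => rfl, by simp⟩
  | r :: Rs, h, d => by
    rw [List.pairwise_cons] at d
    obtain ⟨τ, a1, a2, a3⟩ := routes_fun hb Rs (fun s hs => h s (List.mem_cons_of_mem _ hs)) d.2
    obtain ⟨τ', b1, b2, b3⟩ := route_fun (τ := τ) (r.hub hb) r.v (h r (by simp))
      fun i hi => a2 _ fun s hs j hj => d.1 s hs i hi j hj
    refine ⟨τ', fun s hs i hi => ?_, fun L hL => ?_, fun s => ?_⟩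
    · rcases List.mem_cons.1 hs with rfl | hs
      · exact b1 i hi
      · rw [b2 _ fun j hj => (d.1 s hs j hj i hi).symm, a1 s hs i hi]
    · rw [b2 L (hL r (by simp)), a2 L fun s hs => hL s (List.mem_cons_of_mem _ hs)]
    · have c1 := a3 s
      have c2 : _ + ind (r.e hb = s) = _ + ind (r.b = s) := b3 s
      simp only [List.map_cons, List.sum_cons]
      omega

theorem LRef.ne_of_free (k : LRef m hang c hb nxt pos R0 en) {r : Rt S Λ}
    (a : r.Ok hang hb R0 en) {u : Λ} (f : r.Free pos u) (i : ℕ) (hi : i < 2 * r.n) :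
    u ≠ r.v i := by
  intro e
  rcases Nat.even_or_odd' i with ⟨j, rfl | rfl⟩ <;>
  · have := k.lt _ (a.pass j (by omega)).1
    rw [(a.pass j (by omega)).2] at this
    have := f j (by omega)
    grind

/-- **Any list of disjoint routes gives a base configuration.** -/
theorem LRef.base [Finite Λ] (k : LRef m hang c hb nxt pos R0 en) (Rs : List (Rt S Λ))
    (ok : ∀ r ∈ Rs, r.Ok hang hb R0 en) (dj : Rs.Pairwise Rt.Dis) :
    LBase m hang c hb nxt pos {z | ∀ r ∈ Rs, r.Free pos z} (Rs.map fun r => (r.e hb, r.b)) := by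
  classical
  obtain ⟨τ, a1, a2, a3⟩ := routes_fun hb Rs (fun r hr => (ok r hr).inj) dj
  refine ⟨τ, fun L => hb (nxt L), fun L => ?_, k.ends.hh, fun s => ?_, fun u hu =>
    ⟨a2 u fun r hr => k.ne_of_free (ok r hr) (hu r hr), rfl⟩, fun l hl hz zf A lk => ?_⟩
  · by_cases h : ∀ r ∈ Rs, ∀ i < 2 * r.n, L ≠ r.v i
    · rw [a2 L h]
      exact k.ends.ht L
    · push Not at h
      obtain ⟨r, hr, i, hi, rfl⟩ := h
      rw [a1 r hr i hi]
      exact (ok r hr).hg i hi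
  · have b1 := a3 s
    have b2 := k.ends.load s
    simp only [List.map_map, comp_def, ind_eq] at b2 ⊢
    omega
  let R : Set Λ := {u | ∃ r ∈ Rs, ∃ j < r.n, u = r.v (2 * j)}
  have sub : R ⊆ R0 := by
    rintro _ ⟨r, hr, j, hj, rfl⟩
    exact ((ok r hr).pass j hj).1
  have pc := Pieces.of_disj (D := Set.univ) (R := R) (en := en) (pos := pos) (Set.subset_univ _)
    (fun _ _ => trivial) (fun r hr => k.lt r (sub hr)) fun r hr s hs => k.dis r (sub hr) s (sub hs)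
  have jz : ∀ z ∈ l, jump R en z = z := fun z hz => jump_of_not_mem (by
    rintro ⟨r, hr, j, hj, e⟩
    exact k.ne_of_free (ok r hr) (zf z hz r hr) (2 * j) (by omega) e)
  obtain ⟨f1, f2, f3⟩ := lframe (hb := hb) (τ := τ) (η := fun L => hb (nxt L)) (A := A) k.cyc pc.1
    pc.2 hl hz (fun z hz => ⟨trivial, by
      rintro _ ⟨r, hr, j, hj, rfl⟩ h
      rw [((ok r hr).pass j hj).2] at h
      have := zf z hz r hr j hj
      grind⟩) (by
      rintro _ ⟨r, hr, j, hj, rfl⟩ -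
      rw [((ok r hr).pass j hj).2]
      exact a1 r hr (2 * j + 1) (by omega))
    (fun u _ b2 b3 => a2 u fun r hr i hi e => by
      rcases Nat.even_or_odd' i with ⟨j, rfl | rfl⟩
      · exact b2 ⟨r, hr, j, by omega, e⟩
      · exact b3 ⟨_, ⟨r, hr, j, by omega, rfl⟩, by rw [((ok r hr).pass j (by omega)).2, e]⟩)
    (fun _ _ => rfl) fun u b1 => lk u fun h => b1 u h (jz u h).symm
  have f4 : ∀ r ∈ Rs, ∀ j ≤ r.n, (r.hub hb (2 * j) ∈ A ↔ r.b ∈ A) := by
    intro r hr j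
    induction j with
    | zero => exact fun _ => Iff.rfl
    | succ j ih =>
      intro hj
      have := f2 _ ⟨r, hr, j, hj, rfl⟩
      rw [a1 r hr _ (by omega), ((ok r hr).pass j hj).2] at this
      exact this.symm.trans (ih (by omega))
  simp only [List.forall_mem_map]
  refine ⟨?_, fun r hr => f4 r hr _ le_rfl, fun g1 g2 => ?_⟩
  · rcases l with _ | ⟨z, l⟩
    · exact absurd rfl hl
    · rw [arcs_cons] at f1 ⊢
      refine f1.imp_of_mem_imp fun u w hu _ h => ?_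
      rwa [jz u (by simpa [or_comm] using hu)] at h
  have all : ∀ s, s ∈ A ↔ c ∈ A := fun s => by
    rcases k.sur s with rfl | ⟨u, rfl⟩
    · rfl
    rcases f3 u with ⟨z, hz, h⟩ | ⟨_, ⟨r, hr, j, hj, rfl⟩, h⟩
    · exact h.trans (g1 z hz)
    · rw [((ok r hr).pass j hj).2] at h
      exact h.trans ((f4 r hr (j + 1) hj).trans (g2 r hr))
  exact fun s t hs => (all t).2 ((all s).1 hs)

/-- Rewiring the cuts: `(z, t, h)` sends the tail of the line `z` to `t` and its head to `h`. -/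
theorem LBase.core [Finite Λ] (h : LBase m hang c hb nxt pos G T) {S' : Type*} (ι : S → S')
    (Q : List (Λ × S' × S')) (ne : Q ≠ []) (co : CO pos (Q.map Prod.fst)) (hG : ∀ q ∈ Q, q.1 ∈ G) :
    ∃ (τ1 η1 : Λ → S) (τ η : Λ → S'), (∀ L, hang L 0 (τ1 L)) ∧ (∀ L, hang L m (η1 L)) ∧
      (∀ s, {L | τ1 L = s}.ncard + {L | η1 L = s}.ncard + 2 * ind (c = s) +
        (T.map fun t => ind (t.1 = s)).sum = 2 + (T.map fun t => ind (t.2 = s)).sum) ∧
      (∀ q ∈ Q, τ q.1 = q.2.1 ∧ η q.1 = q.2.2) ∧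
      (∀ L, (∀ q ∈ Q, L ≠ q.1) → τ L = ι (τ1 L) ∧ η L = ι (η1 L)) ∧
      (∀ s, {L | τ L = s}.ncard + {L | η L = s}.ncard +
          (Q.map fun q => ind (ι (hb q.1) = s) + ind (ι (hb (nxt q.1)) = s)).sum =
        {L | ι (τ1 L) = s}.ncard + {L | ι (η1 L) = s}.ncard +
          (Q.map fun q => ind (q.2.1 = s) + ind (q.2.2 = s)).sum) ∧
      ∀ A : Set S', (∀ L, (∀ q ∈ Q, L ≠ q.1) → (τ L ∈ A ↔ η L ∈ A)) →
        Arcs (fun s t => ι (hb (nxt s)) ∈ A ↔ ι (hb t) ∈ A) (Q.map Prod.fst) ∧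
          (∀ t ∈ T, ι t.1 ∈ A ↔ ι t.2 ∈ A) ∧ ((∀ q ∈ Q, ι (hb q.1) ∈ A ↔ ι c ∈ A) →
            (∀ t ∈ T, ι t.2 ∈ A ↔ ι c ∈ A) → ∀ s t, ι s ∈ A → ι t ∈ A) := by
  obtain ⟨τ1, η1, e1, e2, e3, d, f⟩ := h
  obtain ⟨τ, a1, a2, a3⟩ := rewire_fun (fun L => ι (τ1 L)) (Q.map fun q => (q.1, q.2.1))
    (by rw [List.map_map]; exact co.nodup)
  obtain ⟨η, b1, b2, b3⟩ := rewire_fun (fun L => ι (η1 L)) (Q.map fun q => (q.1, q.2.2))
    (by rw [List.map_map]; exact co.nodup)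
  simp only [List.forall_mem_map, List.map_map, comp_def] at a1 a2 a3 b1 b2 b3
  have same : ∀ L, (∀ q ∈ Q, L ≠ q.1) → τ L = ι (τ1 L) ∧ η L = ι (η1 L) :=
    fun L hL => ⟨a2 L hL, b2 L hL⟩
  refine ⟨τ1, η1, τ, η, e1, e2, e3, fun q hq => ⟨a1 q hq, b1 q hq⟩, same, fun s => ?_,
    fun A lk => ?_⟩
  · have c1 := a3 s
    have c2 := b3 s
    rw [List.map_congr_left (g := fun q => ind (ι (hb q.1) = s)) fun q hq => by
      rw [(d _ (hG q hq)).1]] at c1
    rw [List.map_congr_left (g := fun q => ind (ι (hb (nxt q.1)) = s)) fun q hq => by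
      rw [(d _ (hG q hq)).2]] at c2
    rw [List.sum_map_add, List.sum_map_add]
    omega
  · have := f (Q.map Prod.fst) (by simpa using ne) co (by simpa only [List.forall_mem_map] using hG)
      {s | ι s ∈ A} fun L hL => by
        have hL : ∀ q ∈ Q, L ≠ q.1 := fun q hq e => hL (List.mem_map.2 ⟨q, hq, e.symm⟩)
        have := lk L hL
        rwa [(same L hL).1, (same L hL).2] at this
    simpa only [List.forall_mem_map, Set.mem_ofPred_eq] using this

/-- the balance of a rewiring: new tokens, new ends and bases against the root, the ends of the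
routes and the old ends -/
def LBal (c : S) (hb : Λ → S) (nxt : Λ → Λ) (T : List (S × S)) (x y : S)
    (Q : List (Λ × S × S)) : Prop :=
  ∀ φ : S → ℕ, φ x + φ y + (T.map fun t => φ t.2).sum + (Q.map fun q => φ q.2.1 + φ q.2.2).sum =
    2 * φ c + (T.map fun t => φ t.1).sum + (Q.map fun q => φ (hb q.1) + φ (hb (nxt q.1))).sum

/-- **Rewiring**, real hubs. -/
theorem LBase.rewire [Finite Λ] (h : LBase m hang c hb nxt pos G T) (Q : List (Λ × S × S))
    (ne : Q ≠ []) (co : CO pos (Q.map Prod.fst))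
    (hG : ∀ q ∈ Q, q.1 ∈ G ∧ hang q.1 0 q.2.1 ∧ hang q.1 m q.2.2) (bal : LBal c hb nxt T x y Q) :
    ∃ τ η : Λ → S, Ends m hang x y τ η ∧ (∀ q ∈ Q, τ q.1 = q.2.1 ∧ η q.1 = q.2.2) ∧
      ∀ A : Set S, (∀ L, (∀ q ∈ Q, L ≠ q.1) → (τ L ∈ A ↔ η L ∈ A)) →
        Arcs (fun s t => hb (nxt s) ∈ A ↔ hb t ∈ A) (Q.map Prod.fst) ∧
          (∀ t ∈ T, t.1 ∈ A ↔ t.2 ∈ A) ∧ ((∀ q ∈ Q, hb q.1 ∈ A ↔ c ∈ A) →
            (∀ t ∈ T, t.2 ∈ A ↔ c ∈ A) → ∀ s t, s ∈ A → t ∈ A) := by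
  obtain ⟨τ1, η1, τ, η, e1, e2, e3, a1, a2, a3, a4⟩ := h.core id Q ne co fun q hq => (hG q hq).1
  have key : ∀ L, hang L 0 (τ L) ∧ hang L m (η L) := fun L => by
    by_cases hL : ∀ q ∈ Q, L ≠ q.1
    · rw [(a2 L hL).1, (a2 L hL).2]
      exact ⟨e1 L, e2 L⟩
    · push Not at hL
      obtain ⟨q, hq, rfl⟩ := hL
      rw [(a1 q hq).1, (a1 q hq).2]
      exact (hG q hq).2
  refine ⟨τ, η, ⟨fun L => (key L).1, fun L => (key L).2, fun s => ?_⟩, a1, a4⟩
  have b1 := a3 s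
  have b2 := e3 s
  have b3 := bal fun u => ind (u = s)
  simp only [id, ind_eq] at b1 b3 ⊢
  omega

/-- **Master theorem, two hubs.** -/
theorem LBase.pth [Finite Λ] (h : LBase m hang c hb nxt pos G T) (Q : List (Λ × S × S))
    (ne : Q ≠ []) (co : CO pos (Q.map Prod.fst))
    (hG : ∀ q ∈ Q, q.1 ∈ G ∧ hang q.1 0 q.2.1 ∧ hang q.1 m q.2.2) (bal : LBal c hb nxt T x y Q)
    (fin : ∀ P : S → Prop, Arcs (fun s t => P (hb (nxt s)) ↔ P (hb t)) (Q.map Prod.fst) →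
      (∀ t ∈ T, P t.1 ↔ P t.2) → (∀ q ∈ Q, P q.2.1 ↔ P q.2.2) → (P x ↔ P y) →
      (∀ q ∈ Q, P (hb q.1) ↔ P c) ∧ ∀ t ∈ T, P t.2 ↔ P c) : Pth m hang x y := by
  obtain ⟨τ, η, e, a1, a2⟩ := h.rewire Q ne co hG bal
  refine ⟨τ, η, e, fun A lk xy => ?_⟩
  obtain ⟨b1, b2, b4⟩ := a2 A fun L _ => lk L
  have k := fin (· ∈ A) b1 b2 (fun q hq => ?_) xy
  · exact b4 k.1 k.2
  · have := lk q.1
    rwa [(a1 q hq).1, (a1 q hq).2] at this

/-- **Master theorem, one gap**, on the first cut `u`. -/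
theorem LBase.cut [Finite Λ] (h : LBase m hang c hb nxt pos G T) (u : Λ) (t d : S)
    (Q : List (Λ × S × S)) (co : CO pos (u :: Q.map Prod.fst))
    (hG : ∀ q ∈ (u, t, d) :: Q, q.1 ∈ G ∧ hang q.1 0 q.2.1 ∧ hang q.1 m q.2.2)
    (bal : LBal c hb nxt T x y ((u, t, d) :: Q))
    (fin : ∀ P : S → Prop, Arcs (fun s t => P (hb (nxt s)) ↔ P (hb t)) (u :: Q.map Prod.fst) →
      (∀ t ∈ T, P t.1 ↔ P t.2) → (∀ q ∈ Q, P q.2.1 ↔ P q.2.2) → (P t ↔ P x) → (P y ↔ P d) →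
      (P (hb u) ↔ P c) ∧ (∀ q ∈ Q, P (hb q.1) ↔ P c) ∧ ∀ t ∈ T, P t.2 ↔ P c) :
    Cut m hang u x y := by
  obtain ⟨τ, η, e, a1, a2⟩ := h.rewire ((u, t, d) :: Q) (by simp) co hG bal
  refine ⟨τ, η, e, fun A lk c1 c2 => ?_⟩
  obtain ⟨b1, b2, b4⟩ := a2 A fun L hL => lk L (hL (u, t, d) (by simp))
  have a0 := a1 (u, t, d) (by simp)
  rw [a0.1] at c1
  rw [a0.2] at c2
  have k := fin (· ∈ A) b1 b2 (fun q hq => ?_) c1 c2
  · exact b4 (List.forall_mem_cons.2 ⟨k.1, k.2.1⟩) k.2.2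
  · have hq' : q ∈ (u, t, d) :: Q := List.mem_cons_of_mem _ hq
    have := lk q.1 fun e => (List.nodup_cons.1 co.nodup).1 (List.mem_map.2 ⟨q, hq, e⟩)
    rwa [(a1 q hq').1, (a1 q hq').2] at this

/-- the balance of a rewiring with the virtual hub `none` and two gaps -/
def LBalO (c : S) (hb : Λ → S) (nxt : Λ → Λ) (T : List (S × S)) (x1 y1 x2 y2 : Option S)
    (Q : List (Λ × Option S × Option S)) : Prop :=
  ∀ φ : Option S → ℕ, φ x1 + φ y1 + φ x2 + φ y2 + (T.map fun t => φ (some t.2)).sum +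
      (Q.map fun q => φ q.2.1 + φ q.2.2).sum =
    2 * φ (some c) + 2 * φ none + (T.map fun t => φ (some t.1)).sum +
      (Q.map fun q => φ (some (hb q.1)) + φ (some (hb (nxt q.1)))).sum

/-- **Rewiring** with the virtual hub. -/
theorem LBase.rewireO [Finite Λ] (h : LBase m hang c hb nxt pos G T) {p q : Λ × Fin (m + 1)}
    {x1 y1 x2 y2 : Option S} (Q : List (Λ × Option S × Option S)) (ne : Q ≠ [])
    (co : CO pos (Q.map Prod.fst))
    (hG : ∀ z ∈ Q, z.1 ∈ G ∧ hangO hang p q z.1 0 z.2.1 ∧ hangO hang p q z.1 m z.2.2)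
    (bal : LBalO c hb nxt T x1 y1 x2 y2 Q) :
    ∃ τ η : Λ → Option S, (∀ L, hangO hang p q L 0 (τ L)) ∧ (∀ L, hangO hang p q L m (η L)) ∧
      (∀ s, {L | τ L = s}.ncard + {L | η L = s}.ncard +
        (ind (x1 = s) + ind (x2 = s)) + (ind (y1 = s) + ind (y2 = s)) = 2) ∧
      (∀ z ∈ Q, τ z.1 = z.2.1 ∧ η z.1 = z.2.2) ∧
      ∀ A : Set (Option S), (∀ L, (∀ z ∈ Q, L ≠ z.1) → (τ L ∈ A ↔ η L ∈ A)) →
        Arcs (fun s t => some (hb (nxt s)) ∈ A ↔ some (hb t) ∈ A) (Q.map Prod.fst) ∧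
          (∀ t ∈ T, some t.1 ∈ A ↔ some t.2 ∈ A) ∧
          ((none ∈ A ↔ some c ∈ A) → (∀ z ∈ Q, some (hb z.1) ∈ A ↔ some c ∈ A) →
            (∀ t ∈ T, some t.2 ∈ A ↔ some c ∈ A) → ∀ s t, s ∈ A → t ∈ A) := by
  obtain ⟨τ1, η1, τ, η, e1, e2, e3, a1, a2, a3, a4⟩ := h.core some Q ne co fun q hq => (hG q hq).1
  have key : ∀ L, hangO hang p q L 0 (τ L) ∧ hangO hang p q L m (η L) := fun L => by
    by_cases hL : ∀ z ∈ Q, L ≠ z.1
    · rw [(a2 L hL).1, (a2 L hL).2]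
      exact ⟨e1 L, e2 L⟩
    · push Not at hL
      obtain ⟨z, hz, rfl⟩ := hL
      rw [(a1 z hz).1, (a1 z hz).2]
      exact (hG z hz).2
  refine ⟨τ, η, fun L => (key L).1, fun L => (key L).2, fun s => ?_, a1, fun A lk => ?_⟩
  · have b1 := a3 s
    have b3 := bal fun u => ind (u = s)
    rcases s with _ | s
    · simp only [reduceCtorEq, ind_false, ind_true, Set.ofPred_false, Set.ncard_empty,
        List.map_const', List.sum_replicate, smul_zero, add_zero] at b1 b3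
      omega
    · have b2 := e3 s
      simp only [Option.some.injEq, reduceCtorEq, ind_false] at b1 b3
      omega
  · obtain ⟨b1, b2, b4⟩ := a4 A lk
    exact ⟨b1, b2, fun h0 h1 h2 => all_opt h0.symm (b4 h1 h2)⟩

section
variable [Fintype S] [Fintype Λ] [DecidableEq S] [DecidableEq Λ]

/-- **Master theorem, two vertices, gaps on the two lines `u1`, `u2`.**  The virtual hub `none`
stands for the new edge; it holds the vertices `p` and `q`. -/
theorem LBase.ppDiff (h : LBase m hang c hb nxt pos G T) {p q : Λ × Fin (m + 1)} (hpq : p ≠ q)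
    (hn : ¬(HL m hang).Adj (inr p) (inr q)) (u1 : Λ) (t1 d1 : Option S)
    (Q1 : List (Λ × Option S × Option S)) (u2 : Λ) (t2 d2 : Option S)
    (Q2 : List (Λ × Option S × Option S)) (i1 i2 : ℕ) (x1 y1 x2 y2 : Option S) (l1 : i1 < m)
    (l2 : i2 < m) (hx1 : hangO hang p q u1 i1 x1) (hy1 : hangO hang p q u1 (i1 + 1) y1)
    (hx2 : hangO hang p q u2 i2 x2) (hy2 : hangO hang p q u2 (i2 + 1) y2)
    (co : CO pos (u1 :: (Q1.map Prod.fst ++ u2 :: Q2.map Prod.fst)))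
    (hG : ∀ z ∈ (u1, t1, d1) :: (Q1 ++ (u2, t2, d2) :: Q2),
      z.1 ∈ G ∧ hangO hang p q z.1 0 z.2.1 ∧ hangO hang p q z.1 m z.2.2)
    (bal : LBalO c hb nxt T x1 y1 x2 y2 ((u1, t1, d1) :: (Q1 ++ (u2, t2, d2) :: Q2)))
    (fin : ∀ P : Option S → Prop, Arcs (fun s t => P (some (hb (nxt s))) ↔ P (some (hb t)))
        (u1 :: (Q1.map Prod.fst ++ u2 :: Q2.map Prod.fst)) →
      (∀ t ∈ T, P (some t.1) ↔ P (some t.2)) → (∀ z ∈ Q1 ++ Q2, P z.2.1 ↔ P z.2.2) →
      (P t1 ↔ P x1) → (P y1 ↔ P d1) → (P t2 ↔ P x2) → (P y2 ↔ P d2) →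
      (P none ↔ P (some c)) ∧ (P (some (hb u1)) ↔ P (some c)) ∧ (P (some (hb u2)) ↔ P (some c)) ∧
        (∀ z ∈ Q1 ++ Q2, P (some (hb z.1)) ↔ P (some c)) ∧ ∀ t ∈ T, P (some t.2) ↔ P (some c)) :
    (HL m hang ⊔ edge (inr p) (inr q)).IsHamiltonian := by
  have : Nonempty S := ⟨c⟩
  have nd := co.nodup
  obtain ⟨τ, η, ht, hh, load, a1, a2⟩ := h.rewireO ((u1, t1, d1) :: (Q1 ++ (u2, t2, d2) :: Q2))
    (by simp) (by simpa using co) hG bal
  have hl : u1 ≠ u2 := fun e => by simp [e] at nd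
  refine serve_pp (by omega) hpq hn (Cfg.of (Γ := Bool) (gl := fun k => cond k u2 u1)
    (gi := fun k => cond k i2 i1) (x := fun k => cond k x2 x1) (y := fun k => cond k y2 y1)
    (τ := τ) (η := η) ?_ ?_ ht hh ?_ ?_ (fun s => ?_) fun A c1 c2 c3 _ _ => ?_)
  · rintro (_ | _); exacts [l1, l2]
  · rintro (_ | _) (_ | _) e _
    exacts [rfl, absurd e hl, absurd e hl.symm, rfl]
  · rintro (_ | _); exacts [hx1, hx2]
  · rintro (_ | _); exacts [hy1, hy2]
  · rw [ncard_bool, ncard_bool, ← load s]; simp [ind_eq]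
  · obtain ⟨b1, b2, b4⟩ := a2 A fun L hL => c1 L (by
      rintro (_ | _)
      exacts [(hL (u1, t1, d1) (by simp)).symm, (hL (u2, t2, d2) (by simp)).symm])
    have e1 := a1 (u1, t1, d1) (by simp)
    have e2 := a1 (u2, t2, d2) (by simp)
    have f1 := c2 false (by rintro (_ | _) e; exacts [le_rfl, absurd e hl.symm])
    have f2 := c3 false (by rintro (_ | _) e; exacts [le_rfl, absurd e hl.symm])
    have f3 := c2 true (by rintro (_ | _) e; exacts [absurd e hl, le_rfl])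
    have f4 := c3 true (by rintro (_ | _) e; exacts [absurd e hl, le_rfl])
    simp only [cond_false, cond_true, e1.1, e1.2, e2.1, e2.2] at f1 f2 f3 f4
    have k := fin (· ∈ A) (by simpa using b1) b2 (fun z hz => ?_) f1 f2 f3 f4
    · obtain ⟨k1, k2, k3, k4, k5⟩ := k
      refine b4 k1 (fun z hz => ?_) k5
      simp only [List.mem_cons, List.mem_append] at hz
      rcases hz with rfl | hz | rfl | hz
      exacts [k2, k4 z (by simp [hz]), k3, k4 z (by simp [hz])]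
    · have hz' : z ∈ (u1, t1, d1) :: (Q1 ++ (u2, t2, d2) :: Q2) := by
        rcases List.mem_append.1 hz with hz | hz <;> simp [hz]
      have hm : z.1 ∈ Q1.map Prod.fst ++ Q2.map Prod.fst := by
        rw [← List.map_append]
        exact List.mem_map_of_mem hz
      have := c1 z.1 (by
        rintro (_ | _) e
        · rw [← show u1 = z.1 from e] at hm
          refine (List.nodup_cons.1 nd).1 ?_
          rcases List.mem_append.1 hm with hm | hm
          exacts [List.mem_append_left _ hm, List.mem_append_right _ (List.mem_cons_of_mem _ hm)]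
        · rw [← show u2 = z.1 from e] at hm
          rw [List.nodup_cons, List.nodup_middle, List.nodup_cons] at nd
          exact nd.2.1 hm)
      rwa [(a1 z hz').1, (a1 z hz').2] at this

/-- **Master theorem, two vertices, two gaps `i1 < i2` on the first cut `u`.** -/
theorem LBase.ppSame (h : LBase m hang c hb nxt pos G T) {p q : Λ × Fin (m + 1)} (hpq : p ≠ q)
    (hn : ¬(HL m hang).Adj (inr p) (inr q)) (u : Λ) (t d : Option S)
    (Q : List (Λ × Option S × Option S)) (i1 i2 : ℕ) (x1 y1 x2 y2 : Option S) (l1 : i1 < i2)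
    (l2 : i2 < m) (hx1 : hangO hang p q u i1 x1) (hy1 : hangO hang p q u (i1 + 1) y1)
    (hx2 : hangO hang p q u i2 x2) (hy2 : hangO hang p q u (i2 + 1) y2)
    (co : CO pos (u :: Q.map Prod.fst))
    (hG : ∀ z ∈ (u, t, d) :: Q,
      z.1 ∈ G ∧ hangO hang p q z.1 0 z.2.1 ∧ hangO hang p q z.1 m z.2.2)
    (bal : LBalO c hb nxt T x1 y1 x2 y2 ((u, t, d) :: Q))
    (fin : ∀ P : Option S → Prop, Arcs (fun s t => P (some (hb (nxt s))) ↔ P (some (hb t)))
        (u :: Q.map Prod.fst) → (∀ t ∈ T, P (some t.1) ↔ P (some t.2)) →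
      (∀ z ∈ Q, P z.2.1 ↔ P z.2.2) → (P t ↔ P x1) → (P y1 ↔ P x2) → (P y2 ↔ P d) →
      (P none ↔ P (some c)) ∧ (P (some (hb u)) ↔ P (some c)) ∧
        (∀ z ∈ Q, P (some (hb z.1)) ↔ P (some c)) ∧ ∀ t ∈ T, P (some t.2) ↔ P (some c)) :
    (HL m hang ⊔ edge (inr p) (inr q)).IsHamiltonian := by
  have : Nonempty S := ⟨c⟩
  obtain ⟨τ, η, ht, hh, load, a1, a2⟩ := h.rewireO ((u, t, d) :: Q) (by simp) co hG bal
  refine serve_pp (by omega) hpq hn (Cfg.of (Γ := Bool) (gl := fun _ => u)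
    (gi := fun k => cond k i2 i1) (x := fun k => cond k x2 x1) (y := fun k => cond k y2 y1)
    (τ := τ) (η := η) ?_ ?_ ht hh ?_ ?_ (fun s => ?_) fun A c1 c2 c3 c4 _ => ?_)
  · rintro (_ | _); exacts [l1.trans l2, l2]
  · rintro (_ | _) (_ | _) _ e
    exacts [rfl, absurd e l1.ne, absurd e l1.ne', rfl]
  · rintro (_ | _); exacts [hx1, hx2]
  · rintro (_ | _); exacts [hy1, hy2]
  · rw [ncard_bool, ncard_bool, ← load s]; simp [ind_eq]
  · obtain ⟨b1, b2, b4⟩ := a2 A fun L hL => c1 L fun _ => (hL (u, t, d) (by simp)).symm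
    have e1 := a1 (u, t, d) (by simp)
    have f1 := c2 false (by rintro (_ | _) -; exacts [le_rfl, l1.le])
    have f2 := c4 false true rfl l1 (by rintro (_ | _) -; exacts [Or.inl le_rfl, Or.inr le_rfl])
    have f3 := c3 true (by rintro (_ | _) -; exacts [l1.le, le_rfl])
    simp only [cond_false, cond_true, e1.1, e1.2] at f1 f2 f3
    have k := fin (· ∈ A) b1 b2 (fun z hz => ?_) f1 f2 f3
    · exact b4 k.1 (List.forall_mem_cons.2 ⟨k.2.1, k.2.2.1⟩) k.2.2.2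
    · have hz' : z ∈ (u, t, d) :: Q := List.mem_cons_of_mem _ hz
      have := c1 z.1 fun _ e => (List.nodup_cons.1 co.nodup).1 (List.mem_map.2 ⟨z, hz, e.symm⟩)
      rwa [(a1 z hz').1, (a1 z hz').2] at this

end

/-! ### coarse keys -/

section coarse
variable {δ : Type*} [LinearOrder δ] {π : Λ → δ}

/-- pass pairs that are separated by a coarse key are disjoint -/
theorem dis_of_coarse (mono : ∀ u v, π u < π v → pos u < pos v) (same : ∀ r ∈ R0, π (en r) = π r)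
    (inj : Set.InjOn π R0) : ∀ r ∈ R0, ∀ s ∈ R0, pos r < pos s → pos (en r) < pos s := by
  intro r hr s hs h
  refine mono _ _ (same r hr ▸ lt_of_le_of_ne (not_lt.1 fun a => lt_asymm h (mono _ _ a)) ?_)
  intro e
  rw [inj hr hs e] at h
  exact lt_irrefl _ h

/-- a line with another coarse key is free -/
theorem Rt.Ok.free {r : Rt S Λ} (a : r.Ok hang hb R0 en) (mono : ∀ u v, π u < π v → pos u < pos v)
    (same : ∀ r ∈ R0, π (en r) = π r) {u : Λ} (h : ∀ j < r.n, π u ≠ π (r.v (2 * j))) :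
    r.Free pos u := fun j hj =>
  (lt_or_gt_of_ne (h j hj)).imp (mono _ _) fun b => mono _ _ (by
    rwa [← (a.pass j hj).2, same _ (a.pass j hj).1])

end coarse

/-! ### examples -/

theorem LBase.pth_two [Finite Λ] {a b : S} (h : LBase m hang c hb nxt pos G [(a, c), (b, c)])
    {u v : Λ} (hu : u ∈ G) (hv : v ∈ G) (h1 : hang u 0 a) (h2 : hang v 0 b)
    (h3 : ∀ s, hang s m (hb (nxt s))) (ne : pos u ≠ pos v) : Pth m hang (hb u) (hb v) :=
  h.pth [(u, a, hb (nxt u)), (v, b, hb (nxt v))] (by simp) (co_two ne) (by simp [*])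
    (fun φ => by simp; omega) fun P => by simp; grind

theorem LBase.cut_three [Finite Λ] {a b : S} (h : LBase m hang c hb nxt pos G [(a, c), (b, c)])
    {L u v : Λ} (hL : L ∈ G) (hu : u ∈ G) (hv : v ∈ G) (h1 : hang u 0 a) (h2 : hang v 0 b)
    (h0 : hang L 0 (hb L)) (h3 : ∀ s, hang s m (hb (nxt s))) (co : CO pos [L, u, v]) :
    Cut m hang L (hb u) (hb v) :=
  h.cut L (hb L) (hb (nxt L)) [(u, a, hb (nxt u)), (v, b, hb (nxt v))] co (by simp [*])
    (fun φ => by simp; omega) fun P => by simp; grind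

end Pool.Agent.P.MP_439f1f_co
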