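import Pool.Agent.P.MP_439f1f_co.G9
import Pool.Agent.P.MP_439f1f_co.Lp2

/-!
The skeleton of the loops: payload hubs are the nodes of a forest and the hubs of their moats.
-/

set_option autoImplicit false

namespace Pool.Agent.P.MP_439f1f_co

open Sum SimpleGraph

namespace Forest

variable {X C T N R Y K : Type} {β γ : Type*} [LinearOrder β] [LinearOrder γ] {cl : X → C}
  {tr : C → T} {D e b : ℕ} (F : Forest X C T N cl tr D e b) (O : Loops (N ⊕ N × R) Y K β γ)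
  (ρ : Equiv.Perm R) (i0 : R) (m : ℕ)

/-- second option of a tail in the skeleton -/
def tB0 : (N ⊕ N × R) ⊕ K × Y × Fin 3 → Option ((N ⊕ N × R) ⊕ K × Y × Fin 3)
  | inl (inl n) => if F.lev n = 1 then none else some (inl (inl (F.par n)))
  | inl (inr w) => some (inl (inr (w.1, ρ w.2)))
  | inr z => some (inr z)

/-- second option in the skeleton of the head whose cold option is the given hub -/
def hB0 : (N ⊕ N × R) ⊕ K × Y × Fin 3 → (N ⊕ N × R) ⊕ K × Y × Fin 3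
  | inl (inl n) => inl (inr (n, i0))
  | inl (inr w) => inl (inr w)
  | inr z => inr (z.1, bt (O.nx z.1) z.2)

/-- the skeleton -/
def hang0 (L : (N ⊕ N × R) ⊕ K × Y × Fin 3) (i : ℕ)
    (s : Option ((N ⊕ N × R) ⊕ K × Y × Fin 3)) : Prop :=
  (i = 0 ∧ (s = some L ∨ s = F.tB0 ρ L)) ∨
    (i = m ∧ (s = some (O.dA L) ∨ s = some (hB0 O i0 (O.dA L))))

/-- names of the tails -/
def tn : (N ⊕ N × R) ⊕ K × Y × Fin 3 → N ⊕ N ⊕ N × R ⊕ K × Y × Fin 3
  | inl (inl n) => inl n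
  | inl (inr w) => inr (inr (inl w))
  | inr z => inr (inr (inr z))

/-- names of the heads -/
def hn : (N ⊕ N × R) ⊕ K × Y × Fin 3 → N ⊕ N ⊕ N × R ⊕ K × Y × Fin 3
  | inl (inl n) => inr (inl n)
  | inl (inr w) => inr (inr (inl w))
  | inr z => inr (inr (inr z))

variable {m}

theorem dbl (hm : m ≠ 0) {L : (N ⊕ N × R) ⊕ K × Y × Fin 3} {i : ℕ}
    {s t : Option ((N ⊕ N × R) ⊕ K × Y × Fin 3)} (hs : F.hang0 O ρ i0 m L i s)
    (ht : F.hang0 O ρ i0 m L i t) (h : s ≠ t) :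
    (i = 0 ∧ (∀ z, L ≠ inr z) ∧ ((s = some L ∧ t = F.tB0 ρ L) ∨ (t = some L ∧ s = F.tB0 ρ L))) ∨
    (i = m ∧ (∀ w, O.dA L ≠ inl (inr w)) ∧
      ((s = some (O.dA L) ∧ t = some (hB0 O i0 (O.dA L))) ∨
        (t = some (O.dA L) ∧ s = some (hB0 O i0 (O.dA L))))) := by
  rcases hs with ⟨rfl, hs⟩ | ⟨rfl, hs⟩ <;> rcases ht with ⟨e, ht⟩ | ⟨e, ht⟩
  · refine Or.inl ⟨rfl, ?_, by grind⟩
    rintro z rfl
    exact h ((hs.elim id id).trans (ht.elim id id).symm)
  · exact absurd e.symm hm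
  · exact absurd e hm
  · refine Or.inr ⟨rfl, fun w hw => ?_, by grind⟩
    rw [hw] at hs ht
    exact h ((hs.elim id id).trans (ht.elim id id).symm)

theorem skel [Finite R] [Finite Y] {k : ℕ} (hm : m ≠ 0) (hρ : ∀ a a', ∃ n : ℕ, (ρ ^ n) a = a')
    (k1 : k < Nat.card R) (k2 : k < Nat.card Y) :
    F.Skel m k (F.hang0 O ρ i0 m) (Option.map (Equiv.sumAssoc _ _ _)) (fun n => inl (n, i0))
      (sig ρ fun j => bt (O.nx j)) sown (fun L i => if i = 0 then tn L else hn (O.dA L))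
      fun L i => if i = 0 then some L else some (O.dA L) where
  kinj := Option.map_injective (Equiv.injective _)
  sinj := sig_inj
  long := sig_long hρ (fun j => bt_cyc _ (O.hnx j).one) k1 (by simp; omega)
  own_s := sown_sig
  own_g _ := rfl
  ends _ _ _ h := h.imp And.left And.left
  std L i s h := by
    rcases h with ⟨rfl, -⟩ | ⟨rfl, -⟩
    · exact Or.inl ⟨rfl, Or.inl rfl⟩
    · exact Or.inr ⟨rfl, Or.inl (if_neg hm)⟩
  ainj L L' i h := by
    split_ifs at h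
    exacts [Option.some.inj h, O.dA.injective (Option.some.inj h)]
  name L i s t hs ht h := by
    have k1 : ∀ L : (N ⊕ N × R) ⊕ K × Y × Fin 3, (∀ z, L ≠ inr z) →
        Option.map (Equiv.sumAssoc _ _ _) (some L) = ea (tn L) ∧
        Option.map (Equiv.sumAssoc _ _ _) (F.tB0 ρ L) =
          F.eb (fun n => inl (n, i0)) (sig ρ fun j => bt (O.nx j)) (tn L) := by
      rintro ((n | w) | z) h
      · refine ⟨rfl, ?_⟩
        simp only [tB0, tn, eb]
        split_ifs <;> rfl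
      · exact ⟨rfl, rfl⟩
      · exact absurd rfl (h z)
    have k2 : ∀ L : (N ⊕ N × R) ⊕ K × Y × Fin 3, (∀ w, L ≠ inl (inr w)) →
        Option.map (Equiv.sumAssoc _ _ _) (some L) = ea (hn L) ∧
        Option.map (Equiv.sumAssoc _ _ _) (some (hB0 O i0 L)) =
          F.eb (fun n => inl (n, i0)) (sig ρ fun j => bt (O.nx j)) (hn L) := by
      rintro ((n | w) | z) h
      exacts [⟨rfl, rfl⟩, absurd rfl (h w), ⟨rfl, rfl⟩]
    rcases F.dbl O ρ i0 hm hs ht h with ⟨rfl, h1, h2⟩ | ⟨rfl, h1, h2⟩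
    · rw [if_pos rfl]
      rcases h2 with ⟨rfl, rfl⟩ | ⟨rfl, rfl⟩
      exacts [Or.inl (k1 L h1), Or.inr (k1 L h1)]
    · rw [if_neg hm]
      rcases h2 with ⟨rfl, rfl⟩ | ⟨rfl, rfl⟩
      exacts [Or.inl (k2 _ h1), Or.inr (k2 _ h1)]
  ninj L i s t L' i' s' t' a1 a2 a3 b1 b2 b3 h := by
    have k : ∀ A B : (N ⊕ N × R) ⊕ K × Y × Fin 3, (∀ z, A ≠ inr z) → (∀ w, B ≠ inl (inr w)) →
        tn A ≠ hn B := by
      rintro ((n | w) | z) ((n' | w') | z') h1 h2 <;> simp [tn, hn] at h1 h2 ⊢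
    rcases F.dbl O ρ i0 hm a1 a2 a3 with ⟨rfl, h1, -⟩ | ⟨rfl, h1, -⟩ <;>
      rcases F.dbl O ρ i0 hm b1 b2 b3 with ⟨e, h2, -⟩ | ⟨e, h2, -⟩ <;>
      simp only [e, hm, if_true, if_false] at h
    · refine ⟨?_, e.symm⟩
      revert h
      rcases L with (n | w) | z <;> rcases L' with (n' | w') | z' <;> simp [tn]
    · exact absurd h (k _ _ h1 h2)
    · exact absurd h.symm (k _ _ h2 h1)
    · refine ⟨O.dA.injective ?_, e.symm⟩
      revert h
      rcases O.dA L with (n | w) | z <;> rcases O.dA L' with (n' | w') | z' <;> simp [hn]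

end Forest

end Pool.Agent.P.MP_439f1f_co
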