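import Pool.Agent.P.MP_439f1f_co.B11
import Pool.Agent.P.MP_439f1f_co.G10

/-!
The service frame on loops with ports, and routes in a forest.
-/

set_option autoImplicit false

namespace Pool.Agent.P.MP_439f1f_co

open Function Sum

/-- **The reference order of the state `j0`.** -/
theorem Loops.Fit.lref {P Y K β γ : Type*} [LinearOrder β] [LinearOrder γ] [DecidableEq K]
    [Finite P] [Finite Y] [Finite K] [Nonempty Y] {O : Loops P Y K β γ} {m : ℕ}
    {hang : P ⊕ K × Y × Fin 3 → ℕ → Option (P ⊕ K × Y × Fin 3) → Prop}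
    {tB : P ⊕ K × Y × Fin 3 → Option (P ⊕ K × Y × Fin 3)} {hO : P → Option (P ⊕ K × Y × Fin 3)}
    (F : O.Fit m hang tB hO) (j0 : K) {R0 : Set (P ⊕ K × Y × Fin 3)}
    {en : P ⊕ K × Y × Fin 3 → P ⊕ K × Y × Fin 3} (lt : ∀ r ∈ R0, O.pos j0 r < O.pos j0 (en r))
    (dis : ∀ r ∈ R0, ∀ s ∈ R0, O.pos j0 r < O.pos j0 s → O.pos j0 (en r) < O.pos j0 s) :
    LRef m hang none some (O.nxt j0) (O.pos j0) R0 en :=
  ⟨O.cyc j0, by rintro (_ | s); exacts [Or.inl rfl, Or.inr ⟨s, rfl⟩], F.ref j0, lt, dis⟩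

namespace Forest

variable {X C T N : Type} {cl : X → C} {tr : C → T} {D e b : ℕ} (F : Forest X C T N cl tr D e b)
  {S Λ : Type*} (c : S) (hb : Λ → S) (nd : N → Λ)

/-- a child of the node; the only child if the level is odd -/
noncomputable def kid (n : N) : N := F.anc (F.surj n).2.2.choose (F.lev n + 1)

theorem kid_anc (x : X) {l : ℕ} (h : Odd l) (hl : l < D) : F.kid (F.anc x l) = F.anc x (l + 1) := by
  have h1 := F.lev_anc x l h.pos hl.le
  have h2 := (F.surj (F.anc x l)).2.2.choose_spec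
  unfold kid
  generalize (F.surj (F.anc x l)).2.2.choose = y at h2
  rw [h1] at h2 ⊢
  exact F.odd _ _ l h hl h2

theorem lev_kid {n : N} (h : F.lev n < D) : F.lev (F.kid n) = F.lev n + 1 :=
  F.lev_anc _ _ (by omega) h

theorem par_kid {n : N} (h : F.lev n < D) : F.par (F.kid n) = n :=
  (F.par_anc _ _ (F.surj n).1 h).trans (F.surj n).2.2.choose_spec

theorem kid_par {n : N} (h : Even (F.lev n)) : F.kid (F.par n) = n := by
  obtain ⟨h1, h2, x, h3⟩ := F.surj n
  obtain ⟨k, hk⟩ := h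
  obtain ⟨l, hl⟩ : ∃ l, F.lev n = l + 1 := ⟨F.lev n - 1, by omega⟩
  rw [hl] at h3
  rw [← h3, F.par_anc x l (by omega) (by omega), F.kid_anc x ⟨k - 1, by omega⟩ (by omega)]

theorem anc_ne {x y : X} {l l' : ℕ} (h1 : 1 ≤ l) (h2 : l ≤ D) (h3 : 1 ≤ l') (h4 : l' ≤ D)
    (h : l ≠ l') : F.anc x l ≠ F.anc y l' := fun e => h (by
  rw [← F.lev_anc x l h1 h2, e, F.lev_anc y l' h3 h4])

theorem lev_eq {x y : X} {l l' : ℕ} (h1 : 1 ≤ l) (h2 : l ≤ D) (h3 : 1 ≤ l') (h4 : l' ≤ D)
    (h : F.anc x l = F.anc y l') : l = l' := by_contra fun a => F.anc_ne h1 h2 h3 h4 a h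

/-- the hub at the level `l` above `x`; the root hub for `l = 0` -/
def hubAt (x : X) (l : ℕ) : S := if l = 0 then c else hb (nd (F.anc x l))

@[simp] theorem hubAt_zero (x : X) : F.hubAt c hb nd x 0 = c := rfl

@[simp] theorem hubAt_succ (x : X) (l : ℕ) :
    F.hubAt c hb nd x (l + 1) = hb (nd (F.anc x (l + 1))) := rfl

theorem hubAt_pos (x : X) {l : ℕ} (h : l ≠ 0) : F.hubAt c hb nd x l = hb (nd (F.anc x l)) :=
  if_neg h

/-- the route above `x` from the level `l` to the level `l + 2 k` -/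
def rt (x : X) (l k : ℕ) : Rt S Λ := ⟨F.hubAt c hb nd x l, k, fun i => nd (F.anc x (l + i + 1))⟩

@[simp] theorem rt_b (x : X) (l k : ℕ) : (F.rt c hb nd x l k).b = F.hubAt c hb nd x l := rfl
@[simp] theorem rt_n (x : X) (l k : ℕ) : (F.rt c hb nd x l k).n = k := rfl
@[simp] theorem rt_v (x : X) (l k i : ℕ) :
    (F.rt c hb nd x l k).v i = nd (F.anc x (l + i + 1)) := rfl

theorem rt_hub (x : X) (l k i : ℕ) :
    (F.rt c hb nd x l k).hub hb i = F.hubAt c hb nd x (l + i) := by
  cases i <;> rfl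

@[simp] theorem rt_e (x : X) (l k : ℕ) :
    (F.rt c hb nd x l k).e hb = F.hubAt c hb nd x (l + 2 * k) := F.rt_hub c hb nd x l k _

variable {c hb nd} {hang : Λ → ℕ → S → Prop} {R0 : Set Λ} {en : Λ → Λ}

/-- the route is admissible if its odd nodes are starts of pass pairs -/
theorem rt_ok (inj : Injective nd) (hg : ∀ x l, l < D → hang (nd (F.anc x (l + 1))) 0
    (F.hubAt c hb nd x l)) (hen : ∀ n, en (nd n) = nd (F.kid n)) (x : X) {l k : ℕ} (ev : Even l)
    (le : l + 2 * k ≤ D) (al : ∀ j < k, nd (F.anc x (l + 2 * j + 1)) ∈ R0) :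
    (F.rt c hb nd x l k).Ok hang hb R0 en where
  inj i j h1 h2 e := by
    have h2 : j < 2 * k := h2
    have := F.lev_eq (by omega) (by omega) (by omega) (by omega) (inj e)
    omega
  hg i hi := by
    have hi : i < 2 * k := hi
    rw [rt_hub]
    exact hg x (l + i) (by omega)
  pass j hj := by
    have hj : j < k := hj
    obtain ⟨a, rfl⟩ := ev
    exact ⟨al j hj, by rw [rt_v, hen, F.kid_anc x ⟨a + j, by omega⟩ (by omega)]; rfl⟩

/-- routes whose ancestors differ at some level `q` above both are disjoint -/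
theorem rt_dis (inj : Injective nd) {x y : X} {l k l' k' q : ℕ} (le : l + 2 * k ≤ D)
    (le' : l' + 2 * k' ≤ D) (q1 : 1 ≤ q) (q2 : q ≤ l + 1 ∨ q ≤ l' + 1)
    (h : F.anc x q ≠ F.anc y q) : (F.rt c hb nd x l k).Dis (F.rt c hb nd y l' k') := by
  intro i hi j hj e
  have hi : i < 2 * k := hi
  have hj : j < 2 * k' := hj
  have e := inj e
  have e1 := F.lev_eq (by omega) (by omega) (by omega) (by omega) e
  rw [← e1] at e
  exact h (F.up e q1 (by omega) (by omega))

/-- routes in different trees are disjoint -/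
theorem rt_dis_tree (inj : Injective nd) {x y : X} {l k l' k' : ℕ} (le : l + 2 * k ≤ D)
    (le' : l' + 2 * k' ≤ D) (h : tr (cl x) ≠ tr (cl y)) :
    (F.rt c hb nd x l k).Dis (F.rt c hb nd y l' k') :=
  F.rt_dis inj le le' le_rfl (Or.inl (by omega)) fun e => h ((F.top x y 1 le_rfl one_le_two).1 e)

/-- routes on different levels are disjoint -/
theorem rt_dis_lev (inj : Injective nd) {x y : X} {l k l' k' : ℕ} (le : l + 2 * k ≤ D)
    (le' : l' + 2 * k' ≤ D) (h : l + 2 * k ≤ l' ∨ l' + 2 * k' ≤ l) :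
    (F.rt c hb nd x l k).Dis (F.rt c hb nd y l' k') := by
  intro i hi j hj e
  have hi : i < 2 * k := hi
  have hj : j < 2 * k' := hj
  have e1 := F.lev_eq (by omega) (by omega) (by omega) (by omega) (inj e)
  omega

/-- the second tail option of the skeleton along a branch -/
theorem tB0_anc {R Y K : Type} (ρ : Equiv.Perm R) (x : X) {l : ℕ} (hl : l < D) :
    F.tB0 (Y := Y) (K := K) ρ (inl (inl (F.anc x (l + 1)))) =
      F.hubAt none some (fun n => inl (inl n)) x l := by
  simp only [tB0, F.lev_anc x (l + 1) (by omega) hl, hubAt]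
  by_cases h : l = 0
  · simp [h]
  · rw [if_neg (by omega), if_neg h, F.par_anc x l (by omega) hl]

end Forest

end Pool.Agent.P.MP_439f1f_co
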