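import Pool.Agent.P.MP_439f1f_co.B12

/-!
Safety tools indexed by lines: closed families of lines, walks on ends, climbing a branch.
-/

set_option autoImplicit false

namespace Pool.Agent.P.MP_439f1f_co

open Function Relation

variable {S Λ β : Type*} {m : ℕ} {hang : Λ → ℕ → S → Prop} {c x y : S} {τ η : Λ → S} {L0 : Λ}
  {hb : Λ → S} {nxt en : Λ → Λ}

section img
variable [Finite S] [Finite Λ]

/-- A nonempty family `U` of lines cannot have all ends in an image of `U`; the broken line counts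
through its lower part. -/
theorem Ends.no_img_low (e : Ends m hang x y τ η) (k : Cn L0 x y τ η) {U : Set Λ}
    (hU : U.Nonempty) (φ : Λ → S) (h1 : ∀ L ∈ U, τ L ∈ φ '' U)
    (h2 : ∀ L ∈ U, L ≠ L0 → η L ∈ φ '' U) (h3 : L0 ∈ U → x ∈ φ '' U) : False := by
  have : Nonempty Λ := ⟨L0⟩
  have a : ∀ s ∈ φ '' U, invFunOn φ U s ∈ U := fun s hs => invFunOn_mem hs
  exact e.no_low k (hU.image φ) (invFunOn φ U) (invFunOn_injOn_image φ U)
    (fun s hs => h1 _ (a s hs)) (fun s hs => h2 _ (a s hs)) fun s hs h => h3 (h ▸ a s hs)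

/-- The same, the broken line counts through its upper part. -/
theorem Ends.no_img_high (e : Ends m hang x y τ η) (k : Cn L0 x y τ η) {U : Set Λ}
    (hU : U.Nonempty) (φ : Λ → S) (h1 : ∀ L ∈ U, L ≠ L0 → τ L ∈ φ '' U)
    (h2 : ∀ L ∈ U, η L ∈ φ '' U) (h3 : L0 ∈ U → y ∈ φ '' U) : False := by
  have : Nonempty Λ := ⟨L0⟩
  have a : ∀ s ∈ φ '' U, invFunOn φ U s ∈ U := fun s hs => invFunOn_mem hs
  exact e.no_high k (hU.image φ) (invFunOn φ U) (invFunOn_injOn_image φ U)
    (fun s hs => h1 _ (a s hs)) (fun s hs => h2 _ (a s hs)) fun s hs h => h3 (h ▸ a s hs)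

/-- The lines into a set `W` have their ends in `W`. -/
theorem Ends.no_pre_low (e : Ends m hang x y τ η) (k : Cn L0 x y τ η) (sur : Surjective nxt)
    {W : Set Λ} (hW : W.Nonempty) (h1 : ∀ u, nxt u ∈ W → τ u ∈ hb '' W)
    (h2 : ∀ u, nxt u ∈ W → u ≠ L0 → η u = hb (nxt u) ∨ η u ∈ hb '' W)
    (h3 : nxt L0 ∈ W → x ∈ hb '' W) : False := by
  have a : (fun u => hb (nxt u)) '' (nxt ⁻¹' W) = hb '' W := by
    rw [← Set.image_image hb nxt, Set.image_preimage_eq _ sur]
  refine e.no_img_low k (U := nxt ⁻¹' W) (hW.preimage sur) (fun u => hb (nxt u)) ?_ ?_ ?_ <;> rw [a]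
  exacts [h1, fun u hu h => (h2 u hu h).elim (fun b => ⟨_, hu, b.symm⟩) id, h3]

theorem Ends.no_pre_high (e : Ends m hang x y τ η) (k : Cn L0 x y τ η) (sur : Surjective nxt)
    {W : Set Λ} (hW : W.Nonempty) (h1 : ∀ u, nxt u ∈ W → u ≠ L0 → τ u ∈ hb '' W)
    (h2 : ∀ u, nxt u ∈ W → η u = hb (nxt u) ∨ η u ∈ hb '' W)
    (h3 : nxt L0 ∈ W → y ∈ hb '' W) : False := by
  have a : (fun u => hb (nxt u)) '' (nxt ⁻¹' W) = hb '' W := by
    rw [← Set.image_image hb nxt, Set.image_preimage_eq _ sur]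
  refine e.no_img_high k (U := nxt ⁻¹' W) (hW.preimage sur) (fun u => hb (nxt u)) ?_ ?_ ?_ <;>
    rw [a]
  exacts [h1, fun u hu => (h2 u hu).elim (fun b => ⟨_, hu, b.symm⟩) id, h3]

end img

section itv
variable [LinearOrder β] {pos : Λ → β} {R : Set Λ}

/-- the interval `(n, q]` without the pieces `(r, en r]`, `r ∈ R` -/
def Win (pos : Λ → β) (R : Set Λ) (en : Λ → Λ) (n q : Λ) : Set Λ :=
  {w | pos n < pos w ∧ pos w ≤ pos q ∧ ∀ r ∈ R, ¬(pos r < pos w ∧ pos w ≤ pos (en r))}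

/-- the lines into such a set -/
theorem Cyc.pre_win (o : Cyc Set.univ nxt pos) {n q u : Λ} (h : nxt u ∈ Win pos R en n q) :
    pos n ≤ pos u ∧ pos u < pos q ∧ (∀ r ∈ R, ¬(pos r ≤ pos u ∧ pos u < pos (en r))) ∧
      (u = n ∨ u ∈ Win pos R en n q ∨ ∃ r ∈ R, u = en r) := by
  obtain ⟨h1, h2, h3⟩ := h
  rcases o.cases (u := u) trivial with ⟨a1, a2⟩ | ⟨-, a2⟩
  · have a3 := (a2 n trivial).resolve_right (not_le.2 h1)
    refine ⟨a3, a1.trans_le h2, fun r hr b => h3 r hr ⟨b.1.trans_lt a1,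
      (a2 _ trivial).resolve_left (not_le.2 b.2)⟩, ?_⟩
    rcases a3.eq_or_lt with b | b
    · exact Or.inl (o.inj trivial trivial b.symm)
    by_cases hc : ∃ r ∈ R, u = en r
    · exact Or.inr (Or.inr hc)
    refine Or.inr (Or.inl ⟨b, (a1.trans_le h2).le, fun r hr d => h3 r hr ⟨d.1.trans a1, ?_⟩⟩)
    refine (a2 _ trivial).resolve_left fun f => hc ⟨r, hr, ?_⟩
    exact o.inj trivial trivial (le_antisymm d.2 f)
  · exact absurd (a2 n trivial) (not_le.2 h1)

/-- the converse -/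
theorem Cyc.nxt_win (o : Cyc Set.univ nxt pos) {n q u : Λ} (h1 : pos n ≤ pos u)
    (h2 : pos u < pos q) (h3 : ∀ r ∈ R, ¬(pos r ≤ pos u ∧ pos u < pos (en r))) :
    nxt u ∈ Win pos R en n q := by
  have a := o.succ u trivial q trivial h2
  refine ⟨h1.trans_lt a.1, a.2, fun r hr b => h3 r hr ⟨?_, a.1.trans_le b.2⟩⟩
  exact not_lt.1 fun d => absurd (o.succ u trivial r trivial d).2 (not_le.2 b.1)

variable [Finite S] [Finite Λ]

/-- **Closed window.**  `W = (n, q]` minus the pieces.  The tail of `n` went into `W`; the tails at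
the ends of the pieces went to the starts; all other ends of lines into `W` are at the default or
in `W`.  The broken line is allowed if `x` lies in `W`. -/
theorem Ends.no_win_low (e : Ends m hang x y τ η) (k : Cn L0 x y τ η) (o : Cyc Set.univ nxt pos)
    {n q : Λ} (hnq : pos n < pos q) (lt : ∀ r ∈ R, pos r < pos (en r))
    (dis : ∀ r ∈ R, ∀ s ∈ R, pos r < pos s → pos (en r) < pos s)
    (hn : ∀ r ∈ R, ¬(pos r ≤ pos n ∧ pos n < pos (en r))) (t0 : τ n ∈ hb '' Win pos R en n q)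
    (t1 : ∀ u ∈ Win pos R en n q, u ∉ R → u ≠ q → τ u = hb u ∨ τ u ∈ hb '' Win pos R en n q)
    (t2 : ∀ r ∈ R, r ∈ Win pos R en n q → τ (en r) = hb r)
    (h2 : ∀ u, nxt u ∈ Win pos R en n q → u ≠ L0 →
      η u = hb (nxt u) ∨ η u ∈ hb '' Win pos R en n q)
    (h3 : nxt L0 ∈ Win pos R en n q → x ∈ hb '' Win pos R en n q) : False := by
  refine e.no_pre_low k (Set.surjOn_univ.1 o.bijOn.surjOn) ⟨_, o.nxt_win le_rfl hnq hn⟩
    (fun u hu => ?_) h2 h3
  obtain ⟨a1, a2, a3, a4⟩ := o.pre_win hu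
  by_cases hun : u = n
  · exact hun ▸ t0
  rcases a4.resolve_left hun with a4 | ⟨r, hr, rfl⟩
  · exact (t1 u a4 (fun h => a3 u h ⟨le_rfl, lt u h⟩) fun h => by
      rw [h] at a2; exact lt_irrefl _ a2).elim (fun h => ⟨u, a4, h.symm⟩) id
  · have b1 : pos n < pos (en r) := lt_of_le_of_ne a1 fun h => hun (o.inj trivial trivial h.symm)
    have b2 : r ∈ Win pos R en n q := ⟨not_le.1 fun h => hn r hr ⟨h, b1⟩,
      ((lt r hr).trans a2).le, fun s hs h => absurd (dis s hs r hr h.1) (not_lt.2 h.2)⟩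
    exact ⟨r, b2, (t2 r hr b2).symm⟩

/-- **Closed window**, upper part of the broken line `n`: the token `y` lies in `W`. -/
theorem Ends.no_win_high (e : Ends m hang x y τ η) (k : Cn L0 x y τ η) (o : Cyc Set.univ nxt pos)
    {q : Λ} (hnq : pos L0 < pos q) (lt : ∀ r ∈ R, pos r < pos (en r))
    (dis : ∀ r ∈ R, ∀ s ∈ R, pos r < pos s → pos (en r) < pos s)
    (hn : ∀ r ∈ R, ¬(pos r ≤ pos L0 ∧ pos L0 < pos (en r))) (t0 : y ∈ hb '' Win pos R en L0 q)
    (t1 : ∀ u ∈ Win pos R en L0 q, u ∉ R → u ≠ q → τ u = hb u ∨ τ u ∈ hb '' Win pos R en L0 q)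
    (t2 : ∀ r ∈ R, r ∈ Win pos R en L0 q → τ (en r) = hb r)
    (h2 : ∀ u, nxt u ∈ Win pos R en L0 q → η u = hb (nxt u) ∨ η u ∈ hb '' Win pos R en L0 q) :
    False := by
  refine e.no_pre_high k (Set.surjOn_univ.1 o.bijOn.surjOn) ⟨_, o.nxt_win le_rfl hnq hn⟩
    (fun u hu hun => ?_) h2 fun _ => t0
  obtain ⟨a1, a2, a3, a4⟩ := o.pre_win hu
  rcases a4.resolve_left hun with a4 | ⟨r, hr, rfl⟩
  · exact (t1 u a4 (fun h => a3 u h ⟨le_rfl, lt u h⟩) fun h => by
      rw [h] at a2; exact lt_irrefl _ a2).elim (fun h => ⟨u, a4, h.symm⟩) id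
  · have b1 : pos L0 < pos (en r) := lt_of_le_of_ne a1 fun h => hun (o.inj trivial trivial h.symm)
    have b2 : r ∈ Win pos R en L0 q := ⟨not_le.1 fun h => hn r hr ⟨h, b1⟩,
      ((lt r hr).trans a2).le, fun s hs h => absurd (dis s hs r hr h.1) (not_lt.2 h.2)⟩
    exact ⟨r, b2, (t2 r hr b2).symm⟩

/-- **Kill loop.**  The tail of `n` went to the later hub `q`; nothing in between moved. -/
theorem Ends.no_kill (e : Ends m hang x y τ η) (k : Cn L0 x y τ η) (o : Cyc Set.univ nxt pos)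
    {n q : Λ} (hnq : pos n < pos q) (t0 : τ n = hb q)
    (t1 : ∀ u, pos n < pos u → pos u < pos q → τ u = hb u)
    (h2 : ∀ u, pos n ≤ pos u → pos u < pos q → u ≠ L0 ∧ η u = hb (nxt u)) : False :=
  e.no_win_low k o (R := ∅) (en := id) hnq (by simp) (by simp) (by simp)
    ⟨q, ⟨hnq, le_rfl, by simp⟩, t0.symm⟩
    (fun u hu _ h => Or.inl (t1 u hu.1 (lt_of_le_of_ne hu.2.1 fun a => h (o.inj trivial trivial a))))
    (by simp) (fun u hu _ => Or.inl (h2 u (o.pre_win hu).1 (o.pre_win hu).2.1).2)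
    fun hu => absurd rfl (h2 _ (o.pre_win hu).1 (o.pre_win hu).2.1).1

end itv

/-! ### walks on ends -/

section walk

open Classical in
/-- the other end of the segment -/
noncomputable def En.opp (L0 : Λ) : En Λ → En Λ
  | .tl L => if L = L0 then .lo else .hd L
  | .hd L => if L = L0 then .hi else .tl L
  | .lo => .tl L0
  | .hi => .hd L0

theorem En.opp_tl {L : Λ} (h : L ≠ L0) : (En.tl L).opp L0 = .hd L := if_neg h
theorem En.opp_hd {L : Λ} (h : L ≠ L0) : (En.hd L).opp L0 = .tl L := if_neg h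
@[simp] theorem En.opp_tl0 : (En.tl L0).opp L0 = .lo := if_pos rfl
@[simp] theorem En.opp_hd0 : (En.hd L0).opp L0 = .hi := if_pos rfl
@[simp] theorem En.opp_lo : (En.lo : En Λ).opp L0 = .tl L0 := rfl
@[simp] theorem En.opp_hi : (En.hi : En Λ).opp L0 = .hd L0 := rfl

@[simp] theorem En.opp_opp (a : En Λ) : (a.opp L0).opp L0 = a := by
  rcases a with L | L | _ | _
  · by_cases h : L = L0
    · simp [h]
    · rw [En.opp_tl h, En.opp_hd h]
  · by_cases h : L = L0
    · simp [h]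
    · rw [En.opp_hd h, En.opp_tl h]
  all_goals simp

/-- Enter a segment other than the segment of `z` at the end `a`, leave it at the other end, and
enter the next segment at the end `b`. -/
def St (L0 : Λ) (x y : S) (τ η : Λ → S) (z a b : En Λ) : Prop :=
  a ≠ z ∧ a ≠ z.opp L0 ∧ b ≠ a.opp L0 ∧ b.hub x y τ η = (a.opp L0).hub x y τ η

/-- **No closed walk avoids a segment.** -/
theorem Ends.no_closed [Finite Λ] (e : Ends m hang x y τ η) (k : Cn L0 x y τ η) {z : En Λ}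
    {U : Set (En Λ)} (hU : U.Nonempty) (h : ∀ a ∈ U, ∃ b ∈ U, St L0 x y τ η z a b) : False := by
  choose! s s1 s2 using h
  have inj : Set.InjOn s U := fun a ha b hb h => by
    rcases e.full (s2 a ha).2.2.1 (s2 a ha).2.2.2 rfl ((s2 b hb).2.2.2.symm.trans
      (h ▸ (s2 a ha).2.2.2)) with h' | h'
    · exact absurd (h'.trans h).symm (s2 b hb).2.2.1
    · simpa using congrArg (En.opp L0) h'.symm
  have sur := ((Set.toFinite U).injOn_iff_bijOn_of_mapsTo s1).1 inj |>.surjOn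
  let A : Set S := (fun a : En Λ => a.hub x y τ η) '' U
  have k1 : ∀ w : En Λ, w.hub x y τ η ∈ A → w ∈ U ∨ w.opp L0 ∈ U := by
    rintro w ⟨b, hb, h⟩
    obtain ⟨a, ha, rfl⟩ := sur hb
    rcases e.full (s2 a ha).2.2.1 (s2 a ha).2.2.2 rfl (h.symm.trans (s2 a ha).2.2.2) with h' | h'
    · exact Or.inl (h' ▸ hb)
    · exact Or.inr (by simpa [h'] using ha)
  have k2 : ∀ w : En Λ, w.hub x y τ η ∈ A → (w.opp L0).hub x y τ η ∈ A := fun w hw =>
    (k1 w hw).elim (fun h => ⟨s w, s1 w h, (s2 w h).2.2.2⟩) fun h => ⟨_, h, rfl⟩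
  obtain ⟨a, ha⟩ := hU
  have all := k A (fun L h => ⟨fun b => by simpa [En.opp_tl h] using k2 (.tl L) b,
    fun b => by simpa [En.opp_hd h] using k2 (.hd L) b⟩)
    ⟨fun b => by simpa using k2 (.tl L0) b, fun b => by simpa using k2 .lo b⟩
    ⟨fun b => by simpa using k2 .hi b, fun b => by simpa using k2 (.hd L0) b⟩ _
    (z.hub x y τ η) ⟨a, ha, rfl⟩
  exact (k1 z all).elim (fun h => (s2 _ h).1 rfl) fun h => (s2 _ h).2.1 rfl

theorem Ends.no_cycle [Finite Λ] (e : Ends m hang x y τ η) (k : Cn L0 x y τ η) {z a : En Λ}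
    (h : TransGen (St L0 x y τ η z) a a) : False := by
  refine e.no_closed k (z := z) (U := {b | TransGen (St L0 x y τ η z) b a}) ⟨a, h⟩ fun b hb => ?_
  obtain ⟨d, h1, h2⟩ := TransGen.head'_iff.1 hb
  exact ⟨d, h.trans_right h2, h1⟩

/-- forward step: the head of `u` sits at the tail of `w` -/
theorem st_ff {z : En Λ} {u w : Λ} (hu : u ≠ L0) (z1 : z ≠ .tl u) (z2 : z ≠ .hd u)
    (h : τ w = η u) : St L0 x y τ η z (.tl u) (.tl w) := by
  refine ⟨z1.symm, fun a => z2 ?_, by simp [En.opp_tl hu], by simpa [En.opp_tl hu] using h⟩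
  rw [← En.opp_tl hu, a, En.opp_opp]

/-- turn at two heads -/
theorem st_fb {z : En Λ} {u w : Λ} (hu : u ≠ L0) (z1 : z ≠ .tl u) (z2 : z ≠ .hd u) (ne : w ≠ u)
    (h : η w = η u) : St L0 x y τ η z (.tl u) (.hd w) := by
  refine ⟨z1.symm, fun a => z2 ?_, by simp [En.opp_tl hu, ne], by simpa [En.opp_tl hu] using h⟩
  rw [← En.opp_tl hu, a, En.opp_opp]

/-- backward step -/
theorem st_bb {z : En Λ} {u w : Λ} (hu : u ≠ L0) (z1 : z ≠ .tl u) (z2 : z ≠ .hd u)
    (h : η w = τ u) : St L0 x y τ η z (.hd u) (.hd w) := by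
  refine ⟨z2.symm, fun a => z1 ?_, by simp [En.opp_hd hu], by simpa [En.opp_hd hu] using h⟩
  rw [← En.opp_hd hu, a, En.opp_opp]

/-- turn at two tails -/
theorem st_bf {z : En Λ} {u w : Λ} (hu : u ≠ L0) (z1 : z ≠ .tl u) (z2 : z ≠ .hd u) (ne : w ≠ u)
    (h : τ w = τ u) : St L0 x y τ η z (.hd u) (.tl w) := by
  refine ⟨z2.symm, fun a => z1 ?_, by simp [En.opp_hd hu, ne], by simpa [En.opp_hd hu] using h⟩
  rw [← En.opp_hd hu, a, En.opp_opp]

variable [Finite Λ] [LinearOrder β] {pos : Λ → β} {R : Set Λ} {z : En Λ}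

/-- **Forward arc.**  Enter the tail of `a`, follow the order over the pass pairs up to the hub of
`q`, and enter the end `b` there. -/
theorem Cyc.walk_fwd (o : Cyc Set.univ nxt pos) (lt : ∀ r ∈ R, pos r < pos (en r))
    (dis : ∀ r ∈ R, ∀ s ∈ R, pos r < pos s → pos (en r) < pos s) {a q : Λ} {b : En Λ}
    (haq : pos a < pos q) (ha : ∀ r ∈ R, ¬(pos r ≤ pos a ∧ pos a < pos (en r)))
    (hq : ∀ r ∈ R, ¬(pos r < pos q ∧ pos q ≤ pos (en r))) (b1 : b.hub x y τ η = hb q)
    (b2 : ∀ u, nxt u = q → b ≠ .hd u)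
    (t1 : ∀ u ∈ Win pos R en a q, u ∉ R → u ≠ q → τ u = hb u)
    (t2 : ∀ r ∈ R, r ∈ Win pos R en a q → r ≠ q → τ (en r) = hb r)
    (h2 : ∀ u, nxt u ∈ Win pos R en a q → u ≠ L0 ∧ z ≠ .tl u ∧ z ≠ .hd u ∧ η u = hb (nxt u)) :
    TransGen (St L0 x y τ η z) (.tl a) b := by
  have : IsTrans Λ fun u v => pos v < pos u := ⟨fun _ _ _ a b => b.trans a⟩
  have : Std.Irrefl fun u v : Λ => pos v < pos u := ⟨fun _ => lt_irrefl _⟩
  suffices h : ∀ u, pos a ≤ pos u → pos u < pos q →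
      (∀ r ∈ R, ¬(pos r ≤ pos u ∧ pos u < pos (en r))) → TransGen (St L0 x y τ η z) (.tl u) b from
    h a le_rfl haq ha
  intro u
  induction u using (Finite.wellFounded_of_trans_of_irrefl fun u v => pos v < pos u).induction with
  | _ u ih =>
    intro a1 a2 a3
    have w := o.nxt_win a1 a2 a3
    obtain ⟨c1, c2, c3, c4⟩ := h2 u w
    have c5 := (o.succ u trivial q trivial a2).1
    by_cases e : nxt u = q
    · refine TransGen.single ⟨c2.symm, fun d => c3 ?_, by simpa [En.opp_tl c1] using b2 u e,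
        by simp [En.opp_tl c1, b1, c4, e]⟩
      rw [← En.opp_tl c1, d, En.opp_opp]
    have c6 : pos (nxt u) < pos q := lt_of_le_of_ne w.2.1 fun d => e (o.inj trivial trivial d)
    by_cases hR : nxt u ∈ R
    · have c7 := lt _ hR
      refine TransGen.head (st_ff c1 c2 c3 ((t2 _ hR w e).trans c4.symm)) (ih _ (c5.trans c7)
        (a1.trans (c5.trans c7).le) (not_le.1 fun d => hq _ hR ⟨c6, d⟩) fun s hs d => ?_)
      rcases lt_trichotomy (pos s) (pos (nxt u)) with f | f | f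
      · exact lt_asymm (dis s hs _ hR f) (c7.trans d.2)
      · rw [o.inj trivial trivial f] at d
        exact lt_irrefl _ d.2
      · exact absurd (dis _ hR s hs f) (not_lt.2 d.1)
    · refine TransGen.head (st_ff c1 c2 c3 ((t1 _ w hR e).trans c4.symm))
        (ih _ c5 (a1.trans c5.le) c6 fun s hs d => w.2.2 s hs ⟨?_, d.2.le⟩)
      exact lt_of_le_of_ne d.1 fun f => hR (o.inj trivial trivial f ▸ hs)

/-- **Backward arc.**  Enter the head of the line `p` into `q`, follow the order backwards over the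
pass pairs, and enter the head of the line `a`. -/
theorem Cyc.walk_bwd (o : Cyc Set.univ nxt pos) (lt : ∀ r ∈ R, pos r < pos (en r))
    (dis : ∀ r ∈ R, ∀ s ∈ R, pos r < pos s → pos (en r) < pos s) {a q : Λ}
    (ha : ∀ r ∈ R, ¬(pos r ≤ pos a ∧ pos a < pos (en r)))
    (t1 : ∀ u ∈ Win pos R en a q, u ∉ R → u ≠ q → τ u = hb u)
    (t2 : ∀ r ∈ R, r ∈ Win pos R en a q → r ≠ q → τ (en r) = hb r)
    (h2 : ∀ u, nxt u ∈ Win pos R en a q → η u = hb (nxt u) ∧
      (u ≠ a → u ≠ L0 ∧ z ≠ .tl u ∧ z ≠ .hd u)) :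
    ∀ p, nxt p ∈ Win pos R en a q → ReflTransGen (St L0 x y τ η z) (.hd p) (.hd a) := by
  have : IsTrans Λ fun u v => pos u < pos v := ⟨fun _ _ _ a b => a.trans b⟩
  have : Std.Irrefl fun u v : Λ => pos u < pos v := ⟨fun _ => lt_irrefl _⟩
  intro u
  induction u using (Finite.wellFounded_of_trans_of_irrefl fun u v => pos u < pos v).induction with
  | _ u ih =>
    intro w
    obtain ⟨a1, a2, a3, a4⟩ := o.pre_win w
    by_cases e : u = a
    · rw [e]
    obtain ⟨c1, c2, c3⟩ := (h2 u w).2 e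
    have key : ∀ v ∈ Win pos R en a q, pos v ≤ pos u → τ u = hb v →
        ReflTransGen (St L0 x y τ η z) (.hd u) (.hd a) := fun v hv b1 b2 => by
      obtain ⟨p, -, rfl⟩ := o.bijOn.surjOn (Set.mem_univ v)
      have := (o.succ p trivial q trivial (o.pre_win hv).2.1).1
      exact ReflTransGen.head (st_bb c1 c2 c3 ((h2 p hv).1.trans b2.symm))
        (ih p (this.trans_le b1) hv)
    rcases a4.resolve_left e with a4 | ⟨r, hr, rfl⟩
    · exact key u a4 le_rfl (t1 u a4 (fun h => a3 u h ⟨le_rfl, lt u h⟩) fun h => by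
        rw [h] at a2; exact lt_irrefl _ a2)
    · have b1 : pos a < pos (en r) := lt_of_le_of_ne a1 fun h => e (o.inj trivial trivial h.symm)
      have b2 : r ∈ Win pos R en a q := ⟨not_le.1 fun h => ha r hr ⟨h, b1⟩,
        ((lt r hr).trans a2).le, fun s hs h => absurd (dis s hs r hr h.1) (not_lt.2 h.2)⟩
      exact key r b2 (lt r hr).le (t2 r hr b2 fun h => by
        have := (lt r hr).trans a2
        rw [h] at this
        exact lt_irrefl _ this)

end walk

/-! ### climbing -/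

section climb
variable [Finite Λ]

/-- A hub that keeps the head into it and receives a new end loses its tail. -/
theorem Ends.lose_tail (e : Ends m hang x y τ η) {u p : Λ} (hp : η p = hb u) (a : En Λ)
    (ha : a.hub x y τ η = hb u) (a1 : a ≠ .tl u) (a2 : a ≠ .hd p) : τ u ≠ hb u := fun h =>
  (e.full (a := .tl u) (b := .hd p) (by simp) h hp ha).elim a1 a2

/-- A hub that keeps its tail and receives a new end loses the head into it. -/
theorem Ends.lose_head (e : Ends m hang x y τ η) {u p : Λ} (hu : τ u = hb u) (a : En Λ)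
    (ha : a.hub x y τ η = hb u) (a1 : a ≠ .tl u) (a2 : a ≠ .hd p) : η p ≠ hb u := fun h =>
  e.lose_tail h a ha a1 a2 hu

/-- **Climbing.**  The lines `v (l+1)`, `k ≤ l < n`, have the second tail option `hub l`, and
`hub l` is the hub of `v l` for `l > k`.  If the heads into these hubs stay and the tail of `v n`
left, all tails moved up. -/
theorem Ends.climb (e : Ends m hang x y τ η) {v p : ℕ → Λ} {hub : ℕ → S} {k n : ℕ}
    (h1 : ∀ l, k < l → l < n → hub l = hb (v l) ∧ v (l + 1) ≠ v l ∧ η (p l) = hb (v l))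
    (h2 : ∀ l, k ≤ l → l < n → τ (v (l + 1)) = hb (v (l + 1)) ∨ τ (v (l + 1)) = hub l)
    (h3 : τ (v n) ≠ hb (v n)) : ∀ l, k ≤ l → l < n → τ (v (l + 1)) = hub l := by
  induction n with
  | zero => exact fun _ _ h => absurd h (Nat.not_lt_zero _)
  | succ n ih =>
    intro l a b
    have hn := (h2 n (by omega) (by omega)).resolve_left h3
    rcases (Nat.lt_succ_iff.1 b).eq_or_lt with rfl | b
    · exact hn
    obtain ⟨c1, c2, c3⟩ := h1 n (by omega) (by omega)
    exact ih (fun l a b => h1 l a (by omega)) (fun l a b => h2 l a (by omega))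
      (e.lose_tail c3 (.tl (v (n + 1))) (hn.trans c1) (by simpa using c2) (by simp)) l a b

/-- **Climbing in a forest**, from the level `n` down to the level `k`. -/
theorem Forest.climb {X C T N : Type} {cl : X → C} {tr : C → T} {D e' b : ℕ}
    (F : Forest X C T N cl tr D e' b) {nd : N → Λ} (inj : Injective nd) (e : Ends m hang x y τ η)
    {pv : N → Λ} {a : X} {k n : ℕ} (hn : n ≤ D)
    (h1 : ∀ l, k < l → l < n → η (pv (F.anc a l)) = hb (nd (F.anc a l)))
    (h2 : ∀ l, l < D → ∀ s, hang (nd (F.anc a (l + 1))) 0 s →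
      s = hb (nd (F.anc a (l + 1))) ∨ s = F.hubAt c hb nd a l)
    (h3 : τ (nd (F.anc a n)) ≠ hb (nd (F.anc a n))) :
    ∀ l, k ≤ l → l < n → τ (nd (F.anc a (l + 1))) = F.hubAt c hb nd a l :=
  e.climb (v := fun l => nd (F.anc a l)) (p := fun l => pv (F.anc a l))
    (fun l h h' => ⟨F.hubAt_pos c hb nd a (by omega),
      fun d => F.anc_ne (by omega) (by omega) (by omega) (by omega) (by omega) (inj d), h1 l h h'⟩)
    (fun l _ h => h2 l (by omega) _ (e.ht _)) h3

end climb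

end Pool.Agent.P.MP_439f1f_co
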