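import Pool.Agent.P.MP_439f1f_co.B13

/-!
Pointers: hubs and vertices of lines are served by the same finite check.
-/

set_option autoImplicit false

namespace Pool.Agent.P.MP_439f1f_co

open Function SimpleGraph Sum

variable {S Λ β : Type*} [LinearOrder β] {nxt : Λ → Λ} {pos : Λ → β} {hb : Λ → S}
  {m : ℕ} {hang : Λ → ℕ → S → Prop} {c x y : S} {G : Set Λ} {τ η : Λ → S} {T : List (S × S)}

/-- The point `v` lies on the line `z` (the hubs `hb z`, `hb (nxt z)` count as its positions `-1`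
and `m + 1`) and the next vertex above (`b = true`) or below (`b = false`) hangs on `y`. -/
def Ptr (m : ℕ) (hang : Λ → ℕ → S → Prop) (hb : Λ → S) (nxt : Λ → Λ) (b : Bool)
    (v : S ⊕ Λ × Fin (m + 1)) (z : Λ) (y : S) : Prop :=
  (v = inl (cond b (hb z) (hb (nxt z))) ∧ hang z (cond b 0 m) y) ∨
    ∃ (k : Fin (m + 1)) (i : ℕ), v = inr (z, k) ∧ i < m ∧ (k : ℕ) = cond b i (i + 1) ∧
      hang z (cond b (i + 1) i) y

theorem Ptr.tail {z : Λ} (h : hang z 0 y) : Ptr m hang hb nxt true (inl (hb z)) z y :=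
  Or.inl ⟨rfl, h⟩

theorem Ptr.head {z : Λ} (h : hang z m y) : Ptr m hang hb nxt false (inl (hb (nxt z))) z y :=
  Or.inl ⟨rfl, h⟩

theorem Ptr.up {z : Λ} {k : Fin (m + 1)} (hk : (k : ℕ) < m) (h : hang z (k + 1) y) :
    Ptr m hang hb nxt true (inr (z, k)) z y := Or.inr ⟨k, k, rfl, hk, rfl, h⟩

theorem Ptr.down {z : Λ} {k : Fin (m + 1)} (hk : 0 < (k : ℕ)) (h : hang z (k - 1) y) :
    Ptr m hang hb nxt false (inr (z, k)) z y :=
  Or.inr ⟨k, k - 1, rfl, by have := k.isLt; omega, by simp only [cond_false]; omega, h⟩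

/-- `hang` with the additional option `s` at the tail (`b = true`) or head (`b = false`) of `z` -/
def plus (m : ℕ) (hang : Λ → ℕ → S → Prop) (b : Bool) (z : Λ) (s : S) : Λ → ℕ → S → Prop :=
  fun L i t => hang L i t ∨ (L = z ∧ i = cond b 0 m ∧ t = s)

theorem plus_iff {b : Bool} {z L : Λ} {s t : S} {i : ℕ} :
    plus m hang b z s L i t ↔ hang L i t ∨ (L = z ∧ i = cond b 0 m ∧ t = s) := Iff.rfl

theorem plus_of {b : Bool} {z : Λ} {s : S} (h : hang z (cond b 0 m) s) (L : Λ) (i : ℕ) (t : S)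
    (a : plus m hang b z s L i t) : hang L i t := by
  rcases a with a | ⟨rfl, rfl, rfl⟩
  exacts [a, h]

theorem he_cond (he : ∀ z, hang z 0 (hb z) ∧ hang z m (hb (nxt z))) (b : Bool) (z : Λ) :
    hang z (cond b 0 m) (cond b (hb z) (hb (nxt z))) := by
  cases b
  exacts [(he z).2, (he z).1]

/-- the end of `z` goes back to the hub `e`; the token moves to `s` -/
theorem Ends.back [Finite Λ] [DecidableEq Λ] (hm : 1 ≤ m) {b : Bool} {z : Λ} {s e : S}
    (h : Ends m (plus m hang b z s) e y τ η) (he : hang z (cond b 0 m) e)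
    (hs : cond b (τ z) (η z) = s) :
    Ends m hang s y (cond b (update τ z e) τ) (cond b η (update η z e)) := by
  cases b
  · have a := h.head (L := z) (Or.inl he)
    refine ⟨fun L => (a.ht L).resolve_right fun d => ?_, fun L => ?_, hs ▸ a.load⟩
    · have := d.2.1
      simp only [cond_false] at this
      omega
    · by_cases d : L = z
      · simpa [d] using he
      · exact (a.hh L).resolve_right fun f => d f.1
  · have a := h.tail (L := z) (Or.inl he)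
    refine ⟨fun L => ?_, fun L => (a.hh L).resolve_right fun d => ?_, hs ▸ a.load⟩
    · by_cases d : L = z
      · simpa [d] using he
      · exact (a.ht L).resolve_right fun f => d f.1
    · have := d.2.1
      simp only [cond_true] at this
      omega

variable [Fintype S] [Fintype Λ] [DecidableEq S] [DecidableEq Λ] [Nontrivial S]

/-- a pointer and a hub -/
theorem ptr_hub_raw (hm : 1 ≤ m) {b : Bool} {v : S ⊕ Λ × Fin (m + 1)} {z : Λ} {s : S}
    (p : Ptr m hang hb nxt b v z s) (ne : v ≠ inl y)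
    (he : hang z (cond b 0 m) (cond b (hb z) (hb (nxt z))))
    (e : Ends m (plus m hang b z s) (cond b (hb z) (hb (nxt z))) y τ η)
    (hs : cond b (τ z) (η z) = s)
    (conn : ∀ A : Set S, (∀ L, τ L ∈ A ↔ η L ∈ A) → (cond b (hb z) (hb (nxt z)) ∈ A ↔ y ∈ A) →
      ∀ s t, s ∈ A → t ∈ A) : (HL m hang ⊔ edge v (inl y)).IsHamiltonian := by
  rcases p with ⟨rfl, p⟩ | ⟨k, i, rfl, hi, hk, p⟩
  · exact Pth.serve hm ⟨τ, η, e.mono (plus_of p), conn⟩ fun h => ne (by rw [h])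
  have a := e.back hm he hs
  rw [edge_comm]
  cases b
  · refine serve_hub_down (p := (z, k)) hk.symm p ⟨_, _, a, fun A a1 a2 a3 => conn A (fun L => ?_) ?_⟩
    · by_cases d : L = z
      · rw [d, show η z = s from hs]
        exact a2
      · simpa [update_of_ne d] using a1 L d
    · simpa using a3.symm
  · refine serve_hub_up (p := (z, k)) (hk ▸ hi) (hk ▸ p) ⟨_, _, a.symm, fun A a1 a2 a3 =>
      conn A (fun L => ?_) ?_⟩
    · by_cases d : L = z
      · rw [d, show τ z = s from hs]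
        exact a3
      · simpa [update_of_ne d] using a1 L d
    · simpa using a2

/-- two pointers on different lines -/
theorem ptr_ptr_raw (hm : 1 ≤ m) {b1 b2 : Bool} {v1 v2 : S ⊕ Λ × Fin (m + 1)} {z1 z2 : Λ}
    {s1 s2 : S} (p1 : Ptr m hang hb nxt b1 v1 z1 s1) (p2 : Ptr m hang hb nxt b2 v2 z2 s2)
    (ne : v1 ≠ v2) (hz : z1 ≠ z2) (he1 : hang z1 (cond b1 0 m) (cond b1 (hb z1) (hb (nxt z1))))
    (he2 : hang z2 (cond b2 0 m) (cond b2 (hb z2) (hb (nxt z2))))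
    (e : Ends m (plus m (plus m hang b2 z2 s2) b1 z1 s1) (cond b1 (hb z1) (hb (nxt z1)))
      (cond b2 (hb z2) (hb (nxt z2))) τ η)
    (h1 : cond b1 (τ z1) (η z1) = s1) (h2 : cond b2 (τ z2) (η z2) = s2)
    (conn : ∀ A : Set S, (∀ L, τ L ∈ A ↔ η L ∈ A) →
      (cond b1 (hb z1) (hb (nxt z1)) ∈ A ↔ cond b2 (hb z2) (hb (nxt z2)) ∈ A) →
      ∀ s t, s ∈ A → t ∈ A) : (HL m hang ⊔ edge v1 v2).IsHamiltonian := by
  rcases p2 with ⟨rfl, q2⟩ | ⟨k2, i2, rfl, hi2, hk2, q2⟩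
  · exact ptr_hub_raw hm p1 ne he1 (e.mono fun L i t a => a.imp (plus_of q2 L i t) id) h1 conn
  rcases p1 with ⟨rfl, q1⟩ | ⟨k1, i1, rfl, hi1, hk1, q1⟩
  · rw [edge_comm]
    exact ptr_hub_raw hm (Or.inr ⟨k2, i2, rfl, hi2, hk2, q2⟩) ne.symm he2
      (e.symm.mono (plus_of (Or.inl q1))) h2 fun A a b => conn A a b.symm
  have a1 := e.back hm (Or.inl he1) h1
  have a2 := a1.symm.back hm he2 (by
    cases b1 <;> cases b2 <;> simpa [update_of_ne hz.symm] using h2)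
  refine serve_diff (fun k => cond k z2 z1) (fun k => cond k i2 i1) (fun k => !cond k b2 b1)
    (fun k => cond k s2 s1) (fun k => cond k (z2, k2) (z1, k1)) (by rintro (_ | _) <;> rfl) ?_
    (by rintro (_ | _); exacts [hi1, hi2]) hz ?_ a2.symm fun A c1 c2 c3 => conn A (fun L => ?_) ?_
  · rintro (_ | _)
    · cases b1 <;> exact hk1
    · cases b2 <;> exact hk2
  · rintro (_ | _)
    · cases b1 <;> exact q1
    · cases b2 <;> exact q2
  · have d1 := c2 false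
    have d2 := c2 true
    by_cases f1 : L = z1
    · subst f1
      cases b1 <;> cases b2 <;> simp [update_of_ne hz] at d1 h1 <;> simp [h1, d1]
    by_cases f2 : L = z2
    · subst f2
      cases b1 <;> cases b2 <;> simp [update_of_ne hz.symm] at d2 h2 <;> simp [h2, d2]
    have := c1 L (by rintro (_ | _); exacts [Ne.symm f1, Ne.symm f2])
    cases b1 <;> cases b2 <;> simpa [update_of_ne f1, update_of_ne f2] using this
  · cases b1 <;> cases b2 <;> simpa [update_of_ne hz, update_of_ne hz.symm] using c3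

omit [Fintype S] [DecidableEq S] [DecidableEq Λ] [Nontrivial S] in
theorem LBase.pth_raw (h : LBase m hang c hb nxt pos G T) (Q : List (Λ × S × S))
    (ne : Q ≠ []) (co : CO pos (Q.map Prod.fst))
    (hG : ∀ q ∈ Q, q.1 ∈ G ∧ hang q.1 0 q.2.1 ∧ hang q.1 m q.2.2) (bal : LBal c hb nxt T x y Q)
    (fin : ∀ P : S → Prop, Arcs (fun s t => P (hb (nxt s)) ↔ P (hb t)) (Q.map Prod.fst) →
      (∀ t ∈ T, P t.1 ↔ P t.2) → (∀ q ∈ Q, P q.2.1 ↔ P q.2.2) → (P x ↔ P y) →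
      (∀ q ∈ Q, P (hb q.1) ↔ P c) ∧ ∀ t ∈ T, P t.2 ↔ P c) :
    ∃ τ η, Ends m hang x y τ η ∧ (∀ q ∈ Q, τ q.1 = q.2.1 ∧ η q.1 = q.2.2) ∧
      ∀ A : Set S, (∀ L, τ L ∈ A ↔ η L ∈ A) → (x ∈ A ↔ y ∈ A) → ∀ s t, s ∈ A → t ∈ A := by
  obtain ⟨τ, η, e, a1, a2⟩ := h.rewire Q ne co hG bal
  refine ⟨τ, η, e, a1, fun A lk xy => ?_⟩
  obtain ⟨b1, b2, b4⟩ := a2 A fun L _ => lk L
  have k := fin (· ∈ A) b1 b2 (fun q hq => ?_) xy
  · exact b4 k.1 k.2
  · have := lk q.1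
    rwa [(a1 q hq).1, (a1 q hq).2] at this

/-- **A pointer and a hub `y`.**  Write the pointer as if it were a hub: the triple of `z` has `s`
at its tail (`b = true`) or head, the token sits at `hb z` or `hb (nxt z)`. -/
theorem LBase.ptr_hub (h : LBase m hang c hb nxt pos G T) (hm : 1 ≤ m) {b : Bool}
    {v : S ⊕ Λ × Fin (m + 1)} {z : Λ} {s : S} (p : Ptr m hang hb nxt b v z s) (ne : v ≠ inl y)
    (he : ∀ z, hang z 0 (hb z) ∧ hang z m (hb (nxt z))) (Q : List (Λ × S × S))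
    (mem : ∃ q ∈ Q, q.1 = z ∧ cond b q.2.1 q.2.2 = s) (co : CO pos (Q.map Prod.fst))
    (hG : ∀ q ∈ Q, q.1 ∈ G ∧ plus m hang b z s q.1 0 q.2.1 ∧ plus m hang b z s q.1 m q.2.2)
    (bal : LBal c hb nxt T (cond b (hb z) (hb (nxt z))) y Q)
    (fin : ∀ P : S → Prop, Arcs (fun s t => P (hb (nxt s)) ↔ P (hb t)) (Q.map Prod.fst) →
      (∀ t ∈ T, P t.1 ↔ P t.2) → (∀ q ∈ Q, P q.2.1 ↔ P q.2.2) →
      (P (cond b (hb z) (hb (nxt z))) ↔ P y) → (∀ q ∈ Q, P (hb q.1) ↔ P c) ∧ ∀ t ∈ T, P t.2 ↔ P c) :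
    (HL m hang ⊔ edge v (inl y)).IsHamiltonian := by
  have h' := h.mono (hang' := plus m hang b z s) fun _ _ _ => Or.inl
  obtain ⟨q, hq, rfl, rfl⟩ := mem
  obtain ⟨τ, η, e, a1, a2⟩ := h'.pth_raw Q (List.ne_nil_of_mem hq) co hG bal fin
  refine ptr_hub_raw hm p ne ?_ e (by rw [(a1 q hq).1, (a1 q hq).2]) a2
  cases b
  exacts [(he _).2, (he _).1]

/-- **Two pointers on different lines.** -/
theorem LBase.ptr_ptr (h : LBase m hang c hb nxt pos G T) (hm : 1 ≤ m) {b1 b2 : Bool}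
    {v1 v2 : S ⊕ Λ × Fin (m + 1)} {z1 z2 : Λ} {s1 s2 : S} (p1 : Ptr m hang hb nxt b1 v1 z1 s1)
    (p2 : Ptr m hang hb nxt b2 v2 z2 s2) (ne : v1 ≠ v2) (hz : z1 ≠ z2)
    (he : ∀ z, hang z 0 (hb z) ∧ hang z m (hb (nxt z))) (Q : List (Λ × S × S))
    (mem1 : ∃ q ∈ Q, q.1 = z1 ∧ cond b1 q.2.1 q.2.2 = s1)
    (mem2 : ∃ q ∈ Q, q.1 = z2 ∧ cond b2 q.2.1 q.2.2 = s2) (co : CO pos (Q.map Prod.fst))
    (hG : ∀ q ∈ Q, q.1 ∈ G ∧ plus m (plus m hang b2 z2 s2) b1 z1 s1 q.1 0 q.2.1 ∧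
      plus m (plus m hang b2 z2 s2) b1 z1 s1 q.1 m q.2.2)
    (bal : LBal c hb nxt T (cond b1 (hb z1) (hb (nxt z1))) (cond b2 (hb z2) (hb (nxt z2))) Q)
    (fin : ∀ P : S → Prop, Arcs (fun s t => P (hb (nxt s)) ↔ P (hb t)) (Q.map Prod.fst) →
      (∀ t ∈ T, P t.1 ↔ P t.2) → (∀ q ∈ Q, P q.2.1 ↔ P q.2.2) →
      (P (cond b1 (hb z1) (hb (nxt z1))) ↔ P (cond b2 (hb z2) (hb (nxt z2)))) →
      (∀ q ∈ Q, P (hb q.1) ↔ P c) ∧ ∀ t ∈ T, P t.2 ↔ P c) :
    (HL m hang ⊔ edge v1 v2).IsHamiltonian := by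
  have h' := h.mono (hang' := plus m (plus m hang b2 z2 s2) b1 z1 s1)
    fun _ _ _ a => Or.inl (Or.inl a)
  obtain ⟨q1, hq1, rfl, rfl⟩ := mem1
  obtain ⟨q2, hq2, rfl, rfl⟩ := mem2
  obtain ⟨τ, η, e, a1, a2⟩ := h'.pth_raw Q (List.ne_nil_of_mem hq1) co hG bal fin
  exact ptr_ptr_raw hm p1 p2 ne hz (he_cond he _ _) (he_cond he _ _) e (by rw [(a1 q1 hq1).1, (a1 q1 hq1).2])
    (by rw [(a1 q2 hq2).1, (a1 q2 hq2).2]) a2

/-- the position of a point on a line, shifted by one; `lo` for a hub -/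
def vpos (lo : ℕ) : S ⊕ Λ × Fin (m + 1) → ℕ
  | inl _ => lo
  | inr p => p.2 + 1

theorem ptr_in_raw (hm : 1 ≤ m) {v1 v2 : S ⊕ Λ × Fin (m + 1)} {z : Λ} {s1 s2 : S}
    (p1 : Ptr m hang hb nxt true v1 z s1) (p2 : Ptr m hang hb nxt false v2 z s2) (ne : v1 ≠ v2)
    (far : vpos 0 v1 + 2 ≤ vpos (m + 2) v2) (he : hang z 0 (hb z) ∧ hang z m (hb (nxt z)))
    (e : Ends m (plus m (plus m hang false z s2) true z s1) (hb z) (hb (nxt z)) τ η)
    (h1 : τ z = s1) (h2 : η z = s2)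
    (conn : ∀ A : Set S, (∀ L, τ L ∈ A ↔ η L ∈ A) → (hb z ∈ A ↔ hb (nxt z) ∈ A) →
      ∀ s t, s ∈ A → t ∈ A) : (HL m hang ⊔ edge v1 v2).IsHamiltonian := by
  rcases p2 with ⟨rfl, q2⟩ | ⟨k2, i2, rfl, hi2, hk2, q2⟩
  · exact ptr_hub_raw hm p1 ne he.1 (e.mono fun L i t a => a.imp (plus_of q2 L i t) id) h1 conn
  rcases p1 with ⟨rfl, q1⟩ | ⟨k1, i1, rfl, hi1, hk1, q1⟩
  · rw [edge_comm]
    exact ptr_hub_raw hm (b := false) (Or.inr ⟨k2, i2, rfl, hi2, hk2, q2⟩) ne.symm he.2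
      (e.symm.mono (plus_of (b := true) (Or.inl q1))) h2 fun A a b => conn A a b.symm
  have a1 := Ends.back (b := true) hm e (Or.inl he.1) h1
  have a2 := Ends.back (b := false) hm a1.symm he.2 h2
  simp only [cond_true, cond_false, vpos] at *
  refine serve_same (L0 := z) (fun k => cond k i2 i1) id (fun k => cond k s2 s1)
    (fun k => cond k k2 k1) (by rintro (_ | _); exacts [hk1, hk2]) (show i1 < i2 by omega) hi2
    (show (k1 : ℕ) + 2 ≤ k2 by omega) (by rintro (_ | _); exacts [q1, q2]) a2.symm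
    fun A c1 c2 c3 c4 => ?_
  simp only [update_self, id, cond_true, cond_false] at c2 c3 c4
  refine all_opt c2 (conn {t | some t ∈ A} (fun L => ?_) (c2.trans c4))
  by_cases d : L = z
  · rw [d, h1, h2]
    exact c3
  · simpa [update_of_ne d] using c1 L d

/-- **Two pointers on one line that point to each other.**  The triple of `z` is `(z, s1, s2)`. -/
theorem LBase.ptr_in (h : LBase m hang c hb nxt pos G T) (hm : 1 ≤ m)
    {v1 v2 : S ⊕ Λ × Fin (m + 1)} {z : Λ} {s1 s2 : S} (p1 : Ptr m hang hb nxt true v1 z s1)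
    (p2 : Ptr m hang hb nxt false v2 z s2) (ne : v1 ≠ v2) (far : vpos 0 v1 + 2 ≤ vpos (m + 2) v2)
    (he : hang z 0 (hb z) ∧ hang z m (hb (nxt z))) (Q : List (Λ × S × S))
    (co : CO pos (z :: Q.map Prod.fst)) (hz : z ∈ G)
    (hG : ∀ q ∈ Q, q.1 ∈ G ∧ hang q.1 0 q.2.1 ∧ hang q.1 m q.2.2)
    (bal : LBal c hb nxt T (hb z) (hb (nxt z)) ((z, s1, s2) :: Q))
    (fin : ∀ P : S → Prop, Arcs (fun s t => P (hb (nxt s)) ↔ P (hb t)) (z :: Q.map Prod.fst) →
      (∀ t ∈ T, P t.1 ↔ P t.2) → (∀ q ∈ (z, s1, s2) :: Q, P q.2.1 ↔ P q.2.2) →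
      (P (hb z) ↔ P (hb (nxt z))) →
      (∀ q ∈ (z, s1, s2) :: Q, P (hb q.1) ↔ P c) ∧ ∀ t ∈ T, P t.2 ↔ P c) :
    (HL m hang ⊔ edge v1 v2).IsHamiltonian := by
  obtain ⟨τ, η, e, a1, conn⟩ := (h.mono (hang' := plus m (plus m hang false z s2) true z s1)
    fun _ _ _ a => Or.inl (Or.inl a)).pth_raw ((z, s1, s2) :: Q) (by simp) co
    (List.forall_mem_cons.2 ⟨⟨hz, Or.inr ⟨rfl, rfl, rfl⟩, Or.inl (Or.inr ⟨rfl, rfl, rfl⟩)⟩,
      fun q hq => ⟨(hG q hq).1, Or.inl (Or.inl (hG q hq).2.1), Or.inl (Or.inl (hG q hq).2.2)⟩⟩)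
    bal fin
  obtain ⟨h1, h2⟩ := a1 (z, s1, s2) (by simp)
  exact ptr_in_raw hm p1 p2 ne far he e h1 h2 conn

omit [Fintype S] [DecidableEq S] [DecidableEq Λ] [Nontrivial S] in
theorem LBase.cut_raw (h : LBase m hang c hb nxt pos G T) (u : Λ) (t d : S)
    (Q : List (Λ × S × S)) (co : CO pos (u :: Q.map Prod.fst))
    (hG : ∀ q ∈ (u, t, d) :: Q, q.1 ∈ G ∧ hang q.1 0 q.2.1 ∧ hang q.1 m q.2.2)
    (bal : LBal c hb nxt T x y ((u, t, d) :: Q))
    (fin : ∀ P : S → Prop, Arcs (fun s t => P (hb (nxt s)) ↔ P (hb t)) (u :: Q.map Prod.fst) →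
      (∀ t ∈ T, P t.1 ↔ P t.2) → (∀ q ∈ Q, P q.2.1 ↔ P q.2.2) → (P t ↔ P x) → (P y ↔ P d) →
      (P (hb u) ↔ P c) ∧ (∀ q ∈ Q, P (hb q.1) ↔ P c) ∧ ∀ t ∈ T, P t.2 ↔ P c) :
    ∃ τ η, Ends m hang x y τ η ∧ (∀ q ∈ (u, t, d) :: Q, τ q.1 = q.2.1 ∧ η q.1 = q.2.2) ∧
      Cn u x y τ η := by
  obtain ⟨τ, η, e, a1, a2⟩ := h.rewire ((u, t, d) :: Q) (by simp) co hG bal
  refine ⟨τ, η, e, a1, fun A lk c1 c2 => ?_⟩
  obtain ⟨b1, b2, b4⟩ := a2 A fun L hL => lk L (hL (u, t, d) (by simp))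
  have a0 := a1 (u, t, d) (by simp)
  rw [a0.1] at c1
  rw [a0.2] at c2
  have k := fin (· ∈ A) b1 b2 (fun q hq => ?_) c1 c2
  · exact b4 (List.forall_mem_cons.2 ⟨k.1, k.2.1⟩) k.2.2
  · have hq' : q ∈ (u, t, d) :: Q := List.mem_cons_of_mem _ hq
    have := lk q.1 fun e => (List.nodup_cons.1 co.nodup).1 (List.mem_map.2 ⟨q, hq, e⟩)
    rwa [(a1 q hq').1, (a1 q hq').2] at this

theorem ptr_upup_raw {v1 : S ⊕ Λ × Fin (m + 1)} {z : Λ} {k2 : Fin (m + 1)} {s1 s2 : S}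
    (p1 : Ptr m hang hb nxt true v1 z s1) (hk : (k2 : ℕ) < m) (p2 : hang z (k2 + 1) s2)
    (far : vpos 0 v1 + 1 ≤ k2) (e : Ends m hang s1 s2 τ η) (h1 : τ z = hb z)
    (k : Cn z s1 s2 τ η) : (HL m hang ⊔ edge v1 (inr (z, k2))).IsHamiltonian := by
  rcases p1 with ⟨rfl, q1⟩ | ⟨k1, i1, rfl, hi1, hk1, q1⟩
  · exact serve_hub_up (p := (z, k2)) hk p2 ⟨_, _, h1 ▸ e.tail q1, h1 ▸ k.tail⟩
  · simp only [cond_true, vpos] at *
    exact serve_down hk (by omega) (hk1 ▸ q1) p2 ⟨τ, η, e, k⟩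

/-- **A point `v1` and a higher vertex `k2` of one line, both pointing up.** -/
theorem LBase.ptr_upup (h : LBase m hang c hb nxt pos G T) {v1 : S ⊕ Λ × Fin (m + 1)} {z : Λ}
    {k2 : Fin (m + 1)} {s1 s2 : S} (p1 : Ptr m hang hb nxt true v1 z s1) (hk : (k2 : ℕ) < m)
    (p2 : hang z (k2 + 1) s2) (far : vpos 0 v1 + 1 ≤ k2) (d : S) (Q : List (Λ × S × S))
    (co : CO pos (z :: Q.map Prod.fst))
    (hG : ∀ q ∈ (z, hb z, d) :: Q, q.1 ∈ G ∧ hang q.1 0 q.2.1 ∧ hang q.1 m q.2.2)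
    (bal : LBal c hb nxt T s1 s2 ((z, hb z, d) :: Q))
    (fin : ∀ P : S → Prop, Arcs (fun s t => P (hb (nxt s)) ↔ P (hb t)) (z :: Q.map Prod.fst) →
      (∀ t ∈ T, P t.1 ↔ P t.2) → (∀ q ∈ Q, P q.2.1 ↔ P q.2.2) → (P (hb z) ↔ P s1) →
      (P s2 ↔ P d) → (P (hb z) ↔ P c) ∧ (∀ q ∈ Q, P (hb q.1) ↔ P c) ∧ ∀ t ∈ T, P t.2 ↔ P c) :
    (HL m hang ⊔ edge v1 (inr (z, k2))).IsHamiltonian := by
  obtain ⟨τ, η, e, a1, k⟩ := h.cut_raw z (hb z) d Q co hG bal fin
  exact ptr_upup_raw p1 hk p2 far e (a1 (z, hb z, d) (by simp)).1 k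

theorem ptr_dndn_raw {v2 : S ⊕ Λ × Fin (m + 1)} {z : Λ} {k1 : Fin (m + 1)} {s1 s2 : S}
    (hk : 0 < (k1 : ℕ)) (p1 : hang z (k1 - 1) s1) (p2 : Ptr m hang hb nxt false v2 z s2)
    (far : (k1 : ℕ) + 3 ≤ vpos (m + 2) v2) (e : Ends m hang s1 s2 τ η) (h1 : η z = hb (nxt z))
    (k : Cn z s1 s2 τ η) : (HL m hang ⊔ edge (inr (z, k1)) v2).IsHamiltonian := by
  rcases p2 with ⟨rfl, q2⟩ | ⟨k2, i2, rfl, hi2, hk2, q2⟩
  · rw [edge_comm]
    exact serve_hub_down (p := (z, k1)) (i := k1 - 1) (by simp only; omega) p1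
      ⟨_, _, h1 ▸ (e.symm.head q2).symm, h1 ▸ k.head⟩
  · simp only [cond_false, vpos] at *
    exact serve_up (i := k1 - 1) (by omega) hk2 (by omega) p1 q2 ⟨τ, η, e, k⟩

/-- **A vertex `k1` and a higher point `v2` of one line, both pointing down.** -/
theorem LBase.ptr_dndn (h : LBase m hang c hb nxt pos G T) {v2 : S ⊕ Λ × Fin (m + 1)} {z : Λ}
    {k1 : Fin (m + 1)} {s1 s2 : S} (hk : 0 < (k1 : ℕ)) (p1 : hang z (k1 - 1) s1)
    (p2 : Ptr m hang hb nxt false v2 z s2) (far : (k1 : ℕ) + 3 ≤ vpos (m + 2) v2) (t : S)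
    (Q : List (Λ × S × S)) (co : CO pos (z :: Q.map Prod.fst))
    (hG : ∀ q ∈ (z, t, hb (nxt z)) :: Q, q.1 ∈ G ∧ hang q.1 0 q.2.1 ∧ hang q.1 m q.2.2)
    (bal : LBal c hb nxt T s1 s2 ((z, t, hb (nxt z)) :: Q))
    (fin : ∀ P : S → Prop, Arcs (fun s t => P (hb (nxt s)) ↔ P (hb t)) (z :: Q.map Prod.fst) →
      (∀ t ∈ T, P t.1 ↔ P t.2) → (∀ q ∈ Q, P q.2.1 ↔ P q.2.2) → (P t ↔ P s1) →
      (P s2 ↔ P (hb (nxt z))) →
      (P (hb z) ↔ P c) ∧ (∀ q ∈ Q, P (hb q.1) ↔ P c) ∧ ∀ t ∈ T, P t.2 ↔ P c) :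
    (HL m hang ⊔ edge (inr (z, k1)) v2).IsHamiltonian := by
  obtain ⟨τ, η, e, a1, k⟩ := h.cut_raw z t (hb (nxt z)) Q co hG bal fin
  exact ptr_dndn_raw hk p1 p2 far e (a1 (z, t, hb (nxt z)) (by simp)).2 k

/-- the end vertex of a line -/
def endv (m : ℕ) (b : Bool) (z : Λ) : Λ × Fin (m + 1) := (z, cond b 0 (Fin.last m))

/-- **A free end and a hub `s`.**  Write the new edge as an option: the tail (`b = true`) or head
of `z` goes to `s`; the filler gap is on the first cut `u`. -/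
theorem LBase.free_hub (h : LBase m hang c hb nxt pos G T) (b : Bool) (z : Λ) (s : S) (u : Λ)
    (t d : S) {i : ℕ} (hi : i < m) (hx : hang u i x) (hy : hang u (i + 1) y)
    (Q : List (Λ × S × S)) (co : CO pos (u :: Q.map Prod.fst))
    (hG : ∀ q ∈ (u, t, d) :: Q,
      q.1 ∈ G ∧ plus m hang b z s q.1 0 q.2.1 ∧ plus m hang b z s q.1 m q.2.2)
    (bal : LBal c hb nxt T x y ((u, t, d) :: Q))
    (fin : ∀ P : S → Prop, Arcs (fun s t => P (hb (nxt s)) ↔ P (hb t)) (u :: Q.map Prod.fst) →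
      (∀ t ∈ T, P t.1 ↔ P t.2) → (∀ q ∈ Q, P q.2.1 ↔ P q.2.2) → (P t ↔ P x) → (P y ↔ P d) →
      (P (hb u) ↔ P c) ∧ (∀ q ∈ Q, P (hb q.1) ↔ P c) ∧ ∀ t ∈ T, P t.2 ↔ P c) :
    (HL m hang ⊔ edge (inl s) (inr (endv m b z))).IsHamiltonian := by
  have h' := h.mono (hang' := plus m hang b z s) fun _ _ _ => Or.inl
  refine serve_hub hi (Or.inl hx) (Or.inl hy)
    ((h'.cut u t d Q co hG bal fin).mono fun L j w a => a.imp id ?_)
  cases b <;> exact id

theorem free_ptr_raw {b1 b2 : Bool} {z1 z2 u : Λ} {v2 : S ⊕ Λ × Fin (m + 1)} {s2 e : S}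
    (p2 : Ptr m hang hb nxt b2 v2 z2 s2) (ne : inr (endv m b1 z1) ≠ v2)
    (na : ¬(HL m hang).Adj (inr (endv m b1 z1)) v2) (nb : z1 = z2 → b1 ≠ b2)
    (he : hang z2 (cond b2 0 m) (cond b2 (hb z2) (hb (nxt z2)))) {i : ℕ} (hi : i < m)
    (hx : hang u i x) (hy : hang u (i + 1) y) (he2 : e = cond b2 (hb z2) (hb (nxt z2))) (hu : u ≠ z2)
    (en : Ends m (plus m (plus m hang b2 z2 s2) b1 z1 e) x y τ η)
    (h1 : cond b1 (τ z1) (η z1) = e) (h2 : cond b2 (τ z2) (η z2) = s2) (k : Cn u x y τ η) :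
    (HL m hang ⊔ edge (inr (endv m b1 z1)) v2).IsHamiltonian := by
  have hm : 1 ≤ m := by omega
  rcases p2 with ⟨rfl, r2⟩ | ⟨k2, i2, rfl, hi2, hk2, r2⟩
  · rw [edge_comm]
    refine serve_hub hi (Or.inl hx) (Or.inl hy) ⟨τ, η, en.mono fun L j w a =>
      a.imp (plus_of r2 L j w) ?_, k⟩
    rw [he2]
    cases b1 <;> exact id
  -- the configuration with the virtual hub
  let τ1 : Λ → Option S := fun L => some (τ L)
  let η1 : Λ → Option S := fun L => some (η L)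
  let τ2 := cond b1 (update τ1 z1 none) τ1
  let η2 := cond b1 η1 (update η1 z1 none)
  let τ3 := cond b2 (update τ2 z2 (some e)) τ2
  let η3 := cond b2 η2 (update η2 z2 (some e))
  have t3 : ∀ L, τ3 L = if L = z2 ∧ b2 = true then some e else
      if L = z1 ∧ b1 = true then none else some (τ L) := fun L => by
    cases b1 <;> cases b2 <;> simp [τ3, τ2, τ1, update_apply]
  have e3 : ∀ L, η3 L = if L = z2 ∧ b2 = false then some e else
      if L = z1 ∧ b1 = false then none else some (η L) := fun L => by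
    cases b1 <;> cases b2 <;> simp [η3, η2, η1, update_apply]
  refine serve_pp hm (fun a => ne (congrArg inr a)) na (Cfg.of (Γ := Bool)
    (gl := fun k => cond k z2 u) (gi := fun k => cond k i2 i)
    (x := fun k => cond k (cond b2 none (some s2)) (some x))
    (y := fun k => cond k (cond b2 (some s2) none) (some y)) (τ := τ3) (η := η3) ?_ ?_
    (fun L => ?_) (fun L => ?_) ?_ ?_ (fun s => ?_) fun A c1 c2 c3 _ _ => ?_)
  · rintro (_ | _); exacts [hi, hi2]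
  · rintro (_ | _) (_ | _) a _
    exacts [rfl, absurd a hu, absurd a hu.symm, rfl]
  · rw [t3]
    split_ifs with a a'
    · rw [a.2] at he
      rw [a.1, he2, a.2]
      exact he
    · exact Or.inl ⟨a'.1, by simp [endv, a'.2]⟩
    · rcases en.ht L with (r | r) | r
      · exact r
      · cases b2
        · exact absurd r.2.1 (by simp only [cond_false]; omega)
        · exact absurd ⟨r.1, rfl⟩ a
      · cases b1
        · exact absurd r.2.1 (by simp only [cond_false]; omega)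
        · exact absurd ⟨r.1, rfl⟩ a'
  · rw [e3]
    split_ifs with a a'
    · rw [a.2] at he
      rw [a.1, he2, a.2]
      exact he
    · exact Or.inl ⟨a'.1, by simp [endv, a'.2]⟩
    · rcases en.hh L with (r | r) | r
      · exact r
      · cases b2
        · exact absurd ⟨r.1, rfl⟩ a
        · exact absurd r.2.1 (by simp only [cond_true]; omega)
      · cases b1
        · exact absurd ⟨r.1, rfl⟩ a'
        · exact absurd r.2.1 (by simp only [cond_true]; omega)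
  · rintro (_ | _)
    · exact hx
    · cases b2
      exacts [r2, Or.inr ⟨rfl, hk2.symm⟩]
  · rintro (_ | _)
    · exact hy
    · cases b2
      exacts [Or.inr ⟨rfl, hk2.symm⟩, r2]
  · have l0 : {L | τ1 L = s}.ncard + {L | η1 L = s}.ncard + ind (some x = s) + ind (some y = s) +
        2 * ind (none = s) = 2 := by
      rcases s with _ | s
      · simp [τ1, η1, ind_false, ind_true]
      · have := en.load s
        simp only [ind_eq] at this
        simpa [τ1, η1, ind_false] using this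
    have l1 : {L | τ2 L = s}.ncard + {L | η2 L = s}.ncard + ind (some e = s) =
        {L | τ1 L = s}.ncard + {L | η1 L = s}.ncard + ind (none = s) := by
      cases b1
      · have := ncard_update η1 z1 none s
        simp only [ind_eq, show η1 z1 = some e from congrArg some h1] at this
        simp only [τ2, η2, cond_false]
        omega
      · have := ncard_update τ1 z1 none s
        simp only [ind_eq, show τ1 z1 = some e from congrArg some h1] at this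
        simp only [τ2, η2, cond_true]
        omega
    have l2 : {L | τ3 L = s}.ncard + {L | η3 L = s}.ncard + ind (some s2 = s) =
        {L | τ2 L = s}.ncard + {L | η2 L = s}.ncard + ind (some e = s) := by
      cases b2
      · have := ncard_update η2 z2 (some e) s
        rw [show η2 z2 = some s2 by
          cases b1
          · exact (update_of_ne (f := η1) (fun a => nb a.symm rfl) none).trans (congrArg some h2)
          · exact congrArg some h2] at this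
        simp only [ind_eq] at this
        simp only [τ3, η3, cond_false]
        omega
      · have := ncard_update τ2 z2 (some e) s
        rw [show τ2 z2 = some s2 by
          cases b1
          · exact congrArg some h2
          · exact (update_of_ne (f := τ1) (fun a => nb a.symm rfl) none).trans
              (congrArg some h2)] at this
        simp only [ind_eq] at this
        simp only [τ3, η3, cond_true]
        omega
    rw [ncard_bool, ncard_bool]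
    cases b2 <;> simp only [ind_eq, cond_true, cond_false, Set.ofPred_false, Set.ncard_empty] <;>
      omega
  · have d1 := c2 false (by rintro (_ | _) a; exacts [le_rfl, absurd a hu.symm])
    have d2 := c3 false (by rintro (_ | _) a; exacts [le_rfl, absurd a hu.symm])
    have d3 := c2 true (by rintro (_ | _) a; exacts [absurd a hu, le_rfl])
    have d4 := c3 true (by rintro (_ | _) a; exacts [absurd a hu, le_rfl])
    simp only [cond_true, cond_false] at d1 d2 d3 d4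
    have n0 : some e ∈ A ↔ none ∈ A := by
      cases b2
      · simpa [e3] using d4.symm
      · simpa [t3] using d3
    have tt : ∀ L, L ≠ z2 ∨ b2 = false → (τ3 L ∈ A ↔ some (τ L) ∈ A) := fun L a => by
      rw [t3, if_neg (by grind)]
      split_ifs with a'
      · obtain ⟨rfl, rfl⟩ := a'
        rw [show τ L = e from h1, n0]
      · rfl
    have ee : ∀ L, L ≠ z2 ∨ b2 = true → (η3 L ∈ A ↔ some (η L) ∈ A) := fun L a => by
      rw [e3, if_neg (by grind)]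
      split_ifs with a'
      · obtain ⟨rfl, rfl⟩ := a'
        rw [show η L = e from h1, n0]
      · rfl
    refine all_opt n0 (k {w | some w ∈ A} (fun L hL => ?_) ((tt u (Or.inl hu)).symm.trans d1)
      (d2.trans (ee u (Or.inl hu))))
    by_cases a : L = z2
    · subst a
      cases b2
      · exact (tt L (Or.inr rfl)).symm.trans (d3.trans (by rw [show η L = s2 from h2]; rfl))
      · exact (show some (τ L) ∈ A ↔ some s2 ∈ A by rw [show τ L = s2 from h2]).trans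
          (d4.trans (ee L (Or.inr rfl)))
    · exact (tt L (Or.inl a)).symm.trans ((c1 L (by
        rintro (_ | _); exacts [Ne.symm hL, Ne.symm a])).trans (ee L (Or.inl a)))

/-- **A free end and a pointer.**  The end of `z1` is written at the token hub of the pointer; the
filler gap is on the first cut `u`, which is not the line of the pointer. -/
theorem LBase.free_ptr (h : LBase m hang c hb nxt pos G T) (b1 : Bool) (z1 : Λ) {b2 : Bool}
    {v2 : S ⊕ Λ × Fin (m + 1)} {z2 : Λ} {s2 : S} (p2 : Ptr m hang hb nxt b2 v2 z2 s2)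
    (ne : inr (endv m b1 z1) ≠ v2) (na : ¬(HL m hang).Adj (inr (endv m b1 z1)) v2)
    (nb : z1 = z2 → b1 ≠ b2) (he : ∀ z, hang z 0 (hb z) ∧ hang z m (hb (nxt z))) (u : Λ)
    (t d : S) {i : ℕ} (hi : i < m) (hx : hang u i x) (hy : hang u (i + 1) y)
    (Q : List (Λ × S × S)) {e : S} (he2 : e = cond b2 (hb z2) (hb (nxt z2)))
    (mem1 : ∃ q ∈ (u, t, d) :: Q, q.1 = z1 ∧ cond b1 q.2.1 q.2.2 = e)
    (mem2 : ∃ q ∈ Q, q.1 = z2 ∧ cond b2 q.2.1 q.2.2 = s2) (co : CO pos (u :: Q.map Prod.fst))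
    (hG : ∀ q ∈ (u, t, d) :: Q, q.1 ∈ G ∧ plus m (plus m hang b2 z2 s2) b1 z1 e q.1 0 q.2.1 ∧
      plus m (plus m hang b2 z2 s2) b1 z1 e q.1 m q.2.2)
    (bal : LBal c hb nxt T x y ((u, t, d) :: Q))
    (fin : ∀ P : S → Prop, Arcs (fun s t => P (hb (nxt s)) ↔ P (hb t)) (u :: Q.map Prod.fst) →
      (∀ t ∈ T, P t.1 ↔ P t.2) → (∀ q ∈ Q, P q.2.1 ↔ P q.2.2) → (P t ↔ P x) → (P y ↔ P d) →
      (P (hb u) ↔ P c) ∧ (∀ q ∈ Q, P (hb q.1) ↔ P c) ∧ ∀ t ∈ T, P t.2 ↔ P c) :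
    (HL m hang ⊔ edge (inr (endv m b1 z1)) v2).IsHamiltonian := by
  obtain ⟨q1, hq1, f1, g1⟩ := mem1
  obtain ⟨q2, hq2, f2, g2⟩ := mem2
  have hu : u ≠ z2 := fun a =>
    (List.nodup_cons.1 co.nodup).1 (List.mem_map.2 ⟨q2, hq2, f2.trans a.symm⟩)
  have h' := h.mono (hang' := plus m (plus m hang b2 z2 s2) b1 z1 e)
    fun _ _ _ a => Or.inl (Or.inl a)
  obtain ⟨τ, η, en, a1, k⟩ := h'.cut_raw u t d Q co hG bal fin
  have h1 : cond b1 (τ z1) (η z1) = e := by rw [← f1, (a1 q1 hq1).1, (a1 q1 hq1).2, g1]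
  have h2 : cond b2 (τ z2) (η z2) = s2 := by
    rw [← f2, (a1 q2 (List.mem_cons_of_mem _ hq2)).1, (a1 q2 (List.mem_cons_of_mem _ hq2)).2, g2]
  exact free_ptr_raw p2 ne na nb (he_cond he _ _) hi hx hy he2 hu en h1 h2 k

end Pool.Agent.P.MP_439f1f_co
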