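import Pool.Agent.P.MP_439f1f_co.B14

/-!
Service by computation: a finite table of moves is checked for all orders of the cuts that agree
with the known comparisons.
-/

set_option autoImplicit false

namespace Pool.Agent.P.MP_439f1f_co

open Function SimpleGraph Sum

/-! ### reachability with bit sets -/

def stp : List (ℕ × ℕ) → ℕ → ℕ
  | [], M => M
  | e :: E, M => stp E (bif M.testBit e.1 then M ||| 2 ^ e.2 else M)

def rch (E : List (ℕ × ℕ)) : ℕ → ℕ → ℕ
  | 0, M => M
  | f + 1, M => bif Nat.beq (stp E M) M then M else rch E f (stp E M)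

theorem stp_ok {P : ℕ → Prop} : ∀ (E : List (ℕ × ℕ)) (M : ℕ), (∀ e ∈ E, P e.1 → P e.2) →
    (∀ n, M.testBit n = true → P n) → ∀ n, (stp E M).testBit n = true → P n
  | [], _, _, h => h
  | e :: E, M, k, h => stp_ok E _ (fun a ha => k a (List.mem_cons_of_mem _ ha)) fun n hn => by
    cases c : M.testBit e.1 <;> rw [c] at hn
    · exact h n hn
    · simp only [cond_true, Nat.testBit_or, Nat.testBit_two_pow, Bool.or_eq_true,
        decide_eq_true_eq] at hn
      exact hn.elim (h n) fun a => a ▸ k e (by simp) (h _ c)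

theorem rch_ok {P : ℕ → Prop} {E : List (ℕ × ℕ)} (k : ∀ e ∈ E, P e.1 → P e.2) :
    ∀ (f M : ℕ), (∀ n, M.testBit n = true → P n) → ∀ n, (rch E f M).testBit n = true → P n
  | 0, _, h => h
  | f + 1, M, h => by
    unfold rch
    cases Nat.beq (stp E M) M
    exacts [rch_ok k f _ (stp_ok E M k h), h]

/-! ### orders -/

/-- monotone formulas in the comparisons of positions -/
inductive Fm
  | lt (i j : ℕ)
  | and (a b : Fm)
  | or (a b : Fm)

/-- `i`, `j`, `k` are in cyclic order -/
@[reducible] def Fm.cy (i j k : ℕ) : Fm :=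
  .or (.and (.lt i j) (.lt j k)) (.or (.and (.lt j k) (.lt k i)) (.and (.lt k i) (.lt i j)))

/-- `k` is before or after both `i` and `j` -/
@[reducible] def Fm.out (k i j : ℕ) : Fm :=
  .or (.and (.lt k i) (.lt k j)) (.and (.lt i k) (.lt j k))

def Fm.Holds {β : Type*} [LinearOrder β] (r : ℕ → β) : Fm → Prop
  | .lt i j => r i < r j
  | .and a b => a.Holds r ∧ b.Holds r
  | .or a b => a.Holds r ∨ b.Holds r

/-- `i` comes before `j` -/
def bef (i j : ℕ) : List ℕ → Bool
  | [] => false
  | a :: l => bif Nat.beq a j then false else bif Nat.beq a i then true else bef i j l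

def Fm.ev (k : ℕ) (l : List ℕ) : Fm → Bool
  | .lt i j => Nat.ble k i || (Nat.ble k j || bef i j l)
  | .and a b => a.ev k l && b.ev k l
  | .or a b => a.ev k l || b.ev k l

def ins (a : ℕ) : List ℕ → List (List ℕ)
  | [] => [[a]]
  | b :: l => (a :: b :: l) :: (ins a l).map (b :: ·)

/-- all orders of `0, ..., k - 1` that agree with the formulas -/
def orders (F : List Fm) : ℕ → List (List ℕ)
  | 0 => [[]]
  | k + 1 => ((orders F k).flatMap (ins k)).filter fun l => F.all (Fm.ev (k + 1) l)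

section ord
variable {β : Type*} [LinearOrder β] {r : ℕ → β}

theorem bef_ok {i j : ℕ} (h : r i < r j) : ∀ l : List ℕ, l.Pairwise (fun a b => r a < r b) →
    i ∈ l → bef i j l = true
  | a :: l, p, hi => by
    rw [List.pairwise_cons] at p
    unfold bef
    cases c : Nat.beq a j
    · cases d : Nat.beq a i
      · exact bef_ok h l p.2 ((List.mem_cons.1 hi).resolve_left fun e =>
          Nat.ne_of_beq_eq_false d e.symm)
      · rfl
    · obtain rfl := Nat.eq_of_beq_eq_true c
      rcases List.mem_cons.1 hi with rfl | hi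
      exacts [absurd h (lt_irrefl _), absurd h (lt_asymm (p.1 i hi))]

theorem Fm.ev_ok {k : ℕ} {l : List ℕ} (p : l.Pairwise fun a b => r a < r b)
    (hl : ∀ i < k, i ∈ l) : ∀ F : Fm, F.Holds r → F.ev k l = true
  | .lt i j, h => by
    simp only [ev, Bool.or_eq_true, Nat.ble_eq]
    exact (le_or_gt k i).imp id fun a => Or.inr (bef_ok h l p (hl i a))
  | .and a b, h => by simp only [ev, a.ev_ok p hl h.1, b.ev_ok p hl h.2, Bool.and_self]
  | .or a b, h => by
    simp only [ev, Bool.or_eq_true]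
    exact h.imp (a.ev_ok p hl) (b.ev_ok p hl)

theorem ins_ok (a : ℕ) : ∀ l : List ℕ, l.Pairwise (fun a b => r a < r b) → (∀ b ∈ l, r b ≠ r a) →
    ∃ l' ∈ ins a l, l'.Pairwise (fun a b => r a < r b) ∧ l'.Perm (a :: l)
  | [], _, _ => ⟨[a], by simp [ins], by simp, .refl _⟩
  | b :: l, p, h => by
    have p' := List.pairwise_cons.1 p
    rcases lt_or_gt_of_ne (h b (by simp)) with c | c
    · obtain ⟨l', h1, h2, h3⟩ := ins_ok a l p'.2 fun d hd => h d (List.mem_cons_of_mem _ hd)
      refine ⟨b :: l', List.mem_cons_of_mem _ (List.mem_map.2 ⟨l', h1, rfl⟩),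
        List.pairwise_cons.2 ⟨fun d hd => ?_, h2⟩, (h3.cons b).trans (.swap _ _ _)⟩
      rcases List.mem_cons.1 (h3.subset hd) with rfl | hd
      exacts [c, p'.1 d hd]
    · refine ⟨a :: b :: l, by simp [ins], List.pairwise_cons.2 ⟨fun d hd => ?_, p⟩, .refl _⟩
      rcases List.mem_cons.1 hd with rfl | hd
      exacts [c, c.trans (p'.1 d hd)]

theorem orders_ok {F : List Fm} (hF : ∀ f ∈ F, f.Holds r) : ∀ k : ℕ,
    (∀ j < k, ∀ i < j, r i ≠ r j) →
    ∃ l ∈ orders F k, l.Pairwise (fun a b => r a < r b) ∧ l.Perm (List.range k)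
  | 0, _ => ⟨[], by simp [orders], by simp, .refl _⟩
  | k + 1, h => by
    obtain ⟨l, h1, h2, h3⟩ := orders_ok hF k fun j hj => h j (by omega)
    obtain ⟨l', a1, a2, a3⟩ := ins_ok k l h2 fun b hb =>
      h k (by omega) b (List.mem_range.1 (h3.subset hb))
    have a4 : l'.Perm (List.range (k + 1)) := by
      rw [List.range_succ]
      exact a3.trans ((h3.cons k).trans (List.perm_append_singleton _ _).symm)
    refine ⟨l', List.mem_filter.2 ⟨List.mem_flatMap.2 ⟨l, h1, a1⟩, List.all_eq_true.2 fun f hf =>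
      Fm.ev_ok a2 (fun i hi => a4.symm.subset (List.mem_range.2 hi)) f (hF f hf)⟩, a2, a4⟩

/-- the plain comparisons in a list of formulas -/
def lts : List Fm → List (ℕ × ℕ)
  | [] => []
  | .lt i j :: F => (i, j) :: lts F
  | _ :: F => lts F

theorem lts_ok : ∀ {F : List Fm}, (∀ f ∈ F, f.Holds r) → ∀ e ∈ lts F, r e.1 < r e.2
  | .lt i j :: F, h, e, he => by
    rcases List.mem_cons.1 he with rfl | he
    exacts [h (.lt i j) (by simp), lts_ok (fun f hf => h f (List.mem_cons_of_mem _ hf)) e he]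
  | .and _ _ :: F, h, e, he => lts_ok (F := F) (fun f hf => h f (List.mem_cons_of_mem _ hf)) e he
  | .or _ _ :: F, h, e, he => lts_ok (F := F) (fun f hf => h f (List.mem_cons_of_mem _ hf)) e he

/-- `j` is above `i` along a chain of comparisons -/
def abv (E : List (ℕ × ℕ)) (i j : ℕ) : Bool :=
  E.any fun e => Nat.beq e.1 i && (rch E E.length (2 ^ e.2)).testBit j

theorem abv_ok {E : List (ℕ × ℕ)} (h : ∀ e ∈ E, r e.1 < r e.2) {i j : ℕ} (a : abv E i j = true) :
    r i < r j := by
  obtain ⟨e, he, a⟩ := List.any_eq_true.1 a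
  rw [Bool.and_eq_true] at a
  obtain rfl := Nat.eq_of_beq_eq_true a.1
  refine rch_ok (P := fun n => r e.1 < r n) (fun d hd c => c.trans (h d hd)) _ _ (fun n hn => ?_) j a.2
  rw [Nat.testBit_two_pow, decide_eq_true_eq] at hn
  exact hn ▸ h e he

end ord

/-! ### tables -/

/-- Names of hubs: the root, the virtual hub, the hubs at the tail and at the head of the cut `k`,
and further hubs. -/
inductive Cd
  | c
  | v
  | i (k : ℕ)
  | o (k : ℕ)
  | a (k : ℕ)

def Cd.num : Cd → ℕ
  | .c => 0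
  | .v => 1
  | .i k => 3 * k + 2
  | .o k => 3 * k + 3
  | .a k => 3 * k + 4

theorem Cd.num_inj : Injective Cd.num := by
  rintro (_ | _ | k | k | k) (_ | _ | l | l | l) h <;> simp only [num] at h <;>
    first | rfl | omega | (congr 1; omega)

def look {α : Type*} (k : ℕ) (d : α) : List (ℕ × α) → α
  | [] => d
  | p :: l => bif Nat.beq p.1 k then p.2 else look k d l

theorem look_ok {α : Type*} {P : α → Prop} {k : ℕ} {d : α} (hd : P d) :
    ∀ l : List (ℕ × α), (∀ p ∈ l, p.1 = k → P p.2) → P (look k d l)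
  | [], _ => hd
  | p :: l, h => by
    unfold look
    cases e : Nat.beq p.1 k
    exacts [look_ok hd l fun q hq => h q (List.mem_cons_of_mem _ hq),
      h p (by simp) (Nat.eq_of_beq_eq_true e)]

theorem look_self {α : Type*} (k : ℕ) (d s : α) (l : List (ℕ × α)) : look k d ((k, s) :: l) = s := by
  simp [look]

theorem look_ne {α : Type*} {k j : ℕ} (h : j ≠ k) (d s : α) (l : List (ℕ × α)) :
    look k d ((j, s) :: l) = look k d l := by
  have : Nat.beq j k = false := Bool.eq_false_iff.2 fun e => h (Nat.eq_of_beq_eq_true e)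
  simp [look, this]

/-- A table: `n` cuts; moved tails `tl` and heads `hd`; routes `T` (end, base); known comparisons
`ord`; pairs `ne` of different cuts; pairs `ad` of consecutive lines. -/
structure Tab where
  n : ℕ
  tl : List (ℕ × Cd)
  hd : List (ℕ × Cd)
  T : List (Cd × Cd)
  ord : List Fm
  ne : List (ℕ × ℕ)
  ad : List (ℕ × ℕ)

/-- evaluate `n` first -/
def frc {α : Type} (n : ℕ) (f : ℕ → α) : α :=
  match n with
  | 0 => f 0
  | k + 1 => f (Nat.succ k)

theorem frc_eq {α : Type} (n : ℕ) (f : ℕ → α) : frc n f = f n := by cases n <;> rfl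

def stq : List ℕ → ℕ → ℕ
  | [], M => M
  | e :: E, M => bif Nat.beq (Nat.land M e) 0 then stq E M else frc (Nat.lor M e) (stq E)

def rcq (E : List ℕ) : ℕ → ℕ → ℕ
  | 0, M => M
  | f + 1, M => frc (stq E M) fun M' => bif Nat.beq M' M then M else rcq E f M'

theorem stq_ok {P : ℕ → Prop} : ∀ (E : List ℕ) (M : ℕ),
    (∀ e ∈ E, ∀ i j, e.testBit i = true → e.testBit j = true → P i → P j) →
    (∀ n, M.testBit n = true → P n) → ∀ n, (stq E M).testBit n = true → P n
  | [], _, _, h => h
  | e :: E, M, k, h => by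
    have k' := fun a ha => k a (List.mem_cons_of_mem _ ha)
    unfold stq
    cases c : Nat.beq (Nat.land M e) 0
    · obtain ⟨i, hi⟩ := Nat.exists_testBit_of_ne_zero (Nat.ne_of_beq_eq_false c)
      rw [Nat.land_eq, Nat.testBit_and, Bool.and_eq_true] at hi
      rw [cond_false, frc_eq]
      refine stq_ok E _ k' fun n hn => ?_
      rw [Nat.lor_eq, Nat.testBit_or, Bool.or_eq_true] at hn
      exact hn.elim (h n) fun a => k e (by simp) i n hi.2 a (h i hi.1)
    · exact stq_ok E M k' h

theorem rcq_ok {P : ℕ → Prop} {E : List ℕ}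
    (k : ∀ e ∈ E, ∀ i j, e.testBit i = true → e.testBit j = true → P i → P j) :
    ∀ (f M : ℕ), (∀ n, M.testBit n = true → P n) → ∀ n, (rcq E f M).testBit n = true → P n
  | 0, _, h => h
  | f + 1, M, h => by
    rw [rcq, frc_eq]
    cases Nat.beq (stq E M) M
    exacts [rcq_ok k f _ (stq_ok E M k h), h]

def msk (e : Cd × Cd) : ℕ := Nat.lor (Nat.shiftLeft 1 e.1.num) (Nat.shiftLeft 1 e.2.num)

def mskL : List Cd → ℕ
  | [] => 0
  | a :: l => Nat.lor (Nat.shiftLeft 1 a.num) (mskL l)

theorem bit_one (k i : ℕ) : (Nat.shiftLeft 1 k).testBit i = true ↔ k = i := by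
  rw [Nat.shiftLeft_eq', Nat.one_shiftLeft, Nat.testBit_two_pow, decide_eq_true_eq]

theorem bit_mskL {w : Cd} : ∀ {l : List Cd}, w ∈ l → (mskL l).testBit w.num = true
  | a :: l, h => by
    rw [mskL, Nat.lor_eq, Nat.testBit_or, Bool.or_eq_true, bit_one]
    exact (List.mem_cons.1 h).imp (fun e => by rw [e]) bit_mskL

/-- the arcs from `a` along the list and back to `f` -/
def arcs (f : ℕ) (E : List ℕ) : ℕ → List ℕ → List ℕ
  | a, [] => msk (.o a, .i f) :: E
  | a, b :: l => msk (.o a, .i b) :: arcs f E b l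

theorem mem_arcs {r : ℕ → ℕ → Prop} {f e : ℕ} {E : List ℕ} : ∀ (l : List ℕ) (a : ℕ),
    (a :: (l ++ [f])).IsChain r → e ∈ arcs f E a l → e ∈ E ∨ ∃ a b, r a b ∧ e = msk (.o a, .i b)
  | [], a, h, he => (List.mem_cons.1 he).symm.imp id fun e => ⟨a, f, by simpa using h, e⟩
  | b :: l, a, h, he => by
    rw [List.cons_append, List.isChain_cons_cons] at h
    exact (List.mem_cons.1 he).elim (fun e => Or.inr ⟨a, b, h.1, e⟩) (mem_arcs l b h.2)

/-- all hubs of `W` are joined to the root along `E` and the arcs of the order -/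
def good (E : List ℕ) (W n : ℕ) : List ℕ → Bool
  | [] => true
  | a :: l => Nat.beq (Nat.land (rcq (arcs a E a l) n 1) W) W

theorem good_ok {E : List (Cd × Cd)} {W : List Cd} {n : ℕ} {l : List ℕ} (ne : l ≠ [])
    (h : good (E.map msk) (mskL W) n l = true) {P : Cd → Prop}
    (o : Arcs (fun a b => P (.o a) ↔ P (.i b)) l) (k : ∀ e ∈ E, P e.1 ↔ P e.2) (w : Cd)
    (hw : w ∈ W) : P w ↔ P .c := by
  rcases l with _ | ⟨a, l⟩
  · exact absurd rfl ne
  have key : ∀ e : Cd × Cd, (P e.1 ↔ P e.2) → ∀ i j, (msk e).testBit i = true →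
      (msk e).testBit j = true → (∀ u : Cd, u.num = i → (P u ↔ P .c)) →
      ∀ u : Cd, u.num = j → (P u ↔ P .c) := fun e he i j hi hj b u hu => by
    simp only [msk, Nat.lor_eq, Nat.testBit_or, Bool.or_eq_true, bit_one] at hi hj
    have b1 : P e.1 ↔ P .c := hi.elim (b _) fun d => he.trans (b _ d)
    rcases hj with d | d <;> obtain rfl := Cd.num_inj (hu.trans d.symm)
    exacts [b1, he.symm.trans b1]
  refine rcq_ok (P := fun n => ∀ u : Cd, u.num = n → (P u ↔ P .c)) (E := arcs a (E.map msk) a l)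
    (fun e he => ?_) n 1 (fun j hj u hu => ?_) w.num ?_ w rfl
  · rcases mem_arcs l a o he with he | ⟨u, v, b, rfl⟩
    · obtain ⟨d, hd, rfl⟩ := List.mem_map.1 he
      exact key d (k d hd)
    · exact key _ b
  · rw [Cd.num_inj (hu.trans ((bit_one 0 j).1 hj).symm : u.num = Cd.c.num)]
  · have b := bit_mskL hw
    rw [← Nat.eq_of_beq_eq_true h, Nat.land_eq, Nat.testBit_and, Bool.and_eq_true] at b
    exact b.1

namespace Tab

variable (Z : Tab)

def t (k : ℕ) : Cd := look k (.i k) Z.tl
def d (k : ℕ) : Cd := look k (.o k) Z.hd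

/-- one more move: the tail (`b = true`) or head of the cut `k` goes to `s` -/
def put (b : Bool) (k : ℕ) (s : Cd) : Tab :=
  cond b { Z with tl := (k, s) :: Z.tl } { Z with hd := (k, s) :: Z.hd }

def can : Cd → Cd
  | .o k => look k (.o k) (Z.ad.map fun p => (p.1, .i p.2))
  | s => s

def adF : List Fm := Z.ad.flatMap fun p =>
  ((List.range Z.n).filter fun k => !(Nat.beq k p.1 || Nat.beq k p.2)).map (Fm.cy p.1 p.2)

def dist : Bool := (List.range Z.n).all fun j => (List.range j).all fun i =>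
  (Z.ne ++ Z.ad).any (fun p => (Nat.beq p.1 i && Nat.beq p.2 j) || (Nat.beq p.1 j && Nat.beq p.2 i))
    || (abv (lts Z.ord) i j || abv (lts Z.ord) j i)

def bal (tok base : List Cd) : Bool :=
  ((tok ++ (Z.T.map Prod.snd ++ (List.range Z.n).flatMap fun k => [Z.t k, Z.d k])).map
    fun s => (Z.can s).num).isPerm
  ((base ++ (Z.T.map Prod.fst ++ (List.range Z.n).flatMap fun k => [Cd.i k, Cd.o k])).map
    fun s => (Z.can s).num)

/-- the check: tokens `tok` against `base`; the cuts in `skip` are broken; extra links `E`;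
extra hubs `W` that have to be reached -/
def chk (tok base : List Cd) (skip : List ℕ) (E : List (Cd × Cd)) (W : List Cd) : Bool :=
  Nat.blt 0 Z.n && (skip.all (Nat.blt · Z.n) && (Z.ad.all (fun p => Nat.blt p.1 Z.n &&
    Nat.blt p.2 Z.n) && (Z.dist && (Z.bal tok base &&
      frc (mskL (W ++ (Z.T.map Prod.snd ++ (List.range Z.n).map .i))) fun w =>
        (orders (Z.ord ++ Z.adF) Z.n).all (good ((E ++ (Z.T ++ ((List.range Z.n).filter fun k =>
          !skip.any (Nat.beq k)).map fun k => (Z.t k, Z.d k))).map msk) w (2 * Z.n + 9))))))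

variable {Λ β : Type*} [LinearOrder β]

/-- the cuts `z 0, ..., z (n - 1)` are placed as the table says -/
structure Pl (nxt : Λ → Λ) (pos : Λ → β) (G : Set Λ) (z : ℕ → Λ) : Prop where
  mem : (List.range Z.n).Forall fun k => z k ∈ G
  ord : Z.ord.Forall (Fm.Holds fun k => pos (z k))
  ne : Z.ne.Forall fun p => z p.1 ≠ z p.2
  ad : Z.ad.Forall fun p => nxt (z p.1) = z p.2

variable {Z} {nxt : Λ → Λ} {pos : Λ → β} {G : Set Λ} {z : ℕ → Λ}

theorem Pl.put (h : Z.Pl nxt pos G z) (b : Bool) (k : ℕ) (s : Cd) :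
    (Z.put b k s).Pl nxt pos G z := by cases b <;> exact ⟨h.mem, h.ord, h.ne, h.ad⟩

theorem _root_.Pool.Agent.P.MP_439f1f_co.Cyc.nx_ne [Nontrivial Λ] (o : Cyc Set.univ nxt pos)
    (u : Λ) : nxt u ≠ u := fun e => by
  obtain ⟨w, hw⟩ := exists_ne u
  rcases o.cases (u := u) trivial with ⟨a, -⟩ | ⟨a, b⟩
  · rw [e] at a
    exact lt_irrefl _ a
  · rw [e] at b
    exact hw (o.inj trivial trivial (le_antisymm (a w trivial) (b w trivial)))

theorem Pl.inj [Nontrivial Λ] (h : Z.Pl nxt pos G z) (o : Cyc Set.univ nxt pos)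
    (k : Z.dist = true) (i j : ℕ) (hi : i < Z.n) (hj : j < Z.n) (ne : i ≠ j) : z i ≠ z j := by
  wlog a : i < j generalizing i j
  · exact (this j i hj hi ne.symm (by omega)).symm
  have b := List.all_eq_true.1 (List.all_eq_true.1 k j (List.mem_range.2 hj)) i
    (List.mem_range.2 a)
  have c := lts_ok (List.forall_iff_forall_mem.1 h.ord)
  simp only [Bool.or_eq_true, List.any_eq_true, Bool.and_eq_true, Nat.beq_eq, List.mem_append] at b
  rcases b with ⟨p, hp, b⟩ | b | b
  · have : z p.1 ≠ z p.2 := hp.elim (List.forall_iff_forall_mem.1 h.ne p) fun hp => by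
      rw [← List.forall_iff_forall_mem.1 h.ad p hp]
      exact (o.nx_ne _).symm
    rcases b with ⟨rfl, rfl⟩ | ⟨rfl, rfl⟩
    exacts [this, this.symm]
  · exact fun e => (abv_ok (r := fun k => pos (z k)) c b).ne (congrArg pos e)
  · exact fun e => (abv_ok (r := fun k => pos (z k)) c b).ne (congrArg pos e.symm)

/-- **Soundness of the check.** -/
theorem Pl.sound [Nontrivial Λ] (h : Z.Pl nxt pos G z) (o : Cyc Set.univ nxt pos)
    {tok base : List Cd} {skip : List ℕ} {E : List (Cd × Cd)} {W : List Cd}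
    (ok : Z.chk tok base skip E W = true) :
    (∀ i j, i < Z.n → j < Z.n → i ≠ j → z i ≠ z j) ∧ (∀ k ∈ skip, k < Z.n) ∧
    ∃ l : List ℕ, l ≠ [] ∧ CO pos (l.map z) ∧ (∀ k, k ∈ l ↔ k < Z.n) ∧
      (∀ φ : Cd → ℕ, (∀ p ∈ Z.ad, φ (.o p.1) = φ (.i p.2)) →
        (tok.map φ).sum + (Z.T.map fun t => φ t.2).sum + (l.map fun k => φ (Z.t k) + φ (Z.d k)).sum =
        (base.map φ).sum + (Z.T.map fun t => φ t.1).sum +
          (l.map fun k => φ (.i k) + φ (.o k)).sum) ∧
      ∀ P : Cd → Prop, Arcs (fun a b => P (.o a) ↔ P (.i b)) l → (∀ e ∈ E, P e.1 ↔ P e.2) →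
        (∀ e ∈ Z.T, P e.1 ↔ P e.2) → (∀ k < Z.n, k ∉ skip → (P (Z.t k) ↔ P (Z.d k))) →
        (∀ w ∈ W, P w ↔ P .c) ∧ (∀ e ∈ Z.T, P e.2 ↔ P .c) ∧ ∀ k < Z.n, P (.i k) ↔ P .c := by
  simp only [chk, frc_eq, Bool.and_eq_true, List.all_eq_true, Nat.blt_eq] at ok
  obtain ⟨k0, k1, k2, k3, k4, k5⟩ := ok
  have inj := h.inj o k3
  have pi : ∀ i j, i < Z.n → j < Z.n → i ≠ j → pos (z i) ≠ pos (z j) := fun i j a b c e =>
    inj i j a b c (o.inj trivial trivial e)
  obtain ⟨l, a1, a2, a3⟩ := orders_ok (r := fun k => pos (z k)) (F := Z.ord ++ Z.adF) (fun f hf => by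
    rcases List.mem_append.1 hf with hf | hf
    · exact List.forall_iff_forall_mem.1 h.ord f hf
    obtain ⟨p, hp, hf⟩ := List.mem_flatMap.1 hf
    obtain ⟨k, hk, rfl⟩ := List.mem_map.1 hf
    simp only [List.mem_filter, List.mem_range, Bool.not_eq_true', Bool.or_eq_false_iff] at hk
    have b1 := pi k p.1 hk.1 (k2 p hp).1 (Nat.ne_of_beq_eq_false hk.2.1)
    have b2 := pi k p.2 hk.1 (k2 p hp).2 (Nat.ne_of_beq_eq_false hk.2.2)
    have b3 := o.cases (u := z p.1) trivial
    have b4 : pos (nxt (z p.1)) ≠ pos (z p.1) := fun e => o.nx_ne _ (o.inj trivial trivial e)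
    rw [List.forall_iff_forall_mem.1 h.ad p hp] at b3 b4
    simp only [Fm.Holds]
    rcases b3 with ⟨b3, b5⟩ | ⟨b3, b5⟩
    · have := b5 (z k) trivial
      grind
    · have := b3 (z k) trivial
      have := b5 (z k) trivial
      grind) Z.n fun j hj i hi => pi i j (by omega) hj (by omega)
  have mem : ∀ k, k ∈ l ↔ k < Z.n := fun k => a3.mem_iff.trans List.mem_range
  refine ⟨inj, k1, l, List.ne_nil_of_mem ((mem 0).2 k0), CO.of_chain
    (List.isChain_map_of_isChain z (fun _ _ a => a) (List.isChain_iff_pairwise.2 a2)), mem,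
    fun φ hφ => ?_, fun P b1 b2 b3 b4 => ?_⟩
  · have c0 : ∀ s, φ (Z.can s) = φ s := by
      rintro (_ | _ | k | k | k) <;> try rfl
      refine look_ok (P := fun s => φ s = φ (.o k)) rfl _ fun p hp e => ?_
      obtain ⟨q, hq, rfl⟩ := List.mem_map.1 hp
      exact (e ▸ hφ q hq).symm
    have c1 := List.isPerm_iff.1 k4
    rw [show (fun s => (Z.can s).num) = Cd.num ∘ Z.can from rfl, ← List.map_map, ← List.map_map,
      List.map_perm_map_iff Cd.num_inj] at c1
    have c2 := (c1.map φ).sum_eq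
    have c3 : ∀ f g : ℕ → Cd, (((List.range Z.n).flatMap fun k => [f k, g k]).map φ).sum =
        (l.map fun k => φ (f k) + φ (g k)).sum := fun f g => by
      rw [(a3.map _).sum_eq]
      induction List.range Z.n with
      | nil => rfl
      | cons a t ih => simp [ih, add_assoc]
    simp only [List.map_map, show φ ∘ Z.can = φ from funext c0] at c2
    simp only [List.map_append, List.sum_append, c3, List.map_map, comp_def] at c2
    omega
  · have := good_ok (List.ne_nil_of_mem ((mem 0).2 k0)) (k5 l a1) (P := P) b1 (by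
      simp only [List.mem_append, List.mem_map, List.mem_filter, List.mem_range]
      rintro e (he | he | ⟨k, hk, rfl⟩)
      · exact b2 e he
      · exact b3 e he
      · refine b4 k hk.1 fun a => ?_
        have := hk.2
        rw [Bool.not_eq_true', List.any_eq_false] at this
        exact this k a (Nat.beq_refl k))
    simp only [List.mem_append, List.mem_map, List.mem_range] at this
    exact ⟨fun w hw => this w (Or.inl hw), fun e he => this _ (Or.inr (Or.inl ⟨e, he, rfl⟩)),
      fun k hk => this _ (Or.inr (Or.inr ⟨k, hk, rfl⟩))⟩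

end Tab

end Pool.Agent.P.MP_439f1f_co
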