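import Pool.Agent.P.MP_439f1f_co.B15

/-!
Service rows as tables.
-/

set_option autoImplicit false

namespace Pool.Agent.P.MP_439f1f_co

open Function SimpleGraph Sum

/-- the list `a :: l` as a function -/
def vec {α : Type*} : α → List α → ℕ → α
  | a, _, 0 => a
  | a, [], _ + 1 => a
  | _, b :: l, k + 1 => vec b l k

variable {S Λ β : Type*} [LinearOrder β] {nxt : Λ → Λ} {pos : Λ → β} {hb : Λ → S}
  {m : ℕ} {hang hang' : Λ → ℕ → S → Prop} {c : S} {G : Set Λ} {T : List (S × S)}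
  {z : ℕ → Λ} {a : ℕ → S} {Z : Tab}

/-- the hub with a given name -/
def Cd.val (c : S) (hb : Λ → S) (nxt : Λ → Λ) (z : ℕ → Λ) (a : ℕ → S) : Cd → S
  | .c => c
  | .v => c
  | .i k => hb (z k)
  | .o k => hb (nxt (z k))
  | .a k => a k

/-- the same with the virtual hub -/
def Cd.valO (c : S) (hb : Λ → S) (nxt : Λ → Λ) (z : ℕ → Λ) (a : ℕ → S) : Cd → Option S
  | .v => none
  | s => some (s.val c hb nxt z a)

/-- the token hub of a pointer on the cut `k` -/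
def Cd.tok (b : Bool) (k : ℕ) : Cd := cond b (.i k) (.o k)

theorem Cd.val_tok (b : Bool) (k : ℕ) :
    (Cd.tok b k).val c hb nxt z a = cond b (hb (z k)) (hb (nxt (z k))) := by cases b <;> rfl

/-- a base configuration in a state -/
structure Fr (m : ℕ) (hang : Λ → ℕ → S → Prop) (c : S) (hb : Λ → S) (nxt : Λ → Λ) (pos : Λ → β)
    (G : Set Λ) (T : List (S × S)) : Prop where
  base : LBase m hang c hb nxt pos G T
  cyc : Cyc Set.univ nxt pos
  he : ∀ z, hang z 0 (hb z) ∧ hang z m (hb (nxt z))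

theorem LRef.fr [Finite Λ] {R0 : Set Λ} {en : Λ → Λ} (k : LRef m hang c hb nxt pos R0 en)
    (Rs : List (Rt S Λ)) (ok : ∀ r ∈ Rs, r.Ok hang hb R0 en) (dj : Rs.Pairwise Rt.Dis) :
    Fr m hang c hb nxt pos {z | ∀ r ∈ Rs, r.Free pos z} (Rs.map fun r => (r.e hb, r.b)) :=
  ⟨k.base Rs ok dj, k.cyc, fun z => ⟨k.ends.ht z, k.ends.hh z⟩⟩

theorem Fr.mono (h : Fr m hang c hb nxt pos G T) (e : ∀ L i s, hang L i s → hang' L i s) :
    Fr m hang' c hb nxt pos G T :=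
  ⟨h.base.mono e, h.cyc, fun z => ⟨e _ _ _ (h.he z).1, e _ _ _ (h.he z).2⟩⟩

theorem Fr.anti {G' : Set Λ} (h : Fr m hang c hb nxt pos G T) (e : G' ⊆ G) :
    Fr m hang c hb nxt pos G' T := ⟨h.base.anti e, h.cyc, h.he⟩

/-- the table describes the cuts `z` and the hubs `a` -/
structure Tab.Ok (Z : Tab) (m : ℕ) (hang : Λ → ℕ → S → Prop) (c : S) (hb : Λ → S) (nxt : Λ → Λ)
    (pos : Λ → β) (G : Set Λ) (T : List (S × S)) (z : ℕ → Λ) (a : ℕ → S) : Prop where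
  pl : Z.Pl nxt pos G z
  hT : T = Z.T.map fun e => (e.1.val c hb nxt z a, e.2.val c hb nxt z a)
  tl : Z.tl.Forall fun p => hang (z p.1) 0 (p.2.val c hb nxt z a)
  hd : Z.hd.Forall fun p => hang (z p.1) m (p.2.val c hb nxt z a)

theorem Tab.Ok.put (k : Z.Ok m hang c hb nxt pos G T z a) (b : Bool) (j : ℕ) (s : Cd) :
    (Z.put b j s).Ok m (plus m hang b (z j) (s.val c hb nxt z a)) c hb nxt pos G T z a := by
  have h1 := k.tl.imp (q := fun p : ℕ × Cd => plus m hang b (z j) (s.val c hb nxt z a) (z p.1) 0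
    (p.2.val c hb nxt z a)) fun _ => Or.inl
  have h2 := k.hd.imp (q := fun p : ℕ × Cd => plus m hang b (z j) (s.val c hb nxt z a) (z p.1) m
    (p.2.val c hb nxt z a)) fun _ => Or.inl
  refine ⟨k.pl.put b j s, by cases b <;> exact k.hT, ?_, ?_⟩ <;> cases b
  exacts [h1, (List.forall_cons ..).2 ⟨Or.inr ⟨rfl, rfl, rfl⟩, h1⟩,
    (List.forall_cons ..).2 ⟨Or.inr ⟨rfl, rfl, rfl⟩, h2⟩, h2]

theorem Tab.put_n (b : Bool) (j : ℕ) (s : Cd) : (Z.put b j s).n = Z.n := by cases b <;> rfl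

theorem Tab.put_self (b : Bool) (j : ℕ) (s : Cd) :
    cond b ((Z.put b j s).t j) ((Z.put b j s).d j) = s := by
  cases b <;> exact look_self ..

theorem Tab.put_ne {b b' : Bool} {j j' : ℕ} (h : j = j' → b ≠ b') (s : Cd) :
    cond b' ((Z.put b j s).t j') ((Z.put b j s).d j') = cond b' (Z.t j') (Z.d j') := by
  cases b <;> cases b'
  exacts [look_ne (fun e => h e rfl) .., rfl, rfl, look_ne (fun e => h e rfl) ..]

variable [Nontrivial Λ]

/-- **A table gives a configuration.** -/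
theorem Fr.tab [Finite Λ] (h : Fr m hang c hb nxt pos G T) (k : Z.Ok m hang c hb nxt pos G T z a)
    {x y : Cd} {skip : List ℕ} {E : List (Cd × Cd)} (ok : Z.chk [x, y] [.c, .c] skip E [] = true) :
    ∃ τ η, Ends m hang (x.val c hb nxt z a) (y.val c hb nxt z a) τ η ∧
      (∀ i j, i < Z.n → j < Z.n → i ≠ j → z i ≠ z j) ∧
      (∀ b, ∀ j < Z.n, cond b (τ (z j)) (η (z j)) = (cond b (Z.t j) (Z.d j)).val c hb nxt z a) ∧
      ∀ A : Set S, (∀ L, (∀ j ∈ skip, L ≠ z j) → (τ L ∈ A ↔ η L ∈ A)) →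
        (∀ e ∈ E, e.1.val c hb nxt z a ∈ A ↔ e.2.val c hb nxt z a ∈ A) →
        ∀ s t, s ∈ A → t ∈ A := by
  obtain ⟨inj, sk, l, ne, co, mem, bal, fin⟩ := k.pl.sound h.cyc ok
  obtain ⟨τ, η, e, a1, a2⟩ := h.base.rewire (x := x.val c hb nxt z a) (y := y.val c hb nxt z a)
    (l.map fun j => (z j, (Z.t j).val c hb nxt z a, (Z.d j).val c hb nxt z a)) (by simpa using ne)
    (by rw [List.map_map]; exact co) (List.forall_mem_map.2 fun j hj =>
      ⟨List.forall_iff_forall_mem.1 k.pl.mem j (List.mem_range.2 ((mem j).1 hj)),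
        look_ok (P := fun s => hang (z j) 0 (s.val c hb nxt z a)) (h.he _).1 _ fun p hp e =>
          e ▸ List.forall_iff_forall_mem.1 k.tl p hp,
        look_ok (P := fun s => hang (z j) m (s.val c hb nxt z a)) (h.he _).2 _ fun p hp e =>
          e ▸ List.forall_iff_forall_mem.1 k.hd p hp⟩) fun φ => by
      have := bal (fun s => φ (s.val c hb nxt z a)) fun p hp => by
        simp only [Cd.val, List.forall_iff_forall_mem.1 k.pl.ad p hp]
      simp only [k.hT, List.map_map, comp_def, List.map_cons, List.map_nil, List.sum_cons,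
        List.sum_nil, Cd.val] at this ⊢
      omega
  simp only [List.forall_mem_map] at a1 a2
  refine ⟨τ, η, e, inj, fun b j hj => ?_, fun A lk hE => ?_⟩
  · cases b
    exacts [(a1 j ((mem j).2 hj)).2, (a1 j ((mem j).2 hj)).1]
  obtain ⟨b1, b2, b4⟩ := a2 A fun L hL => lk L fun j hj => hL j ((mem j).2 (sk j hj))
  rw [k.hT, List.forall_mem_map] at b2 b4
  obtain ⟨-, f2, f3⟩ := fin (fun s => s.val c hb nxt z a ∈ A) (by
    rcases l with _ | ⟨u, l⟩
    · exact absurd rfl ne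
    · rw [List.map_map, List.map_cons, arcs_cons] at b1
      rw [arcs_cons]
      refine (List.isChain_map (R := fun s t => hb (nxt s) ∈ A ↔ hb t ∈ A) z).1 ?_
      simpa [comp_def] using b1) hE b2 fun j hj hs => by
    have := lk (z j) fun i hi => inj j i hj (sk i hi) fun e => hs (e ▸ hi)
    rwa [(a1 j ((mem j).2 hj)).1, (a1 j ((mem j).2 hj)).2] at this
  exact b4 (fun j hj => f3 j ((mem j).1 hj)) f2

/-- two hubs -/
def Tab.pth (Z : Tab) (x y : Cd) : Bool := Z.chk [x, y] [.c, .c] [] [(x, y)] []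

/-- one gap on the cut `u`, the lower vertex goes to `x` and the upper one to `y` -/
def Tab.cut (Z : Tab) (u : ℕ) (x y : Cd) : Bool :=
  Z.chk [x, y] [.c, .c] [u] [(Z.t u, x), (y, Z.d u)] []

theorem Fr.tab_p [Finite Λ] (h : Fr m hang c hb nxt pos G T)
    (k : Z.Ok m hang c hb nxt pos G T z a) {x y : Cd} (ok : Z.pth x y = true) :
    ∃ τ η, Ends m hang (x.val c hb nxt z a) (y.val c hb nxt z a) τ η ∧
      (∀ i j, i < Z.n → j < Z.n → i ≠ j → z i ≠ z j) ∧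
      (∀ b, ∀ j < Z.n, cond b (τ (z j)) (η (z j)) = (cond b (Z.t j) (Z.d j)).val c hb nxt z a) ∧
      ∀ A : Set S, (∀ L, τ L ∈ A ↔ η L ∈ A) →
        (x.val c hb nxt z a ∈ A ↔ y.val c hb nxt z a ∈ A) → ∀ s t, s ∈ A → t ∈ A :=
  let ⟨τ, η, e, i, a1, a2⟩ := h.tab k ok
  ⟨τ, η, e, i, a1, fun A b1 b2 => a2 A (fun L _ => b1 L) (by simpa using b2)⟩

theorem Fr.tab_c [Finite Λ] (h : Fr m hang c hb nxt pos G T)
    (k : Z.Ok m hang c hb nxt pos G T z a) {u : ℕ} {x y : Cd} (ok : Z.cut u x y = true) :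
    ∃ τ η, Ends m hang (x.val c hb nxt z a) (y.val c hb nxt z a) τ η ∧ u < Z.n ∧
      (∀ i j, i < Z.n → j < Z.n → i ≠ j → z i ≠ z j) ∧
      (∀ b, ∀ j < Z.n, cond b (τ (z j)) (η (z j)) = (cond b (Z.t j) (Z.d j)).val c hb nxt z a) ∧
      Cn (z u) (x.val c hb nxt z a) (y.val c hb nxt z a) τ η := by
  obtain ⟨τ, η, e, i, a1, a2⟩ := h.tab k ok
  have hu : u < Z.n := (k.pl.sound h.cyc ok).2.1 u (by simp)
  refine ⟨τ, η, e, hu, i, a1, fun A b1 b2 b3 => a2 A (fun L hL => b1 L (hL u (by simp))) ?_⟩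
  rw [show τ (z u) = _ from a1 true u hu] at b2
  rw [show η (z u) = _ from a1 false u hu] at b3
  simpa using ⟨b2, b3⟩

theorem Fr.pth [Finite Λ] (h : Fr m hang c hb nxt pos G T) (k : Z.Ok m hang c hb nxt pos G T z a)
    (x y : Cd) (ok : Z.pth x y = true) : Pth m hang (x.val c hb nxt z a) (y.val c hb nxt z a) :=
  let ⟨τ, η, e, _, _, a2⟩ := h.tab_p k ok
  ⟨τ, η, e, a2⟩

theorem Fr.cut [Finite Λ] (h : Fr m hang c hb nxt pos G T) (k : Z.Ok m hang c hb nxt pos G T z a)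
    (u : ℕ) (x y : Cd) (ok : Z.cut u x y = true) :
    Cut m hang (z u) (x.val c hb nxt z a) (y.val c hb nxt z a) :=
  let ⟨τ, η, e, _, _, _, a2⟩ := h.tab_c k ok
  ⟨τ, η, e, a2⟩

def Tab.ptrHub (Z : Tab) (b : Bool) (j : ℕ) (s y : Cd) : Bool :=
  Nat.blt j Z.n && (Z.put b j s).pth (.tok b j) y

def Tab.ptrPtr (Z : Tab) (b1 : Bool) (j1 : ℕ) (s1 : Cd) (b2 : Bool) (j2 : ℕ) (s2 : Cd) : Bool :=
  Nat.blt j1 Z.n && (Nat.blt j2 Z.n && (!Nat.beq j1 j2 &&
    ((Z.put b2 j2 s2).put b1 j1 s1).pth (.tok b1 j1) (.tok b2 j2)))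

def Tab.ptrIn (Z : Tab) (j : ℕ) (s1 s2 : Cd) : Bool :=
  Nat.blt j Z.n && ((Z.put false j s2).put true j s1).pth (.i j) (.o j)

def Tab.upup (Z : Tab) (j : ℕ) (s1 s2 : Cd) : Bool := Nat.beq (Z.t j).num (Cd.i j).num && Z.cut j s1 s2

def Tab.dndn (Z : Tab) (j : ℕ) (s1 s2 : Cd) : Bool := Nat.beq (Z.d j).num (Cd.o j).num && Z.cut j s1 s2

def Tab.freeHub (Z : Tab) (b : Bool) (j : ℕ) (s : Cd) (u : ℕ) (x y : Cd) : Bool :=
  (Z.put b j s).cut u x y

def Tab.freePtr (Z : Tab) (b1 : Bool) (j1 : ℕ) (b2 : Bool) (j2 : ℕ) (s2 : Cd) (u : ℕ) (x y : Cd) :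
    Bool :=
  Nat.blt j1 Z.n && (Nat.blt j2 Z.n && (!Nat.beq u j2 && ((!Nat.beq j1 j2 || (b1 != b2)) &&
    ((Z.put b2 j2 s2).put b1 j1 (.tok b2 j2)).cut u x y)))

variable [Fintype S] [Fintype Λ] [DecidableEq S] [DecidableEq Λ] [Nontrivial S]

/-- **A pointer on the cut `j` and a hub `y`.** -/
theorem Fr.ptr_hub (h : Fr m hang c hb nxt pos G T) (k : Z.Ok m hang c hb nxt pos G T z a)
    (b : Bool) (j : ℕ) (s y : Cd) (ok : Z.ptrHub b j s y = true) (hm : 1 ≤ m)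
    {v : S ⊕ Λ × Fin (m + 1)} (p : Ptr m hang hb nxt b v (z j) (s.val c hb nxt z a))
    (ne : v ≠ inl (y.val c hb nxt z a)) :
    (HL m hang ⊔ edge v (inl (y.val c hb nxt z a))).IsHamiltonian := by
  simp only [Tab.ptrHub, Bool.and_eq_true, Nat.blt_eq] at ok
  obtain ⟨τ, η, e, -, a1, a2⟩ := (h.mono fun _ _ _ => Or.inl).tab_p (k.put b j s) ok.2
  rw [Cd.val_tok] at e a2
  refine ptr_hub_raw hm p ne ?_ e (by rw [a1 b j (by rw [Tab.put_n]; exact ok.1), Tab.put_self]) a2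
  cases b
  exacts [(h.he _).2, (h.he _).1]

/-- **Two pointers on different cuts.** -/
theorem Fr.ptr_ptr (h : Fr m hang c hb nxt pos G T) (k : Z.Ok m hang c hb nxt pos G T z a)
    (b1 : Bool) (j1 : ℕ) (s1 : Cd) (b2 : Bool) (j2 : ℕ) (s2 : Cd)
    (ok : Z.ptrPtr b1 j1 s1 b2 j2 s2 = true) (hm : 1 ≤ m) {v1 v2 : S ⊕ Λ × Fin (m + 1)}
    (p1 : Ptr m hang hb nxt b1 v1 (z j1) (s1.val c hb nxt z a))
    (p2 : Ptr m hang hb nxt b2 v2 (z j2) (s2.val c hb nxt z a)) (ne : v1 ≠ v2) :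
    (HL m hang ⊔ edge v1 v2).IsHamiltonian := by
  simp only [Tab.ptrPtr, Bool.and_eq_true, Nat.blt_eq, Bool.not_eq_true'] at ok
  obtain ⟨k1, k2, k3, ok⟩ := ok
  have k3 := Nat.ne_of_beq_eq_false k3
  obtain ⟨τ, η, e, i, a1, a2⟩ := (h.mono fun _ _ _ a => Or.inl (Or.inl a)).tab_p
    ((k.put b2 j2 s2).put b1 j1 s1) ok
  rw [Cd.val_tok, Cd.val_tok] at e a2
  simp only [Tab.put_n] at i a1
  exact ptr_ptr_raw hm p1 p2 ne (i _ _ k1 k2 k3) (he_cond h.he _ _) (he_cond h.he _ _) e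
    (by rw [a1 b1 j1 k1, Tab.put_self])
    (by rw [a1 b2 j2 k2, Tab.put_ne fun e => absurd e k3, Tab.put_self]) a2

/-- **Two pointers on the cut `j` that point to each other.** -/
theorem Fr.ptr_in (h : Fr m hang c hb nxt pos G T) (k : Z.Ok m hang c hb nxt pos G T z a)
    (j : ℕ) (s1 s2 : Cd) (ok : Z.ptrIn j s1 s2 = true) (hm : 1 ≤ m)
    {v1 v2 : S ⊕ Λ × Fin (m + 1)} (p1 : Ptr m hang hb nxt true v1 (z j) (s1.val c hb nxt z a))
    (p2 : Ptr m hang hb nxt false v2 (z j) (s2.val c hb nxt z a)) (ne : v1 ≠ v2)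
    (far : vpos 0 v1 + 2 ≤ vpos (m + 2) v2) : (HL m hang ⊔ edge v1 v2).IsHamiltonian := by
  simp only [Tab.ptrIn, Bool.and_eq_true, Nat.blt_eq] at ok
  obtain ⟨τ, η, e, -, a1, a2⟩ := (h.mono fun _ _ _ a => Or.inl (Or.inl a)).tab_p
    ((k.put false j s2).put true j s1) ok.2
  simp only [Tab.put_n] at a1
  exact ptr_in_raw hm p1 p2 ne far (h.he _) e ((a1 true j ok.1).trans (by rw [Tab.put_self]))
    ((a1 false j ok.1).trans (by rw [Tab.put_ne (by simp), Tab.put_self])) a2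

/-- **A point and a higher vertex of the cut `j`, both pointing up.** -/
theorem Fr.ptr_upup (h : Fr m hang c hb nxt pos G T) (k : Z.Ok m hang c hb nxt pos G T z a)
    (j : ℕ) (s1 s2 : Cd) (ok : Z.upup j s1 s2 = true) {v1 : S ⊕ Λ × Fin (m + 1)}
    {k2 : Fin (m + 1)} (p1 : Ptr m hang hb nxt true v1 (z j) (s1.val c hb nxt z a))
    (hk : (k2 : ℕ) < m) (p2 : hang (z j) (k2 + 1) (s2.val c hb nxt z a))
    (far : vpos 0 v1 + 1 ≤ k2) : (HL m hang ⊔ edge v1 (inr (z j, k2))).IsHamiltonian := by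
  simp only [Tab.upup, Bool.and_eq_true, Nat.beq_eq] at ok
  obtain ⟨τ, η, e, hu, -, a1, a2⟩ := h.tab_c k ok.2
  exact ptr_upup_raw p1 hk p2 far e ((a1 true j hu).trans
    (congrArg (Cd.val c hb nxt z a) (Cd.num_inj ok.1))) a2

/-- **A vertex and a higher point of the cut `j`, both pointing down.** -/
theorem Fr.ptr_dndn (h : Fr m hang c hb nxt pos G T) (k : Z.Ok m hang c hb nxt pos G T z a)
    (j : ℕ) (s1 s2 : Cd) (ok : Z.dndn j s1 s2 = true) {v2 : S ⊕ Λ × Fin (m + 1)}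
    {k1 : Fin (m + 1)} (hk : 0 < (k1 : ℕ)) (p1 : hang (z j) (k1 - 1) (s1.val c hb nxt z a))
    (p2 : Ptr m hang hb nxt false v2 (z j) (s2.val c hb nxt z a))
    (far : (k1 : ℕ) + 3 ≤ vpos (m + 2) v2) :
    (HL m hang ⊔ edge (inr (z j, k1)) v2).IsHamiltonian := by
  simp only [Tab.dndn, Bool.and_eq_true, Nat.beq_eq] at ok
  obtain ⟨τ, η, e, hu, -, a1, a2⟩ := h.tab_c k ok.2
  exact ptr_dndn_raw hk p1 p2 far e ((a1 false j hu).trans
    (congrArg (Cd.val c hb nxt z a) (Cd.num_inj ok.1))) a2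

/-- **The free tail (`b = true`) or head of the cut `j` and a hub `s`**; filler gap on `u`. -/
theorem Fr.free_hub (h : Fr m hang c hb nxt pos G T) (k : Z.Ok m hang c hb nxt pos G T z a)
    (b : Bool) (j : ℕ) (s : Cd) (u : ℕ) (x y : Cd) (ok : Z.freeHub b j s u x y = true) {i : ℕ}
    (hi : i < m) (hx : hang (z u) i (x.val c hb nxt z a))
    (hy : hang (z u) (i + 1) (y.val c hb nxt z a)) :
    (HL m hang ⊔ edge (inl (s.val c hb nxt z a)) (inr (endv m b (z j)))).IsHamiltonian := by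
  refine serve_hub hi (Or.inl hx) (Or.inl hy) (((h.mono fun _ _ _ => Or.inl).cut (k.put b j s) u x y
    ok).mono fun L j w a => a.imp id ?_)
  cases b <;> exact id

/-- **A free end of the cut `j1` and a pointer on the cut `j2`**; filler gap on `u`. -/
theorem Fr.free_ptr (h : Fr m hang c hb nxt pos G T) (k : Z.Ok m hang c hb nxt pos G T z a)
    (b1 : Bool) (j1 : ℕ) (b2 : Bool) (j2 : ℕ) (s2 : Cd) (u : ℕ) (x y : Cd)
    (ok : Z.freePtr b1 j1 b2 j2 s2 u x y = true) {v2 : S ⊕ Λ × Fin (m + 1)}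
    (p2 : Ptr m hang hb nxt b2 v2 (z j2) (s2.val c hb nxt z a))
    (ne : inr (endv m b1 (z j1)) ≠ v2) (na : ¬(HL m hang).Adj (inr (endv m b1 (z j1))) v2)
    {i : ℕ} (hi : i < m) (hx : hang (z u) i (x.val c hb nxt z a))
    (hy : hang (z u) (i + 1) (y.val c hb nxt z a)) :
    (HL m hang ⊔ edge (inr (endv m b1 (z j1))) v2).IsHamiltonian := by
  simp only [Tab.freePtr, Bool.and_eq_true, Nat.blt_eq, Bool.not_eq_true', Bool.or_eq_true,
    bne_iff_ne] at ok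
  obtain ⟨k1, k2, k3, k4, ok⟩ := ok
  have k4 : j1 = j2 → b1 ≠ b2 := fun e => k4.resolve_left fun d => Nat.ne_of_beq_eq_false d e
  obtain ⟨τ, η, e, hu, inj, a1, a2⟩ := (h.mono fun _ _ _ a => Or.inl (Or.inl a)).tab_c
    ((k.put b2 j2 s2).put b1 j1 (.tok b2 j2)) ok
  simp only [Tab.put_n] at inj a1 hu
  exact free_ptr_raw p2 ne na (fun e => k4 (by_contra fun d => inj _ _ k1 k2 d e))
    (he_cond h.he _ _) hi hx hy (Cd.val_tok b2 j2) (inj _ _ hu k2 (Nat.ne_of_beq_eq_false k3)) e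
    (by rw [a1 b1 j1 k1, Tab.put_self]) (by rw [a1 b2 j2 k2, Tab.put_ne k4, Tab.put_self]) a2

/-! ### two vertices, general form: the name `v` stands for the new edge -/

/-- the table describes the cuts `z` and the hubs `a`; ends may go to the virtual hub -/
structure Tab.OkO (Z : Tab) (m : ℕ) (hang : Λ → ℕ → S → Prop) (p q : Λ × Fin (m + 1)) (c : S)
    (hb : Λ → S) (nxt : Λ → Λ) (pos : Λ → β) (G : Set Λ) (T : List (S × S)) (z : ℕ → Λ)
    (a : ℕ → S) : Prop where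
  pl : Z.Pl nxt pos G z
  hT : T.map (Prod.map some some) = Z.T.map fun e => (e.1.valO c hb nxt z a, e.2.valO c hb nxt z a)
  tl : Z.tl.Forall fun e => hangO hang p q (z e.1) 0 (e.2.valO c hb nxt z a)
  hd : Z.hd.Forall fun e => hangO hang p q (z e.1) m (e.2.valO c hb nxt z a)

/-- a configuration with the virtual hub -/
def Tab.Cf (Z : Tab) (m : ℕ) (hang : Λ → ℕ → S → Prop) (p q : Λ × Fin (m + 1)) (z : ℕ → Λ)
    (f : Cd → Option S) (x1 y1 x2 y2 : Cd) (skip : List ℕ) (E : List (Cd × Cd)) : Prop :=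
  ∃ τ η : Λ → Option S, (∀ L, hangO hang p q L 0 (τ L)) ∧ (∀ L, hangO hang p q L m (η L)) ∧
    (∀ s, {L | τ L = s}.ncard + {L | η L = s}.ncard + (ind (f x1 = s) + ind (f x2 = s)) +
      (ind (f y1 = s) + ind (f y2 = s)) = 2) ∧ (∀ j ∈ skip, j < Z.n) ∧
    (∀ i j, i < Z.n → j < Z.n → i ≠ j → z i ≠ z j) ∧
    (∀ j < Z.n, τ (z j) = f (Z.t j) ∧ η (z j) = f (Z.d j)) ∧
    ∀ A : Set (Option S), (∀ L, (∀ j ∈ skip, L ≠ z j) → (τ L ∈ A ↔ η L ∈ A)) →
      (∀ e ∈ E, f e.1 ∈ A ↔ f e.2 ∈ A) → ∀ s t, s ∈ A → t ∈ A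

omit [Fintype S] [DecidableEq S] [DecidableEq Λ] [Nontrivial S] in
theorem Fr.tabO (h : Fr m hang c hb nxt pos G T) {p q : Λ × Fin (m + 1)}
    (k : Z.OkO m hang p q c hb nxt pos G T z a) {x1 y1 x2 y2 : Cd} {skip : List ℕ}
    {E : List (Cd × Cd)} (ok : Z.chk [x1, y1, x2, y2] [.c, .c, .v, .v] skip E [.v] = true) :
    Z.Cf m hang p q z (Cd.valO c hb nxt z a) x1 y1 x2 y2 skip E := by
  obtain ⟨inj, sk, l, ne, co, mem, bal, fin⟩ := k.pl.sound h.cyc ok
  have hT : ∀ {γ : Type} (f : Option S → Option S → γ), (T.map fun t => f (some t.1) (some t.2)) =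
      Z.T.map fun e => f (e.1.valO c hb nxt z a) (e.2.valO c hb nxt z a) := fun f => by
    simpa [comp_def] using congrArg (List.map fun t => f t.1 t.2) k.hT
  have hT' : ∀ f : Option S → Option S → Prop, (∀ t ∈ T, f (some t.1) (some t.2)) ↔
      ∀ e ∈ Z.T, f (e.1.valO c hb nxt z a) (e.2.valO c hb nxt z a) := fun f => by
    have := congrArg (fun l => ∀ r ∈ l, r) (hT f)
    simpa only [List.forall_mem_map, eq_iff_iff] using this
  obtain ⟨τ, η, e1, e2, e3, a1, a2⟩ := h.base.rewireO (p := p) (q := q)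
    (x1 := x1.valO c hb nxt z a) (y1 := y1.valO c hb nxt z a) (x2 := x2.valO c hb nxt z a)
    (y2 := y2.valO c hb nxt z a)
    (l.map fun j => (z j, (Z.t j).valO c hb nxt z a, (Z.d j).valO c hb nxt z a)) (by simpa using ne)
    (by rw [List.map_map]; exact co) (List.forall_mem_map.2 fun j hj =>
      ⟨List.forall_iff_forall_mem.1 k.pl.mem j (List.mem_range.2 ((mem j).1 hj)),
        look_ok (P := fun s : Cd => hangO hang p q (z j) 0 (s.valO c hb nxt z a)) (d := .i j)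
          (h.he (z j)).1 _ fun p hp e => e ▸ List.forall_iff_forall_mem.1 k.tl p hp,
        look_ok (P := fun s : Cd => hangO hang p q (z j) m (s.valO c hb nxt z a)) (d := .o j)
          (h.he (z j)).2 _ fun p hp e => e ▸ List.forall_iff_forall_mem.1 k.hd p hp⟩) fun φ => by
      have := bal (fun s => φ (s.valO c hb nxt z a)) fun p hp => by
        simp only [Cd.valO, Cd.val, List.forall_iff_forall_mem.1 k.pl.ad p hp]
      rw [hT fun _ t => φ t, hT fun t _ => φ t]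
      simp only [List.map_map, comp_def, List.map_cons, List.map_nil, List.sum_cons,
        List.sum_nil] at this ⊢
      rw [show Cd.c.valO c hb nxt z a = some c from rfl, show Cd.v.valO c hb nxt z a = none from rfl,
        show (fun k => φ ((Cd.i k).valO c hb nxt z a) + φ ((Cd.o k).valO c hb nxt z a)) =
          fun k => φ (some (hb (z k))) + φ (some (hb (nxt (z k)))) from rfl] at this
      omega
  simp only [List.forall_mem_map] at a1 a2
  refine ⟨τ, η, e1, e2, e3, sk, inj, fun j hj => a1 j ((mem j).2 hj), fun A lk hE => ?_⟩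
  obtain ⟨b1, b2, b4⟩ := a2 A fun L hL => lk L fun j hj => hL j ((mem j).2 (sk j hj))
  rw [hT' fun s t => s ∈ A ↔ t ∈ A] at b2
  rw [hT' fun _ t => t ∈ A ↔ some c ∈ A] at b4
  obtain ⟨f1, f2, f3⟩ := fin (fun s => s.valO c hb nxt z a ∈ A) (by
    rcases l with _ | ⟨u, l⟩
    · exact absurd rfl ne
    · rw [List.map_map, List.map_cons, arcs_cons] at b1
      rw [arcs_cons]
      refine (List.isChain_map (R := fun s t => some (hb (nxt s)) ∈ A ↔ some (hb t) ∈ A) z).1 ?_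
      simpa [comp_def] using b1) hE b2 fun j hj hs => by
    have := lk (z j) fun i hi => inj j i hj (sk i hi) fun e => hs (e ▸ hi)
    rwa [(a1 j ((mem j).2 hj)).1, (a1 j ((mem j).2 hj)).2] at this
  exact b4 (f1 .v (by simp)) (fun j hj => f3 j ((mem j).1 hj)) f2

def Tab.ppDiff (Z : Tab) (u1 : ℕ) (x1 y1 : Cd) (u2 : ℕ) (x2 y2 : Cd) : Bool :=
  !Nat.beq u1 u2 && Z.chk [x1, y1, x2, y2] [.c, .c, .v, .v] [u1, u2]
    [(Z.t u1, x1), (y1, Z.d u1), (Z.t u2, x2), (y2, Z.d u2)] [.v]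

def Tab.ppSame (Z : Tab) (u : ℕ) (x1 y1 x2 y2 : Cd) : Bool :=
  Z.chk [x1, y1, x2, y2] [.c, .c, .v, .v] [u] [(Z.t u, x1), (y1, x2), (y2, Z.d u)] [.v]

omit [Nontrivial Λ] in
theorem Tab.Cf.diff {p q : Λ × Fin (m + 1)} {f : Cd → Option S} {u1 u2 : ℕ} {x1 y1 x2 y2 : Cd}
    (h : Z.Cf m hang p q z f x1 y1 x2 y2 [u1, u2]
      [(Z.t u1, x1), (y1, Z.d u1), (Z.t u2, x2), (y2, Z.d u2)]) (ne : u1 ≠ u2) (hpq : p ≠ q)
    (hn : ¬(HL m hang).Adj (inr p) (inr q)) {i1 i2 : ℕ} (l1 : i1 < m) (l2 : i2 < m)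
    (hx1 : hangO hang p q (z u1) i1 (f x1)) (hy1 : hangO hang p q (z u1) (i1 + 1) (f y1))
    (hx2 : hangO hang p q (z u2) i2 (f x2)) (hy2 : hangO hang p q (z u2) (i2 + 1) (f y2)) :
    (HL m hang ⊔ edge (inr p) (inr q)).IsHamiltonian := by
  obtain ⟨τ, η, ht, hh, load, sk, inj, a1, a2⟩ := h
  have hl : z u1 ≠ z u2 := inj _ _ (sk _ (by simp)) (sk _ (by simp)) ne
  refine serve_pp (by omega) hpq hn (Cfg.of (Γ := Bool) (gl := fun k => cond k (z u2) (z u1))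
    (gi := fun k => cond k i2 i1) (x := fun k => f (cond k x2 x1))
    (y := fun k => f (cond k y2 y1))
    (τ := τ) (η := η) ?_ ?_ ht hh ?_ ?_ (fun s => ?_) fun A c1 c2 c3 _ _ => ?_)
  · rintro (_ | _); exacts [l1, l2]
  · rintro (_ | _) (_ | _) e _
    exacts [rfl, absurd e hl, absurd e hl.symm, rfl]
  · rintro (_ | _); exacts [hx1, hx2]
  · rintro (_ | _); exacts [hy1, hy2]
  · rw [ncard_bool, ncard_bool, ← load s]; simp [ind_eq]
  · have e1 := a1 u1 (sk _ (by simp))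
    have e2 := a1 u2 (sk _ (by simp))
    have f1 := c2 false (by rintro (_ | _) e; exacts [le_rfl, absurd e hl.symm])
    have f2 := c3 false (by rintro (_ | _) e; exacts [le_rfl, absurd e hl.symm])
    have f3 := c2 true (by rintro (_ | _) e; exacts [absurd e hl, le_rfl])
    have f4 := c3 true (by rintro (_ | _) e; exacts [absurd e hl, le_rfl])
    simp only [cond_false, cond_true, e1.1, e1.2, e2.1, e2.2] at f1 f2 f3 f4
    refine a2 A (fun L hL => c1 L ?_) (by simpa using ⟨f1, f2, f3, f4⟩)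
    rintro (_ | _)
    exacts [(hL u1 (by simp)).symm, (hL u2 (by simp)).symm]

omit [Nontrivial Λ] in
theorem Tab.Cf.same {p q : Λ × Fin (m + 1)} {f : Cd → Option S} {u : ℕ} {x1 y1 x2 y2 : Cd}
    (h : Z.Cf m hang p q z f x1 y1 x2 y2 [u] [(Z.t u, x1), (y1, x2), (y2, Z.d u)]) (hpq : p ≠ q)
    (hn : ¬(HL m hang).Adj (inr p) (inr q)) {i1 i2 : ℕ} (l1 : i1 < i2) (l2 : i2 < m)
    (hx1 : hangO hang p q (z u) i1 (f x1)) (hy1 : hangO hang p q (z u) (i1 + 1) (f y1))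
    (hx2 : hangO hang p q (z u) i2 (f x2)) (hy2 : hangO hang p q (z u) (i2 + 1) (f y2)) :
    (HL m hang ⊔ edge (inr p) (inr q)).IsHamiltonian := by
  obtain ⟨τ, η, ht, hh, load, sk, -, a1, a2⟩ := h
  refine serve_pp (by omega) hpq hn (Cfg.of (Γ := Bool) (gl := fun _ => z u)
    (gi := fun k => cond k i2 i1) (x := fun k => f (cond k x2 x1))
    (y := fun k => f (cond k y2 y1))
    (τ := τ) (η := η) ?_ ?_ ht hh ?_ ?_ (fun s => ?_) fun A c1 c2 c3 c4 _ => ?_)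
  · rintro (_ | _); exacts [l1.trans l2, l2]
  · rintro (_ | _) (_ | _) _ e
    exacts [rfl, absurd e l1.ne, absurd e l1.ne', rfl]
  · rintro (_ | _); exacts [hx1, hx2]
  · rintro (_ | _); exacts [hy1, hy2]
  · rw [ncard_bool, ncard_bool, ← load s]; simp [ind_eq]
  · have e1 := a1 u (sk _ (by simp))
    have f1 := c2 false (by rintro (_ | _) -; exacts [le_rfl, l1.le])
    have f2 := c4 false true rfl l1 (by rintro (_ | _) -; exacts [Or.inl le_rfl, Or.inr le_rfl])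
    have f3 := c3 true (by rintro (_ | _) -; exacts [l1.le, le_rfl])
    simp only [cond_false, cond_true, e1.1, e1.2] at f1 f2 f3
    exact a2 A (fun L hL => c1 L fun _ => (hL u (by simp)).symm) (by simpa using ⟨f1, f2, f3⟩)

/-- **Two vertices, gaps on the two cuts `u1`, `u2`.** -/
theorem Fr.pp_diff (h : Fr m hang c hb nxt pos G T) {p q : Λ × Fin (m + 1)}
    (k : Z.OkO m hang p q c hb nxt pos G T z a) (u1 : ℕ) (x1 y1 : Cd) (u2 : ℕ) (x2 y2 : Cd)
    (ok : Z.ppDiff u1 x1 y1 u2 x2 y2 = true) (hpq : p ≠ q)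
    (hn : ¬(HL m hang).Adj (inr p) (inr q)) {i1 i2 : ℕ} (l1 : i1 < m) (l2 : i2 < m)
    (hx1 : hangO hang p q (z u1) i1 (x1.valO c hb nxt z a))
    (hy1 : hangO hang p q (z u1) (i1 + 1) (y1.valO c hb nxt z a))
    (hx2 : hangO hang p q (z u2) i2 (x2.valO c hb nxt z a))
    (hy2 : hangO hang p q (z u2) (i2 + 1) (y2.valO c hb nxt z a)) :
    (HL m hang ⊔ edge (inr p) (inr q)).IsHamiltonian := by
  simp only [Tab.ppDiff, Bool.and_eq_true, Bool.not_eq_true'] at ok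
  exact (h.tabO k ok.2).diff (Nat.ne_of_beq_eq_false ok.1) hpq hn l1 l2 hx1 hy1 hx2 hy2

/-- **Two vertices, two gaps `i1 < i2` on the cut `u`.** -/
theorem Fr.pp_same (h : Fr m hang c hb nxt pos G T) {p q : Λ × Fin (m + 1)}
    (k : Z.OkO m hang p q c hb nxt pos G T z a) (u : ℕ) (x1 y1 x2 y2 : Cd)
    (ok : Z.ppSame u x1 y1 x2 y2 = true) (hpq : p ≠ q)
    (hn : ¬(HL m hang).Adj (inr p) (inr q)) {i1 i2 : ℕ} (l1 : i1 < i2) (l2 : i2 < m)
    (hx1 : hangO hang p q (z u) i1 (x1.valO c hb nxt z a))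
    (hy1 : hangO hang p q (z u) (i1 + 1) (y1.valO c hb nxt z a))
    (hx2 : hangO hang p q (z u) i2 (x2.valO c hb nxt z a))
    (hy2 : hangO hang p q (z u) (i2 + 1) (y2.valO c hb nxt z a)) :
    (HL m hang ⊔ edge (inr p) (inr q)).IsHamiltonian := by
  exact (h.tabO k ok).same hpq hn l1 l2 hx1 hy1 hx2 hy2

/-! ### examples -/

/-- Cuts `0`, `1` carry the pointers, `2`, `3` are the labels with parents `a 0`, `a 1`.  One
pointer goes up, the earlier one, and one goes down; the labels come last, in any order. -/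
example {s t : S} (h : Fr m hang c hb nxt pos G [(s, c), (t, c)]) (hm : 1 ≤ m) {u v x y : Λ}
    {v1 v2 : S ⊕ Λ × Fin (m + 1)} (p1 : Ptr m hang hb nxt true v1 u (hb x))
    (p2 : Ptr m hang hb nxt false v2 v (hb y)) (ne : v1 ≠ v2) (g1 : u ∈ G) (g2 : v ∈ G)
    (g3 : x ∈ G) (g4 : y ∈ G) (h1 : hang x 0 s) (h2 : hang y 0 t) (o1 : pos u < pos v)
    (o2 : pos v < pos x) (o3 : pos v < pos y) (n : x ≠ y) :
    (HL m hang ⊔ edge v1 v2).IsHamiltonian :=
  h.ptr_ptr (Z := ⟨4, [(2, .a 0), (3, .a 1)], [], [(.a 0, .c), (.a 1, .c)],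
      [.lt 0 1, .lt 1 2, .lt 1 3], [(2, 3)], []⟩) (z := vec u [v, x, y]) (a := vec s [t])
    ⟨⟨⟨g1, g2, g3, g4⟩, ⟨o1, o2, o3⟩, n, trivial⟩, rfl, ⟨h1, h2⟩, trivial⟩
    true 0 (.i 2) false 1 (.i 3) (by decide +kernel) hm p1 p2 ne

/-- The free head of `u` is refilled by the head of `w`, whose last gap jumps to the label `x`;
the partner `v` points up to the label `y`.  Here `w` comes after `u` and `v`. -/
example {s t : S} (h : Fr m hang c hb nxt pos G [(s, c), (t, c)]) {u v w x y : Λ}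
    {v2 : S ⊕ Λ × Fin (m + 1)} (p2 : Ptr m hang hb nxt true v2 v (hb y))
    (ne : inr (endv m false u) ≠ v2) (na : ¬(HL m hang).Adj (inr (endv m false u)) v2) {i : ℕ}
    (hi : i < m) (hx : hang w i (hb x)) (hy : hang w (i + 1) (hb (nxt u))) (g1 : u ∈ G)
    (g2 : v ∈ G) (g3 : w ∈ G) (g4 : x ∈ G) (g5 : y ∈ G) (h1 : hang x 0 s) (h2 : hang y 0 t)
    (o1 : pos u < pos v) (o2 : pos v < pos w) (o3 : pos w < pos x) (o4 : pos x < pos y) :
    (HL m hang ⊔ edge (inr (endv m false u)) v2).IsHamiltonian :=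
  h.free_ptr (Z := ⟨5, [(3, .a 0), (4, .a 1)], [], [(.a 0, .c), (.a 1, .c)],
      [.lt 0 1, .lt 1 2, .lt 2 3, .lt 3 4], [], []⟩) (z := vec u [v, w, x, y]) (a := vec s [t])
    ⟨⟨⟨g1, g2, g3, g4, g5⟩, ⟨o1, o2, o3, o4⟩, trivial, trivial⟩, rfl, ⟨h1, h2⟩, trivial⟩
    false 0 true 1 (.i 4) 2 (.i 3) (.o 0) (by decide +kernel) p2 ne na hi hx hy

end Pool.Agent.P.MP_439f1f_co
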