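import Pool.Agent.P.MP_439f1f_co.Sy2

/-!
Synchronisation of the state machine.
-/

set_option autoImplicit false

namespace Pool.Agent.P.MP_439f1f_co

open Function

section win
variable {E : Type*} {β : Equiv.Perm E} {a t : E → Prop} {e0 : E}

theorem win_fwd (h : ∀ e e', ∃ n : ℕ, (β ^ n) e = e') (h0 : a e0)
    (l1 : ∀ e, e ≠ e0 → (a e → a (β e)) ∧ (¬t (β e) ↔ a (β e) ∧ ¬a e))
    (l2 : ¬t (β e0) ↔ a (β e0)) :
    ∃ n, (∀ e, ¬a e ↔ ∃ i, 1 ≤ i ∧ i ≤ n ∧ e = (β ^ i) e0) ∧ ∀ e, ¬t e ↔ e = (β ^ (n + 1)) e0 := by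
  classical
  have ex : ∃ n : ℕ, a ((β ^ n) (β e0)) := (h (β e0) e0).imp fun n hn => by rwa [hn]
  have h1 := Nat.find_spec ex
  have h2 := fun i => Nat.find_min ex (m := i)
  have h3 := cyc_prop h (b := fun e => ¬a e) (e1 := β e0)
    (fun e c d => not_not.2 ((l1 e fun u => c (by rw [u])).1 (not_not.1 d))) (not_not.2 h1)
  generalize Nat.find ex = n at h1 h2 h3
  refine ⟨n, fun e => ⟨fun c => ?_, ?_⟩, fun e => ?_⟩
  · obtain ⟨i, hi, rfl⟩ := h3 e c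
    exact ⟨i + 1, by omega, hi, by rw [pow_succ, Equiv.Perm.mul_apply]⟩
  · rintro ⟨i, c1, c2, rfl⟩
    obtain ⟨i, rfl⟩ : ∃ k, i = k + 1 := ⟨i - 1, by omega⟩
    rw [pow_succ, Equiv.Perm.mul_apply]
    exact h2 i c2
  obtain ⟨e, rfl⟩ := β.surjective e
  rw [pow_succ, Equiv.Perm.mul_apply]
  by_cases c : e = e0
  · subst c
    rw [l2]
    rcases n with _ | n
    · exact iff_of_true h1 rfl
    · exact iff_of_false (h2 0 (by omega)) fun d => h2 0 (by omega) (by rwa [← d] at h1)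
  rw [(l1 e c).2]
  constructor
  · rintro ⟨c1, c2⟩
    obtain ⟨i, hi, rfl⟩ := h3 e c2
    rw [← Equiv.Perm.mul_apply, ← pow_succ'] at c1 ⊢
    have : ¬i + 1 < n := fun d => h2 _ d c1
    rw [show i + 1 = n by omega]
  · intro d
    refine ⟨d ▸ h1, ?_⟩
    rcases n with _ | n
    · exact absurd (β.injective d) c
    · rw [pow_succ', Equiv.Perm.mul_apply] at d
      rw [β.injective d]
      exact h2 n (by omega)

theorem win_bwd (h : ∀ e e', ∃ n : ℕ, (β ^ n) e = e') (h0 : a e0)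
    (l1 : ∀ e, e ≠ e0 → (a e → a (β e)) ∧ (¬t (β e) ↔ a (β e) ∧ ¬a e))
    (l2 : ¬t (β e0) ↔ a (β e0)) {k : ℕ} (hk : ¬a ((β⁻¹ ^ (k + 1)) e0)) :
    ∃ n ≤ k, (∀ e, a e ↔ ∃ i ≤ n, e = (β⁻¹ ^ i) e0) ∧ ∀ e, ¬t e ↔ e = (β⁻¹ ^ n) e0 := by
  classical
  have ex : ∃ n : ℕ, ¬a ((β⁻¹ ^ (n + 1)) e0) := ⟨k, hk⟩
  have h1 := Nat.find_spec ex
  have h2 := fun i => Nat.find_min ex (m := i)
  have h3 := cyc_prop (cyc_inv h) (b := a) (e1 := e0)
    (fun e c d u => d (by simpa using (l1 _ c).1 u)) h1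
  have h4 := Nat.find_min' ex hk
  generalize Nat.find ex = n at h1 h2 h3 h4
  have h5 : ∀ i ≤ n, a ((β⁻¹ ^ i) e0) := by
    rintro (_ | i) c
    exacts [h0, not_not.1 (h2 i c)]
  obtain ⟨n', -, h6⟩ := win_fwd h h0 l1 l2
  refine ⟨n, h4, fun e => ⟨fun c => ?_, ?_⟩, fun e => ?_⟩
  · obtain ⟨i, hi, rfl⟩ := h3 e c
    exact ⟨i, by omega, rfl⟩
  · rintro ⟨i, c, rfl⟩
    exact h5 i c
  · have e1 : β ((β⁻¹ ^ (n + 1)) e0) = (β⁻¹ ^ n) e0 := by rw [pow_succ']; simp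
    rw [h6, ← (h6 _).1 (e1 ▸ (l1 _ fun c => h1 (by rwa [c])).2.2 ⟨e1 ▸ h5 n le_rfl, h1⟩)]

end win

variable {S Λ Y K : Type*} {m : ℕ} {hang : Λ → ℕ → S → Prop} {x y : S} {τ η : Λ → S} {L0 : Λ}

namespace Sys

variable (M : Sys m hang Y K)

/-- the hub that holds the head of `sl j e` in the state `j0` -/
def ref [DecidableEq K] (j0 j : K) (e : Y × Fin 3) : S :=
  if j = j0 then M.sh j (bt (M.nx j) e) else M.sh j e

/-- the other option of this head -/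
def oth [DecidableEq K] (j0 j : K) (e : Y × Fin 3) : S :=
  if j = j0 then M.sh j e else M.sh j (bt (M.nx j) e)

/-- `oth j0 j e = ref j0 j (gam j0 j e)`: the head that is held by the other option of `e` -/
def gam [DecidableEq K] (j0 j : K) : Equiv.Perm (Y × Fin 3) :=
  if j = j0 then (bt (M.nx j))⁻¹ else bt (M.nx j)

theorem oth_eq [DecidableEq K] (j0 j : K) (e : Y × Fin 3) :
    M.oth j0 j e = M.ref j0 j (M.gam j0 j e) := by
  unfold oth ref gam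
  split_ifs <;> simp

variable [Finite S] [Finite Λ]

omit [Finite S] in
/-- a stage without a gap hub is uniform -/
theorem uni (h : Ends m hang x y τ η) (j : K) (hx : ∀ e, x ≠ M.sh j e) (hy : ∀ e, y ≠ M.sh j e) :
    ((∀ e, η (M.sl j e) = M.sh j (bt (M.nx j) e)) ∨ ∀ e, η (M.sl j e) = M.sh j e) ∧
      ∀ e, τ (M.ln (M.sh j e)) = M.sh j e := by
  have l := fun e => M.load h j e
  simp only [hx, hy, if_false] at l
  have u := cyc_uni (bt_cyc _ (M.cyc j)) (b := fun e => ¬η (M.sl j e) = M.sh j e) fun e c d => by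
    have := l e
    rw [if_neg d, if_pos (not_not.1 c)] at this
    split_ifs at this <;> omega
  refine ⟨u.imp (fun c e => (M.head _ _ _ (h.hh _)).resolve_left (c e)) fun c e => not_not.1 (c e),
    fun e => ?_⟩
  obtain ⟨e, rfl⟩ := (bt (M.nx j)).surjective e
  have := l e
  by_contra d
  rw [if_neg d] at this
  rcases u with u | u
  · rw [if_neg (u _), if_neg (u _)] at this
    omega
  · rw [if_pos (not_not.1 (u _)), if_pos (not_not.1 (u _))] at this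
    omega

variable [Nonempty K] [DecidableEq K]

/-- **Synchronisation**, no gap hub in the machine: one state, no system tail is moved. -/
theorem sync_none (h : Ends m hang x y τ η) (c : Cn L0 x y τ η) (hx : ∀ j e, x ≠ M.sh j e)
    (hy : ∀ j e, y ≠ M.sh j e) : ∃ j0, ∀ j e, η (M.sl j e) = M.ref j0 j e ∧
      τ (M.ln (M.sh j e)) = M.sh j e := by
  have u := fun j => M.uni h j (hx j) (hy j)
  obtain ⟨j0, h0⟩ := M.one_hot h c (fun j => ∀ e, η (M.sl j e) = M.sh j (bt (M.nx j) e))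
    (fun _ z => M.sl z.1 z.2 = L0)
    (fun _ z z' a b => let t := M.sli _ _ _ _ (a.trans b.symm); Prod.ext t.1 t.2)
    (fun j e a b => ⟨b 0, (u j).1.resolve_left a e, (u j).2 e⟩)
    fun j e a b => ⟨b 0, a e, (u j).2 _⟩
  refine ⟨j0, fun j e => ⟨?_, (u j).2 e⟩⟩
  unfold ref
  split_ifs with d
  exacts [(h0 j).2 d e, (u j).1.resolve_left (fun a => d ((h0 j).1 a)) e]

omit [Nonempty K] [DecidableEq K] in
/-- the two kinds of windows -/
theorem window {j1 : K} {e0 : Y × Fin 3} (hy : y = M.sh j1 (bt (M.nx j1) e0))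
    (h : Ends m hang x y τ η) (c : Cn (M.sl j1 e0) x y τ η) (hx : ∀ e, x ≠ M.sh j1 e)
    (h0 : η (M.sl j1 e0) = M.sh j1 e0) :
    (∃ n ≤ 3, (∀ i, 1 ≤ i → i < n → ((bt (M.nx j1) ^ i) e0).2 ≠ 2) ∧
      (∀ e, ¬η (M.sl j1 e) = M.sh j1 e ↔ ∃ i, 1 ≤ i ∧ i ≤ n ∧ e = (bt (M.nx j1) ^ i) e0) ∧
      ∀ e, ¬τ (M.ln (M.sh j1 e)) = M.sh j1 e ↔ e = (bt (M.nx j1) ^ (n + 1)) e0) ∨
    ∃ n ≤ 3, (∀ i, 1 ≤ i → i < n → (((bt (M.nx j1))⁻¹ ^ i) e0).2 ≠ 1) ∧
      (∀ e, η (M.sl j1 e) = M.sh j1 e ↔ ∃ i ≤ n, e = ((bt (M.nx j1))⁻¹ ^ i) e0) ∧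
      ∀ e, ¬τ (M.ln (M.sh j1 e)) = M.sh j1 e ↔ e = ((bt (M.nx j1))⁻¹ ^ n) e0 := by
  have cy := bt_cyc _ (M.cyc j1)
  have l := fun e => M.load h j1 e
  simp only [hx, if_false] at l
  have l1 : ∀ e, e ≠ e0 → (η (M.sl j1 e) = M.sh j1 e →
      η (M.sl j1 (bt (M.nx j1) e)) = M.sh j1 (bt (M.nx j1) e)) ∧
      (¬τ (M.ln (M.sh j1 (bt (M.nx j1) e))) = M.sh j1 (bt (M.nx j1) e) ↔
        η (M.sl j1 (bt (M.nx j1) e)) = M.sh j1 (bt (M.nx j1) e) ∧ ¬η (M.sl j1 e) = M.sh j1 e) := by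
    intro e he
    have := l e
    rw [if_neg (c := y = _) fun d => he ((bt _).injective (M.shi (hy.symm.trans d)).2).symm] at this
    split_ifs at this <;> simp_all
  have l2 : ¬τ (M.ln (M.sh j1 (bt (M.nx j1) e0))) = M.sh j1 (bt (M.nx j1) e0) ↔
      η (M.sl j1 (bt (M.nx j1) e0)) = M.sh j1 (bt (M.nx j1) e0) := by
    have := l e0
    rw [if_pos hy, if_pos h0] at this
    split_ifs at this <;> simp_all
  obtain ⟨n, a1, a2⟩ := win_fwd (t := fun e => τ (M.ln (M.sh j1 e)) = M.sh j1 e) cy h0 l1 l2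
  -- the first head of type `2` after `e0` and the head of type `1` of the same loop
  obtain ⟨i0, k, z, k0, k3, k4, e2, e1, n2, n1⟩ : ∃ i0 k z, 1 ≤ i0 ∧ i0 ≤ 3 ∧ k ≤ 3 ∧
      (bt (M.nx j1) ^ i0) e0 = (z, 2) ∧ ((bt (M.nx j1))⁻¹ ^ k) e0 = (z, 1) ∧
      (∀ i, 1 ≤ i → i < i0 → ((bt (M.nx j1) ^ i) e0).2 ≠ 2) ∧
      (∀ i, 1 ≤ i → i < k → (((bt (M.nx j1))⁻¹ ^ i) e0).2 ≠ 1) ∧ (z, 1) ≠ e0 ∧
        (bt (M.nx j1))⁻¹ (z, 1) ≠ e0 := by
    obtain ⟨w, r⟩ := e0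
    have nf := M.nf j1
    fin_cases r
    · refine ⟨2, 2, M.nx j1 w, by simp, by simp, by simp, by simp [pow_two], by simp [pow_two],
        fun i a b => ?_, fun i a b => ?_, by simp, ?_⟩
      · simp [show i = 1 by omega]
      · simp [show i = 1 by omega]
      · simpa [Equiv.symm_apply_eq] using (nf w).symm
    · refine ⟨1, 3, (M.nx j1).symm w, by simp, by simp, by simp, by simp, by simp [pow_succ],
        fun i a b => by omega, fun i a b => ?_, ?_, by simp⟩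
      · rcases (show i = 1 ∨ i = 2 by omega) with rfl | rfl <;> simp [pow_two]
      · simpa [Equiv.symm_apply_eq] using (nf w).symm
    · refine ⟨3, 1, M.nx j1 w, by simp, by simp, by simp, by simp [pow_succ], by simp,
        fun i a b => ?_, fun i a b => by omega, by simp, by simp⟩
      rcases (show i = 1 ∨ i = 2 by omega) with rfl | rfl <;> simp [pow_two]
  by_cases hn : n ≤ i0
  · exact Or.inl ⟨n, by omega, fun i a b => n2 i a (by omega), a1, a2⟩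
  right
  have b2 : ¬η (M.sl j1 (z, 2)) = M.sh j1 (z, 2) := (a1 _).2 ⟨i0, k0, by omega, e2.symm⟩
  have b0 : ¬η (M.sl j1 (z, 0)) = M.sh j1 (z, 0) :=
    (a1 _).2 ⟨i0 + 1, by omega, by omega, by rw [pow_succ', Equiv.Perm.mul_apply, e2, bt2]⟩
  have ne2 : (z, 2) ≠ e0 := fun d => b2 (d ▸ h0)
  have t0 : τ (M.ln (M.sh j1 (z, 0))) = M.sh j1 (z, 0) :=
    by_contra fun d => b0 ((l1 _ ne2).2.1 d).1
  have key : ¬η (M.sl j1 ((bt (M.nx j1))⁻¹ (z, 1))) = M.sh j1 ((bt (M.nx j1))⁻¹ (z, 1)) := by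
    intro d
    have l3 := l1 _ n1.2.2
    rw [show bt (M.nx j1) ((bt (M.nx j1))⁻¹ (z, 1)) = (z, 1) by simp] at l3
    refine M.no_fam h c (fun u => u = (j1, z, 1) ∨ u = (j1, z, 2)) _ (Or.inl rfl)
      (fun u => if u.2.2 = 1 then (z, 1) else (z, 0)) ?_ ?_
    · rintro _ (rfl | rfl)
      · exact ⟨fun u => n1.2.1 (M.sli _ _ _ _ u).2, l3.1 d, by_contra fun u => (l3.2.1 u).2 d⟩
      · exact ⟨fun u => ne2 (M.sli _ _ _ _ u).2, (M.head _ _ _ (h.hh _)).resolve_left b2, t0⟩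
    · rintro _ (rfl | rfl)
      exacts [⟨_, Or.inr rfl, M.ln1 _ _⟩, ⟨_, Or.inl rfl, M.ln0 _ _⟩]
  obtain ⟨n', c1, c2, c3⟩ := win_bwd (t := fun e => τ (M.ln (M.sh j1 e)) = M.sh j1 e) cy h0 l1 l2
    (k := k) (by rwa [pow_succ', Equiv.Perm.mul_apply, e1])
  exact ⟨n', by omega, fun i a b => n1.1 i a (by omega), c2, c3⟩

/-- **Synchronisation**, last gap of a system line `sl j1 e0`.  After the normalisation of the head
of this line all heads are in the reference position of a state `j0`, except for the heads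
`gam ^ i e0`, `1 ≤ i ≤ n`, and the only moved system tail is at the other option of the last of
them. -/
theorem sync_win [DecidableEq Λ] {j1 : K} {e0 : Y × Fin 3} (h : Ends m hang x y τ η)
    (c : Cn (M.sl j1 e0) x y τ η) (hx : ∀ j e, x ≠ M.sh j e) (hy : hang (M.sl j1 e0) m y) :
    ∃ j0, ∃ n ≤ 3, ∃ η', η' = update η (M.sl j1 e0) (M.ref j0 j1 e0) ∧
      Ends m hang x (M.oth j0 j1 e0) τ η' ∧ Cn (M.sl j1 e0) x (M.oth j0 j1 e0) τ η' ∧
      (∀ i, 1 ≤ i → i < n → ((M.gam j0 j1 ^ i) e0).2 ≠ if j1 = j0 then 1 else 2) ∧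
      (∀ i, 1 ≤ i → i ≤ n →
        η' (M.sl j1 ((M.gam j0 j1 ^ i) e0)) = M.oth j0 j1 ((M.gam j0 j1 ^ i) e0)) ∧
      (∀ j e, (j = j1 → ∀ i, 1 ≤ i → i ≤ n → e ≠ (M.gam j0 j1 ^ i) e0) →
        η' (M.sl j e) = M.ref j0 j e) ∧
      ∀ j e, τ (M.ln (M.sh j e)) ≠ M.sh j e ↔ M.sh j e = M.oth j0 j1 ((M.gam j0 j1 ^ n) e0) := by
  obtain ⟨hA, cA⟩ := norm_head h c hy (M.head j1 e0)
  obtain ⟨hB, cB⟩ := norm_head h c hy fun s d => (M.head j1 e0 s d).symm
  have u := fun j (d : j ≠ j1) => M.uni hA j (hx j) fun e t => d (M.shi t).1.symm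
  have opt := fun j e => M.head j e _ (hA.hh _)
  have hB' : ∀ (g : Fin 5 → Y × Fin 3) (i : Fin 5) (z z' : K × Y × Fin 3),
      z = (j1, g i) → z' = (j1, g i) → z = z' := fun _ _ _ _ a b => a.trans b.symm
  have nL : ∀ j e, (j, e) ≠ (j1, e0) → M.sl j e ≠ M.sl j1 e0 := fun j e a b =>
    a (let t := M.sli _ _ _ _ b; Prod.ext t.1 t.2)
  generalize hη : update η (M.sl j1 e0) (M.sh j1 e0) = ηA at hA cA u opt
  have h0 : ηA (M.sl j1 e0) = M.sh j1 e0 := by rw [← hη, update_self]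
  rcases M.window rfl hA cA (hx j1) h0 with ⟨n, a0, a1, a2, a3⟩ | ⟨n, a0, a1, a2, a3⟩
  · obtain ⟨j0, g⟩ := M.one_hot hA cA
      (fun j => j ≠ j1 ∧ ∀ e, ηA (M.sl j e) = M.sh j (bt (M.nx j) e))
      (fun i z => z = (j1, (bt (M.nx j1) ^ (i : ℕ)) e0)) (hB' _) (fun j e a b => ⟨nL _ _ (b 0), by
        by_cases d : j = j1
        · subst d
          refine ⟨by_contra fun t => ?_, by_contra fun t => b ⟨n + 1, by omega⟩ (by rw [(a3 e).1 t])⟩
          obtain ⟨i, -, i2, rfl⟩ := (a2 e).1 t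
          exact b ⟨i, by omega⟩ rfl
        · exact ⟨(u j d).1.resolve_left (fun t => a ⟨d, t⟩) e, (u j d).2 e⟩⟩)
      fun j e a b => ⟨nL _ _ (b 0), a.2 e, (u j a.1).2 _⟩
    have ne : ¬j1 = j0 := fun d => ((g j0).2 rfl).1 d.symm
    refine ⟨j0, n, a0, ηA, ?_⟩
    simp only [ref, oth, gam, if_neg ne]
    refine ⟨hη.symm, hA, cA, a1, fun i i1 i2 => (opt _ _).resolve_left ((a2 _).2 ⟨i, i1, i2, rfl⟩),
      fun j e d => ?_, fun j e => ?_⟩
    · split_ifs with t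
      · exact ((g j).2 t).2 e
      by_cases d' : j = j1
      · subst d'
        by_contra t'
        obtain ⟨i, i1, i2, i3⟩ := (a2 e).1 t'
        exact d rfl i i1 i2 i3
      · exact (u j d').1.resolve_left (fun t' => t ((g j).1 ⟨d', t'⟩)) e
    · rw [← Equiv.Perm.mul_apply, ← pow_succ']
      by_cases d : j = j1
      · subst d
        exact (a3 e).trans ⟨fun t => by rw [t], fun t => (M.shi t).2⟩
      · exact iff_of_false (not_not.2 ((u j d).2 e)) fun t => d (M.shi t).1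
  · obtain ⟨j0, g⟩ := M.one_hot hA cA
      (fun j => j = j1 ∨ ∀ e, ηA (M.sl j e) = M.sh j (bt (M.nx j) e))
      (fun i z => z = (j1, ((bt (M.nx j1))⁻¹ ^ (i : ℕ)) e0)) (hB' _)
      (fun j e a b => have d : j ≠ j1 := fun t => a (Or.inl t)
        ⟨nL _ _ (b 0), (u j d).1.resolve_left (fun t => a (Or.inr t)) e, (u j d).2 e⟩)
      fun j e a b => ⟨nL _ _ (b 0), by
        by_cases d : j = j1
        · subst d
          refine ⟨(opt _ _).resolve_left fun t => ?_, by_contra fun t => b ⟨n + 1, by omega⟩ ?_⟩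
          · obtain ⟨i, i2, rfl⟩ := (a2 e).1 t
            exact b ⟨i, by omega⟩ rfl
          · rw [pow_succ', Equiv.Perm.mul_apply, ← (a3 _).1 t]
            simp
        · exact ⟨a.resolve_left d e, (u j d).2 _⟩⟩
    obtain rfl : j1 = j0 := (g j1).1 (Or.inl rfl)
    refine ⟨j1, n, a0, _, rfl, ?_⟩
    simp only [ref, oth, gam, if_true]
    have up : ∀ j e, (j, e) ≠ (j1, e0) →
        update η (M.sl j1 e0) (M.sh j1 (bt (M.nx j1) e0)) (M.sl j e) = ηA (M.sl j e) :=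
      fun j e d => by rw [← hη, update_of_ne (nL _ _ d), update_of_ne (nL _ _ d)]
    refine ⟨hB, cB, a1, fun i i1 i2 => ?_, fun j e d => ?_, fun j e => ?_⟩
    · rw [up, (a2 _).2 ⟨i, i2, rfl⟩]
      intro d
      have d := (Prod.mk.inj d).2
      have nf := M.nf j1 e0.1
      obtain ⟨w, r⟩ := e0
      rcases (show i = 1 ∨ i = 2 ∨ i = 3 by omega) with rfl | rfl | rfl <;> fin_cases r <;>
        simp [pow_succ, Equiv.symm_apply_eq] at d <;> exact nf d.symm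
    · by_cases d0 : (j, e) = (j1, e0)
      · cases d0
        rw [update_self, if_pos rfl]
      rw [up _ _ d0]
      split_ifs with t
      · subst t
        refine (opt _ _).resolve_left fun t' => ?_
        obtain ⟨_ | i, i2, i3⟩ := (a2 e).1 t'
        exacts [d0 (by rw [i3]; rfl), d rfl _ (by omega) i2 i3]
      · exact (u j t).1.resolve_left (fun t' => t ((g j).1 (Or.inr t'))) e
    · by_cases d : j = j1
      · subst d
        exact (a3 e).trans ⟨fun t => by rw [t], fun t => (M.shi t).2⟩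
      · exact iff_of_false (not_not.2 ((u j d).2 e)) fun t => d (M.shi t).1

end Sys

end Pool.Agent.P.MP_439f1f_co
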