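import Pool.Agent.P.MP_439f1f_co.B8
import Pool.Agent.P.MP_439f1f_co.Sy3

/-!
Loops with ports: the hubs, the cold heads, and the cycle of a state with its order.
-/

set_option autoImplicit false

namespace Pool.Agent.P.MP_439f1f_co

open Function Sum

section mono
variable {α β : Type*} [LinearOrder β] {D : Set α} {pos : α → β}

/-- An injective step that increases the key except at one element is the cyclic successor. -/
theorem Cyc.of_mono [Finite α] {f : α → α} (mem : ∀ u ∈ D, f u ∈ D) (inj : Set.InjOn f D) (hi : α)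
    (h : ∀ u ∈ D, u ≠ hi → pos u < pos (f u)) : Cyc D f pos := by
  have it : ∀ n, ∀ u ∈ D, f^[n] u ∈ D := fun n => Set.MapsTo.iterate mem n
  have ex : ∀ u, u ∈ D → ∃ n, f^[n] u = hi ∧ ∀ i < n, f^[i] u ≠ hi := by
    intro u
    have : IsTrans α fun a b => pos b < pos a := ⟨fun _ _ _ a b => b.trans a⟩
    have : Std.Irrefl fun a b : α => pos b < pos a := ⟨fun _ => lt_irrefl _⟩
    induction u using (Finite.wellFounded_of_trans_of_irrefl fun a b => pos b < pos a).induction with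
    | _ u ih =>
      intro hu
      by_cases e : u = hi
      · exact ⟨0, e, fun _ h => absurd h (Nat.not_lt_zero _)⟩
      · obtain ⟨n, h1, h2⟩ := ih _ (h u hu e) (mem u hu)
        refine ⟨n + 1, h1, fun i hi => ?_⟩
        cases i with
        | zero => exact e
        | succ i => exact h2 i (by omega)
  have mono : ∀ n, ∀ u ∈ D, (∀ i ≤ n, f^[i] u ≠ hi) → pos (f u) ≤ pos (f^[n + 1] u) := by
    intro n u hu
    induction n with
    | zero => exact fun _ => le_rfl
    | succ n ih =>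
      intro hn
      refine (ih fun i hi => hn i (by omega)).trans ?_
      rw [iterate_succ_apply' f (n + 1)]
      exact (h _ (it _ u hu) (hn _ le_rfl)).le
  have lt : ∀ u ∈ D, ∀ w ∈ D, ∀ a k, f^[a] u = hi → f^[a + (k + 1)] w = hi →
      (∀ i < a + (k + 1), f^[i] w ≠ hi) → w ≠ hi ∧ pos (f w) ≤ pos u := by
    intro u hu w hw a k h1 h2 h3
    rw [iterate_add_apply] at h2
    rw [Set.InjOn.iterate inj mem a hu (it _ w hw) (h1.trans h2.symm)]
    exact ⟨h3 0 (by omega), mono k w hw fun i hi => h3 i (by omega)⟩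
  have tri : ∀ u ∈ D, ∀ w ∈ D,
      u = w ∨ (w ≠ hi ∧ pos (f w) ≤ pos u) ∨ (u ≠ hi ∧ pos (f u) ≤ pos w) := by
    intro u hu w hw
    obtain ⟨a, a1, a2⟩ := ex u hu
    obtain ⟨b, b1, b2⟩ := ex w hw
    rcases lt_trichotomy a b with c | rfl | c
    · obtain ⟨k, rfl⟩ := Nat.exists_eq_add_of_lt c
      exact Or.inr (Or.inl (lt u hu w hw a k a1 b1 b2))
    · exact Or.inl (Set.InjOn.iterate inj mem a hu hw (a1.trans b1.symm))
    · obtain ⟨k, rfl⟩ := Nat.exists_eq_add_of_lt c
      exact Or.inr (Or.inr (lt w hw u hu b k b1 a1 a2))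
  refine ⟨fun u hu w hw e => ?_, mem, fun u hu w hw e => ?_, fun u hu e w hw => ?_⟩
  · have := tri u hu w hw
    have := h u hu
    have := h w hw
    grind
  · have := tri u hu w hw
    have := h u hu
    have := h w hw
    grind
  · obtain ⟨lo, l1, l2⟩ := Set.exists_min_image D pos (Set.toFinite _) ⟨u, hu⟩
    obtain ⟨v, hv, rfl⟩ := (((Set.toFinite D).injOn_iff_bijOn_of_mapsTo mem).1 inj).surjOn l1
    have a1 : v = hi := by_contra fun c => absurd (h v hv c) (not_lt.2 (l2 v hv))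
    have a2 : u = hi := by_contra fun c => absurd (h u hu c) (not_lt.2 (e _ (mem u hu)))
    exact a2 ▸ a1 ▸ l2 w hw

/-- a cyclic order on everything is one cycle -/
theorem Cyc.one [Finite α] {σ : Equiv.Perm α} (o : Cyc Set.univ σ pos) (y y' : α) :
    ∃ n : ℕ, (σ ^ n) y = y' := by
  refine (o.all (P := fun u => ∃ n : ℕ, (σ ^ n) u = y') (z := y') trivial (fun u _ c => ?_)
    trivial).2 ⟨0, rfl⟩
  constructor
  · rintro ⟨n, hn⟩
    cases n with
    | zero => exact absurd hn c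
    | succ n => exact ⟨n, by rwa [pow_succ, Equiv.Perm.mul_apply] at hn⟩
  · rintro ⟨n, hn⟩
    exact ⟨n + 1, by rwa [pow_succ, Equiv.Perm.mul_apply]⟩

/-- the order on the hubs other than `none` -/
theorem Cyc.opt {f : α → α} (o : Cyc Set.univ f pos) (d : α) :
    Cyc {none}ᶜ (Option.map f) fun s => pos (s.getD d) := by
  refine ⟨?_, ?_, ?_, ?_⟩
  · rintro (_ | u) hu (_ | v) hv e
    exacts [rfl, absurd rfl hu, absurd rfl hv, congrArg some (o.inj trivial trivial e)]
  · rintro (_ | u) hu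
    exacts [absurd rfl hu, fun h => nomatch h]
  · rintro (_ | u) hu (_ | v) hv e
    exacts [absurd rfl hu, absurd rfl hu, absurd rfl hv, o.succ u trivial v trivial e]
  · rintro (_ | u) hu h (_ | v) hv
    exacts [absurd rfl hu, absurd rfl hu, absurd rfl hv,
      o.wrap u trivial (fun w _ => h (some w) fun h => nomatch h) v trivial]

end mono

variable {P Y K β γ : Type*} [LinearOrder β] [LinearOrder γ]

/-- Loops.  The elements are payload hubs `inl p` and ports `inr (j, y)`; `lk` orders the elements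
of one loop and `sc` is the cyclic successor; `key j` orders the loops in the state `j` and `nx j`
is the cyclic successor. -/
structure Loops (P Y K β γ : Type*) [LinearOrder β] [LinearOrder γ] where
  lp : P → Y
  lk : P ⊕ K × Y → γ
  key : K → Y → β
  sc : Equiv.Perm (P ⊕ K × Y)
  nx : K → Equiv.Perm Y
  hsc : ∀ y, Cyc {a | Sum.elim lp Prod.snd a = y} sc lk
  hnx : ∀ j, Cyc Set.univ (nx j) (key j)

/-- The keys define the loops. -/
theorem exists_loops [Finite P] [Finite Y] [Finite K] (lp : P → Y) (lk : P ⊕ K × Y → γ)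
    (key : K → Y → β)
    (h1 : ∀ a b, Sum.elim lp Prod.snd a = Sum.elim lp Prod.snd b → lk a = lk b → a = b)
    (h2 : ∀ j, Injective (key j)) :
    ∃ O : Loops P Y K β γ, O.lp = lp ∧ O.lk = lk ∧ O.key = key := by
  choose nx hnx using fun j => exists_cyc_perm (h2 j)
  choose f hf using fun y => exists_cyc (D := {a | Sum.elim lp Prod.snd a = y}) (pos := lk)
    fun a ha b hb => h1 a b (ha.trans hb.symm)
  have inj : Injective fun a => f (Sum.elim lp Prod.snd a) a := fun a b e => by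
    have a1 := (hf _).mem a rfl
    have a2 := (hf _).mem b rfl
    simp only [Set.mem_ofPred_eq] at a1 a2 e
    have a3 : Sum.elim lp Prod.snd a = Sum.elim lp Prod.snd b := by rw [← a1, e, a2]
    rw [← a3] at e
    exact (hf _).injOn rfl a3.symm e
  exact ⟨⟨lp, lk, key, Equiv.ofBijective _ (Finite.injective_iff_bijective.1 inj), nx,
    fun y => (hf y).congr fun a ha => by rw [← ha]; rfl, hnx⟩, rfl, rfl, rfl⟩

/-- the hub through which an element is entered -/
def efst : P ⊕ K × Y → P ⊕ K × Y × Fin 3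
  | inl p => inl p
  | inr z => inr (z.1, z.2, 0)

/-- the hub through which an element is left -/
def elst : P ⊕ K × Y → P ⊕ K × Y × Fin 3
  | inl p => inl p
  | inr z => inr (z.1, z.2, 2)

/-- the element of a hub -/
def elt : P ⊕ K × Y × Fin 3 → P ⊕ K × Y
  | inl p => inl p
  | inr z => inr (z.1, z.2.1)

@[simp] theorem efst_l (p : P) : (efst (inl p) : P ⊕ K × Y × Fin 3) = inl p := rfl
@[simp] theorem efst_r (j : K) (y : Y) :
    (efst (inr (j, y)) : P ⊕ K × Y × Fin 3) = inr (j, y, 0) := rfl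
@[simp] theorem elst_l (p : P) : (elst (inl p) : P ⊕ K × Y × Fin 3) = inl p := rfl
@[simp] theorem elst_r (j : K) (y : Y) :
    (elst (inr (j, y)) : P ⊕ K × Y × Fin 3) = inr (j, y, 2) := rfl
@[simp] theorem elt_l (p : P) : (elt (inl p : P ⊕ K × Y × Fin 3)) = inl p := rfl
@[simp] theorem elt_r (j : K) (y : Y) (r : Fin 3) :
    (elt (inr (j, y, r) : P ⊕ K × Y × Fin 3)) = inr (j, y) := rfl
@[simp] theorem elt_efst (a : P ⊕ K × Y) : elt (efst a) = a := by cases a <;> rfl
@[simp] theorem elt_elst (a : P ⊕ K × Y) : elt (elst a) = a := by cases a <;> rfl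

namespace Loops

variable (O : Loops P Y K β γ)

/-- the loop of an element -/
def lo (a : P ⊕ K × Y) : Y := Sum.elim O.lp Prod.snd a

@[simp] theorem lo_l (p : P) : O.lo (inl p) = O.lp p := rfl
@[simp] theorem lo_r (j : K) (y : Y) : O.lo (inr (j, y)) = y := rfl
@[simp] theorem lo_sc (a : P ⊕ K × Y) : O.lo (O.sc a) = O.lo a := (O.hsc _).mem a rfl
@[simp] theorem lo_sc_symm (a : P ⊕ K × Y) : O.lo (O.sc.symm a) = O.lo a := by
  rw [← O.lo_sc, Equiv.apply_symm_apply]

theorem lk_inj {a b : P ⊕ K × Y} (h : O.lo a = O.lo b) (e : O.lk a = O.lk b) : a = b :=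
  (O.hsc _).inj h rfl e

/-- the successor in a loop is the next element for the key -/
theorem sc_eq {a b : P ⊕ K × Y} (h : O.lo b = O.lo a) (h1 : O.lk a < O.lk b)
    (h2 : ∀ w, O.lo w = O.lo a → O.lk w ≤ O.lk a ∨ O.lk b ≤ O.lk w) : O.sc a = b :=
  (O.hsc (O.lo a)).of_nx ⟨rfl, h, h1, h2⟩

/-- the successor of the last element of a loop is the first element -/
theorem sc_last {a b : P ⊕ K × Y} (h : O.lo b = O.lo a)
    (h1 : ∀ w, O.lo w = O.lo a → O.lk w ≤ O.lk a)
    (h2 : ∀ w, O.lo w = O.lo a → O.lk b ≤ O.lk w) : O.sc a = b :=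
  (O.hsc (O.lo a)).last rfl h h1 h2

theorem nx_eq {j : K} {a b : Y} (h1 : O.key j a < O.key j b)
    (h2 : ∀ w, O.key j w ≤ O.key j a ∨ O.key j b ≤ O.key j w) : O.nx j a = b :=
  (O.hnx j).of_nx ⟨trivial, trivial, h1, fun w _ => h2 w⟩

theorem key_inj (j : K) : Injective (O.key j) := fun _ _ e => (O.hnx j).inj trivial trivial e

/-- The cold head: the line of the hub `h` ends at `dA h`. -/
def dA : Equiv.Perm (P ⊕ K × Y × Fin 3) where
  toFun
    | inl p => efst (O.sc (inl p))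
    | inr (j, y, r) => if r = 2 then efst (O.sc (inr (j, y))) else inr (j, y, r + 1)
  invFun
    | inl p => elst (O.sc.symm (inl p))
    | inr (j, y, r) => if r = 0 then elst (O.sc.symm (inr (j, y))) else inr (j, y, r - 1)
  left_inv := by
    have k : ∀ a, (match (efst a : P ⊕ K × Y × Fin 3) with
        | inl p => elst (O.sc.symm (inl p))
        | inr (j, y, r) => if r = 0 then elst (O.sc.symm (inr (j, y))) else inr (j, y, r - 1)) =
        elst (O.sc.symm a) := by rintro (p | z) <;> rfl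
    rintro (p | ⟨j, y, r⟩)
    · exact (k _).trans (by simp)
    · fin_cases r
      exacts [rfl, rfl, (k _).trans (by simp)]
  right_inv := by
    have k : ∀ a, (match (elst a : P ⊕ K × Y × Fin 3) with
        | inl p => efst (O.sc (inl p))
        | inr (j, y, r) => if r = 2 then efst (O.sc (inr (j, y))) else inr (j, y, r + 1)) =
        efst (O.sc a) := by rintro (p | z) <;> rfl
    rintro (p | ⟨j, y, r⟩)
    · exact (k _).trans (by simp)
    · fin_cases r
      exacts [(k _).trans (by simp), rfl, rfl]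

theorem dA_l (p : P) : O.dA (inl p) = efst (O.sc (inl p)) := rfl
@[simp] theorem dA_0 (j : K) (y : Y) : O.dA (inr (j, y, 0)) = inr (j, y, 1) := rfl
@[simp] theorem dA_1 (j : K) (y : Y) : O.dA (inr (j, y, 1)) = inr (j, y, 2) := rfl
theorem dA_2 (j : K) (y : Y) : O.dA (inr (j, y, 2)) = efst (O.sc (inr (j, y))) := rfl
theorem dA_elst (a : P ⊕ K × Y) : O.dA (elst a) = efst (O.sc a) := by cases a <;> rfl
theorem dA_symm_efst (a : P ⊕ K × Y) : O.dA.symm (efst a) = elst (O.sc.symm a) := by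
  cases a <;> rfl
@[simp] theorem lo_dA (h : P ⊕ K × Y × Fin 3) : O.lo (elt (O.dA h)) = O.lo (elt h) := by
  rcases h with p | ⟨j, y, r⟩
  · simp [dA_l]
  · fin_cases r
    exacts [rfl, rfl, by simp [dA_2]]

/-- the line whose cold head is the system hub `(j, e)` -/
def sl (j : K) (e : Y × Fin 3) : P ⊕ K × Y × Fin 3 := O.dA.symm (inr (j, e))

@[simp] theorem dA_sl (j : K) (e : Y × Fin 3) : O.dA (O.sl j e) = inr (j, e) :=
  O.dA.apply_symm_apply _
theorem sl_0 (j : K) (y : Y) : O.sl j (y, 0) = elst (O.sc.symm (inr (j, y))) := rfl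
@[simp] theorem sl_1 (j : K) (y : Y) : O.sl j (y, 1) = inr (j, y, 0) := rfl
@[simp] theorem sl_2 (j : K) (y : Y) : O.sl j (y, 2) = inr (j, y, 1) := rfl
theorem eq_sl {j : K} {e : Y × Fin 3} {h : P ⊕ K × Y × Fin 3} :
    h = O.sl j e ↔ O.dA h = inr (j, e) := O.dA.eq_symm_apply

variable [DecidableEq K]

/-- the heads of the stage `j0` move to the option `B` -/
def hot (j0 : K) : Equiv.Perm (P ⊕ K × Y × Fin 3) :=
  Equiv.sumCongr (Equiv.refl P) (Equiv.prodCongrRight fun j => if j = j0 then bt (O.nx j) else 1)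

@[simp] theorem hot_l (j0 : K) (p : P) : O.hot j0 (inl p) = inl p := rfl
@[simp] theorem hot_self (j0 : K) (e : Y × Fin 3) :
    O.hot j0 (inr (j0, e)) = inr (j0, bt (O.nx j0) e) := by simp [hot]
theorem hot_ne {j0 j : K} (h : j ≠ j0) (e : Y × Fin 3) : O.hot j0 (inr (j, e)) = inr (j, e) := by
  simp [hot, h]

/-- The head of the line of `h` in the state `j0`. -/
def nxt (j0 : K) : Equiv.Perm (P ⊕ K × Y × Fin 3) := O.hot j0 * O.dA

theorem nxt_apply (j0 : K) (h : P ⊕ K × Y × Fin 3) : O.nxt j0 h = O.hot j0 (O.dA h) := rfl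

theorem nxt_pay {j0 : K} {h : P ⊕ K × Y × Fin 3} {p : P} (e : O.dA h = inl p) :
    O.nxt j0 h = inl p := by rw [nxt_apply, e, hot_l]

theorem nxt_cold {j0 j : K} (c : j ≠ j0) (e : Y × Fin 3) : O.nxt j0 (O.sl j e) = inr (j, e) := by
  rw [nxt_apply, dA_sl, O.hot_ne c]

theorem nxt_hot (j0 : K) (e : Y × Fin 3) :
    O.nxt j0 (O.sl j0 e) = inr (j0, bt (O.nx j0) e) := by rw [nxt_apply, dA_sl, hot_self]

/-- The unit of a hub in the state `j0`: its loop, except for the first two hubs of a hot port. -/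
def un (j0 : K) : P ⊕ K × Y × Fin 3 → Y
  | inl p => O.lp p
  | inr (j, y, r) => if j = j0 ∧ r ≠ 2 then (O.nx j0).symm y else y

@[simp] theorem un_l (j0 : K) (p : P) : O.un j0 (inl p) = O.lp p := rfl
@[simp] theorem un_2 (j0 j : K) (y : Y) : O.un j0 (inr (j, y, 2)) = y := by simp [un]
@[simp] theorem un_0 (j0 : K) (y : Y) : O.un j0 (inr (j0, y, 0)) = (O.nx j0).symm y := by
  simp [un]
@[simp] theorem un_1 (j0 : K) (y : Y) : O.un j0 (inr (j0, y, 1)) = (O.nx j0).symm y := by
  simp [un]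
theorem un_ne {j0 j : K} (h : j ≠ j0) (y : Y) (r : Fin 3) : O.un j0 (inr (j, y, r)) = y := by
  simp [un, h]
@[simp] theorem un_elst (j0 : K) (a : P ⊕ K × Y) : O.un j0 (elst a) = O.lo a := by
  rcases a with p | ⟨j, y⟩ <;> simp

/-- `3` after the hot port of the loop, `4` before it (these elements come last in the unit) -/
def ph (j0 : K) (a : P ⊕ K × Y) : ℕ := if O.lk (inr (j0, O.lo a)) < O.lk a then 3 else 4

/-- The index inside the unit: the hubs `1`, `0` of the hot port of the next loop, the hub `2` of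
the own hot port, then the loop from the hot port on. -/
def ix (j0 : K) : P ⊕ K × Y × Fin 3 → ℕ ×ₗ γ ×ₗ Fin 3
  | inl p => toLex (O.ph j0 (inl p), toLex (O.lk (inl p), 0))
  | inr (j, y, r) => toLex (if j = j0 then (if r = 1 then 0 else if r = 0 then 1 else 2)
      else O.ph j0 (inr (j, y)), toLex (O.lk (inr (j, y)), r))

/-- the position in the cycle of the state `j0` -/
def pos (j0 : K) (h : P ⊕ K × Y × Fin 3) : β ×ₗ ℕ ×ₗ γ ×ₗ Fin 3 :=
  toLex (O.key j0 (O.un j0 h), O.ix j0 h)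

theorem pos_lt {j0 : K} {u v : P ⊕ K × Y × Fin 3} : O.pos j0 u < O.pos j0 v ↔
    O.key j0 (O.un j0 u) < O.key j0 (O.un j0 v) ∨
      (O.un j0 u = O.un j0 v ∧ O.ix j0 u < O.ix j0 v) := by
  simp only [pos, Prod.Lex.toLex_lt_toLex, (O.key_inj j0).eq_iff]

theorem pos_lt_of_key {j0 : K} {u v : P ⊕ K × Y × Fin 3}
    (h : O.key j0 (O.un j0 u) < O.key j0 (O.un j0 v)) : O.pos j0 u < O.pos j0 v :=
  O.pos_lt.2 (Or.inl h)

theorem key_le_of_pos {j0 : K} {u v : P ⊕ K × Y × Fin 3} (h : O.pos j0 u ≤ O.pos j0 v) :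
    O.key j0 (O.un j0 u) ≤ O.key j0 (O.un j0 v) :=
  not_lt.1 fun c => absurd (O.pos_lt_of_key c) (not_lt.2 h)

omit [DecidableEq K] in
theorem three_le_ph (j0 : K) (a : P ⊕ K × Y) : 3 ≤ O.ph j0 a := by
  unfold ph
  split_ifs <;> omega

/-- hubs of two different elements of one loop, outside the hot port -/
theorem ix_lt {j0 : K} {u v : P ⊕ K × Y × Fin 3} (hu : ∀ e, u ≠ inr (j0, e))
    (hv : ∀ e, v ≠ inr (j0, e))
    (h : O.ph j0 (elt u) < O.ph j0 (elt v) ∨
      (O.ph j0 (elt u) = O.ph j0 (elt v) ∧ O.lk (elt u) < O.lk (elt v))) :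
    O.ix j0 u < O.ix j0 v := by
  have k : ∀ w : P ⊕ K × Y × Fin 3, (∀ e, w ≠ inr (j0, e)) →
      ∃ r, O.ix j0 w = toLex (O.ph j0 (elt w), toLex (O.lk (elt w), r)) := by
    rintro (p | ⟨j, y, r⟩) hw
    · exact ⟨0, rfl⟩
    · have : j ≠ j0 := fun c => hw _ (by rw [c])
      exact ⟨r, by simp [ix, this]⟩
  obtain ⟨r, a⟩ := k u hu
  obtain ⟨s, b⟩ := k v hv
  simp only [a, b, Prod.Lex.toLex_lt_toLex]
  exact h.imp id fun h => ⟨h.1, Or.inl h.2⟩

/-- the hubs of the hot stage come first in the unit -/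
theorem ix_hot {j0 : K} {v : P ⊕ K × Y × Fin 3} (e : Y × Fin 3) (hv : ∀ e, v ≠ inr (j0, e)) :
    O.ix j0 (inr (j0, e)) < O.ix j0 v := by
  obtain ⟨y, r⟩ := e
  have := O.three_le_ph j0 (elt v)
  rcases v with p | ⟨j, z, s⟩
  · refine Prod.Lex.toLex_lt_toLex.2 (Or.inl ?_)
    simp only [elt_l, if_true] at this ⊢
    split_ifs <;> omega
  · have c : j ≠ j0 := fun c => hv _ (by rw [c])
    refine Prod.Lex.toLex_lt_toLex.2 (Or.inl ?_)
    simp only [elt_r, if_true, if_neg c] at this ⊢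
    split_ifs <;> omega

/-- Every step stays in the unit and increases the index, except the step into the hot port. -/
theorem step (j0 : K) (u : P ⊕ K × Y × Fin 3) :
    (O.un j0 (O.nxt j0 u) = O.un j0 u ∧ O.ix j0 u < O.ix j0 (O.nxt j0 u)) ∨
      (u = O.sl j0 (O.un j0 u, 0) ∧ O.un j0 (O.nxt j0 u) = O.nx j0 (O.un j0 u)) := by
  have k : ∀ a, (O.un j0 (O.nxt j0 (elst a)) = O.un j0 (elst a) ∧
      O.ix j0 (elst a) < O.ix j0 (O.nxt j0 (elst a))) ∨ (elst a = O.sl j0 (O.un j0 (elst a), 0) ∧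
      O.un j0 (O.nxt j0 (elst a)) = O.nx j0 (O.un j0 (elst a))) := by
    intro a
    rw [nxt_apply, dA_elst, un_elst]
    by_cases c : O.sc a = inr (j0, O.lo a)
    · exact Or.inr ⟨by rw [sl_0, ← c]; simp, by simp [c]⟩
    have l := O.lo_sc a
    have n1 : ∀ e, efst (O.sc a) ≠ inr (j0, e) := fun e h => c (by
      have := congrArg elt h
      rw [elt_efst] at this
      rw [← l, this]
      rfl)
    have n2 : O.hot j0 (efst (O.sc a)) = efst (O.sc a) ∧ O.un j0 (efst (O.sc a)) = O.lo a := by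
      rw [← l]
      generalize O.sc a = b at n1
      rcases b with p | ⟨j, y⟩
      · exact ⟨rfl, rfl⟩
      · have : j ≠ j0 := fun c => n1 _ (by rw [c]; rfl)
        exact ⟨O.hot_ne this _, O.un_ne this _ _⟩
    rw [n2.1]
    refine Or.inl ⟨n2.2, ?_⟩
    by_cases d : a = inr (j0, O.lo a)
    · rw [d] at n1 ⊢
      exact O.ix_hot _ n1
    refine O.ix_lt (fun e h => d ?_) n1 ?_
    · have := congrArg elt h
      rw [elt_elst] at this
      rw [this]
      rfl
    have a1 : O.lk (inr (j0, O.lo a)) ≠ O.lk a := fun e => d (O.lk_inj (by rfl) e).symm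
    have a2 : O.lk (inr (j0, O.lo a)) ≠ O.lk (O.sc a) := fun e => c (O.lk_inj (by exact l.symm) e).symm
    simp only [elt_efst, elt_elst, ph, l]
    rcases (O.hsc (O.lo a)).cases (u := a) rfl with ⟨b1, b2⟩ | ⟨b1, b2⟩
    · have := b2 (inr (j0, O.lo a)) rfl
      grind
    · have := b1 (inr (j0, O.lo a)) rfl
      have := b2 (inr (j0, O.lo a)) rfl
      grind
  rcases u with p | ⟨j, y, r⟩
  · exact k (inl p)
  by_cases c : j = j0
  · subst c
    fin_cases r
    · exact Or.inl (by simp [nxt_apply, ix, Prod.Lex.toLex_lt_toLex])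
    · exact Or.inl (by simp [nxt_apply, ix, Prod.Lex.toLex_lt_toLex])
    · exact k (inr (j, y))
  · fin_cases r
    · exact Or.inl (by simp [nxt_apply, O.hot_ne c, O.un_ne c, ix, c, Prod.Lex.toLex_lt_toLex])
    · exact Or.inl (by simp [nxt_apply, O.hot_ne c, O.un_ne c, ix, c, Prod.Lex.toLex_lt_toLex])
    · exact k (inr (j, y))

/-- **The cycle of a state.** -/
theorem cyc [Finite P] [Finite Y] [Finite K] [Nonempty Y] (j0 : K) :
    Cyc Set.univ (O.nxt j0) (O.pos j0) := by
  obtain ⟨z, hz⟩ := Finite.exists_max (O.key j0)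
  refine Cyc.of_mono (fun _ _ => trivial) (O.nxt j0).injective.injOn (O.sl j0 (z, 0))
    fun u _ hu => O.pos_lt.2 ?_
  rcases O.step j0 u with ⟨a, b⟩ | ⟨a, b⟩
  · exact Or.inr ⟨a.symm, b⟩
  · have : O.un j0 u ≠ z := fun c => hu (c ▸ a)
    exact Or.inl (b ▸ ((O.hnx j0).succ _ trivial z trivial
      (lt_of_le_of_ne (hz _) fun e => this (O.key_inj j0 e))).1)

end Loops

end Pool.Agent.P.MP_439f1f_co
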