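import Pool.Agent.P.MP_439f1f_co.B16
import Pool.Agent.P.MP_439f1f_co.Lp1

/-!
The virtual order: the pass pieces of a route are moved behind the hub at which the route ends.
-/

set_option autoImplicit false

namespace Pool.Agent.P.MP_439f1f_co

open Function SimpleGraph Sum

/-- Routes: the route `i` starts at the hub `b i` and uses the lines `w i 0, ..., w i (2 n i)`;
the token ends at the hub of the last line. -/
structure Rts (S Λ ι : Type*) where
  b : ι → S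
  n : ι → ℕ
  w : ι → ℕ → Λ

/-- `hang` with free tails on the lines of `O` -/
def fk {S Λ : Type*} (hang : Λ → ℕ → S → Prop) (O : List Λ) : Λ → ℕ → S → Prop :=
  fun L i s => hang L i s ∨ (L ∈ O ∧ i = 0)

variable {S Λ ι β : Type*} [LinearOrder β] {nxt en : Λ → Λ} {pos : Λ → β} {hb : Λ → S}
  {m : ℕ} {hang : Λ → ℕ → S → Prop} {c : S} {R0 : Set Λ}

namespace Rts

variable (V : Rts S Λ ι)

/-- the last line of a route -/
def lab (i : ι) : Λ := V.w i (2 * V.n i)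

/-- the first line of a route: the cut that stands for the hub of `lab i` -/
def fst (i : ι) : Λ := V.w i 0

structure Ok (hang : Λ → ℕ → S → Prop) (hb : Λ → S) (pos : Λ → β) (R0 : Set Λ) (en : Λ → Λ) :
    Prop where
  inj : ∀ i k i' k', k ≤ 2 * V.n i → k' ≤ 2 * V.n i' → V.w i k = V.w i' k' → i = i' ∧ k = k'
  h0 : ∀ i, hang (V.fst i) 0 (V.b i)
  hg : ∀ i, ∀ k < 2 * V.n i, hang (V.w i (k + 1)) 0 (hb (V.w i k))
  pass : ∀ i, ∀ j < V.n i, V.w i (2 * j) ∈ R0 ∧ en (V.w i (2 * j)) = V.w i (2 * j + 1)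
  free : ∀ i i', ∀ j < V.n i', pos (V.lab i) < pos (V.w i' (2 * j)) ∨
    pos (V.w i' (2 * j + 1)) < pos (V.lab i)

/-- the line `u` is carried by the piece `j` of the route `i` -/
def In (pos : Λ → β) (u : Λ) (i : ι) (j : ℕ) : Prop :=
  j < V.n i ∧ pos (V.w i (2 * j)) ≤ pos u ∧ pos u < pos (V.w i (2 * j + 1))

/-- the line `u` is not carried by a route -/
def Out (pos : Λ → β) (u : Λ) : Prop := ∀ i j, ¬V.In pos u i j

/-- the line `u` is not a line of a route -/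
def Off (u : Λ) : Prop := ∀ i, ∀ k ≤ 2 * V.n i, V.w i k ≠ u

open Classical in
/-- the anchor of a line -/
noncomputable def an (pos : Λ → β) (u : Λ) : Λ :=
  if h : ∃ p : ι × ℕ, V.In pos u p.1 p.2 then V.lab h.choose.1 else u

open Classical in
noncomputable def rk (pos : Λ → β) (u : Λ) : WithTop ℕ :=
  if h : ∃ p : ι × ℕ, V.In pos u p.1 p.2 then h.choose.2 else ⊤

/-- the virtual position -/
noncomputable def vp (pos : Λ → β) (u : Λ) : β ×ₗ WithTop ℕ ×ₗ β :=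
  toLex (pos (V.an pos u), toLex (V.rk pos u, pos u))

open Classical in
noncomputable def sh (u : Λ) : Λ :=
  if h : ∃ p : ι × ℕ, p.2 ≤ 2 * V.n p.1 ∧ V.w p.1 p.2 = u then
    V.w h.choose.1 (if h.choose.2 = 2 * V.n h.choose.1 then 0 else h.choose.2 + 1) else u

open Classical in
noncomputable def un (u : Λ) : Λ :=
  if h : ∃ p : ι × ℕ, p.2 ≤ 2 * V.n p.1 ∧ V.w p.1 p.2 = u then
    V.w h.choose.1 (if h.choose.2 = 0 then 2 * V.n h.choose.1 else h.choose.2 - 1) else u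

/-- the hub at the tail -/
noncomputable def vh (hb : Λ → S) (u : Λ) : S := hb (V.un u)

/-- the virtual successor -/
noncomputable def vn (nxt : Λ → Λ) (u : Λ) : Λ := V.sh (nxt u)

variable {V} {u v : Λ} {i i' : ι} {j j' k : ℕ}

theorem an_out (h : V.Out pos u) : V.an pos u = u := dif_neg fun ⟨_, a⟩ => h _ _ a
theorem rk_out (h : V.Out pos u) : V.rk pos u = ⊤ := dif_neg fun ⟨_, a⟩ => h _ _ a
theorem sh_off (h : V.Off u) : V.sh u = u := dif_neg fun ⟨_, a⟩ => h _ _ a.1 a.2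
theorem un_off (h : V.Off u) : V.un u = u := dif_neg fun ⟨_, a⟩ => h _ _ a.1 a.2
theorem vh_off (h : V.Off u) : V.vh hb u = hb u := congrArg hb (un_off h)
theorem vn_off (h : V.Off (nxt u)) : V.vn nxt u = nxt u := sh_off h

theorem out_or (V : Rts S Λ ι) (pos : Λ → β) (u : Λ) : V.Out pos u ∨ ∃ i j, V.In pos u i j := by
  unfold Out
  grind

theorem off_or (V : Rts S Λ ι) (u : Λ) : V.Off u ∨ ∃ i, ∃ k ≤ 2 * V.n i, V.w i k = u := by
  unfold Off
  grind

theorem vp_lt : V.vp pos u < V.vp pos v ↔ pos (V.an pos u) < pos (V.an pos v) ∨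
    (pos (V.an pos u) = pos (V.an pos v) ∧
      (V.rk pos u < V.rk pos v ∨ (V.rk pos u = V.rk pos v ∧ pos u < pos v))) := by
  simp only [vp, Prod.Lex.toLex_lt_toLex]

theorem vp_of_an (h : pos (V.an pos u) < pos (V.an pos v)) : V.vp pos u < V.vp pos v :=
  vp_lt.2 (Or.inl h)

/-- two lines that are not carried keep their order -/
theorem vp_out (hu : V.Out pos u) (hv : V.Out pos v) : V.vp pos u < V.vp pos v ↔ pos u < pos v := by
  rw [vp_lt, an_out hu, an_out hv, rk_out hu, rk_out hv]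
  grind

/-- it is enough that the last lines are outside all pass pairs, or starts of pass pairs -/
theorem Ok.of_mem (r : LRef m hang c hb nxt pos R0 en)
    (inj : ∀ i k i' k', k ≤ 2 * V.n i → k' ≤ 2 * V.n i' → V.w i k = V.w i' k' → i = i' ∧ k = k')
    (h0 : ∀ i, hang (V.fst i) 0 (V.b i))
    (hg : ∀ i, ∀ k < 2 * V.n i, hang (V.w i (k + 1)) 0 (hb (V.w i k)))
    (pass : ∀ i, ∀ j < V.n i, V.w i (2 * j) ∈ R0 ∧ en (V.w i (2 * j)) = V.w i (2 * j + 1))
    (hl : ∀ i, V.lab i ∈ R0 ∨ ∀ s ∈ R0, s ≠ V.lab i → pos (V.lab i) < pos s ∨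
      pos (en s) < pos (V.lab i)) : V.Ok hang hb pos R0 en := by
  refine ⟨inj, h0, hg, pass, fun i i' j hj => ?_⟩
  have ne : V.w i' (2 * j) ≠ V.lab i := fun e => by
    obtain ⟨rfl, e⟩ := inj _ _ _ _ (by omega) le_rfl e
    omega
  rw [← (pass i' j hj).2]
  refine (hl i).elim (fun h => ?_) fun h => h _ (pass i' j hj).1 ne
  exact (lt_or_gt_of_ne fun e => ne (r.cyc.inj trivial trivial e)).symm.imp id
    (r.dis _ (pass i' j hj).1 _ h)

namespace Ok

variable (a : V.Ok hang hb pos R0 en)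
include a

theorem sh_w (h : k ≤ 2 * V.n i) :
    V.sh (V.w i k) = V.w i (if k = 2 * V.n i then 0 else k + 1) := by
  have e : ∃ p : ι × ℕ, p.2 ≤ 2 * V.n p.1 ∧ V.w p.1 p.2 = V.w i k := ⟨(i, k), h, rfl⟩
  have := a.inj _ _ _ _ e.choose_spec.1 h e.choose_spec.2
  rw [sh, dif_pos e, this.1, this.2]

theorem un_w (h : k ≤ 2 * V.n i) :
    V.un (V.w i k) = V.w i (if k = 0 then 2 * V.n i else k - 1) := by
  have e : ∃ p : ι × ℕ, p.2 ≤ 2 * V.n p.1 ∧ V.w p.1 p.2 = V.w i k := ⟨(i, k), h, rfl⟩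
  have := a.inj _ _ _ _ e.choose_spec.1 h e.choose_spec.2
  rw [un, dif_pos e, this.1, this.2]

theorem un_sh (u : Λ) : V.un (V.sh u) = u := by
  rcases V.off_or u with h | ⟨i, k, h, rfl⟩
  · rw [sh_off h, un_off h]
  · rw [a.sh_w h, a.un_w (by split_ifs <;> omega)]
    congr 1
    grind

theorem vh_fst (i : ι) : V.vh hb (V.fst i) = hb (V.lab i) := by
  rw [vh, fst, a.un_w (Nat.zero_le _), if_pos rfl, lab]

theorem vh_w (h : k < 2 * V.n i) : V.vh hb (V.w i (k + 1)) = hb (V.w i k) := by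
  rw [vh, a.un_w h, if_neg (by omega)]
  rfl

theorem vh_vn (u : Λ) : V.vh hb (V.vn nxt u) = hb (nxt u) := congrArg hb (a.un_sh _)

theorem vn_lab (h : nxt u = V.lab i) : V.vn nxt u = V.fst i := by
  rw [vn, h, lab, a.sh_w le_rfl, if_pos rfl, fst]

theorem vn_w (hk : k < 2 * V.n i) (h : nxt u = V.w i k) : V.vn nxt u = V.w i (k + 1) := by
  rw [vn, h, a.sh_w hk.le, if_neg hk.ne]

/-- a pointer in the virtual frame -/
theorem ptr {b : Bool} {x : S ⊕ Λ × Fin (m + 1)} {s s' : S} (p : Ptr m hang hb nxt b x u s)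
    (h : b = true → x = inl (hb u) → V.vh hb u = hb u) (e : s' = s) :
    Ptr m hang (V.vh hb) (V.vn nxt) b x u s' := by
  refine e ▸ p.imp_left fun d => ⟨?_, d.2⟩
  cases b
  · rw [d.1, cond_false, cond_false, a.vh_vn]
  · rw [cond_true, h rfl d.1, d.1, cond_true]

variable (r : LRef m hang c hb nxt pos R0 en)
include r

theorem lt (h : j < V.n i) : pos (V.w i (2 * j)) < pos (V.w i (2 * j + 1)) :=
  (a.pass i j h).2 ▸ r.lt _ (a.pass i j h).1

theorem dis (h : j < V.n i) (h' : j' < V.n i') : (i = i' ∧ j = j') ∨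
    pos (V.w i (2 * j + 1)) < pos (V.w i' (2 * j')) ∨
      pos (V.w i' (2 * j' + 1)) < pos (V.w i (2 * j)) := by
  rcases lt_trichotomy (pos (V.w i (2 * j))) (pos (V.w i' (2 * j'))) with d | d | d
  · exact Or.inr (Or.inl ((a.pass i j h).2 ▸ r.dis _ (a.pass i j h).1 _ (a.pass i' j' h').1 d))
  · have := a.inj _ _ _ _ (by omega) (by omega) (r.cyc.inj trivial trivial d)
    exact Or.inl ⟨this.1, by omega⟩
  · exact Or.inr (Or.inr ((a.pass i' j' h').2 ▸ r.dis _ (a.pass i' j' h').1 _ (a.pass i j h).1 d))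

theorem uniq (h : V.In pos u i j) (h' : V.In pos u i' j') : i = i' ∧ j = j' := by
  have := a.dis r h.1 h'.1
  unfold In at h h'
  grind

theorem an_in (h : V.In pos u i j) : V.an pos u = V.lab i := by
  have e : ∃ p : ι × ℕ, V.In pos u p.1 p.2 := ⟨(i, j), h⟩
  rw [an, dif_pos e, (a.uniq r e.choose_spec h).1]

theorem rk_in (h : V.In pos u i j) : V.rk pos u = j := by
  have e : ∃ p : ι × ℕ, V.In pos u p.1 p.2 := ⟨(i, j), h⟩
  rw [rk, dif_pos e, (a.uniq r e.choose_spec h).2]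

theorem in_w (h : j < V.n i) : V.In pos (V.w i (2 * j)) i j := ⟨h, le_rfl, a.lt r h⟩

theorem out_w (h : j < V.n i) : V.Out pos (V.w i (2 * j + 1)) := fun i' j' b => by
  have := a.dis r h b.1
  have := a.lt r h
  unfold In at b
  grind

omit r in
theorem out_lab (i : ι) : V.Out pos (V.lab i) := fun i' j' b => by
  have := a.free i i' j' b.1
  unfold In at b
  grind

theorem an_fst (i : ι) : V.an pos (V.fst i) = V.lab i := by
  rcases Nat.eq_zero_or_pos (V.n i) with h | h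
  · rw [show V.fst i = V.lab i by rw [fst, lab, h], an_out (a.out_lab i)]
  · exact a.an_in r (a.in_w r h)

/-- a line is before the cut of the route `i` iff its anchor is before the end of the route -/
theorem lt_fst (u : Λ) (i : ι) :
    V.vp pos u < V.vp pos (V.fst i) ↔ pos (V.an pos u) < pos (V.lab i) := by
  rw [vp_lt, a.an_fst r]
  refine or_iff_left fun ⟨b1, b2⟩ => ?_
  have b1 := r.cyc.inj trivial trivial b1
  rcases V.out_or pos u with h | ⟨i', j, h⟩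
  · rw [an_out h] at b1
    rcases Nat.eq_zero_or_pos (V.n i) with d | d
    · rw [show V.fst i = u by rw [b1, fst, lab, d]] at b2
      simp at b2
    · rw [rk_out h, fst, a.rk_in r (a.in_w r (j := 0) d)] at b2
      simp at b2
  · rw [a.an_in r h] at b1
    obtain rfl := (a.inj _ _ _ _ le_rfl le_rfl b1).1
    rw [a.rk_in r h, fst, a.rk_in r (a.in_w r (j := 0) (by have := h.1; omega))] at b2
    rcases b2 with b2 | ⟨b2, b3⟩
    · simp at b2
    · obtain rfl : j = 0 := by exact_mod_cast b2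
      exact absurd h.2.1 (not_le.2 b3)

omit a in
theorem vp_inj : Injective (V.vp pos) := fun _ _ h =>
  r.cyc.inj trivial trivial (congrArg (fun p => (ofLex (ofLex p).2).2) h)

theorem fst_lt (u : Λ) (i : ι) :
    V.vp pos (V.fst i) < V.vp pos u ↔ pos (V.lab i) ≤ pos (V.an pos u) ∧ u ≠ V.fst i := by
  rw [lt_iff_le_and_ne, ← not_lt, a.lt_fst r, not_lt, (vp_inj r).ne_iff, ne_comm]

theorem fst_lt_fst (i i' : ι) :
    V.vp pos (V.fst i) < V.vp pos (V.fst i') ↔ pos (V.lab i) < pos (V.lab i') := by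
  rw [a.lt_fst r, a.an_fst r]

theorem cyc [Finite Λ] [Nonempty Λ] : Cyc Set.univ (V.vn nxt) (V.vp pos) := by
  obtain ⟨z, hz⟩ := Finite.exists_max pos
  refine Cyc.of_mono (fun _ _ => trivial) ((LeftInverse.injective a.un_sh).comp
    (Set.injOn_univ.1 r.cyc.injOn)).injOn z fun u _ hu => ?_
  obtain ⟨b1, b2⟩ := (r.cyc.cases (u := u) trivial).resolve_right fun b =>
    hu (r.cyc.inj trivial trivial (le_antisymm (hz u) (b.1 z trivial)))
  have b2 := fun w => b2 w trivial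
  rcases V.off_or (nxt u) with h | ⟨i, k, hk, h⟩
  · rw [vn_off h]
    rcases V.out_or pos u with d | ⟨i, j, d⟩
    · refine (vp_out d fun i j e => d i j ⟨e.1, ?_, b1.trans e.2.2⟩).2 b1
      refine (b2 _).resolve_right fun f => h i _ (by have := e.1; omega)
        (r.cyc.inj trivial trivial (le_antisymm e.2.1 f))
    · have e : V.In pos (nxt u) i j := ⟨d.1, d.2.1.trans b1.le, lt_of_le_of_ne
        ((b2 _).resolve_left (not_le.2 d.2.2)) fun f =>
          h i _ (by have := d.1; omega) (r.cyc.inj trivial trivial f.symm)⟩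
      rw [vp_lt, a.an_in r d, a.an_in r e, a.rk_in r d, a.rk_in r e]
      exact Or.inr ⟨rfl, Or.inr ⟨rfl, b1⟩⟩
  rcases hk.eq_or_lt with rfl | hk
  · have d : V.Out pos u := fun i' j d => by
      have := a.free i i' j d.1
      have := b2 (V.w i' (2 * j + 1))
      unfold In lab at *
      grind
    rw [a.vn_lab h.symm, a.lt_fst r, an_out d, lab, h]
    exact b1
  rw [a.vn_w hk h.symm]
  rcases Nat.even_or_odd' k with ⟨j, rfl | rfl⟩
  · have d : V.Out pos u := fun i' j' d => by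
      have := a.dis r (i := i) (j := j) (by omega) d.1
      have := a.lt r (i := i) (j := j) (by omega)
      have := b2 (V.w i' (2 * j' + 1))
      unfold In at *
      grind
    exact (vp_out d (a.out_w r (by omega))).2 (b1.trans (h ▸ a.lt r (by omega)))
  · have e := a.lt r (i := i) (j := j) (by omega)
    have d : V.In pos u i j := ⟨by omega, (b2 _).resolve_right (not_le.2 (h ▸ e)), h ▸ b1⟩
    rw [vp_lt, a.an_in r d, a.rk_in r d]
    refine Or.inr ?_
    rcases (show j + 1 ≤ V.n i by omega).eq_or_lt with f | f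
    · have g : V.w i (2 * j + 1 + 1) = V.lab i := by rw [lab, ← f]; rfl
      rw [g, an_out (a.out_lab i), rk_out (a.out_lab i)]
      exact ⟨rfl, Or.inl (WithTop.coe_lt_top _)⟩
    · have g : V.In pos (V.w i (2 * j + 1 + 1)) i (j + 1) := a.in_w r f
      rw [a.an_in r g, a.rk_in r g]
      exact ⟨rfl, Or.inl (by exact_mod_cast Nat.lt_succ_self j)⟩

/-- **The virtual frame**: every line is a possible cut, no route is left. -/
theorem fr [Finite Λ] [Nonempty Λ] {O : List Λ} (hO : ∀ i, V.fst i ∈ O) :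
    Fr m (fk hang O) c (V.vh hb) (V.vn nxt) (V.vp pos) Set.univ [] := by
  have bij : Bijective V.un := Finite.surjective_iff_bijective.1 (LeftInverse.surjective a.un_sh)
  refine (LRef.fr (R0 := ∅) (en := id) ⟨a.cyc r, fun s => (r.sur s).imp id fun ⟨L, h⟩ =>
    ⟨V.sh L, by rw [vh, a.un_sh, h]⟩, ⟨fun L => ?_, fun L => Or.inl ?_, fun s => ?_⟩, by simp,
    by simp⟩ [] (by simp) (by simp)).anti fun _ _ => by simp
  · rcases V.off_or L with h | ⟨i, _ | k, hk, rfl⟩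
    · exact Or.inl (vh_off h ▸ r.ends.ht L)
    · exact Or.inr ⟨hO i, rfl⟩
    · exact Or.inl (a.vh_w hk ▸ a.hg i k hk)
  · exact a.vh_vn L ▸ r.ends.hh L
  · simp only [a.vh_vn]
    rw [← r.ends.load s, show {L | V.vh hb L = s} = V.un ⁻¹' {L | hb L = s} from rfl,
      Set.ncard_preimage_of_injective_subset_range bij.1 (by simp [bij.2.range_eq])]

end Ok

end Rts

/-! ### tables on the virtual frame -/

theorem look_mem {α : Type*} {k : ℕ} (d : α) : ∀ l : List (ℕ × α), (∃ p ∈ l, p.1 = k) →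
    ∃ p ∈ l, p.1 = k ∧ look k d l = p.2
  | p :: l, h => by
    by_cases e : p.1 = k
    · exact ⟨p, by simp, e, e ▸ look_self ..⟩
    · obtain ⟨q, h1, h2, h3⟩ := look_mem d l (by simpa [e] using h)
      exact ⟨q, List.mem_cons_of_mem _ h1, h2, (look_ne e ..).trans h3⟩

/-- the cuts in `ob` have a moved tail -/
def Tab.ob (Z : Tab) (ob : List ℕ) : Bool :=
  ob.all fun k => Nat.blt k Z.n && Z.tl.any fun p => Nat.beq p.1 k

theorem Tab.ob_put {Z : Tab} {ob : List ℕ} (h : Z.ob ob = true) (b : Bool) (j : ℕ) (s : Cd) :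
    (Z.put b j s).ob ob = true := by
  cases b
  · exact h
  · simp only [Tab.ob, List.all_eq_true, Bool.and_eq_true, List.any_eq_true] at h ⊢
    exact fun k hk => ⟨(h k hk).1, (h k hk).2.imp fun p a => ⟨List.mem_cons_of_mem _ a.1, a.2⟩⟩

variable {G : Set Λ} {T : List (S × S)} {z : ℕ → Λ} {a : ℕ → S} {Z : Tab} {ob : List ℕ}
  {hang' : Λ → ℕ → S → Prop}

/-- A frame in which the cuts `ob` have no tail yet. -/
structure Fv (m : ℕ) (hang : Λ → ℕ → S → Prop) (c : S) (hb : Λ → S) (nxt : Λ → Λ) (pos : Λ → β)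
    (G : Set Λ) (T : List (S × S)) (O : List Λ) : Prop where
  fr : Fr m (fk hang O) c hb nxt pos G T
  hm : 1 ≤ m

theorem Fv.mono {O : List Λ} (h : Fv m hang c hb nxt pos G T O)
    (e : ∀ L i s, hang L i s → hang' L i s) : Fv m hang' c hb nxt pos G T O :=
  ⟨h.fr.mono fun L i s a => a.imp (e L i s) id, h.hm⟩

theorem Fv.hh {O : List Λ} (h : Fv m hang c hb nxt pos G T O) (u : Λ) : hang u m (hb (nxt u)) :=
  (h.fr.he u).2.resolve_right fun a => by have := h.hm; omega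

theorem Fv.ht {O : List Λ} (h : Fv m hang c hb nxt pos G T O) {u : Λ} (hu : u ∉ O) :
    hang u 0 (hb u) := (h.fr.he u).1.resolve_right fun a => hu a.1

theorem Rts.Ok.fv {V : Rts S Λ ι} (a : V.Ok hang hb pos R0 en) (r : LRef m hang c hb nxt pos R0 en)
    [Finite Λ] [Nonempty Λ] (hm : 1 ≤ m) {O : List Λ} (hO : ∀ i, V.fst i ∈ O) :
    Fv m hang c (V.vh hb) (V.vn nxt) (V.vp pos) Set.univ [] O := ⟨a.fr r hO, hm⟩

theorem Tab.Ok.mono (k : Z.Ok m hang c hb nxt pos G T z a) (e : ∀ L i s, hang L i s → hang' L i s) :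
    Z.Ok m hang' c hb nxt pos G T z a :=
  ⟨k.pl, k.hT, k.tl.imp fun _ => e _ _ _, k.hd.imp fun _ => e _ _ _⟩

theorem Fv.ends {x y : S} {τ η : Λ → S} (h : Fv m hang c hb nxt pos G T (ob.map z))
    (k : Z.Ok m hang c hb nxt pos G T z a) (ok : Z.ob ob = true)
    (e : Ends m (fk hang (ob.map z)) x y τ η)
    (a1 : ∀ b, ∀ j < Z.n, cond b (τ (z j)) (η (z j)) = (cond b (Z.t j) (Z.d j)).val c hb nxt z a) :
    Ends m hang x y τ η := by
  refine ⟨fun L => (e.ht L).elim id fun b => ?_, fun L => (e.hh L).resolve_right fun b => ?_, e.load⟩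
  · obtain ⟨j, hj, rfl⟩ := List.mem_map.1 b.1
    have := List.all_eq_true.1 ok j hj
    simp only [Bool.and_eq_true, Nat.blt_eq, List.any_eq_true, Nat.beq_eq] at this
    obtain ⟨p, h1, rfl, h3⟩ := look_mem (.i j) Z.tl this.2
    rw [show τ (z p.1) = _ from a1 true _ this.1, cond_true, Tab.t, h3]
    exact List.forall_iff_forall_mem.1 k.tl p h1
  · have := h.hm
    omega

variable [Nontrivial Λ]

theorem Fv.tab_p [Finite Λ] (h : Fv m hang c hb nxt pos G T (ob.map z))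
    (k : Z.Ok m hang c hb nxt pos G T z a) (ko : Z.ob ob = true) {x y : Cd}
    (ok : Z.pth x y = true) :
    ∃ τ η, Ends m hang (x.val c hb nxt z a) (y.val c hb nxt z a) τ η ∧
      (∀ i j, i < Z.n → j < Z.n → i ≠ j → z i ≠ z j) ∧
      (∀ b, ∀ j < Z.n, cond b (τ (z j)) (η (z j)) = (cond b (Z.t j) (Z.d j)).val c hb nxt z a) ∧
      ∀ A : Set S, (∀ L, τ L ∈ A ↔ η L ∈ A) →
        (x.val c hb nxt z a ∈ A ↔ y.val c hb nxt z a ∈ A) → ∀ s t, s ∈ A → t ∈ A :=
  let ⟨τ, η, e, i, a1, a2⟩ := h.fr.tab_p (k.mono fun _ _ _ => Or.inl) ok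
  ⟨τ, η, h.ends k ko e a1, i, a1, a2⟩

theorem Fv.tab_c [Finite Λ] (h : Fv m hang c hb nxt pos G T (ob.map z))
    (k : Z.Ok m hang c hb nxt pos G T z a) (ko : Z.ob ob = true) {u : ℕ} {x y : Cd}
    (ok : Z.cut u x y = true) :
    ∃ τ η, Ends m hang (x.val c hb nxt z a) (y.val c hb nxt z a) τ η ∧ u < Z.n ∧
      (∀ i j, i < Z.n → j < Z.n → i ≠ j → z i ≠ z j) ∧
      (∀ b, ∀ j < Z.n, cond b (τ (z j)) (η (z j)) = (cond b (Z.t j) (Z.d j)).val c hb nxt z a) ∧
      Cn (z u) (x.val c hb nxt z a) (y.val c hb nxt z a) τ η :=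
  let ⟨τ, η, e, hu, i, a1, a2⟩ := h.fr.tab_c (k.mono fun _ _ _ => Or.inl) ok
  ⟨τ, η, h.ends k ko e a1, hu, i, a1, a2⟩

theorem Fv.pth [Finite Λ] (h : Fv m hang c hb nxt pos G T (ob.map z))
    (k : Z.Ok m hang c hb nxt pos G T z a) (x y : Cd) (ok : (Z.ob ob && Z.pth x y) = true) :
    Pth m hang (x.val c hb nxt z a) (y.val c hb nxt z a) :=
  let ⟨τ, η, e, _, _, a2⟩ := h.tab_p k (Bool.and_eq_true_iff.1 ok).1 (Bool.and_eq_true_iff.1 ok).2
  ⟨τ, η, e, a2⟩

theorem Fv.cut [Finite Λ] (h : Fv m hang c hb nxt pos G T (ob.map z))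
    (k : Z.Ok m hang c hb nxt pos G T z a) (u : ℕ) (x y : Cd)
    (ok : (Z.ob ob && Z.cut u x y) = true) :
    Cut m hang (z u) (x.val c hb nxt z a) (y.val c hb nxt z a) :=
  let ⟨τ, η, e, _, _, _, a2⟩ :=
    h.tab_c k (Bool.and_eq_true_iff.1 ok).1 (Bool.and_eq_true_iff.1 ok).2
  ⟨τ, η, e, a2⟩

/-- as `Tab.ob`; the cut `j` of a pointer that goes up is not in `ob` -/
def Tab.obp (Z : Tab) (ob : List ℕ) (b : Bool) (j : ℕ) : Bool :=
  Z.ob ob && (!b || !ob.any (Nat.beq j))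

omit [Nontrivial Λ] in
theorem Fv.he (h : Fv m hang c hb nxt pos G T (ob.map z)) {b : Bool} {j : ℕ}
    (ko : Z.obp ob b j = true) (hj : j < Z.n)
    (inj : ∀ i j, i < Z.n → j < Z.n → i ≠ j → z i ≠ z j) :
    hang (z j) (cond b 0 m) (cond b (hb (z j)) (hb (nxt (z j)))) := by
  cases b
  · exact h.hh _
  simp only [Tab.obp, Tab.ob, Bool.and_eq_true, List.all_eq_true, Nat.blt_eq, Bool.not_true,
    Bool.false_or, Bool.not_eq_true', List.any_eq_false, Nat.beq_eq] at ko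
  refine h.ht fun e => ?_
  obtain ⟨i, hi, e⟩ := List.mem_map.1 e
  exact inj i j (ko.1 i hi).1 hj (fun d => ko.2 i hi d.symm) e

variable [Fintype S] [Fintype Λ] [DecidableEq S] [DecidableEq Λ] [Nontrivial S]

/-- **A pointer on the cut `j` and a hub `y`.** -/
theorem Fv.ptr_hub (h : Fv m hang c hb nxt pos G T (ob.map z))
    (k : Z.Ok m hang c hb nxt pos G T z a) (b : Bool) (j : ℕ) (s y : Cd)
    (ok : (Z.obp ob b j && Z.ptrHub b j s y) = true) {v : S ⊕ Λ × Fin (m + 1)}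
    (p : Ptr m hang hb nxt b v (z j) (s.val c hb nxt z a)) (ne : v ≠ inl (y.val c hb nxt z a)) :
    (HL m hang ⊔ edge v (inl (y.val c hb nxt z a))).IsHamiltonian := by
  simp only [Tab.ptrHub, Bool.and_eq_true, Nat.blt_eq] at ok
  obtain ⟨τ, η, e, i, a1, a2⟩ := (h.mono fun _ _ _ => Or.inl).tab_p (k.put b j s)
    (Tab.ob_put (Bool.and_eq_true_iff.1 ok.1).1 ..) ok.2.2
  rw [Cd.val_tok] at e a2
  simp only [Tab.put_n] at i a1
  exact ptr_hub_raw h.hm p ne (h.he ok.1 ok.2.1 i) e (by rw [a1 b j ok.2.1, Tab.put_self]) a2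

/-- **Two pointers on different cuts.** -/
theorem Fv.ptr_ptr (h : Fv m hang c hb nxt pos G T (ob.map z))
    (k : Z.Ok m hang c hb nxt pos G T z a) (b1 : Bool) (j1 : ℕ) (s1 : Cd) (b2 : Bool) (j2 : ℕ)
    (s2 : Cd) (ok : (Z.obp ob b1 j1 && (Z.obp ob b2 j2 && Z.ptrPtr b1 j1 s1 b2 j2 s2)) = true)
    {v1 v2 : S ⊕ Λ × Fin (m + 1)} (p1 : Ptr m hang hb nxt b1 v1 (z j1) (s1.val c hb nxt z a))
    (p2 : Ptr m hang hb nxt b2 v2 (z j2) (s2.val c hb nxt z a)) (ne : v1 ≠ v2) :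
    (HL m hang ⊔ edge v1 v2).IsHamiltonian := by
  simp only [Tab.ptrPtr, Bool.and_eq_true, Nat.blt_eq, Bool.not_eq_true'] at ok
  obtain ⟨o1, o2, k1, k2, k3, ok⟩ := ok
  have k3 := Nat.ne_of_beq_eq_false k3
  obtain ⟨τ, η, e, i, a1, a2⟩ := (h.mono fun _ _ _ a => Or.inl (Or.inl a)).tab_p
    ((k.put b2 j2 s2).put b1 j1 s1)
    (Tab.ob_put (Tab.ob_put (Bool.and_eq_true_iff.1 o1).1 ..) ..) ok
  rw [Cd.val_tok, Cd.val_tok] at e a2
  simp only [Tab.put_n] at i a1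
  exact ptr_ptr_raw h.hm p1 p2 ne (i _ _ k1 k2 k3) (h.he o1 k1 i) (h.he o2 k2 i) e
    (by rw [a1 b1 j1 k1, Tab.put_self])
    (by rw [a1 b2 j2 k2, Tab.put_ne fun e => absurd e k3, Tab.put_self]) a2

/-- **Two pointers on the cut `j` that point to each other.** -/
theorem Fv.ptr_in (h : Fv m hang c hb nxt pos G T (ob.map z))
    (k : Z.Ok m hang c hb nxt pos G T z a) (j : ℕ) (s1 s2 : Cd)
    (ok : (Z.obp ob true j && Z.ptrIn j s1 s2) = true)
    {v1 v2 : S ⊕ Λ × Fin (m + 1)} (p1 : Ptr m hang hb nxt true v1 (z j) (s1.val c hb nxt z a))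
    (p2 : Ptr m hang hb nxt false v2 (z j) (s2.val c hb nxt z a)) (ne : v1 ≠ v2)
    (far : vpos 0 v1 + 2 ≤ vpos (m + 2) v2) : (HL m hang ⊔ edge v1 v2).IsHamiltonian := by
  simp only [Tab.ptrIn, Bool.and_eq_true, Nat.blt_eq] at ok
  obtain ⟨τ, η, e, i, a1, a2⟩ := (h.mono fun _ _ _ a => Or.inl (Or.inl a)).tab_p
    ((k.put false j s2).put true j s1)
    (Tab.ob_put (Tab.ob_put (Bool.and_eq_true_iff.1 ok.1).1 ..) ..) ok.2.2
  simp only [Tab.put_n] at i a1
  exact ptr_in_raw h.hm p1 p2 ne far ⟨h.he ok.1 ok.2.1 i, h.hh _⟩ e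
    ((a1 true j ok.2.1).trans (by rw [Tab.put_self]))
    ((a1 false j ok.2.1).trans (by rw [Tab.put_ne (by simp), Tab.put_self])) a2

/-- **A point and a higher vertex of the cut `j`, both pointing up.** -/
theorem Fv.ptr_upup (h : Fv m hang c hb nxt pos G T (ob.map z))
    (k : Z.Ok m hang c hb nxt pos G T z a) (j : ℕ) (s1 s2 : Cd)
    (ok : (Z.ob ob && Z.upup j s1 s2) = true) {v1 : S ⊕ Λ × Fin (m + 1)}
    {k2 : Fin (m + 1)} (p1 : Ptr m hang hb nxt true v1 (z j) (s1.val c hb nxt z a))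
    (hk : (k2 : ℕ) < m) (p2 : hang (z j) (k2 + 1) (s2.val c hb nxt z a))
    (far : vpos 0 v1 + 1 ≤ k2) : (HL m hang ⊔ edge v1 (inr (z j, k2))).IsHamiltonian := by
  simp only [Tab.upup, Bool.and_eq_true, Nat.beq_eq] at ok
  obtain ⟨τ, η, e, hu, -, a1, a2⟩ := h.tab_c k ok.1 ok.2.2
  exact ptr_upup_raw p1 hk p2 far e ((a1 true j hu).trans
    (congrArg (Cd.val c hb nxt z a) (Cd.num_inj ok.2.1))) a2

/-- **A vertex and a higher point of the cut `j`, both pointing down.** -/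
theorem Fv.ptr_dndn (h : Fv m hang c hb nxt pos G T (ob.map z))
    (k : Z.Ok m hang c hb nxt pos G T z a) (j : ℕ) (s1 s2 : Cd)
    (ok : (Z.ob ob && Z.dndn j s1 s2) = true) {v2 : S ⊕ Λ × Fin (m + 1)}
    {k1 : Fin (m + 1)} (hk : 0 < (k1 : ℕ)) (p1 : hang (z j) (k1 - 1) (s1.val c hb nxt z a))
    (p2 : Ptr m hang hb nxt false v2 (z j) (s2.val c hb nxt z a))
    (far : (k1 : ℕ) + 3 ≤ vpos (m + 2) v2) :
    (HL m hang ⊔ edge (inr (z j, k1)) v2).IsHamiltonian := by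
  simp only [Tab.dndn, Bool.and_eq_true, Nat.beq_eq] at ok
  obtain ⟨τ, η, e, hu, -, a1, a2⟩ := h.tab_c k ok.1 ok.2.2
  exact ptr_dndn_raw hk p1 p2 far e ((a1 false j hu).trans
    (congrArg (Cd.val c hb nxt z a) (Cd.num_inj ok.2.1))) a2

/-- **The free tail (`b = true`) or head of the cut `j` and a hub `s`**; filler gap on `u`. -/
theorem Fv.free_hub (h : Fv m hang c hb nxt pos G T (ob.map z))
    (k : Z.Ok m hang c hb nxt pos G T z a) (b : Bool) (j : ℕ) (s : Cd) (u : ℕ) (x y : Cd)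
    (ok : ((Z.put b j s).ob ob && Z.freeHub b j s u x y) = true) {i : ℕ}
    (hi : i < m) (hx : hang (z u) i (x.val c hb nxt z a))
    (hy : hang (z u) (i + 1) (y.val c hb nxt z a)) :
    (HL m hang ⊔ edge (inl (s.val c hb nxt z a)) (inr (endv m b (z j)))).IsHamiltonian := by
  refine serve_hub hi (Or.inl hx) (Or.inl hy) (((h.mono fun _ _ _ => Or.inl).cut (k.put b j s) u x y
    ok).mono fun L j w a => a.imp id ?_)
  cases b <;> exact id

/-- **A free end of the cut `j1` and a pointer on the cut `j2`**; filler gap on `u`. -/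
theorem Fv.free_ptr (h : Fv m hang c hb nxt pos G T (ob.map z))
    (k : Z.Ok m hang c hb nxt pos G T z a)
    (b1 : Bool) (j1 : ℕ) (b2 : Bool) (j2 : ℕ) (s2 : Cd) (u : ℕ) (x y : Cd)
    (ok : (Z.obp ob b2 j2 && Z.freePtr b1 j1 b2 j2 s2 u x y) = true) {v2 : S ⊕ Λ × Fin (m + 1)}
    (p2 : Ptr m hang hb nxt b2 v2 (z j2) (s2.val c hb nxt z a))
    (ne : inr (endv m b1 (z j1)) ≠ v2) (na : ¬(HL m hang).Adj (inr (endv m b1 (z j1))) v2)
    {i : ℕ} (hi : i < m) (hx : hang (z u) i (x.val c hb nxt z a))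
    (hy : hang (z u) (i + 1) (y.val c hb nxt z a)) :
    (HL m hang ⊔ edge (inr (endv m b1 (z j1))) v2).IsHamiltonian := by
  simp only [Tab.freePtr, Bool.and_eq_true, Nat.blt_eq, Bool.not_eq_true', Bool.or_eq_true,
    bne_iff_ne] at ok
  obtain ⟨o2, k1, k2, k3, k4, ok⟩ := ok
  have k4 : j1 = j2 → b1 ≠ b2 := fun e => k4.resolve_left fun d => Nat.ne_of_beq_eq_false d e
  obtain ⟨τ, η, e, hu, inj, a1, a2⟩ := (h.mono fun _ _ _ a => Or.inl (Or.inl a)).tab_c
    ((k.put b2 j2 s2).put b1 j1 (.tok b2 j2))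
    (Tab.ob_put (Tab.ob_put (Bool.and_eq_true_iff.1 o2).1 ..) ..) ok
  simp only [Tab.put_n] at inj a1 hu
  exact free_ptr_raw p2 ne na (fun e => k4 (by_contra fun d => inj _ _ k1 k2 d e))
    (h.he o2 k2 inj) hi hx hy (Cd.val_tok b2 j2) (inj _ _ hu k2 (Nat.ne_of_beq_eq_false k3)) e
    (by rw [a1 b1 j1 k1, Tab.put_self]) (by rw [a1 b2 j2 k2, Tab.put_ne k4, Tab.put_self]) a2

omit [Fintype S] [DecidableEq S] [DecidableEq Λ] [Nontrivial S] in
theorem Fv.tabO (h : Fv m hang c hb nxt pos G T (ob.map z)) {p q : Λ × Fin (m + 1)}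
    (k : Z.OkO m hang p q c hb nxt pos G T z a) (ko : Z.ob ob = true) {x1 y1 x2 y2 : Cd}
    {skip : List ℕ} {E : List (Cd × Cd)}
    (ok : Z.chk [x1, y1, x2, y2] [.c, .c, .v, .v] skip E [.v] = true) :
    Z.Cf m hang p q z (Cd.valO c hb nxt z a) x1 y1 x2 y2 skip E := by
  have up : ∀ L i s, hangO hang p q L i s → hangO (fk hang (ob.map z)) p q L i s := by
    rintro L i (_ | s)
    exacts [id, Or.inl]
  have dn : ∀ L i s, hangO (fk hang (ob.map z)) p q L i s →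
      hangO hang p q L i s ∨ (L ∈ ob.map z ∧ i = 0) := by
    rintro L i (_ | s)
    exacts [Or.inl, id]
  obtain ⟨τ, η, ht, hh, e, sk, i, a1, a2⟩ := h.fr.tabO (p := p) (q := q)
    ⟨k.pl, k.hT, k.tl.imp fun _ => up _ _ _, k.hd.imp fun _ => up _ _ _⟩ ok
  refine ⟨τ, η, fun L => (dn _ _ _ (ht L)).elim id fun b => ?_,
    fun L => (dn _ _ _ (hh L)).resolve_right fun b => ?_, e, sk, i, a1, a2⟩
  · obtain ⟨j, hj, rfl⟩ := List.mem_map.1 b.1
    have := List.all_eq_true.1 ko j hj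
    simp only [Bool.and_eq_true, Nat.blt_eq, List.any_eq_true, Nat.beq_eq] at this
    obtain ⟨e, h1, rfl, h3⟩ := look_mem (.i j) Z.tl this.2
    rw [(a1 _ this.1).1, Tab.t, h3]
    exact List.forall_iff_forall_mem.1 k.tl e h1
  · have := h.hm
    omega

/-- **Two vertices, gaps on the two cuts `u1`, `u2`.** -/
theorem Fv.pp_diff (h : Fv m hang c hb nxt pos G T (ob.map z)) {p q : Λ × Fin (m + 1)}
    (k : Z.OkO m hang p q c hb nxt pos G T z a) (u1 : ℕ) (x1 y1 : Cd) (u2 : ℕ) (x2 y2 : Cd)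
    (ok : (Z.ob ob && Z.ppDiff u1 x1 y1 u2 x2 y2) = true) (hpq : p ≠ q)
    (hn : ¬(HL m hang).Adj (inr p) (inr q)) {i1 i2 : ℕ} (l1 : i1 < m) (l2 : i2 < m)
    (hx1 : hangO hang p q (z u1) i1 (x1.valO c hb nxt z a))
    (hy1 : hangO hang p q (z u1) (i1 + 1) (y1.valO c hb nxt z a))
    (hx2 : hangO hang p q (z u2) i2 (x2.valO c hb nxt z a))
    (hy2 : hangO hang p q (z u2) (i2 + 1) (y2.valO c hb nxt z a)) :
    (HL m hang ⊔ edge (inr p) (inr q)).IsHamiltonian := by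
  simp only [Tab.ppDiff, Bool.and_eq_true, Bool.not_eq_true'] at ok
  exact (h.tabO k ok.1 ok.2.2).diff (Nat.ne_of_beq_eq_false ok.2.1) hpq hn l1 l2 hx1 hy1 hx2 hy2

/-- **Two vertices, two gaps `i1 < i2` on the cut `u`.** -/
theorem Fv.pp_same (h : Fv m hang c hb nxt pos G T (ob.map z)) {p q : Λ × Fin (m + 1)}
    (k : Z.OkO m hang p q c hb nxt pos G T z a) (u : ℕ) (x1 y1 x2 y2 : Cd)
    (ok : (Z.ob ob && Z.ppSame u x1 y1 x2 y2) = true) (hpq : p ≠ q)
    (hn : ¬(HL m hang).Adj (inr p) (inr q)) {i1 i2 : ℕ} (l1 : i1 < i2) (l2 : i2 < m)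
    (hx1 : hangO hang p q (z u) i1 (x1.valO c hb nxt z a))
    (hy1 : hangO hang p q (z u) (i1 + 1) (y1.valO c hb nxt z a))
    (hx2 : hangO hang p q (z u) i2 (x2.valO c hb nxt z a))
    (hy2 : hangO hang p q (z u) (i2 + 1) (y2.valO c hb nxt z a)) :
    (HL m hang ⊔ edge (inr p) (inr q)).IsHamiltonian :=
  ((h.tabO k (Bool.and_eq_true_iff.1 ok).1 (Bool.and_eq_true_iff.1 ok).2).same
    hpq hn l1 l2 hx1 hy1 hx2 hy2)

/-- Cuts `0`, `1` carry a pointer up and a pointer down, `2`, `3` are the cuts of the two routes.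
The points are not between the two ends of the routes and come in the cyclic order up, down. -/
example {V : Rts S Λ Bool} (k : V.Ok hang hb pos R0 en) (r : LRef m hang c hb nxt pos R0 en)
    (hm : 1 ≤ m) (hb0 : ∀ i, V.b i = c) {u v : Λ} {v1 v2 : S ⊕ Λ × Fin (m + 1)}
    (p1 : Ptr m hang hb nxt true v1 u (hb (V.lab false)))
    (p2 : Ptr m hang hb nxt false v2 v (hb (V.lab true))) (ne : v1 ≠ v2) (hu : V.Off u)
    (o1 : V.vp pos u < V.vp pos v) (o2 : pos (V.an pos v) < pos (V.lab false))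
    (o3 : pos (V.lab false) < pos (V.lab true)) : (HL m hang ⊔ edge v1 v2).IsHamiltonian :=
  Fv.ptr_ptr (Z := ⟨4, [(2, .c), (3, .c)], [], [], [.lt 0 1, .lt 1 2, .lt 2 3], [], []⟩)
    (z := vec u [v, V.fst false, V.fst true]) (a := fun _ => c) (ob := [2, 3])
    (k.fv r hm (by simp [vec]))
    ⟨⟨⟨trivial, trivial, trivial, trivial⟩,
      ⟨o1, (k.lt_fst r _ _).2 o2, (k.fst_lt_fst r _ _).2 o3⟩, trivial, trivial⟩, rfl,
      ⟨hb0 false ▸ k.h0 false, hb0 true ▸ k.h0 true⟩, trivial⟩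
    true 0 (.i 2) false 1 (.i 3) (by decide +kernel)
    (k.ptr p1 (fun _ _ => Rts.vh_off hu) (k.vh_fst false))
    (k.ptr p2 (fun h => nomatch h) (k.vh_fst true)) ne

end Pool.Agent.P.MP_439f1f_co
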