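import Pool.Agent.P.MP_439f1f_co.G9

/-!
Forests with long stems, and the skeleton of an arbitrary system of lines.
-/

set_option autoImplicit false

namespace Pool.Agent.P.MP_439f1f_co

open Sum

/-- The forest of the words, with the description of its nodes. -/
theorem exists_forest_ae {X C T : Type} [Finite C] {w p D e : ℕ} (cl : X → C) (tr : C → T)
    (wd : X → Fin w → Fin p) (inj : ∀ x y, cl x = cl y → wd x = wd y → x = y)
    (hD : 2 * w + 4 + e ≤ D) :
    ∃ N : Type, ∃ F : Forest X C T N cl tr D e ((Nat.card C + 1) * (p + 1)),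
      ∀ x y l, 1 ≤ l → l ≤ D → (F.anc x l = F.anc y l ↔ tr (cl x) = tr (cl y) ∧
        (3 ≤ l → cl x = cl y) ∧ ∀ i : Fin w, 2 * (i : ℕ) + 5 ≤ l → wd x i = wd y i) := by
  classical
  let cp : ℕ → ℕ := fun l => max 1 (min l D)
  have c0 : ∀ l, 1 ≤ cp l ∧ cp l ≤ D := fun l => by simp only [cp]; omega
  have c1 : ∀ l, 1 ≤ l → l ≤ D → cp l = l := fun l _ _ => by simp only [cp]; omega
  let N := {z // ∃ l x, 1 ≤ l ∧ l ≤ D ∧ z = nkey cl tr wd l x}
  let anc : X → ℕ → N := fun x l => ⟨nkey cl tr wd (cp l) x, _, x, (c0 l).1, (c0 l).2, rfl⟩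
  have ae : ∀ x y l, 1 ≤ l → l ≤ D → (anc x l = anc y l ↔ tr (cl x) = tr (cl y) ∧
      (3 ≤ l → cl x = cl y) ∧ ∀ i : Fin w, 2 * (i : ℕ) + 5 ≤ l → wd x i = wd y i) := by
    intro x y l h1 h2
    rw [Subtype.ext_iff]
    simp only [anc, c1 l h1 h2, nkey_eq]
  have su : ∀ n : N, 1 ≤ n.1.1 ∧ n.1.1 ≤ D ∧ ∃ x, anc x n.1.1 = n := by
    rintro ⟨_, l, x, h1, h2, rfl⟩
    exact ⟨h1, h2, x, Subtype.ext (congrArg (nkey cl tr wd · x) (c1 l h1 h2))⟩
  choose s1 s2 g hg using su
  have pa : ∀ x l, 1 ≤ l → l < D → anc (g (anc x (l + 1))) ((anc x (l + 1)).1.1 - 1) = anc x l := by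
    intro x l h1 h2
    have e : (anc x (l + 1)).1.1 = l + 1 := c1 _ (by omega) h2
    have h3 := hg (anc x (l + 1))
    rw [e] at h3 ⊢
    obtain ⟨a1, a2, a3⟩ := (ae _ _ _ (by omega) h2).1 h3
    exact (ae _ _ l h1 h2.le).2 ⟨a1, fun h => a2 (by omega), fun i h => a3 i (by omega)⟩
  refine ⟨N, ⟨anc, fun n => n.1.1, fun n => anc (g n) (n.1.1 - 1), fun x l => c1 l,
    fun n => ⟨s1 n, s2 n, g n, hg n⟩, pa, fun x y l h1 h2 => ?_, fun x y l h1 h2 => ?_,
    fun x y l h1 h2 h => ?_, fun x y l h1 h2 h => ?_, fun n => ?_⟩, ae⟩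
  · rw [ae x y l h1 (by omega)]
    exact ⟨fun h => h.1, fun h => ⟨h, fun _ => by omega, fun _ _ => by omega⟩⟩
  · rw [ae x y l (by omega) (by omega)]
    exact ⟨fun h => h.2.1 h1, fun h => ⟨congrArg tr h, fun _ => h, fun _ _ => by omega⟩⟩
  · obtain ⟨j, rfl⟩ := h1
    obtain ⟨a1, a2, a3⟩ := (ae _ _ _ (by omega) h2.le).1 h
    exact (ae _ _ _ (by omega) h2).2 ⟨a1, fun h => a2 (by omega), fun i h => a3 i (by omega)⟩
  · obtain ⟨-, a2, a3⟩ := (ae _ _ _ (by omega) h2).1 h
    exact inj x y (a2 (by omega)) (funext fun i => a3 i (by have := i.2; omega))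
  · have e : (Nat.card C + 1) * (p + 1) = (Set.univ : Set (Option C × Option (Fin p))).ncard := by
      simp [Set.ncard_univ, Finite.card_option]
    rw [e]
    refine Set.ncard_le_ncard_of_injOn
      (fun n' : N => (some (cl (g n')), (nkey cl tr wd n'.1.1 (g n')).2.2.2 ((n.1.1 - 4) / 2)))
      (fun _ _ => Set.mem_univ _) fun a ha b hb h => ?_
    have lv : ∀ a : N, 2 ≤ a.1.1 → anc (g a) (a.1.1 - 1) = n → a.1.1 = n.1.1 + 1 := by
      intro a h1 h2
      have : cp (a.1.1 - 1) = n.1.1 := congrArg (fun z : N => z.1.1) h2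
      have := c1 (a.1.1 - 1) (by omega) (by have := s2 a; omega)
      omega
    have la := lv a ha.1 ha.2
    have lb := lv b hb.1 hb.2
    have h1 := ha.2.trans hb.2.symm
    have h2 := s1 n
    have h3 := s2 a
    simp only [la, lb, Nat.add_sub_cancel, Prod.mk.injEq, Option.some.injEq, nkey] at h1 h
    obtain ⟨a1, -, a3⟩ := (ae _ _ _ h2 (s2 n)).1 h1
    rw [← hg a, ← hg b, la, lb, ae _ _ _ (by omega) (by omega)]
    refine ⟨a1, fun _ => h.1, fun i hi => ?_⟩
    by_cases hl : 2 * (i : ℕ) + 5 ≤ n.1.1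
    · exact a3 i hl
    · have e : (n.1.1 - 4) / 2 = i := by omega
      have := h.2
      rw [e, dif_pos ⟨i.2, hi⟩, dif_pos ⟨i.2, hi⟩] at this
      exact Option.some.inj this

/-- **Forests with stems**: every class has its own tree, the levels up to `2 * s + 4` form an
unbranched stem. -/
theorem exists_forest_stem (C : Type) [Finite C] {p q w s D e : ℕ} (hp : 0 < p)
    (h : q * q ≤ p ^ w) (hD : 2 * (s + w) + 4 + e ≤ D) : ∃ N : Type,
      ∃ F : Forest (C × Fin q × Fin q) C C N Prod.fst id D e ((Nat.card C + 1) * (p + 1)),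
        ∀ x y l, 1 ≤ l → l ≤ 2 * s + 4 → (F.anc x l = F.anc y l ↔ x.1 = y.1) := by
  obtain ⟨wd⟩ : Nonempty (Fin q × Fin q ↪ (Fin w → Fin p)) :=
    Function.Embedding.nonempty_of_card_le (by simpa using h)
  obtain ⟨N, F, H⟩ := exists_forest_ae (X := C × Fin q × Fin q) Prod.fst id
    (fun x => Fin.append (fun _ : Fin s => (⟨0, hp⟩ : Fin p)) (wd x.2))
    (fun x y h1 h2 => Prod.ext h1 (wd.injective (funext fun i => by
      simpa using congrFun h2 (Fin.natAdd s i)))) hD
  refine ⟨N, F, fun x y l h1 h2 => (H x y l h1 (by omega)).trans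
    ⟨fun h => h.1, fun h => ⟨h, fun _ => h, fun i hi => ?_⟩⟩⟩
  induction i using Fin.addCases with
  | left i => simp
  | right i => simp at hi; omega

namespace Forest

variable {X C T N : Type} {cl : X → C} {tr : C → T} {D e b : ℕ} (F : Forest X C T N cl tr D e b)

/-- the tree of a node -/
noncomputable def tree (n : N) : T := tr (cl (F.surj n).2.2.choose)

theorem tree_anc (x : X) {l : ℕ} (h1 : 1 ≤ l) (h2 : l ≤ D) : F.tree (F.anc x l) = tr (cl x) := by
  have h3 := (F.surj (F.anc x l)).2.2.choose_spec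
  unfold tree
  generalize (F.surj (F.anc x l)).2.2.choose = y at h3
  rw [F.lev_anc x l h1 h2] at h3
  exact (F.top y x 1 le_rfl one_le_two).1 (F.up h3 le_rfl h1 h2)

theorem tree_par {n : N} (h : 2 ≤ F.lev n) : F.tree (F.par n) = F.tree n := by
  obtain ⟨-, h1, x, h2⟩ := F.surj n
  obtain ⟨l, hl⟩ : ∃ l, F.lev n = l + 1 := ⟨F.lev n - 1, by omega⟩
  rw [hl] at h2
  rw [← h2, F.par_anc x l (by omega) (by omega), F.tree_anc x (by omega) (by omega),
    F.tree_anc x (by omega) (by omega)]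

/-- on the stems a node is determined by its tree and its level -/
theorem stem_ext {s : ℕ}
    (H : ∀ x y l, 1 ≤ l → l ≤ s → (F.anc x l = F.anc y l ↔ tr (cl x) = tr (cl y))) {n n' : N}
    (h : F.lev n ≤ s) (h1 : F.lev n = F.lev n') (h2 : F.tree n = F.tree n') : n = n' := by
  obtain ⟨a1, a2, x, a3⟩ := F.surj n
  obtain ⟨b1, b2, y, b3⟩ := F.surj n'
  rw [← a3, ← b3, F.tree_anc x a1 a2, F.tree_anc y b1 b2] at h2
  rw [← a3, ← b3, ← h1]
  exact (H x y _ a1 h).2 h2

variable {Z H : Type} {gate : N → Z} {σ : Z → Z} {own : Z → Option N} {m k : ℕ}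

/-- The skeleton of the lines `H`: the tail of the line `L` is at the hub `L` or at `tB L`, its
head is at the hub `dA L` or at `hB (dA L)`. -/
def hang1 (dA : H → H) (tB hB : H → Option H) (m : ℕ) (L : H) (i : ℕ) (s : Option H) : Prop :=
  (i = 0 ∧ (s = some L ∨ s = tB L)) ∨ (i = m ∧ (s = some (dA L) ∨ s = hB (dA L)))

/-- **The skeleton of a system of lines.**  The hubs are nodes of the forest or lie on the long
cycles of `σ`; a second option of a tail is the parent or the next hub on the cycle, a second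
option of a head is the gate of the node or the next hub on the cycle; `ts` tells whether the
edge of the cycle is a tail or a head. -/
theorem skel1 (hm : m ≠ 0) (κ : H → N ⊕ Z) (kinj : Function.Injective κ)
    (sinj : Function.Injective σ) (long : ∀ z j, 0 < j → j ≤ k → σ^[j] z ≠ z)
    (own_s : ∀ z, own (σ z) = own z) (own_g : ∀ n, own (gate n) = some n) {dA : H → H}
    (dinj : Function.Injective dA) {tB hB : H → Option H} (ts : Z → Prop)
    (ht : ∀ L, tB L = some L ∨ (∃ n, κ L = inl n ∧ (tB L).map κ = F.eb gate σ (inl n)) ∨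
      ∃ z, ts z ∧ κ L = inr z ∧ (tB L).map κ = some (inr (σ z)))
    (hh : ∀ L, hB L = some L ∨ (∃ n, κ L = inl n ∧ (hB L).map κ = some (inr (gate n))) ∨
      ∃ z, ¬ts z ∧ κ L = inr z ∧ (hB L).map κ = some (inr (σ z))) :
    F.Skel m k (hang1 dA tB hB m) (Option.map κ) gate σ own
      (fun L i => if i = 0 then (κ L).map id inr else inr (κ (dA L)))
      fun L i => if i = 0 then some L else some (dA L) := by
  have dbl : ∀ {L i s t}, hang1 dA tB hB m L i s → hang1 dA tB hB m L i t → s ≠ t →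
      (i = 0 ∧ tB L ≠ some L ∧ ((s = some L ∧ t = tB L) ∨ (t = some L ∧ s = tB L))) ∨
      (i = m ∧ hB (dA L) ≠ some (dA L) ∧ ((s = some (dA L) ∧ t = hB (dA L)) ∨
        (t = some (dA L) ∧ s = hB (dA L)))) := by
    intro L i s t hs ht h
    unfold hang1 at hs ht
    grind
  refine ⟨Option.map_injective kinj, sinj, long, own_s, own_g,
    fun _ _ _ h => h.imp And.left And.left, fun L i s h => ?_, fun L L' i h => ?_,
    fun L i s t hs ht' h => ?_, fun L i s t L' i' s' t' a1 a2 a3 b1 b2 b3 h => ?_⟩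
  · rcases h with ⟨rfl, -⟩ | ⟨rfl, -⟩
    · exact Or.inl ⟨rfl, Or.inl rfl⟩
    · exact Or.inr ⟨rfl, Or.inl (if_neg hm)⟩
  · split_ifs at h
    exacts [Option.some.inj h, dinj (Option.some.inj h)]
  · rcases dbl hs ht' h with ⟨rfl, h1, h2⟩ | ⟨rfl, h1, h2⟩
    · rw [if_pos rfl]
      have : (some L).map κ = ea ((κ L).map id inr) ∧
          (tB L).map κ = F.eb gate σ ((κ L).map id inr) := by
        obtain a | ⟨n, a, c⟩ | ⟨z, -, a, c⟩ := ht L
        exacts [absurd a h1, by rw [c, Option.map_some, a]; exact ⟨rfl, rfl⟩,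
          by rw [c, Option.map_some, a]; exact ⟨rfl, rfl⟩]
      rcases h2 with ⟨rfl, rfl⟩ | ⟨rfl, rfl⟩
      exacts [Or.inl this, Or.inr this]
    · rw [if_neg hm]
      have : (some (dA L)).map κ = ea (inr (κ (dA L))) ∧
          (hB (dA L)).map κ = F.eb gate σ (inr (κ (dA L))) := by
        obtain a | ⟨n, a, c⟩ | ⟨z, -, a, c⟩ := hh (dA L)
        exacts [absurd a h1, by rw [c, Option.map_some, a]; exact ⟨rfl, rfl⟩,
          by rw [c, Option.map_some, a]; exact ⟨rfl, rfl⟩]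
      rcases h2 with ⟨rfl, rfl⟩ | ⟨rfl, rfl⟩
      exacts [Or.inl this, Or.inr this]
  · have ne : ∀ A B, tB A ≠ some A → hB B ≠ some B → (κ A).map id inr ≠ inr (κ B) := by
      intro A B h1 h2 e
      obtain a | ⟨n, a, -⟩ | ⟨z, c, a, -⟩ := ht A
      · exact h1 a
      · simp [a] at e
      obtain a' | ⟨n, a', -⟩ | ⟨z', c', a', -⟩ := hh B
      · exact h2 a'
      · simp [a, a'] at e
      · simp only [a, a', map_inr, inr.injEq] at e
        exact c' (e ▸ c)
    rcases dbl a1 a2 a3 with ⟨rfl, h1, -⟩ | ⟨rfl, h1, -⟩ <;>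
      rcases dbl b1 b2 b3 with ⟨e, h2, -⟩ | ⟨e, h2, -⟩ <;>
      simp only [e, hm, if_true, if_false] at h
    · exact ⟨kinj (Sum.map_injective.2 ⟨Function.injective_id, inr_injective⟩ h), e.symm⟩
    · exact absurd h (ne _ _ h1 h2)
    · exact absurd h.symm (ne _ _ h2 h1)
    · exact ⟨dinj (kinj (inr.inj h)), e.symm⟩

end Forest

end Pool.Agent.P.MP_439f1f_co
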