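import Pool.Agent.P.MP_439f1f_co.B12
import Pool.Agent.P.MP_439f1f_co.G11

/-!
Depth first orders of a forest.
-/

set_option autoImplicit false

namespace Pool.Agent.P.MP_439f1f_co

open Sum Function

/-- a number with a sign -/
def sg (b : Bool) (a : ℕ) : ℤ := if b then a else -a

@[simp] theorem sg_true (a : ℕ) : sg true a = a := rfl
@[simp] theorem sg_false (a : ℕ) : sg false a = -a := rfl

theorem sg_inj {b b' : Bool} {a a' : ℕ} (h : sg b a = sg b' a') : a = a' := by
  cases b <;> cases b' <;> simp only [sg_true, sg_false] at h <;> omega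

theorem sg_one (b : Bool) : sg b 1 ≠ 0 := by cases b <;> simp

theorem sg_lt {b : Bool} {a a' : ℕ} : sg b a < sg b a' ↔ if b then a < a' else a' < a := by
  cases b <;> simp

namespace Forest

variable {X C T N : Type} {cl : X → C} {tr : C → T} {D e b : ℕ} (F : Forest X C T N cl tr D e b)

/-- a label below the node -/
noncomputable def lb (n : N) : X := (F.surj n).2.2.choose

theorem anc_lb (n : N) : F.anc (F.lb n) (F.lev n) = n := (F.surj n).2.2.choose_spec

theorem lb_anc (hD : 1 ≤ D) (x : X) : F.lb (F.anc x D) = x := by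
  have h := F.anc_lb (F.anc x D)
  rw [F.lev_anc x D hD le_rfl] at h
  exact F.priv _ _ D (by omega) le_rfl h

/-- the ancestor at the level `l` -/
noncomputable def at' (n : N) (l : ℕ) : N := F.anc (F.lb n) l

theorem at_anc (x : X) {l l' : ℕ} (h1 : 1 ≤ l') (h2 : l' ≤ l) (h3 : l ≤ D) :
    F.at' (F.anc x l) l' = F.anc x l' := by
  have h := F.anc_lb (F.anc x l)
  rw [F.lev_anc x l (by omega) h3] at h
  exact F.up h h1 h2 h3

@[simp] theorem at_lev (n : N) : F.at' n (F.lev n) = n := F.anc_lb n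

theorem lev_at (n : N) {l : ℕ} (h1 : 1 ≤ l) (h2 : l ≤ D) : F.lev (F.at' n l) = l :=
  F.lev_anc _ _ h1 h2

theorem at_at (n : N) {l l' : ℕ} (h1 : 1 ≤ l') (h2 : l' ≤ l) (h3 : l ≤ D) :
    F.at' (F.at' n l) l' = F.at' n l' := F.at_anc _ h1 h2 h3

theorem tree_at (n : N) {l : ℕ} (h1 : 1 ≤ l) (h2 : l ≤ D) : F.tree (F.at' n l) = F.tree n :=
  F.tree_anc _ h1 h2

theorem par_at (n : N) {l : ℕ} (h1 : 1 ≤ l) (h2 : l < D) :
    F.par (F.at' n (l + 1)) = F.at' n l := F.par_anc _ _ h1 h2

theorem kid_at (n : N) {l : ℕ} (h1 : l % 2 = 1) (h2 : l < D) :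
    F.kid (F.at' n l) = F.at' n (l + 1) := F.kid_anc _ (Nat.odd_iff.2 h1) h2

/-- `a` is an ancestor of `n` or equal to `n` -/
def Anc (a n : N) : Prop := F.lev a ≤ F.lev n ∧ F.at' n (F.lev a) = a

variable {F} {a n m t : N}

theorem Anc.refl (n : N) : F.Anc n n := ⟨le_rfl, F.at_lev n⟩

theorem Anc.at (h : F.Anc a n) {l : ℕ} (h1 : 1 ≤ l) (h2 : l ≤ F.lev a) :
    F.at' a l = F.at' n l := by
  rw [← F.at_at n h1 h2 (F.surj a).2.1, h.2]

theorem Anc.trans (h : F.Anc a n) (h' : F.Anc n m) : F.Anc a m :=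
  ⟨h.1.trans h'.1, (h'.at (F.surj a).1 h.1).symm.trans h.2⟩

theorem Anc.eq (h : F.Anc a n) (l : F.lev n ≤ F.lev a) : a = n := by
  rw [← h.2, le_antisymm h.1 l, at_lev]

theorem Anc.tree (h : F.Anc a n) : F.tree a = F.tree n := by
  rw [← h.2, F.tree_at n (F.surj a).1 (F.surj a).2.1]

/-- two ancestors of one node -/
theorem Anc.of_le (h : F.Anc a n) (h' : F.Anc m n) (l : F.lev a ≤ F.lev m) : F.Anc a m :=
  ⟨l, (h'.at (F.surj a).1 l).trans h.2⟩

theorem Anc.total (h : F.Anc a n) (h' : F.Anc m n) : F.Anc a m ∨ F.Anc m a :=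
  (le_total _ _).imp (h.of_le h') (h'.of_le h)

theorem anc_at (n : N) {l : ℕ} (h1 : 1 ≤ l) (h2 : l ≤ F.lev n) : F.Anc (F.at' n l) n := by
  have := F.lev_at n h1 (h2.trans (F.surj n).2.1)
  exact ⟨this.le.trans h2, by rw [this]⟩

theorem anc_anc (x : X) {l l' : ℕ} (h1 : 1 ≤ l') (h2 : l' ≤ l) (h3 : l ≤ D) :
    F.Anc (F.anc x l') (F.anc x l) := by
  rw [← F.at_anc x h1 h2 h3]
  exact anc_at _ h1 (by rwa [F.lev_anc x l (by omega) h3])

theorem par_eq_at (h : 2 ≤ F.lev n) : F.par n = F.at' n (F.lev n - 1) := by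
  have := (F.surj n).2.1
  rw [← F.par_at n (by omega) (by omega), show F.lev n - 1 + 1 = F.lev n by omega, at_lev]

theorem anc_par (h : 2 ≤ F.lev n) : F.Anc (F.par n) n := by
  rw [par_eq_at h]
  exact anc_at n (by omega) (by omega)

theorem anc_kid (l : F.lev t < D) : F.Anc t (F.kid t) := by
  have := anc_par (F := F) (n := F.kid t) (by rw [F.lev_kid l]; have := (F.surj t).1; omega)
  rwa [F.par_kid l] at this

/-- a proper ancestor is an ancestor of the parent -/
theorem Anc.par (h : F.Anc a n) (ne : a ≠ n) : 2 ≤ F.lev n ∧ F.Anc a (F.par n) := by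
  have := mt h.eq ne
  have := (F.surj a).1
  have c : 2 ≤ F.lev n := by omega
  have := F.lev_par c
  exact ⟨c, h.of_le (anc_par c) (by omega)⟩

/-- a proper descendant of an odd node is a descendant of its child -/
theorem Anc.kid (h : F.Anc t n) (o : F.lev t % 2 = 1) (ne : t ≠ n) : F.Anc (F.kid t) n := by
  have := mt h.eq ne
  have := (F.surj n).2.1
  rw [← h.2, F.kid_at n o (by omega)]
  exact anc_at n (by omega) (by omega)

theorem tree_kid (hl : F.lev t < D) : F.tree (F.kid t) = F.tree t := (anc_kid hl).tree.symm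

theorem kid_ne (l : F.lev t < D) : F.kid t ≠ t := fun a => by
  have := F.lev_kid l
  rw [a] at this
  omega

variable (F)

/-- Two depth first orders: ancestors come first, subtrees are intervals, and unrelated nodes
come in opposite orders. -/
structure Dfs (o : Bool → N → ℕ) : Prop where
  inj : ∀ s, Injective (o s)
  le : ∀ s {a n}, F.Anc a n → o s a ≤ o s n
  itv : ∀ s {a n m}, F.Anc a n → o s a ≤ o s m → o s m ≤ o s n → F.Anc a m
  rev : ∀ {n m}, ¬F.Anc n m → ¬F.Anc m n → (o true n < o true m ↔ o false m < o false n)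

theorem exists_dfs [Finite X] : ∃ o, F.Dfs o := by
  have := F.finite
  obtain ⟨cd, cdi⟩ := exists_injective_nat N
  let p : Bool → N → ℕ → WithBot ℤ := fun s n i =>
    if 1 ≤ i ∧ i ≤ F.lev n then (sg s (cd (F.at' n i)) : ℤ) else ⊥
  have pe : ∀ s n m i, 1 ≤ i → i ≤ F.lev n → p s n i = p s m i →
      i ≤ F.lev m ∧ F.at' n i = F.at' m i := fun s n m i h1 h2 h => by
    simp only [p, h1, h2, true_and, if_true] at h
    split_ifs at h with c
    · exact ⟨c, cdi (sg_inj (WithBot.coe_injective h))⟩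
    · exact absurd h (by simp)
  have pa : ∀ s {a n}, F.Anc a n → ∀ i ≤ F.lev a, p s a i = p s n i := fun s a n h i hi => by
    by_cases c : 1 ≤ i
    · simp [p, c, hi, hi.trans h.1, h.at c hi]
    · simp [p, c]
  have ap : ∀ s a n, p s a (F.lev a) = p s n (F.lev a) → F.Anc a n := fun s a n h =>
    have := pe s a n _ (F.surj a).1 le_rfl h
    ⟨this.1, this.2.symm.trans (F.at_lev a)⟩
  have bot : ∀ s n i, F.lev n < i → p s n i = ⊥ := fun s n i h => if_neg (by omega)
  have inj : ∀ s, Injective fun n => toLex (p s n) := fun s n m h =>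
    have h : p s n = p s m := h
    (ap s n m (congrFun h _)).eq (ap s m n (congrFun h.symm _)).1
  have le : ∀ s {a n}, F.Anc a n → toLex (p s a) ≤ toLex (p s n) := fun s a n h =>
    not_lt.1 fun ⟨i, _, c⟩ => by
      rcases le_or_gt i (F.lev a) with d | d
      · exact c.ne (pa s h i d).symm
      · exact not_lt_bot (lt_of_lt_of_eq c (bot s a i d))
  let o : Bool → N → ℕ := fun s n => {m | toLex (p s m) < toLex (p s n)}.ncard
  have lt : ∀ s n m, toLex (p s n) < toLex (p s m) → o s n < o s m := fun s n m h =>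
    Set.ncard_lt_ncard ⟨fun _ a => lt_trans a h, fun c => lt_irrefl (toLex (p s n)) (c (a := n) h)⟩
  have ol : ∀ s n m, o s n < o s m ↔ toLex (p s n) < toLex (p s m) := fun s n m =>
    ⟨fun h => not_le.1 fun c => c.eq_or_lt.elim (fun d => h.ne' (by rw [inj s d]))
      fun d => h.not_gt (lt s m n d), lt s n m⟩
  have k : ∀ s {n m}, ¬F.Anc n m → toLex (p s n) < toLex (p s m) →
      toLex (p (!s) m) < toLex (p (!s) n) := by
    rintro s n m h ⟨i, a, c⟩
    have c : p s n i < p s m i := c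
    have a : ∀ j < i, p s n j = p s m j := a
    have i1 : i ≤ F.lev n := not_lt.1 fun d => h (ap s n m (a _ d))
    have i2 : 1 ≤ i ∧ i ≤ F.lev m := by_contra fun d => by simp [p, d] at c
    refine ⟨i, fun j hj => ?_, ?_⟩
    · by_cases d : 1 ≤ j
      · simp [p, d, hj.le.trans i1, hj.le.trans i2.2, (pe s n m j d (hj.le.trans i1) (a j hj)).2]
      · simp [p, d]
    · revert c
      cases s <;> simp [p, i1, i2]
  refine ⟨o, fun s n m h => inj s (le_antisymm (not_lt.1 fun c => (lt s _ _ c).ne' h)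
    (not_lt.1 fun c => (lt s _ _ c).ne h)),
    fun s a n h => not_lt.1 (mt (ol s _ _).1 (le s h).not_gt), fun s a n m h h1 h2 => ?_,
    fun h h' => ?_⟩
  · rw [← not_lt, ol] at h1 h2
    by_contra c
    have ex : ∃ i, p s a i ≠ p s m i := ⟨_, mt (ap s a m) c⟩
    classical
    have i1 : Nat.find ex ≤ F.lev a := Nat.find_min' ex (mt (ap s a m) c)
    have i2 : ∀ j < Nat.find ex, p s a j = p s m j := fun j hj => not_not.1 (Nat.find_min ex hj)
    rcases (Nat.find_spec ex).lt_or_gt with d | d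
    · exact h2 ⟨_, fun j hj => (pa s h j (hj.le.trans i1)).symm.trans (i2 j hj),
        lt_of_eq_of_lt (pa s h _ i1).symm d⟩
    · exact h1 ⟨_, fun j hj => (i2 j hj).symm, d⟩
  · rw [ol, ol]
    exact ⟨k true h, k false h'⟩

namespace Dfs

variable {F} {o : Bool → N → ℕ} (H : F.Dfs o) (s : Bool)

include H

theorem lt (h : F.Anc a n) (ne : a ≠ n) : o s a < o s n :=
  lt_of_le_of_ne (H.le s h) fun c => ne (H.inj s c)

/-- an odd node is directly followed by its child -/
theorem kid (ht : F.lev t % 2 = 1) (l : F.lev t < D) :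
    o s t < o s (F.kid t) ∧ ∀ n, o s n ≤ o s t ∨ o s (F.kid t) ≤ o s n :=
  ⟨H.lt s (anc_kid l) (kid_ne l).symm, fun n => by_contra fun c => by
    rw [not_or, not_le, not_le] at c
    exact c.2.not_ge (H.le s ((H.itv s (anc_kid l) c.1.le c.2.le).kid ht
      fun d => c.1.ne (by rw [d])))⟩

/-- a node outside the subtree of `a` lies on one side of it -/
theorem side (h : F.Anc a n) (hm : ¬F.Anc a m) : o s m < o s n ↔ o s m < o s a :=
  ⟨fun c => not_le.1 fun d => hm (H.itv s h d c.le), fun c => c.trans_le (H.le s h)⟩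

theorem side' (h : F.Anc a n) (hm : ¬F.Anc a m) : o s n < o s m ↔ o s a < o s m := by
  have a1 : o s m ≠ o s n := fun c => hm (H.inj s c ▸ h)
  have a2 : o s m ≠ o s a := fun c => hm (H.inj s c ▸ Anc.refl _)
  have := H.side s h hm
  omega

/-- one of the two orders puts an unrelated node first -/
theorem choose (h : ¬F.Anc n m) (h' : ¬F.Anc m n) : ∃ s, o s n < o s m := by
  have := H.rev h h'
  have a : o false m ≠ o false n := fun c => h (H.inj _ c ▸ Anc.refl _)
  by_cases c : o true n < o true m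
  exacts [⟨true, c⟩, ⟨false, by omega⟩]

theorem rev' (h : ¬F.Anc n m) (h' : ¬F.Anc m n) : o s n < o s m ↔ o (!s) m < o (!s) n := by
  cases s
  exacts [(H.rev h' h).symm, H.rev h h']

/-- trees are intervals -/
theorem tree (h : F.tree a = F.tree n) (h1 : o s a ≤ o s m) (h2 : o s m ≤ o s n) :
    F.tree m = F.tree a := by
  have r : F.at' a 1 = F.at' n 1 := (F.top _ _ 1 le_rfl one_le_two).2 h
  exact ((H.itv s (anc_at n le_rfl (F.surj n).1)
    ((H.le s (r ▸ anc_at a le_rfl (F.surj a).1)).trans h1) h2).tree.symm.trans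
      (F.tree_at n le_rfl ((F.surj n).1.trans (F.surj n).2.1))).trans h.symm

end Dfs

end Forest

end Pool.Agent.P.MP_439f1f_co
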