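import Pool.Agent.P.MP_439f1f_co.K3

/-!
The order of arbitrary lines in a state in which they are cold.
-/

set_option autoImplicit false

namespace Pool.Agent.P.MP_439f1f_co

open Sum SimpleGraph Function

variable {K N β : Type} [DecidableEq K] [LinearOrder β] {r r0 q D e b : ℕ}

/-- the hub is not a hub of the system `j` -/
def Cold {P Y : Type} (j : K) (L : P ⊕ K × Y × Fin 3) : Prop := ∀ z, L ≠ inr (j, z)

omit [DecidableEq K] in
theorem cold_pay {P Y : Type} (j : K) (p : P) : Cold j (inl p : P ⊕ K × Y × Fin 3) :=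
  fun _ h => nomatch h

omit [DecidableEq K] in
theorem cold_sys {P Y : Type} {j i : K} {z : Y × Fin 3} :
    Cold j (inr (i, z) : P ⊕ K × Y × Fin 3) ↔ i ≠ j := by simp [Cold]

theorem Mac.nxt_of_cold {P Y γ : Type} [LinearOrder γ] (O : Mac P Y K γ) {j : K}
    {L : P ⊕ K × Y × Fin 3} (h : Cold j (O.dA L)) : O.nxt j L = O.dA L := by
  rw [O.nxt_apply]
  rcases c : O.dA L with p | ⟨i, z⟩
  exacts [rfl, O.hot_ne (cold_sys.1 (c ▸ h)) z]

/-- the number of a hub in its port -/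
def hno {P Y : Type} : P ⊕ K × Y × Fin 3 → Fin 3
  | inl _ => 0
  | inr z => z.2.2

theorem sub_cold {P Y : Type} {j : K} {L : P ⊕ K × Y × Fin 3} (h : Cold j L) :
    Mac.sub j L = hno L := by
  rcases L with p | ⟨i, y, a⟩
  exacts [rfl, if_neg (cold_sys.1 h)]

variable [Finite K] [Finite N] [Nonempty K]

namespace Wd

variable (W : Wd K N β r r0 q D e b)

/-- the block of the outer ring at which a cold line is visited -/
noncomputable def an (j : K) (L : Hub K N (Pt K N) r0) : β := W.B.ab j (Blk.bo (some (W.lo L)))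

/-- the place of a line in its loop -/
noncomputable def lk (L : Hub K N (Pt K N) r0) : (ℕ ×ₗ ℕ ×ₗ ℕ) ×ₗ Fin 3 :=
  toLex (W.B.lk (elt L), hno L)

/-- `0` after the port of the stage `j`, `1` before it -/
noncomputable def ph (j : K) (L : Hub K N (Pt K N) r0) : ℕ := W.B.rings.ph j (elt L)

variable {W} {j j' : K} {L L' : Hub K N (Pt K N) r0} {n n' : N}

theorem pos_cold (h : Cold j L) (h' : Cold j L') : W.pos j L < W.pos j L' ↔
    W.B.mac.ep j (elt L) < W.B.mac.ep j (elt L') ∨ (elt L = elt L' ∧ hno L < hno L') := by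
  refine W.B.mac.pos_lt.trans ?_
  rw [sub_cold h, sub_cold h', show W.B.mac.el j L = elt L from W.B.rings.el_cold h,
    show W.B.mac.el j L' = elt L' from W.B.rings.el_cold h']

theorem pos_an (h : Cold j L) (h' : Cold j L') (c : W.an j L < W.an j L') :
    W.pos j L < W.pos j L' := (pos_cold h h').2 (Or.inl (W.B.ep_lt_of_ab c))

theorem an_le (h : Cold j L) (h' : Cold j L') (c : W.pos j L ≤ W.pos j L') :
    W.an j L ≤ W.an j L' := not_lt.1 fun a => absurd (pos_an h' h a) (not_lt.2 c)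

omit [Finite K] [Finite N] [Nonempty K] in
theorem an_blk {y : Bl N K} {i : Fin 4} (h : W.lo L = inl (y, i)) (f : W.B.fb j y = false) :
    W.an j L = W.bk j y := by
  simp only [an, h, Blk.bo_l, Blk.ab, f]
  rfl

omit [Finite K] [Finite N] [Nonempty K] in
theorem an_in (h : W.In L n) (f : W.B.fam j n = false) : W.an j L = W.bk j (inl n) :=
  let ⟨_, h⟩ := h
  an_blk h f

omit [Finite K] [Finite N] [Nonempty K] in
theorem an_ring (f : W.B.fl j (W.lo L) = true) : W.an j L = W.bk j (inr (inl j)) := by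
  rcases c : W.lo L with ⟨y, i⟩ | i
  · rw [c, Blk.fl_l] at f
    simp only [an, c, Blk.bo_l, Blk.ab, f]
    rfl
  · simp only [an, c, Blk.bo_r, Blk.ab]
    rfl

omit [Finite K] [Finite N] [Nonempty K] in
/-- a line lies in a payload block of the outer ring or is visited at a pure block -/
theorem an_cases (j : K) (L : Hub K N (Pt K N) r0) :
    (∃ n, W.In L n ∧ W.B.fam j n = false ∧ W.an j L = W.bk j (inl n)) ∨
      ∃ y, W.an j L = W.bk j (inr y) := by
  cases f : W.B.fl j (W.lo L)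
  · rcases c : W.lo L with ⟨n | y, i⟩ | i <;> rw [c] at f
    exacts [Or.inl ⟨n, ⟨i, c⟩, f, an_blk c f⟩, Or.inr ⟨y, an_blk c f⟩, nomatch f]
  · exact Or.inr ⟨_, an_ring f⟩

omit [Finite K] [Finite N] [Nonempty K] in
theorem an_congr (h : W.lo L = W.lo L') : W.an j L = W.an j L' := by rw [an, an, h]

@[simp] theorem an_dA : W.an j (W.S.O.dA L) = W.an j L := an_congr (W.lo_dA L)
@[simp] theorem an_dA_symm : W.an j (W.S.O.dA.symm L) = W.an j L := an_congr (W.lo_dA_symm L)

theorem pos_ne (ne : L ≠ L') : W.pos j L ≠ W.pos j L' := fun c =>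
  ne ((W.S.O.cyc j).inj trivial trivial c)

theorem pos_flip (ne : L ≠ L') : ¬W.pos j L < W.pos j L' ↔ W.pos j L' < W.pos j L :=
  ⟨fun c => lt_of_le_of_ne (not_lt.1 c) (pos_ne ne.symm), fun c => not_lt.2 c.le⟩

/-- two blocks of one ring -/
theorem pos_bk {y y' : Bl N K} {i i' : Fin 4} (h : Cold j L) (h' : Cold j L')
    (c : W.lo L = inl (y, i)) (c' : W.lo L' = inl (y', i')) (f : W.B.fb j y = W.B.fb j y')
    (ne : y ≠ y') : W.pos j L < W.pos j L' ↔ W.bk j y < W.bk j y' :=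
  ⟨fun a => (lt_or_gt_of_ne fun d => ne (W.bki j d)).resolve_right fun d => absurd
    ((pos_cold h' h).2 (Or.inl (W.B.ep_lt_of_bk c' c f.symm d))) (not_lt.2 a.le),
    fun a => (pos_cold h h').2 (Or.inl (W.B.ep_lt_of_bk c c' f a))⟩

theorem pos_in (h : Cold j L) (h' : Cold j L') (c : W.In L n) (c' : W.In L' n')
    (f : W.B.fam j n = W.B.fam j n') (ne : n ≠ n') :
    W.pos j L < W.pos j L' ↔ W.bk j (inl n) < W.bk j (inl n') :=
  let ⟨_, c⟩ := c
  let ⟨_, c'⟩ := c'
  pos_bk h h' c c' f fun a => ne (inl.inj a)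

/-- two loops of one block -/
theorem pos_lay {y : Bl N K} {i i' : Fin 4} (h : Cold j L) (h' : Cold j L')
    (c : W.lo L = inl (y, i)) (c' : W.lo L' = inl (y, i')) (ne : i ≠ i') :
    W.pos j L < W.pos j L' ↔ W.lay j y i < W.lay j y i' :=
  ⟨fun a => (lt_or_gt_of_ne fun d => ne ((W.lay j y).injective d)).resolve_right fun d => absurd
    ((pos_cold h' h).2 (Or.inl (W.B.ep_lt_of_lay c' c d))) (not_lt.2 a.le),
    fun a => (pos_cold h h').2 (Or.inl (W.B.ep_lt_of_lay c c' a))⟩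

/-- two loops of one ring -/
theorem pos_key (h : Cold j L) (h' : Cold j L') (f : W.B.fl j (W.lo L) = W.B.fl j (W.lo L'))
    (ne : W.lo L ≠ W.lo L') :
    W.pos j L < W.pos j L' ↔ W.B.key j (W.lo L) < W.B.key j (W.lo L') :=
  ⟨fun a => (lt_or_gt_of_ne fun d => ne (W.B.key_inj j d)).resolve_right fun d => absurd
    ((pos_cold h' h).2 (Or.inl (W.B.rings.ep_lt_of_key f.symm d))) (not_lt.2 a.le),
    fun a => (pos_cold h h').2 (Or.inl (W.B.rings.ep_lt_of_key f a))⟩

/-- two pads -/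
theorem pos_pad {i i' : Fin 3} (h : Cold j L) (h' : Cold j L') (c : W.lo L = inr i)
    (c' : W.lo L' = inr i') (ne : i ≠ i') : W.pos j L < W.pos j L' ↔ W.pad j i < W.pad j i' := by
  rw [pos_key h h' (by rw [c, c']; rfl) (by rw [c, c']; simpa using ne), c, c', Blk.key_lt]
  simp [Dyn.blk]

/-- a loop other than the hinge is an interval: the order of a line outside depends on the loop
only -/
theorem pos_loop (h : Cold j L) (h' : Cold j L') (a : W.lo L ≠ Blk.hg j) (a' : W.lo L' ≠ Blk.hg j)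
    (ne : W.lo L ≠ W.lo L') : W.pos j L < W.pos j L' ↔
      W.B.rings.uk j (some (W.lo L)) < W.B.rings.uk j (some (W.lo L')) := by
  rw [pos_cold h h', show W.B.mac.ep j (elt L) < W.B.mac.ep j (elt L') ↔ _ from
    W.B.rings.ep_lt' a a']
  exact ⟨fun c => (c.resolve_right fun d => ne (congrArg W.B.rings.lo d.1)).resolve_right
    fun d => ne d.1, fun c => Or.inl (Or.inl c)⟩

/-- two lines of one loop -/
theorem pos_one (h : Cold j L) (h' : Cold j L') (a : W.lo L ≠ Blk.hg j) (c : W.lo L = W.lo L') :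
    W.pos j L < W.pos j L' ↔
      W.ph j L < W.ph j L' ∨ (W.ph j L = W.ph j L' ∧ W.lk L < W.lk L') := by
  have c' : W.B.rings.lo (elt L) = W.B.rings.lo (elt L') := c
  rw [pos_cold h h', show W.B.mac.ep j (elt L) < W.B.mac.ep j (elt L') ↔ _ from
    W.B.rings.ep_lt' a (fun d => a (c.trans d)), lk, lk, Prod.Lex.toLex_lt_toLex, c']
  simp only [lt_irrefl, false_or, true_and, ph, Blk.rings_lk]
  refine ⟨?_, ?_⟩
  · rintro ((d | d) | d)
    exacts [Or.inl d, Or.inr ⟨d.1, Or.inl d.2⟩, Or.inr ⟨by rw [d.1], Or.inr ⟨by rw [d.1], d.2⟩⟩]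
  · rintro (d | ⟨d, d' | d'⟩)
    exacts [Or.inl (Or.inl d), Or.inl (Or.inr ⟨d, d'⟩),
      Or.inr ⟨W.B.rings.lki _ _ c' d'.1, d'.2⟩]

omit [Nonempty K] in
theorem ph_eq (a : W.lo L ≠ Blk.hg j) : W.ph j L =
    if W.B.lk (inr (j, some (W.lo L))) ≤ W.B.lk (elt L) then 0 else 1 := W.B.rings.ph_ne a

/-- The side of the port on which a line lies is the same for two stages whose ports are at the
same place and are not separated by the system of the line. -/
theorem ph_congr (a : W.lo L ≠ Blk.hg j) (a' : W.lo L ≠ Blk.hg j')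
    (p : W.B.pl j (W.lo L) = W.B.pl j' (W.lo L))
    (s : ∀ i z, L = inr (i, z) → (W.idx j ≤ W.idx i ↔ W.idx j' ≤ W.idx i)) :
    W.ph j L = W.ph j' L := by
  rw [ph_eq a, ph_eq a']
  refine if_congr ?_ rfl rfl
  rcases L with u | ⟨i, _ | y, c⟩
  · simp [Blk.lk, Prod.Lex.toLex_le_toLex, p]
  · simp [Blk.lk, Prod.Lex.toLex_le_toLex, Blk.pl]
  · have := s i _ rfl
    simp only [Blk.lk, elt_r, Prod.Lex.toLex_le_toLex, p, lt_irrefl, false_or, true_and]
    exact or_congr_right (and_congr_right' this)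

theorem pos_twin (h : Cold j L) (h' : Cold j L') (g : Cold j' L) (g' : Cold j' L')
    (c : W.lo L = W.lo L') (a : W.lo L ≠ Blk.hg j) (a' : W.lo L ≠ Blk.hg j')
    (p : W.B.pl j (W.lo L) = W.B.pl j' (W.lo L))
    (s : ∀ i z, L = inr (i, z) → (W.idx j ≤ W.idx i ↔ W.idx j' ≤ W.idx i))
    (s' : ∀ i z, L' = inr (i, z) → (W.idx j ≤ W.idx i ↔ W.idx j' ≤ W.idx i)) :
    W.pos j L < W.pos j L' ↔ W.pos j' L < W.pos j' L' := by
  rw [pos_one h h' a c, pos_one g g' a' c, ph_congr a a' p s,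
    ph_congr (c ▸ a) (c ▸ a') (c ▸ p) s']

end Wd

end Pool.Agent.P.MP_439f1f_co
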