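import Pool.Agent.P.MP_439f1f_co.B17
import Pool.Agent.P.MP_439f1f_co.K4
import Pool.Agent.P.MP_439f1f_co.Dy0

/-!
Blocks in a state, pass pairs, routes and the virtual frame of the construction.
-/

set_option autoImplicit false
set_option linter.unusedSectionVars false

namespace Pool.Agent.P.MP_439f1f_co

open Sum Function

variable {K N β ι : Type} [DecidableEq K] [LinearOrder β] {r r0 q D e b : ℕ}

/-- the hub and the line of a node -/
abbrev nl (n : N) : Hub K N (Pt K N) r0 := inl (inl n)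

variable [Finite K] [Finite N] [Nonempty K]

namespace Wd

variable (W : Wd K N β r r0 q D e b)

/-! ### blocks -/

/-- the loop in which a hub is visited in the state `j` -/
noncomputable def lp (j : K) (L : Hub K N (Pt K N) r0) : Lop N K := W.B.rings.lo (W.S.O.el j L)

/-- the block in which a hub is visited in the state `j` (`none`: the last three loops) -/
noncomputable def bl (j : K) (L : Hub K N (Pt K N) r0) : Option (Bl N K) :=
  Blk.bo (some (W.lp j L))

/-- the hub `L` is visited in the block of the node `n` -/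
def Bk (j : K) (L : Hub K N (Pt K N) r0) (n : N) : Prop := W.bl j L = some (inl n)

/-- the block of the ring `false` at which a hub is visited -/
noncomputable def ak (j : K) (L : Hub K N (Pt K N) r0) : β := W.B.ab j (W.bl j L)

/-- the order of the payload blocks -/
noncomputable def gk (j : K) (n : N) : β ×ₗ β := toLex (W.B.ab j (some (inl n)), W.bk j (inl n))

variable {W} {j : K} {L u v : Hub K N (Pt K N) r0} {n n' a : N} {c c' : Bl N K}

theorem bl_iff : W.bl j L = some c ↔ ∃ i, W.lp j L = inl (c, i) := by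
  unfold bl
  rcases W.lp j L with ⟨c', i⟩ | i <;> simp

theorem bl_none : W.bl j L = none ↔ ∃ i, W.lp j L = inr i := by
  unfold bl
  rcases W.lp j L with ⟨c', i⟩ | i <;> simp

theorem lp_cold (h : Cold j L) : W.lp j L = W.lo L := congrArg _ (W.B.rings.el_cold h)

theorem lp_2 (y : Pt K N) : W.lp j (inr (j, y, 2)) = W.lo (inr (j, y, 2)) :=
  congrArg _ (W.S.O.el_2 j j y)

theorem bk_cold (h : Cold j L) : W.Bk j L n ↔ W.In L n := by
  rw [Bk, bl_iff, lp_cold h, In]

theorem ak_cold (h : Cold j L) : W.ak j L = W.an j L := by rw [ak, bl, lp_cold h, an]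

theorem bk_pay {p : N ⊕ N × Fin (r0 + 1)} : W.Bk j (inl p) n ↔ n = nd p := by
  rw [bk_cold (cold_pay j p)]
  exact ⟨fun h => h.unique (W.in_pay p), fun h => h ▸ W.in_pay p⟩

@[simp] theorem bk_nl : W.Bk j (nl n) n' ↔ n' = n := bk_pay

theorem Bk.self (W : Wd K N β r r0 q D e b) (j : K) (n : N) : W.Bk j (nl n) n := bk_nl.2 rfl

theorem Bk.unique (h : W.Bk j L n) (h' : W.Bk j L n') : n = n' := by
  simpa using h.symm.trans h'

theorem lt_of_ak (h : W.ak j u < W.ak j v) : W.pos j u < W.pos j v :=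
  W.S.O.pos_lt_of_ep (W.B.ep_lt_of_ab h)

theorem ak_le (h : W.pos j u ≤ W.pos j v) : W.ak j u ≤ W.ak j v :=
  not_lt.1 fun d => (lt_of_ak d).not_ge h

theorem ak_A (h : W.bl j u = some c) (f : W.B.fb j c = false) : W.ak j u = W.bk j c := by
  simp only [ak, h, Blk.ab, f]
  rfl

theorem ak_B (h : W.bl j u = some c) (f : W.B.fb j c = true) :
    W.ak j u = W.bk j (inr (inl j)) := by
  simp only [ak, h, Blk.ab, f]
  rfl

theorem ak_none (h : W.bl j u = none) : W.ak j u = W.bk j (inr (inl j)) := by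
  simp only [ak, h, Blk.ab]
  rfl

/-- every hub is visited at a block of the ring `false`: its own block or the hinge -/
theorem ak_cases (W : Wd K N β r r0 q D e b) (j : K) (u : Hub K N (Pt K N) r0) :
    (∃ c, W.bl j u = some c ∧ W.B.fb j c = false ∧ W.ak j u = W.bk j c) ∨
      W.ak j u = W.bk j (inr (inl j)) := by
  rcases h : W.bl j u with _ | c
  · exact Or.inr (ak_none h)
  · cases f : W.B.fb j c
    exacts [Or.inl ⟨c, rfl, f, ak_A h f⟩, Or.inr (ak_B h f)]

theorem Bk.ak (h : W.Bk j u n) (f : W.S.wor n ≠ (j, false)) : W.ak j u = W.bk j (inl n) :=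
  ak_A h (W.fam_ne.2 f)

theorem lt_of_bk (hu : W.bl j u = some c) (hv : W.bl j v = some c')
    (f : W.B.fb j c = W.B.fb j c') (h : W.bk j c < W.bk j c') : W.pos j u < W.pos j v := by
  obtain ⟨i, hu⟩ := bl_iff.1 hu
  obtain ⟨i', hv⟩ := bl_iff.1 hv
  exact W.S.O.pos_lt_of_ep (W.B.ep_lt_of_bk hu hv f h)

theorem lt_of_lay {i i' : Fin 4} (hu : W.lp j u = inl (c, i)) (hv : W.lp j v = inl (c, i'))
    (h : W.lay j c i < W.lay j c i') : W.pos j u < W.pos j v :=
  W.S.O.pos_lt_of_ep (W.B.ep_lt_of_lay hu hv h)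

theorem gk_lt (f : W.B.fam j n = W.B.fam j n') :
    W.gk j n < W.gk j n' ↔ W.bk j (inl n) < W.bk j (inl n') := by
  simp only [gk, Prod.Lex.toLex_lt_toLex, Blk.ab, Blk.fb_l, f]
  split_ifs
  · simp
  · exact or_iff_left_of_imp And.right

theorem gk_inj (W : Wd K N β r r0 q D e b) (j : K) : Injective (W.gk j) := fun _ _ h =>
  inl.inj (W.bki j (congrArg (fun p => (ofLex p).2) h))

theorem Bk.lt (hu : W.Bk j u n) (hv : W.Bk j v n') (h : W.gk j n < W.gk j n') :
    W.pos j u < W.pos j v := by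
  by_cases f : W.B.fam j n = W.B.fam j n'
  · exact lt_of_bk hu hv f ((gk_lt f).1 h)
  refine lt_of_ak ?_
  rw [Wd.ak, Wd.ak, hu, hv]
  refine (Prod.Lex.toLex_lt_toLex.1 h).resolve_right fun d => ?_
  have d := d.1
  simp only [Blk.ab, Blk.fb_l] at d
  split_ifs at d with c1 c2 c2
  exacts [f (c1.trans c2.symm), by simpa using W.B.bki j d, by simpa using W.B.bki j d,
    f (by simp [c1, c2])]

/-- **The order of two hubs in different payload blocks.** -/
theorem Bk.lt_iff (hu : W.Bk j u n) (hv : W.Bk j v n') (ne : n ≠ n') :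
    W.pos j u < W.pos j v ↔ W.gk j n < W.gk j n' :=
  ⟨fun h => (lt_or_gt_of_ne ((W.gk_inj j).ne ne)).resolve_right fun d => (hv.lt hu d).not_gt h,
    hu.lt hv⟩

theorem Bk.le (hu : W.Bk j u n) (hv : W.Bk j v n') (h : W.pos j u ≤ W.pos j v) :
    W.gk j n ≤ W.gk j n' := not_lt.1 fun d => (hv.lt hu d).not_ge h

/-- **Between two blocks of one ring.** -/
theorem btw {P : N → Prop} (hu : W.bl j u = some c) (hv : W.bl j v = some c')
    (f : W.B.fb j c = W.B.fb j c') (h1 : W.pos j u ≤ W.pos j L) (h2 : W.pos j L ≤ W.pos j v)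
    (h : ∀ d, W.B.fb j d = W.B.fb j c → W.bk j c ≤ W.bk j d → W.bk j d ≤ W.bk j c' →
      ∃ x, d = inl x ∧ P x) : ∃ x, W.Bk j L x ∧ P x := by
  suffices k : ∃ d, W.bl j L = some d ∧ W.B.fb j d = W.B.fb j c by
    obtain ⟨d, k1, k2⟩ := k
    obtain ⟨x, rfl, a⟩ := h d k2 (not_lt.1 fun a => (lt_of_bk k1 hu k2 a).not_ge h1)
      (not_lt.1 fun a => (lt_of_bk hv k1 (f.symm.trans k2.symm) a).not_ge h2)
    exact ⟨x, k1, a⟩
  cases g : W.B.fb j c
  · refine ((W.ak_cases j L).resolve_right fun d => ?_).imp fun _ d => ⟨d.1, d.2.1⟩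
    have a1 := ak_le h1
    have a2 := ak_le h2
    rw [ak_A hu g, d] at a1
    rw [ak_A hv (f ▸ g), d] at a2
    simpa using h (inr (inl j)) g.symm a1 a2
  · obtain ⟨i, a1⟩ := bl_iff.1 hu
    obtain ⟨i', a2⟩ := bl_iff.1 hv
    have k := W.B.rings.fam_between (j := j) (a := W.S.O.el j u) (b := W.S.O.el j L)
      (c := W.S.O.el j v) ((congrArg _ a1).trans g) ((congrArg _ a2).trans (f.symm.trans g))
      (W.S.O.ep_le_of_pos h1) (W.S.O.ep_le_of_pos h2)
    rcases d : W.lp j L with ⟨c'', i''⟩ | i''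
    · exact ⟨c'', bl_iff.2 ⟨_, d⟩, (congrArg _ d).symm.trans k⟩
    · exact absurd h2 (W.S.O.pos_lt_of_ep (W.B.ep_lt_pad a2 d (f.symm.trans g))).not_ge

theorem fam_tree (h : W.F.tree n = W.F.tree n') : W.B.fam j n = W.B.fam j n' :=
  congrArg (fun t : Kl K r r0 => decide (t.1.1.wor = (j, false))) h

/-! ### pass pairs -/

variable (W) in
/-- the odd node `a` and its child form a pass pair -/
structure Pass (j : K) (a : N) : Prop where
  odd : W.F.lev a % 2 = 1
  lev : W.F.lev a < D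
  lt : W.pos j (nl a) < W.pos j (nl (W.F.kid a))
  btw : ∀ L, W.pos j (nl a) ≤ W.pos j L → W.pos j L ≤ W.pos j (nl (W.F.kid a)) →
    W.Bk j L a ∨ W.Bk j L (W.F.kid a)

/-- the block of the child is the next block of the ring -/
theorem Pass.of_bk (o : W.F.lev a % 2 = 1) (l : W.F.lev a < D)
    (h1 : W.bk j (inl a) < W.bk j (inl (W.F.kid a)))
    (h2 : ∀ d, W.B.fb j d = W.B.fam j a →
      W.bk j d ≤ W.bk j (inl a) ∨ W.bk j (inl (W.F.kid a)) ≤ W.bk j d) : W.Pass j a := by
  have f : W.B.fam j a = W.B.fam j (W.F.kid a) := fam_tree (Forest.tree_kid l).symm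
  refine ⟨o, l, lt_of_bk (Bk.self W j _) (Bk.self W j _) f h1, fun L a1 a2 => ?_⟩
  obtain ⟨x, k1, rfl | rfl⟩ := Wd.btw (P := fun x => x = a ∨ x = W.F.kid a) (Bk.self W j _)
    (Bk.self W j _) f a1 a2 fun d g b1 b2 => (h2 d g).elim
      (fun k => ⟨_, W.bki j (le_antisymm k b1), Or.inl rfl⟩)
      fun k => ⟨_, W.bki j (le_antisymm b2 k), Or.inr rfl⟩
  exacts [Or.inl k1, Or.inr k1]

/-- an odd node lies outside all other pass pairs -/
theorem Pass.out (h : W.Pass j a) (o : W.F.lev n % 2 = 1) (ne : a ≠ n) :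
    W.pos j (nl n) < W.pos j (nl a) ∨ W.pos j (nl (W.F.kid a)) < W.pos j (nl n) := by
  by_contra k
  rw [not_or, not_lt, not_lt] at k
  rcases h.btw _ k.1 k.2 with d | d <;> rw [bk_nl] at d
  · exact ne d
  · have := W.F.lev_kid h.lev
    have := h.odd
    rw [d] at *
    omega

variable (W) in
/-- the end of a pass pair -/
noncomputable def en : Hub K N (Pt K N) r0 → Hub K N (Pt K N) r0
  | inl (inl n) => nl (W.F.kid n)
  | L => L

variable (W) in
/-- the starts of the pass pairs -/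
def R0 (j : K) : Set (Hub K N (Pt K N) r0) := {L | ∃ a, W.Pass j a ∧ L = nl a}

variable (W) in
/-- **The reference order of a state.** -/
theorem lref (j : K) :
    LRef (2 * r + 9) W.S.hang none some (W.S.O.nxt j) (W.pos j) (W.R0 j) W.en := by
  refine W.S.fit.lref j ?_ ?_
  · rintro _ ⟨a, h, rfl⟩
    exact h.lt
  · rintro _ ⟨a, h, rfl⟩ _ ⟨a', h', rfl⟩ k
    exact (h.out h'.odd fun d => k.ne (by rw [d])).resolve_left k.not_gt

/-! ### routes -/

variable (W) in
/-- the hub at the level `l` above `t` -/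
noncomputable def base (l : ℕ) (t : N) : Option (Hub K N (Pt K N) r0) :=
  if l = 0 then none else some (nl (W.F.at' t l))

@[simp] theorem base_zero (t : N) : W.base 0 t = none := rfl

theorem base_anc {t : N} (h : W.F.Anc a t) : W.base (W.F.lev a) t = some (nl a) := by
  rw [base, if_neg (by have := (W.F.surj a).1; omega), h.2]

theorem hang_at (t : N) {l : ℕ} (h : l < D) :
    W.S.hang (nl (W.F.at' t (l + 1))) 0 (W.base l t) :=
  (W.S.fit.tl _ _).2 (Or.inr (W.F.tB0_anc (finRotate (r0 + 1)) _ h).symm)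

theorem hang_par (h : 2 ≤ W.F.lev n) : W.S.hang (nl n) 0 (some (nl (W.F.par n))) :=
  (W.S.fit.tl _ _).2 (Or.inr (if_neg (by omega : ¬W.F.lev n = 1)).symm)

theorem hang_root (h : W.F.lev n = 1) : W.S.hang (nl n) 0 none :=
  (W.S.fit.tl _ _).2 (Or.inr (if_pos h).symm)

variable (W) in
/-- the node `a` lies on the route from the level `l` to `t` -/
def On (l : ℕ) (t a : N) : Prop := W.F.Anc a t ∧ l < W.F.lev a

variable (W) in
/-- the route from the even level `l` to the odd node `t` consists of pass pairs -/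
structure Run (j : K) (l : ℕ) (t : N) : Prop where
  ev : l % 2 = 0
  od : W.F.lev t % 2 = 1
  lt : l < W.F.lev t
  pass : ∀ a, W.On l t a → W.F.lev a % 2 = 1 → a ≠ t → W.Pass j a

variable (W) in
/-- the routes from the levels `l i` to the nodes `t i` -/
noncomputable def rts (l : ι → ℕ) (t : ι → N) :
    Rts (Option (Hub K N (Pt K N) r0)) (Hub K N (Pt K N) r0) ι :=
  ⟨fun i => W.base (l i) (t i), fun i => (W.F.lev (t i) - l i) / 2,
    fun i s => nl (W.F.at' (t i) (l i + s + 1))⟩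

variable (W) in
/-- the cut that stands for the token at `t` -/
noncomputable def cut (l : ℕ) (t : N) : Hub K N (Pt K N) r0 := nl (W.F.at' t (l + 1))

variable (W) in
/-- disjoint routes of pass pairs -/
structure Rs (j : K) (l : ι → ℕ) (t : ι → N) : Prop where
  run : ∀ i, W.Run j (l i) (t i)
  dis : ∀ i i' a, W.On (l i) (t i) a → W.On (l i') (t i') a → i = i'

variable {l : ι → ℕ} {t : ι → N} {i i' : ι}

@[simp] theorem rts_fst (i : ι) : (W.rts l t).fst i = W.cut (l i) (t i) := rfl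
@[simp] theorem rts_b (i : ι) : (W.rts l t).b i = W.base (l i) (t i) := rfl

theorem on_at {l s : ℕ} {t : N} (h : l + s + 1 ≤ W.F.lev t) :
    W.On l t (W.F.at' t (l + s + 1)) :=
  ⟨Forest.anc_at t (by omega) h, by
    rw [W.F.lev_at t (by omega) (h.trans (W.F.surj t).2.1)]; omega⟩

theorem On.eq {l : ℕ} {t : N} (h : W.On l t a) :
    W.F.at' t (l + (W.F.lev a - l - 1) + 1) = a := by
  have := h.2
  rw [show l + (W.F.lev a - l - 1) + 1 = W.F.lev a by omega, h.1.2]

theorem off_of (h : ∀ i a, W.On (l i) (t i) a → u ≠ nl a) (k : W.Rs j l t) :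
    (W.rts l t).Off u := fun i s hs d => by
  obtain ⟨a1, a2, a3, -⟩ := k.run i
  have hs : s ≤ 2 * ((W.F.lev (t i) - l i) / 2) := hs
  exact h i _ (on_at (by omega)) d.symm

namespace Rs

variable (k : W.Rs j l t)
include k

theorem len (i : ι) : l i + 2 * (W.rts l t).n i + 1 = W.F.lev (t i) := by
  have := (k.run i).ev
  have := (k.run i).od
  have := (k.run i).lt
  show l i + 2 * ((W.F.lev (t i) - l i) / 2) + 1 = _
  omega

theorem lab (i : ι) : (W.rts l t).lab i = nl (t i) := by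
  show nl (W.F.at' (t i) (l i + 2 * (W.rts l t).n i + 1)) = _
  rw [k.len, Forest.at_lev]

theorem on_self (i : ι) : W.On (l i) (t i) (t i) := ⟨.refl _, (k.run i).lt⟩

theorem on_cut (i : ι) : W.On (l i) (t i) (W.F.at' (t i) (l i + 1)) :=
  on_at (s := 0) (k.run i).lt

theorem inj : Injective t := fun i i' h => k.dis i i' _ (k.on_self i) (h ▸ k.on_self i')

theorem pair {s : ℕ} (h : s < (W.rts l t).n i) : W.Pass j (W.F.at' (t i) (l i + 2 * s + 1)) ∧
    W.F.kid (W.F.at' (t i) (l i + 2 * s + 1)) = W.F.at' (t i) (l i + (2 * s + 1) + 1) := by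
  have := k.len i
  have := (k.run i).ev
  have := (W.F.surj (t i)).2.1
  have a := W.F.lev_at (t i) (l := l i + 2 * s + 1) (by omega) (by omega)
  exact ⟨(k.run i).pass _ (on_at (by omega)) (by omega) fun d => by rw [d] at a; omega,
    W.F.kid_at _ (by omega) (by omega)⟩

theorem ok : (W.rts l t).Ok W.S.hang some (W.pos j) (W.R0 j) W.en := by
  refine Rts.Ok.of_mem (W.lref j) (fun i s i' s' h h' d => ?_)
    (fun i => hang_at _ (by have := (k.run i).lt; have := (W.F.surj (t i)).2.1; omega))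
    (fun i s h => ?_) (fun i s h => ⟨⟨_, (k.pair h).1, rfl⟩, congrArg nl (k.pair h).2⟩)
    fun i => Or.inr ?_
  · have a := k.len i
    have a' := k.len i'
    have d : W.F.at' (t i) (l i + s + 1) = W.F.at' (t i') (l i' + s' + 1) := inl.inj (inl.inj d)
    obtain rfl := k.dis i i' _ (on_at (s := s) (by omega)) (d ▸ on_at (s := s') (by omega))
    have := (W.F.surj (t i)).2.1
    have := congrArg W.F.lev d
    rw [W.F.lev_at _ (by omega) (by omega), W.F.lev_at _ (by omega) (by omega)] at this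
    exact ⟨rfl, by omega⟩
  · have := k.len i
    have := (W.F.surj (t i)).2.1
    exact hang_at (t i) (l := l i + s + 1) (by omega)
  · rintro _ ⟨a, h, rfl⟩ ne
    rw [k.lab] at ne ⊢
    exact h.out (k.run i).od fun d => ne (by rw [d])

/-- **The virtual frame of a state.** -/
theorem fr {O : List (Hub K N (Pt K N) r0)} (hO : ∀ i, W.cut (l i) (t i) ∈ O) :
    Fr (2 * r + 9) (fk W.S.hang O) none ((W.rts l t).vh some) ((W.rts l t).vn (W.S.O.nxt j))
      ((W.rts l t).vp (W.pos j)) Set.univ [] := k.ok.fr (W.lref j) hO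

theorem fv {O : List (Hub K N (Pt K N) r0)} (hO : ∀ i, W.cut (l i) (t i) ∈ O) :
    Fv (2 * r + 9) W.S.hang none ((W.rts l t).vh some) ((W.rts l t).vn (W.S.O.nxt j))
      ((W.rts l t).vp (W.pos j)) Set.univ [] O := k.ok.fv (W.lref j) (by omega) hO

theorem vh_cut (i : ι) : (W.rts l t).vh some (W.cut (l i) (t i)) = some (nl (t i)) := by
  rw [← k.lab]
  exact k.ok.vh_fst i

theorem hang_cut (i : ι) : W.S.hang (W.cut (l i) (t i)) 0 (W.base (l i) (t i)) := k.ok.h0 i

/-- the tail of a node of a route is at the parent -/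
theorem vh_on (h : W.On (l i) (t i) a) (g : l i + 1 < W.F.lev a) :
    (W.rts l t).vh some (nl a) = some (nl (W.F.par a)) := by
  have := k.len i
  have := h.1.1
  have := (W.F.surj (t i)).2.1
  have d := k.ok.vh_w (i := i) (k := W.F.lev a - l i - 2) (by omega)
  simp only [rts] at d
  rw [← W.F.par_at (t i) (l := l i + (W.F.lev a - l i - 2) + 1) (by omega) (by omega),
    show l i + (W.F.lev a - l i - 2 + 1) + 1 = W.F.lev a by omega,
    show l i + (W.F.lev a - l i - 2) + 1 + 1 = W.F.lev a by omega, h.1.2] at d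
  exact d

theorem off_sys (z : K × Pt K N × Fin 3) : (W.rts l t).Off (inr z) := off_of (by simp) k
theorem off_moat (w : N × Fin (r0 + 1)) : (W.rts l t).Off (inl (inr w)) := off_of (by simp) k
theorem off_nl (h : ∀ i, ¬W.On (l i) (t i) n) : (W.rts l t).Off (nl n) :=
  off_of (fun i _ g d => h i (inl.inj (inl.inj d) ▸ g)) k

/-- a carried line lies in a block of the route -/
theorem of_in {s : ℕ} (h : (W.rts l t).In (W.pos j) u i s) :
    ∃ a, W.On (l i) (t i) a ∧ a ≠ t i ∧ W.Bk j u a := by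
  have := k.len i
  have := h.1
  have := (W.F.surj (t i)).2.1
  have ne : ∀ s', l i + s' + 1 < W.F.lev (t i) → W.F.at' (t i) (l i + s' + 1) ≠ t i :=
    fun s' g d => by
      have := W.F.lev_at (t i) (l := l i + s' + 1) (by omega) (by omega)
      rw [d] at this
      omega
  obtain ⟨p, g⟩ := k.pair h.1
  rcases p.btw u h.2.1 (g ▸ h.2.2.le) with d | d
  · exact ⟨_, on_at (by omega), ne _ (by omega), d⟩
  · exact ⟨_, on_at (by omega), ne _ (by omega), g ▸ d⟩

theorem out_of (h : ∀ i a, W.On (l i) (t i) a → a ≠ t i → ¬W.Bk j u a) :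
    (W.rts l t).Out (W.pos j) u := fun i _ d =>
  let ⟨a, a1, a2, a3⟩ := k.of_in d
  h i a a1 a2 a3

/-- the anchor of a line -/
theorem an_cases (u : Hub K N (Pt K N) r0) : (W.rts l t).an (W.pos j) u = u ∨
    ∃ i a, W.On (l i) (t i) a ∧ a ≠ t i ∧ W.Bk j u a ∧ (W.rts l t).an (W.pos j) u = nl (t i) := by
  rcases (W.rts l t).out_or (W.pos j) u with h | ⟨i, s, h⟩
  · exact Or.inl (Rts.an_out h)
  · obtain ⟨a, a1, a2, a3⟩ := k.of_in h
    exact Or.inr ⟨i, a, a1, a2, a3, (k.ok.an_in (W.lref j) h).trans (k.lab i)⟩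

theorem an_cut (i : ι) : (W.rts l t).an (W.pos j) (W.cut (l i) (t i)) = nl (t i) :=
  (k.ok.an_fst (W.lref j) i).trans (k.lab i)

theorem lt_cut_iff (u : Hub K N (Pt K N) r0) (i : ι) :
    (W.rts l t).vp (W.pos j) u < (W.rts l t).vp (W.pos j) (W.cut (l i) (t i)) ↔
      W.pos j ((W.rts l t).an (W.pos j) u) < W.pos j (nl (t i)) := by
  rw [← k.lab]
  exact k.ok.lt_fst (W.lref j) u i

theorem cut_lt_iff (u : Hub K N (Pt K N) r0) (i : ι) :
    (W.rts l t).vp (W.pos j) (W.cut (l i) (t i)) < (W.rts l t).vp (W.pos j) u ↔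
      W.pos j (nl (t i)) ≤ W.pos j ((W.rts l t).an (W.pos j) u) ∧ u ≠ W.cut (l i) (t i) := by
  rw [← k.lab]
  exact k.ok.fst_lt (W.lref j) u i

theorem cut_lt_cut (i i' : ι) : (W.rts l t).vp (W.pos j) (W.cut (l i) (t i)) <
    (W.rts l t).vp (W.pos j) (W.cut (l i') (t i')) ↔
      W.pos j (nl (t i)) < W.pos j (nl (t i')) := by rw [k.lt_cut_iff, k.an_cut]

/-- before the token, unless carried behind it -/
theorem lt_cut (h : W.pos j u < W.pos j (nl (t i)))
    (g : ∀ i' a, W.On (l i') (t i') a → a ≠ t i' → W.Bk j u a →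
      W.pos j (nl (t i')) < W.pos j (nl (t i))) :
    (W.rts l t).vp (W.pos j) u < (W.rts l t).vp (W.pos j) (W.cut (l i) (t i)) := by
  rw [k.lt_cut_iff]
  rcases k.an_cases u with d | ⟨i', a, a1, a2, a3, d⟩ <;> rw [d]
  exacts [h, g i' a a1 a2 a3]

/-- after the token, unless carried before it -/
theorem cut_lt (h : W.pos j (nl (t i)) ≤ W.pos j u) (ne : u ≠ W.cut (l i) (t i))
    (g : ∀ i' a, W.On (l i') (t i') a → a ≠ t i' → W.Bk j u a →
      W.pos j (nl (t i)) ≤ W.pos j (nl (t i'))) :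
    (W.rts l t).vp (W.pos j) (W.cut (l i) (t i)) < (W.rts l t).vp (W.pos j) u := by
  refine (k.cut_lt_iff u i).2 ⟨?_, ne⟩
  rcases k.an_cases u with d | ⟨i', a, a1, a2, a3, d⟩ <;> rw [d]
  exacts [h, g i' a a1 a2 a3]

/-- two lines whose possible anchors are in order -/
theorem lt_of {P Q : Hub K N (Pt K N) r0 → Prop} (hu : P u) (hv : Q v)
    (gu : ∀ i a, W.On (l i) (t i) a → W.Bk j u a → P (nl (t i)))
    (gv : ∀ i a, W.On (l i) (t i) a → W.Bk j v a → Q (nl (t i)))
    (h : ∀ x y, P x → Q y → W.pos j x < W.pos j y) :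
    (W.rts l t).vp (W.pos j) u < (W.rts l t).vp (W.pos j) v := by
  refine Rts.vp_of_an (h _ _ ?_ ?_)
  · rcases k.an_cases u with d | ⟨i, a, a1, -, a3, d⟩ <;> rw [d]
    exacts [hu, gu i a a1 a3]
  · rcases k.an_cases v with d | ⟨i, a, a1, -, a3, d⟩ <;> rw [d]
    exacts [hv, gv i a a1 a3]

/-- a pointer whose vertex is not a node -/
theorem ptr {d : Bool} {x : Option (Hub K N (Pt K N) r0) ⊕ Hub K N (Pt K N) r0 × Fin (2 * r + 9 + 1)}
    {s : Option (Hub K N (Pt K N) r0)} (p : Ptr (2 * r + 9) W.S.hang some (W.S.O.nxt j) d x u s)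
    (h : ∀ n, x ≠ inl (some (nl n))) :
    Ptr (2 * r + 9) W.S.hang ((W.rts l t).vh some) ((W.rts l t).vn (W.S.O.nxt j)) d x u s :=
  k.ok.ptr p (fun _ g => Rts.vh_off (off_of (fun _ a _ c => h a (by rw [g, c])) k)) rfl

end Rs

/-- routes in different trees are disjoint -/
theorem Rs.of_tree (h : ∀ i, W.Run j (l i) (t i))
    (g : ∀ i i', W.F.tree (t i) = W.F.tree (t i') → i = i') : W.Rs j l t :=
  ⟨h, fun i i' _ a a' => g i i' (a.1.tree.symm.trans a'.1.tree)⟩

theorem Rs.two {l0 l1 : ℕ} {t0 t1 : N} (h0 : W.Run j l0 t0) (h1 : W.Run j l1 t1)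
    (g : ∀ a, W.On l0 t0 a → ¬W.On l1 t1 a) : W.Rs j ![l0, l1] ![t0, t1] :=
  ⟨fun i => by fin_cases i; exacts [h0, h1], fun i i' a c c' => by
    fin_cases i <;> fin_cases i'
    exacts [rfl, (g a c c').elim, (g a c' c).elim, rfl]⟩

theorem Rs.one {l0 : ℕ} {t0 : N} (h0 : W.Run j l0 t0) : W.Rs j ![l0] ![t0] :=
  ⟨fun i => by fin_cases i; exact h0, fun _ _ _ _ _ => Subsingleton.elim _ _⟩

theorem On.tree_ne {l0 l1 : ℕ} {t0 t1 : N} (h : W.F.tree t0 ≠ W.F.tree t1) (a : N)
    (c : W.On l0 t0 a) : ¬W.On l1 t1 a := fun c' => h (c.1.tree.symm.trans c'.1.tree)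

end Wd

end Pool.Agent.P.MP_439f1f_co
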