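import Pool.Agent.P.MP_439f1f_co.Sf2

/-!
Safety of the payload, third part: tokens in reversed trees.
-/

set_option autoImplicit false

namespace Pool.Agent.P.MP_439f1f_co

open Function Sum Relation

variable {P Z β N T : Type*} [LinearOrder β]

/-- the node comes directly before its moat, and the port is `0` -/
def Back (pos : P ⊕ Z → β) (p : ℕ) (u : P) (e : ℕ → P) : Prop :=
  p = 0 ∧ pos (inl u) < pos (inl (e 0)) ∧ ∀ q, pos (inl u) < pos (inl q) → pos (inl (e 0)) ≤ pos (inl q)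

/-- the route above `a` has a killed node or consists of pass pairs -/
def Tre.Rte (R : Tre N T) (pos : P ⊕ Z → β) (u : N → P) (blk : P ⊕ Z → N → Prop) (kl : N → Prop)
    (a : N) : Prop :=
  (∃ k, R.Up a k ∧ kl k) ∨ ∀ v, R.Up a v → R.lev v % 2 = 0 → R.Pas pos u blk v

/-- The token at `s` dies in a reversed tree: it is killed at `k`, or it leaves through an open node
`v` towards `X` and closes the interval `(s, X]`, which consists of untouched blocks of the zone
`Zn`. -/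
def Tre.Rev (R : Tre N T) (pos : P ⊕ Z → β) (r : ℕ) (u : N → P) (e : N → ℕ → P) (ell : N → ℕ → N)
    (blk : P ⊕ Z → N → Prop) (kl : N → Prop) (opn : N → ℕ → Prop) (Dn Zn : N → Prop) (s : N) :
    Prop :=
  (∀ j, ¬opn s j) ∧ (∀ n, R.tree n = R.tree s → Zn n) ∧ ∃ k, R.Up s k ∧ kl k ∧
    (∀ n, R.Kl k n → ¬Dn n ∧ (n = k ∨ ∀ j, ¬opn n j)) ∧
    ∀ v j, R.Up s v → R.Up v k → opn v j → R.Alive pos u blk opn (ell v j) ∧
      R.lev (ell v j) % 2 = 1 ∧
      (∀ w, R.Up s w → R.Up w v → w ≠ s →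
        pos (inl (u s)) < pos (inl (u w)) ∧ pos (inl (u w)) ≤ pos (inl (u (ell v j)))) ∧
      (∀ i < r, pos (inl (u s)) < pos (inl (e v i)) ∧
        pos (inl (e v i)) ≤ pos (inl (u (ell v j)))) ∧
      ∀ L, pos (inl (u s)) ≤ pos L → pos L ≤ pos (inl (u (ell v j))) →
        ∃ n, blk L n ∧ ¬Dn n ∧ Zn n

/-- the token at `s` dies in a reversed tree, the other token `b` stays outside -/
def Tre.Tt (R : Tre N T) (pos : P ⊕ Z → β) (r : ℕ) (u : N → P) (e : N → ℕ → P) (ell : N → ℕ → N)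
    (blk : P ⊕ Z → N → Prop) (kl : N → Prop) (opn : N → ℕ → Prop) (Dn : N → Prop) (s b : N) :
    Prop :=
  ∃ Zn, R.Rev pos r u e ell blk kl opn Dn Zn s ∧
    (b = s ∨ ∀ w, R.Up b w → ¬Zn w ∧ ∀ j, ¬opn w j)

variable {R : Tre N T} {m : ℕ} {hang : P ⊕ Z → ℕ → Option (P ⊕ Z) → Prop}
  {tB : P ⊕ Z → Option (P ⊕ Z)} {hO : P → Option (P ⊕ Z)} {prv : P → P ⊕ Z}
  {nxt : Equiv.Perm (P ⊕ Z)} {pos : P ⊕ Z → β} {r : ℕ} {u : N → P} {e : N → ℕ → P}
  {ell : N → ℕ → N} {p : N → ℕ} {kl : N → Prop} {blk : P ⊕ Z → N → Prop}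
  {x y : Option (P ⊕ Z)} {τ τ' η : P ⊕ Z → Option (P ⊕ Z)} {L0 : P ⊕ Z} {Dn Q : N → Prop}
  {opn : N → ℕ → Prop}

theorem Tre.Up.total {a v w : N} (h : R.Up a v) (h' : R.Up a w) : R.Up v w ∨ R.Up w v :=
  ReflTransGen.total_of_right_unique (fun _ _ _ a b => a.2.trans b.2.symm) h h'

theorem rkey_out {a b v w : β} (h : a ≤ b) (hv : v < a ∨ b < v) (hw : w < a ∨ b < w) :
    rkey a v < rkey a w ↔ rkey b v < rkey b w := by
  simp only [rkey_lt]
  grind

theorem rkey_mid {a b v w : β} (h1 : a ≤ v) (h2 : v ≤ b) (hw : w < a ∨ b < w) :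
    rkey a v < rkey a w := by
  simp only [rkey_lt]
  grind

omit [LinearOrder β] in
theorem Drt.sn (D : Drt r e τ τ') {q : P} : Sn x y τ' q ↔ Sn x y τ q := by
  have : ∀ w, τ' (inr w) = τ (inr w) := fun w => D.out _ (by simp)
  simp only [Sn, this]

namespace Sit

variable (S : Sit R m hang tB hO prv nxt pos r u e ell p kl blk x y τ η L0 Dn)

include S

theorem u_ne {a : N} {s : Option (P ⊕ Z)} (h : s = some (inl (u a))) (n : N) :
    ∀ i < r, s ≠ some (inl (e n i)) := fun i hi d =>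
  S.pay.une a n i hi (by simpa using h.symm.trans d)

theorem u_eq {a b : N} {s : Option (P ⊕ Z)} (h : s = some (inl (u a))) (h' : s = some (inl (u b))) :
    a = b := S.pay.uinj (by simpa using h.symm.trans h')

theorem blk_e (n : N) {i : ℕ} (hi : i < r) : blk (inl (e n i)) n := by
  have G := S.geo.moat n
  have a := el_lt G.plt hi
  have b := G.first_le a
  have d := G.pos_le (n := el r (p n) i) (k := r - 1) (by omega) (by omega)
  rw [el_el G.plt hi] at b d
  exact S.geo.bm n _ b (Or.inl d)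

/-- a payload hub of a block of another tree is outside the pairs -/
theorem pcs_tree (h : ∀ v, Q v → R.lev v % 2 = 0 → R.Pas pos u blk v) {n : N} {L : P ⊕ Z}
    (hL : ∀ n', blk L n' → n' = n) (ht : ∀ v, Q v → R.tree v ≠ R.tree n) :
    ∀ s ∈ R.pcs u Q, pos L < pos s ∨ pos (R.pen u s) < pos L :=
  S.pcs_av h fun n' v a b d => hL n' a ▸
    ⟨fun f => ht v b (by rw [f, R.tree_par v (Tre.two_le d)]), fun f => ht v b (by rw [f])⟩

variable [Finite P] [Finite Z] [Finite N] (E : Exi R nxt pos r u e ell p kl opn x y τ η L0 Dn)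

include E

omit E [Finite N] in
/-- two ends leave a set of nodes that is closed downwards, so two tokens enter -/
theorem two_in {V : N → Prop} (Vc : ∀ n, 2 ≤ R.lev n → V (R.par n) → V n)
    {a b : En (P ⊕ Z)} {v w : N} (ne : a ≠ b) (hv : V v) (hw : V w)
    (a1 : a.hub none none some (fun L => some (nxt L)) = some (inl (u v)))
    (a2 : ∀ n, V n → a.hub x y τ η ≠ some (inl (u n)))
    (b1 : b.hub none none some (fun L => some (nxt L)) = some (inl (u w)))
    (b2 : ∀ n, V n → b.hub x y τ η ≠ some (inl (u n))) :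
    ∃ c d : En (P ⊕ Z), c ≠ d ∧ ∀ f, f = c ∨ f = d → ∃ n, V n ∧
      f.hub x y τ η = some (inl (u n)) ∧ (f = .lo ∨ f = .hi ∨ (∃ z, f = .tl (inr z)) ∨
        ∃ n', ∃ k < r, f = .hd (prv (e n' k)) ∧ n = ell n' k) := by
  obtain ⟨c, d, c1, d1, cd⟩ := S.sta.ref.out_of_in2 S.ends
    (U := {s | ∃ n, V n ∧ s = some (inl (u n))}) a b ne ⟨v, hv, a1⟩
    (fun ⟨n, g, h⟩ => a2 n g h) ⟨w, hw, b1⟩ fun ⟨n, g, h⟩ => b2 n g h
  refine ⟨c, d, cd, fun f hf => ?_⟩
  obtain ⟨⟨n, h1, h2⟩, h3⟩ : f.hub x y τ η ∈ {s | ∃ n, V n ∧ s = some (inl (u n))} ∧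
      f.hub none none some (fun L => some (nxt L)) ∉ {s | ∃ n, V n ∧ s = some (inl (u n))} :=
    hf.elim (fun g => g ▸ c1) fun g => g ▸ d1
  refine ⟨n, h1, h2, ?_⟩
  rcases f with (q | z) | L | _ | _
  · exfalso
    have h4 : τ (inl q) ≠ some (inl q) := fun f => h3 ⟨n, h1, f.symm.trans h2⟩
    have h5 := (((S.sta.tl _ _).1 (S.ends.ht _)).resolve_left h4).symm.trans h2
    rcases S.pay.all q with ⟨n', rfl⟩ | ⟨n', i, hi, rfl⟩
    · rcases (R.one n').eq_or_lt with l | l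
      · cases (S.pay.tB1 n' l.symm).symm.trans h5
      · exact h3 ⟨n', Vc n' l (S.u_eq (S.pay.tB2 n' l) h5 ▸ h1), rfl⟩
    · exact S.u_ne h5 n' _ (sc_lt' hi) ((S.geo.moat n').tBe i hi)
  · exact Or.inr (Or.inr (Or.inl ⟨z, rfl⟩))
  · obtain ⟨q, rfl⟩ := S.sta.hs L _ ((show η L = _ from h2) ▸ S.ends.hh L)
    have h4 : η (prv q) ≠ some (inl q) := fun f =>
      h3 ⟨n, h1, (congrArg some (S.sta.nprv q)).trans (f.symm.trans h2)⟩
    rcases S.pay.all q with ⟨n', rfl⟩ | ⟨n', i, hi, rfl⟩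
    · exact absurd (S.head (S.u_ne h2 n' 0 (S.rpos n))) h4
    · exact Or.inr (Or.inr (Or.inr ⟨n', i, hi, rfl, S.u_eq h2 (S.entry hi h4)⟩))
  · exact Or.inl rfl
  · exact Or.inr (Or.inl rfl)

/-- an entry comes from an exit or starts a token -/
theorem entry_tok {n : N} {k : ℕ} (hk : k < r) (h : η (prv (e n k)) ≠ some (inl (e n k))) :
    Tok prv r u e ell x y τ η (ell n k) ∨ (η (prv (u n)) = some (inl (e n 0)) ∧
      Can pos r (p n) (u n) (e n) k) := by
  by_cases d : η (prv (u n)) = some (inl (e n 0))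
  · obtain ⟨j, d1, -, d2, -⟩ := S.exit_nf E d
    exact Or.inr ⟨d, by_contra fun f => h (d2.2.2.1 k hk fun g => f (g ▸ d1))⟩
  · exact Or.inl (Or.inr ⟨n, k, hk, rfl, h, d, (S.entry_src hk h).resolve_left d⟩)

/-- **A token in a reversed tree.** -/
theorem rev_false {Zn : N → Prop} {s : N} (h : R.Rev pos r u e ell blk kl opn Dn Zn s)
    (hs : Sn x y τ (u s) ∨ ∃ n, ∃ k < r, s = ell n k ∧ η (prv (e n k)) ≠ some (inl (e n k)))
    (ot : ∀ b, Tok prv r u e ell x y τ η b → b = s ∨ ∀ w, R.Up b w → ¬Zn w ∧ ∀ j, ¬opn w j) :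
    False := by
  obtain ⟨a1, a2, k, a3, a4, a5, a6⟩ := h
  have ns := S.no_exit E a1
  have ts : τ (inl (u s)) ≠ some (inl (u s)) := by
    rcases hs with hs | ⟨n, j, hj, rfl, hs⟩
    exacts [S.lose_sn ns hs, S.lose_en hj hs ns]
  by_cases ne : ∀ w, R.Up s w → R.Up w k → η (prv (u w)) ≠ some (inl (e w 0))
  · exact S.dead a3 a4 (fun _ => ts) ne fun n d => ⟨(a5 n d).1, (a5 n d).2.elim
      (fun f => f ▸ ne k a3 Tre.Up.refl) (S.no_exit E)⟩
  push Not at ne
  obtain ⟨v, v1, v2, he⟩ := ne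
  obtain ⟨j, c1, c2, B, -⟩ := S.exit_nf E he
  have hj := B.1
  have r0 := S.rpos v
  obtain ⟨x1, x2, x3, x4, x5⟩ := a6 v j v1 v2 c2
  have tx : R.tree (ell v j) ≠ R.tree s := v1.tree ▸ S.pay.hx v j hj
  have two : ∀ n, R.Up s n → ∀ a : En (P ⊕ Z), ∀ w, R.Up w n → R.Up v n →
      a.hub none none some (fun L => some (nxt L)) = some (inl (u w)) →
      (∀ n', R.Up n' n → a.hub x y τ η ≠ some (inl (u n'))) → a = .hd (prv (u v)) :=
    fun n f a w g1 g2 g3 g4 => by_contra fun d => by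
      obtain ⟨c, d, cd, g⟩ := S.two_in (V := fun n' => R.Up n' n) (fun _ l g => g.kid l) d g1 g2 g3
        g4 (congrArg some (S.sta.nprv _)) fun n' _ g => S.u_ne g v 0 r0 he
      have k : ∀ f, f = c ∨ f = d → f.hub x y τ η = some (inl (u s)) ∧ f ≠ .hd (prv (u s)) :=
        fun b hb => by
          obtain ⟨n', g1, g2, g3⟩ := g b hb
          have t : R.tree n' = R.tree s := g1.tree.symm.trans f.tree
          have k : Tok prv r u e ell x y τ η n' → n' = s := fun d =>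
            (ot n' d).resolve_right fun d => (d n' Tre.Up.refl).1 (a2 n' t)
          rcases g3 with rfl | rfl | ⟨z, rfl⟩ | ⟨w, i, hi, rfl, rfl⟩
          · exact ⟨k (Or.inl (Or.inl g2)) ▸ g2, by simp⟩
          · exact ⟨k (Or.inl (Or.inr (Or.inl g2))) ▸ g2, by simp⟩
          · exact ⟨k (Or.inl (Or.inr (Or.inr ⟨z, g2⟩))) ▸ g2, by simp⟩
          · refine ⟨k ((S.entry_tok E hi (S.u_ne g2 w i hi)).resolve_right fun d =>
              E.s1 w i d.2 v (v1.tree.trans t.symm) j c1) ▸ g2, fun d => ?_⟩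
            exact S.pay.une _ _ i hi (S.prv_inj (En.hd.inj d)).symm
      exact (S.ends.full cd (k c (Or.inl rfl)).1 (k d (Or.inr rfl)).1 (d := .hd (prv (u s)))
        (S.head ns)).elim (k c (Or.inl rfl)).2.symm (k d (Or.inr rfl)).2.symm
  have uq : ∀ n, η (prv (u n)) = some (inl (e n 0)) → n = v := fun n d => by
    obtain ⟨i, -, d1, -, b, d2, d3⟩ := S.exit_nf E d
    obtain rfl := (ot b d3).resolve_right fun f => (f n d2).2 i d1
    have k := fun w f g1 g2 => S.pay.uinj (S.prv_inj (En.hd.inj (two w f (.hd (prv (u n))) n g1 g2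
      (congrArg some (S.sta.nprv _)) fun n' _ g => S.u_ne g n 0 r0 d)))
    exact (v1.total d2).elim (k n d2 Tre.Up.refl) fun g => k v v1 g Tre.Up.refl
  have lo : ∀ n, R.Up s n → τ (inl (u n)) ≠ some (inl (u n)) →
      2 ≤ R.lev n ∧ R.Up (R.par n) v := fun n f d => by
    have k : ¬R.Up v n := fun g => by
      cases two n f (.tl (inl (u n))) n Tre.Up.refl g rfl fun n' g' d' => by
        rcases (R.one n).eq_or_lt with l | l
        · cases (S.pay.tB1 n l.symm ▸ ((S.sta.tl _ _).1 (S.ends.ht _)).resolve_left d).symm.trans d'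
        · have := (S.u_eq d' (S.tail l d) ▸ g').lev_le
          have := R.lev_par n l
          omega
    exact ((f.total v1).resolve_right k).cases.resolve_left fun g => k (g ▸ Tre.Up.refl)
  obtain ⟨τ', e', c', D⟩ := S.sta.derot (N := {n // ¬Dn n ∧ n ≠ v}) (u := fun n => u n)
    (e := fun n => e n) (p := fun n => p n) (fun n => S.geo.moat n)
    (fun n n' i hi j hj h => Subtype.ext (S.dis _ _ i hi j hj h)) S.ends S.cn fun n _ => by
      have cl := S.cln n.2.1
      have := (S.geo.moat n).three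
      exact (S.geo.moat n).seg_idle S.sta S.ends cl.hx cl.hy (fun d => n.2.2 (uq n d)) (i0 := 0)
        (by omega) fun L a b _ => cl.pc L a (Or.inl b)
  have ou : ∀ n, τ' (inl (u n)) = τ (inl (u n)) := fun n => D.out _ fun n' i hi h =>
    S.pay.une _ _ i hi (inl_injective h)
  have pas := fun w f => (x1 w f).2
  have nr : ∀ w, R.Up (ell v j) w → η (prv (u w)) ≠ some (inl (e w 0)) :=
    fun w f d => tx (f.tree.symm.trans (uq w d ▸ v1.tree))
  have av := fun n L (f : R.Up s n) (h : ∀ n', blk L n' → n' = n) =>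
    S.pcs_tree pas h fun w g => f.tree ▸ g.tree ▸ tx
  have wn : ∀ n L, R.Up s n → (∀ n', blk L n' → n' = n) →
      pos (inl (u s)) < pos L ∧ pos L ≤ pos (inl (u (ell v j))) →
      some L ∈ some '' Win pos (R.pcs u (R.Up (ell v j))) (R.pen u) (inl (u s)) (inl (u (ell v j))) :=
    fun n L f h l => ⟨L, ⟨l.1, l.2, fun t ht d => (av n L f h t ht).elim d.1.not_gt d.2.not_gt⟩, rfl⟩
  have wu : ∀ n, R.Up s n → τ (inl (u n)) ≠ some (inl (u n)) → τ' (inl (u n)) ∈
      some '' Win pos (R.pcs u (R.Up (ell v j))) (R.pen u) (inl (u s)) (inl (u (ell v j))) :=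
    fun n f d => by
      obtain ⟨l, g⟩ := lo n f d
      rw [ou, S.tail l d]
      refine wn _ _ (f.par l) (S.geo.bu _) (x3 _ (f.par l) g fun d => ?_)
      have := f.lev_le
      have := R.lev_par n l
      rw [d] at this
      omega
  have we := fun i hi => wn v _ v1 (fun n' => S.geo.be _ _ i hi) (x4 i hi)
  have sx := (x4 0 r0).1.trans_le (x4 0 r0).2
  have idl := fun n (d : ¬Dn n) (f : n ≠ v) => (S.geo.moat n).idle S.sta S.ends (S.cln d).hx
    (S.cln d).hy fun g => f (uq n g)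
  refine e'.no_win_low (hb := some) c' S.sta.cyc sx (S.pcs_lt pas) (S.pcs_dis pas)
    (fun t ht d => (av s _ Tre.Up.refl (S.geo.bu _) t ht).elim d.1.not_gt d.2.le.not_gt)
    (wu s Tre.Up.refl ts) (fun L l h1 h2 => ?_) ?_ (fun L l _ => ?_) fun l => ?_
  · obtain ⟨n', d1, d2, d3⟩ := x5 L l.1.le l.2.1
    rcases (S.pcl L n' d1 d2).2.1 with d | ⟨w, rfl⟩
    · exact Or.inl (D.stay d)
    refine or_iff_not_imp_left.2 fun d => ?_
    rcases S.pay.all w with ⟨n, rfl⟩ | ⟨n, i, hi, rfl⟩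
    · obtain rfl := S.geo.bu _ _ d1
      rw [ou] at d
      by_cases f : R.Up s n'
      · exact wu n' f d
      exfalso
      have g : R.Up (ell v j) n' := by
        have k : ∀ b, Tok prv r u e ell x y τ η b → ¬R.Up b n' := fun b g1 g2 =>
          (ot b g1).elim (fun g => f (g ▸ g2)) fun g => (g n' g2).1 d3
        obtain ⟨b, g1, g2 | ⟨w, i, hi, rfl, g2⟩⟩ := S.src (Or.inl d)
        · exact absurd g1 (k b (Or.inl g2))
        · obtain rfl := uq w ((S.entry_tok E hi g2).resolve_left fun g => k _ g g1).1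
          obtain rfl : i = j := by_contra fun g => g2 (B.2.2.1 i hi g)
          exact g1
      have := S.pcs_on (a := ell v j) (b := ell v j) (Or.inl g) (by simpa only [or_self] using h1)
        (by
          simp only [or_self]
          rintro t ht d
          exact l.2.2 t ht ⟨d ▸ S.pcs_lt pas t ht, d ▸ le_rfl⟩)
      exact h2 (by rw [this.2.elim id id])
    · obtain rfl := S.geo.be _ _ i hi d1
      obtain rfl : n' = v := by_contra fun f => d ((idl n' d2 f).2.elim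
        (fun h => D.rot ⟨n', d2, f⟩ h i hi) fun h => D.stay (h i hi))
      rw [((S.sta.tl _ _).1 (e'.ht _)).resolve_left d, (S.geo.moat n').tBe i hi]
      exact we _ (sc_lt' hi)
  · rintro _ ⟨w, f, g, rfl⟩ -
    rw [Tre.pen_par S.pay.uinj g, ou]
    exact S.tail (Tre.two_le g) (S.climb f (S.lose_en hj B.2.1 (nr _ Tre.Up.refl))
      fun w' g _ => nr w' g)
  · obtain ⟨l1, l2, -⟩ := S.sta.cyc.pre_win l
    obtain ⟨n', d1, d2, -⟩ := x5 L l1 l2.le
    rcases (S.pcl L n' d1 d2).2.2 with d | ⟨w, d⟩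
    · exact Or.inl d
    obtain ⟨n', d1, d2, -⟩ := x5 _ l.1.le l.2.1
    rw [d] at d1 ⊢
    rw [S.sta.eq_prv d]
    refine or_iff_not_imp_left.2 fun f => ?_
    rcases S.pay.all w with ⟨n, rfl⟩ | ⟨n, i, hi, rfl⟩
    · obtain rfl : n = v := uq n (by_contra fun g => f (S.head g))
      exact he ▸ we 0 r0
    · obtain rfl := S.geo.be _ _ i hi d1
      obtain rfl : n' = v := by_contra fun g => f ((idl n' d2 g).1 i hi)
      obtain rfl : i = j := by_contra fun g => f (B.2.2.1 i hi g)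
      exact ⟨_, ⟨sx, le_rfl, S.pcs_odd pas x2⟩, (S.entry hi f).symm⟩
  · obtain ⟨l1, l2, -⟩ := S.sta.cyc.pre_win l
    obtain ⟨n', d1, d2, -⟩ := x5 L0 l1 l2.le
    exact absurd rfl (S.pcl L0 n' d1 d2).1

theorem tt_false {s b : N} (h : R.Tt pos r u e ell blk kl opn Dn s b)
    (hs : Sn x y τ (u s) ∨ ∃ n, ∃ k < r, s = ell n k ∧ η (prv (e n k)) ≠ some (inl (e n k)))
    (ot : ∀ t, Tok prv r u e ell x y τ η t → t = s ∨ t = b) : False :=
  let ⟨_, h1, h2⟩ := h
  S.rev_false E h1 hs fun t d => (ot t d).elim Or.inl fun f => f ▸ h2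

end Sit

end Pool.Agent.P.MP_439f1f_co
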