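import Pool.Agent.P.MP_439f1f_co.B18
import Pool.Agent.P.MP_439f1f_co.Sf3

/-!
The construction as an instance of the data of the safety chapter.
-/

set_option autoImplicit false
set_option linter.unusedSectionVars false

namespace Pool.Agent.P.MP_439f1f_co

open Sum Function

namespace Forest

variable {X C T N : Type} {cl : X → C} {tr : C → T} {D e b : ℕ} (F : Forest X C T N cl tr D e b)

/-- the trees of a forest -/
noncomputable def tre : Tre N T where
  lev := F.lev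
  par := F.par
  kid := F.kid
  tree := F.tree
  one n := (F.surj n).1
  lev_par _ := F.lev_par
  tree_par _ h := (anc_par h).tree
  kid_par _ h := F.kid_par (Nat.even_iff.2 h)

@[simp] theorem tre_lev : F.tre.lev = F.lev := rfl
@[simp] theorem tre_par : F.tre.par = F.par := rfl
@[simp] theorem tre_kid : F.tre.kid = F.kid := rfl
@[simp] theorem tre_tree : F.tre.tree = F.tree := rfl

variable {F} {a v k n : N}

theorem up_iff : F.tre.Up a v ↔ F.Anc v a := by
  refine ⟨fun h => ?_, fun h => ?_⟩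
  · induction h with
    | refl => exact .refl _
    | tail _ h ih => exact h.2 ▸ (anc_par h.1).trans ih
  · obtain ⟨s, hs⟩ := Nat.exists_eq_add_of_le h.1
    induction s generalizing a with
    | zero => exact h.eq hs.le ▸ Tre.Up.refl
    | succ s ih =>
      obtain ⟨c, d⟩ := h.par fun d => by rw [d] at hs; omega
      exact Tre.Up.kid (ih (a := F.par a) d (by have := F.lev_par c; omega)) c

/-- the loop of an even node consists of the node and its parent -/
theorem kl_even (h : F.lev k % 2 = 0) : F.tre.Kl k n ↔ n = F.par k ∨ n = k := by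
  have c : 2 ≤ F.lev k := F.tre.two_le h
  refine or_congr_right ⟨fun ⟨a, d⟩ => ?_, fun d => by rw [d]; exact ⟨c, rfl⟩⟩
  have a1 := F.lev_par a
  have a2 := F.lev_par c
  have d : F.par n = F.par k := d
  rw [← F.kid_par (n := n) (Nat.even_iff.2 (by rw [d] at a1; omega)), d,
    F.kid_par (Nat.even_iff.2 h)]

end Forest

variable {K N β : Type} [DecidableEq K] [LinearOrder β] {r r0 q D e b : ℕ}
  [Finite K] [Finite N] [Nonempty K]

namespace Wd

variable (W : Wd K N β r r0 q D e b)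

/-- the line that ends at a payload hub -/
noncomputable abbrev prv (p : N ⊕ N × Fin (r0 + 1)) : Hub K N (Pt K N) r0 := W.S.O.dA.symm (inl p)

/-- the entry label of a moat hub -/
noncomputable def ell (n : N) (i : ℕ) : N := W.S.sn (W.prv (mo n i)) true .Z

theorem nd_mo (n : N) (i : ℕ) : nd (mo n i : N ⊕ N × Fin (r0 + 1)) = n := rfl

theorem in_prv (p : N ⊕ N × Fin (r0 + 1)) : W.In (W.prv p) (nd p) :=
  W.in_dA.1 (by rw [prv, Equiv.apply_symm_apply]; exact W.in_pay p)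

theorem nxt_prv (j : K) (p : N ⊕ N × Fin (r0 + 1)) : W.S.O.nxt j (W.prv p) = inl p :=
  W.S.O.nxt_pay (W.S.O.dA.apply_symm_apply _)

theorem col_ell (hD : 1 ≤ D) (n : N) (i : ℕ) : W.S.col (W.ell n i) = W.S.col n + 1 :=
  (W.S.col_sn hD _ _ _).trans (W.col_in (W.in_prv (mo n i)) true)

theorem wor_ell (hD : 1 ≤ D) (n : N) (i : ℕ) : W.S.wor (W.ell n i) = W.S.wor n := by
  rw [ell, W.S.wor_sn hD]
  simp only [Pre.typ, prv, Equiv.apply_symm_apply]
  rfl

theorem lev_ell (hD : 1 ≤ D) (n : N) (i : ℕ) : W.F.lev (W.ell n i) = D := W.S.lev_sn hD _ _ _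

/-- the class of an entry label -/
theorem tree_ell (hD : 1 ≤ D) (n : N) (i : ℕ) : (W.F.tree (W.ell n i)).1 =
    (.hM (W.S.wor n) (W.S.col n + 1) (Fin.ofNat (r0 + 1) i), .Z) := by
  refine (congrArg Subtype.val (W.S.tree_sn hD _ _ _)).trans ?_
  simp only [Pre.typ, prv, Equiv.apply_symm_apply]
  rfl

theorem tree_ne_of_col {n n' : N} (h : W.S.col n ≠ W.S.col n') : W.F.tree n ≠ W.F.tree n' :=
  fun c => h (congrArg (fun t : Kl K r r0 => t.1.1.col) c)

theorem mo_inj {n n' : N} {i i' : ℕ} (h : i < r0 + 1) (h' : i' < r0 + 1)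
    (c : (mo n i : N ⊕ N × Fin (r0 + 1)) = mo n' i') : n = n' ∧ i = i' := by
  simpa [mo, Fin.ext_iff, Nat.mod_eq_of_lt h, Nat.mod_eq_of_lt h'] using c

theorem mo_val (n : N) (i : Fin (r0 + 1)) : mo n i = inr (n, i) := by simp [mo]

theorem pay (hD : 1 ≤ D) : Pay W.F.tre W.S.tB W.S.hO (r0 + 1) inl mo W.ell where
  uinj := inl_injective
  une _ _ _ _ := by simp [mo]
  dis _ _ _ h _ h' := mo_inj h h'
  all := by
    rintro (n | ⟨n, i⟩)
    exacts [Or.inl ⟨n, rfl⟩, Or.inr ⟨n, i, i.2, (mo_val n i).symm⟩]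
  tB1 _ h := if_pos h
  tB2 n h := if_neg (by have : 2 ≤ W.F.lev n := h; omega : ¬W.F.lev n = 1)
  hOe _ _ _ := rfl
  hx n i _ := W.tree_ne_of_col (W.col_ne hD (W.in_prv (mo n i)) _ _)

theorem sta (j : K) :
    Sta (2 * r + 9) W.S.hang W.S.tB W.S.hO W.prv (W.S.O.nxt j) (W.pos j) := W.S.fit.sta j

/-- the node `k` comes before its parent, and only blocks of its loop lie between them -/
def Kill (j : K) (k : N) : Prop :=
  2 ≤ W.F.lev k ∧ W.pos j (nl k) < W.pos j (nl (W.F.par k)) ∧ ∀ L, W.pos j (nl k) ≤ W.pos j L →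
    W.pos j L ≤ W.pos j (nl (W.F.par k)) → ∃ n, W.Bk j L n ∧ W.F.tre.Kl k n

variable {W} {j : K} {k n v : N} {L u u' : Hub K N (Pt K N) r0}

/-- a block is an interval -/
theorem Bk.itv (h : W.Bk j u n) (h' : W.Bk j u' n) (a : W.pos j u ≤ W.pos j L)
    (a' : W.pos j L ≤ W.pos j u') : W.Bk j L n := by
  obtain ⟨x, c, rfl⟩ := btw (P := fun x => x = n) h h' rfl a a' fun d _ b1 b2 =>
    ⟨n, W.bki j (le_antisymm b2 b1), rfl⟩
  exact c

theorem Kill.of_bk (l : 2 ≤ W.F.lev k) (h1 : W.bk j (inl k) < W.bk j (inl (W.F.par k)))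
    (h2 : ∀ d, W.B.fb j d = W.B.fam j k → W.bk j (inl k) ≤ W.bk j d →
      W.bk j d ≤ W.bk j (inl (W.F.par k)) → ∃ x, d = inl x ∧ W.F.tre.Kl k x) : W.Kill j k := by
  have f : W.B.fam j k = W.B.fam j (W.F.par k) := fam_tree (Forest.anc_par l).tree.symm
  exact ⟨l, lt_of_bk (Bk.self W j _) (Bk.self W j _) f h1,
    fun _ a1 a2 => btw (Bk.self W j _) (Bk.self W j _) f a1 a2 h2⟩

/-- the block of the parent is the next block of the ring -/
theorem Kill.of_next (l : 2 ≤ W.F.lev k) (h1 : W.bk j (inl k) < W.bk j (inl (W.F.par k)))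
    (h2 : ∀ d, W.B.fb j d = W.B.fam j k →
      W.bk j d ≤ W.bk j (inl k) ∨ W.bk j (inl (W.F.par k)) ≤ W.bk j d) : W.Kill j k :=
  Kill.of_bk l h1 fun d g b1 b2 => (h2 d g).elim
    (fun c => ⟨_, W.bki j (le_antisymm c b1), Or.inr ⟨l, rfl⟩⟩)
    fun c => ⟨_, W.bki j (le_antisymm b2 c), Or.inl rfl⟩

variable (W) in
/-- **The geometry of a state.** -/
theorem geo (ev : r0 % 2 = 0) (two : 2 ≤ r0) (j : K) :
    Geo W.F.tre W.S.tB W.S.hO (W.pos j) (r0 + 1) inl mo (fun n => W.port j n) (W.Kill j)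
      (W.Bk j) where
  moat := W.moat ev two j
  bs := Bk.self W j
  bu _ _ := bk_nl.1
  be _ _ _ _ := bk_pay.1
  bm n _ a c := c.elim (fun c => Bk.itv (bk_pay.2 rfl) (bk_pay.2 rfl) a c)
    fun c => Bk.itv (bk_pay.2 rfl) (Bk.self W j n) a c.2.le
  kill _ h := h

theorem pas_iff (h : W.F.lev v % 2 = 0) :
    W.F.tre.Pas (W.pos j) inl (W.Bk j) v ↔ W.Pass j (W.F.par v) := by
  have a := W.F.kid_par (Nat.even_iff.2 h)
  have c := W.F.lev_par (W.F.tre.two_le h)
  have := (W.F.surj v).2.1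
  refine ⟨fun d => ⟨by omega, by omega, a.symm ▸ d.1, fun L b1 b2 => ?_⟩,
    fun d => ⟨d.lt.trans_eq (by rw [a]), fun L b1 b2 => ?_⟩⟩
  · obtain ⟨x, k1, rfl | rfl⟩ := d.2 L b1 (a ▸ b2)
    exacts [Or.inl k1, Or.inr (a.symm ▸ k1)]
  · exact (d.btw L b1 (a.symm ▸ b2)).elim (fun g => ⟨_, g, Or.inl rfl⟩)
      fun g => ⟨_, g, Or.inr a⟩

theorem Pass.pas (h : W.Pass j n) : W.F.tre.Pas (W.pos j) inl (W.Bk j) (W.F.kid n) :=
  (pas_iff (by have := W.F.lev_kid h.lev; have := h.odd; omega)).2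
    ((W.F.par_kid h.lev).symm ▸ h)

/-- the route above an odd node: pass pairs for service and for safety -/
theorem run_iff {t : N} (o : W.F.lev t % 2 = 1) : W.Run j 0 t ↔
    ∀ v, W.F.tre.Up t v → W.F.lev v % 2 = 0 → W.F.tre.Pas (W.pos j) inl (W.Bk j) v := by
  refine ⟨fun h v a c => (pas_iff c).2 ?_, fun h => ⟨rfl, o, (W.F.surj t).1, fun a c d ne => ?_⟩⟩
  · have d := W.F.tre.two_le c
    have g := W.F.lev_par d
    have a := Forest.up_iff.1 a
    have := a.1
    exact h.pass _ ⟨(Forest.anc_par d).trans a, (W.F.surj _).1⟩ (by omega)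
      fun k => by rw [k] at g; omega
  · have := mt c.1.eq ne
    have := (W.F.surj t).2.1
    have g : W.F.lev a < D := by omega
    have := W.F.lev_kid g
    exact W.F.par_kid g ▸ (pas_iff (by omega)).1
      (h _ (Forest.up_iff.2 (c.1.kid d ne)) (by omega))

theorem Alive.run {opn : N → ℕ → Prop} {t : N} (o : W.F.lev t % 2 = 1)
    (h : W.F.tre.Alive (W.pos j) inl (W.Bk j) opn t) : W.Run j 0 t :=
  (run_iff o).2 fun v a => (h v a).2

theorem Run.alive {opn : N → ℕ → Prop} {t : N} (h : W.Run j 0 t)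
    (c : ∀ v, W.F.Anc v t → ∀ i, ¬opn v i) : W.F.tre.Alive (W.pos j) inl (W.Bk j) opn t :=
  fun v a => ⟨c v (Forest.up_iff.1 a), (run_iff h.od).1 h v a⟩

/-- the node comes before its moat -/
theorem back (p : W.port j n = 0) (h : (W.lay j (inl n) 1 : ℕ) < W.lay j (inl n) 0) :
    Back (W.pos j) (W.port j n) (inl n) (mo n) := by
  refine ⟨by rw [p]; rfl, W.pos_nm.2 h, fun x hx => ?_⟩
  by_cases c : nd x = n
  · rcases x with n' | ⟨n', i⟩ <;> obtain rfl : n' = n := c
    · exact absurd hx (lt_irrefl _)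
    · refine not_lt.1 fun d => ?_
      rw [mo, pos_mm, p] at d
      simp [el] at d
  · exact ((W.pos_congr (p := inl n) (u := mo n 0) (p' := x) (Ne.symm c) rfl rfl).2 hx).le

end Wd

end Pool.Agent.P.MP_439f1f_co
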