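import Pool.Agent.P.MP_439f1f_co.B1

/-!
Hubs and lines: configurations give hamiltonian cycles.
-/

set_option autoImplicit false

namespace Pool.Agent.P.MP_439f1f_co

open SimpleGraph Sum

variable {S Λ : Type*}

/-- Hubs `S`, lines `Λ` with vertices `0, ..., m`; the vertex `i` of `L` is joined to the hubs
`s` with `hang L i s`. -/
def HL (m : ℕ) (hang : Λ → ℕ → S → Prop) : SimpleGraph (S ⊕ Λ × Fin (m + 1)) where
  Adj
    | .inl _, .inl _ => False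
    | .inl s, .inr p => hang p.1 p.2 s
    | .inr p, .inl s => hang p.1 p.2 s
    | .inr p, .inr q => p.1 = q.1 ∧ ((p.2 : ℕ) + 1 = q.2 ∨ (q.2 : ℕ) + 1 = p.2)
  symm := ⟨by
    rintro (s | p) (t | q) h
    · exact h
    · exact h
    · exact h
    · exact ⟨h.1.symm, h.2.symm⟩⟩
  loopless := ⟨by
    rintro (s | p) h
    · exact h
    · have := h.2; omega⟩

@[simp] theorem HL_ll {m : ℕ} {hang : Λ → ℕ → S → Prop} (s t : S) :
    (HL m hang).Adj (inl s) (inl t) ↔ False := Iff.rfl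
@[simp] theorem HL_lr {m : ℕ} {hang : Λ → ℕ → S → Prop} (s : S) (p : Λ × Fin (m + 1)) :
    (HL m hang).Adj (inl s) (inr p) ↔ hang p.1 p.2 s := Iff.rfl
@[simp] theorem HL_rl {m : ℕ} {hang : Λ → ℕ → S → Prop} (s : S) (p : Λ × Fin (m + 1)) :
    (HL m hang).Adj (inr p) (inl s) ↔ hang p.1 p.2 s := Iff.rfl
@[simp] theorem HL_rr {m : ℕ} {hang : Λ → ℕ → S → Prop} (p q : Λ × Fin (m + 1)) :
    (HL m hang).Adj (inr p) (inr q) ↔
      p.1 = q.1 ∧ ((p.2 : ℕ) + 1 = q.2 ∨ (q.2 : ℕ) + 1 = p.2) := Iff.rfl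

/-- the spanning subgraph with the gaps `gap`, the used hub edges `att` and extra edges `R` -/
def FG (m : ℕ) (gap : Λ → ℕ → Prop) (att : Λ × Fin (m + 1) → S → Prop) (R : S → S → Prop)
    (hRs : ∀ s t, R s t → R t s) (hRi : ∀ s, ¬R s s) : SimpleGraph (S ⊕ Λ × Fin (m + 1)) where
  Adj
    | .inl s, .inl t => R s t
    | .inl s, .inr p => att p s
    | .inr p, .inl s => att p s
    | .inr p, .inr q => p.1 = q.1 ∧
        (((p.2 : ℕ) + 1 = q.2 ∧ ¬gap p.1 p.2) ∨ ((q.2 : ℕ) + 1 = p.2 ∧ ¬gap p.1 q.2))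
  symm := ⟨by
    rintro (s | p) (t | q) h
    · exact hRs _ _ h
    · exact h
    · exact h
    · exact ⟨h.1.symm, h.1 ▸ h.2.symm⟩⟩
  loopless := ⟨by
    rintro (s | p) h
    · exact hRi _ h
    · have := h.2; omega⟩

theorem two_at {V : Type*} {F : SimpleGraph V} {v : V} (h : (F.neighborSet v).ncard = 2) :
    ∃ a b, a ≠ b ∧ ∀ w, F.Adj v w ↔ w = a ∨ w = b := by
  obtain ⟨a, b, h1, h2⟩ := Set.ncard_eq_two.1 h
  exact ⟨a, b, h1, fun w => by simpa using Set.ext_iff.1 h2 w⟩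

theorem core [Finite S] [Finite Λ] {m : ℕ} (gap : Λ → ℕ → Prop) (R : S → S → Prop)
    (hRs : ∀ s t, R s t → R t s) (hRi : ∀ s, ¬R s s) {EL ER : Type*} [Finite EL] [Finite ER]
    (lP : EL → Λ × Fin (m + 1)) (lh : EL → S) (rP : ER → Λ × Fin (m + 1)) (rh : ER → S)
    (li : Function.Injective lP) (ri : Function.Injective rP)
    (hL : ∀ p, (∃ l, lP l = p) ↔ (p.2 : ℕ) = 0 ∨ gap p.1 (p.2 - 1))
    (hR : ∀ p, (∃ r, rP r = p) ↔ (p.2 : ℕ) = m ∨ gap p.1 p.2)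
    (hne : ∀ l r, lP l = rP r → lh l ≠ rh r)
    (load : ∀ s, {l | lh l = s}.ncard + {r | rh r = s}.ncard + {t | R s t}.ncard = 2)
    (conn : ∀ A : Set S, (∀ l r, (lP l).1 = (rP r).1 → ((lP l).2 : ℕ) ≤ (rP r).2 →
      (∀ k, ((lP l).2 : ℕ) ≤ k → k < (rP r).2 → ¬gap (lP l).1 k) → (lh l ∈ A ↔ rh r ∈ A)) →
      (∀ s t, R s t → s ∈ A → t ∈ A) → ∀ s t, s ∈ A → t ∈ A) :
    Two (FG m gap (fun p s => (∃ l, lP l = p ∧ lh l = s) ∨ ∃ r, rP r = p ∧ rh r = s) R hRs hRi) ∧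
    Con (FG m gap (fun p s => (∃ l, lP l = p ∧ lh l = s) ∨ ∃ r, rP r = p ∧ rh r = s) R hRs hRi) := by
  set F := FG m gap (fun p s => (∃ l, lP l = p ∧ lh l = s) ∨ ∃ r, rP r = p ∧ rh r = s) R hRs hRi
    with hF
  have all : ∀ s t, F.Adj (inl s) (inl t) ↔ R s t := fun _ _ => Iff.rfl
  have alr : ∀ s p, F.Adj (inl s) (inr p) ↔
      (∃ l, lP l = p ∧ lh l = s) ∨ ∃ r, rP r = p ∧ rh r = s := fun _ _ => Iff.rfl
  have arl : ∀ s p, F.Adj (inr p) (inl s) ↔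
      (∃ l, lP l = p ∧ lh l = s) ∨ ∃ r, rP r = p ∧ rh r = s := fun _ _ => Iff.rfl
  have arr : ∀ p q : Λ × Fin (m + 1), F.Adj (inr p) (inr q) ↔ p.1 = q.1 ∧
      (((p.2 : ℕ) + 1 = q.2 ∧ ¬gap p.1 p.2) ∨ ((q.2 : ℕ) + 1 = p.2 ∧ ¬gap p.1 q.2)) :=
    fun _ _ => Iff.rfl
  clear_value F
  constructor
  · rintro (s | p)
    · refine two_at ?_
      have e : F.neighborSet (inl s) = ((fun l => inr (lP l)) '' {l | lh l = s} ∪
          (fun r => inr (rP r)) '' {r | rh r = s}) ∪ inl '' {t | R s t} := by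
        ext (t | p)
        · simp [all]
        · simp [alr, and_comm]
      rw [e, Set.ncard_union_eq, Set.ncard_union_eq,
        Set.ncard_image_of_injective (f := fun l => inr (lP l)) _ (inr_injective.comp li),
        Set.ncard_image_of_injective (f := fun r => inr (rP r)) _ (inr_injective.comp ri),
        Set.ncard_image_of_injective _ inl_injective, load]
      · rw [Set.disjoint_left]
        rintro _ ⟨l, hl, rfl⟩ ⟨r, hr, e⟩
        exact hne l r (inr_injective e).symm (hl.trans hr.symm)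
      · rw [Set.disjoint_left]
        rintro _ (⟨l, -, rfl⟩ | ⟨l, -, rfl⟩) ⟨t, -, e⟩ <;> cases e
    · obtain ⟨L, i⟩ := p
      have hi := i.isLt
      -- the neighbour on the left side and the neighbour on the right side
      obtain ⟨a, ha⟩ : ∃ a : S ⊕ Λ × Fin (m + 1), ∀ w, w = a ↔
          (∃ l, lP l = (L, i) ∧ w = inl (lh l)) ∨
          ∃ j : Fin (m + 1), (j : ℕ) + 1 = i ∧ ¬gap L j ∧ w = inr (L, j) := by
        by_cases h : ∃ l, lP l = (L, i)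
        · obtain ⟨l, hl⟩ := h
          refine ⟨inl (lh l), fun w => ⟨fun e => Or.inl ⟨l, hl, e⟩, ?_⟩⟩
          rintro (⟨l', hl', e⟩ | ⟨j, hj, hg, -⟩)
          · rw [e, li (hl'.trans hl.symm)]
          · rcases (hL _).1 ⟨l, hl⟩ with h | h
            · simp only at h; omega
            · exact absurd (by simpa [← hj] using h) hg
        · have h2 := (hL _).not.1 h
          simp only [not_or] at h2
          refine ⟨inr (L, ⟨i - 1, by omega⟩), fun w => ⟨fun e => Or.inr ⟨⟨i - 1, by omega⟩,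
            by simp only; omega, h2.2, e⟩, ?_⟩⟩
          rintro (⟨l', hl', -⟩ | ⟨j, hj, -, e⟩)
          · exact absurd ⟨l', hl'⟩ h
          · rw [e]; congr 2; ext; simp only; omega
      obtain ⟨b, hb⟩ : ∃ b : S ⊕ Λ × Fin (m + 1), ∀ w, w = b ↔
          (∃ r, rP r = (L, i) ∧ w = inl (rh r)) ∨
          ∃ j : Fin (m + 1), (i : ℕ) + 1 = j ∧ ¬gap L i ∧ w = inr (L, j) := by
        by_cases h : ∃ r, rP r = (L, i)
        · obtain ⟨l, hl⟩ := h
          refine ⟨inl (rh l), fun w => ⟨fun e => Or.inl ⟨l, hl, e⟩, ?_⟩⟩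
          rintro (⟨l', hl', e⟩ | ⟨j, hj, hg, -⟩)
          · rw [e, ri (hl'.trans hl.symm)]
          · rcases (hR _).1 ⟨l, hl⟩ with h | h
            · have := j.isLt; simp only at h; omega
            · exact absurd h hg
        · have h2 := (hR _).not.1 h
          simp only [not_or] at h2
          refine ⟨inr (L, ⟨i + 1, by omega⟩), fun w => ⟨fun e => Or.inr ⟨⟨i + 1, by omega⟩,
            rfl, h2.2, e⟩, ?_⟩⟩
          rintro (⟨l', hl', -⟩ | ⟨j, hj, -, e⟩)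
          · exact absurd ⟨l', hl'⟩ h
          · rw [e]; congr 2; ext; simp only; omega
      refine ⟨a, b, fun e => ?_, fun w => ?_⟩
      · rcases (ha a).1 rfl with ⟨l, hl, e1⟩ | ⟨j, hj, -, e1⟩ <;>
          rcases (hb b).1 rfl with ⟨r, hr, e2⟩ | ⟨k, hk, -, e2⟩ <;> rw [e1, e2] at e
        · exact hne l r (hl.trans hr.symm) (inl_injective e)
        · cases e
        · cases e
        · have : j = k := congrArg Prod.snd (inr_injective e)
          subst this; omega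
      · rw [ha, hb]
        rcases w with t | ⟨L', j⟩
        · rw [arl]
          simp [eq_comm]
        · rw [arr]
          simp only [reduceCtorEq, and_false, exists_false, inr.injEq, Prod.mk.injEq, false_or]
          constructor
          · rintro ⟨rfl, ⟨h1, h2⟩ | ⟨h1, h2⟩⟩
            · exact Or.inr ⟨j, h1, h2, rfl, rfl⟩
            · exact Or.inl ⟨j, h1, h2, rfl, rfl⟩
          · rintro (⟨k, h1, h2, rfl, rfl⟩ | ⟨k, h1, h2, rfl, rfl⟩)
            · exact ⟨rfl, Or.inr ⟨h1, h2⟩⟩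
            · exact ⟨rfl, Or.inl ⟨h1, h2⟩⟩
  · intro A hA
    have iff : ∀ u w, F.Adj u w → (u ∈ A ↔ w ∈ A) := fun u w h => ⟨hA u w h, hA w u h.symm⟩
    have seg : ∀ (L : Λ) (i : Fin (m + 1)) (n : ℕ) (j : Fin (m + 1)), (j : ℕ) = i + n →
        (∀ k, (i : ℕ) ≤ k → k < j → ¬gap L k) → (inr (L, i) ∈ A ↔ inr (L, j) ∈ A) := by
      intro L i n
      induction n with
      | zero => intro j hj _; rw [show j = i from Fin.ext hj]
      | succ n ih =>
        intro j hj hg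
        have := j.isLt
        refine (ih ⟨i + n, by omega⟩ rfl fun k h1 h2 => hg k h1 (by simp only at h2; omega)).trans
          (iff _ _ ((arr _ _).2 ⟨rfl, Or.inl ⟨by simp only; omega, hg _ (by simp) ?_⟩⟩))
        simp only; omega
    have hub : ∀ u, ∃ s, (u ∈ A ↔ inl s ∈ A) := by
      rintro (s | ⟨L, i, hi⟩)
      · exact ⟨s, Iff.rfl⟩
      · induction i with
        | zero =>
          obtain ⟨l, hl⟩ := (hL (L, ⟨0, hi⟩)).2 (Or.inl rfl)
          exact ⟨lh l, iff _ _ ((arl _ _).2 (Or.inl ⟨l, hl, rfl⟩))⟩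
        | succ i ih =>
          by_cases hg : gap L i
          · obtain ⟨l, hl⟩ := (hL (L, ⟨i + 1, hi⟩)).2 (Or.inr hg)
            exact ⟨lh l, iff _ _ ((arl _ _).2 (Or.inl ⟨l, hl, rfl⟩))⟩
          · obtain ⟨s, hs⟩ := ih (by omega)
            exact ⟨s, (iff _ _ ((arr (L, ⟨i + 1, hi⟩) (L, ⟨i, by omega⟩)).2
              ⟨rfl, Or.inr ⟨rfl, hg⟩⟩)).trans hs⟩
    have key := conn {s | inl s ∈ A} (fun l r h1 h2 h3 => by
      have e1 := iff _ _ ((alr (lh l) (lP l)).2 (Or.inl ⟨l, rfl, rfl⟩))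
      have e2 := iff _ _ ((arl (rh r) (rP r)).2 (Or.inr ⟨r, rfl, rfl⟩))
      have e3 := seg (lP l).1 (lP l).2 ((rP r).2 - (lP l).2) (rP r).2 (by omega) h3
      rw [show ((lP l).1, (rP r).2) = rP r from by rw [h1]] at e3
      exact e1.trans (e3.trans e2)) fun s t h => hA _ _ ((all s t).2 h)
    intro u w hu
    obtain ⟨s, hs⟩ := hub u
    obtain ⟨t, ht⟩ := hub w
    exact ht.2 (key s t (hs.1 hu))

/-- A configuration with the gaps `Γ`: the gap `γ` is the edge `gi γ, gi γ + 1` of the line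
`gl γ`, its ends go to the hubs `x γ` and `y γ`; tails go to `τ`, heads to `η`;
`R` are extra edges between hubs. -/
structure Cfg (m : ℕ) (hang : Λ → ℕ → S → Prop) (R : S → S → Prop) {Γ : Type*} (gl : Γ → Λ)
    (gi : Γ → ℕ) (x y : Γ → S) (τ η : Λ → S) : Prop where
  lt : ∀ γ, gi γ < m
  inj : ∀ γ δ, gl γ = gl δ → gi γ = gi δ → γ = δ
  ht : ∀ L, hang L 0 (τ L)
  hh : ∀ L, hang L m (η L)
  hx : ∀ γ, hang (gl γ) (gi γ) (x γ)
  hy : ∀ γ, hang (gl γ) (gi γ + 1) (y γ)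
  nx : ∀ γ, gi γ = 0 → x γ ≠ τ (gl γ)
  ny : ∀ γ, gi γ + 1 = m → y γ ≠ η (gl γ)
  nxy : ∀ γ δ, gl γ = gl δ → gi γ + 1 = gi δ → y γ ≠ x δ
  load : ∀ s, {L | τ L = s}.ncard + {L | η L = s}.ncard + {γ | x γ = s}.ncard +
    {γ | y γ = s}.ncard + {t | R s t}.ncard = 2
  conn : ∀ A : Set S, (∀ L, (∀ γ, gl γ ≠ L) → (τ L ∈ A ↔ η L ∈ A)) →
    (∀ γ, (∀ δ, gl δ = gl γ → gi γ ≤ gi δ) → (τ (gl γ) ∈ A ↔ x γ ∈ A)) →
    (∀ γ, (∀ δ, gl δ = gl γ → gi δ ≤ gi γ) → (y γ ∈ A ↔ η (gl γ) ∈ A)) →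
    (∀ γ δ, gl γ = gl δ → gi γ < gi δ → (∀ ε, gl ε = gl γ → gi ε ≤ gi γ ∨ gi δ ≤ gi ε) →
      (y γ ∈ A ↔ x δ ∈ A)) →
    (∀ s t, R s t → s ∈ A → t ∈ A) → ∀ s t, s ∈ A → t ∈ A

theorem ncard_sum {α β : Type*} [Finite α] [Finite β] (P : α ⊕ β → Prop) :
    {z | P z}.ncard = {a | P (inl a)}.ncard + {b | P (inr b)}.ncard := by
  have e : {z | P z} = inl '' {a | P (inl a)} ∪ inr '' {b | P (inr b)} := by
    ext (a | b) <;> simp
  rw [e, Set.ncard_union_eq, Set.ncard_image_of_injective _ inl_injective,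
    Set.ncard_image_of_injective _ inr_injective]
  rw [Set.disjoint_left]
  rintro _ ⟨a, -, rfl⟩ ⟨b, -, e⟩
  cases e

theorem Cfg.two [Finite S] [Finite Λ] {m : ℕ} (hm : 1 ≤ m) {hang : Λ → ℕ → S → Prop}
    {R : S → S → Prop} (hRs : ∀ s t, R s t → R t s) (hRi : ∀ s, ¬R s s) {Γ : Type*} [Finite Γ]
    {gl : Γ → Λ} {gi : Γ → ℕ} {x y : Γ → S} {τ η : Λ → S} (c : Cfg m hang R gl gi x y τ η) :
    ∃ F : SimpleGraph (S ⊕ Λ × Fin (m + 1)), Two F ∧ Con F ∧ ∀ u v, F.Adj u v →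
      (HL m hang).Adj u v ∨ ∃ s t, u = inl s ∧ v = inl t ∧ R s t := by
  let lP : Λ ⊕ Γ → Λ × Fin (m + 1) :=
    Sum.elim (fun L => (L, 0)) fun γ => (gl γ, ⟨gi γ + 1, Nat.succ_lt_succ (c.lt γ)⟩)
  let rP : Λ ⊕ Γ → Λ × Fin (m + 1) :=
    Sum.elim (fun L => (L, Fin.last m)) fun γ => (gl γ, ⟨gi γ, Nat.lt_succ_of_lt (c.lt γ)⟩)
  have key := core (m := m) (fun L i => ∃ γ, gl γ = L ∧ gi γ = i) R hRs hRi lP (Sum.elim τ y)
    rP (Sum.elim η x) ?_ ?_ ?_ ?_ ?_ ?_ ?_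
  · refine ⟨_, key.1, key.2, ?_⟩
    rintro (s | p) (t | q) h
    · exact Or.inr ⟨s, t, rfl, rfl, h⟩
    · left
      rcases h with ⟨L | γ, rfl, rfl⟩ | ⟨L | γ, rfl, rfl⟩
      exacts [c.ht L, c.hy γ, c.hh L, c.hx γ]
    · left
      rcases h with ⟨L | γ, rfl, rfl⟩ | ⟨L | γ, rfl, rfl⟩
      exacts [c.ht L, c.hy γ, c.hh L, c.hx γ]
    · exact Or.inl ⟨h.1, h.2.imp And.left And.left⟩
  · rintro (L | γ) (L' | δ) h <;>
      simp only [lP, elim_inl, elim_inr, Prod.mk.injEq, Fin.ext_iff, Fin.val_zero] at h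
    · rw [h.1]
    · omega
    · omega
    · rw [c.inj γ δ h.1 (by omega)]
  · rintro (L | γ) (L' | δ) h <;>
      simp only [rP, elim_inl, elim_inr, Prod.mk.injEq, Fin.ext_iff, Fin.val_last] at h
    · rw [h.1]
    · have := c.lt δ; omega
    · have := c.lt γ; omega
    · rw [c.inj γ δ h.1 h.2]
  · rintro ⟨L, i⟩
    constructor
    · rintro ⟨L' | γ, h⟩ <;>
        simp only [lP, elim_inl, elim_inr, Prod.mk.injEq, Fin.ext_iff, Fin.val_zero] at h
      · exact Or.inl h.2.symm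
      · exact Or.inr ⟨γ, h.1, by simp only; omega⟩
    · intro h
      by_cases h0 : (i : ℕ) = 0
      · exact ⟨inl L, Prod.ext rfl (Fin.ext h0.symm)⟩
      · obtain ⟨γ, h1, h2⟩ := h.resolve_left h0
        refine ⟨inr γ, Prod.ext h1 (Fin.ext ?_)⟩
        simp only [lP, elim_inr] at h2 ⊢; omega
  · rintro ⟨L, i⟩
    constructor
    · rintro ⟨L' | γ, h⟩ <;>
        simp only [rP, elim_inl, elim_inr, Prod.mk.injEq, Fin.ext_iff, Fin.val_last] at h
      · exact Or.inl h.2.symm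
      · exact Or.inr ⟨γ, h.1, h.2⟩
    · rintro (h | ⟨γ, h1, h2⟩)
      · exact ⟨inl L, Prod.ext rfl (Fin.ext h.symm)⟩
      · exact ⟨inr γ, Prod.ext h1 (Fin.ext h2)⟩
  · rintro (L | γ) (L' | δ) h <;>
      simp only [lP, rP, elim_inl, elim_inr, Prod.mk.injEq, Fin.ext_iff, Fin.val_zero,
        Fin.val_last] at h ⊢
    · omega
    · rw [h.1]; exact (c.nx δ h.2.symm).symm
    · rw [← h.1]; exact c.ny γ h.2
    · exact c.nxy γ δ h.1 h.2
  · intro s
    rw [ncard_sum, ncard_sum, ← c.load s]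
    simp only [elim_inl, elim_inr]
    omega
  · intro A hA hRA
    refine c.conn A (fun L h => hA (inl L) (inl L) rfl (by simp [lP]) ?_)
      (fun γ h => hA (inl (gl γ)) (inr γ) rfl (by simp [lP]) ?_)
      (fun γ h => hA (inr γ) (inl (gl γ)) rfl (c.lt γ) ?_)
      (fun γ δ h1 h2 h => hA (inr γ) (inr δ) h1 h2 ?_) hRA
    · rintro k - - ⟨γ, h1, -⟩
      exact h γ h1
    · rintro k - h2 ⟨δ, h3, rfl⟩
      exact absurd (h δ h3) (not_le.2 h2)
    · rintro k h2 - ⟨δ, h3, rfl⟩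
      exact absurd (h δ h3) (not_le.2 h2)
    · rintro k h3 h4 ⟨ε, h5, rfl⟩
      rcases h ε h5 with h6 | h6
      · exact absurd h6 (not_le.2 h3)
      · exact absurd h6 (not_le.2 h4)

end Pool.Agent.P.MP_439f1f_co
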