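import Pool.Agent.P.MP_439f1f_co.Dy1
import Pool.Agent.P.MP_439f1f_co.B19

/-!
The construction for given data of the trees in all states.
-/

set_option autoImplicit false

namespace Pool.Agent.P.MP_439f1f_co

open Sum Function

/-- the blocks without payload: hinges and guards -/
abbrev Pu (K : Type) : Type := K ⊕ K × K × Bool × Fin 6

/-- The forest with its orders, and for every state the order `cz` and the layouts `lz` of the
blocks without payload and the data `td` of the trees. -/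
structure Sch (K N : Type) (r r0 q D e b : ℕ) where
  F : Fo K N r r0 q D e b
  o : Bool → N → ℕ
  ho : F.Dfs o
  ct : Kl K r r0 → ℕ
  cti : Injective ct
  idx : K → ℕ
  idxi : Injective idx
  cz : K → Pu K → ℤ
  czi : ∀ j, Injective (cz j)
  lz : K → Pu K → Equiv.Perm (Fin 4)
  lay1 : ∀ j j' b q, j ≠ j' → (lz j (inr (j, j', b, q)) 1 : ℕ) + 1 = lz j (inr (j, j', b, q)) 0
  lay2 : ∀ j j' b q, j ≠ j' → (lz j' (inr (j, j', b, q)) 0 : ℕ) + 1 = lz j' (inr (j, j', b, q)) 1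
  pad : K → Equiv.Perm (Fin 3)
  td : K → Kl K r r0 → TD r0
  gr1 : ∀ j T, T.1.1.wor = (j, false) → (td j T).gr = 1
  gr2 : ∀ j T, T.1.1.wor ≠ (j, false) → 2 ≤ (td j T).gr

variable {K N : Type} {r r0 q D e b : ℕ}

namespace Sch

variable (S : Sch K N r r0 q D e b)

/-- the state `j` -/
def L (j : K) : Lay (Kl K r r0) N q D e b r0 := ⟨S.F, S.o, S.ho, S.ct, S.cti, S.td j⟩

@[simp] theorem L_F (j : K) : (S.L j).F = S.F := rfl
@[simp] theorem L_o (j : K) : (S.L j).o = S.o := rfl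
@[simp] theorem L_ct (j : K) : (S.L j).ct = S.ct := rfl
@[simp] theorem L_td (j : K) : (S.L j).td = S.td j := rfl
theorem L_dt (j : K) (n : N) : (S.L j).dt n = S.td j (S.F.tree n) := rfl

theorem gr_pos (j : K) (n : N) : 1 ≤ ((S.L j).dt n).gr := by
  by_cases h : (S.F.tree n).1.1.wor = (j, false)
  exacts [(S.gr1 j _ h).ge, (S.gr2 j _ h).trans' one_le_two]

/-- the blocks without payload come first -/
theorem pure_lt (j : K) (a : ℤ) (n : N) : kq 0 0 0 a 0 0 0 < (S.L j).key n := by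
  obtain ⟨_, _, _, _, h⟩ := (S.L j).key_ex n
  rw [h, kq_lt]
  exact Or.inl (S.gr_pos j n)

/-- the orders of the blocks -/
noncomputable def dyn : Dyn K N Kq r0 where
  idx := S.idx
  idxi := S.idxi
  bk j := Sum.elim (S.L j).key fun z => kq 0 0 0 (S.cz j z) 0 0 0
  bki j := by
    rintro (n | z) (n' | z') h
    exacts [congrArg _ ((S.L j).key_inj h), absurd h (S.pure_lt j _ n).ne',
      absurd h (S.pure_lt j _ n').ne, congrArg _ (S.czi j (kq_eq.1 h).2.2.2.1)]
  lay j := Sum.elim (fun n => ((S.L j).dt n).lay (S.F.lev n)) (S.lz j)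
  pad := S.pad
  lay1 := S.lay1
  lay2 := S.lay2
  port j n := ((S.L j).dt n).port (S.F.lev n)

end Sch

/-- all data -/
structure Sw (K N : Type) (r r0 q D e b : ℕ) extends Sch K N r r0 q D e b where
  x : Hub K N (Pt K N) r0 → Bool → Vr (r + 1) → Fin q

variable [DecidableEq K] [Finite K] [Finite N] [Nonempty K]

theorem Wd.front_iff {β : Type} [LinearOrder β] {W : Wd K N β r r0 q D e b} {j : K} {n : N} :
    Front (W.pos j) (r0 + 1) (W.port j n) (inl n) (Wd.mo n) ↔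
      W.lay j (inl n) 0 < W.lay j (inl n) 1 := ⟨fun h => W.pos_mn.1 h.1, W.front⟩

namespace Sw

variable (S : Sw K N r r0 q D e b)

omit [DecidableEq K] [Finite K] [Finite N] [Nonempty K] in
/-- the construction -/
noncomputable def W : Wd K N Kq r r0 q D e b := ⟨S.dyn, S.F, S.x⟩

section
omit [DecidableEq K] [Finite K] [Finite N] [Nonempty K]

@[simp] theorem W_F : S.W.F = S.F := rfl
@[simp] theorem W_x : S.W.x = S.x := rfl
@[simp] theorem W_idx : S.W.idx = S.idx := rfl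
@[simp] theorem W_pad : S.W.pad = S.pad := rfl
@[simp] theorem bk_l (j : K) (n : N) : S.W.bk j (inl n) = (S.L j).key n := rfl
@[simp] theorem bk_r (j : K) (z : Pu K) : S.W.bk j (inr z) = kq 0 0 0 (S.cz j z) 0 0 0 := rfl
@[simp] theorem lay_r (j : K) (z : Pu K) : S.W.lay j (inr z) = S.lz j z := rfl
theorem lay_l (j : K) (n : N) : S.W.lay j (inl n) = ((S.L j).dt n).lay (S.F.lev n) := rfl
theorem port_eq (j : K) (n : N) : S.W.port j n = ((S.L j).dt n).port (S.F.lev n) := rfl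

end

variable {S} {j : K} {L u v : Hub K N (Pt K N) r0} {n n' t : N}

theorem fam_iff : S.W.B.fam j n = true ↔ ((S.L j).dt n).gr = 1 :=
  ⟨fun h => S.gr1 j _ (S.W.fam_eq.1 h), fun h => S.W.fam_eq.2 (by_contra fun c => by
    have := S.gr2 j _ c
    rw [Sch.L_dt] at h
    exact absurd (h ▸ this) (by omega))⟩

theorem fam_of_gr (h : ((S.L j).dt n).gr = ((S.L j).dt n').gr) :
    S.W.B.fam j n = S.W.B.fam j n' := by rw [Bool.eq_iff_iff, fam_iff, fam_iff, h]

theorem fam_of_wor (h : S.W.S.wor n = S.W.S.wor n') : S.W.B.fam j n = S.W.B.fam j n' := by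
  rw [Bool.eq_iff_iff, Wd.fam_eq, Wd.fam_eq, h]

theorem fam_of_two (h : 2 ≤ ((S.L j).dt n).gr) : S.W.B.fam j n = false := by
  rw [← Bool.not_eq_true, fam_iff]
  omega

theorem gk_lt : S.W.gk j n < S.W.gk j n' ↔ (S.L j).key n < (S.L j).key n' := by
  by_cases f : S.W.B.fam j n = S.W.B.fam j n'
  · exact Wd.gk_lt f
  have k : ∀ {n n'}, S.W.B.fam j n = true → ¬S.W.B.fam j n' = true →
      S.W.gk j n < S.W.gk j n' ∧ (S.L j).key n < (S.L j).key n' := fun {n n'} a c => by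
    refine ⟨Prod.Lex.toLex_lt_toLex.2 (Or.inl ?_), Lay.lt_of_gr ?_⟩
    · simp only [Blk.ab, Blk.fb_l, a, c]
      exact S.pure_lt j _ n'
    · have := S.gr_pos j n'
      rw [fam_iff] at a c
      omega
  cases a : S.W.B.fam j n
  · have := k (n := n') (n' := n) (by simpa [a] using f) (by simp [a])
    exact iff_of_false this.1.not_gt this.2.not_gt
  · have := k (n' := n') a (by simpa [a] using f)
    exact iff_of_true this.1 this.2

/-- **The order of two hubs in different payload blocks.** -/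
theorem pos_lt (hu : S.W.Bk j u n) (hv : S.W.Bk j v n') (ne : n ≠ n') :
    S.W.pos j u < S.W.pos j v ↔ (S.L j).key n < (S.L j).key n' := (hu.lt_iff hv ne).trans gk_lt

theorem lt_of_key (hu : S.W.Bk j u n) (hv : S.W.Bk j v n') (h : (S.L j).key n < (S.L j).key n') :
    S.W.pos j u < S.W.pos j v := hu.lt hv (gk_lt.2 h)

theorem key_le (hu : S.W.Bk j u n) (hv : S.W.Bk j v n') (h : S.W.pos j u ≤ S.W.pos j v) :
    (S.L j).key n ≤ (S.L j).key n' := not_lt.1 fun c => (lt_of_key hv hu c).not_ge h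

theorem nl_lt : S.W.pos j (nl n) < S.W.pos j (nl n') ↔ (S.L j).key n < (S.L j).key n' := by
  by_cases h : n = n'
  · simp [h]
  · exact pos_lt (.self _ j n) (.self _ j n') h

theorem nl_le : S.W.pos j (nl n) ≤ S.W.pos j (nl n') ↔ (S.L j).key n ≤ (S.L j).key n' := by
  rw [← not_lt, nl_lt, not_lt]

/-- **Between two payload blocks of one ring there are only payload blocks.** -/
theorem btw (hu : S.W.Bk j u n) (hv : S.W.Bk j v n') (f : S.W.B.fam j n = S.W.B.fam j n')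
    (h1 : S.W.pos j u ≤ S.W.pos j L) (h2 : S.W.pos j L ≤ S.W.pos j v) :
    ∃ x, S.W.Bk j L x ∧ (S.L j).key n ≤ (S.L j).key x ∧ (S.L j).key x ≤ (S.L j).key n' :=
  Wd.btw hu hv f h1 h2 (by
    rintro (x | z) - a c
    exacts [⟨x, rfl, a, c⟩, absurd a (S.pure_lt j _ n).not_ge])

/-- a hub outside the payload blocks comes before all blocks of the outer ring -/
theorem out_lt (h : ∀ x, ¬S.W.Bk j u x) (hv : S.W.Bk j v n) (f : S.W.B.fam j n = false) :
    S.W.pos j u < S.W.pos j v := by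
  refine Wd.lt_of_ak ?_
  rw [Wd.ak_A hv f]
  rcases S.W.ak_cases j u with ⟨x | z, a, -, c⟩ | c
  exacts [absurd a (h x), c ▸ S.pure_lt j _ n, c ▸ S.pure_lt j _ n]

/-- every hub lies in a payload block of the outer ring or before all these blocks -/
theorem out_or (S : Sw K N r r0 q D e b) (j : K) (u : Hub K N (Pt K N) r0) :
    (∃ x, S.W.Bk j u x ∧ S.W.B.fam j x = false) ∨ ((∀ x, S.W.Bk j u x → S.W.B.fam j x = true) ∧
      ∀ v n, S.W.Bk j v n → S.W.B.fam j n = false → S.W.pos j u < S.W.pos j v) := by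
  refine or_iff_not_imp_left.2 fun c => ⟨fun x a => by_contra fun d => c ⟨x, a, by simpa using d⟩,
    fun v n hv f => ?_⟩
  by_cases h : ∃ x, S.W.Bk j u x
  · obtain ⟨x, a⟩ := h
    refine lt_of_key a hv (Lay.lt_of_gr ?_)
    have a1 := fam_iff.1 (by_contra fun d => c ⟨x, a, by simpa using d⟩)
    have a2 := mt fam_iff.2 (f ▸ Bool.false_ne_true)
    have := S.gr_pos j n
    omega
  · exact out_lt (not_exists.1 h) hv f

/-- two hubs in blocks without payload of one ring -/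
theorem pure_lt {z z' : Pu K} (hu : S.W.bl j u = some (inr z)) (hv : S.W.bl j v = some (inr z'))
    (f : S.W.B.fb j (inr z) = S.W.B.fb j (inr z')) (h : S.cz j z < S.cz j z') :
    S.W.pos j u < S.W.pos j v := Wd.lt_of_bk hu hv f (by simpa [kq_lt] using h)

/-- **Neighbours.** -/
theorem adj (h : (S.L j).Adj n n') (f : S.W.B.fam j n = S.W.B.fam j n') :
    S.W.pos j (nl n) < S.W.pos j (nl n') ∧ ∀ L, S.W.pos j (nl n) ≤ S.W.pos j L →
      S.W.pos j L ≤ S.W.pos j (nl n') → S.W.Bk j L n ∨ S.W.Bk j L n' :=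
  ⟨nl_lt.2 h.1, fun _ a c =>
    let ⟨x, k1, k2, k3⟩ := btw (.self _ j n) (.self _ j n') f a c
    (h.2 x).imp (fun d => (S.L j).key_inj (le_antisymm d k2) ▸ k1)
      fun d => (S.L j).key_inj (le_antisymm k3 d) ▸ k1⟩

theorem pass (o : S.F.lev t % 2 = 1) (l : S.F.lev t < D) (h : (S.L j).Adj t (S.F.kid t)) :
    S.W.Pass j t :=
  have a := adj h (Wd.fam_tree (Forest.tree_kid l).symm)
  ⟨o, l, a.1, a.2⟩

theorem kill (o : S.F.lev n % 2 = 0) (h : (S.L j).Adj n (S.F.par n)) : S.W.Kill j n :=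
  have l : 2 ≤ S.F.lev n := S.F.tre.two_le o
  have a := adj h (Wd.fam_tree (Forest.anc_par l).tree.symm)
  ⟨l, a.1, fun L b c => (a.2 L b c).elim (fun d => ⟨_, d, Or.inr ⟨l, rfl⟩⟩)
    fun d => ⟨_, d, Or.inl rfl⟩⟩

theorem Pass.key (h : S.W.Pass j t) : (S.L j).key t < (S.L j).key (S.F.kid t) := nl_lt.1 h.lt

theorem Kill.key (h : S.W.Kill j n) : (S.L j).key n < (S.L j).key (S.F.par n) := nl_lt.1 h.2.1

/-! ### pairs and routes from the data of the tree -/

section
variable (od : D % 2 = 1) {T : TD r0}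
include od

omit [DecidableEq K] [Finite K] [Finite N] [Nonempty K] in
theorem fm_pair (hT : (S.L j).dt t = T) (o : S.F.lev t % 2 = 1) (l : S.F.lev t < D)
    (w : T.win (S.F.lev t) = none) (w' : T.win (S.F.lev t + 1) = none) :
    (S.L j).fm t = cond T.ud 3 0 ∧ (S.L j).fm (S.F.kid t) = cond T.ud 3 0 := by
  subst hT
  have a := S.F.lev_kid l
  have d : (S.L j).dt (S.F.kid t) = (S.L j).dt t := (S.L j).dt_kid l
  have w1 : (S.L j).wn (S.F.kid t) = none := by rw [← w', ← a, ← d]; rfl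
  have l1 : (S.L j).F.lev (S.F.kid t) ≠ D := by rw [Sch.L_F]; omega
  cases c : ((S.L j).dt t).ud
  exacts [⟨Lay.fm_tree.2 ⟨w, Or.inl l.ne, c⟩, Lay.fm_tree.2 ⟨w1, Or.inl l1, d ▸ c⟩⟩,
    ⟨Lay.fm_ud.2 ⟨w, Or.inl l.ne, c⟩, Lay.fm_ud.2 ⟨w1, Or.inl l1, d ▸ c⟩⟩]

/-- **Pass pairs.** -/
theorem pass_of (hT : (S.L j).dt t = T) (o : S.F.lev t % 2 = 1) (l : S.F.lev t < D)
    (w : T.win (S.F.lev t) = none) (w' : T.win (S.F.lev t + 1) = none)
    (c : T.ud = true ∨ T.kap = 0 ∨ S.F.lev t + 2 < T.kap ∨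
      (T.kap % 2 = 0 ∧ T.asc = true ∧ T.kap < S.F.lev t)) : S.W.Pass j t := by
  obtain ⟨a1, a2⟩ := fm_pair od hT o l w w'
  subst hT
  refine pass o l ?_
  cases d : ((S.L j).dt t).ud <;> rw [d] at a1 a2
  · rcases c with c | c | c | c
    · simp [d] at c
    · exact Lay.adj_high o l a1 a2 fun i => by
        have := i.1
        rw [(S.L j).dt_kid l] at this
        omega
    · exact Lay.adj_high o l a1 a2 fun i => by
        have := i.2
        rw [(S.L j).dt_kid l, (S.L j).F.lev_kid l, Sch.L_F] at this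
        omega
    · exact Lay.adj_pass o l a1 a2 c.1 (Or.inr c.2)
  · exact Lay.adj_ud o l a1 a2

/-- **Killed nodes.** -/
theorem kill_of (hT : (S.L j).dt n = T) (o : S.F.lev n % 2 = 0)
    (w : T.win (S.F.lev n - 1) = none) (w' : T.win (S.F.lev n) = none) (u : T.ud = false)
    (ev : T.kap % 2 = 0) (k : 2 ≤ T.kap)
    (c : S.F.lev n = T.kap ∨ (T.asc = false ∧ T.kap ≤ S.F.lev n)) : S.W.Kill j n := by
  have l : 2 ≤ S.F.lev n := S.F.tre.two_le o
  have a := S.F.lev_par l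
  have a0 := (S.F.surj n).2.1
  have a' := S.F.kid_par (Nat.even_iff.2 o)
  have hT' : (S.L j).dt (S.F.par n) = T := ((S.L j).dt_par l).trans hT
  obtain ⟨a1, a2⟩ := fm_pair od hT' (by omega) (by omega) (by rw [← w, ← a]; rfl) (a ▸ w')
  rw [u] at a1 a2
  have := Lay.adj_swap (A := S.L j) (t := S.F.par n) (by rw [Sch.L_F]; omega)
    (by rw [Sch.L_F]; omega) a1 a2 (hT' ▸ ev) ⟨hT' ▸ k, by rw [hT', Sch.L_F]; omega⟩
    (by rw [hT', Sch.L_F]; exact c.symm.imp And.left (by omega))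
  exact kill o (by rwa [Sch.L_F, a'] at this)

omit od in
/-- **Killed labels.** -/
theorem kill_lab (hT : (S.L j).dt n = T) (h2 : 2 ≤ D) (l : S.F.lev n = D)
    (w : T.win (D - 1) = none) (w' : T.win D = none) (u : T.ud = false) (s : T.sep = false)
    (k : T.kap = D) : S.W.Kill j n := by
  subst hT
  have l2 : 2 ≤ S.F.lev n := by omega
  have a := S.F.lev_par l2
  have d : (S.L j).dt (S.F.par n) = (S.L j).dt n := (S.L j).dt_par l2
  have := Lay.lab_kill (A := S.L j) h2 l k (Lay.fm_tree.2 ⟨(congrArg _ l).trans w', Or.inr s, u⟩)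
    (Lay.fm_tree.2 ⟨by rw [← w, ← d, show D - 1 = S.F.lev (S.F.par n) by omega]; rfl,
      Or.inr (d ▸ s), d ▸ u⟩)
  exact ⟨l2, nl_lt.2 this.1, fun L a c =>
    let ⟨x, k1, k2, k3⟩ := btw (.self _ j _) (.self _ j _)
      (Wd.fam_tree (Forest.anc_par l2).tree.symm) a c
    ⟨x, k1, this.2 x k2 k3⟩⟩

/-- **Routes.** -/
theorem run_of (hT : (S.L j).dt t = T) {l : ℕ} (el : l % 2 = 0) (o : S.F.lev t % 2 = 1)
    (lt : l < S.F.lev t) (w : ∀ m, l < m → m < S.F.lev t → T.win m = none)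
    (c : T.ud = true ∨ T.kap = 0 ∨ S.F.lev t < T.kap ∨
      (T.kap % 2 = 0 ∧ T.asc = true ∧ T.kap ≤ l)) : S.W.Run j l t := by
  refine ⟨el, o, lt, fun a h oa ne => ?_⟩
  have a1 : S.F.lev a < S.F.lev t := not_le.1 (mt h.1.eq ne)
  have a2 : l < S.F.lev a := h.2
  have oa : S.F.lev a % 2 = 1 := oa
  have := (S.F.surj t).2.1
  exact pass_of od (((S.L j).dt_eq h.1.tree).trans hT) oa (by omega) (w _ a2 a1)
    (w _ (by omega) (by omega)) (c.imp_right (Or.imp_right (Or.imp (by omega)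
      (And.imp_right (And.imp_right (by omega))))))

end

end Sw

/-- **The construction exists for all data of the trees.** -/
theorem exists_sw (K : Type) [Finite K] [DecidableEq K] [Nonempty K] (k r r0 s D q0 : ℕ)
    (h1 : 12 ≤ k) (h2 : k ≤ 2 * r + 8) (h3 : k ≤ r0) (hD : 2 * (s + (2 * k + 4)) + 4 + k ≤ D) :
    ∃ (q b : ℕ) (N : Type) (_ : Finite N) (F : Fo K N r r0 q D k b), q0 ≤ q ∧
      (∀ x y l, 1 ≤ l → l ≤ 2 * s + 4 → (F.anc x l = F.anc y l ↔ x.1 = y.1)) ∧
      ∀ A : Sch K N r r0 q D k b, A.F = F →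
        ∃ x, (⟨A, x⟩ : Sw K N r r0 q D k b).W.S.Good k := by
  obtain ⟨q, b, N, a0, F, a1, a2, a3⟩ := exists_wd K k r r0 s D q0 h1 h2 h3 hD
  refine ⟨q, b, N, a0, F, a1, a2, ?_⟩
  rintro A rfl
  exact a3 Kq A.dyn

end Pool.Agent.P.MP_439f1f_co
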