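import Pool.Agent.P.MP_439f1f_co.B16

/-!
One engine for service: cuts are positions on the lines, a row is a list of new edges.
-/

set_option autoImplicit false

namespace Pool.Agent.P.MP_439f1f_co

open Function SimpleGraph Sum

/-- a connected family of edges in which every vertex has two ends -/
theorem ham_of_multi {V ι : Type*} [Fintype V] [DecidableEq V] [Fintype ι] {G : SimpleGraph V}
    (a b : ι → V) (P : ι → Prop) (adj : ∀ i, P i → G.Adj (a i) (b i))
    (deg : ∀ v, ∑ i, (ind (P i ∧ a i = v) + ind (P i ∧ b i = v)) = 2)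
    (con : ∀ A : Set V, (∀ i, P i → (a i ∈ A ↔ b i ∈ A)) → ∀ s t, s ∈ A → t ∈ A)
    (big : 2 < Fintype.card V) : G.IsHamiltonian := by
  classical
  have : Nonempty V := Fintype.card_pos_iff.1 (by omega)
  let μ : V → V → ℕ := fun v w => ∑ i, (ind (P i ∧ a i = v ∧ b i = w) + ind (P i ∧ b i = v ∧ a i = w))
  have sy : ∀ v w, μ v w = μ w v := fun v w => Finset.sum_congr rfl fun i _ => by
    rw [add_comm, and_comm (a := b i = v), and_comm (a := a i = v)]
  have sm : ∀ v, ∑ w, μ v w = 2 := fun v => by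
    rw [← deg v, Finset.sum_comm]
    refine Finset.sum_congr rfl fun i _ => ?_
    rw [Finset.sum_add_distrib]
    congr 1 <;> by_cases h : P i <;> simp [ind, h, ite_and]
  have ps : ∀ v w, μ v w ≠ 0 ↔ ∃ i, P i ∧ ((a i = v ∧ b i = w) ∨ (b i = v ∧ a i = w)) := fun v w => by
    simp only [μ, ind, ne_eq, Finset.sum_eq_zero_iff, Finset.mem_univ, forall_true_left,
      Nat.add_eq_zero_iff, ite_eq_right_iff, one_ne_zero, not_forall]
    exact exists_congr fun i => by tauto
  let F : SimpleGraph V := ⟨fun v w => μ v w ≠ 0, ⟨fun v w h => sy v w ▸ h⟩, ⟨fun v h => by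
    obtain ⟨i, h1, h2⟩ := (ps v v).1 h
    exact (adj i h1).ne (by rcases h2 with h | h <;> rw [h.1, h.2])⟩⟩
  have cn : Con F := fun A h => con A fun i hi =>
    ⟨h _ _ ((ps _ _).2 ⟨i, hi, Or.inl ⟨rfl, rfl⟩⟩), h _ _ ((ps _ _).2 ⟨i, hi, Or.inr ⟨rfl, rfl⟩⟩)⟩
  have only : ∀ v w u, 2 ≤ μ v w → μ v u ≠ 0 → u = w := fun v w u h1 h2 => by
    by_contra ne
    have := Finset.sum_le_sum_of_subset (f := μ v) (Finset.subset_univ {u, w})
    rw [Finset.sum_pair ne, sm] at this
    omega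
  have le : ∀ v w, μ v w ≤ 1 := fun v w => by
    by_contra h
    have := cn {v, w} (by
      rintro u t hu (rfl | rfl)
      exacts [Or.inr (only _ w t (by omega) hu), Or.inl (only _ v t (sy v _ ▸ by omega) hu)]) v
    have c := Finset.card_le_card (s := Finset.univ) (t := {v, w}) fun u _ => by
      simpa using this u (Or.inl rfl)
    have := Finset.card_le_two (a := v) (b := w)
    rw [Finset.card_univ] at c
    omega
  refine ham_of_two (F := F) (fun v w h => ?_) (two_iff.2 fun v => ?_) cn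
  · obtain ⟨i, h1, ⟨rfl, rfl⟩ | ⟨rfl, rfl⟩⟩ := (ps v w).1 h
    exacts [adj i h1, (adj i h1).symm]
  · show {w | μ v w ≠ 0}.ncard = 2
    rw [← sm v, Set.ncard_eq_toFinset_card', Finset.card_eq_sum_ones, Set.toFinset_ofPred,
      Finset.sum_filter]
    refine Finset.sum_congr rfl fun w _ => ?_
    have := le v w
    split_ifs with h <;> omega

/-! ### rotation -/

section rot
variable {α β : Type*} [LinearOrder β] {D : Set α} {nx : α → α} {pos : α → β}

/-- the order that starts at `x` -/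
def rot (x u : β) : Bool ×ₗ β := toLex (decide (u < x), u)

theorem rotP_lt {x u v : β} : rot x u < rot x v ↔ (¬u < x ∧ v < x) ∨ ((u < x ↔ v < x) ∧ u < v) := by
  simp only [rot, Prod.Lex.toLex_lt_toLex, decide_eq_decide]
  by_cases h : u < x <;> by_cases h' : v < x <;> simp [h, h']

theorem rot_inj {x u v : β} (h : rot x u = rot x v) : u = v := congrArg (fun p => (ofLex p).2) h

theorem Cyc.rotP (o : Cyc D nx pos) {x : α} (hx : x ∈ D) :
    Cyc D nx fun u => rot (pos x) (pos u) := by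
  refine ⟨fun u hu v hv e => o.inj hu hv (rot_inj e), o.mem, fun u hu w hw h => ?_,
    fun u hu h w hw => ?_⟩
  · rw [← not_lt, rotP_lt, rotP_lt]
    rw [rotP_lt] at h
    rcases o.cases hu with ⟨a1, a2⟩ | ⟨a1, a2⟩
    · have := a2 w hw
      have := a2 x hx
      grind
    · have := a1 w hw
      have := a1 x hx
      have := a2 w hw
      have := a2 x hx
      grind
  · have b1 := h w hw
    have b2 := h _ (o.mem u hu)
    have b3 := h x hx
    rw [← not_lt, rotP_lt] at b1 b2 b3 ⊢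
    rcases o.cases hu with ⟨a1, a2⟩ | ⟨a1, a2⟩
    · have := a2 w hw
      have := a2 x hx
      grind
    · have := a1 w hw
      have := a1 x hx
      have := a2 w hw
      have := a2 x hx
      grind

theorem rot_split (x : β) : ∀ l : List α, l.Pairwise (fun u v => rot x (pos u) < rot x (pos v)) →
    ∃ l1 l2, l = l1 ++ l2 ∧ (l2 ++ l1).Pairwise fun u v => pos u < pos v := fun l h => by
  obtain ⟨l1, l2, rfl, a1, a2⟩ : ∃ l1 l2, l = l1 ++ l2 ∧ (∀ u ∈ l1, ¬pos u < x) ∧
      ∀ u ∈ l2, pos u < x := by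
    induction l with
    | nil => exact ⟨[], [], rfl, by simp, by simp⟩
    | cons a l ih =>
      rw [List.pairwise_cons] at h
      by_cases c : pos a < x
      · refine ⟨[], a :: l, rfl, by simp, List.forall_mem_cons.2 ⟨c, fun u hu => ?_⟩⟩
        have := rotP_lt.1 (h.1 u hu)
        tauto
      · obtain ⟨l1, l2, rfl, a1, a2⟩ := ih h.2
        exact ⟨a :: l1, l2, rfl, List.forall_mem_cons.2 ⟨c, a1⟩, a2⟩
  rw [List.pairwise_append] at h
  refine ⟨l1, l2, rfl, List.pairwise_append.2 ⟨h.2.1.imp_of_mem fun {u v} hu hv e => ?_,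
    h.1.imp_of_mem fun {u v} hu hv e => ?_, fun u hu v hv => (a2 u hu).trans_le (not_lt.1 (a1 v hv))⟩⟩
  · have := a2 u hu
    have := rotP_lt.1 e
    tauto
  · have := a1 v hv
    have := rotP_lt.1 e
    tauto

/-- `u`, `v`, `w` are in cyclic order -/
def Cy (u v w : β) : Prop := (u < v ∧ v < w) ∨ (v < w ∧ w < u) ∨ (w < u ∧ u < v)

theorem Cy.rot {u v w : β} (h : Cy u v w) (x : β) : Cy (rot x u) (rot x v) (rot x w) := by
  simp only [Cy, rotP_lt] at h ⊢
  grind

theorem rot_lt_iff {x u v : β} (hu : u ≠ x) : rot x u < rot x v ↔ Cy x u v := by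
  simp only [Cy, rotP_lt]
  grind

theorem rot_first {x u : β} (hu : u ≠ x) : rot x x < rot x u := by
  simp only [rotP_lt]
  grind

/-- monotone formulas in cyclic triples -/
inductive Cf
  | cy (i j k : ℕ)
  | and (a b : Cf)
  | or (a b : Cf)

def Cf.Holds (r : ℕ → β) : Cf → Prop
  | .cy i j k => Cy (r i) (r j) (r k)
  | .and a b => a.Holds r ∧ b.Holds r
  | .or a b => a.Holds r ∨ b.Holds r

def Cf.fm : Cf → Fm
  | .cy i j k => .cy i j k
  | .and a b => .and a.fm b.fm
  | .or a b => .or a.fm b.fm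

theorem Cf.fm_ok {r : ℕ → β} (x : β) : ∀ f : Cf, f.Holds r → f.fm.Holds fun k => rot x (r k)
  | .cy _ _ _, h => Cy.rot h x
  | .and a b, h => ⟨a.fm_ok x h.1, b.fm_ok x h.2⟩
  | .or a b, h => h.imp (a.fm_ok x) (b.fm_ok x)

end rot

/-! ### positions -/

section posi
variable {S Λ β : Type*} [LinearOrder β] {nxt : Λ → Λ} {pos : Λ → β} {hb τ η : Λ → S} {m : ℕ}
  {hang : Λ → ℕ → S → Prop} {c : S} {G : Set Λ} {T : List (S × S)}

/-- The position `(L, g)` is the edge below the vertex `g` of `L`; this is its lower end. -/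
def inP (τ : Λ → S) (p : Λ × Fin (m + 2)) : S ⊕ Λ × Fin (m + 1) :=
  Fin.cases (inl (τ p.1)) (fun i => inr (p.1, i)) p.2

/-- the upper end -/
def outP (η : Λ → S) (p : Λ × Fin (m + 2)) : S ⊕ Λ × Fin (m + 1) :=
  Fin.lastCases (inl (η p.1)) (fun i => inr (p.1, i)) p.2

@[simp] theorem inP_zero (L : Λ) : inP (m := m) τ (L, 0) = inl (τ L) := rfl
@[simp] theorem inP_succ (L : Λ) (i : Fin (m + 1)) : inP τ (L, i.succ) = inr (L, i) := rfl
@[simp] theorem inP_last (L : Λ) : inP τ (L, Fin.last (m + 1)) = inr (L, Fin.last m) := rfl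
@[simp] theorem outP_last (L : Λ) : outP η (L, Fin.last (m + 1)) = inl (η L) := by simp [outP]
@[simp] theorem outP_cast (L : Λ) (i : Fin (m + 1)) : outP η (L, i.castSucc) = inr (L, i) := by
  simp [outP]
@[simp] theorem outP_zero (L : Λ) : outP (m := m) η (L, 0) = inr (L, 0) := outP_cast L 0

/-- the next position -/
def nx2 (nxt : Λ → Λ) (p : Λ × Fin (m + 2)) : Λ × Fin (m + 2) :=
  Fin.lastCases (nxt p.1, 0) (fun i => (p.1, i.succ)) p.2

@[simp] theorem nx2_last (L : Λ) : nx2 nxt (L, Fin.last (m + 1)) = (nxt L, 0) := by simp [nx2]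
@[simp] theorem nx2_cast (L : Λ) (i : Fin (m + 1)) : nx2 nxt (L, i.castSucc) = (L, i.succ) := by
  simp [nx2]

/-- the order of the positions -/
def pos2 (pos : Λ → β) (p : Λ × Fin (m + 2)) : β ×ₗ Fin (m + 2) := toLex (pos p.1, p.2)

theorem pos2_lt {p q : Λ × Fin (m + 2)} :
    pos2 pos p < pos2 pos q ↔ pos p.1 < pos q.1 ∨ (pos p.1 = pos q.1 ∧ p.2 < q.2) :=
  Prod.Lex.toLex_lt_toLex

theorem out_in (p : Λ × Fin (m + 2)) : outP (fun L => hb (nxt L)) p = inP hb (nx2 nxt p) := by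
  obtain ⟨L, g⟩ := p
  induction g using Fin.lastCases <;> simp

theorem Cyc.two (o : Cyc Set.univ nxt pos) : Cyc Set.univ (nx2 (m := m) nxt) (pos2 pos) := by
  refine ⟨fun p _ q _ e => ?_, fun _ _ => trivial, ?_, ?_⟩
  · have := Prod.mk.inj (toLex.injective e)
    exact Prod.ext (o.inj trivial trivial this.1) this.2
  · rintro ⟨L, g⟩ - ⟨L', g'⟩ - h
    rw [← not_lt, pos2_lt, pos2_lt]
    rw [pos2_lt] at h
    induction g using Fin.lastCases with
    | last =>
      have := o.succ L trivial L' trivial (h.resolve_right fun a => absurd a.2 (not_lt.2 (Fin.le_last _)))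
      simp only [nx2_last, Fin.not_lt_zero]
      grind
    | cast i =>
      simp only [nx2_cast, Fin.lt_def, Fin.val_succ, Fin.val_castSucc] at h ⊢
      grind
  · rintro ⟨L, g⟩ - h ⟨L', g'⟩ -
    induction g using Fin.lastCases with
    | last =>
      have := o.wrap L trivial (fun w _ => not_lt.1 fun a =>
        not_lt.2 (h (w, 0) trivial) (pos2_lt.2 (Or.inl a))) L' trivial
      rw [← not_lt, pos2_lt]
      simp only [nx2_last, Fin.not_lt_zero]
      grind
    | cast i =>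
      exact absurd (pos2_lt.2 (Or.inr ⟨by rfl, Fin.castSucc_lt_last i⟩))
        (not_lt.2 (h (L, Fin.last _) trivial))

/-- walking along a line between two positions -/
theorem walk_line {A : Set (S ⊕ Λ × Fin (m + 1))} {L : Λ} {g g' : Fin (m + 2)} (h : g ≤ g')
    (lk : ∀ e, g ≤ e → e < g' → (inP τ (L, e) ∈ A ↔ outP η (L, e) ∈ A)) :
    inP τ (L, g) ∈ A ↔ inP τ (L, g') ∈ A := by
  induction g' using Fin.induction with
  | zero => rw [Fin.le_zero_iff.1 h]
  | succ i ih =>
    rcases h.eq_or_lt with rfl | h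
    · rfl
    have h := Fin.le_castSucc_iff.2 h
    rw [ih h fun e a b => lk e a (b.trans i.castSucc_lt_succ), lk _ h i.castSucc_lt_succ]
    simp

open Classical in
/-- the lines of a list of positions after a position on `s` -/
noncomputable def sq : Λ → List (Λ × Fin (m + 2)) → List Λ
  | _, [] => []
  | s, p :: l => if p.1 = s then sq s l else p.1 :: sq p.1 l

theorem sq_mem : ∀ (l : List (Λ × Fin (m + 2))) (s u : Λ), u ∈ s :: sq s l ↔ u = s ∨ ∃ p ∈ l, u = p.1
  | [], _, _ => by simp [sq]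
  | p :: l, s, u => by
    unfold sq
    split_ifs with h
    · rw [sq_mem l]
      simp [h]
    · rw [List.mem_cons, sq_mem l]
      simp

theorem sq_chain (inj : Injective pos) : ∀ (l : List (Λ × Fin (m + 2))) (p : Λ × Fin (m + 2)),
    (p :: l).IsChain (fun p q => pos2 pos p < pos2 pos q) →
    (p.1 :: sq p.1 l).IsChain fun u v => pos u < pos v
  | [], _, _ => by simp [sq]
  | q :: l, p, h => by
    rw [List.isChain_cons_cons] at h
    unfold sq
    split_ifs with e
    · exact e ▸ sq_chain inj l q h.2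
    · exact List.isChain_cons_cons.2 ⟨(pos2_lt.1 h.1).resolve_right fun a => e (inj a.1).symm,
        sq_chain inj l q h.2⟩

theorem sq_arcs {R : Λ → Λ → Prop} {R' : Λ × Fin (m + 2) → Λ × Fin (m + 2) → Prop}
    {f : Λ × Fin (m + 2)} : ∀ (l : List (Λ × Fin (m + 2))) (p : Λ × Fin (m + 2)),
    (p.1 :: (sq p.1 l ++ [f.1])).IsChain R →
    (p :: l).IsChain (fun p q => (q.1 = p.1 → R' p q) ∧ (q.1 ≠ p.1 → R p.1 q.1 → R' p q)) →
    (R ((p :: l).getLast (by simp)).1 f.1 → R' ((p :: l).getLast (by simp)) f) →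
    (p :: (l ++ [f])).IsChain R'
  | [], p, h, _, k => by simpa using k (by simpa [sq] using h)
  | q :: l, p, h, a, k => by
    rw [List.isChain_cons_cons] at a
    rw [List.cons_append, List.isChain_cons_cons]
    unfold sq at h
    split_ifs at h with e
    · exact ⟨a.1.1 e, sq_arcs l q (e ▸ h) a.2 k⟩
    · rw [List.cons_append, List.isChain_cons_cons] at h
      exact ⟨a.1.2 e h.1, sq_arcs l q h.2 a.2 k⟩

theorem chain_nx {α : Type*} {r : α → β} {l : List α} (h : l.Pairwise fun p q => r p < r q) :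
    l.IsChain fun p q => p ∈ l ∧ q ∈ l ∧ r p < r q ∧ ∀ e ∈ l, r e ≤ r p ∨ r q ≤ r e := by
  rw [List.pairwise_iff_getElem] at h
  refine List.isChain_iff_getElem.2 fun i hi => ⟨List.getElem_mem _, List.getElem_mem _,
    h i (i + 1) _ _ (by omega), fun e he => ?_⟩
  obtain ⟨j, hj, rfl⟩ := List.getElem_of_mem he
  rcases lt_trichotomy j i with a | rfl | a
  · exact Or.inl (h j i _ _ a).le
  · exact Or.inl le_rfl
  rcases (Nat.succ_le_of_lt a).eq_or_lt with rfl | a
  exacts [Or.inr le_rfl, Or.inr (h _ _ _ _ a).le]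

theorem inP_congr {τ' : Λ → S} {p : Λ × Fin (m + 2)} (h : τ p.1 = τ' p.1) : inP τ p = inP τ' p := by
  simp only [inP, h]

theorem outP_congr {η' : Λ → S} {p : Λ × Fin (m + 2)} (h : η p.1 = η' p.1) :
    outP η p = outP η' p := by simp only [outP, h]

/-- **The base configuration, cut at positions.** -/
theorem LBase.posi (h : LBase m hang c hb nxt pos G T) (inj : Injective pos) :
    ∃ τ η : Λ → S, (∀ L, hang L 0 (τ L)) ∧ (∀ L, hang L m (η L)) ∧
    (∀ s, {L | τ L = s}.ncard + {L | η L = s}.ncard + 2 * ind (c = s) +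
      (T.map fun t => ind (t.1 = s)).sum = 2 + (T.map fun t => ind (t.2 = s)).sum) ∧
    (∀ u ∈ G, τ u = hb u ∧ η u = hb (nxt u)) ∧
    ∀ l : List (Λ × Fin (m + 2)), l ≠ [] → l.Pairwise (fun p q => pos2 pos p < pos2 pos q) →
      (∀ p ∈ l, p.1 ∈ G) → ∀ A : Set (S ⊕ Λ × Fin (m + 1)),
      (∀ p, p ∉ l → (inP τ p ∈ A ↔ outP η p ∈ A)) →
      Arcs (fun p q => outP (fun L => hb (nxt L)) p ∈ A ↔ inP hb q ∈ A) l ∧
        (∀ t ∈ T, inl t.1 ∈ A ↔ inl t.2 ∈ A) ∧ ((∀ p ∈ l, inP hb p ∈ A ↔ inl c ∈ A) →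
          (∀ t ∈ T, inl t.2 ∈ A ↔ inl c ∈ A) → ∀ s t, s ∈ A → t ∈ A) := by
  obtain ⟨τ, η, h0, h1, h2, h3, h4⟩ := h
  refine ⟨τ, η, h0, h1, h2, h3, fun l ne srt mem A lk => ?_⟩
  have seg : ∀ (L : Λ) (g g' : Fin (m + 2)), g < g' → (∀ e, g < e → e < g' → (L, e) ∉ l) →
      (outP η (L, g) ∈ A ↔ inP τ (L, g') ∈ A) := fun L g g' a b => by
    induction g using Fin.lastCases with
    | last => exact absurd a (not_lt.2 (Fin.le_last _))
    | cast i =>
      rw [← walk_line (η := η) (Fin.castSucc_lt_iff_succ_le.1 a) fun e c d =>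
        lk _ (b e (Fin.castSucc_lt_iff_succ_le.2 c) d)]
      simp
  have top : ∀ (L : Λ) (g : Fin (m + 2)), (∀ e, g < e → (L, e) ∉ l) →
      (outP η (L, g) ∈ A ↔ inl (η L) ∈ A) := fun L g b => by
    rcases (Fin.le_last g).eq_or_lt with rfl | a
    · simp
    · rw [seg L g _ a fun e c _ => b e c, lk _ (b _ a), outP_last]
  have bot : ∀ (L : Λ) (g : Fin (m + 2)), (∀ e, e < g → (L, e) ∉ l) →
      (inl (τ L) ∈ A ↔ inP τ (L, g) ∈ A) := fun L g b =>
    walk_line (η := η) (Fin.zero_le g) fun e _ d => lk _ (b e d)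
  have ei : ∀ p ∈ l, inP τ p = inP hb p := fun p hp => inP_congr (h3 _ (mem p hp)).1
  have eo : ∀ p ∈ l, outP η p = outP (fun L => hb (nxt L)) p := fun p hp =>
    outP_congr (h3 _ (mem p hp)).2
  have far : ∀ p ∈ l, ∀ q ∈ l, (∀ e, p.2 < e → (p.1, e) ∉ l) → (∀ e, e < q.2 → (q.1, e) ∉ l) →
      (inl (hb (nxt p.1)) ∈ A ↔ inl (hb q.1) ∈ A) →
      (outP (fun L => hb (nxt L)) p ∈ A ↔ inP hb q ∈ A) := fun p hp q hq a b d => by
    rw [← eo p hp, ← ei q hq, top _ _ a, ← bot _ _ b, (h3 _ (mem p hp)).2, (h3 _ (mem q hq)).1, d]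
  obtain ⟨p0, l0, rfl⟩ := List.exists_cons_of_ne_nil ne
  have sm : ∀ u, u ∈ p0.1 :: sq p0.1 l0 ↔ ∃ p ∈ p0 :: l0, u = p.1 := fun u => by
    rw [sq_mem]
    simp
  obtain ⟨b1, b2, b3⟩ := h4 (p0.1 :: sq p0.1 l0) (by simp)
    (CO.of_chain (sq_chain inj l0 p0 (List.isChain_iff_pairwise.2 srt)))
    (fun u hu => by obtain ⟨p, hp, rfl⟩ := (sm u).1 hu; exact mem p hp) {s | inl s ∈ A}
    fun L hL => by
      have n : ∀ e, (L, e) ∉ p0 :: l0 := fun e he => hL ((sm L).2 ⟨_, he, rfl⟩)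
      exact (lk _ (n 0)).trans (top L 0 fun e _ => n e)
  refine ⟨sq_arcs l0 p0 b1 ((chain_nx srt).imp ?_) (far _ (List.getLast_mem _) _ (by simp) ?_ ?_),
    b2, fun c1 c2 => ?_⟩
  · rintro ⟨L, g⟩ ⟨L', g'⟩ ⟨hp, hq, a, b⟩
    simp only [← not_lt, pos2_lt] at a b
    refine ⟨fun e => ?_, fun e => far _ hp _ hq (fun f c d => ?_) fun f c d => ?_⟩
    · obtain rfl : L' = L := e
      rw [← eo _ hp, ← ei _ hq]
      refine seg _ _ _ (by simpa using a) fun f c d hf => ?_
      have := b _ hf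
      grind
    · have := b _ d
      have : pos L' ≠ pos L := fun x => e (inj x)
      grind
    · have := b _ d
      have : pos L' ≠ pos L := fun x => e (inj x)
      grind
  · intro e a he
    have d := List.dropLast_append_getLast (l := p0 :: l0) (by simp)
    generalize (p0 :: l0).getLast _ = q at a he d
    have b : pos2 pos q < pos2 pos (q.1, e) := pos2_lt.2 (Or.inr ⟨rfl, a⟩)
    rw [← d, List.pairwise_append] at srt
    rw [← d, List.mem_append, List.mem_singleton] at he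
    rcases he with he | he
    · exact lt_asymm b (srt.2.2 _ he _ (by simp))
    · exact b.ne' (congrArg _ he)
  · intro e a he
    have b : pos2 pos (p0.1, e) < pos2 pos p0 := pos2_lt.2 (Or.inr ⟨rfl, a⟩)
    rcases List.mem_cons.1 he with he | he
    · exact b.ne (congrArg _ he)
    · exact lt_asymm b ((List.pairwise_cons.1 srt).1 _ he)
  have down : ∀ (L : Λ) (g0 : Fin (m + 2)), (inP τ (L, g0) ∈ A ↔ inl c ∈ A) →
      ∀ g ≤ g0, (inP τ (L, g) ∈ A ↔ inl c ∈ A) := fun L g0 => by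
    induction g0 using Fin.induction with
    | zero => exact fun a g b => Fin.le_zero_iff.1 b ▸ a
    | succ i ih =>
      intro a g b
      rcases b.eq_or_lt with rfl | b
      · exact a
      refine ih ?_ g (Fin.le_castSucc_iff.2 b)
      by_cases d : (L, i.castSucc) ∈ p0 :: l0
      · rw [ei _ d, c1 _ d]
      · rw [lk _ d, ← a]
        simp
  have hubs := b3 (fun u hu => by
    obtain ⟨p, hp, rfl⟩ := (sm u).1 hu
    have := down p.1 p.2 (by rw [ei _ hp, c1 _ hp]) 0 (Fin.zero_le _)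
    rwa [inP_zero, (h3 _ (mem p hp)).1] at this) c2
  have all : ∀ v, v ∈ A ↔ inl c ∈ A := by
    rintro (s | ⟨L, i⟩)
    · exact ⟨hubs s c, hubs c s⟩
    refine down L (Fin.last _) ?_ i.succ (Fin.le_last _)
    by_cases d : (L, Fin.last _) ∈ p0 :: l0
    · rw [ei _ d, c1 _ d]
    · rw [lk _ d, outP_last]
      exact ⟨hubs _ c, hubs c _⟩
  exact fun s t hs => (all t).2 ((all s).1 hs)

theorem sum_ind {α : Type*} [Fintype α] (P : α → Prop) : ∑ a, ind (P a) = {a | P a}.ncard := by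
  classical
  rw [Set.ncard_eq_toFinset_card', Finset.card_eq_sum_ones, Set.toFinset_ofPred, Finset.sum_filter]
  exact Finset.sum_congr rfl fun a _ => by simp [ind]

theorem sum_posi [Fintype Λ] (v : S ⊕ Λ × Fin (m + 1)) :
    ∑ p : Λ × Fin (m + 2), (ind (inP τ p = v) + ind (outP η p = v)) =
      v.elim (fun s => {L | τ L = s}.ncard + {L | η L = s}.ncard) fun _ => 2 := by
  classical
  rw [Finset.sum_add_distrib, Fintype.sum_prod_type, Fintype.sum_prod_type]
  simp only [Fin.sum_univ_succ (n := m + 1) fun g => ind (inP τ (_, g) = v),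
    Fin.sum_univ_castSucc (n := m + 1) fun g => ind (outP η (_, g) = v), inP_zero, inP_succ,
    outP_last, outP_cast, Finset.sum_add_distrib, ← Fintype.sum_prod_type'
      fun L (i : Fin (m + 1)) => ind ((inr (L, i) : S ⊕ Λ × Fin (m + 1)) = v)]
  rcases v with s | q <;> simp [sum_ind, ind_false]

/-- **Rows on positions.**  The cuts `l` are removed and the edges `E` are added. -/
theorem LBase.ham [Fintype S] [Fintype Λ] [DecidableEq S] [DecidableEq Λ] [Nontrivial S]
    (h : LBase m hang c hb nxt pos G T) (inj : Injective pos) (hm : 1 ≤ m)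
    {G0 : SimpleGraph (S ⊕ Λ × Fin (m + 1))} {hang0 : Λ → ℕ → S → Prop} (le : HL m hang0 ≤ G0)
    (l : List (Λ × Fin (m + 2))) (ne : l ≠ []) (srt : l.Pairwise fun p q => pos2 pos p < pos2 pos q)
    (mem : ∀ p ∈ l, p.1 ∈ G) (str : ∀ L i s, hang L i s → hang0 L i s ∨ (i = 0 ∧ (L, 0) ∈ l))
    (E : List ((S ⊕ Λ × Fin (m + 1)) × (S ⊕ Λ × Fin (m + 1)))) (adj : ∀ e ∈ E, G0.Adj e.1 e.2)
    (bal : ∀ φ : S ⊕ Λ × Fin (m + 1) → ℕ, (E.map fun e => φ e.1 + φ e.2).sum +
      (T.map fun t => φ (inl t.2)).sum = 2 * φ (inl c) + (T.map fun t => φ (inl t.1)).sum +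
        (l.map fun p => φ (inP hb p) + φ (outP (fun L => hb (nxt L)) p)).sum)
    (fin : ∀ P : S ⊕ Λ × Fin (m + 1) → Prop,
      Arcs (fun p q => P (outP (fun L => hb (nxt L)) p) ↔ P (inP hb q)) l →
      (∀ t ∈ T, P (inl t.1) ↔ P (inl t.2)) → (∀ e ∈ E, P e.1 ↔ P e.2) →
      (∀ p ∈ l, P (inP hb p) ↔ P (inl c)) ∧ ∀ t ∈ T, P (inl t.2) ↔ P (inl c)) :
    G0.IsHamiltonian := by
  classical
  obtain ⟨τ, η, h0, h1, h2, h3, h4⟩ := h.posi inj
  obtain ⟨p0, hp0⟩ := List.exists_mem_of_ne_nil l ne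
  refine ham_of_multi (ι := (Λ × Fin (m + 2)) ⊕ Fin E.length)
    (Sum.elim (inP τ) fun i => E[i].1) (Sum.elim (outP η) fun i => E[i].2)
    (Sum.elim (· ∉ l) fun _ => True) ?_ (fun v => ?_) (fun A lk => ?_) ?_
  · rintro (⟨L, g⟩ | i) hp
    · refine le ?_
      induction g using Fin.cases with
      | zero => simpa using (str _ _ _ (h0 L)).resolve_right fun a => hp a.2
      | succ i =>
        induction i using Fin.lastCases with
        | last => simpa using (str _ _ _ (h1 L)).resolve_right fun a => by omega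
        | cast j =>
          rw [Sum.elim_inl, Sum.elim_inl, inP_succ, Fin.succ_castSucc, outP_cast]
          simp
    · exact adj _ (List.getElem_mem _)
  · have a1 := sum_posi (τ := τ) (η := η) v
    have a2 := bal fun u => ind (u = v)
    have a3 : (l.map fun p => ind (inP hb p = v) + ind (outP (fun L => hb (nxt L)) p = v)).sum =
        ∑ p ∈ l.toFinset, (ind (inP τ p = v) + ind (outP η p = v)) := by
      rw [List.sum_toFinset _ (srt.imp fun {p q} a (e : p = q) => a.ne (by rw [e]))]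
      refine congrArg _ (List.map_congr_left fun p hp => ?_)
      rw [inP_congr (h3 _ (mem p hp)).1, outP_congr (η' := fun L => hb (nxt L)) (h3 _ (mem p hp)).2]
    have a4 : ∑ p, (ind (p ∉ l ∧ inP τ p = v) + ind (p ∉ l ∧ outP η p = v)) =
        ∑ p ∈ l.toFinsetᶜ, (ind (inP τ p = v) + ind (outP η p = v)) := by
      rw [← Finset.sum_filter_of_ne (p := (· ∉ l)) (fun p _ a b => a (by simp [b, ind]))]
      exact Finset.sum_congr (by ext; simp) fun p hp => by simp [by simpa using hp]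
    have a5 := Finset.sum_add_sum_compl l.toFinset fun p => ind (inP τ p = v) + ind (outP η p = v)
    have a6 : ∑ i : Fin E.length, (ind (E[i].1 = v) + ind (E[i].2 = v)) =
        (E.map fun e => ind (e.1 = v) + ind (e.2 = v)).sum :=
      Fin.sum_univ_fun_getElem E fun e => ind (e.1 = v) + ind (e.2 = v)
    rw [Fintype.sum_sum_type]
    simp only [Sum.elim_inl, Sum.elim_inr, true_and]
    rcases v with s | q
    · have := h2 s
      simp only [inl.injEq, Sum.elim_inl] at a1 a2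
      omega
    · simp only [reduceCtorEq, ind_false, Sum.elim_inr, List.map_const', List.sum_replicate,
        smul_zero] at a1 a2
      omega
  · obtain ⟨b1, b2, b3⟩ := h4 l ne srt mem A fun p hp => lk (inl p) hp
    obtain ⟨f1, f2⟩ := fin (· ∈ A) b1 b2 fun e he => by
      obtain ⟨i, hi, rfl⟩ := List.getElem_of_mem he
      exact lk (inr ⟨i, hi⟩) trivial
    exact b3 f1 f2
  · have : Nonempty Λ := ⟨p0.1⟩
    have := Fintype.one_lt_card (α := S)
    have := Fintype.card_pos (α := Λ × Fin (m + 1))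
    rw [Fintype.card_sum]
    omega

end posi

/-! ### rows -/

/-- new edges `E`, routes `T` (end, base), cuts `keep` that are not used -/
structure Row where
  E : List (Cd × Cd)
  T : List (Cd × Cd)
  keep : List ℕ

def canA (ad : List (ℕ × ℕ)) : Cd → Cd
  | .o k => look k (.o k) (ad.map fun p => (p.1, .i p.2))
  | s => s

def adA (n : ℕ) (ad : List (ℕ × ℕ)) : List Fm := ad.flatMap fun p =>
  ((List.range n).filter fun k => !(Nat.beq k p.1 || Nat.beq k p.2)).map (Fm.cy p.1 p.2)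

namespace Row

variable (R : Row) (n : ℕ) (ad : List (ℕ × ℕ))

def ed : List (Cd × Cd) := R.E ++ R.keep.map fun k => (.i k, .o k)

def bal : Bool := R.keep.all (Nat.blt · n) &&
  (((R.ed.flatMap fun e => [e.1, e.2]) ++ R.T.map Prod.snd).map fun s => (canA ad s).num).isPerm
  ((Cd.c :: Cd.c :: (R.T.map Prod.fst ++ (List.range n).flatMap fun k => [Cd.i k, Cd.o k])).map
    fun s => (canA ad s).num)

def msks : List ℕ × ℕ :=
  ((R.ed ++ R.T).map msk, mskL (R.T.map Prod.snd ++ (List.range n).map .i))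

end Row

/-- for every order of the cuts that starts at the cut `0` and agrees with `F`, one row works -/
def chkR (n : ℕ) (ad : List (ℕ × ℕ)) (F : List Cf) (Rs : List Row) : Bool :=
  Nat.blt 0 n && (ad.all (fun p => Nat.blt p.1 n && Nat.blt p.2 n) && (Rs.all (·.bal n ad) &&
    (orders ((List.range (n - 1)).map (fun k => Fm.lt 0 (k + 1)) ++ (F.map Cf.fm ++ adA n ad)) n).all
      fun l => Rs.any fun R => good (R.msks n).1 (R.msks n).2 (2 * n + 9) l))

theorem vec_get {α : Type*} : ∀ (a : α) (l : List α) (k : ℕ) (h : k < (a :: l).length),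
    vec a l k = (a :: l)[k]
  | _, _, 0, _ => by simp [vec]
  | _, b :: l, k + 1, h => vec_get b l k (by simpa using h)

theorem vec_all {α : Type*} {P : α → Prop} {a : α} {l : List α} (h : (a :: l).Forall P) :
    ∀ k < l.length + 1, P (vec a l k) := fun k hk =>
  vec_get a l k hk ▸ List.forall_iff_forall_mem.1 h _ (List.getElem_mem _)

theorem vec_inj {α : Type*} {a : α} {l : List α} (h : (a :: l).Nodup) :
    ∀ i < l.length + 1, ∀ j < l.length + 1, vec a l i = vec a l j → i = j := fun i hi j hj e => by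
  rw [vec_get a l i hi, vec_get a l j hj] at e
  exact (List.Nodup.getElem_inj_iff h).1 e

section rows
variable {S Λ β γ : Type*} [LinearOrder β] [LinearOrder γ] {m : ℕ}

/-- the point with a given name -/
def Cd.pt (c : S) (hb : Λ → S) (nxt : Λ → Λ) (z : ℕ → Λ × Fin (m + 2)) (a : ℕ → S) :
    Cd → S ⊕ Λ × Fin (m + 1)
  | .c => inl c
  | .v => inl c
  | .i k => inP hb (z k)
  | .o k => outP (fun L => hb (nxt L)) (z k)
  | .a k => inl (a k)

/-- The row describes the cuts `z` in a frame for `hang`; the graph `G0` contains the lines for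
`hang0`, which may lack tail options at used cuts. -/
structure Row.Ok (R : Row) (n : ℕ) (ad : List (ℕ × ℕ)) (G0 : SimpleGraph (S ⊕ Λ × Fin (m + 1)))
    (hang0 hang : Λ → ℕ → S → Prop) (c : S) (hb : Λ → S) (nxt : Λ → Λ) (pos : Λ → β) (G : Set Λ)
    (T : List (S × S)) (z : ℕ → Λ × Fin (m + 2)) (a : ℕ → S) : Prop where
  fr : Fr m hang c hb nxt pos G T
  mem : ∀ k < n, (z k).1 ∈ G
  inj : ∀ i < n, ∀ j < n, z i = z j → i = j
  ad : ad.Forall fun p => nx2 nxt (z p.1) = z p.2
  hT : T.map (Prod.map inl inl) = R.T.map fun e => (e.1.pt c hb nxt z a, e.2.pt c hb nxt z a)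
  adj : R.E.Forall fun e => G0.Adj (e.1.pt c hb nxt z a) (e.2.pt c hb nxt z a)
  str : ∀ L i s, hang L i s → hang0 L i s ∨ (i = 0 ∧ ∃ k < n, k ∉ R.keep ∧ z k = (L, 0))

variable {R : Row} {n : ℕ} {ad : List (ℕ × ℕ)} {G0 : SimpleGraph (S ⊕ Λ × Fin (m + 1))}
  {hang0 hang : Λ → ℕ → S → Prop} {c : S} {hb : Λ → S} {nxt : Λ → Λ} {pos : Λ → β} {G : Set Λ}
  {T : List (S × S)} {z : ℕ → Λ × Fin (m + 2)} {a : ℕ → S}
  [Fintype S] [Fintype Λ] [DecidableEq S] [DecidableEq Λ] [Nontrivial S]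

theorem Row.Ok.ham (k : R.Ok n ad G0 hang0 hang c hb nxt pos G T z a) (hm : 1 ≤ m)
    (le : HL m hang0 ≤ G0) (bal : R.bal n ad = true) {l : List ℕ} (ne : l ≠ [])
    (pm : l.Perm (List.range n)) {x : β ×ₗ Fin (m + 2)}
    (srt : l.Pairwise fun i j => rot x (pos2 pos (z i)) < rot x (pos2 pos (z j)))
    (gd : good (R.msks n).1 (R.msks n).2 (2 * n + 9) l = true) : G0.IsHamiltonian := by
  obtain ⟨l1, l2, rfl, srt2⟩ := rot_split (pos := fun i => pos2 pos (z i)) x l srt
  have pm' : (l2 ++ l1).Perm (List.range n) := List.perm_append_comm.trans pm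
  have mem : ∀ j, j ∈ l2 ++ l1 ↔ j < n := fun j => pm'.mem_iff.trans List.mem_range
  simp only [Row.bal, Bool.and_eq_true, List.all_eq_true, Nat.blt_eq] at bal
  have hT : ∀ {δ : Type} (f : S ⊕ Λ × Fin (m + 1) → S ⊕ Λ × Fin (m + 1) → δ),
      (T.map fun t => f (inl t.1) (inl t.2)) =
      R.T.map fun e => f (e.1.pt c hb nxt z a) (e.2.pt c hb nxt z a) := fun f => by
    simpa [comp_def] using congrArg (List.map fun t => f t.1 t.2) k.hT
  have hT' : ∀ f : S ⊕ Λ × Fin (m + 1) → S ⊕ Λ × Fin (m + 1) → Prop,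
      (∀ t ∈ T, f (inl t.1) (inl t.2)) ↔
      ∀ e ∈ R.T, f (e.1.pt c hb nxt z a) (e.2.pt c hb nxt z a) := fun f => by
    have := congrArg (fun l => ∀ r ∈ l, r) (hT f)
    simpa only [List.forall_mem_map, eq_iff_iff] using this
  refine k.fr.base.ham (fun _ _ e => k.fr.cyc.inj trivial trivial e) hm le ((l2 ++ l1).map z)
    (fun e => ne (by simpa [and_comm] using e)) (List.pairwise_map.2 srt2)
    (List.forall_mem_map.2 fun j hj => k.mem j ((mem j).1 hj))
    (fun L i s h => (k.str L i s h).imp id fun ⟨b, j, hj, _, e⟩ =>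
      ⟨b, List.mem_map.2 ⟨j, (mem j).2 hj, e⟩⟩)
    (R.ed.map fun e => (e.1.pt c hb nxt z a, e.2.pt c hb nxt z a))
    (List.forall_mem_map.2 fun e he => ?_) (fun φ => ?_) fun P b1 b2 b3 => ?_
  · rcases List.mem_append.1 he with he | he
    · exact List.forall_iff_forall_mem.1 k.adj e he
    obtain ⟨j, hj, rfl⟩ := List.mem_map.1 he
    refine le ?_
    simp only [Cd.pt]
    generalize hz : z j = p
    obtain ⟨L, g⟩ := p
    induction g using Fin.cases with
    | zero =>
      simpa using (k.str _ _ _ (k.fr.he L).1).resolve_right fun ⟨_, i, hi, b, e⟩ =>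
        b (k.inj i hi j (bal.1 j hj) (e.trans hz.symm) ▸ hj)
    | succ i =>
      induction i using Fin.lastCases with
      | last => simpa using (k.str _ _ _ (k.fr.he L).2).resolve_right fun a => by omega
      | cast j =>
        rw [inP_succ, Fin.succ_castSucc, outP_cast]
        simp
  · let ψ : Cd → ℕ := fun s => φ (s.pt c hb nxt z a)
    have c0 : ∀ s, ψ (canA ad s) = ψ s := by
      rintro (_ | _ | j | j | j) <;> try rfl
      refine look_ok (P := fun s => ψ s = ψ (.o j)) rfl _ fun p hp e => ?_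
      obtain ⟨q, hq, rfl⟩ := List.mem_map.1 hp
      simp only [ψ, Cd.pt, out_in, ← show q.1 = j from e, List.forall_iff_forall_mem.1 k.ad q hq]
    have c1 := List.isPerm_iff.1 bal.2
    rw [show (fun s => (canA ad s).num) = Cd.num ∘ canA ad from rfl, ← List.map_map,
      ← List.map_map, List.map_perm_map_iff Cd.num_inj] at c1
    have c2 := (c1.map ψ).sum_eq
    have c3 : ∀ {δ : Type} (t : List δ) (f g : δ → Cd), ((t.flatMap fun k => [f k, g k]).map ψ).sum =
        (t.map fun k => ψ (f k) + ψ (g k)).sum := fun t f g => by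
      induction t with
      | nil => rfl
      | cons a t ih => simp [ih, add_assoc]
    simp only [List.map_map, show ψ ∘ canA ad = ψ from funext c0] at c2
    simp only [List.map_append, List.sum_append, c3, List.map_map, comp_def, List.map_cons,
      List.sum_cons] at c2
    rw [hT fun _ t => φ t, hT fun t _ => φ t, List.map_map, List.map_map, (pm'.map _).sum_eq]
    simp only [ψ, Cd.pt, comp_def] at c2 ⊢
    omega
  · rw [hT' fun s t => P s ↔ P t] at b2
    rw [hT' fun _ t => P t ↔ P (inl c), List.forall_mem_map]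
    have b4 : Arcs (fun i j => P ((Cd.o i).pt c hb nxt z a) ↔ P ((Cd.i j).pt c hb nxt z a))
        (l1 ++ l2) := by
      have e : ((l1 ++ l2 : List ℕ) : Cycle ℕ) = (l2 ++ l1 : List ℕ) :=
        Cycle.coe_eq_coe.2 ⟨l1.length, List.rotate_append_length_eq _ _⟩
      rw [Arcs, e]
      exact (Cycle.chain_map (r := fun p q => P (outP (fun L => hb (nxt L)) p) ↔ P (inP hb q)) z).1 b1
    have := good_ok ne gd (P := fun s => P (s.pt c hb nxt z a)) b4 fun e he =>
      (List.mem_append.1 he).elim (List.forall_mem_map.1 b3 e) (b2 e)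
    simp only [List.mem_append, List.mem_map, List.mem_range] at this
    exact ⟨fun j hj => this _ (Or.inr ⟨j, (mem j).1 hj, rfl⟩), fun e he => this _ (Or.inl ⟨e, he, rfl⟩)⟩

/-- the row holds in some frame in which the cuts are in the cyclic order of `r` -/
def Row.Has (R : Row) (β : Type*) [LinearOrder β] (n : ℕ) (ad : List (ℕ × ℕ))
    (G0 : SimpleGraph (S ⊕ Λ × Fin (m + 1))) (hang0 : Λ → ℕ → S → Prop) (r : ℕ → γ) : Prop :=
  ∃ (hang : Λ → ℕ → S → Prop) (c : S) (hb : Λ → S) (nxt : Λ → Λ) (pos : Λ → β) (G : Set Λ)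
    (T : List (S × S)) (z : ℕ → Λ × Fin (m + 2)) (a : ℕ → S),
    R.Ok n ad G0 hang0 hang c hb nxt pos G T z a ∧ ∀ i < n, ∀ j < n, Cy (r 0) (r i) (r j) →
      Cy (pos2 pos (z 0)) (pos2 pos (z i)) (pos2 pos (z j))

/-- **Alternatives.**  The order `r` is the order of the cuts `z0` in a state. -/
theorem rows_ham {F : List Cf} {Rs : List Row} (ok : chkR n ad F Rs = true) (hm : 1 ≤ m)
    (le : HL m hang0 ≤ G0) {nxt0 : Λ → Λ} {pos0 : Λ → γ} (o : Cyc Set.univ nxt0 pos0)
    {z0 : ℕ → Λ × Fin (m + 2)} (inj : ∀ i < n, ∀ j < n, z0 i = z0 j → i = j)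
    (ha : ad.Forall fun p => nx2 nxt0 (z0 p.1) = z0 p.2)
    (hF : F.Forall (Cf.Holds fun k => pos2 pos0 (z0 k)))
    (has : Rs.Forall fun R => R.Has β n ad G0 hang0 fun k => pos2 pos0 (z0 k)) :
    G0.IsHamiltonian := by
  simp only [chkR, Bool.and_eq_true, List.all_eq_true, Nat.blt_eq, List.any_eq_true] at ok
  obtain ⟨k0, k1, k2, k3⟩ := ok
  have o2 := o.two (m := m)
  have : Nonempty Λ := ⟨(z0 0).1⟩
  have pi : ∀ i j, i < n → j < n → i ≠ j → pos2 pos0 (z0 i) ≠ pos2 pos0 (z0 j) :=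
    fun i j a b c e => c (inj i a j b (o2.inj trivial trivial e))
  obtain ⟨l, a1, a2, a3⟩ := orders_ok (r := fun k => rot (pos2 pos0 (z0 0)) (pos2 pos0 (z0 k)))
    (F := (List.range (n - 1)).map (fun k => Fm.lt 0 (k + 1)) ++ (F.map Cf.fm ++ adA n ad))
    (fun f hf => by
      simp only [List.mem_append, List.mem_map, List.mem_range, adA, List.mem_flatMap,
        List.mem_filter, Bool.not_eq_true', Bool.or_eq_false_iff] at hf
      rcases hf with ⟨k, hk, rfl⟩ | ⟨g, hg, rfl⟩ | ⟨p, hp, k, hk, rfl⟩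
      · exact rot_first (pi _ _ (by omega) k0 (by omega))
      · exact g.fm_ok _ (List.forall_iff_forall_mem.1 hF g hg)
      refine Cy.rot ?_ _
      have b1 := pi k p.1 hk.1 (k1 p hp).1 (Nat.ne_of_beq_eq_false hk.2.1)
      have b2 := pi k p.2 hk.1 (k1 p hp).2 (Nat.ne_of_beq_eq_false hk.2.2)
      have b3 := o2.cases (u := z0 p.1) trivial
      have b4 : pos2 pos0 (nx2 nxt0 (z0 p.1)) ≠ pos2 pos0 (z0 p.1) := fun e =>
        o2.nx_ne _ (o2.inj trivial trivial e)
      rw [List.forall_iff_forall_mem.1 ha p hp] at b3 b4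
      unfold Cy
      rcases b3 with ⟨b3, b5⟩ | ⟨b3, b5⟩
      · have := b5 (z0 k) trivial
        grind
      · have := b3 (z0 k) trivial
        have := b5 (z0 k) trivial
        grind) n fun j hj i hi e => pi i j (by omega) hj (by omega) (rot_inj e)
  obtain ⟨R, hR, gd⟩ := k3 l a1
  obtain ⟨hang, c, hb, nxt, pos, G, T, z, a, k, ag⟩ := List.forall_iff_forall_mem.1 has R hR
  have mem : ∀ j, j ∈ l ↔ j < n := fun j => a3.mem_iff.trans List.mem_range
  refine k.ham hm le (k2 R hR) (List.ne_nil_of_mem ((mem 0).2 k0)) a3 (x := pos2 pos (z 0))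
    (a2.imp_of_mem fun {i j} hi hj e => ?_) gd
  have hi := (mem i).1 hi
  have hj := (mem j).1 hj
  have pj : ∀ j < n, j ≠ 0 → pos2 pos (z j) ≠ pos2 pos (z 0) := fun j hj b e =>
    b (k.inj j hj 0 k0 (k.fr.cyc.two.inj trivial trivial e))
  by_cases b : i = 0
  · subst b
    exact rot_first (pj j hj fun d => by rw [d] at e; exact lt_irrefl _ e)
  · exact (rot_lt_iff (pj i hi b)).2 (ag i hi j hj ((rot_lt_iff (pi i 0 hi k0 b)).1 e))

/-- **One row.** -/
theorem Row.Ok.one {F : List Cf} (k : R.Ok n ad G0 hang0 hang c hb nxt pos G T z a)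
    (ok : chkR n ad F [R] = true) (hm : 1 ≤ m) (le : HL m hang0 ≤ G0)
    (hF : F.Forall (Cf.Holds fun k => pos2 pos (z k))) : G0.IsHamiltonian :=
  rows_ham (β := β) ok hm le k.fr.cyc k.inj k.ad hF ⟨_, _, _, _, _, _, _, _, _, k, fun _ _ _ _ => id⟩

/-- Cuts `0`, `1` are the labels with parents `a 0`, `a 1`; the ends are the lower side of the cut
`2` and the upper side of the cut `3`. -/
example {s t : S} (h : Fr m hang c hb nxt pos G [(s, c), (t, c)]) (hm : 1 ≤ m) {x y : Λ}
    {p q : Λ × Fin (m + 2)} (le : HL m hang ≤ G0) (g1 : x ∈ G) (g2 : y ∈ G) (g3 : p.1 ∈ G)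
    (g4 : q.1 ∈ G) (nd : [(x, 0), (y, 0), p, q].Nodup) (h1 : hang x 0 s) (h2 : hang y 0 t)
    (h3 : G0.Adj (outP (fun L => hb (nxt L)) p) (inl (hb x))) (h4 : G0.Adj (inP hb q) (inl (hb y)))
    (h5 : G0.Adj (inP hb p) (outP (fun L => hb (nxt L)) q))
    (o1 : Cy (pos2 pos (x, 0)) (pos2 pos p) (pos2 pos q))
    (o2 : Cy (pos2 pos (y, 0)) (pos2 pos p) (pos2 pos q)) : G0.IsHamiltonian :=
  Row.Ok.one (R := ⟨[(.o 0, .a 0), (.o 1, .a 1), (.o 2, .i 0), (.i 3, .i 1), (.i 2, .o 3)],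
      [(.a 0, .c), (.a 1, .c)], []⟩) (n := 4) (ad := []) (F := [.cy 0 2 3, .cy 1 2 3])
    (z := vec (x, 0) [(y, 0), p, q]) (a := vec s [t])
    ⟨h, vec_all (P := fun p : Λ × Fin (m + 2) => p.1 ∈ G) (a := (x, 0)) (l := [(y, 0), p, q]) ⟨g1, g2, g3, g4⟩,
      vec_inj nd, trivial, rfl,
      ⟨le (by simpa [Cd.pt, vec] using h1), le (by simpa [Cd.pt, vec] using h2), h3, h4, h5⟩,
      fun _ _ _ => Or.inl⟩ (by decide +kernel) hm le ⟨o1, o2⟩

end rows

end Pool.Agent.P.MP_439f1f_co
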