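import Pool.Agent.P.MP_439f1f_co.K5
import Pool.Agent.P.MP_439f1f_co.Dy2
import Pool.Agent.P.MP_439f1f_co.E1

/-!
Service by two chains of cuts that start at the centre.
-/

set_option autoImplicit false
set_option linter.unusedSectionVars false

namespace Pool.Agent.P.MP_439f1f_co

open Function SimpleGraph Sum

/-- A chain from `s` to `t`: in each step the holder is joined to one side of a cut (`true`: the
upper side), and the other side becomes the holder. -/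
def Chn {V Q : Type*} (G : SimpleGraph V) (I O : Q → V) : V → List Bool → List Q → V → Prop
  | s, [], [], t => s = t
  | s, b :: bs, p :: ps, t => G.Adj s (cond b (O p) (I p)) ∧ Chn G I O (cond b (I p) (O p)) bs ps t
  | _, _, _, _ => False

section chn
variable {V Q : Type*} {G G' : SimpleGraph V} {I O : Q → V} {s t u : V}

theorem Chn.nil : Chn G I O s [] [] s := rfl

theorem Chn.step {b : Bool} {p : Q} (h : G.Adj s (cond b (O p) (I p)))
    (e : cond b (I p) (O p) = t) : Chn G I O s [b] [p] t := ⟨h, e⟩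

theorem Chn.app : ∀ {s : V} {bs bs' : List Bool} {ps ps' : List Q}, Chn G I O s bs ps t →
    Chn G I O t bs' ps' u → Chn G I O s (bs ++ bs') (ps ++ ps') u
  | _, [], _, [], _, h, h' => (show _ = t from h) ▸ h'
  | _, _ :: _, _, _ :: _, _, h, h' => ⟨h.1, h.2.app h'⟩

theorem Chn.mono (le : G ≤ G') : ∀ {s : V} {bs : List Bool} {ps : List Q}, Chn G I O s bs ps t →
    Chn G' I O s bs ps t
  | _, [], [], h => h
  | _, _ :: _, _ :: _, h => ⟨le h.1, h.2.mono le⟩

theorem Chn.len : ∀ {s : V} {bs : List Bool} {ps : List Q}, Chn G I O s bs ps t →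
    bs.length = ps.length
  | _, [], [], _ => rfl
  | _, _ :: _, _ :: _, h => congrArg (· + 1) h.2.len

end chn

/-- the entry `k` of a list -/
def nth {α : Type*} (d : α) : List α → ℕ → α
  | [], _ => d
  | a :: _, 0 => a
  | _ :: l, k + 1 => nth d l k

theorem nth_get {α : Type*} (d : α) : ∀ (l : List α) (k : ℕ) (h : k < l.length), nth d l k = l[k]
  | _ :: _, 0, _ => rfl
  | _ :: l, k + 1, h => nth_get d l k (by simpa using h)

/-- the edges of a chain, and its end -/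
def cE : Cd → ℕ → List Bool → List (Cd × Cd) × Cd
  | s, _, [] => ([], s)
  | s, k, b :: bs => ((s, cond b (.o k) (.i k)) :: (cE (cond b (.i k) (.o k)) (k + 1) bs).1,
      (cE (cond b (.i k) (.o k)) (k + 1) bs).2)

theorem cE_ok {V Q : Type*} {G : SimpleGraph V} {I O : Q → V} {t : V} {f : Cd → V} {z : ℕ → Q}
    (hi : ∀ k, f (.i k) = I (z k)) (ho : ∀ k, f (.o k) = O (z k)) :
    ∀ (bs : List Bool) (ps : List Q) (s : Cd) (k : ℕ), Chn G I O (f s) bs ps t →
      (∀ i, ∀ h : i < ps.length, z (k + i) = ps[i]) →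
      (∀ e ∈ (cE s k bs).1, G.Adj (f e.1) (f e.2)) ∧ f (cE s k bs).2 = t
  | [], [], _, _, h, _ => ⟨by simp [cE], h⟩
  | b :: bs, p :: ps, s, k, h, a => by
    obtain rfl : z k = p := a 0 (by simp)
    have := cE_ok hi ho bs ps (cond b (.i k) (.o k)) (k + 1)
      (by cases b; exacts [ho k ▸ h.2, hi k ▸ h.2]) fun i hi => by
        rw [Nat.add_right_comm]
        exact a (i + 1) (by simpa using hi)
    refine ⟨List.forall_mem_cons.2 ⟨?_, this.1⟩, this.2⟩
    cases b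
    exacts [hi k ▸ h.1, ho k ▸ h.1]

/-- disjunctive normal form -/
def Fm.dnf : Fm → List (List (ℕ × ℕ))
  | .lt i j => [[(i, j)]]
  | .and a b => a.dnf.flatMap fun x => b.dnf.map (x ++ ·)
  | .or a b => a.dnf ++ b.dnf

theorem Fm.dnf_ok {β : Type*} [LinearOrder β] {r : ℕ → β} :
    ∀ f : Fm, f.Holds r → ∃ x ∈ f.dnf, ∀ e ∈ x, r e.1 < r e.2
  | .lt i j, h => ⟨[(i, j)], by simp [dnf], List.forall_mem_singleton.2 h⟩
  | .and a b, h =>
    let ⟨x, a1, a2⟩ := a.dnf_ok h.1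
    let ⟨y, b1, b2⟩ := b.dnf_ok h.2
    ⟨x ++ y, List.mem_flatMap.2 ⟨x, a1, List.mem_map.2 ⟨y, b1, rfl⟩⟩,
      fun e he => (List.mem_append.1 he).elim (a2 e) (b2 e)⟩
  | .or a b, h => h.elim
    (fun h => let ⟨x, a1, a2⟩ := a.dnf_ok h; ⟨x, List.mem_append_left _ a1, a2⟩)
    fun h => let ⟨x, a1, a2⟩ := b.dnf_ok h; ⟨x, List.mem_append_right _ a1, a2⟩

/-- all pairs are listed in `ne` or separated by a formula -/
def sepd (n : ℕ) (ne : List (ℕ × ℕ)) (F : List Fm) : Bool :=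
  (List.range n).all fun j => (List.range j).all fun i =>
    ne.any (fun p => (Nat.beq p.1 i && Nat.beq p.2 j) || (Nat.beq p.1 j && Nat.beq p.2 i)) ||
      (abv (lts F) i j || (abv (lts F) j i ||
        F.any fun f => f.dnf.all fun x => abv (x ++ lts F) i j || abv (x ++ lts F) j i))

theorem sepd_ok {Q β : Type*} [LinearOrder β] {pos : Q → β} {z : ℕ → Q} {n : ℕ}
    {ne : List (ℕ × ℕ)} {F : List Fm} (k : sepd n ne F = true) (h : ∀ p ∈ ne, z p.1 ≠ z p.2)
    (hF : ∀ f ∈ F, f.Holds fun k => pos (z k)) : ∀ i < n, ∀ j < n, z i = z j → i = j := by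
  intro i hi j hj e
  by_contra ne'
  wlog a : i < j generalizing i j
  · exact this j hj i hi e.symm (Ne.symm ne') (by omega)
  have b := List.all_eq_true.1 (List.all_eq_true.1 k j (List.mem_range.2 hj)) i
    (List.mem_range.2 a)
  have c := lts_ok hF
  have d : ∀ E : List (ℕ × ℕ), (∀ x ∈ E, pos (z x.1) < pos (z x.2)) →
      abv E i j = true ∨ abv E j i = true → False := fun E g b => b.elim
    (fun b => (abv_ok (r := fun k => pos (z k)) g b).ne (congrArg pos e))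
    fun b => (abv_ok (r := fun k => pos (z k)) g b).ne (congrArg pos e.symm)
  simp only [Bool.or_eq_true, List.any_eq_true, Bool.and_eq_true, Nat.beq_eq, List.all_eq_true] at b
  rcases b with ⟨p, hp, ⟨rfl, rfl⟩ | ⟨rfl, rfl⟩⟩ | b | b | ⟨f, hf, b⟩
  exacts [h p hp e, h p hp e.symm, d _ c (Or.inl b), d _ c (Or.inr b),
    let ⟨x, a1, a2⟩ := f.dnf_ok (hF f hf)
    d _ (fun y hy => (List.mem_append.1 hy).elim (a2 y) (c y)) (b x a1)]

/-- the row of two chains from the centre and one closed chain -/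
def rowC (b1 b2 b3 : List Bool) : Row :=
  ⟨((cE .c 0 b1).2, (cE .c b1.length b2).2) :: ((cE .c 0 b1).1 ++ ((cE .c b1.length b2).1 ++
    (cE (cE .c (b1.length + b2.length) b3).2 (b1.length + b2.length) b3).1)), [], []⟩

/-- the check for all orders that agree with `F` -/
def chkD (b1 b2 b3 : List Bool) (F : List Fm) (ne : List (ℕ × ℕ)) : Bool :=
  frc (b1.length + b2.length + b3.length) fun n => Nat.blt 0 n && (sepd n ne F &&
    ((rowC b1 b2 b3).bal n [] && (orders F n).all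
      (good ((rowC b1 b2 b3).msks n).1 ((rowC b1 b2 b3).msks n).2 (2 * n + 9))))

/-- the check of two chains -/
def chkC (b1 b2 : List Bool) (F : List Fm) (ne : List (ℕ × ℕ)) : Bool := chkD b1 b2 [] F ne

section
variable {S Λ β : Type*} [LinearOrder β] {m : ℕ} {hang : Λ → ℕ → S → Prop} {c : S}
  {hb : Λ → S} {nxt : Λ → Λ} {pos : Λ → β} {O : List Λ} [Fintype S] [Fintype Λ] [DecidableEq S]
  [DecidableEq Λ] [Nontrivial S] {b1 b2 b3 : List Bool} {p1 p2 p3 : List (Λ × Fin (m + 2))}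
  {u w s : S ⊕ Λ × Fin (m + 1)} {F : List Fm} {ne : List (ℕ × ℕ)}

theorem Fr.chains3 (h : Fr m (fk hang O) c hb nxt pos Set.univ []) (hm : 1 ≤ m)
    {G0 : SimpleGraph (S ⊕ Λ × Fin (m + 1))} (le : HL m hang ≤ G0)
    (c1 : Chn G0 (inP hb) (outP fun L => hb (nxt L)) (inl c) b1 p1 u)
    (c2 : Chn G0 (inP hb) (outP fun L => hb (nxt L)) (inl c) b2 p2 w) (a : G0.Adj u w)
    (c3 : Chn G0 (inP hb) (outP fun L => hb (nxt L)) s b3 p3 s)
    (hO : ∀ L ∈ O, (L, 0) ∈ p1 ++ (p2 ++ p3)) (d : Λ × Fin (m + 2))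
    (ok : chkD b1 b2 b3 F ne = true)
    (hF : F.Forall (Fm.Holds fun k => pos2 pos (nth d (p1 ++ (p2 ++ p3)) k)))
    (hn : ne.Forall fun p => nth d (p1 ++ (p2 ++ p3)) p.1 ≠ nth d (p1 ++ (p2 ++ p3)) p.2) :
    G0.IsHamiltonian := by
  simp only [chkD, frc_eq, Bool.and_eq_true, Nat.blt_eq, List.all_eq_true] at ok
  obtain ⟨k0, k1, k2, k3⟩ := ok
  have l1 := c1.len
  have l2 := c2.len
  have l3 := c3.len
  generalize hz : nth d (p1 ++ (p2 ++ p3)) = z at hF hn
  rw [List.forall_iff_forall_mem] at hF hn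
  have inj := sepd_ok k1 hn hF
  obtain ⟨l, a1, a2, a3⟩ := orders_ok hF (b1.length + b2.length + b3.length) fun j hj i hi e =>
    hi.ne (inj i (by omega) j hj (h.cyc.two.inj trivial trivial e))
  have e0 := fun t bs ps s k => cE_ok (G := G0) (t := t) (f := Cd.pt c hb nxt z fun _ => c)
    (I := inP hb) (O := outP fun L => hb (nxt L)) (z := z) (fun _ => rfl) (fun _ => rfl) bs ps s k
  have e1 := e0 _ b1 p1 .c 0 c1 fun i hi => by
    rw [← hz, zero_add, nth_get _ _ _ (by simp; omega), List.getElem_append_left hi]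
  have e2 := e0 _ b2 p2 .c b1.length c2 fun i hi => by
    rw [← hz, nth_get _ _ _ (by simp; omega), List.getElem_append_right (by omega),
      List.getElem_append_left (by omega)]
    simp [l1]
  have z3 : ∀ i, ∀ h : i < p3.length, z (b1.length + b2.length + i) = p3[i] := fun i hi => by
    rw [← hz, nth_get _ _ _ (by simp; omega), List.getElem_append_right (by omega),
      List.getElem_append_right (by omega)]
    congr 1
    omega
  have e3 : ∀ e ∈ (cE (cE .c (b1.length + b2.length) b3).2 (b1.length + b2.length) b3).1,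
      G0.Adj (e.1.pt c hb nxt z fun _ => c) (e.2.pt c hb nxt z fun _ => c) := by
    obtain _ | ⟨b, bs⟩ := b3
    · simp [cE]
    obtain _ | ⟨p, ps⟩ := p3
    · exact c3.elim
    obtain rfl : z _ = p := z3 0 (by simp)
    exact (e0 s _ _ _ _ (by
      rwa [cE, (e0 s bs ps _ _ (by cases b <;> exact c3.2) fun i hi =>
        Nat.add_right_comm .. ▸ z3 (i + 1) (by simpa using hi)).2]) z3).1
  obtain _ | ⟨x, l⟩ := l
  · exact absurd a3.length_eq (by simp; omega)
  refine Row.Ok.ham (R := rowC b1 b2 b3) (ad := []) (hang0 := hang) (a := fun _ => c)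
    ⟨h, fun _ _ => trivial, inj, trivial, rfl, List.forall_iff_forall_mem.2
      (List.forall_mem_cons.2 ⟨by rwa [e1.2, e2.2], fun e he => (List.mem_append.1 he).elim (e1.1 e)
        fun he => (List.mem_append.1 he).elim (e2.1 e) (e3 e)⟩),
      fun L i s a => a.imp_right fun a => ?_⟩
    hm le k2 (by simp) a3 (x := pos2 pos (z x)) (a2.imp_of_mem ?_) (k3 _ a1)
  · obtain ⟨k, hk, e⟩ := List.getElem_of_mem (hO L a.1)
    exact ⟨a.2, k, by simpa [l1, l2, l3, add_assoc] using hk, by simp [rowC],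
      hz ▸ (nth_get _ _ _ hk).trans e⟩
  · have g : ∀ i ∈ x :: l, ¬pos2 pos (z i) < pos2 pos (z x) :=
      List.forall_mem_cons.2 ⟨lt_irrefl _, fun i hi => ((List.pairwise_cons.1 a2).1 i hi).not_gt⟩
    exact fun {_ _} hi hj e => Prod.Lex.toLex_lt_toLex.2
      (Or.inr ⟨decide_eq_decide.2 (iff_of_false (g _ hi) (g _ hj)), e⟩)

/-- **Two chains from the centre.** -/
theorem Fr.chains (h : Fr m (fk hang O) c hb nxt pos Set.univ []) (hm : 1 ≤ m)
    (c1 : Chn (HL m hang) (inP hb) (outP fun L => hb (nxt L)) (inl c) b1 p1 u)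
    (c2 : Chn (HL m hang) (inP hb) (outP fun L => hb (nxt L)) (inl c) b2 p2 w) (a : u ≠ w)
    (hO : ∀ L ∈ O, (L, 0) ∈ p1 ++ p2) (d : Λ × Fin (m + 2)) (ok : chkC b1 b2 F ne = true)
    (hF : F.Forall (Fm.Holds fun k => pos2 pos (nth d (p1 ++ p2) k)))
    (hn : ne.Forall fun p => nth d (p1 ++ p2) p.1 ≠ nth d (p1 ++ p2) p.2) :
    (HL m hang ⊔ edge u w).IsHamiltonian :=
  h.chains3 (p3 := []) (s := u) hm le_sup_left (c1.mono le_sup_left) (c2.mono le_sup_left)
    (Or.inr ((edge_adj ..).2 ⟨Or.inl ⟨rfl, rfl⟩, a⟩)) Chn.nil (by rwa [List.append_nil]) d ok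
    (by rwa [List.append_nil]) (by rwa [List.append_nil])

end

/-! ### the construction -/

variable {K N β ι : Type} {r r0 q D e b : ℕ}

/-- the positions on the lines -/
abbrev Ps (K N : Type) (r r0 : ℕ) : Type := Hub K N (Pt K N) r0 × Fin (2 * r + 9 + 2)

/-- the edge below the vertex `i` of `L` (`0`: the tail edge, `2 * r + 10`: the head edge) -/
def pz (L : Hub K N (Pt K N) r0) (i : ℕ) : Ps K N r r0 := (L, Fin.ofNat _ i)

/-- the vertex `i` of `L` -/
def vz (L : Hub K N (Pt K N) r0) (i : ℕ) : Vx K N (Pt K N) r r0 := inr (L, Fin.ofNat _ i)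

/-- a hub as a vertex -/
abbrev hv (L : Hub K N (Pt K N) r0) : Vx K N (Pt K N) r r0 := inl (some L)

section
variable {L L' : Hub K N (Pt K N) r0} {i i' : ℕ}
  {τ : Hub K N (Pt K N) r0 → Option (Hub K N (Pt K N) r0)}

@[simp] theorem vz_val (L : Hub K N (Pt K N) r0) (k : Fin (2 * r + 9 + 1)) :
    vz L k = inr (L, k) := by simp [vz]

theorem pz_last : (pz L (2 * r + 10) : Ps K N r r0) = (L, Fin.last _) :=
  Prod.ext rfl (Fin.ext (Nat.mod_eq_of_lt (by omega)))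

theorem pz_val (h : i ≤ 2 * r + 10) : ((pz L i : Ps K N r r0).2 : ℕ) = i :=
  Nat.mod_eq_of_lt (by omega)

theorem pz_ne (h : L ≠ L') : (pz L i : Ps K N r r0) ≠ pz L' i' := fun a => h (congrArg Prod.fst a)

theorem pz_ne' (h : i ≠ i') (a : i ≤ 2 * r + 10) (a' : i' ≤ 2 * r + 10) :
    (pz L i : Ps K N r r0) ≠ pz L' i' := fun c => h (by rw [← pz_val (L := L) a, c, pz_val a'])

theorem in_pz (h : i ≤ 2 * r + 9) : inP τ (pz (r := r) L (i + 1)) = vz L i := by
  rw [pz, show Fin.ofNat (2 * r + 9 + 2) (i + 1) = (Fin.ofNat (2 * r + 9 + 1) i).succ from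
    Fin.ext (by simp [Nat.mod_eq_of_lt, Nat.lt_succ_of_le h])]
  rfl

theorem out_pz (h : i ≤ 2 * r + 9) : outP τ (pz (r := r) L i) = vz L i := by
  rw [pz, show Fin.ofNat (2 * r + 9 + 2) i = (Fin.ofNat (2 * r + 9 + 1) i).castSucc from
    Fin.ext (by simp [Nat.mod_eq_of_lt, Nat.lt_succ_of_le h, Nat.lt_succ_of_lt]), outP_cast]
  rfl

theorem out_last : outP τ (pz (r := r) L (2 * r + 10)) = inl (τ L) := by rw [pz_last, outP_last]

end

variable [DecidableEq K] [LinearOrder β] [Finite K] [Finite N] [Nonempty K]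

namespace Wd

variable (W : Wd K N β r r0 q D e b)

/-- the pair `u`, `w` is served -/
def Sv (u w : Vx K N (Pt K N) r r0) : Prop :=
  ∀ [Fintype (Hub K N (Pt K N) r0)] [DecidableEq (Hub K N (Pt K N) r0)],
    (HL (2 * r + 9) W.S.hang ⊔ edge u w).IsHamiltonian

/-- the virtual order of the lines -/
noncomputable abbrev vp (j : K) (l : ι → ℕ) (t : ι → N) := (W.rts l t).vp (W.pos j)

/-- the virtual order of the positions -/
noncomputable def vq (j : K) (l : ι → ℕ) (t : ι → N) (p : Ps K N r r0) := pos2 (W.vp j l t) p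

/-- chains in the virtual frame -/
def Ch (j : K) (l : ι → ℕ) (t : ι → N) : Vx K N (Pt K N) r r0 → List Bool → List (Ps K N r r0) →
    Vx K N (Pt K N) r r0 → Prop :=
  Chn (HL (2 * r + 9) W.S.hang) (inP ((W.rts l t).vh some)) (outP fun L => some (W.S.O.nxt j L))

variable {W} {j : K} {l : ι → ℕ} {t : ι → N} {u w s : Vx K N (Pt K N) r r0} {b1 b2 b3 : List Bool}
  {p1 p2 p3 : List (Ps K N r r0)} {F : List Fm} {ne : List (ℕ × ℕ)} {L L' : Hub K N (Pt K N) r0}
  {i i' : ℕ} {x : Option (Hub K N (Pt K N) r0)} {n n' a : N} {g : ι}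

theorem Sv.symm (h : W.Sv u w) : W.Sv w u := fun {_ _} => by rw [edge_comm]; exact h

theorem Ch.nil : W.Ch j l t u [] [] u := rfl

theorem Ch.app (h : W.Ch j l t s b1 p1 u) (h' : W.Ch j l t u b2 p2 w) :
    W.Ch j l t s (b1 ++ b2) (p1 ++ p2) w := Chn.app h h'

theorem Ch.up {p : Ps K N r r0} (e : outP (fun L => some (W.S.O.nxt j L)) p = w)
    (h : (HL (2 * r + 9) W.S.hang).Adj s w) (e' : inP ((W.rts l t).vh some) p = u) :
    W.Ch j l t s [true] [p] u := ⟨e ▸ h, e'⟩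

theorem Ch.dn {p : Ps K N r r0} (e : inP ((W.rts l t).vh some) p = w)
    (h : (HL (2 * r + 9) W.S.hang).Adj s w) (e' : outP (fun L => some (W.S.O.nxt j L)) p = u) :
    W.Ch j l t s [false] [p] u := ⟨e ▸ h, e'⟩

theorem adj_vz (h : W.S.hang L i x) (hi : i ≤ 2 * r + 9) :
    (HL (2 * r + 9) W.S.hang).Adj (inl x) (vz L i) := by
  rwa [vz, HL_lr, Fin.val_ofNat, Nat.mod_eq_of_lt (Nat.lt_succ_of_le hi)]

theorem ch_head (h : W.S.hang L (2 * r + 9) x) :
    W.Ch j l t (inl x) [false] [pz L (2 * r + 10)] (hv (W.S.O.nxt j L)) :=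
  Ch.dn (in_pz le_rfl) (adj_vz h le_rfl) out_last

/-- the vertex `i + 1` hangs on the holder -/
theorem ch_up (h : W.S.hang L (i + 1) x) (hi : i < 2 * r + 9) :
    W.Ch j l t (inl x) [true] [pz L (i + 1)] (vz L i) :=
  Ch.up (out_pz hi) (adj_vz h hi) (in_pz hi.le)

/-- the vertex `i` hangs on the holder -/
theorem ch_dn (h : W.S.hang L i x) (hi : i < 2 * r + 9) :
    W.Ch j l t (inl x) [false] [pz L (i + 1)] (vz L (i + 1)) :=
  Ch.dn (in_pz hi.le) (adj_vz h hi.le) (out_pz hi)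

/-- the holder hangs on the hub at the head of `L` -/
theorem ch_fhead (h : W.S.hang L' i (some (W.S.O.nxt j L))) (hi : i ≤ 2 * r + 9) :
    W.Ch j l t (vz L' i) [true] [pz L (2 * r + 10)] (vz L (2 * r + 9)) :=
  Ch.up out_last (adj_vz h hi).symm (in_pz le_rfl)

theorem hang_entry (n : N) (i : ℕ) :
    W.S.hang (W.prv (mo n i)) (2 * r + 9) (some (nl (W.ell n i))) :=
  (W.S.fit.hp _ _ _ (W.S.O.dA.apply_symm_apply _)).2 (Or.inr rfl)

theorem hang_exit (n : N) : W.S.hang (W.prv (inl n)) (2 * r + 9) (some (inl (mo n 0))) :=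
  (W.S.fit.hp _ _ _ (W.S.O.dA.apply_symm_apply _)).2 (Or.inr rfl)

theorem hang_moat (n : N) (i : ℕ) : W.S.hang (inl (mo n i)) 0 (some (inl (mo n (i + 1)))) :=
  (W.S.fit.tl _ _).2 (Or.inr (by
    simp only [mo, Stat.tB, Forest.tB0, finRotate_apply]
    congr 4
    exact Fin.ext (by simp [Fin.val_add])))

theorem ch_entry (n : N) (i : ℕ) : W.Ch j l t (hv (nl (W.ell n i))) [false]
    [pz (W.prv (mo n i)) (2 * r + 10)] (hv (inl (mo n i))) :=
  W.nxt_prv j _ ▸ ch_head (hang_entry n i)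

theorem ch_exit (n : N) : W.Ch j l t (hv (inl (mo n 0))) [false]
    [pz (W.prv (inl n)) (2 * r + 10)] (hv (nl n)) := by
  have := ch_head (j := j) (l := l) (t := t) (hang_exit (W := W) n)
  rwa [nxt_prv] at this

theorem bk_prv' (j : K) (p : N ⊕ N × Fin (r0 + 1)) : W.Bk j (W.prv p) (nd p) := by
  obtain ⟨i, h⟩ := W.in_pay p
  refine bl_iff.2 ⟨i, ?_⟩
  rw [lp, show W.prv p = _ from W.S.O.dA_symm_efst (inl p), Mac.el_elst]
  exact (W.B.rings.lo_sc_symm _).trans h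

theorem prv_lt (j : K) (p : N ⊕ N × Fin (r0 + 1)) : W.pos j (W.prv p) < W.pos j (inl p) := by
  have := (lt_dA (W := W) (j := j) (L := W.prv p) (by simpa using cold_pay j p)).1
  rwa [Equiv.apply_symm_apply] at this

theorem le_prv {p : N ⊕ N × Fin (r0 + 1)} :
    W.pos j L ≤ W.pos j (W.prv p) ↔ W.pos j L < W.pos j (inl p) := by
  rw [← lt_dA_iff (by simpa using cold_pay j p), Equiv.apply_symm_apply]

theorem vq_lt (h : W.vp j l t L < W.vp j l t L') : W.vq j l t (pz L i) < W.vq j l t (pz L' i') :=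
  pos2_lt.2 (Or.inl h)

theorem vq_line (h : i < i') (h' : i' ≤ 2 * r + 10) : W.vq j l t (pz L i) < W.vq j l t (pz L i') :=
  pos2_lt.2 (Or.inr ⟨rfl, by rwa [Fin.lt_def, pz_val h', pz_val (h.le.trans h')]⟩)

theorem vq_le (a : W.vp j l t L ≤ W.vp j l t L') (h : i < i') (h' : i' ≤ 2 * r + 10) :
    W.vq j l t (pz L i) < W.vq j l t (pz L' i') :=
  a.eq_or_lt.elim (fun a => Rts.Ok.vp_inj (W.lref j) a ▸ vq_line h h') vq_lt

theorem vq_out (h : (W.rts l t).Out (W.pos j) L) (h' : (W.rts l t).Out (W.pos j) L')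
    (a : W.pos j L < W.pos j L') : W.vq j l t (pz L i) < W.vq j l t (pz L' i') :=
  vq_lt ((Rts.vp_out h h').2 a)

theorem vq_out' (h : (W.rts l t).Out (W.pos j) L) (h' : (W.rts l t).Out (W.pos j) L')
    (a : W.pos j L ≤ W.pos j L') (c : i < i') (c' : i' ≤ 2 * r + 10) :
    W.vq j l t (pz L i) < W.vq j l t (pz L' i') :=
  vq_le (not_lt.1 (mt (Rts.vp_out h' h).1 a.not_gt)) c c'

variable (W) in
/-- the possible blocks of the anchor of a line in the block `n` -/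
def Anb (l : ι → ℕ) (t : ι → N) (n y : N) : Prop := y = n ∨ ∃ g, W.On (l g) (t g) n ∧ y = t g

theorem Anb.tree {y : N} (h : W.Anb l t n y) : W.F.tree y = W.F.tree n := by
  rcases h with rfl | ⟨g, h, rfl⟩
  exacts [rfl, h.1.tree.symm]

theorem Anb.anc {y : N} (h : W.Anb l t n y) : W.F.Anc n y := by
  rcases h with rfl | ⟨g, h, rfl⟩
  exacts [.refl _, h.1]

theorem bk_cut (j : K) (l : ℕ) (t : N) : W.Bk j (W.cut l t) (W.F.at' t (l + 1)) := Bk.self W j _

namespace Rs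

variable (k : W.Rs j l t)
include k

theorem serve3 (c1 : W.Ch j l t (inl none) b1 p1 u) (c2 : W.Ch j l t (inl none) b2 p2 w)
    (a : (HL (2 * r + 9) W.S.hang).Adj u w) {d : Bool} {p : Ps K N r r0} {u' w' : _}
    (c3 : W.Ch j l t (cond d (inP ((W.rts l t).vh some) p)
      (outP (fun L => some (W.S.O.nxt j L)) p)) b3 p3 u')
    (c4 : cond d (outP (fun L => some (W.S.O.nxt j L)) p) (inP ((W.rts l t).vh some) p) = w')
    (a' : u' ≠ w') (hO : ∀ g, pz (W.cut (l g) (t g)) 0 ∈ p1 ++ (p2 ++ p :: p3))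
    (ok : chkD b1 b2 (d :: b3) F ne = true)
    (hF : F.Forall (Fm.Holds fun n => W.vq j l t (nth (pz (inr (j, none, 0)) 0)
      (p1 ++ (p2 ++ p :: p3)) n)))
    (hn : ne.Forall fun c => nth (pz (inr (j, none, 0)) 0) (p1 ++ (p2 ++ p :: p3)) c.1 ≠
      nth (pz (inr (j, none, 0)) 0) (p1 ++ (p2 ++ p :: p3)) c.2) : W.Sv u' w' := fun {_ _} => by
  have v := funext (k.ok.vh_vn (nxt := W.S.O.nxt j))
  refine (k.fr (O := ((p1 ++ (p2 ++ p :: p3)).filter (·.2 = 0)).map Prod.fst) fun g =>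
    List.mem_map.2 ⟨_, List.mem_filter.2 ⟨hO g, decide_eq_true rfl⟩, rfl⟩).chains3 (s := u')
    (by omega) le_sup_left (v ▸ Chn.mono le_sup_left c1) (v ▸ Chn.mono le_sup_left c2) (Or.inl a)
    (v ▸ ⟨Or.inr ((edge_adj ..).2 ⟨Or.inl ⟨rfl, c4⟩, c4 ▸ a'⟩), Chn.mono le_sup_left c3⟩)
    (fun L h => ?_) _ ok hF hn
  obtain ⟨⟨_, y⟩, f, rfl⟩ := List.mem_map.1 h
  obtain ⟨f, c⟩ := List.mem_filter.1 f
  obtain rfl : y = 0 := by simpa using c
  exact f

/-- **Service by two chains.** -/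
theorem serve (c1 : W.Ch j l t (inl none) b1 p1 u) (c2 : W.Ch j l t (inl none) b2 p2 w)
    (a : u ≠ w) (hO : ∀ g, pz (W.cut (l g) (t g)) 0 ∈ p1 ++ p2) (F : List Fm) (ne : List (ℕ × ℕ))
    (ok : chkC b1 b2 F ne = true)
    (hF : F.Forall (Fm.Holds fun n => W.vq j l t (nth (pz (inr (j, none, 0)) 0) (p1 ++ p2) n)))
    (hn : ne.Forall fun c => nth (pz (inr (j, none, 0)) 0) (p1 ++ p2) c.1 ≠
      nth (pz (inr (j, none, 0)) 0) (p1 ++ p2) c.2) : W.Sv u w := fun {_ _} => by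
  have v := funext (k.ok.vh_vn (nxt := W.S.O.nxt j))
  refine (k.fr (O := ((p1 ++ p2).filter (·.2 = 0)).map Prod.fst) fun g =>
    List.mem_map.2 ⟨_, List.mem_filter.2 ⟨hO g, decide_eq_true rfl⟩, rfl⟩).chains
    (by omega) (v ▸ c1) (v ▸ c2) a (fun L h => ?_) _ ok hF hn
  obtain ⟨⟨_, y⟩, f, rfl⟩ := List.mem_map.1 h
  obtain ⟨f, c⟩ := List.mem_filter.1 f
  obtain rfl : y = 0 := by simpa using c
  exact f

/-- a route -/
theorem ch_cut (g : ι) : W.Ch j l t (inl (W.base (l g) (t g))) [true] [pz (W.cut (l g) (t g)) 0]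
    (hv (nl (t g))) :=
  Ch.up (out_pz (Nat.zero_le _)) (adj_vz (k.hang_cut g) (Nat.zero_le _))
    (congrArg inl (k.vh_cut g))

/-- a route backwards -/
theorem ch_rcut (g : ι) (h : W.S.hang L i (some (nl (t g)))) (hi : i ≤ 2 * r + 9) :
    W.Ch j l t (vz L i) [false] [pz (W.cut (l g) (t g)) 0] (vz (W.cut (l g) (t g)) 0) :=
  Ch.dn (congrArg inl (k.vh_cut g)) (adj_vz h hi).symm (out_pz (Nat.zero_le _))

omit k in
theorem _root_.Pool.Agent.P.MP_439f1f_co.Wd.ch_tail (o : (W.rts l t).Off L) (h : W.S.hang L 0 x) :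
    W.Ch j l t (inl x) [true] [pz L 0] (hv L) :=
  Ch.up (out_pz (Nat.zero_le _)) (adj_vz h (Nat.zero_le _)) (congrArg inl (Rts.vh_off o))

omit k in
/-- the holder hangs on the hub at the tail of `L` -/
theorem _root_.Pool.Agent.P.MP_439f1f_co.Wd.ch_ftail (o : (W.rts l t).Off L)
    (h : W.S.hang L' i (some L)) (hi : i ≤ 2 * r + 9) :
    W.Ch j l t (vz L' i) [false] [pz L 0] (vz L 0) :=
  Ch.dn (congrArg inl (Rts.vh_off o)) (adj_vz h hi).symm (out_pz (Nat.zero_le _))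

/-- the tail of a node of a route is at the parent -/
theorem ch_ftail_on (c : W.On (l g) (t g) a) (c' : l g + 1 < W.F.lev a)
    (h : W.S.hang L' i (some (nl (W.F.par a)))) (hi : i ≤ 2 * r + 9) :
    W.Ch j l t (vz L' i) [false] [pz (nl a) 0] (vz (nl a) 0) :=
  Ch.dn (congrArg inl (k.vh_on c c')) (adj_vz h hi).symm (out_pz (Nat.zero_le _))

theorem ch_kid (o : ∀ g, ¬W.On (l g) (t g) n) (h : 2 ≤ W.F.lev n) :
    W.Ch j l t (hv (nl (W.F.par n))) [true] [pz (nl n) 0] (hv (nl n)) :=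
  ch_tail (k.off_nl o) (hang_par h)

theorem ch_moat (n : N) (i : ℕ) : W.Ch j l t (hv (inl (mo n (i + 1)))) [true]
    [pz (inl (mo n i)) 0] (hv (inl (mo n i))) := ch_tail (k.off_moat _) (hang_moat n i)

/-- **The leak**: from the entry label through the moat to the node. -/
theorem ch_leak (n : N) : W.Ch j l t (hv (nl (W.ell n 1))) [false, true, false]
    [pz (W.prv (mo n 1)) (2 * r + 10), pz (inl (mo n 0)) 0, pz (W.prv (inl n)) (2 * r + 10)]
    (hv (nl n)) := (ch_entry n 1).app ((k.ch_moat n 0).app (ch_exit n))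

/-- **A direct access.** -/
theorem ch_acc {d f : Bool} {σ : Slot (r + 1)} (h : W.S.Acc d u L i f σ) :
    W.Ch j l t (hv (nl (W.S.sn L f σ))) [d] [pz L (cond d i (i + 1))] u := by
  have a := h.at.hang
  have := h.at.le
  rcases h.cases with ⟨rfl, y, rfl, rfl, rfl, -⟩ | ⟨rfl, y, c, rfl, rfl, -⟩ | ⟨y, rfl, c⟩
  · exact ch_tail (k.off_sys y) a
  · exact W.S.O.nxt_pay c ▸ ch_head a
  · cases d
    · exact vz_val L y ▸ (show i + 1 = y from c) ▸ ch_dn a (by have : i + 1 = y := c; omega)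
    · obtain rfl : (y : ℕ) + 1 = i := c
      exact vz_val L y ▸ ch_up a (by omega)

theorem out_bk (h : W.Bk j L n) (c : ∀ g, W.On (l g) (t g) n → n = t g) :
    (W.rts l t).Out (W.pos j) L := k.out_of fun g _ a a' d => a' (d.unique h ▸ c g (d.unique h ▸ a))

theorem an_bk (h : W.Bk j L n) : ∃ y, W.Anb l t n y ∧ W.Bk j ((W.rts l t).an (W.pos j) L) y := by
  rcases k.an_cases L with d | ⟨g, a, a1, -, a3, d⟩ <;> rw [d]
  exacts [⟨n, Or.inl rfl, h⟩, ⟨_, Or.inr ⟨g, a3.unique h ▸ a1, rfl⟩, Bk.self W j _⟩]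

theorem bk_lt (h : W.Bk j L n) (h' : W.Bk j L' n')
    (c : ∀ y y', W.Anb l t n y → W.Anb l t n' y' → W.gk j y < W.gk j y') :
    W.vp j l t L < W.vp j l t L' :=
  let ⟨y, a1, a2⟩ := k.an_bk h
  let ⟨y', b1, b2⟩ := k.an_bk h'
  Rts.vp_of_an (a2.lt b2 (c y y' a1 b1))

theorem bk_lt_cut (h : W.Bk j L n) (c : ∀ y, W.Anb l t n y → W.gk j y < W.gk j (t g)) :
    W.vp j l t L < W.vp j l t (W.cut (l g) (t g)) :=
  let ⟨y, a1, a2⟩ := k.an_bk h
  (k.lt_cut_iff _ g).2 (a2.lt (Bk.self W j _) (c y a1))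

theorem cut_lt_bk (h : W.Bk j L n) (c : ∀ y, W.Anb l t n y → W.gk j (t g) < W.gk j y) :
    W.vp j l t (W.cut (l g) (t g)) < W.vp j l t L :=
  let ⟨y, a1, a2⟩ := k.an_bk h
  Rts.vp_of_an (k.an_cut g ▸ (Bk.self W j _).lt a2 (c y a1))

/-- the order of the cuts of a leak, moat first -/
theorem leak_front (two : 2 ≤ r0) (c : ∀ g, W.On (l g) (t g) n → n = t g) (p : W.port j n = 0)
    (h : W.lay j (inl n) 0 < W.lay j (inl n) 1) :
    W.vq j l t (pz (inl (mo n 0)) 0) < W.vq j l t (pz (W.prv (mo n 1)) (2 * r + 10)) ∧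
      W.vq j l t (pz (W.prv (mo n 1)) (2 * r + 10)) <
        W.vq j l t (pz (W.prv (inl n)) (2 * r + 10)) :=
  ⟨vq_out' (k.out_bk (bk_pay.2 rfl) c) (k.out_bk (bk_prv' j _) c) (le_prv.2
    ((W.pos_mo (by omega) (by omega)).2 (by simp [p, el]; omega))) (by omega) le_rfl,
    vq_out (k.out_bk (bk_prv' j _) c) (k.out_bk (bk_prv' j _) c)
      ((prv_lt j _).trans_le (le_prv.2 (W.pos_mn.2 h)))⟩

/-- the order of the cuts of a leak, node first -/
theorem leak_back (two : 2 ≤ r0) (c : ∀ g, W.On (l g) (t g) n → n = t g) (p : W.port j n = 0)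
    (h : W.lay j (inl n) 1 < W.lay j (inl n) 0) :
    W.vq j l t (pz (W.prv (inl n)) (2 * r + 10)) < W.vq j l t (pz (inl (mo n 0)) 0) ∧
      W.vq j l t (pz (inl (mo n 0)) 0) < W.vq j l t (pz (W.prv (mo n 1)) (2 * r + 10)) :=
  ⟨vq_out (k.out_bk (bk_prv' j _) c) (k.out_bk (bk_pay.2 rfl) c)
      ((prv_lt j _).trans (W.pos_nm.2 h)),
    vq_out' (k.out_bk (bk_pay.2 rfl) c) (k.out_bk (bk_prv' j _) c) (le_prv.2
      ((W.pos_mo (by omega) (by omega)).2 (by simp [p, el]; omega))) (by omega) le_rfl⟩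

end Rs

end Wd

namespace Sw

variable {S : Sw K N r r0 q D e b} {j : K} {l : ι → ℕ} {t : ι → N} {L L' : Hub K N (Pt K N) r0}
  {n n' : N} {g g' : ι} {Z : N → Prop} (k : S.W.Rs j l t)
include k

theorem bk_lt (h : S.W.Bk j L n) (h' : S.W.Bk j L' n')
    (c : ∀ y y', S.W.Anb l t n y → S.W.Anb l t n' y' → (S.L j).key y < (S.L j).key y') :
    S.W.vp j l t L < S.W.vp j l t L' := k.bk_lt h h' fun y y' a a' => gk_lt.2 (c y y' a a')

theorem bk_lt_cut (h : S.W.Bk j L n) (c : ∀ y, S.W.Anb l t n y → (S.L j).key y < (S.L j).key (t g)) :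
    S.W.vp j l t L < S.W.vp j l t (S.W.cut (l g) (t g)) :=
  k.bk_lt_cut h fun y a => gk_lt.2 (c y a)

theorem cut_lt_bk (h : S.W.Bk j L n) (c : ∀ y, S.W.Anb l t n y → (S.L j).key (t g) < (S.L j).key y) :
    S.W.vp j l t (S.W.cut (l g) (t g)) < S.W.vp j l t L :=
  k.cut_lt_bk h fun y a => gk_lt.2 (c y a)

theorem cut_lt_cut (h : (S.L j).key (t g) < (S.L j).key (t g')) :
    S.W.vp j l t (S.W.cut (l g) (t g)) < S.W.vp j l t (S.W.cut (l g') (t g')) :=
  (k.cut_lt_cut g g').2 (nl_lt.2 h)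

/-- a line that is not in a payload block of the outer ring comes first -/
theorem pure_vp (f : ∀ g, S.W.B.fam j (t g) = false)
    (h : ∀ x, S.W.Bk j L x → S.W.B.fam j x = true) (h' : S.W.Bk j L' n)
    (f' : S.W.B.fam j n = false) : S.W.vp j l t L < S.W.vp j l t L' := by
  obtain ⟨y, a1, a2⟩ := k.an_bk h'
  refine Rts.vp_of_an ?_
  rw [Rts.an_out (k.out_of fun g a c _ d => by
    simpa [f g, h a d] using Wd.fam_tree (W := S.W) (j := j) c.1.tree)]
  exact ((S.out_or j L).resolve_left fun ⟨x, c, d⟩ => by simp [h x c] at d).2 _ y a2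
    ((Wd.fam_tree a1.tree).trans f')

omit k in
/-- a line outside a convex set of blocks of the outer ring lies on one side -/
theorem side (cv : ∀ a x c, Z a → Z c → (S.L j).key a ≤ (S.L j).key x →
      (S.L j).key x ≤ (S.L j).key c → Z x) (f : ∀ a, Z a → S.W.B.fam j a = false)
    (h : ∀ x, S.W.Bk j L x → ¬Z x) :
    (∀ u x, S.W.Bk j u x → Z x → S.W.pos j L < S.W.pos j u) ∨
      ∀ u x, S.W.Bk j u x → Z x → S.W.pos j u < S.W.pos j L := by
  by_contra c
  push Not at c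
  obtain ⟨⟨u, x, a1, a2, a3⟩, u', x', b1, b2, b3⟩ := c
  obtain ⟨y, c1, c2, c3⟩ := btw a1 b1 ((f x a2).trans (f x' b2).symm) a3 b3
  exact h y c1 (cv _ _ _ a2 b2 c2 c3)

/-- the same in the virtual order, if the set contains the routes -/
theorem vside (cv : ∀ a x c, Z a → Z c → (S.L j).key a ≤ (S.L j).key x →
      (S.L j).key x ≤ (S.L j).key c → Z x) (f : ∀ a, Z a → S.W.B.fam j a = false)
    (z : ∀ g a, S.W.On (l g) (t g) a → Z a) (h : ∀ x, S.W.Bk j L x → ¬Z x) :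
    (∀ u x, S.W.Bk j u x → Z x → S.W.vp j l t L < S.W.vp j l t u) ∨
      ∀ u x, S.W.Bk j u x → Z x → S.W.vp j l t u < S.W.vp j l t L := by
  have o := Rts.an_out (k.out_of (u := L) fun g a c _ d => h a d (z g a c))
  have a : ∀ u x, S.W.Bk j u x → Z x → ∃ y, S.W.Bk j ((S.W.rts l t).an (S.W.pos j) u) y ∧ Z y :=
    fun u x c d => by
      obtain ⟨y, rfl | ⟨g, -, rfl⟩, a2⟩ := k.an_bk c
      exacts [⟨_, a2, d⟩, ⟨_, a2, z g _ (k.on_self g)⟩]
  refine (side cv f h).imp (fun c u x a1 a2 => ?_) fun c u x a1 a2 => ?_ <;>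
    obtain ⟨y, b1, b2⟩ := a u x a1 a2 <;> exact Rts.vp_of_an (o.symm ▸ c _ y b1 b2)

end Sw

/-- An access up and an access down; the points come first. -/
example {W : Wd K N β r r0 q D e b} {j : K} {u w : Vx K N (Pt K N) r r0}
    {L L' : Hub K N (Pt K N) r0} {i i' : ℕ} {f f' : Bool} {σ σ' : Slot (r + 1)}
    (a : W.S.Acc true u L i f σ) (a' : W.S.Acc false w L' i' f' σ') (ne : u ≠ w)
    (k : W.Rs j ![0, 0] ![W.S.sn L f σ, W.S.sn L' f' σ'])
    (o1 : W.vp j ![0, 0] ![W.S.sn L f σ, W.S.sn L' f' σ'] L <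
      W.vp j ![0, 0] ![W.S.sn L f σ, W.S.sn L' f' σ'] L')
    (o2 : ∀ g, W.vp j ![0, 0] ![W.S.sn L f σ, W.S.sn L' f' σ'] L' <
      W.vp j ![0, 0] ![W.S.sn L f σ, W.S.sn L' f' σ'] (W.cut (![0, 0] g)
        (![W.S.sn L f σ, W.S.sn L' f' σ'] g))) : W.Sv u w :=
  k.serve ((k.ch_cut 0).app (k.ch_acc a)) ((k.ch_cut 1).app (k.ch_acc a')) ne
    (fun g => by fin_cases g <;> simp) [.lt 1 3, .lt 3 0, .lt 3 2] [(0, 2)] (by decide +kernel)
    ⟨Wd.vq_lt o1, Wd.vq_lt (o2 0), Wd.vq_lt (o2 1)⟩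
    (pz_ne fun c => absurd (k.dis 0 1 _ (k.on_cut 0) (inl.inj (inl.inj c) ▸ k.on_cut 1))
      (by decide))

/-- The centre and a node that is reached through its moat. -/
example {W : Wd K N β r r0 q D e b} {j : K} {n : N} (two : 2 ≤ r0) (k : W.Rs j ![0] ![W.ell n 1])
    (c : ¬W.On 0 (W.ell n 1) n) (p : W.port j n = 0) (h : W.lay j (inl n) 0 < W.lay j (inl n) 1)
    (o : W.gk j n < W.gk j (W.ell n 1)) : W.Sv (inl none) (hv (nl n)) :=
  have c : ∀ g, W.On (![0] g) (![W.ell n 1] g) n → n = ![W.ell n 1] g :=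
    fun g a => by fin_cases g; exact (c a).elim
  k.serve .nil ((k.ch_cut 0).app (k.ch_leak n)) (by simp) (fun g => by fin_cases g; simp)
    [.lt 2 1, .lt 1 3, .lt 3 0] [] (by decide +kernel)
    ⟨(k.leak_front two c p h).1, (k.leak_front two c p h).2, Wd.vq_lt (k.bk_lt_cut (g := 0)
      (Wd.bk_prv' j _) fun _ a => a.elim (· ▸ o) fun ⟨g, a, d⟩ => d ▸ c g a ▸ o)⟩ trivial

end Pool.Agent.P.MP_439f1f_co
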