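import Pool.Agent.P.MP_439f1f_co.B20

/-!
Arcs of a moat as one step of a chain.
-/

set_option autoImplicit false
set_option linter.unusedSectionVars false

namespace Pool.Agent.P.MP_439f1f_co

open Function SimpleGraph Sum

theorem Chn.congr {V Q : Type*} {G : SimpleGraph V} {I I' O : Q → V} {t : V} :
    ∀ {s : V} {bs : List Bool} {ps : List Q}, Chn G I O s bs ps t → (∀ p ∈ ps, I' p = I p) →
      Chn G I' O s bs ps t
  | _, [], [], h, _ => h
  | _, _ :: _, p :: _, h, e => by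
    rw [Chn, e p (by simp)]
    exact ⟨h.1, h.2.congr fun p hp => e p (List.mem_cons_of_mem _ hp)⟩

theorem nth_rel {α : Type*} {R : α → α → Prop} {d d' : α} (h : R d d') :
    ∀ {l l' : List α}, List.Forall₂ R l l' → ∀ k, R (nth d l k) (nth d' l' k)
  | _, _, .nil, _ => h
  | _, _, .cons a _, 0 => a
  | _, _, .cons _ a, k + 1 => nth_rel h a k

theorem Fm.Holds.imp {β γ : Type*} [LinearOrder β] [LinearOrder γ] {r : ℕ → β} {r' : ℕ → γ}
    (h : ∀ i j, r i < r j → r' i < r' j) : ∀ {f : Fm}, f.Holds r → f.Holds r'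
  | .lt _ _, a => h _ _ a
  | .and _ _, a => ⟨a.1.imp h, a.2.imp h⟩
  | .or _ _, a => Or.imp (Fm.Holds.imp h) (Fm.Holds.imp h) a

section
variable {S Λ ι β : Type*} [LinearOrder β] {m : ℕ} {hang : Λ → ℕ → S → Prop} {c : S}
  {hb : Λ → S} {nxt en : Λ → Λ} {pos : Λ → β} {R0 : Set Λ} {V : Rts S Λ ι} {x y u v : Λ}

theorem Fr.lref (h : Fr m hang c hb nxt pos Set.univ []) : LRef m hang c hb nxt pos ∅ id := by
  obtain ⟨τ, η, -, -, h2, h3, -⟩ := h.base
  obtain rfl : τ = hb := funext fun u => (h3 u trivial).1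
  obtain rfl : η = fun u => τ (nxt u) := funext fun u => (h3 u trivial).2
  refine ⟨h.cyc, fun s => ?_, ⟨fun L => (h.he L).1, fun L => (h.he L).2, fun s => ?_⟩, by simp,
    by simp⟩
  · by_contra a
    push Not at a
    simpa [a.2, ind, a.1.symm] using h2 s
  · have := h2 s
    simp only [ind_eq, List.map_nil, List.sum_nil] at this ⊢
    omega

/-- routes bring their own pass pairs -/
theorem Rts.own (r : LRef m hang c hb nxt pos R0 en)
    (inj : ∀ i k i' k', k ≤ 2 * V.n i → k' ≤ 2 * V.n i' → V.w i k = V.w i' k' → i = i' ∧ k = k')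
    (h0 : ∀ i, hang (V.fst i) 0 (V.b i))
    (hg : ∀ i, ∀ k < 2 * V.n i, hang (V.w i (k + 1)) 0 (hb (V.w i k)))
    (lt : ∀ i, ∀ j < V.n i, pos (V.w i (2 * j)) < pos (V.w i (2 * j + 1)))
    (out : ∀ i, ∀ j < V.n i, ∀ i', ∀ k ≤ 2 * V.n i', pos (V.w i' k) ≤ pos (V.w i (2 * j)) ∨
      pos (V.w i (2 * j + 1)) ≤ pos (V.w i' k)) :
    ∃ R en', LRef m hang c hb nxt pos R en' ∧ V.Ok hang hb pos R en' := by
  have sh : ∀ i, ∀ j < V.n i, V.sh (V.w i (2 * j)) = V.w i (2 * j + 1) := fun i j h => by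
    have e : ∃ p : ι × ℕ, p.2 ≤ 2 * V.n p.1 ∧ V.w p.1 p.2 = V.w i (2 * j) :=
      ⟨(i, 2 * j), by simp only; omega, rfl⟩
    have := inj _ _ _ _ e.choose_spec.1 (by omega) e.choose_spec.2
    rw [Rts.sh, dif_pos e, this.1, this.2, if_neg (by omega)]
  have ne : ∀ i k i' k', k ≤ 2 * V.n i → k' ≤ 2 * V.n i' → k ≠ k' →
      pos (V.w i k) ≠ pos (V.w i' k') := fun i k i' k' a a' b e =>
    b (inj _ _ _ _ a a' (r.cyc.inj trivial trivial e)).2
  refine ⟨{u | ∃ i, ∃ j < V.n i, u = V.w i (2 * j)}, V.sh, ⟨r.cyc, r.sur, r.ends, ?_, ?_⟩, inj, h0,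
    hg, fun i j h => ⟨⟨i, j, h, rfl⟩, sh i j h⟩, fun i i' j h => ?_⟩
  · rintro _ ⟨i, j, h, rfl⟩
    exact sh i j h ▸ lt i j h
  · rintro _ ⟨i, j, h, rfl⟩ _ ⟨i', j', h', rfl⟩ a
    rw [sh i j h]
    exact ((out i j h i' _ (by omega)).resolve_left a.not_ge).lt_of_ne
      (ne _ _ _ _ (by omega) (by omega) (by omega))
  · refine (out i' j h i _ le_rfl).imp (fun a => a.lt_of_ne fun e => ?_)
      fun a => a.lt_of_ne (ne _ _ _ _ (by omega) le_rfl (by omega))
    obtain ⟨rfl, e⟩ := inj _ _ _ _ le_rfl (by omega) (r.cyc.inj trivial trivial e)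
    omega

variable (a : V.Ok hang hb pos R0 en) (r : LRef m hang c hb nxt pos R0 en)
  (h : ∀ i, ∀ k ≤ 2 * V.n i, pos (V.w i k) < pos x ∨ pos y < pos (V.w i k))
include a r h

/-- an interval without lines of the routes keeps its order -/
theorem Rts.Ok.same (u1 : pos x ≤ pos u) (u2 : pos u ≤ pos y) (v1 : pos x ≤ pos v)
    (v2 : pos v ≤ pos y) : (V.an pos u = V.an pos v ∧ V.rk pos u = V.rk pos v) ∨
      (V.Out pos u ∧ V.Out pos v) := by
  have e : ∀ {u v}, pos x ≤ pos u → pos u ≤ pos y → pos x ≤ pos v → pos v ≤ pos y →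
      ∀ i j, V.In pos u i j → V.In pos v i j := fun _ _ _ _ i j d => by
    have := h i (2 * j) (by have := d.1; omega)
    have := h i (2 * j + 1) (by have := d.1; omega)
    unfold Rts.In at *
    grind
  rcases V.out_or pos u with d | ⟨i, j, d⟩
  · exact Or.inr ⟨d, fun i j b => d i j (e v1 v2 u1 u2 i j b)⟩
  · have d' := e u1 u2 v1 v2 i j d
    exact Or.inl ⟨(a.an_in r d).trans (a.an_in r d').symm, (a.rk_in r d).trans (a.rk_in r d').symm⟩

theorem Rts.Ok.same_lt (u1 : pos x ≤ pos u) (u2 : pos u ≤ pos y) (v1 : pos x ≤ pos v)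
    (v2 : pos v ≤ pos y) : V.vp pos u < V.vp pos v ↔ pos u < pos v := by
  rcases a.same r h u1 u2 v1 v2 with ⟨b1, b2⟩ | b
  · simp [Rts.vp_lt, b1, b2]
  · exact Rts.vp_out b.1 b.2

theorem Rts.Ok.itv (xy : pos x ≤ pos y) (u1 : V.vp pos x ≤ V.vp pos u)
    (u2 : V.vp pos u ≤ V.vp pos y) : pos x ≤ pos u ∧ pos u ≤ pos y := by
  rw [← not_lt, Rts.vp_lt] at u1 u2
  rcases a.same r h le_rfl xy xy le_rfl with ⟨b1, b2⟩ | b
  · rw [b1, b2] at u1
    grind
  · rw [Rts.an_out b.1] at u1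
    rw [Rts.an_out b.2] at u2
    rcases V.out_or pos u with d | ⟨i, j, d⟩
    · rw [Rts.an_out d] at u1 u2
      grind
    · rw [a.an_in r d] at u1 u2
      have := h i _ le_rfl
      unfold Rts.lab at *
      grind

end

/-- the keys of a virtual order -/
def Kv (γ : Type) : Type := γ ×ₗ WithTop ℕ ×ₗ γ

noncomputable instance {γ : Type} [LinearOrder γ] : LinearOrder (Kv γ) :=
  inferInstanceAs (LinearOrder (γ ×ₗ WithTop ℕ ×ₗ γ))

variable {K N β γ ι : Type} {r r0 q D e b : ℕ}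

/-- the hub and the line `i` of the moat of `n` -/
abbrev ml (n : N) (i : ℕ) : Hub K N (Pt K N) r0 := inl (Wd.mo n i)

theorem ml_inj {n n' : N} {i i' : ℕ} : (ml n i : Hub K N (Pt K N) r0) = ml n' i' ↔
    n = n' ∧ i % (r0 + 1) = i' % (r0 + 1) := by simp [ml, Wd.mo, Fin.ext_iff]

theorem ml_add (n : N) (i : ℕ) : (ml n (i + (r0 + 1)) : Hub K N (Pt K N) r0) = ml n i :=
  ml_inj.2 ⟨rfl, Nat.add_mod_right _ _⟩

theorem ml_mod (n : N) (i : ℕ) : (ml n (i % (r0 + 1)) : Hub K N (Pt K N) r0) = ml n i :=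
  ml_inj.2 ⟨rfl, Nat.mod_mod _ _⟩

/-- the arc with the lines `c + 2 * s, .., c` of the moat of `n` -/
def arc (n : N) (c s : ℕ) : Rts (Option (Hub K N (Pt K N) r0)) (Hub K N (Pt K N) r0) Unit :=
  ⟨fun _ => some (ml n (c + 2 * s)), fun _ => s, fun _ k => ml n (c + (2 * s - k))⟩

/-- the order of the lines with an arc -/
noncomputable def va [LinearOrder γ] (o : Hub K N (Pt K N) r0 → γ) (n : N) (c s : ℕ) :
    Hub K N (Pt K N) r0 → Kv γ := (arc n c s).vp o

/-- the order of the positions with an arc -/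
noncomputable def vb [LinearOrder γ] (o : Hub K N (Pt K N) r0 → γ) (n : N) (c s : ℕ)
    (p : Ps K N r r0) := pos2 (va o n c s) p

theorem arc_lab {n : N} {c s : ℕ} : (arc n c s).lab () = (ml n c : Hub K N (Pt K N) r0) := by
  simp [arc, Rts.lab]

variable [DecidableEq K] [LinearOrder β] [LinearOrder γ] [Finite K] [Finite N] [Nonempty K]

namespace Wd

variable (W : Wd K N β r r0 q D e b)

/-- the port splits no pair of the arc -/
structure Arc (j : K) (n : N) (c s : ℕ) : Prop where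
  le : 2 * s ≤ r0
  port : ∀ i < s, (c + (2 * i + 1)) % (r0 + 1) ≠ W.port j n

/-- the line is carried by the arc -/
def Car (j : K) (n : N) (c s : ℕ) (L : Hub K N (Pt K N) r0) : Prop := ∃ i < s,
  W.pos j (ml n (c + (2 * i + 2))) ≤ W.pos j L ∧ W.pos j L < W.pos j (ml n (c + (2 * i + 1)))

/-- the position is not touched by the pairs of the arc -/
def Fre (j : K) (n : N) (c s : ℕ) (p : Ps K N r r0) : Prop :=
  ¬W.Car j n c s p.1 ∧ ∀ i < s, p ≠ pz (ml n (c + (2 * i + 1))) 0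

/-- disjoint routes and a rotation `o` of the virtual order that splits no loop -/
structure Ro (j : K) (l : ι → ℕ) (t : ι → N) (o : Hub K N (Pt K N) r0 → γ) : Prop
    extends W.Rs j l t where
  frm : ∀ O, (∀ g, W.cut (l g) (t g) ∈ O) → Fr (2 * r + 9) (fk W.S.hang O) none
    ((W.rts l t).vh some) ((W.rts l t).vn (W.S.O.nxt j)) o Set.univ []
  rot : ∃ H : Hub K N (Pt K N) r0 → Prop, (∀ u v, W.lp j u = W.lp j v → (H u ↔ H v)) ∧
    ∀ u v, o u < o v ↔ (H u ∧ ¬H v) ∨ ((H u ↔ H v) ∧ W.vp j l t u < W.vp j l t v)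

variable {W} {j : K} {l : ι → ℕ} {t : ι → N} {u w x : Vx K N (Pt K N) r r0} {b1 b2 b3 : List Bool}
  {p1 p2 p3 : List (Ps K N r r0)} {L L' : Hub K N (Pt K N) r0} {i i' c s : ℕ} {n n' a : N}
  {o : Hub K N (Pt K N) r0 → γ}

theorem pos_ml : W.pos j (ml n i) < W.pos j (ml n i') ↔
    el (r0 + 1) (W.port j n) (i % (r0 + 1)) < el (r0 + 1) (W.port j n) (i' % (r0 + 1)) := W.pos_mm

theorem pos_inj (h : W.pos j L = W.pos j L') : L = L' := (W.lref j).cyc.inj trivial trivial h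

theorem lp_ml : W.lp j (ml n i) = inl (inl n, 0) := lp_cold (cold_pay j _)

theorem lp_prv (p : N ⊕ N × Fin (r0 + 1)) : W.lp j (W.prv p) = W.lo (inl p) := by
  rw [lp, show W.prv p = _ from W.S.O.dA_symm_efst (inl p), Mac.el_elst]
  exact W.B.rings.lo_sc_symm _

/-- a line between two hubs of a moat lies in the loop of the moat -/
theorem lp_btw (h : W.pos j (ml n i) ≤ W.pos j L) (h' : W.pos j L ≤ W.pos j (ml n i')) :
    W.lp j L = inl (inl n, 0) := by
  obtain ⟨_, a, rfl⟩ := btw (P := fun x => x = n) (bl_iff.2 ⟨_, lp_ml⟩) (bl_iff.2 ⟨_, lp_ml⟩) rfl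
    h h' fun d _ a a' => ⟨n, W.bki j (le_antisymm a' a), rfl⟩
  obtain ⟨y, a⟩ := bl_iff.1 a
  rcases lt_trichotomy (W.lay j (inl _) y) (W.lay j (inl _) 0) with d | d | d
  exacts [absurd (lt_of_lay a lp_ml d) h.not_gt, (W.lay j _).injective d ▸ a,
    absurd (lt_of_lay lp_ml a d) h'.not_gt]

theorem Car.lp (h : W.Car j n c s L) : W.lp j L = inl (inl n, 0) :=
  let ⟨_, _, a, a'⟩ := h
  lp_btw a a'.le

theorem Car.bk (h : W.Car j n c s L) : W.Bk j L n := bl_iff.2 ⟨_, h.lp⟩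

theorem fre_lp (h : W.lp j L ≠ inl (inl n, 0)) : W.Fre j n c s (pz L i) :=
  ⟨fun a => h a.lp, fun _ _ => pz_ne fun a => h (a ▸ lp_ml)⟩

theorem fre_nbk (h : ¬W.Bk j L n) : W.Fre j n c s (pz L i) :=
  fre_lp fun a => h (bl_iff.2 ⟨_, a⟩)

theorem fre_bk (h : W.Bk j L n') (ne : n' ≠ n) : W.Fre j n c s (pz L i) :=
  fre_nbk fun a => ne (h.unique a)

theorem fre_nl : W.Fre j n c s (pz (nl n') i) := fre_lp (by simp [lp_cold (cold_pay j _)])

theorem fre_cut {l : ℕ} {t : N} : W.Fre j n c s (pz (W.cut l t) i) := fre_nl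

theorem fre_exit : W.Fre j n c s (pz (W.prv (inl n')) i) := fre_lp (by simp [lp_prv])

theorem fre_zero {p : Ps K N r r0} : W.Fre j n c 0 p :=
  ⟨fun ⟨_, h, _⟩ => by omega, fun _ h => by omega⟩

theorem fre_pos (h : ¬W.Car j n c s L) (a : 0 < i) (a' : i ≤ 2 * r + 10) :
    W.Fre j n c s (pz L i) := ⟨h, fun _ _ => pz_ne' a.ne' a' (Nat.zero_le _)⟩

theorem out_nl (a : N) :
    W.pos j (nl a) < W.pos j (ml n i) ∨ W.pos j (ml n i') < W.pos j (nl a) := by
  by_contra d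
  rw [not_or, not_lt, not_lt] at d
  simpa [lp_cold (cold_pay j _)] using lp_btw d.1 d.2

namespace Rs

variable (k : W.Rs j l t)
include k

theorem vh_ml : (W.rts l t).vh some (ml n i) = some (ml n i) := Rts.vh_off (k.off_moat _)

/-- two lines between two hubs of a moat keep their order -/
theorem vp_moat {y y' : ℕ} (u1 : W.pos j (ml n y) ≤ W.pos j L) (u2 : W.pos j L ≤ W.pos j (ml n y'))
    (v1 : W.pos j (ml n y) ≤ W.pos j L') (v2 : W.pos j L' ≤ W.pos j (ml n y')) :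
    W.vp j l t L < W.vp j l t L' ↔ W.pos j L < W.pos j L' :=
  k.ok.same_lt (W.lref j) (fun _ _ _ => out_nl _) u1 u2 v1 v2

theorem vp_ml : W.vp j l t (ml n i) < W.vp j l t (ml n i') ↔
    W.pos j (ml n i) < W.pos j (ml n i') := (le_total (W.pos j (ml n i)) (W.pos j (ml n i'))).elim
  (fun a => k.vp_moat le_rfl a a le_rfl) fun a => k.vp_moat a le_rfl le_rfl a

theorem vp_itv (h : W.pos j (ml n i) < W.pos j (ml n i')) :
    W.vp j l t (ml n i) ≤ W.vp j l t L ∧ W.vp j l t L < W.vp j l t (ml n i') ↔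
      W.pos j (ml n i) ≤ W.pos j L ∧ W.pos j L < W.pos j (ml n i') := by
  refine ⟨fun a => ?_, fun a => ⟨not_lt.1 (mt (k.vp_moat a.1 a.2.le le_rfl h.le).1 a.1.not_gt),
    (k.vp_moat a.1 a.2.le h.le le_rfl).2 a.2⟩⟩
  have d := k.ok.itv (W.lref j) (fun _ _ _ => out_nl _) h.le a.1 a.2.le
  exact ⟨d.1, (k.vp_moat d.1 d.2 h.le le_rfl).1 a.2⟩

theorem ro : W.Ro j l t (W.vp j l t) := ⟨k, fun _ => k.fr, fun _ => False, by simp, by simp⟩

end Rs

namespace Ro

variable (k : W.Ro j l t o)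
include k

theorem inj (h : o L = o L') : L = L' :=
  have := Fintype.ofFinite (Hub K N (Pt K N) r0)
  (k.frm Finset.univ.toList fun _ => by simp).cyc.inj trivial trivial h

/-- two lines of one loop -/
theorem lt_lp (h : W.lp j L = W.lp j L') : o L < o L' ↔ W.vp j l t L < W.vp j l t L' := by
  obtain ⟨H, a, d⟩ := k.rot
  simp [d, a _ _ h]

theorem o_ml : o (ml n i) < o (ml n i') ↔ W.pos j (ml n i) < W.pos j (ml n i') :=
  (k.lt_lp (lp_ml.trans lp_ml.symm)).trans k.toRs.vp_ml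

theorem o_itv (h : W.pos j (ml n i) < W.pos j (ml n i')) :
    o (ml n i) ≤ o L ∧ o L < o (ml n i') ↔
      W.pos j (ml n i) ≤ W.pos j L ∧ W.pos j L < W.pos j (ml n i') := by
  obtain ⟨H, a, d⟩ := k.rot
  have a1 := a (ml n i) (ml n i') (lp_ml.trans lp_ml.symm)
  refine ⟨fun f => (k.toRs.vp_itv h).1 ?_, fun f => ?_⟩
  · rw [← not_lt, d, d] at f
    rw [← not_lt]
    tauto
  · have := lp_btw f.1 f.2.le
    rwa [← not_lt, k.lt_lp (this.trans lp_ml.symm), k.lt_lp (this.trans lp_ml.symm), not_lt,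
      k.toRs.vp_itv h]

end Ro

namespace Arc

variable (A : W.Arc j n c s)
include A

theorem succ (h : i < s) : el (r0 + 1) (W.port j n) ((c + (2 * i + 2)) % (r0 + 1)) + 1 =
    el (r0 + 1) (W.port j n) ((c + (2 * i + 1)) % (r0 + 1)) := by
  have a := A.port i h
  have := (W.port j n).2
  have := Nat.mod_lt (c + (2 * i + 1)) r0.succ_pos
  rw [show c + (2 * i + 2) = c + (2 * i + 1) + 1 from rfl, ← Nat.mod_add_mod]
  generalize (c + (2 * i + 1)) % (r0 + 1) = y at *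
  rcases (show y = r0 ∨ y < r0 by omega) with rfl | d
  · simp only [Nat.mod_self, el]
    split_ifs <;> omega
  · rw [Nat.mod_eq_of_lt (by omega)]
    unfold el
    split_ifs <;> omega

theorem lt (h : i < s) : W.pos j (ml n (c + (2 * i + 2))) < W.pos j (ml n (c + (2 * i + 1))) :=
  pos_ml.2 (by have := A.succ h; omega)

theorem out (h : i < s) (y : ℕ) : W.pos j (ml n y) ≤ W.pos j (ml n (c + (2 * i + 2))) ∨
    W.pos j (ml n (c + (2 * i + 1))) ≤ W.pos j (ml n y) := by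
  have := A.succ h
  simp only [← not_lt, pos_ml]
  omega

theorem inj (h : i ≤ 2 * s) (h' : i' ≤ 2 * s)
    (a : (ml n (c + i) : Hub K N (Pt K N) r0) = ml n (c + i')) : i = i' := by
  have := A.le
  exact (Nat.ModEq.add_left_cancel' c (ml_inj.1 a).2).eq_of_lt_of_lt (by omega) (by omega)

/-- a hub of the moat is carried only as the start of a pair -/
theorem car_ml (h : ∀ y < s, (c + (2 * y + 2)) % (r0 + 1) ≠ i % (r0 + 1)) :
    ¬W.Car j n c s (ml n i) := fun ⟨y, a1, a2, a3⟩ =>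
  h y a1 (ml_inj.1 (pos_inj (a2.antisymm ((A.out a1 i).resolve_right a3.not_ge)))).2

theorem fre_ml (h : ∀ y, 1 ≤ y → y ≤ 2 * s → (c + y) % (r0 + 1) ≠ i % (r0 + 1)) :
    W.Fre j n c s (pz (ml n i) i') := ⟨A.car_ml fun _ _ => h _ (by omega) (by omega),
  fun _ _ => pz_ne fun a => h _ (by omega) (by omega) (ml_inj.1 a).2.symm⟩

theorem car_lab : ¬W.Car j n c s (ml n c) := A.car_ml fun y _ d => by
  have := A.inj (i := 2 * y + 2) (i' := 0) (by omega) (Nat.zero_le _) (ml_inj.2 ⟨rfl, d⟩)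
  omega

/-- the line before a hub of the moat -/
theorem car_prv (h : ∀ y < s, (c + (2 * y + 1)) % (r0 + 1) ≠ i % (r0 + 1)) :
    ¬W.Car j n c s (W.prv (mo n i)) := fun ⟨y, a1, a2, a3⟩ => h y a1 (ml_inj.1 (pos_inj
  (((A.out a1 i).resolve_left (le_prv.1 a2).not_ge).antisymm (not_lt.1 (mt le_prv.2 a3.not_ge))))).2

theorem fre_prv (h : ∀ y < s, (c + (2 * y + 1)) % (r0 + 1) ≠ i % (r0 + 1)) :
    W.Fre j n c s (pz (W.prv (mo n i)) (2 * r + 10)) := fre_pos (A.car_prv h) (by omega) le_rfl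

variable (k : W.Ro j l t o)
include k

theorem ok {O : List (Hub K N (Pt K N) r0)} (hO : ∀ g, W.cut (l g) (t g) ∈ O) : ∃ R en,
    LRef (2 * r + 9) (fk W.S.hang O) none ((W.rts l t).vh some) ((W.rts l t).vn (W.S.O.nxt j))
      o R en ∧
    (arc n c s).Ok (fk W.S.hang O) ((W.rts l t).vh some) o R en := by
  refine Rts.own (k.frm _ hO).lref (fun _ y _ y' a a' d => ⟨rfl, ?_⟩)
    (fun _ => Or.inl ((W.lref j).ends.ht _)) (fun _ y a => Or.inl ?_) (fun _ y a => ?_)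
    fun _ y a _ y' a' => ?_ <;> simp only [arc] at *
  · have := A.inj (Nat.sub_le _ _) (Nat.sub_le _ _) d
    omega
  · rw [k.toRs.vh_ml, show c + (2 * s - y) = c + (2 * s - (y + 1)) + 1 by omega]
    exact hang_moat n _
  · rw [k.o_ml, show 2 * s - 2 * y = 2 * (s - y - 1) + 2 by omega,
      show 2 * s - (2 * y + 1) = 2 * (s - y - 1) + 1 by omega]
    exact A.lt (by omega)
  · rw [← not_lt, ← not_lt, k.o_ml, k.o_ml, not_lt, not_lt,
      show 2 * s - 2 * y = 2 * (s - y - 1) + 2 by omega,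
      show 2 * s - (2 * y + 1) = 2 * (s - y - 1) + 1 by omega]
    exact A.out (by omega) _

theorem ok' : ∃ O R en,
    LRef (2 * r + 9) (fk W.S.hang O) none ((W.rts l t).vh some) ((W.rts l t).vn (W.S.O.nxt j))
      o R en ∧
    (arc n c s).Ok (fk W.S.hang O) ((W.rts l t).vh some) o R en :=
  have := Fintype.ofFinite (Hub K N (Pt K N) r0)
  ⟨Finset.univ.toList, A.ok k fun _ => by simp⟩

theorem in_iff : (arc n c s).In o L () i ↔ i < s ∧
    W.pos j (ml n (c + (2 * (s - i - 1) + 2))) ≤ W.pos j L ∧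
      W.pos j L < W.pos j (ml n (c + (2 * (s - i - 1) + 1))) := by
  refine and_congr_right fun (h : i < s) => ?_
  rw [← k.o_itv (A.lt (by omega)), ← show 2 * s - 2 * i = 2 * (s - i - 1) + 2 by omega,
    ← show 2 * s - (2 * i + 1) = 2 * (s - i - 1) + 1 by omega]
  rfl

theorem out_iff : (arc n c s).Out o L ↔ ¬W.Car j n c s L :=
  ⟨fun h ⟨y, a1, a2⟩ => h () (s - y - 1) ((A.in_iff k).2 ⟨by omega, by
    rwa [show s - (s - y - 1) - 1 = y by omega]⟩), fun h _ y a =>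
    h ⟨s - y - 1, by have := ((A.in_iff k).1 a).1; omega, ((A.in_iff k).1 a).2⟩⟩

theorem an_car (h : W.Car j n c s L) : (arc n c s).an o L = ml n c := by
  obtain ⟨_, _, _, r1, a⟩ := A.ok' k
  obtain ⟨_, y, d⟩ := ((arc n c s).out_or _ L).resolve_left fun d => (A.out_iff k).1 d h
  exact (a.an_in r1 d).trans arc_lab

/-- lines that are not carried keep their order -/
theorem va_out (h : ¬W.Car j n c s L) (h' : ¬W.Car j n c s L') :
    va o n c s L < va o n c s L' ↔ o L < o L' :=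
  Rts.vp_out ((A.out_iff k).2 h) ((A.out_iff k).2 h')

theorem lt_fst (h : ¬W.Car j n c s L) : va o n c s L < va o n c s (ml n (c + 2 * s)) ↔
    o L < o (ml n c) := by
  obtain ⟨_, _, _, r1, a⟩ := A.ok' k
  have := a.lt_fst r1 L ()
  rwa [Rts.an_out ((A.out_iff k).2 h), arc_lab] at this

theorem fst_lt (h : ¬W.Car j n c s L) : va o n c s (ml n (c + 2 * s)) < va o n c s L ↔
    o (ml n c) ≤ o L ∧ L ≠ ml n (c + 2 * s) := by
  obtain ⟨_, _, _, r1, a⟩ := A.ok' k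
  have := a.fst_lt r1 L ()
  rwa [Rts.an_out ((A.out_iff k).2 h), arc_lab] at this

/-- carried lines come after the first line of the arc -/
theorem fst_lt_car (h : W.Car j n c s L) (ne : L ≠ ml n (c + 2 * s)) :
    va o n c s (ml n (c + 2 * s)) < va o n c s L := by
  obtain ⟨_, _, _, r1, a⟩ := A.ok' k
  exact (a.fst_lt r1 L ()).2 ⟨by rw [A.an_car k h, arc_lab], ne⟩

theorem lt_car (h : ¬W.Car j n c s L) (h' : W.Car j n c s L')
    (a : o L < o (ml n c)) : va o n c s L < va o n c s L' :=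
  Rts.vp_of_an (by rwa [Rts.an_out ((A.out_iff k).2 h), A.an_car k h'])

theorem car_lt (h : W.Car j n c s L) (h' : ¬W.Car j n c s L')
    (a : o (ml n c) ≤ o L') : va o n c s L < va o n c s L' := by
  obtain ⟨_, _, _, r1, a1⟩ := A.ok' k
  obtain ⟨_, y, d⟩ := ((arc n c s).out_or _ L).resolve_left fun d => (A.out_iff k).1 d h
  have o := (A.out_iff k).2 h'
  refine Rts.vp_lt.2 ?_
  rw [A.an_car k h, Rts.an_out o, Rts.rk_out o, a1.rk_in r1 d]
  exact a.lt_or_eq.imp_right fun a => ⟨a, Or.inl (WithTop.coe_lt_top _)⟩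

omit A k in
theorem _root_.Pool.Agent.P.MP_439f1f_co.vb_lt
    (h : va o n c s L < va o n c s L') :
    vb (r := r) o n c s (pz L i) < vb o n c s (pz L' i') := pos2_lt.2 (Or.inl h)

omit A k in
theorem _root_.Pool.Agent.P.MP_439f1f_co.vb_line (h : i < i') (h' : i' ≤ 2 * r + 10) :
    vb (r := r) o n c s (pz L i) < vb o n c s (pz L i') :=
  pos2_lt.2 (Or.inr ⟨rfl, by rwa [Fin.lt_def, pz_val h', pz_val (h.le.trans h')]⟩)

theorem vb_out {p p' : Ps K N r r0} (h : ¬W.Car j n c s p.1) (h' : ¬W.Car j n c s p'.1)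
    (a : pos2 o p < pos2 o p') : vb o n c s p < vb o n c s p' :=
  pos2_lt.2 ((pos2_lt.1 a).imp (A.va_out k h h').2 fun a =>
    ⟨congrArg _ (k.inj a.1), a.2⟩)

theorem vb_lt_fst {p : Ps K N r r0} (h : ¬W.Car j n c s p.1)
    (a : pos2 o p < pos2 o (pz (ml n c) 0)) :
    vb o n c s p < vb o n c s (pz (ml n (c + 2 * s)) 0) :=
  pos2_lt.2 (Or.inl ((A.lt_fst k h).2 ((pos2_lt.1 a).resolve_right fun a => Fin.not_lt_zero _ a.2)))

theorem vb_fst_lt {p : Ps K N r r0} (h : ¬W.Car j n c s p.1)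
    (a : pos2 o (pz (ml n c) 0) < pos2 o p) :
    vb o n c s (pz (ml n (c + 2 * s)) 0) < vb o n c s p := by
  rw [pos2_lt] at a
  by_cases d : p.1 = ml n (c + 2 * s)
  · rcases s with _ | s
    · exact pos2_lt.2 (Or.inr ⟨congrArg _ d.symm, (a.resolve_left (by simp [pz, d])).2⟩)
    · exact (h ⟨s, by omega, d ▸ le_rfl, d ▸ A.lt (by omega)⟩).elim
  · exact pos2_lt.2 (Or.inl ((A.fst_lt k h).2 ⟨a.elim le_of_lt fun a => a.1.le, d⟩))

end Arc

namespace Ro

variable (k : W.Ro j l t o) (A : W.Arc j n c s) {d : Bool}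
include k A

/-- **Service with an arc**, in the order of the frame with the arc. -/
theorem serveA (c1 : W.Ch j l t (inl none) b1 p1 u) (c2 : W.Ch j l t (inl none) b2 p2 x)
    (st : (HL (2 * r + 9) W.S.hang).Adj x (cond d (vz (ml n (c + 2 * s)) 0) (hv (ml n c))))
    (c3 : W.Ch j l t (cond d (hv (ml n c)) (vz (ml n (c + 2 * s)) 0)) b3 p3 w) (a : u ≠ w)
    (hO : ∀ g, pz (W.cut (l g) (t g)) 0 ∈ p1 ++ (p2 ++ p3))
    (off : (p1 ++ (p2 ++ p3)).Forall fun p => ∀ i ≤ 2 * s, p ≠ pz (ml n (c + i)) 0)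
    (F : List Fm) (ne : List (ℕ × ℕ)) (ok : chkC b1 (b2 ++ d :: b3) F ne = true)
    (hF : F.Forall (Fm.Holds fun y => vb o n c s (nth (pz (ml n (c + 2 * s)) 0)
      (p1 ++ (p2 ++ pz (ml n (c + 2 * s)) 0 :: p3)) y)))
    (hn : ne.Forall fun y => nth (pz (ml n (c + 2 * s)) 0)
      (p1 ++ (p2 ++ pz (ml n (c + 2 * s)) 0 :: p3)) y.1 ≠ nth (pz (ml n (c + 2 * s)) 0)
      (p1 ++ (p2 ++ pz (ml n (c + 2 * s)) 0 :: p3)) y.2) : W.Sv u w := fun {_ _} => by
  obtain ⟨R, en, r1, a1⟩ := A.ok k (O := ((p1 ++ (p2 ++ p3)).filter (·.2 = 0)).map Prod.fst)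
    fun g => List.mem_map.2 ⟨_, List.mem_filter.2 ⟨hO g, decide_eq_true rfl⟩, rfl⟩
  have v : (fun L => (arc n c s).vh ((W.rts l t).vh some)
      ((arc n c s).vn ((W.rts l t).vn (W.S.O.nxt j)) L)) = fun L => some (W.S.O.nxt j L) :=
    funext fun L => (a1.vh_vn L).trans (k.toRs.ok.vh_vn L)
  have e : ∀ p ∈ p1 ++ (p2 ++ p3), inP ((arc n c s).vh ((W.rts l t).vh some)) p =
      inP ((W.rts l t).vh some) p := by
    rintro ⟨L, y⟩ hp
    induction y using Fin.cases with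
    | zero => exact congrArg inl (Rts.vh_off fun _ y a d =>
        List.forall_iff_forall_mem.1 off _ hp _ (Nat.sub_le _ y) (Prod.ext d.symm rfl))
    | succ y => rfl
  have f : inP ((arc n c s).vh ((W.rts l t).vh some)) (pz (r := r) (ml n (c + 2 * s)) 0) =
      hv (ml n c) :=
    congrArg inl ((a1.vh_fst ()).trans (arc_lab (K := K) (n := n) ▸ k.toRs.vh_ml))
  have o : outP (fun L => some (W.S.O.nxt j L)) (pz (r := r) (ml n (c + 2 * s)) 0) =
      vz (ml n (c + 2 * s)) 0 := out_pz (Nat.zero_le _)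
  simp only [List.mem_append] at e
  refine ((a1.fr r1 (O := [ml n (c + 2 * s)]) fun _ => List.mem_singleton.2 rfl).mono
    (hang' := fk W.S.hang (ml n (c + 2 * s) ::
      ((p1 ++ (p2 ++ p3)).filter (·.2 = 0)).map Prod.fst)) fun L i x h => ?_).chains (by omega)
    (v ▸ Chn.congr c1 fun p h => e p (Or.inl h))
    (v ▸ (Chn.congr c2 fun p h => e p (Or.inr (Or.inl h))).app
      ⟨by rwa [f, o], by rw [f, o]; exact Chn.congr c3 fun p h => e p (Or.inr (Or.inr h))⟩)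
    a (fun L h => ?_) _ ok hF hn
  · simp only [fk, List.mem_cons] at h ⊢
    tauto
  rcases List.mem_cons.1 h with rfl | h
  · simp [pz]
  obtain ⟨⟨_, y⟩, f, rfl⟩ := List.mem_map.1 h
  obtain ⟨f, c⟩ := List.mem_filter.1 f
  obtain rfl : y = 0 := by simpa using c
  simp only [List.mem_append, List.mem_cons] at f ⊢
  tauto

/-- **Service with an arc.**  The step through the arc stands at the tail of its last line. -/
theorem serveM (c1 : W.Ch j l t (inl none) b1 p1 u) (c2 : W.Ch j l t (inl none) b2 p2 x)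
    (st : (HL (2 * r + 9) W.S.hang).Adj x (cond d (vz (ml n (c + 2 * s)) 0) (hv (ml n c))))
    (c3 : W.Ch j l t (cond d (hv (ml n c)) (vz (ml n (c + 2 * s)) 0)) b3 p3 w) (a : u ≠ w)
    (hO : ∀ g, pz (W.cut (l g) (t g)) 0 ∈ p1 ++ (p2 ++ p3))
    (fre : (p1 ++ (p2 ++ p3)).Forall (W.Fre j n c s))
    (F : List Fm) (ne : List (ℕ × ℕ)) (ok : chkC b1 (b2 ++ d :: b3) F ne = true)
    (hF : F.Forall (Fm.Holds fun y => pos2 o (nth (pz (ml n c) 0)
      (p1 ++ (p2 ++ pz (ml n c) 0 :: p3)) y)))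
    (hn : ne.Forall fun y => nth (pz (ml n c) 0) (p1 ++ (p2 ++ pz (ml n c) 0 :: p3)) y.1 ≠
      nth (pz (ml n c) 0) (p1 ++ (p2 ++ pz (ml n c) 0 :: p3)) y.2) : W.Sv u w := by
  rw [List.forall_iff_forall_mem] at fre hF hn
  have nd : (p1 ++ (p2 ++ pz (ml n c) 0 :: p3)).Nodup := by
    have k1 := ok
    simp only [chkC, chkD, frc_eq, Bool.and_eq_true] at k1
    have l1 := Chn.len c1
    have l2 := Chn.len c2
    have l3 := Chn.len c3
    refine List.nodup_iff_injective_getElem.2 fun ⟨y, a⟩ ⟨y', a'⟩ e => Fin.ext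
      (sepd_ok k1.2.1 hn hF y ?_ y' ?_ (by rwa [nth_get _ _ _ a, nth_get _ _ _ a'])) <;>
      simp at a a' ⊢ <;> omega
  rw [← List.append_assoc, List.nodup_middle, List.nodup_cons, List.append_assoc] at nd
  have off : ∀ p, W.Fre j n c s p → p ≠ pz (ml n c) 0 → ∀ i ≤ 2 * s, p ≠ pz (ml n (c + i)) 0 := by
    rintro _ f a i hi rfl
    obtain ⟨y, rfl | rfl⟩ := Nat.even_or_odd' i
    · rcases y with _ | y
      exacts [a rfl, f.1 ⟨y, by omega, le_rfl, A.lt (by omega)⟩]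
    · exact f.2 y (by omega) rfl
  let R : Ps K N r r0 → Ps K N r r0 → Prop := fun p p' =>
    (p = pz (ml n c) 0 ∧ p' = pz (ml n (c + 2 * s)) 0) ∨
      (p = p' ∧ W.Fre j n c s p ∧ p ≠ pz (ml n c) 0)
  have sm : ∀ ps : List (Ps K N r r0), ps ⊆ p1 ++ (p2 ++ p3) → List.Forall₂ R ps ps := fun ps h =>
    List.forall₂_same.2 fun p hp => Or.inr ⟨rfl, fre p (h hp), fun e => nd.1 (e ▸ h hp)⟩
  have rel := nth_rel (R := R) (Or.inl ⟨rfl, rfl⟩) (List.rel_append (sm p1 (by simp))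
    (List.rel_append (sm p2 fun _ h => by simp [h])
      (.cons (Or.inl ⟨rfl, rfl⟩) (sm p3 fun _ h => by simp [h]))))
  have f1 : ∀ p p' y y', R p p' → R y y' → pos2 o p < pos2 o y → vb o n c s p' < vb o n c s y' := by
    rintro _ _ _ _ (⟨rfl, rfl⟩ | ⟨rfl, a2, -⟩) (⟨rfl, rfl⟩ | ⟨rfl, a4, -⟩) h
    exacts [absurd h (lt_irrefl _), A.vb_fst_lt k a4.1 h, A.vb_lt_fst k a2.1 h,
      A.vb_out k a2.1 a4.1 h]
  have f2 : ∀ p p' y y', R p p' → R y y' → p ≠ y → p' ≠ y' := by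
    rintro _ _ _ _ (⟨rfl, rfl⟩ | ⟨rfl, a2, a3⟩) (⟨rfl, rfl⟩ | ⟨rfl, a4, a5⟩) h
    exacts [absurd rfl h, (off _ a4 a5 _ le_rfl).symm, off _ a2 a3 _ le_rfl, h]
  exact fun {_ _} => k.serveA A c1 c2 st c3 a hO (List.forall_iff_forall_mem.2 fun p hp =>
    off p (fre p hp) fun e => nd.1 (e ▸ hp)) F ne ok
    (List.forall_iff_forall_mem.2 fun f hf => (hF f hf).imp fun y y' =>
      f1 _ _ _ _ (rel y) (rel y'))
    (List.forall_iff_forall_mem.2 fun y hy => f2 _ _ _ _ (rel y.1) (rel y.2) (hn y hy))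

omit k A in
theorem _root_.Pool.Agent.P.MP_439f1f_co.Wd.arc_leak (h : 2 * s + 1 ≤ r0) (p : W.port j n = 0) :
    W.Arc j n 0 s := ⟨by omega, fun i a => by
  rw [p, Nat.mod_eq_of_lt (by omega), Fin.val_zero]; omega⟩

omit k A in
/-- the base of the arc -/
theorem _root_.Pool.Agent.P.MP_439f1f_co.Wd.adj_arc (n : N) (i : ℕ) :
    (HL (2 * r + 9) W.S.hang).Adj (hv (ml n (i + 1))) (vz (ml n i) 0) :=
  adj_vz (hang_moat n i) (Nat.zero_le _)

omit A in
/-- **The leak** through the entry `2 * s + 1`. -/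
theorem serve_leak (h : 2 * s + 1 ≤ r0) (p : W.port j n = 0) (c1 : W.Ch j l t (inl none) b1 p1 u)
    (c2 : W.Ch j l t (inl none) b2 p2 (hv (nl (W.ell n (2 * s + 1)))))
    (c3 : W.Ch j l t (hv (nl n)) b3 p3 w) (a : u ≠ w)
    (hO : ∀ g, pz (W.cut (l g) (t g)) 0 ∈ p1 ++ (p2 ++ p3))
    (fre : (p1 ++ (p2 ++ p3)).Forall (W.Fre j n 0 s))
    (F : List Fm) (ne : List (ℕ × ℕ))
    (ok : chkC b1 (b2 ++ false :: true :: false :: b3) F ne = true)
    (hF : F.Forall (Fm.Holds fun y => pos2 o (nth (pz (ml n 0) 0)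
      (p1 ++ (p2 ++ pz (W.prv (mo n (2 * s + 1))) (2 * r + 10) :: pz (ml n 0) 0 ::
        pz (W.prv (inl n)) (2 * r + 10) :: p3)) y)))
    (hn : ne.Forall fun y => nth (pz (ml n 0) 0)
      (p1 ++ (p2 ++ pz (W.prv (mo n (2 * s + 1))) (2 * r + 10) :: pz (ml n 0) 0 ::
        pz (W.prv (inl n)) (2 * r + 10) :: p3)) y.1 ≠ nth (pz (ml n 0) 0)
      (p1 ++ (p2 ++ pz (W.prv (mo n (2 * s + 1))) (2 * r + 10) :: pz (ml n 0) 0 ::
        pz (W.prv (inl n)) (2 * r + 10) :: p3)) y.2) : W.Sv u w := by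
  have A := arc_leak h p
  intro _ _
  refine k.serveM A (d := true) c1 (c2.app (ch_entry n _)) (by
    rw [zero_add]; exact adj_arc n _) ((ch_exit n).app c3) a (fun g => ?_) ?_ F ne
    (by rwa [List.append_assoc]) (by rwa [List.append_assoc]) (by rwa [List.append_assoc])
  · have := hO g
    simp only [List.mem_append] at this ⊢
    tauto
  · simp only [List.forall_append, List.Forall] at fre ⊢
    exact ⟨fre.1, ⟨fre.2.1, A.fre_prv fun y _ => by
      rw [Nat.mod_eq_of_lt (by omega), Nat.mod_eq_of_lt (by omega)]; omega⟩, fre_exit, fre.2.2⟩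

end Ro

namespace Rs

variable (k : W.Rs j l t)
include k

/-- in a moat, seen from the port -/
theorem vq_ml_prv (h : el (r0 + 1) (W.port j n) (i % (r0 + 1)) <
    el (r0 + 1) (W.port j n) (i' % (r0 + 1))) :
    W.vq j l t (pz (ml n i) 0) < W.vq j l t (pz (W.prv (mo n i')) (2 * r + 10)) :=
  have a := pos_ml.2 h
  vq_le (not_lt.1 (mt (k.vp_moat (le_prv.2 a) (prv_lt j _).le le_rfl a.le).1
    (le_prv.2 a).not_gt)) (by omega) le_rfl

/-- the order of the cuts of a leak, moat first -/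
theorem leak_front' (h : 2 * s + 1 ≤ r0) (c : ∀ g, W.On (l g) (t g) n → n = t g)
    (p : W.port j n = 0) (o : W.lay j (inl n) 0 < W.lay j (inl n) 1) :
    W.vq j l t (pz (ml n 0) 0) < W.vq j l t (pz (W.prv (mo n (2 * s + 1))) (2 * r + 10)) ∧
      W.vq j l t (pz (W.prv (mo n (2 * s + 1))) (2 * r + 10)) <
        W.vq j l t (pz (W.prv (inl n)) (2 * r + 10)) :=
  ⟨k.vq_ml_prv (by rw [p, Nat.mod_eq_of_lt (show 2 * s + 1 < _ by omega)]; simp [el]; omega),
    vq_out (k.out_bk (bk_prv' j _) c) (k.out_bk (bk_prv' j _) c)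
      ((prv_lt j _).trans_le (le_prv.2 (W.pos_mn.2 o)))⟩

/-- the order of the cuts of a leak, node first -/
theorem leak_back' (h : 2 * s + 1 ≤ r0) (c : ∀ g, W.On (l g) (t g) n → n = t g)
    (p : W.port j n = 0) (o : W.lay j (inl n) 1 < W.lay j (inl n) 0) :
    W.vq j l t (pz (W.prv (inl n)) (2 * r + 10)) < W.vq j l t (pz (ml n 0) 0) ∧
      W.vq j l t (pz (ml n 0) 0) < W.vq j l t (pz (W.prv (mo n (2 * s + 1))) (2 * r + 10)) :=
  ⟨vq_out (k.out_bk (bk_prv' j _) c) (k.out_bk (bk_pay.2 rfl) c)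
      ((prv_lt j _).trans (W.pos_nm.2 o)),
    k.vq_ml_prv (by rw [p, Nat.mod_eq_of_lt (show 2 * s + 1 < _ by omega)]; simp [el]; omega)⟩

end Rs

end Wd

/-- The centre and a node that is reached through the entry `2 * s + 1` of its moat. -/
example {W : Wd K N β r r0 q D e b} {j : K} {n : N} {s : ℕ} (h : 2 * s + 1 ≤ r0)
    (k : W.Rs j ![0] ![W.ell n (2 * s + 1)]) (c : ¬W.On 0 (W.ell n (2 * s + 1)) n)
    (p : W.port j n = 0) (f : W.lay j (inl n) 0 < W.lay j (inl n) 1)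
    (o : W.gk j n < W.gk j (W.ell n (2 * s + 1))) : W.Sv (inl none) (hv (nl n)) :=
  have c : ∀ g, W.On (![0] g) (![W.ell n (2 * s + 1)] g) n → n = ![W.ell n (2 * s + 1)] g :=
    fun g a => by fin_cases g; exact (c a).elim
  k.ro.serve_leak h p .nil (k.ch_cut 0) .nil (by simp) (fun g => by fin_cases g; simp) Wd.fre_cut
    [.lt 2 1, .lt 1 3, .lt 3 0] [] (by decide +kernel)
    ⟨(k.leak_front' h c p f).1, (k.leak_front' h c p f).2, Wd.vq_lt (k.bk_lt_cut (g := 0)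
      (Wd.bk_prv' j _) fun _ a => a.elim (· ▸ o) fun ⟨g, a, d⟩ => d ▸ c g a ▸ o)⟩ trivial

end Pool.Agent.P.MP_439f1f_co
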