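import Pool.Agent.P.MP_439f1f_co.B2

/-!
Hubs and lines with one hub more than lines: hamiltonian cycles are the configurations with one
gap; service of the three kinds of pairs.
-/

set_option autoImplicit false

namespace Pool.Agent.P.MP_439f1f_co

open SimpleGraph Sum

variable {S Λ : Type*}

open Classical in
/-- A configuration with the single gap `i, i + 1` on the line `L0`. -/
structure Cfg1 (m : ℕ) (hang : Λ → ℕ → S → Prop) (L0 : Λ) (i : ℕ) (x y : S) (τ η : Λ → S) :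
    Prop where
  lt : i < m
  ht : ∀ L, hang L 0 (τ L)
  hh : ∀ L, hang L m (η L)
  hx : hang L0 i x
  hy : hang L0 (i + 1) y
  nx : i = 0 → x ≠ τ L0
  ny : i + 1 = m → y ≠ η L0
  load : ∀ s, {L | τ L = s}.ncard + {L | η L = s}.ncard + (if x = s then 1 else 0) +
    (if y = s then 1 else 0) = 2
  conn : ∀ A : Set S, (∀ L, L ≠ L0 → (τ L ∈ A ↔ η L ∈ A)) → (τ L0 ∈ A ↔ x ∈ A) →
    (y ∈ A ↔ η L0 ∈ A) → ∀ s t, s ∈ A → t ∈ A

open Classical in
theorem ncard_unit (P : Prop) : {_u : Unit | P}.ncard = if P then 1 else 0 := by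
  split_ifs with h
  · simp [h]
  · simp [h]

open Classical in
theorem ncard_bool (P : Bool → Prop) :
    {b | P b}.ncard = (if P false then 1 else 0) + if P true then 1 else 0 := by
  by_cases h1 : P false <;> by_cases h2 : P true
  · have : {b | P b} = {false, true} := by ext (_ | _) <;> simp [h1, h2]
    rw [this, Set.ncard_pair (by simp)]; simp [h1, h2]
  · have : {b | P b} = {false} := by ext (_ | _) <;> simp [h1, h2]
    rw [this]; simp [h1, h2]
  · have : {b | P b} = {true} := by ext (_ | _) <;> simp [h1, h2]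
    rw [this]; simp [h1, h2]
  · have : {b | P b} = ∅ := by ext (_ | _) <;> simp [h1, h2]
    rw [this]; simp [h1, h2]

theorem Cfg1.cfg {m : ℕ} {hang : Λ → ℕ → S → Prop} {L0 : Λ} {i : ℕ} {x y : S} {τ η : Λ → S}
    (c : Cfg1 m hang L0 i x y τ η) :
    Cfg m hang (fun _ _ => False) (fun _ : Unit => L0) (fun _ => i) (fun _ => x) (fun _ => y)
      τ η where
  lt _ := c.lt
  inj _ _ _ _ := rfl
  ht := c.ht
  hh := c.hh
  hx _ := c.hx
  hy _ := c.hy
  nx _ := c.nx
  ny _ := c.ny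
  nxy _ _ _ h := by omega
  load s := by
    rw [ncard_unit, ncard_unit, c.load s]; simp
  conn A h1 h2 h3 _ _ :=
    c.conn A (fun L h => h1 L fun _ e => h e.symm) (h2 () fun _ _ => le_rfl)
      (h3 () fun _ _ => le_rfl)

theorem Cfg.ham [Fintype S] [Fintype Λ] [DecidableEq S] [DecidableEq Λ] [Nonempty Λ] {m : ℕ}
    (hm : 1 ≤ m) {hang : Λ → ℕ → S → Prop} {Γ : Type*} [Finite Γ] {gl : Γ → Λ} {gi : Γ → ℕ}
    {x y : Γ → S} {τ η : Λ → S} (c : Cfg m hang (fun _ _ => False) gl gi x y τ η) :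
    (HL m hang).IsHamiltonian := by
  obtain ⟨F, h1, h2, h3⟩ := c.two hm (fun _ _ h => h) fun _ h => h
  have : Nonempty (S ⊕ Λ × Fin (m + 1)) := ⟨inr (Classical.arbitrary Λ, 0)⟩
  refine ham_of_two (fun u v h => (h3 u v h).resolve_right ?_) h1 h2
  rintro ⟨_, _, _, _, h⟩
  exact h

theorem Cfg1.ham [Fintype S] [Fintype Λ] [DecidableEq S] [DecidableEq Λ] {m : ℕ}
    {hang : Λ → ℕ → S → Prop} {L0 : Λ} {i : ℕ} {x y : S} {τ η : Λ → S}
    (c : Cfg1 m hang L0 i x y τ η) : (HL m hang).IsHamiltonian :=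
  have : Nonempty Λ := ⟨L0⟩
  c.cfg.ham (by have := c.lt; omega)

theorem Two.other {V : Type*} {F : SimpleGraph V} (h : Two F) {v w : V} (hw : F.Adj v w) :
    ∃ c, c ≠ w ∧ F.Adj v c ∧ ∀ z, F.Adj v z → z = w ∨ z = c := by
  obtain ⟨a, b, hab, h⟩ := h v
  rcases (h w).1 hw with rfl | rfl
  · exact ⟨b, hab.symm, (h b).2 (Or.inr rfl), fun z hz => (h z).1 hz⟩
  · exact ⟨a, hab, (h a).2 (Or.inl rfl), fun z hz => ((h z).1 hz).symm⟩

theorem sum_fiber [Fintype S] {α : Type*} [Finite α] (P : α → Prop) (f : α → S) :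
    ∑ s, {p | P p ∧ f p = s}.ncard = {p | P p}.ncard := by
  classical
  have := Fintype.ofFinite α
  rw [Set.ncard_eq_toFinset_card', Finset.card_eq_sum_card_fiberwise (f := f) (t := Finset.univ)
    fun _ _ => by simp]
  refine Finset.sum_congr rfl fun s _ => ?_
  rw [Set.ncard_eq_toFinset_card']
  congr 1
  ext p
  simp

theorem cfg1_of_two [Fintype S] [Fintype Λ] {m : ℕ} (hm : 1 ≤ m)
    (hc : Fintype.card S = Fintype.card Λ + 1) {hang : Λ → ℕ → S → Prop}
    {F : SimpleGraph (S ⊕ Λ × Fin (m + 1))} (hle : F ≤ HL m hang) (h2 : Two F) (hcon : Con F) :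
    ∃ L0 i x y τ η, Cfg1 m hang L0 i x y τ η := by
  classical
  have hS : Nonempty S := Fintype.card_pos_iff.1 (by omega)
  obtain ⟨gp, hgp⟩ : ∃ gp : Λ → ℕ → Prop, ∀ L i, gp L i ↔ ∃ h : i < m,
      ¬F.Adj (inr (L, ⟨i, by omega⟩)) (inr (L, ⟨i + 1, by omega⟩)) := ⟨_, fun _ _ => Iff.rfl⟩
  have gl : ∀ L i, gp L i → i < m := fun L i h => ((hgp L i).1 h).1
  -- line edges of `F`
  have arr : ∀ p q : Λ × Fin (m + 1), F.Adj (inr p) (inr q) ↔ p.1 = q.1 ∧
      (((p.2 : ℕ) + 1 = q.2 ∧ ¬gp p.1 p.2) ∨ ((q.2 : ℕ) + 1 = p.2 ∧ ¬gp p.1 q.2)) := by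
    have one : ∀ (L : Λ) (i j : Fin (m + 1)), (i : ℕ) + 1 = j →
        (F.Adj (inr (L, i)) (inr (L, j)) ↔ ¬gp L i) := by
      rintro L ⟨i, hi⟩ ⟨j, hj⟩ h
      simp only at h
      subst h
      rw [hgp]
      constructor
      · rintro h ⟨_, h'⟩
        exact h' h
      · intro h
        by_contra h'
        exact h ⟨by simp only; omega, h'⟩
    rintro ⟨L, i⟩ ⟨L', j⟩
    constructor
    · intro h
      obtain ⟨e, h'⟩ := (HL_rr _ _).1 (hle h)
      simp only at e
      subst e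
      exact ⟨rfl, h'.imp (fun h' => ⟨h', (one L i j h').1 h⟩)
        fun h' => ⟨h', (one L j i h').1 h.symm⟩⟩
    · rintro ⟨e, h⟩
      simp only at e
      subst e
      rcases h with ⟨h, h'⟩ | ⟨h, h'⟩
      · exact (one L i j h).2 h'
      · exact ((one L j i h).2 h').symm
  obtain ⟨LE, hLE⟩ : ∃ LE : Λ × Fin (m + 1) → Prop, ∀ p, LE p ↔
      (p.2 : ℕ) = 0 ∨ ((p.2 : ℕ) ≠ 0 ∧ gp p.1 (p.2 - 1)) := ⟨_, fun _ => Iff.rfl⟩
  obtain ⟨RE, hRE⟩ : ∃ RE : Λ × Fin (m + 1) → Prop, ∀ p, RE p ↔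
      (p.2 : ℕ) = m ∨ gp p.1 p.2 := ⟨_, fun _ => Iff.rfl⟩
  have loc : ∀ p : Λ × Fin (m + 1), ∃ l r : S, (LE p → F.Adj (inr p) (inl l)) ∧
      (RE p → F.Adj (inr p) (inl r)) ∧ (LE p → RE p → l ≠ r) ∧
      ∀ s, F.Adj (inr p) (inl s) → (LE p ∧ l = s) ∨ (RE p ∧ r = s) := by
    rintro ⟨L, i⟩
    have hi := i.isLt
    obtain ⟨s0⟩ := hS
    have nl : LE (L, i) → ∀ j : Fin (m + 1), (j : ℕ) + 1 = i → gp L j := by
      intro h j hj
      rcases (hLE _).1 h with h | h
      · simp only at h; omega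
      · simpa [← hj] using h.2
    have nr : RE (L, i) → ∀ j : Fin (m + 1), (i : ℕ) + 1 = j → gp L i := by
      intro h j hj
      rcases (hRE _).1 h with h | h
      · have := j.isLt; simp only at h; omega
      · exact h
    have yl : ¬LE (L, i) → ∃ j : Fin (m + 1), (j : ℕ) + 1 = i ∧
        F.Adj (inr (L, i)) (inr (L, j)) := by
      intro h
      rw [hLE] at h
      simp only [not_or, not_and] at h
      exact ⟨⟨i - 1, by omega⟩, by simp only; omega,
        (arr _ _).2 ⟨rfl, Or.inr ⟨by simp only; omega, h.2 h.1⟩⟩⟩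
    have yr : ¬RE (L, i) → ∃ j : Fin (m + 1), (i : ℕ) + 1 = j ∧
        F.Adj (inr (L, i)) (inr (L, j)) := by
      intro h
      rw [hRE] at h
      simp only [not_or] at h
      exact ⟨⟨i + 1, by omega⟩, rfl, (arr _ _).2 ⟨rfl, Or.inl ⟨rfl, h.2⟩⟩⟩
    by_cases hl : LE (L, i) <;> by_cases hr : RE (L, i)
    · obtain ⟨a, b, hab, h⟩ := h2 (inr (L, i))
      have hub : ∀ w, F.Adj (inr (L, i)) w → ∃ s, w = inl s := by
        rintro (s | ⟨L', j⟩) hw
        · exact ⟨s, rfl⟩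
        · obtain ⟨-, ⟨h1, h3⟩ | ⟨h1, h3⟩⟩ := (arr _ _).1 hw
          · exact absurd (nr hr j h1) h3
          · exact absurd (nl hl j h1) h3
      have ha := (h a).2 (Or.inl rfl)
      have hb := (h b).2 (Or.inr rfl)
      obtain ⟨l, rfl⟩ := hub a ha
      obtain ⟨r, rfl⟩ := hub b hb
      refine ⟨l, r, fun _ => ha, fun _ => hb, fun _ _ e => hab (by rw [e]), fun s hs => ?_⟩
      rcases (h _).1 hs with e | e
      · exact Or.inl ⟨hl, (inl_injective e).symm⟩
      · exact Or.inr ⟨hr, (inl_injective e).symm⟩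
    · obtain ⟨j, hj, hadj⟩ := yr hr
      obtain ⟨c, hcw, hc1, hc2⟩ := h2.other hadj
      obtain ⟨l, rfl⟩ : ∃ l, c = inl l := by
        rcases c with s | ⟨L', k⟩
        · exact ⟨s, rfl⟩
        · obtain ⟨e, ⟨h1, h3⟩ | ⟨h1, h3⟩⟩ := (arr _ _).1 hc1
          · simp only at e h1
            subst e
            exact absurd (by rw [show k = j from Fin.ext (by omega)]) hcw
          · exact absurd (nl hl k h1) h3
      refine ⟨l, s0, fun _ => hc1, fun h => absurd h hr, fun _ h => absurd h hr, fun s hs => ?_⟩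
      rcases hc2 _ hs with e | e
      · cases e
      · exact Or.inl ⟨hl, (inl_injective e).symm⟩
    · obtain ⟨j, hj, hadj⟩ := yl hl
      obtain ⟨c, hcw, hc1, hc2⟩ := h2.other hadj
      obtain ⟨r, rfl⟩ : ∃ l, c = inl l := by
        rcases c with s | ⟨L', k⟩
        · exact ⟨s, rfl⟩
        · obtain ⟨e, ⟨h1, h3⟩ | ⟨h1, h3⟩⟩ := (arr _ _).1 hc1
          · exact absurd (nr hr k h1) h3
          · simp only at e h1
            subst e
            exact absurd (by rw [show k = j from Fin.ext (by omega)]) hcw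
      refine ⟨s0, r, fun h => absurd h hl, fun _ => hc1, fun h => absurd h hl, fun s hs => ?_⟩
      rcases hc2 _ hs with e | e
      · cases e
      · exact Or.inr ⟨hr, (inl_injective e).symm⟩
    · obtain ⟨j, hj, hadj⟩ := yl hl
      obtain ⟨k, hk, hadj'⟩ := yr hr
      obtain ⟨c, -, -, hc2⟩ := h2.other hadj
      refine ⟨s0, s0, fun h => absurd h hl, fun h => absurd h hr, fun h => absurd h hl,
        fun s hs => ?_⟩
      rcases hc2 _ hadj' with e | e
      · have : k = j := congrArg Prod.snd (inr_injective e)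
        subst this; omega
      · subst e
        rcases hc2 _ hs with e | e <;> cases e
  choose lf rt hl hr hne hall using loc
  have load0 : ∀ s, {p | LE p ∧ lf p = s}.ncard + {p | RE p ∧ rt p = s}.ncard = 2 := by
    intro s
    have e : F.neighborSet (inl s) = inr '' ({p | LE p ∧ lf p = s} ∪ {p | RE p ∧ rt p = s}) := by
      ext (t | p)
      · simp only [mem_neighborSet, Set.mem_image, reduceCtorEq, and_false, exists_false, iff_false]
        exact fun h => hle h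
      · simp only [mem_neighborSet, Set.mem_image, inr.injEq, exists_eq_right, Set.mem_union,
          Set.mem_ofPred_eq]
        refine ⟨fun h => hall p s h.symm, ?_⟩
        rintro (⟨h, rfl⟩ | ⟨h, rfl⟩)
        exacts [(hl p h).symm, (hr p h).symm]
    rw [← two_iff.1 h2 (inl s), e, Set.ncard_image_of_injective _ inr_injective,
      Set.ncard_union_eq]
    rw [Set.disjoint_left]
    rintro p ⟨h1, h3⟩ ⟨h4, h5⟩
    exact hne p h1 h4 (h3.trans h5.symm)
  -- counting the ends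
  let sh : Λ × Fin (m + 1) → Λ × Fin (m + 1) := fun p => (p.1, ⟨min (p.2 + 1) m, by omega⟩)
  have cL : ∀ P : Λ × Fin (m + 1) → Prop, {p | LE p ∧ P p}.ncard =
      {L | P (L, 0)}.ncard + {q : Λ × Fin (m + 1) | gp q.1 q.2 ∧ P (sh q)}.ncard := by
    intro P
    have e : {p | LE p ∧ P p} = (fun L => (L, 0)) '' {L | P (L, 0)} ∪
        sh '' {q : Λ × Fin (m + 1) | gp q.1 q.2 ∧ P (sh q)} := by
      ext ⟨L, i⟩
      have hi := i.isLt
      simp only [Set.mem_ofPred_eq, hLE, Set.mem_union, Set.mem_image]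
      constructor
      · rintro ⟨h | ⟨h, h'⟩, hP⟩
        · obtain rfl : i = 0 := Fin.ext h
          exact Or.inl ⟨L, hP, rfl⟩
        · have e : sh (L, ⟨i - 1, by omega⟩) = (L, i) := Prod.ext rfl (Fin.ext (by
            simp only [sh]; omega))
          exact Or.inr ⟨(L, ⟨i - 1, by omega⟩), ⟨h', e ▸ hP⟩, e⟩
      · rintro (⟨L', hP, e⟩ | ⟨⟨L', j⟩, ⟨hg, hP⟩, e⟩)
        · exact ⟨Or.inl (congrArg Fin.val (Prod.ext_iff.1 e).2).symm, e ▸ hP⟩
        · have h1 := gl _ _ hg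
          have h3 : L' = L := (Prod.ext_iff.1 e).1
          have h4 : min ((j : ℕ) + 1) m = i := congrArg Fin.val (Prod.ext_iff.1 e).2
          simp only at h1
          refine ⟨Or.inr ⟨by omega, ?_⟩, e ▸ hP⟩
          rw [← h3, show (i : ℕ) - 1 = j by omega]
          exact hg
    rw [e, Set.ncard_union_eq, Set.ncard_image_of_injective _ fun a b h => (Prod.ext_iff.1 h).1,
      Set.InjOn.ncard_image]
    · rintro ⟨L, i⟩ ⟨h1, -⟩ ⟨L', j⟩ ⟨h3, -⟩ e
      have h4 := gl _ _ h1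
      have h5 := gl _ _ h3
      have h6 : min ((i : ℕ) + 1) m = min ((j : ℕ) + 1) m := congrArg Fin.val (Prod.ext_iff.1 e).2
      simp only at h4 h5
      exact Prod.ext (Prod.ext_iff.1 e).1 (Fin.ext (by simp only; omega))
    · rw [Set.disjoint_left]
      rintro _ ⟨L, -, rfl⟩ ⟨q, -, e⟩
      have h4 : min ((q.2 : ℕ) + 1) m = 0 := congrArg Fin.val (Prod.ext_iff.1 e).2
      omega
  have cR : ∀ P : Λ × Fin (m + 1) → Prop, {p | RE p ∧ P p}.ncard =
      {L | P (L, Fin.last m)}.ncard + {q : Λ × Fin (m + 1) | gp q.1 q.2 ∧ P q}.ncard := by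
    intro P
    have e : {p | RE p ∧ P p} = (fun L => (L, Fin.last m)) '' {L | P (L, Fin.last m)} ∪
        {q : Λ × Fin (m + 1) | gp q.1 q.2 ∧ P q} := by
      ext ⟨L, i⟩
      simp only [Set.mem_ofPred_eq, hRE, Set.mem_union, Set.mem_image]
      constructor
      · rintro ⟨h | h, hP⟩
        · obtain rfl : i = Fin.last m := Fin.ext h
          exact Or.inl ⟨L, hP, rfl⟩
        · exact Or.inr ⟨h, hP⟩
      · rintro (⟨L', hP, e⟩ | ⟨hg, hP⟩)
        · exact ⟨Or.inl (congrArg Fin.val (Prod.ext_iff.1 e).2).symm, e ▸ hP⟩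
        · exact ⟨Or.inr hg, hP⟩
    rw [e, Set.ncard_union_eq, Set.ncard_image_of_injective _ fun a b h => (Prod.ext_iff.1 h).1]
    rw [Set.disjoint_left]
    rintro _ ⟨L, -, rfl⟩ ⟨h, -⟩
    have := gl _ _ h
    simp at this
  have one : {q : Λ × Fin (m + 1) | gp q.1 q.2}.ncard = 1 := by
    have s1 : ∑ s, ({p | LE p ∧ lf p = s}.ncard + {p | RE p ∧ rt p = s}.ncard) = ∑ _s : S, 2 :=
      Finset.sum_congr rfl fun s _ => load0 s
    rw [Finset.sum_add_distrib, sum_fiber, sum_fiber] at s1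
    have a1 := cL fun _ => True
    have a2 := cR fun _ => True
    simp only [and_true, Set.ofPred_true, Set.ncard_univ, Nat.card_eq_fintype_card,
      Finset.sum_const, Finset.card_univ, smul_eq_mul] at s1 a1 a2
    omega
  obtain ⟨⟨L0, i0⟩, h0⟩ := Set.ncard_eq_one.1 one
  have g0 : ∀ q : Λ × Fin (m + 1), gp q.1 q.2 ↔ q = (L0, i0) := fun q => by
    simpa using Set.ext_iff.1 h0 q
  have g1 : gp L0 i0 := (g0 (L0, i0)).2 rfl
  have g2 := gl _ _ g1
  have g3 : ∀ L i, gp L i → L = L0 ∧ i = i0 := fun L i h => by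
    have := (g0 (L, ⟨i, Nat.lt_succ_of_lt (gl L i h)⟩)).1 h
    exact ⟨(Prod.ext_iff.1 this).1, congrArg Fin.val (Prod.ext_iff.1 this).2⟩
  have c1 : ∀ Q : Λ × Fin (m + 1) → Prop,
      {q : Λ × Fin (m + 1) | gp q.1 q.2 ∧ Q q}.ncard = if Q (L0, i0) then 1 else 0 := by
    intro Q
    split_ifs with h
    · rw [Set.ncard_eq_one]
      refine ⟨(L0, i0), ?_⟩
      ext q
      simp only [Set.mem_ofPred_eq, g0, Set.mem_singleton_iff, and_iff_left_iff_imp]
      rintro rfl; exact h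
    · rw [Set.ncard_eq_zero]
      ext q
      simp only [Set.mem_ofPred_eq, g0, Set.mem_empty_iff_false, iff_false, not_and]
      rintro rfl; exact h
  have e1 : ((sh (L0, i0)).2 : ℕ) = i0 + 1 := by simp only [sh]; omega
  have l0 : ∀ L, LE (L, 0) := fun L => (hLE _).2 (Or.inl rfl)
  have r0 : ∀ L, RE (L, Fin.last m) := fun L => (hRE _).2 (Or.inl rfl)
  have l1 : LE (sh (L0, i0)) := (hLE _).2 (Or.inr ⟨by omega, by rw [e1]; exact g1⟩)
  have r1 : RE (L0, i0) := (hRE _).2 (Or.inr g1)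
  refine ⟨L0, i0, rt (L0, i0), lf (sh (L0, i0)), fun L => lf (L, 0), fun L => rt (L, Fin.last m),
    g2, fun L => hle (hl _ (l0 L)), fun L => hle (hr _ (r0 L)), hle (hr _ r1), ?_, fun h => ?_,
    fun h => ?_, fun s => ?_, fun A hA hx hy s t hs => ?_⟩
  · rw [← e1]; exact hle (hl _ l1)
  · obtain rfl : i0 = 0 := Fin.ext h
    exact (hne _ (l0 L0) r1).symm
  · have e : sh (L0, i0) = (L0, Fin.last m) := Prod.ext rfl (Fin.ext (e1.trans h))
    rw [e] at l1 ⊢
    exact hne _ l1 (r0 L0)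
  · have := load0 s
    rw [cL, cR, c1, c1] at this
    omega
  · let B : Set (S ⊕ Λ × Fin (m + 1)) := {v | Sum.elim (fun s => s ∈ A)
      (fun p => if p.1 = L0 ∧ (i0 : ℕ) < p.2 then rt (p.1, Fin.last m) ∈ A else lf (p.1, 0) ∈ A) v}
    have hb : ∀ s p, F.Adj (inr p) (inl s) → (inl s ∈ B ↔ inr p ∈ B) := by
      rintro s ⟨L, i⟩ h
      change s ∈ A ↔ if L = L0 ∧ (i0 : ℕ) < i then rt (L, Fin.last m) ∈ A else lf (L, 0) ∈ A
      rcases hall _ _ h with ⟨h1, rfl⟩ | ⟨h1, rfl⟩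
      · rcases (hLE _).1 h1 with h3 | ⟨h3, h4⟩
        · obtain rfl : i = 0 := Fin.ext h3
          simp
        · obtain ⟨rfl, h5⟩ := g3 _ _ h4
          simp only at h3 h5
          rw [if_pos ⟨rfl, by omega⟩,
            show (L, i) = sh (L, i0) from Prod.ext rfl (Fin.ext (by rw [e1]; simp only; omega))]
          exact hy
      · rcases (hRE _).1 h1 with h3 | h3
        · obtain rfl : i = Fin.last m := Fin.ext h3
          by_cases e : L = L0
          · rw [if_pos ⟨e, g2⟩]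
          · rw [if_neg fun h => e h.1]
            exact (hA L e).symm
        · obtain ⟨rfl, h5⟩ := g3 _ _ h3
          obtain rfl : i = i0 := Fin.ext h5
          rw [if_neg fun h => lt_irrefl _ h.2]
          exact hx.symm
    refine hcon B ?_ (inl s) (inl t) hs
    rintro (a | p) (b | q) h
    · exact (hle h).elim
    · exact (hb a q h.symm).1
    · exact (hb b p h).2
    · obtain ⟨L, i⟩ := p
      obtain ⟨L', j⟩ := q
      obtain ⟨e, h1⟩ := (arr _ _).1 h
      simp only at e h1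
      subst e
      have : (L = L0 ∧ (i0 : ℕ) < i) ↔ (L = L0 ∧ (i0 : ℕ) < j) := by
        refine and_congr_right fun e => ?_
        subst e
        rcases h1 with ⟨h1, h3⟩ | ⟨h1, h3⟩
        · have : (i : ℕ) ≠ i0 := fun e => h3 (e ▸ g1)
          omega
        · have : (j : ℕ) ≠ i0 := fun e => h3 (e ▸ g1)
          omega
      change (if L = L0 ∧ (i0 : ℕ) < i then rt (L, Fin.last m) ∈ A else lf (L, 0) ∈ A) →
        if L = L0 ∧ (i0 : ℕ) < j then rt (L, Fin.last m) ∈ A else lf (L, 0) ∈ A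
      simp only [this]
      exact id

/-- Non-hamiltonicity: it is enough that no configuration with one gap exists. -/
theorem not_ham [Fintype S] [Fintype Λ] [DecidableEq S] [DecidableEq Λ] [Nonempty Λ] {m : ℕ}
    (hm : 1 ≤ m) (hc : Fintype.card S = Fintype.card Λ + 1) {hang : Λ → ℕ → S → Prop}
    (h : ∀ L0 i x y τ η, ¬Cfg1 m hang L0 i x y τ η) : ¬(HL m hang).IsHamiltonian := by
  intro hh
  obtain ⟨F, h1, h2, h3⟩ := two_of_ham (by
    have : 0 < Fintype.card Λ := Fintype.card_pos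
    rw [Fintype.card_sum, hc]; omega) hh
  obtain ⟨L0, i, x, y, τ, η, c⟩ := cfg1_of_two hm hc h1 h2 h3
  exact h _ _ _ _ _ _ c

end Pool.Agent.P.MP_439f1f_co
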