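import Pool.Agent.P.MP_439f1f_co.B3

/-!
Service of the three kinds of pairs, and the assembly.
-/

set_option autoImplicit false

namespace Pool.Agent.P.MP_439f1f_co

open SimpleGraph Sum

variable {S Λ : Type*}

open Classical in
/-- two hubs -/
theorem serve_hh [Fintype S] [Fintype Λ] [DecidableEq (S)] [DecidableEq Λ] {m : ℕ} (hm : 1 ≤ m)
    {hang : Λ → ℕ → S → Prop} {x y : S} (hxy : x ≠ y) (τ η : Λ → S) (ht : ∀ L, hang L 0 (τ L))
    (hh : ∀ L, hang L m (η L))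
    (load : ∀ s, {L | τ L = s}.ncard + {L | η L = s}.ncard + (if x = s then 1 else 0) +
      (if y = s then 1 else 0) = 2)
    (conn : ∀ A : Set S, (∀ L, τ L ∈ A ↔ η L ∈ A) → (x ∈ A ↔ y ∈ A) → ∀ s t, s ∈ A → t ∈ A) :
    (HL m hang ⊔ edge (inl x) (inl y)).IsHamiltonian := by
  have c : Cfg m hang (fun s t => (s = x ∧ t = y) ∨ (s = y ∧ t = x)) (Γ := Empty) Empty.elim
      Empty.elim Empty.elim Empty.elim τ η := by
    refine ⟨(·.elim), (·.elim), ht, hh, (·.elim), (·.elim), (·.elim), (·.elim), (·.elim),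
      fun s => ?_, fun A h1 _ _ _ h2 => conn A (fun L => h1 L (·.elim))
        ⟨h2 x y (Or.inl ⟨rfl, rfl⟩), h2 y x (Or.inr ⟨rfl, rfl⟩)⟩⟩
    have e0 : ∀ P : Empty → Prop, {γ | P γ}.ncard = 0 := fun P => by
      rw [Set.eq_empty_of_isEmpty {γ | P γ}, Set.ncard_empty]
    have e1 : {t | (s = x ∧ t = y) ∨ (s = y ∧ t = x)}.ncard =
        (if x = s then 1 else 0) + if y = s then 1 else 0 := by
      by_cases h1 : x = s
      · subst h1
        simp [hxy, hxy.symm]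
      · by_cases h2 : y = s
        · subst h2
          simp [hxy, hxy.symm]
        · simp [h1, h2, Ne.symm h1, Ne.symm h2]
    have := load s
    rw [e0, e1]
    omega
  obtain ⟨F, h1, h2, h3⟩ := c.two hm (fun _ _ h => by tauto) fun s h => by
    rcases h with ⟨rfl, rfl⟩ | ⟨rfl, rfl⟩ <;> exact hxy rfl
  have : Nonempty (S ⊕ Λ × Fin (m + 1)) := ⟨inl x⟩
  refine ham_of_two (fun u v h => (h3 u v h).imp id ?_) h1 h2
  rintro ⟨s, t, rfl, rfl, ⟨rfl, rfl⟩ | ⟨rfl, rfl⟩⟩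
  · exact (edge_adj _ _ _ _).2 ⟨Or.inl ⟨rfl, rfl⟩, by simpa using hxy⟩
  · exact (edge_adj _ _ _ _).2 ⟨Or.inr ⟨rfl, rfl⟩, by simpa using hxy.symm⟩

/-- a hub and a vertex of a line -/
theorem serve_hp [Fintype S] [Fintype Λ] [DecidableEq S] [DecidableEq Λ] {m : ℕ}
    {hang : Λ → ℕ → S → Prop} {h : S} {p : Λ × Fin (m + 1)} {L0 : Λ} {i : ℕ} {x y : S}
    {τ η : Λ → S}
    (c : Cfg1 m (fun L j s => hang L j s ∨ (L = p.1 ∧ j = p.2 ∧ s = h)) L0 i x y τ η) :
    (HL m hang ⊔ edge (inl h) (inr p)).IsHamiltonian := by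
  refine c.ham.mono ?_
  rintro (s | q) (t | r) hh
  · exact hh.elim
  · refine hh.imp id ?_
    rintro ⟨h1, h2, rfl⟩
    exact (edge_adj _ _ _ _).2 ⟨Or.inl ⟨rfl, by rw [Prod.ext h1 (Fin.ext h2)]⟩, by simp⟩
  · refine hh.imp id ?_
    rintro ⟨h1, h2, rfl⟩
    exact (edge_adj _ _ _ _).2 ⟨Or.inr ⟨by rw [Prod.ext h1 (Fin.ext h2)], rfl⟩, by simp⟩
  · exact Or.inl hh

/-- suppressing a vertex -/
theorem suppress {V W : Type*} {F : SimpleGraph W} (e : V → W) (he : Function.Injective e)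
    (z : W) (hz : ∀ v, e v ≠ z) (hall : ∀ w, w ≠ z → ∃ v, e v = w) (h2 : Two F) (hc : Con F)
    {p q : V} (hpq : p ≠ q) (hn : ¬F.Adj (e p) (e q)) (hN : ∀ w, F.Adj z w → w = e p ∨ w = e q) :
    Two (F.comap e ⊔ edge p q) ∧ Con (F.comap e ⊔ edge p q) := by
  have both : F.Adj z (e p) ∧ F.Adj z (e q) := by
    obtain ⟨a, b, hab, h⟩ := h2 z
    have ha := (h a).2 (Or.inl rfl)
    have hb := (h b).2 (Or.inr rfl)
    rcases hN a ha with rfl | rfl <;> rcases hN b hb with e1 | e1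
    · exact absurd e1.symm hab
    · exact ⟨ha, e1 ▸ hb⟩
    · exact ⟨e1 ▸ hb, ha⟩
    · exact absurd e1.symm hab
  have adj : ∀ u w, (F.comap e ⊔ edge p q).Adj u w ↔
      F.Adj (e u) (e w) ∨ (u = p ∧ w = q) ∨ (u = q ∧ w = p) := by
    intro u w
    rw [sup_adj, comap_adj, edge_adj]
    refine or_congr_right ⟨fun h => h.1, fun h => ⟨h, ?_⟩⟩
    rcases h with ⟨rfl, rfl⟩ | ⟨rfl, rfl⟩
    exacts [hpq, hpq.symm]
  constructor
  · intro v
    by_cases hp : v = p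
    · subst hp
      obtain ⟨c, h1, h3, h4⟩ := h2.other both.1.symm
      obtain ⟨c, rfl⟩ := hall c h1
      refine ⟨c, q, fun h => hn (h ▸ h3), fun w => ?_⟩
      rw [adj]
      constructor
      · rintro (h | ⟨-, h⟩ | ⟨h, -⟩)
        · exact Or.inl (he ((h4 _ h).resolve_left (hz w)))
        · exact Or.inr h
        · exact absurd h hpq
      · rintro (rfl | rfl)
        · exact Or.inl h3
        · exact Or.inr (Or.inl ⟨rfl, rfl⟩)
    by_cases hq : v = q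
    · subst hq
      obtain ⟨c, h1, h3, h4⟩ := h2.other both.2.symm
      obtain ⟨c, rfl⟩ := hall c h1
      refine ⟨c, p, fun h => hn (h ▸ h3).symm, fun w => ?_⟩
      rw [adj]
      constructor
      · rintro (h | ⟨h, -⟩ | ⟨-, h⟩)
        · exact Or.inl (he ((h4 _ h).resolve_left (hz w)))
        · exact absurd h hp
        · exact Or.inr h
      · rintro (rfl | rfl)
        · exact Or.inl h3
        · exact Or.inr (Or.inr ⟨rfl, rfl⟩)
    · obtain ⟨a, b, hab, h⟩ := h2 (e v)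
      have nz : ∀ w, F.Adj (e v) w → w ≠ z := by
        rintro w hw rfl
        rcases hN _ hw.symm with h | h
        exacts [hp (he h), hq (he h)]
      obtain ⟨a, rfl⟩ := hall a (nz a ((h a).2 (Or.inl rfl)))
      obtain ⟨b, rfl⟩ := hall b (nz b ((h b).2 (Or.inr rfl)))
      refine ⟨a, b, fun e1 => hab (by rw [e1]), fun w => ?_⟩
      rw [adj, h, he.eq_iff, he.eq_iff]
      simp [hp, hq]
  · intro A hA u w hu
    have hpq' : p ∈ A ↔ q ∈ A := ⟨hA _ _ ((adj _ _).2 (Or.inr (Or.inl ⟨rfl, rfl⟩))),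
      hA _ _ ((adj _ _).2 (Or.inr (Or.inr ⟨rfl, rfl⟩)))⟩
    have key := hc {x | (∃ v ∈ A, e v = x) ∨ (x = z ∧ p ∈ A)} ?_ (e u) (e w) (Or.inl ⟨u, hu, rfl⟩)
    · rcases key with ⟨v, hv, e1⟩ | ⟨e1, -⟩
      · exact he e1 ▸ hv
      · exact absurd e1 (hz w)
    · rintro a b hab (⟨v, hv, rfl⟩ | ⟨rfl, hp⟩)
      · by_cases hb : b = z
        · subst hb
          rcases hN _ hab.symm with h | h
          · exact Or.inr ⟨rfl, he h ▸ hv⟩
          · exact Or.inr ⟨rfl, hpq'.2 (he h ▸ hv)⟩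
        · obtain ⟨b, rfl⟩ := hall b hb
          exact Or.inl ⟨b, hA v b ((adj _ _).2 (Or.inl hab)) hv, rfl⟩
      · rcases hN _ hab with rfl | rfl
        · exact Or.inl ⟨p, hp, rfl⟩
        · exact Or.inl ⟨q, hpq'.1 hp, rfl⟩

/-- the system with the virtual hub `none`, joined to the two vertices `p` and `q` -/
def hangO {m : ℕ} (hang : Λ → ℕ → S → Prop) (p q : Λ × Fin (m + 1)) : Λ → ℕ → Option S → Prop
  | L, i, some s => hang L i s
  | L, i, none => (L = p.1 ∧ i = p.2) ∨ (L = q.1 ∧ i = q.2)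

/-- two vertices of lines -/
theorem serve_pp [Fintype S] [Fintype Λ] [DecidableEq S] [DecidableEq Λ] {m : ℕ} (hm : 1 ≤ m)
    {hang : Λ → ℕ → S → Prop} {p q : Λ × Fin (m + 1)} (hpq : p ≠ q)
    (hn : ¬(HL m hang).Adj (inr p) (inr q)) {Γ : Type*} [Finite Γ] {gl : Γ → Λ} {gi : Γ → ℕ}
    {x y : Γ → Option S} {τ η : Λ → Option S}
    (c : Cfg m (hangO hang p q) (fun _ _ => False) gl gi x y τ η) :
    (HL m hang ⊔ edge (inr p) (inr q)).IsHamiltonian := by
  obtain ⟨F, h1, h2, h3⟩ := c.two hm (fun _ _ h => h) fun _ h => h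
  have hle : ∀ u v, F.Adj u v → (HL m (hangO hang p q)).Adj u v := fun u v h =>
    (h3 u v h).resolve_right (by rintro ⟨_, _, _, _, h⟩; exact h)
  have key := suppress (F := F) (Sum.map some id : S ⊕ Λ × Fin (m + 1) → _)
    (Sum.map_injective.2 ⟨Option.some_injective _, Function.injective_id⟩) (inl none)
    (by rintro (s | r) h <;> cases h)
    (by
      rintro ((_ | s) | r) h
      · exact absurd rfl h
      · exact ⟨inl s, rfl⟩
      · exact ⟨inr r, rfl⟩) h1 h2 (p := inr p) (q := inr q) (by simpa using hpq)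
    (fun h => hn (hle _ _ h)) (by
      rintro (s | r) h
      · exact (hle _ _ h).elim
      · rcases hle _ _ h with ⟨e1, e2⟩ | ⟨e1, e2⟩
        · exact Or.inl (congrArg inr (Prod.ext e1 (Fin.ext e2)))
        · exact Or.inr (congrArg inr (Prod.ext e1 (Fin.ext e2))))
  have : Nonempty (S ⊕ Λ × Fin (m + 1)) := ⟨inr p⟩
  refine ham_of_two (sup_le_sup_right ?_ _) key.1 key.2
  rintro (s | r) (t | r') h <;> exact hle _ _ h

open Classical in
/-- two gaps on different lines -/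
theorem cfg_two_lines {m : ℕ} {hang : Λ → ℕ → S → Prop} {L1 L2 : Λ} (hL : L1 ≠ L2) {i1 i2 : ℕ}
    {x1 y1 x2 y2 : S} {τ η : Λ → S} (l1 : i1 < m) (l2 : i2 < m) (ht : ∀ L, hang L 0 (τ L))
    (hh : ∀ L, hang L m (η L)) (hx1 : hang L1 i1 x1) (hy1 : hang L1 (i1 + 1) y1)
    (hx2 : hang L2 i2 x2) (hy2 : hang L2 (i2 + 1) y2) (nx1 : i1 = 0 → x1 ≠ τ L1)
    (ny1 : i1 + 1 = m → y1 ≠ η L1) (nx2 : i2 = 0 → x2 ≠ τ L2) (ny2 : i2 + 1 = m → y2 ≠ η L2)
    (load : ∀ s, {L | τ L = s}.ncard + {L | η L = s}.ncard +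
      ((if x1 = s then 1 else 0) + if x2 = s then 1 else 0) +
      ((if y1 = s then 1 else 0) + if y2 = s then 1 else 0) = 2)
    (conn : ∀ A : Set S, (∀ L, L ≠ L1 → L ≠ L2 → (τ L ∈ A ↔ η L ∈ A)) → (τ L1 ∈ A ↔ x1 ∈ A) →
      (y1 ∈ A ↔ η L1 ∈ A) → (τ L2 ∈ A ↔ x2 ∈ A) → (y2 ∈ A ↔ η L2 ∈ A) → ∀ s t, s ∈ A → t ∈ A) :
    Cfg m hang (fun _ _ => False) (fun b : Bool => cond b L2 L1) (fun b => cond b i2 i1)
      (fun b => cond b x2 x1) (fun b => cond b y2 y1) τ η where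
  lt := by rintro (_ | _); exacts [l1, l2]
  inj := by
    rintro (_ | _) (_ | _) h _
    exacts [rfl, absurd h hL, absurd h hL.symm, rfl]
  ht := ht
  hh := hh
  hx := by rintro (_ | _); exacts [hx1, hx2]
  hy := by rintro (_ | _); exacts [hy1, hy2]
  nx := by rintro (_ | _); exacts [nx1, nx2]
  ny := by rintro (_ | _); exacts [ny1, ny2]
  nxy := by
    rintro (_ | _) (_ | _) h h'
    exacts [absurd h' (Nat.succ_ne_self _), absurd h hL, absurd h hL.symm,
      absurd h' (Nat.succ_ne_self _)]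
  load s := by
    rw [ncard_bool, ncard_bool, ← load s]; simp
  conn A h1 h2 h3 _ _ := by
    refine conn A (fun L a b => h1 L ?_) (h2 false ?_) (h3 false ?_) (h2 true ?_) (h3 true ?_)
    · rintro (_ | _); exacts [a.symm, b.symm]
    · rintro (_ | _) h; exacts [le_rfl, absurd h hL.symm]
    · rintro (_ | _) h; exacts [le_rfl, absurd h hL.symm]
    · rintro (_ | _) h; exacts [absurd h hL, le_rfl]
    · rintro (_ | _) h; exacts [absurd h hL, le_rfl]

open Classical in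
/-- two gaps on the same line -/
theorem cfg_one_line {m : ℕ} {hang : Λ → ℕ → S → Prop} {L1 : Λ} {i1 i2 : ℕ} (hi : i1 < i2)
    {x1 y1 x2 y2 : S} {τ η : Λ → S} (l2 : i2 < m) (ht : ∀ L, hang L 0 (τ L))
    (hh : ∀ L, hang L m (η L)) (hx1 : hang L1 i1 x1) (hy1 : hang L1 (i1 + 1) y1)
    (hx2 : hang L1 i2 x2) (hy2 : hang L1 (i2 + 1) y2) (nx1 : i1 = 0 → x1 ≠ τ L1)
    (nyx : i1 + 1 = i2 → y1 ≠ x2) (ny2 : i2 + 1 = m → y2 ≠ η L1)
    (load : ∀ s, {L | τ L = s}.ncard + {L | η L = s}.ncard +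
      ((if x1 = s then 1 else 0) + if x2 = s then 1 else 0) +
      ((if y1 = s then 1 else 0) + if y2 = s then 1 else 0) = 2)
    (conn : ∀ A : Set S, (∀ L, L ≠ L1 → (τ L ∈ A ↔ η L ∈ A)) → (τ L1 ∈ A ↔ x1 ∈ A) →
      (y1 ∈ A ↔ x2 ∈ A) → (y2 ∈ A ↔ η L1 ∈ A) → ∀ s t, s ∈ A → t ∈ A) :
    Cfg m hang (fun _ _ => False) (fun _ : Bool => L1) (fun b => cond b i2 i1)
      (fun b => cond b x2 x1) (fun b => cond b y2 y1) τ η where
  lt := by rintro (_ | _); exacts [hi.trans l2, l2]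
  inj := by
    rintro (_ | _) (_ | _) _ h
    exacts [rfl, absurd h hi.ne, absurd h hi.ne', rfl]
  ht := ht
  hh := hh
  hx := by rintro (_ | _); exacts [hx1, hx2]
  hy := by rintro (_ | _); exacts [hy1, hy2]
  nx := by
    rintro (_ | _)
    exacts [nx1, fun h : i2 = 0 => by omega]
  ny := by
    rintro (_ | _)
    exacts [fun h : i1 + 1 = m => by omega, ny2]
  nxy := by
    rintro (_ | _) (_ | _) _ h'
    exacts [absurd h' (Nat.succ_ne_self _), nyx h', absurd (show i2 + 1 = i1 from h') (by omega),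
      absurd h' (Nat.succ_ne_self _)]
  load s := by
    rw [ncard_bool, ncard_bool, ← load s]; simp
  conn A h1 h2 h3 h4 _ := by
    refine conn A (fun L a => h1 L fun _ => a.symm) (h2 false ?_) (h4 false true rfl hi ?_)
      (h3 true ?_)
    · rintro (_ | _) -; exacts [le_rfl, hi.le]
    · rintro (_ | _) -; exacts [Or.inl le_rfl, Or.inr le_rfl]
    · rintro (_ | _) -; exacts [hi.le, le_rfl]

theorem not_acyclic {V : Type*} [Finite V] [Nonempty V] {G : SimpleGraph V}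
    (h : ∀ v, ∃ a b, a ≠ b ∧ G.Adj v a ∧ G.Adj v b) : ¬G.IsAcyclic := by
  intro hG
  obtain ⟨u, v, p, hp, hmax⟩ := Walk.exists_isPath_forall_isPath_length_le_length G
  have key : ∀ w, G.Adj u w → w = p.snd := by
    intro w hadj
    apply hG.eq_snd_of_adj_start hp hadj
    by_contra hw
    have := hmax _ _ (p.cons hadj.symm) (hp.cons hw)
    simp at this
  obtain ⟨a, b, hab, ha, hb⟩ := h u
  exact hab ((key a ha).trans (key b hb).symm)

/-- Assembly: `K` is a graph of large girth that contains all edges and all pairs not served. -/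
theorem assemble {V : Type*} [Fintype V] [DecidableEq V] {k : ℕ} (hk : 4 ≤ k)
    (hV : 4 ≤ Fintype.card V) {G K : SimpleGraph V} (hle : G ≤ K) (hK : GG k K)
    (hn : ¬G.IsHamiltonian) (hs : ∀ u v, u ≠ v → ¬K.Adj u v → (G ⊔ edge u v).IsHamiltonian) :
    ∃ n : ℕ, ∃ H : SimpleGraph (Fin n), ¬H.IsHamiltonian ∧
      (∀ u v : Fin n, u ≠ v → ¬H.Adj u v →
        (H ⊔ SimpleGraph.fromEdgeSet {s(u, v)}).IsHamiltonian) ∧
      ¬H.IsAcyclic ∧ k ≤ H.girth := by
  have : Nonempty V := Fintype.card_pos_iff.1 (by omega)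
  refine saturate hle hK hn (not_acyclic fun v => ?_) hs
  obtain ⟨a, b, hab, ha, hb, hna⟩ : ∃ a b, a ≠ b ∧ a ≠ v ∧ b ≠ v ∧ ¬K.Adj a b := by
    by_contra hc
    push Not at hc
    obtain ⟨a, ha, b, hb, c, hc', h1, h2, h3⟩ := Finset.two_lt_card.1
      (show 2 < (Finset.univ.erase v).card by
        rw [Finset.card_erase_of_mem (Finset.mem_univ v), Finset.card_univ]; omega)
    rw [Finset.mem_erase] at ha hb hc'
    have t : K.IsNClique 3 {a, b, c} :=
      is3Clique_triple_iff.2 ⟨hc a b h1 ha.1 hb.1, hc a c h2 ha.1 hc'.1, hc b c h3 hb.1 hc'.1⟩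
    obtain ⟨u, w, hw, hl⟩ := is3Clique_iff_exists_cycle_length_three.1 ⟨_, t⟩
    have := hK u w hw
    omega
  obtain ⟨F, h1, h2, -⟩ := two_of_ham (by omega) (hs a b hab hna)
  obtain ⟨c, d, hcd, h⟩ := h2 v
  have key : ∀ w, F.Adj v w → G.Adj v w := fun w hw => (h1 hw).resolve_right fun h' => by
    rcases ((edge_adj _ _ _ _).1 h').1 with ⟨e, -⟩ | ⟨e, -⟩
    exacts [ha e.symm, hb e.symm]
  exact ⟨c, d, hcd, key c ((h c).2 (Or.inl rfl)), key d ((h d).2 (Or.inr rfl))⟩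

end Pool.Agent.P.MP_439f1f_co
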