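import Pool.Agent.P.MP_439f1f_co.B4

/-!
Service without side conditions, the standard ways to serve a pair, and arcs of a reference order.
-/

set_option autoImplicit false

namespace Pool.Agent.P.MP_439f1f_co

open SimpleGraph Sum

variable {S Λ : Type*}

theorem one_le_ncard {α : Type*} [Finite α] {P : α → Prop} {a : α} (h : P a) :
    1 ≤ {a | P a}.ncard := (Set.ncard_pos (Set.toFinite _)).2 ⟨a, h⟩

theorem eq_of_ncard {α : Type*} [Finite α] {P : α → Prop} (h : {a | P a}.ncard ≤ 1) {a b : α}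
    (ha : P a) (hb : P b) : a = b := (Set.ncard_le_one (Set.toFinite _)).1 h a ha b hb

theorem not_of_ncard {α : Type*} [Finite α] {P : α → Prop} (h : {a | P a}.ncard = 0) (a : α) :
    ¬P a := fun ha => by
  have := one_le_ncard ha
  omega

/-- The side conditions of a configuration follow from the load and the connectivity. -/
theorem Cfg.of [Finite S] [Finite Λ] [Nontrivial S] {m : ℕ} {hang : Λ → ℕ → S → Prop}
    {R : S → S → Prop} {Γ : Type*} [Finite Γ] {gl : Γ → Λ} {gi : Γ → ℕ} {x y : Γ → S}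
    {τ η : Λ → S} (lt : ∀ γ, gi γ < m) (inj : ∀ γ δ, gl γ = gl δ → gi γ = gi δ → γ = δ)
    (ht : ∀ L, hang L 0 (τ L)) (hh : ∀ L, hang L m (η L)) (hx : ∀ γ, hang (gl γ) (gi γ) (x γ))
    (hy : ∀ γ, hang (gl γ) (gi γ + 1) (y γ))
    (load : ∀ s, {L | τ L = s}.ncard + {L | η L = s}.ncard + {γ | x γ = s}.ncard +
      {γ | y γ = s}.ncard + {t | R s t}.ncard = 2)
    (conn : ∀ A : Set S, (∀ L, (∀ γ, gl γ ≠ L) → (τ L ∈ A ↔ η L ∈ A)) →
      (∀ γ, (∀ δ, gl δ = gl γ → gi γ ≤ gi δ) → (τ (gl γ) ∈ A ↔ x γ ∈ A)) →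
      (∀ γ, (∀ δ, gl δ = gl γ → gi δ ≤ gi γ) → (y γ ∈ A ↔ η (gl γ) ∈ A)) →
      (∀ γ δ, gl γ = gl δ → gi γ < gi δ → (∀ ε, gl ε = gl γ → gi ε ≤ gi γ ∨ gi δ ≤ gi ε) →
        (y γ ∈ A ↔ x δ ∈ A)) →
      (∀ s t, R s t → s ∈ A → t ∈ A) → ∀ s t, s ∈ A → t ∈ A) :
    Cfg m hang R gl gi x y τ η := by
  refine ⟨lt, inj, ht, hh, hx, hy, fun γ h0 e => ?_, fun γ h0 e => ?_, fun γ δ hl h0 e => ?_, load,
    conn⟩
  · obtain ⟨t, hne⟩ := exists_ne (x γ)
    have h := load (x γ)
    have a1 := one_le_ncard (P := fun L => τ L = x γ) e.symm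
    have a2 := one_le_ncard (P := fun δ => x δ = x γ) rfl
    have b1 := fun L => eq_of_ncard (P := fun L => τ L = x γ) (a := L) (by omega) (hb := e.symm)
    have b2 := fun δ => eq_of_ncard (P := fun δ => x δ = x γ) (a := δ) (by omega) (hb := rfl)
    have b3 := not_of_ncard (P := fun L => η L = x γ) (by omega)
    have b4 := not_of_ncard (P := fun δ => y δ = x γ) (by omega)
    have b5 := not_of_ncard (P := fun t => R (x γ) t) (by omega)
    refine hne (conn {x γ} (fun L hL => iff_of_false (fun h => hL γ (b1 L h).symm) (b3 L))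
      (fun δ hδ => ⟨fun h => ?_, fun h => ?_⟩) (fun δ _ => iff_of_false (b4 δ) (b3 _))
      (fun δ ε _ h1 _ => iff_of_false (b4 δ) fun h => ?_) ?_ (x γ) t rfl)
    · have := hδ γ (b1 _ h).symm
      rw [inj δ γ (b1 _ h) (by omega)]
      rfl
    · rw [b2 δ h]
      exact e.symm
    · rw [b2 ε h] at h1
      omega
    · rintro s t h rfl
      exact (b5 t h).elim
  · obtain ⟨t, hne⟩ := exists_ne (y γ)
    have h := load (y γ)
    have a1 := one_le_ncard (P := fun L => η L = y γ) e.symm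
    have a2 := one_le_ncard (P := fun δ => y δ = y γ) rfl
    have b1 := fun L => eq_of_ncard (P := fun L => η L = y γ) (a := L) (by omega) (hb := e.symm)
    have b2 := fun δ => eq_of_ncard (P := fun δ => y δ = y γ) (a := δ) (by omega) (hb := rfl)
    have b3 := not_of_ncard (P := fun L => τ L = y γ) (by omega)
    have b4 := not_of_ncard (P := fun δ => x δ = y γ) (by omega)
    have b5 := not_of_ncard (P := fun t => R (y γ) t) (by omega)
    refine hne (conn {y γ} (fun L hL => iff_of_false (b3 L) fun h => hL γ (b1 L h).symm)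
      (fun δ _ => iff_of_false (b3 _) (b4 δ)) (fun δ hδ => ⟨fun h => ?_, fun h => ?_⟩)
      (fun δ ε _ h1 _ => iff_of_false (fun h => ?_) (b4 ε)) ?_ (y γ) t rfl)
    · rw [b2 δ h]
      exact e.symm
    · have := hδ γ (b1 _ h).symm
      have := lt δ
      rw [inj δ γ (b1 _ h) (by omega)]
      rfl
    · have := lt ε
      rw [b2 δ h] at h1
      omega
    · rintro s t h rfl
      exact (b5 t h).elim
  · obtain ⟨t, hne⟩ := exists_ne (y γ)
    have h := load (y γ)
    have a1 := one_le_ncard (P := fun δ => x δ = y γ) e.symm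
    have a2 := one_le_ncard (P := fun δ => y δ = y γ) rfl
    have b1 := fun ε => eq_of_ncard (P := fun δ => x δ = y γ) (a := ε) (by omega) (hb := e.symm)
    have b2 := fun δ => eq_of_ncard (P := fun δ => y δ = y γ) (a := δ) (by omega) (hb := rfl)
    have b3 := not_of_ncard (P := fun L => τ L = y γ) (by omega)
    have b4 := not_of_ncard (P := fun L => η L = y γ) (by omega)
    have b5 := not_of_ncard (P := fun t => R (y γ) t) (by omega)
    refine hne (conn {y γ} (fun L _ => iff_of_false (b3 L) (b4 L))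
      (fun ε hε => iff_of_false (b3 _) fun h => ?_) (fun ε hε => iff_of_false (fun h => ?_) (b4 _))
      (fun ε ζ h1 h2 h3 => ⟨fun h => ?_, fun h => ?_⟩) ?_ (y γ) t rfl)
    · obtain rfl := b1 ε h
      have := hε γ hl
      omega
    · obtain rfl := b2 ε h
      have := hε δ hl.symm
      omega
    · obtain rfl := b2 ε h
      have := h3 δ hl.symm
      rw [inj ζ δ (h1.symm.trans hl) (by omega)]
      exact e.symm
    · obtain rfl := b1 ζ h
      have := h3 γ (hl.trans h1.symm)
      rw [inj ε γ (h1.trans hl.symm) (by omega)]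
      rfl
    · rintro s t h rfl
      exact (b5 t h).elim

open Classical in
/-- The ends of the lines go to admissible hubs; every hub holds two ends, except that `x` and `y`
hold one end less. -/
structure Ends (m : ℕ) (hang : Λ → ℕ → S → Prop) (x y : S) (τ η : Λ → S) : Prop where
  ht : ∀ L, hang L 0 (τ L)
  hh : ∀ L, hang L m (η L)
  load : ∀ s, {L | τ L = s}.ncard + {L | η L = s}.ncard + (if x = s then 1 else 0) +
    (if y = s then 1 else 0) = 2

/-- there is a hamiltonian path between the hubs `x` and `y` -/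
def Pth (m : ℕ) (hang : Λ → ℕ → S → Prop) (x y : S) : Prop :=
  ∃ τ η, Ends m hang x y τ η ∧
    ∀ A : Set S, (∀ L, τ L ∈ A ↔ η L ∈ A) → (x ∈ A ↔ y ∈ A) → ∀ s t, s ∈ A → t ∈ A

/-- a gap of `L0` whose lower vertex goes to `x` and whose upper vertex goes to `y` closes a
hamiltonian cycle -/
def Cut (m : ℕ) (hang : Λ → ℕ → S → Prop) (L0 : Λ) (x y : S) : Prop :=
  ∃ τ η, Ends m hang x y τ η ∧
    ∀ A : Set S, (∀ L, L ≠ L0 → (τ L ∈ A ↔ η L ∈ A)) → (τ L0 ∈ A ↔ x ∈ A) →
      (y ∈ A ↔ η L0 ∈ A) → ∀ s t, s ∈ A → t ∈ A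

section
variable {m : ℕ} {hang hang' : Λ → ℕ → S → Prop} {x y : S} {τ η : Λ → S} {L0 : Λ}

theorem Ends.symm (h : Ends m hang x y τ η) : Ends m hang y x τ η :=
  ⟨h.ht, h.hh, fun s => by have := h.load s; omega⟩

theorem Ends.mono (h : Ends m hang x y τ η) (e : ∀ L i s, hang L i s → hang' L i s) :
    Ends m hang' x y τ η := ⟨fun L => e _ _ _ (h.ht L), fun L => e _ _ _ (h.hh L), h.load⟩

theorem Pth.symm (h : Pth m hang x y) : Pth m hang y x :=
  let ⟨τ, η, h1, h2⟩ := h
  ⟨τ, η, h1.symm, fun A a b => h2 A a b.symm⟩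

theorem Cut.mono (h : Cut m hang L0 x y) (e : ∀ L i s, hang L i s → hang' L i s) :
    Cut m hang' L0 x y :=
  let ⟨τ, η, h1, h2⟩ := h
  ⟨τ, η, h1.mono e, h2⟩

theorem Cfg1.cut {i : ℕ} (c : Cfg1 m hang L0 i x y τ η) : Cut m hang L0 x y :=
  ⟨τ, η, ⟨c.ht, c.hh, c.load⟩, c.conn⟩

variable [Fintype S] [Fintype Λ] [DecidableEq S] [DecidableEq Λ]

/-- Non-hamiltonicity: no gap closes a cycle. -/
theorem not_ham_of_cut [Nonempty Λ] (hm : 1 ≤ m) (hc : Fintype.card S = Fintype.card Λ + 1)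
    (h : ∀ L i x y, i < m → hang L i x → hang L (i + 1) y → ¬Cut m hang L x y) :
    ¬(HL m hang).IsHamiltonian :=
  not_ham hm hc fun L i x y _ _ c => h L i x y c.lt c.hx c.hy c.cut

theorem Cut.ham [Nontrivial S] (h : Cut m hang L0 x y) {i : ℕ} (hi : i < m) (hx : hang L0 i x)
    (hy : hang L0 (i + 1) y) : (HL m hang).IsHamiltonian := by
  obtain ⟨τ, η, h1, h2⟩ := h
  have : Nonempty Λ := ⟨L0⟩
  refine Cfg.ham (by omega) (Cfg.of (Γ := Unit) (gl := fun _ => L0) (gi := fun _ => i)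
    (x := fun _ => x) (y := fun _ => y) (fun _ => hi) (fun _ _ _ _ => rfl) h1.ht h1.hh
    (fun _ => hx) (fun _ => hy) (fun s => ?_) fun A a1 a2 a3 _ _ => ?_)
  · rw [ncard_unit, ncard_unit, h1.load s]
    simp
  · exact h2 A (fun L h => a1 L fun _ e => h e.symm) (a2 () fun _ _ => le_rfl)
      (a3 () fun _ _ => le_rfl)

theorem Pth.serve (hm : 1 ≤ m) (h : Pth m hang x y) (hxy : x ≠ y) :
    (HL m hang ⊔ edge (inl x) (inl y)).IsHamiltonian :=
  let ⟨τ, η, h1, h2⟩ := h
  serve_hh hm hxy τ η h1.ht h1.hh (fun s => by convert h1.load s) h2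

/-- a hub `h` and a vertex `p`, general form: some gap closes a cycle once `p` hangs on `h` -/
theorem serve_hub [Nontrivial S] {h : S} {p : Λ × Fin (m + 1)} {i : ℕ} (hi : i < m)
    (hx : hang L0 i x ∨ (L0 = p.1 ∧ i = p.2 ∧ x = h))
    (hy : hang L0 (i + 1) y ∨ (L0 = p.1 ∧ i + 1 = p.2 ∧ y = h))
    (c : Cut m (fun L j s => hang L j s ∨ (L = p.1 ∧ j = p.2 ∧ s = h)) L0 x y) :
    (HL m hang ⊔ edge (inl h) (inr p)).IsHamiltonian := by
  refine (c.ham hi hx hy).mono ?_
  rintro (s | q) (t | r) hh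
  · exact hh.elim
  · refine hh.imp id ?_
    rintro ⟨h1, h2, rfl⟩
    exact (edge_adj _ _ _ _).2 ⟨Or.inl ⟨rfl, by rw [Prod.ext h1 (Fin.ext h2)]⟩, by simp⟩
  · refine hh.imp id ?_
    rintro ⟨h1, h2, rfl⟩
    exact (edge_adj _ _ _ _).2 ⟨Or.inr ⟨by rw [Prod.ext h1 (Fin.ext h2)], rfl⟩, by simp⟩
  · exact Or.inl hh

/-- a hub and a vertex, through the gap above the vertex -/
theorem serve_hub_up [Nontrivial S] {p : Λ × Fin (m + 1)} (hi : (p.2 : ℕ) < m)
    (hy : hang p.1 (p.2 + 1) y) (c : Cut m hang p.1 x y) :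
    (HL m hang ⊔ edge (inl x) (inr p)).IsHamiltonian :=
  serve_hub hi (Or.inr ⟨rfl, rfl, rfl⟩) (Or.inl hy) (c.mono fun _ _ _ => Or.inl)

/-- a hub and a vertex, through the gap below the vertex -/
theorem serve_hub_down [Nontrivial S] {p : Λ × Fin (m + 1)} {i : ℕ} (hi : i + 1 = p.2)
    (hx : hang p.1 i x) (c : Cut m hang p.1 x y) :
    (HL m hang ⊔ edge (inl y) (inr p)).IsHamiltonian :=
  serve_hub (by have := p.2.isLt; omega) (Or.inl hx) (Or.inr ⟨rfl, hi, rfl⟩)
    (c.mono fun _ _ _ => Or.inl)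

/-- Two vertices, general form with two gaps.  The end vertex at the gap `k` is the vertex below
the gap if `s k = false` and the vertex above it if `s k = true`; the other vertex at the gap goes
to the hub `z k`; `none` stands for the new edge. -/
theorem serve_two (l : Bool → Λ) (i : Bool → ℕ) (s : Bool → Bool) (z : Bool → S)
    (p : Bool → Λ × Fin (m + 1)) (hp1 : ∀ k, (p k).1 = l k)
    (hp2 : ∀ k, ((p k).2 : ℕ) = cond (s k) (i k + 1) (i k)) (hi : ∀ k, i k < m)
    (hne : l false = l true → i false ≠ i true) (hpq : p false ≠ p true)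
    (hn : ¬(HL m hang).Adj (inr (p false)) (inr (p true)))
    (hz : ∀ k, hang (l k) (cond (s k) (i k) (i k + 1)) (z k))
    (e : Ends m hang (z false) (z true) τ η)
    (conn : ∀ A : Set (Option S), (∀ L, (∀ k, l k ≠ L) → (some (τ L) ∈ A ↔ some (η L) ∈ A)) →
      (∀ k, (∀ j, l j = l k → i k ≤ i j) →
        (some (τ (l k)) ∈ A ↔ cond (s k) (some (z k)) none ∈ A)) →
      (∀ k, (∀ j, l j = l k → i j ≤ i k) →
        (cond (s k) none (some (z k)) ∈ A ↔ some (η (l k)) ∈ A)) →
      (∀ k j, l k = l j → i k < i j →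
        (cond (s k) none (some (z k)) ∈ A ↔ cond (s j) (some (z j)) none ∈ A)) →
      ∀ a b, a ∈ A → b ∈ A) :
    (HL m hang ⊔ edge (inr (p false)) (inr (p true))).IsHamiltonian := by
  have : Nonempty S := ⟨z false⟩
  have hO : ∀ k, hangO hang (p false) (p true) (l k) (cond (s k) (i k + 1) (i k)) none := by
    rintro (_ | _)
    · exact Or.inl ⟨(hp1 _).symm, (hp2 _).symm⟩
    · exact Or.inr ⟨(hp1 _).symm, (hp2 _).symm⟩
  refine serve_pp (by have := hi false; omega) hpq hn (Cfg.of (Γ := Bool) (gl := l) (gi := i)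
    (x := fun k => cond (s k) (some (z k)) none) (y := fun k => cond (s k) none (some (z k)))
    (τ := fun L => some (τ L)) (η := fun L => some (η L)) hi ?_ e.ht e.hh (fun k => ?_)
    (fun k => ?_) ?_ fun A a1 a2 a3 a4 _ => conn A a1 a2 a3 fun k j h1 h2 => a4 k j h1 h2 ?_)
  · rintro (_ | _) (_ | _) h1 h2
    exacts [rfl, absurd h2 (hne h1), absurd h2.symm (hne h1.symm), rfl]
  · have h1 := hz k
    have h2 := hO k
    cases h : s k <;> rw [h] at h1 h2
    exacts [h2, h1]
  · have h1 := hz k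
    have h2 := hO k
    cases h : s k <;> rw [h] at h1 h2
    exacts [h1, h2]
  · rintro (_ | t)
    · rw [ncard_bool, ncard_bool]
      cases s false <;> cases s true <;> simp
    · have := e.load t
      rw [ncard_bool, ncard_bool]
      cases s false <;> cases s true <;> simp <;> split_ifs at this ⊢ <;> omega
  · intro ε _
    cases k <;> cases j <;> cases ε <;> simp at h2 ⊢

omit [Fintype S] [Fintype Λ] [DecidableEq S] [DecidableEq Λ] in
theorem all_opt {A : Set (Option S)} {a : S} (h0 : some a ∈ A ↔ none ∈ A)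
    (h : ∀ s t, some s ∈ A → some t ∈ A) : ∀ a b, a ∈ A → b ∈ A := by
  rintro (_ | s) (_ | t) hs
  exacts [hs, h _ _ (h0.2 hs), h0.1 (h _ _ hs), h _ _ hs]

/-- Two vertices on different lines; `E k false` is the hub at the tail and `E k true` the hub at
the head of the line `l k`. -/
theorem serve_diff (l : Bool → Λ) (i : Bool → ℕ) (s : Bool → Bool) (z : Bool → S)
    (p : Bool → Λ × Fin (m + 1)) (hp1 : ∀ k, (p k).1 = l k)
    (hp2 : ∀ k, ((p k).2 : ℕ) = cond (s k) (i k + 1) (i k)) (hi : ∀ k, i k < m)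
    (hl : l false ≠ l true) (hz : ∀ k, hang (l k) (cond (s k) (i k) (i k + 1)) (z k))
    (e : Ends m hang (z false) (z true) τ η)
    (conn : ∀ A : Set S, (∀ L, (∀ k, l k ≠ L) → (τ L ∈ A ↔ η L ∈ A)) →
      (∀ k, z k ∈ A ↔ cond (s k) (τ (l k)) (η (l k)) ∈ A) →
      (cond (s false) (η (l false)) (τ (l false)) ∈ A ↔
        cond (s true) (η (l true)) (τ (l true)) ∈ A) → ∀ a b, a ∈ A → b ∈ A) :
    (HL m hang ⊔ edge (inr (p false)) (inr (p true))).IsHamiltonian := by
  have hl' : (p false).1 ≠ (p true).1 := by rwa [hp1, hp1]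
  have same : ∀ k j, l j = l k → j = k := by
    rintro (_ | _) (_ | _) h
    exacts [rfl, absurd h.symm hl, absurd h hl, rfl]
  refine serve_two l i s z p hp1 hp2 hi (fun h => absurd h hl) (fun h => hl' (by rw [h]))
    (fun h => hl' h.1) hz e fun A a1 a2 a3 _ => ?_
  have b2 := fun k => a2 k fun j h => by rw [same k j h]
  have b3 := fun k => a3 k fun j h => by rw [same k j h]
  have c1 : ∀ k, some (cond (s k) (η (l k)) (τ (l k))) ∈ A ↔ none ∈ A := fun k => by
    have h1 := b2 k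
    have h2 := b3 k
    cases h : s k <;> rw [h] at h1 h2
    exacts [h1, h2.symm]
  refine all_opt (c1 false) (conn {t | some t ∈ A} a1 (fun k => ?_) ((c1 false).trans (c1 true).symm))
  have h1 := b2 k
  have h2 := b3 k
  cases h : s k <;> rw [h] at h1 h2
  exacts [h2, h1.symm]

/-- Two vertices on one line, gaps `i false < i true`. -/
theorem serve_same (i : Bool → ℕ) (s : Bool → Bool) (z : Bool → S) (q : Bool → Fin (m + 1))
    (hq : ∀ k, (q k : ℕ) = cond (s k) (i k + 1) (i k)) (hlt : i false < i true) (hi : i true < m)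
    (far : (q false : ℕ) + 2 ≤ q true) (hz : ∀ k, hang L0 (cond (s k) (i k) (i k + 1)) (z k))
    (e : Ends m hang (z false) (z true) τ η)
    (conn : ∀ A : Set (Option S), (∀ L, L ≠ L0 → (some (τ L) ∈ A ↔ some (η L) ∈ A)) →
      (some (τ L0) ∈ A ↔ cond (s false) (some (z false)) none ∈ A) →
      (cond (s false) none (some (z false)) ∈ A ↔ cond (s true) (some (z true)) none ∈ A) →
      (cond (s true) none (some (z true)) ∈ A ↔ some (η L0) ∈ A) → ∀ a b, a ∈ A → b ∈ A) :
    (HL m hang ⊔ edge (inr (L0, q false)) (inr (L0, q true))).IsHamiltonian := by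
  refine serve_two (fun _ => L0) i s z (fun k => (L0, q k)) (fun _ => rfl) hq ?_
    (fun _ => hlt.ne) (fun h => ?_) (fun h => ?_) hz e fun A a1 a2 a3 a4 =>
      conn A (fun L h => a1 L fun _ => h.symm) (a2 false ?_) (a4 false true rfl hlt) (a3 true ?_)
  · rintro (_ | _)
    exacts [hlt.trans hi, hi]
  · have : q false = q true := congrArg Prod.snd h
    rw [this] at far
    omega
  · have := h.2
    simp only at this
    omega
  · rintro (_ | _) -
    exacts [le_rfl, hlt.le]
  · rintro (_ | _) -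
    exacts [hlt.le, le_rfl]

/-- one line, the inner segment is cut out -/
theorem serve_in {a b : Fin (m + 1)} {j : ℕ} (hb : (b : ℕ) = j + 1) (far : (a : ℕ) + 2 ≤ b)
    (hx : hang L0 (a + 1) x) (hy : hang L0 j y) (h : Pth m hang x y) :
    (HL m hang ⊔ edge (inr (L0, a)) (inr (L0, b))).IsHamiltonian := by
  obtain ⟨τ, η, h1, h2⟩ := h
  have := b.isLt
  refine serve_same (fun k => cond k j a) id (fun k => cond k y x) (fun k => cond k b a)
    (by rintro (_ | _); exacts [rfl, hb]) (show (a : ℕ) < j by omega) (show j < m by omega) far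
    (by rintro (_ | _); exacts [hx, hy]) h1 fun A a1 a2 a3 a4 => ?_
  refine all_opt a2 (h2 {t | some t ∈ A} (fun L => ?_) a3)
  by_cases e : L = L0
  · rw [e]
    exact a2.trans a4
  · exact a1 L e

/-- one line, both vertices above their gaps -/
theorem serve_up {a b : Fin (m + 1)} {i j : ℕ} (ha : (a : ℕ) = i + 1) (hb : (b : ℕ) = j + 1)
    (far : (a : ℕ) + 2 ≤ b) (hx : hang L0 i x) (hy : hang L0 j y) (h : Cut m hang L0 x y) :
    (HL m hang ⊔ edge (inr (L0, a)) (inr (L0, b))).IsHamiltonian := by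
  obtain ⟨τ, η, h1, h2⟩ := h
  have := b.isLt
  exact serve_same (fun k => cond k j i) (fun _ => true) (fun k => cond k y x)
    (fun k => cond k b a) (by rintro (_ | _); exacts [ha, hb]) (show i < j by omega)
    (show j < m by omega) far (by rintro (_ | _); exacts [hx, hy]) h1 fun A a1 a2 a3 a4 =>
      all_opt a3.symm (h2 {t | some t ∈ A} a1 a2 (a3.symm.trans a4))

/-- one line, both vertices below their gaps -/
theorem serve_down {a b : Fin (m + 1)} (hb : (b : ℕ) < m) (far : (a : ℕ) + 2 ≤ b)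
    (hx : hang L0 (a + 1) x) (hy : hang L0 (b + 1) y) (h : Cut m hang L0 x y) :
    (HL m hang ⊔ edge (inr (L0, a)) (inr (L0, b))).IsHamiltonian := by
  obtain ⟨τ, η, h1, h2⟩ := h
  exact serve_same (fun k => cond k b a) (fun _ => false) (fun k => cond k y x)
    (fun k => cond k b a) (by rintro (_ | _) <;> rfl) (show (a : ℕ) < b by omega) hb far
    (by rintro (_ | _); exacts [hx, hy]) h1 fun A a1 a2 a3 a4 =>
      all_opt a2 (h2 {t | some t ∈ A} a1 (a2.trans a3.symm) a4)

end

end Pool.Agent.P.MP_439f1f_co
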