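import Pool.Agent.P.MP_439f1f_co.B5

/-!
Arcs of a reference order, and moves of line ends.
-/

set_option autoImplicit false

namespace Pool.Agent.P.MP_439f1f_co

open Function

/-! ### arcs -/

section arc
variable {α : Type*}

/-- Arc lemma for a sequence. -/
theorem arc_seq {P : ℕ → Prop} {a b : ℕ} (hab : a ≤ b)
    (h : ∀ k, a ≤ k → k < b → (P k ↔ P (k + 1))) : P a ↔ P b := by
  induction b, hab using Nat.le_induction with
  | base => exact Iff.rfl
  | succ b hab ih => exact (ih fun k h1 h2 => h k h1 (by omega)).trans (h b hab (by omega))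

/-- Arc lemma for a finite linear order: a property that passes from every element of `[a, b)` to
the next element passes from `a` to `b`. -/
theorem arc_order [Finite α] [LinearOrder α] {P : α → Prop} {a b : α} (hab : a ≤ b)
    (h : ∀ u v, a ≤ u → u < b → u ⋖ v → (P u ↔ P v)) : P a ↔ P b := by
  induction b using WellFoundedLT.induction with
  | ind b ih =>
    rcases hab.eq_or_lt with rfl | hlt
    · exact Iff.rfl
    · have := Fintype.ofFinite α
      have := Fintype.toLocallyFiniteOrder (α := α)
      obtain ⟨u, h1, h2⟩ := exists_le_covBy_of_lt hlt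
      exact (ih u h2.lt h1 fun x y a1 a2 a3 => h x y a1 (a2.trans h2.lt) a3).trans
        (h u b h1 h2.lt h2)

/-- `v` is the next element of `T` after `u` for the key `κ` -/
def Nx {β : Type*} [LinearOrder β] (T : Set α) (κ : α → β) (u v : α) : Prop :=
  u ∈ T ∧ v ∈ T ∧ κ u < κ v ∧ ∀ w ∈ T, κ w ≤ κ u ∨ κ v ≤ κ w

/-- Arc lemma for a set that is ordered by an injective key. -/
theorem arc_key [Finite α] {β : Type*} [LinearOrder β] {T : Set α} {κ : α → β}
    (hκ : Set.InjOn κ T) {P : α → Prop} {a b : α} (ha : a ∈ T) (hb : b ∈ T) (hab : κ a ≤ κ b)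
    (h : ∀ u v, κ a ≤ κ u → κ u < κ b → Nx T κ u v → (P u ↔ P v)) : P a ↔ P b := by
  let _ : LinearOrder T := LinearOrder.lift' (fun x => κ x) fun x y e => Subtype.ext (hκ x.2 y.2 e)
  refine arc_order (α := T) (P := fun x => P x) (a := ⟨a, ha⟩) (b := ⟨b, hb⟩) hab
    fun u v h1 h2 h3 => h u v h1 h2 ⟨u.2, v.2, h3.lt, fun w hw => ?_⟩
  by_contra hc
  push Not at hc
  exact h3.2 (c := ⟨w, hw⟩) hc.1 hc.2

/-- The arc through the end of the order: from `a` up to the last element, then from the first
element up to `b`. -/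
theorem arc_wrap [Finite α] {β : Type*} [LinearOrder β] {T : Set α} {κ : α → β}
    (hκ : Set.InjOn κ T) {P : α → Prop} {a b lo hi : α} (ha : a ∈ T) (hb : b ∈ T) (hlo : lo ∈ T)
    (hhi : hi ∈ T) (h1 : κ a ≤ κ hi) (h2 : κ lo ≤ κ b) (hw : P hi ↔ P lo)
    (h : ∀ u v, κ a ≤ κ u ∨ κ u < κ b → Nx T κ u v → (P u ↔ P v)) : P a ↔ P b :=
  (arc_key hκ ha hhi h1 fun u v a1 _ => h u v (Or.inl a1)).trans
    (hw.trans (arc_key hκ hlo hb h2 fun u v _ a2 => h u v (Or.inr a2)))

/-- An interval of the order is closed under all steps except those from its last element and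
into its first element. -/
theorem Nx.interval {β : Type*} [LinearOrder β] {T : Set α} {κ : α → β} {u v a b : α}
    (h : Nx T κ u v) (ha : a ∈ T) (hb : b ∈ T) (h1 : κ u ≠ κ a) (h2 : κ u ≠ κ b) :
    κ a < κ u ∧ κ u ≤ κ b ↔ κ a < κ v ∧ κ v ≤ κ b := by
  obtain ⟨-, -, h3, h4⟩ := h
  have a1 := h4 a ha
  have a2 := h4 b hb
  grind

theorem Nx.right_unique {β : Type*} [LinearOrder β] {T : Set α} {κ : α → β}
    (hκ : Set.InjOn κ T) {u v w : α} (h : Nx T κ u v) (h' : Nx T κ u w) : v = w := by
  refine hκ h.2.1 h'.2.1 (le_antisymm ?_ ?_)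
  · exact (h.2.2.2 w h'.2.1).resolve_left (not_le.2 h'.2.2.1)
  · exact (h'.2.2.2 v h.2.1).resolve_left (not_le.2 h.2.2.1)

theorem Nx.left_unique {β : Type*} [LinearOrder β] {T : Set α} {κ : α → β}
    (hκ : Set.InjOn κ T) {u v w : α} (h : Nx T κ u w) (h' : Nx T κ v w) : u = v := by
  refine hκ h.1 h'.1 (le_antisymm ?_ ?_)
  · exact (h'.2.2.2 u h.1).resolve_right (not_le.2 h.2.2.1)
  · exact (h.2.2.2 v h'.1).resolve_right (not_le.2 h'.2.2.1)

end arc

/-! ### moves -/

section move
variable {S Λ : Type*} [Finite Λ] [DecidableEq Λ] {m : ℕ} {hang : Λ → ℕ → S → Prop} {x y : S}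
  {τ η : Λ → S}

open Classical in
theorem ncard_update (τ : Λ → S) (L : Λ) (x s : S) :
    {K | update τ L x K = s}.ncard + (if τ L = s then 1 else 0) =
      {K | τ K = s}.ncard + if x = s then 1 else 0 := by
  have key : ∀ σ : Λ → S, {K | σ K = s}.ncard =
      {K | K ≠ L ∧ σ K = s}.ncard + if σ L = s then 1 else 0 := fun σ => by
    split_ifs with h
    · rw [← Set.ncard_insert_of_notMem (a := L) (by simp)]
      congr 1
      ext K
      by_cases e : K = L <;> simp [e, h]
    · rw [add_zero]
      congr 1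
      ext K
      by_cases e : K = L <;> simp [e, h]
  have e : {K | K ≠ L ∧ update τ L x K = s} = {K | K ≠ L ∧ τ K = s} := by
    ext K
    exact and_congr_right fun h => by rw [update_of_ne h]
  rw [key τ, key (update τ L x), e, update_self]
  omega

/-- the hub `x` takes the tail of `L` -/
theorem Ends.tail (h : Ends m hang x y τ η) {L : Λ} (hx : hang L 0 x) :
    Ends m hang (τ L) y (update τ L x) η where
  ht K := by
    by_cases e : K = L
    · rwa [e, update_self]
    · rw [update_of_ne e]
      exact h.ht K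
  hh := h.hh
  load s := by
    have h1 := h.load s
    have h2 := ncard_update τ L x s
    omega

/-- the hub `x` takes the head of `L` -/
theorem Ends.head (h : Ends m hang x y τ η) {L : Λ} (hx : hang L m x) :
    Ends m hang (η L) y τ (update η L x) where
  ht := h.ht
  hh K := by
    by_cases e : K = L
    · rwa [e, update_self]
    · rw [update_of_ne e]
      exact h.hh K
  load s := by
    have h1 := h.load s
    have h2 := ncard_update η L x s
    omega

omit [DecidableEq Λ] in
open Classical in
/-- Balance of the tails that moved with respect to a reference `τ0` with the same heads. -/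
theorem Ends.balance {c c' : S} {τ0 : Λ → S} (h : Ends m hang x y τ η)
    (h0 : Ends m hang c c' τ0 η) (s : S) :
    {L | τ L = s ∧ τ0 L ≠ s}.ncard + (if x = s then 1 else 0) + (if y = s then 1 else 0) =
      {L | τ0 L = s ∧ τ L ≠ s}.ncard + (if c = s then 1 else 0) + if c' = s then 1 else 0 := by
  have key : ∀ σ σ' : Λ → S, {L | σ L = s}.ncard =
      {L | σ L = s ∧ σ' L = s}.ncard + {L | σ L = s ∧ σ' L ≠ s}.ncard := fun σ σ' => by
    rw [← Set.ncard_union_eq (Set.disjoint_left.2 fun L a b => b.2 a.2)]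
    congr 1
    ext L
    by_cases e : σ' L = s <;> simp [e]
  have h1 := h.load s
  have h2 := h0.load s
  rw [key τ τ0] at h1
  rw [key τ0 τ] at h2
  simp only [and_comm (a := τ0 _ = s) (b := τ _ = s)] at h2
  omega

end move

end Pool.Agent.P.MP_439f1f_co
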