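import Pool.Agent.P.MP_439f1f_co.Sy1

/-!
Flow conservation for the moved ends.
-/

set_option autoImplicit false

namespace Pool.Agent.P.MP_439f1f_co

open Function

/-! ### two maps with fibres of the same size -/

section fibre
variable {S E : Type*} [Finite E] {cur ref : E → S}

theorem ncard_split (P Q : E → Prop) :
    {e | P e}.ncard = {e | P e ∧ Q e}.ncard + {e | P e ∧ ¬Q e}.ncard := by
  rw [← Set.ncard_union_eq (Set.disjoint_left.2 fun e a b => b.2 a.2)]
  congr 1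
  ext e
  by_cases h : Q e <;> simp [h]

/-- There is a permutation that fixes the unmoved elements and sends an element that sat at `s` to
an element that sits at `s` now. -/
theorem exists_flow_perm (h : ∀ s, {e | cur e = s}.ncard = {e | ref e = s}.ncard) :
    ∃ π : Equiv.Perm E, (∀ e, cur (π e) = ref e) ∧ (∀ e, cur e = ref e → π e = e) ∧
      ∀ e, cur e ≠ ref e → cur (π e) ≠ ref (π e) := by
  classical
  have key : ∀ s, Nonempty ({e : {e // cur e ≠ ref e} // ref e = s} ≃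
      {e : {e // cur e ≠ ref e} // cur e = s}) := fun s => by
    rw [← Finite.card_eq]
    have a1 := ncard_split (fun e => cur e = s) fun e => ref e = s
    have a2 := ncard_split (fun e => ref e = s) fun e => cur e = s
    simp only [and_comm (a := ref _ = s) (b := cur _ = s)] at a2
    have a3 : {e | ref e = s ∧ ¬cur e = s}.ncard = {e | cur e = s ∧ ¬ref e = s}.ncard := by
      have := h s
      omega
    have b1 : Nat.card {e : {e // cur e ≠ ref e} // ref e = s} =
        {e | ref e = s ∧ ¬cur e = s}.ncard :=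
      Nat.card_congr ⟨fun e => ⟨e.1.1, e.2, fun h => e.1.2 (h.trans e.2.symm)⟩,
        fun e => ⟨⟨e.1, fun h => e.2.2 (h.trans e.2.1)⟩, e.2.1⟩, fun _ => rfl, fun _ => rfl⟩
    have b2 : Nat.card {e : {e // cur e ≠ ref e} // cur e = s} =
        {e | cur e = s ∧ ¬ref e = s}.ncard :=
      Nat.card_congr ⟨fun e => ⟨e.1.1, e.2, fun h => e.1.2 (e.2.trans h.symm)⟩,
        fun e => ⟨⟨e.1, fun h => e.2.2 (h.symm.trans e.2.1)⟩, e.2.1⟩, fun _ => rfl, fun _ => rfl⟩
    rw [b1, b2, a3]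
  let π0 : Equiv.Perm {e // cur e ≠ ref e} :=
    Equiv.ofFiberEquiv (f := fun e => ref e.1) (g := fun e => cur e.1) fun s => (key s).some
  have h0 : ∀ e, cur (π0 e).1 = ref e.1 := fun e =>
    Equiv.ofFiberEquiv_map (f := fun e : {e // cur e ≠ ref e} => ref e.1)
      (g := fun e : {e // cur e ≠ ref e} => cur e.1) (fun s => (key s).some) e
  refine ⟨Equiv.Perm.ofSubtype π0, fun e => ?_, fun e he => ?_, fun e he => ?_⟩
  · by_cases he : cur e = ref e
    · rw [Equiv.Perm.ofSubtype_apply_of_not_mem π0 (a := e) (not_not.2 he), he]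
    · rw [Equiv.Perm.ofSubtype_apply_of_mem π0 he]
      exact h0 _
  · exact Equiv.Perm.ofSubtype_apply_of_not_mem _ (not_not.2 he)
  · rw [Equiv.Perm.ofSubtype_apply_of_mem π0 he]
    exact (π0 ⟨e, he⟩).2

/-- As many elements enter a set as leave it. -/
theorem flow_set (h : ∀ s, {e | cur e = s}.ncard = {e | ref e = s}.ncard) (U : Set S) :
    {e | cur e ∈ U ∧ ref e ∉ U}.ncard = {e | ref e ∈ U ∧ cur e ∉ U}.ncard := by
  obtain ⟨π, h1, -⟩ := exists_flow_perm h
  have a0 : {e | cur e ∈ U}.ncard = {e | ref e ∈ U}.ncard := by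
    rw [← Set.ncard_image_of_injective {e | ref e ∈ U} π.injective]
    congr 1
    ext e
    obtain ⟨e, rfl⟩ := π.surjective e
    simp [h1]
  have a1 := ncard_split (fun e => cur e ∈ U) fun e => ref e ∈ U
  have a2 := ncard_split (fun e => ref e ∈ U) fun e => cur e ∈ U
  simp only [and_comm (a := ref _ ∈ U) (b := cur _ ∈ U)] at a2
  omega

theorem one_of_ncard {P Q : E → Prop} (h : {e | P e}.ncard = {e | Q e}.ncard) {a : E}
    (ha : P a) : ∃ b, Q b := by
  have := one_le_ncard ha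
  exact (Set.ncard_pos (Set.toFinite {e | Q e})).1 (by omega)

theorem two_of_ncard {P Q : E → Prop} (h : {e | P e}.ncard = {e | Q e}.ncard) {a a' : E}
    (ha : P a) (ha' : P a') (hne : a ≠ a') : ∃ b b', Q b ∧ Q b' ∧ b ≠ b' := by
  have : 1 < {e | P e}.ncard := (Set.one_lt_ncard (Set.toFinite _)).2 ⟨a, ha, a', ha', hne⟩
  obtain ⟨b, hb, b', hb', h'⟩ := (Set.one_lt_ncard (Set.toFinite {e | Q e})).1 (by omega)
  exact ⟨b, b', hb, hb', h'⟩

theorem three_of_ncard {P Q : E → Prop} (h : {e | P e}.ncard = {e | Q e}.ncard) {a a' a'' : E}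
    (ha : P a) (ha' : P a') (ha'' : P a'') (h1 : a ≠ a') (h2 : a ≠ a'') (h3 : a' ≠ a'') :
    ∃ b b' b'', Q b ∧ Q b' ∧ Q b'' ∧ b ≠ b' ∧ b ≠ b'' ∧ b' ≠ b'' := by
  have : 2 < {e | P e}.ncard :=
    (Set.two_lt_ncard (Set.toFinite _)).2 ⟨a, ha, a', ha', a'', ha'', h1, h2, h3⟩
  obtain ⟨b, hb, b', hb', b'', hb'', h'⟩ :=
    (Set.two_lt_ncard (Set.toFinite {e | Q e})).1 (by omega)
  exact ⟨b, b', b'', hb, hb', hb'', h'⟩

end fibre

/-! ### ends and tokens -/

/-- tails, heads, and the two vertices at the gap -/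
inductive En (Λ : Type*)
  | tl (L : Λ)
  | hd (L : Λ)
  | lo
  | hi

variable {S Λ : Type*}

/-- the hub at which an end sits -/
def En.hub (x y : S) (τ η : Λ → S) : En Λ → S
  | .tl L => τ L
  | .hd L => η L
  | .lo => x
  | .hi => y

@[simp] theorem En.hub_tl (x y : S) (τ η : Λ → S) (L : Λ) : (En.tl L).hub x y τ η = τ L := rfl
@[simp] theorem En.hub_hd (x y : S) (τ η : Λ → S) (L : Λ) : (En.hd L).hub x y τ η = η L := rfl
@[simp] theorem En.hub_lo (x y : S) (τ η : Λ → S) : (En.lo : En Λ).hub x y τ η = x := rfl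
@[simp] theorem En.hub_hi (x y : S) (τ η : Λ → S) : (En.hi : En Λ).hub x y τ η = y := rfl

/-- coding of the ends by sums -/
def En.equiv (Λ : Type*) : (Λ ⊕ Λ) ⊕ Bool ≃ En Λ where
  toFun := Sum.elim (Sum.elim .tl .hd) fun b => cond b .hi .lo
  invFun
    | .tl L => .inl (.inl L)
    | .hd L => .inl (.inr L)
    | .lo => .inr false
    | .hi => .inr true
  left_inv := by rintro ((_ | _) | (_ | _)) <;> rfl
  right_inv := by rintro (_ | _ | _ | _) <;> rfl

instance [Finite Λ] : Finite (En Λ) := Finite.of_equiv _ (En.equiv Λ)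

open Classical in
theorem En.ncard [Finite Λ] (P : En Λ → Prop) :
    {e | P e}.ncard = {L | P (.tl L)}.ncard + {L | P (.hd L)}.ncard +
      (if P .lo then 1 else 0) + if P .hi then 1 else 0 := by
  have : {e | P e}.ncard = {z | P (En.equiv Λ z)}.ncard := by
    rw [← Set.ncard_image_of_injective _ (En.equiv Λ).injective]
    congr 1
    ext e
    obtain ⟨e, rfl⟩ := (En.equiv Λ).surjective e
    simp
  rw [this, ncard_sum, ncard_sum, ncard_bool, ← add_assoc]
  rfl

variable [Finite Λ] {m : ℕ} {hang hang0 : Λ → ℕ → S → Prop} {x y c c' : S} {τ η τ0 η0 : Λ → S}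

theorem Ends.two (e : Ends m hang x y τ η) (s : S) :
    {a : En Λ | a.hub x y τ η = s}.ncard = 2 := by
  rw [En.ncard, ← e.load s]
  rfl

/-- **Flow over a set of hubs**, ends and tokens together. -/
theorem Ends.flowE (e : Ends m hang x y τ η) (e0 : Ends m hang0 c c' τ0 η0) (U : Set S) :
    {a : En Λ | a.hub x y τ η ∈ U ∧ a.hub c c' τ0 η0 ∉ U}.ncard =
      {a : En Λ | a.hub c c' τ0 η0 ∈ U ∧ a.hub x y τ η ∉ U}.ncard :=
  flow_set (fun s => (e.two s).trans (e0.two s).symm) U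

/-- **Walks.**  The moved ends and tokens are permuted: `π a` now sits where `a` sat. -/
theorem Ends.walks (e : Ends m hang x y τ η) (e0 : Ends m hang0 c c' τ0 η0) :
    ∃ π : Equiv.Perm (En Λ), (∀ a, (π a).hub x y τ η = a.hub c c' τ0 η0) ∧
      (∀ a, a.hub x y τ η = a.hub c c' τ0 η0 → π a = a) ∧
      ∀ a, a.hub x y τ η ≠ a.hub c c' τ0 η0 → (π a).hub x y τ η ≠ (π a).hub c c' τ0 η0 :=
  exists_flow_perm fun s => (e.two s).trans (e0.two s).symm

open Classical in
/-- **Flow over a set of hubs.** -/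
theorem Ends.flow_set (e : Ends m hang x y τ η) (e0 : Ends m hang0 c c' τ0 η0) (U : Set S) :
    {L | τ L ∈ U ∧ τ0 L ∉ U}.ncard + {L | η L ∈ U ∧ η0 L ∉ U}.ncard +
        (if x ∈ U then 1 else 0) + (if y ∈ U then 1 else 0) =
      {L | τ0 L ∈ U ∧ τ L ∉ U}.ncard + {L | η0 L ∈ U ∧ η L ∉ U}.ncard +
        (if c ∈ U then 1 else 0) + if c' ∈ U then 1 else 0 := by
  have := e.flowE e0 U
  rw [En.ncard, En.ncard] at this
  simp only [En.hub_tl, En.hub_hd, En.hub_lo, En.hub_hi] at this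
  by_cases a1 : x ∈ U <;> by_cases a2 : y ∈ U <;> by_cases a3 : c ∈ U <;> by_cases a4 : c' ∈ U <;>
    simp only [a1, a2, a3, a4, not_true, not_false_iff, and_self, and_false, false_and, if_true,
      if_false] at this ⊢ <;> omega

open Classical in
/-- **Flow at a hub.** -/
theorem Ends.flow (e : Ends m hang x y τ η) (e0 : Ends m hang0 c c' τ0 η0) (s : S) :
    {L | τ L = s ∧ τ0 L ≠ s}.ncard + {L | η L = s ∧ η0 L ≠ s}.ncard +
        (if x = s then 1 else 0) + (if y = s then 1 else 0) =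
      {L | τ0 L = s ∧ τ L ≠ s}.ncard + {L | η0 L = s ∧ η L ≠ s}.ncard +
        (if c = s then 1 else 0) + if c' = s then 1 else 0 := by
  convert e.flow_set e0 {s} <;> simp

/-- something entered `U`, so something left -/
theorem Ends.out_of_in (e : Ends m hang x y τ η) (e0 : Ends m hang0 c c' τ0 η0) {U : Set S}
    (a : En Λ) (h1 : a.hub x y τ η ∈ U) (h2 : a.hub c c' τ0 η0 ∉ U) :
    ∃ b : En Λ, b.hub c c' τ0 η0 ∈ U ∧ b.hub x y τ η ∉ U :=
  one_of_ncard (e.flowE e0 U) ⟨h1, h2⟩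

/-- something left `U`, so something entered -/
theorem Ends.in_of_out (e : Ends m hang x y τ η) (e0 : Ends m hang0 c c' τ0 η0) {U : Set S}
    (a : En Λ) (h1 : a.hub c c' τ0 η0 ∈ U) (h2 : a.hub x y τ η ∉ U) :
    ∃ b : En Λ, b.hub x y τ η ∈ U ∧ b.hub c c' τ0 η0 ∉ U :=
  e0.out_of_in e a h1 h2

/-- two entered `U`, so two left -/
theorem Ends.out_of_in2 (e : Ends m hang x y τ η) (e0 : Ends m hang0 c c' τ0 η0) {U : Set S}
    (a a' : En Λ) (hne : a ≠ a') (h1 : a.hub x y τ η ∈ U) (h2 : a.hub c c' τ0 η0 ∉ U)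
    (h3 : a'.hub x y τ η ∈ U) (h4 : a'.hub c c' τ0 η0 ∉ U) :
    ∃ b b' : En Λ, (b.hub c c' τ0 η0 ∈ U ∧ b.hub x y τ η ∉ U) ∧
      (b'.hub c c' τ0 η0 ∈ U ∧ b'.hub x y τ η ∉ U) ∧ b ≠ b' :=
  two_of_ncard (e.flowE e0 U) ⟨h1, h2⟩ ⟨h3, h4⟩ hne

/-- no hub holds three ends -/
theorem Ends.not_three (e : Ends m hang x y τ η) {a b d : En Λ} (h1 : a ≠ b) (h2 : a ≠ d)
    (h3 : b ≠ d) (e1 : b.hub x y τ η = a.hub x y τ η) (e2 : d.hub x y τ η = a.hub x y τ η) :
    False := by
  have : 2 < {z : En Λ | z.hub x y τ η = a.hub x y τ η}.ncard :=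
    (Set.two_lt_ncard (Set.toFinite _)).2 ⟨a, rfl, b, e1, d, e2, h1, h2, h3⟩
  rw [e.two] at this
  omega

/-- every end has exactly one mate at its hub -/
theorem Ends.mate (e : Ends m hang x y τ η) (a : En Λ) :
    ∃ b : En Λ, b ≠ a ∧ b.hub x y τ η = a.hub x y τ η := by
  obtain ⟨u, hu, v, hv, h⟩ := (Set.one_lt_ncard (Set.toFinite
    {z : En Λ | z.hub x y τ η = a.hub x y τ η})).1 (by rw [e.two]; omega)
  by_cases h' : u = a
  · exact ⟨v, fun h2 => h (h'.trans h2.symm), hv⟩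
  · exact ⟨u, h', hu⟩

/-- every hub holds two ends -/
theorem Ends.pair (e : Ends m hang x y τ η) (s : S) :
    ∃ a b : En Λ, a ≠ b ∧ ∀ z : En Λ, z.hub x y τ η = s ↔ z = a ∨ z = b := by
  obtain ⟨a, b, h1, h2⟩ := Set.ncard_eq_two.1 (e.two s)
  exact ⟨a, b, h1, fun z => by simpa using Set.ext_iff.1 h2 z⟩

/-- A hub that keeps two ends `a`, `b` holds no other end. -/
theorem Ends.full (e : Ends m hang x y τ η) {s : S} {a b d : En Λ} (hab : a ≠ b)
    (ha : a.hub x y τ η = s) (hb : b.hub x y τ η = s) (hd : d.hub x y τ η = s) :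
    d = a ∨ d = b := by
  by_contra h
  push Not at h
  exact e.not_three hab h.1.symm h.2.symm (hb.trans ha.symm) (hd.trans ha.symm)

omit [Finite Λ] in
/-- The reference configuration: `ln` numbers the lines by the hubs other than `c`, and the heads
go to the images under a permutation of these hubs. -/
theorem ends_ref (ln : S → Λ) (hb : Set.BijOn ln {c}ᶜ Set.univ) (nx : S → S)
    (hn : Set.BijOn nx {c}ᶜ {c}ᶜ) (h1 : ∀ u, u ≠ c → τ0 (ln u) = u)
    (h2 : ∀ u, u ≠ c → η0 (ln u) = nx u) (ht : ∀ L, hang L 0 (τ0 L)) (hh : ∀ L, hang L m (η0 L)) :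
    Ends m hang c c τ0 η0 := by
  refine ⟨ht, hh, fun s => ?_⟩
  have sur : ∀ L, ∃ u, u ≠ c ∧ ln u = L := fun L => hb.surjOn (Set.mem_univ L)
  by_cases hs : c = s
  · subst hs
    have a1 : {L | τ0 L = c} = ∅ := Set.eq_empty_of_forall_notMem fun L hL => by
      obtain ⟨u, hu, rfl⟩ := sur L
      exact hu ((h1 u hu).symm.trans hL)
    have a2 : {L | η0 L = c} = ∅ := Set.eq_empty_of_forall_notMem fun L hL => by
      obtain ⟨u, hu, rfl⟩ := sur L
      exact hn.mapsTo hu ((h2 u hu).symm.trans hL)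
    simp [a1, a2]
  · obtain ⟨p, hp, rfl⟩ := hn.surjOn (show s ∈ ({c}ᶜ : Set S) from Ne.symm hs)
    have a1 : {L | τ0 L = nx p} = {ln (nx p)} := by
      ext L
      obtain ⟨u, hu, rfl⟩ := sur L
      simp only [Set.mem_ofPred_eq, h1 u hu, Set.mem_singleton_iff]
      exact ⟨fun h => h ▸ rfl, fun h => hb.injOn hu (Ne.symm hs) h⟩
    have a2 : {L | η0 L = nx p} = {ln p} := by
      ext L
      obtain ⟨u, hu, rfl⟩ := sur L
      simp only [Set.mem_ofPred_eq, h2 u hu, Set.mem_singleton_iff]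
      exact ⟨fun h => hn.injOn hu hp h ▸ rfl, fun h => hb.injOn hu hp h ▸ rfl⟩
    simp [a1, a2, hs]

end Pool.Agent.P.MP_439f1f_co
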