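import Pool.Agent.P.MP_439f1f_co.B7

/-!
Cyclic orders, units, excised pieces, and closed intervals.
-/

set_option autoImplicit false

namespace Pool.Agent.P.MP_439f1f_co

open Function

section cyc
variable {α β : Type*} [LinearOrder β] {D : Set α} {nx : α → α} {pos : α → β}

/-- `nx` is the cyclic successor on `D` for the injective key `pos` -/
structure Cyc (D : Set α) (nx : α → α) (pos : α → β) : Prop where
  inj : Set.InjOn pos D
  mem : ∀ u ∈ D, nx u ∈ D
  succ : ∀ u ∈ D, ∀ w ∈ D, pos u < pos w → pos u < pos (nx u) ∧ pos (nx u) ≤ pos w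
  wrap : ∀ u ∈ D, (∀ w ∈ D, pos w ≤ pos u) → ∀ w ∈ D, pos (nx u) ≤ pos w

theorem Cyc.congr (o : Cyc D nx pos) {nx' : α → α} (h : ∀ u ∈ D, nx' u = nx u) :
    Cyc D nx' pos :=
  ⟨o.inj, fun u hu => h u hu ▸ o.mem u hu, fun u hu => h u hu ▸ o.succ u hu,
    fun u hu => h u hu ▸ o.wrap u hu⟩

/-- the step is either upwards to the next element, or from the last to the first element -/
theorem Cyc.cases (o : Cyc D nx pos) {u : α} (hu : u ∈ D) :
    (pos u < pos (nx u) ∧ ∀ w ∈ D, pos w ≤ pos u ∨ pos (nx u) ≤ pos w) ∨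
      ((∀ w ∈ D, pos w ≤ pos u) ∧ ∀ w ∈ D, pos (nx u) ≤ pos w) := by
  by_cases h : ∀ w ∈ D, pos w ≤ pos u
  · exact Or.inr ⟨h, o.wrap u hu h⟩
  · push Not at h
    obtain ⟨w, hw, h⟩ := h
    exact Or.inl ⟨(o.succ u hu w hw h).1, fun v hv =>
      (le_or_gt _ _).imp id fun h => (o.succ u hu v hv h).2⟩

theorem Cyc.of_nx (o : Cyc D nx pos) {u v : α} (h : Nx D pos u v) : nx u = v := by
  obtain ⟨hu, hv, h1, h2⟩ := h
  have a := o.succ u hu v hv h1
  exact o.inj (o.mem u hu) hv (le_antisymm a.2 ((h2 _ (o.mem u hu)).resolve_left (not_le.2 a.1)))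

theorem Cyc.to_nx (o : Cyc D nx pos) {u : α} (hu : u ∈ D) (h : pos u < pos (nx u)) :
    Nx D pos u (nx u) :=
  ⟨hu, o.mem u hu, h, fun w hw => (le_or_gt _ _).imp id fun h => (o.succ u hu w hw h).2⟩

/-- from the last to the first element -/
theorem Cyc.last (o : Cyc D nx pos) {u v : α} (hu : u ∈ D) (hv : v ∈ D)
    (h1 : ∀ w ∈ D, pos w ≤ pos u) (h2 : ∀ w ∈ D, pos v ≤ pos w) : nx u = v :=
  o.inj (o.mem u hu) hv (le_antisymm (o.wrap u hu h1 v hv) (h2 _ (o.mem u hu)))

theorem Cyc.injOn (o : Cyc D nx pos) : Set.InjOn nx D := by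
  intro u hu v hv e
  refine o.inj hu hv ?_
  rcases o.cases hu with ⟨a1, a2⟩ | ⟨a1, a2⟩ <;> rcases o.cases hv with ⟨b1, b2⟩ | ⟨b1, b2⟩
  · have := a2 v hv
    have := b2 u hu
    grind
  · have := b2 u hu
    grind
  · have := a2 v hv
    grind
  · exact le_antisymm (b1 u hu) (a1 v hv)

theorem Cyc.bijOn [Finite α] (o : Cyc D nx pos) : Set.BijOn nx D D :=
  ((Set.toFinite D).injOn_iff_bijOn_of_mapsTo o.mem).1 o.injOn

/-- Every injective key on a finite set has a cyclic successor. -/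
theorem exists_cyc [Finite α] (h : Set.InjOn pos D) : ∃ nx, Cyc D nx pos := by
  have key : ∀ u, ∃ v, u ∈ D → v ∈ D ∧
      (∀ w ∈ D, pos u < pos w → pos u < pos v ∧ pos v ≤ pos w) ∧
      ((∀ w ∈ D, pos w ≤ pos u) → ∀ w ∈ D, pos v ≤ pos w) := fun u => by
    by_cases hu : u ∈ D
    · by_cases hm : ∀ w ∈ D, pos w ≤ pos u
      · obtain ⟨v, hv, h1⟩ := Set.exists_min_image D pos (Set.toFinite _) ⟨u, hu⟩
        exact ⟨v, fun _ => ⟨hv, fun w hw h => absurd (hm w hw) (not_le.2 h), fun _ => h1⟩⟩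
      · obtain ⟨v, hv, h1⟩ := Set.exists_min_image {w | w ∈ D ∧ pos u < pos w} pos
          (Set.toFinite _) (by push Not at hm; exact hm)
        exact ⟨v, fun _ => ⟨hv.1, fun w hw h => ⟨hv.2, h1 w ⟨hw, h⟩⟩, fun h => absurd h hm⟩⟩
    · exact ⟨u, fun h => absurd h hu⟩
  choose nx hn using key
  exact ⟨nx, h, fun u hu => (hn u hu).1, fun u hu => (hn u hu).2.1, fun u hu => (hn u hu).2.2⟩

theorem exists_cyc_perm [Finite α] (h : Injective pos) :
    ∃ σ : Equiv.Perm α, Cyc Set.univ σ pos := by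
  obtain ⟨nx, o⟩ := exists_cyc (D := Set.univ) h.injOn
  exact ⟨Equiv.ofBijective nx (Set.bijOn_univ.1 o.bijOn), o⟩

/-- **Units.**  The elements are grouped in units `un u` with an index `ix u`; the step goes to the
next index, or from the last element of a unit to the first element of the next unit. -/
theorem Cyc.units {Y γ : Type*} [LinearOrder γ] {Z : Set Y} {σ : Y → Y} {key : Y → β}
    (o : Cyc Z σ key) (un : α → Y) (ix : α → γ) (hun : ∀ u ∈ D, un u ∈ Z)
    (sur : ∀ z ∈ Z, ∃ u ∈ D, un u = z)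
    (inj : ∀ u ∈ D, ∀ v ∈ D, un u = un v → ix u = ix v → u = v) (mem : ∀ u ∈ D, nx u ∈ D)
    (step : ∀ u ∈ D, (un (nx u) = un u ∧ ix u < ix (nx u) ∧
        ∀ w ∈ D, un w = un u → ix w ≤ ix u ∨ ix (nx u) ≤ ix w) ∨
      (un (nx u) = σ (un u) ∧ (∀ w ∈ D, un w = un u → ix w ≤ ix u) ∧
        ∀ w ∈ D, un w = un (nx u) → ix (nx u) ≤ ix w)) :
    Cyc D nx fun u => toLex (key (un u), ix u) := by
  have ke : ∀ u ∈ D, ∀ v ∈ D, key (un u) = key (un v) → un u = un v := fun u hu v hv =>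
    o.inj (hun u hu) (hun v hv)
  refine ⟨fun u hu v hv e => ?_, mem, fun u hu w hw h => ?_, fun u hu h w hw => ?_⟩
  · have := toLex.injective e
    exact inj u hu v hv (ke u hu v hv (congrArg Prod.fst this)) (congrArg Prod.snd this)
  · simp only [Prod.Lex.toLex_lt_toLex, Prod.Lex.toLex_le_toLex] at h ⊢
    have a1 := ke u hu w hw
    have a2 := ke _ (mem u hu) w hw
    rcases step u hu with ⟨b1, b2, b3⟩ | ⟨b1, b2, b3⟩
    · have := b3 w hw
      grind
    · have := b2 w hw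
      have := b3 w hw
      have := o.succ _ (hun u hu) _ (hun w hw)
      grind
  · simp only [Prod.Lex.toLex_le_toLex] at h ⊢
    rcases step u hu with ⟨b1, b2, b3⟩ | ⟨b1, b2, b3⟩
    · have := h _ (mem u hu)
      grind
    · have c1 : ∀ z ∈ Z, key z ≤ key (un u) := fun z hz => by
        obtain ⟨v, hv, rfl⟩ := sur z hz
        exact (h v hv).elim le_of_lt fun h => h.1.le
      have := o.wrap _ (hun u hu) c1 _ (hun w hw)
      have := ke _ (mem u hu) w hw
      have := b3 w hw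
      grind

/-- Units with natural numbers as indices. -/
theorem Cyc.units_nat {Y : Type*} {Z : Set Y} {σ : Y → Y} {key : Y → β}
    (o : Cyc Z σ key) (un : α → Y) (ix : α → ℕ) (len : Y → ℕ) (hun : ∀ u ∈ D, un u ∈ Z)
    (sur : ∀ z ∈ Z, ∃ u ∈ D, un u = z)
    (inj : ∀ u ∈ D, ∀ v ∈ D, un u = un v → ix u = ix v → u = v) (mem : ∀ u ∈ D, nx u ∈ D)
    (le : ∀ u ∈ D, ix u ≤ len (un u))
    (step : ∀ u ∈ D, (un (nx u) = un u ∧ ix (nx u) = ix u + 1) ∨
      (un (nx u) = σ (un u) ∧ ix u = len (un u) ∧ ix (nx u) = 0)) :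
    Cyc D nx fun u => toLex (key (un u), ix u) :=
  o.units un ix hun sur inj mem fun u hu => (step u hu).imp
    (fun h => ⟨h.1, by omega, fun _ _ _ => by omega⟩)
    fun h => ⟨h.1, fun w hw e => by have := le w hw; rw [e] at this; omega, fun _ _ _ => by omega⟩

/-! ### intervals -/

/-- an interval is closed under the steps, except for the step from its last element -/
theorem Cyc.step (o : Cyc D nx pos) {a : β} {q u : α} (hq : q ∈ D) (hu : u ∈ D)
    (h1 : a < pos u) (h2 : pos u ≤ pos q) (hne : u ≠ q) :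
    a < pos (nx u) ∧ pos (nx u) ≤ pos q :=
  have := o.succ u hu q hq (lt_of_le_of_ne h2 fun e => hne (o.inj hu hq e))
  ⟨h1.trans this.1, this.2⟩

/-- the same for an interval through the end of the order -/
theorem Cyc.step_wrap (o : Cyc D nx pos) {a : β} {q u : α} (hq : q ∈ D) (hu : u ∈ D)
    (h : a < pos u ∨ pos u ≤ pos q) (hne : u ≠ q) : a < pos (nx u) ∨ pos (nx u) ≤ pos q := by
  have h0 : pos u ≠ pos q := fun e => hne (o.inj hu hq e)
  rcases o.cases hu with ⟨a1, a2⟩ | ⟨-, a2⟩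
  · have := a2 q hq
    grind
  · exact Or.inr (a2 q hq)

/-- the step into an interval -/
theorem Cyc.step_in (o : Cyc D nx pos) {p q : α} (hp : p ∈ D) (hq : q ∈ D) (h : pos p < pos q) :
    pos p < pos (nx p) ∧ pos (nx p) ≤ pos q := o.succ p hp q hq h

theorem Cyc.step_in_wrap (o : Cyc D nx pos) {p q : α} (hp : p ∈ D) (hq : q ∈ D) :
    pos p < pos (nx p) ∨ pos (nx p) ≤ pos q :=
  (o.cases hp).imp And.left fun h => h.2 q hq

/-- a step crosses only the boundary at its own start, and at the end of the order -/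
theorem Cyc.side (o : Cyc D nx pos) {u z : α} (hu : u ∈ D) (hz : z ∈ D) (hne : u ≠ z)
    (h : pos u < pos (nx u)) : pos z < pos u ↔ pos z < pos (nx u) := by
  have h0 : pos u ≠ pos z := fun e => hne (o.inj hu hz e)
  have := (o.to_nx hu h).2.2.2 z hz
  grind

/-! ### arcs -/

theorem Cyc.arc [Finite α] (o : Cyc D nx pos) {P : α → Prop} {a b : α} (ha : a ∈ D) (hb : b ∈ D)
    (hab : pos a ≤ pos b)
    (h : ∀ u ∈ D, pos a ≤ pos u → pos u < pos b → (P u ↔ P (nx u))) : P a ↔ P b :=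
  arc_key o.inj ha hb hab fun u _ h1 h2 h3 => o.of_nx h3 ▸ h u h3.1 h1 h2

theorem Cyc.arc_wrap [Finite α] (o : Cyc D nx pos) {P : α → Prop} {a b : α} (ha : a ∈ D)
    (hb : b ∈ D) (h : ∀ u ∈ D, pos a ≤ pos u ∨ pos u < pos b → (P u ↔ P (nx u))) :
    P a ↔ P b := by
  obtain ⟨lo, l1, l2⟩ := Set.exists_min_image D pos (Set.toFinite _) ⟨a, ha⟩
  obtain ⟨hi, m1, m2⟩ := Set.exists_max_image D pos (Set.toFinite _) ⟨a, ha⟩
  exact (o.arc ha m1 (m2 a ha) fun u hu h1 _ => h u hu (Or.inl h1)).trans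
    ((o.last m1 l1 m2 l2 ▸ h hi m1 (Or.inl (m2 a ha))).trans
      (o.arc l1 hb (l2 b hb) fun u hu _ h2 => h u hu (Or.inr h2)))

/-- the arc that starts after the cut `p` and ends at the cut `q` -/
theorem Cyc.seg [Finite α] (o : Cyc D nx pos) {P : α → Prop} {p q : α} (hp : p ∈ D) (hq : q ∈ D)
    (hpq : pos p < pos q)
    (h : ∀ u ∈ D, pos p < pos u → pos u < pos q → (P u ↔ P (nx u))) : P (nx p) ↔ P q :=
  have a := o.succ p hp q hq hpq
  o.arc (o.mem p hp) hq a.2 fun u hu h1 h2 => h u hu (a.1.trans_le h1) h2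

/-- the same through the end of the order -/
theorem Cyc.seg_wrap [Finite α] (o : Cyc D nx pos) {P : α → Prop} {p q : α} (hp : p ∈ D)
    (hq : q ∈ D) (h : ∀ u ∈ D, pos p < pos u ∨ pos u < pos q → (P u ↔ P (nx u))) :
    P (nx p) ↔ P q := by
  rcases o.cases hp with ⟨a1, -⟩ | ⟨-, a2⟩
  · exact o.arc_wrap (o.mem p hp) hq fun u hu h1 => h u hu (h1.imp a1.trans_le id)
  · exact o.arc (o.mem p hp) hq (a2 q hq) fun u hu _ h2 => h u hu (Or.inr h2)

/-- Every element is joined to the next cut: if `P` passes along all steps that do not start in the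
nonempty set `C` of cuts, then `P` at `u` is `P` at some cut. -/
theorem Cyc.to_cut [Finite α] (o : Cyc D nx pos) {P : α → Prop} {C : Set α} (hC : C ⊆ D)
    (hne : C.Nonempty) (h : ∀ u ∈ D, u ∉ C → (P u ↔ P (nx u))) {u : α} (hu : u ∈ D) :
    ∃ z ∈ C, (P u ↔ P z) := by
  by_cases h1 : ∃ z ∈ C, pos u ≤ pos z
  · obtain ⟨z, hz, h2⟩ := Set.exists_min_image {z | z ∈ C ∧ pos u ≤ pos z} pos
      (Set.toFinite _) h1
    exact ⟨z, hz.1, o.arc hu (hC hz.1) hz.2 fun v hv a b => h v hv fun hc =>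
      absurd (h2 v ⟨hc, a⟩) (not_le.2 b)⟩
  · obtain ⟨z, hz, h2⟩ := Set.exists_min_image C pos (Set.toFinite _) hne
    refine ⟨z, hz, o.arc_wrap hu (hC hz) fun v hv a => h v hv fun hc => ?_⟩
    exact a.elim (fun a => h1 ⟨v, hc, a⟩) fun a => absurd (h2 v hc) (not_le.2 a)

/-- one cut does not disconnect -/
theorem Cyc.all [Finite α] (o : Cyc D nx pos) {P : α → Prop} {z : α} (hz : z ∈ D)
    (h : ∀ u ∈ D, u ≠ z → (P u ↔ P (nx u))) {u : α} (hu : u ∈ D) : P u ↔ P z := by
  obtain ⟨_, rfl, h'⟩ := o.to_cut (C := {z}) (by rintro _ rfl; exact hz) ⟨z, rfl⟩ h hu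
  exact h'

/-! ### excised pieces -/

/-- The pieces `(r, en r]`, `r ∈ R`: they do not cross and no piece ends at the start of another
one. -/
structure Pieces (D : Set α) (pos : α → β) (R : Set α) (en : α → α) : Prop where
  sub : R ⊆ D
  mem : ∀ r ∈ R, en r ∈ D
  lt : ∀ r ∈ R, pos r < pos (en r)
  ne : ∀ r ∈ R, en r ∉ R
  lam : ∀ r ∈ R, ∀ s ∈ R, pos r < pos s → pos s < pos (en r) → pos (en s) ≤ pos (en r)

/-- the elements outside all pieces -/
def Out (D : Set α) (pos : α → β) (R : Set α) (en : α → α) : Set α :=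
  {u | u ∈ D ∧ ∀ r ∈ R, ¬(pos r < pos u ∧ pos u ≤ pos (en r))}

open Classical in
/-- the element whose step is used: the end of the piece that starts at `u`, or `u` -/
noncomputable def jump (R : Set α) (en : α → α) (u : α) : α := if u ∈ R then en u else u

variable {R : Set α} {en : α → α}

theorem jump_of_mem {u : α} (h : u ∈ R) : jump R en u = en u := if_pos h

theorem jump_of_not_mem {u : α} (h : u ∉ R) : jump R en u = u := if_neg h

theorem Pieces.jump_mem (k : Pieces D pos R en) {u : α} (hu : u ∈ D) : jump R en u ∈ D := by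
  by_cases h : u ∈ R
  · rw [jump_of_mem h]; exact k.mem u h
  · rwa [jump_of_not_mem h]

theorem Pieces.jump_not_mem (k : Pieces D pos R en) (u : α) : jump R en u ∉ R := by
  by_cases h : u ∈ R
  · rw [jump_of_mem h]; exact k.ne u h
  · rwa [jump_of_not_mem h]

theorem Pieces.le_jump (k : Pieces D pos R en) (u : α) : pos u ≤ pos (jump R en u) := by
  by_cases h : u ∈ R
  · rw [jump_of_mem h]; exact (k.lt u h).le
  · rw [jump_of_not_mem h]

/-- no element outside the pieces is jumped over -/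
theorem jump_lt {u w : α} (hw : w ∈ Out D pos R en) (h : pos u < pos w) :
    pos (jump R en u) < pos w := by
  by_cases hu : u ∈ R
  · rw [jump_of_mem hu]
    exact not_le.1 fun h' => hw.2 u hu ⟨h, h'⟩
  · rwa [jump_of_not_mem hu]

theorem Pieces.jump_inj (k : Pieces D pos R en) (hi : Set.InjOn pos D) :
    Set.InjOn (jump R en) (Out D pos R en) := by
  intro u hu v hv e
  refine hi hu.1 hv.1 ?_
  have a1 := k.le_jump u
  have a2 := k.le_jump v
  have a3 := jump_lt (u := u) hv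
  have a4 := jump_lt (u := v) hu
  grind

/-- **Excision.**  Outside the pieces the order is again cyclic; the step from the start of a piece
is the step from its end. -/
theorem Cyc.excise (o : Cyc D nx pos) (k : Pieces D pos R en) :
    Cyc (Out D pos R en) (fun u => nx (jump R en u)) pos := by
  have mem : ∀ u ∈ Out D pos R en, nx (jump R en u) ∈ Out D pos R en := by
    intro u hu
    have j := k.jump_mem hu.1
    refine ⟨o.mem _ j, fun r hr h => ?_⟩
    have h0 : pos r ≠ pos (jump R en u) := fun e =>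
      k.jump_not_mem u (o.inj (k.sub hr) j e ▸ hr)
    rcases o.cases j with ⟨a1, a2⟩ | ⟨-, a2⟩
    · have a3 := a2 r (k.sub hr)
      have a4 := hu.2 r hr
      by_cases hR : u ∈ R
      · rw [jump_of_mem hR] at *
        have a5 := k.lam u hR r hr
        have a6 := k.lt u hR
        have a7 : pos u = pos r → pos (en u) = pos (en r) := fun e => by
          rw [o.inj hu.1 (k.sub hr) e]
        rcases lt_trichotomy (pos u) (pos r) with b | b | b <;> grind
      · rw [jump_of_not_mem hR] at *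
        grind
    · exact absurd (a2 r (k.sub hr)) (not_le.2 h.1)
  refine ⟨o.inj.mono fun _ h => h.1, mem, fun u hu w hw h => ?_, fun u hu h w hw => ?_⟩
  · have := o.succ _ (k.jump_mem hu.1) w hw.1 (jump_lt hw h)
    exact ⟨(k.le_jump u).trans_lt this.1, this.2⟩
  · rcases o.cases (k.jump_mem hu.1) with ⟨a1, -⟩ | ⟨-, a2⟩
    · exact absurd (h _ (mem u hu)) (not_le.2 ((k.le_jump u).trans_lt a1))
    · exact a2 w hw.1

/-- Two elements on the same side of all boundaries are excised together. -/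
theorem out_of_side {u v : α} (hu : u ∈ Out D pos R en) (hv : v ∈ D)
    (h : ∀ r ∈ R, (pos r < pos u ↔ pos r < pos v) ∧ (pos (en r) < pos u ↔ pos (en r) < pos v)) :
    v ∈ Out D pos R en :=
  ⟨hv, fun r hr a => hu.2 r hr ⟨(h r hr).1.2 a.1,
    not_lt.1 fun b => absurd ((h r hr).2.1 b) (not_lt.2 a.2)⟩⟩

/-- A block `[lo, hi]` that no piece starts or ends in (`hi` itself is allowed). -/
theorem out_of_block {u v : α} {lo hi : β} (hu : u ∈ Out D pos R en) (hv : v ∈ D)
    (u1 : lo ≤ pos u) (u2 : pos u ≤ hi) (v1 : lo ≤ pos v) (v2 : pos v ≤ hi)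
    (h : ∀ r ∈ R, (pos r < lo ∨ hi ≤ pos r) ∧ (pos (en r) < lo ∨ hi ≤ pos (en r))) :
    v ∈ Out D pos R en :=
  out_of_side hu hv fun r hr => by
    have := h r hr
    grind

/-- inside a piece, everything is joined to the end of the piece -/
theorem Cyc.piece [Finite α] (o : Cyc D nx pos) (k : Pieces D pos R en) {P : α → Prop} {r u : α}
    (hr : r ∈ R) (hu : u ∈ D) (h1 : pos r < pos u) (h2 : pos u ≤ pos (en r))
    (h : ∀ v ∈ D, pos r < pos v → pos v < pos (en r) → (P v ↔ P (nx v))) : P u ↔ P (en r) :=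
  o.arc hu (k.mem r hr) h2 fun v hv a b => h v hv (h1.trans_le a) b

end cyc

/-! ### closed intervals -/

section safe
variable {S Λ β : Type*} [Finite S] [Finite Λ] [LinearOrder β] {D : Set S} {nx : S → S}
  {pos : S → β} {m : ℕ} {hang : Λ → ℕ → S → Prop} {x y : S} {τ η : Λ → S} {L0 : Λ}

/-- A set `T` that is closed under the steps except from `q`; every hub `u` of `T` uses the line
`f u`.  The broken line counts through its lower part. -/
theorem Ends.no_steps_low (e : Ends m hang x y τ η) (c : Cn L0 x y τ η) {T : Set S} {q : S}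
    (hT : T.Nonempty) (step : ∀ u ∈ T, u ≠ q → nx u ∈ T) (f : S → Λ) (hf : Set.InjOn f T)
    (ht : ∀ u ∈ T, τ (f u) = u ∨ τ (f u) ∈ T)
    (hh : ∀ u ∈ T, f u ≠ L0 → (u ≠ q ∧ η (f u) = nx u) ∨ η (f u) ∈ T)
    (h0 : ∀ u ∈ T, f u = L0 → x ∈ T) : False :=
  e.no_low c hT f hf (fun u hu => (ht u hu).elim (fun h => h.symm ▸ hu) id)
    (fun u hu h => (hh u hu h).elim (fun h => h.2.symm ▸ step u hu h.1) id) h0

/-- The same, the broken line counts through its upper part. -/
theorem Ends.no_steps_high (e : Ends m hang x y τ η) (c : Cn L0 x y τ η) {T : Set S} {q : S}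
    (hT : T.Nonempty) (step : ∀ u ∈ T, u ≠ q → nx u ∈ T) (f : S → Λ) (hf : Set.InjOn f T)
    (ht : ∀ u ∈ T, f u ≠ L0 → τ (f u) = u ∨ τ (f u) ∈ T)
    (hh : ∀ u ∈ T, (u ≠ q ∧ η (f u) = nx u) ∨ η (f u) ∈ T)
    (h0 : ∀ u ∈ T, f u = L0 → y ∈ T) : False :=
  e.no_high c hT f hf (fun u hu h => (ht u hu h).elim (fun h => h.symm ▸ hu) id)
    (fun u hu => (hh u hu).elim (fun h => h.2.symm ▸ step u hu h.1) id) h0

/-- the interval `(a, pos q]` of `D` -/
def Itv (D : Set S) (pos : S → β) (a : β) (q : S) : Set S :=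
  {u | u ∈ D ∧ a < pos u ∧ pos u ≤ pos q}

/-- the interval from `a` (excluded) through the end of the order to `q` -/
def Wrp (D : Set S) (pos : S → β) (a : β) (q : S) : Set S :=
  {u | u ∈ D ∧ (a < pos u ∨ pos u ≤ pos q)}

omit [Finite S] in
theorem Cyc.itv (o : Cyc D nx pos) (a : β) {q : S} (hq : q ∈ D) :
    ∀ u ∈ Itv D pos a q, u ≠ q → nx u ∈ Itv D pos a q := fun u hu h =>
  ⟨o.mem u hu.1, o.step hq hu.1 hu.2.1 hu.2.2 h⟩

omit [Finite S] in
theorem Cyc.wrp (o : Cyc D nx pos) (a : β) {q : S} (hq : q ∈ D) :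
    ∀ u ∈ Wrp D pos a q, u ≠ q → nx u ∈ Wrp D pos a q := fun u hu h =>
  ⟨o.mem u hu.1, o.step_wrap hq hu.1 hu.2 h⟩

/-- **Interval minus pieces.**  `T` is a set outside the pieces that is closed under the steps of
the excised order except from `q` (an `Itv` or `Wrp` of `Out D pos R en`, see `Cyc.itv`, `Cyc.wrp`
for `o.excise k`).  The tail at the end of a piece went to the start of the piece (pass pair).
All other ends at hubs of `T` are at their default or stay in `T`. -/
theorem Ends.no_pieces_low (e : Ends m hang x y τ η) (c : Cn L0 x y τ η) (hi : Set.InjOn pos D)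
    {R : Set S} {en : S → S} (k : Pieces D pos R en) {T : Set S} {q : S} (hT : T.Nonempty)
    (sub : T ⊆ Out D pos R en) (step : ∀ u ∈ T, u ≠ q → nx (jump R en u) ∈ T) (ln : S → Λ)
    (hl : Set.InjOn ln D) (pass : ∀ r ∈ R, r ∈ T → τ (ln (en r)) = r)
    (ht : ∀ u ∈ T, u ∉ R → τ (ln u) = u ∨ τ (ln u) ∈ T)
    (hh : ∀ u ∈ T, ∀ v, v = jump R en u → ln v ≠ L0 → (u ≠ q ∧ η (ln v) = nx v) ∨ η (ln v) ∈ T)
    (h0 : ∀ u ∈ T, ln (jump R en u) = L0 → x ∈ T) : False := by
  refine e.no_steps_low c hT step (fun u => ln (jump R en u)) (fun u hu v hv h =>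
    k.jump_inj hi (sub hu) (sub hv) (hl (k.jump_mem (sub hu).1) (k.jump_mem (sub hv).1) h))
    (fun u hu => ?_) (fun u hu => hh u hu _ rfl) h0
  by_cases h : u ∈ R
  · rw [jump_of_mem h]
    exact Or.inl (pass u h hu)
  · rw [jump_of_not_mem h]
    exact ht u hu h

/-- **Interval minus pieces**, upper part of the broken line.  The last hub `q` uses the broken
line instead of its own line. -/
theorem Ends.no_pieces_high (e : Ends m hang x y τ η) (c : Cn L0 x y τ η) (hi : Set.InjOn pos D)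
    {R : Set S} {en : S → S} (k : Pieces D pos R en) {T : Set S} {q : S} (hT : T.Nonempty)
    (sub : T ⊆ Out D pos R en) (step : ∀ u ∈ T, u ≠ q → nx (jump R en u) ∈ T) (ln : S → Λ)
    (hl : Set.InjOn ln D) (pass : ∀ r ∈ R, r ∈ T → r ≠ q → τ (ln (en r)) = r)
    (n0 : ∀ u ∈ T, u ≠ q → ln (jump R en u) ≠ L0)
    (ht : ∀ u ∈ T, u ∉ R → u ≠ q → τ (ln u) = u ∨ τ (ln u) ∈ T)
    (hh : ∀ u ∈ T, ∀ v, v = jump R en u → u ≠ q → η (ln v) = nx v ∨ η (ln v) ∈ T)
    (hy : y ∈ T) (h0 : η L0 ∈ T) : False := by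
  classical
  refine e.no_steps_high c hT step (fun u => if u = q then L0 else ln (jump R en u))
    (fun u hu v hv h => ?_) (fun u hu h => ?_) (fun u hu => ?_) fun _ _ _ => hy
  · by_cases a : u = q <;> by_cases b : v = q <;> simp only [a, b, if_true, if_false] at h
    · rw [a, b]
    · exact absurd h.symm (n0 v hv b)
    · exact absurd h (n0 u hu a)
    · exact k.jump_inj hi (sub hu) (sub hv) (hl (k.jump_mem (sub hu).1) (k.jump_mem (sub hv).1) h)
  · have a : u ≠ q := fun a => h (if_pos a)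
    simp only [a, if_false]
    by_cases h : u ∈ R
    · rw [jump_of_mem h]
      exact Or.inl (pass u h hu a)
    · rw [jump_of_not_mem h]
      exact ht u hu h a
  · by_cases a : u = q
    · exact Or.inr (by simpa only [a, if_true] using h0)
    · simp only [a, if_false]
      exact (hh u hu _ rfl a).imp (fun h => ⟨a, h⟩) id

end safe

end Pool.Agent.P.MP_439f1f_co
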