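import Pool.Agent.P.MP_439f1f_co.B8

/-!
The frame for service: transparent routes and finitely many explicit cuts.
-/

set_option autoImplicit false

namespace Pool.Agent.P.MP_439f1f_co

open Function

section cuts
variable {α β : Type*} [Finite α] [LinearOrder β] {D : Set α} {nx : α → α} {pos : α → β}

/-- the list is in cyclic order: some rotation of it is increasing -/
def CO (pos : α → β) (l : List α) : Prop :=
  ∃ k, (l.rotate k).IsChain fun a b => pos a < pos b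

/-- every member of the list is related to the next one, the last one to the first one -/
def Arcs (r : α → α → Prop) (l : List α) : Prop := Cycle.Chain r (l : Cycle α)

omit [Finite α] in
@[simp] theorem arcs_cons (r : α → α → Prop) (a : α) (l : List α) :
    Arcs r (a :: l) ↔ List.IsChain r (a :: (l ++ [a])) := Iff.rfl

omit [Finite α] in
theorem CO.of_chain {l : List α} (h : l.IsChain fun a b => pos a < pos b) : CO pos l :=
  ⟨0, by simpa using h⟩

omit [Finite α] in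
theorem co_one (a : α) : CO pos [a] := CO.of_chain (by simp)

omit [Finite α] in
theorem co_two {a b : α} (h : pos a ≠ pos b) : CO pos [a, b] :=
  (lt_or_gt_of_ne h).elim (fun h => ⟨0, by simpa using h⟩) fun h => ⟨1, by simpa using h⟩

omit [Finite α] in
theorem co_three {a b d : α} (h : (pos a < pos b ∧ pos b < pos d) ∨
    (pos b < pos d ∧ pos d < pos a) ∨ (pos d < pos a ∧ pos a < pos b)) : CO pos [a, b, d] := by
  rcases h with h | h | h
  exacts [⟨0, by simpa using h⟩, ⟨1, by simpa using h⟩, ⟨2, by simpa using h⟩]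

theorem Cyc.cuts_aux (o : Cyc D nx pos) {P : α → Prop} {f : α} (hf : f ∈ D) :
    ∀ (t : List α) (a : α), (∀ z ∈ a :: t, z ∈ D) → pos f ≤ pos a →
      (a :: t).IsChain (fun a b => pos a < pos b) →
      (∀ u ∈ D, u ∉ t → pos a < pos u ∨ pos u < pos f → (P u ↔ P (nx u))) →
      (a :: (t ++ [f])).IsChain fun a b => (P (nx a) ↔ P b)
  | [], a, hD, _, _, h => by
    simpa using o.seg_wrap (hD a (by simp)) hf fun u hu => h u hu (by simp)
  | b :: t, a, hD, hfa, hc, h => by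
    have hp := List.isChain_iff_pairwise.1 hc
    simp only [List.pairwise_cons, List.mem_cons, forall_eq_or_imp] at hp
    rw [List.cons_append, List.isChain_cons_cons]
    refine ⟨o.seg (hD a (by simp)) (hD b (by simp)) hp.1.1 fun u hu h1 h2 => h u hu ?_ (Or.inl h1),
      o.cuts_aux hf t b (fun z hz => hD z (List.mem_cons_of_mem _ hz)) (hfa.trans hp.1.1.le)
        (List.isChain_cons_cons.1 hc).2 fun u hu h1 h2 => h u hu ?_ (h2.imp hp.1.1.trans id)⟩
    · intro hm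
      rcases List.mem_cons.1 hm with rfl | hm
      exacts [lt_irrefl _ h2, lt_asymm h2 (hp.2.1 u hm)]
    · intro hm
      rcases List.mem_cons.1 hm with rfl | hm
      · have := hp.1.1
        grind
      · exact h1 hm

/-- **Cuts.**  The arcs between consecutive cuts of the list `l`, cyclically. -/
theorem Cyc.cuts (o : Cyc D nx pos) {P : α → Prop} {l : List α} (hl : l ≠ []) (hz : CO pos l)
    (hD : ∀ z ∈ l, z ∈ D) (h : ∀ u ∈ D, u ∉ l → (P u ↔ P (nx u))) :
    Arcs (fun a b => P (nx a) ↔ P b) l ∧ ∀ u ∈ D, ∃ z ∈ l, (P u ↔ P z) := by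
  refine ⟨?_, fun u hu => o.to_cut (C := {z | z ∈ l}) hD (List.exists_mem_of_ne_nil l hl) h hu⟩
  obtain ⟨k, hk⟩ := hz
  have e : (l : Cycle α) = (l.rotate k : List α) := Cycle.coe_eq_coe.2 ⟨k, rfl⟩
  have hm : ∀ z, z ∈ l.rotate k ↔ z ∈ l := fun z => List.mem_rotate
  rw [Arcs, e]
  generalize l.rotate k = l' at hk hm
  rcases l' with _ | ⟨a, t⟩
  · exact Cycle.Chain.nil _
  · refine o.cuts_aux (hD a ((hm a).1 (by simp))) t a (fun z hz => hD z ((hm z).1 hz)) le_rfl hk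
      fun u hu h1 h2 => h u hu fun hu' => ?_
    rcases List.mem_cons.1 ((hm u).2 hu') with rfl | h3
    exacts [h2.elim (lt_irrefl _) (lt_irrefl _), h1 h3]

variable {R R0 : Set α} {en : α → α}

omit [Finite α] in
theorem Pieces.mono (k : Pieces D pos R0 en) (h : R ⊆ R0) : Pieces D pos R en :=
  ⟨h.trans k.sub, fun r hr => k.mem r (h hr), fun r hr => k.lt r (h hr),
    fun r hr a => k.ne r (h hr) (h a), fun r hr s hs => k.lam r (h hr) s (h hs)⟩

omit [Finite α] in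
theorem Out.mono (h : R ⊆ R0) : Out D pos R0 en ⊆ Out D pos R en :=
  fun _ hu => ⟨hu.1, fun r hr => hu.2 r (h hr)⟩

omit [Finite α] in
/-- disjoint pieces -/
theorem Pieces.of_disj (sub : R ⊆ D) (mem : ∀ r ∈ R, en r ∈ D) (lt : ∀ r ∈ R, pos r < pos (en r))
    (dis : ∀ r ∈ R, ∀ s ∈ R, pos r < pos s → pos (en r) < pos s) :
    Pieces D pos R en ∧ R ⊆ Out D pos R en :=
  ⟨⟨sub, mem, lt, fun r hr a => lt_irrefl _ (dis r hr _ a (lt r hr)),
    fun r hr s hs a b => absurd (dis r hr s hs a) (not_lt.2 b.le)⟩,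
    fun s hs => ⟨sub hs, fun r hr a => absurd (dis r hr s hs a.1) (not_lt.2 a.2)⟩⟩

end cuts

section frame
variable {S Λ β : Type*} [LinearOrder β] {D : Set S} {nx : S → S} {pos : S → β} {R : Set S}
  {en up : S → S} {ln : S → Λ} {τ η : Λ → S}

/-- **Frame.**  Disjoint pieces `(r, en r]`; the tail of `r` went to `up r` and the tail of `en r`
went to `r`.  All other ends are at their default, except on the lines used by the cuts in `l`. -/
theorem frame [Finite S] (o : Cyc D nx pos) (k : Pieces D pos R en) (dis : R ⊆ Out D pos R en)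
    {l : List S} (hl : l ≠ []) (hz : CO pos l) (zo : ∀ z ∈ l, z ∈ Out D pos R en)
    (p1 : ∀ r ∈ R, τ (ln r) = up r) (p2 : ∀ r ∈ R, r ∉ l → τ (ln (en r)) = r)
    (hτ : ∀ u ∈ D, u ∉ l → u ∉ R → u ∉ en '' R → τ (ln u) = u)
    (hη : ∀ u ∈ D, (∀ z ∈ l, u ≠ jump R en z) → η (ln u) = nx u) {A : Set S}
    (lk : ∀ u ∈ D, (∀ z ∈ l, u ≠ jump R en z) → (τ (ln u) ∈ A ↔ η (ln u) ∈ A)) :
    Arcs (fun a b => nx (jump R en a) ∈ A ↔ b ∈ A) l ∧ (∀ r ∈ R, up r ∈ A ↔ en r ∈ A) ∧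
      ∀ u ∈ D, (∃ z ∈ l, (u ∈ A ↔ z ∈ A)) ∨ ∃ r ∈ R, (u ∈ A ↔ en r ∈ A) := by
  have c := (o.excise k).cuts (P := (· ∈ A)) hl hz zo fun u hu h => by
    have j := k.jump_mem hu.1
    have h1 : ∀ z ∈ l, jump R en u ≠ jump R en z := fun z hz e =>
      h (k.jump_inj o.inj hu (zo z hz) e ▸ hz)
    have h2 := lk _ j h1
    rw [hη _ j h1] at h2
    by_cases hR : u ∈ R
    · rw [jump_of_mem hR] at h2 ⊢
      rwa [p2 u hR h] at h2
    · rw [jump_of_not_mem hR] at h2 ⊢
      rwa [hτ u hu.1 h hR] at h2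
      rintro ⟨r, hr, rfl⟩
      exact hu.2 r hr ⟨k.lt r hr, le_rfl⟩
  have nj : ∀ r ∈ R, ∀ v, pos r ≤ pos v → pos v < pos (en r) → ∀ z ∈ l, v ≠ jump R en z := by
    rintro r hr _ a b z hz rfl
    have a1 := k.le_jump z
    have a2 := (zo z hz).2 r hr
    rcases lt_trichotomy (pos z) (pos r) with h | h | h
    · exact absurd (jump_lt (dis hr) h) (not_lt.2 a)
    · rw [o.inj (zo z hz).1 (k.sub hr) h, jump_of_mem hr] at b
      exact lt_irrefl _ b
    · exact a2 ⟨h, a1.trans b.le⟩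
  have ins : ∀ r ∈ R, ∀ v ∈ D, pos r < pos v → pos v < pos (en r) → (v ∈ A ↔ nx v ∈ A) := by
    intro r hr v hv a b
    have h1 := nj r hr v a.le b
    have h2 := lk v hv h1
    rwa [hη v hv h1, hτ v hv] at h2
    · exact fun h => (zo v h).2 r hr ⟨a, b.le⟩
    · exact fun h => (dis h).2 r hr ⟨a, b.le⟩
    · rintro ⟨s, hs, rfl⟩
      have a3 := k.lt s hs
      rcases lt_trichotomy (pos s) (pos r) with h | h | h
      · exact (dis hr).2 s hs ⟨h, a.le⟩
      · rw [o.inj (k.sub hs) (k.sub hr) h] at b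
        exact lt_irrefl _ b
      · exact (dis hs).2 r hr ⟨h, (a3.trans b).le⟩
  refine ⟨c.1, fun r hr => ?_, fun u hu => ?_⟩
  · have h1 := nj r hr r le_rfl (k.lt r hr)
    have h2 := lk r (k.sub hr) h1
    rw [hη r (k.sub hr) h1, p1 r hr] at h2
    exact h2.trans (o.seg (P := (· ∈ A)) (k.sub hr) (k.mem r hr) (k.lt r hr) (ins r hr))
  · by_cases h : u ∈ Out D pos R en
    · exact Or.inl (c.2 u h)
    · obtain ⟨r, hr, a⟩ : ∃ r ∈ R, pos r < pos u ∧ pos u ≤ pos (en r) := by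
        by_contra hc
        exact h ⟨hu, fun r hr a => hc ⟨r, hr, a⟩⟩
      exact Or.inr ⟨r, hr, o.piece (P := (· ∈ A)) k hr hu a.1 a.2 (ins r hr)⟩

/-- the pieces of a route are joined to its base -/
theorem route_link {A : Set S} (h : ∀ r ∈ R, up r ∈ A ↔ en r ∈ A) (bs : S → S) (rk : S → ℕ)
    (hb : ∀ r ∈ R, up r = bs r ∨ ∃ s ∈ R, up r = en s ∧ bs s = bs r ∧ rk s < rk r) :
    ∀ r ∈ R, en r ∈ A ↔ bs r ∈ A := by
  intro r
  induction hn : rk r using Nat.strong_induction_on generalizing r with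
  | _ n ih =>
    intro hr
    rw [← h r hr]
    rcases hb r hr with e | ⟨s, hs, e1, e2, e3⟩
    · rw [e]
    · rw [e1, ← e2]
      exact ih _ (hn ▸ e3) s rfl hs

variable [Finite Λ] {m : ℕ} {hang : Λ → ℕ → S → Prop} {x y : S}

/-- A token walks along `v 0, ..., v n`; the tail of the line `l i` goes from `v (i+1)` to
`v i`. -/
theorem Ends.route {n : ℕ} {v : ℕ → S} (l : ℕ → Λ) (e : Ends m hang (v 0) y τ η)
    (inj : ∀ i j, i < j → j < n → l i ≠ l j) (h1 : ∀ i < n, τ (l i) = v (i + 1))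
    (h2 : ∀ i < n, hang (l i) 0 (v i)) :
    ∃ τ', Ends m hang (v n) y τ' η ∧ (∀ i < n, τ' (l i) = v i) ∧
      ∀ L, (∀ i < n, L ≠ l i) → τ' L = τ L := by
  classical
  induction n with
  | zero => exact ⟨τ, e, fun _ h => absurd h (Nat.not_lt_zero _), fun _ _ => rfl⟩
  | succ n ih =>
    obtain ⟨τ', a1, a2, a3⟩ := ih (fun i j a b => inj i j a (by omega))
      (fun i a => h1 i (by omega)) fun i a => h2 i (by omega)
    have a4 : τ' (l n) = v (n + 1) := by
      rw [a3 _ fun i a => (inj i n a (by omega)).symm, h1 n (by omega)]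
    refine ⟨_, a4 ▸ a1.tail (h2 n (by omega)), fun i a => ?_, fun L a => ?_⟩
    · by_cases h : i = n
      · rw [h, update_self]
      · rw [update_of_ne (inj i n (by omega) (by omega)), a2 i (by omega)]
    · rw [update_of_ne (a n (by omega)), a3 L fun i b => a i (by omega)]

/-- The reference order of a state, with its pass pairs `(r, en r)`, `r ∈ R0`. -/
structure Ref (m : ℕ) (hang : Λ → ℕ → S → Prop) (c : S) (ln : S → Λ) (nx : S → S) (pos : S → β)
    (R0 : Set S) (en : S → S) (τ0 η0 : Λ → S) : Prop where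
  cyc : Cyc {c}ᶜ nx pos
  bij : Set.BijOn ln {c}ᶜ Set.univ
  tl : ∀ u, u ≠ c → τ0 (ln u) = u
  hd : ∀ u, u ≠ c → η0 (ln u) = nx u
  ht : ∀ L, hang L 0 (τ0 L)
  hh : ∀ L, hang L m (η0 L)
  pc : Pieces {c}ᶜ pos R0 en
  dis : R0 ⊆ Out {c}ᶜ pos R0 en

/-- A route from `b` of length `n` whose first `n / 2` pairs are pass pairs. -/
structure Route (hang : Λ → ℕ → S → Prop) (c : S) (ln : S → Λ) (R0 : Set S) (en : S → S) (b : S)
    (n : ℕ) (v : ℕ → S) : Prop where
  zero : v 0 = b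
  ne : ∀ i < n, v (i + 1) ≠ c
  inj : ∀ i j, i < j → j < n → v (i + 1) ≠ v (j + 1)
  hg : ∀ i < n, hang (ln (v (i + 1))) 0 (v i)
  pass : ∀ j, 2 * j + 2 ≤ n → v (2 * j + 1) ∈ R0 ∧ en (v (2 * j + 1)) = v (2 * j + 2)

/-- the hub `u` lies in no piece of the route, nor at the start of a piece -/
def Free (pos : S → β) (n : ℕ) (v : ℕ → S) (u : S) : Prop :=
  ∀ j, 2 * j + 2 ≤ n → pos u < pos (v (2 * j + 1)) ∨ pos (v (2 * j + 2)) < pos u

variable {c : S} {R0 : Set S} {τ0 η0 : Λ → S}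

omit [Finite Λ] in
theorem Ref.ends [Finite S] (r : Ref m hang c ln nx pos R0 en τ0 η0) : Ends m hang c c τ0 η0 :=
  ends_ref ln r.bij nx r.cyc.bijOn r.tl r.hd r.ht r.hh

omit [Finite Λ] in
theorem Ref.sur (r : Ref m hang c ln nx pos R0 en τ0 η0) (L : Λ) : ∃ u, u ≠ c ∧ ln u = L :=
  r.bij.surjOn (Set.mem_univ L)

omit [Finite Λ] in
theorem Ref.ln_ne (r : Ref m hang c ln nx pos R0 en τ0 η0) {u w : S} (hu : u ≠ c) (hw : w ≠ c)
    (h : u ≠ w) : ln u ≠ ln w := fun e => h (r.bij.injOn hu hw e)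

omit [Finite Λ] in
theorem Route.nil (b : S) : Route hang c ln R0 en b 0 fun _ => b :=
  ⟨rfl, by simp, by simp, by simp, by simp⟩

omit [Finite Λ] in
theorem Free.nil (v : ℕ → S) (u : S) : Free pos 0 v u := fun _ h => by omega

omit [Finite Λ] in
/-- a hub outside all pass pairs of the state is free -/
theorem Route.free {b : S} {n : ℕ} {v : ℕ → S} (a : Route hang c ln R0 en b n v) {u : S}
    (h : ∀ r ∈ R0, pos u < pos r ∨ pos (en r) < pos u) : Free pos n v u :=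
  fun j hj => (a.pass j hj).2 ▸ h _ (a.pass j hj).1

omit [Finite Λ] in
theorem Ref.ne_of_free (r : Ref m hang c ln nx pos R0 en τ0 η0) {b : S} {n : ℕ} {v : ℕ → S}
    (a : Route hang c ln R0 en b n v) {u : S} (f : Free pos n v u) (i : ℕ)
    (hi : i < 2 * (n / 2)) : v (i + 1) ≠ u := by
  intro e
  rcases Nat.even_or_odd' i with ⟨j, rfl | rfl⟩ <;>
  · have := r.pc.lt _ (a.pass j (by omega)).1
    rw [(a.pass j (by omega)).2] at this
    have := f j (by omega)
    grind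

omit [Finite Λ] in
/-- **Any family of routes** from the bases `b t`, frame part. -/
theorem Ref.frame [Finite S] (r : Ref m hang c ln nx pos R0 en τ0 η0) {ι : Type*} {b : ι → S}
    {n : ι → ℕ} {v : ι → ℕ → S} (a : ∀ t, Route hang c ln R0 en (b t) (n t) (v t))
    {l : List S} (hl : l ≠ []) (hz : CO pos l) (zc : ∀ z ∈ l, z ≠ c)
    (zf : ∀ t, ∀ z ∈ l, Free pos (n t) (v t) z)
    (h1 : ∀ t, ∀ i, i < 2 * (n t / 2) → τ (ln (v t (i + 1))) = v t i)
    (h2 : ∀ u, u ≠ c → u ∉ l → (∀ t, ∀ i, i < 2 * (n t / 2) → u ≠ v t (i + 1)) → τ (ln u) = u)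
    (h3 : ∀ u, u ≠ c → u ∉ l → η (ln u) = nx u) {A : Set S}
    (lk : ∀ L, (∀ z ∈ l, L ≠ ln z) → (τ L ∈ A ↔ η L ∈ A)) :
    Arcs (fun a b => nx a ∈ A ↔ b ∈ A) l ∧ (∀ t, v t (2 * (n t / 2)) ∈ A ↔ b t ∈ A) ∧
      ((∀ z ∈ l, z ∈ A ↔ c ∈ A) → (∀ t, b t ∈ A ↔ c ∈ A) → ∀ s t, s ∈ A → t ∈ A) := by
  classical
  let R : Set S := {u | ∃ t j, 2 * j + 2 ≤ n t ∧ u = v t (2 * j + 1)}
  have sub : R ⊆ R0 := by
    rintro _ ⟨t, j, hj, rfl⟩
    exact ((a t).pass j hj).1
  have zR : ∀ z ∈ l, z ∉ R := by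
    rintro z hz ⟨t, j, hj, e⟩
    exact r.ne_of_free (a t) (zf t z hz) (2 * j) (by omega) e.symm
  have jz : ∀ z ∈ l, jump R en z = z := fun z hz => jump_of_not_mem (zR z hz)
  have f := Pool.Agent.P.MP_439f1f_co.frame (up := fun u => τ (ln u)) (ln := ln) (τ := τ) (η := η)
    (A := A) r.cyc (r.pc.mono sub) (fun u hu => Out.mono sub (r.dis (sub hu))) hl hz
    (fun z hz => ⟨zc z hz, ?_⟩) (fun _ _ => rfl) ?_
    (fun u hu a1 a2 a3 => h2 u hu a1 fun t i hi e => ?_)
    (fun u hu a1 => h3 u hu fun h => a1 u h (jz u h).symm)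
    (fun u hu a1 => lk _ fun z hz => r.ln_ne hu (zc z hz) (jz z hz ▸ a1 z hz))
  · obtain ⟨f1, f2, f3⟩ := f
    have f4 : ∀ t j, 2 * j ≤ n t → (v t (2 * j) ∈ A ↔ b t ∈ A) := by
      intro t j
      induction j with
      | zero => intro _; rw [(a t).zero]
      | succ j ih =>
        intro hj
        have := f2 _ ⟨t, j, hj, rfl⟩
        rw [h1 t _ (by omega), ((a t).pass j hj).2] at this
        exact this.symm.trans (ih (by omega))
    refine ⟨?_, fun t => f4 t _ (by omega), fun g1 g2 => ?_⟩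
    · rcases l with _ | ⟨z, l⟩
      · exact absurd rfl hl
      · rw [arcs_cons] at f1 ⊢
        refine f1.imp_of_mem_imp fun u w hu _ h => ?_
        rwa [jz u (by simpa [or_comm] using hu)] at h
    have all : ∀ u, u ∈ A ↔ c ∈ A := fun u => by
      by_cases hu : u = c
      · rw [hu]
      · rcases f3 u hu with ⟨z, hz, h⟩ | ⟨_, ⟨t, j, hj, rfl⟩, h⟩
        · exact h.trans (g1 z hz)
        · rw [((a t).pass j hj).2] at h
          exact h.trans ((f4 t (j + 1) hj).trans (g2 t))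
    exact fun s t hs => (all t).2 ((all s).1 hs)
  · rintro _ ⟨t, j, hj, rfl⟩ h
    rw [((a t).pass j hj).2] at h
    have := zf t z hz j hj
    grind
  · rintro _ ⟨t, j, hj, rfl⟩ -
    rw [((a t).pass j hj).2]
    exact h1 t (2 * j + 1) (by omega)
  · rcases Nat.even_or_odd' i with ⟨j, rfl | rfl⟩
    · exact a2 ⟨t, j, by omega, e⟩
    · exact a3 ⟨_, ⟨t, j, by omega, rfl⟩, by rw [((a t).pass j (by omega)).2, e]⟩

/-- What two routes leave: for every list of free cuts (the end of a route of odd length must be a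
cut) one gets, without using the lines of the cuts, the arcs between the cuts, the link of both
routes to `c`, and connectivity as soon as all cuts are linked to `c`. -/
def Frm (c : S) (ln : S → Λ) (nx : S → S) (pos : S → β) (n : ℕ) (v : ℕ → S) (p : ℕ) (w : ℕ → S)
    (τ1 η0 : Λ → S) : Prop :=
  ∀ l : List S, l ≠ [] → CO pos l → (∀ z ∈ l, z ≠ c ∧ Free pos n v z ∧ Free pos p w z) →
    (n % 2 = 1 → v n ∈ l) → (p % 2 = 1 → w p ∈ l) → ∀ A : Set S,
    (∀ L, (∀ z ∈ l, L ≠ ln z) → (τ1 L ∈ A ↔ η0 L ∈ A)) →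
    Arcs (fun a b => nx a ∈ A ↔ b ∈ A) l ∧ (v (2 * (n / 2)) ∈ A ↔ c ∈ A) ∧
      (w (2 * (p / 2)) ∈ A ↔ c ∈ A) ∧ ((∀ z ∈ l, z ∈ A ↔ c ∈ A) → ∀ s t, s ∈ A → t ∈ A)

/-- **Two routes from `c`.**  After both routes the tokens sit at `v n`, `w p`. -/
theorem Ref.two [Finite S] (r : Ref m hang c ln nx pos R0 en τ0 η0) {n p : ℕ} {v w : ℕ → S}
    (a : Route hang c ln R0 en c n v) (b : Route hang c ln R0 en c p w)
    (dj : ∀ i < n, ∀ j < p, v (i + 1) ≠ w (j + 1)) :
    ∃ τ1, Ends m hang (v n) (w p) τ1 η0 ∧ (∀ i < n, τ1 (ln (v (i + 1))) = v i) ∧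
      (∀ i < p, τ1 (ln (w (i + 1))) = w i) ∧
      (∀ u, u ≠ c → (∀ i < n, u ≠ v (i + 1)) → (∀ i < p, u ≠ w (i + 1)) → τ1 (ln u) = u) ∧
      Frm c ln nx pos n v p w τ1 η0 := by
  obtain ⟨τ1, a1, a2, a3⟩ := Ends.route (v := v) (fun i => ln (v (i + 1))) (y := c)
    (by rw [a.zero]; exact r.ends)
    (fun i j h1 h2 => r.ln_ne (a.ne i (by omega)) (a.ne j h2) (a.inj i j h1 h2))
    (fun i h => r.tl _ (a.ne i h)) a.hg
  obtain ⟨τ2, b1, b2, b3⟩ := Ends.route (v := w) (fun i => ln (w (i + 1))) (τ := τ1)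
    (by rw [b.zero]; exact a1.symm)
    (fun i j h1 h2 => r.ln_ne (b.ne i (by omega)) (b.ne j h2) (b.inj i j h1 h2))
    (fun i h => by
      rw [a3 _ fun j h' => r.ln_ne (b.ne i h) (a.ne j h') (dj j h' i h).symm, r.tl _ (b.ne i h)])
    b.hg
  have c1 : ∀ i < n, τ2 (ln (v (i + 1))) = v i := fun i h => by
    rw [b3 _ fun j h' => r.ln_ne (a.ne i h) (b.ne j h') (dj i h j h'), a2 i h]
  have c2 : ∀ u, u ≠ c → (∀ i < n, u ≠ v (i + 1)) → (∀ i < p, u ≠ w (i + 1)) → τ2 (ln u) = u :=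
    fun u hu h1 h2 => by
      rw [b3 _ fun j h => r.ln_ne hu (b.ne j h) (h2 j h),
        a3 _ fun j h => r.ln_ne hu (a.ne j h) (h1 j h), r.tl u hu]
  refine ⟨τ2, b1.symm, c1, b2, c2, fun l hl hz zc o1 o2 A lk => ?_⟩
  have f := r.frame (τ := τ2) (η := η0) (A := A) (b := fun _ => c) (n := fun t => cond t n p)
    (v := fun t => cond t v w) ?_ hl hz (fun z h => (zc z h).1) ?_ ?_ (fun u hu h1 h2 => ?_)
    (fun u hu _ => r.hd u hu) lk
  · exact ⟨f.1, f.2.1 true, f.2.1 false, fun h => f.2.2 h fun _ => Iff.rfl⟩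
  · rintro (_ | _)
    exacts [b, a]
  · rintro (_ | _) z hz
    exacts [(zc z hz).2.2, (zc z hz).2.1]
  · rintro (_ | _) i hi
    · have hi : i < 2 * (p / 2) := hi
      exact b2 i (by omega)
    · have hi : i < 2 * (n / 2) := hi
      exact c1 i (by omega)
  · refine c2 u hu (fun i hi e => ?_) fun i hi e => ?_
    · by_cases h : i < 2 * (n / 2)
      · exact h2 true i h e
      · exact h1 (by rw [e, show i + 1 = n by omega]; exact o1 (by omega))
    · by_cases h : i < 2 * (p / 2)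
      · exact h2 false i h e
      · exact h1 (by rw [e, show i + 1 = p by omega]; exact o2 (by omega))

end frame

end Pool.Agent.P.MP_439f1f_co
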