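import Pool.Agent.P.MP_439f1f_co.Dy0

/-!
The order of the blocks in one state, from data attached to the trees.
-/

set_option autoImplicit false

namespace Pool.Agent.P.MP_439f1f_co

open Sum Function

/-- the keys of the blocks -/
abbrev Kq : Type := ℕ ×ₗ ℕ ×ₗ ℕ ×ₗ ℤ ×ₗ ℤ ×ₗ ℤ ×ₗ ℤ

/-- ring, zone, format, and four numbers -/
def kq (g z f : ℕ) (a b c d : ℤ) : Kq :=
  toLex (g, toLex (z, toLex (f, toLex (a, toLex (b, toLex (c, d))))))

theorem kq_lt {g z f g' z' f' : ℕ} {a b c d a' b' c' d' : ℤ} :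
    kq g z f a b c d < kq g' z' f' a' b' c' d' ↔ g < g' ∨ g = g' ∧ (z < z' ∨ z = z' ∧
      (f < f' ∨ f = f' ∧ (a < a' ∨ a = a' ∧ (b < b' ∨ b = b' ∧ (c < c' ∨ c = c' ∧ d < d'))))) := by
  simp only [kq, Prod.Lex.toLex_lt_toLex]

theorem kq_eq {g z f g' z' f' : ℕ} {a b c d a' b' c' d' : ℤ} :
    kq g z f a b c d = kq g' z' f' a' b' c' d' ↔
      g = g' ∧ z = z' ∧ f = f' ∧ a = a' ∧ b = b' ∧ c = c' ∧ d = d' := by
  simp only [kq, toLex_inj, Prod.mk.injEq]

/-- The data of a tree in a state.  The tree lies in the zone `zn` of the ring `gr`; trees of one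
zone are ordered in the direction `dr`, a tree in the depth first order `cs`.  If `kap ≠ 0`, then
the levels `kap - 1`, `kap` are swapped and the subtree below such a pair follows it (`asc`) or
precedes it in the reverse order.  If `ud` holds, then the units (odd node, child) come in the
reverse depth first order.  If `sep` holds, then the labels lie in the zone `zl`, ordered by
`wk`, by the coordinate `co` in the direction `up` and then by `rk`.  Nodes in windows lie in the zone `zw`.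
The port and the layout of a block depend on the level. -/
structure TD (r0 : ℕ) where
  gr : ℕ
  zn : ℕ
  zl : ℕ
  zw : ℕ
  kap : ℕ
  asc : Bool
  dr : Bool
  cs : Bool
  ud : Bool
  sep : Bool
  co : Option Bool
  up : Bool
  rk : ℕ
  wk : ℤ
  win : ℕ → Option (ℕ × ℕ)
  port : ℕ → Fin (r0 + 1)
  lay : ℕ → Equiv.Perm (Fin 4)

/-- the coordinate by which labels are ordered -/
def crd {C : Type} {q : ℕ} (co : Option Bool) (x : C × Fin q × Fin q) : ℕ :=
  match co with
  | none => 0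
  | some false => x.2.1
  | some true => x.2.2

/-- one state: the forest with its orders, a numbering of the trees, and the data of the trees -/
structure Lay (C N : Type) (q D e b r0 : ℕ) where
  F : Forest (C × Fin q × Fin q) C C N Prod.fst id D e b
  o : Bool → N → ℕ
  ho : F.Dfs o
  ct : C → ℕ
  cti : Injective ct
  td : C → TD r0

namespace Lay

variable {C N : Type} {q D e b r0 : ℕ} (A : Lay C N q D e b r0)

/-- the data of the tree of a node -/
noncomputable def dt (n : N) : TD r0 := A.td (A.F.tree n)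

theorem dt_eq {n n' : N} (h : A.F.tree n = A.F.tree n') : A.dt n = A.dt n' := congrArg A.td h

theorem dt_kid {t : N} (hl : A.F.lev t < D) : A.dt (A.F.kid t) = A.dt t :=
  A.dt_eq (Forest.tree_kid hl)

theorem dt_anc (x : C × Fin q × Fin q) {l : ℕ} (h1 : 1 ≤ l) (h2 : l ≤ D) :
    A.dt (A.F.anc x l) = A.td x.1 := by rw [dt, A.F.tree_anc x h1 h2]; rfl

theorem dt_par {n : N} (h : 2 ≤ A.F.lev n) : A.dt (A.F.par n) = A.dt n :=
  A.dt_eq (A.F.tree_par h)

/-- the place of a node in a window -/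
noncomputable def wn (n : N) : Option (ℕ × ℕ) := (A.dt n).win (A.F.lev n)

/-- the four formats: in the tree, separated label, window, in a tree with reversed units -/
noncomputable def fm (n : N) : ℕ :=
  if A.wn n ≠ none then 2 else if A.F.lev n = D ∧ (A.dt n).sep = true then 1
    else if (A.dt n).ud = true then 3 else 0

/-- the zone -/
noncomputable def zo (n : N) : ℕ :=
  if A.fm n = 2 then (A.dt n).zw else if A.fm n = 1 then (A.dt n).zl else (A.dt n).zn

/-- the node is not above the swapped pairs -/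
def Low (n : N) : Prop := 2 ≤ (A.dt n).kap ∧ (A.dt n).kap ≤ A.F.lev n + 1

open Classical in
/-- the upper node of the swapped pair above the node -/
noncomputable def ka (n : N) : N := if A.Low n then A.F.at' n ((A.dt n).kap - 1) else n

open Classical in
/-- the place relative to the swapped pair -/
noncomputable def sl (n : N) : ℤ :=
  if A.Low n then (if A.F.lev n ≤ (A.dt n).kap then (A.dt n).kap - A.F.lev n
    else if (A.dt n).asc then 2 else -1) else 0

/-- the upper node of the unit -/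
noncomputable def un (n : N) : N := if A.F.lev n % 2 = 1 then n else A.F.par n

/-- the key of a node -/
noncomputable def key (n : N) : Kq :=
  if A.fm n = 0 then
    kq (A.dt n).gr (A.zo n) 0 (sg (A.dt n).dr (A.ct (A.F.tree n))) (A.o (A.dt n).cs (A.ka n))
      (A.sl n) (sg (A.dt n).asc (A.o (A.dt n).cs n))
  else if A.fm n = 1 then
    kq (A.dt n).gr (A.zo n) 1 (A.dt n).wk (sg (A.dt n).up (crd (A.dt n).co (A.F.lb n)))
      (A.dt n).rk (A.o true n)
  else if A.fm n = 2 then
    kq (A.dt n).gr (A.zo n) 2 ((A.wn n).getD 0).1 ((A.wn n).getD 0).2 (A.o true n) 0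
  else kq (A.dt n).gr (A.zo n) 3 (sg (A.dt n).dr (A.ct (A.F.tree n)))
    (-A.o (A.dt n).cs (A.un n)) (A.o (A.dt n).cs n) 0

variable {A} {n n' t u v a : N}

theorem fm_win : A.fm n = 2 ↔ A.wn n ≠ none := by
  unfold fm
  split_ifs <;> simp_all

theorem fm_lab : A.fm n = 1 ↔ A.wn n = none ∧ A.F.lev n = D ∧ (A.dt n).sep = true := by
  unfold fm
  split_ifs <;> simp_all

theorem fm_tree : A.fm n = 0 ↔
    A.wn n = none ∧ (A.F.lev n ≠ D ∨ (A.dt n).sep = false) ∧ (A.dt n).ud = false := by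
  unfold fm
  split_ifs <;> simp_all
  grind

theorem fm_ud : A.fm n = 3 ↔
    A.wn n = none ∧ (A.F.lev n ≠ D ∨ (A.dt n).sep = false) ∧ (A.dt n).ud = true := by
  unfold fm
  split_ifs <;> simp_all
  grind

theorem fm_cases (A : Lay C N q D e b r0) (n : N) :
    A.fm n = 0 ∨ A.fm n = 1 ∨ A.fm n = 2 ∨ A.fm n = 3 := by
  unfold fm
  split_ifs <;> simp

theorem zo_tree (h : A.fm n = 0) : A.zo n = (A.dt n).zn := by simp [zo, h]
theorem zo_lab (h : A.fm n = 1) : A.zo n = (A.dt n).zl := by simp [zo, h]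
theorem zo_win (h : A.fm n = 2) : A.zo n = (A.dt n).zw := by simp [zo, h]
theorem zo_ud (h : A.fm n = 3) : A.zo n = (A.dt n).zn := by simp [zo, h]

theorem key_tree (h : A.fm n = 0) : A.key n =
    kq (A.dt n).gr (A.dt n).zn 0 (sg (A.dt n).dr (A.ct (A.F.tree n))) (A.o (A.dt n).cs (A.ka n))
      (A.sl n) (sg (A.dt n).asc (A.o (A.dt n).cs n)) := by simp [key, h, zo_tree h]

theorem key_lab (h : A.fm n = 1) : A.key n =
    kq (A.dt n).gr (A.dt n).zl 1 (A.dt n).wk (sg (A.dt n).up (crd (A.dt n).co (A.F.lb n)))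
      (A.dt n).rk (A.o true n) := by simp [key, h, zo_lab h]

theorem key_win {w o : ℕ} (c : A.wn n = some (w, o)) :
    A.key n = kq (A.dt n).gr (A.dt n).zw 2 w o (A.o true n) 0 := by
  have h : A.fm n = 2 := fm_win.2 (by simp [c])
  simp [key, h, zo_win h, c]

theorem key_ud (h : A.fm n = 3) : A.key n =
    kq (A.dt n).gr (A.dt n).zn 3 (sg (A.dt n).dr (A.ct (A.F.tree n)))
      (-A.o (A.dt n).cs (A.un n)) (A.o (A.dt n).cs n) 0 := by simp [key, h, zo_ud h]

theorem key_ex (A : Lay C N q D e b r0) (n : N) :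
    ∃ a b c d, A.key n = kq (A.dt n).gr (A.zo n) (A.fm n) a b c d := by
  unfold key
  rcases A.fm_cases n with h | h | h | h <;> simp only [h] <;> exact ⟨_, _, _, _, rfl⟩

/-! ### zones -/

theorem lt_of_gr (h : (A.dt n).gr < (A.dt n').gr) : A.key n < A.key n' := by
  obtain ⟨_, _, _, _, a⟩ := A.key_ex n
  obtain ⟨_, _, _, _, a'⟩ := A.key_ex n'
  rw [a, a', kq_lt]
  exact Or.inl h

theorem lt_of_zo (g : (A.dt n).gr = (A.dt n').gr) (h : A.zo n < A.zo n') :
    A.key n < A.key n' := by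
  obtain ⟨_, _, _, _, a⟩ := A.key_ex n
  obtain ⟨_, _, _, _, a'⟩ := A.key_ex n'
  rw [a, a', kq_lt]
  exact Or.inr ⟨g, Or.inl h⟩

theorem lt_of_fm (g : (A.dt n).gr = (A.dt n').gr) (z : A.zo n = A.zo n') (h : A.fm n < A.fm n') :
    A.key n < A.key n' := by
  obtain ⟨_, _, _, _, a⟩ := A.key_ex n
  obtain ⟨_, _, _, _, a'⟩ := A.key_ex n'
  rw [a, a', kq_lt]
  exact Or.inr ⟨g, Or.inr ⟨z, Or.inl h⟩⟩

/-- the ring, the zone and the format are monotone -/
theorem le_of_le (h : A.key n ≤ A.key n') : (A.dt n).gr < (A.dt n').gr ∨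
    (A.dt n).gr = (A.dt n').gr ∧ (A.zo n < A.zo n' ∨ A.zo n = A.zo n' ∧ A.fm n ≤ A.fm n') := by
  have a := mt (lt_of_gr (A := A) (n := n') (n' := n)) h.not_gt
  have a1 := fun g => mt (lt_of_zo (A := A) (n := n') (n' := n) g) h.not_gt
  have a2 := fun g z => mt (lt_of_fm (A := A) (n := n') (n' := n) g z) h.not_gt
  omega

theorem fm_between (h1 : A.key u ≤ A.key n) (h2 : A.key n ≤ A.key v)
    (g : (A.dt u).gr = (A.dt v).gr) (z : A.zo u = A.zo v) (f : A.fm u = A.fm v) :
    (A.dt n).gr = (A.dt u).gr ∧ A.zo n = A.zo u ∧ A.fm n = A.fm u := by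
  have a := le_of_le h1
  have a' := le_of_le h2
  omega

theorem key_inj (A : Lay C N q D e b r0) : Injective A.key := by
  intro n n' h
  have a := le_of_le h.le
  have a' := le_of_le h.ge
  have f : A.fm n' = A.fm n := by omega
  rcases A.fm_cases n with c | c | c | c <;> rw [c] at f
  · rw [key_tree c, key_tree f, kq_eq] at h
    have := sg_inj h.2.2.2.2.2.2
    rw [A.dt_eq (A.cti (sg_inj h.2.2.2.1))] at this
    exact A.ho.inj _ this
  · rw [key_lab c, key_lab f, kq_eq] at h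
    exact A.ho.inj true (by omega)
  · obtain ⟨⟨w, o⟩, a⟩ := Option.ne_none_iff_exists'.1 (fm_win.1 c)
    obtain ⟨⟨w', o'⟩, a'⟩ := Option.ne_none_iff_exists'.1 (fm_win.1 f)
    rw [key_win a, key_win a', kq_eq] at h
    exact A.ho.inj true (by omega)
  · rw [key_ud c, key_ud f, kq_eq] at h
    have := h.2.2.2.2.2.1
    rw [A.dt_eq (A.cti (sg_inj h.2.2.2.1))] at this
    exact A.ho.inj _ (Nat.cast_injective this)

theorem lt_iff_not (h : n ≠ n') : A.key n < A.key n' ↔ ¬A.key n' < A.key n :=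
  ⟨fun a => a.not_gt, fun a => lt_of_le_of_ne (not_lt.1 a) fun c => h (A.key_inj c)⟩

/-! ### labels and windows -/

theorem lab_lt (h : A.fm n = 1) (h' : A.fm n' = 1) (g : (A.dt n).gr = (A.dt n').gr)
    (z : (A.dt n).zl = (A.dt n').zl) : A.key n < A.key n' ↔ (A.dt n).wk < (A.dt n').wk ∨
      (A.dt n).wk = (A.dt n').wk ∧
      (sg (A.dt n).up (crd (A.dt n).co (A.F.lb n)) < sg (A.dt n').up (crd (A.dt n').co (A.F.lb n')) ∨
      sg (A.dt n).up (crd (A.dt n).co (A.F.lb n)) = sg (A.dt n').up (crd (A.dt n').co (A.F.lb n')) ∧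
        ((A.dt n).rk < (A.dt n').rk ∨ (A.dt n).rk = (A.dt n').rk ∧ A.o true n < A.o true n')) := by
  rw [key_lab h, key_lab h', kq_lt]
  omega

theorem win_lt {w o w' o' : ℕ} (c : A.wn n = some (w, o)) (c' : A.wn n' = some (w', o'))
    (g : (A.dt n).gr = (A.dt n').gr) (z : (A.dt n).zw = (A.dt n').zw) : A.key n < A.key n' ↔
      w < w' ∨ w = w' ∧ (o < o' ∨ o = o' ∧ A.o true n < A.o true n') := by
  rw [key_win c, key_win c', kq_lt]
  omega

/-- between two nodes of windows of one zone there are only nodes of windows -/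
theorem win_between {w o w' o' : ℕ} (c : A.wn u = some (w, o)) (c' : A.wn v = some (w', o'))
    (g : (A.dt u).gr = (A.dt v).gr) (z : (A.dt u).zw = (A.dt v).zw) (h1 : A.key u ≤ A.key n)
    (h2 : A.key n ≤ A.key v) : (A.dt n).gr = (A.dt u).gr ∧ (A.dt n).zw = (A.dt u).zw ∧
      ∃ w1 o1, A.wn n = some (w1, o1) ∧ (w < w1 ∨ w = w1 ∧ o ≤ o1) ∧
        (w1 < w' ∨ w1 = w' ∧ o1 ≤ o') := by
  have fu : A.fm u = 2 := fm_win.2 (by simp [c])
  have fv : A.fm v = 2 := fm_win.2 (by simp [c'])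
  have f := fm_between h1 h2 g (by rw [zo_win fu, zo_win fv, z]) (fu.trans fv.symm)
  obtain ⟨⟨w1, o1⟩, a⟩ := Option.ne_none_iff_exists'.1 (fm_win.1 (f.2.2.trans fu))
  have z1 := f.2.1
  rw [zo_win fu, zo_win (f.2.2.trans fu)] at z1
  rw [← not_lt, win_lt a c f.1 z1] at h1
  rw [← not_lt, win_lt c' a (by omega) (by omega)] at h2
  exact ⟨f.1, z1, w1, o1, a, by omega, by omega⟩

/-! ### trees -/

/-- two trees in one zone -/
theorem tree_lt (h : A.fm n = 0) (h' : A.fm n' = 0) (g : (A.dt n).gr = (A.dt n').gr)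
    (z : (A.dt n).zn = (A.dt n').zn) (t : A.F.tree n ≠ A.F.tree n') : A.key n < A.key n' ↔
      sg (A.dt n).dr (A.ct (A.F.tree n)) < sg (A.dt n').dr (A.ct (A.F.tree n')) := by
  have := mt (fun a => A.cti (sg_inj (b := (A.dt n).dr) (b' := (A.dt n').dr) a)) t
  rw [key_tree h, key_tree h', kq_lt]
  omega

/-- **A tree is an interval.** -/
theorem tree_between (h1 : A.key u ≤ A.key n) (h2 : A.key n ≤ A.key v) (h : A.fm u = 0)
    (h' : A.fm v = 0) (t : A.F.tree v = A.F.tree u) :
    A.fm n = 0 ∧ A.F.tree n = A.F.tree u := by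
  have d := A.dt_eq t
  have f := (fm_between h1 h2 (by rw [d]) (by rw [zo_tree h, zo_tree h', d])
    (h.trans h'.symm)).2.2.trans h
  rw [← not_lt, key_tree h, key_tree f, kq_lt] at h1
  rw [← not_lt, key_tree h', key_tree f, kq_lt, d, t] at h2
  exact ⟨f, A.cti (sg_inj (b := (A.dt n).dr) (b' := (A.dt u).dr) (by omega))⟩

/-- the order in a tree -/
theorem in_lt (h : A.fm n = 0) (h' : A.fm n' = 0) (t : A.F.tree n' = A.F.tree n) :
    A.key n < A.key n' ↔ A.o (A.dt n).cs (A.ka n) < A.o (A.dt n).cs (A.ka n') ∨ A.ka n = A.ka n' ∧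
      (A.sl n < A.sl n' ∨ A.sl n = A.sl n' ∧
        sg (A.dt n).asc (A.o (A.dt n).cs n) < sg (A.dt n).asc (A.o (A.dt n).cs n')) := by
  rw [key_tree h, key_tree h', kq_lt, A.dt_eq t, t, ← (A.ho.inj (A.dt n).cs).eq_iff]
  omega

theorem ka_high (h : ¬A.Low n) : A.ka n = n := if_neg h
theorem ka_low (h : A.Low n) : A.ka n = A.F.at' n ((A.dt n).kap - 1) := if_pos h
theorem sl_high (h : ¬A.Low n) : A.sl n = 0 := if_neg h
theorem sl_pair (h : A.Low n) (l : A.F.lev n ≤ (A.dt n).kap) :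
    A.sl n = (A.dt n).kap - A.F.lev n := by simp [sl, h, l]
theorem sl_low (h : 2 ≤ (A.dt n).kap) (l : (A.dt n).kap < A.F.lev n) :
    A.sl n = if (A.dt n).asc then 2 else -1 := by
  simp [sl, show A.Low n from ⟨h, by omega⟩, l.not_ge]

theorem ka_anc (A : Lay C N q D e b r0) (n : N) : A.F.Anc (A.ka n) n := by
  by_cases h : A.Low n
  · rw [ka_low h]
    exact Forest.anc_at n (by have := h.1; omega) (by have := h.2; omega)
  · rw [ka_high h]
    exact .refl _

theorem lev_ka (h : A.Low n) : A.F.lev (A.ka n) + 1 = (A.dt n).kap := by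
  have := h.1
  have := h.2
  have := (A.F.surj n).2.1
  rw [ka_low h, A.F.lev_at n (by omega) (by omega)]
  omega

theorem Low.anc (h : A.Low a) (c : A.F.Anc a n) : A.Low n ∧ A.ka n = A.ka a := by
  have d := A.dt_eq c.tree
  have h' : A.Low n := ⟨d ▸ h.1, d ▸ h.2.trans (Nat.succ_le_succ c.1)⟩
  exact ⟨h', ((A.ka_anc n).of_le ((A.ka_anc a).trans c)
    (by have := lev_ka h; have := lev_ka h'; rw [d] at *; omega)).eq
    (by have := lev_ka h; have := lev_ka h'; rw [d] at *; omega)⟩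

/-- a node above the swapped pairs and a descendant -/
theorem anc_ka (h : ¬A.Low a) (c : A.F.Anc a n) : A.F.Anc a (A.ka n) := by
  by_cases h' : A.Low n
  · have d := A.dt_eq c.tree
    have := lev_ka h'
    refine c.of_le (A.ka_anc n) (not_lt.1 fun l => h ⟨d ▸ h'.1, ?_⟩)
    rw [d]
    omega
  · rwa [ka_high h']

theorem eq_of_ka (h : ¬A.Low a) (c : A.ka n = a) : n = a := by
  by_cases h' : A.Low n
  · have d := A.dt_eq (c ▸ A.ka_anc n).tree
    exact absurd ⟨d ▸ h'.1, by rw [d, ← lev_ka h', c]⟩ h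
  · rw [← c, ka_high h']

/-- **Ancestors** come first, except in a swapped pair and in a reversed subtree. -/
theorem anc_lt (h : A.fm a = 0) (h' : A.fm n = 0) (c : A.F.Anc a n) (ne : a ≠ n) :
    A.key a < A.key n ↔ ¬A.Low a ∨
      ((A.dt a).asc = true ∧ (A.dt a).kap < A.F.lev n) := by
  have d := (A.dt_eq c.tree).symm
  have l := mt c.eq ne
  rw [in_lt h h' c.tree.symm]
  by_cases k : A.Low a
  · obtain ⟨k1, k2⟩ := k.anc c
    have := A.ho.lt (A.dt a).cs c ne
    have k3 := k.1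
    have k4 := k.2
    rcases le_or_gt (A.F.lev a) (A.dt a).kap with i | i <;>
      rcases le_or_gt (A.F.lev n) (A.dt a).kap with j | j
    · simp only [k2, sl_pair k i, sl_pair k1 (d ▸ j), d, k]
      simp
      omega
    · simp only [k2, sl_pair k i, sl_low (d ▸ k3) (d ▸ j), d, k]
      cases (A.dt a).asc <;> simp <;> omega
    · omega
    · simp only [k2, sl_low k3 i, sl_low (d ▸ k3) (d ▸ j), d, k]
      cases (A.dt a).asc <;> simp <;> omega
  · exact iff_of_true (Or.inl (by
      rw [ka_high k]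
      exact A.ho.lt _ (anc_ka k c) fun i => ne (eq_of_ka k i.symm).symm)) (Or.inl k)

/-- **Unrelated nodes** of one tree: the depth first order, reversed in a reversed subtree. -/
theorem unrel_lt (h : A.fm n = 0) (h' : A.fm n' = 0) (t : A.F.tree n' = A.F.tree n)
    (c : ¬A.F.Anc n n') (c' : ¬A.F.Anc n' n) (ev : (A.dt n).kap % 2 = 0) : A.key n < A.key n' ↔
      (A.ka n ≠ A.ka n' ∨ (A.dt n).asc = true ↔ A.o (A.dt n).cs n < A.o (A.dt n).cs n') := by
  have d := A.dt_eq t
  have ne : A.o (A.dt n).cs n ≠ A.o (A.dt n).cs n' := fun i => c (A.ho.inj _ i ▸ .refl _)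
  rw [in_lt h h' t]
  by_cases k : A.ka n = A.ka n'
  · have lw : ∀ {u v}, A.ka u = A.ka v → ¬A.F.Anc u v → ¬A.F.Anc v u → (A.dt u).kap % 2 = 0 →
        2 ≤ (A.dt u).kap ∧ (A.dt u).kap < A.F.lev u := fun {u v} k c c' ev => by
      have a : A.F.Anc (A.ka u) v := k ▸ A.ka_anc v
      have i : A.Low u := by_contra fun i => c (ka_high i ▸ a)
      have := lev_ka i
      refine ⟨i.1, not_le.1 fun l => c ?_⟩
      have o : A.F.lev (A.ka u) % 2 = 1 := by omega
      have a1 := a.kid o fun j => c' (j ▸ A.ka_anc u)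
      have a2 := (A.ka_anc u).kid o fun j => c (j ▸ a)
      have := (A.F.surj u).2.1
      have := mt (A.ka_anc u).eq fun j => c (j ▸ a)
      exact a2.eq (by rw [A.F.lev_kid (by omega)]; omega) ▸ a1
    obtain ⟨a1, a2⟩ := lw k c c' ev
    obtain ⟨b1, b2⟩ := lw k.symm c' c (d ▸ ev)
    simp only [k, sl_low a1 a2, sl_low b1 b2, d]
    cases (A.dt n).asc <;> simp
    omega
  · have s : ∀ {u v}, A.F.tree v = A.F.tree u → A.ka u ≠ A.ka v → ¬A.F.Anc u v →
        ¬A.F.Anc (A.ka u) v := fun {u v} t k c a => by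
      by_cases i : A.Low u
      · have d := A.dt_eq (A.ka_anc u).tree
        have j : A.Low (A.ka u) := ⟨d ▸ i.1, by rw [d, lev_ka i]⟩
        exact k ((j.anc (A.ka_anc u)).2.trans (j.anc a).2.symm)
      · exact c (ka_high i ▸ a)
    have s1 := s t k c
    have s2 := s t.symm (Ne.symm k) c'
    rw [or_iff_left fun i => k i.1, ← A.ho.side' _ (A.ka_anc n)
      fun i => s1 (i.trans (A.ka_anc n')), ← A.ho.side _ (A.ka_anc n') s2]
    simp [k]

/-- no swapped pair above the two nodes -/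
theorem high_lt (h : A.fm n = 0) (h' : A.fm n' = 0) (t : A.F.tree n' = A.F.tree n)
    (c : ¬A.Low n) (c' : ¬A.Low n') :
    A.key n < A.key n' ↔ A.o (A.dt n).cs n < A.o (A.dt n).cs n' := by
  rw [in_lt h h' t, ka_high c, ka_high c']
  exact or_iff_left fun ⟨a, b⟩ => by simp [a] at b

/-- **A subtree is an interval**, if its root is not the upper node or the lower node of a swapped
pair; the subtree of the upper node of a swapped pair is an interval as well. -/
theorem sub_between (h1 : A.key u ≤ A.key n) (h2 : A.key n ≤ A.key v) (h : A.fm u = 0)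
    (h' : A.fm v = 0) (cu : A.F.Anc a u) (cv : A.F.Anc a v)
    (k : 2 ≤ (A.dt a).kap → A.F.lev a ≠ (A.dt a).kap) : A.F.Anc a n := by
  obtain ⟨f, t⟩ := tree_between h1 h2 h h' (cv.tree.symm.trans cu.tree)
  have du := (A.dt_eq cu.tree).symm
  have dv := (A.dt_eq cv.tree).symm
  have dn := (A.dt_eq t).trans du
  rw [← not_lt, in_lt f h t.symm, dn] at h1
  rw [← not_lt, in_lt h' f (t.trans (cu.tree.symm.trans cv.tree)), dv] at h2
  by_cases i : A.Low a ∧ (A.dt a).kap < A.F.lev a
  · obtain ⟨u1, u2⟩ := i.1.anc cu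
    obtain ⟨v1, v2⟩ := i.1.anc cv
    rw [u2, sl_low (n := u) (du ▸ i.1.1) (du ▸ i.2.trans_le cu.1), du] at h1
    rw [v2, sl_low (n := v) (dv ▸ i.1.1) (dv ▸ i.2.trans_le cv.1), dv] at h2
    have kn : A.ka n = A.ka a := A.ho.inj (A.dt a).cs (by omega)
    have o1 := A.ho.le (A.dt a).cs cu
    have o2 := A.ho.le (A.dt a).cs cv
    simp only [kn, lt_irrefl, false_or, true_and] at h1 h2
    revert h1 h2
    cases (A.dt a).asc <;> simp only [sg_true, sg_false] <;> intro h1 h2
    exacts [A.ho.itv (A.dt a).cs cu (by omega) (by omega),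
      A.ho.itv (A.dt a).cs cv (by omega) (by omega)]
  · have s : ∀ {w}, A.F.Anc a w → A.F.Anc a (A.ka w) := fun {w} c => by
      by_cases j : A.Low a
      · have := lev_ka j
        have := k j.1
        rw [(j.anc c).2, (A.ka_anc a).eq (by have := mt (And.intro j) i; omega)]
        exact .refl _
      · exact anc_ka j c
    have o1 := A.ho.le (A.dt a).cs (s cu)
    exact (A.ho.itv (A.dt a).cs (s cv) (by omega) (by omega)).trans (A.ka_anc n)

/-! ### neighbours -/

/-- `v` comes directly after `u` -/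
def Adj (A : Lay C N q D e b r0) (u v : N) : Prop :=
  A.key u < A.key v ∧ ∀ n, A.key n ≤ A.key u ∨ A.key v ≤ A.key n

theorem adj_of (h : A.key u < A.key v)
    (k : ∀ n, A.key u < A.key n → A.key n < A.key v → False) : A.Adj u v :=
  ⟨h, fun n => by_contra fun c => by
    rw [not_or, not_le, not_le] at c
    exact k n c.1 c.2⟩

section pair
variable (o : A.F.lev t % 2 = 1) (l : A.F.lev t < D) (h : A.fm t = 0) (h' : A.fm (A.F.kid t) = 0)
  (ev : (A.dt t).kap % 2 = 0)
include o l h h' ev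

/-- the order in a pair -/
theorem pair_lt : A.key t < A.key (A.F.kid t) ↔
    ¬A.Low t ∨ ((A.dt t).asc = true ∧ (A.dt t).kap < A.F.lev t) := by
  rw [anc_lt h h' (Forest.anc_kid l) (Forest.kid_ne l).symm, A.F.lev_kid l]
  exact or_congr_right (and_congr_right' (by omega))

/-- **Pass pairs**: above the swapped pairs, and below them if the tree is ascending. -/
theorem adj_pass (c : ¬A.Low t ∨ ((A.dt t).asc = true ∧ (A.dt t).kap < A.F.lev t)) :
    A.Adj t (A.F.kid t) := by
  refine adj_of ((pair_lt o l h h' ev).2 c) fun n a1 a2 => ?_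
  have a := (sub_between a1.le a2.le h h' (.refl _) (Forest.anc_kid l) (by omega)).kid o
    fun i => a1.ne (by rw [i])
  have f := (tree_between a1.le a2.le h h' (Forest.tree_kid l)).1
  have ne : A.F.kid t ≠ n := fun i => a2.ne (by rw [i])
  refine a2.not_gt ((anc_lt h' f a ne).2 ?_)
  have := a.1
  rw [Low, A.dt_kid l, A.F.lev_kid l] at *
  exact c.imp (by omega) (And.imp_right (by omega))

/-- **Swapped pairs**: the levels `kap - 1`, `kap`, and all pairs of a reversed subtree. -/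
theorem adj_swap (c : A.Low t) (c' : (A.dt t).asc = false ∨ A.F.lev t < (A.dt t).kap) :
    A.Adj (A.F.kid t) t := by
  refine adj_of ((lt_iff_not (Forest.kid_ne l)).2 fun i => ?_) fun n a1 a2 => ?_
  · rcases (pair_lt o l h h' ev).1 i with i | i
    · exact i c
    · rcases c' with c' | c'
      · simp [c'] at i
      · omega
  have a := (sub_between a1.le a2.le h' h (Forest.anc_kid l) (.refl _) (by omega)).kid o
    fun i => a2.ne (by rw [i])
  have f := (tree_between a1.le a2.le h' h (Forest.tree_kid l).symm).1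
  have ne : A.F.kid t ≠ n := fun i => a1.ne (by rw [i])
  have b1 := (anc_lt h' f a ne).1 a1
  have b2 := mt (anc_lt h f ((Forest.anc_kid l).trans a) fun i => a2.ne (by rw [i])).2 a2.not_gt
  rw [A.dt_kid l] at b1
  exact b2 (Or.inr (b1.resolve_left fun i => i (c.anc (Forest.anc_kid l)).1))

end pair

/-- a pair above the swapped levels, whatever the parity of `kap` -/
theorem adj_high (o : A.F.lev t % 2 = 1) (l : A.F.lev t < D) (h : A.fm t = 0)
    (h' : A.fm (A.F.kid t) = 0) (c : ¬A.Low (A.F.kid t)) : A.Adj t (A.F.kid t) := by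
  have k := Forest.anc_kid l
  have c' : ¬A.Low t := fun i => c (i.anc k).1
  refine adj_of ((anc_lt h h' k (Forest.kid_ne l).symm).2 (Or.inl c')) fun n a1 a2 => ?_
  have a := (sub_between a1.le a2.le h h' (.refl _) k fun i j => c' ⟨i, by omega⟩).kid o
    fun i => a1.ne (by rw [i])
  exact a2.not_gt ((anc_lt h' (tree_between a1.le a2.le h h' (Forest.tree_kid l)).1 a
    fun i => a2.ne (by rw [i])).2 (Or.inl c))

/-- **The labels come before their parent** if `kap = D`. -/
theorem lab_kill (h2 : 2 ≤ D) (l : A.F.lev n = D) (k : (A.dt n).kap = D) (h : A.fm n = 0)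
    (h' : A.fm (A.F.par n) = 0) : A.key n < A.key (A.F.par n) ∧ ∀ x, A.key n ≤ A.key x →
      A.key x ≤ A.key (A.F.par n) → x = A.F.par n ∨ (2 ≤ A.F.lev x ∧ A.F.par x = A.F.par n) := by
  have l2 : 2 ≤ A.F.lev n := by omega
  have a := Forest.anc_par l2
  have l1 := A.F.lev_par l2
  have d := A.dt_par l2
  refine ⟨(lt_iff_not fun i => by rw [← i] at l1; omega).2 fun i => ?_, fun x a1 a2 => ?_⟩
  · rcases (anc_lt h' h a fun i => by rw [i] at l1; omega).1 i with i | i
    · exact i ⟨by rw [d]; omega, by rw [d]; omega⟩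
    · rw [d] at i
      omega
  · have c := sub_between a1 a2 h h' a (.refl _) (by rw [d]; omega)
    refine or_iff_not_imp_left.2 fun ne => ?_
    obtain ⟨c1, c2⟩ := c.par (Ne.symm ne)
    have := A.F.lev_par c1
    have := (A.F.surj x).2.1
    exact ⟨c1, (c2.eq (by omega)).symm⟩

/-! ### reversed units -/

theorem un_odd (h : A.F.lev n % 2 = 1) : A.un n = n := if_pos h
theorem un_even (h : A.F.lev n % 2 = 0) : A.un n = A.F.par n := if_neg (by omega)

theorem un_kid (o : A.F.lev t % 2 = 1) (l : A.F.lev t < D) : A.un (A.F.kid t) = t := by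
  rw [un_even (by rw [A.F.lev_kid l]; omega), A.F.par_kid l]

theorem un_spec (A : Lay C N q D e b r0) (n : N) : A.F.Anc (A.un n) n ∧
    A.F.lev (A.un n) % 2 = 1 ∧ (n = A.un n ∨ n = A.F.kid (A.un n)) := by
  rcases Nat.mod_two_eq_zero_or_one (A.F.lev n) with h | h
  · have l : 2 ≤ A.F.lev n := by have := (A.F.surj n).1; omega
    have := A.F.lev_par l
    rw [un_even h]
    exact ⟨Forest.anc_par l, by omega, Or.inr (A.F.kid_par (Nat.even_iff.2 h)).symm⟩
  · rw [un_odd h]
    exact ⟨.refl _, h, Or.inl rfl⟩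

/-- an odd ancestor is an ancestor of the upper node of the unit -/
theorem anc_un (o : A.F.lev a % 2 = 1) : A.F.Anc a (A.un n) ↔ A.F.Anc a n := by
  refine ⟨fun h => h.trans (A.un_spec n).1, fun h => ?_⟩
  rcases Nat.mod_two_eq_zero_or_one (A.F.lev n) with c | c
  · rw [un_even c]
    exact (h.par fun i => by rw [i] at o; omega).2
  · rwa [un_odd c]

theorem ud_tree_lt (h : A.fm n = 3) (h' : A.fm n' = 3) (g : (A.dt n).gr = (A.dt n').gr)
    (z : (A.dt n).zn = (A.dt n').zn) (t : A.F.tree n ≠ A.F.tree n') : A.key n < A.key n' ↔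
      sg (A.dt n).dr (A.ct (A.F.tree n)) < sg (A.dt n').dr (A.ct (A.F.tree n')) := by
  have := mt (fun a => A.cti (sg_inj (b := (A.dt n).dr) (b' := (A.dt n').dr) a)) t
  rw [key_ud h, key_ud h', kq_lt]
  omega

theorem ud_tree_between (h1 : A.key u ≤ A.key n) (h2 : A.key n ≤ A.key v) (h : A.fm u = 3)
    (h' : A.fm v = 3) (t : A.F.tree v = A.F.tree u) :
    A.fm n = 3 ∧ A.F.tree n = A.F.tree u := by
  have d := A.dt_eq t
  have f := (fm_between h1 h2 (by rw [d]) (by rw [zo_ud h, zo_ud h', d])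
    (h.trans h'.symm)).2.2.trans h
  rw [← not_lt, key_ud h, key_ud f, kq_lt] at h1
  rw [← not_lt, key_ud h', key_ud f, kq_lt, d, t] at h2
  exact ⟨f, A.cti (sg_inj (b := (A.dt n).dr) (b' := (A.dt u).dr) (by omega))⟩

/-- the order in a tree with reversed units -/
theorem ud_lt (h : A.fm n = 3) (h' : A.fm n' = 3) (t : A.F.tree n' = A.F.tree n) :
    A.key n < A.key n' ↔ A.o (A.dt n).cs (A.un n') < A.o (A.dt n).cs (A.un n) ∨
      A.un n = A.un n' ∧ A.o (A.dt n).cs n < A.o (A.dt n).cs n' := by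
  rw [key_ud h, key_ud h', kq_lt, A.dt_eq t, t, ← (A.ho.inj (A.dt n).cs).eq_iff]
  omega

/-- descendants come first, except in a unit -/
theorem ud_anc_lt (h : A.fm a = 3) (h' : A.fm n = 3) (c : A.F.Anc a n) (ne : A.un a ≠ A.un n) :
    A.key n < A.key a := (ud_lt h' h c.tree).2 (Or.inl (A.ho.lt _
      ((anc_un (A.un_spec a).2.1).2 ((A.un_spec a).1.trans c)) ne))

theorem ud_unrel_lt (h : A.fm n = 3) (h' : A.fm n' = 3) (t : A.F.tree n' = A.F.tree n)
    (c : ¬A.F.Anc n n') (c' : ¬A.F.Anc n' n) :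
    A.key n < A.key n' ↔ A.o (A.dt n).cs n' < A.o (A.dt n).cs n := by
  have s : ∀ {u v}, ¬A.F.Anc u v → ¬A.F.Anc v u → ¬A.F.Anc (A.un u) v := fun {u v} k k' i => by
    obtain ⟨a1, a2, a3 | a3⟩ := A.un_spec u
    exacts [k (a3 ▸ i), k (a3 ▸ i.kid a2 fun j => k' (j ▸ a1))]
  rw [ud_lt h h' t, A.ho.side' _ (A.un_spec n').1 (s c' c),
    A.ho.side _ (A.un_spec n).1 fun i => s c c' (i.trans (A.un_spec n').1)]
  exact or_iff_left fun i => s c c' (i.1 ▸ (A.un_spec n').1)

/-- the subtree of an odd node is an interval -/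
theorem ud_sub_between (h1 : A.key u ≤ A.key n) (h2 : A.key n ≤ A.key v) (h : A.fm u = 3)
    (h' : A.fm v = 3) (o : A.F.lev a % 2 = 1) (cu : A.F.Anc a u) (cv : A.F.Anc a v) :
    A.F.Anc a n := by
  obtain ⟨f, t⟩ := ud_tree_between h1 h2 h h' (cv.tree.symm.trans cu.tree)
  have du := (A.dt_eq cu.tree).symm
  have dv := (A.dt_eq cv.tree).symm
  rw [← not_lt, ud_lt f h t.symm, (A.dt_eq t).trans du, ← (A.ho.inj (A.dt a).cs).eq_iff] at h1
  rw [← not_lt, ud_lt h' f (t.trans (cu.tree.symm.trans cv.tree)), dv,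
    ← (A.ho.inj (A.dt a).cs).eq_iff] at h2
  have := A.ho.le (A.dt a).cs ((anc_un o).2 cv)
  exact (anc_un o).1 (A.ho.itv (A.dt a).cs ((anc_un o).2 cu) (by omega) (by omega))

theorem adj_ud (o : A.F.lev t % 2 = 1) (l : A.F.lev t < D) (h : A.fm t = 3)
    (h' : A.fm (A.F.kid t) = 3) : A.Adj t (A.F.kid t) := by
  have k := A.ho.kid (A.dt t).cs o l
  refine adj_of ((ud_lt h h' (Forest.tree_kid l)).2 (Or.inr ⟨by rw [un_kid o l, un_odd o], k.1⟩))
    fun n a1 a2 => ?_
  obtain ⟨f, c⟩ := ud_tree_between a1.le a2.le h h' (Forest.tree_kid l)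
  rw [ud_lt h f c, ← (A.ho.inj (A.dt t).cs).eq_iff, un_odd o] at a1
  rw [ud_lt f h' ((Forest.tree_kid l).trans c.symm), A.dt_eq c, ← (A.ho.inj (A.dt t).cs).eq_iff,
    un_kid o l] at a2
  have := k.2 n
  omega

end Lay

end Pool.Agent.P.MP_439f1f_co
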