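import Pool.Agent.P.MP_439f1f_co.B19

/-!
Stages that are not involved in a line; the choice of a group of stages.
-/

set_option autoImplicit false
set_option linter.unusedSectionVars false

namespace Pool.Agent.P.MP_439f1f_co

open Sum Function

variable {K N β G : Type} [DecidableEq K] [LinearOrder β] {r r0 q D e b : ℕ}
  [Finite K] [Finite N] [Nonempty K]

namespace Wd

variable (W : Wd K N β r r0 q D e b)

/-- the stages of a loop -/
noncomputable def sgl (u : Bool) : Lop N K → Option K
  | inl (inl n, _) => some (W.S.wor n).1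
  | inl (inr (inl i), _) => some i
  | inl (inr (inr z), _) => some (cond u z.1 z.2.1)
  | inr _ => none

/-- the stages that are involved in a line -/
noncomputable def sgs (L : Hub K N (Pt K N) r0) : Bool × Bool → Option K
  | (false, u) => some (W.S.typ L u).wor.1
  | (true, u) => W.sgl u (W.lo L)

/-- the stage `j` is not involved in the line `L` -/
def Far (j : K) (L : Hub K N (Pt K N) r0) : Prop := ∀ i, W.sgs L i ≠ some j

/-- no stage of the group `g` is involved in the line `L` -/
def Fag (grp : K → G) (g : G) (L : Hub K N (Pt K N) r0) : Prop := ∀ j, grp j = g → W.Far j L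

/-- **The choice of the group.** -/
theorem exists_grp [Finite G] (grp : K → G) (ls : List (Hub K N (Pt K N) r0))
    (h : 4 * ls.length < Nat.card G) : ∃ g, ∀ L ∈ ls, W.Fag grp g L := by
  by_contra c
  push Not at c
  simp only [Fag, Far, not_forall, not_not] at c
  choose L hL j hj i hi using c
  choose k hk using fun g => List.mem_iff_get.1 (hL g)
  have := Nat.card_le_card_of_injective (fun g => (k g, i g)) fun g g' a => by
    have a1 : k g = k g' := congrArg Prod.fst a
    have a2 : i g = i g' := congrArg Prod.snd a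
    have := hi g
    rw [← hk, a1, hk, a2, hi g'] at this
    rw [← hj g, ← hj g', Option.some.inj this]
  simp only [Nat.card_prod, Nat.card_fin, Nat.card_eq_fintype_card (α := Bool),
    Fintype.card_bool] at this
  omega

variable {W} {j j' : K} {L L' : Hub K N (Pt K N) r0} {n : N} {grp : K → G} {g : G}

theorem Far.typ (h : W.Far j L) (u : Bool) : (W.S.typ L u).wor.1 ≠ j := fun c =>
  h (false, u) (congrArg some c)

theorem Far.cold (h : W.Far j L) : Cold j L := by
  rintro z rfl
  exact h.typ false rfl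

theorem Far.cold_dA (h : W.Far j L) : Cold j (W.S.O.dA L) := fun z c =>
  h.typ true (by simp only [Pre.typ, c]; rfl)

theorem Far.nxt (h : W.Far j L) : W.S.O.nxt j L = W.S.O.dA L := W.S.O.nxt_of_cold h.cold_dA

theorem Far.ne_sl (h : W.Far j L) (z : Pt K N × Fin 3) : L ≠ W.S.O.sl j z := fun c =>
  h.cold_dA z (W.S.O.eq_sl.1 c)

/-- the labels of the line are not in the worlds of the stage -/
theorem Far.sn (h : W.Far j L) (hD : 1 ≤ D) (u : Bool) (σ : Slot (r + 1)) :
    (W.S.wor (W.S.sn L u σ)).1 ≠ j := by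
  rw [W.S.wor_sn hD]
  exact h.typ u

theorem Far.wor (h : W.Far j L) (c : W.In L n) : (W.S.wor n).1 ≠ j := fun a => by
  obtain ⟨i, c⟩ := c
  exact h (true, true) (by simp only [sgs, c, sgl, a])

theorem fam_of_wor (h : (W.S.wor n).1 ≠ j) : W.B.fam j n = false :=
  W.fam_ne.2 fun c => h (by rw [c])

theorem Far.fam (h : W.Far j L) (c : W.In L n) : W.B.fam j n = false := fam_of_wor (h.wor c)

theorem Far.bk (h : W.Far j L) : W.Bk j L n ↔ W.In L n := bk_cold h.cold

theorem Far.hinge (h : W.Far j L) (i : Fin 4) : W.lo L ≠ inl (inr (inl j), i) := fun c =>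
  h (true, true) (by simp only [sgs, c, sgl])

theorem Far.hg (h : W.Far j L) : W.lo L ≠ Blk.hg j := h.hinge 0

theorem Far.guard (h : W.Far j L) {a a' : K} {z : Bool × Fin 6} {i : Fin 4}
    (c : W.lo L = inl (inr (inr (a, a', z)), i)) : j ≠ a ∧ j ≠ a' :=
  ⟨fun d => h (true, true) (by simp only [sgs, c, sgl, d, cond_true]),
    fun d => h (true, false) (by simp only [sgs, c, sgl, d, cond_false])⟩

/-- the line lies on the outer ring or in one of the last three loops -/
theorem Far.fb (h : W.Far j L) {y : Bl N K} {i : Fin 4} (c : W.lo L = inl (y, i)) :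
    W.B.fb j y = false := by
  rcases y with n | a | ⟨a, a', u, z⟩
  exacts [h.fam ⟨i, c⟩, rfl, if_neg (h.guard c).1]

theorem far_nl : W.Far j (nl n) ↔ ((W.S.wor n).1 ≠ j ∧ Cold j (W.S.O.dA (nl n))) := by
  refine ⟨fun h => ⟨h.wor (W.in_pay _), h.cold_dA⟩, ?_⟩
  rintro ⟨h, h'⟩ ⟨_ | _, u⟩ c
  · cases u
    · exact h (Option.some.inj c)
    · have a : W.In (W.S.O.dA (nl n)) n := W.in_dA.2 (W.in_pay (inl n))
      replace c : (W.S.ht (W.S.O.dA (nl n))).wor.1 = j := Option.some.inj c
      revert a c h'
      rcases W.S.O.dA (nl n) with (m | w) | z <;> intro h' a c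
      · obtain rfl := a.unique (W.in_pay (inl m))
        exact h c
      · obtain rfl := a.unique (W.in_pay (inr w))
        exact h c
      · exact h' z.2 (by rw [← c]; rfl)
  · exact h (Option.some.inj c)

/-- the places of the ports of two stages in the loop of the line -/
theorem Far.pl (h : W.Far j L) (h' : W.Far j' L)
    (p : ∀ n, W.lo L = inl (inl n, 0) → W.port j n = W.port j' n) :
    W.B.pl j (W.lo L) = W.B.pl j' (W.lo L) := by
  rcases c : W.lo L with ⟨n | a | ⟨a, a', z⟩, i⟩ | i
  · by_cases d : i = 0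
    · subst d
      simp only [Blk.pl_l, Dyn.blk, p n c]
    · simp only [Blk.pl_l, Dyn.blk, d, if_false]
  · rfl
  · have k := h.guard c
    have k' := h'.guard c
    simp only [Blk.pl]
    split_ifs <;> simp_all
  · rfl

/-- **Two stages of a group see the same order in a loop.** -/
theorem Fag.twin [LinearOrder G] (mono : ∀ i i', grp i < grp i' → W.idx i < W.idx i')
    (h : W.Fag grp g L) (h' : W.Fag grp g L') (a : grp j = g) (a' : grp j' = g)
    (c : W.lo L = W.lo L') (p : ∀ n, W.lo L = inl (inl n, 0) → W.port j n = W.port j' n) :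
    W.pos j L < W.pos j L' ↔ W.pos j' L < W.pos j' L' := by
  have k : ∀ L, W.Fag grp g L → ∀ i z, L = inr (i, z) → (W.idx j ≤ W.idx i ↔ W.idx j' ≤ W.idx i) := by
    rintro _ f i z rfl
    rcases lt_trichotomy (grp i) g with d | d | d
    · exact iff_of_false (mono _ _ (a ▸ d)).not_ge (mono _ _ (a' ▸ d)).not_ge
    · exact absurd rfl ((f i d).cold z)
    · exact iff_of_true (mono _ _ (a ▸ d)).le (mono _ _ (a' ▸ d)).le
  exact pos_twin (h j a).cold (h' j a).cold (h j' a').cold (h' j' a').cold c (h j a).hg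
    (h j' a').hg ((h j a).pl (h j' a') p) (k L h) (k L' h')

/-- a cold line is not the first line of the state -/
theorem exists_lt (h : Cold j L) : ∃ L0, W.pos j L0 < W.pos j L := by
  refine ⟨inr (j, W.B.rings.st j (elt L), 2), W.S.O.pos_lt_of_ep ?_⟩
  rw [Mac.el_2, show W.S.O.el j L = elt L from W.B.rings.el_cold h]
  refine W.B.rings.ep_lt.2 (Or.inr ⟨W.B.rings.st_self _ _, ?_⟩)
  rw [Rings.ph_self, Rings.ph]
  split_ifs with c
  · refine Or.inr ⟨rfl, lt_of_le_of_ne c fun d => ?_⟩
    have := W.B.rings.lki _ _ (W.B.rings.lo_st j (elt L)) d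
    rcases L with p | ⟨i, y, a⟩
    · exact nomatch this
    · exact cold_sys.1 h (Prod.ext_iff.1 (inr.inj this)).1.symm
  · exact Or.inl zero_lt_one

/-- a line comes directly before its cold head -/
theorem lt_dA (h : Cold j (W.S.O.dA L)) : W.pos j L < W.pos j (W.S.O.dA L) ∧
    ∀ u, W.pos j L < W.pos j u → W.pos j (W.S.O.dA L) ≤ W.pos j u := by
  have o := W.S.O.cyc j
  rw [← W.S.O.nxt_of_cold h]
  refine ⟨by_contra fun c => ?_, fun u a => (o.succ L trivial u trivial a).2⟩
  obtain ⟨L0, a⟩ := exists_lt (W := W) h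
  rw [← W.S.O.nxt_of_cold h] at a
  exact a.not_ge (o.wrap L trivial (fun w _ => not_lt.1 fun d => c (o.succ L trivial w trivial d).1)
    L0 trivial)

theorem lt_dA_iff (h : Cold j (W.S.O.dA L)) : W.pos j L' < W.pos j (W.S.O.dA L) ↔
    W.pos j L' ≤ W.pos j L :=
  ⟨fun a => not_lt.1 fun c => a.not_ge ((lt_dA h).2 _ c), fun a => a.trans_lt (lt_dA h).1⟩

theorem dA_le_iff (h : Cold j (W.S.O.dA L)) : W.pos j (W.S.O.dA L) ≤ W.pos j L' ↔
    W.pos j L < W.pos j L' := by rw [← not_lt, lt_dA_iff h, not_le]

end Wd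

end Pool.Agent.P.MP_439f1f_co
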