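import Pool.Agent.P.MP_439f1f_co.Dy2
import Pool.Agent.P.MP_439f1f_co.K5

/-!
The parameters of a state, their admissibility, and the data of the trees.
-/

set_option autoImplicit false

namespace Pool.Agent.P.MP_439f1f_co

open Sum Function

variable {K K' N : Type} {r r0 q D e b : ℕ}

namespace HT

/-- change of the stage -/
def map (f : K → K') : HT K r0 → HT K' r0
  | tS s p c => tS (f s.1, s.2) p c
  | tN s c l => tN (f s.1, s.2) c l
  | tE s c i => tE (f s.1, s.2) c i
  | hS s p c => hS (f s.1, s.2) p c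
  | hP s c => hP (f s.1, s.2) c
  | hM s c i => hM (f s.1, s.2) c i

/-- the types of second halves -/
def hd : HT K r0 → Bool
  | hS _ _ _ => true
  | hP _ _ => true
  | hM _ _ _ => true
  | _ => false

variable (f : K → K') (T : HT K r0)

@[simp] theorem len_map : (T.map f).len r = T.len r := by cases T <;> rfl
@[simp] theorem col_map : (T.map f).col = T.col := by cases T <;> rfl
@[simp] theorem wor_map : (T.map f).wor = (f T.wor.1, T.wor.2) := by cases T <;> rfl
@[simp] theorem hd_map : (T.map f).hd = T.hd := by cases T <;> rfl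

theorem map_fg : ((T.map fun _ => ()).map fun _ => T.wor.1) = T := by cases T <;> rfl

theorem fg_map (T : HT Unit r0) (j : K) : ((T.map fun _ => j).map fun _ => ()) = T := by
  cases T <;> rfl

end HT

/-- the kinds of classes: the stage is forgotten -/
abbrev Kd (r r0 : ℕ) : Type := Kl Unit r r0

namespace Kl

/-- the type of a class -/
abbrev ty (T : Kl K r r0) : HT K r0 := T.1.1
/-- the slot of a class -/
abbrev sl (T : Kl K r r0) : Slot (r + 1) := T.1.2
/-- the stage of a class -/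
abbrev stg (T : Kl K r r0) : K := T.ty.wor.1
/-- the position of the slot in the half line -/
abbrev off (T : Kl K r r0) : ℕ := T.sl.off (T.ty.len r)

/-- change of the stage -/
def map (f : K → K') (T : Kl K r r0) : Kl K' r r0 := ⟨(T.ty.map f, T.sl), by simpa using T.2⟩

/-- the kind of a class -/
def kind (T : Kl K r r0) : Kd r r0 := T.map fun _ => ()

@[simp] theorem ty_map (f : K → K') (T : Kl K r r0) : (T.map f).ty = T.ty.map f := rfl
@[simp] theorem sl_map (f : K → K') (T : Kl K r r0) : (T.map f).sl = T.sl := rfl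
@[simp] theorem ty_kind (T : Kl K r r0) : T.kind.ty = T.ty.map fun _ => () := rfl
@[simp] theorem sl_kind (T : Kl K r r0) : T.kind.sl = T.sl := rfl
theorem val_kind (T : Kl K r r0) : T.kind.1 = (T.ty.map fun _ => (), T.sl) := rfl

theorem map_kind (T : Kl K r r0) : (T.kind.map fun _ => T.stg) = T :=
  Subtype.ext (Prod.ext T.ty.map_fg rfl)

theorem kind_map (κ : Kd r r0) (j : K) : (κ.map fun _ => j).kind = κ :=
  Subtype.ext (Prod.ext (κ.ty.fg_map j) rfl)

theorem ext_kind {T T' : Kl K r r0} (h : T.kind = T'.kind) (s : T.stg = T'.stg) : T = T' := by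
  rw [← T.map_kind, h, s, T'.map_kind]

/-- the value of a class from the value of its kind -/
theorem val_of_kind {T : Kl K r r0} {t : HT Unit r0} {σ : Slot (r + 1)} (h : T.kind.1 = (t, σ)) :
    T.1 = (t.map fun _ => T.stg, σ) := by
  obtain ⟨rfl, rfl⟩ := Prod.ext_iff.1 h.symm
  exact Prod.ext T.ty.map_fg.symm rfl

theorem kind_of_val {T : Kl K r r0} {t : HT K r0} {σ : Slot (r + 1)} (h : T.1 = (t, σ)) :
    T.kind.1 = (t.map fun _ => (), σ) := by
  obtain ⟨rfl, rfl⟩ := Prod.ext_iff.1 h.symm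
  rfl

end Kl

/-- The parameters of a state: directions, the levels `kap` of the cuts of the trees at rest, two
items (kinds `ks`, selector `sel`, direction `dir`, level `cut` of the cut, `0` if alive,
coordinate `lk`), the open item `op` with the entry index `ek`, the place `fl` of the entry trees
and the flag `flip`, and the ports `np`. -/
structure Par (r r0 D : ℕ) where
  dr : Bool
  cd : Bool
  rk : Bool
  rook : Bool
  sp : Bool
  flip : Bool
  kap : ZMod 3 → Fin 7
  ks : Bool → Set (Kd r r0)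
  sel : Bool → Option Bool
  dir : Bool → Bool
  cut : Bool → Fin (D + 1)
  lk : Bool → Option Bool
  op : Option Bool
  fl : Fin 3
  ek : Fin (r0 + 1)
  np : ZMod 3 → Fin (r0 + 1)

instance : Finite (Par r r0 D) :=
  Finite.of_injective (fun p => ((p.dr, p.cd, p.rk, p.rook, p.sp, p.flip, p.kap, p.ks),
    (p.sel, p.dir, p.cut, p.lk, p.op, p.fl, p.ek, p.np))) fun p p' h => by
      cases p
      cases p'
      simpa [and_assoc] using h

/-- the windows on the tree of the labels `Z` with the index `p` and the colour `c` -/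
def winZ (p : ZMod 12) (c : ZMod 3) (l : ℕ) : Option (ℕ × ℕ) :=
  if 7 ≤ l ∧ l < 31 then some (36 * p.val + 9 * ((l - 7) / 6) + 3 * c.val + (l - 7) / 2 % 3,
    if l < 13 ∧ p.val % 3 ≠ 2 then ![0, 2] (Fin.ofNat 2 (l - 7)) else ![1, 4] (Fin.ofNat 2 (l - 7)))
  else none

/-- the windows on the tree of the first labels with the index `p` and the colour `c` -/
def winL (p : ZMod 12) (c : ZMod 3) (l : ℕ) : Option (ℕ × ℕ) :=
  if 7 ≤ l ∧ l < 55 then
    some (36 * (p + ((l - 7) / 12 + 1 : ℕ)).val + 9 * ((l - 7) / 12) + 3 * ((l - 7) / 4 % 3) + c.val,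
      if l < 19 ∧ (p + 1).val % 3 ≠ 2 then ![1, 3, 8, 9] (Fin.ofNat 4 (l - 7))
      else ![3, 5, 0, 2] (Fin.ofNat 4 (l - 7)))
  else none

/-- the layouts of a block: `f` node before moat, `s` spacers first -/
def blay (s f : Bool) : Equiv.Perm (Fin 4) :=
  if s then (if f then Fin.revPerm else Equiv.swap 2 3 * Fin.revPerm)
  else if f then Equiv.swap 0 1 else 1

theorem blay_lt (s f : Bool) : blay s f 0 < blay s f 1 ↔ f = false := by revert s f; decide
theorem blay_gt (s f : Bool) : blay s f 1 < blay s f 0 ↔ f = true := by revert s f; decide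

namespace Par

variable (π : Par r r0 D)

/-- the kinds of the items (`some i`) and of the entry trees (`none`) -/
def mem : Option Bool → Kd r r0 → Prop
  | some i, κ => κ ∈ π.ks i
  | none, κ => ∃ i, ∃ κ0 ∈ π.ks i, π.op = some i ∧ κ.1 = (.hM κ0.ty.wor (κ0.ty.col + 1) π.ek, .Z)

/-- the selectors -/
def sl : Option Bool → Option Bool
  | some i => π.sel i
  | none => π.op.bind π.sel

/-- the selectors do not exclude each other -/
def Shr (a a' : Option Bool) : Prop := ∀ s s', π.sl a = some s → π.sl a' = some s' → s = s'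

/-- alive or open -/
def Al (a : Option Bool) (κ : Kd r r0) : Prop :=
  π.mem a κ ∧ ∀ i, a = some i → π.cut i = 0 ∨ π.op = some i

/-- the order of the items and of the entry trees -/
def zi : Option Bool → ℕ
  | some i => cond i 3 1
  | none => 2 * π.fl

/-- both are closed, `a'` comes first, and the trees of the colour `c - 1` are not between them -/
def Ord (a a' : Option Bool) (c : ZMod 3) : Prop :=
  (∀ i, π.op = some i → a ≠ some i ∧ a' ≠ some i) ∧ π.zi a' < π.zi a ∧
    ∀ a0 κ, π.mem a0 κ → κ.ty.col + 1 = c → π.zi a0 < π.zi a' ∨ π.zi a < π.zi a0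

/-- **Admissible parameters.** -/
structure Adm : Prop where
  kap : ∀ c, π.kap c = 2 ∨ π.kap c = 4 ∨ π.kap c = 6
  cut : ∀ i, (π.cut i : ℕ) % 2 = 0 ∨ (π.cut i : ℕ) = D
  dis : ∀ a a' κ, a ≠ a' → π.mem a κ → π.mem a' κ → ¬π.Shr a a'
  rook : π.rook = true → π.op = none ∧ ∀ i, π.cut i = 0
  lev : ∀ a κ w c l, π.Al a κ → κ.1 = (.tN w (c + 1) l, .H) → lc (π.kap c) ≠ l ∧
    ∀ i, ∀ κ' ∈ π.ks i, κ'.ty.col = c → π.cut i ≠ 0 → lc (π.cut i) ≠ l
  con : ∀ a a' κ κ', π.Al a κ → π.Al a' κ' → π.Shr a a' → κ.ty = κ'.ty → κ'.off = κ.off + 1 →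
    π.Ord a a' κ.ty.col ∧ (π.rook = true →
      π.lk true = some (κ.sl.lk κ'.sl).1 ∧ π.lk false = some (κ.sl.lk κ'.sl).2)
  jun : ∀ a a' κ κ', π.Al a κ → π.Al a' κ' → κ.ty.hd = false → κ.sl = .Z → κ'.ty.hd = true →
    κ'.sl = .H → κ.ty.col = κ'.ty.col → π.Ord a a' κ.ty.col ∧ π.rook = false
  mz : ∀ a a' κ κ' w c k, π.Al a κ → π.Al a' κ' → π.Shr a a' → κ.1 = (.hM w (c + 1) k, .Z) →
    κ'.1 = (.hP w (c + 1), .Z) → π.Ord a a' (c + 1) ∧ (π.rook = true → ∀ i, π.lk i = none) ∧
      (a = none → π.flip = true) ∧ k ≤ π.np c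
  mh : ∀ a a' κ κ' w c k i, π.Al a κ → π.Al a' κ' → π.Shr a a' → κ.1 = (.hM w (c + 1) k, .Z) →
    κ'.1 = (.tE w (c + 1) i, .H) → a ≠ none ∧ (el (r0 + 1) (π.np c) k < el (r0 + 1) (π.np c) i ∨
      (k = i ∧ el (r0 + 1) (π.np c) i % 2 = 0))
  lz : ∀ a a' κ κ' w p c p' c', π.Al a κ → π.Al a' κ' → π.Shr a a' → κ.1 = (.tS w p c, .H) →
    κ'.1 = (.hS w p' c', .Z) → 4 ≤ (p - p').val
  np1 : ∀ c c', π.np c ≠ Fin.last _ → π.np c' ≠ Fin.last _ → c = c'
  np2 : ∀ c, π.np c ≠ Fin.last _ → π.op = none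
  np3 : ∀ a κ w c k, π.Al a κ → κ.1 = (.hM w (c + 1) k, .Z) → (π.np c : ℕ) % 2 = 0 → k ≤ π.np c
  one : ∀ i, π.op = some i → (π.ks i).Subsingleton ∧ (π.cut i : ℕ) ≤ 6 ∧ (π.ek : ℕ) % 2 = 1 ∧
    (π.cut (!i) = 0 ∨ (π.cut (!i) : ℕ) = D)
  nom : ∀ i, π.op = some i → π.cut (!i) = 0 → ∀ κ ∈ π.ks (!i), ∀ κ0 ∈ π.ks i, ∀ w k,
    κ.1 ≠ (.hM w (κ0.ty.col + 1) k, .Z)
  nxt : ∀ i, π.op = some i → ∀ κ ∈ π.ks i, ∀ w c l, κ.1 = (.tN w c l, .H) →
    (i = false ∧ π.fl = 1) ∨ (π.fl = 2 ∧ (i = true ∨ π.ks true = ∅)) ∨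
      (π.fl = 2 ∧ ∀ κ' ∈ π.ks (!i), κ'.ty.col + 1 ≠ c)
  flip : π.flip = true → π.fl = 2 ∧ ∀ i, π.op = some i → ∀ κ ∈ π.ks (!i), i = false ∧
    π.cut true = 0 ∧ ∀ κ0 ∈ π.ks i, ∃ w, κ.1 = (.hP w (κ0.ty.col + 1), .Z)

/-- no items -/
def base (r r0 D : ℕ) : Par r r0 D where
  dr := true
  cd := true
  rk := true
  rook := false
  sp := false
  flip := false
  kap _ := 2
  ks _ := ∅
  sel _ := none
  dir _ := true
  cut _ := 0
  lk _ := none
  op := none
  fl := 0
  ek := 0
  np _ := Fin.last _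

theorem adm_base : (base r r0 D).Adm := by
  have m : ∀ a κ, ¬(base r r0 D).mem a κ := by rintro (_ | i) κ <;> simp [mem, base]
  have a : ∀ a κ, ¬(base r r0 D).Al a κ := fun a κ h => m a κ h.1
  constructor <;> first | (simp [base]; done) | simp [m, a]

/-- the zones of the items -/
def zI (i : ℕ) : ℕ := cond π.dr 3 0 + i

/-- the zones of the trees at rest -/
def zR (c : ZMod 3) : ℕ := cond π.dr c.val (7 - c.val)

/-- the nodes of the level `l` of the item `i` are open -/
def Ol (i : Bool) (l : ℕ) : Prop := π.op = some i ∧ (π.cut i : ℕ) ≤ l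

instance (i : Bool) (l : ℕ) : Decidable (π.Ol i l) := inferInstanceAs (Decidable (_ ∧ _))

/-- trees at rest -/
def tdR (c : ZMod 3) : TD r0 where
  gr := 3
  zn := π.zR c
  zl := 0
  zw := 0
  kap := π.kap c
  asc := π.dr
  dr := π.dr
  cs := π.cd
  ud := false
  sep := false
  co := none
  up := true
  rk := 0
  wk := 0
  win _ := none
  port _ := π.np c
  lay _ := blay π.sp false

/-- entry trees -/
def tdE (c : ZMod 3) : TD r0 := { π.tdR c with zn := π.zI (π.zi none), kap := 0 }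

/-- trees of the item `i`; `w` is the number of the world -/
def tdI (i : Bool) (c : ZMod 3) (w : ℕ) : TD r0 :=
  { π.tdR c with
    zn := π.zI (π.zi (some (xor π.rook i)))
    zl := π.zI 2
    kap := π.cut i
    asc := π.dir i || decide (π.op = some i)
    sep := π.rook
    co := π.lk i
    up := π.rk
    rk := cond i 1 0
    wk := sg π.rk w
    port l := if π.Ol i l then 0 else π.np c
    lay l := blay π.sp (π.flip && decide (π.Ol i l)) }

/-- frozen trees that are cut -/
def tdF (f : Bool) : TD r0 :=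
  { π.tdR 0 with gr := cond f 2 1, zn := 2, kap := 2, asc := true, port _ := Fin.last _ }

/-- frozen trees that are alive -/
def tdW (f : Bool) (z k : ℕ) (w : ℕ → Option (ℕ × ℕ)) : TD r0 :=
  { π.tdF f with zn := 1, zl := z, kap := 0, dr := true, cs := true, sep := true, wk := k, win := w }

/-- frozen trees -/
def tdz : HT K r0 × Slot (r + 1) → TD r0
  | (.hS w p c, .Z) => π.tdW w.2 3 p.val (winZ p c)
  | (.tS w p c, .H) => π.tdW w.2 4 p.val (winL p c)
  | z => π.tdF z.1.wor.2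

theorem tdz_cases (z : HT K r0 × Slot (r + 1)) :
    (∃ w p c, z = (.hS w p c, .Z) ∧ π.tdz z = π.tdW w.2 3 p.val (winZ p c)) ∨
    (∃ w p c, z = (.tS w p c, .H) ∧ π.tdz z = π.tdW w.2 4 p.val (winL p c)) ∨
    ((∀ w p c, z ≠ (.hS w p c, .Z)) ∧ (∀ w p c, z ≠ (.tS w p c, .H)) ∧
      π.tdz z = π.tdF z.1.wor.2) := by
  obtain ⟨t, σ⟩ := z
  cases t <;> cases σ <;> simp [tdz]

theorem tdz_gr (z : HT K r0 × Slot (r + 1)) : (π.tdz z).gr = cond z.1.wor.2 2 1 := by
  rcases π.tdz_cases z with ⟨w, p, c, rfl, h⟩ | ⟨w, p, c, rfl, h⟩ | ⟨-, -, h⟩ <;> rw [h] <;> rfl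

/-- the class `T` is selected for the item or the entry trees `a` -/
def Sel (om : K → Bool) (a : Option Bool) (T : Kl K r r0) : Prop :=
  π.mem a T.kind ∧ ∀ s, π.sl a = some s → om T.stg = s

open Classical in
/-- the data of the tree `T` in the state `j` -/
noncomputable def td (om : K → Bool) (cw : K × Bool → ℕ) (j : K) (T : Kl K r r0) : TD r0 :=
  if T.stg = j then π.tdz T.1
  else if π.Sel om (some false) T then π.tdI false T.ty.col (cw T.ty.wor)
  else if π.Sel om (some true) T then π.tdI true T.ty.col (cw T.ty.wor)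
  else if π.Sel om none T then π.tdE T.ty.col else π.tdR T.ty.col

open Classical in
theorem td_gr (om : K → Bool) (cw : K × Bool → ℕ) (j : K) (T : Kl K r r0) :
    (π.td om cw j T).gr = if T.stg = j then cond T.ty.wor.2 2 1 else 3 := by
  unfold td
  split_ifs
  exacts [π.tdz_gr _, rfl, rfl, rfl, rfl]

variable {π}

theorem Adm.sel_eq (h : π.Adm) {om : K → Bool} {a a' : Option Bool} {T : Kl K r r0}
    (c : π.Sel om a T) (c' : π.Sel om a' T) : a = a' := by_contra fun ne =>
  h.dis a a' _ ne c.1 c'.1 fun s s' d d' => (c.2 s d).symm.trans (c'.2 s' d')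

theorem Sel.shr {om : K → Bool} {a a' : Option Bool} {T T' : Kl K r r0} (c : π.Sel om a T)
    (c' : π.Sel om a' T') (h : T.stg = T'.stg) : π.Shr a a' :=
  fun s s' d d' => (c.2 s d).symm.trans (h ▸ c'.2 s' d')

end Par

/-- **All data.**  The stage `j` has the parameters `par j` and the selector `om j`; every group
contains stages for all admissible parameters, with a selector that is prescribed on eight
stages. -/
structure Fw (K N : Type) (r r0 q D e b : ℕ) where
  F : Fo K N r r0 q D e b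
  o : Bool → N → ℕ
  ho : F.Dfs o
  ct : Kl K r r0 → ℕ
  cti : Injective ct
  cw : K × Bool → ℕ
  cwi : Injective cw
  cb : Pu K → ℕ
  cbi : Injective cb
  idx : K → ℕ
  idxi : Injective idx
  grp : K → Fin 64
  mono : ∀ i i', grp i < grp i' → idx i < idx i'
  par : K → Par r r0 D
  adm : ∀ j, (par j).Adm
  om : K → K → Bool
  shat : ∀ (l : List K) (φ : K → Bool), l.length ≤ 8 → ∃ w : K → Bool, (∀ a ∈ l, w a = φ a) ∧
    ∀ g π, π.Adm → ∃ j, grp j = g ∧ par j = π ∧ om j = w
  od : D % 2 = 1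
  ev : r0 % 2 = 0
  he : 12 ≤ e
  hD : 5 * e + 64 ≤ D
  hr : e ≤ r
  hr0 : e ≤ r0
  hq : e ≤ q
  stem : ∀ x y l, 1 ≤ l → l ≤ 56 → (F.anc x l = F.anc y l ↔ x.1 = y.1)
  x : Hub K N (Pt K N) r0 → Bool → Vr (r + 1) → Fin q

/-- the layouts of the blocks without payload -/
def play [DecidableEq K] (d : Bool) (j : K) : Pu K → Equiv.Perm (Fin 4)
  | inl _ => cond d 1 Fin.revPerm
  | inr z => if j = z.1 then Equiv.swap 0 1 else if j = z.2.1 then 1 else cond d 1 Fin.revPerm

namespace Fw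

variable [DecidableEq K] (V : Fw K N r r0 q D e b)

/-- a selector that separates `a` from two stages -/
theorem rich_w (a a' a'' : K) : ∃ w : K → Bool, w a = true ∧ (a' ≠ a → w a' = false) ∧
    (a'' ≠ a → w a'' = false) ∧ ∀ g π, π.Adm → ∃ j, V.grp j = g ∧ V.par j = π ∧ V.om j = w :=
  let ⟨w, h, h'⟩ := V.shat [a, a', a''] (fun s => decide (s = a)) (by simp)
  ⟨w, by simp [h], by simp [h], by simp [h], h'⟩

theorem rich (g : Fin 64) (π : Par r r0 D) (c : π.Adm) (a a' a'' : K) :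
    ∃ j, V.grp j = g ∧ V.par j = π ∧ V.om j a = true ∧ (a' ≠ a → V.om j a' = false) ∧
      (a'' ≠ a → V.om j a'' = false) :=
  let ⟨_, h1, h2, h3, h⟩ := V.rich_w a a' a''
  let ⟨j, a1, a2, a3⟩ := h g π c
  ⟨j, a1, a2, a3 ▸ ⟨h1, h2, h3⟩⟩

/-- the data of the trees -/
noncomputable def S : Sw K N r r0 q D e b where
  F := V.F
  o := V.o
  ho := V.ho
  ct := V.ct
  cti := V.cti
  idx := V.idx
  idxi := V.idxi
  cz j z := sg (V.par j).dr (if z = inl j then 0 else V.cb z + 1)
  czi _ _ _ h := by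
    have := sg_inj h
    split_ifs at this with c c' c' <;>
      first | exact c.trans c'.symm | omega | exact V.cbi (by omega)
  lz j := play (V.par j).dr j
  lay1 j j' b q _ := by simp [play]
  lay2 j j' b q h := by simp [play, h.symm]
  pad j := cond (V.par j).dr 1 Fin.revPerm
  td j := (V.par j).td (V.om j) V.cw j
  gr1 j T h := by simp [Par.td_gr, Kl.stg, h]
  gr2 j T h := by
    rw [Par.td_gr]
    split_ifs with c
    · rcases d : T.ty.wor with ⟨i, _ | _⟩
      exacts [absurd (by rw [d, ← c, Kl.stg, d]) h, le_rfl]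
    · omega
  x := V.x

/-- the construction -/
noncomputable abbrev W : Wd K N Kq r r0 q D e b := V.S.W

/-- the state `j` -/
noncomputable abbrev L (j : K) : Lay (Kl K r r0) N q D e b r0 := V.S.L j

@[simp] theorem S_F : V.S.F = V.F := rfl
@[simp] theorem S_o : V.S.o = V.o := rfl
@[simp] theorem S_ct : V.S.ct = V.ct := rfl
@[simp] theorem S_idx : V.S.idx = V.idx := rfl
theorem S_cz (j : K) (z : Pu K) :
    V.S.cz j z = sg (V.par j).dr (if z = inl j then 0 else V.cb z + 1) := rfl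
theorem S_lz (j : K) : V.S.lz j = play (V.par j).dr j := rfl
theorem S_pad (j : K) : V.S.pad j = cond (V.par j).dr 1 Fin.revPerm := rfl
theorem S_td (j : K) : V.S.td j = (V.par j).td (V.om j) V.cw j := rfl
theorem L_dt (j : K) (n : N) : (V.L j).dt n = V.S.td j (V.F.tree n) := rfl

omit [DecidableEq K] in
/-- the tree `T` belongs to the item (`some i`) or to the entry trees (`none`) of the state `j` -/
def Role (j : K) (a : Option Bool) (T : Kl K r r0) : Prop :=
  T.stg ≠ j ∧ (V.par j).Sel (V.om j) a T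

omit [DecidableEq K] in
/-- the tree `T` is at rest -/
def Rest (j : K) (T : Kl K r r0) : Prop := T.stg ≠ j ∧ ∀ a, ¬(V.par j).Sel (V.om j) a T

omit [DecidableEq K] in
theorem cases (j : K) (T : Kl K r r0) :
    T.stg = j ∨ (∃ i, V.Role j (some i) T) ∨ V.Role j none T ∨ V.Rest j T := by
  by_contra h
  simp only [not_or, not_exists, Role, Rest, not_and, not_forall, not_not] at h
  obtain ⟨_ | i, c⟩ := h.2.2.2 h.1
  exacts [h.2.2.1 h.1 c, h.2.1 i h.1 c]

variable {V} {j : K} {T T' : Kl K r r0} {a a' : Option Bool} {i : Bool}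

omit [DecidableEq K] in
theorem Role.eq (h : V.Role j a T) (h' : V.Role j a' T) : a = a' := (V.adm j).sel_eq h.2 h'.2

omit [DecidableEq K] in
theorem Role.not_rest (h : V.Role j a T) : ¬V.Rest j T := fun c => c.2 a h.2

omit [DecidableEq K] in
theorem Role.shr (h : V.Role j a T) (h' : V.Role j a' T') (s : T.stg = T'.stg) :
    (V.par j).Shr a a' := h.2.shr h'.2 s

theorem td_fz (h : T.stg = j) : V.S.td j T = (V.par j).tdz T.1 := if_pos h

theorem Role.td (h : V.Role j (some i) T) :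
    V.S.td j T = (V.par j).tdI i T.ty.col (V.cw T.ty.wor) := by
  cases i
  · exact (if_neg h.1).trans (if_pos h.2)
  · exact (if_neg h.1).trans ((if_neg fun c => by simpa using h.eq ⟨h.1, c⟩).trans (if_pos h.2))

theorem Role.td_en (h : V.Role j none T) : V.S.td j T = (V.par j).tdE T.ty.col :=
  (if_neg h.1).trans ((if_neg fun c => by simpa using h.eq ⟨h.1, c⟩).trans
    ((if_neg fun c => by simpa using h.eq ⟨h.1, c⟩).trans (if_pos h.2)))

theorem Rest.td (h : V.Rest j T) : V.S.td j T = (V.par j).tdR T.ty.col :=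
  (if_neg h.1).trans ((if_neg (h.2 _)).trans ((if_neg (h.2 _)).trans (if_neg (h.2 _))))

end Fw

theorem exists_pow_le (c m : ℕ) : ∃ t, c * (2 ^ t) ^ m ≤ 2 ^ 2 ^ t := by
  obtain ⟨s, hs⟩ : ∃ s, s = c + 2 * m + 1 := ⟨_, rfl⟩
  have h1 : s < 2 ^ s := Nat.lt_two_pow_self
  have h2 : c < 2 ^ c := Nat.lt_two_pow_self
  refine ⟨2 * s, (Nat.mul_le_mul_right _ h2.le).trans ?_⟩
  rw [← pow_mul, ← pow_add]
  exact Nat.pow_le_pow_right two_pos (by rw [two_mul s, pow_add]; nlinarith)

/-- selectors with prescribed values on few stages -/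
theorem exists_shat (B : Type) [Finite B] (m : ℕ) : ∃ (C : Type) (_ : Finite C) (_ : Nonempty C)
    (om : C → B × C → Bool), ∀ (l : List (B × C)) (φ : B × C → Bool), l.length ≤ m →
      ∃ w, ∀ a ∈ l, om w a = φ a := by
  classical
  have := Fintype.ofFinite B
  obtain ⟨t, h⟩ := exists_pow_le (Fintype.card B * Fintype.card ((Fin m × Fin m → Bool) → Bool))
    (m * m)
  obtain ⟨f⟩ : Nonempty (B × (Fin m × Fin m → Fin (2 ^ t)) × ((Fin m × Fin m → Bool) → Bool) ↪
      (Fin (2 ^ t) → Bool)) := Embedding.nonempty_of_card_le (by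
    rw [Fintype.card_prod, Fintype.card_prod, mul_comm (Fintype.card (_ → Fin _)), ← mul_assoc]
    simpa using h)
  refine ⟨(Fin m × Fin m → Fin (2 ^ t)) × ((Fin m × Fin m → Bool) → Bool), inferInstance,
    inferInstance, fun w s => w.2 fun i => f s (w.1 i), fun l φ c => ?_⟩
  have k : ∀ i : Fin m × Fin m, ∃ x, ∀ a a', l[i.1]? = some a → l[i.2]? = some a' →
      f a x = f a' x → a = a' := fun i => by
    by_contra! d
    choose a a' h1 h2 h3 h4 using d
    exact h4 0 (f.injective (funext fun x => by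
      rw [Option.some.inj ((h1 0).symm.trans (h1 x)), Option.some.inj ((h2 0).symm.trans (h2 x)),
        h3]))
  choose x k using k
  refine ⟨(x, fun z => decide (∃ a ∈ l, φ a = true ∧ z = fun i => f a (x i))), fun a d => ?_⟩
  refine Bool.eq_iff_iff.2 (decide_eq_true_iff.trans ⟨?_, fun z => ⟨a, d, z, rfl⟩⟩)
  rintro ⟨a', d', z, z'⟩
  obtain ⟨i, h1, rfl⟩ := List.getElem_of_mem d
  obtain ⟨i', h2, rfl⟩ := List.getElem_of_mem d'
  rwa [k (⟨i, by omega⟩, ⟨i', by omega⟩) _ _ (List.getElem?_eq_getElem h1)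
    (List.getElem?_eq_getElem h2) (congrFun z' _)]

/-- **Existence.** -/
theorem exists_fw (k : ℕ) (h : 12 ≤ k) : ∃ (K N : Type) (_ : Finite K) (_ : DecidableEq K)
    (_ : Nonempty K) (_ : Finite N) (r r0 q D b : ℕ) (V : Fw K N r r0 q D k b),
    V.W.S.Good k := by
  classical
  let B := Fin 64 × {π : Par k (2 * k) (2 * (3 * k + 32) + 1) // π.Adm}
  have : Nonempty B := ⟨0, ⟨_, Par.adm_base⟩⟩
  obtain ⟨C, _, _, om, hom⟩ := exists_shat B 8
  obtain ⟨q, b, N, _, F, a1, a2, a3⟩ := exists_sw (B × C) k k (2 * k) 26 (2 * (3 * k + 32) + 1) k h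
    (by omega) (by omega) (by omega)
  have := Fintype.ofFinite (B × C)
  obtain ⟨o, ho⟩ := F.exists_dfs
  obtain ⟨ct, cti⟩ := exists_injective_nat (Kl (B × C) k (2 * k))
  obtain ⟨cw, cwi⟩ := exists_injective_nat ((B × C) × Bool)
  obtain ⟨cb, cbi⟩ := exists_injective_nat (Pu (B × C))
  obtain ⟨M, ⟨nu⟩⟩ := Finite.exists_equiv_fin (B × C)
  have mono : ∀ i i' : B × C, i.1.1 < i'.1.1 → i.1.1 * M + nu i < i'.1.1 * M + nu i' :=
    fun i i' c => by nlinarith [(nu i).2, Nat.mul_le_mul_right M (Nat.succ_le_of_lt c)]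
  let V := fun x => Fw.mk F o ho ct cti cw cwi cb cbi (fun i => i.1.1 * M + nu i)
    (fun i i' c => by
      have d : i.1.1 = i'.1.1 := le_antisymm (not_lt.1 fun d => (mono _ _ d).ne' c)
        (not_lt.1 fun d => (mono _ _ d).ne c)
      exact nu.injective (Fin.ext (by simpa [d] using c)))
    (fun i => i.1.1) mono (fun i => i.1.2.1) (fun i => i.1.2.2) (fun j => om j.2)
    (fun l φ c => let ⟨w, d⟩ := hom l φ c
      ⟨om w, d, fun g π c => ⟨((g, ⟨π, c⟩), w), rfl, rfl, rfl⟩⟩)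
    (by omega) (by omega) h (by omega) le_rfl (by omega) a1 a2 x
  obtain ⟨x, hx⟩ := a3 (V fun _ _ _ => ⟨0, by omega⟩).S.toSch rfl
  exact ⟨B × C, N, inferInstance, inferInstance, inferInstance, ‹_›, _, _, q, _, b, V x, hx⟩

/-- **The final assembly.** -/
theorem mnh_of
    (safe : ∀ (K N : Type) [Finite K] [DecidableEq K] [Nonempty K] [Finite N] (r r0 q D e b : ℕ)
      (V : Fw K N r r0 q D e b) [Fintype (Hub K N (Pt K N) r0)] [DecidableEq (Hub K N (Pt K N) r0)],
      ¬(HL (2 * r + 9) V.W.S.hang).IsHamiltonian)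
    (serve : ∀ (K N : Type) [Finite K] [DecidableEq K] [Nonempty K] [Finite N] (r r0 q D e b : ℕ)
      (V : Fw K N r r0 q D e b) [Fintype (Hub K N (Pt K N) r0)] [DecidableEq (Hub K N (Pt K N) r0)],
      V.W.S.Good e → ∀ u v, u ≠ v → ¬(HL (2 * r + 9) V.W.S.hang).Adj u v →
        (HL (2 * r + 9) V.W.S.hang ⊔ SimpleGraph.edge u v).IsHamiltonian) (k : ℕ) :
    ∃ n : ℕ, ∃ G : SimpleGraph (Fin n), ¬G.IsHamiltonian ∧
      (∀ u v : Fin n, u ≠ v → ¬G.Adj u v →
        (G ⊔ SimpleGraph.fromEdgeSet {s(u, v)}).IsHamiltonian) ∧ ¬G.IsAcyclic ∧ k ≤ G.girth := by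
  classical
  obtain ⟨K, N, _, _, _, _, r, r0, q, D, b, V, g⟩ := exists_fw (k + 12) (by omega)
  have := Fintype.ofFinite (Hub K N (Pt K N) r0)
  have : Nonempty (Hub K N (Pt K N) r0) := ⟨inr (Classical.arbitrary _, none, 0)⟩
  exact V.W.S.mnh g (by omega) (by omega) (safe K N _ _ _ _ _ _ V) (serve K N _ _ _ _ _ _ V g)

end Pool.Agent.P.MP_439f1f_co
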