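import Pool.Agent.P.MP_439f1f_co.Dy3

/-!
The nodes in a state: open nodes, ports, pairs, routes, zones.
-/

set_option autoImplicit false
set_option linter.unusedSectionVars false

namespace Pool.Agent.P.MP_439f1f_co

open Sum Function

variable {K N : Type} {r r0 q D e b : ℕ} [DecidableEq K]

namespace Fw

variable (V : Fw K N r r0 q D e b)

include V in
theorem D_pos : 1 ≤ D := by have := V.hD; omega

include V in
theorem two_r0 : 2 ≤ r0 := by have := V.hr0; have := V.he; omega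

/-- the tree is alive or open -/
def Alv (j : K) (a : Option Bool) (T : Kl K r r0) : Prop :=
  V.Role j a T ∧ ∀ i, a = some i → (V.par j).cut i = 0 ∨ (V.par j).op = some i

/-- the tree is alive and not frozen -/
def Liv (j : K) (T : Kl K r r0) : Prop := ∃ a, V.Role j a T ∧ ∀ i, a = some i → (V.par j).cut i = 0

/-- the tree is open -/
def Ot (j : K) (T : Kl K r r0) : Prop := ∃ i, V.Role j (some i) T ∧ (V.par j).op = some i

/-- the tree is frozen and alive -/
def Own (j : K) (T : Kl K r r0) : Prop :=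
  ∃ f p c, T.1 = (.hS (j, f) p c, .Z) ∨ T.1 = (.tS (j, f) p c, .H)

/-- the tree is cut and closed -/
def Cut (j : K) (T : Kl K r r0) : Prop := V.Rest j T ∨ (T.stg = j ∧ ¬Own j T) ∨
  ∃ i, V.Role j (some i) T ∧ (V.par j).cut i ≠ 0 ∧ (V.par j).op ≠ some i

/-- the node is open -/
def Opn (j : K) (n : N) : Prop := ∃ i, V.Role j (some i) (V.F.tree n) ∧ (V.par j).Ol i (V.F.lev n)

/-- the node is open towards the entry `k` -/
def opn (j : K) (n : N) (k : ℕ) : Prop := V.Opn j n ∧ k = (V.par j).ek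

/-- the level of the cut -/
noncomputable abbrev kap (j : K) (T : Kl K r r0) : ℕ := (V.S.td j T).kap

theorem cases' (j : K) (T : Kl K r r0) : V.Cut j T ∨ (∃ a, V.Alv j a T) ∨ Own j T := by
  rcases V.cases j T with h | ⟨i, h⟩ | h | h
  · exact (em _).symm.imp (fun c => Or.inr (Or.inl ⟨h, c⟩)) Or.inr
  · by_cases c : (V.par j).cut i = 0 ∨ (V.par j).op = some i
    · exact Or.inr (Or.inl ⟨_, h, fun _ d => Option.some.inj d ▸ c⟩)
    · exact Or.inl (Or.inr (Or.inr ⟨i, h, not_or.1 c⟩))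
  · exact Or.inr (Or.inl ⟨_, h, by simp⟩)
  · exact Or.inl (Or.inl h)

variable {V} {j j' : K} {T T' : Kl K r r0} {a a' : Option Bool} {i i' : Bool} {n n' t u v x : N}
  {l : ℕ}

theorem Own.stg (h : Own j T) : T.stg = j := by
  obtain ⟨f, p, c, h | h⟩ := h <;> rw [Kl.stg, Kl.ty, h] <;> rfl

theorem Alv.al (h : V.Alv j a T) : (V.par j).Al a T.kind := ⟨h.1.2.1, h.2⟩

theorem Alv.cases (h : V.Alv j a T) : (V.Liv j T ∧ ¬V.Ot j T) ∨ V.Ot j T :=
  (em _).symm.imp_left fun c => ⟨⟨a, h.1, fun i d =>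
    (h.2 i d).resolve_right fun f => c ⟨i, d ▸ h.1, f⟩⟩, c⟩

theorem Liv.alv (h : V.Liv j T) : ∃ a, V.Alv j a T :=
  let ⟨a, h1, h2⟩ := h
  ⟨a, h1, fun i d => Or.inl (h2 i d)⟩

theorem Ot.alv (h : V.Ot j T) : ∃ i, V.Alv j (some i) T ∧ (V.par j).op = some i :=
  let ⟨i, h1, h2⟩ := h
  ⟨i, ⟨h1, fun _ d => Or.inr (Option.some.inj d ▸ h2)⟩, h2⟩

theorem Role.liv (h : V.Role j none T) : V.Liv j T := ⟨_, h, by simp⟩

theorem Role.liv' (h : V.Role j (some i) T) (c : (V.par j).cut i = 0) : V.Liv j T :=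
  ⟨_, h, fun _ d => Option.some.inj d ▸ c⟩

theorem Role.ot (h : V.Role j a T) : V.Ot j T ↔ a ≠ none ∧ (V.par j).op = a :=
  ⟨fun ⟨_, c, d⟩ => h.eq c ▸ ⟨by simp, d⟩, fun ⟨c, d⟩ =>
    let ⟨i, f⟩ := Option.ne_none_iff_exists'.1 c
    ⟨i, f ▸ h, f ▸ d⟩⟩

theorem Ot.stg (h : V.Ot j T) : T.stg ≠ j := let ⟨_, h, _⟩ := h; h.1
theorem Liv.stg (h : V.Liv j T) : T.stg ≠ j := let ⟨_, h, _⟩ := h; h.1

/-- all open trees have the same kind -/
theorem Ot.kind (h : V.Ot j T) (h' : V.Ot j T') : T.kind = T'.kind := by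
  obtain ⟨i, a, c⟩ := h
  obtain ⟨i', a', c'⟩ := h'
  obtain rfl := Option.some.inj (c.symm.trans c')
  exact ((V.adm j).one i c).1 a.2.1 a'.2.1

theorem Ot.col (h : V.Ot j T) (h' : V.Ot j T') : T.ty.col = T'.ty.col := by
  simpa using congrArg (fun κ => κ.ty.col) (h.kind h')

theorem Cut.not_ot (h : V.Cut j T) : ¬V.Ot j T := by
  rintro ⟨i, a, c⟩
  rcases h with h | h | ⟨i', h, -, d⟩
  exacts [a.not_rest h, a.1 h.1, d (h.eq a ▸ c)]

theorem Cut.not_alv (h : V.Cut j T) : ¬V.Alv j a T := fun c => by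
  rcases h with h | h | ⟨i', h, d⟩
  exacts [c.1.not_rest h, c.1.1 h.1, (c.2 i' (c.1.eq h)).elim d.1 d.2]

theorem Opn.ot (h : V.Opn j n) : V.Ot j (V.F.tree n) := let ⟨i, a, c⟩ := h; ⟨i, a, c.1⟩

theorem Role.opn (h : V.Role j (some i) (V.F.tree n)) :
    V.Opn j n ↔ (V.par j).Ol i (V.F.lev n) :=
  ⟨fun ⟨_, a, c⟩ => Option.some.inj (a.eq h) ▸ c, fun c => ⟨i, h, c⟩⟩

/-- the entry trees -/
theorem Ot.entry (h : V.Ot j T)
    (c : T'.1 = (.hM T.ty.wor (T.ty.col + 1) (V.par j).ek, .Z)) : V.Role j none T' := by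
  obtain ⟨i, a, d⟩ := h
  have s : T'.stg = T.stg := by rw [Kl.stg, Kl.ty, c]; rfl
  exact ⟨s ▸ a.1, ⟨i, _, a.2.1, d, by rw [Kl.kind_of_val c, Kl.ty_kind, HT.wor_map, HT.col_map]; rfl⟩,
    fun z f => s ▸ a.2.2 z (by simpa [Par.sl, d] using f)⟩

theorem Role.entry (h : V.Role j none T') :
    ∃ T, V.Ot j T ∧ T'.1 = (.hM T.ty.wor (T.ty.col + 1) (V.par j).ek, .Z) := by
  obtain ⟨s, ⟨i, κ, a1, a2, a3⟩, a4⟩ := h
  have w : (κ.map fun _ => T'.stg).stg = T'.stg := by simp [Kl.stg]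
  refine ⟨κ.map fun _ => T'.stg, ⟨i, ⟨by rwa [w], by rwa [Par.mem, Kl.kind_map], fun z f => ?_⟩,
    a2⟩, by rw [Kl.val_of_kind a3, Kl.ty_map, HT.wor_map, HT.col_map]; rfl⟩
  rw [w]
  exact a4 z (by simpa [Par.sl, a2] using f)

theorem Role.op (h : V.Role j none T) : (V.par j).op ≠ none := by
  obtain ⟨_, ⟨i, _, a⟩, -⟩ := h.entry
  simp [a]

/-! ### the data of a tree -/

theorem td_cut (h : T.stg = j) (c : ¬Own j T) : V.S.td j T = (V.par j).tdF T.ty.wor.2 := by
  rw [td_fz h]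
  rcases (V.par j).tdz_cases T.1 with ⟨⟨s, f⟩, p, c', d, -⟩ | ⟨⟨s, f⟩, p, c', d, -⟩ | d
  · exact absurd ⟨f, p, c', Or.inl (by rw [d, ← h, Kl.stg, Kl.ty, d]; rfl)⟩ c
  · exact absurd ⟨f, p, c', Or.inr (by rw [d, ← h, Kl.stg, Kl.ty, d]; rfl)⟩ c
  · exact d.2.2

theorem td_Z {f : Bool} {p : ZMod 12} {c : ZMod 3} (h : T.1 = (.hS (j, f) p c, .Z)) :
    V.S.td j T = (V.par j).tdW f 3 p.val (winZ p c) := by
  rw [td_fz (Own.stg ⟨f, p, c, Or.inl h⟩), h]
  rfl

theorem td_L {f : Bool} {p : ZMod 12} {c : ZMod 3} (h : T.1 = (.tS (j, f) p c, .H)) :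
    V.S.td j T = (V.par j).tdW f 4 p.val (winL p c) := by
  rw [td_fz (Own.stg ⟨f, p, c, Or.inr h⟩), h]
  rfl

theorem Own.td (h : Own j T) : ∃ z k w, V.S.td j T = (V.par j).tdW T.ty.wor.2 z k w := by
  obtain ⟨f, p, c, h | h⟩ := h
  exacts [⟨_, _, _, by rw [td_Z h, Kl.ty, h]; rfl⟩, ⟨_, _, _, by rw [td_L h, Kl.ty, h]; rfl⟩]

variable (V) in
/-- induction over the kinds of trees -/
theorem td_ind (j : K) (T : Kl K r r0) (P : TD r0 → Prop)
    (h1 : V.Rest j T → P ((V.par j).tdR T.ty.col))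
    (h2 : V.Role j none T → P ((V.par j).tdE T.ty.col))
    (h3 : ∀ i, V.Role j (some i) T → P ((V.par j).tdI i T.ty.col (V.cw T.ty.wor)))
    (h4 : T.stg = j → ¬Own j T → P ((V.par j).tdF T.ty.wor.2))
    (h5 : Own j T → ∀ z k w, P ((V.par j).tdW T.ty.wor.2 z k w)) : P (V.S.td j T) := by
  rcases V.cases j T with h | ⟨i, h⟩ | h | h
  · by_cases c : Own j T
    · obtain ⟨z, k, w, d⟩ := c.td (V := V)
      exact d ▸ h5 c z k w
    · exact td_cut h c ▸ h4 h c
  exacts [h.td ▸ h3 i h, h.td_en ▸ h2 h, h.td ▸ h1 h]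

theorem td_ud (V : Fw K N r r0 q D e b) (j : K) (T : Kl K r r0) : (V.S.td j T).ud = false :=
  V.td_ind j T (·.ud = false) (fun _ => rfl) (fun _ => rfl) (fun _ _ => rfl) (fun _ _ => rfl)
    fun _ _ _ _ => rfl

theorem td_win (h : ¬Own j T) (l : ℕ) : (V.S.td j T).win l = none :=
  V.td_ind j T (·.win l = none) (fun _ => rfl) (fun _ => rfl) (fun _ _ => rfl) (fun _ _ => rfl)
    fun c => absurd c h

theorem td_dr (h : ¬Own j T) : (V.S.td j T).dr = (V.par j).dr :=
  V.td_ind j T (·.dr = _) (fun _ => rfl) (fun _ => rfl) (fun _ _ => rfl) (fun _ _ => rfl)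
    fun c => absurd c h

theorem td_cs (h : ¬Own j T) : (V.S.td j T).cs = (V.par j).cd :=
  V.td_ind j T (·.cs = _) (fun _ => rfl) (fun _ => rfl) (fun _ _ => rfl) (fun _ _ => rfl)
    fun c => absurd c h

theorem not_own (h : T.stg ≠ j) : ¬Own j T := mt Own.stg h

theorem td_gr (h : T.stg ≠ j) : (V.S.td j T).gr = 3 := by simp [S_td, Par.td_gr, h]

theorem td_gr_fz (h : T.stg = j) : (V.S.td j T).gr = cond T.ty.wor.2 2 1 := by
  simp [S_td, Par.td_gr, h]

theorem Rest.kap (h : V.Rest j T) : V.kap j T = (V.par j).kap T.ty.col := by rw [Fw.kap, h.td]; rfl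
theorem Rest.asc (h : V.Rest j T) : (V.S.td j T).asc = (V.par j).dr := by rw [h.td]; rfl
theorem Role.kap (h : V.Role j (some i) T) : V.kap j T = (V.par j).cut i := by
  rw [Fw.kap, h.td]; rfl
theorem Role.asc (h : V.Role j (some i) T) :
    (V.S.td j T).asc = ((V.par j).dir i || decide ((V.par j).op = some i)) := by rw [h.td]; rfl
theorem Role.kap_en (h : V.Role j none T) : V.kap j T = 0 := by rw [Fw.kap, h.td_en]; rfl
theorem Own.kap (h : Own j T) : V.kap j T = 0 := let ⟨_, _, _, d⟩ := h.td (V := V); by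
  rw [Fw.kap, d]; rfl
theorem kap_fz (h : T.stg = j) (c : ¬Own j T) : V.kap j T = 2 := by rw [Fw.kap, td_cut h c]; rfl
theorem asc_fz (h : T.stg = j) : (V.S.td j T).asc = true :=
  V.td_ind j T (·.asc = true) (fun c => absurd h c.1) (fun c => absurd h c.1)
    (fun _ c => absurd h c.1) (fun _ _ => rfl) fun _ _ _ _ => rfl

theorem Ot.asc (h : V.Ot j T) : (V.S.td j T).asc = true := by
  obtain ⟨i, a, c⟩ := h
  simp [a.asc, c]

theorem Liv.kap (h : V.Liv j T) : V.kap j T = 0 := by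
  obtain ⟨_ | i, a, c⟩ := h
  exacts [a.kap_en, by rw [a.kap, c i rfl]; rfl]

theorem Rest.kap_cases (h : V.Rest j T) : V.kap j T = 2 ∨ V.kap j T = 4 ∨ V.kap j T = 6 := by
  rw [h.kap]
  rcases (V.adm j).kap T.ty.col with c | c | c <;> simp [c]

theorem Ot.kap (h : V.Ot j T) : V.kap j T ≤ 6 ∧ V.kap j T % 2 = 0 := by
  obtain ⟨i, a, c⟩ := h
  have := ((V.adm j).one i c).2.1
  have := (V.adm j).cut i
  have := V.hD
  rw [a.kap]
  omega

theorem kap_spec (V : Fw K N r r0 q D e b) (j : K) (T : Kl K r r0) :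
    V.kap j T ≤ D ∧ (V.kap j T % 2 = 0 ∨ V.kap j T = D) := by
  have := V.hD
  rcases V.cases j T with h | ⟨i, h⟩ | h | h
  · by_cases c : Own j T
    exacts [by rw [c.kap]; omega, by rw [kap_fz h c]; omega]
  · exact h.kap ▸ ⟨Nat.le_of_lt_succ ((V.par j).cut i).2, (V.adm j).cut i⟩
  · rw [h.kap_en]
    omega
  · have := h.kap_cases
    omega

theorem Cut.two (h : V.Cut j T) : 2 ≤ V.kap j T := by
  rcases h with h | h | ⟨i, h, c, -⟩
  · have := h.kap_cases
    omega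
  · exact (kap_fz h.1 h.2).ge
  · have := V.kap_spec j T
    have := V.hD
    have := mt Fin.ext c
    rw [h.kap] at *
    simp only [Fin.val_zero] at this
    omega

theorem Cut.not_own (h : V.Cut j T) : ¬Own j T := fun c => by
  have := h.two
  rw [c.kap] at this
  omega

theorem Ot.opn (h : V.Ot j (V.F.tree n)) : V.Opn j n ↔ V.kap j (V.F.tree n) ≤ V.F.lev n := by
  obtain ⟨i, a, c⟩ := h
  rw [a.opn, a.kap, Par.Ol, and_iff_right c]

theorem td_sep (h : V.kap j T ≠ 0) : (V.S.td j T).sep = false := by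
  revert h
  refine V.td_ind j T (fun z => z.kap ≠ 0 → z.sep = false) (fun _ _ => rfl) (fun _ _ => rfl)
    (fun i _ c => Bool.eq_false_iff.2 fun d => c ?_) (fun _ _ _ => rfl) fun _ _ _ _ c => absurd rfl c
  exact congrArg Fin.val (((V.adm j).rook d).2 i)

theorem td_sep' (h : ¬Own j T) (c : (V.par j).rook = false) : (V.S.td j T).sep = false :=
  V.td_ind j T (·.sep = false) (fun _ => rfl) (fun _ => rfl) (fun _ _ => c) (fun _ _ => rfl)
    fun d => absurd d h

theorem Ot.rook (h : V.Ot j T) : (V.par j).rook = false :=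
  let ⟨_, _, c⟩ := h
  Bool.eq_false_iff.2 fun d => by simpa [c] using ((V.adm j).rook d).1

theorem Role.rook (h : V.Role j none T) : (V.par j).rook = false :=
  let ⟨_, a, _⟩ := h.entry
  a.rook

/-! ### formats and zones -/

theorem fm_zero (h : ¬Own j (V.F.tree n))
    (c : V.F.lev n ≠ D ∨ (V.S.td j (V.F.tree n)).sep = false) : (V.L j).fm n = 0 :=
  Lay.fm_tree.2 ⟨td_win h _, c, V.td_ud j _⟩

theorem fm_kap (h : V.kap j (V.F.tree n) ≠ 0) : (V.L j).fm n = 0 :=
  fm_zero (fun c => h c.kap) (Or.inr (td_sep h))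

theorem fm_plain (h : ¬Own j (V.F.tree n)) (c : (V.par j).rook = false) : (V.L j).fm n = 0 :=
  fm_zero h (Or.inr (td_sep' h c))

theorem Cut.fm (h : V.Cut j (V.F.tree n)) : (V.L j).fm n = 0 := fm_kap (by have := h.two; omega)

theorem Rest.zo (h : V.Rest j (V.F.tree n)) :
    (V.L j).zo n = (V.par j).zR (V.F.tree n).ty.col := by
  rw [Lay.zo_tree (Cut.fm (Or.inl h)), L_dt, h.td]
  rfl

theorem Role.zo (h : V.Role j a (V.F.tree n)) (c : (V.par j).rook = false) :
    (V.L j).zo n = (V.par j).zI ((V.par j).zi a) := by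
  rw [Lay.zo_tree (fm_plain (not_own h.1) c), L_dt]
  rcases a with _ | i
  · rw [h.td_en]
    rfl
  · simp [h.td, Par.tdI, c]

theorem Role.zo_in (h : V.Role j (some i) (V.F.tree n)) (c : (V.par j).rook = true)
    (l : V.F.lev n ≠ D) : (V.L j).zo n = (V.par j).zI ((V.par j).zi (some (!i))) := by
  rw [Lay.zo_tree (fm_zero (not_own h.1) (Or.inl l)), L_dt]
  simp [h.td, Par.tdI, c]

theorem Role.fm_lab (h : V.Role j (some i) (V.F.tree n)) (c : (V.par j).rook = true)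
    (l : V.F.lev n = D) : (V.L j).fm n = 1 :=
  Lay.fm_lab.2 ⟨td_win (not_own h.1) _, l, by rw [L_dt, h.td]; exact c⟩

theorem Role.zo_lab (h : V.Role j (some i) (V.F.tree n)) (c : (V.par j).rook = true)
    (l : V.F.lev n = D) : (V.L j).zo n = (V.par j).zI 2 := by
  rw [Lay.zo_lab (h.fm_lab c l), L_dt, h.td]
  rfl

theorem Role.zo_ex (h : V.Role j a (V.F.tree n)) : ∃ z ≤ 4, (V.L j).zo n = (V.par j).zI z := by
  have k : ∀ a, (V.par j).zi a ≤ 4 := by
    rintro (_ | _ | _) <;> simp only [Par.zi, cond]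
    · have := (V.par j).fl.2
      omega
    all_goals omega
  cases c : (V.par j).rook
  · exact ⟨_, k _, h.zo c⟩
  rcases a with _ | i
  · simp [h.rook] at c
  by_cases l : V.F.lev n = D
  exacts [⟨2, by omega, h.zo_lab c l⟩, ⟨_, k _, h.zo_in c l⟩]

/-- frozen blocks come first -/
theorem fz_lt (h : (V.F.tree n).stg = j) (h' : (V.F.tree n').stg ≠ j) :
    (V.L j).key n < (V.L j).key n' := by
  refine Lay.lt_of_gr ?_
  rw [L_dt, L_dt, td_gr h', td_gr_fz h]
  cases (V.F.tree n).ty.wor.2 <;> simp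

theorem stg_up (h : (V.F.tree n).stg ≠ j) (c : (V.L j).key n ≤ (V.L j).key x) :
    (V.F.tree x).stg ≠ j := fun d => (fz_lt d h).not_ge c

theorem lt_of_zo (h : (V.F.tree n).stg ≠ j) (h' : (V.F.tree n').stg ≠ j)
    (c : (V.L j).zo n < (V.L j).zo n') : (V.L j).key n < (V.L j).key n' :=
  Lay.lt_of_zo ((td_gr h).trans (td_gr h').symm) c

theorem zo_le (h : (V.F.tree n).stg ≠ j) (c : (V.L j).key n ≤ (V.L j).key x) :
    (V.L j).zo n ≤ (V.L j).zo x := not_lt.1 fun d => (lt_of_zo (stg_up h c) h d).not_ge c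

/-- the items and the trees at rest -/
theorem role_rest (h : V.Role j a (V.F.tree n)) (h' : V.Rest j (V.F.tree n')) :
    if (V.par j).dr then (V.L j).key n' < (V.L j).key n else (V.L j).key n < (V.L j).key n' := by
  obtain ⟨z, a1, a2⟩ := h.zo_ex
  have a3 := h'.zo
  have := ZMod.val_lt (V.F.tree n').ty.col
  simp only [Par.zI, Par.zR] at a2 a3
  split_ifs with c
  · exact lt_of_zo h'.1 h.1 (by simp only [c, cond] at a2 a3; omega)
  · exact lt_of_zo h.1 h'.1 (by simp only [Bool.eq_false_iff.2 c, cond] at a2 a3; omega)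

theorem rest_lt (h : V.Rest j (V.F.tree n)) (h' : V.Role j a (V.F.tree n'))
    (c : (V.par j).dr = true) : (V.L j).key n < (V.L j).key n' := by simpa [c] using role_rest h' h

theorem lt_rest (h : V.Role j a (V.F.tree n)) (h' : V.Rest j (V.F.tree n'))
    (c : (V.par j).dr = false) : (V.L j).key n < (V.L j).key n' := by simpa [c] using role_rest h h'

theorem role_or_rest (h : T.stg ≠ j) : (∃ a, V.Role j a T) ∨ V.Rest j T := by
  rcases V.cases j T with c | ⟨_, c⟩ | c | c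
  exacts [absurd c h, Or.inl ⟨_, c⟩, Or.inl ⟨_, c⟩, Or.inr c]

theorem Rest.up (h : V.Rest j (V.F.tree n)) (d : (V.par j).dr = false)
    (c : (V.L j).key n ≤ (V.L j).key x) : V.Rest j (V.F.tree x) :=
  (role_or_rest (stg_up h.1 c)).resolve_left fun ⟨_, f⟩ => (lt_rest f h d).not_ge c

theorem Role.up (h : V.Role j a (V.F.tree n)) (d : (V.par j).dr = true)
    (c : (V.L j).key n ≤ (V.L j).key x) : ∃ a', V.Role j a' (V.F.tree x) :=
  (role_or_rest (stg_up h.1 c)).resolve_right fun f => (rest_lt f h d).not_ge c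

/-- **The items form an interval.** -/
theorem Role.btw (h : V.Role j a (V.F.tree u)) (h' : V.Role j a' (V.F.tree v))
    (c : (V.L j).key u ≤ (V.L j).key x) (c' : (V.L j).key x ≤ (V.L j).key v) :
    ∃ a0, V.Role j a0 (V.F.tree x) ∧ ((V.par j).rook = false →
      (V.par j).zi a ≤ (V.par j).zi a0 ∧ (V.par j).zi a0 ≤ (V.par j).zi a') := by
  obtain ⟨a0, k⟩ := (role_or_rest (stg_up h.1 c)).resolve_right fun f => by
    cases d : (V.par j).dr
    exacts [(lt_rest h' f d).not_ge c', (rest_lt f h d).not_ge c]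
  refine ⟨a0, k, fun d => ?_⟩
  have a1 := zo_le h.1 c
  have a2 := zo_le k.1 c'
  rw [h.zo d, k.zo d, Par.zI, Par.zI] at a1
  rw [h'.zo d, k.zo d, Par.zI, Par.zI] at a2
  omega

theorem Role.lt (h : V.Role j a (V.F.tree n)) (h' : V.Role j a' (V.F.tree n'))
    (d : (V.par j).rook = false) (c : (V.par j).zi a < (V.par j).zi a') :
    (V.L j).key n < (V.L j).key n' :=
  lt_of_zo h.1 h'.1 (by rw [h.zo d, h'.zo d, Par.zI, Par.zI]; omega)

/-- trees at rest of different colours -/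
theorem Rest.lt (h : V.Rest j (V.F.tree n)) (h' : V.Rest j (V.F.tree n'))
    (c : sg (V.par j).dr (V.F.tree n).ty.col.val < sg (V.par j).dr (V.F.tree n').ty.col.val) :
    (V.L j).key n < (V.L j).key n' := by
  refine lt_of_zo h.1 h'.1 ?_
  have := ZMod.val_lt (V.F.tree n).ty.col
  rw [h.zo, h'.zo, Par.zR, Par.zR]
  revert c
  cases (V.par j).dr <;> simp only [sg_true, sg_false, cond] <;> omega

/-- two trees in one zone -/
theorem tree_lt (h : (V.F.tree n).stg ≠ j) (h' : (V.F.tree n').stg ≠ j) (f : (V.L j).fm n = 0)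
    (f' : (V.L j).fm n' = 0) (z : (V.L j).zo n = (V.L j).zo n') (t : V.F.tree n ≠ V.F.tree n') :
    (V.L j).key n < (V.L j).key n' ↔
      sg (V.par j).dr (V.ct (V.F.tree n)) < sg (V.par j).dr (V.ct (V.F.tree n')) := by
  rw [Lay.tree_lt f f' ((td_gr h).trans (td_gr h').symm)
    (by rwa [Lay.zo_tree f, Lay.zo_tree f'] at z) t, L_dt, L_dt, td_dr (not_own h),
    td_dr (not_own h')]
  rfl

/-- **The order of the labels in the rook layout.** -/
theorem rook_lt (h : V.Role j (some i) (V.F.tree n)) (h' : V.Role j (some i') (V.F.tree n'))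
    (c : (V.par j).rook = true) (l : V.F.lev n = D) (l' : V.F.lev n' = D) :
    (V.L j).key n < (V.L j).key n' ↔
      sg (V.par j).rk (V.cw (V.F.tree n).ty.wor) < sg (V.par j).rk (V.cw (V.F.tree n').ty.wor) ∨
      (V.F.tree n).ty.wor = (V.F.tree n').ty.wor ∧
      (sg (V.par j).rk (crd ((V.par j).lk i) (V.F.lb n)) <
          sg (V.par j).rk (crd ((V.par j).lk i') (V.F.lb n')) ∨
        crd ((V.par j).lk i) (V.F.lb n) = crd ((V.par j).lk i') (V.F.lb n') ∧
          ((i = false ∧ i' = true) ∨ i = i' ∧ V.o true n < V.o true n')) := by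
  have k : ∀ {s : Bool} {a a' : ℕ}, sg s a = sg s a' ↔ a = a' := ⟨sg_inj, fun d => by rw [d]⟩
  rw [Lay.lab_lt (h.fm_lab c l) (h'.fm_lab c l') ((td_gr h.1).trans (td_gr h'.1).symm)
    (by rw [L_dt, L_dt, h.td, h'.td]; rfl), L_dt, L_dt, h.td, h'.td]
  simp only [Par.tdI, k, V.cwi.eq_iff]
  cases i <;> cases i' <;> simp

/-! ### related trees -/

theorem Ord.rook {c : ZMod 3} (o : (V.par j).Ord a a' c) (h : V.Role j a T) (h' : V.Role j a' T')
    (d : (V.par j).rook = true) : a = some true ∧ a' = some false := by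
  have := o.2.1
  rcases a with _ | i
  · simp [h.rook] at d
  rcases a' with _ | i'
  · simp [h'.rook] at d
  cases i <;> cases i' <;> simp [Par.zi] at this ⊢

theorem Ord.not_ot {c : ZMod 3} (o : (V.par j).Ord a a' c) (h : V.Role j a T) : ¬V.Ot j T :=
  fun ⟨i, a1, a2⟩ => (o.1 i a2).1 (h.eq a1)

theorem Ord.not_ot' {c : ZMod 3} (o : (V.par j).Ord a a' c) (h : V.Role j a' T) : ¬V.Ot j T :=
  fun ⟨i, a1, a2⟩ => (o.1 i a2).2 (h.eq a1)

/-- no block of the previous colour lies between two related trees -/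
theorem Ord.out {c : ZMod 3} (o : (V.par j).Ord a a' c) (h : V.Role j a (V.F.tree u))
    (h' : V.Role j a' (V.F.tree v)) (l : (V.L j).key v ≤ (V.L j).key x)
    (l' : (V.L j).key x ≤ (V.L j).key u) : (V.F.tree x).ty.col + 1 ≠ c := fun d => by
  obtain ⟨a0, k, z⟩ := h'.btw h l l'
  have := o.2.2 a0 _ k.2.1 (by simpa using d)
  cases f : (V.par j).rook
  · have := z f
    omega
  · obtain ⟨rfl, rfl⟩ := Ord.rook o h h' f
    rcases a0 with _ | _ | _
    · simp [k.rook] at f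
    all_goals simp [Par.zi] at this

section adm
variable (h : V.Alv j a T) {w : K × Bool} {c c' : ZMod 3}
include h

theorem Alv.lev {l : Fin 4} (d : T.1 = (.tN w (c + 1) l, .H)) (s : T'.stg ≠ j)
    (f : T'.ty.col = c) (k : V.kap j T' ≠ 0) : lc (V.kap j T') ≠ l := by
  have := (V.adm j).lev a _ _ c l h.al (Kl.kind_of_val d)
  rcases role_or_rest (V := V) s with ⟨_ | i, g⟩ | g
  · exact absurd g.kap_en k
  · rw [g.kap] at k ⊢
    exact this.2 i _ g.2.1 (by simpa using f) fun z => k (by rw [z]; rfl)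
  · rw [g.kap, f]
    exact this.1

theorem Alv.np3 {k : Fin (r0 + 1)} (d : T.1 = (.hM w (c + 1) k, .Z))
    (p : ((V.par j).np c : ℕ) % 2 = 0) : k ≤ (V.par j).np c :=
  (V.adm j).np3 a _ _ c k h.al (Kl.kind_of_val d) p

/-- of the class `M` and the colour after the colour of the open trees, only entry trees are
alive -/
theorem Alv.nom {k : Fin (r0 + 1)} (o : V.Ot j T') (d : T.1 = (.hM w (T'.ty.col + 1) k, .Z)) :
    a = none := by
  rcases a with _ | i'
  · rfl
  have g : (V.par j).op ≠ some i' := fun g => (by decide : ∀ c : ZMod 3, c + 1 ≠ c) T'.ty.col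
    (by simpa only [Kl.ty, d, HT.col] using Ot.col ⟨i', h.1, g⟩ o)
  obtain ⟨i, o1, o2⟩ := o
  obtain rfl : i' = !i := by revert g; cases i <;> cases i' <;> simp [o2]
  exact absurd (by rw [Kl.ty_kind, HT.col_map]; exact Kl.kind_of_val d)
    ((V.adm j).nom i o2 ((h.2 _ rfl).resolve_right g) _ h.1.2.1 _ o1.2.1 ((), w.2) k)

variable (h' : V.Alv j a' T')
include h'

theorem Alv.con (t : T.ty = T'.ty) (o : T'.off = T.off + 1) :
    (V.par j).Ord a a' T.ty.col ∧ ((V.par j).rook = true →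
      (V.par j).lk true = some (T.sl.lk T'.sl).1 ∧ (V.par j).lk false = some (T.sl.lk T'.sl).2) := by
  simpa using (V.adm j).con a a' _ _ h.al h'.al (h.1.shr h'.1 (by rw [Kl.stg, t]))
    (by simp [t]) (by simpa [Kl.off] using o)

theorem Alv.jun (t : T.ty.hd = false) (s : T.sl = .Z) (t' : T'.ty.hd = true) (s' : T'.sl = .H)
    (o : T.ty.col = T'.ty.col) : (V.par j).Ord a a' T.ty.col ∧ (V.par j).rook = false := by
  simpa using (V.adm j).jun a a' _ _ h.al h'.al (by simpa) s (by simpa) s' (by simpa)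

theorem Alv.mz {k : Fin (r0 + 1)} (d : T.1 = (.hM w (c + 1) k, .Z))
    (d' : T'.1 = (.hP w (c + 1), .Z)) : (V.par j).Ord a a' (c + 1) ∧
      ((V.par j).rook = true → ∀ i, (V.par j).lk i = none) ∧ (a = none → (V.par j).flip = true) ∧
        k ≤ (V.par j).np c :=
  (V.adm j).mz a a' _ _ _ c k h.al h'.al (h.1.shr h'.1 (by simp only [Kl.stg, Kl.ty, d, d']; rfl))
    (Kl.kind_of_val d) (Kl.kind_of_val d')

theorem Alv.mh {k i : Fin (r0 + 1)} (d : T.1 = (.hM w (c + 1) k, .Z))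
    (d' : T'.1 = (.tE w (c + 1) i, .H)) : a ≠ none ∧
      (el (r0 + 1) ((V.par j).np c) k < el (r0 + 1) ((V.par j).np c) i ∨
        (k = i ∧ el (r0 + 1) ((V.par j).np c) i % 2 = 0)) :=
  (V.adm j).mh a a' _ _ _ c k i h.al h'.al
    (h.1.shr h'.1 (by simp only [Kl.stg, Kl.ty, d, d']; rfl)) (Kl.kind_of_val d) (Kl.kind_of_val d')

theorem Alv.lz {p p' : ZMod 12} (d : T.1 = (.tS w p c, .H)) (d' : T'.1 = (.hS w p' c', .Z)) :
    4 ≤ (p - p').val :=
  (V.adm j).lz a a' _ _ _ p c p' c' h.al h'.al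
    (h.1.shr h'.1 (by simp only [Kl.stg, Kl.ty, d, d']; rfl)) (Kl.kind_of_val d) (Kl.kind_of_val d')

end adm

end Fw

end Pool.Agent.P.MP_439f1f_co
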