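import Pool.Agent.P.MP_439f1f_co.Hm7

/-!
Safety of the payload, fifth part: the lines between two payload hubs, the loops of a window.
-/

set_option autoImplicit false

namespace Pool.Agent.P.MP_439f1f_co

open Function Sum

/-- the lines touched by a window: the broken line, the lines of the run, the line that leaves -/
def Mac.Run {P Y K β : Type*} [LinearOrder β] [DecidableEq K] (O : Mac P Y K β) (j0 j1 : K)
    (e0 : Y × Fin 3) (n : ℕ) (L : P ⊕ K × Y × Fin 3) : Prop :=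
  (∃ i ≤ n, L = O.sl j1 ((O.gam j0 j1 ^ i) e0)) ∨ L = O.alt j0 j1 ((O.gam j0 j1 ^ n) e0)

namespace Rings

variable {P Lo K β γ : Type*} [LinearOrder β] [LinearOrder γ] (O : Rings P Lo K β γ) [Finite P]
  [Finite Lo] [Finite K] [DecidableEq K] {j0 j1 : K} {e0 : Option Lo × Fin 3} {n : ℕ}

theorem fo_gam (i : ℕ) : O.fo j1 ((O.mac.gam j0 j1 ^ i) e0).1 = O.fo j1 e0.1 := by
  unfold Mac.gam
  split_ifs
  exacts [fam_inv_pow (O.fo_nx j1) i e0, fam_pow (O.fo_nx j1) i e0]

theorem el_sl0 (y : Option Lo) : O.lo (O.mac.el j0 (O.mac.sl j1 (y, 0))) = O.lo (inr (j1, y)) := by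
  rw [Mac.sl_0, Mac.el_elst, mac_sc, lo_sc_symm]

/-- the touched lines are visited in three consecutive loops of the ring -/
theorem run_three (hn : n ≤ 3)
    (h : ∀ i, 1 ≤ i → i < n → ((O.mac.gam j0 j1 ^ i) e0).2 ≠ if j1 = j0 then 1 else 2) :
    ∃ z, O.fo j1 z = O.fo j1 e0.1 ∧ ∀ L, O.mac.Run j0 j1 e0 n L →
      ∃ u, O.lo (O.mac.el j0 L) = O.lo (inr (j1, u)) ∧
      (u = z ∨ u = O.nx j1 z ∨ u = O.nx j1 (O.nx j1 z)) := by
  obtain ⟨y, t⟩ := e0
  have p3 : ∀ (f : Equiv.Perm (Option Lo × Fin 3)) e, (f ^ 3) e = f (f (f e)) := fun _ _ => rfl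
  have p4 : ∀ (f : Equiv.Perm (Option Lo × Fin 3)) e, (f ^ 4) e = f (f (f (f e))) := fun _ _ => rfl
  by_cases c : j1 = j0
  · subst c
    have w := Mac.win_hot hn h
    refine ⟨![(O.nx j1).symm y, (O.nx j1).symm ((O.nx j1).symm ((O.nx j1).symm y)),
      (O.nx j1).symm y] t, by fin_cases t <;> simp, ?_⟩
    rintro L (⟨i, hi, rfl⟩ | rfl)
    · have : i ≤ 3 := hi.trans hn
      interval_cases i <;> fin_cases t <;>
        simp [Mac.gam_self, pow_two, p3, el_sl0, -inv_pow] at w ⊢ <;>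
        first | omega | exact ⟨_, rfl, by simp⟩
    · interval_cases n <;> fin_cases t <;>
        simp [Mac.alt_self, Mac.gam_self, pow_two, p3, -inv_pow] at w ⊢ <;> exact ⟨_, rfl, by simp⟩
  · have w := Mac.win_cold c hn h
    refine ⟨![y, (O.nx j1).symm y, y] t, by fin_cases t <;> simp, ?_⟩
    rintro L (⟨i, hi, rfl⟩ | rfl)
    · have : i ≤ 3 := hi.trans hn
      interval_cases i <;> fin_cases t <;>
        simp [Mac.gam_ne c, pow_two, p3, el_sl0, Mac.el_ne _ c] at w ⊢ <;>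
        first | omega | exact ⟨_, rfl, by simp⟩
    · rw [Mac.alt_cold c]
      interval_cases n <;> fin_cases t <;>
        simp [pow_two, p3, p4, Mac.el_ne _ c] at w ⊢ <;> exact ⟨_, rfl, by simp⟩

end Rings

namespace Blk

variable {P N K β : Type*} [LinearOrder β] [DecidableEq K] (O : Blk P N K β)
  [Finite P] [Finite N] [Finite K] {j : K} {p q : P} {L : P ⊕ K × Option (Lop N K) × Fin 3}

omit [Finite P] in
/-- the next loop on the ring lies in the same block -/
theorem nx_blk {g : Bl N K} {i : Fin 4} (h : O.lay j g i ≠ 3) :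
    ∃ i', O.rings.nx j (some (inl (g, i))) = some (inl (g, i')) := by
  have a : ((O.lay j g i + 1 : Fin 4) : ℕ) = O.lay j g i + 1 := by
    revert h
    generalize O.lay j g i = a
    revert a
    decide
  refine ⟨(O.lay j g).symm (O.lay j g i + 1), O.rings.nx_eq rfl
    (O.key_ll.2 (Or.inr ⟨rfl, by simp only [Equiv.apply_symm_apply]; omega⟩)) fun w _ => ?_⟩
  simp only [rings_key, key, Prod.Lex.toLex_le_toLex, bo_l, rk_l, Equiv.apply_symm_apply]
  rcases lt_trichotomy (O.kb j (bo (some w))) (O.kb j (some g)) with c | c | c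
  exacts [Or.inl (Or.inl c), by simp only [c, lt_irrefl, false_or, true_and]; omega,
    Or.inr (Or.inl c)]

omit [DecidableEq K] [Finite P] [Finite N] [Finite K] in
theorem key_btw {y : Lop N K} {a b : Bl N K} {i i' : Fin 4} (h1 : O.key j (inl (a, i)) ≤ O.key j y)
    (h2 : O.key j y ≤ O.key j (inl (b, i'))) : ∃ g k, y = inl (g, k) ∧
      ((g = a ∧ O.lay j a i ≤ O.lay j a k) ∨ O.bk j a < O.bk j g) ∧
      ((g = b ∧ O.lay j b k ≤ O.lay j b i') ∨ O.bk j g < O.bk j b) := by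
  rcases y with ⟨g, k⟩ | k
  · rw [← not_lt, key_ll, not_or] at h1 h2
    refine ⟨g, k, rfl, ?_, ?_⟩
    · refine (not_lt.1 h1.1).eq_or_lt.imp (fun c => ?_) id
      obtain rfl := O.bki j c
      exact ⟨rfl, not_lt.1 fun d => h1.2 ⟨rfl, d⟩⟩
    · refine (not_lt.1 h2.1).eq_or_lt.imp (fun c => ?_) id
      obtain rfl := O.bki j c
      exact ⟨rfl, not_lt.1 fun d => h2.2 ⟨rfl, d⟩⟩
  · exact absurd (O.key_lt.2 (by simp)) h2.not_gt

/-- the unit of a line between two payload hubs of one ring -/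
theorem btw_key (f : O.fam j (O.lp p).1 = O.fam j (O.lp q).1)
    (hh : O.fam j (O.lp p).1 = false → O.bk j (inl (O.lp p).1) < O.bk j (inr (inl j)) →
      ¬O.bk j (inr (inl j)) < O.bk j (inl (O.lp q).1))
    (h1 : O.mac.pos j (inl p) ≤ O.mac.pos j L) (h2 : O.mac.pos j L ≤ O.mac.pos j (inl q)) :
    O.fl j (O.rings.lo (O.mac.el j L)) = O.fam j (O.lp p).1 ∧
      O.key j (O.lq p) ≤ O.key j (O.rings.lo (O.mac.el j L)) ∧
      O.key j (O.rings.lo (O.mac.el j L)) ≤ O.key j (O.lq q) := by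
  have e1 := O.mac.ep_le_of_pos h1
  have e2 := O.mac.ep_le_of_pos h2
  rw [Mac.el_l] at e1 e2
  have a : O.fl j (O.rings.lo (O.mac.el j L)) = O.fam j (O.lp p).1 := by
    cases c : O.fam j (O.lp p).1
    · by_contra d
      rw [Bool.not_eq_false] at d
      have b1 := O.rings.ak_le_of_ep e1
      have b2 := O.rings.ak_le_of_ep e2
      rw [O.rings.ak_B d, O.rings.ak_A (y := O.rings.lo (inl p)) c] at b1
      rw [O.rings.ak_B d, O.rings.ak_A (y := O.rings.lo (inl q)) (f.symm.trans c)] at b2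
      obtain ⟨g, k, d1, d2, d3⟩ := O.key_btw b1 b2
      obtain ⟨rfl, -⟩ := Prod.ext_iff.1 (inl.inj d1)
      exact hh c (d2.resolve_left (by simp)) (d3.resolve_left (by simp))
    · exact O.rings.fam_between (a := inl p) (c := inl q) c (f.symm.trans c) e1 e2
  exact ⟨a, O.rings.key_le_of_ep (a := inl p) a.symm e1,
    O.rings.key_le_of_ep (b := inl q) (a.trans f) e2⟩

/-- the unit of a line between two payload hubs of one block -/
theorem btw_one (f : (O.lp p).1 = (O.lp q).1)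
    (h1 : O.mac.pos j (inl p) ≤ O.mac.pos j L) (h2 : O.mac.pos j L ≤ O.mac.pos j (inl q)) :
    ∃ i, O.rings.lo (O.mac.el j L) = inl (inl (O.lp q).1, i) ∧
      O.lay j (inl (O.lp q).1) (O.lp p).2 ≤ O.lay j (inl (O.lp q).1) i ∧
      O.lay j (inl (O.lp q).1) i ≤ O.lay j (inl (O.lp q).1) (O.lp q).2 := by
  obtain ⟨-, b, c⟩ := O.btw_key (by rw [f]) (fun _ d d' => absurd (f ▸ d) d'.not_gt) h1 h2
  obtain ⟨g, k, d, d1, d2⟩ := O.key_btw b c
  rw [f] at d1
  rcases d2 with ⟨rfl, d2⟩ | d2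
  · exact ⟨k, d, (d1.resolve_right (lt_irrefl _)).2, d2⟩
  · exact absurd d2 (d1.elim (fun a => a.1 ▸ lt_irrefl _) not_lt_of_gt)

/-- no hub of the stage lies between two payload hubs of one loop -/
theorem btw_cold (f : O.lp p = O.lp q) (h1 : O.mac.pos j (inl p) ≤ O.mac.pos j L)
    (h2 : O.mac.pos j L ≤ O.mac.pos j (inl q)) (z : Option (Lop N K) × Fin 3) :
    L ≠ inr (j, z) := by
  rintro rfl
  obtain ⟨y, d⟩ : ∃ y, O.mac.el j (inr (j, z)) = inr (j, y) := by
    simp only [Mac.el]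
    split_ifs <;> exact ⟨_, rfl⟩
  have u1 := O.rings.uk_le_of_pos h1
  have u2 := O.rings.uk_le_of_pos h2
  rw [O.rings.un_l (O.lq_ne_hg p j)] at u1
  rw [O.rings.un_l (O.lq_ne_hg q j), rings_lp, ← O.lq_inj.2 f] at u2
  have u3 := O.rings.uk_inj j (le_antisymm u2 u1)
  rw [Rings.un, d, Rings.st_self] at u3
  refine absurd (O.mac.pos_lt_of_ep ?_) h1.not_gt
  rw [d, u3, Mac.el_l, O.rings.ep_lt, Rings.st_self, O.rings.st_ne (O.lq_ne_hg p j), Rings.ph_self,
    ph_pay]
  refine Or.inr ⟨rfl, ?_⟩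
  split_ifs with c
  · refine Or.inr ⟨rfl, ?_⟩
    simp only [rings_lk, lk, lq, pl_l, Prod.Lex.toLex_lt_toLex, Prod.mk.eta]
    omega
  · exact Or.inl one_pos

omit [Finite P] in
/-- two loops at two fixed adjacent places of their blocks among three consecutive loops -/
theorem three_blk {z u v : Option (Lop N K)} {g g' : Bl N K} {i i' c : Fin 4} (hc : c ≠ 3)
    (hu : u = z ∨ u = O.rings.nx j z ∨ u = O.rings.nx j (O.rings.nx j z))
    (hv : v = z ∨ v = O.rings.nx j z ∨ v = O.rings.nx j (O.rings.nx j z))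
    (a : u = some (inl (g, i))) (a' : v = some (inl (g', i')))
    (l : O.lay j g i = c ∨ O.lay j g i = c + 1) (l' : O.lay j g' i' = c ∨ O.lay j g' i' = c + 1) :
    g = g' := by
  have k2 : ∀ c a : Fin 4, a = c ∨ a = c + 1 → ¬(a + 1 + 1 = c ∨ a + 1 + 1 = c + 1) := by decide
  have k3 : ∀ c a : Fin 4, c ≠ 3 → a = c ∨ a = c + 1 → a + 1 = c ∨ a + 1 = c + 1 → a ≠ 3 := by
    decide
  have k1 : ∀ {u v : Option (Lop N K)} {g g' : Bl N K} {i i' : Fin 4}, u = some (inl (g, i)) →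
      v = some (inl (g', i')) → O.lay j g i = c ∨ O.lay j g i = c + 1 →
      O.lay j g' i' = c ∨ O.lay j g' i' = c + 1 → v = O.rings.nx j u → g = g' :=
    fun {u v g g' i i'} a a' l l' d => by
      have f := O.rk_nx j u
      rw [← d, a, a', rk_l, rk_l] at f
      obtain ⟨k, f⟩ := O.nx_blk (j := j) (g := g) (i := i) (k3 c _ hc l (f ▸ l'))
      rw [a, f, a'] at d
      exact (Prod.ext_iff.1 (inl.inj (Option.some.inj d))).1.symm
  have r1 : O.rk j u = c ∨ O.rk j u = c + 1 := a ▸ l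
  have r2 : O.rk j v = c ∨ O.rk j v = c + 1 := a' ▸ l'
  have k0 : u = v → g = g' := fun c => by
    rw [a, a'] at c
    exact (Prod.ext_iff.1 (inl.inj (Option.some.inj c))).1
  rcases hu with rfl | hu | hu <;> rcases hv with hv | hv | hv
  · exact k0 hv.symm
  · exact k1 a a' l l' hv
  · exact absurd (by simpa only [hv, rk_nx] using r2) (k2 _ _ r1)
  · exact (k1 a' a l' l (hv ▸ hu)).symm
  · exact k0 (hu.trans hv.symm)
  · exact k1 a a' l l' (hu ▸ hv)
  · exact absurd (by simpa only [hu, rk_nx, hv] using r1) (k2 _ _ r2)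
  · exact (k1 a' a l' l (hv ▸ hu)).symm
  · exact k0 (hu.trans hv.symm)

end Blk

end Pool.Agent.P.MP_439f1f_co
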