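import Pool.Agent.P.MP_439f1f_co.Sf4
import Pool.Agent.P.MP_439f1f_co.Sf5
import Pool.Agent.P.MP_439f1f_co.B19

/-!
Safety of the payload, last part: admissible states, and non-hamiltonicity.
-/

set_option autoImplicit false

namespace Pool.Agent.P.MP_439f1f_co

open Function Sum

variable {K N β : Type} [DecidableEq K] [LinearOrder β] {r r0 q D e b : ℕ}
  [Finite K] [Finite N] [Nonempty K]

namespace Wd

variable (W : Wd K N β r r0 q D e b)

/-- the port of the moat -/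
abbrev prt (j : K) (n : N) : ℕ := W.port j n

variable (j : K) (opn : N → ℕ → Prop)

/-- one of the tokens `a`, `c` dies, the blocks `Dn` are touched -/
abbrev Die (Dn : N → Prop) (a c : N) : Prop :=
  W.F.tre.Die (W.pos j) (r0 + 1) inl mo W.ell (W.Bk j) (W.Kill j) opn Dn a c

/-- the route above `a` consists of pass pairs and has no open node -/
abbrev Alive (a : N) : Prop := W.F.tre.Alive (W.pos j) inl (W.Bk j) opn a

/-- the node `n` can be left towards the class `k` -/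
abbrev Can (n : N) (k : ℕ) : Prop :=
  MP_439f1f_co.Can (W.pos j) (r0 + 1) (W.prt j n) (inl n) (mo n) k

/-- The hot window at `sl j e0` with a run of length `n` is impossible if the tokens `a`, `c` climb
to their roots and nothing else moves. -/
def Hot (e0 : Pt K N × Fin 3) (n : ℕ) (a c : N) : Prop := ∀ τ η,
  Ends (2 * r + 9) W.S.hang (some (inl (inl a))) (some (W.S.O.alt j j e0)) τ η →
  Cn (W.S.O.sl j e0) (some (inl (inl a))) (some (W.S.O.alt j j e0)) τ η →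
  (∀ i, 1 ≤ i → i ≤ n → η (W.S.O.sl j ((W.S.O.gam j j ^ i) e0)) =
    some (W.S.O.alt j j ((W.S.O.gam j j ^ i) e0))) →
  (∀ L, (∀ i, 1 ≤ i → i ≤ n → L ≠ W.S.O.sl j ((W.S.O.gam j j ^ i) e0)) →
    η L = some (W.S.O.nxt j L)) →
  τ (W.S.O.alt j j ((W.S.O.gam j j ^ n) e0)) = some (inl (inl c)) →
  (∀ v, W.F.tre.Up a v ∨ W.F.tre.Up c v → τ (inl (inl v)) = W.S.tB (inl (inl v))) →
  (∀ L, L ≠ W.S.O.alt j j ((W.S.O.gam j j ^ n) e0) →
    (∀ v, W.F.tre.Up a v ∨ W.F.tre.Up c v → L ≠ inl (inl v)) → τ L = some L) → False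

/-- in every stage the moat and the node lie at two fixed adjacent places of their block -/
def Core : Prop := ∀ j, ∃ c : Fin 4, c ≠ 3 ∧ ∀ n, ∀ i ≤ 1,
  W.lay j (inl n) i = c ∨ W.lay j (inl n) i = c + 1

/-- **Admissible states** with the open nodes `opn`. -/
structure Adm : Prop where
  col : ∃ g, ∀ n k, W.Can j n k → W.S.col n = g
  can : ∀ n k, W.Can j n k → opn n k ∨ ∃ v, W.F.tre.Up (W.ell n k) v ∧ W.Kill j v
  fn : ∀ n h, h = W.S.sn (inl (inl n)) false .H →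
    (W.F.tre.lev n = 1 ∧ W.Die j opn (· = n) h h) ∨
    (2 ≤ W.F.tre.lev n ∧ W.Die j opn (· = n) (W.F.tre.par n) h) ∨
    W.F.tre.FnB (W.pos j) (r0 + 1) inl mo W.ell (W.Bk j) (W.Kill j) opn n h ∨
    W.F.tre.FnC (W.pos j) (r0 + 1) inl mo W.ell (W.Bk j) (W.Kill j) opn n h
  fm : ∀ n, ∀ i < r0 + 1, ∀ k < r0 + 1, el (r0 + 1) (W.prt j n) i < el (r0 + 1) (W.prt j n) k ∨
    (k = i ∧ el (r0 + 1) (W.prt j n) i % 2 = 1) →
    W.Die j opn (· = n) (W.S.sn (inl (mo n i)) false .H) (W.ell n k)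
  ln : ∀ n z, z = W.S.sn (W.prv (inl n)) true .Z → ∀ k < r0 + 1,
    W.Die j opn (· = n) z (W.ell n k) ∨ (W.Alive j opn z ∧ W.Alive j opn (W.ell n k) ∧
      ((Front (W.pos j) (r0 + 1) (W.prt j n) (inl n) (mo n) ∧ k ≤ W.prt j n ∧
        ¬rkey (W.pos j (inl (inl n))) (W.pos j (inl (inl (W.ell n k)))) <
          rkey (W.pos j (inl (inl n))) (W.pos j (inl (inl z)))) ∨
        (Back (W.pos j) (W.prt j n) (inl n) (mo n) ∧ 1 ≤ k)))
  pair : ∀ L i u σ u' σ', W.S.At L i u σ → W.S.At L (i + 1) u' σ' →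
    W.Die j opn (W.Bk j L) (W.S.sn L u σ) (W.S.sn L u' σ') ∨
    (W.Alive j opn (W.S.sn L u σ) ∧ W.Alive j opn (W.S.sn L u' σ') ∧
      ¬rkey (W.pos j L) (W.pos j (inl (inl (W.S.sn L u σ)))) <
        rkey (W.pos j L) (W.pos j (inl (inl (W.S.sn L u' σ')))))
  win : ∀ j1 e0, ∀ n ≤ 3,
    (∀ i, 1 ≤ i → i < n → ((W.S.O.gam j j1 ^ i) e0).2 ≠ if j1 = j then 1 else 2) →
    ∀ a c, a = W.S.sn (W.S.O.sl j1 e0) true .Z →
      c = W.S.sn (W.S.O.alt j j1 ((W.S.O.gam j j1 ^ n) e0)) false .H →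
      W.Die j opn (fun v => W.S.wor v ≠ (j1, W.S.fam j1 e0.1)) a c ∨
      (j1 = j ∧ (∀ v, W.F.tre.Up a v ∨ W.F.tre.Up c v → ∀ k, ¬opn v k) ∧ W.Hot j e0 n a c)

variable {W j opn} {x y : Option (Hub K N (Pt K N) r0)}
  {τ η : Hub K N (Pt K N) r0 → Option (Hub K N (Pt K N) r0)} {L0 L : Hub K N (Pt K N) r0}
  {Dn : N → Prop} {n n' : N}

theorem bk_prv {p : N ⊕ N × Fin (r0 + 1)} : W.Bk j (W.prv p) n ↔ n = nd p := by
  rw [← bk_pay (W := W) (j := j), Bk, Bk, bl, bl, show W.lp j (W.prv p) = W.lp j (inl p) from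
    (congrArg _ (W.S.O.el_elst j _)).trans (W.B.rings.lo_sc_symm _)]

theorem col_tree (h : W.F.tre.tree n = W.F.tre.tree n') : W.S.col n = W.S.col n' :=
  congrArg (fun t : Kl K r r0 => t.1.1.col) h

theorem wor_tree (h : W.F.tre.tree n = W.F.tre.tree n') : W.S.wor n = W.S.wor n' :=
  congrArg (fun t : Kl K r r0 => t.1.1.wor) h

theorem col_lab (hD : 1 ≤ D) (h : W.In L n) (u : Bool) (σ : Slot (r + 1)) :
    W.S.col (W.S.sn L u σ) = W.S.col n + 1 := by rw [W.S.col_sn hD, W.col_in h]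

/-- the labels of a line that is visited in the block of `n` -/
theorem bk_lab (hD : 1 ≤ D) (h : W.Bk j L n) (u : Bool) (σ : Slot (r + 1)) :
    W.S.col (W.S.sn L u σ) = W.S.col n + 1 ∨ W.S.wor n ≠ W.S.wor (W.S.sn L u σ) := by
  by_cases c : Cold j L
  · exact Or.inl (col_lab hD ((bk_cold c).1 h) u σ)
  obtain ⟨⟨y, t⟩, rfl⟩ : ∃ z, L = inr (j, z) := by simpa [Cold] using c
  obtain ⟨i, h⟩ := bl_iff.1 h
  by_cases d : t = 2
  · subst d
    exact Or.inl (col_lab hD ⟨i, (lp_2 y).symm.trans h⟩ u σ)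
  have a : W.S.wor (W.S.sn (inr (j, y, t)) u σ) = (j, W.S.fam j y) := by
    rw [W.S.wor_sn hD]
    cases u
    · rfl
    · exact congrArg (fun L => (W.S.ht L).wor)
        (if_neg d : W.S.O.dA (inr (j, y, t)) = inr (j, y, t + 1))
  rw [lp, show W.S.O.el j (inr (j, y, t)) = inr (j, (W.S.O.nx j).symm y) from if_pos ⟨rfl, d⟩] at h
  rw [a, ← show W.S.fam j ((W.S.O.nx j).symm y) = W.S.fam j y from W.B.rings.fo_nx_symm j y]
  exact Or.inr (W.wor_ne (i := 0) ⟨i, h⟩)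

theorem tree_lab (hD : 1 ≤ D) (h : W.Bk j L n) (u : Bool) (σ : Slot (r + 1)) :
    W.F.tre.tree n ≠ W.F.tre.tree (W.S.sn L u σ) := fun c =>
  (bk_lab hD h u σ).elim (fun d => (by decide : ∀ c : ZMod 3, c ≠ c + 1) _ ((col_tree c).trans d))
    fun d => d (wor_tree c)

theorem lev_lab (hD : D % 2 = 1) (L : Hub K N (Pt K N) r0) (u : Bool) (σ : Slot (r + 1)) :
    W.F.tre.lev (W.S.sn L u σ) % 2 = 1 := (congrArg (· % 2) (W.S.lev_sn (by omega) L u σ)).trans hD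

variable (ev : r0 % 2 = 0) (two : 2 ≤ r0) (hD : D % 2 = 1)
  (A : W.Adm j opn)

/-- the situation of a gap -/
abbrev Sit (W : Wd K N β r r0 q D e b) (j : K) (x y : Option (Hub K N (Pt K N) r0))
    (τ η : Hub K N (Pt K N) r0 → Option (Hub K N (Pt K N) r0)) (L0 : Hub K N (Pt K N) r0)
    (Dn : N → Prop) : Prop :=
  MP_439f1f_co.Sit W.F.tre (2 * r + 9) W.S.hang W.S.tB W.S.hO W.prv (W.S.O.nxt j) (W.pos j) (r0 + 1)
    inl mo W.ell (W.prt j) (W.Kill j) (W.Bk j) x y τ η L0 Dn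

/-- the conditions on the exits -/
abbrev Exi (W : Wd K N β r r0 q D e b) (j : K) (opn : N → ℕ → Prop)
    (x y : Option (Hub K N (Pt K N) r0))
    (τ η : Hub K N (Pt K N) r0 → Option (Hub K N (Pt K N) r0)) (L0 : Hub K N (Pt K N) r0)
    (Dn : N → Prop) : Prop :=
  MP_439f1f_co.Exi W.F.tre (W.S.O.nxt j) (W.pos j) (r0 + 1) inl mo W.ell (W.prt j) (W.Kill j) opn
    x y τ η L0 Dn

include hD A in
theorem exi (S : W.Sit j x y τ η L0 Dn)
    (one : ∀ n n', ¬Cln (W.S.O.nxt j) (W.pos j) L0 x y τ η (r0 + 1) (W.prt j n) (inl n) (mo n) →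
      ¬Cln (W.S.O.nxt j) (W.pos j) L0 x y τ η (r0 + 1) (W.prt j n') (inl n') (mo n') → n = n')
    (hs : ∀ n s, Dn n → W.F.tre.Up s n → ¬Sn x y τ (inl s))
    (sep : ∀ s n, (Sn x y τ (inl s) ∨ ∃ w, ∃ k < r0 + 1, s = W.ell w k ∧
      ∃ i < r0 + 1, x = some (inl (mo w i)) ∨ y = some (inl (mo w i))) → Dn n →
      W.S.col n = W.S.col s + 1 → W.S.wor n ≠ W.S.wor s) : W.Exi j opn x y τ η L0 Dn := by
  have h1 : 1 ≤ D := by omega
  obtain ⟨g, hg⟩ := A.col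
  have dn : ∀ n, ¬Cln (W.S.O.nxt j) (W.pos j) L0 x y τ η (r0 + 1) (W.prt j n) (inl n) (mo n) →
      Dn n := fun n h => by_contra fun c => h (S.cln c)
  have k : ∀ {n k s v}, W.F.tre.Up s n → W.F.tre.tree v = W.F.tre.tree (W.ell n k) →
      W.S.col v = W.S.col s + 1 ∧ W.S.wor v = W.S.wor s := fun a c =>
    ⟨by rw [col_tree c, W.col_ell h1, col_tree a.tree], by rw [wor_tree c, W.wor_ell h1, wor_tree a.tree]⟩
  have z1 : ∀ c : ZMod 3, c ≠ c + 1 := by decide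
  have z2 : ∀ c : ZMod 3, c ≠ c + 1 + 1 := by decide
  refine ⟨one, fun n s h => hs n s (dn n h), fun n i a v c i' d => z1 g ?_,
    fun n i a w f i' _ v c i'' d => z2 g ?_, fun n i s a f c => (A.can n i a).imp id ?_,
    fun n i s w a f c d h => absurd (k f d.tree).2 (sep s w (Or.inl c) (dn w h) (k f d.tree).1)⟩
  · rw [← hg n i a, ← W.col_ell h1, ← col_tree c, hg v i' d, hg n i a]
  · rw [← hg n i a, ← W.col_ell h1 n i, ← col_tree f.tree, ← W.col_ell h1 w i', ← col_tree c, hg v i'' d,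
      hg n i a]
  · rintro ⟨v, d1, d2⟩
    refine ⟨v, d1, d2, fun w d h => ?_⟩
    have t := k f ((d.tree d2.1).trans d1.tree)
    exact sep s w c h t.1 t.2

include ev two hD A

omit A in
theorem sit (h : Ends (2 * r + 9) W.S.hang x y τ η) (c : Cn L0 x y τ η)
    (pcl : ∀ L n, W.Bk j L n → ¬Dn n → Pcl (W.S.O.nxt j) L0 τ η L)
    (g : ∀ n, ∀ i < r0 + 1, x = some (inl (mo n i)) ∨ y = some (inl (mo n i)) → Dn n) :
    W.Sit j x y τ η L0 Dn :=
  ⟨W.sta j, W.pay (by omega), W.geo ev two j, h, c, pcl, fun n i hi a => g n i hi (Or.inl a),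
    fun n i hi a => g n i hi (Or.inr a)⟩

/-- a gap at which all system ends are in place -/
theorem calm (h : Ends (2 * r + 9) W.S.hang x y τ η) (c : Cn L0 x y τ η)
    (cm : W.S.O.Calm W.S.tB W.S.hO j τ η) (dn : ∀ n, Dn n ↔ W.Bk j L0 n)
    (lab : ∀ s, x = some (inl (inl s)) ∨ y = some (inl (inl s)) → (∃ u σ, s = W.S.sn L0 u σ) ∨
      ∃ n, L0 = inl (inl n) ∧ 2 ≤ W.F.tre.lev n ∧ s = W.F.tre.par n)
    (g : ∀ n, ∀ i < r0 + 1, x = some (inl (mo n i)) ∨ y = some (inl (mo n i)) → W.Bk j L0 n) :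
    Cam (W.S.O.nxt j) τ η ∧ W.Sit j x y τ η L0 Dn ∧ W.Exi j opn x y τ η L0 Dn := by
  have h1 : 1 ≤ D := by omega
  have cam : Cam (W.S.O.nxt j) τ η := fun L => ⟨(cm.tl L).imp id fun ⟨p, a, _⟩ => ⟨p, a⟩,
    (cm.hd L).imp id fun ⟨p, a, _⟩ => ⟨p, W.S.O.nxt_pay a⟩⟩
  have S : W.Sit j x y τ η L0 Dn := sit ev two hD h c
    (fun L n a d => cam.pcl fun f => d ((dn n).2 (f ▸ a))) fun n i hi a => (dn n).2 (g n i hi a)
  have z1 : ∀ c : ZMod 3, c ≠ c + 1 := by decide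
  have z2 : ∀ c : ZMod 3, c ≠ c + 1 + 1 := by decide
  refine ⟨cam, S, exi hD A S (fun n n' a a' => ((dn n).1 (by_contra fun c => a (S.cln c))).unique
    ((dn n').1 (by_contra fun c => a' (S.cln c)))) (fun n s a f d => ?_) fun s n d a f => ?_⟩
  · rcases lab s (cam.sn d) with ⟨u, σ, rfl⟩ | ⟨v, rfl, l, rfl⟩
    · exact tree_lab h1 ((dn n).1 a) u σ f.tree
    · obtain rfl : n = v := bk_nl.1 ((dn n).1 a)
      have := f.lev_le
      have := W.F.tre.lev_par _ l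
      omega
  · rcases d with d | ⟨w, k, -, rfl, i, hi, d⟩
    · rcases lab s (cam.sn d) with ⟨u, σ, rfl⟩ | ⟨v, rfl, l, rfl⟩
      · exact (bk_lab h1 ((dn n).1 a) u σ).resolve_left fun d => z2 _ (d ▸ f)
      · obtain rfl : n = v := bk_nl.1 ((dn n).1 a)
        exact absurd (col_tree (W.F.tre.tree_par _ l) ▸ f) (z1 _)
    · obtain rfl := ((dn n).1 a).unique (g w i hi d)
      exact absurd (W.col_ell h1 n k ▸ f) (z2 _)

/-- two consecutive labels -/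
theorem pair_false {i : ℕ} {u u' : Bool} {σ σ' : Slot (r + 1)} (a : W.S.At L0 i u σ)
    (a' : W.S.At L0 (i + 1) u' σ') (hx : x = some (inl (inl (W.S.sn L0 u σ))))
    (hy : y = some (inl (inl (W.S.sn L0 u' σ')))) (h : Ends (2 * r + 9) W.S.hang x y τ η)
    (c : Cn L0 x y τ η) (cm : W.S.O.Calm W.S.tB W.S.hO j τ η) : False := by
  obtain ⟨cam, S, E⟩ := calm ev two hD A (Dn := W.Bk j L0) h c cm (fun _ => Iff.rfl)
    (fun s d => Or.inl (d.elim (fun d => ⟨u, σ, by simpa using d.symm.trans hx⟩)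
      fun d => ⟨u', σ', by simpa using d.symm.trans hy⟩)) (by simp [hx, hy, mo])
  exact S.pair_false E cam hx hy (lev_lab hD ..) (fun _ => id)
    (fun n d => ⟨tree_lab (by omega) d _ _, tree_lab (by omega) d _ _⟩) (A.pair _ _ _ _ _ _ a a')

theorem first_false (hy : W.S.hang L0 1 y) (ht : τ L0 = some L0)
    (h : Ends (2 * r + 9) W.S.hang (W.S.tB L0) y τ η) (c : Cn L0 (W.S.tB L0) y τ η)
    (cm : W.S.O.Calm W.S.tB W.S.hO j τ η) : False := by
  have h1 : 1 ≤ D := by omega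
  obtain ⟨u, σ, a, rfl⟩ := Stat.hg_at.1 ((W.S.hang_mid one_pos (by omega)).1 hy)
  rcases L0 with p | z
  swap
  · exact pair_false ev two hD A (W.S.sys_H z) a rfl rfl h c cm
  obtain ⟨rfl, rfl⟩ : u = false ∧ σ = .H := by simpa using a.slot (W.S.pay_H p)
  have dn : ∀ n, n = nd p ↔ W.Bk j (inl p) n := fun n => bk_pay.symm
  have P : Pay W.F.tre W.S.tB W.S.hO (r0 + 1) inl mo W.ell := W.pay h1
  rcases P.all p with ⟨n, rfl⟩ | ⟨n, i, hi, rfl⟩
  · have k : ∀ s, W.S.tB (inl (inl n)) = some (inl s) → 2 ≤ W.F.tre.lev n ∧ s = inl (W.F.tre.par n) :=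
      fun s d => by
        rcases (W.F.tre.one n).eq_or_lt with l | l
        · cases (P.tB1 n l.symm).symm.trans d
        · exact ⟨l, by simpa using d.symm.trans (P.tB2 n l)⟩
    obtain ⟨cam, S, E⟩ := calm ev two hD A (Dn := (· = n)) h c cm dn
      (fun s d => d.elim (fun d => Or.inr ⟨n, rfl, (k _ d).1, inl.inj (k _ d).2⟩)
        fun d => Or.inl ⟨_, _, by simpa using d.symm⟩)
      fun v i _ d => d.elim (fun d => by simpa [mo] using (k _ d).2) (by simp [mo])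
    exact S.fnode_false E cam rfl rfl rfl (fun _ => id) (tree_lab h1 (Bk.self W j n) _ _)
      (lev_lab hD ..) (A.fn n _ rfl)
  · have k := (W.moat ev two j n).tBe i hi
    obtain ⟨cam, S, E⟩ := calm ev two hD A (Dn := (· = n)) h c cm dn
      (fun s d => d.elim (fun d => by simpa [mo] using k.symm.trans d)
        fun d => Or.inl ⟨_, _, by simpa using d.symm⟩)
      fun v i' hi' d => d.elim (fun d => (dn v).1 (P.dis v n _ hi' _ (sc_lt' hi)
        (by simpa using d.symm.trans k)).1) (by simp [mo])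
    exact S.fmoat_false E cam hi rfl rfl ht rfl (fun _ => id)
      (tree_lab (j := j) h1 ((dn n).1 rfl) _ _)
      (A.fm n i hi)

theorem last_false {p : N ⊕ N × Fin (r0 + 1)} (hp : W.S.O.dA L0 = inl p)
    (hx : W.S.hang L0 (2 * r + 8) x) (hη : η L0 = some (inl p))
    (h : Ends (2 * r + 9) W.S.hang x (W.S.hO p) τ η) (c : Cn L0 x (W.S.hO p) τ η)
    (cm : W.S.O.Calm W.S.tB W.S.hO j τ η) : False := by
  have h1 : 1 ≤ D := by omega
  obtain ⟨u, σ, a, rfl⟩ := Stat.hg_at.1 ((W.S.hang_mid (by omega) (by omega)).1 hx)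
  obtain rfl : L0 = W.prv p := W.S.O.dA.eq_symm_apply.2 hp
  rcases p with n | w
  swap
  · exact pair_false ev two hD A a (Stat.mo_Z (Stat.mo_mo w)) rfl rfl h c cm
  obtain ⟨rfl, rfl⟩ : u = true ∧ σ = .Z := by simpa using a.slot (Stat.nm_Z (Stat.not_mo_nd n))
  have k := (W.moat ev two j n).hOu
  obtain ⟨cam, S, E⟩ := calm ev two hD A (Dn := (· = n)) h c cm
    (fun v => (bk_prv (p := inl n)).symm)
    (fun s d => d.elim (fun d => Or.inl ⟨_, _, by simpa using d.symm⟩)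
      fun d => by simpa [mo] using k.symm.trans d)
    fun v i hi d => d.elim (by simp [mo]) fun d => by
      rw [((W.pay h1).dis v n _ hi _ r0.succ_pos (by simpa using d.symm.trans k)).1]
      exact bk_prv.2 rfl
  exact S.lnode_false E cam rfl hη rfl k (fun _ => id)
    (tree_lab (j := j) h1 ((bk_prv (p := inl n)).2 rfl) _ _)
    (lev_lab hD ..) (A.ln n _ rfl)

theorem win_false (lay : W.Core) {j1 : K} {e0 : Pt K N × Fin 3} {n : ℕ} (hn : n ≤ 3)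
    (hx : W.S.hang (W.S.O.sl j1 e0) (2 * r + 8) x)
    (h : Ends (2 * r + 9) W.S.hang x (some (W.S.O.alt j j1 e0)) τ η)
    (c : Cn (W.S.O.sl j1 e0) x (some (W.S.O.alt j j1 e0)) τ η)
    (run : ∀ i, 1 ≤ i → i < n → ((W.S.O.gam j j1 ^ i) e0).2 ≠ if j1 = j then 1 else 2)
    (h2 : ∀ i, 1 ≤ i → i ≤ n → η (W.S.O.sl j1 ((W.S.O.gam j j1 ^ i) e0)) =
      some (W.S.O.alt j j1 ((W.S.O.gam j j1 ^ i) e0)))
    (h3 : ∀ L, (∀ i, 1 ≤ i → i ≤ n → L ≠ W.S.O.sl j1 ((W.S.O.gam j j1 ^ i) e0)) →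
      η L = some (W.S.O.nxt j L) ∨ ∃ p, W.S.O.dA L = inl p ∧ η L = W.S.hO p)
    {w : Hub K N (Pt K N) r0} (hw : w = W.S.O.alt j j1 ((W.S.O.gam j j1 ^ n) e0))
    (t1 : τ w = W.S.tB w) (t2 : ∀ L, L ≠ w → τ L = some L ∨ ∃ p, L = inl p ∧ τ L = W.S.tB L) :
    False := by
  have h1 : 1 ≤ D := by omega
  obtain ⟨u, σ, a, rfl⟩ := Stat.hg_at.1 ((W.S.hang_mid (by omega) (by omega)).1 hx)
  obtain ⟨rfl, rfl⟩ : u = true ∧ σ = .Z := by
    simpa using a.slot (Stat.nm_Z (Stat.not_mo_sl j1 e0))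
  have al : ∀ z, ∃ z', W.S.O.alt j j1 z = inr (j1, z') ∧ W.S.fam j1 z'.1 = W.S.fam j1 z.1 :=
    fun z => by
      unfold Mac.alt
      split_ifs
      exacts [⟨_, rfl, rfl⟩, ⟨_, rfl, W.B.fo_bt j1 z⟩]
  obtain ⟨z, hz, fz⟩ := al ((W.S.O.gam j j1 ^ n) e0)
  have hy : ∀ p, some (W.S.O.alt j j1 e0) ≠ some (inl p) := fun p => by
    obtain ⟨z', d, -⟩ := al e0
    simp [d]
  have pc : ∀ L, ¬W.S.O.Run j j1 e0 n L → Pcl (W.S.O.nxt j) (W.S.O.sl j1 e0) τ η L := fun L d =>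
    ⟨fun f => d (Or.inl ⟨0, n.zero_le, f⟩),
      (t2 L fun f => d (Or.inr (f.trans hw))).imp id fun ⟨p, f, _⟩ => ⟨p, f⟩,
      (h3 L fun i _ hi f => d (Or.inl ⟨i, hi, f⟩)).imp id fun ⟨p, f, _⟩ => ⟨p, W.S.O.nxt_pay f⟩⟩
  obtain ⟨z0, f0, th⟩ := W.B.rings.run_three hn run
  have S : W.Sit j _ _ τ η _ fun v => W.S.wor v ≠ (j1, W.S.fam j1 e0.1) :=
    sit ev two hD h c (fun L v d f => pc L fun g => f (by
      obtain ⟨y, g1, g3⟩ := th L g
      have g2 : W.B.rings.fo j1 y = W.B.rings.fo j1 e0.1 := by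
        rcases g3 with rfl | rfl | rfl <;> simp only [Rings.fo_nx, f0]
      obtain ⟨i, d⟩ := bl_iff.1 d
      exact (show W.S.fam j1 y = W.S.fam j1 e0.1 from g2) ▸ W.wor_ne (i := 0) ⟨i, g1.symm.trans d⟩))
      fun v i _ d => d.elim (by simp [mo]) fun d => absurd d (hy _)
  have wa : W.S.wor (W.S.sn (W.S.O.sl j1 e0) true .Z) = (j1, W.S.fam j1 e0.1) := by
    rw [W.S.wor_sn h1, Pre.typ, Mac.dA_sl]
    rfl
  have wc : W.S.wor (W.S.sn w false .H) = (j1, W.S.fam j1 e0.1) := by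
    rw [W.S.wor_sn h1, hw, hz,
      ← show W.S.fam j1 z.1 = W.S.fam j1 e0.1 from fz.trans (W.B.rings.fo_gam n)]
    rfl
  have tw : τ (inr (j1, z)) = some (inl (inl (W.S.sn w false .H))) := by
    rw [← hz, ← hw, t1, hw, hz]
    rfl
  have ts : ∀ z', z' ≠ (j1, z) → τ (inr z') = some (inr z') := fun z' d =>
    (t2 _ (by simpa [hw, hz] using d)).resolve_right (by simp)
  have ws : ∀ s, Sn (some (inl (inl (W.S.sn (W.S.O.sl j1 e0) true .Z))))
      (some (W.S.O.alt j j1 e0)) τ (inl s) → W.S.wor s = (j1, W.S.fam j1 e0.1) := fun s d =>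
    (S.win_tok rfl hy tw ts s (Or.inl d)).elim (fun f => f ▸ wa) fun f => f ▸ wc
  obtain ⟨c1, c2, c3⟩ := lay j1
  have oo : ∀ v, ¬Cln (W.S.O.nxt j) (W.pos j) (W.S.O.sl j1 e0)
      (some (inl (inl (W.S.sn (W.S.O.sl j1 e0) true .Z)))) (some (W.S.O.alt j j1 e0)) τ η (r0 + 1)
      (W.prt j v) (inl v) (mo v) → ∃ y i, (y = z0 ∨ y = W.B.rings.nx j1 z0 ∨
        y = W.B.rings.nx j1 (W.B.rings.nx j1 z0)) ∧ y = some (inl (inl v, i)) ∧
        i ≤ 1 := fun v d => by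
    by_contra g
    refine d ⟨by simp [mo], fun _ _ => hy _, fun L b1 b2 => pc L fun f => g ?_⟩
    obtain ⟨y, g1, g2⟩ := th L f
    obtain ⟨i, g3, g4⟩ : ∃ i, W.B.rings.lo (W.B.mac.el j L) = inl (inl v, i) ∧ i ≤ 1 := by
      rcases b2 with b2 | b2
      · obtain ⟨i, g3, g4, g5⟩ := W.B.btw_one (by rfl) b1 b2.le
        exact ⟨i, g3, (W.lay j (inl v)).injective (le_antisymm g5 g4) ▸ Fin.zero_le _⟩
      · obtain ⟨i, g3, g4, g5⟩ := W.B.btw_one (q := inl v) (by rfl) b1 b2.2.le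
        obtain ⟨d1, d2, d3⟩ := lay j
        rcases (by decide : ∀ c a i a' : Fin 4, c ≠ 3 → a = c ∨ a = c + 1 → a' = c ∨ a' = c + 1 →
          a ≤ i → i ≤ a' → i = a ∨ i = a') _ _ _ _ d2 (d3 v 0 (by decide)) (d3 v 1 le_rfl) g4 g5
          with f | f <;> exact ⟨i, g3, ((W.lay j (inl v)).injective f).trans_le (by simp)⟩
    exact ⟨y, i, g2, (W.B.rings.lo_port.1 (g1.symm.trans g3)).resolve_right (by simp [Blk.hg]), g4⟩
  have E := exi hD A S (fun v v' d d' =>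
    let ⟨_, _, a1, a2, a3⟩ := oo v d
    let ⟨_, _, b1, b2, b3⟩ := oo v' d'
    inl.inj (W.B.three_blk c2 a1 b1 a2 b2 (c3 v _ a3) (c3 v' _ b3)))
    (fun v s d f g => d ((wor_tree f.tree).trans (ws s g))) fun s v d f _ => by
      rcases d with d | ⟨w, _, _, _, i, _, d⟩
      · exact ws s d ▸ f
      · exact d.elim (by simp [mo]) fun d => absurd d (hy _)
  rcases A.win j1 e0 n hn run _ (W.S.sn w false .H) rfl (by rw [hw]) with d | ⟨rfl, d1, d2⟩
  · exact S.win_false E rfl hy tw ts (fun v f => ⟨fun g => f ((wor_tree g).trans wa),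
      fun g => f ((wor_tree g).trans wc)⟩) d
  obtain ⟨τ', b1, b2, b3, b4, b5, b6⟩ := S.win_bare E rfl hy tw ts d1 fun v L f g => pc L (by
    have k := fun {L} => W.B.btw_cold (j := j1) (p := mo v (W.prt j1 v)) (L := L)
      (q := mo v (el (r0 + 1) (W.prt j1 v) (r0 + 1 - 1))) rfl
    rintro (⟨i, -, rfl⟩ | rfl)
    · obtain ⟨s1, s2⟩ := S.sta.cyc.succ _ trivial _ trivial g
      exact k (f.trans s1.le) s2 _ (W.S.O.nxt_hot j1 _)
    · exact k f g.le z hz)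
  refine d2 τ' η b1 b2 h2 (fun L d => (h3 L d).elim id fun ⟨p, f, _⟩ => ?_)
    (by rw [hz, b3, tw]) (fun v d => (b6 v).1 d) fun L d f => ?_
  · rw [W.S.O.nxt_pay f, W.S.O.dA.eq_symm_apply.2 f]
    exact b4 p
  · rcases L with p | z'
    · rcases S.pay.all p with ⟨v, rfl⟩ | ⟨v, i, hi, rfl⟩
      exacts [(b6 v).2 fun g => f v g rfl, b5 v i hi]
    · rw [b3]
      exact ts z' fun g => d (by rw [g, hz])

omit A in
/-- **Safety.**  If all states are admissible, the graph is not hamiltonian. -/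
theorem safe [Fintype (Hub K N (Pt K N) r0)] [DecidableEq (Hub K N (Pt K N) r0)]
    (lay : W.Core) (adm : ∀ j, ∃ opn, W.Adm j opn) : ¬(HL (2 * r + 9) W.S.hang).IsHamiltonian := by
  choose opn A using adm
  refine W.S.fit.not_ham (by omega)
    (fun L0 y j τ η a1 a2 _ a3 a4 => first_false ev two hD (A j) a1 a2 a3 a4)
    (fun L0 i x y j τ η h0 h1 a1 a2 a3 a4 a5 => ?_)
    (fun L0 p x j τ η a1 a2 a3 _ a4 a5 => last_false ev two hD (A j) a1 a2 a3 a4 a5)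
    fun j1 e0 x j n τ η a1 a2 a3 a4 a5 a6 a7 w a8 a9 _ =>
      win_false ev two hD (A j) lay a1 a2 a3 a4 a5 a6 a7 a8 a9
  obtain ⟨u, σ, b1, rfl⟩ := Stat.hg_at.1 ((W.S.hang_mid h0 (by omega)).1 a1)
  obtain ⟨u', σ', b2, rfl⟩ := Stat.hg_at.1 ((W.S.hang_mid (by omega) h1).1 a2)
  exact pair_false ev two hD (A j) b1 b2 rfl rfl a3 a4 a5

end Wd

end Pool.Agent.P.MP_439f1f_co
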