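import Pool.Agent.P.MP_439f1f_co.Dy4
import Pool.Agent.P.MP_439f1f_co.Sf6

/-!
The nodes in a state: ports, layouts, pairs, routes, dead tokens; comparison of two states.
-/

set_option autoImplicit false
set_option linter.unusedSectionVars false

namespace Pool.Agent.P.MP_439f1f_co

open Sum Function

variable {K N : Type} {r r0 q D e b : ℕ} [DecidableEq K] [Finite K] [Finite N] [Nonempty K]

/-- the key depends on the data of the tree only -/
theorem Sch.key_congr (S : Sch K N r r0 q D e b) {j j' : K} {n : N}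
    (h : S.td j (S.F.tree n) = S.td j' (S.F.tree n)) : (S.L j).key n = (S.L j').key n := by
  have d : (S.L j).dt n = (S.L j').dt n := h
  have w : (S.L j).wn n = (S.L j').wn n := by rw [Lay.wn, d]; rfl
  have f : (S.L j).fm n = (S.L j').fm n := by rw [Lay.fm, d, w]; rfl
  have z : (S.L j).zo n = (S.L j').zo n := by rw [Lay.zo, d, f]; rfl
  have l : (S.L j).Low n = (S.L j').Low n := by rw [Lay.Low, d]; rfl
  have k : (S.L j).ka n = (S.L j').ka n := by rw [Lay.ka, d, l]; rfl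
  have s : (S.L j).sl n = (S.L j').sl n := by rw [Lay.sl, d, l]; rfl
  rw [Lay.key, d, w, f, z, k, s]
  rfl

namespace Fw

variable {V : Fw K N r r0 q D e b} {j j' : K} {T T' : Kl K r r0} {a a' : Option Bool}
  {i i' : Bool} {n n' t u v x : N} {l k : ℕ} {L L' : Hub K N (Pt K N) r0}

theorem col_eq (V : Fw K N r r0 q D e b) (n : N) : V.W.S.col n = (V.F.tree n).ty.col := rfl
theorem wor_eq (V : Fw K N r r0 q D e b) (n : N) : V.W.S.wor n = (V.F.tree n).ty.wor := rfl
theorem W_F (V : Fw K N r r0 q D e b) : V.W.F = V.F := rfl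

theorem tree_ell (V : Fw K N r r0 q D e b) (n : N) (k : Fin (r0 + 1)) : (V.F.tree (V.W.ell n k)).1 =
    (.hM (V.F.tree n).ty.wor ((V.F.tree n).ty.col + 1) k, .Z) :=
  (V.W.tree_ell V.D_pos n k).trans (by simp [col_eq, wor_eq])

theorem lev_ell (V : Fw K N r r0 q D e b) (n : N) (k : ℕ) : V.F.lev (V.W.ell n k) = D :=
  V.W.lev_ell V.D_pos n k

theorem Ot.ell (h : V.Ot j (V.F.tree n)) : V.Role j none (V.F.tree (V.W.ell n (V.par j).ek)) :=
  h.entry (V.tree_ell n _)

theorem fam_two (h : (V.F.tree n).stg ≠ j) : V.W.B.fam j n = false := Wd.fam_of_wor h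

/-! ### ports and layouts -/

theorem Opn.port (h : V.Opn j n) : V.W.port j n = 0 := by
  obtain ⟨i, a, c⟩ := h
  rw [Sw.port_eq, L_dt, a.td]
  exact if_pos c

theorem port_fz (h : (V.F.tree n).stg = j) : V.W.port j n = Fin.last _ :=
  V.td_ind j (V.F.tree n) (·.port (V.F.lev n) = _) (fun c => absurd h c.1) (fun c => absurd h c.1)
    (fun _ c => absurd h c.1) (fun _ _ => rfl) fun _ _ _ _ => rfl

theorem port_np (h : (V.F.tree n).stg ≠ j) (c : ¬V.Opn j n) :
    V.W.port j n = (V.par j).np (V.F.tree n).ty.col :=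
  V.td_ind j (V.F.tree n) (·.port (V.F.lev n) = _) (fun _ => rfl) (fun _ => rfl)
    (fun i d => if_neg fun f => c ⟨i, d, f⟩) (fun d => absurd d h) fun d => absurd d.stg h

theorem np_op (h : (V.par j).op ≠ none) (c : ZMod 3) : (V.par j).np c = Fin.last _ :=
  by_contra fun d => h ((V.adm j).np2 c d)

theorem Opn.op (h : V.Opn j n) : (V.par j).op ≠ none := by
  obtain ⟨i, -, c⟩ := h
  simp [c.1]

theorem port_op (h : (V.par j).op ≠ none) (c : ¬V.Opn j n) : V.W.port j n = Fin.last _ :=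
  (em _).elim port_fz fun d => (port_np d c).trans (np_op h _)

theorem Opn.lay (h : V.Opn j n) : V.W.lay j (inl n) = blay (V.par j).sp (V.par j).flip := by
  obtain ⟨i, a, c⟩ := h
  rw [Sw.lay_l, L_dt, a.td]
  simp [Par.tdI, c]

theorem lay_closed (h : ¬V.Opn j n) : V.W.lay j (inl n) = blay (V.par j).sp false :=
  V.td_ind j (V.F.tree n) (·.lay (V.F.lev n) = _) (fun _ => rfl) (fun _ => rfl)
    (fun i d => by simp [Par.tdI, mt d.opn.2 h]) (fun _ _ => rfl) fun _ _ _ _ => rfl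

theorem core (V : Fw K N r r0 q D e b) : V.W.Core := fun j => by
  have k : ∀ s f, ∀ i ≤ 1, blay s f i = cond s 2 0 ∨ blay s f i = cond s 2 0 + 1 := by decide
  refine ⟨cond (V.par j).sp 2 0, by cases (V.par j).sp <;> decide, fun n => ?_⟩
  by_cases h : V.Opn j n
  exacts [h.lay ▸ k _ _, lay_closed h ▸ k _ _]

theorem front_iff : Front (V.W.pos j) (r0 + 1) (V.W.port j n) (inl n) (Wd.mo n) ↔
    ¬(V.Opn j n ∧ (V.par j).flip = true) := by
  rw [Wd.front_iff]
  by_cases h : V.Opn j n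
  · simp [h.lay, blay_lt, h]
  · simp [lay_closed h, blay_lt, h]

theorem front (h : ¬V.Opn j n) : Front (V.W.pos j) (r0 + 1) (V.W.port j n) (inl n) (Wd.mo n) :=
  front_iff.2 fun c => h c.1

theorem Opn.back (h : V.Opn j n) (f : (V.par j).flip = true) :
    Back (V.W.pos j) (V.W.port j n) (inl n) (Wd.mo n) :=
  Wd.back h.port (by rw [h.lay, f]; exact (blay_gt _ _).2 rfl)

/-- the possible exits -/
theorem can (h : V.W.Can j n k) : V.Opn j n ∨ ((V.F.tree n).stg ≠ j ∧ (V.par j).op = none ∧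
    ((V.par j).np (V.F.tree n).ty.col : ℕ) < k ∧ ((V.par j).np (V.F.tree n).ty.col : ℕ) % 2 = 0) := by
  refine or_iff_not_imp_left.2 fun c => ?_
  have a := h.2 (front c)
  have a1 := h.1
  have s : (V.F.tree n).stg ≠ j := fun d => by
    rw [Wd.prt, port_fz d, Fin.val_last] at a
    omega
  rw [Wd.prt, port_np s c] at a
  exact ⟨s, (V.adm j).np2 _ fun d => by rw [d, Fin.val_last] at a; omega, a⟩

/-! ### pairs and routes -/

theorem pass (h : ¬Own j (V.F.tree t)) (o : V.F.lev t % 2 = 1) (l : V.F.lev t < D)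
    (c : V.kap j (V.F.tree t) = 0 ∨ V.F.lev t + 2 < V.kap j (V.F.tree t) ∨
      ((V.S.td j (V.F.tree t)).asc = true ∧ V.kap j (V.F.tree t) < V.F.lev t)) : V.W.Pass j t :=
  Sw.pass_of V.od rfl o l (td_win h _) (td_win h _) (Or.inr (c.imp_right (Or.imp_right fun d =>
    ⟨(V.kap_spec j (V.F.tree t)).2.resolve_right (d.2.trans l).ne, d⟩)))

theorem pas (h : ¬Own j (V.F.tree v)) (o : V.F.lev v % 2 = 0)
    (c : V.kap j (V.F.tree v) = 0 ∨ V.F.lev v + 1 < V.kap j (V.F.tree v) ∨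
      ((V.S.td j (V.F.tree v)).asc = true ∧ V.kap j (V.F.tree v) < V.F.lev v)) :
    V.W.F.tre.Pas (V.W.pos j) inl (V.W.Bk j) v := by
  have l : 2 ≤ V.F.lev v := V.F.tre.two_le o
  have a := V.F.lev_par l
  have a0 := (V.F.surj v).2.1
  have a1 := V.kap_spec j (V.F.tree v)
  have t : V.F.tree (V.F.par v) = V.F.tree v := V.F.tree_par l
  exact (Wd.pas_iff o).2 (pass (t ▸ h) (by rw [W_F]; omega) (by rw [W_F]; omega) (by
    rw [W_F, t]
    exact c.imp_right (Or.imp (by omega) (And.imp_right (by omega)))))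

theorem run (h : ¬Own j (V.F.tree t)) (el : l % 2 = 0) (o : V.F.lev t % 2 = 1) (lt : l < V.F.lev t)
    (c : V.kap j (V.F.tree t) = 0 ∨ V.F.lev t < V.kap j (V.F.tree t) ∨
      ((V.S.td j (V.F.tree t)).asc = true ∧ V.kap j (V.F.tree t) ≤ l)) : V.W.Run j l t :=
  Sw.run_of V.od rfl el o lt (fun _ _ _ => td_win h _) (Or.inr (c.imp_right (Or.imp_right fun d =>
    ⟨(V.kap_spec j (V.F.tree t)).2.resolve_right ((d.2.trans_lt lt).trans_le (V.F.surj t).2.1).ne,
      d⟩)))

theorem Liv.run (h : V.Liv j (V.F.tree t)) (el : l % 2 = 0) (o : V.F.lev t % 2 = 1)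
    (lt : l < V.F.lev t) : V.W.Run j l t := Fw.run (not_own h.stg) el o lt (Or.inl h.kap)

theorem Liv.pass (h : V.Liv j (V.F.tree t)) (o : V.F.lev t % 2 = 1) (l : V.F.lev t < D) :
    V.W.Pass j t := Fw.pass (not_own h.stg) o l (Or.inl h.kap)

theorem Liv.pas (h : V.Liv j (V.F.tree v)) (o : V.F.lev v % 2 = 0) :
    V.W.F.tre.Pas (V.W.pos j) inl (V.W.Bk j) v := Fw.pas (not_own h.stg) o (Or.inl h.kap)

theorem not_opn (h : ¬V.Ot j (V.F.tree n)) (t : V.F.tree v = V.F.tree n) (k : ℕ) :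
    ¬V.opn j v k := fun c => h (t ▸ c.1.ot)

theorem Liv.alive (h : V.Liv j (V.F.tree n)) (c : ¬V.Ot j (V.F.tree n)) :
    V.W.Alive j (V.opn j) n := fun _ a =>
  have t : V.F.tree _ = V.F.tree n := a.tree
  ⟨not_opn c t, Liv.pas (t ▸ h)⟩

theorem Role.alive (h : V.Role j none (V.F.tree n)) : V.W.Alive j (V.opn j) n :=
  h.liv.alive fun c => (h.ot.1 c).1 rfl

theorem Alv.alive (h : V.Alv j a (V.F.tree n)) (c : ¬V.Ot j (V.F.tree n)) :
    V.W.Alive j (V.opn j) n := (h.cases.resolve_right c).1.alive c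

/-- a node above the cut is alive -/
theorem alive_hi (h : ¬Own j (V.F.tree n)) (c : V.F.lev n + 1 < V.kap j (V.F.tree n) ∨
    (V.F.lev n % 2 = 1 ∧ V.F.lev n < V.kap j (V.F.tree n))) : V.W.Alive j (V.opn j) n := fun v a => by
  have t : V.F.tree v = V.F.tree n := a.tree
  have l : V.F.lev v ≤ V.F.lev n := a.lev_le
  refine ⟨fun k d => ?_, fun o => pas (t ▸ h) o (Or.inr (Or.inl ?_))⟩
  · have := d.1.ot.opn.1 d.1
    rw [t] at this
    omega
  · have o : V.F.lev v % 2 = 0 := o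
    rw [t]
    omega

/-- **The nodes at the level of the cut are killed.** -/
theorem kill (h : V.F.lev n = V.kap j (V.F.tree n)) : V.W.Kill j n := by
  have a := (V.F.surj n).1
  have o : ¬Own j (V.F.tree n) := fun c => by rw [c.kap] at h; omega
  have := V.hD
  rcases (V.kap_spec j (V.F.tree n)).2 with c | c
  · exact Sw.kill_of V.od rfl ((congrArg (· % 2) h).trans c) (td_win o _) (td_win o _)
      (V.td_ud j _) c
      (show 2 ≤ V.kap j (V.F.tree n) by omega) (Or.inl h)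
  · exact Sw.kill_lab rfl (by omega) (h.trans c) (td_win o _) (td_win o _) (V.td_ud j _)
      (td_sep (T := V.F.tree n) (by omega)) c

/-- the even nodes of a reversed subtree are killed -/
theorem kill_rev (o : V.F.lev n % 2 = 0) (h : 2 ≤ V.kap j (V.F.tree n))
    (c : (V.S.td j (V.F.tree n)).asc = false) (l : V.kap j (V.F.tree n) ≤ V.F.lev n) :
    V.W.Kill j n := by
  have w : ¬Own j (V.F.tree n) := fun c => by rw [c.kap] at h; omega
  have := (V.F.surj n).2.1
  have := V.od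
  exact Sw.kill_of V.od rfl o (td_win w _) (td_win w _) (V.td_ud j _)
    ((V.kap_spec j (V.F.tree n)).2.resolve_right (by omega)) h (Or.inr ⟨c, l⟩)

theorem kill_above (h : V.kap j (V.F.tree n) ≠ 0) (l : V.kap j (V.F.tree n) ≤ V.F.lev n) :
    ∃ v, V.W.F.tre.Up n v ∧ V.F.lev v = V.kap j (V.F.tree n) ∧ V.W.Kill j v := by
  have a := Forest.anc_at (F := V.F) n (Nat.one_le_iff_ne_zero.2 h) l
  have c := V.F.lev_at n (Nat.one_le_iff_ne_zero.2 h) (V.kap_spec j _).1
  exact ⟨_, Forest.up_iff.2 a, c, kill (by rw [c, a.tree])⟩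

/-- **Tokens below the cut of a closed tree are dead.** -/
theorem Cut.dead (h : V.Cut j (V.F.tree n)) (l : V.kap j (V.F.tree n) ≤ V.F.lev n) :
    V.W.F.tre.Dead (V.W.Kill j) (V.opn j) n :=
  let ⟨v, a1, _, a3⟩ := kill_above (by have := h.two; omega) l
  ⟨v, a1, a3, fun _ c _ => not_opn h.not_ot c.tree,
    fun _ c => not_opn h.not_ot ((c.tree a3.1).trans a1.tree)⟩

theorem Cut.dead_lab (h : V.Cut j (V.F.tree n)) (l : V.F.lev n = D) :
    V.W.F.tre.Dead (V.W.Kill j) (V.opn j) n := h.dead ((V.kap_spec j _).1.trans l.ge)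

/-! ### related labels -/

theorem lb_sn {s : Bool} {σ : Slot (r + 1)} {m : ℕ} (h : V.W.S.At L m s σ) (c : Bool) :
    crd (some c) (V.F.lb (V.W.S.sn L s σ)) = V.x L s (σ.var ((V.W.S.typ L s).len r) c) := by
  rw [h.sn]
  erw [V.F.lb_anc V.D_pos]
  cases c <;> rfl

/-- related trees without rook, or related labels with a common coordinate -/
theorem Ord.lt {c : ZMod 3} (o : (V.par j).Ord a a' c) (h : V.Role j a (V.F.tree u))
    (h' : V.Role j a' (V.F.tree v)) (k : (V.par j).rook = true → V.F.lev u = D ∧ V.F.lev v = D ∧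
      (V.F.tree v).ty.wor = (V.F.tree u).ty.wor ∧
        crd ((V.par j).lk false) (V.F.lb v) = crd ((V.par j).lk true) (V.F.lb u)) :
    (V.L j).key v < (V.L j).key u := by
  cases d : (V.par j).rook
  · exact h'.lt h d o.2.1
  · obtain ⟨rfl, rfl⟩ := Ord.rook o h h' d
    obtain ⟨k1, k2, k3, k4⟩ := k d
    exact (rook_lt h' h d k2 k1).2 (Or.inr ⟨k3, Or.inr ⟨k4, Or.inl ⟨rfl, rfl⟩⟩⟩)

/-- a line that is not visited between two blocks of the outer ring sees them in their order -/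
theorem rkey_of (f : (V.F.tree v).stg ≠ j) (h : (V.L j).key v < (V.L j).key u)
    (c : ∀ x, V.W.Bk j L x → (V.L j).key v ≤ (V.L j).key x → ¬(V.L j).key x ≤ (V.L j).key u) :
    ¬rkey (V.W.pos j L) (V.W.pos j (nl u)) < rkey (V.W.pos j L) (V.W.pos j (nl v)) := by
  have a : V.W.pos j (nl v) < V.W.pos j (nl u) := Sw.nl_lt.2 h
  have a' : V.W.pos j L < V.W.pos j (nl v) ∨ V.W.pos j (nl u) < V.W.pos j L := by
    by_contra d
    rw [not_or, not_lt, not_lt] at d
    obtain ⟨x, k1, k2, k3⟩ := Sw.btw (.self _ j v) (.self _ j u)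
      ((fam_two f).trans (fam_two (stg_up f h.le)).symm) d.1 d.2
    exact c x k1 k2 k3
  rw [rkey_lt]
  grind

/-! ### two states -/

theorem Rest.td_congr (h : V.Rest j T) (h' : V.Rest j' T) (a1 : (V.par j).dr = (V.par j').dr)
    (a2 : (V.par j).cd = (V.par j').cd) (a3 : (V.par j).sp = (V.par j').sp)
    (a4 : (V.par j).kap T.ty.col = (V.par j').kap T.ty.col)
    (a5 : (V.par j).np T.ty.col = (V.par j').np T.ty.col) : V.S.td j T = V.S.td j' T := by
  simp only [h.td, h'.td, Par.tdR, Par.zR, a1, a2, a3, a4, a5]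

/-- **Two stages of one group see two lines in the same order** if the trees of their blocks have
the same data. -/
theorem pos_congr {g : Fin 64} (h : V.W.Fag V.grp g L) (h' : V.W.Fag V.grp g L') (a : V.grp j = g)
    (a' : V.grp j' = g) (d : (V.par j).dr = (V.par j').dr)
    (t : ∀ n, V.W.In L n ∨ V.W.In L' n → V.S.td j (V.F.tree n) = V.S.td j' (V.F.tree n)) :
    V.W.pos j L < V.W.pos j L' ↔ V.W.pos j' L < V.W.pos j' L' := by
  have pl : ∀ {L}, V.W.Fag V.grp g L → (∀ n, V.W.In L n →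
      V.S.td j (V.F.tree n) = V.S.td j' (V.F.tree n)) → ∀ y i, V.W.lo L = inl (y, i) →
      V.W.bk j y = V.W.bk j' y ∧ V.W.lay j y = V.W.lay j' y ∧ y ≠ inr (inl j) := by
    rintro L h t (n | s | ⟨s, s', z⟩) i c
    · exact ⟨V.S.key_congr (t n ⟨i, c⟩), congrArg (fun z : TD r0 => z.lay _) (t n ⟨i, c⟩), by simp⟩
    · have b1 : s ≠ j := fun f => (h j a).hinge i (f ▸ c)
      have b2 : s ≠ j' := fun f => (h j' a').hinge i (f ▸ c)
      simp [S_cz, S_lz, play, b1, b2, d]
    · simp [S_cz, S_lz, play, (h j a).guard c, (h j' a').guard c, d]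
  have an : ∀ {L}, V.W.Fag V.grp g L → (∀ n, V.W.In L n →
      V.S.td j (V.F.tree n) = V.S.td j' (V.F.tree n)) → V.W.an j L = V.W.an j' L := by
    intro L h t
    rcases c : V.W.lo L with ⟨y, i⟩ | i
    · rw [Wd.an_blk c ((h j a).fb c), Wd.an_blk c ((h j' a').fb c), (pl h t y i c).1]
    · rw [Wd.an_ring (by rw [c]; rfl), Wd.an_ring (by rw [c]; rfl)]
      simp [S_cz, d]
  have t1 := fun n c => t n (Or.inl c)
  have t2 := fun n c => t n (Or.inr c)
  have c1 := (h j a).cold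
  have c2 := (h' j a).cold
  have c3 := (h j' a').cold
  have c4 := (h' j' a').cold
  rcases lt_trichotomy (V.W.an j L) (V.W.an j L') with c | c | c
  · exact iff_of_true (Wd.pos_an c1 c2 c) (Wd.pos_an c3 c4 (an h t1 ▸ an h' t2 ▸ c))
  swap
  · exact iff_of_false (Wd.pos_an c2 c1 c).not_gt (Wd.pos_an c4 c3 (an h t1 ▸ an h' t2 ▸ c)).not_gt
  by_cases f : V.W.lo L = V.W.lo L'
  · exact Wd.Fag.twin V.mono h h' a a' f fun n g => congrArg (fun z : TD r0 => z.port _) (t1 n ⟨_, g⟩)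
  rcases b1 : V.W.lo L with ⟨y, i⟩ | i <;> rcases b2 : V.W.lo L' with ⟨y', i'⟩ | i'
  · rw [Wd.an_blk b1 ((h j a).fb b1), Wd.an_blk b2 ((h' j a).fb b2)] at c
    obtain rfl := V.W.bki j c
    have ne : i ≠ i' := fun g => f (by rw [b1, b2, g])
    rw [Wd.pos_lay c1 c2 b1 b2 ne, Wd.pos_lay c3 c4 b1 b2 ne, (pl h t1 y i b1).2.1]
  · rw [Wd.an_blk b1 ((h j a).fb b1), Wd.an_ring (by rw [b2]; rfl)] at c
    exact absurd (V.W.bki j c) (pl h t1 y i b1).2.2
  · rw [Wd.an_blk b2 ((h' j a).fb b2), Wd.an_ring (by rw [b1]; rfl)] at c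
    exact absurd (V.W.bki j c).symm (pl h' t2 y' i' b2).2.2
  · have ne : i ≠ i' := fun g => f (by rw [b1, b2, g])
    rw [Wd.pos_pad c1 c2 b1 b2 ne, Wd.pos_pad c3 c4 b1 b2 ne]
    simp [S_pad, d]

end Fw

end Pool.Agent.P.MP_439f1f_co
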