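import Pool.Agent.P.MP_439f1f_co.Dy5

/-!
The frozen worlds of a state: zones and windows.
-/

set_option autoImplicit false
set_option linter.unusedSectionVars false

namespace Pool.Agent.P.MP_439f1f_co

open Sum Function

/-- the number of the window of `Z p c` and `Lam (p - d - 1) c'` -/
def wno (p : ZMod 12) (d : ℕ) (c c' : ZMod 3) : ℕ := 36 * p.val + 9 * d + 3 * c.val + c'.val

/-- swapping windows -/
def Swp (p : ZMod 12) (d : ℕ) : Prop := d = 0 ∧ p.val % 3 ≠ 2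

instance (p : ZMod 12) (d : ℕ) : Decidable (Swp p d) := inferInstanceAs (Decidable (_ ∧ _))

/-- the places of the nodes of `Z` in a window -/
def offZ (p : ZMod 12) (d : ℕ) : Fin 2 → ℕ := if Swp p d then ![0, 2] else ![1, 4]

/-- the places of the nodes of `Lam` in a window -/
def offL (p : ZMod 12) (d : ℕ) : Fin 4 → ℕ := if Swp p d then ![1, 3, 8, 9] else ![3, 5, 0, 2]

theorem off_inj (p : ZMod 12) (d : ℕ) :
    Injective (offZ p d) ∧ Injective (offL p d) ∧ ∀ t t', offZ p d t ≠ offL p d t' := by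
  unfold offZ offL
  split_ifs <;> decide

theorem wno_inj {p p' : ZMod 12} {d d' : ℕ} {c c' s s' : ZMod 3} (h : d < 4) (h' : d' < 4)
    (a : wno p d c s = wno p' d' c' s') : p = p' ∧ d = d' ∧ c = c' ∧ s = s' := by
  have := c.val_lt
  have := c'.val_lt
  have := s.val_lt
  have := s'.val_lt
  unfold wno at a
  exact ⟨ZMod.val_injective _ (by omega), by omega, ZMod.val_injective _ (by omega),
    ZMod.val_injective _ (by omega)⟩

theorem winZ_eq (p : ZMod 12) (c c' : ZMod 3) {d : ℕ} (h : d < 4) (t : Fin 2) :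
    winZ p c (7 + 2 * (3 * d + c'.val) + t) = some (wno p d c c', offZ p d t) := by
  have := c'.val_lt
  have := t.2
  rw [winZ, if_pos (by omega), wno, offZ,
    show Fin.ofNat 2 (7 + 2 * (3 * d + c'.val) + t - 7) = t from
      Fin.ext (by simp only [Fin.val_ofNat]; omega),
    show (7 + 2 * (3 * d + c'.val) + t - 7) / 6 = d by omega,
    show (7 + 2 * (3 * d + c'.val) + t - 7) / 2 % 3 = c'.val by omega, ite_apply,
    if_congr (show 7 + 2 * (3 * d + c'.val) + t < 13 ∧ p.val % 3 ≠ 2 ↔ Swp p d from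
      and_congr_left' (by omega)) rfl rfl]

theorem winL_eq (p : ZMod 12) (c c' : ZMod 3) {d : ℕ} (h : d < 4) (t : Fin 4) :
    winL p c' (7 + 4 * (3 * d + c.val) + t) =
      some (wno (p + (d + 1 : ℕ)) d c c', offL (p + (d + 1 : ℕ)) d t) := by
  have := c.val_lt
  have := t.2
  rw [winL, if_pos (by omega), wno, offL,
    show Fin.ofNat 4 (7 + 4 * (3 * d + c.val) + t - 7) = t from
      Fin.ext (by simp only [Fin.val_ofNat]; omega),
    show (7 + 4 * (3 * d + c.val) + t - 7) / 12 = d by omega,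
    show (7 + 4 * (3 * d + c.val) + t - 7) / 4 % 3 = c.val by omega, ite_apply,
    if_congr (show 7 + 4 * (3 * d + c.val) + t < 19 ∧ (p + 1).val % 3 ≠ 2 ↔
      Swp (p + (d + 1 : ℕ)) d from ⟨fun a => by
        obtain rfl : d = 0 := by omega
        exact ⟨rfl, by simpa using a.2⟩, fun a => by
        obtain rfl := a.1
        exact ⟨by omega, by simpa using a.2⟩⟩) rfl rfl]

theorem winZ_none (p : ZMod 12) (c : ZMod 3) {l : ℕ} : winZ p c l = none ↔ l < 7 ∨ 31 ≤ l := by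
  unfold winZ
  split_ifs <;> simp <;> omega

theorem winL_none (p : ZMod 12) (c : ZMod 3) {l : ℕ} : winL p c l = none ↔ l < 7 ∨ 55 ≤ l := by
  unfold winL
  split_ifs <;> simp <;> omega

theorem exists_levZ {l : ℕ} (h : 7 ≤ l) (h' : l < 31) :
    ∃ d < 4, ∃ (c : ZMod 3) (t : Fin 2), l = 7 + 2 * (3 * d + c.val) + t :=
  ⟨(l - 7) / 6, by omega, ((l - 7) / 2 : ℕ), ⟨(l - 7) % 2, by omega⟩, by
    rw [ZMod.val_natCast]; simp only; omega⟩

theorem exists_levL {l : ℕ} (h : 7 ≤ l) (h' : l < 55) :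
    ∃ d < 4, ∃ (c : ZMod 3) (t : Fin 4), l = 7 + 4 * (3 * d + c.val) + t :=
  ⟨(l - 7) / 12, by omega, ((l - 7) / 4 : ℕ), ⟨(l - 7) % 4, by omega⟩, by
    rw [ZMod.val_natCast]; simp only; omega⟩

variable {K N : Type} {r r0 q D e b : ℕ} [DecidableEq K] [Finite K] [Finite N] [Nonempty K]

namespace Fw

variable {V : Fw K N r r0 q D e b} {j : K} {f : Bool} {n n' t u v x a z : N} {p p' : ZMod 12}
  {c c' : ZMod 3} {d l : ℕ}

/-- the upper levels of a tree are a path -/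
theorem stem_eq (h : V.F.tree n = V.F.tree n') (l : V.F.lev n = V.F.lev n') (c : V.F.lev n ≤ 56) :
    n = n' := by
  rw [← V.F.anc_lb n, ← V.F.anc_lb n', ← l]
  refine (V.stem _ _ _ (V.F.surj n).1 c).2 ?_
  have a := V.F.tree_anc (V.F.lb n) (V.F.surj n).1 (V.F.surj n).2.1
  have a' := V.F.tree_anc (V.F.lb n') (V.F.surj n').1 (V.F.surj n').2.1
  rw [V.F.anc_lb] at a a'
  exact a.symm.trans (h.trans a')

variable (V) in
/-- the node lies in the tree `Z p c` of the world `(j, f)` -/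
def IsZ (j : K) (f : Bool) (p : ZMod 12) (c : ZMod 3) (n : N) : Prop :=
  (V.F.tree n).1 = (.hS (j, f) p c, .Z)

variable (V) in
/-- the node lies in the tree `Lam p c` of the world `(j, f)` -/
def IsL (j : K) (f : Bool) (p : ZMod 12) (c : ZMod 3) (n : N) : Prop :=
  (V.F.tree n).1 = (.tS (j, f) p c, .H)

theorem IsZ.own (h : V.IsZ j f p c n) : Own j (V.F.tree n) := ⟨f, p, c, Or.inl h⟩
theorem IsL.own (h : V.IsL j f p c n) : Own j (V.F.tree n) := ⟨f, p, c, Or.inr h⟩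
theorem IsZ.wor (h : V.IsZ j f p c n) : V.W.S.wor n = (j, f) := congrArg (·.1.wor) h
theorem IsL.wor (h : V.IsL j f p c n) : V.W.S.wor n = (j, f) := congrArg (·.1.wor) h
theorem IsZ.of_tree (h : V.IsZ j f p c n) (t : V.F.tree x = V.F.tree n) : V.IsZ j f p c x :=
  (congrArg Subtype.val t).trans h
theorem IsL.of_tree (h : V.IsL j f p c n) (t : V.F.tree x = V.F.tree n) : V.IsL j f p c x :=
  (congrArg Subtype.val t).trans h
theorem IsZ.tree (h : V.IsZ j f p c n) (h' : V.IsZ j f p c x) : V.F.tree x = V.F.tree n :=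
  Subtype.ext (h'.trans h.symm)
theorem IsL.tree (h : V.IsL j f p c n) (h' : V.IsL j f p c x) : V.F.tree x = V.F.tree n :=
  Subtype.ext (h'.trans h.symm)
theorem IsZ.tree_ne (h : V.IsZ j f p c n) {f' : Bool} (h' : V.IsL j f' p' c' x) :
    V.F.tree n ≠ V.F.tree x := fun t => by cases (h.of_tree t.symm).symm.trans h'
theorem IsZ.wn (h : V.IsZ j f p c n) : (V.L j).wn n = winZ p c (V.F.lev n) := by
  rw [Lay.wn, L_dt, td_Z h]; rfl
theorem IsL.wn (h : V.IsL j f p c n) : (V.L j).wn n = winL p c (V.F.lev n) := by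
  rw [Lay.wn, L_dt, td_L h]; rfl

theorem gr_wor (h : V.W.S.wor n = (j, f)) : ((V.L j).dt n).gr = cond f 2 1 := by
  rw [L_dt, td_gr_fz (T := V.F.tree n) (show _ = j from congrArg Prod.fst h), ← wor_eq, h]

theorem wor_gr (h : ((V.L j).dt n).gr = cond f 2 1) : V.W.S.wor n = (j, f) := by
  have s : (V.F.tree n).stg = j := by_contra fun c => by
    rw [L_dt, td_gr c] at h
    cases f <;> simp at h
  rw [L_dt, td_gr_fz s] at h
  refine Prod.ext s ?_
  revert h
  rw [wor_eq]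
  cases f <;> cases (V.F.tree n).ty.wor.2 <;> simp

/-- **A frozen world is an interval.** -/
theorem wor_btw (hu : V.W.S.wor u = (j, f)) (hv : V.W.S.wor v = (j, f))
    (h1 : (V.L j).key u ≤ (V.L j).key x) (h2 : (V.L j).key x ≤ (V.L j).key v) :
    V.W.S.wor x = (j, f) := by
  have a1 := Lay.le_of_le h1
  have a2 := Lay.le_of_le h2
  rw [gr_wor hu] at a1
  rw [gr_wor hv] at a2
  exact wor_gr (by omega)

theorem lt_of_zo_fz (hu : V.W.S.wor u = (j, f)) (hv : V.W.S.wor v = (j, f))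
    (h : (V.L j).zo u < (V.L j).zo v) : (V.L j).key u < (V.L j).key v :=
  Lay.lt_of_zo ((gr_wor hu).trans (gr_wor hv).symm) h

theorem Own.zw {T : Kl K r r0} (h : Own j T) : (V.S.td j T).zw = 0 ∧ (V.S.td j T).zn = 1 ∧
    (V.S.td j T).sep = true ∧ (V.S.td j T).dr = true ∧ (V.S.td j T).cs = true :=
  let ⟨_, _, _, a⟩ := h.td (V := V)
  a ▸ ⟨rfl, rfl, rfl, rfl, rfl⟩

theorem own_of_wn (h : (V.L j).wn n ≠ none) : Own j (V.F.tree n) :=
  by_contra fun c => h (td_win c _)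

theorem zo_win (h : (V.L j).wn n ≠ none) : (V.L j).zo n = 0 := by
  rw [Lay.zo_win (Lay.fm_win.2 h), L_dt, (own_of_wn h).zw.1]

theorem fm_in (w : (V.L j).wn n = none) (l : V.F.lev n ≠ D) : (V.L j).fm n = 0 :=
  Lay.fm_tree.2 ⟨w, Or.inl l, V.td_ud j _⟩

theorem Own.zo_in (h : Own j (V.F.tree n)) (w : (V.L j).wn n = none) (l : V.F.lev n ≠ D) :
    (V.L j).zo n = 1 := by rw [Lay.zo_tree (fm_in w l), L_dt, h.zw.2.1]

theorem zo_cut (h : (V.F.tree n).stg = j) (c : ¬Own j (V.F.tree n)) : (V.L j).zo n = 2 := by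
  rw [Lay.zo_tree (Cut.fm (Or.inr (Or.inl ⟨h, c⟩))), L_dt, td_cut h c]
  rfl

theorem Own.fm_lab (h : Own j (V.F.tree n)) (l : V.F.lev n = D) : (V.L j).fm n = 1 := by
  have := V.hD
  refine Lay.fm_lab.2 ⟨?_, l, h.zw.2.2.1⟩
  obtain ⟨f, p, c, h | h⟩ := h
  exacts [(IsZ.wn h).trans ((winZ_none p c).2 (by omega)),
    (IsL.wn h).trans ((winL_none p c).2 (by omega))]

theorem IsZ.zo_lab (h : V.IsZ j f p c n) (l : V.F.lev n = D) : (V.L j).zo n = 3 := by
  rw [Lay.zo_lab (h.own.fm_lab l), L_dt, td_Z h]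
  rfl

theorem IsL.zo_lab (h : V.IsL j f p c n) (l : V.F.lev n = D) : (V.L j).zo n = 4 := by
  rw [Lay.zo_lab (h.own.fm_lab l), L_dt, td_L h]
  rfl

/-- inner nodes come before the labels -/
theorem Own.zo_le (h : Own j (V.F.tree n)) (l : V.F.lev n ≠ D) : (V.L j).zo n ≤ 1 := by
  by_cases w : (V.L j).wn n = none
  exacts [(h.zo_in w l).le, (zo_win w).le.trans zero_le_one]

theorem Own.pass (h : Own j (V.F.tree t)) (o : V.F.lev t % 2 = 1) (l : V.F.lev t < D)
    (c : V.F.lev t < 6 ∨ 55 ≤ V.F.lev t) : V.W.Pass j t := by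
  have k := h.kap (V := V)
  obtain ⟨f, p, c, h | h⟩ := h
  · exact Sw.pass_of V.od (td_Z h) o l ((winZ_none p c).2 (by rw [S_F]; omega))
      ((winZ_none p c).2 (by rw [S_F]; omega)) (Or.inr (Or.inl rfl))
  · exact Sw.pass_of V.od (td_L h) o l ((winL_none p c).2 (by rw [S_F]; omega))
      ((winL_none p c).2 (by rw [S_F]; omega)) (Or.inr (Or.inl rfl))

theorem IsZ.pass (h : V.IsZ j f p c t) (o : V.F.lev t % 2 = 1) (l : V.F.lev t < D)
    (k : V.F.lev t < 6 ∨ 31 ≤ V.F.lev t) : V.W.Pass j t :=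
  Sw.pass_of V.od (td_Z h) o l ((winZ_none p c).2 (by rw [S_F]; omega))
    ((winZ_none p c).2 (by rw [S_F]; omega)) (Or.inr (Or.inl rfl))

/-! ### windows -/

variable (V) in
/-- the nodes above `a` in the window `d`, `c'` of its tree `Z` -/
noncomputable def wa (a : N) (d : ℕ) (c' : ZMod 3) (t : Fin 2) : N :=
  V.F.at' a (7 + 2 * (3 * d + c'.val) + t)

variable (V) in
/-- the nodes above `z` in the window `d`, `c` of its tree `Lam` -/
noncomputable def wb (z : N) (d : ℕ) (c : ZMod 3) (t : Fin 4) : N :=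
  V.F.at' z (7 + 4 * (3 * d + c.val) + t)

theorem lev_wa (h : d < 4) (t : Fin 2) :
    V.F.lev (V.wa a d c' t) = 7 + 2 * (3 * d + c'.val) + t ∧ V.F.lev (V.wa a d c' t) < 31 ∧
      V.F.tree (V.wa a d c' t) = V.F.tree a := by
  have := c'.val_lt
  have := t.2
  have := V.hD
  rw [wa, V.F.lev_at a (by omega) (by omega), V.F.tree_at a (by omega) (by omega)]
  exact ⟨rfl, by omega, rfl⟩

theorem lev_wb (h : d < 4) (t : Fin 4) :
    V.F.lev (V.wb z d c t) = 7 + 4 * (3 * d + c.val) + t ∧ V.F.lev (V.wb z d c t) < 55 ∧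
      V.F.tree (V.wb z d c t) = V.F.tree z := by
  have := c.val_lt
  have := t.2
  have := V.hD
  rw [wb, V.F.lev_at z (by omega) (by omega), V.F.tree_at z (by omega) (by omega)]
  exact ⟨rfl, by omega, rfl⟩

theorem anc_wa (h : d < 4) (t : Fin 2) (l : 31 ≤ V.F.lev a) : V.F.Anc (V.wa a d c' t) a :=
  have := lev_wa (V := V) (a := a) (c' := c') h t
  Forest.anc_at a (by omega) (by omega)

theorem anc_wb (h : d < 4) (t : Fin 4) (l : 55 ≤ V.F.lev z) : V.F.Anc (V.wb z d c t) z :=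
  have := lev_wb (V := V) (z := z) (c := c) h t
  Forest.anc_at z (by omega) (by omega)

theorem par_wa (h : d < 4) : V.F.par (V.wa a d c' 1) = V.wa a d c' 0 := by
  have := c'.val_lt
  have := V.hD
  exact V.F.par_at a (l := 7 + 2 * (3 * d + c'.val)) (by omega) (by omega)

theorem par_wb (h : d < 4) (t : Fin 3) : V.F.par (V.wb z d c t.succ) = V.wb z d c t.castSucc := by
  have := c.val_lt
  have := t.2
  have := V.hD
  exact V.F.par_at z (l := 7 + 4 * (3 * d + c.val) + t) (by omega) (by omega)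

theorem IsZ.wn_wa (h : V.IsZ j f p c a) (hd : d < 4) (t : Fin 2) :
    (V.L j).wn (V.wa a d c' t) = some (wno p d c c', offZ p d t) := by
  rw [(h.of_tree (lev_wa hd t).2.2).wn, (lev_wa hd t).1, winZ_eq p c c' hd]

theorem IsL.wn_wb (h : V.IsL j f p c' z) (hd : d < 4) (t : Fin 4) :
    (V.L j).wn (V.wb z d c t) = some (wno (p + (d + 1 : ℕ)) d c c', offL (p + (d + 1 : ℕ)) d t) := by
  rw [(h.of_tree (lev_wb hd t).2.2).wn, (lev_wb hd t).1, winL_eq p c c' hd]

/-- every node of a window -/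
theorem win_cases (h : (V.L j).wn x ≠ none) : ∃ f p c c', ∃ d < 4,
    (V.IsZ j f p c x ∧ ∃ t, x = V.wa x d c' t) ∨ (V.IsL j f p c' x ∧ ∃ t, x = V.wb x d c t) := by
  obtain ⟨f, p, c, a | a⟩ := own_of_wn h
  · rw [IsZ.wn a, Ne, winZ_none] at h
    obtain ⟨d, h1, c', t, h2⟩ := exists_levZ (l := V.F.lev x) (by omega) (by omega)
    exact ⟨f, p, c, c', d, h1, Or.inl ⟨a, t, by rw [wa, ← h2, Forest.at_lev]⟩⟩
  · rw [IsL.wn a, Ne, winL_none] at h
    obtain ⟨d, h1, c', t, h2⟩ := exists_levL (l := V.F.lev x) (by omega) (by omega)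
    exact ⟨f, p, c', c, d, h1, Or.inr ⟨a, t, by rw [wb, ← h2, Forest.at_lev]⟩⟩

section win
variable (ha : V.IsZ j f (p + (d + 1 : ℕ)) c a) (hz : V.IsL j f p c' z) (hd : d < 4)
include ha hz hd

/-- **The nodes of a window.** -/
theorem win_mem {o : ℕ} (w : V.W.S.wor x = (j, f))
    (h : (V.L j).wn x = some (wno (p + (d + 1 : ℕ)) d c c', o)) :
    (∃ t, x = V.wa a d c' t ∧ o = offZ (p + (d + 1 : ℕ)) d t) ∨
      ∃ t, x = V.wb z d c t ∧ o = offL (p + (d + 1 : ℕ)) d t := by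
  obtain ⟨f', p', s, s', d', h1, ⟨a1, t, a2⟩ | ⟨a1, t, a2⟩⟩ :=
    win_cases (V := V) (j := j) (x := x) (by simp [h])
  · obtain rfl : f' = f := congrArg Prod.snd (a1.wor.symm.trans w)
    rw [a2, a1.wn_wa h1, Option.some_inj, Prod.mk.injEq] at h
    obtain ⟨rfl, rfl, rfl, rfl⟩ := wno_inj h1 hd h.1
    have b1 := lev_wa (V := V) (a := x) (c' := s') hd t
    have b2 := lev_wa (V := V) (a := a) (c' := s') hd t
    exact Or.inl ⟨t, a2.trans (stem_eq (b1.2.2.trans ((ha.tree a1).trans b2.2.2.symm))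
      (b1.1.trans b2.1.symm) (by omega)), h.2.symm⟩
  · obtain rfl : f' = f := congrArg Prod.snd (a1.wor.symm.trans w)
    rw [a2, a1.wn_wb h1, Option.some_inj, Prod.mk.injEq] at h
    obtain ⟨g, rfl, rfl, rfl⟩ := wno_inj h1 hd h.1
    obtain rfl : p' = p := add_right_cancel g
    have b1 := lev_wb (V := V) (z := x) (c := s) hd t
    have b2 := lev_wb (V := V) (z := z) (c := s) hd t
    exact Or.inr ⟨t, a2.trans (stem_eq (b1.2.2.trans ((hz.tree a1).trans b2.2.2.symm))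
      (b1.1.trans b2.1.symm) (by omega)), h.2.symm⟩

/-- neighbours in a window -/
theorem win_adj {o o' : ℕ} (wu : V.W.S.wor u = (j, f)) (wv : V.W.S.wor v = (j, f))
    (hu : (V.L j).wn u = some (wno (p + (d + 1 : ℕ)) d c c', o))
    (hv : (V.L j).wn v = some (wno (p + (d + 1 : ℕ)) d c c', o')) (lt : o < o')
    (k1 : ∀ t, offZ (p + (d + 1 : ℕ)) d t ≤ o ∨ o' ≤ offZ (p + (d + 1 : ℕ)) d t)
    (k2 : ∀ t, offL (p + (d + 1 : ℕ)) d t ≤ o ∨ o' ≤ offL (p + (d + 1 : ℕ)) d t) :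
    (V.L j).Adj u v := by
  have g := (gr_wor wu).trans (gr_wor wv).symm
  have z0 : ∀ {y}, (V.L j).wn y ≠ none → ((V.L j).dt y).zw = 0 := fun h => (own_of_wn h).zw.1
  have z1 := (z0 (y := u) (by simp [hu])).trans (z0 (y := v) (by simp [hv])).symm
  have uq : ∀ {y y' s}, V.W.S.wor y = (j, f) → V.W.S.wor y' = (j, f) →
      (V.L j).wn y = some (wno (p + (d + 1 : ℕ)) d c c', s) →
      (V.L j).wn y' = some (wno (p + (d + 1 : ℕ)) d c c', s) → y = y' := fun a1 a2 a3 a4 => by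
    obtain ⟨e1, e2, e3⟩ := off_inj (p + (d + 1 : ℕ)) d
    rcases win_mem ha hz hd a1 a3 with ⟨t, rfl, b1⟩ | ⟨t, rfl, b1⟩ <;>
      rcases win_mem ha hz hd a2 a4 with ⟨t', rfl, b2⟩ | ⟨t', rfl, b2⟩
    exacts [by rw [e1 (b1.symm.trans b2)], absurd (b1.symm.trans b2) (e3 _ _),
      absurd (b2.symm.trans b1) (e3 _ _), by rw [e2 (b1.symm.trans b2)]]
  refine Lay.adj_of ((Lay.win_lt hu hv g z1).2 (Or.inr ⟨rfl, Or.inl lt⟩)) fun y a1 a2 => ?_
  obtain ⟨-, -, w1, o1, b1, b2, b3⟩ := Lay.win_between hu hv g z1 a1.le a2.le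
  obtain rfl : w1 = wno (p + (d + 1 : ℕ)) d c c' := by omega
  have wy := wor_btw wu wv a1.le a2.le
  have : o1 = o ∨ o1 = o' := by
    rcases win_mem ha hz hd wy b1 with ⟨t, -, k⟩ | ⟨t, -, k⟩
    exacts [by have := k1 t; omega, by have := k2 t; omega]
  rcases this with rfl | rfl
  exacts [a1.ne (by rw [uq wu wy hu b1]), a2.ne (by rw [uq wy wv b1 hv])]

/-- **Swapping windows.** -/
theorem win_swap (s : Swp (p + (d + 1 : ℕ)) d) :
    (V.L j).Adj (V.wa a d c' 0) (V.wb z d c 0) ∧ (V.L j).Adj (V.wb z d c 0) (V.wa a d c' 1) ∧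
    (V.L j).Adj (V.wa a d c' 1) (V.wb z d c 1) ∧ (V.L j).Adj (V.wb z d c 1) (V.wb z d c 2) ∧
    (V.L j).Adj (V.wb z d c 2) (V.wb z d c 3) := by
  have wa := fun t => (ha.of_tree (lev_wa (c' := c') hd t).2.2).wor
  have wb := fun t => (hz.of_tree (lev_wb (c := c) hd t).2.2).wor
  have na := ha.wn_wa (c' := c') hd
  have nb := hz.wn_wb (c := c) hd
  refine ⟨win_adj ha hz hd (wa _) (wb _) (na _) (nb _) ?_ ?_ ?_,
    win_adj ha hz hd (wb _) (wa _) (nb _) (na _) ?_ ?_ ?_,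
    win_adj ha hz hd (wa _) (wb _) (na _) (nb _) ?_ ?_ ?_,
    win_adj ha hz hd (wb _) (wb _) (nb _) (nb _) ?_ ?_ ?_,
    win_adj ha hz hd (wb _) (wb _) (nb _) (nb _) ?_ ?_ ?_⟩ <;>
  simp only [offZ, offL, if_pos s] <;> decide

/-- **Closed windows.** -/
theorem win_closed (s : ¬Swp (p + (d + 1 : ℕ)) d) :
    (V.L j).Adj (V.wb z d c 2) (V.wa a d c' 0) ∧ (V.L j).Adj (V.wa a d c' 0) (V.wb z d c 3) ∧
    (V.L j).Adj (V.wb z d c 3) (V.wb z d c 0) ∧ (V.L j).Adj (V.wb z d c 0) (V.wa a d c' 1) ∧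
    (V.L j).Adj (V.wa a d c' 1) (V.wb z d c 1) := by
  have wa := fun t => (ha.of_tree (lev_wa (c' := c') hd t).2.2).wor
  have wb := fun t => (hz.of_tree (lev_wb (c := c) hd t).2.2).wor
  have na := ha.wn_wa (c' := c') hd
  have nb := hz.wn_wb (c := c) hd
  refine ⟨win_adj ha hz hd (wb _) (wa _) (nb _) (na _) ?_ ?_ ?_,
    win_adj ha hz hd (wa _) (wb _) (na _) (nb _) ?_ ?_ ?_,
    win_adj ha hz hd (wb _) (wb _) (nb _) (nb _) ?_ ?_ ?_,
    win_adj ha hz hd (wb _) (wa _) (nb _) (na _) ?_ ?_ ?_,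
    win_adj ha hz hd (wa _) (wb _) (na _) (nb _) ?_ ?_ ?_⟩ <;>
  simp only [offZ, offL, if_neg s] <;> decide

end win

end Fw

end Pool.Agent.P.MP_439f1f_co
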