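import Pool.Agent.P.MP_439f1f_co.Dy5

/-!
Two lines outside the items can be brought into a prescribed order.
-/

set_option autoImplicit false
set_option linter.unusedSectionVars false

namespace Pool.Agent.P.MP_439f1f_co

open Sum Function

variable {K N : Type} {r r0 q D e b : ℕ} [DecidableEq K] [Finite K] [Finite N] [Nonempty K]

theorem exists_sg {a a' : ℕ} (h : a ≠ a') : ∃ d, sg d a < sg d a' :=
  (lt_or_gt_of_ne h).elim (fun c => ⟨true, by simpa [sg_lt]⟩) fun c => ⟨false, by simpa [sg_lt]⟩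

namespace Fw

variable {V : Fw K N r r0 q D e b} {j : K} {n n' : N} {L L' : Hub K N (Pt K N) r0}

/-- **Two blocks at rest.** -/
theorem ord_key (V : Fw K N r r0 q D e b) {k : ℕ} (ne : n ≠ n')
    (s1 : V.F.Anc n' n → k ≤ V.F.lev n' + 1)
    (s2 : V.F.Anc n n' → V.F.lev n + 1 < k ∨ k < V.F.lev n') :
    ∃ dr cd, ∀ j, (V.par j).dr = dr → (V.par j).cd = cd → V.Rest j (V.F.tree n) →
      V.Rest j (V.F.tree n') →
      (V.F.tree n = V.F.tree n' → ((V.par j).kap (V.F.tree n).ty.col : ℕ) = k) →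
      (V.L j).key n < (V.L j).key n' := by
  by_cases t : V.F.tree n = V.F.tree n'
  · have fm : ∀ {j x}, V.Rest j (V.F.tree x) → (V.L j).fm x = 0 := fun h => Cut.fm (Or.inl h)
    by_cases c : V.F.Anc n n'
    · refine ⟨true, true, fun j d _ h h' f => (Lay.anc_lt (fm h) (fm h') c ne).2 ?_⟩
      have := h.kap.trans (f t)
      exact (s2 c).imp (fun g l => g.not_ge (this.ge.trans l.2))
        fun g => ⟨h.asc.trans d, this.trans_lt g⟩
    by_cases c' : V.F.Anc n' n
    · refine ⟨false, true, fun j d _ h h' f => (Lay.lt_iff_not ne).2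
        (mt (Lay.anc_lt (fm h') (fm h) c' ne.symm).1 (not_or.2 ⟨not_not.2 ?_, fun g => ?_⟩))⟩
      · exact ⟨Cut.two (Or.inl h'), (t ▸ h.kap.trans (f t)).trans_le (s1 c')⟩
      · exact Bool.false_ne_true ((h'.asc.trans d).symm.trans g.1)
    obtain ⟨s, g⟩ := V.ho.choose c c'
    refine ⟨true, s, fun j d d' h h' f => (Lay.unrel_lt (fm h) (fm h') t.symm c c' ?_).2
      (iff_of_true (Or.inr (h.asc.trans d)) ?_)⟩
    · have := h.kap_cases
      show V.kap j (V.F.tree n) % 2 = 0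
      omega
    · rwa [L_dt, td_cs (not_own h.1), d']
  by_cases c : (V.F.tree n).ty.col = (V.F.tree n').ty.col
  · obtain ⟨d, g⟩ := exists_sg (mt (V.cti ·) t)
    exact ⟨d, true, fun j a _ h h' _ => (tree_lt h.1 h'.1 (Cut.fm (Or.inl h)) (Cut.fm (Or.inl h'))
      (by rw [h.zo, h'.zo, c]) t).2 (a ▸ g)⟩
  · obtain ⟨d, g⟩ := exists_sg (mt (ZMod.val_injective 3 ·) c)
    exact ⟨d, true, fun j a _ h h' _ => h.lt h' (a ▸ g)⟩

/-- the place of a line outside the payload blocks -/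
def pk (V : Fw K N r r0 q D e b) : Lop N K → ℕ
  | inl (inl _, _) => 0
  | inl (inr z, i) => 4 * (V.cb z + 1) + i
  | inr i => i

theorem pk_inj (V : Fw K N r r0 q D e b) (h : ∀ n, ¬V.W.In L n) (h' : ∀ n, ¬V.W.In L' n)
    (c : V.pk (V.W.lo L) = V.pk (V.W.lo L')) : V.W.lo L = V.W.lo L' := by
  rcases a : V.W.lo L with ⟨n | z, i⟩ | i
  · exact absurd ⟨i, a⟩ (h n)
  all_goals
    rcases a' : V.W.lo L' with ⟨n | z', i'⟩ | i'
    · exact absurd ⟨i', a'⟩ (h' n)
  all_goals simp only [a, a', pk] at c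
  · rw [V.cbi (show V.cb z = V.cb z' by omega), Fin.ext (show (i : ℕ) = i' by omega)]
  · omega
  · omega
  · rw [Fin.ext c]

/-- **Two lines outside the payload blocks.** -/
theorem ord_pure (f : V.W.Far j L) (f' : V.W.Far j L') (h : ∀ n, ¬V.W.In L n)
    (h' : ∀ n, ¬V.W.In L' n)
    (c : sg (V.par j).dr (V.pk (V.W.lo L)) < sg (V.par j).dr (V.pk (V.W.lo L'))) :
    V.W.pos j L < V.W.pos j L' := by
  have an : ∀ {L z i}, V.W.Far j L → V.W.lo L = inl (inr z, i) →
      V.W.an j L = kq 0 0 0 (sg (V.par j).dr (V.cb z + 1)) 0 0 0 ∧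
        V.W.lay j (inr z) = cond (V.par j).dr 1 Fin.revPerm := fun {L z i} f a => by
    rw [Wd.an_blk a (f.fb a)]
    rcases z with s | ⟨s, s', z⟩
    · have : s ≠ j := fun g => f.hinge i (g ▸ a)
      simp [S_cz, S_lz, play, this]
    · simp [S_cz, S_lz, play, f.guard a]
  have ap : ∀ {L i}, V.W.lo L = inr i → V.W.an j L = kq 0 0 0 (sg (V.par j).dr 0) 0 0 0 :=
    fun a => by rw [Wd.an_ring (by rw [a]; rfl)]; simp [S_cz]
  rcases a : V.W.lo L with ⟨n | z, i⟩ | i
  · exact absurd ⟨i, a⟩ (h n)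
  all_goals
    rcases a' : V.W.lo L' with ⟨n | z', i'⟩ | i'
    · exact absurd ⟨i', a'⟩ (h' n)
  all_goals simp only [a, a', pk, sg_lt] at c
  · by_cases g : z = z'
    · subst g
      rw [Wd.pos_lay f.cold f'.cold a a' (fun g => by simp [g] at c), (an f a).2]
      revert c
      cases (V.par j).dr <;> simp
    · have := mt (V.cbi ·) g
      refine Wd.pos_an f.cold f'.cold ?_
      simp only [(an f a).1, (an f' a').1, kq_lt, sg_lt, lt_irrefl, false_or, true_and, and_false,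
        or_false]
      split_ifs at c ⊢ <;> omega
  · refine Wd.pos_an f.cold f'.cold ?_
    simp only [(an f a).1, ap a', kq_lt, sg_lt, lt_irrefl, false_or, true_and, and_false, or_false]
    split_ifs at c ⊢ <;> omega
  · refine Wd.pos_an f.cold f'.cold ?_
    simp only [(an f' a').1, ap a, kq_lt, sg_lt, lt_irrefl, false_or, true_and, and_false, or_false]
    split_ifs at c ⊢ <;> omega
  · rw [Wd.pos_pad f.cold f'.cold a a' fun g => by simp [g] at c, Sw.W_pad, S_pad]
    revert c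
    cases (V.par j).dr <;> simp

variable (V) in
/-- the lines in the blocks at rest that come after the items -/
def Up (j : K) (L : Hub K N (Pt K N) r0) : Prop :=
  (V.par j).dr = false ∧ ∃ n, V.W.Bk j L n ∧ V.Rest j (V.F.tree n)

variable (V) in
/-- `L` comes before `L'` in the order that ends with the items -/
def Bef (j : K) (L L' : Hub K N (Pt K N) r0) : Prop :=
  (V.Up j L ∧ ¬V.Up j L') ∨ ((V.Up j L ↔ V.Up j L') ∧ V.W.pos j L < V.W.pos j L')

theorem up_in (f : V.W.Far j L) (c : V.W.In L n) (h : V.Rest j (V.F.tree n)) :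
    V.Up j L ↔ (V.par j).dr = false := and_iff_left ⟨n, f.bk.2 c, h⟩

theorem up_out (f : V.W.Far j L) (h : ∀ n, ¬V.W.In L n) : ¬V.Up j L :=
  fun ⟨_, n, c, _⟩ => h n (f.bk.1 c)

/-- **The order of two lines in different loops.** -/
theorem ord (V : Fw K N r r0 q D e b) (k : ℕ) (ne : V.W.lo L ≠ V.W.lo L')
    (nm : ∀ n, V.W.lo L = inl (inl n, 1) → V.W.lo L' ≠ inl (inl n, 0))
    (s : ∀ n n', V.W.In L n → V.W.In L' n' → n ≠ n' → (V.F.Anc n' n → k ≤ V.F.lev n' + 1) ∧
      (V.F.Anc n n' → V.F.lev n + 1 < k ∨ k < V.F.lev n')) :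
    ∃ dr cd sp, ∀ j, V.W.Far j L → V.W.Far j L' → (V.par j).dr = dr → (V.par j).cd = cd →
      (V.par j).sp = sp → (∀ n, V.W.In L n ∨ V.W.In L' n → V.Rest j (V.F.tree n)) →
      (∀ n n', V.W.In L n → V.W.In L' n' → n ≠ n' → V.F.tree n = V.F.tree n' →
        ((V.par j).kap (V.F.tree n).ty.col : ℕ) = k) → V.Bef j L L' := by
  by_cases h : ∃ n, V.W.In L n <;> by_cases h' : ∃ n, V.W.In L' n
  · obtain ⟨n, h⟩ := h
    obtain ⟨n', h'⟩ := h'
    have k0 : ∀ {j}, V.W.Far j L → V.W.Far j L' →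
        (∀ n, V.W.In L n ∨ V.W.In L' n → V.Rest j (V.F.tree n)) → V.W.pos j L < V.W.pos j L' →
        V.Bef j L L' := fun f f' a c => Or.inr
      ⟨(up_in f h (a _ (Or.inl h))).trans (up_in f' h' (a _ (Or.inr h'))).symm, c⟩
    by_cases c : n = n'
    · subst c
      obtain ⟨i, h⟩ := h
      obtain ⟨i', h'⟩ := h'
      have a1 : i ≠ i' := fun g => ne (by rw [h, h', g])
      obtain ⟨sp, g⟩ := (by decide : ∀ i i' : Fin 4, i ≠ i' → ¬(i = 1 ∧ i' = 0) →
        ∃ s, blay s false i < blay s false i') i i' a1 fun g => nm n (g.1 ▸ h) (g.2 ▸ h')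
      refine ⟨true, true, sp, fun j f f' _ _ d a _ => k0 f f' a ?_⟩
      rwa [Wd.pos_lay f.cold f'.cold h h' a1, lay_closed fun o =>
        Cut.not_ot (Or.inl (a n (Or.inl ⟨i, h⟩))) o.ot, d]
    · obtain ⟨dr, cd, g⟩ := V.ord_key c (s n n' h h' c).1 (s n n' h h' c).2
      exact ⟨dr, cd, true, fun j f f' d d' _ a t => k0 f f' a (Sw.lt_of_key (f.bk.2 h) (f'.bk.2 h')
        (g j d d' (a _ (Or.inl h)) (a _ (Or.inr h')) (t n n' h h' c)))⟩
  · obtain ⟨n, h⟩ := h
    exact ⟨false, true, true, fun j f f' d _ _ a _ => Or.inl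
      ⟨(up_in f h (a _ (Or.inl h))).2 d, up_out f' (not_exists.1 h')⟩⟩
  · obtain ⟨n', h'⟩ := h'
    exact ⟨true, true, true, fun j f f' d _ _ _ _ => Or.inr ⟨by simp [Up, d],
      Sw.out_lt (fun x c => h ⟨x, f.bk.1 c⟩) (f'.bk.2 h') (f'.fam h')⟩⟩
  · rw [not_exists] at h h'
    obtain ⟨d, g⟩ := exists_sg (mt (V.pk_inj h h') ne)
    exact ⟨d, true, true, fun j f f' a _ _ _ _ => Or.inr ⟨iff_of_false (up_out f h) (up_out f' h'),
      ord_pure f f' h h' (a ▸ g)⟩⟩

end Fw

/-! ### the order in a moat loop -/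

namespace Wd

variable {β : Type} [LinearOrder β] (W : Wd K N β r r0 q D e b)

/-- the index of the moat hub of `n` at or before which a hub of the moat loop lies -/
def mi (n : N) : Hub K N (Pt K N) r0 → Fin (r0 + 1)
  | inl (inl _) => 0
  | inl (inr w) => w.2
  | inr z => W.port z.1 n

/-- the hub is a hub of a system that comes before the port of the stage `j` at the same place -/
def Late (j : K) (n : N) (L : Hub K N (Pt K N) r0) : Prop :=
  ∃ s z, L = inr (s, z) ∧ W.port s n = W.port j n ∧ W.idx s < W.idx j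

open Classical in
/-- the rank of a hub of the moat loop of `n` in the state `j` -/
noncomputable def mr (j : K) (n : N) (L : Hub K N (Pt K N) r0) : ℕ :=
  if W.Late j n L then r0 + 1 else el (r0 + 1) (W.port j n) (W.mi n L)

variable {W} {j : K} {n : N} {L L' : Hub K N (Pt K N) r0}

@[simp] theorem mi_mo (n n' : N) (i : Fin (r0 + 1)) : W.mi n (inl (inr (n', i))) = i := rfl
@[simp] theorem mi_sys (n : N) (s : K) (z : Pt K N × Fin 3) : W.mi n (inr (s, z)) = W.port s n := rfl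

theorem not_late_pay (p : N ⊕ N × Fin (r0 + 1)) : ¬W.Late j n (inl p) := by simp [Late]

theorem late_sys {s : K} {z : Pt K N × Fin 3} :
    W.Late j n (inr (s, z)) ↔ W.port s n = W.port j n ∧ W.idx s < W.idx j := by simp [Late]

theorem Late.mi (h : W.Late j n L) : W.mi n L = W.port j n := by
  obtain ⟨s, z, rfl, h, -⟩ := h
  exact h

theorem mr_of_ne (h : W.mi n L ≠ W.port j n) : W.mr j n L = el (r0 + 1) (W.port j n) (W.mi n L) :=
  if_neg fun c => h c.mi

theorem mr_mo (i : Fin (r0 + 1)) : W.mr j n (inl (inr (n, i))) = el (r0 + 1) (W.port j n) i :=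
  if_neg (not_late_pay _)

theorem moat_lk (h : W.lo L = inl (inl n, 0)) : (ofLex (W.B.lk (elt L))).1 = r0 - W.mi n L ∧
    (W.ph j L = 0 ↔ W.mi n L ≤ W.port j n ∧ ¬W.Late j n L) ∧ W.ph j L ≤ 1 := by
  rw [ph_eq (by simp [h, Blk.hg]), h]
  have := (W.port j n).2
  rcases L with (m | ⟨m, i⟩) | ⟨s, _ | y, t⟩
  · simp at h
  · have := i.2
    simp only [Blk.lk, Blk.pl_l, Dyn.blk, Prod.Lex.toLex_le_toLex, mi_mo, not_late_pay, Fin.le_def,
      Sum.elim_inr, if_true, elt_l, ofLex_toLex]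
    split_ifs <;> simp <;> omega
  · simp at h
  · obtain rfl : y = _ := h
    have := (W.port s n).2
    simp only [Blk.lk, Blk.pl_l, Dyn.blk, Prod.Lex.toLex_le_toLex, mi_sys, Fin.le_def, late_sys,
      if_true, elt_r, ofLex_toLex, Fin.ext_iff, true_and]
    split_ifs <;> simp <;> omega

/-- **The order in a moat loop.** -/
theorem pos_moat (c : Cold j L) (c' : Cold j L') (h : W.lo L = inl (inl n, 0))
    (h' : W.lo L' = inl (inl n, 0)) : W.pos j L < W.pos j L' ↔
      W.mr j n L < W.mr j n L' ∨ (W.mr j n L = W.mr j n L' ∧ W.lk L < W.lk L') := by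
  rw [pos_one c c' (by simp [h, Blk.hg]) (h.trans h'.symm)]
  obtain ⟨a1, a2, a3⟩ := moat_lk (j := j) h
  obtain ⟨b1, b2, b3⟩ := moat_lk (j := j) h'
  have k1 : r0 - W.mi n L < r0 - W.mi n L' → W.lk L < W.lk L' := fun d =>
    Prod.Lex.toLex_lt_toLex.2 (Or.inl (Prod.Lex.lt_iff.2 (Or.inl (by rwa [a1, b1]))))
  have k2 : W.lk L < W.lk L' → r0 - W.mi n L ≤ r0 - W.mi n L' := fun d => by
    rw [← a1, ← b1]
    rcases Prod.Lex.toLex_lt_toLex.1 d with d | d
    exacts [Prod.Lex.monotone_fst _ _ d.le, by rw [show W.B.lk (elt L) = _ from d.1]]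
  have := (W.port j n).2
  have := (W.mi n L).2
  have := (W.mi n L').2
  have l := fun d : W.Late j n L => congrArg Fin.val d.mi
  have l' := fun d : W.Late j n L' => congrArg Fin.val d.mi
  simp only [mr, el, Fin.le_def] at *
  by_cases d : W.lk L < W.lk L' <;> simp only [d, and_true, and_false, or_false] at * <;>
    split_ifs <;> simp_all <;> omega

theorem pos_moat_lt (c : Cold j L) (c' : Cold j L') (h : W.lo L = inl (inl n, 0))
    (h' : W.lo L' = inl (inl n, 0)) (d : W.mr j n L < W.mr j n L') : W.pos j L < W.pos j L' :=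
  (pos_moat c c' h h').2 (Or.inl d)

end Wd

end Pool.Agent.P.MP_439f1f_co
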