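import Pool.Agent.P.MP_439f1f_co.Rn0

/-!
Service for the pairs of nodes.
-/

set_option autoImplicit false
set_option linter.unusedSectionVars false

namespace Pool.Agent.P.MP_439f1f_co

open Sum Function

variable {K N : Type} {r r0 q D e b : ℕ} [DecidableEq K] [Finite K] [Finite N] [Nonempty K]

theorem Wd.Anb.eq {β ι : Type} [LinearOrder β] {W : Wd K N β r r0 q D e b} {l : ι → ℕ} {t : ι → N}
    {n y : N} (h : W.Anb l t n y) (c : ∀ g, ¬W.On (l g) (t g) n) : y = n :=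
  h.resolve_right fun ⟨g, a, _⟩ => c g a

namespace Fw

variable {V : Fw K N r r0 q D e b} {j : K} {u v : N} {i : Bool} {a : Option Bool}

/-- the route to a node of an item: an even node is reached from its parent -/
theorem nn_route (h : V.Role j (some i) (V.F.tree u)) (k : (V.par j).rook = false)
    (c : (V.par j).cut i = 0 ∨ (((V.par j).cut i : ℕ) = D ∧ V.F.lev u < D)) :
    (V.F.lev u % 2 = 1 ∧ V.W.Run j 0 u) ∨ (2 ≤ V.F.lev u ∧ V.W.Run j 0 (V.F.par u) ∧
      (V.L j).key (V.F.par u) < (V.L j).key u) := by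
  have c' : V.kap j (V.F.tree u) = 0 ∨ V.F.lev u < V.kap j (V.F.tree u) := by
    rw [h.kap]
    exact c.imp (congrArg Fin.val) fun c => by omega
  have o := not_own h.1
  have := (V.F.surj u).1
  rcases Nat.mod_two_eq_zero_or_one (V.F.lev u) with d | d
  · have l : 2 ≤ V.F.lev u := by omega
    have a := V.F.lev_par l
    have t := V.F.tree_par l
    refine Or.inr ⟨l, run (t ▸ o) rfl (by omega) (by omega) (by rw [t]; omega), ?_⟩
    refine (Lay.anc_lt (fm_plain (t ▸ o) k) (fm_plain o k) (Forest.anc_par l)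
      fun f => by rw [show V.F.par u = u from f] at a; omega).2 (Or.inl fun f => ?_)
    have f1 : 2 ≤ V.kap j (V.F.tree (V.F.par u)) := f.1
    have f2 : V.kap j (V.F.tree (V.F.par u)) ≤ V.F.lev (V.F.par u) + 1 := f.2
    rw [t] at f1 f2
    omega
  · exact Or.inl ⟨d, run o rfl d (by omega) (c'.imp_right Or.inl)⟩

theorem nn_off (t : V.F.tree u ≠ V.F.tree v) (l : 2 ≤ V.F.lev u) (g : Fin 2) :
    ¬V.W.On (![0, 0] g) (![V.F.par u, v] g) u := by
  fin_cases g
  · intro a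
    have a1 : V.F.lev u ≤ V.F.lev (V.F.par u) := a.1.1
    have := V.F.lev_par l
    omega
  · exact fun a => t a.1.tree

/-- **Two routes.** -/
theorem nn_two (h : V.Role j (some false) (V.F.tree u)) (h' : V.Role j (some true) (V.F.tree v))
    (k : (V.par j).rook = false)
    (c : (V.par j).cut false = 0 ∨ (((V.par j).cut false : ℕ) = D ∧ V.F.lev u < D))
    (c' : (V.par j).cut true = 0 ∨ (((V.par j).cut true : ℕ) = D ∧ V.F.lev v < D))
    (o : V.F.lev v % 2 = 1) : V.W.Sv (hv (nl u)) (hv (nl v)) := by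
  intro _ _
  have t : V.F.tree u ≠ V.F.tree v := fun d => by cases h.eq (d ▸ h')
  have ne : (hv (nl u) : Vx K N (Pt K N) r r0) ≠ hv (nl v) := by
    simpa using fun d => t (congrArg _ d)
  have rv : V.W.Run j 0 v := (nn_route h' k c').elim (·.2) fun d => by
    have := d.2.1.od
    have := V.F.lev_par d.1
    rw [W_F] at *
    omega
  rcases nn_route h k c with ⟨-, ru⟩ | ⟨l, ru, lt⟩
  · have k := Wd.Rs.two ru rv (Wd.On.tree_ne t)
    exact k.serve (k.ch_cut 0) (k.ch_cut 1) ne (fun g => by fin_cases g <;> simp) [] [(0, 1)]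
      (by decide +kernel) trivial
      (pz_ne fun c => absurd (k.dis 0 1 _ (k.on_cut 0) (inl.inj (inl.inj c) ▸ k.on_cut 1))
        (by decide))
  · have k1 := h.lt h' k (by simp [Par.zi])
    have k := Wd.Rs.two ru rv (Wd.On.tree_ne ((V.F.tree_par l).trans_ne t))
    have f := nn_off t l
    exact k.serve ((k.ch_cut 0).app (k.ch_kid f l)) (k.ch_cut 1) ne
      (fun g => by fin_cases g <;> simp) [.lt 0 1, .lt 1 2] [] (by decide +kernel)
      ⟨Wd.vq_lt (Sw.cut_lt_bk k (g := 0) (.self _ j u) fun y a => a.eq f ▸ lt),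
        Wd.vq_lt (Sw.bk_lt_cut k (g := 1) (.self _ j u) fun y a => a.eq f ▸ k1)⟩ trivial

/-- **A route and a leak.** -/
theorem nn_leak (h : V.Role j (some i) (V.F.tree u)) (h' : V.Role j (some true) (V.F.tree v))
    (c : (V.par j).cut i = 0 ∨ (((V.par j).cut i : ℕ) = D ∧ V.F.lev u < D))
    (op : (V.par j).op = some true) (c' : (V.par j).cut true = 0) (fp : (V.par j).flip = false)
    (fl : (V.par j).fl = 2) (ek : ((V.par j).ek : ℕ) = 1)
    (lt : (V.L j).key u < (V.L j).key v) : V.W.Sv (hv (nl u)) (hv (nl v)) := by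
  intro _ _
  have ot : V.Ot j (V.F.tree v) := ⟨true, h', op⟩
  have k0 := ot.rook
  have x := ot.ell
  rw [ek] at x
  have oo : V.Opn j v := h'.opn.2 ⟨op, by simp [c']⟩
  have ne : (hv (nl u) : Vx K N (Pt K N) r r0) ≠ hv (nl v) := by
    simpa using fun d => lt.ne (congrArg _ d)
  have rx : V.W.Run j 0 (V.W.ell v 1) :=
    x.liv.run rfl (by rw [V.lev_ell, V.od]) (by rw [V.lev_ell]; exact V.D_pos)
  have tu : V.F.tree u ≠ V.F.tree (V.W.ell v 1) := fun d => by cases h.eq (d ▸ x)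
  have tv : V.F.tree v ≠ V.F.tree (V.W.ell v 1) := fun d => by cases h'.eq (d ▸ x)
  have na : ¬V.F.Anc v u := fun d => lt.not_gt ((Lay.anc_lt (fm_plain (not_own h'.1) k0)
    (fm_plain (not_own h.1) k0) d fun f => lt.ne' (congrArg _ f)).2 (Or.inl fun f => by
      have f1 : 2 ≤ V.kap j (V.F.tree v) := f.1
      rw [h'.kap, c'] at f1
      simp at f1))
  have k1 := h'.lt x k0 (by simp [Par.zi, fl])
  have ly : V.W.lay j (inl v) 0 < V.W.lay j (inl v) 1 := by
    rw [oo.lay]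
    exact (blay_lt _ _).2 fp
  rcases nn_route h k0 c with ⟨-, ru⟩ | ⟨l, ru, lt'⟩
  · have k := Wd.Rs.two ru rx (Wd.On.tree_ne tu)
    have f : ∀ g, ¬V.W.On (![0, 0] g) (![u, V.W.ell v 1] g) v := fun g => by
      fin_cases g
      exacts [fun a => na a.1, fun a => tv a.1.tree]
    have z := k.leak_front V.two_r0 (fun g a => (f g a).elim) oo.port ly
    exact k.serve (k.ch_cut 0) ((k.ch_cut 1).app (k.ch_leak v)) ne
      (fun g => by fin_cases g <;> simp) [.lt 0 3, .lt 3 2, .lt 2 4, .lt 4 1] []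
      (by decide +kernel)
      ⟨Wd.vq_lt (Sw.cut_lt_bk k (g := 0) (Wd.bk_pay.2 rfl) fun y a => a.eq f ▸ lt), z.1, z.2,
        Wd.vq_lt (Sw.bk_lt_cut k (g := 1) (Wd.bk_prv' j _) fun y a => a.eq f ▸ k1)⟩ trivial
  · have k := Wd.Rs.two ru rx (Wd.On.tree_ne ((V.F.tree_par l).trans_ne tu))
    have f0 := nn_off tu l
    have f : ∀ g, ¬V.W.On (![0, 0] g) (![V.F.par u, V.W.ell v 1] g) v := fun g => by
      fin_cases g
      exacts [fun a => na (a.1.trans (Forest.anc_par l)), fun a => tv a.1.tree]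
    have z := k.leak_front V.two_r0 (fun g a => (f g a).elim) oo.port ly
    exact k.serve ((k.ch_cut 0).app (k.ch_kid f0 l)) ((k.ch_cut 1).app (k.ch_leak v)) ne
      (fun g => by fin_cases g <;> simp) [.lt 0 1, .lt 1 4, .lt 4 3, .lt 3 5, .lt 5 2] []
      (by decide +kernel)
      ⟨Wd.vq_lt (Sw.cut_lt_bk k (g := 0) (.self _ j u) fun y a => a.eq f0 ▸ lt'),
        Wd.vq_lt (Sw.bk_lt k (.self _ j u) (Wd.bk_pay.2 rfl) fun y y' a a' =>
          a.eq f0 ▸ a'.eq f ▸ lt), z.1, z.2,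
        Wd.vq_lt (Sw.bk_lt_cut k (g := 1) (Wd.bk_prv' j _) fun y a => a.eq f ▸ k1)⟩ trivial

variable (V)

/-- two closed items for two nodes of different kinds -/
theorem nn_A (u v : N) (z z' : Bool) (ne : (V.F.tree u).kind ≠ (V.F.tree v).kind)
    (h1 : z = false → z' = false → ¬(V.F.tree v).kind.Bef (V.F.tree u).kind ∧
      ¬(V.F.tree u).Lz (V.F.tree v) ∧ ¬(V.F.tree v).Lz (V.F.tree u))
    (h2 : ∀ w, z = false → z' = true →
      (V.F.tree u).kind.1 ≠ (.tN w ((V.F.tree v).kind.ty.col + 1) 3, .H))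
    (h3 : ∀ w, z' = false → z = true →
      (V.F.tree v).kind.1 ≠ (.tN w ((V.F.tree u).kind.ty.col + 1) 3, .H))
    (l : z = true → V.F.lev u < D) (l' : z' = true → V.F.lev v < D) (o : V.F.lev v % 2 = 1) :
    V.W.Sv (hv (nl u)) (hv (nl v)) := by
  intro _ _
  obtain ⟨π, p1, p2, -, p3, p4, p5⟩ := Par.nn_two V.od V.ev
    (fun i => cond i (V.F.tree v).kind (V.F.tree u).kind)
    (decide ((V.F.tree v).stg ≠ (V.F.tree u).stg)) (fun i => cond i z' z) ne
    (fun a a' => ⟨(h1 a a').1, fun s i => by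
      have s : (V.F.tree v).stg = (V.F.tree u).stg := by simpa using s
      cases i
      exacts [fun d => (h1 a a').2.1 (d.of_kind s.symm), fun d => (h1 a a').2.2 (d.of_kind s)]⟩)
    (fun i w => by cases i; exacts [h2 w, h3 w])
  obtain ⟨j, rfl, j1, j2, j3, j4⟩ := V.nn_stage p1 (V.F.tree u).stg (V.F.tree v).stg
  have cu : ∀ i n, (cond i z' z = true → V.F.lev n < D) →
      (V.par j).cut i = 0 ∨ (((V.par j).cut i : ℕ) = D ∧ V.F.lev n < D) := fun i n d => by
    have := p5 i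
    split_ifs at this with f
    exacts [Or.inr ⟨this, d f⟩, Or.inl (Fin.ext this)]
  refine nn_two ⟨j1, p3 false, fun s d => ?_⟩ ⟨j2, p3 true, fun s d => ?_⟩ p2 (cu _ _ l)
    (cu _ _ l') o <;> simp only [Par.sl, p4] at d <;> split_ifs at d with f
  · rw [j3]
    exact Option.some.inj d
  · rw [j4 (by simpa using f)]
    exact Option.some.inj d

/-- `u` is in a tree that is cut at the last level and `v` leaks -/
theorem nn_B (u v : N) (ne : (V.F.tree u).kind ≠ (V.F.tree v).kind) (l : V.F.lev u < D)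
    (h1 : ∀ w, (V.F.tree v).kind.1 ≠ (.tN w ((V.F.tree u).kind.ty.col + 1) 3, .H))
    (h2 : ∀ w k, (V.F.tree u).kind.1 ≠ (.hM w ((V.F.tree v).kind.ty.col + 1) k, .Z)) :
    V.W.Sv (hv (nl u)) (hv (nl v)) := by
  intro _ _
  obtain ⟨π, p1, p2, p3, p4, p5, p6, p7, p8, p9, p10⟩ := Par.nn_open (D := D) V.od V.two_r0
    (V.F.tree v).kind {(V.F.tree u).kind} (by rintro _ rfl; exact ⟨ne, h1, h2⟩)
  obtain ⟨j, rfl, j1, j2, -⟩ := V.nn_stage p1 (V.F.tree u).stg (V.F.tree v).stg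
  have a : V.Role j (some false) (V.F.tree u) :=
    ⟨j1, by simp [Par.mem, p7], fun s d => by simp [Par.sl, p8] at d⟩
  have a' : V.Role j (some true) (V.F.tree v) := ⟨j2, p6, fun s d => by simp [Par.sl, p8] at d⟩
  exact nn_leak a a' (Or.inr ⟨p10, l⟩) p2 p9 p3 p4 p5
    (a.lt a' (Ot.rook ⟨_, a', p2⟩) (by simp [Par.zi]))

/-- two nodes of the same kind -/
theorem nn_C (u v : N) (ne : u ≠ v) (h : (V.F.tree u).kind = (V.F.tree v).kind) :
    V.W.Sv (hv (nl u)) (hv (nl v)) := by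
  intro _ _
  obtain ⟨π, p1, p2, p3, p4, p5, p6, -, p8, p9, -⟩ := Par.nn_open (D := D) V.od V.two_r0
    (V.F.tree v).kind ∅ (by simp)
  obtain ⟨j, rfl, j1, j2, -⟩ := V.nn_stage p1 (V.F.tree u).stg (V.F.tree v).stg
  have a : V.Role j (some true) (V.F.tree u) :=
    ⟨j1, h ▸ p6, fun s d => by simp [Par.sl, p8] at d⟩
  have a' : V.Role j (some true) (V.F.tree v) := ⟨j2, p6, fun s d => by simp [Par.sl, p8] at d⟩
  rcases lt_or_gt_of_ne ((V.L j).key_inj.ne ne) with c | c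
  exacts [nn_leak a a' (Or.inl p9) p2 p9 p3 p4 p5 c,
    Wd.Sv.symm (nn_leak a' a (Or.inl p9) p2 p9 p3 p4 p5 c)]

/-- a node that is not a label and an odd node -/
theorem nn_D (u v : N) (ne : (V.F.tree u).kind ≠ (V.F.tree v).kind) (l : V.F.lev u < D)
    (o : V.F.lev v % 2 = 1) : V.W.Sv (hv (nl u)) (hv (nl v)) := by
  intro _ _
  rcases (V.F.surj v).2.1.lt_or_eq with c | c
  · exact V.nn_A u v true true ne (by simp) (by simp) (by simp) (fun _ => l) (fun _ => c) o
  by_cases d : ∃ w, (V.F.tree v).kind.1 = (.tN w ((V.F.tree u).kind.ty.col + 1) 3, .H)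
  · obtain ⟨w, d⟩ := d
    have d' := Kl.val_of_kind d
    refine V.nn_A u v false false ne (fun _ _ => ⟨fun f => ?_, ?_, ?_⟩) (by simp) (by simp)
      (by simp) (by simp) o
    · exact col_succ_ne _ (by simpa only [Kl.ty, d, HT.col] using f.col.symm)
    · rintro ⟨_, _, _, _, _, -, f, -⟩
      simp [d'] at f
    · rintro ⟨_, _, _, _, _, f, -⟩
      simp [d', HT.map] at f
  · exact V.nn_A u v true false ne (by simp) (by simp) (fun w _ _ f => d ⟨w, f⟩) (fun _ => l)
      (by simp) o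

/-- **Two nodes are served**, except for two labels of one system with close indices. -/
theorem sv_nn (u v : N) (ne : u ≠ v) (nc : V.F.lev u = D → V.F.lev v = D →
    ¬(V.F.tree u).Lz (V.F.tree v) ∧ ¬(V.F.tree v).Lz (V.F.tree u)) :
    V.W.Sv (hv (nl u)) (hv (nl v)) := by
  intro _ _
  by_cases h : (V.F.tree u).kind = (V.F.tree v).kind
  · exact V.nn_C u v ne h
  have od := V.od
  have lu := (V.F.surj u).2.1
  have lv := (V.F.surj v).2.1
  by_cases c : V.F.lev u = D ∧ V.F.lev v = D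
  · have n := nc c.1 c.2
    by_cases d : (V.F.tree v).kind.Bef (V.F.tree u).kind
    · exact Wd.Sv.symm (V.nn_A v u false false (Ne.symm h) (fun _ _ => ⟨d.asymm, n.symm⟩) (by simp)
        (by simp) (by simp) (by simp) (by omega))
    · exact V.nn_A u v false false h (fun _ _ => ⟨d, n⟩) (by simp) (by simp) (by simp) (by simp)
        (by omega)
  by_cases c1 : V.F.lev u < D ∧ V.F.lev v % 2 = 1
  · exact V.nn_D u v h c1.1 c1.2
  by_cases c2 : V.F.lev v < D ∧ V.F.lev u % 2 = 1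
  · exact Wd.Sv.symm (V.nn_D v u (Ne.symm h) c2.1 c2.2)
  have three : ∀ x : ZMod 3, x + 1 + 1 ≠ x := by decide
  by_cases d : (∀ w, (V.F.tree v).kind.1 ≠ (.tN w ((V.F.tree u).kind.ty.col + 1) 3, .H)) ∧
    ∀ w k, (V.F.tree u).kind.1 ≠ (.hM w ((V.F.tree v).kind.ty.col + 1) k, .Z)
  · exact V.nn_B u v h (by omega) d.1 d.2
  refine Wd.Sv.symm (V.nn_B v u (Ne.symm h) (by omega)
    (fun w f => d ⟨fun w' f' => ?_, fun w' k f' => ?_⟩)
    fun w k f => d ⟨fun w' f' => ?_, fun w' k' f' => ?_⟩)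
  · have a := congrArg (·.1.col) f
    have a' := congrArg (·.1.col) f'
    exact three _ ((congrArg (· + 1) a').symm.trans a.symm)
  · simp [f] at f'
  · simp [f] at f'
  · have a := congrArg (·.1.col) f
    have a' := congrArg (·.1.col) f'
    exact three _ ((congrArg (· + 1) a).symm.trans a'.symm)

/-- **Two nodes that are not a cold pair are served.** -/
theorem sv_nn' (u v : N) (ne : u ≠ v) (c : ¬V.Cld (hv (nl u)) (hv (nl v)))
    (c' : ¬V.Cld (hv (nl v)) (hv (nl u))) : V.W.Sv (hv (nl u)) (hv (nl v)) :=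
  V.sv_nn u v ne fun l l' =>
    ⟨fun ⟨w, p, x, p', x', a, a', d⟩ =>
      c' ⟨w, p', p, Or.inl ⟨v, x', rfl, l', a'⟩, Or.inl ⟨u, x, rfl, l, a⟩, d⟩,
    fun ⟨w, p, x, p', x', a, a', d⟩ =>
      c ⟨w, p', p, Or.inl ⟨u, x', rfl, l, a'⟩, Or.inl ⟨v, x, rfl, l', a⟩, d⟩⟩

end Fw

end Pool.Agent.P.MP_439f1f_co
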