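import Pool.Agent.P.MP_439f1f_co.Top0
import Pool.Agent.P.MP_439f1f_co.Rn1

/-!
The group of the pairs of nodes.
-/

set_option autoImplicit false

namespace Pool.Agent.P.MP_439f1f_co

variable {K N : Type} {r r0 q D e b : ℕ} [DecidableEq K] [Finite K] [Finite N] [Nonempty K]

theorem Fw.gN (V : Fw K N r r0 q D e b) : V.GN := fun u y k =>
  V.sv_nn' u y (fun d => k.ne (d ▸ rfl)) k.c1 k.c2

end Pool.Agent.P.MP_439f1f_co
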