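import Pool.Agent.P.MP_439f1f_co.Rt1
import Pool.Agent.P.MP_439f1f_co.B21
import Pool.Agent.P.MP_439f1f_co.Dy7

/-!
Service of an even node and the tail vertex of the line of a node of another tree.
-/

set_option autoImplicit false
set_option linter.unusedSectionVars false

namespace Pool.Agent.P.MP_439f1f_co

open Function SimpleGraph Sum

variable {K N : Type} {r r0 q D e b : ℕ}

theorem Kl.exists_kp (x y : Kl K r r0) :
    ∃ k : Fin 7, (k = 2 ∨ k = 4 ∨ k = 6) ∧ ∀ c, x.Hk k c ∧ y.Hk k c := by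
  have a : ∀ x : Kl K r r0, ∃ l, ∀ w c l', x.1 = (.tN w c l', .H) → l' = l := fun x => by
    by_cases h : ∃ w c l, x.1 = (.tN w c l, .H)
    · obtain ⟨w, c, l, h⟩ := h
      exact ⟨l, fun _ _ _ d => by rw [h] at d; cases d; rfl⟩
    · exact ⟨0, fun _ _ _ d => absurd ⟨_, _, _, d⟩ h⟩
  obtain ⟨l, h⟩ := a x
  obtain ⟨l', h'⟩ := a y
  obtain ⟨k, a1, a2, a3⟩ := (by decide : ∀ l l' : Fin 4,
    ∃ k : Fin 7, (k = 2 ∨ k = 4 ∨ k = 6) ∧ lc k ≠ l ∧ lc k ≠ l') l l'
  exact ⟨k, a1, fun _ => ⟨fun _ _ d => h _ _ _ d ▸ a2, fun _ _ d => h' _ _ _ d ▸ a3⟩⟩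

namespace Par

/-- the first item is open, the entry trees follow -/
def opx (D : ℕ) (r : ℕ) (k : Fin 7) (ek : Fin (r0 + 1)) : Par r r0 D :=
  { base r r0 D with
    kap _ := k
    op := some false
    fl := 1
    ek := ek }

theorem opx_ta {T z : Kl K r r0} {k : Fin 7} {ek : Fin (r0 + 1)} (k1 : k = 2 ∨ k = 4 ∨ k = 6)
    (k2 : ∀ c, T.Hk k c ∧ z.Hk k c) (od : (ek : ℕ) % 2 = 1) {w : K × Bool} {c : ZMod 3}
    {l : Fin 4} (hz : z.1 = (.tN w c l, .H)) (ne : z.ty ≠ T.ty) :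
    (opx D r k ek).TA fun i => {cond i z T} := by
  have cc : ∀ c : ZMod 3, c ≠ c + 1 := by decide
  have m : ∀ a T0, (opx D r k ek).Mt (fun i => {cond i z T}) a T0 → (a = some false ∧ T0 = T) ∨
      (a = some true ∧ T0 = z) ∨ (a = none ∧ T0 = T.ent ek) := by
    rintro (_ | _ | _) T0 c
    · obtain ⟨i, _, rfl, c1, rfl⟩ := c
      obtain rfl : false = i := Option.some.inj c1
      exact Or.inr (Or.inr ⟨rfl, rfl⟩)
    exacts [Or.inl ⟨rfl, c⟩, Or.inr (Or.inl ⟨rfl, c⟩)]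
  have ty : ∀ a a' T0 T1, (opx D r k ek).Mt (fun i => {cond i z T}) a T0 →
      (opx D r k ek).Mt (fun i => {cond i z T}) a' T1 → T0.ty = T1.ty → a = a' ∧ T0 = T1 := by
    intro a a' T0 T1 c c' d
    have z1 : z.ty ≠ (T.ent ek).ty := by rw [Kl.ty_val hz]; exact nofun
    have z2 : T.ty ≠ (T.ent ek).ty := fun f => cc _ (congrArg HT.col f)
    rcases m _ _ c with ⟨rfl, rfl⟩ | ⟨rfl, rfl⟩ | ⟨rfl, rfl⟩ <;>
      rcases m _ _ c' with ⟨rfl, h⟩ | ⟨rfl, h⟩ | ⟨rfl, h⟩ <;> rw [h] at d ⊢ <;>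
      first | exact ⟨rfl, rfl⟩ | exact absurd d ne | exact absurd d.symm ne | exact absurd d z1 |
        exact absurd d.symm z1 | exact absurd d z2 | exact absurd d.symm z2
  have hd : ∀ a T0 t σ, (opx D r k ek).Mt (fun i => {cond i z T}) a T0 → T0.1 = (t, σ) →
      (∀ w c l, t ≠ .tN w c l) → (∀ w k, t ≠ .hM w (T.col + 1) k) → T0 = T := by
    intro a T0 t σ c d d1 d2
    rcases m _ _ c with ⟨-, rfl⟩ | ⟨-, rfl⟩ | ⟨-, rfl⟩
    · rfl
    · exact absurd (congrArg Prod.fst (d.symm.trans hz)) (d1 _ _ _)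
    · exact absurd (congrArg Prod.fst d).symm (d2 _ _)
  constructor
  · rintro _ _ rfl _ rfl
    rfl
  · exact fun _ => k1
  · exact fun _ => Or.inl rfl
  · exact fun a a' T0 c c' => (ty _ _ _ _ c c' rfl).1
  · simp [opx, base]
  · refine fun a T0 c d => ⟨?_, fun _ _ _ f => absurd rfl f⟩
    rcases m _ _ d.1 with ⟨-, rfl⟩ | ⟨-, rfl⟩ | ⟨-, rfl⟩
    exacts [(k2 c).1, (k2 c).2, .of_sl nofun]
  · intro a a' T0 T1 c c' d
    have := d.2
    rw [(ty _ _ _ _ c.1 c'.1 d.1).2] at this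
    omega
  · rintro a a' T0 T1 c c' ⟨d1, d2, d3, d4, -⟩
    exfalso
    rcases m _ _ c.1 with ⟨-, rfl⟩ | ⟨-, rfl⟩ | ⟨-, rfl⟩
    · rcases m _ _ c'.1 with ⟨-, rfl⟩ | ⟨-, rfl⟩ | ⟨-, rfl⟩
      · simp [d1] at d3
      · simp [Kl.ty_val hz, HT.hd] at d3
      · exact nomatch d4
    · simp [Kl.sl_val hz] at d2
    · exact nomatch d1
  · intro a a' T0 T1 w c k1 d d' f f'
    obtain rfl := hd _ _ _ _ d'.1 f' nofun nofun
    obtain rfl := hd _ _ _ _ d.1 f nofun fun _ _ g =>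
      cc _ ((Kl.col_val f').trans (congrArg HT.col g))
    exact nomatch f.symm.trans f'
  · intro a a' T0 T1 w c k1 i1 d d' f f'
    obtain rfl := hd _ _ _ _ d'.1 f' nofun nofun
    obtain rfl := hd _ _ _ _ d.1 f nofun fun _ _ g =>
      cc _ ((Kl.col_val f').trans (congrArg HT.col g))
    exact nomatch f.symm.trans f'
  · rintro a a' T0 T1 d d' ⟨w, p, c, p', c', f, f', -⟩
    obtain rfl := hd _ _ _ _ d'.1 f' nofun nofun
    obtain rfl := hd _ _ _ _ d.1 f nofun nofun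
    exact nomatch f.symm.trans f'
  · simp [opx, base]
  · simp [opx, base]
  · exact fun _ _ _ _ k _ _ _ => Fin.le_last k
  · exact fun _ _ => ⟨Set.subsingleton_singleton, Nat.zero_le _, od, Or.inl rfl⟩
  · rintro i c - _ rfl
    obtain rfl : false = i := Option.some.inj c
    exact fun _ _ _ _ d => nomatch hz.symm.trans d
  · exact fun i c _ _ _ _ _ _ => Or.inl ⟨(Option.some.inj c).symm, rfl⟩
  · simp [opx, base]

/-- the directions are free -/
theorem TA.dirs {π : Par r r0 D} {A : Bool → Set (Kl K r r0)} (h : π.TA A) (d c s : Bool) :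
    TA { π with dr := d, cd := c, sp := s } A := by
  cases h
  constructor <;> assumption

end Par

variable [DecidableEq K] [Finite K] [Finite N] [Nonempty K]

namespace Fw.Rt

variable {V : Fw K N r r0 q D e b} {j : K} {s : ℕ} {u y z : N} {L : Hub K N (Pt K N) r0}
  {ι : Type} {l : ι → ℕ} {t : ι → N}

theorem ro (k : V.Rs j l t) : V.W.Ro j l t (rh (V.Hi j) (V.W.vp j l t)) :=
  ⟨k.toRs, fun _ h => (k.toRs.fr h).rh k.hi_up, V.Hi j, fun _ _ => Fw.hi_lp, fun _ _ => rh_lt⟩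

theorem off_rest (k : V.Rs j l t) (h : V.Rest j (V.F.tree y)) (g : ι) : ¬V.W.On (l g) (t g) y :=
  fun c => let ⟨_, a⟩ := k.role g; a.not_rest ((c.1.tree : V.F.tree _ = _) ▸ h)

/-- The node `u` leaks and the label `z` comes last; the other cuts lie in blocks at rest. -/
theorem leak_H (y' : N) (t : V.F.tree y' = V.F.tree y) (ne : V.F.tree y ≠ V.F.tree u)
    (nt : V.W.S.typ (nl y') false ≠ (V.F.tree u).ty) : ∃ j s, ∃ k : V.Rs j ![0, 0]
      ![V.W.S.sn (nl y') false .H, V.W.ell u (2 * s + 1)], 2 * s + 1 ≤ r0 ∧ V.W.port j u = 0 ∧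
      V.Rest j (V.F.tree y) ∧ (V.par j).dr = true ∧ V.kap j (V.F.tree y) ≠ V.F.lev y' ∧
      V.InI j (some false) (ml u 0) ∧
      V.vr j ![0, 0] ![V.W.S.sn (nl y') false .H, V.W.ell u (2 * s + 1)] (pz (ml u 0) 0) <
        V.vr j ![0, 0] ![V.W.S.sn (nl y') false .H, V.W.ell u (2 * s + 1)]
          (pz (V.W.prv (Wd.mo u (2 * s + 1))) (2 * r + 10)) ∧
      V.vr j ![0, 0] ![V.W.S.sn (nl y') false .H, V.W.ell u (2 * s + 1)]
          (pz (V.W.prv (Wd.mo u (2 * s + 1))) (2 * r + 10)) <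
        V.vr j ![0, 0] ![V.W.S.sn (nl y') false .H, V.W.ell u (2 * s + 1)]
          (pz (V.W.prv (inl u)) (2 * r + 10)) ∧
      V.vr j ![0, 0] ![V.W.S.sn (nl y') false .H, V.W.ell u (2 * s + 1)]
          (pz (V.W.prv (inl u)) (2 * r + 10)) <
        V.vr j ![0, 0] ![V.W.S.sn (nl y') false .H, V.W.ell u (2 * s + 1)]
          (pz (V.W.cut 0 (V.W.ell u (2 * s + 1))) 0) ∧
      V.vr j ![0, 0] ![V.W.S.sn (nl y') false .H, V.W.ell u (2 * s + 1)]
          (pz (V.W.cut 0 (V.W.ell u (2 * s + 1))) 0) <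
        V.vr j ![0, 0] ![V.W.S.sn (nl y') false .H, V.W.ell u (2 * s + 1)]
          (pz (V.W.cut 0 (V.W.S.sn (nl y') false .H)) 0) := by
  have := V.hr0
  have := V.he
  have hz := tree_H V y'
  have lz : V.F.lev _ = D := V.W.S.lev_sn V.D_pos (nl y') false .H
  have nz := ne_H t
  generalize V.W.S.sn (nl y') false .H = z at *
  obtain ⟨s, s1, s2⟩ : ∃ s, ∃ h : 2 * s + 1 < r0 + 1, ∀ w c,
      (V.F.tree y).ty ≠ .hM w c ⟨2 * s + 1, h⟩ := by
    by_cases c : ∃ w c, (V.F.tree y).ty = .hM w c ⟨2 * 0 + 1, by omega⟩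
    · obtain ⟨w, c, c'⟩ := c
      exact ⟨1, by omega, fun _ _ d => by simp [c'] at d⟩
    · exact ⟨0, by omega, fun _ _ d => c ⟨_, _, d⟩⟩
  obtain ⟨kp, k1, k2⟩ := (V.F.tree u).exists_kp (V.F.tree z)
  obtain ⟨g, a⟩ := V.W.exists_grp V.grp [nl y, nl z, nl u] (by simp)
  obtain ⟨j, st⟩ := V.exists_st g (Par.opx_ta (D := D) (ek := ⟨_, s1⟩) k1 k2 (by simp only; omega) hz
    (by rw [Kl.ty_val hz]; exact nt)) [V.F.tree y] (by simp) (by
      rintro _ - _ d _ - _ rfl - c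
      obtain rfl := List.mem_singleton.1 d
      exact absurd ((Kl.col_of_kind c).trans ((Kl.col_val hz).trans (by rw [t]; rfl)))
        ((by decide : ∀ c : ZMod 3, c ≠ c + 1) _))
  have sy := (a (nl y) (by simp) j st.grp).wor (V.W.in_pay (inl y))
  have sz := (a (nl z) (by simp) j st.grp).wor (V.W.in_pay (inl z))
  have su := (a (nl u) (by simp) j st.grp).wor (V.W.in_pay (inl u))
  have ru := st.role false (V.F.tree u) rfl su
  have rz := st.role true (V.F.tree z) rfl sz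
  have lz' := st.liv (i := true) (T := V.F.tree z) rfl sz rfl
  have o := st.opn (i := false) (n := u) rfl su rfl (Nat.zero_le _)
  have x := o.ot.ell
  rw [st.ek] at x
  have ry := st.rest sy (List.mem_singleton_self _) (by
    rintro (_ | _) c
    exacts [ne c, nz c.symm]) fun _ => s2
  have k : V.Rs j ![0, 0] ![z, V.W.ell u (2 * s + 1)] :=
    .two (lz'.run rfl (by rw [lz, V.od]) (V.F.surj z).1)
      (x.liv.run rfl (by rw [V.lev_ell, V.od]) (V.F.surj _).1)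
      (Wd.On.tree_ne fun c => absurd (rz.eq ((c : V.F.tree _ = _) ▸ x)) (by simp)) rz x
  have f := k.toRs.leak_front' (s := s) (n := u) (by omega) (fun g c => by
    have c : V.F.tree u = _ := c.1.tree
    fin_cases g
    exacts [absurd (ru.eq (c ▸ rz)) (by simp), absurd (ru.eq (c ▸ x)) (by simp)]) o.port
    (by rw [o.lay, st.flip]; exact (blay_lt _ _).2 rfl)
  have i1 : ∀ p, Wd.nd p = u → V.InI j (some false) (V.W.prv p) := fun p c =>
    Role.inI (c ▸ ru) (Wd.bk_prv' j p)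
  obtain ⟨_, al⟩ := lz'.alv
  have two := Cut.two (Or.inl ry)
  exact ⟨j, s, k, by omega, o.port, ry, st.dr, fun c => al.lev hz sy (congrArg Kl.col t.symm)
      (by omega) (congrArg lc c), ru.inI (Wd.bk_pay.2 rfl), k.of_vqI (i1 _ rfl) f.1,
    k.of_vqI (i1 _ rfl) f.2, k.II (i1 _ rfl) (k.inI_cut (g := 1) x) st.rook
      (by rw [st.zi, st.zi]; exact one_lt_two),
    k.II (k.inI_cut (g := 1) x) (k.inI_cut (g := 0) rz) st.rook
      (by rw [st.zi, st.zi]; exact Nat.lt_succ_self 2)⟩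

theorem sv_EHo (ne : V.F.tree y ≠ V.F.tree u) (nt : V.W.S.typ (nl y) false ≠ (V.F.tree u).ty) :
    V.W.Sv (vz (nl y) 0) (hv (nl u)) := by
  obtain ⟨j, s, k, s1, p, ry, -, -, i0, o1, o2, o3, o4⟩ := leak_H y rfl ne nt
  intro _ _
  exact (ro k).serve_leak s1 p ((k.toRs.ch_cut 0).app
      (Wd.ch_up (V.W.S.pay_H (inl y)).hang (by omega))) (k.toRs.ch_cut 1) .nil (by simp [vz])
    (fun g => by fin_cases g <;> simp) ⟨Wd.fre_cut, Wd.fre_nl, Wd.fre_cut⟩
    [.lt 1 4, .lt 4 3, .lt 3 5, .lt 5 2, .lt 2 0] [] (by decide +kernel)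
    ⟨k.FI (ry.inF (.self _ j _)) i0, o1, o2, o3, o4⟩ trivial

theorem sv_EHf (ne : V.F.tree y ≠ V.F.tree u) (h2 : 2 ≤ V.F.lev (V.F.kid y)) (ly : V.F.lev y < D)
    (nt : V.W.S.typ (nl (V.F.kid y)) false ≠ (V.F.tree u).ty) :
    V.W.Sv (vz (nl y) 0) (hv (nl u)) := by
  have tk := Forest.tree_kid ly
  have lk := V.F.lev_kid ly
  obtain ⟨j, s, k, s1, p, ry, dr, kp, i0, o1, o2, o3, o4⟩ := leak_H (V.F.kid y) tk ne nt
  have rk : V.Rest j (V.F.tree (V.F.kid y)) := tk ▸ ry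
  have hg : V.W.S.hang (nl (V.F.kid y)) 0 (some (nl y)) := by
    simpa only [V.W_F, V.F.par_kid ly] using Wd.hang_par (W := V.W) (n := V.F.kid y) h2
  have o : (V.L j).key y < (V.L j).key (V.F.kid y) :=
    (Lay.anc_lt (Cut.fm (Or.inl ry)) (Cut.fm (Or.inl rk)) (Forest.anc_kid ly)
      (Forest.kid_ne ly).symm).2 (or_iff_not_imp_left.2 fun c => ⟨ry.asc.trans dr,
        lt_of_le_of_ne (lk ▸ (not_not.1 c).2) kp⟩)
  intro _ _
  exact (ro k).serve_leak s1 p (((k.toRs.ch_cut 0).app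
      (Wd.ch_up (V.W.S.pay_H (inl _)).hang (by omega))).app
      (Wd.ch_ftail (k.toRs.off_nl (off_rest k ry)) hg (by omega))) (k.toRs.ch_cut 1) .nil
    (by simp [vz]) (fun g => by fin_cases g <;> simp)
    ⟨Wd.fre_cut, Wd.fre_nl, Wd.fre_nl, Wd.fre_cut⟩
    [.lt 2 1, .lt 1 5, .lt 5 4, .lt 4 6, .lt 6 3, .lt 3 0] [] (by decide +kernel)
    ⟨k.FF (ry.inF (.self _ j _)) (rk.inF (.self _ j _))
        (fq_lt (fr_of (fun c => by simpa [dr] using c.1) (Sw.nl_lt.2 o))),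
      k.FI (rk.inF (.self _ j _)) i0, o1, o2, o3, o4⟩ trivial

theorem sv_EHu (g : V.W.S.Good e) (ly : V.F.lev y = D) (ev : V.F.lev u % 2 = 0)
    (cu : (V.F.tree u).col = (V.F.tree y).col + 1) : V.W.Sv (hv (nl u)) (vz (nl y) 0) := by
  obtain ⟨L, m, f, τ, at1, rfl⟩ := g.use ly
  have := V.F.surj u
  have := V.od
  have := V.hD
  have lp := V.F.lev_par (n := u) (by omega)
  have tp := V.F.tree_par (n := u) (by omega)
  have cl : ∀ f' σ, (V.F.tree (V.W.S.sn L f' σ)).col = (V.F.tree (V.W.S.sn L f τ)).col :=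
    fun f' σ => ((V.W.S.col_sn V.D_pos L f' σ).trans (V.W.col_typ L f')).trans
      ((V.W.S.col_sn V.D_pos L f τ).trans (V.W.col_typ L f)).symm
  have ci : ∀ n, V.W.In L n → (V.F.tree (V.W.S.sn L f τ)).col = (V.F.tree n).col + 1 :=
    fun n c => (V.W.S.col_sn V.D_pos L f τ).trans (V.W.col_in c f)
  have cc : ∀ c : ZMod 3, c ≠ c + 1 ∧ c ≠ c + 1 + 1 := by decide
  have iy := V.W.in_pay (inl (V.W.S.sn L f τ))
  have ny : ¬V.W.In L (V.W.S.sn L f τ) := fun c => (cc _).1 (ci _ c)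
  have na : ∀ n n', V.W.In L n → V.W.In (nl (V.W.S.sn L f τ)) n' → V.F.tree n ≠ V.F.tree n' :=
    fun n n' c c' d => (cc _).1 ((ci n c).trans (by rw [d, c'.unique iy]; rfl))
  have key : ∀ (dr cd sp : Bool) {m' f' σ}, V.W.S.At L m' f' σ → m' ≠ m → ∃ j,
      Du V j true D (V.W.S.sn L f' σ) u ∧ V.Rs j ![0, 0] ![V.F.par u, V.W.S.sn L f' σ] ∧
      V.W.Far j L ∧ V.W.Far j (nl (V.W.S.sn L f τ)) ∧ (V.par j).dr = dr ∧ (V.par j).cd = cd ∧
      (V.par j).sp = sp ∧ V.Rest j (V.F.tree (V.W.S.sn L f τ)) ∧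
      ∀ n, V.W.In L n → V.Rest j (V.F.tree n) := by
    intro dr cd sp m' f' σ at2 ne
    have nz : V.F.tree (V.W.S.sn L f' σ) ≠ V.F.tree u := fun c =>
      (cc _).1 ((cl f' σ).symm.trans ((congrArg Kl.col c).trans cu))
    obtain ⟨g, a⟩ := V.W.exists_grp V.grp [L, nl (V.W.S.sn L f τ), nl u] (by simp)
    obtain ⟨j, st⟩ := V.exists_st g ((Par.duo_ta true (k := Fin.last D)
      (fun c => by have := congrArg Fin.val c; simp at this; omega) (Or.inr rfl) nz
      (.of_col (by rw [cl, cu]; exact (cc _).2))).dirs dr cd sp) [V.F.tree (V.W.S.sn L f τ)]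
      (by simp) (by
        rintro _ d _ - _ rfl _ - c
        obtain rfl := List.mem_singleton.1 d
        exact absurd ((Kl.col_of_kind c).trans cu) (cc _).1)
    have fL := a L (by simp) j st.grp
    have sz := fL.sn V.D_pos f' σ
    have su := (a (nl u) (by simp) j st.grp).wor (V.W.in_pay (inl u))
    have ru := st.role false (V.F.tree u) rfl su
    have cr : ∀ a T, V.Role j a T →
        T.col = (V.F.tree (V.W.S.sn L f' σ)).col ∨ T.col = (V.F.tree u).col := fun a T c => by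
      obtain ⟨T0, c1, c2⟩ := st.kind c
      rw [← Kl.col_of_kind c2]
      rcases a with _ | _ | _
      · simp [Par.Mt, Par.duo, Par.base] at c1
      exacts [Or.inr (congrArg _ c1), Or.inl (congrArg _ c1)]
    have s : Du V j true D (V.W.S.sn L f' σ) u := ⟨st.role true _ rfl sz,
      st.liv (i := true) rfl sz rfl, ru, by simp [ru.kap, st.cut, Par.duo],
      by simp [ru.asc, st.dir, st.op, Par.duo, Par.base], st.rook, by omega, nz, cr⟩
    refine ⟨j, s, s.rs tp (by omega) (by omega) (V.W.S.lev_sn V.D_pos _ _ _), fL,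
      a _ (by simp) j st.grp, st.dr, st.cd, st.sp, st.rest (fL.sn V.D_pos f τ)
        (List.mem_singleton_self _) ?_ fun c => absurd rfl c, fun n c => ⟨fL.wor c, fun a' d => ?_⟩⟩
    · rintro (_ | _) c
      exacts [(cc _).1 ((congrArg Kl.col c).trans cu), at1.tree_ne V.D_pos at2 ne.symm c]
    · rcases cr a' _ ⟨fL.wor c, d⟩ with d | d
      exacts [(cc _).1 (d.trans ((cl f' σ).trans (ci n c))),
        (cc _).2 (d.trans (cu.trans (congrArg (· + 1) (ci n c))))]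
  have := at1.le
  intro _ _
  rcases le_or_gt m 1 with d | d
  · obtain ⟨f', σ, at2⟩ := V.W.S.at_mid L (i := m + 1) (by omega) (by omega)
    obtain ⟨dr, cd, sp, od⟩ := V.ord (L := L) (L' := nl (V.W.S.sn L f τ)) 0
      (fun c => ny ⟨_, c⟩) (fun _ _ => by simp)
      fun n n' c c' _ => ⟨fun d => absurd d.tree.symm (na n n' c c'),
        fun d => absurd d.tree (na n n' c c')⟩
    obtain ⟨j, s, k, f1, f2, a1, a2, a3, ry, rl⟩ := key dr cd sp at2 (by omega)
    have fy := ry.inF (.self _ j _)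
    exact k.serve ((k.toRs.ch_cut 0).app (k.toRs.ch_kid (s.off rfl (by omega))
        (by rw [V.W_F]; omega))) (((k.toRs.ch_cut 1).app (Wd.ch_up at2.hang (by omega))).app
        (Wd.ch_ftail (k.toRs.off_nl (off_rest k ry)) at1.hang (by omega))) (by simp [vz])
      (fun g => by fin_cases g <;> simp) [.lt 3 4, .lt 4 0, .lt 0 1, .lt 1 2] []
      (by decide +kernel)
      ⟨k.FF (fun n c _ d => d.not_rest (rl n (f1.bk.1 c))) fy (fq_lt (fr_lt.2 (od j f1 f2 a1 a2 a3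
          (fun n c => c.elim (rl n) fun c => c.unique iy ▸ ry)
          fun n n' c c' _ d => absurd d (na n n' c c')))),
        k.F_cut fy 0, s.cut_lt k rfl (by omega)
          (s.hi tp (Forest.anc_par (by omega)) (by omega) (by omega)),
        k.II (s.ru.inI (.self _ j _)) (s.inz k) s.rook (zi_lt _)⟩ trivial
  · obtain ⟨m, rfl⟩ : ∃ m', m = m' + 1 := ⟨m - 1, by omega⟩
    obtain ⟨f', σ, at2⟩ := V.W.S.at_mid L (i := m) (by omega) (by omega)
    obtain ⟨dr, cd, sp, od⟩ := V.ord (L := nl (V.W.S.sn L f τ)) (L' := L) 0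
      (fun c => ny ⟨_, c.symm⟩) (fun n c c' => ny (by rw [show V.W.S.sn L f τ = n from iy.unique ⟨_, c⟩]; exact ⟨_, c'⟩))
      fun n n' c c' _ => ⟨fun d => absurd d.tree (na n' n c' c),
        fun d => absurd d.tree.symm (na n' n c' c)⟩
    obtain ⟨j, s, k, f1, f2, a1, a2, a3, ry, rl⟩ := key dr cd sp at2 (by omega)
    have fL : V.InF j L := fun n c _ d => d.not_rest (rl n (f1.bk.1 c))
    exact k.serve ((k.toRs.ch_cut 0).app (k.toRs.ch_kid (s.off rfl (by omega))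
        (by rw [V.W_F]; omega))) (((k.toRs.ch_cut 1).app (Wd.ch_dn at2.hang (by omega))).app
        (Wd.ch_ftail (k.toRs.off_nl (off_rest k ry)) at1.hang (by omega))) (by simp [vz])
      (fun g => by fin_cases g <;> simp) [.lt 4 3, .lt 3 0, .lt 0 1, .lt 1 2] []
      (by decide +kernel)
      ⟨k.FF (ry.inF (.self _ j _)) fL (fq_lt (fr_lt.2 (od j f2 f1 a1 a2 a3
          (fun n c => c.elim (fun c => c.unique iy ▸ ry) (rl n))
          fun n n' c c' _ d => absurd d.symm (na n' n c' c)))),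
        k.F_cut fL 0, s.cut_lt k rfl (by omega)
          (s.hi tp (Forest.anc_par (by omega)) (by omega) (by omega)),
        k.II (s.ru.inI (.self _ j _)) (s.inz k) s.rook (zi_lt _)⟩ trivial

end Fw.Rt

/-- **An even node and the tail vertex of the line of a node of another tree.** -/
theorem Fw.sv_eh (V : Fw K N r r0 q D e b) (g : V.W.S.Good e) (u y : N) (ev : V.F.lev u % 2 = 0)
    (ne : V.F.tree y ≠ V.F.tree u) : V.W.Sv (hv (nl u)) (vz (nl y) 0) := by
  intro _ _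
  by_cases nt : V.W.S.typ (nl y) false = (V.F.tree u).ty
  swap
  · exact Wd.Sv.symm (Rt.sv_EHo ne nt)
  rcases (V.F.surj y).2.1.eq_or_lt with c | c
  · exact Rt.sv_EHu g c ev (congrArg HT.col nt.symm)
  have lk := V.F.lev_kid c
  have := (V.F.surj y).1
  refine Wd.Sv.symm (Rt.sv_EHf ne (by omega) c fun d => ?_)
  have d : lc (V.F.lev (V.F.kid y)) = lc (V.F.lev y) := (HT.tN.inj (d.trans nt.symm)).2.2
  revert d
  unfold lc
  split_ifs <;> omega

end Pool.Agent.P.MP_439f1f_co
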