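import Pool.Agent.P.MP_439f1f_co.Sv1
import Pool.Agent.P.MP_439f1f_co.Dy7

/-!
States with one or two trees.
-/

set_option autoImplicit false
set_option linter.unusedSectionVars false

namespace Pool.Agent.P.MP_439f1f_co

open Function Sum

variable {K N : Type} {r r0 q D e b : ℕ}

/-- two items -/
def tw (x y : Kl K r r0) : Bool → Set (Kl K r r0) := fun i => {cond i y x}

/-- one item -/
def so (x : Kl K r r0) : Bool → Set (Kl K r r0) := fun i => {T | i = false ∧ T = x}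

namespace Kl

variable {x y : Kl K r r0}

theorem Con.irr : ¬x.Con x := fun h => by simpa using h.2
theorem Jun.irr : ¬x.Jun x := fun h => by simpa [h.1] using h.2.2.1
theorem Mz.irr : ¬x.Mz x := fun ⟨_, _, _, a, c⟩ => by simp [a] at c
theorem Mh.irr : ¬x.Mh x := fun ⟨_, _, _, _, a, c⟩ => by simp [a] at c
theorem Lz.irr : ¬x.Lz x := fun ⟨_, _, _, _, _, a, c, _⟩ => by simp [a] at c
theorem ent_jun {k : Fin (r0 + 1)} : ¬(x.ent k).Jun y := fun d => Bool.noConfusion d.1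
theorem jun_ent {k : Fin (r0 + 1)} : ¬y.Jun (x.ent k) := fun d => by simpa [ent] using d.2.2.2.1
theorem ent_lz {k : Fin (r0 + 1)} : ¬(x.ent k).Lz y := fun ⟨_, _, _, _, _, a, _⟩ => by
  simp [ent] at a
theorem lz_ent {k : Fin (r0 + 1)} : ¬y.Lz (x.ent k) := fun ⟨_, _, _, _, _, _, a, _⟩ => by
  simp [ent] at a
theorem Own.symm (h : x.Own y) : y.Own x := Or.symm h

theorem col_ne_succ (x : Kl K r r0) : x.col ≠ x.col + 1 := by
  generalize x.col = c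
  revert c
  decide

theorem Hk.self (x : Kl K r r0) (k : ℕ) : x.Hk k x.col := Hk.of_col x.col_ne_succ
theorem Hk.ent (x : Kl K r r0) (i : Fin (r0 + 1)) (k : ℕ) (c : ZMod 3) : (x.ent i).Hk k c :=
  Hk.of_sl (by simp [Kl.ent, Kl.sl])

theorem exists_k (x y : Kl K r r0) (c : ZMod 3) :
    ∃ k : Fin 7, (k = 2 ∨ k = 4 ∨ k = 6) ∧ x.Hk k c ∧ y.Hk k c := by
  have k : ∀ z : Kl K r r0, ∃ l, ∀ k, lc k ≠ l → z.Hk k c := fun z => by
    by_cases h : ∃ w l, z.1 = (.tN w (c + 1) l, .H)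
    · obtain ⟨w, l, h⟩ := h
      exact ⟨l, fun k a w' l' d => by rw [h] at d; simp at d; exact d.2 ▸ a⟩
    · exact ⟨0, fun _ _ w l d => absurd ⟨w, l, d⟩ h⟩
  obtain ⟨l, a⟩ := k x
  obtain ⟨l', a'⟩ := k y
  obtain ⟨k, b1, b2, b3⟩ := (by decide : ∀ l l' : Fin 4,
    ∃ k : Fin 7, (k = 2 ∨ k = 4 ∨ k = 6) ∧ lc k ≠ l ∧ lc k ≠ l') l l'
  exact ⟨k, b1, a k b2, a' k b3⟩

/-- the levels of the cuts of the trees at rest -/
def Kap (κ : ZMod 3 → Fin 7) (x y : Kl K r r0) : Prop :=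
  ∀ c, (κ c = 2 ∨ κ c = 4 ∨ κ c = 6) ∧ x.Hk (κ c) c ∧ y.Hk (κ c) c

theorem Kap.symm {κ : ZMod 3 → Fin 7} (h : Kap κ x y) : Kap κ y x :=
  fun c => ⟨(h c).1, (h c).2.symm⟩

theorem exists_kap (x y : Kl K r r0) : ∃ κ, Kap κ x y :=
  let ⟨κ, h⟩ := Classical.axiomOfChoice (exists_k x y)
  ⟨κ, h⟩

theorem exists_kap' (c : ZMod 3) (k : Fin 7) (h : k = 2 ∨ k = 4 ∨ k = 6) (hx : x.Hk k c)
    (hy : y.Hk k c) : ∃ κ, Kap κ x y ∧ κ c = k :=
  let ⟨κ, a⟩ := exists_kap x y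
  ⟨update κ c k, fun c' => by
    by_cases d : c' = c
    · subst d
      simpa using ⟨h, hx, hy⟩
    · simpa [d] using a c', by simp⟩

/-- a fresh entry -/
theorem exists_fresh (h : 12 ≤ r0) (l : List (Kl K r r0)) (len : l.length ≤ 5) :
    ∃ k : Fin (r0 + 1), (k : ℕ) % 2 = 1 ∧ ∀ T ∈ l, ∀ w c, T.ty ≠ .hM w c k := by
  by_contra c
  push Not at c
  choose T a w c d using fun i : Fin 6 => c ⟨2 * i + 1, by omega⟩ (by simp only; omega)
  choose f hf using fun i => List.mem_iff_get.1 (a i)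
  have := Fintype.card_le_of_injective f fun i i' g => by
    have := d i
    rw [← hf, g, hf, d i'] at this
    simp only [HT.hM.injEq, Fin.mk.injEq] at this
    omega
  simp at this
  omega

/-- the port sees an entry label before the first label of a moat line -/
def Ph (np : ZMod 3 → Fin (r0 + 1)) (x y : Kl K r r0) : Prop :=
  ∀ w c k i, x.1 = (.hM w (c + 1) k, .Z) → y.1 = (.tE w (c + 1) i, .H) →
    el (r0 + 1) (np c) k < el (r0 + 1) (np c) i ∨ (k = i ∧ el (r0 + 1) (np c) i % 2 = 0)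

/-- no exit -/
def Px (np : ZMod 3 → Fin (r0 + 1)) (x : Kl K r r0) : Prop :=
  ∀ w c k, x.1 = (.hM w (c + 1) k, .Z) → (np c : ℕ) % 2 = 0 → k ≤ np c

/-- the ports fit to two trees that are alive -/
structure Pn (np : ZMod 3 → Fin (r0 + 1)) (x y : Kl K r r0) : Prop where
  one : ∀ c c', np c ≠ Fin.last _ → np c' ≠ Fin.last _ → c = c'
  px : Px np x
  py : Px np y
  ph : Ph np x y
  ph' : Ph np y x
  pz : ∀ w c k, x.1 = (.hM w (c + 1) k, .Z) → y.1 = (.hP w (c + 1), .Z) → k ≤ np c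
  pz' : ∀ w c k, y.1 = (.hM w (c + 1) k, .Z) → x.1 = (.hP w (c + 1), .Z) → k ≤ np c

variable {np : ZMod 3 → Fin (r0 + 1)}

theorem Pn.symm (h : Pn np x y) : Pn np y x := ⟨h.one, h.py, h.px, h.ph', h.ph, h.pz', h.pz⟩

theorem Ph.of (h : ¬x.Mh y) : Ph np x y := fun _ _ _ _ a c => absurd ⟨_, _, _, _, a, c⟩ h

theorem Px.last : Px (fun _ => Fin.last r0) x := fun _ _ k _ _ => k.le_last

theorem Pn.last (h : ¬x.Mh y) (h' : ¬y.Mh x) : Pn (fun _ => Fin.last r0) x y :=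
  ⟨by simp, .last, .last, .of h, .of h', fun _ _ k _ _ => k.le_last, fun _ _ k _ _ => k.le_last⟩

/-- the port `p` for the colour `c` -/
def pt (c : ZMod 3) (p : Fin (r0 + 1)) : ZMod 3 → Fin (r0 + 1) := update (fun _ => Fin.last r0) c p

@[simp] theorem pt_self (c : ZMod 3) (p : Fin (r0 + 1)) : pt c p c = p := update_self ..
theorem pt_ne {c c' : ZMod 3} (p : Fin (r0 + 1)) (h : c' ≠ c) : pt c p c' = Fin.last r0 :=
  update_of_ne h ..

theorem pt_one (c : ZMod 3) (p : Fin (r0 + 1)) (c1 c2 : ZMod 3) (h1 : pt c p c1 ≠ Fin.last _)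
    (h2 : pt c p c2 ≠ Fin.last _) : c1 = c2 :=
  (by_contra fun d => h1 (pt_ne p d) : c1 = c).trans (by_contra fun d => h2 (pt_ne p d) : c2 = c).symm

theorem Pn.mh (h : x.Mh y) : ∃ np, Pn np x y := by
  obtain ⟨w, c, k, i, a1, a2⟩ := h
  obtain ⟨c, rfl⟩ : ∃ c', c = c' + 1 := ⟨c - 1, by simp⟩
  refine ⟨pt c k, pt_one c k, fun w' c' k' d _ => ?_, by simp [Px, a2], fun w' c' k' i' d d' => ?_,
    by simp [Ph, a2], by simp [a2], by simp [a2]⟩
  · rw [a1] at d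
    simp only [Prod.mk.injEq, HT.hM.injEq, add_left_inj] at d
    rw [← d.1.2.1, ← d.1.2.2, pt_self]
  · rw [a1] at d
    simp only [Prod.mk.injEq, HT.hM.injEq, add_left_inj] at d
    rw [← d.1.2.1, ← d.1.2.2, pt_self, Fin.ext_iff]
    have := i'.2
    unfold el
    split_ifs <;> omega

/-- ports for two trees -/
theorem exists_pn (x y : Kl K r r0) : ∃ np, Pn np x y := by
  by_cases h : x.Mh y
  · exact Pn.mh h
  by_cases h' : y.Mh x
  exacts [(Pn.mh h').imp fun _ => Pn.symm, ⟨_, .last h h'⟩]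

/-- `x` may come before `y` -/
structure Bf (x y : Kl K r r0) : Prop where
  ne : x ≠ y
  con : ¬x.Con y
  jun : ¬x.Jun y
  mz : ¬x.Mz y
  own : ¬x.Own y

theorem Bf.of_col (h : x.col ≠ y.col) (o : ¬x.Own y) : x.Bf y :=
  ⟨fun a => h (a ▸ rfl), mt Con.col h, mt Jun.col h, mt Mz.col h, o⟩

theorem bf_or (h : x ≠ y) (o : ¬x.Own y) : x.Bf y ∨ y.Bf x := by
  by_contra c
  have k : ∀ {x y : Kl K r r0}, x ≠ y → ¬x.Own y → ¬x.Bf y → x.Con y ∨ x.Jun y ∨ x.Mz y :=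
    fun a1 a2 a3 => by_contra fun d => a3 ⟨a1, fun f => d (Or.inl f), fun f => d (Or.inr (Or.inl f)),
      fun f => d (Or.inr (Or.inr f)), a2⟩
  have o1 := x.sl.off_le (ρ := x.ty.len r)
  have o2 := y.sl.off_le (ρ := y.ty.len r)
  rcases k h o fun d => c (Or.inl d) with ⟨a1, a2⟩ | ⟨a1, a2, a3, a4, -⟩ | ⟨_, _, _, a1, a2⟩ <;>
  rcases k h.symm (mt Own.symm o) fun d => c (Or.inr d) with
    ⟨b1, b2⟩ | ⟨b1, b2, b3, b4, -⟩ | ⟨_, _, _, b1, b2⟩
  · omega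
  · simp [a1, b1] at b3
  · simp [ty_val b1, ty_val b2] at a1
  · simp [b1, a1] at a3
  · simp [a1] at b3
  · simp [ty_val b2, HT.hd] at a1
  · simp [ty_val a1, ty_val a2] at b1
  · simp [ty_val a2, HT.hd] at b1
  · simp [a1] at b2

end Kl

namespace Par

open Kl

variable {π : Par r r0 D} {x y T : Kl K r r0} {a : Option Bool}

theorem mt_so (h : π.Mt (so x) a T) :
    (a = some false ∧ T = x) ∨ (a = none ∧ π.op = some false ∧ T = x.ent π.ek) := by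
  rcases a with _ | i
  · obtain ⟨i, _, ⟨rfl, rfl⟩, c, d⟩ := h
    exact Or.inr ⟨rfl, c, d⟩
  · exact Or.inl ⟨congrArg _ h.1, h.2⟩

theorem mt_tw (h : π.Mt (tw x y) a T) : (∃ i, a = some i ∧ T = cond i y x) ∨
    (a = none ∧ ∃ i, π.op = some i ∧ T = (cond i y x).ent π.ek) := by
  rcases a with _ | i
  · obtain ⟨i, _, rfl, c, d⟩ := h
    exact Or.inr ⟨rfl, i, c, d⟩
  · exact Or.inl ⟨i, rfl, h⟩

/-- **Two closed items.** -/
theorem TA.two (op : π.op = none) (fl : π.flip = false)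
    (kap : ∀ c, π.kap c = 2 ∨ π.kap c = 4 ∨ π.kap c = 6)
    (cut : ∀ i, (π.cut i : ℕ) % 2 = 0 ∨ (π.cut i : ℕ) = D)
    (np : ∀ c c', π.np c ≠ Fin.last _ → π.np c' ≠ Fin.last _ → c = c')
    (rk : π.rook = true → ∀ i, π.cut i = 0) (ne : x ≠ y)
    (h : ∀ i, π.cut i = 0 → (∀ c, (cond i y x).Hk (π.kap c) c) ∧ Px π.np (cond i y x) ∧
      (π.cut (!i) ≠ 0 → (cond i y x).Hk (π.cut (!i)) (cond i x y).col))
    (h2 : π.cut false = 0 → π.cut true = 0 → x.Bf y ∧ Pn π.np x y ∧ (π.rook = true → y.Con x ∧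
      π.lk true = some (y.sl.lk x.sl).1 ∧ π.lk false = some (y.sl.lk x.sl).2)) : π.TA (tw x y) := by
  have m : ∀ {a T}, π.Mt (tw x y) a T → ∃ i, a = some i ∧ T = cond i y x := fun c =>
    (mt_tw c).resolve_right (by simp [op])
  have m1 : ∀ {a T}, π.At (tw x y) a T → ∃ i, a = some i ∧ T = cond i y x ∧ π.cut i = 0 := fun c =>
    let ⟨i, a1, a2⟩ := m c.1
    ⟨i, a1, a2, by simpa [op] using c.2 i a1⟩
  have m2 : ∀ {a a' T T'}, π.At (tw x y) a T → π.At (tw x y) a' T' → T ≠ T' → (x.Bf y ∧ Pn π.np x y ∧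
      (π.rook = true → y.Con x ∧ π.lk true = some (y.sl.lk x.sl).1 ∧
        π.lk false = some (y.sl.lk x.sl).2)) ∧
      ((T = x ∧ T' = y) ∨ (T = y ∧ T' = x ∧ (y.col = x.col → π.Ot (tw x y) a a' y.col))) :=
    fun c c' ne' => by
      obtain ⟨_ | _, rfl, b1, a1⟩ := m1 c <;> obtain ⟨_ | _, rfl, b2, a2⟩ := m1 c'
      · exact absurd (b1.trans b2.symm) ne'
      · exact ⟨h2 a1 a2, Or.inl ⟨b1, b2⟩⟩
      · refine ⟨h2 a2 a1, Or.inr ⟨b1, b2, fun d => ⟨by simp [op], by simp [zi], fun _ T f g => ?_⟩⟩⟩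
        obtain ⟨_ | _, -, f⟩ := m f <;> rw [f] at g
        exacts [absurd (g.trans d).symm x.col_ne_succ, absurd g.symm y.col_ne_succ]
      · exact absurd (b1.trans b2.symm) ne'
  refine ⟨fun i T c T' c' => by rw [c, c'], kap, cut, fun a a' T c c' => ?_, fun d => ⟨op, rk d⟩,
    fun a T c d => ?_, fun a a' T T' c c' d => ?_, fun a a' T T' c c' d => ?_,
    fun a a' T T' w c0 k c c' d d' => ?_, fun a a' T T' w c0 k i c c' d d' => ?_,
    fun a a' T T' c c' d => ?_, np, fun _ _ => op, fun a T w c0 k c => ?_, by simp [op],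
    by simp [op], by simp [op], by simp [fl]⟩
  · obtain ⟨_ | _, rfl, rfl⟩ := m c <;> obtain ⟨_ | _, rfl, d⟩ := m c'
    exacts [rfl, absurd d ne, absurd d.symm ne, rfl]
  · obtain ⟨i, rfl, rfl, a1⟩ := m1 d
    refine ⟨(h i a1).1 c, fun i' T' f g => ?_⟩
    obtain rfl : T' = _ := f
    cases i <;> cases i' <;> first | exact absurd a1 g | exact (h _ a1).2.2 g
  · obtain ⟨a1, ⟨rfl, rfl⟩ | ⟨rfl, rfl, a2⟩⟩ := m2 c c' fun f => Con.irr (f ▸ d)
    exacts [absurd d a1.1.con, ⟨a2 d.col, fun f => (a1.2.2 f).2⟩]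
  · obtain ⟨a1, ⟨rfl, rfl⟩ | ⟨rfl, rfl, a2⟩⟩ := m2 c c' fun f => Jun.irr (f ▸ d)
    · exact absurd d a1.1.jun
    · refine ⟨a2 d.col, Bool.eq_false_iff.2 fun f => ?_⟩
      simpa [(a1.2.2 f).1.1, d.2.2.1] using d.1
  · have f : T.Mz T' := ⟨_, _, _, d, d'⟩
    obtain ⟨a1, ⟨rfl, rfl⟩ | ⟨rfl, rfl, a2⟩⟩ := m2 c c' fun g => Mz.irr (g ▸ f)
    · exact absurd f a1.1.mz
    · refine ⟨(show _ = c0 + 1 from col_val d) ▸ a2 f.col, fun g => ?_, fun g => ?_, a1.2.1.pz' _ _ _ d d'⟩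
      · simpa [ty_val d, ty_val d'] using (a1.2.2 g).1.1
      · obtain ⟨_, g', -⟩ := m1 c
        simp [g] at g'
  · have f : T.Mh T' := ⟨_, _, _, _, d, d'⟩
    refine ⟨fun g => let ⟨_, g', _⟩ := m1 c; by simp [g] at g', ?_⟩
    obtain ⟨a1, ⟨rfl, rfl⟩ | ⟨rfl, rfl, -⟩⟩ := m2 c c' fun g => Mh.irr (g ▸ f)
    exacts [a1.2.1.ph _ _ _ _ d d', a1.2.1.ph' _ _ _ _ d d']
  · obtain ⟨a1, ⟨rfl, rfl⟩ | ⟨rfl, rfl, -⟩⟩ := m2 c c' fun g => Lz.irr (g ▸ d)
    exacts [a1.1.own (Or.inl d), a1.1.own (Or.inr d)]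
  · obtain ⟨i, rfl, rfl, a1⟩ := m1 c
    exact (h i a1).2.1 w c0 k

/-- **One item**, alive and closed or open. -/
theorem TA.solo (op : π.op ≠ some true) (rk : π.rook = false) (cut : ∀ i, π.cut i = 0)
    (kap : Kap π.kap x x) (np : Pn π.np x x) (fl : π.flip = true → π.fl = 2)
    (h : π.op = some false → (∀ c, π.np c = Fin.last _) ∧ (π.ek : ℕ) % 2 = 1 ∧
      ∀ w c l, x.1 = (.tN w c l, .H) → π.fl ≠ 0) : π.TA (so x) := by
  have m2 : ∀ {a a' T T'}, π.At (so x) a T → π.At (so x) a' T' → T ≠ T' → T.col ≠ T'.col ∧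
      (T.ty.hd = true ∧ T.sl = .Z ∨ ∃ w c k, T'.ty = .hM w c k) :=
    fun c c' ne => by
      rcases mt_so c.1 with ⟨-, rfl⟩ | ⟨-, -, rfl⟩ <;> rcases mt_so c'.1 with ⟨-, rfl⟩ | ⟨-, -, rfl⟩
      exacts [absurd rfl ne, ⟨col_ne_succ _, Or.inr ⟨_, _, _, rfl⟩⟩,
        ⟨(col_ne_succ _).symm, Or.inl ⟨rfl, rfl⟩⟩, absurd rfl ne]
  refine ⟨fun i T c T' c' => by rw [c.2, c'.2], fun c => (kap c).1, by simp [cut],
    fun a a' T c c' => ?_, by simp [rk], fun a T c d => ⟨?_, by simp [cut]⟩,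
    fun a a' T T' c c' d => absurd d.col (m2 c c' fun f => Con.irr (f ▸ d)).1,
    fun a a' T T' c c' d => absurd d.col (m2 c c' fun f => Jun.irr (f ▸ d)).1,
    fun a a' T T' w c0 k c c' d d' => absurd ((col_val d).trans (col_val d').symm)
      (m2 c c' fun f => by simp [f, d'] at d).1,
    fun a a' T T' w c0 k i c c' d d' => absurd ((col_val d).trans (col_val d').symm)
      (m2 c c' fun f => by simp [f, d'] at d).1,
    fun a a' T T' c c' d => ?_, np.one, fun c d => ?_, fun a T w c0 k c d f => ?_,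
    fun i o => ⟨fun _ c _ c' => c.2.trans c'.2.symm, ?_⟩, ?_, ?_, fun f => ⟨fl f, ?_⟩⟩
  · rcases mt_so c with ⟨rfl, rfl⟩ | ⟨rfl, -, rfl⟩ <;> rcases mt_so c' with ⟨rfl, d⟩ | ⟨rfl, -, d⟩
    exacts [rfl, absurd (congrArg Kl.col d) (col_ne_succ _),
      absurd (congrArg Kl.col d).symm (col_ne_succ _), rfl]
  · rcases mt_so d.1 with ⟨-, rfl⟩ | ⟨-, -, rfl⟩
    exacts [(kap c).2.1, .ent _ _ _ _]
  · obtain ⟨_, _, _, _, _, a1, a2, a3⟩ := id d
    simpa [ty_val a1, ty_val a2, HT.hd] using (m2 c c' fun f => Lz.irr (f ▸ d)).2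
  · rcases o : π.op with _ | _ | _
    exacts [rfl, absurd ((h o).1 c) d, absurd o op]
  · rcases mt_so c.1 with ⟨-, rfl⟩ | ⟨-, o, -⟩
    exacts [np.px w c0 k d f, (h o).1 c0 ▸ k.le_last]
  · cases i
    exacts [by simp [cut, (h o).2.1], absurd o op]
  · rintro (_ | _) o
    exacts [by simp [so], absurd o op]
  · rintro i o T ⟨rfl, rfl⟩ w c l d
    have := (h o).2.2 w c l d
    simp only [so]
    generalize π.fl = f at this
    fin_cases f <;> simp_all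
  · rintro (_ | _) o
    exacts [by simp [so], absurd o op]

/-- neither tree is related to the other one -/
structure Apart (x y : Kl K r r0) : Prop where
  bf : x.Bf y
  bf' : y.Bf x
  ph : Ph (fun _ => Fin.last r0) x y
  ph' : Ph (fun _ => Fin.last r0) y x

theorem Apart.symm (h : Apart x y) : Apart y x := ⟨h.bf', h.bf, h.ph', h.ph⟩

theorem Apart.of_col (h : x.col ≠ y.col) (o : ¬x.Own y) : Apart x y :=
  ⟨.of_col h o, .of_col h.symm (mt Own.symm o), .of (mt Mh.col h), .of (mt Mh.col h.symm)⟩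

/-- **An open item `T` and a second item `C`**, alive or cut at `D`. -/
theorem TA.opn {i : Bool} {T C : Kl K r r0} (hT : T = cond i y x) (hC : C = cond i x y)
    (op : π.op = some i) (rk : π.rook = false) (np : ∀ c, π.np c = Fin.last _)
    (ek : (π.ek : ℕ) % 2 = 1) (cut : π.cut i = 0) (ne : T ≠ C) (fr : C.ty ≠ (T.ent π.ek).ty)
    (kap : Kap π.kap T T)
    (h : ((π.cut (!i) : ℕ) = D ∧ π.cut (!i) ≠ 0 ∧ T.Hk D C.col) ∨ (π.cut (!i) = 0 ∧ Kap π.kap C C ∧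
      Apart T C ∧ (∀ w k, C.1 ≠ (.hM w (T.col + 1) k, .Z)) ∧ ¬(T.ent π.ek).Mh C ∧
        ((T.ent π.ek).Mz C → π.flip = true)))
    (nxt : ∀ w c l, T.1 = (.tN w c l, .H) →
      (i = false ∧ π.fl = 1) ∨ (π.fl = 2 ∧ (i = true ∨ C.col + 1 ≠ c)))
    (fl : π.flip = true → π.fl = 2 ∧ i = false ∧ π.cut true = 0 ∧
      ∃ w, C.1 = (.hP w (T.col + 1), .Z)) : π.TA (tw x y) := by
  have e1 : tw x y i = {T} := by rw [hT]; rfl
  have e2 : tw x y (!i) = {C} := by rw [hC]; cases i <;> rfl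
  have npf : π.np = fun _ => Fin.last r0 := funext np
  have m : ∀ {a Z}, π.Mt (tw x y) a Z →
      (a = some i ∧ Z = T) ∨ (a = some (!i) ∧ Z = C) ∨ (a = none ∧ Z = T.ent π.ek) := fun c => by
    rcases mt_tw c with ⟨i', rfl, rfl⟩ | ⟨rfl, i', d, rfl⟩
    · cases i <;> cases i' <;> simp [hT, hC]
    · obtain rfl := Option.some.inj (op.symm.trans d)
      simp [hT]
  have m1 : ∀ {a Z}, π.At (tw x y) a Z → (a = some i ∧ Z = T) ∨ (a = some (!i) ∧ Z = C ∧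
      Kap π.kap C C ∧ Apart T C ∧ (∀ w k, C.1 ≠ (.hM w (T.col + 1) k, .Z)) ∧ ¬(T.ent π.ek).Mh C ∧
        ((T.ent π.ek).Mz C → π.flip = true)) ∨ (a = none ∧ Z = T.ent π.ek) := fun c =>
    (m c.1).imp_right (Or.imp_left fun d => ⟨d.1, d.2, (h.resolve_left fun f =>
      f.2.1 (by simpa [op] using c.2 _ d.1)).2⟩)
  have tx : T.col ≠ (T.ent π.ek).col := T.col_ne_succ
  refine ⟨fun i T c T' c' => by rw [c, c'], fun c => (kap c).1, fun i' => ?_,
    fun a a' Z c c' => ?_, by simp [rk], fun a Z c d => ⟨?_, fun i' T' f g => ?_⟩,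
    fun a a' Z Z' c c' d => ?_, fun a a' Z Z' c c' d => ?_, fun a a' Z Z' w c0 k c c' d d' => ?_,
    fun a a' Z Z' w c0 k i c c' d d' => ?_, fun a a' Z Z' c c' d => ?_, by simp [np], by simp [np],
    fun a Z w c0 k _ _ _ => np c0 ▸ k.le_last, fun i' o => ?_, fun i' o f => ?_, fun i' o => ?_,
    fun f => ⟨(fl f).1, fun i' o => ?_⟩⟩
  · by_cases d : i' = i
    · simp [d, cut]
    · obtain rfl : i' = !i := Bool.eq_not_of_ne d
      exact h.elim (fun f => Or.inr f.1) fun f => by simp [f.1]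
  · rcases m c with ⟨rfl, rfl⟩ | ⟨rfl, rfl⟩ | ⟨rfl, rfl⟩ <;>
      rcases m c' with ⟨rfl, d⟩ | ⟨rfl, d⟩ | ⟨rfl, d⟩ <;> first
        | rfl | exact absurd d ne | exact absurd d.symm ne | exact absurd (congrArg Kl.col d) tx
        | exact absurd (congrArg Kl.col d).symm tx | exact absurd (congrArg Kl.ty d) fr
        | exact absurd (congrArg Kl.ty d).symm fr
  · rcases m1 d with ⟨-, rfl⟩ | ⟨-, rfl, f, -⟩ | ⟨-, rfl⟩
    exacts [(kap c).2.1, (f c).2.1, .ent _ _ _ _]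
  · obtain rfl : i' = !i := by
      by_contra d
      exact g ((by simpa using d : i' = i) ▸ cut)
    obtain rfl : T' = C := by rwa [e2] at f
    obtain ⟨a1, -, a2⟩ := h.resolve_right fun f => g f.1
    rcases m1 d with ⟨-, rfl⟩ | ⟨-, rfl, -⟩ | ⟨-, rfl⟩
    exacts [by rwa [a1], .self _ _, .ent _ _ _ _]
  · exfalso
    rcases m1 c with ⟨-, rfl⟩ | ⟨-, rfl, -, f, -⟩ | ⟨-, rfl⟩ <;>
      rcases m1 c' with ⟨-, rfl⟩ | ⟨-, rfl, -, f', -⟩ | ⟨-, rfl⟩ <;> first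
        | exact Con.irr d | exact f'.bf.con d | exact f.bf'.con d | exact tx d.col
        | exact tx d.col.symm | exact fr d.1 | exact fr d.1.symm
  · exfalso
    rcases m1 c with ⟨-, rfl⟩ | ⟨-, rfl, -, f, -⟩ | ⟨-, rfl⟩ <;>
      rcases m1 c' with ⟨-, rfl⟩ | ⟨-, rfl, -, f', -⟩ | ⟨-, rfl⟩ <;> first
        | exact Jun.irr d | exact f'.bf.jun d | exact f.bf'.jun d | exact ent_jun d
        | exact jun_ent d
  · have z : Z.Mz Z' := ⟨_, _, _, d, d'⟩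
    rcases m1 c' with ⟨-, rfl⟩ | ⟨rfl, rfl, -, f', -, -, g⟩ | ⟨-, rfl⟩
    · rcases m1 c with ⟨-, rfl⟩ | ⟨-, rfl, -, f, -⟩ | ⟨-, rfl⟩
      exacts [absurd z Mz.irr, absurd z f.bf'.mz, absurd z.col.symm tx]
    · rcases m1 c with ⟨-, rfl⟩ | ⟨-, rfl, -⟩ | ⟨rfl, rfl⟩
      · exact absurd z f'.bf.mz
      · exact absurd z Mz.irr
      obtain ⟨a1, rfl, -⟩ := fl (g z)
      refine ⟨⟨by simp [op], by simp [zi, a1], fun a0 Y k1 k2 => ?_⟩, by simp [rk], fun _ => g z,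
        np c0 ▸ k.le_last⟩
      rcases m k1 with ⟨rfl, -⟩ | ⟨-, rfl⟩ | ⟨-, rfl⟩
      · simp [zi]
      · exact absurd (k2.trans (col_val d').symm).symm (col_ne_succ _)
      · exact absurd (k2.trans (col_val d).symm).symm (col_ne_succ _)
    · exact nomatch d'
  · have z : Z.Mh Z' := ⟨_, _, _, _, d, d'⟩
    rw [npf]
    rcases m1 c' with ⟨-, rfl⟩ | ⟨-, rfl, -, f', -, g, -⟩ | ⟨-, rfl⟩
    · rcases m1 c with ⟨-, rfl⟩ | ⟨rfl, rfl, -, f, -⟩ | ⟨-, rfl⟩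
      exacts [absurd z Mh.irr, ⟨by simp, f.ph' _ _ _ _ d d'⟩, absurd z.col.symm tx]
    · rcases m1 c with ⟨rfl, rfl⟩ | ⟨-, rfl, -⟩ | ⟨-, rfl⟩
      exacts [⟨by simp, f'.ph _ _ _ _ d d'⟩, absurd z Mh.irr, absurd z g]
    · exact nomatch d'
  · rcases m1 c with ⟨-, rfl⟩ | ⟨-, rfl, -, f, -⟩ | ⟨-, rfl⟩ <;>
      rcases m1 c' with ⟨-, rfl⟩ | ⟨-, rfl, -, f', -⟩ | ⟨-, rfl⟩ <;> first
        | exact Lz.irr d | exact f'.bf.own (Or.inl d) | exact f.bf.own (Or.inr d) | exact ent_lz d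
        | exact lz_ent d
  all_goals obtain rfl := Option.some.inj (op.symm.trans o)
  · exact ⟨Set.subsingleton_singleton, by simp [cut], ek, h.symm.imp And.left And.left⟩
  · rw [e1, e2]
    rintro _ rfl _ rfl
    exact (h.resolve_left fun g => g.2.1 f).2.2.2.1
  · rw [e1, e2]
    rintro _ rfl w c l d
    simpa using nxt w c l d
  · rw [e1, e2]
    rintro _ rfl
    simpa using (fl f).2

end Par

end Pool.Agent.P.MP_439f1f_co
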