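import Pool.Agent.P.MP_439f1f_co.B16

/-!
Safety by computation: for all orders of the cuts that agree with the known comparisons a closed
set of hubs is found.
-/

set_option autoImplicit false

namespace Pool.Agent.P.MP_439f1f_co

open Function

/-- names that refer to the root or to one of the first `n` cuts -/
def Cd.ok (n : ℕ) : Cd → Bool
  | .c => true
  | .i k => Nat.blt k n
  | .o k => Nat.blt k n
  | _ => false

/-- the hubs joined to the root form a closed set that misses a cut -/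
def nogo (E : List ℕ) (n : ℕ) : List ℕ → Bool
  | [] => false
  | a :: l => frc (rcq (arcs a E a l) (2 * n + 9) 1) fun M =>
    (arcs a E a l).all (fun e => Nat.beq (Nat.land M e) 0 || Nat.beq (Nat.land M e) e) &&
      (M.testBit 0 && (List.range n).any fun k => !M.testBit (Cd.i k).num)

/-- the check: the cut `u` is broken, its lower part goes to `x` and its upper part to `y` -/
def Tab.safe (Z : Tab) (u : ℕ) (x y : Cd) : Bool :=
  Nat.blt u Z.n && (Z.ad.all (fun p => Nat.blt p.1 Z.n && Nat.blt p.2 Z.n) && (Z.dist &&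
    (x.ok Z.n && (y.ok Z.n && ((List.range Z.n).all (fun k => (Z.t k).ok Z.n && (Z.d k).ok Z.n) &&
      (orders (Z.ord ++ Z.adF) Z.n).all (nogo (((Z.t u, x) :: (y, Z.d u) ::
        ((List.range Z.n).filter fun k => !Nat.beq k u).map fun k => (Z.t k, Z.d k)).map msk)
          Z.n))))))

theorem msk_closed {M : ℕ} {e : Cd × Cd}
    (h : (Nat.beq (Nat.land M (msk e)) 0 || Nat.beq (Nat.land M (msk e)) (msk e)) = true) :
    M.testBit e.1.num = true ↔ M.testBit e.2.num = true := by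
  have a1 : (msk e).testBit e.1.num = true := by
    rw [msk, Nat.lor_eq, Nat.testBit_or, Bool.or_eq_true, bit_one]; exact Or.inl rfl
  have a2 : (msk e).testBit e.2.num = true := by
    rw [msk, Nat.lor_eq, Nat.testBit_or, Bool.or_eq_true, bit_one, bit_one]; exact Or.inr rfl
  rw [Bool.or_eq_true, Nat.beq_eq, Nat.beq_eq, Nat.land_eq] at h
  rcases h with h | h
  · have b1 := congrArg (·.testBit e.1.num) h
    have b2 := congrArg (·.testBit e.2.num) h
    simp only [Nat.testBit_and, a1, a2, Bool.and_true, Nat.zero_testBit] at b1 b2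
    rw [b1, b2]
  · have b1 := congrArg (·.testBit e.1.num) h
    have b2 := congrArg (·.testBit e.2.num) h
    simp only [Nat.testBit_and, a1, a2, Bool.and_true] at b1 b2
    rw [b1, b2]

theorem sub_arcs {f e : ℕ} {E : List ℕ} (h : e ∈ E) : ∀ (l : List ℕ) (a : ℕ), e ∈ arcs f E a l
  | [], _ => List.mem_cons_of_mem _ h
  | b :: l, _ => List.mem_cons_of_mem _ (sub_arcs h l b)

variable {S Λ β : Type*} [LinearOrder β]

theorem arcs_succ {r : ℕ → β} (f : ℕ) (E : List ℕ) : ∀ (l : List ℕ) (a : ℕ),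
    (a :: l).Pairwise (fun a b => r a < r b) → ∀ k ∈ a :: l, ∃ b,
      msk (.o k, .i b) ∈ arcs f E a l ∧
        ((b ∈ l ∧ r k < r b ∧ ∀ j ∈ a :: l, r k < r j → r b ≤ r j) ∨
          (b = f ∧ ∀ j ∈ a :: l, r j ≤ r k))
  | [], a, _, k, hk => by
    obtain rfl : k = a := by simpa using hk
    exact ⟨f, by simp [arcs], Or.inr ⟨rfl, by simp⟩⟩
  | b :: l, a, p, k, hk => by
    rw [List.pairwise_cons] at p
    rcases List.mem_cons.1 hk with rfl | hk
    · refine ⟨b, by simp [arcs], Or.inl ⟨by simp, p.1 b (by simp), fun j hj h => ?_⟩⟩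
      rcases List.mem_cons.1 hj with rfl | hj
      · exact absurd h (lt_irrefl _)
      rcases List.mem_cons.1 hj with rfl | hj
      exacts [le_rfl, ((List.pairwise_cons.1 p.2).1 j hj).le]
    · obtain ⟨d, d1, d2⟩ := arcs_succ f E l b p.2 k hk
      have := p.1 k hk
      refine ⟨d, List.mem_cons_of_mem _ d1, d2.imp
        (fun d2 => ⟨List.mem_cons_of_mem _ d2.1, d2.2.1, fun j hj h => ?_⟩)
        fun d2 => ⟨d2.1, fun j hj => ?_⟩⟩
      · exact d2.2.2 j ((List.mem_cons.1 hj).resolve_left fun e => lt_asymm this (e ▸ h)) h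
      · exact (List.mem_cons.1 hj).elim (fun e => e ▸ this.le) (d2.2 j)

variable {nxt en : Λ → Λ} {pos : Λ → β} {hb : Λ → S} {c x y : S} {τ η : Λ → S} {R G : Set Λ}
  {z : ℕ → Λ} {Z : Tab} {ρ : Λ → Cd} {n : ℕ}

/-- the order of the cuts is one of the listed orders -/
theorem Tab.Pl.order [Nontrivial Λ] (h : Z.Pl nxt pos G z) (o : Cyc Set.univ nxt pos)
    (k2 : ∀ p ∈ Z.ad, p.1 < Z.n ∧ p.2 < Z.n) (k3 : Z.dist = true) :
    ∃ l ∈ orders (Z.ord ++ Z.adF) Z.n, l.Pairwise (fun a b => pos (z a) < pos (z b)) ∧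
      ∀ k, k ∈ l ↔ k < Z.n := by
  have inj := h.inj o k3
  have pi : ∀ i j, i < Z.n → j < Z.n → i ≠ j → pos (z i) ≠ pos (z j) := fun i j a b c e =>
    inj i j a b c (o.inj trivial trivial e)
  obtain ⟨l, a1, a2, a3⟩ := orders_ok (r := fun k => pos (z k)) (F := Z.ord ++ Z.adF) (fun f hf => by
    rcases List.mem_append.1 hf with hf | hf
    · exact List.forall_iff_forall_mem.1 h.ord f hf
    obtain ⟨p, hp, hf⟩ := List.mem_flatMap.1 hf
    obtain ⟨k, hk, rfl⟩ := List.mem_map.1 hf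
    simp only [List.mem_filter, List.mem_range, Bool.not_eq_true', Bool.or_eq_false_iff] at hk
    have b1 := pi k p.1 hk.1 (k2 p hp).1 (Nat.ne_of_beq_eq_false hk.2.1)
    have b2 := pi k p.2 hk.1 (k2 p hp).2 (Nat.ne_of_beq_eq_false hk.2.2)
    have b3 := o.cases (u := z p.1) trivial
    have b4 : pos (nxt (z p.1)) ≠ pos (z p.1) := fun e => o.nx_ne _ (o.inj trivial trivial e)
    rw [List.forall_iff_forall_mem.1 h.ad p hp] at b3 b4
    simp only [Fm.Holds]
    rcases b3 with ⟨b3, b5⟩ | ⟨b3, b5⟩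
    · have := b5 (z k) trivial
      grind
    · have := b3 (z k) trivial
      have := b5 (z k) trivial
      grind) Z.n fun j hj i hi => pi i j (by omega) hj (by omega)
  exact ⟨l, a1, a2, fun k => a3.mem_iff.trans List.mem_range⟩

/-- `u` lies in the piece that starts at `r` -/
def InP (pos : Λ → β) (en : Λ → Λ) (r u : Λ) : Prop := pos r < pos u ∧ pos u ≤ pos (en r)

/-- no cut and no end of a piece separates `u` and `v` -/
def Same (pos : Λ → β) (R : Set Λ) (en : Λ → Λ) (z : ℕ → Λ) (n : ℕ) (u v : Λ) : Prop :=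
  (∀ k < n, pos u ≤ pos (z k) ↔ pos v ≤ pos (z k)) ∧ ∀ r ∈ R, InP pos en r u ↔ InP pos en r v

theorem Same.rfl {u : Λ} : Same pos R en z n u u := ⟨fun _ _ => Iff.rfl, fun _ _ => Iff.rfl⟩

theorem Same.symm {u v : Λ} (h : Same pos R en z n u v) : Same pos R en z n v u :=
  ⟨fun k hk => (h.1 k hk).symm, fun r hr => (h.2 r hr).symm⟩

theorem Same.trans {u v w : Λ} (h : Same pos R en z n u v) (h' : Same pos R en z n v w) :
    Same pos R en z n u w :=
  ⟨fun k hk => (h.1 k hk).trans (h'.1 k hk), fun r hr => (h.2 r hr).trans (h'.2 r hr)⟩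

/-- two hubs of an interval `[a, b]` such that no cut, start or end of a piece lies in `[a, b)` -/
theorem Same.of_itv {a b u v : Λ} (h1 : pos a ≤ pos u) (h2 : pos u ≤ pos b) (h3 : pos a ≤ pos v)
    (h4 : pos v ≤ pos b) (hz : ∀ k < n, pos (z k) < pos a ∨ pos b ≤ pos (z k))
    (hr : ∀ r ∈ R, (pos r < pos a ∨ pos b ≤ pos r) ∧ (pos (en r) < pos a ∨ pos b ≤ pos (en r))) :
    Same pos R en z n u v :=
  ⟨fun k hk => by have := hz k hk; grind, fun r h => by have := hr r h; unfold InP; grind⟩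

/-- The hub `s` is in the class of the name `a`: it is this hub, or lies in a piece that is joined
to `a`, or is not separated from it. -/
def Cls (c : S) (hb : Λ → S) (nxt : Λ → Λ) (pos : Λ → β) (R : Set Λ) (en : Λ → Λ) (ρ : Λ → Cd)
    (z : ℕ → Λ) (n : ℕ) (s : S) (a : Cd) : Prop :=
  s = a.val c hb nxt z (fun _ => c) ∨ (∃ r ∈ R, ρ r = a ∧ ∃ u, s = hb u ∧ InP pos en r u) ∨
    ∃ u v, s = hb u ∧ a.val c hb nxt z (fun _ => c) = hb v ∧ Same pos R en z n u v

/-- The configuration is described by the table: the cuts `z k`, the used pass pairs `(r, en r)`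
whose pieces are joined to `ρ r`, and lines whose ends stay in their class. -/
structure Tab.Sit (Z : Tab) (c : S) (hb : Λ → S) (nxt : Λ → Λ) (pos : Λ → β) (R : Set Λ)
    (en : Λ → Λ) (ρ : Λ → Cd) (z : ℕ → Λ) (τ η : Λ → S) : Prop where
  pl : Z.Pl nxt pos Set.univ z
  cyc : Cyc Set.univ nxt pos
  inj : Injective hb
  root : ∀ u, hb u ≠ c
  lt : ∀ r ∈ R, pos r < pos (en r)
  dis : ∀ r ∈ R, ∀ s ∈ R, pos r < pos s → pos (en r) < pos s
  free : ∀ k < Z.n, ∀ r ∈ R, pos (z k) < pos r ∨ pos (en r) < pos (z k)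
  tl : ∀ k < Z.n, Cls c hb nxt pos R en ρ z Z.n (τ (z k)) (Z.t k)
  hd : ∀ k < Z.n, Cls c hb nxt pos R en ρ z Z.n (η (z k)) (Z.d k)
  st : ∀ r ∈ R, (ρ r).ok Z.n = true ∧ Cls c hb nxt pos R en ρ z Z.n (τ r) (ρ r) ∧
    η r = hb (nxt r) ∧ τ (en r) = hb r ∧ η (en r) = hb (nxt (en r))
  off : ∀ L, (∀ k < Z.n, L ≠ z k) → L ∉ R → (∀ r ∈ R, L ≠ en r) →
    (∃ u, τ L = hb u ∧ Same pos R en z Z.n u L) ∧
      (η L = hb (nxt L) ∨ ∃ v, η L = hb v ∧ Same pos R en z Z.n v L)

/-- `z k` is the first cut at or after `u`, cyclically -/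
def Nc (pos : Λ → β) (z : ℕ → Λ) (n : ℕ) (u : Λ) (k : ℕ) : Prop :=
  k < n ∧ ((pos u ≤ pos (z k) ∧ ∀ j < n, pos u ≤ pos (z j) → pos (z k) ≤ pos (z j)) ∨
    ∀ j < n, pos (z j) < pos u ∧ pos (z k) ≤ pos (z j))

theorem Nc.uniq {u : Λ} {k j : ℕ} (h : Nc pos z n u k) (h' : Nc pos z n u j) :
    pos (z k) = pos (z j) := by
  obtain ⟨a, b | b⟩ := h <;> obtain ⟨a', b' | b'⟩ := h'
  exacts [le_antisymm (b.2 j a' b'.1) (b'.2 k a b.1), absurd b.1 (not_le.2 (b' k a).1),
    absurd b'.1 (not_le.2 (b j a').1), le_antisymm (b j a').2 (b' k a).2]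

theorem Nc.congr {u v : Λ} (h : ∀ k < n, pos u ≤ pos (z k) ↔ pos v ≤ pos (z k)) {k : ℕ}
    (a : Nc pos z n u k) : Nc pos z n v k :=
  ⟨a.1, a.2.imp (fun b => ⟨(h k a.1).1 b.1, fun j hj d => b.2 j hj ((h j hj).2 d)⟩)
    fun b j hj => ⟨not_le.1 (mt (h j hj).2 (not_le.2 (b j hj).1)), (b j hj).2⟩⟩

theorem Nc.step (o : Cyc Set.univ nxt pos) {u : Λ} (h : ∀ k < n, u ≠ z k) (k : ℕ) :
    Nc pos z n (nxt u) k ↔ Nc pos z n u k := by
  have ne : ∀ j < n, pos u ≠ pos (z j) := fun j hj e => h j hj (o.inj trivial trivial e)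
  rcases o.cases (u := u) trivial with ⟨a1, a2⟩ | ⟨a1, a2⟩
  · have b : ∀ j < n, pos (nxt u) ≤ pos (z j) ↔ pos u ≤ pos (z j) := fun j hj => by
      have := a2 (z j) trivial
      have := ne j hj
      grind
    exact ⟨Nc.congr b, Nc.congr fun j hj => (b j hj).symm⟩
  · have b : ∀ j < n, pos (z j) < pos u := fun j hj =>
      lt_of_le_of_ne (a1 _ trivial) (ne j hj).symm
    refine and_congr_right fun hk => ⟨?_, ?_⟩
    · rintro (d | d)
      exacts [Or.inr fun j hj => ⟨b j hj, d.2 j hj (a2 _ trivial)⟩,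
        absurd (d k hk).1 (not_lt.2 (a2 _ trivial))]
    · rintro (d | d)
      exacts [absurd d.1 (not_le.2 (b k hk)), Or.inl ⟨a2 _ trivial, fun j hj _ => (d j hj).2⟩]

/-- **Safety by a table.** -/
theorem Tab.Sit.safe [Nontrivial Λ] (h : Z.Sit c hb nxt pos R en ρ z τ η) (u : ℕ) (X Y : Cd)
    (ok : Z.safe u X Y = true) (k : Cn (z u) x y τ η) (hx : Cls c hb nxt pos R en ρ z Z.n x X)
    (hy : Cls c hb nxt pos R en ρ z Z.n y Y) : False := by
  simp only [Tab.safe, Bool.and_eq_true, List.all_eq_true, Nat.blt_eq, List.mem_range] at ok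
  obtain ⟨k0, k2, k3, kx, ky, k4, k5⟩ := ok
  have o := h.cyc
  have inj := h.pl.inj o k3
  obtain ⟨l, l1, l2, l3⟩ := h.pl.order o k2 k3
  have k5 := k5 l l1
  rcases l with _ | ⟨a, l⟩
  · exact absurd k5 (by simp [nogo])
  simp only [nogo, frc_eq, Bool.and_eq_true, List.all_eq_true, List.any_eq_true, List.mem_range,
    Bool.not_eq_true'] at k5
  generalize rcq _ _ _ = M at k5
  obtain ⟨cl, m0, w, hw, mw⟩ := k5
  have ed : ∀ e : Cd × Cd, e ∈ (Z.t u, X) :: (Y, Z.d u) ::
      ((List.range Z.n).filter fun k => !Nat.beq k u).map (fun k => (Z.t k, Z.d k)) →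
      (M.testBit e.1.num = true ↔ M.testBit e.2.num = true) := fun e he =>
    msk_closed (cl _ (sub_arcs (List.mem_map_of_mem he) _ _))
  let ca : Λ → Prop := fun v => ∀ k, Nc pos z Z.n v k → M.testBit (Cd.i k).num = true
  have ca1 : ∀ v k, Nc pos z Z.n v k → (ca v ↔ M.testBit (Cd.i k).num = true) := fun v k a =>
    ⟨fun b => b k a, fun b j d => by
      rwa [show j = k from by_contra fun e =>
        inj j k d.1 a.1 e (o.inj trivial trivial (d.uniq a))]⟩
  have ca2 : ∀ v v', (∀ k < Z.n, pos v ≤ pos (z k) ↔ pos v' ≤ pos (z k)) → (ca v ↔ ca v') :=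
    fun v v' a => ⟨fun b k d => b k (d.congr fun j hj => (a j hj).symm),
      fun b k d => b k (d.congr a)⟩
  have ca3 : ∀ v, (∀ k < Z.n, v ≠ z k) → (ca (nxt v) ↔ ca v) := fun v a =>
    forall_congr' fun k => imp_congr_left (Nc.step o a k)
  let col : Λ → Prop := fun v => (∃ r ∈ R, InP pos en r v ∧ M.testBit (ρ r).num = true) ∨
    ((∀ r ∈ R, ¬InP pos en r v) ∧ ca v)
  have cp : ∀ r ∈ R, ∀ v, InP pos en r v → (col v ↔ M.testBit (ρ r).num = true) :=
    fun r hr v a => ⟨fun b => b.elim (fun ⟨s, hs, b1, b2⟩ => by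
      have d1 := h.dis r hr s hs
      have d2 := h.dis s hs r hr
      rwa [show r = s from o.inj trivial trivial (by unfold InP at a b1; grind)])
      fun b => absurd a (b.1 r hr), fun b => Or.inl ⟨r, hr, a, b⟩⟩
  have co : ∀ v, (∀ r ∈ R, ¬InP pos en r v) → (col v ↔ ca v) := fun v a =>
    ⟨fun b => b.elim (fun ⟨s, hs, b1, _⟩ => absurd b1 (a s hs)) And.right, fun b => Or.inr ⟨a, b⟩⟩
  have cs : ∀ v v', Same pos R en z Z.n v v' → (col v ↔ col v') := fun v v' a =>
    or_congr (exists_congr fun r => and_congr_right fun hr => and_congr_left' (a.2 r hr))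
      (and_congr (forall₂_congr fun r hr => not_congr (a.2 r hr)) (ca2 v v' a.1))
  have pn : ∀ r v, InP pos en r (nxt v) → pos r ≤ pos v ∧ pos v < pos (en r) := fun r v a => by
    unfold InP at a
    rcases o.cases (u := v) trivial with ⟨a1, a2⟩ | ⟨-, a2⟩ <;> have := a2 r trivial <;> grind
  let A : Set S := {s | s = c ∨ ∃ v, s = hb v ∧ col v}
  have mA : ∀ v, hb v ∈ A ↔ col v := fun v =>
    ⟨fun b => b.elim (fun e => absurd e (h.root v)) fun d => by
      obtain ⟨v', e, d⟩ := d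
      rwa [h.inj e], fun b => Or.inr ⟨v, rfl, b⟩⟩
  have zi : ∀ k < Z.n, hb (z k) ∈ A ↔ M.testBit (Cd.i k).num = true := fun k hk =>
    (mA _).trans ((co _ fun r hr a => by have := h.free k hk r hr; unfold InP at a; grind).trans
      (ca1 _ _ ⟨hk, Or.inl ⟨le_rfl, fun _ _ => id⟩⟩))
  have val : ∀ a : Cd, a.ok Z.n = true →
      (a.val c hb nxt z (fun _ => c) ∈ A ↔ M.testBit a.num = true) := by
    rintro (_ | _ | k | k | k) ha <;> simp only [Cd.ok, Nat.blt_eq, reduceCtorEq] at ha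
    · exact iff_of_true (Or.inl rfl) m0
    · exact zi k ha
    obtain ⟨b, b1, b2⟩ := arcs_succ (r := fun k => pos (z k)) a _ l a l2 k ((l3 k).2 ha)
    refine (mA _).trans ((co _ fun r hr d => ?_).trans ((ca1 _ b ?_).trans
      (msk_closed (cl _ b1)).symm))
    · have := h.free k ha r hr
      have := pn r _ d
      grind
    rcases b2 with ⟨b2, b3, b4⟩ | ⟨rfl, b2⟩
    · have s := o.succ _ trivial _ trivial b3
      exact ⟨(l3 b).1 (List.mem_cons_of_mem _ b2),
        Or.inl ⟨s.2, fun j hj d => b4 j ((l3 j).2 hj) (s.1.trans_le d)⟩⟩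
    · have mn : ∀ j < Z.n, pos (z b) ≤ pos (z j) := fun j hj =>
        (List.mem_cons.1 ((l3 j).2 hj)).elim (fun e => e ▸ le_rfl)
          fun e => ((List.pairwise_cons.1 l2).1 j e).le
      refine ⟨(l3 b).1 (by simp), ?_⟩
      rcases o.cases (u := z k) trivial with ⟨a1, -⟩ | ⟨-, a2⟩
      exacts [Or.inr fun j hj => ⟨(b2 j ((l3 j).2 hj)).trans_lt a1, mn j hj⟩,
        Or.inl ⟨a2 _ trivial, fun j hj _ => mn j hj⟩]
  have cls : ∀ s (a : Cd), a.ok Z.n = true → Cls c hb nxt pos R en ρ z Z.n s a →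
      (s ∈ A ↔ M.testBit a.num = true) := by
    rintro s a ha (rfl | ⟨r, hr, rfl, v, rfl, b⟩ | ⟨v, v', rfl, b, d⟩)
    exacts [val a ha, (mA v).trans (cp r hr v b),
      (mA v).trans ((cs _ _ d).trans ((mA v').symm.trans (b ▸ val a ha)))]
  refine absurd ((zi w hw).1 (k A (fun L hL => ?_) ?_ ?_ c _ (Or.inl rfl))) (by simp [mw])
  · by_cases c1 : ∃ k < Z.n, L = z k
    · obtain ⟨k, hk, rfl⟩ := c1
      rw [cls _ _ (k4 k hk).1 (h.tl k hk), cls _ _ (k4 k hk).2 (h.hd k hk)]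
      refine ed (Z.t k, Z.d k) (List.mem_cons_of_mem _ (List.mem_cons_of_mem _
        (List.mem_map.2 ⟨k, List.mem_filter.2 ⟨List.mem_range.2 hk, ?_⟩, rfl⟩)))
      rw [Bool.not_eq_true', Bool.eq_false_iff]
      exact fun e => hL (by rw [Nat.eq_of_beq_eq_true e])
    push Not at c1
    by_cases c2 : L ∈ R
    · obtain ⟨s1, s2, s3, -⟩ := h.st L c2
      rw [cls _ _ s1 s2, s3, mA, cp L c2 _ (o.succ _ trivial _ trivial (h.lt L c2))]
    by_cases c3 : ∃ r ∈ R, L = en r
    · obtain ⟨r, hr, rfl⟩ := c3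
      obtain ⟨-, -, -, s1, s2⟩ := h.st r hr
      have d0 := h.lt r hr
      rw [s1, s2, mA, mA, co, co, ca3 _ c1]
      · exact ca2 _ _ fun k hk => by have := h.free k hk r hr; grind
      · intro s hs d
        have := pn s _ d
        have := h.dis r hr s hs
        have := h.dis s hs r hr
        have : pos r = pos s → pos (en r) = pos (en s) := fun e => by
          rw [o.inj trivial trivial e]
        grind
      · intro s hs d
        have := h.dis s hs r hr
        unfold InP at d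
        grind
    push Not at c3
    obtain ⟨⟨v, s1, s2⟩, s3 | ⟨v', s3, s4⟩⟩ := h.off L c1 c2 c3
    · have : ∀ r ∈ R, InP pos en r L ↔ InP pos en r (nxt L) := fun r hr =>
        ⟨fun d => by
          have s := o.succ L trivial (en r) trivial
            (lt_of_le_of_ne d.2 fun e => c3 r hr (o.inj trivial trivial e))
          exact ⟨d.1.trans s.1, s.2⟩,
        fun d => ⟨lt_of_le_of_ne (pn r L d).1 fun e => c2 (o.inj trivial trivial e ▸ hr),
          (pn r L d).2.le⟩⟩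
      rw [s1, s3, mA, mA, cs _ _ s2]
      exact or_congr (exists_congr fun r => and_congr_right fun hr => and_congr_left' (this r hr))
        (and_congr (forall₂_congr fun r hr => not_congr (this r hr)) (ca3 L c1).symm)
    · rw [s1, s3, mA, mA, cs _ _ s2, cs _ _ s4]
  · rw [cls _ _ (k4 u k0).1 (h.tl u k0), cls _ _ kx hx]
    exact ed (Z.t u, X) (by simp)
  · rw [cls _ _ (k4 u k0).2 (h.hd u k0), cls _ _ ky hy]
    exact ed (Y, Z.d u) (by simp)

end Pool.Agent.P.MP_439f1f_co
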