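import Pool.Agent.P.MP_439f1f_co.Sf9
import Pool.Agent.P.MP_439f1f_co.Ts1

/-!
Hot windows: two routes that cross in a window.
-/

set_option autoImplicit false
set_option linter.unusedSectionVars false

namespace Pool.Agent.P.MP_439f1f_co

open Sum Function

variable {K N β : Type} [DecidableEq K] [LinearOrder β] {r r0 q D e b : ℕ}
  [Finite K] [Finite N] [Nonempty K]

/-- the cuts: broken line, source, four nodes of the window, two labels -/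
def swT : Tab where
  n := 8
  tl := [(1, .i 7), (2, .c), (3, .c), (4, .i 2), (5, .i 3), (6, .i 4), (7, .i 5)]
  hd := []
  T := []
  ord := [.lt 2 3, .lt 3 4, .lt 4 5, .lt 5 6, .lt 6 7, .out 0 2 7, .out 1 2 7]
  ne := [(0, 1), (0, 2), (0, 3), (0, 4), (0, 5), (0, 6), (0, 7), (1, 2), (1, 3), (1, 4), (1, 5),
    (1, 6), (1, 7)]
  ad := []

theorem swT_safe : swT.safe 0 (.i 6) (.i 1) = true := by decide +kernel

namespace Wd

variable {W : Wd K N β r r0 q D e b} {j : K} {a c : N} {L0 w : Hub K N (Pt K N) r0}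
  {x y : Option (Hub K N (Pt K N) r0)} {τ η : Hub K N (Pt K N) r0 → Option (Hub K N (Pt K N) r0)}

theorem tB_par {n : N} (h : 2 ≤ W.F.lev n) : W.S.tB (nl n) = some (nl (W.F.par n)) :=
  if_neg (by omega : ¬W.F.lev n = 1)

/-- a hub of a system is not visited in a block of the world of the system -/
theorem hub_out {z : Pt K N × Fin 3} {n : N} (h : W.Bk j (inr (j, z)) n) :
    W.S.wor n ≠ (j, W.S.fam j z.1) := by
  obtain ⟨y, t⟩ := z
  obtain ⟨i, h⟩ := bl_iff.1 h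
  by_cases d : t = 2
  · subst d
    exact W.wor_ne (i := 2) ⟨i, (lp_2 y).symm.trans h⟩
  rw [lp, show W.S.O.el j (inr (j, y, t)) = inr (j, (W.S.O.nx j).symm y) from if_pos ⟨rfl, d⟩] at h
  rw [← show W.S.fam j ((W.S.O.nx j).symm y) = W.S.fam j y from W.B.rings.fo_nx_symm j y]
  exact W.wor_ne (i := 0) ⟨i, h⟩

theorem sl_out {z : Pt K N × Fin 3} {n : N} (h : W.Bk j (W.S.O.sl j z) n) :
    W.S.wor n ≠ (j, W.S.fam j z.1) := by
  obtain ⟨y, t⟩ := z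
  fin_cases t
  · obtain ⟨i, h⟩ := bl_iff.1 h
    exact W.wor_ne (i := 0) ⟨i, (W.B.rings.el_sl0 (j0 := j) y).symm.trans h⟩
  · exact hub_out (z := (y, 0)) h
  · exact hub_out (z := (y, 1)) h

theorem sl_ne_hub (z : Pt K N × Fin 3) : W.S.O.sl j z ≠ inr (j, z) := by
  obtain ⟨y, t⟩ := z
  fin_cases t
  · simp only [Fin.zero_eta, Mac.sl_0]
    rcases W.S.O.sc.symm (inr (j, y)) with p | z <;> simp [elst]
  all_goals simp

/-- **A closed window.** -/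
theorem shut_false (h : Ends (2 * r + 9) W.S.hang x y τ η) (k : Cn L0 x y τ η) {u1 u2 u3 u4 : N}
    (o1 : W.pos j (nl u1) < W.pos j (nl u2)) (o2 : W.pos j (nl u2) < W.pos j (nl u3))
    (o3 : W.pos j (nl u3) < W.pos j (nl u4)) (t1 : τ (nl u1) = some (nl u4))
    (t2 : τ (nl u3) = some (nl u2))
    (t3 : ∀ L, (W.pos j (nl u1) < W.pos j L ∧ W.pos j L < W.pos j (nl u2)) ∨
      (W.pos j (nl u3) < W.pos j L ∧ W.pos j L < W.pos j (nl u4)) → τ L = some L)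
    (h2 : ∀ L, W.pos j (nl u1) ≤ W.pos j L → W.pos j L < W.pos j (nl u4) →
      L ≠ L0 ∧ η L = some (W.S.O.nxt j L)) : False := by
  have o := W.S.O.cyc j
  refine h.no_win_low (hb := some) k o (R := {nl u2}) (en := fun _ => nl u3) (n := nl u1)
    (q := nl u4) (o1.trans (o2.trans o3)) (by rintro _ rfl; exact o2)
    (by rintro _ rfl _ rfl d; exact absurd d (lt_irrefl _))
    (by rintro _ rfl d; exact d.1.not_gt o1)
    ⟨_, ⟨o1.trans (o2.trans o3), le_rfl, by rintro _ rfl d; exact d.2.not_gt o3⟩, t1.symm⟩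
    (fun u hu d1 d2 => Or.inl (t3 u ?_)) (by rintro _ rfl -; exact t2)
    (fun u hu _ => Or.inl (h2 u (o.pre_win hu).1 (o.pre_win hu).2.1).2)
    fun hu => absurd rfl (h2 _ (o.pre_win hu).1 (o.pre_win hu).2.1).1
  have a1 := hu.1
  have a2 := hu.2.1
  have a3 := hu.2.2 _ rfl
  have a4 : W.pos j u ≠ W.pos j (nl u2) := pos_ne d1
  have a5 : W.pos j u ≠ W.pos j (nl u4) := pos_ne d2
  grind

variable (W) in
/-- the upper nodes of the pairs on the routes to `a` and `c`, except at the levels `la`, `lb` -/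
def Pc (a c : N) (la lb : ℕ) (t : N) : Prop := W.F.lev t % 2 = 1 ∧ W.F.lev t < D ∧
  ((W.F.Anc t a ∧ W.F.lev t ≠ la) ∨ (W.F.Anc t c ∧ W.F.lev t ≠ lb))

open Classical in
/-- **Two routes are exchanged in a window.** -/
theorem swap_false (od : D % 2 = 1) (k : Cn L0 (some (nl a)) (some w) τ η) {la lb : ℕ}
    (ha : W.F.lev a = D) (hc : W.F.lev c = D) (tr : W.F.tree a ≠ W.F.tree c)
    (l1 : la % 2 = 1) (l2 : 3 ≤ la) (l3 : la + 2 < D) (m1 : lb % 2 = 1) (m2 : 3 ≤ lb)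
    (m3 : lb + 2 < D) (ne : L0 ≠ w)
    (o1 : W.pos j (nl (W.F.at' a la)) < W.pos j (nl (W.F.at' c lb)))
    (o2 : W.pos j (nl (W.F.at' c lb)) < W.pos j (nl (W.F.at' a (la + 1))))
    (o3 : W.pos j (nl (W.F.at' a (la + 1))) < W.pos j (nl (W.F.at' c (lb + 1))))
    (o4 : W.pos j (nl (W.F.at' c (lb + 1))) < W.pos j (nl a))
    (o5 : W.pos j (nl a) < W.pos j (nl c))
    (adj : ∀ t, W.Pc a c la lb t → W.pos j (nl t) < W.pos j (nl (W.F.kid t)) ∧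
      ∀ v, W.F.Anc v a ∨ W.F.Anc v c → W.pos j (nl t) ≤ W.pos j (nl v) →
        W.pos j (nl v) ≤ W.pos j (nl (W.F.kid t)) → v = t ∨ v = W.F.kid t)
    (out : ∀ L, L = L0 ∨ L = w → ∀ u v, W.F.Anc u a ∨ W.F.Anc u c → W.F.Anc v a ∨ W.F.Anc v c →
      W.pos j L < W.pos j (nl u) ∨ W.pos j (nl v) < W.pos j L)
    (h1 : ∀ L, η L = some (W.S.O.nxt j L)) (h2 : τ w = some (nl c))
    (h3 : ∀ v, W.F.Anc v a ∨ W.F.Anc v c → τ (nl v) = W.S.tB (nl v))
    (h4 : ∀ L, L ≠ w → (∀ v, W.F.Anc v a ∨ W.F.Anc v c → L ≠ nl v) → τ L = some L) : False := by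
  have : Nontrivial (Hub K N (Pt K N) r0) := ⟨_, _, ne⟩
  have dj : ∀ {v}, W.F.Anc v a → ¬W.F.Anc v c := fun d d' => tr (d.tree.symm.trans d'.tree)
  have an : ∀ {x}, W.F.lev x = D → ∀ l, 1 ≤ l → l ≤ D →
      W.F.Anc (W.F.at' x l) x ∧ W.F.lev (W.F.at' x l) = l := fun {x} d l d1 d2 =>
    ⟨Forest.anc_at x d1 (d2.trans d.ge), W.F.lev_at x d1 d2⟩
  have kd : ∀ {t}, W.Pc a c la lb t → W.F.Anc (W.F.kid t) a ∨ W.F.Anc (W.F.kid t) c :=
    fun {t} d => d.2.2.imp (fun f => f.1.kid d.1 fun g => d.2.1.ne (g ▸ ha))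
      fun f => f.1.kid d.1 fun g => d.2.1.ne (g ▸ hc)
  have nn : ∀ L, L = L0 ∨ L = w → ∀ v, W.F.Anc v a ∨ W.F.Anc v c → L ≠ nl v := fun L d v f g => by
    simpa [g] using out L d v v f f
  let z : ℕ → Hub K N (Pt K N) r0 := fun i => [L0, w, nl (W.F.at' a la), nl (W.F.at' c lb),
    nl (W.F.at' a (la + 1)), nl (W.F.at' c (lb + 1)), nl a, nl c].getD i L0
  let R : Set (Hub K N (Pt K N) r0) := {L | ∃ t, W.Pc a c la lb t ∧ L = nl t}
  let ρ : Hub K N (Pt K N) r0 → Cd := fun L => if ∃ t, L = nl t ∧ W.F.Anc t a ∧ la < W.F.lev t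
    then .i 4 else if ∃ t, L = nl t ∧ W.F.Anc t c ∧ lb < W.F.lev t then .i 5 else .c
  have ra : ∀ t, W.F.Anc t a → ρ (nl t) = if la < W.F.lev t then .i 4 else .c := fun t d => by
    simp [ρ, d, dj d]
  have rc : ∀ t, W.F.Anc t c → ρ (nl t) = if lb < W.F.lev t then .i 5 else .c := fun t d => by
    simp [ρ, d, mt dj (not_not.2 d)]
  have a2 := an ha la (by omega) (by omega)
  have a1 := an ha (la + 1) (by omega) (by omega)
  have b2 := an hc lb (by omega) (by omega)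
  have b1 := an hc (lb + 1) (by omega) (by omega)
  have up : ∀ x l, W.F.lev x = D → (∀ v, W.F.Anc v x → W.F.Anc v a ∨ W.F.Anc v c) →
      (∀ t, W.F.Anc t x → W.F.lev t ≠ l → W.F.lev t % 2 = 1 → W.F.lev t < D → W.Pc a c la lb t) →
      ∀ v, W.F.Anc v x → W.F.lev v % 2 = 1 → 3 ≤ W.F.lev v → W.F.lev v ≠ l + 2 →
      ∃ t, W.F.Anc t x ∧ W.F.lev t + 2 = W.F.lev v ∧
        Cls none some (W.S.O.nxt j) (W.pos j) R W.en ρ z 8 (τ (nl v)) (ρ (nl t)) :=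
    fun x l d f g v d1 d2 d3 d4 => by
      have p1 := W.F.lev_par (n := v) (by omega)
      have p2 := W.F.lev_par (n := W.F.par v) (by omega)
      have p3 := (Forest.anc_par (F := W.F) (n := W.F.par v) (by omega)).trans
        ((Forest.anc_par (by omega)).trans d1)
      have p4 := W.F.kid_par (n := W.F.par v) (Nat.even_iff.2 (by omega))
      have := (W.F.surj v).2.1
      have p5 := g _ p3 (by omega) (by omega) (by omega)
      refine ⟨_, p3, by omega, Or.inr (Or.inl ⟨_, ⟨_, p5, rfl⟩, rfl, _,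
        (h3 v (f v d1)).trans (tB_par (by omega)), ?_, ?_⟩)⟩
      · exact (adj _ p5).1.trans_eq (by rw [p4])
      · exact (congrArg (fun s => W.pos j (nl s)) p4).ge
  have ua := up a la ha (fun _ => Or.inl) fun t d1 d2 d3 d4 => ⟨d3, d4, Or.inl ⟨d1, d2⟩⟩
  have uc := up c lb hc (fun _ => Or.inr) fun t d1 d2 d3 d4 => ⟨d3, d4, Or.inr ⟨d1, d2⟩⟩
  have pa : ∀ {x l}, W.F.lev x = D → 1 ≤ l → l < D →
      W.S.tB (nl (W.F.at' x (l + 1))) = some (nl (W.F.at' x l)) := fun {x l} d d1 d2 => by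
    rw [tB_par (by rw [W.F.lev_at x (by omega) d2]; omega), W.F.par_at x d1 d2]
  have fr : ∀ v, W.F.Anc v a ∨ W.F.Anc v c → ¬W.Pc a c la lb v →
      (W.F.lev v % 2 = 0 → ¬W.Pc a c la lb (W.F.par v)) → ∀ s ∈ R,
      W.pos j (nl v) < W.pos j s ∨ W.pos j (W.en s) < W.pos j (nl v) := by
    rintro v d f g _ ⟨t, d1, rfl⟩
    by_contra d2
    rw [not_or, not_lt, not_lt] at d2
    rcases (adj t d1).2 v d d2.1 d2.2 with rfl | rfl
    · exact f d1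
    · exact g (by have := W.F.lev_kid d1.2.1; have := d1.1; omega) (by rwa [W.F.par_kid d1.2.1])
  have np : ∀ {v}, W.F.Anc v a → W.F.lev v = la → ¬W.Pc a c la lb v := fun d f g =>
    g.2.2.elim (fun g => g.2 f) fun g => dj d g.1
  have np' : ∀ {v}, W.F.Anc v c → W.F.lev v = lb → ¬W.Pc a c la lb v := fun d f g =>
    g.2.2.elim (fun g => dj g.1 d) fun g => g.2 f
  refine Tab.Sit.safe (Z := swT) (c := none) (hb := some) (nxt := W.S.O.nxt j) (pos := W.pos j)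
    (R := R) (en := W.en) (ρ := ρ) (z := z) ⟨⟨by simp [swT, List.range_succ], ?_, ?_, trivial⟩,
      W.S.O.cyc j, Option.some_injective _, by simp, ?_, ?_, fun i hi => ?_, fun i hi => ?_,
      fun i hi => Or.inl ?_, ?_, fun L d1 d2 d3 => ?_⟩ 0 _ _ swT_safe k (Or.inl rfl) (Or.inl rfl)
  · have s := fun L d => out L d _ _ (Or.inl a2.1) (Or.inr (.refl c))
    have o := o1.trans (o2.trans (o3.trans (o4.trans o5)))
    exact ⟨o1, o2, o3, o4, o5,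
      (s _ (Or.inl rfl)).imp (fun d => ⟨d, d.trans o⟩) fun d => ⟨o.trans d, d⟩,
      (s _ (Or.inr rfl)).imp (fun d => ⟨d, d.trans o⟩) fun d => ⟨o.trans d, d⟩⟩
  · have s := fun L d => (⟨nn L d _ (Or.inl a2.1), nn L d _ (Or.inr b2.1), nn L d _ (Or.inl a1.1),
      nn L d _ (Or.inr b1.1), nn L d _ (Or.inl (.refl a)), nn L d _ (Or.inr (.refl c))⟩ :
        _ ∧ _ ∧ _ ∧ _ ∧ _ ∧ _)
    obtain ⟨s1, s2, s3, s4, s5, s6⟩ := s _ (Or.inl rfl)
    exact ⟨ne, s1, s2, s3, s4, s5, s6, s _ (Or.inr rfl)⟩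
  · rintro _ ⟨t, d, rfl⟩
    exact (adj t d).1
  · rintro _ ⟨t, d, rfl⟩ _ ⟨t', d', rfl⟩ f
    refine not_le.1 fun g => ?_
    rcases (adj t d).2 t' (d'.2.2.imp And.left And.left) f.le g with rfl | rfl
    · exact lt_irrefl _ f
    · have := W.F.lev_kid d.2.1
      have := d.1
      have := d'.1
      omega
  · have s : ∀ L, L = L0 ∨ L = w → ∀ s ∈ R, W.pos j L < W.pos j s ∨ W.pos j (W.en s) < W.pos j L := by
      rintro L d _ ⟨t, f, rfl⟩
      exact out L d _ _ (f.2.2.imp And.left And.left) (kd f)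
    have hi : i < 8 := hi
    interval_cases i
    · exact s _ (Or.inl rfl)
    · exact s _ (Or.inr rfl)
    · exact fr _ (Or.inl a2.1) (np a2.1 a2.2) (by omega)
    · exact fr _ (Or.inr b2.1) (np' b2.1 b2.2) (by omega)
    · exact fr _ (Or.inl a1.1) (fun d => by have := d.1; omega) fun _ => by
        rw [W.F.par_at a (by omega) (by omega)]
        exact np a2.1 a2.2
    · exact fr _ (Or.inr b1.1) (fun d => by have := d.1; omega) fun _ => by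
        rw [W.F.par_at c (by omega) (by omega)]
        exact np' b2.1 b2.2
    · exact fr _ (Or.inl (.refl a)) (fun d => d.2.1.ne ha) (by omega)
    · exact fr _ (Or.inr (.refl c)) (fun d => d.2.1.ne hc) (by omega)
  · have hi : i < 8 := hi
    interval_cases i
    · exact Or.inl (h4 _ ne (nn _ (Or.inl rfl)))
    · exact Or.inl h2
    · obtain ⟨t, d1, d2, d3⟩ := ua _ a2.1 (by omega) (by omega) (by omega)
      rwa [ra t d1, if_neg (by omega)] at d3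
    · obtain ⟨t, d1, d2, d3⟩ := uc _ b2.1 (by omega) (by omega) (by omega)
      rwa [rc t d1, if_neg (by omega)] at d3
    · exact Or.inl ((h3 _ (Or.inl a1.1)).trans (pa ha (by omega) (by omega)))
    · exact Or.inl ((h3 _ (Or.inr b1.1)).trans (pa hc (by omega) (by omega)))
    · obtain ⟨t, d1, d2, d3⟩ := ua _ (.refl a) (by omega) (by omega) (by omega)
      rwa [ra t d1, if_pos (by omega)] at d3
    · obtain ⟨t, d1, d2, d3⟩ := uc _ (.refl c) (by omega) (by omega) (by omega)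
      rwa [rc t d1, if_pos (by omega)] at d3
  · exact h1 _
  · rintro _ ⟨t, d, rfl⟩
    have g := W.F.lev_kid d.2.1
    have g1 := (W.F.surj t).1
    have g2 := d.1
    refine ⟨by simp only [ρ]; split_ifs <;> rfl, ?_, h1 _, (h3 _ (kd d)).trans
      ((tB_par (by omega)).trans (by rw [W.F.par_kid d.2.1])), h1 _⟩
    by_cases g3 : W.F.lev t = 1
    · refine Or.inl ((h3 t (d.2.2.imp And.left And.left)).trans ((if_pos g3).trans ?_))
      rcases d.2.2 with f | f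
      exacts [by rw [ra t f.1, if_neg (by omega)]; rfl, by rw [rc t f.1, if_neg (by omega)]; rfl]
    rcases d.2.2 with f | f
    · by_cases g4 : W.F.lev t = la + 2
      · rw [ra t f.1, if_pos (by omega), h3 t (Or.inl f.1), ← f.1.2, g4]
        exact Or.inl (pa ha (by omega) (by omega))
      · obtain ⟨t', d1, d2, d3⟩ := ua t f.1 g2 (by omega) g4
        have := f.2
        rwa [ra t' d1, if_congr (show la < W.F.lev t' ↔ la < W.F.lev t by omega) rfl rfl,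
          ← ra t f.1] at d3
    · by_cases g4 : W.F.lev t = lb + 2
      · rw [rc t f.1, if_pos (by omega), h3 t (Or.inr f.1), ← f.1.2, g4]
        exact Or.inl (pa hc (by omega) (by omega))
      · obtain ⟨t', d1, d2, d3⟩ := uc t f.1 g2 (by omega) g4
        have := f.2
        rwa [rc t' d1, if_congr (show lb < W.F.lev t' ↔ lb < W.F.lev t by omega) rfl rfl,
          ← rc t f.1] at d3
  · refine ⟨⟨L, h4 L (d1 1 (by decide)) ?_, .rfl⟩, Or.inl (h1 L)⟩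
    rintro v d rfl
    have s : ∀ x l, W.F.lev x = D → W.F.Anc v x → v ≠ x → v ≠ W.F.at' x l → v ≠ W.F.at' x (l + 1) →
        (∀ t, W.F.Anc t x → W.F.lev t ≠ l → W.F.lev t % 2 = 1 → W.F.lev t < D → W.Pc a c la lb t) →
        False := fun x l f f1 f2 f3 f4 g => by
      have := mt f1.eq f2
      rcases Nat.mod_two_eq_zero_or_one (W.F.lev v) with o | o
      · have l2 : 2 ≤ W.F.lev v := W.F.tre.two_le o
        have := W.F.lev_par l2
        refine d3 _ ⟨_, g _ ((Forest.anc_par l2).trans f1) (fun i => f4 ?_) (by omega) (by omega),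
          rfl⟩ (congrArg nl (W.F.kid_par (Nat.even_iff.2 o)).symm)
        rw [← f1.2, ← this, i]
      · exact d2 ⟨v, g v f1 (fun i => f3 (by rw [← f1.2, i])) o (by omega), rfl⟩
    rcases d with d | d
    · exact s a la ha d (fun i => d1 6 (by decide) (congrArg nl i))
        (fun i => d1 2 (by decide) (congrArg nl i)) (fun i => d1 4 (by decide) (congrArg nl i))
        fun t d1 d2 d3 d4 => ⟨d3, d4, Or.inl ⟨d1, d2⟩⟩
    · exact s c lb hc d (fun i => d1 7 (by decide) (congrArg nl i))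
        (fun i => d1 3 (by decide) (congrArg nl i)) (fun i => d1 5 (by decide) (congrArg nl i))
        fun t d1 d2 d3 d4 => ⟨d3, d4, Or.inr ⟨d1, d2⟩⟩

end Wd

/-! ### the windows -/

theorem winZ_dig {p : ZMod 12} {c : ZMod 3} {l : ℕ} {s : ℕ × ℕ} (h : winZ p c l = some s) :
    ∃ i < 4, ∃ u < 3, ∃ t < 2, l = 7 + 6 * i + 2 * u + t ∧
      s.1 = 36 * p.val + 9 * i + 3 * c.val + u ∧ ((i = 0 ∧ p.val % 3 ≠ 2 ∧ s.2 = 2 * t) ∨
        ((i ≠ 0 ∨ p.val % 3 = 2) ∧ s.2 = 1 + 3 * t)) := by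
  have k : ∀ i : Fin 2, ![0, 2] i = 2 * i.val ∧ ![1, 4] i = 1 + 3 * i.val := by decide
  unfold winZ at h
  split_ifs at h with c1 c2 <;> obtain rfl := Option.some.inj h <;>
    refine ⟨_, by omega, _, by omega, (l - 7) % 2, by omega, by omega, rfl, ?_⟩
  · exact Or.inl ⟨by omega, c2.2, (k (Fin.ofNat 2 (l - 7))).1⟩
  · exact Or.inr ⟨by omega, (k (Fin.ofNat 2 (l - 7))).2⟩

theorem winL_dig {p : ZMod 12} {c : ZMod 3} {l : ℕ} {s : ℕ × ℕ} (h : winL p c l = some s) :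
    ∃ i < 4, ∃ u < 3, ∃ t < 4, l = 7 + 12 * i + 4 * u + t ∧
      s.1 = 36 * ((p.val + (i + 1)) % 12) + 9 * i + 3 * u + c.val ∧
      ((i = 0 ∧ (p.val + 1) % 3 ≠ 2 ∧ ((t < 2 ∧ s.2 = 1 + 2 * t) ∨ (2 ≤ t ∧ s.2 = 6 + t))) ∨
        ((i ≠ 0 ∨ (p.val + 1) % 3 = 2) ∧
          ((t < 2 ∧ s.2 = 3 + 2 * t) ∨ (2 ≤ t ∧ s.2 + 4 = 2 * t)))) := by
  have k : ∀ p : ZMod 12, (p + 1).val % 3 = (p.val + 1) % 3 := by decide
  have k' : ∀ i : Fin 4, ((i.val < 2 ∧ ![1, 3, 8, 9] i = 1 + 2 * i.val) ∨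
      (2 ≤ i.val ∧ ![1, 3, 8, 9] i = 6 + i.val)) ∧ ((i.val < 2 ∧ ![3, 5, 0, 2] i = 3 + 2 * i.val) ∨
        (2 ≤ i.val ∧ ![3, 5, 0, 2] i + 4 = 2 * i.val)) := by decide
  unfold winL at h
  rw [k, ZMod.val_add, ZMod.val_natCast, Nat.add_mod_mod] at h
  split_ifs at h with c1 c2 <;> obtain rfl := Option.some.inj h <;>
    refine ⟨_, by omega, _, by omega, (l - 7) % 4, by omega, by omega, rfl, ?_⟩
  · exact Or.inl ⟨by omega, c2.2, (k' (Fin.ofNat 4 (l - 7))).1⟩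
  · exact Or.inr ⟨by omega, (k' (Fin.ofNat 4 (l - 7))).2⟩

theorem win_dig {x y i i' a a' u u' : ℕ} (h : 36 * x + 9 * i + 3 * a + u = 36 * y + 9 * i' + 3 * a' + u')
    (h1 : i < 4) (h2 : i' < 4) (h3 : a < 3) (h4 : a' < 3) (h5 : u < 3) (h6 : u' < 3) :
    x = y ∧ i = i' ∧ a = a' ∧ u = u' := by
  obtain rfl : u = u' := by omega
  obtain rfl : a = a' := by omega
  omega

theorem winZ_ex (p : ZMod 12) (c : ZMod 3) {l : ℕ} (h1 : 7 ≤ l) (h2 : l < 31) :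
    ∃ s, winZ p c l = some s := ⟨_, if_pos ⟨h1, h2⟩⟩

theorem winL_ex (p : ZMod 12) (c : ZMod 3) {l : ℕ} (h1 : 7 ≤ l) (h2 : l < 55) :
    ∃ s, winL p c l = some s := ⟨_, if_pos ⟨h1, h2⟩⟩

namespace Fw

/-- the two labels of a hot window -/
structure Hw (V : Fw K N r r0 q D e b) (j : K) (f : Bool) (p : ZMod 12) (d : ℕ) (ca cc : ZMod 3)
    (a c : N) : Prop where
  ta : (V.F.tree a).1 = (.hS (j, f) (p + (d + 1 : ℕ)) ca, .Z)
  tc : (V.F.tree c).1 = (.tS (j, f) p cc, .H)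
  la : V.F.lev a = D
  lc : V.F.lev c = D
  le : d ≤ 3

variable {V : Fw K N r r0 q D e b} {j : K} {f : Bool} {p : ZMod 12} {d : ℕ} {ca cc : ZMod 3}
  {a c u v x t : N} {L : Hub K N (Pt K N) r0}

/-- a world of the stage is an interval -/
theorem wor_itv (hu : V.W.S.wor u = (j, f)) (hv : V.W.S.wor v = (j, f))
    (h1 : V.W.pos j (nl u) ≤ V.W.pos j L) (h2 : V.W.pos j L ≤ V.W.pos j (nl v)) :
    ∃ x, V.W.Bk j L x ∧ V.W.S.wor x = (j, f) := by
  obtain ⟨x, a1, a2, a3⟩ := Sw.btw (.self _ j u) (.self _ j v) (Sw.fam_of_wor (hu.trans hv.symm))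
    h1 h2
  have b2 := Lay.le_of_le a2
  have b3 := Lay.le_of_le a3
  have g : ∀ {u}, V.W.S.wor u = (j, f) → ((V.L j).dt u).gr = cond f 2 1 := fun {u} h => by
    rw [L_dt, td_gr_fz (T := V.F.tree u) (j := j) (congrArg Prod.fst h),
      show (V.F.tree u).ty.wor = _ from h]
  have g1 : ((V.L j).dt x).gr = cond f 2 1 := by
    rw [g hu] at b2
    rw [g hv] at b3
    unfold Fw.L
    omega
  have s : (V.F.tree x).stg = j := by_contra fun s => by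
    rw [L_dt, td_gr s] at g1
    cases f <;> simp at g1
  rw [L_dt, td_gr_fz s] at g1
  refine ⟨x, a1, Prod.ext s ?_⟩
  show (V.F.tree x).ty.wor.2 = f
  revert g1
  cases f <;> cases (V.F.tree x).ty.wor.2 <;> simp

namespace Hw

variable (H : V.Hw j f p d ca cc a c)
include H

theorem da (h : V.F.Anc v a) :
    (V.L j).dt v = (V.par j).tdW f 3 (p + (d + 1 : ℕ)).val (winZ (p + (d + 1 : ℕ)) ca) := by
  rw [L_dt, h.tree, td_Z H.ta]

theorem dc (h : V.F.Anc v c) : (V.L j).dt v = (V.par j).tdW f 4 p.val (winL p cc) := by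
  rw [L_dt, h.tree, td_L H.tc]

theorem wa (h : V.F.Anc v a) : (V.L j).wn v = winZ (p + (d + 1 : ℕ)) ca (V.F.lev v) := by
  rw [Lay.wn, H.da h]
  rfl

theorem wc (h : V.F.Anc v c) : (V.L j).wn v = winL p cc (V.F.lev v) := by
  rw [Lay.wn, H.dc h]
  rfl

theorem wor (h : V.F.Anc v a ∨ V.F.Anc v c) : V.W.S.wor v = (j, f) := by
  show (V.F.tree v).1.1.wor = _
  rcases h with h | h
  exacts [by rw [h.tree, H.ta]; rfl, by rw [h.tree, H.tc]; rfl]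

theorem gz (h : V.F.Anc v a ∨ V.F.Anc v c) :
    ((V.L j).dt v).gr = cond f 2 1 ∧ ((V.L j).dt v).zw = 0 := by
  rcases h with h | h
  exacts [H.da h ▸ ⟨rfl, rfl⟩, H.dc h ▸ ⟨rfl, rfl⟩]

theorem lt {s s' : ℕ × ℕ} (h : V.F.Anc u a ∨ V.F.Anc u c) (h' : V.F.Anc v a ∨ V.F.Anc v c)
    (w : (V.L j).wn u = some s) (w' : (V.L j).wn v = some s') (o1 : s.1 = s'.1) (o2 : s.2 < s'.2) :
    V.W.pos j (nl u) < V.W.pos j (nl v) :=
  Sw.nl_lt.2 ((Lay.win_lt w w' ((H.gz h).1.trans (H.gz h').1.symm)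
    ((H.gz h).2.trans (H.gz h').2.symm)).2 (Or.inr ⟨o1, Or.inl o2⟩))

/-- a node of the routes between two nodes of one window -/
theorem btw {s s' : ℕ × ℕ} (h : V.F.Anc u a ∨ V.F.Anc u c) (h' : V.F.Anc v a ∨ V.F.Anc v c)
    (w : (V.L j).wn u = some s) (w' : (V.L j).wn v = some s') (o : s.1 = s'.1)
    (hx : V.F.Anc x a ∨ V.F.Anc x c) (h1 : V.W.pos j (nl u) ≤ V.W.pos j (nl x))
    (h2 : V.W.pos j (nl x) ≤ V.W.pos j (nl v)) : ∃ z : ℕ × ℕ, z.1 = s.1 ∧ s.2 ≤ z.2 ∧ z.2 ≤ s'.2 ∧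
      ((V.F.Anc x a ∧ winZ (p + (d + 1 : ℕ)) ca (V.F.lev x) = some z) ∨
        (V.F.Anc x c ∧ winL p cc (V.F.lev x) = some z)) := by
  obtain ⟨-, -, w1, o1, a1, a2, a3⟩ := Lay.win_between w w' ((H.gz h).1.trans (H.gz h').1.symm)
    ((H.gz h).2.trans (H.gz h').2.symm) (Sw.nl_le.1 h1) (Sw.nl_le.1 h2)
  exact ⟨(w1, o1), by omega, by omega, by omega,
    hx.imp (fun g => ⟨g, (H.wa g).symm.trans a1⟩) fun g => ⟨g, (H.wc g).symm.trans a1⟩⟩

theorem val : (p + (d + 1 : ℕ)).val = (p.val + (d + 1)) % 12 := by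
  rw [ZMod.val_add, ZMod.val_natCast, Nat.add_mod_mod]

theorem out (h : ∀ x, V.W.Bk j L x → V.W.S.wor x ≠ (j, f)) (hu : V.F.Anc u a ∨ V.F.Anc u c)
    (hv : V.F.Anc v a ∨ V.F.Anc v c) :
    V.W.pos j L < V.W.pos j (nl u) ∨ V.W.pos j (nl v) < V.W.pos j L := by
  by_contra g
  rw [not_or, not_lt, not_lt] at g
  obtain ⟨x, a1, a2⟩ := wor_itv (H.wor hu) (H.wor hv) g.1 g.2
  exact h x a1 a2

theorem an {x : N} (h : V.F.lev x = D) {l : ℕ} (h1 : 1 ≤ l) (h2 : l ≤ 60) :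
    V.F.Anc (V.F.at' x l) x ∧ V.F.lev (V.F.at' x l) = l :=
  have : l ≤ D := by have := V.hD; omega
  ⟨Forest.anc_at x h1 (this.trans h.ge), V.F.lev_at x h1 this⟩

/-- the pairs outside the common window -/
theorem adj (z : d = 0) (s : (p.val + 1) % 3 ≠ 2)
    (h : V.W.Pc a c (7 + 2 * cc.val) (7 + 4 * ca.val) t) :
    V.W.pos j (nl t) < V.W.pos j (nl (V.F.kid t)) ∧
      ∀ v, V.F.Anc v a ∨ V.F.Anc v c → V.W.pos j (nl t) ≤ V.W.pos j (nl v) →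
        V.W.pos j (nl v) ≤ V.W.pos j (nl (V.F.kid t)) → v = t ∨ v = V.F.kid t := by
  obtain ⟨o, l, h⟩ := h
  rw [W_F] at o l h
  have g := V.F.lev_kid l
  have ps : V.W.Pass j t → _ ∧ ∀ v, V.F.Anc v a ∨ V.F.Anc v c → _ → _ → v = t ∨ v = V.F.kid t :=
    fun k => ⟨k.lt, fun v _ a1 a2 => (k.btw (nl v) a1 a2).imp (fun i => (Wd.bk_nl.1 i).symm)
      fun i => (Wd.bk_nl.1 i).symm⟩
  have v1 := H.val
  have := ZMod.val_lt p
  have := ZMod.val_lt ca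
  have := ZMod.val_lt cc
  have eq : ∀ {x v}, V.F.Anc t x → V.F.Anc (V.F.kid t) x → V.F.Anc v x →
      V.F.lev v = V.F.lev t ∨ V.F.lev v = V.F.lev t + 1 → v = t ∨ v = V.F.kid t :=
    fun a1 a2 a3 => Or.imp (fun i => (a3.of_le a1 i.le).eq i.ge)
      fun i => (a3.of_le a2 (by omega)).eq (by omega)
  subst z
  rcases h with ⟨h, ne⟩ | ⟨h, ne⟩
  · have k := h.kid o fun i => l.ne (i ▸ H.la)
    by_cases w : 7 ≤ V.F.lev t ∧ V.F.lev t < 31
    swap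
    · exact ps (Sw.pass_of V.od (H.da h) o l (if_neg w) (if_neg (by rw [S_F]; omega))
        (Or.inr (Or.inl rfl)))
    obtain ⟨s1, w1⟩ := winZ_ex (p + (0 + 1 : ℕ)) ca w.1 w.2
    obtain ⟨s2, w2⟩ := winZ_ex (p + (0 + 1 : ℕ)) ca (l := V.F.lev (V.F.kid t)) (by omega) (by omega)
    obtain ⟨i1, _, u1, _, t1, _, e1, f1, g1⟩ := winZ_dig w1
    obtain ⟨i2, _, u2, _, t2, _, e2, f2, g2⟩ := winZ_dig w2
    obtain ⟨rfl, rfl, rfl, rfl⟩ : t1 = 0 ∧ t2 = 1 ∧ u1 = u2 ∧ i1 = i2 := by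
      clear f1 f2 g1 g2 v1
      omega
    rw [← H.wa h] at w1
    rw [← H.wa k] at w2
    refine ⟨H.lt (Or.inl h) (Or.inl k) w1 w2 (f1.trans f2.symm) (by omega), fun v a0 a1 a2 => ?_⟩
    obtain ⟨s, b1, b2, b3, ⟨b4, b5⟩ | ⟨b4, b5⟩⟩ :=
      H.btw (Or.inl h) (Or.inl k) w1 w2 (f1.trans f2.symm) a0 a1 a2
    · obtain ⟨i3, _, u3, _, t3, _, e3, f3, -⟩ := winZ_dig b5
      have := win_dig (f3.symm.trans (b1.trans f1)) ‹_› ‹_› ‹_› ‹_› ‹_› ‹_›
      exact eq h k b4 (by omega)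
    · obtain ⟨i3, _, u3, _, t3, _, e3, f3, -⟩ := winL_dig b5
      have := win_dig (f3.symm.trans (b1.trans f1)) ‹_› ‹_› ‹_› ‹_› ‹_› ‹_›
      clear f1 f2 f3 g1 g2
      omega
  · have k := h.kid o fun i => l.ne (i ▸ H.lc)
    by_cases w : 7 ≤ V.F.lev t ∧ V.F.lev t < 55
    swap
    · exact ps (Sw.pass_of V.od (H.dc h) o l (if_neg w) (if_neg (by rw [S_F]; omega))
        (Or.inr (Or.inl rfl)))
    obtain ⟨s1, w1⟩ := winL_ex p cc w.1 w.2
    obtain ⟨s2, w2⟩ := winL_ex p cc (l := V.F.lev (V.F.kid t)) (by omega) (by omega)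
    obtain ⟨i1, _, u1, _, t1, _, e1, f1, g1⟩ := winL_dig w1
    obtain ⟨i2, _, u2, _, t2, _, e2, f2, g2⟩ := winL_dig w2
    obtain ⟨z, rfl, rfl, rfl⟩ : (t1 = 0 ∨ t1 = 2) ∧ t2 = t1 + 1 ∧ u1 = u2 ∧ i1 = i2 := by
      clear f1 f2 g1 g2 v1
      omega
    rw [← H.wc h] at w1
    rw [← H.wc k] at w2
    refine ⟨H.lt (Or.inr h) (Or.inr k) w1 w2 (f1.trans f2.symm) (by clear f1 f2; omega),
      fun v a0 a1 a2 => ?_⟩
    obtain ⟨s, b1, b2, b3, ⟨b4, b5⟩ | ⟨b4, b5⟩⟩ :=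
      H.btw (Or.inr h) (Or.inr k) w1 w2 (f1.trans f2.symm) a0 a1 a2
    · obtain ⟨i3, _, u3, _, t3, _, e3, f3, g3⟩ := winZ_dig b5
      have := win_dig (f3.symm.trans (b1.trans f1)) ‹_› ‹_› ‹_› ‹_› ‹_› ‹_›
      obtain rfl : i1 = 0 := by clear f1 f2 f3 g1 g2 g3; omega
      clear f1 f2 f3
      omega
    · obtain ⟨i3, _, u3, _, t3, _, e3, f3, g3⟩ := winL_dig b5
      obtain ⟨-, rfl, rfl, -⟩ := win_dig (f3.symm.trans (b1.trans f1)) ‹_› ‹_› ‹_› ‹_› ‹_› ‹_›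
      exact eq h k b4 (by clear f1 f2 f3; omega)

theorem tr : V.F.tree a ≠ V.F.tree c := fun h => by simpa [h, H.tc] using H.ta

theorem lab_lt : V.W.pos j (nl a) < V.W.pos j (nl c) ∧
    ∀ v, V.F.Anc v a ∨ V.F.Anc v c → (V.L j).wn v ≠ none → V.W.pos j (nl v) < V.W.pos j (nl a) := by
  have := V.hD
  have da := H.da (.refl a)
  have dc := H.dc (.refl c)
  have fa : (V.L j).fm a = 1 := Lay.fm_lab.2
    ⟨(H.wa (.refl a)).trans (if_neg (by have := H.la; omega)), H.la, da ▸ rfl⟩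
  have fc : (V.L j).fm c = 1 := Lay.fm_lab.2
    ⟨(H.wc (.refl c)).trans (if_neg (by have := H.lc; omega)), H.lc, dc ▸ rfl⟩
  refine ⟨Sw.nl_lt.2 (Lay.lt_of_zo (by rw [da, dc]; rfl) ?_), fun v h w => Sw.nl_lt.2
    (Lay.lt_of_zo ((H.gz h).1.trans (H.gz (Or.inl (.refl a))).1.symm) ?_)⟩
  · rw [Lay.zo_lab fa, Lay.zo_lab fc, da, dc]
    exact Nat.lt_succ_self 3
  · rw [Lay.zo_lab fa, Lay.zo_win (Lay.fm_win.2 w), (H.gz h).2, da]
    exact Nat.succ_pos 2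

theorem cell_a {u t : ℕ} (hu : u = cc.val) (ht : t < 2) : ∃ o,
    (V.L j).wn (V.F.at' a (7 + 6 * d + 2 * u + t)) =
      some (36 * ((p.val + (d + 1)) % 12) + 9 * d + 3 * ca.val + cc.val, o) ∧
    ((d = 0 ∧ (p.val + 1) % 3 ≠ 2 ∧ o = 2 * t) ∨ ((d ≠ 0 ∨ (p.val + 1) % 3 = 2) ∧ o = 1 + 3 * t)) := by
  have := H.le
  have := ZMod.val_lt cc
  have v := H.val
  have a := H.an H.la (l := 7 + 6 * d + 2 * u + t) (by omega) (by omega)
  obtain ⟨s, w⟩ := winZ_ex (p + (d + 1 : ℕ)) ca (l := 7 + 6 * d + 2 * u + t) (by omega) (by omega)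
  obtain ⟨i, _, u', _, t', _, e1, f1, g1⟩ := winZ_dig w
  obtain ⟨rfl, rfl, rfl⟩ : t' = t ∧ u' = u ∧ i = d := by clear f1 g1 v; omega
  refine ⟨s.2, by rw [H.wa a.1, a.2, w, ← v, ← hu, ← f1], ?_⟩
  clear f1
  omega

theorem cell_c {u t : ℕ} (hu : u = ca.val) (ht : t < 4) : ∃ o,
    (V.L j).wn (V.F.at' c (7 + 12 * d + 4 * u + t)) =
      some (36 * ((p.val + (d + 1)) % 12) + 9 * d + 3 * ca.val + cc.val, o) ∧
    ((d = 0 ∧ (p.val + 1) % 3 ≠ 2 ∧ ((t < 2 ∧ o = 1 + 2 * t) ∨ (2 ≤ t ∧ o = 6 + t))) ∨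
      ((d ≠ 0 ∨ (p.val + 1) % 3 = 2) ∧ ((t < 2 ∧ o = 3 + 2 * t) ∨ (2 ≤ t ∧ o + 4 = 2 * t)))) := by
  have := H.le
  have := ZMod.val_lt ca
  have a := H.an H.lc (l := 7 + 12 * d + 4 * u + t) (by omega) (by omega)
  obtain ⟨s, w⟩ := winL_ex p cc (l := 7 + 12 * d + 4 * u + t) (by omega) (by omega)
  obtain ⟨i, _, u', _, t', _, e1, f1, g1⟩ := winL_dig w
  obtain ⟨rfl, rfl, rfl⟩ : t' = t ∧ u' = u ∧ i = d := by clear f1 g1; omega
  exact ⟨s.2, by rw [H.wc a.1, a.2, w, ← hu, ← f1], g1⟩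

variable {L0 w : Hub K N (Pt K N) r0} {x0 y0 : Option (Hub K N (Pt K N) r0)}
  {τ η : Hub K N (Pt K N) r0 → Option (Hub K N (Pt K N) r0)}

theorem swap (z : d = 0) (s : (p.val + 1) % 3 ≠ 2) (k : Cn L0 (some (nl a)) (some w) τ η)
    (ne : L0 ≠ w) (out : ∀ L, L = L0 ∨ L = w → ∀ x, V.W.Bk j L x → V.W.S.wor x ≠ (j, f))
    (h1 : ∀ L, η L = some (V.W.S.O.nxt j L)) (h2 : τ w = some (nl c))
    (h3 : ∀ v, V.F.Anc v a ∨ V.F.Anc v c → τ (nl v) = V.W.S.tB (nl v))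
    (h4 : ∀ L, L ≠ w → (∀ v, V.F.Anc v a ∨ V.F.Anc v c → L ≠ nl v) → τ L = some L) : False := by
  have := V.hD
  have := ZMod.val_lt ca
  have := ZMod.val_lt cc
  obtain ⟨o1, w1, g1⟩ := H.cell_a rfl (t := 0) (by omega)
  obtain ⟨o2, w2, g2⟩ := H.cell_c rfl (t := 0) (by omega)
  obtain ⟨o3, w3, g3⟩ := H.cell_a rfl (t := 1) (by omega)
  obtain ⟨o4, w4, g4⟩ := H.cell_c rfl (t := 1) (by omega)
  have adj := fun t => H.adj (t := t) z s
  subst z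
  have a1 := (H.an H.la (l := 7 + 2 * cc.val) (by omega) (by omega)).1
  have a2 := (H.an H.lc (l := 7 + 4 * ca.val) (by omega) (by omega)).1
  have a3 := (H.an H.la (l := 7 + 2 * cc.val + 1) (by omega) (by omega)).1
  have a4 := (H.an H.lc (l := 7 + 4 * ca.val + 1) (by omega) (by omega)).1
  exact Wd.swap_false (W := V.W) V.od k H.la H.lc H.tr (by omega) (by omega) (by omega) (by omega)
    (by omega) (by omega) ne (H.lt (Or.inl a1) (Or.inr a2) w1 w2 rfl (by omega))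
    (H.lt (Or.inr a2) (Or.inl a3) w2 w3 rfl (by omega))
    (H.lt (Or.inl a3) (Or.inr a4) w3 w4 rfl (by omega))
    (H.lab_lt.2 _ (Or.inr a4) (w4.trans_ne (by simp))) H.lab_lt.1 adj
    (fun L g u v => H.out (out L g)) h1 h2 h3 h4

theorem shut (s : d ≠ 0 ∨ (p.val + 1) % 3 = 2) (h : Ends (2 * r + 9) V.W.S.hang x0 y0 τ η)
    (k : Cn L0 x0 y0 τ η) (h1 : ∀ L x, V.W.Bk j L x → V.W.S.wor x = (j, f) →
      L ≠ L0 ∧ L ≠ w ∧ η L = some (V.W.S.O.nxt j L))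
    (h3 : ∀ v, V.F.Anc v a ∨ V.F.Anc v c → τ (nl v) = V.W.S.tB (nl v))
    (h4 : ∀ L, L ≠ w → (∀ v, V.F.Anc v a ∨ V.F.Anc v c → L ≠ nl v) → τ L = some L) : False := by
  have := V.hD
  have := H.le
  have := ZMod.val_lt ca
  have := ZMod.val_lt cc
  have := ZMod.val_lt p
  have v1 := H.val
  obtain ⟨o1, w1, g1⟩ := H.cell_c rfl (t := 2) (by omega)
  obtain ⟨o2, w2, g2⟩ := H.cell_a rfl (t := 0) (by omega)
  obtain ⟨o3, w3, g3⟩ := H.cell_a rfl (t := 1) (by omega)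
  obtain ⟨o4, w4, g4⟩ := H.cell_c rfl (t := 1) (by omega)
  obtain ⟨rfl, rfl, rfl, rfl⟩ : o1 = 0 ∧ o2 = 1 ∧ o3 = 4 ∧ o4 = 5 := by omega
  clear g1 g2 g3 g4
  have a1 := H.an H.lc (l := 7 + 12 * d + 4 * ca.val + 2) (by omega) (by omega)
  have a2 := H.an H.la (l := 7 + 6 * d + 2 * cc.val) (by omega) (by omega)
  have a3 := H.an H.la (l := 7 + 6 * d + 2 * cc.val + 1) (by omega) (by omega)
  have a4 := H.an H.lc (l := 7 + 12 * d + 4 * ca.val + 1) (by omega) (by omega)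
  have o1 := H.lt (Or.inr a1.1) (Or.inl a2.1) w1 w2 rfl zero_lt_one
  have o2 := H.lt (Or.inl a2.1) (Or.inl a3.1) w2 w3 rfl (by omega)
  have o3 := H.lt (Or.inl a3.1) (Or.inr a4.1) w3 w4 rfl (by omega)
  have zn := fun L b1 b2 => (wor_itv (L := L) (H.wor (Or.inr a1.1)) (H.wor (Or.inr a4.1)) b1 b2).elim
    fun x b3 => h1 L x b3.1 b3.2
  have eq : ∀ {x u v}, V.F.Anc u x → V.F.Anc v x → V.F.lev u = V.F.lev v → u = v :=
    fun b1 b2 b3 => (b1.of_le b2 b3.le).eq b3.ge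
  refine Wd.shut_false h k o1 o2 o3
    ((h3 _ (Or.inr a1.1)).trans ((Wd.tB_par (by rw [W_F]; omega)).trans
      (by rw [W_F, V.F.par_at c (by omega) (by omega)])))
    ((h3 _ (Or.inl a3.1)).trans ((Wd.tB_par (by rw [W_F]; omega)).trans
      (by rw [W_F, V.F.par_at a (by omega) (by omega)])))
    (fun L g => h4 L (g.elim (fun g => (zn L g.1.le (g.2.trans (o2.trans o3)).le).2.1)
      fun g => (zn L ((o1.trans o2).trans g.1).le g.2.le).2.1) ?_)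
    fun L b1 b2 => (zn L b1 b2.le).imp_right And.right
  rintro v b0 rfl
  rcases g with g | g
  · obtain ⟨s, b1, b2, b3, ⟨b4, b5⟩ | ⟨b4, b5⟩⟩ :=
      H.btw (Or.inr a1.1) (Or.inl a2.1) w1 w2 rfl b0 g.1.le g.2.le
    · obtain ⟨i3, _, u3, _, t3, _, e3, f3, g3⟩ := winZ_dig b5
      obtain ⟨-, rfl, -, rfl⟩ := win_dig (f3.symm.trans b1) ‹_› (by omega) ‹_› ‹_› ‹_› ‹_›
      exact g.2.ne (by rw [eq b4 a2.1 (by clear f3 b1; omega)])
    · obtain ⟨i3, _, u3, _, t3, _, e3, f3, g3⟩ := winL_dig b5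
      obtain ⟨-, rfl, rfl, -⟩ := win_dig (f3.symm.trans b1) ‹_› (by omega) ‹_› ‹_› ‹_› ‹_›
      exact g.1.ne (by rw [eq b4 a1.1 (by clear f3 b1; omega)])
  · obtain ⟨s, b1, b2, b3, ⟨b4, b5⟩ | ⟨b4, b5⟩⟩ :=
      H.btw (Or.inl a3.1) (Or.inr a4.1) w3 w4 rfl b0 g.1.le g.2.le
    · obtain ⟨i3, _, u3, _, t3, _, e3, f3, g3⟩ := winZ_dig b5
      obtain ⟨-, rfl, -, rfl⟩ := win_dig (f3.symm.trans b1) ‹_› (by omega) ‹_› ‹_› ‹_› ‹_›
      exact g.1.ne (by rw [eq b4 a3.1 (by clear f3 b1; omega)])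
    · obtain ⟨i3, _, u3, _, t3, _, e3, f3, g3⟩ := winL_dig b5
      obtain ⟨-, rfl, rfl, -⟩ := win_dig (f3.symm.trans b1) ‹_› (by omega) ‹_› ‹_› ‹_› ‹_›
      exact g.2.ne (by rw [eq b4 a4.1 (by clear f3 b1; omega)])

end Hw

/-- **Hot windows.** -/
theorem hot (V : Fw K N r r0 q D e b) (j : K) (e0 : Pt K N × Fin 3) (n : ℕ) (hn : n ≤ 3) (a c : N)
    (ha : a = V.W.S.sn (V.W.S.O.sl j e0) true .Z)
    (hc : c = V.W.S.sn (V.W.S.O.alt j j ((V.W.S.O.gam j j ^ n) e0)) false .H) :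
    V.W.Hot j e0 n a c := by
  intro τ η h k h1 h2 h3 h4 h5
  have fo : ∀ i : ℕ, V.W.S.fam j ((V.W.S.O.gam j j ^ i) e0).1 = V.W.S.fam j e0.1 :=
    fun i => V.W.B.rings.fo_gam i
  have ix : ∀ m : ℕ, V.W.S.idx j ((V.W.S.O.gam j j ^ m) e0) + m = V.W.S.idx j e0 := fun m => by
    induction m with
    | zero => simp
    | succ m ih =>
      rw [← ih, pow_succ', Equiv.Perm.mul_apply, Nat.cast_succ, add_comm (m : ZMod 12), ← add_assoc,
        ← V.W.S.idx_bt, Mac.gam_self, Equiv.Perm.inv_def,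
        Equiv.apply_symm_apply]
  rw [Mac.alt_self] at k hc h3 h5
  have H : V.Hw j (V.W.S.fam j e0.1) (V.W.S.idx j ((V.W.S.O.gam j j ^ n) e0) - 1) n
      (V.W.S.pc j e0.1) (V.W.S.pc j ((V.W.S.O.gam j j ^ n) e0).1) a c := by
    refine ⟨?_, ?_, ha ▸ V.W.S.lev_sn V.D_pos .., hc ▸ V.W.S.lev_sn V.D_pos .., hn⟩
    · rw [ha, show V.F.tree _ = _ from V.W.S.tree_sn V.D_pos .., Pre.typ, Mac.dA_sl, Nat.cast_succ,
        show ∀ s t : ZMod 12, s - 1 + (t + 1) = s + t from fun _ _ => by ring, ix]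
      rfl
    · rw [hc, show V.F.tree _ = _ from V.W.S.tree_sn V.D_pos .., ← fo n]
      rfl
  have u : ∀ {v}, V.F.Anc v a ∨ V.F.Anc v c ↔ V.W.F.tre.Up a v ∨ V.W.F.tre.Up c v :=
    (or_congr Forest.up_iff Forest.up_iff).symm
  by_cases s : n ≠ 0 ∨ ((V.W.S.idx j ((V.W.S.O.gam j j ^ n) e0) - 1).val + 1) % 3 = 2
  · refine H.shut s h (by rwa [Mac.alt_self]) (fun L x b1 b2 => ⟨?_, ?_, h2 L fun i _ _ => ?_⟩)
      (fun v g => h4 v (u.1 g)) fun L g g' => h5 L g fun v b => g' v (u.2 b)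
    all_goals rintro rfl
    exacts [Wd.sl_out b1 b2, Wd.hub_out b1 (fo n ▸ b2), Wd.sl_out b1 (fo i ▸ b2)]
  · rw [not_or, not_not] at s
    obtain ⟨rfl, s⟩ := s
    refine H.swap rfl s k (Wd.sl_ne_hub e0) ?_ (fun L => h2 L (by omega)) h3
      (fun v g => h4 v (u.1 g)) fun L g g' => h5 L g fun v b => g' v (u.2 b)
    rintro _ (rfl | rfl) x
    exacts [Wd.sl_out, Wd.hub_out]

theorem hots (V : Fw K N r r0 q D e b) : V.Hots := fun j e0 n hn _ => V.hot j e0 n hn _ _ rfl rfl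

/-- **The graph is not hamiltonian.** -/
theorem safe (V : Fw K N r r0 q D e b) [Fintype (Hub K N (Pt K N) r0)]
    [DecidableEq (Hub K N (Pt K N) r0)] : ¬(HL (2 * r + 9) V.W.S.hang).IsHamiltonian :=
  V.hots.safe

end Fw

end Pool.Agent.P.MP_439f1f_co
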