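import Pool.Agent.P.MP_439f1f_co.B20
import Pool.Agent.P.MP_439f1f_co.Dy5

/-!
Service of the centre.
-/

set_option autoImplicit false
set_option linter.unusedSectionVars false

namespace Pool.Agent.P.MP_439f1f_co

open Function SimpleGraph Sum

variable {K N : Type} {r r0 q D e b : ℕ}

/-- a level of the cuts at rest that is allowed for the type -/
def HT.kpc : HT K r0 → Fin 7
  | .tN _ _ l => if l = 1 then 4 else 2
  | _ => 2

namespace Par

/-- one item, alive or open -/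
def solo (D : ℕ) (κ : Kd r r0) (d : Bool) (o : Option Bool) (f : Fin 3) : Par r r0 D :=
  { base r r0 D with
    dr := d
    kap _ := κ.ty.kpc
    ks i := cond i ∅ {κ}
    op := o
    fl := f
    ek := Fin.ofNat _ 1 }

variable {κ κ' : Kd r r0} {d : Bool} {o : Option Bool} {f : Fin 3}

theorem solo_mem {a : Option Bool} : (solo D κ d o f).mem a κ' ↔ (a = some false ∧ κ' = κ) ∨
    (a = none ∧ o = some false ∧ κ'.1 = (.hM κ.ty.wor (κ.ty.col + 1) (Fin.ofNat _ 1), .Z)) := by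
  rcases a with _ | _ | _ <;> simp [mem, solo, -Subtype.exists]

theorem solo_adm (two : 2 ≤ r0) (ho : o ≠ some true)
    (h : f = 2 ∨ ∀ w c l, κ.1 ≠ (.tN w c l, .H)) : (solo D κ d o f).Adm := by
  have k : ∀ c : ZMod 3, c + 1 ≠ c := by decide
  have m : ∀ a a' κ1 κ2, (solo D κ d o f).mem a κ1 → (solo D κ d o f).mem a' κ2 →
      κ1.ty.col = κ2.ty.col → a = a' ∧ κ1 = κ2 := by
    intro a a' κ1 κ2 h1 h2 c
    rcases solo_mem.1 h1 with ⟨rfl, rfl⟩ | ⟨rfl, -, h1⟩ <;>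
      rcases solo_mem.1 h2 with ⟨rfl, rfl⟩ | ⟨rfl, -, h2⟩
    · exact ⟨rfl, rfl⟩
    · exact absurd ((congrArg (·.1.col) h2).symm.trans c.symm) (k _)
    · exact absurd ((congrArg (·.1.col) h1).symm.trans c) (k _)
    · exact ⟨rfl, Subtype.ext (h1.trans h2.symm)⟩
  constructor
  · intro c
    simp only [solo, HT.kpc]
    split
    · split_ifs <;> simp
    · simp
  · simp [solo, base]
  · exact fun a a' κ1 ne h1 h2 => absurd (m _ _ _ _ h1 h2 rfl).1 ne
  · simp [solo, base]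
  · intro a κ1 w c l h1 h2
    refine ⟨?_, by simp [solo, base]⟩
    rcases solo_mem.1 h1.1 with ⟨-, rfl⟩ | ⟨-, -, h1⟩
    · simp only [solo, Kl.ty, h2, HT.kpc]
      clear h2
      revert l
      decide
    · simp [h1] at h2
  · intro a a' κ1 κ2 h1 h2 _ c c'
    rw [(m _ _ _ _ h1.1 h2.1 (by rw [c])).2] at c'
    omega
  · intro a a' κ1 κ2 h1 h2 c1 _ c2 _ c
    rw [(m _ _ _ _ h1.1 h2.1 c).2, c2] at c1
    exact nomatch c1
  · intro a a' κ1 κ2 w c k h1 h2 _ c1 c2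
    rw [(m _ _ _ _ h1.1 h2.1 (by rw [Kl.ty, Kl.ty, c1, c2]; rfl)).2, c2] at c1
    exact nomatch c1
  · intro a a' κ1 κ2 w c k i h1 h2 _ c1 c2
    rw [(m _ _ _ _ h1.1 h2.1 (by rw [Kl.ty, Kl.ty, c1, c2]; rfl)).2, c2] at c1
    exact nomatch c1
  · intro a a' κ1 κ2 w p c p' c' h1 h2 _ c1 c2
    rcases solo_mem.1 h1.1 with ⟨-, rfl⟩ | ⟨-, -, h1⟩
    · rcases solo_mem.1 h2.1 with ⟨-, rfl⟩ | ⟨-, -, h2⟩
      · simp [c1] at c2
      · simp [h2] at c2
    · simp [h1] at c1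
  · simp [solo, base]
  · simp [solo, base]
  · exact fun _ _ _ _ k _ _ _ => Fin.le_last k
  · rintro (_ | _) c
    · refine ⟨Set.subsingleton_singleton, Nat.zero_le _, ?_, Or.inl rfl⟩
      simp only [solo, Fin.val_ofNat, Nat.mod_eq_of_lt (show 1 < r0 + 1 by omega)]
    · exact absurd c ho
  · rintro (_ | _) c
    · simp [solo]
    · exact absurd c ho
  · rintro (_ | _) c
    · rintro _ rfl w c' l c1
      simp [solo, h.resolve_right fun a => a _ _ _ c1]
    · exact absurd c ho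
  · simp [solo, base]

end Par

theorem HT.st_mapc {K' : Type} (f : K → K') (T : HT K r0) : (T.map f).st r = T.st r := by
  cases T <;> rfl

variable [DecidableEq K]

/-- labels at different positions have different kinds -/
theorem Stat.At.kind_nec {Y β : Type} [LinearOrder β] {W : Stat K N Y β r r0 q D e b}
    {L L' : Hub K N Y r0} {i i' : ℕ} {u u' : Bool} {σ σ' : Slot (r + 1)} (hD : 1 ≤ D)
    (h : W.At L i u σ) (h' : W.At L' i' u' σ') (ne : i ≠ i') :
    (W.F.tree (W.sn L u σ)).kind ≠ (W.F.tree (W.sn L' u' σ')).kind := fun c => by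
  have := congrArg (fun κ : Kd r r0 => κ.ty.st r + κ.off) c
  simp only [h.tree hD, h'.tree hD, Kl.off, Kl.ty_kind, Kl.sl_kind, HT.st_mapc, HT.len_map] at this
  exact ne (h.off.symm.trans (this.trans h'.off))

variable [Finite K] [Finite N] [Nonempty K]

theorem Wd.cy_vqc {β ι : Type} [LinearOrder β] {W : Wd K N β r r0 q D e b} {j : K} {l : ι → ℕ}
    {t : ι → N} {L L' L'' : Hub K N (Pt K N) r0}
    (h : Cy (W.vp j l t L) (W.vp j l t L') (W.vp j l t L'')) (i i' i'' : ℕ) :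
    Cy (W.vq j l t (pz L i)) (W.vq j l t (pz L' i')) (W.vq j l t (pz L'' i'')) :=
  h.imp (And.imp Wd.vq_lt Wd.vq_lt) (Or.imp (And.imp Wd.vq_lt Wd.vq_lt) (And.imp Wd.vq_lt Wd.vq_lt))

namespace Fw.Rc

variable (V : Fw K N r r0 q D e b)

/-- a stage with given parameters that is not involved in the given lines -/
theorem far {π : Par r r0 D} (h : π.Adm) (ls : List (Hub K N (Pt K N) r0)) (c : ls.length < 16) :
    ∃ j, V.par j = π ∧ ∀ L ∈ ls, V.W.Far j L := by
  obtain ⟨g, a⟩ := V.W.exists_grp V.grp ls (by simp; omega)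
  obtain ⟨j, a1, a2, -⟩ := V.rich g π h (Classical.arbitrary K) (Classical.arbitrary K)
    (Classical.arbitrary K)
  exact ⟨j, a2, fun L c => a L c j a1⟩

open Classical in
/-- the direction in which the line `L` comes before the block `y` -/
noncomputable def dirL (L : Hub K N (Pt K N) r0) (y : N) : Bool :=
  decide (∀ x, V.W.In L x → (V.F.tree x).ty.col.val < (V.F.tree y).ty.col.val)

variable {V} {j : K} {T T' : Kl K r r0} {d f : Bool} {o a : Option Bool} {fl : Fin 3} {n x y : N}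
  {L L1 L2 : Hub K N (Pt K N) r0} {ι : Type} {l : ι → ℕ} {t : ι → N} {i : ℕ} {σ : Slot (r + 1)}
  {v : Vx K N (Pt K N) r r0}

theorem solo_role (p : V.par j = .solo D T.kind d o fl) (s : T.stg ≠ j) :
    V.Role j (some false) T :=
  ⟨s, p ▸ Par.solo_mem.2 (Or.inl ⟨rfl, rfl⟩), by simp [p, Par.sl, Par.solo, Par.base]⟩

theorem solo_liv (p : V.par j = .solo D T.kind d o fl) (s : T.stg ≠ j) : V.Liv j T :=
  (solo_role p s).liv' (by rw [p]; rfl)

theorem solo_rest (p : V.par j = .solo D T.kind d o fl) (s : T'.stg ≠ j) (c : T'.kind ≠ T.kind)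
    (c' : o = none ∨ T'.ty.col ≠ T.ty.col + 1) : V.Rest j T' :=
  ⟨s, fun _ h => (Par.solo_mem.1 (p ▸ h.1)).elim (fun a => c a.2) fun a => c'.elim
    (fun c' => by simp [c'] at a) fun c' => c' ((T'.ty.col_map fun _ => ()).symm.trans
      ((congrArg (·.1.col) a.2.2).trans (congrArg (· + 1) (T.ty.col_map fun _ => ()))))⟩

theorem kind_ne (h : T.ty.col ≠ T'.ty.col) : T.kind ≠ T'.kind := fun c =>
  h (by simpa using congrArg (fun κ => κ.ty.col) c)

theorem col_lab (h : V.W.In L x) (f : Bool) (σ : Slot (r + 1)) :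
    (V.F.tree (V.W.S.sn L f σ)).ty.col = (V.F.tree x).ty.col + 1 :=
  (V.W.S.col_sn V.D_pos L f σ).trans (V.W.col_in h f)

theorem lab_odd (h : V.F.lev n = D) : V.F.lev n % 2 = 1 := by rw [h, V.od]

theorem dirL_iff : dirL V L y = true ↔
    ∀ x, V.W.In L x → (V.F.tree x).ty.col.val < (V.F.tree y).ty.col.val := by simp [dirL]

section
variable (k : V.W.Rs j l t)
include k

theorem vp_role (h : V.W.Bk j L1 x) (h' : V.W.Bk j L2 y) {a' : Option Bool}
    (c : V.Role j a (V.F.tree x)) (c' : V.Role j a' (V.F.tree y)) (o : (V.par j).rook = false)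
    (z : (V.par j).zi a < (V.par j).zi a') : V.W.vp j l t L1 < V.W.vp j l t L2 :=
  Sw.bk_lt k h h' fun _ _ b b' => Role.lt ((b.tree : V.F.tree _ = _) ▸ c)
    ((b'.tree : V.F.tree _ = _) ▸ c') o z

theorem vp_rr (h : V.W.Bk j L1 x) (h' : V.W.Bk j L2 y) (c : V.Rest j (V.F.tree x))
    (c' : V.Role j a (V.F.tree y)) : if (V.par j).dr then V.W.vp j l t L1 < V.W.vp j l t L2
      else V.W.vp j l t L2 < V.W.vp j l t L1 := by
  split_ifs with g
  · exact Sw.bk_lt k h h' fun _ _ b b' => rest_lt ((b.tree : V.F.tree _ = _) ▸ c)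
      ((b'.tree : V.F.tree _ = _) ▸ c') g
  · exact Sw.bk_lt k h' h fun _ _ b b' => lt_rest ((b.tree : V.F.tree _ = _) ▸ c')
      ((b'.tree : V.F.tree _ = _) ▸ c) (by simpa using g)

theorem vp_col (h : V.W.Bk j L1 x) (h' : V.W.Bk j L2 y) (c : V.Rest j (V.F.tree x))
    (c' : V.Rest j (V.F.tree y))
    (z : sg (V.par j).dr (V.F.tree x).ty.col.val < sg (V.par j).dr (V.F.tree y).ty.col.val) :
    V.W.vp j l t L1 < V.W.vp j l t L2 :=
  Sw.bk_lt k h h' fun _ _ b b' => by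
    have e1 : V.F.tree _ = _ := b.tree
    have e2 : V.F.tree _ = _ := b'.tree
    exact Rest.lt (e1 ▸ c) (e2 ▸ c') (by rwa [e1, e2])

variable (s : ∀ g, (V.F.tree (t g)).stg ≠ j) (hf : V.W.Far j L)
include s hf

theorem vp_pure (h : ∀ x, ¬V.W.In L x) (h' : V.W.Bk j L1 y) (c : (V.F.tree y).stg ≠ j) :
    V.W.vp j l t L < V.W.vp j l t L1 :=
  Sw.pure_vp k (fun g => fam_two (s g)) (fun x a => absurd (hf.bk.1 a) (h x)) h' (fam_two c)

/-- a line at rest comes before the items -/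
theorem vp_rest (h : ∀ x, V.W.In L x → V.Rest j (V.F.tree x)) (g : (V.par j).dr = true)
    (h' : V.W.Bk j L1 y) (c : V.Role j a (V.F.tree y)) : V.W.vp j l t L < V.W.vp j l t L1 := by
  by_cases p : ∃ x, V.W.In L x
  · obtain ⟨x, p⟩ := p
    simpa [g] using vp_rr k (hf.bk.2 p) h' (h x p) c
  · exact vp_pure k s hf (not_exists.1 p) h' c.1

/-- a line at rest, a block at rest of another colour, and an item -/
theorem cy_rest (h : ∀ x, V.W.In L x → V.Rest j (V.F.tree x) ∧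
      (V.F.tree x).ty.col ≠ (V.F.tree y).ty.col) (c1 : V.Rest j (V.F.tree y))
    (c2 : V.Role j a (V.F.tree n)) (h1 : V.W.Bk j L1 y) (h2 : V.W.Bk j L2 n) :
    if (V.par j).dr = dirL V L y then Cy (V.W.vp j l t L) (V.W.vp j l t L1) (V.W.vp j l t L2)
      else Cy (V.W.vp j l t L1) (V.W.vp j l t L) (V.W.vp j l t L2) := by
  have a1 := vp_rr k h1 h2 c1 c2
  by_cases p : ∃ x, V.W.In L x
  · obtain ⟨x, p⟩ := p
    have b := hf.bk.2 p
    have a2 := vp_rr k b h2 (h x p).1 c2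
    have a3 := vp_col k b h1 (h x p).1 c1
    have a4 := vp_col k h1 b c1 (h x p).1
    have a5 := (ZMod.val_injective 3).ne (h x p).2
    have a6 : dirL V L y = true ↔ (V.F.tree x).ty.col.val < (V.F.tree y).ty.col.val :=
      dirL_iff.trans ⟨fun c => c x p, fun c _ c' => c'.unique p ▸ c⟩
    revert a1 a2 a3 a4 a6
    cases (V.par j).dr <;> cases dirL V L y <;> simp only [Cy, sg_lt] <;> grind
  · have a2 := vp_pure k s hf (not_exists.1 p) h1 c1.1
    have a3 := vp_pure k s hf (not_exists.1 p) h2 c2.1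
    have a6 : dirL V L y = true := dirL_iff.2 fun x c => absurd ⟨x, c⟩ p
    revert a1
    cases (V.par j).dr <;> simp only [Cy, a6] <;> grind

end

theorem run_lab (h : V.Liv j (V.F.tree n)) (l : V.F.lev n = D) : V.W.Run j 0 n :=
  h.run rfl (lab_odd l) (V.F.surj n).1

/-- the state with one open item -/
theorem solo_leak (p : V.par j = .solo D (V.F.tree n).kind d (some false) fl)
    (s : (V.F.tree n).stg ≠ j) : V.Role j none (V.F.tree (V.W.ell n 1)) ∧
      V.W.Rs j ![0] ![V.W.ell n 1] ∧ (∀ g, V.W.On (![0] g) (![V.W.ell n 1] g) n →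
        n = ![V.W.ell n 1] g) ∧ V.W.port j n = 0 ∧ V.W.lay j (inl n) 0 < V.W.lay j (inl n) 1 := by
  have a := solo_role p s
  have o : V.Opn j n := ⟨false, a, by rw [p]; exact ⟨rfl, Nat.zero_le _⟩⟩
  have x := o.ot.ell
  have two := V.two_r0
  rw [show ((V.par j).ek : ℕ) = 1 by rw [p]; exact Nat.mod_eq_of_lt (by omega)] at x
  refine ⟨x, .one (run_lab x.liv (V.lev_ell n 1)), fun g c => ?_, o.port, ?_⟩
  · fin_cases g
    exact absurd (a.eq ((c.1.tree : V.F.tree _ = _) ▸ x)) (by simp)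
  · rw [o.lay, p]
    exact (blay_lt _ _).2 rfl

variable (V) in
/-- the centre and a node -/
theorem sv_c2 (n : N) : V.W.Sv (inl none) (hv (nl n)) := by
  obtain ⟨j, p, hf⟩ := far V (Par.solo_adm (D := D) (κ := (V.F.tree n).kind) (d := true)
    (o := some false) V.two_r0 (by simp) (Or.inl rfl)) [nl n] (by simp)
  have s := (hf _ (by simp)).wor (V.W.in_pay (inl n))
  obtain ⟨x, k, c, a1, a2⟩ := solo_leak p s
  have o := k.leak_front V.two_r0 c a1 a2
  intro _ _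
  exact k.serve .nil ((k.ch_cut 0).app (k.ch_leak n)) (by simp) (fun g => by fin_cases g; simp)
    [.lt 2 1, .lt 1 3, .lt 3 0] [] (by decide +kernel)
    ⟨o.1, o.2, Wd.vq_lt (vp_role k (Wd.bk_prv' j _) (Wd.bk_cut j _ _) (solo_role p s)
      (((k.on_cut 0).1.tree : V.F.tree _ = _) ▸ x) (by rw [p]; rfl) (by rw [p]; exact Nat.lt_of_sub_eq_succ rfl))⟩ trivial

/-- the centre and an access down -/
theorem sv_c3 (h : V.W.S.Acc false v L i f σ) : V.W.Sv (inl none) v := by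
  obtain ⟨j, p, hf⟩ := far V (Par.solo_adm (D := D) (κ := (V.F.tree (V.W.S.sn L f σ)).kind)
    (d := true) (o := none) V.two_r0 (by simp) (Or.inl rfl)) [L] (by simp)
  have k := Wd.Rs.one (run_lab (solo_liv p ((hf L (by simp)).sn V.D_pos f σ))
    (V.W.S.lev_sn V.D_pos L f σ))
  have := h.at.le
  intro _ _
  exact k.serve .nil ((k.ch_cut 0).app (k.ch_acc h))
    (by rcases h.cases with ⟨_, _, _, a, _⟩ | ⟨_, _, _, a, _⟩ | ⟨_, a, _⟩ <;> simp [a])
    (fun g => by fin_cases g; simp) [] [(0, 1)] (by decide +kernel) trivial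
    (pz_ne' (Nat.succ_ne_zero i).symm (by omega) (by simpa))

/-- the centre and an access up -/
theorem sv_c4 (h : V.W.S.Acc true v L i f σ) (c : ∀ w c l, (V.W.S.typ L f, σ) ≠ (.tN w c l, .H)) :
    V.W.Sv (inl none) v := by
  obtain ⟨j, p, hf⟩ := far V (Par.solo_adm (D := D) (κ := (V.F.tree (V.W.S.sn L f σ)).kind)
    (d := true) (o := some false) (f := 0) V.two_r0 (by simp) (Or.inr fun w c' l a =>
      c _ c' l ((congrArg Subtype.val (h.at.tree V.D_pos)).symm.trans (Kl.val_of_kind a))))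
    [L] (by simp)
  have hf := hf L (by simp)
  have s := hf.sn V.D_pos f σ
  obtain ⟨x, k, c, a1, a2⟩ := solo_leak p s
  have o := k.leak_front V.two_r0 c a1 a2
  have x' := ((k.on_cut 0).1.tree : V.F.tree _ = _) ▸ x
  have z : ∀ c : ZMod 3, c ≠ c + 1 ∧ c ≠ c + 1 + 1 := by decide
  intro _ _
  exact k.serve .nil (((k.ch_cut 0).app (k.ch_leak _)).app (k.ch_acc h))
    (by rcases h.cases with ⟨_, _, _, a, _⟩ | ⟨_, _, _, a, _⟩ | ⟨_, a, _⟩ <;> simp [a])
    (fun g => by fin_cases g; simp) [.lt 4 0, .lt 0 2, .lt 2 1, .lt 1 3] [] (by decide +kernel)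
    ⟨Wd.vq_lt (vp_rest k (fun g => by fin_cases g; exact x.1) hf (fun y a => solo_rest p (hf.wor a)
        (kind_ne (col_lab a f σ ▸ (z _).1)) (Or.inr (col_lab a f σ ▸ (z _).2)))
        (by rw [p]; rfl) (Wd.bk_cut j _ _) x'),
      Wd.vq_lt (vp_role k (Wd.bk_cut j _ _) (Wd.bk_pay.2 rfl) x' (solo_role p s) (by rw [p]; rfl)
        (by rw [p]; exact Nat.lt_of_sub_eq_succ rfl)), o.1, o.2⟩ trivial

theorem not_on {l : ℕ} (h : (V.F.tree y).kind ≠ (V.F.tree n).kind) : ¬V.W.On l n y := fun c =>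
  h (congrArg Kl.kind (c.1.tree : V.F.tree _ = _))

/-- the centre and a free tail; the hub is filled from a gap, upper side -/
theorem sv_up (h : V.W.S.At L (i + 1) f σ) (hi : i < 2 * r + 9) (a : V.W.S.hang L i (some (nl y)))
    (k : V.W.Rs j ![0] ![V.W.S.sn L f σ]) (c : ¬V.W.On 0 (V.W.S.sn L f σ) y)
    (o : Cy (V.W.vp j ![0] ![V.W.S.sn L f σ] L) (V.W.vp j ![0] ![V.W.S.sn L f σ] (nl y))
      (V.W.vp j ![0] ![V.W.S.sn L f σ] (V.W.cut 0 (V.W.S.sn L f σ)))) :
    V.W.Sv (inl none) (vz (nl y) 0) :=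
  k.serve .nil (((k.ch_cut 0).app (Wd.ch_up h.hang hi)).app
    (Wd.ch_ftail (k.off_nl fun g => by fin_cases g; exact c) a hi.le)) (by simp [vz])
    (fun g => by fin_cases g; simp) [.cy 1 2 0] [] (by decide +kernel) (Wd.cy_vqc o _ _ _) trivial

/-- the same, lower side -/
theorem sv_dn (h : V.W.S.At L i f σ) (hi : i < 2 * r + 9) (a : V.W.S.hang L (i + 1) (some (nl y)))
    (k : V.W.Rs j ![0] ![V.W.S.sn L f σ]) (c : ¬V.W.On 0 (V.W.S.sn L f σ) y)
    (o : Cy (V.W.vp j ![0] ![V.W.S.sn L f σ] (nl y)) (V.W.vp j ![0] ![V.W.S.sn L f σ] L)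
      (V.W.vp j ![0] ![V.W.S.sn L f σ] (V.W.cut 0 (V.W.S.sn L f σ)))) :
    V.W.Sv (inl none) (vz (nl y) 0) :=
  k.serve .nil (((k.ch_cut 0).app (Wd.ch_dn h.hang hi)).app
    (Wd.ch_ftail (k.off_nl fun g => by fin_cases g; exact c) a hi)) (by simp [vz])
    (fun g => by fin_cases g; simp) [.cy 2 1 0] [] (by decide +kernel) (Wd.cy_vqc o _ _ _) trivial

/-- the centre and the tail of an inner node -/
theorem sv_c5 (h2 : 2 ≤ V.F.lev y) (h : V.F.lev y < D) : V.W.Sv (inl none) (vz (nl y) 0) := by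
  intro _ _
  have a := V.W.S.pay_H (inl (V.F.kid y))
  obtain ⟨j, p, hf⟩ := far V (Par.solo_adm (D := D)
    (κ := (V.F.tree (V.W.S.sn (nl (V.F.kid y)) false .H)).kind)
    (d := false) (o := none) V.two_r0 (by simp) (Or.inl rfl)) [nl (V.F.kid y)] (by simp)
  have hf := hf _ (List.mem_singleton_self _)
  have s := hf.sn V.D_pos false .H
  have k := Wd.Rs.one (run_lab (solo_liv p s) (V.W.S.lev_sn V.D_pos _ _ _))
  have t : V.F.tree (V.F.kid y) = V.F.tree y := Forest.tree_kid h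
  have lk := V.F.lev_kid h
  have c := kind_ne (V.W.col_ne V.D_pos (V.W.in_pay (inl (V.F.kid y))) false .H).symm
  have r1 := solo_rest p (hf.wor (V.W.in_pay (inl _))) c (Or.inl rfl)
  have r2 : V.Rest j (V.F.tree y) := t ▸ r1
  have o : ∀ {x}, V.F.tree x = V.F.tree y →
      (V.W.rts ![0] ![V.W.S.sn (nl (V.F.kid y)) false .H]).Out (V.W.pos j) (nl x) := fun c' =>
    k.out_bk (.self _ j _) fun g a => by fin_cases g; exact (not_on (c'.trans t.symm ▸ c) a).elim
  refine sv_up a (by omega) ?_ k (not_on (t ▸ c)) (Or.inr (Or.inr ⟨?_, ?_⟩))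
  · simpa only [V.W_F, V.F.par_kid h] using Wd.hang_par (W := V.W) (n := V.F.kid y)
      (by rw [V.W_F]; omega)
  · exact (if_neg (by simp [p, Par.solo])).mp (vp_rr k (.self _ j _) (Wd.bk_cut j _ _) r1
      (((k.on_cut 0).1.tree : V.F.tree _ = _) ▸ solo_role p s))
  · refine (Rts.vp_out (o t) (o rfl)).2 (Sw.nl_lt.2 ((Lay.lt_iff_not (Forest.kid_ne h)).2 fun d => ?_))
    rcases (Lay.anc_lt (Cut.fm (Or.inl r2)) (Cut.fm (Or.inl r1)) (Forest.anc_kid h)
      (Forest.kid_ne h).symm).1 d with d | d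
    · refine d ⟨Cut.two (Or.inl r2), (r2.kap.trans_le ?_ : V.kap j _ ≤ V.F.lev y + 1)⟩
      rw [p, show V.F.tree _ = _ from a.tree V.D_pos]
      show (((if lc (V.F.lev (V.F.kid y)) = 1 then 4 else 2 : Fin 7) : ℕ)) ≤ _
      unfold lc
      split_ifs <;> simp_all <;> omega
    · have := r2.asc.symm.trans d.1
      simp [p, Par.solo] at this

/-- the centre and the tail of a label -/
theorem sv_c6 (g : V.W.S.Good e) (h : V.F.lev y = D) : V.W.Sv (inl none) (vz (nl y) 0) := by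
  intro _ _
  obtain ⟨L, i, u, τ, a, rfl⟩ := g.use h
  have key : ∀ (d : Bool) {i' f σ}, V.W.S.At L i' f σ → i ≠ i' → ∃ j,
      ∃ k : V.W.Rs j ![0] ![V.W.S.sn L f σ], ¬V.W.On 0 (V.W.S.sn L f σ) (V.W.S.sn L u τ) ∧
      if d = dirL V L (V.W.S.sn L u τ) then Cy (V.W.vp j ![0] ![V.W.S.sn L f σ] L)
        (V.W.vp j ![0] ![V.W.S.sn L f σ] (nl (V.W.S.sn L u τ)))
        (V.W.vp j ![0] ![V.W.S.sn L f σ] (V.W.cut 0 (V.W.S.sn L f σ)))
      else Cy (V.W.vp j ![0] ![V.W.S.sn L f σ] (nl (V.W.S.sn L u τ)))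
        (V.W.vp j ![0] ![V.W.S.sn L f σ] L)
        (V.W.vp j ![0] ![V.W.S.sn L f σ] (V.W.cut 0 (V.W.S.sn L f σ))) := by
    intro d i' f σ a' ne
    obtain ⟨j, p, hf⟩ := far V (Par.solo_adm (D := D) (κ := (V.F.tree (V.W.S.sn L f σ)).kind)
      (d := d) (o := none) V.two_r0 (by simp) (Or.inl rfl)) [L] (by simp)
    have hf := hf _ (List.mem_singleton_self _)
    have s := hf.sn V.D_pos f σ
    have k := Wd.Rs.one (run_lab (solo_liv p s) (V.W.S.lev_sn V.D_pos _ _ _))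
    have c := a.kind_nec V.D_pos a' ne
    exact ⟨j, k, not_on c, (show (V.par j).dr = d by rw [p]; rfl) ▸ cy_rest k
      (fun g => by fin_cases g; exact s) hf (fun x c => ⟨solo_rest p (hf.wor c)
        (kind_ne (V.W.col_ne V.D_pos c f σ).symm) (Or.inl rfl), (V.W.col_ne V.D_pos c u τ).symm⟩)
      (solo_rest p (hf.sn V.D_pos u τ) c (Or.inl rfl))
      (((k.on_cut 0).1.tree : V.F.tree _ = _) ▸ solo_role p s) (.self _ j _) (Wd.bk_cut j _ _)⟩
  have := a.le
  rcases le_or_gt i 1 with c | c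
  · obtain ⟨f, σ, a'⟩ := V.W.S.at_mid L (i := i + 1) (by omega) (by omega)
    obtain ⟨j, k, c1, c2⟩ := key _ a' (by omega)
    exact sv_up a' (by omega) a.hang k c1 ((if_pos rfl).mp c2)
  · obtain ⟨i, rfl⟩ : ∃ m, i = m + 1 := ⟨i - 1, by omega⟩
    obtain ⟨f, σ, a'⟩ := V.W.S.at_mid L (i := i) (by omega) (by omega)
    obtain ⟨j, k, c1, c2⟩ := key (!dirL V L (V.W.S.sn L u τ)) a' (by omega)
    exact sv_dn a' (by omega) a.hang k c1 ((if_neg (by simp)).mp c2)

variable (V) in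
/-- **The centre is served with every vertex.** -/
theorem _root_.Pool.Agent.P.MP_439f1f_co.Fw.sv_c (g : V.W.S.Good e) (v : Vx K N (Pt K N) r r0) (ne : v ≠ inl none)
    (na : ¬(HL (2 * r + 9) V.W.S.hang).Adj (inl none) v) : V.W.Sv (inl none) v := by
  intro _ _
  rcases v with (_ | (n | w) | y) | ⟨z, k⟩
  · exact absurd rfl ne
  · exact sv_c2 V n
  · exact sv_c3 (V.W.S.acc_moat w)
  · exact sv_c4 (V.W.S.acc_sys y) (by simp [Pre.typ, Pre.tt])
  rcases le_or_gt 2 (k : ℕ) with c | c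
  · obtain ⟨u, σ, a⟩ := V.W.S.acc_dn z k (Or.inl c)
    exact sv_c3 a
  obtain ⟨u, σ, a⟩ := V.W.S.acc_up z k (Or.inl (by omega))
  by_cases d : ∀ w c l, (V.W.S.typ z u, σ) ≠ (.tN w c l, .H)
  · exact sv_c4 a d
  push Not at d
  obtain ⟨w, c', l, d⟩ := d
  obtain ⟨d, rfl⟩ := Prod.ext_iff.1 d
  obtain rfl := a.at.half.2 (by omega)
  obtain ⟨y, rfl⟩ : ∃ y, z = nl y := by
    rcases z with (y | z) | z
    exacts [⟨y, rfl⟩, (nomatch d), nomatch d]
  obtain rfl : k = 0 := Fin.ext (by simpa using a.at.pos_eq (V.W.S.pay_H (inl y)) rfl)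
  have := (V.F.surj y).1
  have l2 : V.F.lev y ≠ 1 := fun c => na (Wd.hang_root c)
  rw [← vz_val]
  rcases (V.F.surj y).2.1.eq_or_lt with c | c
  exacts [sv_c6 g c, sv_c5 (y := y) (by omega) c]

end Fw.Rc

end Pool.Agent.P.MP_439f1f_co
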