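import Pool.Agent.P.MP_439f1f_co.Ns1
import Pool.Agent.P.MP_439f1f_co.Rc1
import Pool.Agent.P.MP_439f1f_co.Ht1

/-!
The groups of pairs of vertices and the final case split.
-/

set_option autoImplicit false
set_option linter.unusedSectionVars false

namespace Pool.Agent.P.MP_439f1f_co

open Function SimpleGraph Sum

variable {K N : Type} {r r0 q D e b : ℕ} [DecidableEq K] [Finite K] [Finite N] [Nonempty K]

namespace Fw

variable (V : Fw K N r r0 q D e b)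

/-- the pair is a task: different, not adjacent, not cold -/
structure Tsk (v w : Vx K N (Pt K N) r r0) : Prop where
  ne : v ≠ w
  na : ¬(HL (2 * r + 9) V.W.S.hang).Adj v w
  c1 : ¬V.Cld v w
  c2 : ¬V.Cld w v

theorem Tsk.symm {V : Fw K N r r0 q D e b} {v w : Vx K N (Pt K N) r r0} (h : V.Tsk v w) :
    V.Tsk w v := ⟨h.ne.symm, fun a => h.na a.symm, h.c2, h.c1⟩

/-- the cold pairs -/
def GO : Prop := ∀ v w, v ≠ w → ¬(HL (2 * r + 9) V.W.S.hang).Adj v w → V.Cld v w → V.W.Sv v w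

/-- two nodes -/
def GN : Prop := ∀ u y, V.Tsk (hv (nl u)) (hv (nl y)) → V.W.Sv (hv (nl u)) (hv (nl y))

/-- a node and a point outside the blocks of its tree -/
def GP : Prop := ∀ u d v L i f σ, V.W.S.Acc d v L i f σ →
  (∀ n, V.W.In L n → V.F.tree n ≠ V.F.tree u) → V.Tsk (hv (nl u)) v → V.W.Sv (hv (nl u)) v

/-- a node and a point in a block of its tree -/
def GS : Prop := ∀ u y d v L i f σ, V.W.S.Acc d v L i f σ → V.W.In L y →
  V.F.tree y = V.F.tree u → V.Tsk (hv (nl u)) v → V.W.Sv (hv (nl u)) v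

/-- two points of different colours -/
def GX : Prop := ∀ d v L i f σ d' w L' i' f' σ', V.W.S.Acc d v L i f σ →
  V.W.S.Acc d' w L' i' f' σ' → (V.W.S.typ L' f').col = (V.W.S.typ L f).col + 1 → V.Tsk v w →
  V.W.Sv v w

/-- two points of one colour in different loops and blocks -/
def GC : Prop := ∀ d v L i f σ d' w L' i' f' σ', V.W.S.Acc d v L i f σ →
  V.W.S.Acc d' w L' i' f' σ' → (V.W.S.typ L f).col = (V.W.S.typ L' f').col →
  V.W.lo L ≠ V.W.lo L' → (∀ n, V.W.In L n → ¬V.W.In L' n) → V.Tsk v w → V.W.Sv v w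

/-- two points in one loop or in one block with payload -/
def GB : Prop := ∀ d v L i f σ d' w L' i' f' σ', V.W.S.Acc d v L i f σ →
  V.W.S.Acc d' w L' i' f' σ' → (V.W.lo L = V.W.lo L' ∨ ∃ n, V.W.In L n ∧ V.W.In L' n) →
  V.Tsk v w → V.W.Sv v w

variable {V}

/-- the form of the hypothesis on cold pairs for two points -/
theorem Tsk.own {v w : Vx K N (Pt K N) r r0} (h : V.Tsk v w) (L L' : Hub K N (Pt K N) r0)
    (s : K × Bool) (p : ZMod 12) (c : ZMod 3) (p' : ZMod 12) (c' : ZMod 3)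
    (a : V.W.S.typ L false = .tS s p c) (a' : V.W.S.typ L' true = .hS s p' c')
    (k : (v = hv L ∧ w = vz L' (2 * r + 9)) ∨ (w = hv L ∧ v = vz L' (2 * r + 9))) :
    4 ≤ (p - p').val := by
  obtain ⟨z, rfl⟩ : ∃ z, L = inr z := by
    rcases L with (n | w) | z
    exacts [(nomatch a), (nomatch a), ⟨z, rfl⟩]
  refine not_lt.1 fun d => ?_
  rcases k with ⟨k, k'⟩ | ⟨k, k'⟩
  · exact h.c2 ⟨s, p', p, Or.inr ⟨L', c', k', a'⟩, Or.inr ⟨z, c, k, a⟩, d⟩
  · exact h.c1 ⟨s, p', p, Or.inr ⟨L', c', k', a'⟩, Or.inr ⟨z, c, k, a⟩, d⟩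

theorem gs_of (G : V.W.S.Good e) (hSb : V.RowSb) (hSD : V.RowSD) (hSL : V.RowSL)
    (hSU : V.RowSU) (hTx : V.RowTx) (hSm : V.RowSm) (hWF : V.RowWF) : V.GS :=
  fun _ _ _ _ _ _ _ _ a hy t k _ _ => sv_ns_of G hSb hSD hSL hSU hTx hSm hWF a hy t k.na

/-- **All pairs are served.** -/
theorem serve_of (G : V.W.S.Good e) (hO : V.GO) (hN : V.GN) (hP : V.GP) (hS : V.GS) (hX : V.GX)
    (hC : V.GC) (hL : V.GB) (v w : Vx K N (Pt K N) r r0) (ne : v ≠ w)
    (na : ¬(HL (2 * r + 9) V.W.S.hang).Adj v w) : V.W.Sv v w := by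
  intro _ _
  by_cases c1 : V.Cld v w
  · exact hO v w ne na c1
  by_cases c2 : V.Cld w v
  · exact Wd.Sv.symm (hO w v ne.symm (fun a => na a.symm) c2)
  have k : V.Tsk v w := ⟨ne, na, c1, c2⟩
  have np : ∀ u {d v L i f σ}, V.W.S.Acc d v L i f σ → V.Tsk (hv (nl u)) v →
      V.W.Sv (hv (nl u)) v := fun u d v L i f σ a k _ _ => by
    by_cases c : ∀ n, V.W.In L n → V.F.tree n ≠ V.F.tree u
    · exact hP u d v L i f σ a c k
    · simp only [not_forall, not_not] at c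
      obtain ⟨y, hy, t⟩ := c
      exact hS u y d v L i f σ a hy t k
  rcases V.W.S.inv v with rfl | hv
  · exact V.sv_c G w ne.symm na
  rcases V.W.S.inv w with rfl | hw
  · exact Wd.Sv.symm (V.sv_c G v ne fun a => na a.symm)
  rcases hv with ⟨u, rfl⟩ | ⟨d, L, i, f, σ, a⟩ <;>
    rcases hw with ⟨y, rfl⟩ | ⟨d', L', i', f', σ', a'⟩
  · exact hN u y k
  · exact np u a' k
  · exact Wd.Sv.symm (np y a k.symm)
  by_cases c : V.W.lo L = V.W.lo L' ∨ ∃ n, V.W.In L n ∧ V.W.In L' n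
  · exact hL d v L i f σ d' w L' i' f' σ' a a' c k
  rcases (by decide : ∀ x y : ZMod 3, x = y ∨ y = x + 1 ∨ x = y + 1) (V.W.S.typ L f).col
    (V.W.S.typ L' f').col with h | h | h
  · exact hC d v L i f σ d' w L' i' f' σ' a a' h (fun x => c (Or.inl x))
      (fun n x x' => c (Or.inr ⟨n, x, x'⟩)) k
  · exact hX d v L i f σ d' w L' i' f' σ' a a' h k
  · exact Wd.Sv.symm (hX d' w L' i' f' σ' d v L i f σ a' a h k.symm)

end Fw

/-- **The theorem from the groups of pairs.** -/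
theorem mnh_of_groups
    (h : ∀ (K N : Type) [Finite K] [DecidableEq K] [Nonempty K] [Finite N] (r r0 q D e b : ℕ)
      (V : Fw K N r r0 q D e b), V.W.S.Good e →
      V.GO ∧ V.GN ∧ V.GP ∧ V.GS ∧ V.GX ∧ V.GC ∧ V.GB) (k : ℕ) :
    ∃ n : ℕ, ∃ G : SimpleGraph (Fin n), ¬G.IsHamiltonian ∧
      (∀ u v : Fin n, u ≠ v → ¬G.Adj u v →
        (G ⊔ SimpleGraph.fromEdgeSet {s(u, v)}).IsHamiltonian) ∧ ¬G.IsAcyclic ∧ k ≤ G.girth :=
  mnh_of (fun _ _ _ _ _ _ _ _ _ _ _ _ V _ _ => V.safe) (fun K N _ _ _ _ r r0 q D e b V _ _ G u v ne na =>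
    let ⟨h1, h2, h3, h4, h5, h6, h7⟩ := h K N r r0 q D e b V G
    Fw.serve_of G h1 h2 h3 h4 h5 h6 h7 u v ne na) k

end Pool.Agent.P.MP_439f1f_co
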