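import Pool.Agent.P.MP_439f1f_co.Rp0
import Pool.Agent.P.MP_439f1f_co.Sv2
import Pool.Agent.P.MP_439f1f_co.Rt2
import Pool.Agent.P.MP_439f1f_co.Top0

/-!
Service of a node and a point outside the tree of the node.
-/

set_option autoImplicit false
set_option linter.unusedSectionVars false

namespace Pool.Agent.P.MP_439f1f_co

open Function SimpleGraph Sum

variable {K N : Type} {r r0 q D e b : ℕ} [DecidableEq K] [Finite K] [Finite N] [Nonempty K]

namespace Fw.Rp

open Kl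

variable {V : Fw K N r r0 q D e b} {j : K} {n u x y : N} {i : ℕ} {L : Hub K N (Pt K N) r0}
  {d f c : Bool} {σ : Slot (r + 1)} {v : Vx K N (Pt K N) r r0} {π : Par r r0 D}
  {A : Bool → Set (Kl K r r0)} {g : Fin 64} {E : List (Kl K r r0)} {T Y : Kl K r r0}

variable (V) in
/-- the trees of the blocks in which a line lies -/
theorem exists_blk (L : Hub K N (Pt K N) r0) : ∃ E : List (Kl K r r0), E.length ≤ 1 ∧
    ∀ T, T ∈ E ↔ ∃ n, V.W.In L n ∧ T = V.F.tree n := by
  by_cases h : ∃ n, V.W.In L n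
  · obtain ⟨n, h⟩ := h
    exact ⟨[V.F.tree n], le_rfl, fun T => List.mem_singleton.trans
      ⟨fun a => ⟨n, h, a⟩, fun ⟨_, a, c⟩ => a.unique h ▸ c⟩⟩
  · exact ⟨[], by simp, fun T => iff_of_false (by simp) fun ⟨n, a, _⟩ => h ⟨n, a⟩⟩

variable (V) in
theorem fresh (L : Hub K N (Pt K N) r0) (T : Kl K r r0) : ∃ k : Fin (r0 + 1), (k : ℕ) % 2 = 1 ∧
    (∀ w c, T.ty ≠ .hM w c k) ∧ ∀ n, V.W.In L n → ∀ w c, (V.F.tree n).ty ≠ .hM w c k := by
  obtain ⟨E, a1, a2⟩ := exists_blk V L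
  obtain ⟨k, b1, b2⟩ := exists_fresh (V.he.trans V.hr0) (T :: E) (by simp; omega)
  exact ⟨k, b1, b2 T (by simp), fun n h => b2 _ (List.mem_cons_of_mem _ ((a2 _).2 ⟨n, h, rfl⟩))⟩

/-- a state in which the line `L` is at rest -/
theorem exists_out (h : π.TA A) (L : Hub K N (Pt K N) r0) (u : N)
    (o : ∀ n, V.W.In L n → (∀ i, V.F.tree n ∉ A i) ∧
      (π.op ≠ none → ∀ w c, (V.F.tree n).ty ≠ .hM w c π.ek) ∧
      ∀ x ∈ A false, ∀ y ∈ A true, x.col ≠ (V.F.tree n).col ∨ y.col ≠ (V.F.tree n).col) :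
    ∃ g E j, V.St g π A E j ∧ (V.F.tree u).stg ≠ j ∧
      (∀ f σ, (V.F.tree (V.W.S.sn L f σ)).stg ≠ j) ∧ V.InF j L ∧
      ∀ n, V.W.In L n → V.Rest j (V.F.tree n) := by
  obtain ⟨E, a1, a2⟩ := exists_blk V L
  obtain ⟨g, a⟩ := V.W.exists_grp V.grp [L, nl u] (by simp)
  obtain ⟨j, s⟩ := V.exists_st g h E (by omega) fun T c T' c' x hx y hy k k' _ => by
    obtain ⟨n, b1, rfl⟩ := (a2 T).1 c
    obtain ⟨n', b2, rfl⟩ := (a2 T').1 c'
    obtain rfl := b1.unique b2
    exact ((o n b1).2.2 x hx y hy).elim (absurd (col_of_kind k).symm) (absurd (col_of_kind k').symm)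
  have hf := a L (by simp) j s.grp
  have re : ∀ n, V.W.In L n → V.Rest j (V.F.tree n) := fun n c =>
    s.rest (hf.wor c) ((a2 _).2 ⟨n, c, rfl⟩) (o n c).1 (o n c).2.1
  exact ⟨g, E, j, s, (a (nl u) (by simp) j s.grp).wor (V.W.in_pay (inl u)), hf.sn V.D_pos,
    fun n c _ d => d.not_rest (re n (hf.bk.1 c)), re⟩

theorem col_sn (h : V.W.In L n) (f : Bool) (σ : Slot (r + 1)) :
    (V.F.tree (V.W.S.sn L f σ)).col ≠ (V.F.tree n).col := V.W.col_ne V.D_pos h f σ

theorem tree_sn (h : V.W.In L n) (f : Bool) (σ : Slot (r + 1)) :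
    V.F.tree n ≠ V.F.tree (V.W.S.sn L f σ) := fun c => col_sn h f σ (congrArg Kl.col c).symm

/-- the same with two items, one of which is the tree of a label of the line -/
theorem exists_tw (c : Bool) {u : N}
    (h : π.TA (cond c (tw (V.F.tree (V.W.S.sn L f σ)) (V.F.tree u))
      (tw (V.F.tree u) (V.F.tree (V.W.S.sn L f σ)))))
    (o : ∀ n, V.W.In L n → V.F.tree n ≠ V.F.tree u)
    (o' : ∀ n, V.W.In L n → π.op ≠ none → ∀ w c, (V.F.tree n).ty ≠ .hM w c π.ek) :
    ∃ g A E j, V.St g π A E j ∧ V.F.tree u ∈ A c ∧ V.F.tree (V.W.S.sn L f σ) ∈ A (!c) ∧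
      (V.F.tree u).stg ≠ j ∧ (V.F.tree (V.W.S.sn L f σ)).stg ≠ j ∧ V.InF j L ∧
      ∀ n, V.W.In L n → V.Rest j (V.F.tree n) := by
  obtain ⟨g, E, j, s, a1, a2, a3⟩ := exists_out (V := V) h L u fun n a => ⟨fun i => by
    cases c <;> cases i <;> first | exact o n a | exact tree_sn a f σ, o' n a, by
      cases c <;> rintro _ rfl _ rfl
      exacts [Or.inr (col_sn a f σ), Or.inl (col_sn a f σ)]⟩
  exact ⟨g, _, E, j, s, by cases c <;> rfl, by cases c <;> rfl, a1, a2 f σ, a3⟩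

theorem lk_of (s : V.St g π A E j) (h : V.F.tree n ∈ A c) (st : (V.F.tree n).stg ≠ j)
    (op : π.op = some c) (cut : π.cut c = 0) (fl : π.flip = false) (ek : (π.ek : ℕ) % 2 = 1) :
    ∃ m, Lk V j c n m := by
  have o : V.Opn j n := s.opn h st op (by simp [cut])
  have x := o.ot.ell
  have := π.ek.2
  rw [s.ek, show (π.ek : ℕ) = 2 * (π.ek / 2) + 1 by omega] at x
  refine ⟨π.ek / 2, by omega, s.role c _ h st, o.port, ?_, x⟩
  rw [o.lay, s.flip, fl]
  exact (blay_lt _ _).2 rfl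

theorem run_of (h : V.Role j (some c) (V.F.tree u)) (o : V.F.lev u % 2 = 1)
    (k : (V.par j).cut c = 0 ∨ V.F.lev u < (V.par j).cut c) : V.W.Run j 0 u :=
  run (not_own h.1) rfl o (V.F.surj u).1
    (h.kap ▸ k.imp (congrArg Fin.val) Or.inl)

theorem ev_of (h : V.Role j (some c) (V.F.tree u)) (o : V.F.lev u % 2 = 0)
    (rk : (V.par j).rook = false) (k : (V.par j).cut c = 0 ∨ V.F.lev u < (V.par j).cut c) :
    Ev V j (some c) u := by
  have := (V.F.surj u).1
  have two : 2 ≤ V.F.lev u := by omega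
  have lp := V.F.lev_par two
  have tp := V.F.tree_par two
  refine ⟨two, h, run_of (tp ▸ h) (by omega) (k.imp_right (by omega)),
    (Lay.anc_lt (fm_plain (tp ▸ not_own h.1) rk) (fm_plain (not_own h.1) rk) (Forest.anc_par two)
      fun a : V.F.par u = u => by rw [a] at lp; omega).2 (Or.inl fun a => ?_)⟩
  have a1 : 2 ≤ V.kap j (V.F.tree (V.F.par u)) := a.1
  have a2 : V.kap j (V.F.tree (V.F.par u)) ≤ V.F.lev (V.F.par u) + 1 := a.2
  rw [tp, h.kap] at a1 a2
  rcases k with k | k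
  · simp [k] at a1
  · omega

theorem not_own_tN {w : K × Bool} {c : ZMod 3} {l : Fin 4} (h : Y.ty = .tN w c l) : ¬Y.Own T := by
  rintro (⟨_, _, _, _, _, a, -⟩ | ⟨_, _, _, _, _, -, a, -⟩) <;> simp [ty_val a] at h

/-- the item `c` is cut at `D` or alive, the other item is alive -/
theorem ta_cut (V : Fw K N r r0 q D e b) (ne : T ≠ Y) (c : Bool) : ∃ π : Par r r0 D,
    π.TA (cond c (tw Y T) (tw T Y)) ∧ π.rook = false ∧ π.op = none ∧ π.cut (!c) = 0 ∧
      (π.cut c = 0 ∨ (π.cut c : ℕ) = D) := by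
  obtain ⟨κ, k⟩ := exists_kap T Y
  have := V.D_pos
  by_cases h : Y.Hk D T.col
  · let π : Par r r0 D :=
      { Par.base r r0 D with kap := κ, cut i := if i = c then Fin.last D else 0 }
    have z : Fin.last D ≠ 0 := fun a => by simp at a; omega
    refine ⟨π, ?_, rfl, rfl, by simp [π], by simp [π]⟩
    cases c
    · refine .two rfl rfl (fun c => (k c).1) (by simp [π]) (by simp [π, Par.base])
        (by simp [π, Par.base]) ne ?_ (by simp [π, z])
      rintro (_ | _) a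
      exacts [absurd a z, ⟨fun c => (k c).2.2, Px.last, fun _ => h⟩]
    · refine .two rfl rfl (fun c => (k c).1) (by simp [π]) (by simp [π, Par.base])
        (by simp [π, Par.base]) ne.symm ?_ (by simp [π, z])
      rintro (_ | _) a
      exacts [⟨fun c => (k c).2.2, Px.last, fun _ => h⟩, absurd a z]
  · simp only [Hk, not_forall] at h
    obtain ⟨w, l, h, -⟩ := h
    have cn : T.col ≠ Y.col := col_val h ▸ T.col_ne_succ
    have ap := Par.Apart.of_col cn (mt Own.symm (not_own_tN (ty_val h)))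
    let π : Par r r0 D := { Par.base r r0 D with kap := κ }
    refine ⟨π, ?_, rfl, rfl, rfl, Or.inl rfl⟩
    cases c
    · refine .two rfl rfl (fun c => (k c).1) (fun _ => Or.inl rfl) (by simp [π, Par.base])
        (fun _ _ => rfl) ne ?_ fun _ _ => ⟨ap.bf, .last (mt Mh.col cn) (mt Mh.col cn.symm), nofun⟩
      rintro (_ | _) -
      exacts [⟨fun c => (k c).2.1, Px.last, absurd rfl⟩, ⟨fun c => (k c).2.2, Px.last, absurd rfl⟩]
    · refine .two rfl rfl (fun c => (k c).1) (fun _ => Or.inl rfl) (by simp [π, Par.base])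
        (fun _ _ => rfl) ne.symm ?_
        fun _ _ => ⟨ap.bf', .last (mt Mh.col cn.symm) (mt Mh.col cn), nofun⟩
      rintro (_ | _) -
      exacts [⟨fun c => (k c).2.2, Px.last, absurd rfl⟩, ⟨fun c => (k c).2.1, Px.last, absurd rfl⟩]

theorem zi_lt (π : Par r r0 D) : π.zi (some false) < π.zi (some true) := by simp [Par.zi]

/-- an inner node and a token in another tree -/
theorem sv_P (h : V.W.S.Acc d v L i f σ) (ne : V.F.tree u ≠ V.F.tree (V.W.S.sn L f σ))
    (l : V.F.lev u < D) (o : V.F.lev u % 2 = 1 ∨ d = false)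
    (out : ∀ n, V.W.In L n → V.F.tree n ≠ V.F.tree u) : V.W.Sv (hv (nl u)) v := by
  obtain ⟨π, ta, a1, a2, a3, a4⟩ := ta_cut V ne (!d)
  obtain ⟨g, A, E, j, s, b1, b2, b3, b4, b5, -⟩ := exists_tw _ ta out fun _ _ c => absurd a2 c
  have ru := s.role _ _ b1 b3
  have rx := s.role _ _ b2 b4
  have lv := s.liv b2 b4 a3
  have rk := s.rook.trans a1
  have k : (V.par j).cut (!d) = 0 ∨ V.F.lev u < (V.par j).cut (!d) :=
    s.cut ▸ a4.imp_right (by omega)
  intro _ _
  rcases Nat.mod_two_eq_zero_or_one (V.F.lev u) with c | c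
  · obtain rfl := o.resolve_left (by omega)
    exact row_even h b5 (ev_of ru c rk k) lv rx rk (zi_lt _)
  · refine row_odd h b5 (.two (run_of ru c k) (run_lab lv (V.W.S.lev_sn V.D_pos _ _ _))
      (Wd.On.tree_ne ne) ru rx) ?_
    cases d
    exacts [rx.lt ru rk (zi_lt _), ru.lt rx rk (zi_lt _)]

/-- the token lies in the tree of the node -/
theorem sv_K (h : V.W.S.Acc d v L i f σ) (t : V.F.tree u = V.F.tree (V.W.S.sn L f σ))
    (o : V.F.lev u % 2 = 1 ∨ d = false ∨ ∀ w c l, (V.W.S.typ L f, σ) ≠ (.tN w c l, .H)) :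
    V.W.Sv (hv (nl u)) v := by
  obtain ⟨κ, k⟩ := exists_kap (V.F.tree u) (V.F.tree u)
  obtain ⟨m, m1, -, m2⟩ := fresh V L (V.F.tree u)
  let π : Par r r0 D := { Par.base r r0 D with
    kap := κ
    op := some false
    ek := m
    fl := if V.F.lev u % 2 = 1 ∨ d = false then 2 else 0 }
  have ta : π.TA (so (V.F.tree u)) := .solo (by simp [π]) rfl (fun _ => rfl) k
    (.last Mh.irr Mh.irr) nofun fun _ => ⟨fun _ => rfl, m1, fun w c l a => by
      have : V.F.lev u % 2 = 1 ∨ d = false := o.imp_right fun o => o.resolve_right fun o =>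
        o w c l ((congrArg Subtype.val (t.trans (h.at.tree V.D_pos))).symm.trans a)
      simp [π, this]⟩
  obtain ⟨g, E, j, s, b1, -, b2, -⟩ := exists_out (V := V) ta L u fun n a =>
    ⟨fun _ c => tree_sn a f σ (c.2.trans t), fun _ => m2 n a, fun _ _ _ c => nomatch c.1⟩
  have mu : V.F.tree u ∈ so (V.F.tree u) false := ⟨rfl, rfl⟩
  have ru := s.role _ _ mu b1
  have lv := s.liv mu b1 rfl
  obtain ⟨m, wu⟩ := lk_of s mu b1 rfl rfl rfl m1
  obtain ⟨m', wx⟩ := lk_of (n := V.W.S.sn L f σ) s (t ▸ mu) (t ▸ b1) rfl rfl rfl m1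
  intro _ _
  by_cases c : V.F.lev u % 2 = 1 ∨ d = false
  · have z : (V.par j).zi (some false) < (V.par j).zi none := by
      simp [Par.zi, s.fl.trans (if_pos c)]
    cases d
    · exact row_KD h b2 wu (t ▸ lv) (t ▸ ru) z
    · exact row_KU h b2 wx (lv.run rfl (by simpa using c) (V.F.surj u).1) ru z
  · cases d
    · simp at c
    · exact row_EU h b2 wx (ev_of ru (by simp at c; omega) wu.rook (Or.inl (by rw [s.cut]; rfl)))
        (s.fl.trans (if_neg c))

/-- an even node and an access up; the token leaks -/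
theorem sv_EU (h : V.W.S.Acc true v L i f σ) (ne : V.F.tree u ≠ V.F.tree (V.W.S.sn L f σ))
    (ev : V.F.lev u % 2 = 0) (o : ∀ w c l, (V.W.S.typ L f, σ) ≠ (.tN w c l, .H))
    (out : ∀ n, V.W.In L n → V.F.tree n ≠ V.F.tree u) : V.W.Sv (hv (nl u)) v := by
  obtain ⟨κ, k⟩ := exists_kap (V.F.tree (V.W.S.sn L f σ)) (V.F.tree (V.W.S.sn L f σ))
  obtain ⟨m, m1, m3, m2⟩ := fresh V L (V.F.tree u)
  have := V.D_pos
  have := V.od
  have := (V.F.surj u).2.1
  have o' : ∀ w c l, (V.F.tree (V.W.S.sn L f σ)).1 ≠ (.tN w c l, .H) := fun w c l a =>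
    o w c l ((congrArg Subtype.val (h.at.tree V.D_pos)).symm.trans a)
  let π : Par r r0 D := { Par.base r r0 D with
    kap := κ
    op := some false
    ek := m
    cut i := cond i (Fin.last D) 0 }
  have ta : π.TA (tw (V.F.tree (V.W.S.sn L f σ)) (V.F.tree u)) :=
    .opn (i := false) rfl rfl rfl rfl (fun _ => rfl) m1 rfl ne.symm (m3 _ _) k
      (Or.inl ⟨rfl, fun a => by simp [π] at a; omega, fun _ _ a => absurd a (o' _ _ _)⟩)
      (fun _ _ _ a => absurd a (o' _ _ _)) nofun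
  obtain ⟨g, A, E, j, s, b1, b2, b3, b4, b5, -⟩ := exists_tw true ta out fun n a _ => m2 n a
  obtain ⟨m', wx⟩ := lk_of s b2 b4 rfl rfl rfl m1
  intro _ _
  exact row_EU h b5 wx (ev_of (s.role _ _ b1 b3) ev wx.rook
    (Or.inr (by rw [s.cut]; show _ < D; omega))) s.fl

variable (V) in
/-- the label `x` may come before the label `y` while both trees are alive -/
def Can (x y : N) : Prop := (V.F.tree x).Bf (V.F.tree y) ∨ ((V.F.tree x).Con (V.F.tree y) ∧
  crd (some ((V.F.tree x).sl.lk (V.F.tree y).sl).1) (V.F.lb x) ≠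
    crd (some ((V.F.tree x).sl.lk (V.F.tree y).sl).2) (V.F.lb y))

theorem ta_bf {np : ZMod 3 → Fin (r0 + 1)} (h : T.Bf Y) (p : Pn np T Y) : ∃ π : Par r r0 D,
    π.TA (tw T Y) ∧ π.rook = false ∧ π.op = none ∧ π.np = np ∧ ∀ i, π.cut i = 0 := by
  obtain ⟨κ, k⟩ := exists_kap T Y
  refine ⟨{ Par.base r r0 D with kap := κ, np := np }, .two rfl rfl (fun c => (k c).1)
    (fun _ => Or.inl rfl) p.one (fun _ _ => rfl) h.ne ?_ fun _ _ => ⟨h, p, nofun⟩, rfl, rfl, rfl,
    fun _ => rfl⟩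
  rintro (_ | _) -
  exacts [⟨fun c => (k c).2.1, p.px, absurd rfl⟩, ⟨fun c => (k c).2.2, p.py, absurd rfl⟩]

theorem con_bf (h : T.Con Y) : Y.Bf T := by
  refine ⟨fun a => Con.irr (a ▸ h), fun a => ?_, fun a => ?_, ?_, ?_⟩
  · have := a.2
    have := h.2
    omega
  · simpa [← h.1, a.2.2.1] using a.1
  · rintro ⟨_, _, _, a, c⟩
    simpa [ty_val a, ty_val c] using h.1
  · rintro (⟨_, _, _, _, _, a, c, -⟩ | ⟨_, _, _, _, _, a, c, -⟩) <;>
      simpa [ty_val a, ty_val c] using h.1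

theorem ta_rook (h : T.Con Y) (rk : Bool) : ∃ π : Par r r0 D, π.TA (tw Y T) ∧ π.rook = true ∧
    π.op = none ∧ π.rk = rk ∧ π.lk true = some (T.sl.lk Y.sl).1 ∧
      π.lk false = some (T.sl.lk Y.sl).2 ∧ ∀ i, π.cut i = 0 := by
  obtain ⟨κ, k⟩ := exists_kap Y T
  obtain ⟨np, p⟩ := exists_pn Y T
  refine ⟨{ Par.base r r0 D with
      kap := κ
      np := np
      rook := true
      rk := rk
      lk i := some (cond i (T.sl.lk Y.sl).1 (T.sl.lk Y.sl).2) }, .two rfl rfl (fun c => (k c).1)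
    (fun _ => Or.inl rfl) p.one (fun _ _ => rfl) (con_bf h).ne ?_
    fun _ _ => ⟨con_bf h, p, fun _ => ⟨h, rfl, rfl⟩⟩, rfl, rfl, rfl, rfl, rfl, fun _ => rfl⟩
  rintro (_ | _) -
  exacts [⟨fun c => (k c).2.1, p.px, absurd rfl⟩, ⟨fun c => (k c).2.2, p.py, absurd rfl⟩]

/-- two labels in a prescribed order -/
theorem ta_can (h : Can V x y) (lx : V.F.lev x = D) (ly : V.F.lev y = D) :
    ∃ (c : Bool) (π : Par r r0 D), π.TA (cond c (tw (V.F.tree y) (V.F.tree x))
      (tw (V.F.tree x) (V.F.tree y))) ∧ π.op = none ∧ (∀ i, π.cut i = 0) ∧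
      ∀ g A E j, V.St g π A E j → V.Role j (some c) (V.F.tree x) →
        V.Role j (some (!c)) (V.F.tree y) → (V.L j).key x < (V.L j).key y := by
  rcases h with h | ⟨h, ne⟩
  · obtain ⟨np, p⟩ := exists_pn (V.F.tree x) (V.F.tree y)
    obtain ⟨π, a1, a2, a3, -, a4⟩ := ta_bf (D := D) h p
    exact ⟨false, π, a1, a3, a4, fun g A E j s c c' => c.lt c' (s.rook.trans a2) (zi_lt _)⟩
  · obtain ⟨rk, o⟩ := exists_sg ne
    obtain ⟨π, a1, a2, a3, a4, a5, a6, a7⟩ := ta_rook (D := D) h rk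
    exact ⟨true, π, a1, a3, a7, fun g A E j s c c' => (rook_lt c c' (s.rook.trans a2) lx ly).2
      (Or.inr ⟨congrArg HT.wor h.1, Or.inl (by rwa [s.rk, s.lk, a4, a5, Bool.not_true, a6])⟩)⟩

/-- a label and a token in the right order -/
theorem sv_L (h : V.W.S.Acc d v L i f σ) (l : V.F.lev u = D)
    (can : cond d (Can V u (V.W.S.sn L f σ)) (Can V (V.W.S.sn L f σ) u))
    (out : ∀ n, V.W.In L n → V.F.tree n ≠ V.F.tree u) : V.W.Sv (hv (nl u)) v := by
  have lx := V.W.S.lev_sn V.D_pos L f σ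
  obtain ⟨c, π, ta, a1, a2, a3⟩ : ∃ (c : Bool) (π : Par r r0 D),
      π.TA (cond c (tw (V.F.tree (V.W.S.sn L f σ)) (V.F.tree u))
        (tw (V.F.tree u) (V.F.tree (V.W.S.sn L f σ)))) ∧ π.op = none ∧ (∀ i, π.cut i = 0) ∧
      ∀ g A E j, V.St g π A E j → V.Role j (some c) (V.F.tree u) →
        V.Role j (some (!c)) (V.F.tree (V.W.S.sn L f σ)) →
        cond d ((V.L j).key u < (V.L j).key (V.W.S.sn L f σ))
          ((V.L j).key (V.W.S.sn L f σ) < (V.L j).key u) := by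
    cases d
    · obtain ⟨c, π, a1, a2, a3, a4⟩ := ta_can can lx l
      refine ⟨!c, π, ?_, a2, a3, fun g A E j s c c' => a4 g A E j s (by simpa using c') c⟩
      cases c <;> exact a1
    · exact ta_can can l lx
  obtain ⟨g, A, E, j, s, b1, b2, b3, b4, b5, -⟩ := exists_tw c ta out fun _ _ c => absurd a1 c
  have ru := s.role _ _ b1 b3
  have rx := s.role _ _ b2 b4
  intro _ _
  exact row_odd h b5 (.two (run_lab (s.liv b1 b3 (a2 _)) l) (run_lab (s.liv b2 b4 (a2 _)) lx)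
    (Wd.On.tree_ne fun t => c.not_ne_self (Option.some.inj (ru.eq (t ▸ rx))).symm) ru rx) (a3 g A E j s ru rx)

/-- the last label before a node and a hub of its moat -/
theorem sv_LZ (l : V.F.lev u = D) (k : Fin (r0 + 1))
    (h : (V.F.tree u).1 = (.hP (V.F.tree y).ty.wor ((V.F.tree y).col + 1), .Z)) :
    V.W.Sv (hv (nl u)) (hv (inl (inr (y, k)))) := by
  have cu : (V.F.tree u).col = (V.F.tree y).col + 1 := col_val h
  have cn : (V.F.tree y).col ≠ (V.F.tree u).col := cu ▸ col_ne_succ _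
  have no : ∀ T : Kl K r r0, ¬T.Own (V.F.tree u) := by
    rintro T (⟨_, _, _, _, _, -, a, -⟩ | ⟨_, _, _, _, _, a, -⟩) <;> simp [h] at a
  have two := V.two_r0
  rw [← Wd.mo_val]
  intro _ _
  rcases Nat.eq_zero_or_pos k with k0 | k0
  · obtain ⟨κ, kp⟩ := exists_kap (V.F.tree y) (V.F.tree u)
    let π : Par r r0 D := { Par.base r r0 D with
      kap := κ
      op := some false
      ek := ⟨1, by omega⟩
      flip := true
      fl := 2 }
    have ta : π.TA (tw (V.F.tree y) (V.F.tree u)) :=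
      .opn (i := false) (T := V.F.tree y) (C := V.F.tree u) rfl rfl rfl rfl (fun _ => rfl) rfl rfl
        (fun a => cn (a ▸ rfl))
        (by simp [ty_val h, ent]) (fun c => ⟨(kp c).1, (kp c).2.1, (kp c).2.1⟩)
        (Or.inr ⟨rfl, fun c => ⟨(kp c).1, (kp c).2.2, (kp c).2.2⟩, .of_col cn (no _), by simp [h],
          fun ⟨_, _, _, _, _, a⟩ => by simp [h] at a, fun _ => rfl⟩)
        (fun w c l a => Or.inr ⟨rfl, Or.inr (by
          rw [cu, col_val a]
          exact (by decide : ∀ c : ZMod 3, c + 1 + 1 ≠ c) c)⟩) fun _ => ⟨rfl, rfl, rfl, _, h⟩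
    obtain ⟨g, a⟩ := V.W.exists_grp V.grp [nl y, nl u] (by simp)
    obtain ⟨j, s⟩ := V.exists_st g ta [] (by simp) (by simp)
    have sy := (a (nl y) (by simp) j s.grp).wor (V.W.in_pay (inl y))
    have su := (a (nl u) (by simp) j s.grp).wor (V.W.in_pay (inl u))
    have o : V.Opn j y := s.opn (i := false) rfl sy rfl (Nat.zero_le _)
    have x := o.ot.ell
    rw [s.ek] at x
    rw [k0]
    exact row_LZ0 (s := 0) (by omega) o.port (s.role false _ rfl sy)
      (run_lab (s.liv (i := true) rfl su rfl) l) (s.role true _ rfl su) x s.fl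
  · have tx : (V.F.tree (V.W.ell y 0)).1 =
        (.hM (V.F.tree y).ty.wor ((V.F.tree y).col + 1) 0, .Z) := V.tree_ell y 0
    have bf : (V.F.tree u).Bf (V.F.tree (V.W.ell y 0)) := by
      refine ⟨fun a => ?_, fun a => ?_, fun a => ?_, fun ⟨_, _, _, a, _⟩ => ?_,
        mt Own.symm (no _)⟩
      · simp [← a, h] at tx
      · simpa [ty_val h, ty_val tx] using a.1
      · simpa [ty_val h, HT.hd] using a.1
      · simp [h] at a
    have z : ∀ {w c m p}, (V.F.tree (V.W.ell y 0)).1 = (.hM w c m, .Z) → m ≤ p := fun a => by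
      obtain ⟨-, -, rfl⟩ : _ ∧ _ ∧ _ := by simpa [tx] using a
      exact Fin.zero_le _
    obtain ⟨π, ta, a1, a2, a3, a4⟩ := ta_bf (D := D) (np := pt (V.F.tree y).col k) bf
      ⟨pt_one _ _, by simp [Px, h], fun _ _ _ a _ => z a, by simp [Ph, h], by simp [Ph, h],
        by simp [h], fun _ _ _ a _ => z a⟩
    have iy : V.W.In (V.W.prv (Wd.mo y 0)) y := V.W.in_prv (Wd.mo y 0)
    obtain ⟨g, A, E, j, s, b1, b2, b3, b4, -, b6⟩ := exists_tw (L := V.W.prv (Wd.mo y 0)) false ta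
      (fun n a t => cn (a.unique iy ▸ congrArg Kl.col t)) fun _ _ c => absurd a2 c
    have ru := s.role _ _ b1 b3
    have rx := s.role _ _ b2 b4
    have ry := b6 y iy
    exact row_LZe V.ev k0 (by
        rw [port_np ry.1 fun o => Cut.not_ot (Or.inl ry) o.ot, s.np, a3, pt_self]) ry
      (.two (run_lab (s.liv b1 b3 (a4 _)) l) (run_lab (s.liv b2 b4 (a4 _)) (V.lev_ell y 0))
        (Wd.On.tree_ne bf.ne) ru rx) (ru.lt rx (s.rook.trans a1) (zi_lt _))

theorem hd_typ (L : Hub K N (Pt K N) r0) (f : Bool) : (V.W.S.typ L f).hd = f := by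
  cases f
  · rcases L with (n | w) | z <;> rfl
  · simp only [Pre.typ]
    rcases V.W.S.O.dA L with (n | w) | z <;> rfl

theorem val_sn (h : V.W.S.At L i f σ) : (V.F.tree (V.W.S.sn L f σ)).1 = (V.W.S.typ L f, σ) :=
  congrArg Subtype.val (h.tree V.D_pos)

/-- a label of a class of the position of the point -/
theorem can_at {k : Fin (2 * r + 9 + 1)} (h : V.W.S.At L k f σ) (l : V.F.lev u = D)
    (t : (V.F.tree u).1 = (V.W.S.typ L f, σ))
    (na : ¬(HL (2 * r + 9) V.W.S.hang).Adj (hv (nl u)) (inr (L, k))) :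
    ∃ d i σ', V.W.S.Acc d (inr (L, k)) L i f σ' ∧
      cond d (Can V u (V.W.S.sn L f σ')) (Can V (V.W.S.sn L f σ') u) := by
  have hu := V.F.anc_lb u
  have tu := V.F.tree_anc (V.F.lb u) V.D_pos le_rfl
  rw [l] at hu
  rw [hu] at tu
  have e : V.F.lb u = (⟨(V.W.S.typ L f, σ), h.act⟩, (V.F.lb u).2.1, (V.F.lb u).2.2) :=
    Prod.ext (Subtype.ext ((congrArg Subtype.val tu).symm.trans t)) rfl
  obtain ⟨c, ne⟩ : ∃ c, crd (some c) (V.F.lb u) ≠ V.x L f (σ.var ((V.W.S.typ L f).len r) c) := by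
    rcases h.coord (a := (V.F.lb u).2.1) (a' := (V.F.lb u).2.2) fun a => na (by
      rw [Pre.lab, ← e] at a
      exact (congrArg (fun n => V.W.S.hang L k (some (nl n))) hu).mp a) with a | a
    exacts [⟨false, fun c => a (Fin.ext c)⟩, ⟨true, fun c => a (Fin.ext c)⟩]
  have o := h.off
  rcases Slot.pin h.act c with ⟨σ', a1, a2, rfl⟩ | ⟨σ', a1, a2, rfl⟩
  · have h' : V.W.S.At L (k + 1) f σ' := ⟨a1, by omega⟩
    refine ⟨true, _, σ', h'.up, Or.inr ⟨⟨(ty_val t).trans (ty_val (val_sn h')).symm, ?_⟩, ?_⟩⟩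
    · rw [off, off, ty_val t, sl_val t, ty_val (val_sn h'), sl_val (val_sn h'), a2]
    · rwa [sl_val t, sl_val (val_sn h'), lb_sn h', ← h.link h']
  · have h' : V.W.S.At L (k - 1) f σ' := ⟨a1, by omega⟩
    refine ⟨false, _, σ', h'.dn (by omega),
      Or.inr ⟨⟨(ty_val (val_sn h')).trans (ty_val t).symm, ?_⟩, ?_⟩⟩
    · rw [off, off, ty_val t, sl_val t, ty_val (val_sn h'), sl_val (val_sn h'), a2]
    · rw [sl_val t, sl_val (val_sn h'), lb_sn h', Slot.link a1 h.act a2]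
      exact ne.symm

variable (V) in
/-- an access whose label is not at the wrong end of a half line -/
theorem acc_mid (L : Hub K N (Pt K N) r0) (k : Fin (2 * r + 9 + 1)) : ∃ d i f σ,
    V.W.S.Acc d (inr (L, k)) L i f σ ∧ cond d ((k : ℕ) + 1 = i) (i + 1 = k) ∧
      ((σ ≠ .H ∧ σ ≠ .Z) ∨ f = !d) := by
  rcases (by omega : (k : ℕ) ≤ r + 3 ∨ k = r + 4 ∨ k = r + 5 ∨ r + 6 ≤ k) with c | c | c | c
  · obtain ⟨f, σ, a⟩ := V.W.S.acc_up L k (Or.inl (by omega))
    exact ⟨true, _, f, σ, a, rfl, Or.inr (a.at.half.2 (by omega))⟩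
  · exact ⟨false, _, _, _, (V.W.S.lo_Y1 L).dn (by omega), c.symm, Or.inl (by simp)⟩
  · exact ⟨true, _, _, _, Stat.At.up (σ := .X1) (by rw [c]; exact V.W.S.hi_X1 L), rfl, Or.inl (by simp)⟩
  · obtain ⟨f, σ, a⟩ := V.W.S.acc_dn L k (Or.inl (by omega))
    exact ⟨false, _, f, σ, a, by simp only [cond_false]; omega,
      Or.inr (by simpa using mt a.at.half.1 (by omega))⟩

theorem at_con (h : V.W.S.At L i f σ) {m : ℕ} (t : T.ty = V.W.S.typ L f)
    (o : T.off + i = σ.off ((V.W.S.typ L f).len r) + m) : V.W.S.At L m f T.sl :=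
  ⟨t ▸ T.2, by have := h.off; rw [off, t] at o; omega⟩

/-- a label and a vertex of a line -/
theorem sv_lab {k : Fin (2 * r + 9 + 1)} (l : V.F.lev u = D)
    (out : ∀ n, V.W.In L n → V.F.tree n ≠ V.F.tree u) (t : V.Tsk (hv (nl u)) (inr (L, k))) :
    V.W.Sv (hv (nl u)) (inr (L, k)) := by
  intro _ _
  by_cases c : ∃ f σ, V.W.S.At L k f σ ∧ (V.F.tree u).1 = (V.W.S.typ L f, σ)
  · obtain ⟨f, σ, a1, a2⟩ := c
    obtain ⟨d, i, σ', b1, b2⟩ := can_at a1 l a2 t.na
    exact sv_L b1 l b2 out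
  obtain ⟨d, i, f, σ, a, a1, a2⟩ := acc_mid V L k
  by_cases ne : V.F.tree u = V.F.tree (V.W.S.sn L f σ)
  · exact sv_K a ne (Or.inl (odd_lab l))
  have vx := val_sn a.at
  have hd := hd_typ (V := V) L f
  have cc : ∀ h : (V.F.tree u).ty = V.W.S.typ L f, ¬(V.F.tree u).off + i =
      σ.off ((V.W.S.typ L f).len r) + k := fun h o => c ⟨f, _, at_con a.at h o, Prod.ext h rfl⟩
  have ox : (V.F.tree (V.W.S.sn L f σ)).off = σ.off ((V.W.S.typ L f).len r) := by
    rw [off, ty_val vx, sl_val vx]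
  refine sv_L a l ?_ out
  cases d <;> simp only [cond_true, cond_false, Bool.not_true, Bool.not_false] at a1 a2 ⊢
  · refine Or.inl ⟨Ne.symm ne, fun x => cc (x.1.symm.trans (ty_val vx)) (by have := x.2; omega),
      fun x => ?_, ?_, ?_⟩
    · have x1 := (ty_val vx ▸ hd).symm.trans x.1
      exact a2.elim (fun c => c.2 ((sl_val vx).symm.trans x.2.1)) (by simp [x1])
    · rintro ⟨w, c, m, x, -⟩
      obtain ⟨x1, rfl⟩ := Prod.mk.inj (vx.symm.trans x)
      obtain rfl := a2.resolve_left (by simp)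
      have := a.at.off
      have := k.2
      simp only [x1, HT.st, HT.len, Slot.off, Fin.val_last] at *
      omega
    · rintro (⟨w, p, c, p', c', x, -⟩ | ⟨w, p, c, p', c', x', x, lt⟩) <;>
        obtain ⟨x1, rfl⟩ := Prod.mk.inj (vx.symm.trans x) <;>
        obtain rfl := a2.resolve_left (by simp)
      · simp [x1, HT.hd] at hd
      · refine t.c2 ⟨w, p', p, Or.inr ⟨L, c', ?_, x1⟩, Or.inl ⟨u, c, rfl, l, x'⟩, lt⟩
        have := a.at.off
        simp only [x1, HT.st, HT.len, Slot.off, Fin.val_castSucc, Fin.val_last] at this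
        rw [← vz_val, show (k : ℕ) = 2 * r + 9 by omega]
  · refine Or.inl ⟨ne, fun x => cc (x.1.trans (ty_val vx)) (by have := x.2; omega),
      fun x => ?_, ?_, ?_⟩
    · have x1 := (ty_val vx ▸ hd).symm.trans x.2.2.1
      exact a2.elim (fun c => c.1 ((sl_val vx).symm.trans x.2.2.2.1)) (by simp [x1])
    · rintro ⟨w, c, m, -, x⟩
      obtain ⟨x1, rfl⟩ := Prod.mk.inj (vx.symm.trans x)
      obtain rfl := a2.resolve_left (by simp)
      simp [x1, HT.hd] at hd
    · rintro (⟨w, p, c, p', c', -, x, -⟩ | ⟨w, p, c, p', c', x, -⟩) <;>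
        obtain ⟨x1, rfl⟩ := Prod.mk.inj (vx.symm.trans x) <;>
        obtain rfl := a2.resolve_left (by simp)
      · simp [x1, HT.hd] at hd
      · have := a.at.off
        simp only [x1, HT.st, Slot.off] at this
        omega

end Fw.Rp

open Fw.Rp Kl in
/-- **A node and a point outside the blocks of its tree.** -/
theorem Fw.gP (V : Fw K N r r0 q D e b) (G : V.W.S.Good e) : V.GP := by
  intro u d v L i f σ a out t _ _
  have vx := val_sn a.at
  rcases (V.F.surj u).2.1.eq_or_lt with l | l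
  · rcases a.cases with ⟨rfl, z, rfl, rfl, rfl, rfl, rfl⟩ | ⟨rfl, w, c, rfl, rfl, rfl, rfl⟩ |
      ⟨k, rfl, -⟩
    · by_cases ne : V.F.tree u = V.F.tree (V.W.S.sn (inr z) false .H)
      · exact sv_K a ne (Or.inl (odd_lab l))
      refine sv_L a l (Or.inl ⟨ne, fun x => ?_, fun x => ?_, fun ⟨_, _, _, _, x⟩ => ?_, ?_⟩) out
      · simpa [off, sl_val vx, Slot.off] using x.2
      · simpa [ty_val vx, hd_typ] using x.2.2.1
      · simp [vx] at x
      · rintro (⟨_, _, _, _, _, -, x, -⟩ | ⟨w, p, c, p', c', x, x', lt⟩)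
        · simp [vx] at x
        · exact t.c1 ⟨w, p', p, Or.inl ⟨u, c', rfl, l, x'⟩,
            Or.inr ⟨z, c, rfl, (Prod.mk.inj (vx.symm.trans x)).1⟩, lt⟩
    · by_cases ne : V.F.tree u = V.F.tree (V.W.S.sn L true .Z)
      · exact sv_K a ne (Or.inl (odd_lab l))
      have ty : V.W.S.typ L true =
          .hM (V.F.tree w.1).ty.wor ((V.F.tree w.1).col + 1) w.2 := by
        rw [Pre.typ, c]
        rfl
      rw [ty] at vx
      by_cases mz : (V.F.tree (V.W.S.sn L true .Z)).Mz (V.F.tree u)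
      · obtain ⟨_, _, _, x, x'⟩ := mz
        obtain ⟨rfl, rfl, -⟩ : _ ∧ _ ∧ _ := by
          simpa only [vx, Prod.mk.injEq, HT.hM.injEq, and_true] using x
        exact sv_LZ l w.2 x'
      refine sv_L a l (Or.inl ⟨Ne.symm ne, fun x => ?_, fun x => ?_, mz, ?_⟩) out
      · have x1 := x.2
        have := (V.F.tree u).sl.off_le (ρ := (V.F.tree u).ty.len r)
        simp only [off, x.1, sl_val vx, Slot.off] at x1 this
        omega
      · simpa [ty_val vx, HT.hd] using x.1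
      · rintro (⟨_, _, _, _, _, x, -⟩ | ⟨_, _, _, _, _, -, x, -⟩) <;> simp [vx] at x
    · exact sv_lab l out t
  by_cases c : (V.F.lev u % 2 = 1 ∨ d = false) ∨ ∀ w c l, (V.W.S.typ L f, σ) ≠ (.tN w c l, .H)
  · by_cases ne : V.F.tree u = V.F.tree (V.W.S.sn L f σ)
    · exact sv_K a ne (or_assoc.1 c)
    by_cases c' : V.F.lev u % 2 = 1 ∨ d = false
    · exact sv_P a ne l c' out
    · obtain rfl : d = true := by simpa using fun x => c' (Or.inr x)
      exact sv_EU a ne (by omega) (c.resolve_left c') out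
  simp only [not_or, not_forall, not_not, Bool.not_eq_false] at c
  obtain ⟨⟨ev, rfl⟩, w, c, m, x0⟩ := c
  obtain ⟨x, rfl⟩ := Prod.mk.inj x0
  obtain rfl : f = false := by rw [← hd_typ (V := V) L f, x]; rfl
  obtain ⟨y, rfl⟩ : ∃ y, L = nl y := by
    rcases L with (y | z) | z
    exacts [⟨y, rfl⟩, (nomatch x), nomatch x]
  have i1 := a.at.pos_eq (V.W.S.pay_H (inl y)) rfl
  rcases a.cases with ⟨-, z, x, -⟩ | ⟨x, -⟩ | ⟨k, rfl, x⟩
  · exact nomatch x
  · exact nomatch x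
  obtain rfl : k = 0 := Fin.ext (by simp only [cond_true] at x; simp only [Fin.val_zero]; omega)
  rw [← vz_val]
  exact V.sv_eh G u y (by omega) (out y (V.W.in_pay (inl y)))

end Pool.Agent.P.MP_439f1f_co
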