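import Pool.Agent.P.MP_439f1f_co.Rs1
import Pool.Agent.P.MP_439f1f_co.Top0

/-!
The group of two points of one colour in different blocks.
-/

set_option autoImplicit false

namespace Pool.Agent.P.MP_439f1f_co

variable {K N : Type} {r r0 q D e b : ℕ} [DecidableEq K] [Finite K] [Finite N] [Nonempty K]

theorem Fw.gC (V : Fw K N r r0 q D e b) : V.GC := fun _ _ _ _ _ _ _ _ _ _ _ _ a a' c nl nb k =>
  V.sv_samecol a a' c nl nb k.c1 k.c2

end Pool.Agent.P.MP_439f1f_co
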