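import Pool.Agent.P.MP_439f1f_co.Sv1
import Pool.Agent.P.MP_439f1f_co.Dy7

/-!
Two lines in one loop or in one payload block.
-/

set_option autoImplicit false
set_option linter.unusedSectionVars false

namespace Pool.Agent.P.MP_439f1f_co

open Function Sum

variable {K N : Type} {r r0 q D e b : ℕ} [DecidableEq K]

section stat

variable {Y β : Type} [LinearOrder β] {W : Stat K N Y β r r0 q D e b} {L L' : Hub K N Y r0}
  {i i' : ℕ} {u u' : Bool} {σ σ' : Slot (r + 1)}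

theorem Pre.hd_typ (W : Pre K N Y β r r0 q D e b) (L : Hub K N Y r0) (u : Bool) :
    (W.typ L u).hd = u := by
  cases u
  · rcases L with (n | w) | z <;> rfl
  · simp only [Pre.typ]
    rcases W.O.dA L with (n | w) | z <;> rfl

theorem Pre.typ_tN {W : Pre K N Y β r r0 q D e b} {w : K × Bool} {c : ZMod 3} {l : Fin 4}
    (h : W.typ L u = .tN w c l) : u = false ∧ ∃ n, L = inl (inl n) := by
  obtain rfl : u = false := by rw [← W.hd_typ L u, h]; rfl
  rcases L with (n | z) | z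
  exacts [⟨rfl, n, rfl⟩, (nomatch h), nomatch h]

theorem Pre.typ_tE {W : Pre K N Y β r r0 q D e b} {w : K × Bool} {c : ZMod 3} {k : Fin (r0 + 1)}
    (h : W.typ L u = .tE w c k) : u = false ∧ ∃ n, L = inl (inr (n, k)) := by
  obtain rfl : u = false := by rw [← W.hd_typ L u, h]; rfl
  rcases L with (n | ⟨n, k'⟩) | z
  exacts [(nomatch h), ⟨rfl, n, by rw [(HT.tE.inj h).2.2.symm]⟩, nomatch h]

theorem Pre.typ_tS {W : Pre K N Y β r r0 q D e b} {w : K × Bool} {p : ZMod 12} {c : ZMod 3}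
    (h : W.typ L u = .tS w p c) : u = false ∧ ∃ z, L = inr (w.1, z) := by
  obtain rfl : u = false := by rw [← W.hd_typ L u, h]; rfl
  rcases L with (n | z) | ⟨s, z⟩
  exacts [(nomatch h), (nomatch h), ⟨rfl, z, by rw [← (HT.tS.inj h).1]⟩]

theorem Pre.typ_hP {W : Pre K N Y β r r0 q D e b} {w : K × Bool} {c : ZMod 3}
    (h : W.typ L u = .hP w c) : u = true ∧ ∃ n, W.O.dA L = inl (inl n) := by
  obtain rfl : u = true := by rw [← W.hd_typ L u, h]; rfl
  simp only [Pre.typ] at h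
  revert h
  rcases W.O.dA L with (n | z) | z <;> intro h
  exacts [⟨rfl, n, rfl⟩, (nomatch h), nomatch h]

theorem Pre.typ_hM {W : Pre K N Y β r r0 q D e b} {w : K × Bool} {c : ZMod 3} {k : Fin (r0 + 1)}
    (h : W.typ L u = .hM w c k) : u = true ∧ ∃ n, W.O.dA L = inl (inr (n, k)) := by
  obtain rfl : u = true := by rw [← W.hd_typ L u, h]; rfl
  simp only [Pre.typ] at h
  revert h
  rcases W.O.dA L with (n | ⟨n, k'⟩) | z <;> intro h
  exacts [(nomatch h), ⟨rfl, n, by rw [(HT.hM.inj h).2.2.symm]⟩, nomatch h]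

theorem Pre.typ_hS {W : Pre K N Y β r r0 q D e b} {w : K × Bool} {p : ZMod 12} {c : ZMod 3}
    (h : W.typ L u = .hS w p c) : u = true ∧ ∃ z, W.O.dA L = inr (w.1, z) := by
  obtain rfl : u = true := by rw [← W.hd_typ L u, h]; rfl
  simp only [Pre.typ] at h
  revert h
  rcases W.O.dA L with (n | z) | ⟨s, z⟩ <;> intro h
  exacts [(nomatch h), (nomatch h), ⟨rfl, z, by rw [← (HT.hS.inj h).1]⟩]

namespace Stat.At

variable (hD : 1 ≤ D) (h : W.At L i u σ)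
include hD h

theorem val : (W.F.tree (W.sn L u σ)).1 = (W.typ L u, σ) := by rw [h.tree hD]

theorem of_val {t : HT K r0} {τ : Slot (r + 1)} (c : (W.F.tree (W.sn L u σ)).1 = (t, τ)) :
    W.typ L u = t ∧ σ = τ := Prod.ext_iff.1 ((h.val hD).symm.trans c)

theorem pos_hM {w : K × Bool} {c : ZMod 3} {k : Fin (r0 + 1)}
    (a : (W.F.tree (W.sn L u σ)).1 = (.hM w c k, .Z)) :
    i = 2 * r + 9 ∧ ∃ n, W.O.dA L = inl (inr (n, k)) := by
  obtain ⟨a', rfl⟩ := h.of_val hD a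
  obtain ⟨rfl, n, d⟩ := Pre.typ_hM a'
  exact ⟨h.pos_eq (Stat.mo_Z ⟨_, d⟩) rfl, n, d⟩

theorem pos_hP {w : K × Bool} {c : ZMod 3} (a : (W.F.tree (W.sn L u σ)).1 = (.hP w c, .Z)) :
    i = 2 * r + 8 ∧ ∃ n, W.O.dA L = inl (inl n) := by
  obtain ⟨a', rfl⟩ := h.of_val hD a
  obtain ⟨rfl, n, d⟩ := Pre.typ_hP a'
  exact ⟨h.pos_eq (Stat.nm_Z fun ⟨_, f⟩ => by simp [d] at f) rfl, n, d⟩

theorem pos_hS {w : K × Bool} {p : ZMod 12} {c : ZMod 3}
    (a : (W.F.tree (W.sn L u σ)).1 = (.hS w p c, .Z)) :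
    i = 2 * r + 8 ∧ ∃ z, W.O.dA L = inr (w.1, z) := by
  obtain ⟨a', rfl⟩ := h.of_val hD a
  obtain ⟨rfl, n, d⟩ := Pre.typ_hS a'
  exact ⟨h.pos_eq (Stat.nm_Z fun ⟨_, f⟩ => by simp [d] at f) rfl, n, d⟩

theorem pos_tN {w : K × Bool} {c : ZMod 3} {l : Fin 4}
    (a : (W.F.tree (W.sn L u σ)).1 = (.tN w c l, .H)) : i = 1 ∧ ∃ n, L = inl (inl n) := by
  obtain ⟨a', rfl⟩ := h.of_val hD a
  obtain ⟨rfl, n, rfl⟩ := Pre.typ_tN a'
  exact ⟨h.pos_eq (W.pay_H _) rfl, n, rfl⟩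

theorem pos_tE {w : K × Bool} {c : ZMod 3} {k : Fin (r0 + 1)}
    (a : (W.F.tree (W.sn L u σ)).1 = (.tE w c k, .H)) : i = 1 ∧ ∃ n, L = inl (inr (n, k)) := by
  obtain ⟨a', rfl⟩ := h.of_val hD a
  obtain ⟨rfl, n, rfl⟩ := Pre.typ_tE a'
  exact ⟨h.pos_eq (W.pay_H _) rfl, n, rfl⟩

theorem pos_tS {w : K × Bool} {p : ZMod 12} {c : ZMod 3}
    (a : (W.F.tree (W.sn L u σ)).1 = (.tS w p c, .H)) : i = 0 ∧ ∃ z, L = inr (w.1, z) := by
  obtain ⟨a', rfl⟩ := h.of_val hD a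
  obtain ⟨rfl, n, rfl⟩ := Pre.typ_tS a'
  exact ⟨h.pos_eq (W.sys_H _) rfl, n, rfl⟩

variable (h' : W.At L' i' u' σ')
include h'

theorem con (c : (W.F.tree (W.sn L u σ)).Con (W.F.tree (W.sn L' u' σ'))) :
    W.typ L u = W.typ L' u' ∧ i' = i + 1 := by
  rw [h.tree hD, h'.tree hD] at c
  obtain ⟨c, c'⟩ := c
  simp only [Kl.ty, Kl.off, Kl.sl] at c c'
  refine ⟨c, ?_⟩
  rw [← h.off, ← h'.off, c', c]
  omega

theorem jun (c : (W.F.tree (W.sn L u σ)).Jun (W.F.tree (W.sn L' u' σ'))) :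
    i = r + 4 ∧ i' = r + 5 := by
  rw [h.tree hD, h'.tree hD] at c
  obtain ⟨c1, rfl, c2, rfl, -⟩ := c
  obtain rfl := (Pre.hd_typ _ L u).symm.trans c1
  obtain rfl := (Pre.hd_typ _ L' u').symm.trans c2
  exact ⟨h.pos_eq (W.lo_Z L) rfl, h'.pos_eq (W.hi_H L') rfl⟩

theorem mz (c : (W.F.tree (W.sn L u σ)).Mz (W.F.tree (W.sn L' u' σ'))) :
    i = 2 * r + 9 ∧ i' = 2 * r + 8 :=
  let ⟨_, _, _, a, a'⟩ := c
  ⟨(h.pos_hM hD a).1, (h'.pos_hP hD a').1⟩

theorem mh (c : (W.F.tree (W.sn L u σ)).Mh (W.F.tree (W.sn L' u' σ'))) :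
    i = 2 * r + 9 ∧ i' = 1 :=
  let ⟨_, _, _, _, a, a'⟩ := c
  ⟨(h.pos_hM hD a).1, (h'.pos_tE hD a').1⟩

theorem lz (c : (W.F.tree (W.sn L u σ)).Lz (W.F.tree (W.sn L' u' σ'))) :
    i = 0 ∧ i' = 2 * r + 8 :=
  let ⟨_, _, _, _, _, a, a', _⟩ := c
  ⟨(h.pos_tS hD a).1, (h'.pos_hS hD a').1⟩

end Stat.At

end stat

variable [Finite K] [Finite N] [Nonempty K]

namespace Wd

variable {β : Type} [LinearOrder β] (W : Wd K N β r r0 q D e b)

/-- the lines lie in one loop or in one payload block -/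
def SB (L L' : Hub K N (Pt K N) r0) : Prop := W.lo L = W.lo L' ∨ ∃ n, W.In L n ∧ W.In L' n

variable {W} {L L' L'' : Hub K N (Pt K N) r0} {n n' : N} {j j' : K} {i i' : ℕ} {u u' : Bool}
  {σ σ' : Slot (r + 1)}

theorem SB.refl (W : Wd K N β r r0 q D e b) (L : Hub K N (Pt K N) r0) : W.SB L L := Or.inl rfl

theorem SB.symm (h : W.SB L L') : W.SB L' L := h.imp Eq.symm fun ⟨n, a, c⟩ => ⟨n, c, a⟩

theorem SB.in (h : W.SB L L') (c : W.In L n) : W.In L' n :=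
  h.elim (fun a => by rwa [In, ← a]) fun ⟨_, a, d⟩ => a.unique c ▸ d

theorem SB.in_iff (h : W.SB L L') : W.In L n ↔ W.In L' n := ⟨h.in, h.symm.in⟩

theorem SB.trans (h : W.SB L L') (h' : W.SB L' L'') : W.SB L L'' :=
  h.elim (fun a => h'.imp a.trans fun ⟨n, c, d⟩ => ⟨n, by rwa [In, a], d⟩)
    fun ⟨n, a, c⟩ => Or.inr ⟨n, a, h'.in c⟩

theorem SB.of_in (h : W.In L n) (h' : W.In L' n) : W.SB L L' := Or.inr ⟨n, h, h'⟩

theorem sb_dA : W.SB (W.S.O.dA L) L := Or.inl (W.lo_dA L)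

theorem SB.dA (h : W.SB L L') : W.SB (W.S.O.dA L) (W.S.O.dA L') :=
  (sb_dA.trans h).trans sb_dA.symm

/-- the labels of both lines have one colour -/
theorem SB.col (h : W.SB L L') (u u' : Bool) : (W.S.typ L u).col = (W.S.typ L' u').col := by
  rcases h with h | ⟨n, h, h'⟩
  exacts [by rw [W.col_typ, W.col_typ, h], by rw [W.col_in h, W.col_in h']]

theorem SB.nd {p p' : N ⊕ N × Fin (r0 + 1)} (h : W.SB (inl p) (inl p')) : nd p = nd p' :=
  (h.in (W.in_pay p)).unique (W.in_pay p')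

theorem SB.sys {s : K} {z z' : Pt K N × Fin 3} (h : W.SB (inr (s, z)) (inr (s, z')))
    (f : W.S.fam s z.1 = W.S.fam s z'.1) (c : W.S.idx s z = W.S.idx s z') : z = z' := by
  obtain ⟨y, k⟩ := z
  obtain ⟨y', k'⟩ := z'
  obtain ⟨c', (rfl : k = k')⟩ := ixt_inj _ _ _ _ c
  refine Prod.ext (?_ : y = y') rfl
  rcases h with h | ⟨n, ⟨a, h⟩, a', h'⟩ <;> rcases y with _ | y <;> rcases y' with _ | y'
  · rfl
  · obtain rfl : inl (inr (inl s), 0) = y' := h
    exact nomatch f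
  · obtain rfl : y = inl (inr (inl s), 0) := h
    exact nomatch f
  · exact congrArg some h
  · rfl
  · simp at h
  · simp at h'
  · obtain rfl : y = _ := h
    obtain rfl : y' = _ := h'
    rw [show a = a' from (W.lay s (inl n)).injective c']

/-- **In a block the type determines the line.** -/
theorem SB.typ_inj (h : W.SB L L') (c : W.S.typ L u = W.S.typ L' u') : L = L' ∧ u = u' := by
  obtain rfl := Stat.typ_half c
  refine ⟨?_, rfl⟩
  cases u
  · rcases L with (n | ⟨n, k⟩) | ⟨s, z⟩ <;> rcases L' with (n' | ⟨n', k'⟩) | ⟨s', z'⟩ <;>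
      simp only [Pre.typ, Pre.tt, reduceCtorEq, HT.tE.injEq, HT.tS.injEq, Prod.mk.injEq,
        sub_left_inj] at c
    · rw [show n = n' from h.nd]
    · rw [show n = n' from h.nd, c.2.2]
    · obtain ⟨⟨rfl, c1⟩, c2, -⟩ := c
      rw [h.sys c1 c2]
  · refine W.S.O.dA.injective ?_
    have h := h.dA
    simp only [Pre.typ] at c
    revert h c
    rcases W.S.O.dA L with (n | ⟨n, k⟩) | ⟨s, z⟩ <;>
      rcases W.S.O.dA L' with (n' | ⟨n', k'⟩) | ⟨s', z'⟩ <;> intro c h <;>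
      simp only [Pre.ht, reduceCtorEq, HT.hM.injEq, HT.hS.injEq, Prod.mk.injEq] at c
    · rw [show n = n' from h.nd]
    · rw [show n = n' from h.nd, c.2.2]
    · obtain ⟨⟨rfl, c1⟩, c2, -⟩ := c
      rw [h.sys c1 c2]

theorem SB.tree (h : W.SB L L') (hD : 1 ≤ D) (a : W.S.At L i u σ) (a' : W.S.At L' i' u' σ')
    (c : W.S.F.tree (W.S.sn L u σ) = W.S.F.tree (W.S.sn L' u' σ')) : L = L' ∧ i = i' := by
  obtain ⟨c', rfl⟩ := (a.same hD a').1 c
  exact ⟨(h.typ_inj c').1, a.pos_eq a' c'⟩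

theorem SB.con (h : W.SB L L') (hD : 1 ≤ D) (a : W.S.At L i u σ) (a' : W.S.At L' i' u' σ')
    (c : (W.S.F.tree (W.S.sn L u σ)).Con (W.S.F.tree (W.S.sn L' u' σ'))) : L = L' ∧ i' = i + 1 :=
  (a.con hD a' c).imp_left fun c => (h.typ_inj c).1

/-- **Two stages of a group see the same order in a block.** -/
theorem SB.twin {G : Type} [LinearOrder G] {grp : K → G} {g : G}
    (mono : ∀ i i', grp i < grp i' → W.idx i < W.idx i') (h : W.SB L L') (f : W.Fag grp g L)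
    (f' : W.Fag grp g L') (a : grp j = g) (a' : grp j' = g)
    (p : ∀ n, W.In L n → W.lay j (inl n) = W.lay j' (inl n) ∧
      (W.lo L = inl (inl n, 0) → W.lo L' = inl (inl n, 0) → W.port j n = W.port j' n)) :
    W.pos j L < W.pos j L' ↔ W.pos j' L < W.pos j' L' := by
  by_cases c : W.lo L = W.lo L'
  · exact Fag.twin mono f f' a a' c fun n d => (p n ⟨_, d⟩).2 d (c ▸ d)
  obtain ⟨n, ⟨k, d⟩, k', d'⟩ := h.resolve_left c
  have ne : k ≠ k' := fun x => c (by rw [d, d', x])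
  rw [pos_lay (f j a).cold (f' j a).cold d d' ne, pos_lay (f j' a').cold (f' j' a').cold d d' ne,
    (p n ⟨_, d⟩).1]

end Wd

namespace Fw

variable {V : Fw K N r r0 q D e b} {L L' : Hub K N (Pt K N) r0} {j j' : K} {g : Fin 64} {i i' : ℕ}

theorem hi_sb (h : V.W.SB L L') (f : V.W.Far j L) (f' : V.W.Far j L') : V.Hi j L ↔ V.Hi j L' := by
  simp only [Hi, f.bk, f'.bk, h.in_iff]

/-- the order that ends with the items agrees with the order of the state -/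
theorem fr_sb (h : V.W.SB L L') (f : V.W.Far j L) (f' : V.W.Far j L') :
    V.fr j L < V.fr j L' ↔ V.W.pos j L < V.W.pos j L' := by
  rw [fr_lt, hi_sb h f f']
  simp

theorem fq_sb (h : V.W.SB L L') (f : V.W.Far j L) (f' : V.W.Far j L')
    (c : V.W.pos j L < V.W.pos j L' ∨ (L = L' ∧ i < i')) (l : i' ≤ 2 * r + 10) :
    V.fq j (pz L i) < V.fq j (pz L' i') :=
  c.elim (fun c => fq_lt ((fr_sb h f f').2 c)) fun c => c.1 ▸ fq_line c.2 l

/-- the block is at rest in both states -/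
theorem twin_sb (h : V.W.SB L L') (f : V.W.Fag V.grp g L) (f' : V.W.Fag V.grp g L')
    (a : V.grp j = g) (a' : V.grp j' = g) (s : (V.par j).sp = (V.par j').sp)
    (p : ∀ n, V.W.In L n → ¬V.Opn j n ∧ ¬V.Opn j' n ∧
      (V.W.lo L = inl (inl n, 0) → V.W.lo L' = inl (inl n, 0) →
        (V.par j).np (V.F.tree n).col = (V.par j').np (V.F.tree n).col)) :
    V.W.pos j L < V.W.pos j L' ↔ V.W.pos j' L < V.W.pos j' L' :=
  h.twin V.mono f f' a a' fun n c => ⟨by rw [lay_closed (p n c).1, lay_closed (p n c).2.1, s],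
    fun d d' => by
      rw [port_np ((f j a).wor c) (p n c).1, port_np ((f j' a').wor c) (p n c).2.1]
      exact (p n c).2.2 d d'⟩

end Fw

end Pool.Agent.P.MP_439f1f_co
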