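import Pool.Agent.P.MP_439f1f_co.Sv2
import Pool.Agent.P.MP_439f1f_co.B21
import Pool.Agent.P.MP_439f1f_co.Rc1

/-!
A point with an access up and a point in a block of the tree of its token.
-/

set_option autoImplicit false
set_option linter.unusedSectionVars false

namespace Pool.Agent.P.MP_439f1f_co

open Function SimpleGraph Sum

variable {K N ι : Type} {r r0 q D e b : ℕ} [DecidableEq K] [Finite K] [Finite N] [Nonempty K]

namespace Fw.Rx

variable {V : Fw K N r r0 q D e b} {j : K} {l : ι → ℕ} {t : ι → N} {g : ι}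
  {L L' L2 : Hub K N (Pt K N) r0} {n n' x y z a : N} {i i' m : ℕ} {f d : Bool} {σ : Slot (r + 1)}
  {v w : Vx K N (Pt K N) r r0} {T T' : Kl K r r0} {o : Option Bool}

theorem ro (k : V.Rs j l t) : V.W.Ro j l t (rh (V.Hi j) (V.W.vp j l t)) :=
  ⟨k.toRs, fun _ h => (k.toRs.fr h).rh k.hi_up, V.Hi j, fun _ _ => Fw.hi_lp, fun _ _ => rh_lt⟩

/-- a line before the line of an odd node is not carried -/
theorem bef (k : V.Rs j l t) (h : V.W.Bk j L y) (lt : V.W.pos j L < V.W.pos j (nl y))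
    (c : ∀ g, V.W.On (l g) (t g) y → V.F.lev y % 2 = 1) (le : (V.L j).key y ≤ (V.L j).key (t g)) :
    V.vr j l t (pz L i) < V.vr j l t (pz (V.W.cut (l g) (t g)) 0) := by
  have o : (V.W.rts l t).Out (V.W.pos j) L := fun g s a => by
    obtain ⟨p, c'⟩ := k.toRs.pair a.1
    have := k.toRs.len g
    have := a.1
    rcases p.btw L a.2.1 (c' ▸ a.2.2.le) with d | d
    · exact a.2.1.not_gt (lt.trans_eq (by rw [← d.unique h]; rfl))
    · have := c g (d.unique h ▸ c' ▸ Wd.on_at (by omega))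
      have := p.odd
      rw [← d.unique h, V.W_F, V.F.lev_kid p.lev] at *
      omega
  obtain ⟨_, a⟩ := k.role g
  exact k.of_vp (k.inI_cut a) ((k.toRs.lt_cut_iff L g).2
    (by rw [Rts.an_out o]; exact lt.trans_le (Sw.nl_le.2 le)))

/-- a line before the line of an even node of a route is carried -/
theorem aft (k : V.Rs j l t) (h : V.W.Bk j L y) (lt : V.W.pos j L < V.W.pos j (nl y))
    (c : V.W.On (l g) (t g) y) (ev : V.F.lev y % 2 = 0) :
    V.vr j l t (pz (V.W.cut (l g) (t g)) 0) < V.vr j l t (pz L i) := by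
  obtain ⟨a1, a2, a3, -⟩ := k.run g
  have a4 := k.toRs.len g
  have a5 := c.1.1
  have a6 := c.2
  have a7 := (V.F.surj (t g)).2.1
  rw [V.W_F] at *
  obtain ⟨s, hs⟩ : ∃ s, V.F.lev y = l g + (2 * s + 1) + 1 := ⟨(V.F.lev y - l g - 2) / 2, by omega⟩
  have a8 : s < (V.W.rts l t).n g := by omega
  obtain ⟨p, c'⟩ := k.toRs.pair a8
  have c2 : V.W.F.at' (t g) (l g + (2 * s + 1) + 1) = y := hs ▸ c.1.2
  have c3 : (V.W.rts l t).In (V.W.pos j) L g s :=
    ⟨a8, (Sw.lt_of_key (.self _ j _) h (Sw.nl_lt.1 (c2 ▸ c' ▸ p.lt))).le,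
      lt.trans_eq (by rw [← c2]; rfl)⟩
  obtain ⟨_, a⟩ := k.role g
  refine k.of_vp (Role.inI ((c.1.tree : V.F.tree _ = _) ▸ a) h) ((k.toRs.cut_lt_iff L g).2
    ⟨by rw [k.toRs.ok.an_in (V.W.lref j) c3, k.toRs.lab], fun d => ?_⟩)
  have := V.F.lev_at (t g) (l := l g + 1) (by omega) (by omega)
  rw [show V.F.at' (t g) (l g + 1) = y from (Wd.bk_cut j _ _).unique (d ▸ h)] at this
  omega

theorem col_sn (h : V.W.In L x) (f : Bool) (σ : Slot (r + 1)) :
    (V.F.tree (V.W.S.sn L f σ)).col = (V.F.tree x).col + 1 :=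
  (V.W.S.col_sn V.D_pos L f σ).trans (V.W.col_in h f)

theorem run_lab (h : V.Liv j (V.F.tree n)) (l : V.F.lev n = D) : V.W.Run j 0 n :=
  h.run rfl (by rw [l, V.od]) (V.F.surj n).1

theorem key_anc (h : V.Liv j (V.F.tree n)) (o : (V.par j).rook = false) (c : V.F.Anc y n) :
    (V.L j).key y ≤ (V.L j).key n := by
  refine (eq_or_ne y n).elim (fun c => c ▸ le_rfl) fun ne => le_of_lt ?_
  have t : V.F.tree y = _ := c.tree
  exact (Lay.anc_lt (fm_plain (not_own (t ▸ h.stg)) o) (fm_plain (not_own h.stg) o) c ne).2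
    (Or.inl fun d => absurd (d.1.trans_eq (t ▸ h.kap : V.kap j (V.F.tree y) = 0)) (by simp))

theorem inF_col (hf : V.W.Far j L) (c : ∀ a T', V.Role j a T' →
    T'.col = (V.F.tree (V.W.S.sn L f σ)).col ∨ T'.col = (V.F.tree (V.W.S.sn L f σ)).col + 1) :
    V.InF j L := fun x h _ d => by
  have := c _ _ d
  rw [col_sn (hf.bk.1 h)] at this
  exact (by decide : ∀ c : ZMod 3, ¬(c = c + 1 ∨ c = c + 1 + 1)) _ this

theorem ne_hub (h : V.W.S.Acc true v L i f σ) (p : N ⊕ N × Fin (r0 + 1)) : v ≠ hv (inl p) := by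
  rcases h.cases with ⟨-, _, rfl, rfl, -⟩ | ⟨c, -⟩ | ⟨_, rfl, -⟩ <;> simp_all

theorem not_in (t : V.F.tree y = V.F.tree (V.W.S.sn L f σ)) : ¬V.W.In L y := fun c =>
  V.W.col_ne V.D_pos c f σ (congrArg Kl.col t.symm)

theorem ne_line (h : V.W.S.Acc true v L i f σ) (t : V.F.tree y = V.F.tree (V.W.S.sn L f σ))
    (c : V.W.In L2 y) : v ≠ vz L2 m := by
  rcases h.cases with ⟨-, _, rfl, rfl, -⟩ | ⟨c, -⟩ | ⟨_, rfl, -⟩
  exacts [by simp [vz], (nomatch c),
    fun a => not_in t ((show L = L2 from congrArg Prod.fst (inr.inj a)) ▸ c)]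

variable (V) in
/-- two living items -/
structure Tw (j : K) (T T' : Kl K r r0) : Prop where
  rx : V.Role j (some false) T
  ry : V.Role j (some true) T'
  lx : V.Liv j T
  ly : V.Liv j T'
  rook : (V.par j).rook = false
  op : (V.par j).op = none
  kind : ∀ a Z, V.Role j a Z → Z.kind = T.kind ∨ Z.kind = T'.kind

theorem exists_tw (u u' : N) (c : (V.F.tree u).col ≠ (V.F.tree u').col)
    (own : ¬(V.F.tree u).Own (V.F.tree u')) (dr cd sp : Bool) {κ : ZMod 3 → Fin 7}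
    (hk : Kl.Kap κ (V.F.tree u) (V.F.tree u')) {np : ZMod 3 → Fin (r0 + 1)}
    (h1 : ∀ c c', np c ≠ Fin.last _ → np c' ≠ Fin.last _ → c = c') (h2 : Kl.Px np (V.F.tree u))
    (h3 : Kl.Px np (V.F.tree u')) (ls : List (Hub K N (Pt K N) r0)) (len : ls.length ≤ 13)
    (E : Kl K r r0) : ∃ j, (∀ L ∈ ls, V.W.Far j L) ∧ Tw V j (V.F.tree u) (V.F.tree u') ∧
      (V.par j).dr = dr ∧ (V.par j).cd = cd ∧ (V.par j).sp = sp ∧ (V.par j).kap = κ ∧
      (V.par j).np = np ∧ (E.stg ≠ j → E ≠ V.F.tree u → E ≠ V.F.tree u' → V.Rest j E) := by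
  obtain ⟨g, a⟩ := V.W.exists_grp V.grp (nl u :: nl u' :: ls) (by simp; omega)
  obtain ⟨j, s⟩ := V.exists_st g (Par.TA.two
    (π := { Par.base r r0 D with dr := dr, cd := cd, sp := sp, kap := κ, np := np })
    (x := V.F.tree u) (y := V.F.tree u') rfl rfl (fun c => (hk c).1) (fun _ => Or.inl rfl) h1
    (fun _ _ => rfl) (fun d => c (d ▸ rfl)) (fun i _ => by
      cases i
      exacts [⟨fun c => (hk c).2.1, h2, fun d => absurd rfl d⟩,
        ⟨fun c => (hk c).2.2, h3, fun d => absurd rfl d⟩])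
    fun _ _ => ⟨.of_col c own, ⟨h1, h2, h3, .of (mt Kl.Mh.col c), .of (mt Kl.Mh.col c.symm),
      fun _ _ _ d d' => absurd ((Kl.col_val d).trans (Kl.col_val d').symm) c,
      fun _ _ _ d d' => absurd ((Kl.col_val d').trans (Kl.col_val d).symm) c⟩, nofun⟩) [E]
    (by simp) (by
      simp only [List.mem_singleton, tw, Set.mem_singleton_iff]
      rintro _ rfl _ rfl _ rfl _ rfl d d'
      exact absurd (Kl.col_of_kind (d.symm.trans d')) c)
  have s1 := (a (nl u) (by simp) j s.grp).wor (V.W.in_pay (inl u))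
  have s2 := (a (nl u') (by simp) j s.grp).wor (V.W.in_pay (inl u'))
  refine ⟨j, fun L h => a L (by simp [h]) j s.grp, ⟨s.role false _ rfl s1, s.role true _ rfl s2,
    s.liv (i := false) rfl s1 rfl, s.liv (i := true) rfl s2 rfl, s.rook, s.op, fun a Z d => ?_⟩,
    s.dr, s.cd, s.sp, s.kap, s.np, fun d d1 d2 => s.rest d (by simp)
      (fun i => by cases i; exacts [d1, d2]) fun d => absurd rfl d⟩
  obtain ⟨_, d1, d2⟩ := s.kind d
  obtain ⟨_ | _, -, rfl⟩ | ⟨-, _, d, -⟩ := Par.mt_tw d1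
  exacts [Or.inl d2.symm, Or.inr d2.symm, nomatch d]

namespace Tw

variable (s : Tw V j T T')
include s

theorem closed (n : N) : ¬V.Opn j n := fun c => c.op s.op

theorem zi {ι : Type} {l : ι → ℕ} {t : ι → N} (k : V.Rs j l t) (h : V.InI j (some false) L)
    (h' : V.InI j (some true) L') : V.vr j l t (pz L i) < V.vr j l t (pz L' i') :=
  k.II h h' s.rook (by simp [Par.zi])

theorem rest {Z : Kl K r r0} (h : Z.stg ≠ j) (c : Z.kind ≠ T.kind) (c' : Z.kind ≠ T'.kind) :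
    V.Rest j Z := ⟨h, fun a d => (s.kind a Z ⟨h, d⟩).elim c c'⟩

theorem col (a : Option Bool) (Z : Kl K r r0) (h : V.Role j a Z) :
    Z.col = T.col ∨ Z.col = T'.col := (s.kind a Z h).imp Kl.col_of_kind Kl.col_of_kind

end Tw

theorem ml_lt (h : ¬V.Opn j y) (i : ℕ) : V.W.pos j (ml y i) < V.W.pos j (nl y) :=
  V.W.pos_mn.2 (lay_closed h ▸ (blay_lt _ _).2 rfl)

theorem own_of (h : ∀ w p c, T'.ty ≠ .tS w p c ∧ T'.ty ≠ .hS w p c) : ¬T.Own T' := by
  rintro (⟨_, _, _, _, _, -, c, -⟩ | ⟨_, _, _, _, _, c, -⟩)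
  exacts [(h _ _ _).2 (Kl.ty_val c), (h _ _ _).1 (Kl.ty_val c)]

section
variable (h : V.W.S.Acc true v L i f σ)
include h

/-- the second point comes before the token of the first point -/
theorem sv_bef (t : V.F.tree y = V.F.tree (V.W.S.sn L f σ))
    (o : ¬V.F.Anc y (V.W.S.sn L f σ) ∨ V.F.lev y % 2 = 1) {f' : Bool} {σ' : Slot (r + 1)}
    (h' : V.W.S.Acc d w L2 m f' σ') (c : V.W.In L2 y)
    (own : ¬(V.F.tree y).Own (V.F.tree (V.W.S.sn L2 f' σ'))) (ne : v ≠ w)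
    (lt : ∀ j, ¬V.Opn j y → V.W.pos j L2 < V.W.pos j (nl y)) : V.W.Sv v w := by
  have la := V.W.S.lev_sn V.D_pos L f σ
  have cb := col_sn c f' σ'
  rw [t] at own cb
  obtain ⟨cd, hc⟩ : ∃ cd, V.F.Anc y (V.W.S.sn L f σ) ∨ V.o cd y < V.o cd (V.W.S.sn L f σ) := by
    by_cases a : V.F.Anc y (V.W.S.sn L f σ)
    · exact ⟨true, Or.inl a⟩
    · exact (V.ho.choose a fun d => a (d.eq ((V.F.surj y).2.1.trans la.ge) ▸ .refl _)).imp
        fun _ => Or.inr
  obtain ⟨κ, hk⟩ := Kl.exists_kap (V.F.tree (V.W.S.sn L f σ)) (V.F.tree (V.W.S.sn L2 f' σ'))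
  obtain ⟨j, hf, s, -, a1, -⟩ := exists_tw _ _ (cb ▸ Kl.col_ne_succ _) own true cd true hk
    (by simp) .last .last [L, L2] (by simp) (V.F.tree y)
  have ne' : V.F.tree (V.W.S.sn L f σ) ≠ V.F.tree (V.W.S.sn L2 f' σ') := fun a =>
    Kl.col_ne_succ _ ((congrArg Kl.col a).trans cb)
  have k := Rs.two (run_lab s.lx la) (run_lab s.ly (V.W.S.lev_sn V.D_pos _ _ _))
    (Wd.On.tree_ne ne') s.rx s.ry
  have bk := (hf L2 (by simp)).bk.2 c
  have le : (V.L j).key y ≤ (V.L j).key (V.W.S.sn L f σ) := hc.elim (key_anc s.lx s.rook) fun a => by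
    have nl : ∀ {n}, V.F.tree n = V.F.tree (V.W.S.sn L f σ) → ¬(V.L j).Low n := fun a d =>
      absurd (d.1.trans_eq (a ▸ s.lx.kap : V.kap j _ = 0)) (by simp)
    exact ((Lay.high_lt (fm_plain (not_own (t ▸ s.lx.stg)) s.rook) (fm_plain (not_own s.lx.stg)
      s.rook) t.symm (nl t) (nl rfl)).2 (by rwa [L_dt, td_cs (not_own (t ▸ s.lx.stg)), a1])).le
  have o1 := fun i i' => k.FI (i := i) (i' := i')
    (inF_col (hf L (by simp)) fun a Z d => cb ▸ s.col a Z d) (Role.inI (t ▸ s.rx) bk)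
  have o2 := fun i => bef (g := 0) (i := i) k bk (lt j (s.closed y)) (fun g a => by
    fin_cases g
    exacts [o.resolve_left (not_not.2 a.1), absurd (t.symm.trans a.1.tree) ne']) le
  have o3 := s.zi (i := 0) (i' := 0) k (k.inI_cut (g := 0) s.rx) (k.inI_cut (g := 1) s.ry)
  intro _ _
  cases d <;> exact k.serve ((k.toRs.ch_cut 0).app (k.toRs.ch_acc h))
    ((k.toRs.ch_cut 1).app (k.toRs.ch_acc h')) ne (fun g => by fin_cases g <;> simp)
    [.lt 1 3, .lt 3 0, .lt 0 2] [] (by decide +kernel) ⟨o1 _ _, o2 _, o3⟩ trivial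

/-- the tail of a moat line that is carried by the route -/
theorem sv_aft (an : V.F.Anc y (V.W.S.sn L f σ)) (ev : V.F.lev y % 2 = 0) (c : Fin (r0 + 1)) :
    V.W.Sv v (vz (inl (inr (y, c))) 0) := by
  have t : V.F.tree y = _ := an.tree
  have a := V.W.S.pay_H (inr (y, c))
  have i2 := V.W.in_pay (inr (y, c))
  have cb := col_sn i2 false .H
  rw [show V.F.tree (Wd.nd (inr (y, c))) = _ from t] at cb
  obtain ⟨κ, hk⟩ := Kl.exists_kap (V.F.tree (V.W.S.sn (inl (inr (y, c))) false .H))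
    (V.F.tree (V.W.S.sn L f σ))
  obtain ⟨j, hf, s, -⟩ := exists_tw _ _ (cb ▸ (Kl.col_ne_succ _).symm) (mt Kl.Own.symm
    (own_of (by
      rw [show V.F.tree _ = _ from a.tree V.D_pos]; simp [Kl.ty, Pre.typ, Pre.tt]))) true true true hk
    (by simp) .last .last [L] (by simp) (V.F.tree y)
  have k := Rs.two (run_lab s.ly (V.W.S.lev_sn V.D_pos _ _ _))
    (run_lab s.lx (V.W.S.lev_sn V.D_pos _ _ _))
    (Wd.On.tree_ne fun d => Kl.col_ne_succ _ ((congrArg Kl.col d).trans cb)) s.ry s.rx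
  intro _ _
  exact k.serve ((k.toRs.ch_cut 0).app (k.toRs.ch_acc h))
    ((k.toRs.ch_cut 1).app (Wd.ch_up a.hang (by omega))) (ne_line h t i2)
    (fun g => by fin_cases g <;> simp) [.lt 1 2, .lt 2 0, .lt 0 3] [] (by decide +kernel)
    ⟨k.F_cut (inF_col (hf L (by simp)) fun a Z d => cb ▸ (s.col a Z d).symm) 1,
      s.zi k (k.inI_cut (g := 1) s.rx) (k.inI_cut (g := 0) s.ry),
      aft (g := 0) k (Wd.bk_pay.2 rfl) (Wd.mo_val y c ▸ ml_lt (s.closed y) c)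
        ⟨an, (V.F.surj y).1⟩ ev⟩ trivial

/-- a moat hub is reached through an arc -/
theorem tx {c s : ℕ} {o' : Option Bool} (k : V.Rs j ![0, 0] ![V.W.S.sn L f σ,
      V.W.ell y (c + 2 * s + 1)]) (an : V.F.Anc y (V.W.S.sn L f σ)) (ev : V.F.lev y % 2 = 0)
    (hf : V.InF j L) (p : (V.W.port j y : ℕ) = c) (le : c + 2 * s ≤ r0) (c0 : c ≠ 0 ∨ s = 0)
    (c1 : s = 0 ∨ c + 2 * s = r0) (lt : V.W.pos j (ml y c) < V.W.pos j (nl y))
    (a1 : V.Role j o (V.F.tree (V.W.ell y (c + 2 * s + 1))))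
    (a2 : V.Role j o' (V.F.tree (V.W.S.sn L f σ))) (rk : (V.par j).rook = false)
    (z : (V.par j).zi o < (V.par j).zi o') : V.W.Sv v (hv (ml y c)) := by
  have two := V.two_r0
  have a3 : V.Role j o' (V.F.tree y) := (an.tree : V.F.tree _ = _) ▸ a2
  have A : V.W.Arc j y c s := ⟨by omega, fun i a => by
    rw [p, Nat.mod_eq_of_lt (by omega)]; omega⟩
  have m : (c + 2 * s + 1) % (r0 + 1) = if c + 2 * s = r0 then 0 else c + 2 * s + 1 := by
    split_ifs with d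
    exacts [by rw [d, Nat.mod_self], Nat.mod_eq_of_lt (by omega)]
  intro _ _
  exact (ro k).serveM A (d := true) ((k.toRs.ch_cut 0).app (k.toRs.ch_acc h))
    ((k.toRs.ch_cut 1).app (Wd.ch_entry y _)) (Wd.adj_arc y _) .nil (ne_hub h _)
    (fun g => by fin_cases g <;> simp)
    ⟨Wd.fre_cut, Wd.fre_nbk fun d => hf y d _ a3, Wd.fre_cut, A.fre_prv fun i a => by
      rw [m, Nat.mod_eq_of_lt (by omega)]; split_ifs <;> omega⟩
    [.lt 1 2, .lt 2 0, .lt 0 4, .lt 4 3] [] (by decide +kernel)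
    ⟨k.F_cut hf 1, k.II (k.inI_cut (g := 1) a1) (k.inI_cut (g := 0) a2) rk z,
      aft (g := 0) k (Wd.bk_pay.2 rfl) lt ⟨an, (V.F.surj y).1⟩ ev,
      k.of_vqI (a3.inI (Wd.bk_prv' j _)) (k.toRs.vq_ml_prv (by
        rw [m, p, Nat.mod_eq_of_lt (by omega)]; unfold el; split_ifs <;> omega))⟩ trivial

omit h in
theorem col_ell (y : N) (i : ℕ) : (V.F.tree (V.W.ell y i)).col = (V.F.tree y).col + 1 :=
  V.W.col_ell V.D_pos y i

omit h in
theorem own_ell (y : N) (i : ℕ) : ¬T.Own (V.F.tree (V.W.ell y i)) :=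
  own_of (by
    have : (V.F.tree (V.W.ell y i)).1 = _ := V.W.tree_ell V.D_pos y i
    simp [Kl.ty_val this])

theorem sv_yx (an : V.F.Anc y (V.W.S.sn L f σ)) (ev : V.F.lev y % 2 = 0) (c : Fin (r0 + 1))
    (c0 : (c : ℕ) ≠ 0) : V.W.Sv v (hv (ml y c)) := by
  have t : V.F.tree y = _ := an.tree
  have := c.2
  have := V.ev
  obtain ⟨s, s1, s2⟩ : ∃ s, c + 2 * s ≤ r0 ∧ ((s = 0 ∧ (c : ℕ) % 2 = 1) ∨ c + 2 * s = r0) :=
    (em ((c : ℕ) % 2 = 1)).elim (fun _ => ⟨0, by omega⟩) fun _ => ⟨(r0 - c) / 2, by omega⟩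
  have cb := col_ell (V := V) y (c + 2 * s + 1)
  obtain ⟨κ, hk⟩ := Kl.exists_kap (V.F.tree (V.W.ell y (c + 2 * s + 1)))
    (V.F.tree (V.W.S.sn L f σ))
  obtain ⟨j, hf, st, -, -, -, -, np, -⟩ := exists_tw _ _ (cb ▸ t ▸ (Kl.col_ne_succ _).symm)
    (mt Kl.Own.symm (own_ell _ _)) true true true hk (Kl.pt_one (V.F.tree y).col c)
    (fun w c' k a d => by
      rw [show (V.F.tree _).1 = _ from V.W.tree_ell V.D_pos y _] at a
      simp only [Prod.mk.injEq, HT.hM.injEq, add_left_inj, and_true] at a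
      obtain ⟨-, rfl, rfl⟩ := a
      erw [Kl.pt_self] at d ⊢
      rw [Fin.le_def, Fin.val_ofNat, s2.resolve_left (by omega), Nat.mod_self]
      omega)
    (fun w c' k a _ => by
      rw [Kl.pt_ne c fun d => Kl.col_ne_succ _ ((Kl.col_val a).trans (by rw [d, t]; rfl))]
      exact k.le_last) [L] (by simp) (V.F.tree y)
  intro _ _
  exact tx h (Rs.two (run_lab st.ly (V.W.S.lev_sn V.D_pos _ _ _)) (run_lab st.lx (V.lev_ell _ _))
    (Wd.On.tree_ne fun d => Kl.col_ne_succ _ ((congrArg Kl.col (t.trans d)).trans cb)) st.ry st.rx)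
    an ev (inF_col (hf L (by simp)) fun a Z d => t ▸ cb ▸ t ▸ (st.col a Z d).symm)
    (by rw [port_np (t ▸ st.ry.1) (st.closed y), np]; exact congrArg _ (Kl.pt_self _ _)) s1
    (Or.inl c0) (s2.imp_left And.left) (ml_lt (st.closed y) c) st.rx st.ry st.rook
    (by simp [Par.zi])

theorem sv_y0 (an : V.F.Anc y (V.W.S.sn L f σ)) (ev : V.F.lev y % 2 = 0)
    (c : ∀ w c l, (V.W.S.typ L f, σ) ≠ (.tN w c l, .H)) : V.W.Sv v (hv (ml y 0)) := by
  have t : V.F.tree y = _ := an.tree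
  have two := V.two_r0
  have e1 : ((Fin.ofNat (r0 + 1) 1 : Fin (r0 + 1)) : ℕ) = 1 := Nat.mod_eq_of_lt (by omega)
  obtain ⟨κ, hk⟩ := Kl.exists_kap (V.F.tree y) (V.F.tree y)
  obtain ⟨g, a⟩ := V.W.exists_grp V.grp [L] (by simp)
  obtain ⟨j, s⟩ := V.exists_st g (Par.TA.solo
    (π := { Par.base r r0 D with kap := κ, op := some false, ek := Fin.ofNat _ 1 })
    (x := V.F.tree y) (by simp) rfl (fun _ => rfl) hk (.last Kl.Mh.irr Kl.Mh.irr) nofun
    fun _ => ⟨fun _ => rfl, by rw [e1], fun w c' l d => absurd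
      ((congrArg Subtype.val (t.trans (h.at.tree V.D_pos))).symm.trans d) (c w c' l)⟩) []
    (by simp) (by simp)
  have hf := a L (by simp) j s.grp
  have s1 : (V.F.tree y).stg ≠ j := t ▸ hf.sn V.D_pos f σ
  have o := s.opn (i := false) ⟨rfl, rfl⟩ s1 rfl (Nat.zero_le _)
  have x := o.ot.ell
  rw [s.ek, e1] at x
  have a1 := s.role false _ ⟨rfl, rfl⟩ s1
  intro _ _
  exact tx h (s := 0) (Rs.two (run_lab (t ▸ s.liv (i := false) ⟨rfl, rfl⟩ s1 rfl)
      (V.W.S.lev_sn V.D_pos _ _ _)) (run_lab x.liv (V.lev_ell _ _))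
      (Wd.On.tree_ne fun d => Kl.col_ne_succ _ ((congrArg Kl.col (t.trans d)).trans (col_ell _ _)))
      (t ▸ a1) x) an ev (inF_col hf fun a Z d => by
      obtain ⟨_, d1, d2⟩ := s.kind d
      rw [← t, ← Kl.col_of_kind d2]
      rcases Par.mt_so d1 with ⟨-, rfl⟩ | ⟨-, -, rfl⟩
      exacts [Or.inl rfl, Or.inr rfl]) (congrArg _ o.port) (by omega) (Or.inr rfl) (Or.inl rfl)
    (V.W.pos_mn.2 (by rw [o.lay, s.flip]; exact (blay_lt _ _).2 rfl)) x (t ▸ a1) s.rook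
    (by rw [s.zi, s.zi]; exact Nat.zero_lt_one)

omit h in
theorem tree_Z (y : N) : (V.F.tree (V.W.S.sn (V.W.prv (inl y)) true .Z)).1 =
    (.hP (V.F.tree y).ty.wor ((V.F.tree y).col + 1), .Z) := by
  rw [show V.F.tree _ = _ from (Stat.nm_Z (W := V.W.S) (Stat.not_mo_nd y)).tree V.D_pos]
  simp only [Pre.typ, Equiv.apply_symm_apply]
  rfl

omit h in
theorem acc_Z (y : N) : V.W.S.Acc false (vz (V.W.prv (inl y)) (2 * r + 9)) (V.W.prv (inl y))
    (2 * r + 8) true .Z :=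
  (Stat.nm_Z (W := V.W.S) (Stat.not_mo_nd y)).dn (k := Fin.ofNat _ _) (Nat.mod_eq_of_lt (by omega)).symm

theorem sv_yF (an : V.F.Anc y (V.W.S.sn L f σ)) :
    V.W.Sv v (vz (V.W.prv (inl y)) (2 * r + 9)) := by
  have t : V.F.tree y = _ := an.tree
  have two := V.two_r0
  have e1 : ((Fin.ofNat (r0 + 1) 1 : Fin (r0 + 1)) : ℕ) = 1 := Nat.mod_eq_of_lt (by omega)
  have tb := tree_Z (V := V) y
  have cb : _ = (V.F.tree y).col + 1 := Kl.col_val tb
  have nc := cb ▸ (V.F.tree y).col_ne_succ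
  obtain ⟨κ, hk⟩ := Kl.exists_kap (V.F.tree y) (V.F.tree (V.W.S.sn (V.W.prv (inl y)) true .Z))
  obtain ⟨g, a⟩ := V.W.exists_grp V.grp [L] (by simp)
  obtain ⟨j, s⟩ := V.exists_st g (Par.TA.opn (i := false)
    (π := { Par.base r r0 D with
      kap := κ, op := some false, ek := Fin.ofNat _ 1, fl := 2, flip := true })
    (x := V.F.tree y) (y := V.F.tree (V.W.S.sn (V.W.prv (inl y)) true .Z)) rfl rfl rfl rfl
    (fun _ => rfl) (by rw [e1]) rfl (fun d => nc (congrArg Kl.col d))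
    (by simp [Kl.ty_val tb, Kl.ent, Kl.ty]) (fun c => ⟨(hk c).1, (hk c).2.1, (hk c).2.1⟩)
    (Or.inr ⟨rfl, fun c => ⟨(hk c).1, (hk c).2.2, (hk c).2.2⟩,
      .of_col nc (own_of (by simp [Kl.ty_val tb])), by simp [tb],
      fun ⟨_, _, _, _, _, d⟩ => by simp [tb] at d, fun _ => rfl⟩)
    (fun w c l d => Or.inr ⟨rfl, Or.inr (by
      rw [cond_false, cb, ← show _ = c from Kl.col_val d]
      exact (by decide : ∀ c : ZMod 3, c + 1 + 1 ≠ c) _)⟩)
    fun _ => ⟨rfl, rfl, rfl, _, tb⟩) [] (by simp) (by simp)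
  have hf := a L (by simp) j s.grp
  have s1 : (V.F.tree y).stg ≠ j := t ▸ hf.sn V.D_pos f σ
  have s2 : (V.F.tree (V.W.S.sn (V.W.prv (inl y)) true .Z)).stg ≠ j := by
    rwa [Kl.stg, Kl.ty_val tb]
  have o := s.opn (i := false) (n := V.W.S.sn L f σ) t.symm (t ▸ s1) rfl (Nat.zero_le _)
  have x := o.ot.ell
  rw [s.ek, e1] at x
  have a1 : V.Role j (some false) (V.F.tree y) := s.role false _ rfl s1
  have a2 : V.Role j (some true) (V.F.tree (V.W.S.sn (V.W.prv (inl y)) true .Z)) :=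
    s.role true _ rfl s2
  have k := Rs.two (run_lab x.liv (V.lev_ell _ _)) (run_lab (s.liv (i := true) rfl s2 rfl)
    (V.W.S.lev_sn V.D_pos _ _ _)) (Wd.On.tree_ne fun d => absurd
      (a2.eq ((show V.F.tree _ = V.F.tree _ from d) ▸ x)) (by simp)) x a2
  have off : ∀ {n}, V.F.tree n = V.F.tree y → ∀ g, ¬V.W.On (![0, 0] g)
      (![V.W.ell (V.W.S.sn L f σ) 1, V.W.S.sn (V.W.prv (inl y)) true .Z] g) n := fun c g d => by
    have d : V.F.tree _ = V.F.tree _ := c.symm.trans d.1.tree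
    fin_cases g
    exacts [absurd (a1.eq (d ▸ x)) (by simp), absurd (a1.eq (d ▸ a2)) (by simp)]
  have lk := k.toRs.leak_back two (fun g d => (off t.symm g d).elim) o.port
    (by rw [o.lay, s.flip]; exact (blay_gt _ _).2 rfl)
  have ia : ∀ {L'}, V.W.Bk j L' (V.W.S.sn L f σ) → V.InI j (some false) L' := Role.inI (t ▸ a1)
  intro _ _
  exact k.serve (((k.toRs.ch_cut 0).app (k.toRs.ch_leak _)).app (k.toRs.ch_acc h))
    ((k.toRs.ch_cut 1).app (k.toRs.ch_acc (acc_Z y))) (ne_line h t (V.W.in_prv _))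
    (fun g => by fin_cases g <;> simp)
    [.lt 4 6, .lt 6 3, .lt 3 2, .lt 2 1, .lt 1 5, .lt 5 0] [] (by decide +kernel)
    ⟨k.FI (inF_col hf fun a Z d => by
        obtain ⟨_, d1, d2⟩ := s.kind d
        rw [← t, ← Kl.col_of_kind d2]
        obtain ⟨_ | _, -, rfl⟩ | ⟨-, _ | _, d, rfl⟩ := Par.mt_tw d1
        exacts [Or.inl rfl, Or.inr cb, Or.inr rfl, nomatch d]) (a1.inI (Wd.bk_prv' j _)),
      k.of_vqI (ia (Wd.bk_prv' j _)) (Wd.vq_out'
        (k.toRs.out_bk (Wd.bk_prv' j _) fun g d => (off rfl g d).elim)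
        (k.toRs.out_bk (Wd.bk_prv' j _) fun g d => (off t.symm g d).elim)
        (Wd.le_prv.2 ((Wd.prv_lt j _).trans_le (Sw.nl_le.2
          (key_anc (s.liv (i := false) t.symm (t ▸ s1) rfl) s.rook an)))) (by simp) le_rfl),
      k.of_vqI (ia (Wd.bk_pay.2 rfl)) lk.1, k.of_vqI (ia (Wd.bk_prv' j _)) lk.2,
      k.II (ia (Wd.bk_prv' j _)) (k.inI_cut (g := 1) a2) s.rook (by simp [Par.zi]),
      k.II (k.inI_cut (g := 1) a2) (k.inI_cut (g := 0) x) s.rook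
        (by rw [s.zi, s.zi]; exact Nat.lt_succ_self 3)⟩ trivial

end

/-- two lines in blocks of different colours -/
theorem ord_col (h : V.W.In L n ∨ V.W.In L' n) (c : ∀ n n', V.W.In L n → V.W.In L' n' →
    (V.F.tree n).col ≠ (V.F.tree n').col) : ∃ dr cd sp, ∀ j, V.W.Far j L → V.W.Far j L' →
      (V.par j).dr = dr → (V.par j).cd = cd → (V.par j).sp = sp →
      (∀ n, V.W.In L n ∨ V.W.In L' n → V.Rest j (V.F.tree n)) →
      ∀ i i', V.fq j (pz L i) < V.fq j (pz L' i') := by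
  obtain ⟨dr, cd, sp, a⟩ := V.ord (L := L) (L' := L') 2
    (fun g => h.elim (fun ⟨i, h⟩ => c n n ⟨i, h⟩ ⟨i, g ▸ h⟩ rfl)
      fun ⟨i, h⟩ => c n n ⟨i, g ▸ h⟩ ⟨i, h⟩ rfl)
    (fun n g g' => c n n ⟨_, g⟩ ⟨_, g'⟩ rfl) fun n n' g g' _ =>
      ⟨fun d => absurd (congrArg Kl.col d.tree.symm) (c _ _ g g'),
        fun d => absurd (congrArg Kl.col d.tree) (c _ _ g g')⟩
  exact ⟨dr, cd, sp, fun j f f' a1 a2 a3 a4 _ _ => fq_lt (fr_lt.2 (a j f f' a1 a2 a3 a4
    fun _ _ g g' _ d => absurd (congrArg Kl.col d) (c _ _ g g')))⟩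

/-- a label and the first entry label, in both orders -/
theorem exists_ts (s : Bool) (lz : V.F.lev z = D) (cz : (V.F.tree z).col ≠ (V.F.tree y).col + 1)
    (dr cd sp : Bool) (ls : List (Hub K N (Pt K N) r0)) (len : ls.length ≤ 13) (E : Kl K r r0) :
    ∃ j, (∀ L ∈ ls, V.W.Far j L) ∧ V.Rs j ![0, 0] ![z, V.W.ell y 0] ∧
      V.Role j (some s) (V.F.tree z) ∧ V.Role j (some !s) (V.F.tree (V.W.ell y 0)) ∧
      (V.par j).rook = false ∧ (V.par j).dr = dr ∧ (V.par j).cd = cd ∧ (V.par j).sp = sp ∧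
      (∀ Z : Kl K r r0, Z.stg ≠ j → Z.kind ≠ (V.F.tree z).kind →
        Z.col ≠ (V.F.tree y).col + 1 → V.Rest j Z) ∧
      (E.stg ≠ j → E ≠ V.F.tree z → E ≠ V.F.tree (V.W.ell y 0) → V.Rest j E) := by
  have cb := col_ell (V := V) y 0
  rw [← cb] at cz ⊢
  obtain ⟨κ, hk⟩ := Kl.exists_kap (V.F.tree z) (V.F.tree (V.W.ell y 0))
  have ne : V.W.F.tree z ≠ V.W.F.tree (V.W.ell y 0) := fun d => cz (congrArg Kl.col d)
  cases s
  · obtain ⟨j, hf, s, a1, a2, a3, -, -, a4⟩ := exists_tw _ _ cz (own_ell _ _) dr cd sp hk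
      (by simp) .last .last ls len E
    exact ⟨j, hf, .two (run_lab s.lx lz) (run_lab s.ly (V.lev_ell _ _)) (Wd.On.tree_ne ne) s.rx s.ry,
      s.rx, s.ry, s.rook, a1, a2, a3, fun Z c c' d => s.rest c c' (Kl.kind_ne d), a4⟩
  · obtain ⟨j, hf, s, a1, a2, a3, -, -, a4⟩ := exists_tw _ _ cz.symm
      (mt Kl.Own.symm (own_ell _ _)) dr cd sp hk.symm (by simp) .last .last ls len E
    exact ⟨j, hf, .two (run_lab s.ly lz) (run_lab s.lx (V.lev_ell _ _)) (Wd.On.tree_ne ne) s.ry s.rx,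
      s.ry, s.rx, s.rook, a1, a2, a3, fun Z c c' d => s.rest c (Kl.kind_ne d) c',
      fun c c' d => a4 c d c'⟩

/-- the tail of `x` is freed through a gap of the line `L` -/
theorem alt (lz : V.F.lev z = D) (ch : ∀ j (l : Fin 2 → ℕ) t,
      V.W.Ch j l t (hv (nl z)) [d] [pz L (i + 1)] (vz L m)) (hi : i < 2 * r + 9)
    (hm : m ≤ 2 * r + 9) (hg : V.W.S.hang L m (some (nl x)))
    (cy : (V.F.tree y).col = (V.F.tree x).col + 1) (cz : (V.F.tree z).col ≠ (V.F.tree y).col + 1)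
    (hx : (V.F.tree x).kind ≠ (V.F.tree z).kind) (hy : (V.F.tree y).kind ≠ (V.F.tree z).kind)
    (hn : ∀ n, V.W.In L n → (V.F.tree n).col ≠ (V.F.tree z).col ∧
      (V.F.tree n).col ≠ (V.F.tree (cond d y x)).col) : V.W.Sv (vz (nl x) 0) (hv (ml y 0)) := by
  have ix := V.W.in_pay (inl x)
  have iy : V.W.In _ y := V.W.in_prv (Wd.mo y 0)
  have c3 : ∀ c : ZMod 3, c ≠ c + 1 ∧ c ≠ c + 1 + 1 := by decide
  have key : ∀ s dr cd sp E, ∃ j, V.W.Far j L ∧ V.W.Far j (nl x) ∧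
      V.W.Far j (V.W.prv (Wd.mo y 0)) ∧ V.Rs j ![0, 0] ![z, V.W.ell y 0] ∧
      V.InI j (some s) (V.W.cut 0 z) ∧ V.Role j (some !s) (V.F.tree (V.W.ell y 0)) ∧
      (V.par j).rook = false ∧ (V.par j).dr = dr ∧ (V.par j).cd = cd ∧ (V.par j).sp = sp ∧
      V.Rest j (V.F.tree x) ∧ V.Rest j (V.F.tree y) ∧
      (E.stg ≠ j → E ≠ V.F.tree z → E ≠ V.F.tree (V.W.ell y 0) → V.Rest j E) ∧
      ∀ F ne, chkC [true, d, false] [true, false] F ne = true →
        F.Forall (Fm.Holds fun n => V.vr j ![0, 0] ![z, V.W.ell y 0] (nth (pz (inr (j, none, 0)) 0)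
          [pz (V.W.cut 0 z) 0, pz L (i + 1), pz (nl x) 0, pz (V.W.cut 0 (V.W.ell y 0)) 0,
            pz (V.W.prv (Wd.mo y 0)) (2 * r + 10)] n)) →
        (ne.Forall fun c => nth (pz (inr (j, none, 0)) 0)
          [pz (V.W.cut 0 z) 0, pz L (i + 1), pz (nl x) 0, pz (V.W.cut 0 (V.W.ell y 0)) 0,
            (pz (V.W.prv (Wd.mo y 0)) (2 * r + 10) : Ps K N r r0)] c.1 ≠
          nth (pz (inr (j, none, 0)) 0)
          [pz (V.W.cut 0 z) 0, pz L (i + 1), pz (nl x) 0, pz (V.W.cut 0 (V.W.ell y 0)) 0,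
            pz (V.W.prv (Wd.mo y 0)) (2 * r + 10)] c.2) →
        V.W.Sv (vz (nl x) 0) (hv (ml y 0)) := fun s dr cd sp E => by
    obtain ⟨j, hf, k, a1, a2, a3, a4, a5, a6, a7, a8⟩ := exists_ts s lz cz dr cd sp
      [L, nl x, V.W.prv (Wd.mo y 0)] (by simp) E
    have rx := a7 _ ((hf _ (by simp)).wor ix) hx (cy ▸ (c3 _).2)
    exact ⟨j, hf _ (by simp), hf _ (by simp), hf _ (by simp), k, k.inI_cut (g := 0) a1, a2, a3, a4,
      a5, a6, rx, a7 _ ((hf _ (by simp)).wor iy) hy (c3 _).1, a8, fun F ne =>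
      k.serve (((k.toRs.ch_cut 0).app (ch _ _ _)).app (Wd.ch_ftail (k.toRs.off_nl fun g c =>
        (k.role g).elim fun _ h => h.not_rest ((c.1.tree : V.F.tree _ = _) ▸ rx)) hg hm))
        ((k.toRs.ch_cut 1).app (Wd.ch_entry y 0)) (by simp [vz])
        (fun g => by fin_cases g <;> simp) F ne⟩
  intro _ _
  by_cases it : ∃ n, V.W.In L n ∧ V.F.tree n = V.F.tree (V.W.ell y 0)
  · obtain ⟨n, a, it⟩ := it
    obtain ⟨dr, cd, sp, o⟩ := ord_col (Or.inl iy) (L' := nl x) fun n n' c c' => by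
      rw [c.unique iy, c'.unique ix]
      exact cy ▸ (c3 _).1.symm
    obtain ⟨j, f1, f2, f3, k, a1, a2, a3, a4, a5, a6, rx, ry, -, s⟩ := key false dr cd sp (V.F.tree y)
    have b2 := rx.inF (.self _ j _)
    exact s [.lt 4 2, .lt 2 0, .lt 0 1, .lt 0 3] [(1, 3)] (by cases d <;> decide +kernel)
      ⟨k.FF (ry.inF (Wd.bk_prv' j _)) b2 (o j f3 f2 a4 a5 a6
        (fun n c => c.elim (fun c => c.unique iy ▸ ry) fun c => c.unique ix ▸ rx) _ _),
        k.F_cut b2 0, k.II a1 (Role.inI (it ▸ a2) (f1.bk.2 a)) a3 (by simp [Par.zi]),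
        k.II a1 (k.inI_cut (g := 1) a2) a3 (by simp [Par.zi])⟩
      (pz_ne' (Nat.succ_ne_zero i) (by omega) (by omega))
  obtain ⟨E, hE⟩ : ∃ E, ∀ n, V.W.In L n → V.F.tree n = E := by
    by_cases c : ∃ n, V.W.In L n
    exacts [let ⟨n, c⟩ := c; ⟨_, fun _ a => by rw [a.unique c]⟩,
      ⟨V.F.tree y, fun n a => absurd ⟨n, a⟩ c⟩]
  have re : ∀ {j}, V.W.Far j L → (E.stg ≠ j → E ≠ V.F.tree z → E ≠ V.F.tree (V.W.ell y 0) →
      V.Rest j E) → ∀ n, V.W.In L n → V.Rest j (V.F.tree n) := fun f c n a => by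
    rw [← hE n a] at c
    exact c (f.wor a) (fun d => (hn n a).1 (congrArg Kl.col d)) fun d => it ⟨n, a, d⟩
  cases d
  · obtain ⟨dr, cd, sp, o⟩ := ord_col (Or.inl ix) (L' := L) fun n n' c c' => by
      rw [c.unique ix]
      exact (hn n' c').2.symm
    obtain ⟨j, f1, f2, f3, k, a1, a2, a3, a4, a5, a6, rx, ry, a7, s⟩ := key true dr cd sp E
    have b1 : V.InF j L := fun n c _ a => a.not_rest (re f1 a7 n (f1.bk.1 c))
    exact s [.lt 2 1, .lt 1 3, .lt 4 3, .lt 3 0] [(1, 4), (2, 4)] (by decide +kernel)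
      ⟨k.FF (rx.inF (.self _ j _)) b1 (o j f2 f1 a4 a5 a6
        (fun n c => c.elim (fun c => c.unique ix ▸ rx) (re f1 a7 n)) _ _), k.F_cut b1 1,
        k.F_cut (ry.inF (Wd.bk_prv' j _)) 1,
        k.II (k.inI_cut (g := 1) a2) a1 a3 (by simp [Par.zi])⟩
      ⟨pz_ne' (by omega) (by omega) le_rfl, pz_ne' (by omega) (by omega) le_rfl⟩
  · obtain ⟨dr, cd, sp, o⟩ := ord_col (Or.inr iy) (L := L) fun n n' c c' => by
      rw [c'.unique iy]
      exact (hn n c).2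
    obtain ⟨j, f1, f2, f3, k, a1, a2, a3, a4, a5, a6, rx, ry, a7, s⟩ := key false dr cd sp E
    have b1 : V.InF j L := fun n c _ a => a.not_rest (re f1 a7 n (f1.bk.1 c))
    have b3 := ry.inF (Wd.bk_prv' j (Wd.mo y 0))
    exact s [.lt 1 4, .lt 4 0, .lt 2 0, .lt 0 3] [(1, 2), (2, 4)] (by decide +kernel)
      ⟨k.FF b1 b3 (o j f1 f3 a4 a5 a6
        (fun n c => c.elim (re f1 a7 n) fun c => c.unique iy ▸ ry) _ _), k.F_cut b3 0,
        k.F_cut (rx.inF (.self _ j _)) 0, k.II a1 (k.inI_cut (g := 1) a2) a3 (by simp [Par.zi])⟩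
      ⟨pz_ne' (Nat.succ_ne_zero i) (by omega) (by omega), pz_ne' (by omega) (by omega) le_rfl⟩

theorem sv_alt (g : V.W.S.Good e) (t : V.F.tree y = V.F.tree (V.W.S.sn (nl x) false .H)) :
    V.W.Sv (vz (nl x) 0) (hv (ml y 0)) := by
  have cy : (V.F.tree y).col = (V.F.tree x).col + 1 := t ▸ col_sn (V.W.in_pay (inl x)) false .H
  have c3 : ∀ c : ZMod 3, c ≠ c + 1 ∧ c ≠ c + 1 + 1 ∧ c + 1 ≠ c + 1 + 1 := by decide
  intro _ _
  rcases (V.F.surj x).2.1.eq_or_lt with c | c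
  · obtain ⟨L, i, u, τ, a, rfl⟩ := g.use c
    have := a.le
    have cs : ∀ f σ, (V.F.tree (V.W.S.sn L f σ)).col = (V.F.tree (V.W.S.sn L u τ)).col :=
      fun f σ => (V.W.S.col_sn V.D_pos L f σ).trans ((V.W.col_typ L f).trans
        ((V.W.S.col_sn V.D_pos L u τ).trans (V.W.col_typ L u)).symm)
    have key : ∀ {d i' f σ p}, V.W.S.At L i' f σ → i ≠ i' → p < 2 * r + 9 →
        (∀ j (l : Fin 2 → ℕ) t, V.W.Ch j l t (hv (nl (V.W.S.sn L f σ))) [d] [pz L (p + 1)] (vz L i)) →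
        V.W.Sv (vz (nl (V.W.S.sn L u τ)) 0) (hv (ml y 0)) := fun {d _ _ _ _} a' ne p ch =>
      alt (V.W.S.lev_sn V.D_pos _ _ _) ch p this a.hang cy (by rw [cs, cy]; exact (c3 _).2.1)
        (a.kind_nec V.D_pos a' ne) (Kl.kind_ne (by rw [cs, cy]; exact (c3 _).1.symm)) fun n b => by
          have := col_sn b u τ
          exact ⟨by rw [cs, this]; exact (c3 _).1, by
            cases d
            exacts [this ▸ (c3 _).1, by rw [cond_true, cy, this]; exact (c3 _).2.1]⟩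
    rcases le_or_gt i 1 with c | c
    · obtain ⟨f, σ, a'⟩ := V.W.S.at_mid L (i := i + 1) (by omega) (by omega)
      exact key a' (by omega) (by omega) fun _ _ _ => Wd.ch_up a'.hang (by omega)
    · obtain ⟨i, rfl⟩ : ∃ m, i = m + 1 := ⟨i - 1, by omega⟩
      obtain ⟨f, σ, a'⟩ := V.W.S.at_mid L (i := i) (by omega) (by omega)
      exact key a' (by omega) (by omega) fun _ _ _ => Wd.ch_dn a'.hang (by omega)
  · have a := V.W.S.pay_H (inl (V.F.kid x))
    have ik := V.W.in_pay (inl (V.F.kid x))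
    have tk : V.F.tree (V.F.kid x) = V.F.tree x := Forest.tree_kid c
    have lk := V.F.lev_kid c
    have cz := (col_sn ik false .H).trans (congrArg (·.col + 1) tk)
    have := (V.F.surj x).1
    refine alt (d := true) (i := 0) (V.W.S.lev_sn V.D_pos _ _ _)
      (fun _ _ _ => Wd.ch_up a.hang (by omega)) (by omega) (by omega)
      ((congrArg (fun n => V.W.S.hang _ 0 (some (nl n))) (V.F.par_kid c)).mp
        (Wd.hang_par (W := V.W) (by rw [V.W_F]; omega))) cy (by rw [cz, cy]; exact (c3 _).2.2)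
      (Kl.kind_ne (cz ▸ (c3 _).1)) (fun d => ?_) fun n b => by
        rw [b.unique ik, cz, cond_true, cy]
        exact ⟨tk ▸ (c3 _).1, tk ▸ (c3 _).1⟩
    rw [t, show V.F.tree _ = _ from a.tree V.D_pos,
      show V.F.tree _ = _ from (V.W.S.pay_H (inl x)).tree V.D_pos] at d
    have d : lc (V.F.lev x) = lc (V.F.lev (V.F.kid x)) :=
      (HT.tN.inj (congrArg (·.1.1) d)).2.2
    rw [lk] at d
    unfold lc at d
    split_ifs at d <;> omega

section
variable (h : V.W.S.Acc true v L i f σ) (ht : V.F.tree y = V.F.tree (V.W.S.sn L f σ))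
include h ht

/-- **A moat hub in the tree of the token.** -/
theorem sv_ye (g : V.W.S.Good e) (k : Fin (r0 + 1)) : V.W.Sv v (hv (inl (inr (y, k)))) := by
  intro _ _
  by_cases o : ¬V.F.Anc y (V.W.S.sn L f σ) ∨ V.F.lev y % 2 = 1
  · exact sv_bef h ht o (V.W.S.acc_moat (y, k)) (V.W.in_prv (inr (y, k)))
      (Wd.mo_val y k ▸ own_ell y k) (ne_hub h _)
      fun j c => (Wd.prv_lt j _).trans (Wd.mo_val y k ▸ ml_lt c k)
  rw [not_or, not_not, Nat.mod_two_not_eq_one] at o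
  rw [← Wd.mo_val]
  by_cases c : (k : ℕ) ≠ 0
  · exact sv_yx h o.1 o.2 k c
  rw [not_not.1 c]
  by_cases d : ∀ w c l, (V.W.S.typ L f, σ) ≠ (.tN w c l, .H)
  · exact sv_y0 h o.1 o.2 d
  push Not at d
  obtain ⟨w, c', l, d⟩ := d
  obtain ⟨d, rfl⟩ := Prod.ext_iff.1 d
  obtain ⟨x, rfl, rfl⟩ : ∃ x, L = nl x ∧ f = false := by
    cases f
    · rcases L with (x | z) | z
      exacts [⟨x, rfl, rfl⟩, (nomatch d), nomatch d]
    · simp only [Pre.typ] at d
      rcases c : V.W.S.O.dA L with (x | z) | z <;> simp [c, Pre.ht] at d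
  obtain rfl : i = 1 := h.at.pos_eq (V.W.S.pay_H (inl x)) rfl
  rcases h.cases with ⟨-, _, c, -⟩ | ⟨c, -⟩ | ⟨k, rfl, c⟩
  exacts [(nomatch c), (nomatch c), by
    rw [← vz_val, show (k : ℕ) = 0 by simpa using c]; exact sv_alt g ht]

/-- **The tail of a moat line in the tree of the token.** -/
theorem sv_yt (k : Fin (r0 + 1)) : V.W.Sv v (vz (inl (inr (y, k))) 0) := by
  intro _ _
  by_cases o : ¬V.F.Anc y (V.W.S.sn L f σ) ∨ V.F.lev y % 2 = 1
  · have a := V.W.S.pay_H (inr (y, k))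
    exact sv_bef h ht o (Stat.At.up (k := 0) a) (V.W.in_pay (inr (y, k))) (own_of (by
      rw [show V.F.tree _ = _ from a.tree V.D_pos]; simp [Kl.ty, Pre.typ, Pre.tt]))
      (ne_line h ht (V.W.in_pay (inr (y, k)))) fun j c => Wd.mo_val y k ▸ ml_lt c k
  rw [not_or, not_not, Nat.mod_two_not_eq_one] at o
  exact sv_aft h o.1 o.2 k

/-- **The head of the line into a node in the tree of the token.** -/
theorem sv_yz : V.W.Sv v (vz (V.W.prv (inl y)) (2 * r + 9)) := by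
  intro _ _
  by_cases o : V.F.Anc y (V.W.S.sn L f σ)
  · exact sv_yF h o
  · exact sv_bef h ht (Or.inl o) (acc_Z y) (V.W.in_prv (inl y))
      (own_of (by simp [Kl.ty_val (tree_Z y)])) (ne_line h ht (V.W.in_prv _)) fun j _ => Wd.prv_lt j _

end

end Fw.Rx

end Pool.Agent.P.MP_439f1f_co
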