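import Pool.Agent.P.MP_439f1f_co.Top0
import Pool.Agent.P.MP_439f1f_co.Rl0
import Pool.Agent.P.MP_439f1f_co.Rx2

/-!
Service of two points on lines of different colours.
-/

set_option autoImplicit false
set_option linter.unusedSectionVars false

namespace Pool.Agent.P.MP_439f1f_co

open Function SimpleGraph Sum

variable {K N : Type} {r r0 q D e b : ℕ}

namespace Rx

/-- a level of the cuts at rest that is allowed for the type -/
def kp : HT K r0 → Fin 7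
  | .tN _ _ l => if l = 1 then 4 else 2
  | _ => 2

theorem kp_cases (t : HT K r0) : kp t = 2 ∨ kp t = 4 ∨ kp t = 6 := by
  unfold kp
  split
  · split_ifs <;> simp
  · simp

theorem hk_kp (x : Kl K r r0) (c : ZMod 3) : x.Hk (kp x.ty) c := fun w l h => by
  rw [Kl.ty_val h, kp]
  clear h
  revert l
  decide

/-- the parameters -/
def par (D : ℕ) (x y : Kl K r r0) (dr cd sp fp : Bool) (op : Option Bool) (fl : Fin 3)
    (ek : Fin (r0 + 1)) : Par r r0 D :=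
  { Par.base r r0 D with
    dr := dr
    cd := cd
    sp := sp
    flip := fp
    kap c := if c + 1 = x.col then kp x.ty else kp y.ty
    op := op
    fl := fl
    ek := ek }

/-- the items -/
def it (x : Kl K r r0) (C : Set (Kl K r r0)) (t i : Bool) : Set (Kl K r r0) :=
  if i = t then {x} else C

variable {x y T T' : Kl K r r0} {C : Set (Kl K r r0)} {t dr cd sp fp : Bool} {op a a' : Option Bool}
  {fl : Fin 3} {ek : Fin (r0 + 1)}

theorem it_self : x ∈ it x C t t := by simp [it]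
theorem it_not (h : y ∈ C) : y ∈ it x C t (!t) := by simpa [it] using h

theorem it_cases {i : Bool} (h : T ∈ it x C t i) : (i = t ∧ T = x) ∨ (i = !t ∧ T ∈ C) := by
  revert h
  cases i <;> cases t <;> simp [it]

/-- closed, or the first item is open -/
def Md (x : Kl K r r0) (C : Set (Kl K r r0)) (t fp : Bool) (op : Option Bool) (fl : Fin 3)
    (ek : Fin (r0 + 1)) : Prop :=
  (op = none ∧ fp = false) ∨ (op = some false ∧ t = false ∧ (ek : ℕ) % 2 = 1 ∧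
    (∀ z ∈ C, ∀ w c k, z.1 ≠ (.hM w c k, .Z) ∧ z.1 ≠ (.tE w c k, .H)) ∧
    ((fl = 1 ∧ fp = false ∧ ∀ z ∈ C, ∀ w c, z.1 ≠ (.hP w c, .Z)) ∨
      (fl = 2 ∧ (∀ z ∈ C, fp = true ∧ ∃ w, z.1 = (.hP w (x.col + 1), .Z)))))

theorem mt_cases (m : Md x C t fp op fl ek)
    (h : (par D x y dr cd sp fp op fl ek).Mt (it x C t) a T) :
    (a = some t ∧ T = x) ∨ (a = some (!t) ∧ T ∈ C) ∨
      (a = none ∧ op = some false ∧ T = x.ent ek) := by
  rcases a with _ | i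
  · obtain ⟨i, T0, a1, a2, rfl⟩ := h
    rcases m with m | ⟨rfl, rfl, -⟩
    · exact absurd (m.1.symm.trans a2) (by simp)
    · obtain rfl : false = i := Option.some.inj a2
      exact Or.inr (Or.inr ⟨rfl, rfl, by rw [((it_cases a1).resolve_right (by simp)).2]; rfl⟩)
  · exact (it_cases h).elim (fun c => Or.inl ⟨by rw [c.1], c.2⟩)
      fun c => Or.inr (Or.inl ⟨by rw [c.1], c.2⟩)

theorem ta (hC : ∀ z ∈ C, z = y) (c : y.col = x.col + 1) (own : ¬x.Own y)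
    (m : Md x C t fp op fl ek) : (par D x y dr cd sp fp op fl ek).TA (it x C t) := by
  have k : ∀ c : ZMod 3, c + 1 ≠ c ∧ c + 1 + 1 ≠ c ∧ c + 1 + 1 ≠ c + 1 := by decide
  have o1 : ∀ {i}, op = some i → i = false ∧ t = false ∧ (ek : ℕ) % 2 = 1 ∧
      (∀ z ∈ C, ∀ w c k, z.1 ≠ (.hM w c k, .Z) ∧ z.1 ≠ (.tE w c k, .H)) ∧
      ((fl = 1 ∧ fp = false ∧ ∀ z ∈ C, ∀ w c, z.1 ≠ (.hP w c, .Z)) ∨
        (fl = 2 ∧ (∀ z ∈ C, fp = true ∧ ∃ w, z.1 = (.hP w (x.col + 1), .Z)))) := fun h =>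
    have := m.resolve_left fun d => by simp [h] at d
    ⟨Option.some.inj (h.symm.trans this.1), this.2⟩
  have key : ∀ {a a' T T'}, (par D x y dr cd sp fp op fl ek).Mt (it x C t) a T →
      (par D x y dr cd sp fp op fl ek).Mt (it x C t) a' T' → T.col = T'.col →
      (a = a' ∧ T = T') ∨ (op = some false ∧ (a = none ∧ a' = some true ∧ T = x.ent ek ∧ T' ∈ C ∨
        a' = none ∧ a = some true ∧ T' = x.ent ek ∧ T ∈ C)) := by
    intro a a' T T' h h' d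
    rcases mt_cases m h with ⟨rfl, rfl⟩ | ⟨rfl, g⟩ | ⟨rfl, g, rfl⟩ <;>
      rcases mt_cases m h' with ⟨rfl, rfl⟩ | ⟨rfl, g'⟩ | ⟨rfl, g', rfl⟩
    · exact Or.inl ⟨rfl, rfl⟩
    · exact absurd (c.symm.trans (hC _ g' ▸ d.symm)) (k _).1
    · exact absurd d.symm (k _).1
    · exact absurd (c.symm.trans (hC _ g ▸ d)) (k _).1
    · exact Or.inl ⟨rfl, (hC _ g).trans (hC _ g').symm⟩
    · exact Or.inr ⟨g', Or.inr ⟨rfl, by rw [(o1 g').2.1]; rfl, rfl, g⟩⟩
    · exact absurd d (k _).1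
    · exact Or.inr ⟨g, Or.inl ⟨rfl, by rw [(o1 g).2.1]; rfl, rfl, g'⟩⟩
    · exact Or.inl ⟨rfl, rfl⟩
  have low : op = some false → ∀ a0 T, (par D x y dr cd sp fp op fl ek).Mt (it x C t) a0 T →
      T.col + 1 = x.col + 1 → (par D x y dr cd sp fp op fl ek).zi a0 = 1 := fun g a0 T h d => by
    rcases mt_cases m h with ⟨rfl, rfl⟩ | ⟨rfl, g'⟩ | ⟨rfl, g', rfl⟩
    · rw [(o1 g).2.1]; rfl
    · rw [hC _ g', c] at d
      exact absurd d (k _).2.2
    · exact absurd d (k _).2.2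
  constructor
  · intro i T h T' h'
    rcases it_cases h with ⟨rfl, rfl⟩ | ⟨rfl, g⟩ <;> rcases it_cases h' with ⟨f, rfl⟩ | ⟨f, g'⟩
    exacts [rfl, by simp at f, by simp at f, by rw [hC _ g, hC _ g']]
  · intro c
    simp only [par]
    split_ifs <;> exact kp_cases _
  · simp [par, Par.base]
  · intro a a' T h h'
    rcases key h h' rfl with d | ⟨g, ⟨-, -, rfl, d⟩ | ⟨-, -, rfl, d⟩⟩
    exacts [d.1, absurd rfl ((o1 g).2.2.2.1 _ d _ _ _).1, absurd rfl ((o1 g).2.2.2.1 _ d _ _ _).1]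
  · simp [par, Par.base]
  · intro a T c' h
    refine ⟨?_, by simp [par, Par.base]⟩
    simp only [par]
    rcases mt_cases m h.1 with ⟨-, rfl⟩ | ⟨-, g⟩ | ⟨-, -, rfl⟩
    · split_ifs with d
      exacts [hk_kp _ _, .of_col (Ne.symm d)]
    · obtain rfl := hC _ g
      split_ifs with d
      exacts [.of_col (by rw [c, d]; exact (k _).1), hk_kp _ _]
    · exact .of_sl (by simp [Kl.ent])
  · intro a a' T T' h h' d
    refine ⟨?_, by simp [par, Par.base]⟩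
    rcases key h.1 h'.1 d.col with ⟨-, rfl⟩ | ⟨g, ⟨-, -, rfl, f⟩ | ⟨rfl, rfl, rfl, f⟩⟩
    · exact absurd d.2 (by omega)
    · have a1 := d.2
      have a2 := T'.sl.off_le (ρ := T'.ty.len r)
      rw [Kl.off, ← d.1] at a1
      rw [← d.1] at a2
      exact absurd a1 (by show ¬_ = ((x.ent ek).ty.len r : ℕ) + 3 + 1; omega)
    · rcases (o1 g).2.2.2.2 with ⟨rfl, -⟩ | ⟨-, f'⟩
      · refine ⟨by simp [par, g], by simp [par, Par.zi], fun a0 T0 b1 b2 => Or.inl ?_⟩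
        rw [low g a0 T0 b1 (b2.trans d.col)]
        simp [par, Par.zi]
      · obtain ⟨-, w, f'⟩ := f' _ f
        exact nomatch (Kl.ty_val f').symm.trans d.1
  · intro a a' T T' h h' d
    rcases key h.1 h'.1 d.col with ⟨-, rfl⟩ | ⟨g, ⟨-, -, rfl, f⟩ | ⟨rfl, rfl, rfl, f⟩⟩
    exacts [(nomatch d.1.symm.trans d.2.2.1), absurd d.1 (by simp [Kl.ent, HT.hd]),
      absurd d.2.2.2.1 (by simp [Kl.ent])]
  · intro a a' T T' w c' k' h h' d d'
    rcases key h.1 h'.1 ((Kl.col_val d).trans (Kl.col_val d').symm) with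
      ⟨-, rfl⟩ | ⟨g, ⟨rfl, rfl, rfl, f⟩ | ⟨rfl, rfl, rfl, f⟩⟩
    · exact nomatch d.symm.trans d'
    · rcases (o1 g).2.2.2.2 with ⟨-, -, f'⟩ | ⟨rfl, f'⟩
      · exact absurd d' (f' _ f _ _)
      refine ⟨⟨by simp [par, g], by simp [par, Par.zi], fun a0 T0 b1 b2 => Or.inl ?_⟩,
        by simp [par, Par.base], fun _ => (f' _ f).1, Fin.le_last _⟩
      rw [low g a0 T0 b1 (b2.trans (Kl.col_val d).symm)]
      simp [par, Par.zi]
    · exact nomatch Kl.val_ent.symm.trans d'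
  · intro a a' T T' w c' k' i h h' d d'
    rcases key h.1 h'.1 ((Kl.col_val d).trans (Kl.col_val d').symm) with
      ⟨-, rfl⟩ | ⟨g, ⟨rfl, rfl, rfl, f⟩ | ⟨rfl, rfl, rfl, f⟩⟩
    exacts [(nomatch d.symm.trans d'), absurd d' ((o1 g).2.2.2.1 _ f _ _ _).2,
      nomatch Kl.val_ent.symm.trans d']
  · rintro a a' T T' h h' ⟨w, p, c1, p', c2, d, d', f⟩
    rcases mt_cases m h.1 with ⟨-, rfl⟩ | ⟨-, g⟩ | ⟨-, -, rfl⟩ <;>
      rcases mt_cases m h'.1 with ⟨-, rfl⟩ | ⟨-, g'⟩ | ⟨-, -, rfl⟩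
    exacts [(nomatch d.symm.trans d'), own (Or.inl (hC _ g' ▸ ⟨w, p, c1, p', c2, d, d', f⟩)),
      (nomatch Kl.val_ent.symm.trans d'), own (Or.inr (hC _ g ▸ ⟨w, p, c1, p', c2, d, d', f⟩)),
      (nomatch (hC _ g ▸ d).symm.trans (hC _ g' ▸ d')), (nomatch Kl.val_ent.symm.trans d'),
      (nomatch Kl.val_ent.symm.trans d), (nomatch Kl.val_ent.symm.trans d),
      nomatch Kl.val_ent.symm.trans d]
  · simp [par, Par.base]
  · simp [par, Par.base]
  · exact fun _ _ _ _ k _ _ _ => Fin.le_last k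
  · intro i g
    obtain ⟨rfl, rfl, d, -⟩ := o1 g
    exact ⟨by simp [it], Nat.zero_le _, d, Or.inl rfl⟩
  · intro i g _ T h _ _ _ _
    obtain ⟨rfl, rfl, -, d, -⟩ := o1 g
    exact (d T (by simpa [it] using h) _ _ _).1
  · intro i g T h w c' l d
    obtain ⟨rfl, rfl, -, -, f | f⟩ := o1 g
    · exact Or.inl ⟨rfl, f.1⟩
    · obtain rfl : T = x := by simpa [it] using h
      refine Or.inr ⟨f.1, Or.inr fun T' h' => ?_⟩
      rw [hC T' (by simpa [it] using h'), c, Kl.col_val d]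
      exact (k _).2.1
  · intro g
    rcases m with m | ⟨rfl, rfl, -, -, f | f⟩
    · exact absurd (m.2.symm.trans g) (by simp)
    · exact absurd (f.2.1.symm.trans g) (by simp)
    · refine ⟨f.1, fun i d T h => ?_⟩
      obtain rfl : false = i := Option.some.inj d
      refine ⟨rfl, rfl, fun T0 h0 => ?_⟩
      obtain rfl : T0 = x := by simpa [it] using h0
      exact (f.2 T (by simpa [it] using h)).2

variable [DecidableEq K] [Finite K] [Finite N] [Nonempty K]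

section wd

variable {β ι : Type} [LinearOrder β] {W : Wd K N β r r0 q D e b} {j : K} {l : ι → ℕ} {tg : ι → N}
  {L : Hub K N (Pt K N) r0} {n : N} {g : ι}

/-- a line in a block of a route that is not carried -/
theorem out_pos (k : W.Rs j l tg) (h : W.Bk j L n) (c : ∀ g, W.On (l g) (tg g) n →
    (W.F.lev n % 2 = 1 → W.pos j L < W.pos j (nl n)) ∧
      (W.F.lev n % 2 = 0 → W.pos j (nl n) ≤ W.pos j L)) : (W.rts l tg).Out (W.pos j) L := by
  intro g s d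
  have := k.len g
  have := d.1
  obtain ⟨p, f⟩ := k.pair d.1
  rcases p.btw L d.2.1 (f ▸ d.2.2.le) with a | a <;> obtain rfl := h.unique a
  · exact ((c g (Wd.on_at (by omega))).1 p.odd).not_ge d.2.1
  · have a1 := W.F.lev_kid p.lev
    have a2 := p.odd
    exact ((c g (f ▸ Wd.on_at (by omega))).2 (by omega)).not_gt (f ▸ d.2.2)

/-- a line in a block of a route that is carried -/
theorem cut_lt (k : W.Rs j l tg) (h : W.Bk j L n) (o : W.On (l g) (tg g) n)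
    (ev : W.F.lev n % 2 = 0) (c : W.pos j L < W.pos j (nl n)) :
    W.vp j l tg (W.cut (l g) (tg g)) < W.vp j l tg L := by
  have a1 := k.len g
  have a2 := o.1.1
  have a3 := o.2
  have a4 := (k.run g).ev
  have a5 := (W.F.surj (tg g)).2.1
  obtain ⟨s, hs⟩ : ∃ s, W.F.lev n = l g + (2 * s + 1) + 1 := ⟨(W.F.lev n - l g - 2) / 2, by omega⟩
  have s1 : s < (W.rts l tg).n g := by omega
  obtain ⟨p, f⟩ := k.pair s1
  have f' : W.F.at' (tg g) (l g + (2 * s + 1) + 1) = n := by rw [← hs, o.1.2]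
  have a6 := p.odd
  have a7 := p.lt
  rw [f, f'] at a7
  have d : (W.rts l tg).In (W.pos j) L g s :=
    ⟨s1, ((Wd.Bk.self W j _).lt h (((Wd.Bk.self W j _).lt_iff (Wd.Bk.self W j n)
      fun d => by rw [d] at a6; omega).1 a7)).le, by rw [← f'] at c; exact c⟩
  refine (k.cut_lt_iff L g).2 ⟨((k.ok.an_in (W.lref j) d).trans (k.lab g)).symm ▸ le_rfl, ?_⟩
  rintro rfl
  have := W.F.lev_at (tg g) (l := l g + 1) (by omega) (by omega)
  rw [← h.unique (Wd.bk_cut j _ _)] at this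
  omega

variable {d f : Bool} {v : Vx K N (Pt K N) r r0} {i : ℕ} {σ : Slot (r + 1)}

theorem acc_le (h : W.S.Acc d v L i f σ) : cond d i (i + 1) ≤ 2 * r + 10 := by
  have := h.at.le
  cases d <;> simp <;> omega

/-- the cut of an access is not the tail of a payload line -/
theorem acc_ne (h : W.S.Acc d v L i f σ) (p : N ⊕ N × Fin (r0 + 1)) :
    (pz (inl p) 0 : Ps K N r r0) ≠ pz L (cond d i (i + 1)) := by
  by_cases c : cond d i (i + 1) = 0
  · obtain rfl : i = 0 := by cases d <;> simp_all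
    obtain ⟨⟨z, rfl⟩, -⟩ := h.at.zero
    exact pz_ne (by simp)
  · exact pz_ne' (Ne.symm c) (by omega) (acc_le h)

/-- the first slot is reached from below, the last slot from above -/
theorem prim (h : W.S.Acc d v L i f σ) : ∃ d i f σ, W.S.Acc d v L i f σ ∧
    (f = false → σ = .H → i ≤ 1 ∧ v = if i = 0 then hv L else vz L 0) ∧
    (f = true → σ = .Z → d = false ∧
      v = if i = 2 * r + 8 then vz L (2 * r + 9) else hv (W.S.O.dA L)) := by
  have k : ∀ {d i f σ}, W.S.Acc d v L i f σ → 2 ≤ i → i ≤ 2 * r + 7 → ∃ d i f σ,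
      W.S.Acc d v L i f σ ∧ (f = false → σ = .H → i ≤ 1 ∧ v = if i = 0 then hv L else vz L 0) ∧
      (f = true → σ = .Z → d = false ∧
        v = if i = 2 * r + 8 then vz L (2 * r + 9) else hv (W.S.O.dA L)) := fun a a1 a2 => by
    refine ⟨_, _, _, _, a, ?_, ?_⟩ <;> rintro rfl rfl
    · have := a.at.H_lo
      omega
    · have := a.at.Z_hi
      omega
  rcases h.cases with ⟨rfl, y, rfl, rfl, rfl, rfl, rfl⟩ | ⟨rfl, y, c, rfl, rfl, rfl, rfl⟩ |
    ⟨y, rfl, c⟩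
  · exact ⟨_, _, _, _, h, by simp, by simp⟩
  · exact ⟨_, _, _, _, h, by simp, by simp [c]⟩
  by_cases c1 : 3 ≤ (y : ℕ) ∧ (y : ℕ) ≤ 2 * r + 8
  · obtain ⟨u, τ, a⟩ := W.S.acc_dn L y (Or.inl (by omega))
    exact k a (by omega) (by omega)
  by_cases c2 : 1 ≤ (y : ℕ) ∧ (y : ℕ) ≤ 2
  · obtain ⟨u, τ, a⟩ := W.S.acc_up L y (Or.inl (by omega))
    exact k a (by omega) (by omega)
  have := h.at.le
  have := y.2
  refine ⟨_, _, _, _, h, ?_, ?_⟩ <;> rintro rfl rfl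
  · have := h.at.H_lo
    have g : (y : ℕ) = 0 ∧ i = 1 := by cases d <;> simp at c <;> omega
    exact ⟨by omega, by rw [if_neg (by omega), ← g.1, vz_val]⟩
  · have := h.at.Z_hi
    have g : d = false ∧ (y : ℕ) = 2 * r + 9 ∧ i = 2 * r + 8 := by cases d <;> simp at c ⊢ <;> omega
    exact ⟨g.1, by rw [if_pos g.2.2, ← vz_val, g.2.1]⟩

/-- the world of a system is not the world of the block -/
theorem sys_wor {w : K × Bool} {p : ZMod 12} {c : ZMod 3} (h : W.In L n)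
    (t : W.S.typ L f = .tS w p c ∨ W.S.typ L f = .hS w p c) : W.S.wor n ≠ w := by
  cases f
  · rcases L with (m | m) | ⟨s, y, i⟩ <;> simp [Pre.typ, Pre.tt] at t
    exact t.1 ▸ W.wor_ne h
  · rw [← W.in_dA] at h
    simp only [Pre.typ] at t
    generalize W.S.O.dA L = L' at h t
    rcases L' with (m | m) | ⟨s, y, i⟩ <;> simp [Pre.ht] at t
    exact t.1 ▸ W.wor_ne h

end wd

variable {V : Fw K N r r0 q D e b} {j : K} {L L2 : Hub K N (Pt K N) r0} {n n' y0 : N}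
  {d d2 f f2 : Bool} {v w : Vx K N (Pt K N) r r0} {i i2 : ℕ} {σ σ2 : Slot (r + 1)}

theorem st (hC : ∀ z ∈ C, z = y) (c : y.col = x.col + 1) (own : ¬x.Own y)
    (m : Md x C t fp op fl ek) (dr cd sp : Bool) (L2 : Hub K N (Pt K N) r0)
    (cx : ∀ n, V.W.In L n → (V.F.tree n).col + 1 = x.col)
    (cy : ∀ n, V.W.In L2 n → (V.F.tree n).col = x.col) :
    ∃ j g E, V.St g (par D x y dr cd sp fp op fl ek) (it x C t) E j ∧ V.W.Far j L ∧ V.W.Far j L2 ∧
      (∀ n, V.W.In L n → V.Rest j (V.F.tree n)) ∧ ∀ n, V.W.In L2 n → V.F.tree n ∈ E := by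
  have k : ∀ c : ZMod 3, c + 1 ≠ c ∧ c + 1 + 1 ≠ c := by decide
  obtain ⟨E, e1, e2, e3⟩ : ∃ E : List (Kl K r r0), E.length ≤ 6 ∧ (∀ T ∈ E, T.col = x.col) ∧
      ∀ n, V.W.In L2 n → V.F.tree n ∈ E := by
    by_cases h : ∃ n, V.W.In L2 n
    · obtain ⟨n, h⟩ := h
      exact ⟨[V.F.tree n], by simp, by simpa using cy n h, fun _ c => by simp [c.unique h]⟩
    · exact ⟨[], by simp, by simp, fun n c => absurd ⟨n, c⟩ h⟩
  obtain ⟨g, a⟩ := V.W.exists_grp V.grp [L, L2] (by simp)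
  obtain ⟨j, s⟩ := V.exists_st g (ta (dr := dr) (cd := cd) (sp := sp) (D := D) hC c own m) E e1
    fun T h T' h' x' b1 y' b2 c1 c2 _ => by
      have c1 := (Kl.col_of_kind c1).symm.trans (e2 T h)
      have c2 := (Kl.col_of_kind c2).symm.trans (e2 T' h')
      rcases it_cases b1 with ⟨rfl, -⟩ | ⟨-, g⟩
      · exact absurd (c.symm.trans (hC _ ((it_cases b2).resolve_left (by simp)).2 ▸ c2)) (k _).1
      · exact absurd (c.symm.trans (hC _ g ▸ c1)) (k _).1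
  have f := a L (by simp) j s.grp
  refine ⟨j, g, E, s, f, a L2 (by simp) j s.grp, fun n h => s.rest_kind (f.wor h)
    fun a0 T0 b1 => Kl.kind_ne fun b2 => ?_, e3⟩
  have := cx n h
  rcases mt_cases m b1 with ⟨-, rfl⟩ | ⟨-, g⟩ | ⟨-, -, rfl⟩
  · exact (k _).1 (this.trans b2)
  · exact (k _).2 (by rw [this, ← c, ← hC _ g, b2])
  · exact (k _).2 (by rw [this]; exact b2)

theorem inF (f : V.W.Far j L) (h : ∀ n, V.W.In L n → V.Rest j (V.F.tree n)) : V.InF j L :=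
  fun n c _ a => a.not_rest (h n (f.bk.1 c))

theorem run (h : V.Liv j (V.F.tree n)) (l : V.F.lev n = D) : V.W.Run j 0 n :=
  h.run rfl (by rw [l, V.od]) (V.F.surj n).1

theorem rs (h : V.Liv j (V.F.tree n)) (l : V.F.lev n = D) (h' : V.Liv j (V.F.tree n'))
    (l' : V.F.lev n' = D) (c : V.F.tree n ≠ V.F.tree n') : V.Rs j ![0, 0] ![n, n'] :=
  let ⟨_, a, _⟩ := id h
  let ⟨_, a', _⟩ := id h'
  .two (run h l) (run h' l') (Wd.On.tree_ne c) a a'

theorem exists_cd (V : Fw K N r r0 q D e b) (y : N) (l : V.F.lev n = D) :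
    ∃ cd, y ≠ n → V.o cd y < V.o cd n := by
  by_cases c : V.F.Anc y n
  · exact ⟨true, V.ho.lt _ c⟩
  by_cases c' : y = n
  · exact ⟨true, fun d => absurd c' d⟩
  exact (V.ho.choose c fun d => c' (d.eq (by rw [l]; exact (V.F.surj y).2.1)).symm).imp fun _ h _ => h

theorem key_lt (h : V.Liv j (V.F.tree n)) (k : (V.par j).rook = false)
    (t : V.F.tree y0 = V.F.tree n) (o : V.o (V.par j).cd y0 < V.o (V.par j).cd n) :
    (V.L j).key y0 < (V.L j).key n := by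
  have a := Fw.not_own h.stg
  have h' : V.Liv j (V.F.tree y0) := by rwa [t]
  have a' := Fw.not_own h'.stg
  refine (Lay.high_lt (Fw.fm_plain a' k) (Fw.fm_plain a k) t.symm (fun c => ?_)
    fun c => ?_).2 (by rw [Fw.L_dt, Fw.td_cs a']; exact o)
  · exact absurd (h'.kap ▸ c.1 : 2 ≤ 0) (by omega)
  · exact absurd (h.kap ▸ c.1 : 2 ≤ 0) (by omega)

/-- two accesses on lines of consecutive colours -/
structure Cx (V : Fw K N r r0 q D e b) (d : Bool) (v : Vx K N (Pt K N) r r0)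
    (L : Hub K N (Pt K N) r0) (i : ℕ) (f : Bool) (σ : Slot (r + 1)) (L2 : Hub K N (Pt K N) r0) :
    Prop where
  acc : V.W.S.Acc d v L i f σ
  col : ∀ u, (V.W.S.typ L2 u).col = (V.W.S.typ L f).col + 1

namespace Cx

variable (X : Cx V d v L i f σ L2)
include X

theorem lev : V.F.lev (V.W.S.sn L f σ) = D := V.W.S.lev_sn V.D_pos L f σ

theorem cb (u : Bool) (τ : Slot (r + 1)) :
    (V.F.tree (V.W.S.sn L2 u τ)).col = (V.F.tree (V.W.S.sn L f σ)).col + 1 :=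
  (V.W.S.col_sn V.D_pos L2 u τ).trans ((X.col u).trans
    (congrArg (· + 1) (V.W.S.col_sn V.D_pos L f σ).symm))

theorem ab (u : Bool) (τ : Slot (r + 1)) :
    V.F.tree (V.W.S.sn L f σ) ≠ V.F.tree (V.W.S.sn L2 u τ) := fun d =>
  (by decide : ∀ c : ZMod 3, c ≠ c + 1) _ ((congrArg Kl.col d).trans (X.cb u τ))

theorem cx (n : N) (h : V.W.In L n) :
    (V.F.tree n).col + 1 = (V.F.tree (V.W.S.sn L f σ)).col :=
  ((V.W.S.col_sn V.D_pos L f σ).trans (V.W.col_in h f)).symm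

theorem cy (n : N) (h : V.W.In L2 n) : (V.F.tree n).col = (V.F.tree (V.W.S.sn L f σ)).col :=
  add_right_cancel (((V.W.col_in h f).symm.trans (V.W.S.col_sn V.D_pos L2 f σ).symm).trans
    (X.cb f σ))

theorem lo_ne : V.W.lo L ≠ V.W.lo L2 := fun c => (by decide : ∀ c : ZMod 3, c ≠ c + 1) _
  (((V.W.col_typ L f).trans (c ▸ (V.W.col_typ L2 f).symm)).trans (X.col f))

theorem tree_ne (h : V.W.In L n) (h' : V.W.In L2 n') : V.F.tree n ≠ V.F.tree n' := fun c =>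
  (by decide : ∀ c : ZMod 3, c + 1 ≠ c) _ ((X.cx n h).trans (c ▸ (X.cy n' h').symm))

/-- both lines are outside the items -/
theorem row_x (a2 : V.W.S.Acc d2 w L2 i2 f2 σ2) (ne : v ≠ w)
    (own : ¬(V.F.tree (V.W.S.sn L f σ)).Own (V.F.tree (V.W.S.sn L2 f2 σ2)))
    (hy : ∀ n, V.W.In L2 n → V.F.tree n ≠ V.F.tree (V.W.S.sn L f σ)) : V.W.Sv v w := by
  have t : ∀ {n n'}, V.W.In L n → V.W.In L2 n' → V.F.tree n ≠ V.F.tree n' := X.tree_ne
  obtain ⟨dr, cd, sp, o⟩ : ∃ dr cd sp, ∀ j, V.W.Far j L → V.W.Far j L2 → (V.par j).dr = dr →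
      (V.par j).cd = cd → (V.par j).sp = sp →
      (∀ n, V.W.In L n ∨ V.W.In L2 n → V.Rest j (V.F.tree n)) →
      if d = false ∧ d2 = true then V.Bef j L2 L else V.Bef j L L2 := by
    split_ifs
    · obtain ⟨dr, cd, sp, o⟩ := V.ord 2 X.lo_ne.symm (fun n c c' => t ⟨_, c'⟩ ⟨_, c⟩ rfl)
        fun n n' c c' _ => ⟨fun g => absurd g.tree (t c' c), fun g => absurd g.tree.symm (t c' c)⟩
      exact ⟨dr, cd, sp, fun j b1 b2 b3 b4 b5 b6 => o j b2 b1 b3 b4 b5 (fun n c => b6 n c.symm)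
        fun n n' c c' _ g => absurd g.symm (t c' c)⟩
    · obtain ⟨dr, cd, sp, o⟩ := V.ord 2 X.lo_ne (fun n c c' => t ⟨_, c⟩ ⟨_, c'⟩ rfl)
        fun n n' c c' _ => ⟨fun g => absurd g.tree.symm (t c c'), fun g => absurd g.tree (t c c')⟩
      exact ⟨dr, cd, sp, fun j b1 b2 b3 b4 b5 b6 => o j b1 b2 b3 b4 b5 b6
        fun n n' c c' _ g => absurd g (t c c')⟩
  obtain ⟨j, g, E, s, f1, f2', r1, e1⟩ := st (C := {_}) (t := false) (fl := 0) (ek := 0)
    (fun _ h => h) (X.cb f2 σ2) own (Or.inl ⟨rfl, rfl⟩) dr cd sp L2 X.cx X.cy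
  have r2 : ∀ n, V.W.In L2 n → V.Rest j (V.F.tree n) := fun n c =>
    s.rest (f2'.wor c) (e1 n c) (fun i h => (it_cases h).elim (fun h => hy n c h.2) fun h =>
      (by decide : ∀ c : ZMod 3, c ≠ c + 1) _ ((X.cy n c).symm.trans (h.2 ▸ X.cb f2 σ2)))
      fun h => absurd rfl h
  have o := o j f1 f2' s.dr s.cd s.sp fun n c => c.elim (r1 n) (r2 n)
  have s1 := f1.sn V.D_pos f σ
  have s2 := f2'.sn V.D_pos f2 σ2
  have k := rs (s.liv it_self s1 rfl) X.lev (s.liv (it_not rfl) s2 rfl)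
    (V.W.S.lev_sn V.D_pos _ _ _) (X.ab f2 σ2)
  have i1 := inF f1 r1
  have i2 := inF f2' r2
  have ab := k.II (i := 0) (i' := 0) (k.inI_cut (g := 0) (s.role _ _ it_self s1))
    (k.inI_cut (g := 1) (s.role _ _ (it_not rfl) s2)) s.rook (by simp [Par.zi])
  intro _ _
  have S := k.serve ((k.toRs.ch_cut 0).app (k.toRs.ch_acc X.acc))
    ((k.toRs.ch_cut 1).app (k.toRs.ch_acc a2)) ne (fun g => by fin_cases g <;> simp)
  cases d <;> cases d2
  · exact S [.lt 1 3, .lt 3 0, .lt 0 2] [] (by decide +kernel)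
      ⟨k.FF i1 i2 (Fw.fq_lt (Fw.fr_lt.2 o)), k.F_cut i2 0, ab⟩ trivial
  · exact S [.lt 3 1, .lt 1 0, .lt 0 2] [] (by decide +kernel)
      ⟨k.FF i2 i1 (Fw.fq_lt (Fw.fr_lt.2 o)), k.F_cut i1 0, ab⟩ trivial
  · exact S [.lt 1 3, .lt 3 0, .lt 0 2] [] (by decide +kernel)
      ⟨k.FF i1 i2 (Fw.fq_lt (Fw.fr_lt.2 o)), k.F_cut i2 0, ab⟩ trivial
  · exact S [.lt 1 3, .lt 3 0, .lt 0 2] [] (by decide +kernel)
      ⟨k.FF i1 i2 (Fw.fq_lt (Fw.fr_lt.2 o)), k.F_cut i2 0, ab⟩ trivial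

variable (a2 : V.W.S.Acc d2 w L2 i2 f2 σ2) (ne : v ≠ w) (h : V.W.In L2 y0)
  (ty : V.F.tree y0 = V.F.tree (V.W.S.sn L f σ))
include a2 h ty

omit X in
theorem own_y : ¬(V.F.tree (V.W.S.sn L f σ)).Own (V.F.tree (V.W.S.sn L2 f2 σ2)) := by
  have tb := congrArg (·.1.1) (a2.at.tree V.D_pos)
  rintro (⟨w, p, c, p', c', h1, h2, -⟩ | ⟨w, p, c, p', c', h2, h1, -⟩)
  · exact sys_wor h (Or.inr (tb.symm.trans (Kl.ty_val h2))) (by rw [V.wor_eq, ty, Kl.ty_val h1]; rfl)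
  · exact sys_wor h (Or.inl (tb.symm.trans (Kl.ty_val h2))) (by rw [V.wor_eq, ty, Kl.ty_val h1]; rfl)

/-- both items are closed -/
theorem closed (t cd : Bool) : ∃ j, V.Rs j ![0, 0] ![V.W.S.sn L f σ, V.W.S.sn L2 f2 σ2] ∧
    V.InF j L ∧ V.W.Bk j L2 y0 ∧ V.Role j (some t) (V.F.tree (V.W.S.sn L f σ)) ∧
    V.Role j (some (!t)) (V.F.tree (V.W.S.sn L2 f2 σ2)) ∧ V.Liv j (V.F.tree (V.W.S.sn L f σ)) ∧
    (V.par j).rook = false ∧ (V.par j).cd = cd ∧ (V.par j).op = none := by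
  obtain ⟨j, g, E, s, f1, f2', r1, -⟩ := st (C := {_}) (t := t) (fl := 0) (ek := 0)
    (fun _ h => h) (X.cb f2 σ2) (own_y a2 h ty) (Or.inl ⟨rfl, rfl⟩) true cd true L2 X.cx X.cy
  have s1 := f1.sn V.D_pos f σ
  have s2 := f2'.sn V.D_pos f2 σ2
  exact ⟨j, rs (s.liv it_self s1 rfl) X.lev (s.liv (it_not rfl) s2 rfl)
    (V.W.S.lev_sn V.D_pos _ _ _) (X.ab f2 σ2), inF f1 r1, f2'.bk.2 h, s.role _ _ it_self s1,
    s.role _ _ (it_not rfl) s2, s.liv it_self s1 rfl, s.rook, s.cd, s.op⟩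

include ne

/-- the first access goes down -/
theorem row_d (hd : d = false) : V.W.Sv v w := by
  subst hd
  obtain ⟨j, k, i1, bk, ra, rb, -, rk, -⟩ := X.closed a2 h ty d2 true
  have ia := k.inI_cut (g := 0) ra
  have ib := k.inI_cut (g := 1) rb
  have iw : V.InI j (some d2) L2 := ⟨_, bk, ty ▸ ra⟩
  intro _ _
  have S := k.serve ((k.toRs.ch_cut 0).app (k.toRs.ch_acc X.acc))
    ((k.toRs.ch_cut 1).app (k.toRs.ch_acc a2)) ne (fun g => by fin_cases g <;> simp)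
  cases d2
  · exact S [.lt 1 0, .lt 1 3, .lt 0 2, .lt 3 2] [(0, 3)] (by decide +kernel)
      ⟨k.F_cut i1 0, k.FI i1 iw, k.II ia ib rk (by simp [Par.zi]),
        k.II iw ib rk (by simp [Par.zi])⟩ (acc_ne a2 (inl _))
  · exact S [.lt 1 2, .lt 2 0, .lt 2 3] [(0, 3)] (by decide +kernel)
      ⟨k.F_cut i1 1, k.II ib ia rk (by simp [Par.zi]), k.II ib iw rk (by simp [Par.zi])⟩
      (acc_ne a2 (inl _))

/-- the second point comes before the first token -/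
theorem row_b (hd : d = true) (c : V.F.Anc y0 (V.W.S.sn L f σ) →
    V.F.lev y0 % 2 = 1 ∧ ∃ m, L2 = inl (inr (y0, m)) ∨ V.W.S.O.dA L2 = inl (inr (y0, m))) :
    V.W.Sv v w := by
  subst hd
  obtain ⟨cd, o⟩ := exists_cd V y0 X.lev
  obtain ⟨j, k, i1, bk, ra, rb, la, rk, hc, op⟩ := X.closed a2 h ty false cd
  have ia := k.inI_cut (g := 0) ra
  have fr : V.F.Anc y0 (V.W.S.sn L f σ) → V.W.pos j L2 < V.W.pos j (nl y0) := fun g => by
    have p : ∀ m, V.W.pos j (inl (inr (y0, m))) < V.W.pos j (nl y0) := fun m =>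
      V.W.pos_mn.2 (by rw [Fw.lay_closed fun g => g.op op]; exact (blay_lt _ _).2 rfl)
    obtain ⟨-, m, rfl | g⟩ := c g
    exacts [p m, (Equiv.eq_symm_apply _).2 g ▸ (Wd.prv_lt j _).trans (p m)]
  have out := out_pos k.toRs bk fun g oo => by
    fin_cases g
    · exact ⟨fun _ => fr oo.1, fun g => absurd ((c oo.1).1.symm.trans g) (by omega)⟩
    · exact absurd (ty.symm.trans oo.1.tree) (X.ab _ _)
  have wa := k.of_vp (i := cond d2 i2 (i2 + 1)) (i' := 0) ia ((k.toRs.lt_cut_iff L2 0).2 (by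
    rw [Rts.an_out out]
    by_cases g : y0 = V.W.S.sn L f σ
    · exact g ▸ fr (g ▸ .refl _)
    · exact Sw.lt_of_key bk (.self _ j _) (key_lt la rk ty (hc ▸ o g))))
  have vw := k.FI (i := i) (i' := cond d2 i2 (i2 + 1)) i1 ⟨_, bk, ty ▸ ra⟩
  have ab := k.II (i := 0) (i' := 0) ia (k.inI_cut (g := 1) rb) rk (by simp [Par.zi])
  intro _ _
  have S := k.serve ((k.toRs.ch_cut 0).app (k.toRs.ch_acc X.acc))
    ((k.toRs.ch_cut 1).app (k.toRs.ch_acc a2)) ne (fun g => by fin_cases g <;> simp)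
  cases d2 <;> exact S [.lt 1 3, .lt 3 0, .lt 0 2] [] (by decide +kernel) ⟨vw, wa, ab⟩ trivial

/-- the second point is carried by the first route -/
theorem row_c (hd : d = true) (hd2 : d2 = true) (c : V.F.Anc y0 (V.W.S.sn L f σ))
    (ev : V.F.lev y0 % 2 = 0) (m : Fin (r0 + 1)) (c' : L2 = inl (inr (y0, m))) : V.W.Sv v w := by
  subst hd hd2 c'
  obtain ⟨j, k, i1, bk, ra, rb, -, rk, -, op⟩ := X.closed a2 h ty true true
  intro _ _
  exact k.serve ((k.toRs.ch_cut 0).app (k.toRs.ch_acc X.acc))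
    ((k.toRs.ch_cut 1).app (k.toRs.ch_acc a2)) ne (fun g => by fin_cases g <;> simp)
    [.lt 1 2, .lt 2 0, .lt 0 3] [] (by decide +kernel)
    ⟨k.F_cut i1 1, k.II (k.inI_cut (g := 1) rb) (k.inI_cut (g := 0) ra) rk (by simp [Par.zi]),
      k.of_vp ⟨_, bk, ty ▸ ra⟩ (cut_lt (g := 0) k.toRs bk ⟨c, (V.F.surj _).1⟩ ev
        (V.W.pos_mn.2 (by rw [Fw.lay_closed fun g => g.op op]; exact (blay_lt _ _).2 rfl)))⟩ trivial

/-- the first token leaks -/
theorem row_l (hd : d = true) (c : ∀ w c, (∀ m, (V.W.S.typ L2 f2, σ2) ≠ (.hM w c m, .Z) ∧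
    (V.W.S.typ L2 f2, σ2) ≠ (.tE w c m, .H)) ∧ (V.W.S.typ L2 f2, σ2) ≠ (.hP w c, .Z)) :
    V.W.Sv v w := by
  subst hd
  have two : 2 ≤ r0 := by have := V.he; have := V.hr0; omega
  have tb : (V.F.tree (V.W.S.sn L2 f2 σ2)).1 = (V.W.S.typ L2 f2, σ2) :=
    congrArg Subtype.val (a2.at.tree V.D_pos)
  obtain ⟨j, g, E, s, f1, f2', r1, -⟩ := st (C := {_}) (t := false) (fl := 1) (ek := ⟨1, by omega⟩)
    (fun _ h => h) (X.cb f2 σ2) (own_y a2 h ty) (Or.inr ⟨rfl, rfl, rfl,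
      fun z g w' c' m => by rw [g, tb]; exact (c w' c').1 m,
      Or.inl ⟨rfl, rfl, fun z g w' c' => by rw [g, tb]; exact (c w' c').2⟩⟩) true true true L2
    X.cx X.cy
  have s1 := f1.sn V.D_pos f σ
  have s2 := f2'.sn V.D_pos f2 σ2
  have ra := s.role _ _ it_self s1
  have rx := (s.ot it_self s1 rfl).ell
  rw [s.ek] at rx
  have te := V.tree_ell (V.W.S.sn L f σ) ⟨1, by omega⟩
  have k := rs rx.liv (V.lev_ell _ _) (s.liv (it_not rfl) s2 rfl) (V.W.S.lev_sn V.D_pos _ _ _)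
    fun g => ((c _ _).1 _).1 (tb.symm.trans (g ▸ te))
  have o := s.opn it_self s1 rfl (Nat.zero_le _)
  have lf := k.toRs.leak_front (n := V.W.S.sn L f σ) two (fun g oo => by
    fin_cases g
    · exact absurd ((congrArg Kl.col oo.1.tree).trans (Kl.col_val te))
        ((by decide : ∀ c : ZMod 3, c ≠ c + 1) _)
    · exact absurd oo.1.tree (X.ab _ _)) o.port (by rw [o.lay, s.flip]; exact (blay_lt _ _).2 rfl)
  have i1 := inF f1 r1
  have ix := k.inI_cut (g := 0) rx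
  have iw : V.InI j (some false) L2 := ⟨_, f2'.bk.2 h, ty ▸ ra⟩
  have z : (V.par j).zi (some false) < (V.par j).zi none := by rw [s.zi, s.zi]; simp [par, Par.zi]
  have n : ∀ L', (pz L2 (cond d2 i2 (i2 + 1)) : Ps K N r r0) ≠ pz L' (2 * r + 10) := fun L' => by
    refine pz_ne' (fun g => ?_) (acc_le a2) le_rfl
    have := a2.at.le
    obtain rfl : i2 = 2 * r + 9 := by cases d2 <;> simp at g <;> omega
    obtain ⟨⟨⟨y, m⟩, g⟩, rfl, rfl⟩ := a2.at.last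
    exact ((c _ _).1 m).1 (by simp only [Pre.typ, g]; rfl)
  intro _ _
  have S := k.serve (((k.toRs.ch_cut 0).app (k.toRs.ch_leak _)).app (k.toRs.ch_acc X.acc))
    ((k.toRs.ch_cut 1).app (k.toRs.ch_acc a2)) ne (fun g => by fin_cases g <;> simp)
  cases d2 <;> exact S [.lt 4 2, .lt 2 1, .lt 1 3, .lt 3 0, .lt 0 5, .lt 4 6, .lt 6 0]
    [(6, 1), (2, 6), (6, 3)] (by decide +kernel)
    ⟨k.FI i1 (ra.inI (Wd.bk_pay.2 rfl)), k.of_vqI (ra.inI (Wd.bk_prv' j _)) lf.1,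
      k.of_vqI (ra.inI (Wd.bk_prv' j _)) lf.2, k.II (ra.inI (Wd.bk_prv' j _)) ix s.rook z,
      k.II ix (k.inI_cut (g := 1) (s.role _ _ (it_not rfl) s2)) s.rook
        (by rw [s.zi, s.zi]; simp [par, Par.zi]), k.FI i1 iw, k.II iw ix s.rook z⟩
    ⟨n _, acc_ne a2 _, n _⟩

omit a2 ne in
/-- the first moat hub of an even node above the first token; the tree is open -/
theorem row_e (hd : d = true) (c : V.F.Anc y0 (V.W.S.sn L f σ)) (ev : V.F.lev y0 % 2 = 0)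
    (ne : v ≠ hv (inl (Wd.mo y0 0))) : V.W.Sv v (hv (inl (Wd.mo y0 0))) := by
  subst hd
  have two : 2 ≤ r0 := by have := V.he; have := V.hr0; omega
  obtain ⟨j, g, E, s, f1, f2', r1, -⟩ := st (C := ∅) (t := false) (fl := 2) (ek := ⟨1, by omega⟩)
    (y := (V.F.tree (V.W.S.sn L f σ)).ent 0) (fp := true) (by simp) rfl
    (by rintro (⟨_, _, _, _, _, -, g, -⟩ | ⟨_, _, _, _, _, g, -⟩) <;> exact nomatch g)
    (Or.inr ⟨rfl, rfl, rfl, by simp, Or.inr ⟨rfl, by simp⟩⟩) true true true L2 X.cx X.cy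
  have s1 := f1.sn V.D_pos f σ
  have ra := s.role _ _ it_self s1
  have la := s.liv it_self s1 rfl
  have ry : V.Role j (some false) (V.F.tree y0) := ty ▸ ra
  have rx := Fw.Ot.ell (n := y0) (ty ▸ s.ot it_self s1 rfl)
  rw [s.ek] at rx
  have te := V.tree_ell y0 ⟨1, by omega⟩
  have t1 : V.F.tree y0 ≠ V.F.tree (V.W.ell y0 1) := fun g =>
    (by decide : ∀ c : ZMod 3, c ≠ c + 1) _ ((congrArg Kl.col g).trans (Kl.col_val te))
  have k := rs la X.lev rx.liv (V.lev_ell _ _) (ty ▸ t1)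
  have o : V.Opn j y0 := s.opn (ty ▸ it_self) (ty ▸ s1) rfl (Nat.zero_le _)
  have lay : V.W.lay j (inl y0) 1 < V.W.lay j (inl y0) 0 := by
    rw [o.lay, s.flip]
    exact (blay_gt _ _).2 rfl
  have n : y0 ≠ V.W.S.sn L f σ := fun g => by
    have := X.lev
    have := V.od
    rw [g] at ev
    omega
  have lt : ∀ {L' m}, V.W.Bk j L' y0 → V.W.pos j (nl y0) ≤ V.W.pos j L' →
      V.vr j ![0, 0] ![V.W.S.sn L f σ, V.W.ell y0 1] (pz L' m) <
        V.vr j ![0, 0] ![V.W.S.sn L f σ, V.W.ell y0 1] (pz (V.W.cut 0 (V.W.S.sn L f σ)) 0) :=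
    fun a1 a2 => k.of_vp (k.inI_cut (g := 0) ra) ((k.toRs.lt_cut_iff _ 0).2 (by
      rw [Rts.an_out (out_pos k.toRs a1 fun _ _ => ⟨fun g => absurd (ev.symm.trans g) (by omega), fun _ => a2⟩)]
      exact Sw.lt_of_key a1 (.self _ j _) (key_lt la s.rook ty (V.ho.lt _ c n))))
  have i1 := inF f1 r1
  intro _ _
  exact k.serve ((k.toRs.ch_cut 0).app (k.toRs.ch_acc X.acc))
    (((k.toRs.ch_cut 1).app (Wd.ch_entry y0 1)).app (k.toRs.ch_moat y0 0)) ne
    (fun g => by fin_cases g <;> simp) [.lt 1 3, .lt 1 4, .lt 3 0, .lt 4 0, .lt 0 2] [(3, 4)]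
    (by decide +kernel)
    ⟨k.FI i1 (ry.inI (Wd.bk_prv' j _)), k.FI i1 (ry.inI (Wd.bk_pay.2 rfl)),
      lt (Wd.bk_prv' j _) (Wd.le_prv.2 (V.W.pos_nm.2 lay)),
      lt (Wd.bk_pay.2 rfl) (V.W.pos_nm.2 lay).le,
      k.II (k.inI_cut (g := 0) ra) (k.inI_cut (g := 1) rx) s.rook
        (by rw [s.zi, s.zi]; simp [par, Par.zi])⟩ (pz_ne' (by omega) le_rfl (by omega))

end Cx

end Rx

namespace Fw

variable [DecidableEq K] [Finite K] [Finite N] [Nonempty K] (V : Fw K N r r0 q D e b)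

/-- **Two points of different colours.** -/
theorem gX : V.GX := by
  intro d v L i f σ d2 w L2 i2 f2 σ2 a a2 c k _ _
  replace c : ∀ u u', (V.W.S.typ L2 u).col = (V.W.S.typ L u').col + 1 := fun u u' => by
    rwa [V.W.col_typ, V.W.col_typ] at c ⊢
  obtain ⟨d, i, f, σ, a, p1, p2⟩ := Rx.prim a
  obtain ⟨d2, i2, f2, σ2, a2, q1, q2⟩ := Rx.prim a2
  have X : Rx.Cx V d v L i f σ L2 := ⟨a, fun u => c u f⟩
  by_cases h : ∀ n, V.W.In L2 n → V.F.tree n ≠ V.F.tree (V.W.S.sn L f σ)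
  · refine X.row_x a2 k.ne ?_ h
    rintro (⟨s, p, c1, p', c2, h1, h2, g⟩ | ⟨s, p, c1, p', c2, h2, h1, g⟩)
    · obtain ⟨b1, rfl⟩ := a.at.of_val V.D_pos h1
      obtain ⟨b2, rfl⟩ := a2.at.of_val V.D_pos h2
      obtain rfl := (Pre.typ_tS b1).1
      obtain rfl := (Pre.typ_hS b2).1
      exact g.not_ge (k.own _ _ _ _ _ _ _ b1 b2 (Or.inl
        ⟨(p1 rfl rfl).2.trans (if_pos (a.at.pos_tS V.D_pos h1).1),
          (q2 rfl rfl).2.trans (if_pos (a2.at.pos_hS V.D_pos h2).1)⟩))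
    · obtain ⟨b1, rfl⟩ := a.at.of_val V.D_pos h1
      obtain ⟨b2, rfl⟩ := a2.at.of_val V.D_pos h2
      obtain rfl := (Pre.typ_hS b1).1
      obtain rfl := (Pre.typ_tS b2).1
      exact g.not_ge (k.own _ _ _ _ _ _ _ b2 b1 (Or.inr
        ⟨(q1 rfl rfl).2.trans (if_pos (a2.at.pos_tS V.D_pos h2).1),
          (p2 rfl rfl).2.trans (if_pos (a.at.pos_hS V.D_pos h1).1)⟩))
  simp only [not_forall, not_not] at h
  obtain ⟨y, h, ty⟩ := h
  cases d
  · exact X.row_d a2 k.ne h ty rfl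
  by_cases an : ¬V.F.Anc y (V.W.S.sn L f σ)
  · exact X.row_b a2 k.ne h ty rfl fun g => absurd g an
  rw [not_not] at an
  have tb := a2.at.val V.D_pos
  by_cases g : ∃ s c m, (V.W.S.typ L2 f2, σ2) = (.tE s c m, .H)
  · obtain ⟨s, c, m, g⟩ := g
    obtain ⟨rfl, n, rfl⟩ := a2.at.pos_tE V.D_pos (tb.trans g)
    obtain rfl : y = n := h.unique (V.W.in_pay _)
    rcases Nat.mod_two_eq_zero_or_one (V.F.lev y) with l | l
    · obtain ⟨g1, rfl⟩ := Prod.ext_iff.1 g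
      obtain rfl := (Pre.typ_tE g1).1
      obtain rfl : w = vz _ 0 := (q1 rfl rfl).2
      exact X.row_c (Stat.At.up (k := 0) a2.at) k.ne h ty rfl rfl an l m rfl
    · exact X.row_b a2 k.ne h ty rfl fun _ => ⟨l, m, Or.inl rfl⟩
  by_cases g1 : ∃ s c m, (V.W.S.typ L2 f2, σ2) = (.hM s c m, .Z)
  · obtain ⟨s, c, m, g⟩ := g1
    obtain ⟨rfl, n, g1⟩ := a2.at.pos_hM V.D_pos (tb.trans g)
    obtain rfl : y = n := (V.W.in_dA.2 h).unique (g1 ▸ V.W.in_pay (inr (n, m)))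
    rcases Nat.mod_two_eq_zero_or_one (V.F.lev y) with l | l
    swap
    · exact X.row_b a2 k.ne h ty rfl fun _ => ⟨l, m, Or.inr g1⟩
    obtain ⟨-, rfl, rfl⟩ := a2.at.last
    have e := (q2 rfl rfl).2
    rw [if_neg (by omega), g1, ← Wd.mo_val] at e
    subst e
    by_cases z : (m : ℕ) = 0
    · exact z ▸ X.row_e h ty rfl an l (z ▸ k.ne)
    · exact Rx.sv_yx a an l m z
  by_cases g2 : ∃ s c, (V.W.S.typ L2 f2, σ2) = (.hP s c, .Z)
  · obtain ⟨s, c, g⟩ := g2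
    obtain ⟨rfl, n, g2⟩ := a2.at.pos_hP V.D_pos (tb.trans g)
    obtain rfl : y = n := (V.W.in_dA.2 h).unique (g2 ▸ V.W.in_pay (inl n))
    obtain ⟨g3, rfl⟩ := Prod.ext_iff.1 g
    rw [(q2 (Pre.typ_hP g3).1 rfl).2, if_pos rfl, (Equiv.eq_symm_apply _).2 g2]
    exact Rx.sv_yF a an
  exact X.row_l a2 k.ne h ty rfl fun s c => ⟨fun m => ⟨fun g' => g1 ⟨_, _, _, g'⟩,
    fun g' => g ⟨_, _, _, g'⟩⟩, fun g' => g2 ⟨_, _, g'⟩⟩

end Fw

end Pool.Agent.P.MP_439f1f_co
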