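import Pool.Agent.P.MP_439f1f_co.Gs9
import Pool.Agent.P.MP_439f1f_co.Rn9
import Pool.Agent.P.MP_439f1f_co.Rp1
import Pool.Agent.P.MP_439f1f_co.Rx1
import Pool.Agent.P.MP_439f1f_co.Rs2

/-!
The theorem from the two last groups of pairs.
-/

set_option autoImplicit false

namespace Pool.Agent.P.MP_439f1f_co

theorem mnh_of_two
    (h : ∀ (K N : Type) [Finite K] [DecidableEq K] [Nonempty K] [Finite N] (r r0 q D e b : ℕ)
      (V : Fw K N r r0 q D e b), V.W.S.Good e → V.GO ∧ V.GB) (k : ℕ) :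
    ∃ n : ℕ, ∃ G : SimpleGraph (Fin n), ¬G.IsHamiltonian ∧
      (∀ u v : Fin n, u ≠ v → ¬G.Adj u v →
        (G ⊔ SimpleGraph.fromEdgeSet {s(u, v)}).IsHamiltonian) ∧ ¬G.IsAcyclic ∧ k ≤ G.girth :=
  mnh_of_groups (fun K N _ _ _ _ r r0 q D e b V G =>
    ⟨(h K N r r0 q D e b V G).1, V.gN, V.gP G, V.gS G, V.gX, V.gC, (h K N r r0 q D e b V G).2⟩) k

end Pool.Agent.P.MP_439f1f_co
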