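import Pool.Agent.P.MP_439f1f_co.Sv1
import Pool.Agent.P.MP_439f1f_co.Dy7
import Pool.Agent.P.MP_439f1f_co.B21

/-!
Service of one of the first two vertices of a moat line and a vertex at the end of a line.
-/

set_option autoImplicit false
set_option linter.unusedSectionVars false

namespace Pool.Agent.P.MP_439f1f_co

open Function SimpleGraph Sum

variable {K N : Type} {r r0 q D e b : ℕ}

/-- no items, the port `p` for the colour `c` -/
def Par.pr4 (r D : ℕ) (c : ZMod 3) (p : Fin (r0 + 1)) : Par r r0 D :=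
  { Par.base r r0 D with np c' := if c' = c then p else Fin.last _ }

/-- the class `x` puts no condition on `y` -/
def Kl.Fre (x y : Kl K r r0) : Prop :=
  (x ≠ y → x.ty ≠ y.ty) ∧ ¬x.Jun y ∧ ¬x.Mz y ∧ ¬x.Mh y ∧ ¬x.Lz y ∧ ∀ w c l, x.1 ≠ (.tN w c l, .H)

theorem Par.pr4_ta {A : Bool → Kl K r r0} {c : ZMod 3} {p : Fin (r0 + 1)} (ne : A false ≠ A true)
    (h : ∀ i i', (A i).Fre (A i'))
    (n3 : ∀ i w c' k, (A i).1 = (.hM w (c' + 1) k, .Z) → c' = c → k ≤ p) :
    (Par.pr4 r D c p).TA fun i => {A i} := by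
  have m : ∀ a T, (Par.pr4 r D c p).At (fun i => {A i}) a T → ∃ i, T = A i := by
    rintro (_ | i) T ⟨d, -⟩
    · simp [Mt, pr4, base] at d
    · exact ⟨i, d⟩
  constructor
  · rintro _ _ rfl _ rfl
    rfl
  · simp [pr4, base]
  · simp [pr4, base]
  · rintro (_ | i) (_ | i') T d d' <;> simp only [Mt, pr4, base, Set.mem_singleton_iff] at d d'
    · rfl
    · simp at d
    · simp at d'
    · cases i <;> cases i' <;> simp_all
  · simp [pr4, base]
  · intro a T c' d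
    obtain ⟨i, rfl⟩ := m a T d
    exact ⟨fun w l f => absurd f ((h i i).2.2.2.2.2 _ _ _), by simp [pr4, base]⟩
  · intro a a' T T' d d' f
    obtain ⟨i, rfl⟩ := m a T d
    obtain ⟨i', rfl⟩ := m a' T' d'
    exact absurd f.1 ((h i i').1 fun g => by have := f.2; rw [g] at this; omega)
  · intro a a' T T' d d' f
    obtain ⟨i, rfl⟩ := m a T d
    obtain ⟨i', rfl⟩ := m a' T' d'
    exact absurd f (h i i').2.1
  · intro a a' T T' w c' k d d' f f'
    obtain ⟨i, rfl⟩ := m a T d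
    obtain ⟨i', rfl⟩ := m a' T' d'
    exact absurd ⟨_, _, _, f, f'⟩ (h i i').2.2.1
  · intro a a' T T' w c' k k' d d' f f'
    obtain ⟨i, rfl⟩ := m a T d
    obtain ⟨i', rfl⟩ := m a' T' d'
    exact absurd ⟨_, _, _, _, f, f'⟩ (h i i').2.2.2.1
  · intro a a' T T' d d'
    obtain ⟨i, rfl⟩ := m a T d
    obtain ⟨i', rfl⟩ := m a' T' d'
    exact (h i i').2.2.2.2.1
  · intro c1 c2 d d'
    simp only [pr4, ne_eq, ite_eq_right_iff, not_forall] at d d'
    exact d.1.trans d'.1.symm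
  · simp [pr4, base]
  · intro a T w c' k d f _
    obtain ⟨i, rfl⟩ := m a T d
    simp only [pr4]
    split_ifs with g
    exacts [n3 i w c' k f g, Fin.le_last k]
  all_goals simp [pr4, base]

variable [DecidableEq K] [Finite K] [Finite N] [Nonempty K]

namespace Wd

variable {β : Type} [LinearOrder β] {W : Wd K N β r r0 q D e b} {j : K} {n : N}
  {L : Hub K N (Pt K N) r0}

/-- a hub of a moat loop comes not after the moat hub of its gap -/
theorem le_mi (c : Cold j L) (h : W.lo L = inl (inl n, 0)) (p : W.mi n L ≠ W.port j n) :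
    W.pos j L ≤ W.pos j (inl (inr (n, W.mi n L))) := by
  rw [← not_lt, pos_moat (cold_pay j _) c rfl h, mr_mo, mr_of_ne p]
  rcases L with (m | ⟨m, i⟩) | ⟨s, _ | y, t⟩
  · simp at h
  · obtain rfl : m = n := by simpa using h
    simp
  · simp at h
  · obtain rfl : y = _ := h
    simp [lk, Blk.lk, Dyn.blk, Prod.Lex.toLex_lt_toLex]

/-- the moat hub at the port comes before the hubs of the other gaps -/
theorem port_lt (c : Cold j L) (h : W.lo L = inl (inl n, 0)) (p : W.mi n L ≠ W.port j n) :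
    W.pos j (inl (inr (n, W.port j n))) < W.pos j L := by
  refine pos_moat_lt (n := n) (cold_pay j _) c rfl h ?_
  have := (W.mi n L).2
  have : (W.mi n L : ℕ) ≠ W.port j n := fun a => p (Fin.ext a)
  rw [mr_mo, mr_of_ne p, el_self, el]
  split_ifs <;> omega

end Wd

namespace Fw.Lm

variable {V : Fw K N r r0 q D e b} {j : K} {y x z : N} {L L' : Hub K N (Pt K N) r0}
  {i i' : ℕ} {σ : Slot (r + 1)} {p : Fin (r0 + 1)}

variable (V) in
/-- two living labels, the block `y` is at rest and has the port `p` -/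
structure Pr (j : K) (y : N) (p : Fin (r0 + 1)) (x z : N) : Prop where
  rs : V.Rs j ![0, 0] ![x, z]
  rest : V.Rest j (V.F.tree y)
  port : V.W.port j y = p
  lay : V.W.lay j (inl y) = 1
  ord : V.vr j ![0, 0] ![x, z] (pz (V.W.cut 0 x) 0) < V.vr j ![0, 0] ![x, z] (pz (V.W.cut 0 z) 0)

theorem exists_pr (p : Fin (r0 + 1)) (lx : V.F.lev x = D) (lz : V.F.lev z = D)
    (cx : (V.F.tree x).col = (V.F.tree y).col + 1) (cz : (V.F.tree z).col = (V.F.tree y).col + 1)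
    (ne : V.F.tree x ≠ V.F.tree z)
    (h : ∀ i i', (V.F.tree (cond i z x)).Fre (V.F.tree (cond i' z x)))
    (n3 : ∀ i w c k, (V.F.tree (cond i z x)).1 = (.hM w c k, .Z) → k ≤ p)
    (L : Hub K N (Pt K N) r0) : ∃ j, V.W.Far j L ∧ Pr V j y p x z := by
  obtain ⟨g, a⟩ := V.W.exists_grp V.grp [L, nl x, nl z, nl y] (by simp)
  obtain ⟨j, s⟩ := V.exists_st g (Par.pr4_ta (A := fun i => V.F.tree (cond i z x))
    (c := (V.F.tree y).col) (p := p) ne h fun i w _ k f _ => n3 i w _ k f) [] (by simp) (by simp)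
  have st := fun n h => (a (nl n) h j s.grp).wor (V.W.in_pay (inl n))
  have rx := s.role false (V.F.tree x) rfl (st x (by simp))
  have rz := s.role true (V.F.tree z) rfl (st z (by simp))
  have k := Rs.two
    ((s.liv (i := false) (T := V.F.tree x) rfl rx.1 rfl).run rfl (by rw [lx, V.od]) (V.F.surj x).1)
    ((s.liv (i := true) (T := V.F.tree z) rfl rz.1 rfl).run rfl (by rw [lz, V.od]) (V.F.surj z).1)
    (Wd.On.tree_ne ne) rx rz
  have ry : V.Rest j (V.F.tree y) := s.rest_kind (st y (by simp)) fun a T c => Kl.kind_ne (by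
    have : ∀ c : ZMod 3, c + 1 ≠ c := by decide
    rcases a with _ | _ | _
    · simp [Par.Mt, Par.pr4, Par.base] at c
    · exact (show T = _ from c) ▸ cx ▸ this _
    · exact (show T = _ from c) ▸ cz ▸ this _)
  have o : ¬V.Opn j y := fun o => Cut.not_ot (Or.inl ry) o.ot
  exact ⟨j, a L (by simp) j s.grp, k, ry, by rw [port_np ry.1 o, s.np]; exact if_pos rfl,
    by rw [lay_closed o, s.sp]; rfl,
    k.II (k.inI_cut (g := 0) rx) (k.inI_cut (g := 1) rz) s.rook (by simp [Par.zi])⟩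

namespace Pr

variable (s : Pr V j y p x z)
include s

theorem inF (h : V.W.Bk j L y) : V.InF j L := s.rest.inF h

theorem lt (h : V.W.Bk j L y) (h' : V.W.Bk j L' y) (c : V.W.pos j L < V.W.pos j L') :
    V.vr j ![0, 0] ![x, z] (pz L i) < V.vr j ![0, 0] ![x, z] (pz L' i') :=
  s.rs.FF (s.inF h) (s.inF h') (fq_lt (fr_of (hi_congr h' h rfl).1 c))

theorem le (h : V.W.Bk j L y) (h' : V.W.Bk j L' y) (c : V.W.pos j L ≤ V.W.pos j L') (d : i < i')
    (d' : i' ≤ 2 * r + 10) :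
    V.vr j ![0, 0] ![x, z] (pz L i) < V.vr j ![0, 0] ![x, z] (pz L' i') :=
  c.eq_or_lt.elim (fun c => Wd.pos_inj c ▸ vr_line d d') (s.lt h h')

end Pr

theorem tree_at {f : Bool} (a : V.W.S.At L i f σ) :
    (V.F.tree (V.W.S.sn L f σ)).1 = (V.W.S.typ L f, σ) := congrArg Subtype.val (a.tree V.D_pos)

theorem col_at (h : V.W.In L y) (f : Bool) (σ : Slot (r + 1)) :
    (V.F.tree (V.W.S.sn L f σ)).col = (V.F.tree y).col + 1 :=
  (V.W.S.col_sn V.D_pos L f σ).trans (V.W.col_in h f)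

/-- the labels near the end of a line -/
theorem late (a : V.W.S.At L i true σ) (h1 : 2 * r + 7 ≤ i) (h2 : i ≤ 2 * r + 8) :
    σ ≠ .H ∧ (V.W.S.typ L true).hd = true ∧ ∀ w c k, V.W.S.typ L true = .hM w c k → σ ≠ .Z := by
  refine ⟨?_, ?_, ?_⟩
  · rintro rfl
    have := a.pos_eq (V.W.S.hi_H L) rfl
    have := V.hr
    have := V.he
    omega
  · show (V.W.S.ht _).hd = true
    rcases V.W.S.O.dA L with (_ | _) | _ <;> rfl
  · rintro w c k f rfl
    refine ((a.Z_hi.resolve_left fun d => by omega).2) ?_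
    replace f : V.W.S.ht (V.W.S.O.dA L) = _ := f
    unfold Stat.Mo
    revert f
    rcases V.W.S.O.dA L with (_ | u) | _ <;> simp [Pre.ht]

variable (a : V.W.S.At L i true σ) (h1 : 2 * r + 7 ≤ i) (h2 : i ≤ 2 * r + 8) (h : V.W.In L y)
include a h1 h2 h

/-- a label of the first half of a moat line -/
theorem pr_lo {m : ℕ} {τ : Slot (r + 1)} {k : ℕ} (a' : V.W.S.At (ml y k) m false τ) (ne : τ ≠ .Z)
    (p : Fin (r0 + 1)) :
    ∃ j, V.W.Far j L ∧ Pr V j y p (V.W.S.sn (ml y k) false τ) (V.W.S.sn L true σ) := by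
  obtain ⟨b1, b2, b3⟩ := late a h1 h2
  have t := tree_at a
  have t' : _ = (HT.tE _ _ _, τ) := tree_at a'
  generalize V.W.S.typ L true = T at *
  refine exists_pr p (V.W.S.lev_sn V.D_pos _ _ _) (V.W.S.lev_sn V.D_pos _ _ _)
    (col_at (V.W.in_pay (Wd.mo y k)) _ _) (col_at h _ _) (fun c => ?_) (fun i i' => ?_) (fun i w c k f => ?_) L
  · rw [c, t] at t'
    rw [(Prod.mk.inj t').1] at b2
    exact nomatch b2
  · cases i <;> cases i' <;> cases T <;>
      simp_all [Kl.Fre, Kl.Jun, Kl.Mz, Kl.Mh, Kl.Lz, Kl.ty, Kl.sl, HT.hd]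
  · cases i
    · simp_all
    · exact absurd (Prod.mk.inj (t.symm.trans f)).2 (b3 _ _ _ (Prod.mk.inj (t.symm.trans f)).1)

/-- the tail of a moat line -/
theorem sv_tail (k : ℕ) (l : V.W.lo L = inl (inl y, 0))
    (g : V.W.mi y (V.W.S.O.dA L) = Fin.ofNat _ (k + 1)) :
    V.W.Sv (vz L (i + 1)) (vz (ml y (k + 1)) 0) := by
  obtain ⟨j, f, s⟩ := pr_lo a h1 h2 h (V.W.S.pay_H (Wd.mo y k)) (by simp) (Fin.ofNat _ k)
  have two := V.two_r0
  have ne : Fin.ofNat (r0 + 1) (k + 1) ≠ V.W.port j y := fun c => by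
    have := (Nat.ModEq.add_left_cancel' k (show k + 1 ≡ k + 0 [MOD r0 + 1] from
      congrArg Fin.val (c.trans s.port))).eq_of_lt_of_lt (by omega) (by omega)
    omega
  have o := Wd.port_lt (L := ml y (k + 1)) (n := y) (cold_pay j _) rfl ne
  have o' := Wd.port_lt f.cold_dA ((V.W.lo_dA L).trans l) (g ▸ ne)
  rw [s.port] at o o'
  rw [Wd.lt_dA_iff f.cold_dA] at o'
  intro _ _
  exact s.rs.serve ((s.rs.toRs.ch_cut 1).app (Wd.ch_dn a.hang (by omega)))
    (((s.rs.toRs.ch_cut 0).app (Wd.ch_up (V.W.S.pay_H _).hang (by omega))).app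
      (Wd.ch_ftail (s.rs.toRs.off_moat _) (Wd.hang_moat y k) (by omega)))
    (by simp [vz, Fin.ext_iff, Nat.mod_eq_of_lt (show i + 1 < 2 * r + 9 + 1 by omega)])
    (fun g => by fin_cases g <;> simp) [.lt 3 4, .lt 4 2, .lt 2 0, .lt 1 2, .lt 3 1] [(1, 4)]
    (by decide +kernel) ⟨s.lt (Wd.bk_pay.2 rfl) (Wd.bk_pay.2 rfl) o,
      s.rs.F_cut (s.inF (Wd.bk_pay.2 rfl)) 0, s.ord, s.rs.F_cut (s.inF (f.bk.2 h)) 0,
      s.le (Wd.bk_pay.2 rfl) (f.bk.2 h) o' (by omega) (by omega)⟩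
    (pz_ne' (by omega) (by omega) (by omega))

/-- the vertex of the moat line comes first -/
theorem sv_fst (k : ℕ) {m : ℕ} {τ : Slot (r + 1)} (a' : V.W.S.At (ml y k) (m + 1) false τ)
    (hm : m ≤ 1) (p : Fin (r0 + 1)) (o : ∀ j, V.W.Far j L → V.W.port j y = p →
      V.W.lay j (inl y) = 1 → V.W.pos j (ml y k) ≤ V.W.pos j L) :
    V.W.Sv (vz L (i + 1)) (vz (ml y k) m) := by
  have := V.hr
  have := V.he
  obtain ⟨j, f, s⟩ := pr_lo a h1 h2 h a' (by
    rintro rfl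
    have := a'.pos_eq (V.W.S.lo_Z _) rfl
    omega) p
  intro _ _
  exact s.rs.serve ((s.rs.toRs.ch_cut 1).app (Wd.ch_dn a.hang (by omega)))
    ((s.rs.toRs.ch_cut 0).app (Wd.ch_up a'.hang (by omega)))
    (by simp [vz, Fin.ext_iff, Nat.mod_eq_of_lt (show i + 1 < 2 * r + 9 + 1 by omega),
      Nat.mod_eq_of_lt (show m < 2 * r + 9 + 1 by omega)]; omega)
    (fun g => by fin_cases g <;> simp) [.lt 3 1, .lt 1 2, .lt 2 0] [] (by decide +kernel)
    ⟨s.le (Wd.bk_pay.2 rfl) (f.bk.2 h) (o j f s.port s.lay) (by omega) (by omega),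
      s.rs.F_cut (s.inF (f.bk.2 h)) 0, s.ord⟩ trivial

/-- the line ends in the gap before the moat line -/
theorem sv_gap (k : Fin (r0 + 1)) (l : V.W.lo L = inl (inl y, 0))
    (g : V.W.mi y (V.W.S.O.dA L) = k) : V.W.Sv (vz L (i + 1)) (vz (ml y k) 1) := by
  obtain ⟨b1, b2, b3⟩ := late a h1 h2
  have two := V.two_r0
  have ne : Fin.ofNat (r0 + 1) (k + 1) ≠ k := fun c => by
    have := (Nat.ModEq.add_left_cancel' k (show k + 0 ≡ k + 1 [MOD r0 + 1] from
      (Nat.mod_eq_of_lt k.2).trans (congrArg Fin.val c.symm))).eq_of_lt_of_lt (by omega) (by omega)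
    omega
  have t := tree_at a
  have t' : _ = (HT.hM _ _ _, Slot.Z) := V.W.tree_ell V.D_pos y (k + 1)
  have b4 : (∃ s p c, V.W.S.typ L true = .hS s p c) ∨ ∃ w c, V.W.S.typ L true = .hM w c k := by
    rw [← V.W.lo_dA] at l
    show (∃ s p c, V.W.S.ht _ = _) ∨ ∃ w c, V.W.S.ht _ = _
    revert l g
    rcases V.W.S.O.dA L with (_ | u) | _ <;> simp [Pre.ht, Wd.mi]
  obtain ⟨j, f, s⟩ := exists_pr (V := V) (y := y) (x := V.W.ell y (k + 1))
    (z := V.W.S.sn L true σ) (Fin.ofNat _ (k + 1)) (V.lev_ell _ _) (V.W.S.lev_sn V.D_pos _ _ _)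
    (V.W.col_ell V.D_pos _ _) (col_at h _ _)
    (fun c => b3 _ _ _ (Prod.mk.inj (t.symm.trans (c ▸ t'))).1 (Prod.mk.inj (t.symm.trans (c ▸ t'))).2)
    (fun i i' => by
      rw [V.W_F] at t'
      have ne' := ne.symm
      cases i <;> cases i' <;> rcases b4 with ⟨_, _, _, b4⟩ | ⟨_, _, b4⟩ <;>
        simp_all [Kl.Fre, Kl.Jun, Kl.Mz, Kl.Mh, Kl.Lz, Kl.ty, Kl.sl, HT.hd])
    (fun i w c k f => by
      rw [V.W_F] at t'
      cases i <;> simp_all) L
  have l' := (V.W.lo_dA L).trans l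
  have m : V.W.mi y (V.W.S.O.dA L) ≠ V.W.port j y := by rw [g, s.port]; exact ne.symm
  have o1 := Wd.port_lt f.cold_dA l' m
  have o2 := Wd.le_mi f.cold_dA l' m
  rw [s.port, Wd.lt_dA_iff f.cold_dA] at o1
  rw [g, Wd.dA_le_iff f.cold_dA, ← Wd.mo_val] at o2
  intro _ _
  exact s.rs.serve ((s.rs.toRs.ch_cut 1).app (Wd.ch_dn a.hang (by omega)))
    (((s.rs.toRs.ch_cut 0).app (Wd.ch_entry y _)).app (Wd.ch_dn (Wd.hang_moat y k) (by omega)))
    (by simp [vz, Fin.ext_iff, Nat.mod_eq_of_lt (show i + 1 < 2 * r + 9 + 1 by omega)]; omega)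
    (fun g => by fin_cases g <;> simp) [.lt 3 1, .lt 1 4, .lt 4 2, .lt 2 0] [] (by decide +kernel)
    ⟨s.lt (Wd.bk_prv' j _) (f.bk.2 h) ((Wd.prv_lt j _).trans_le o1),
      s.lt (f.bk.2 h) (Wd.bk_pay.2 rfl) o2, s.rs.F_cut (s.inF (Wd.bk_pay.2 rfl)) 0, s.ord⟩ trivial

end Fw.Lm

/-- **The first two vertices of a moat line and a vertex at the end of a line of the block.** -/
theorem Fw.sv_lm' (V : Fw K N r r0 q D e b) {L : Hub K N (Pt K N) r0} {i : ℕ} {f : Bool}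
    {σ : Slot (r + 1)} {y : N} (a : V.W.S.At L i f σ) (h1 : 2 * r + 7 ≤ i) (h2 : i ≤ 2 * r + 8)
    (h : V.W.In L y) (k : Fin (r0 + 1)) {m : ℕ} (hm : m ≤ 1) :
    V.W.Sv (vz L (i + 1)) (vz (inl (inr (y, k))) m) := by
  obtain rfl : f = true := by
    have := a.half
    cases f <;> simp at this ⊢
    omega
  obtain ⟨τ, a'⟩ : ∃ τ, V.W.S.At (ml y k) (m + 1) false τ := by
    rcases Nat.le_one_iff_eq_zero_or_eq_one.1 hm with rfl | rfl
    exacts [⟨_, V.W.S.pay_H _⟩, ⟨_, V.W.S.pay_X1 _⟩]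
  intro _ _
  rw [← Wd.mo_val]
  obtain ⟨n, l⟩ := id h
  by_cases c : n = 0
  swap
  · exact Lm.sv_fst a h1 h2 h k a' hm k fun j f _ p => ((Wd.pos_lay (cold_pay j _) f.cold rfl l
      (Ne.symm c)).2 (p ▸ Fin.pos_iff_ne_zero.2 c)).le
  subst c
  by_cases g : V.W.mi y (V.W.S.O.dA L) = k
  swap
  · refine Lm.sv_fst a h1 h2 h k a' hm k fun j f p _ => ?_
    have := Wd.port_lt f.cold_dA ((V.W.lo_dA L).trans l) (by rwa [p])
    rwa [p, Wd.lt_dA_iff f.cold_dA, ← Wd.mo_val] at this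
  rcases Nat.le_one_iff_eq_zero_or_eq_one.1 hm with rfl | rfl
  · have := @Lm.sv_tail _ _ _ _ _ _ _ _ _ _ _ _ V y L i σ a h1 h2 h (k + r0) l
      (g.trans (Fin.ext ((Nat.add_mod_right _ _).trans (Nat.mod_eq_of_lt k.2)).symm))
    rw [show (ml y (k + r0 + 1) : Hub K N (Pt K N) r0) = ml y k from ml_add y k] at this
    exact this
  · exact Lm.sv_gap a h1 h2 h k l g

/-- the same for a vertex without an access from above that is not a hub -/
theorem Fw.sv_lm (V : Fw K N r r0 q D e b) {v : Vx K N (Pt K N) r r0} {L : Hub K N (Pt K N) r0}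
    {i : ℕ} {f : Bool} {σ : Slot (r + 1)} {y : N} (a : V.W.S.Acc false v L i f σ)
    (nu : ¬∃ L' i' f' σ', V.W.S.Acc true v L' i' f' σ') (nm : ∀ u, v ≠ hv (inl (inr u)))
    (h : V.W.In L y) (k : Fin (r0 + 1)) {m : ℕ} (hm : m ≤ 1) :
    V.W.Sv v (vz (inl (inr (y, k))) m) := by
  rcases a.cases with ⟨c, -⟩ | ⟨-, u, -, c, -⟩ | ⟨n, rfl, c⟩
  · exact nomatch c
  · exact absurd c (nm u)
  have c : i + 1 = n := c
  have := n.2
  have : 2 * r + 7 ≤ i := not_lt.1 fun d =>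
    let ⟨_, _, g⟩ := V.W.S.acc_up L n (Or.inl (by omega)); nu ⟨_, _, _, _, g⟩
  intro _ _
  rw [← vz_val, ← c]
  exact V.sv_lm' a.at this (by omega) h k hm

end Pool.Agent.P.MP_439f1f_co
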