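import Pool.Agent.P.MP_439f1f_co.Sv1
import Pool.Agent.P.MP_439f1f_co.B21

/-!
Service of a hub of a moat and the tail vertex of a line of the same moat.
-/

set_option autoImplicit false
set_option linter.unusedSectionVars false

namespace Pool.Agent.P.MP_439f1f_co

open Function SimpleGraph Sum

variable {K N : Type} {r r0 q D e b : ℕ}

theorem mod_two {x R : ℕ} (h : x < 2 * R) : (x < R ∧ x % R = x) ∨ (R ≤ x ∧ x % R + R = x) := by
  rcases lt_or_ge x R with c | c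
  · exact Or.inl ⟨c, Nat.mod_eq_of_lt c⟩
  · refine Or.inr ⟨c, ?_⟩
    rw [Nat.mod_eq_sub_mod c, Nat.mod_eq_of_lt (by omega)]
    omega

namespace Par

/-- two items that are alive; the port of the colour `c` is `p` -/
def prt (r D : ℕ) (c : ZMod 3) (p : Fin (r0 + 1)) : Par r r0 D :=
  { base r r0 D with np c' := if c' = c then p else Fin.last _ }

theorem prt_ta {x y : Kl K r r0} {w : K × Bool} {c : ZMod 3} {p k i : Fin (r0 + 1)}
    (hx : x.1 = (.hM w (c + 1) k, .Z)) (hy : y.1 = (.tE w (c + 1) i, .H))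
    (h1 : el (r0 + 1) p k < el (r0 + 1) p i ∨ (k = i ∧ el (r0 + 1) p i % 2 = 0))
    (h2 : (p : ℕ) % 2 = 0 → k ≤ p) : (prt r D c p).TA fun a => {cond a y x} := by
  have m : ∀ a T, (prt r D c p).Mt (fun a => {cond a y x}) a T →
      (a = some false ∧ T = x) ∨ (a = some true ∧ T = y) := by
    rintro (_ | _ | _) T d <;> simp_all [Mt, prt, base]
  have m' : ∀ a T, (prt r D c p).At (fun a => {cond a y x}) a T →
      T.1 = (.hM w (c + 1) k, .Z) ∨ T.1 = (.tE w (c + 1) i, .H) := fun a T d =>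
    (m a T d.1).elim (fun f => Or.inl (f.2 ▸ hx)) fun f => Or.inr (f.2 ▸ hy)
  constructor
  · rintro _ _ rfl _ rfl
    rfl
  · simp [prt, base]
  · simp [prt, base]
  · intro a a' T d d'
    rcases m a T d with ⟨rfl, rfl⟩ | ⟨rfl, rfl⟩ <;> rcases m a' _ d' with ⟨rfl, f⟩ | ⟨rfl, f⟩ <;>
      first | rfl | simp [f, hy] at hx | simp [← f, hy] at hx
  · simp [prt, base]
  · intro a T c' d
    refine ⟨fun w' l f => ?_, by simp [prt, base]⟩
    rcases m' a T d with g | g <;> simp [g] at f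
  · intro a a' T T' d d' f
    have f1 := f.1
    have f2 := f.2
    rcases m a T d.1 with ⟨-, rfl⟩ | ⟨-, rfl⟩ <;> rcases m a' T' d'.1 with ⟨-, rfl⟩ | ⟨-, rfl⟩ <;>
      first | omega | simp [Kl.ty, hx, hy] at f1
  · intro a a' T T' d d' f
    have f1 := f.1
    have f2 := f.2.1
    rcases m' a T d with g | g <;> simp [Kl.ty, Kl.sl, g, HT.hd] at f1 f2
  · intro a a' T T' w' c' k' _ d' _ f
    rcases m' a' T' d' with g | g <;> simp [g] at f
  · intro a a' T T' w' c' k' i' d d' f f'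
    rcases m a T d.1 with ⟨rfl, rfl⟩ | ⟨-, rfl⟩
    · rcases m' a' T' d' with g | g <;> simp only [g, hx, Prod.mk.injEq, reduceCtorEq, false_and,
        HT.hM.injEq, HT.tE.injEq, add_left_inj, and_true] at f f'
      obtain ⟨-, rfl, rfl⟩ := f
      obtain ⟨-, -, rfl⟩ := f'
      simpa [prt] using h1
    · simp [hy] at f
  · rintro a a' T T' d _ ⟨w', p', c', p'', c'', f, -⟩
    rcases m' a T d with g | g <;> simp [g] at f
  · intro c1 c2 f f'
    simp only [prt, ne_eq, ite_eq_right_iff, not_forall] at f f'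
    rw [f.1, f'.1]
  · simp [prt, base]
  · intro a T w' c' k' d f
    rcases m' a T d with g | g <;> simp only [g, Prod.mk.injEq, reduceCtorEq, false_and,
      HT.hM.injEq, add_left_inj, and_true] at f
    obtain ⟨-, rfl, rfl⟩ := f
    simpa [prt] using h2
  · simp [prt, base]
  · simp [prt, base]
  · simp [prt, base]
  · simp [prt, base]

end Par

variable [DecidableEq K] [Finite K] [Finite N] [Nonempty K]

namespace Fw.Mo

variable (V : Fw K N r r0 q D e b)

/-- the entry label `k` and the first label of the line `g` of the moat of `n` -/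
noncomputable abbrev tk (n : N) (k g : ℕ) : Fin 2 → N :=
  ![V.W.ell n k, V.W.S.sn (ml n g) false .H]

/-- the state of a row -/
structure Mst (j : K) (n : N) (k g p : ℕ) : Prop where
  rs : V.W.Rs j ![0, 0] (tk V n k g)
  port : (V.W.port j n : ℕ) = p
  out : ∀ L, V.W.Bk j L n → (V.W.rts ![0, 0] (tk V n k g)).Out (V.W.pos j) L
  fst : ∀ L i, V.W.Bk j L n → V.W.vq j ![0, 0] (tk V n k g) (pz L i) <
    V.W.vq j ![0, 0] (tk V n k g) (pz (V.W.cut 0 (V.W.ell n k)) 0)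
  snd : V.W.vq j ![0, 0] (tk V n k g) (pz (V.W.cut 0 (V.W.ell n k)) 0) <
    V.W.vq j ![0, 0] (tk V n k g) (pz (V.W.cut 0 (V.W.S.sn (ml n g) false .H)) 0)

theorem exists_mst (n : N) {k g p : ℕ} (hk : k ≤ r0) (hp : p ≤ r0)
    (h1 : el (r0 + 1) p k < el (r0 + 1) p (g % (r0 + 1)) ∨ (k = g ∧ el (r0 + 1) p k % 2 = 0))
    (h2 : p % 2 = 0 → k ≤ p) : ∃ j, Mst V j n k g p := by
  have hx : (V.F.tree (V.W.ell n k)).1 = _ := V.W.tree_ell V.D_pos n k
  have a := V.W.S.pay_H (Wd.mo n g)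
  have hy : (V.F.tree (V.W.S.sn (ml n g) false .H)).1 =
      (.tE (V.W.S.wor n) (V.W.S.col n + 1) (Fin.ofNat (r0 + 1) g), .H) :=
    congrArg Subtype.val (a.tree V.D_pos)
  have v : k % (r0 + 1) = k := Nat.mod_eq_of_lt (by omega)
  obtain ⟨gr, hg⟩ := V.W.exists_grp V.grp [nl n] (by simp)
  obtain ⟨j, s⟩ := V.exists_st gr (Par.prt_ta (D := D) (p := ⟨p, by omega⟩) hx hy
    (by
      simp only [Fin.val_ofNat, v]
      exact h1.imp_right fun f => ⟨by rw [f.1], by rw [← f.1, v]; exact f.2⟩)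
    (by simpa [Fin.le_def, v] using h2)) [] (by simp) (by simp)
  have sn : (V.F.tree n).stg ≠ j := (hg _ (by simp) j s.grp).wor (V.W.in_pay (inl n))
  have sx : (V.F.tree (V.W.ell n k)).stg ≠ j := by rwa [Kl.stg, Kl.ty_val hx]
  have sy : (V.F.tree (V.W.S.sn (ml n g) false .H)).stg ≠ j := by rwa [Kl.stg, Kl.ty_val hy]
  have rx := s.role false _ rfl sx
  have ry := s.role true _ rfl sy
  have z : ∀ c : ZMod 3, c + 1 ≠ c := by decide
  have rn : V.Rest j (V.F.tree n) := s.rest_kind sn (by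
    rintro (_ | _ | _) T d
    · simp [Par.Mt, Par.prt, Par.base] at d
    · exact Kl.kind_ne (by rw [show T = _ from d, cond_false, Kl.col_val hx]; exact z _)
    · exact Kl.kind_ne (by rw [show T = _ from d, cond_true, Kl.col_val hy]; exact z _))
  have k0 : V.W.Rs j ![0, 0] (tk V n k g) := .two
    ((s.liv (i := false) rfl sx rfl).run rfl (by rw [V.lev_ell, V.od]) (V.F.surj _).1)
    ((s.liv (i := true) rfl sy rfl).run rfl (by
      rw [show V.F.lev _ = D from V.W.S.lev_sn V.D_pos _ _ _, V.od]) (V.F.surj _).1)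
    (Wd.On.tree_ne fun f => by simp [show V.F.tree _ = V.F.tree _ from f, hy] at hx)
  have no : ∀ i, ¬V.W.On (![0, 0] i) (tk V n k g i) n := fun i f => by
    have t : V.F.tree n = V.F.tree (tk V n k g i) := f.1.tree
    fin_cases i
    exacts [rx.not_rest (t ▸ rn), ry.not_rest (t ▸ rn)]
  refine ⟨j, k0, ?_, fun L d => k0.out_bk d fun i f => (no i f).elim, fun L i d =>
    Wd.vq_lt (Sw.bk_lt_cut (g := 0) k0 d ?_), Wd.vq_lt (Sw.cut_lt_cut (g := 0) (g' := 1) k0
      (rx.lt ry s.rook (by rw [s.zi, s.zi]; exact Nat.lt_of_sub_eq_succ rfl)))⟩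
  · rw [port_np sn fun o => Cut.not_ot (Or.inl rn) o.ot, s.np]
    simp [Par.prt, col_eq]
  · rintro y (rfl | ⟨i, f, -⟩)
    exacts [rest_lt rn rx s.dr, (no i f).elim]

namespace Mst

variable {V} {j : K} {n : N} {k g p a a' i i' : ℕ} (s : Mst V j n k g p)
include s

theorem ll (h : el (r0 + 1) p (a % (r0 + 1)) < el (r0 + 1) p (a' % (r0 + 1))) :
    V.W.vq j ![0, 0] (tk V n k g) (pz (ml n a) i) < V.W.vq j ![0, 0] (tk V n k g) (pz (ml n a') i') :=
  Wd.vq_out (s.out _ (Wd.bk_pay.2 rfl)) (s.out _ (Wd.bk_pay.2 rfl))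
    (Wd.pos_ml.2 (by rwa [s.port]))

theorem pl (h : el (r0 + 1) p (a % (r0 + 1)) ≤ el (r0 + 1) p (a' % (r0 + 1))) :
    V.W.vq j ![0, 0] (tk V n k g) (pz (V.W.prv (Wd.mo n a)) i) <
      V.W.vq j ![0, 0] (tk V n k g) (pz (ml n a') i') :=
  Wd.vq_out (s.out _ (Wd.bk_prv' j _)) (s.out _ (Wd.bk_pay.2 rfl))
    ((Wd.prv_lt j _).trans_le (not_lt.1 (mt Wd.pos_ml.1 (by rw [s.port]; exact h.not_gt))))

theorem lp (h : el (r0 + 1) p (a % (r0 + 1)) < el (r0 + 1) p (a' % (r0 + 1))) :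
    V.W.vq j ![0, 0] (tk V n k g) (pz (ml n a) 0) <
      V.W.vq j ![0, 0] (tk V n k g) (pz (V.W.prv (Wd.mo n a')) (2 * r + 10)) :=
  s.rs.vq_ml_prv (by rwa [s.port])

theorem c1 : V.W.Ch j ![0, 0] (tk V n k g) (inl none) [true, false]
    [pz (V.W.cut 0 (V.W.ell n k)) 0, pz (V.W.prv (Wd.mo n k)) (2 * r + 10)] (hv (ml n k)) :=
  (s.rs.ch_cut 0).app (Wd.ch_entry n k)

theorem c2 : V.W.Ch j ![0, 0] (tk V n k g) (inl none) [true, true]
    [pz (V.W.cut 0 (V.W.S.sn (ml n g) false .H)) 0, pz (ml n g) 1] (vz (ml n g) 0) :=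
  (s.rs.ch_cut 1).app (Wd.ch_up (V.W.S.pay_H (Wd.mo n g)).hang (by omega))

theorem up (a : ℕ) : V.W.Ch j ![0, 0] (tk V n k g) (vz (ml n a) 0) [false] [pz (ml n (a + 1)) 0]
    (vz (ml n (a + 1)) 0) := Wd.ch_ftail (s.rs.off_moat _) (Wd.hang_moat n a) (Nat.zero_le _)

end Mst

theorem mo0 (n : N) {a s : ℕ} (ha : a ≤ r0) (h : 2 * s + 2 ≤ r0) :
    V.W.Sv (hv (ml n a)) (vz (ml n (a + 1 + 2 * s)) 0) := by
  have ev := V.ev
  have v : a % (r0 + 1) = a := Nat.mod_eq_of_lt (by omega)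
  obtain ⟨j, m⟩ := exists_mst V n (k := a) (g := a) (p := a) ha ha
    (Or.inr ⟨rfl, by simp [el]⟩) fun _ => le_rfl
  have f : ∀ y, 1 ≤ y → y ≤ r0 → (a + y) % (r0 + 1) ≠ a := fun y _ _ => by
    have := mod_two (x := a + y) (R := r0 + 1) (by omega)
    omega
  have A : V.W.Arc j n (a + 1) s := ⟨by omega, fun y _ => by
    rw [m.port, add_assoc]; exact f _ (by omega) (by omega)⟩
  have o : el (r0 + 1) a (a % (r0 + 1)) < el (r0 + 1) a ((a + 1) % (r0 + 1)) := by
    have := mod_two (x := a + 1) (R := r0 + 1) (by omega)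
    unfold el
    split_ifs <;> omega
  intro _ _
  exact m.rs.ro.serveM A (d := false) m.c1 m.c2 (Wd.adj_arc n a).symm .nil (by simp [vz])
    (fun g => by fin_cases g <;> simp) ⟨Wd.fre_cut, A.fre_prv fun y _ => by
      rw [v, add_assoc]; exact f _ (by omega) (by omega), Wd.fre_cut,
      Wd.fre_pos (A.car_ml fun y _ => by rw [v, add_assoc]; exact f _ (by omega) (by omega))
        (by omega) (by omega)⟩ [.lt 1 3, .lt 3 4, .lt 4 0, .lt 0 2] [] (by decide +kernel)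
    ⟨m.pl le_rfl, m.ll o, m.fst _ _ (Wd.bk_pay.2 rfl), m.snd⟩ trivial

theorem mo1 (n : N) {a s : ℕ} (ha : a < r0) (h : 2 * s + 4 ≤ r0) :
    V.W.Sv (hv (ml n a)) (vz (ml n (a + 2 + 2 * s)) 0) := by
  have ev := V.ev
  have v : a % (r0 + 1) = a := Nat.mod_eq_of_lt (by omega)
  have v1 : (a + 1) % (r0 + 1) = a + 1 := Nat.mod_eq_of_lt (by omega)
  have v2 := mod_two (x := a + 2) (R := r0 + 1) (by omega)
  have v3 := mod_two (x := a + r0) (R := r0 + 1) (by omega)
  obtain ⟨j, m⟩ := exists_mst V n (k := a) (g := a + r0) (p := a + 1) ha.le ha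
    (Or.inl (by unfold el; split_ifs <;> omega)) fun _ => by omega
  have f : ∀ y z, z < y → y ≤ r0 → (a + y) % (r0 + 1) ≠ (a + z) % (r0 + 1) := fun y z _ _ => by
    have := mod_two (x := a + y) (R := r0 + 1) (by omega)
    have := mod_two (x := a + z) (R := r0 + 1) (by omega)
    omega
  have A : V.W.Arc j n (a + 2) s := ⟨by omega, fun y _ => by
    rw [m.port, add_assoc, ← v1]; exact f _ _ (by omega) (by omega)⟩
  have u := m.up (a + r0)
  rw [add_assoc, ml_add] at u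
  intro _ _
  exact m.rs.ro.serveM A (d := false) m.c1 (m.c2.app (u.app (m.up a))) (Wd.adj_arc n (a + 1)).symm
    .nil (by simp [vz]) (fun g => by fin_cases g <;> simp)
    ⟨Wd.fre_cut, A.fre_prv fun y _ => by rw [add_assoc]; exact f _ 0 (by omega) (by omega),
      Wd.fre_cut, A.fre_ml fun y _ _ => by rw [add_assoc]; exact (f _ _ (by omega) le_rfl).symm,
      A.fre_ml fun y _ _ => by rw [add_assoc]; exact f _ 0 (by omega) (by omega),
      A.fre_ml fun y _ _ => by rw [add_assoc]; exact f _ _ (by omega) (by omega)⟩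
    [.lt 5 1, .lt 1 4, .lt 4 3, .lt 3 6, .lt 6 0, .lt 0 2] [] (by decide +kernel)
    ⟨m.lp (by unfold el; split_ifs <;> omega), m.pl le_rfl,
      m.ll (by unfold el; split_ifs <;> omega), m.ll (by unfold el; split_ifs <;> omega),
      m.fst _ _ (Wd.bk_pay.2 rfl), m.snd⟩ trivial

theorem mo2 (n : N) {s : ℕ} (h : 2 * s + 4 ≤ r0) :
    V.W.Sv (hv (ml n r0)) (vz (ml n (1 + 2 * s)) 0) := by
  have v : ∀ y ≤ r0, y % (r0 + 1) = y := fun y _ => Nat.mod_eq_of_lt (by omega)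
  obtain ⟨j, m⟩ := exists_mst V n (k := 0) (g := 0) (p := 2 * s + 2) (by omega) (by omega)
    (Or.inr ⟨rfl, by simp [el]⟩) fun _ => by omega
  have A : V.W.Arc j n 1 s := ⟨by omega, fun y _ => by rw [m.port, v _ (by omega)]; omega⟩
  have u := m.rs.ch_moat n r0
  rw [show (inl (Wd.mo n (r0 + 1)) : Hub K N (Pt K N) r0) = ml n 0 from
    ml_inj.2 ⟨rfl, by simp⟩] at u
  intro _ _
  exact m.rs.ro.serveM A (d := false) (m.c1.app u) m.c2 (Wd.adj_arc n 0).symm .nil (by simp [vz])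
    (fun g => by fin_cases g <;> simp)
    ⟨Wd.fre_cut, A.fre_prv fun y _ => by rw [v _ (by omega), v _ (by omega)]; omega,
      A.fre_ml fun y _ _ => by rw [v _ (by omega), v _ le_rfl]; omega, Wd.fre_cut,
      A.fre_ml fun y _ _ => by rw [v _ (by omega), v _ (by omega)]; omega⟩
    [.lt 5 1, .lt 1 4, .lt 4 2, .lt 2 0, .lt 0 3] [] (by decide +kernel)
    ⟨m.lp (by rw [v _ (by omega), v _ (by omega)]; unfold el; split_ifs <;> omega), m.pl le_rfl,
      m.ll (by rw [v _ (by omega), v _ le_rfl]; unfold el; split_ifs <;> omega),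
      m.fst _ _ (Wd.bk_pay.2 rfl), m.snd⟩ trivial

end Fw.Mo

/-- **A hub of a moat and the tail vertex of a line of the same moat.** -/
theorem Fw.sv_mo (V : Fw K N r r0 q D e b) (n : N) (i j : Fin (r0 + 1))
    (na : ¬(HL (2 * r + 9) V.W.S.hang).Adj (hv (inl (inr (n, j)))) (vz (inl (inr (n, i))) 0)) :
    V.W.Sv (hv (inl (inr (n, j)))) (vz (inl (inr (n, i))) 0) := by
  have ev := V.ev
  have hi := i.2
  have hj := j.2
  have n1 : (i : ℕ) ≠ j := fun c => na (by
    rw [Fin.ext c]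
    exact Wd.adj_vz ((V.W.S.fit.tl _ _).2 (Or.inl rfl)) (Nat.zero_le _))
  have n2 : ((i : ℕ) + 1) % (r0 + 1) ≠ j := fun c => na (by
    have := Wd.adj_arc (W := V.W) n i
    rwa [← ml_mod n (i + 1), c, ml, ml, Wd.mo_val, Wd.mo_val] at this)
  have n3 := mod_two (x := i + 1) (R := r0 + 1) (by omega)
  rw [← Wd.mo_val, ← Wd.mo_val]
  have k : ∀ y, y % (r0 + 1) = i → V.W.Sv (hv (ml n j)) (vz (ml n y) 0) →
      V.W.Sv (hv (ml n j)) (vz (ml n i) 0) := fun y c d => by rwa [← c, ml_mod]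
  obtain ⟨t, t1, t2⟩ : ∃ t ≤ r0, j + 1 + t = i ∨ j + 1 + t = i + (r0 + 1) := by
    rcases lt_or_ge (j : ℕ) i with c | c
    exacts [⟨i - j - 1, by omega, by omega⟩, ⟨i + r0 - j, by omega, by omega⟩]
  have t3 := mod_two (x := j + 1 + t) (R := r0 + 1) (by omega)
  intro _ _
  obtain ⟨s, rfl | rfl⟩ := Nat.even_or_odd' t
  · exact k _ (by omega) (Mo.mo0 V n (s := s) (by omega) (by omega))
  rcases lt_or_ge (j : ℕ) r0 with c | c
  · exact k _ (by rw [show j + 2 + 2 * s = j + 1 + (2 * s + 1) by omega]; omega)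
      (Mo.mo1 V n (s := s) c (by omega))
  · refine k (1 + 2 * s) (by rw [Nat.mod_eq_of_lt (by omega)]; omega) ?_
    rw [show (j : ℕ) = r0 by omega]
    exact Mo.mo2 V n (s := s) (by omega)

end Pool.Agent.P.MP_439f1f_co
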