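import Pool.Agent.P.MP_439f1f_co.Rl1x
import Pool.Agent.P.MP_439f1f_co.Rl0
import Pool.Agent.P.MP_439f1f_co.Rl4
import Pool.Agent.P.MP_439f1f_co.Rmo

/-!
Service of a moat hub and a point of the same block.
-/

set_option autoImplicit false
set_option linter.unusedSectionVars false

namespace Pool.Agent.P.MP_439f1f_co

open Function SimpleGraph Sum

variable {K N : Type} {r r0 q D e b : ℕ} [DecidableEq K] [Finite K] [Finite N] [Nonempty K]

namespace Fw.Le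

variable {V : Fw K N r r0 q D e b} {j : K} {g : Fin 64} {y x z : N} {L L' : Hub K N (Pt K N) r0}
  {i i' c : ℕ} {d f : Bool} {σ : Slot (r + 1)} {p k : Fin (r0 + 1)} {w : Vx K N (Pt K N) r r0}

variable (V) in
/-- two routes; the block `y` has the port `p` and comes before both tokens -/
structure Bs (g : Fin 64) (j : K) (y : N) (p : Fin (r0 + 1)) (x z : N) : Prop where
  grp : V.grp j = g
  rs : V.Rs j ![0, 0] ![x, z]
  port : V.W.port j y = p
  lay : V.W.lay j (inl y) = 1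
  no : ∀ a, ¬V.W.On (![0, 0] a) (![x, z] a) y
  fst : ∀ {L}, V.W.Bk j L y → ∀ i, V.vr j ![0, 0] ![x, z] (pz L i) <
    V.vr j ![0, 0] ![x, z] (pz (V.W.cut 0 x) 0)
  ord : V.vr j ![0, 0] ![x, z] (pz (V.W.cut 0 x) 0) < V.vr j ![0, 0] ![x, z] (pz (V.W.cut 0 z) 0)

theorem Bs.lt (s : Bs V g j y p x z) (h : V.W.Bk j L y) (h' : V.W.Bk j L' y)
    (a : V.W.pos j L < V.W.pos j L') :
    V.vr j ![0, 0] ![x, z] (pz L i) < V.vr j ![0, 0] ![x, z] (pz L' i') :=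
  s.rs.of_vq (hi_congr h' h rfl).1 (Wd.vq_out (s.rs.toRs.out_bk h fun a d => (s.no a d).elim)
    (s.rs.toRs.out_bk h' fun a d => (s.no a d).elim) a)

theorem Bs.le (s : Bs V g j y p x z) (h : V.W.Bk j L y) (h' : V.W.Bk j L' y)
    (a : V.W.pos j L ≤ V.W.pos j L') (c : i < i') (c' : i' ≤ 2 * r + 10) :
    V.vr j ![0, 0] ![x, z] (pz L i) < V.vr j ![0, 0] ![x, z] (pz L' i') :=
  a.eq_or_lt.elim (fun a => Wd.pos_inj a ▸ vr_line c c') (s.lt h h')

theorem run (h : V.Liv j (V.F.tree x)) (l : V.F.lev x = D) : V.W.Run j 0 x :=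
  h.run rfl (by rw [l, V.od]) (V.F.surj x).1

/-- the block is at rest -/
theorem exists_bs (lx : V.F.lev x = D) (lz : V.F.lev z = D)
    (cx : (V.F.tree x).col = (V.F.tree y).col + 1) (cz : (V.F.tree z).col = (V.F.tree y).col + 1)
    (bf : (V.F.tree x).Bf (V.F.tree z))
    (pn : Kl.Pn (Kl.pt (V.F.tree y).col p) (V.F.tree x) (V.F.tree z))
    (h : ∀ j, V.grp j = g → (V.F.tree x).stg ≠ j ∧ (V.F.tree z).stg ≠ j ∧ (V.F.tree y).stg ≠ j) :
    ∃ j, Bs V g j y p x z := by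
  obtain ⟨κ, kp⟩ := Kl.exists_kap (V.F.tree x) (V.F.tree z)
  obtain ⟨j, s⟩ := V.exists_st g (π := { Par.base r r0 D with
      kap := κ, np := Kl.pt (V.F.tree y).col p }) (Par.TA.two rfl rfl (fun c => (kp c).1)
    (fun _ => Or.inl rfl) pn.one (by simp [Par.base]) bf.ne
    (fun i _ => by
      cases i
      exacts [⟨fun c => (kp c).2.1, pn.px, fun a => absurd rfl a⟩,
        ⟨fun c => (kp c).2.2, pn.py, fun a => absurd rfl a⟩])
    fun _ _ => ⟨bf, pn, by simp [Par.base]⟩) [] (by simp) (by simp)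
  obtain ⟨sx, sz, sy⟩ := h j s.grp
  have rx := s.role false _ rfl sx
  have rz := s.role true _ rfl sz
  have k := Rs.two (run (s.liv (i := false) rfl sx rfl) lx) (run (s.liv (i := true) rfl sz rfl) lz)
    (Wd.On.tree_ne bf.ne) rx rz
  have ry : V.Rest j (V.F.tree y) := s.rest_kind sy fun a T c => Kl.kind_ne (by
    rcases Par.mt_tw c with ⟨_ | _, -, rfl⟩ | ⟨-, _, c, -⟩
    exacts [cx ▸ (Kl.col_ne_succ _).symm, cz ▸ (Kl.col_ne_succ _).symm, nomatch c])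
  have o : ¬V.Opn j y := fun o => Cut.not_ot (Or.inl ry) o.ot
  refine ⟨j, s.grp, k, by rw [port_np sy o, s.np]; exact Kl.pt_self _ _,
    by rw [lay_closed o, s.sp]; rfl, fun a c => ?_, fun c _ => k.F_cut (ry.inF c) 0,
    k.II (k.inI_cut (g := 0) rx) (k.inI_cut (g := 1) rz) s.rook
      (by rw [s.zi, s.zi]; exact Nat.lt_of_sub_eq_succ rfl)⟩
  have t : V.F.tree y = V.F.tree (![x, z] a) := c.1.tree
  fin_cases a
  exacts [rx.not_rest (t ▸ ry), rz.not_rest (t ▸ ry)]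

theorem at_ell (y : N) (c : ℕ) : V.W.S.At (V.W.prv (Wd.mo y c)) (2 * r + 9) true .Z :=
  Stat.mo_Z (Stat.mo_mo _)

theorem val_ell (y : N) (c : ℕ) : (V.F.tree (V.W.ell y c)).1 =
    (.hM (V.F.tree y).ty.wor ((V.F.tree y).col + 1) (Fin.ofNat (r0 + 1) c), .Z) :=
  V.W.tree_ell V.D_pos y c

theorem col_ell (y : N) (c : ℕ) : (V.F.tree (V.W.ell y c)).col = (V.F.tree y).col + 1 :=
  Kl.col_val (val_ell y c)

theorem stg_ell (y : N) (c : ℕ) : (V.F.tree (V.W.ell y c)).stg = (V.F.tree y).stg := by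
  rw [Kl.stg, Kl.ty_val (val_ell y c)]
  rfl

/-- the block is open -/
theorem exists_bs0 (a : V.W.S.At L i false σ) (h : V.W.In L y)
    (nh : ∀ s c k, (V.F.tree (V.W.S.sn L false σ)).1 ≠ (.tE s c k, .H))
    (fg : V.W.Fag V.grp g L) : ∃ j, Bs V g j y 0 (V.W.ell y 1) (V.W.S.sn L false σ) := by
  have two := V.two_r0
  have cz := Lm.col_at h false σ
  have t := Lm.tree_at a
  have hd : (V.F.tree (V.W.S.sn L false σ)).ty.hd = false := by
    rw [Kl.ty_val t]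
    exact Pre.hd_typ _ L false
  have ne : (V.F.tree y).col ≠ (V.F.tree (V.W.S.sn L false σ)).col := cz ▸ Kl.col_ne_succ _
  obtain ⟨κ, kp⟩ := Kl.exists_kap (V.F.tree y) (V.F.tree (V.W.S.sn L false σ))
  have nh' : ∀ {t τ}, (V.F.tree (V.W.S.sn L false σ)).1 = (t, τ) → t.hd = false :=
    fun c => Kl.ty_val c ▸ hd
  have ta : ({ Par.base r r0 D with
      kap := κ, op := some false, fl := 1, ek := Fin.ofNat _ 1 } : Par r r0 D).TA
      (tw (V.F.tree y) (V.F.tree (V.W.S.sn L false σ))) := by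
    refine Par.TA.opn (i := false) rfl rfl rfl rfl (fun _ => rfl)
      (by simp [Nat.mod_eq_of_lt (show 1 < r0 + 1 by omega)]) rfl
      (fun c => ne (congrArg Kl.col c)) (fun c => nomatch hd.symm.trans (congrArg HT.hd c))
      (fun c => ⟨(kp c).1, (kp c).2.1, (kp c).2.1⟩)
      (Or.inr ⟨rfl, fun c => ⟨(kp c).1, (kp c).2.2, (kp c).2.2⟩, .of_col ne ?_,
        fun _ _ c => (nomatch nh' c), fun ⟨_, _, _, _, _, c⟩ => nh _ _ _ c,
        fun ⟨_, _, _, _, c⟩ => nomatch nh' c⟩)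
      (fun _ _ _ _ => Or.inl ⟨rfl, rfl⟩) (by simp [Par.base])
    rintro (⟨_, _, _, _, _, -, c, -⟩ | ⟨s, _, _, _, _, c, c', -⟩)
    · exact nomatch nh' c
    · obtain ⟨-, ⟨u, n⟩, rfl⟩ := a.pos_tS V.D_pos c
      exact V.W.wor_ne h ((congrArg HT.wor (Kl.ty_val c')).trans
        (congrArg HT.wor (a.of_val V.D_pos c).1).symm)
  obtain ⟨j, s⟩ := V.exists_st g ta [] (by simp) (by simp)
  have fj := fg j s.grp
  have sy : (V.F.tree y).stg ≠ j := fj.wor h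
  have sz : (V.F.tree (V.W.S.sn L false σ)).stg ≠ j := fj.sn V.D_pos false σ
  have ry : V.Role j (some false) (V.F.tree y) := s.role false _ rfl sy
  have rz : V.Role j (some true) (V.F.tree (V.W.S.sn L false σ)) := s.role true _ rfl sz
  have o : V.Opn j y := s.opn (i := false) rfl sy rfl (Nat.zero_le _)
  have rx := o.ot.ell
  rw [s.ek] at rx
  replace rx : V.Role j none (V.F.tree (V.W.ell y 1)) := by
    simpa [Nat.mod_eq_of_lt (show 1 < r0 + 1 by omega)] using rx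
  have k := Rs.two (run rx.liv (V.lev_ell y 1))
    (run (s.liv (i := true) rfl sz rfl) (V.W.S.lev_sn V.D_pos _ _ _))
    (Wd.On.tree_ne fun d => by cases rz.eq (d ▸ rx)) rx rz
  refine ⟨j, s.grp, k, o.port, by rw [o.lay, s.sp, s.flip]; rfl, fun a c => ?_,
    fun c _ => k.II (ry.inI c) (k.inI_cut (g := 0) rx) s.rook
      (by rw [s.zi, s.zi]; exact Nat.lt_of_sub_eq_succ rfl),
    k.II (k.inI_cut (g := 0) rx) (k.inI_cut (g := 1) rz) s.rook
      (by rw [s.zi, s.zi]; exact Nat.lt_of_sub_eq_succ rfl)⟩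
  have t : V.F.tree y = V.F.tree (![V.W.ell y 1, V.W.S.sn L false σ] a) := c.1.tree
  fin_cases a
  exacts [(by cases ry.eq (t ▸ rx)), ne (congrArg Kl.col t)]

theorem pn_ell {T : Kl K r r0} (cz : T.col = (V.F.tree y).col + 1)
    (h1 : (p : ℕ) % 2 = 0 → Fin.ofNat _ c ≤ p) (h2 : ∀ w c k, T.1 = (.hM w c k, .Z) → k ≤ p)
    (h3 : ∀ w c' k, T.1 = (.tE w c' k, .H) → el (r0 + 1) p (Fin.ofNat (r0 + 1) c) < el (r0 + 1) p k ∨
      (Fin.ofNat _ c = k ∧ el (r0 + 1) p k % 2 = 0))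
    (h4 : ∀ w c', T.1 = (.hP w c', .Z) → Fin.ofNat _ c ≤ p) :
    Kl.Pn (Kl.pt (V.F.tree y).col p) (V.F.tree (V.W.ell y c)) T := by
  have t := val_ell (V := V) y c
  have m : ∀ {w c' k}, (V.F.tree (V.W.ell y c)).1 = (.hM w (c' + 1) k, .Z) →
      Kl.pt (V.F.tree y).col p c' = p ∧ k = Fin.ofNat _ c := fun d => by
    rw [t] at d
    simp only [Prod.mk.injEq, HT.hM.injEq, add_left_inj] at d
    rw [← d.1.2.1, ← d.1.2.2]
    exact ⟨Kl.pt_self _ _, rfl⟩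
  refine ⟨Kl.pt_one _ _, fun _ _ _ d => ?_, fun _ _ _ d _ => ?_, fun _ _ _ _ d d' => ?_,
    by simp [Kl.Ph, t], fun _ _ _ d d' => ?_, by simp [t]⟩
  · rwa [(m d).1, (m d).2]
  · rw [← add_right_cancel (cz.symm.trans (Kl.col_val d)), Kl.pt_self]
    exact h2 _ _ _ d
  · rw [(m d).1, (m d).2]
    exact h3 _ _ _ d'
  · rw [(m d).1, (m d).2]
    exact h4 _ _ d'

section
variable (a : V.W.S.At L i f σ)
include a

theorem own_ell : ¬(V.F.tree (V.W.ell y c)).Own (V.F.tree (V.W.S.sn L f σ)) :=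
  fun d => d.elim (fun d => by have := (at_ell y c).lz V.D_pos a d; omega)
    fun d => by have := a.lz V.D_pos (at_ell y c) d; omega

theorem bf_ell (ne : V.F.tree (V.W.ell y c) ≠ V.F.tree (V.W.S.sn L f σ))
    (nz : ∀ w c, (V.F.tree (V.W.S.sn L f σ)).1 ≠ (.hP w c, .Z)) :
    (V.F.tree (V.W.ell y c)).Bf (V.F.tree (V.W.S.sn L f σ)) :=
  ⟨ne, fun d => by have := (at_ell y c).con V.D_pos a d; have := a.le; omega,
    fun d => by have := (at_ell y c).jun V.D_pos a d; omega, fun ⟨_, _, _, _, d⟩ => nz _ _ d,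
    own_ell a⟩

theorem bf_ell' (ne : V.F.tree (V.W.ell y c) ≠ V.F.tree (V.W.S.sn L f σ))
    (nc : ¬(V.F.tree (V.W.S.sn L f σ)).Con (V.F.tree (V.W.ell y c))) :
    (V.F.tree (V.W.S.sn L f σ)).Bf (V.F.tree (V.W.ell y c)) :=
  ⟨ne.symm, nc, fun d => by have := a.jun V.D_pos (at_ell y c) d; omega,
    fun d => by have := a.mz V.D_pos (at_ell y c) d; omega, mt Kl.Own.symm (own_ell a)⟩

variable (h : V.W.In L y) (fg : V.W.Fag V.grp g L)
include h fg

theorem bs_ell (bf : (V.F.tree (V.W.ell y c)).Bf (V.F.tree (V.W.S.sn L f σ)))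
    (pn : Kl.Pn (Kl.pt (V.F.tree y).col p) (V.F.tree (V.W.ell y c)) (V.F.tree (V.W.S.sn L f σ))) :
    ∃ j, Bs V g j y p (V.W.ell y c) (V.W.S.sn L f σ) :=
  exists_bs (V.lev_ell _ _) (V.W.S.lev_sn V.D_pos _ _ _) (col_ell _ _) (Lm.col_at h _ _) bf pn
    fun j d => ⟨(stg_ell y c).trans_ne ((fg j d).wor h), (fg j d).sn V.D_pos _ _, (fg j d).wor h⟩

theorem bs_ell' (bf : (V.F.tree (V.W.S.sn L f σ)).Bf (V.F.tree (V.W.ell y c)))
    (pn : Kl.Pn (Kl.pt (V.F.tree y).col p) (V.F.tree (V.W.ell y c)) (V.F.tree (V.W.S.sn L f σ))) :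
    ∃ j, Bs V g j y p (V.W.S.sn L f σ) (V.W.ell y c) :=
  exists_bs (V.W.S.lev_sn V.D_pos _ _ _) (V.lev_ell _ _) (Lm.col_at h _ _) (col_ell _ _) bf pn.symm
    fun j d => ⟨(fg j d).sn V.D_pos _ _, (stg_ell y c).trans_ne ((fg j d).wor h), (fg j d).wor h⟩

end

/-- both vertices are reached from below -/
theorem dd (a : V.W.S.Acc false w L i f σ) (h : V.W.In L y) (ne : hv (ml y c) ≠ w)
    (n1 : V.F.tree (V.W.ell y c) ≠ V.F.tree (V.W.S.sn L f σ))
    (n2 : ¬(V.F.tree (V.W.S.sn L f σ)).Con (V.F.tree (V.W.ell y c)))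
    (nz : ∀ w c, (V.F.tree (V.W.S.sn L f σ)).1 ≠ (.hP w c, .Z))
    (pn : Kl.Pn (Kl.pt (V.F.tree y).col p) (V.F.tree (V.W.ell y c)) (V.F.tree (V.W.S.sn L f σ))) :
    V.W.Sv (hv (ml y c)) w := by
  obtain ⟨g, fg⟩ := V.W.exists_grp V.grp [L, V.W.prv (Wd.mo y c)] (by simp)
  have f1 := fg L (by simp)
  have f2 := fg (V.W.prv (Wd.mo y c)) (by simp)
  obtain ⟨j, s⟩ := bs_ell a.at h f1 (bf_ell a.at n1 nz) pn
  obtain ⟨j', s'⟩ := bs_ell' a.at h f1 (bf_ell' a.at n1 n2) pn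
  have b := (f1 j s.grp).bk.2 h
  have b' := (f1 j' s'.grp).bk.2 h
  have := a.at.le
  intro _ _
  by_cases o : V.W.pos j (V.W.prv (Wd.mo y c)) < V.W.pos j L
  · exact s.rs.serve ((s.rs.toRs.ch_cut 0).app (Wd.ch_entry y c))
      ((s.rs.toRs.ch_cut 1).app (s.rs.toRs.ch_acc a)) ne (fun g => by fin_cases g <;> simp)
      [.lt 1 3, .lt 3 0, .lt 0 2] [] (by decide +kernel)
      ⟨s.lt (Wd.bk_prv' j _) b o, s.fst b _, s.ord⟩ trivial
  rw [(Wd.SB.of_in (V.W.in_prv (Wd.mo y c)) h).twin V.mono f2 f1 s.grp s'.grp fun n d => by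
    obtain rfl := d.unique (V.W.in_prv (Wd.mo y c))
    exact ⟨s.lay.trans s'.lay.symm, fun _ _ => s.port.trans s'.port.symm⟩, not_lt] at o
  refine s'.rs.serve ((s'.rs.toRs.ch_cut 1).app (Wd.ch_entry y c))
    ((s'.rs.toRs.ch_cut 0).app (s'.rs.toRs.ch_acc a)) ne (fun g => by fin_cases g <;> simp)
    [.lt 3 1, .lt 1 2, .lt 2 0] [] (by decide +kernel)
    ⟨o.eq_or_lt.elim (fun o => ?_) (s'.lt b' (Wd.bk_prv' j' _)), s'.fst (Wd.bk_prv' j' _) _,
      s'.ord⟩ trivial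
  obtain rfl := Wd.pos_inj o
  refine vr_line (Nat.succ_lt_succ (this.lt_of_ne ?_)) le_rfl
  rintro rfl
  obtain ⟨-, rfl, rfl⟩ := a.at.last
  exact n1 rfl

/-- the head of the line into the node -/
theorem dz (a : V.W.S.Acc false w (V.W.prv (inl y)) (2 * r + 8) true .Z) (h0 : 0 < c) (h : c ≤ r0)
    (ne : w ≠ hv (ml y c)) : V.W.Sv w (hv (ml y c)) := by
  have ev := V.ev
  have hi : V.W.In _ y := V.W.in_prv (inl y)
  have t : (V.F.tree (V.W.S.sn (V.W.prv (inl y)) true .Z)).1 = (.hP _ _, .Z) :=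
    (Lm.tree_at a.at).trans (by simp only [Pre.typ, Wd.prv, Equiv.apply_symm_apply]; rfl)
  obtain ⟨g, fg⟩ := V.W.exists_grp V.grp [V.W.prv (inl y)] (by simp)
  have st : ∀ κ, κ = r0 + 1 → ∃ j, Bs V g j y ⟨c, by omega⟩ _ (V.W.ell y κ) := fun κ d => by
    have z : Fin.ofNat (r0 + 1) κ ≤ ⟨c, by omega⟩ := by simp [d]
    exact bs_ell' a.at hi (fg _ (by simp))
      (bf_ell' a.at ((at_ell y κ).tree_ne V.D_pos a.at (by omega)) fun d => by
        simpa [Kl.ty_val t, Kl.ty_val (val_ell y κ)] using d.1)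
      (pn_ell (Lm.col_at hi _ _) (fun _ => z) (by simp [t]) (by simp [t]) fun _ _ _ => z)
  have o : ∀ {j L}, V.W.lay j (inl y) = 1 → V.W.lp j L = inl (inl y, 0) →
      V.W.pos j L < V.W.pos j (V.W.prv (inl y)) := fun d d' =>
    Wd.lt_of_lay (i' := 1) d' (Wd.lp_prv (inl y)) (by rw [d]; decide)
  intro _ _
  rcases Nat.mod_two_eq_zero_or_one c with d | d
  · obtain ⟨n, hn⟩ : ∃ n, c + 2 * n = r0 := ⟨(r0 - c) / 2, by omega⟩
    obtain ⟨j, s⟩ := st (c + 2 * n + 1) (by omega)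
    have p : (V.W.port j y : ℕ) = c := congrArg Fin.val s.port
    exact s.rs.roX.serve_t1 (Wd.arc_portX hn.le p)
      ((s.rs.toRs.ch_cut 0).app (s.rs.toRs.ch_acc a)) (s.rs.toRs.ch_cut 1) ne
      (fun g => by fin_cases g <;> simp) ⟨Wd.fre_cut, Wd.fre_exit, Wd.fre_cut⟩
      [.lt 4 3, .lt 3 1, .lt 1 0, .lt 0 2] [] (by decide +kernel)
      ⟨s.rs.roX.port_prvX p (by rw [hn, Nat.mod_self]; omega),
        s.lt (Wd.bk_prv' j _) (Wd.bk_prv' j _) (o s.lay (Wd.lp_prv _)),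
        s.fst (Wd.bk_prv' j _) _, s.ord⟩ trivial
  · obtain ⟨n, hn⟩ : ∃ n, c + 2 * n + 1 = r0 := ⟨(r0 - c) / 2, by omega⟩
    obtain ⟨j, s⟩ := st (c + 2 * n + 1 + 1) (by omega)
    have p : (V.W.port j y : ℕ) = c := congrArg Fin.val s.port
    exact s.rs.roX.serve_t2 (Wd.arc_portX (by omega) p) (by omega)
      ((s.rs.toRs.ch_cut 0).app (s.rs.toRs.ch_acc a)) (s.rs.toRs.ch_cut 1) ne
      (fun g => by fin_cases g <;> simp) ⟨Wd.fre_cut, Wd.fre_exit, Wd.fre_cut⟩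
      [.lt 5 3, .lt 3 4, .lt 4 1, .lt 1 0, .lt 0 2] [] (by decide +kernel)
      ⟨s.rs.roX.port_prvX p (by rw [hn, Nat.mod_self]; omega),
        s.rs.roX.prv_mlX (by
          rw [p, hn, Nat.mod_self, Nat.mod_eq_of_lt r0.lt_succ_self]
          simp only [el]
          split_ifs <;> omega),
        s.lt (Wd.bk_pay.2 rfl) (Wd.bk_prv' j _) (o s.lay Wd.lp_ml),
        s.fst (Wd.bk_prv' j _) _, s.ord⟩ trivial

/-- **The point has an access from below.** -/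
theorem sv_dn (a : V.W.S.Acc false w L i f σ) (h : V.W.In L y) (ne : hv (ml y k) ≠ w)
    (na : ¬(HL (2 * r + 9) V.W.S.hang).Adj (hv (ml y k)) w) : V.W.Sv (hv (ml y k)) w := by
  have cz := Lm.col_at h f σ
  have sb := Wd.SB.of_in (V.W.in_prv (Wd.mo y k)) h
  have kk : Fin.ofNat (r0 + 1) k = k := Fin.ofNat_val_eq_self k
  have vw : ∀ {n}, i = n → n < 2 * r + 9 → w = vz L (n + 1) := fun d d' => by
    rcases a.cases with ⟨c, -⟩ | ⟨-, u, -, -, c, -⟩ | ⟨n, rfl, c⟩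
    exacts [(nomatch c), by omega, by rw [← d, show i + 1 = n from c, vz_val]]
  intro _ _
  by_cases nz : ∃ s c, (V.F.tree (V.W.S.sn L f σ)).1 = (.hP s c, .Z)
  · obtain ⟨s, c, d⟩ := nz
    obtain ⟨rfl, n, d'⟩ := a.at.pos_hP V.D_pos d
    obtain rfl : y = n := (V.W.in_dA.2 h).unique (d' ▸ V.W.in_pay (inl n))
    obtain rfl : L = V.W.prv (inl y) := V.W.S.O.dA.eq_symm_apply.2 d'
    obtain ⟨d1, rfl⟩ := a.at.of_val V.D_pos d
    obtain rfl := (Pre.typ_hP d1).1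
    refine Wd.Sv.symm (dz a (Nat.pos_of_ne_zero fun c => na ?_) k.is_le ne.symm)
    rw [c, vw rfl (by omega)]
    exact Wd.adj_vz (Wd.hang_exit y) le_rfl
  push Not at nz
  have n1 : V.F.tree (V.W.ell y k) ≠ V.F.tree (V.W.S.sn L f σ) := fun d => by
    obtain ⟨rfl, rfl⟩ := sb.tree V.D_pos (at_ell y k) a.at d
    rcases a.cases with ⟨c, -⟩ | ⟨-, u, c, rfl, -⟩ | ⟨n, -, c⟩
    · exact nomatch c
    · exact ne (by rw [← c, Wd.prv, Equiv.apply_symm_apply])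
    · have : 2 * r + 9 + 1 = n := c
      omega
  have n2 : ¬(V.F.tree (V.W.S.sn L f σ)).Con (V.F.tree (V.W.ell y k)) := fun d => by
    obtain ⟨rfl, c⟩ := sb.symm.con V.D_pos a.at (at_ell y k) d
    refine na ?_
    rw [vw (n := 2 * r + 8) (by omega) (by omega)]
    exact Wd.adj_vz ((V.W.S.fit.hp _ _ _ (V.W.S.O.dA.apply_symm_apply _)).2 (Or.inl rfl)) le_rfl
  by_cases m : ∃ s c k, (V.F.tree (V.W.S.sn L f σ)).1 = (.hM s c k, .Z)
  · obtain ⟨_, _, _, m⟩ := m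
    exact dd a h ne n1 n2 nz (pn_ell (p := Fin.last _) cz (fun _ => Fin.le_last _)
      (fun _ _ _ _ => Fin.le_last _) (by simp [m]) fun _ _ _ => Fin.le_last _)
  · refine dd a h ne n1 n2 nz (pn_ell (p := k) cz (fun _ => kk.le) (fun _ _ _ d => absurd
      ⟨_, _, _, d⟩ m) (fun _ _ n _ => ?_) fun _ _ _ => kk.le)
    have := n.2
    rw [kk, Fin.ext_iff]
    unfold el
    split_ifs <;> omega

section
variable (a : V.W.S.Acc true w L i false σ) (h : V.W.In L y) (ne : hv (ml y c) ≠ w)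
  (fg : V.W.Fag V.grp g L)
include a h ne fg

/-- the point comes before the entry of the hub -/
theorem ud (s : Bs V g j y p (V.W.ell y c) (V.W.S.sn L false σ))
    (o : V.W.pos j L < V.W.pos j (ml y c)) : V.W.Sv (hv (ml y c)) w := fun {_ _} =>
  s.rs.serve ((s.rs.toRs.ch_cut 0).app (Wd.ch_entry y c))
    ((s.rs.toRs.ch_cut 1).app (s.rs.toRs.ch_acc a)) ne (fun g => by fin_cases g <;> simp)
    [.lt 3 1, .lt 1 0, .lt 0 2] [] (by decide +kernel)
    ⟨s.le ((fg j s.grp).bk.2 h) (Wd.bk_prv' j _) (Wd.le_prv.2 o) (Nat.lt_succ_of_le a.at.le) le_rfl,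
      s.fst (Wd.bk_prv' j _) _, s.ord⟩ trivial

/-- the hub is at the port and is reached through the moat -/
theorem ut {n : ℕ} (s : Bs V g j y p (V.W.ell y (c + 2 * n + 1)) (V.W.S.sn L false σ))
    (pc : (p : ℕ) = c) (hn : c + 2 * n ≤ r0) (hc : (c + 2 * n + 1) % (r0 + 1) ≠ c)
    (o : V.W.lo L = inl (inl y, 0) → V.W.mi y L ≠ p ∨ L = ml y c)
    (nc : ¬V.W.Car j y c n L) : V.W.Sv (hv (ml y c)) w := by
  have fj := fg j s.grp
  have b := fj.bk.2 h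
  have pp := (congrArg Fin.val s.port).trans pc
  have := a.at.le
  have i0 : ∀ u, L = inl u → 0 < i := fun u d => Nat.pos_of_ne_zero fun z => by
    obtain ⟨⟨_, d'⟩, -⟩ := (z ▸ a.at).zero
    simp [d] at d'
  have e : (ml y c : Hub K N (Pt K N) r0) = inl (inr (y, p)) := pc ▸ Wd.ml_valX y p
  intro _ _
  refine Wd.Sv.symm (s.rs.roX.serve_t1 (Wd.arc_portX hn pp)
    ((s.rs.toRs.ch_cut 1).app (s.rs.toRs.ch_acc a)) (s.rs.toRs.ch_cut 0) ne.symm
    (fun g => by fin_cases g <;> simp) ⟨Wd.fre_cut, ⟨nc, fun _ _ d => ?_⟩, Wd.fre_cut⟩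
    [.lt 4 3, .lt 4 1, .lt 3 2, .lt 1 2, .lt 2 0] [(1, 3)] (by decide +kernel)
    ⟨s.rs.roX.port_prvX pp hc, ?_, s.fst (Wd.bk_prv' j _) _, s.fst b _, s.ord⟩
    (pz_ne' (Nat.lt_succ_of_le this).ne (Nat.le_succ_of_le this) le_rfl))
  · exact pz_ne' (i0 _ (congrArg Prod.fst d)).ne' (by omega) (by omega) d
  obtain ⟨m, l⟩ := id h
  by_cases d : m = 0
  · rcases o (d ▸ l) with o | o
    · refine s.lt (Wd.bk_pay.2 rfl) b ?_
      rw [e, ← s.port]
      exact Wd.port_lt fj.cold (d ▸ l) (s.port ▸ o)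
    · exact s.le (Wd.bk_pay.2 rfl) b (o ▸ le_rfl) (i0 _ o) (Nat.le_succ_of_le this)
  · exact s.lt (Wd.bk_pay.2 rfl) b ((Wd.pos_lay (cold_pay j _) fj.cold rfl l (Ne.symm d)).2
      (s.lay ▸ Fin.pos_iff_ne_zero.2 d))

end

/-- **The point has an access from above** in the first half of its line. -/
theorem sv_up (a : V.W.S.Acc true w L i false σ) (h : V.W.In L y) (ne : hv (ml y k) ≠ w)
    (nh : ∀ s c k, (V.F.tree (V.W.S.sn L false σ)).1 ≠ (.tE s c k, .H)) :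
    V.W.Sv (hv (ml y k)) w := by
  have ev := V.ev
  have two := V.two_r0
  have hk := k.2
  have hi := a.at.half.1 rfl
  have hr := V.hr
  have he := V.he
  obtain ⟨g, fg⟩ := V.W.exists_grp V.grp [L] (by simp)
  replace fg := fg L (by simp)
  have st : ∀ (p : Fin (r0 + 1)) κ, ((p : ℕ) % 2 = 0 → κ % (r0 + 1) ≤ p) →
      ∃ j, Bs V g j y p (V.W.ell y κ) (V.W.S.sn L false σ) := fun p κ d =>
    have z : ∀ s c, (V.F.tree (V.W.S.sn L false σ)).1 ≠ (.hP s c, .Z) := fun _ _ d => by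
      have := (a.at.pos_hP V.D_pos d).1
      omega
    bs_ell a.at h fg (bf_ell a.at ((at_ell y κ).tree_ne V.D_pos a.at (by omega)) z)
      (pn_ell (Lm.col_at h _ _) d (fun _ _ _ d => by have := (a.at.pos_hM V.D_pos d).1; omega)
        (fun _ _ _ d => absurd d (nh _ _ _)) fun _ _ d => absurd d (z _ _))
  have A : ∀ p : Fin (r0 + 1), ((p : ℕ) % 2 = 0 → k ≤ p) → V.W.lo L = inl (inl y, 0) →
      V.W.mi y L ≠ p → el (r0 + 1) p (V.W.mi y L) ≤ el (r0 + 1) p k → L ≠ ml y k →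
      V.W.Sv (hv (ml y k)) w := fun p d l m o n => by
    obtain ⟨j, s⟩ := st p k (by rwa [Nat.mod_eq_of_lt hk])
    intro _ _
    refine ud a h ne fg s ((Wd.le_mi (fg j s.grp).cold l (s.port ▸ m)).trans ?_ |>.lt_of_ne
      (Wd.pos_ne n))
    rwa [← Wd.ml_valX, ← not_lt, Wd.pos_ml, s.port, Nat.mod_eq_of_lt hk,
      Nat.mod_eq_of_lt (V.W.mi y L).2, not_lt]
  have hm := (V.W.mi y L).2
  intro _ _
  by_cases o : (k : ℕ) % 2 = 1
  · by_cases c : V.W.lo L = inl (inl y, 0) → V.W.mi y L ≠ k ∨ L = ml y k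
    · obtain ⟨j, s⟩ := st k (k + 2 * 0 + 1) (by omega)
      exact ut (n := 0) a h ne fg s rfl (by omega) (by rw [Nat.mod_eq_of_lt (by omega)]; omega) c
        fun ⟨_, d, _⟩ => by omega
    · push Not at c
      exact A (Fin.last _) (fun _ => k.le_last) c.1
        (by rw [c.2.1, Ne, Fin.ext_iff, Fin.val_last]; omega) (by rw [c.2.1]) c.2.2
  obtain ⟨p, hp⟩ : ∃ p : Fin (r0 + 1), (p : ℕ) + 1 = k ∨ ((k : ℕ) = 0 ∧ (p : ℕ) = r0) := by
    rcases Nat.eq_zero_or_pos k with d | d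
    exacts [⟨Fin.last _, Or.inr ⟨d, rfl⟩⟩, ⟨⟨k - 1, by omega⟩, Or.inl (by simp only; omega)⟩]
  by_cases c : V.W.lo L = inl (inl y, 0) → V.W.mi y L = p ∨ L = ml y k
  swap
  · push Not at c
    exact A p (by rw [Fin.le_def]; omega) c.1 c.2.1 (by unfold el; split_ifs <;> omega) c.2.2
  have c' : V.W.lo L = inl (inl y, 0) → V.W.mi y L ≠ k ∨ L = ml y k := fun d =>
    (c d).imp_left fun d => by rw [d, Ne, Fin.ext_iff]; omega
  rcases hp with hp | hp
  · obtain ⟨n, hn⟩ : ∃ n, (k : ℕ) + 2 * n = r0 := ⟨(r0 - k) / 2, by omega⟩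
    obtain ⟨j, s⟩ := st k (k + 2 * n + 1) (by simp [hn])
    have pp := congrArg Fin.val s.port
    refine ut (n := n) a h ne fg s rfl hn.le (by rw [hn, Nat.mod_self]; omega) c' fun d => ?_
    have cl := (fg j s.grp).cold
    have l := (Wd.lp_cold cl).symm.trans d.lp
    rcases c l with c | c
    · obtain ⟨u, d1, d2, -⟩ := d
      have := d2.trans (Wd.le_mi cl l (by rw [c, s.port, Ne, Fin.ext_iff]; omega))
      rw [c, ← Wd.ml_valX, ← not_lt, Wd.pos_ml, pp, Nat.mod_eq_of_lt p.2,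
        Nat.mod_eq_of_lt (by omega)] at this
      unfold el at this
      split_ifs at this <;> omega
    · exact (Wd.arc_portX hn.le pp).car_lab (c ▸ d)
  · obtain ⟨j, s⟩ := exists_bs0 a.at h nh fg
    obtain rfl : k = 0 := Fin.ext hp.1
    exact ut (n := 0) a h ne fg s rfl (by omega) (by rw [Nat.mod_eq_of_lt (by omega)]; omega) c'
      fun ⟨_, d, _⟩ => by omega

end Fw.Le

/-- **A moat hub and a point of the same block.** -/
theorem Fw.sv_le (V : Fw K N r r0 q D e b) {d f : Bool} {w : Vx K N (Pt K N) r r0}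
    {L : Hub K N (Pt K N) r0} {i : ℕ} {σ : Slot (r + 1)} (y : N) (k : Fin (r0 + 1))
    (a : V.W.S.Acc d w L i f σ) (h : V.W.In L y) (ne : hv (inl (inr (y, k))) ≠ w)
    (na : ¬(HL (2 * r + 9) V.W.S.hang).Adj (hv (inl (inr (y, k)))) w) :
    V.W.Sv (hv (inl (inr (y, k)))) w := by
  have na' := na
  rw [← Wd.ml_valX] at ne na ⊢
  intro _ _
  rcases a.cases with ⟨rfl, u, rfl, -, rfl, rfl, rfl⟩ | ⟨rfl, -⟩ | ⟨n, rfl, -⟩
  · exact Le.sv_up a h ne fun _ _ _ d => by have := (a.at.pos_tE V.D_pos d).1; omega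
  · exact Le.sv_dn a h ne na
  rcases le_or_gt 2 (n : ℕ) with c | c
  · obtain ⟨_, _, a'⟩ := V.W.S.acc_dn L n (Or.inl c)
    exact Le.sv_dn a' h ne na
  obtain ⟨f', σ', a'⟩ := V.W.S.acc_up L n (Or.inl (by omega))
  obtain rfl := a'.at.half.2 (by omega)
  by_cases m : ∃ s c k, (V.F.tree (V.W.S.sn L false σ')).1 = (.tE s c k, .H)
  · obtain ⟨_, _, u, m⟩ := m
    obtain ⟨c, z, rfl⟩ := a'.at.pos_tE V.D_pos m
    obtain rfl : y = z := h.unique (V.W.in_pay (inr (z, u)))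
    obtain rfl : n = 0 := Fin.ext (by simpa using c)
    rw [Wd.ml_valX]
    exact V.sv_mo y u k na'
  · exact Le.sv_up a' h ne fun _ _ _ d => m ⟨_, _, _, d⟩

end Pool.Agent.P.MP_439f1f_co
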