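import Pool.Agent.P.MP_439f1f_co.Gb8
import Pool.Agent.P.MP_439f1f_co.Rl2

/-!
Two points in one block: the rows of the system hubs remain.
-/

set_option autoImplicit false
set_option linter.unusedSectionVars false

namespace Pool.Agent.P.MP_439f1f_co

variable {K N : Type} {r r0 q D e b : ℕ} [DecidableEq K] [Finite K] [Finite N] [Nonempty K]

theorem Fw.rowLE (V : Fw K N r r0 q D e b) : V.RowLE :=
  fun n k _ _ _ _ _ _ a h t => V.sv_le n k a h t.ne t.na

theorem Fw.gB_ls {V : Fw K N r r0 q D e b} (G : V.W.S.Good e) (hS : V.RowLS) (h2 : V.LS2) : V.GB :=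
  Fw.gB_of G V.rowLE hS h2

end Pool.Agent.P.MP_439f1f_co
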