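import Pool.Agent.P.MP_439f1f_co.Rl0
import Pool.Agent.P.MP_439f1f_co.Sv2
import Pool.Agent.P.MP_439f1f_co.Rl4
import Pool.Agent.P.MP_439f1f_co.Top0

/-!
Service of two points in one loop or in one payload block.
-/

set_option autoImplicit false
set_option linter.unusedSectionVars false

namespace Pool.Agent.P.MP_439f1f_co

open Function SimpleGraph Sum

variable {K N : Type} {r r0 q D e b : ℕ}

theorem Kl.Pn.port {x y : Kl K r r0} {w : K × Bool} {c : ZMod 3} {k i : Fin (r0 + 1)}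
    (a1 : x.1 = (.hM w (c + 1) k, .Z)) (a2 : y.1 = (.tE w (c + 1) i, .H)) :
    Kl.Pn (Kl.pt c k) x y := by
  refine ⟨Kl.pt_one c k, fun w' c' k' d _ => ?_, by simp [Kl.Px, a2], fun w' c' k' i' d d' => ?_,
    by simp [Kl.Ph, a2], by simp [a2], by simp [a2]⟩
  · rw [a1] at d
    simp only [Prod.mk.injEq, HT.hM.injEq, add_left_inj] at d
    rw [← d.1.2.1, ← d.1.2.2, Kl.pt_self]
  · rw [a1] at d
    simp only [Prod.mk.injEq, HT.hM.injEq, add_left_inj] at d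
    rw [← d.1.2.1, ← d.1.2.2, Kl.pt_self, Fin.ext_iff]
    have := i'.2
    unfold el
    split_ifs <;> omega

variable [DecidableEq K] [Finite K] [Finite N] [Nonempty K]

namespace Fw

variable (V : Fw K N r r0 q D e b)

/-- the vertex has only an access from below and is not a hub -/
def DO (v : Vx K N (Pt K N) r r0) (L : Hub K N (Pt K N) r0) : Prop :=
  v = vz L (2 * r + 9) ∨ (v = vz L (2 * r + 8) ∧ ¬V.W.S.Mo L)

/-- a moat hub and a point of its block -/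
def RowLE : Prop := ∀ n k d w L i f σ, V.W.S.Acc d w L i f σ → V.W.In L n →
  V.Tsk (hv (inl (inr (n, k)))) w → V.W.Sv (hv (inl (inr (n, k)))) w

/-- the end of a line and one of the first two vertices of the line of the node -/
def RowLT : Prop := ∀ y L v m, V.W.In L y → V.DO v L → m ≤ 1 → V.Tsk v (vz (nl y) m) →
  V.W.Sv v (vz (nl y) m)

/-- the end of a line and the hub or the tail of a system line -/
def RowLS : Prop := ∀ z L v w, V.W.SB L (inr z) → V.DO v L → w = hv (inr z) ∨ w = vz (inr z) 0 →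
  V.Tsk v w → V.W.Sv v w

/-- two accesses in the same direction through the ends of a short run -/
def RowLK : Prop := ∀ d v L i f σ w L' i' f' σ', V.W.S.Acc d v L i f σ →
  V.W.S.Acc d w L' i' f' σ' → V.W.SB L L' →
  (V.F.tree (V.W.S.sn L' f' σ')).Lz (V.F.tree (V.W.S.sn L f σ)) → V.W.Sv v w

namespace Rl

/-- `L` comes before `L'` in the states of the group `g` with the ports `np` -/
def Ref (g : Fin 64) (np : ZMod 3 → Fin (r0 + 1)) (L L' : Hub K N (Pt K N) r0) : Prop :=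
  ∀ j, V.grp j = g → (V.par j).sp = false → (V.par j).np = np →
    (∀ n, V.W.In L n → V.Rest j (V.F.tree n)) → V.W.pos j L < V.W.pos j L'

/-- the place of a vertex on its line -/
def Co (v : Vx K N (Pt K N) r r0) (L : Hub K N (Pt K N) r0) (x : ℕ) : Prop :=
  (x = 0 ∧ v = hv L ∧ ∃ z, L = inr z) ∨ ∃ k ≤ 2 * r + 9, x = k + 1 ∧ v = vz L k

variable {V} {g : Fin 64} {np : ZMod 3 → Fin (r0 + 1)} {L L' : Hub K N (Pt K N) r0}
  {d d' f f' : Bool} {i i' x x' : ℕ} {σ σ' : Slot (r + 1)} {v w : Vx K N (Pt K N) r r0}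

theorem ref_or (sb : V.W.SB L L') (fg : V.W.Fag V.grp g L) (fg' : V.W.Fag V.grp g L')
    (ne : L ≠ L') : Ref V g np L L' ∨ Ref V g np L' L := by
  by_contra c
  simp only [Ref, not_or, not_forall] at c
  obtain ⟨⟨j, a1, a2, a3, a4, a5⟩, j', b1, b2, b3, b4, b5⟩ := c
  exact a5 ((twin_sb sb fg fg' a1 b1 (a2.trans b2.symm) fun n h =>
    ⟨fun o => Cut.not_ot (Or.inl (a4 n h)) o.ot, fun o => Cut.not_ot (Or.inl (b4 n (sb.in h))) o.ot,
      fun _ _ => by rw [a3, b3]⟩).2 (lt_of_le_of_ne (not_lt.1 b5) (mt Wd.pos_inj ne)))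

/-- a state with two living labels of one colour -/
theorem exists_tw {x y : N} (bf : (V.F.tree x).Bf (V.F.tree y))
    (pn : Kl.Pn np (V.F.tree x) (V.F.tree y)) (col : (V.F.tree y).col = (V.F.tree x).col)
    (lx : V.F.lev x = D) (ly : V.F.lev y = D) (sx : ∀ j, V.grp j = g → (V.F.tree x).stg ≠ j)
    (sy : ∀ j, V.grp j = g → (V.F.tree y).stg ≠ j) : ∃ j, V.grp j = g ∧ (V.par j).sp = false ∧
      (V.par j).np = np ∧ V.Rs j ![0, 0] ![x, y] ∧ V.Rs j ![0, 0] ![y, x] ∧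
      (V.L j).key x < (V.L j).key y ∧
      ∀ T, T.stg ≠ j → T.col ≠ (V.F.tree x).col → V.Rest j T := by
  obtain ⟨κ, hκ⟩ := Kl.exists_kap (V.F.tree x) (V.F.tree y)
  obtain ⟨j, s⟩ := V.exists_st g (Par.TA.two (π := { Par.base r r0 D with kap := κ, np := np })
    rfl rfl (fun c => (hκ c).1) (by simp [Par.base]) pn.one (by simp [Par.base]) bf.ne
    (fun i _ => by
      cases i
      exacts [⟨fun c => (hκ c).2.1, pn.px, fun c => absurd rfl c⟩,
        ⟨fun c => (hκ c).2.2, pn.py, fun c => absurd rfl c⟩])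
    fun _ _ => ⟨bf, pn, by simp [Par.base]⟩) [] (by simp) (by simp)
  have rx := s.role false (V.F.tree x) rfl (sx j s.grp)
  have ry := s.role true (V.F.tree y) rfl (sy j s.grp)
  have a := Rc.run_lab (s.liv (i := false) (T := V.F.tree x) rfl rx.1 rfl) lx
  have a' := Rc.run_lab (s.liv (i := true) (T := V.F.tree y) rfl ry.1 rfl) ly
  refine ⟨j, s.grp, s.sp, s.np, .two a a' (Wd.On.tree_ne bf.ne) rx ry,
    .two a' a (Wd.On.tree_ne bf.ne.symm) ry rx, rx.lt ry s.rook (by simp [Par.zi]),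
    fun T c c' => s.rest_kind c fun a T0 h => Kl.kind_ne ?_⟩
  rcases Par.mt_tw h with ⟨_ | _, -, rfl⟩ | ⟨-, _, h, -⟩
  exacts [c'.symm, col ▸ c'.symm, nomatch h]

section
variable (a : V.W.S.Acc d v L i f σ) (a' : V.W.S.Acc d' w L' i' f' σ') (sb : V.W.SB L L')
  (fg : V.W.Fag V.grp g L) (fg' : V.W.Fag V.grp g L') (ne : v ≠ w)
include a a' sb

theorem bf_of (h0 : L = L' → i ≠ i' ∧ i' ≠ i + 1) (h1 : ¬(i = r + 4 ∧ i' = r + 5))
    (h2 : ¬(i = 2 * r + 9 ∧ i' = 2 * r + 8)) (h3 : ¬(i = 0 ∧ i' = 2 * r + 8))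
    (h4 : ¬(V.F.tree (V.W.S.sn L' f' σ')).Lz (V.F.tree (V.W.S.sn L f σ))) :
    (V.F.tree (V.W.S.sn L f σ)).Bf (V.F.tree (V.W.S.sn L' f' σ')) :=
  ⟨fun c => let ⟨x, y⟩ := sb.tree V.D_pos a.at a'.at c; (h0 x).1 y,
    fun c => let ⟨x, y⟩ := sb.con V.D_pos a.at a'.at c; (h0 x).2 y,
    fun c => h1 (a.at.jun V.D_pos a'.at c), fun c => h2 (a.at.mz V.D_pos a'.at c),
    fun c => c.elim (fun c => h3 (a.at.lz V.D_pos a'.at c)) h4⟩

include fg fg' ne

/-- two routes, two direct accesses -/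
theorem fin (o : Ref V g np L L' ∨ (L = L' ∧ cond d i (i + 1) < cond d' i' (i' + 1)))
    (pn : Kl.Pn np (V.F.tree (V.W.S.sn L f σ)) (V.F.tree (V.W.S.sn L' f' σ')))
    (c : ((d = d' ∨ (d = true ∧ d' = false)) ∧
      (V.F.tree (V.W.S.sn L f σ)).Bf (V.F.tree (V.W.S.sn L' f' σ'))) ∨ (d = true ∧ d' = false ∧
      (V.F.tree (V.W.S.sn L' f' σ')).Bf (V.F.tree (V.W.S.sn L f σ)))) : V.W.Sv v w := by
  have cl : (V.F.tree (V.W.S.sn L' f' σ')).col = (V.F.tree (V.W.S.sn L f σ)).col :=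
    (V.W.S.col_sn V.D_pos _ _ _).trans ((sb.col f f').symm.trans (V.W.S.col_sn V.D_pos _ _ _).symm)
  have la := V.W.S.lev_sn V.D_pos L f σ
  have lb := V.W.S.lev_sn V.D_pos L' f' σ'
  have sa := fun j h => (fg j h).sn V.D_pos f σ
  have sb' := fun j h => (fg' j h).sn V.D_pos f' σ'
  have := a'.at.le
  obtain ⟨j, j1, j2, j3, k, re, lt⟩ : ∃ j, V.grp j = g ∧ (V.par j).sp = false ∧ (V.par j).np = np ∧
      V.Rs j ![0, 0] ![V.W.S.sn L f σ, V.W.S.sn L' f' σ'] ∧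
      (∀ T, T.stg ≠ j → T.col ≠ (V.F.tree (V.W.S.sn L f σ)).col → V.Rest j T) ∧
      ((d = d' ∧ (V.L j).key (V.W.S.sn L f σ) < (V.L j).key (V.W.S.sn L' f' σ')) ∨
        (d = true ∧ d' = false)) := by
    rcases c with ⟨c, h⟩ | ⟨c, c', h⟩
    · obtain ⟨j, j1, j2, j3, k, -, lt, re⟩ := exists_tw h pn cl la lb sa sb'
      exact ⟨j, j1, j2, j3, k, re, c.imp_left fun c => ⟨c, lt⟩⟩
    · obtain ⟨j, j1, j2, j3, -, k, -, re⟩ := exists_tw h pn.symm cl.symm lb la sb' sa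
      exact ⟨j, j1, j2, j3, k, cl ▸ re, Or.inr ⟨c, c'⟩⟩
  have f1 := fg j j1
  have f2 := fg' j j1
  have rs : ∀ n, V.W.In L n → V.Rest j (V.F.tree n) := fun n h =>
    re _ (f1.wor h) (V.W.col_ne V.D_pos h f σ).symm
  have h : V.InF j L := fun n c _ x => x.not_rest (rs n (f1.bk.1 c))
  have h' : V.InF j L' := fun n c _ x => x.not_rest (rs n (sb.symm.in (f2.bk.1 c)))
  have o := k.FF (p := pz L (cond d i (i + 1))) (p' := pz L' (cond d' i' (i' + 1))) h h'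
    (fq_sb sb f1 f2 (o.imp_left fun o => o j j1 j2 j3 rs) (by cases d' <;> simp <;> omega))
  intro _ _
  rcases lt with ⟨rfl, lt⟩ | ⟨rfl, rfl⟩
  · cases d <;> exact k.serve ((k.toRs.ch_cut 0).app (k.toRs.ch_acc a))
      ((k.toRs.ch_cut 1).app (k.toRs.ch_acc a')) ne (fun g => by fin_cases g <;> simp)
      [.lt 1 3, .lt 3 0, .lt 0 2] [] (by decide +kernel)
      ⟨o, k.F_cut h' 0, k.cut_cut (g := 0) (g' := 1) lt⟩ trivial
  · exact k.serve ((k.toRs.ch_cut 0).app (k.toRs.ch_acc a))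
      ((k.toRs.ch_cut 1).app (k.toRs.ch_acc a')) ne (fun g => by fin_cases g <;> simp)
      [.lt 1 3, .lt 3 0, .lt 3 2] [(0, 2)] (by decide +kernel)
      ⟨o, k.F_cut h' 0, k.F_cut h' 1⟩ (k.cut_ne (g := 0) (g' := 1) (by decide))

/-- an entry label and the first label of a moat line: the port is at the entry -/
theorem mh (h : (V.F.tree (V.W.S.sn L f σ)).Mh (V.F.tree (V.W.S.sn L' f' σ')))
    (c : d = d' ∨ (d = true ∧ d' = false)) : V.W.Sv v w := by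
  obtain ⟨u, c0, k, k', a1, a2⟩ := h
  obtain ⟨c0, rfl⟩ : ∃ c', c0 = c' + 1 := ⟨c0 - 1, by simp⟩
  obtain ⟨rfl, n, e1⟩ := a.at.pos_hM V.D_pos a1
  obtain ⟨rfl, n', rfl⟩ := a'.at.pos_tE V.D_pos a2
  obtain rfl : L = V.W.prv (inr (n, k)) := (Equiv.eq_symm_apply _).2 e1
  have hn := V.W.in_prv (inr (n, k))
  obtain rfl : n = n' := (sb.in hn).unique (V.W.in_pay _)
  have cn : (V.F.tree n).col = c0 :=
    add_right_cancel ((Rc.col_lab hn f σ).symm.trans (Kl.col_val a1))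
  intro _ _
  refine fin a a' sb fg fg' ne (Or.inl fun j _ _ p re => ?_) (Kl.Pn.port a1 a2)
    (Or.inl ⟨c, bf_of a a' sb (by omega) (by omega) (by omega) (by omega) fun x => by
      have := a'.at.lz V.D_pos a.at x
      omega⟩)
  refine (Wd.prv_lt j _).trans_le (not_lt.1 fun x => ?_)
  rw [V.W.pos_mm, port_np (re n hn).1 fun o => Cut.not_ot (Or.inl (re n hn)) o.ot, p,
    show (V.F.tree n).ty.col = c0 from cn, Kl.pt_self, el_self] at x
  omega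

/-- the ports are at the end unless the labels fix a port -/
theorem fin' (o : Ref V g (fun _ => Fin.last r0) L L' ∨
      (L = L' ∧ cond d i (i + 1) < cond d' i' (i' + 1))) (h : ¬(i' = 2 * r + 9 ∧ i = 1))
    (c : d = d' ∨ (d = true ∧ d' = false))
    (c' : (V.F.tree (V.W.S.sn L f σ)).Bf (V.F.tree (V.W.S.sn L' f' σ')) ∨ (d = true ∧ d' = false ∧
      (V.F.tree (V.W.S.sn L' f' σ')).Bf (V.F.tree (V.W.S.sn L f σ)))) : V.W.Sv v w := by
  intro _ _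
  by_cases x : (V.F.tree (V.W.S.sn L f σ)).Mh (V.F.tree (V.W.S.sn L' f' σ'))
  · exact mh a a' sb fg fg' ne x c
  · exact fin a a' sb fg fg' ne o (.last x fun y => h (a'.at.mh V.D_pos a.at y))
      (c'.imp_left fun y => ⟨c, y⟩)

end

variable (hK : V.RowLK) (sb : V.W.SB L L') (fg : V.W.Fag V.grp g L) (fg' : V.W.Fag V.grp g L')
  (ne : v ≠ w)
include hK sb fg fg' ne

/-- the same direction -/
theorem same (a : V.W.S.Acc d v L i f σ) (a' : V.W.S.Acc d w L' i' f' σ')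
    (o : (L ≠ L' ∧ Ref V g (fun _ => Fin.last r0) L L') ∨ (L = L' ∧ i + 2 ≤ i'))
    (h1 : ¬(i = r + 4 ∧ i' = r + 5)) (h2 : ¬(i = 2 * r + 9 ∧ i' = 2 * r + 8))
    (h3 : ¬(i = 0 ∧ i' = 2 * r + 8)) (h4 : ¬(i' = 2 * r + 9 ∧ i = 1)) : V.W.Sv v w := by
  intro _ _
  by_cases x : (V.F.tree (V.W.S.sn L' f' σ')).Lz (V.F.tree (V.W.S.sn L f σ))
  · exact hK _ _ _ _ _ _ _ _ _ _ _ a a' sb x
  refine fin' a a' sb fg fg' ne (o.imp And.right (And.imp_right fun y => ?_)) h4 (Or.inl rfl)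
    (Or.inl (bf_of a a' sb (fun y => ?_) h1 h2 h3 x))
  · cases d <;> simp only [cond] <;> omega
  · have := (o.resolve_left fun z => z.1 y).2
    omega

omit hK sb fg fg' ne in
theorem Co.up (h : Co v L x) (c : x ≤ 2 * r + 8 ∨ (x = 2 * r + 9 ∧ V.W.S.Mo L)) :
    ∃ f σ, V.W.S.Acc true v L x f σ := by
  rcases h with ⟨rfl, rfl, z, rfl⟩ | ⟨k, a, rfl, rfl⟩
  · exact ⟨_, _, V.W.S.acc_sys z⟩
  · simpa only [← vz_val] using V.W.S.acc_up L ⟨k, by omega⟩ (c.imp_left Nat.lt_succ_of_le)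

omit hK sb fg fg' ne in
theorem Co.dn (h : Co v L (x + 2)) (c : 1 ≤ x ∨ ∃ z, L = inr z) :
    ∃ f σ, V.W.S.Acc false v L x f σ := by
  rcases h with ⟨h, -⟩ | ⟨k, a, h, rfl⟩
  · omega
  obtain rfl : k = x + 1 := by omega
  simpa only [← vz_val, Nat.add_sub_cancel] using V.W.S.acc_dn L ⟨x + 1, by omega⟩
    (by rcases Nat.eq_zero_or_pos x with rfl | d
        exacts [Or.inr ⟨rfl, c.resolve_left (by omega)⟩, Or.inl (by simp only; omega)])

omit hK sb fg fg' ne in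
theorem Co.le (h : Co v L x) : x ≤ 2 * r + 10 := by
  rcases h with ⟨h, -⟩ | ⟨k, a, h, -⟩ <;> omega

/-- **The point `v` comes first.** -/
theorem fst (h : Co v L x) (h' : Co w L' x')
    (o : (L ≠ L' ∧ Ref V g (fun _ => Fin.last r0) L L') ∨ (L = L' ∧ x + 2 ≤ x'))
    (c : (x ≤ 2 * r + 8 ∨ (x = 2 * r + 9 ∧ V.W.S.Mo L)) ∨ (3 ≤ x' ∨ (x' = 2 ∧ ∃ z, L' = inr z)))
    (c' : ¬(x = 0 ∧ x' = 2 * r + 10)) : V.W.Sv v w := by
  have := V.hr
  have := V.he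
  have l := h.le
  have l' := h'.le
  intro _ _
  by_cases u : x ≤ 2 * r + 8 ∨ (x = 2 * r + 9 ∧ V.W.S.Mo L)
  swap
  · have c2 := c.resolve_left u
    obtain ⟨x, rfl⟩ : ∃ y, x = y + 2 := ⟨x - 2, by omega⟩
    obtain ⟨x', rfl⟩ : ∃ y, x' = y + 2 := ⟨x' - 2, by omega⟩
    obtain ⟨_, _, a⟩ := h.dn (V := V) (by omega)
    obtain ⟨_, _, a'⟩ := h'.dn (V := V) (c2.imp (fun _ => by omega) And.right)
    exact same hK sb fg fg' ne a a' (o.imp_right (And.imp_right (by omega))) (by omega) (by omega)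
      (by omega) (by omega)
  obtain ⟨f, σ, a⟩ := h.up u
  have uu : x' ≤ 2 * r + 7 → ¬(x = r + 4 ∧ x' = r + 5) → V.W.Sv v w := fun y y' =>
    let ⟨_, _, a'⟩ := h'.up (V := V) (Or.inl (by omega))
    same hK sb fg fg' ne a a' o y' (by omega) (by omega) (by omega)
  by_cases u' : 3 ≤ x' ∨ (x' = 2 ∧ ∃ z, L' = inr z)
  swap
  · exact uu (by omega) (by omega)
  obtain ⟨x', rfl⟩ : ∃ y, x' = y + 2 := ⟨x' - 2, by omega⟩
  obtain ⟨f', σ', a'⟩ := h'.dn (V := V) (u'.imp (fun _ => by omega) And.right)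
  by_cases t : L = L' ∧ x = x'
  · obtain ⟨rfl, rfl⟩ := t
    by_cases z : x ≤ r + 5
    · exact uu (by omega) (by omega)
    obtain ⟨x, rfl⟩ : ∃ y, x = y + 2 := ⟨x - 2, by omega⟩
    obtain ⟨_, _, a⟩ := h.dn (V := V) (by omega)
    exact same hK sb fg fg' ne a a' (Or.inr ⟨rfl, le_rfl⟩) (by omega) (by omega) (by omega)
      (by omega)
  by_cases z : x' = 0
  · exact uu (by omega) (by omega)
  refine fin' a a' sb fg fg' ne (o.imp And.right (And.imp_right fun y => ?_)) (by omega)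
    (Or.inr ⟨rfl, rfl⟩) ((Kl.bf_or (mt (sb.tree V.D_pos a.at a'.at) t) ?_).imp_right
      fun y => ⟨rfl, rfl, y⟩)
  · simp only [cond]
    omega
  · rintro (y | y)
    · have := a.at.lz V.D_pos a'.at y
      omega
    · exact z (a'.at.lz V.D_pos a.at y).1

omit hK sb fg fg' ne

theorem co_of (a : V.W.S.Acc d v L i f σ) :
    (∃ n k, v = hv (inl (inr (n, k))) ∧ V.W.In L n) ∨ ∃ x, Co v L x := by
  rcases a.cases with ⟨-, z, c, h, -⟩ | ⟨-, ⟨n, k⟩, c, h, -⟩ | ⟨k, h, -⟩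
  exacts [Or.inr ⟨0, Or.inl ⟨rfl, h, z, c⟩⟩,
    Or.inl ⟨n, k, h, V.W.in_dA.1 (c ▸ V.W.in_pay (inr (n, k)))⟩,
    Or.inr ⟨_, Or.inr ⟨k, by omega, rfl, h.trans (vz_val L k).symm⟩⟩]

theorem Co.far (h : Co v L x) (h' : Co w L x') (k : V.Tsk v w) : x + 2 ≤ x' ∨ x' + 2 ≤ x := by
  have z : ∀ {v w x}, Co v L x → Co w L (x + 1) → (HL (2 * r + 9) V.W.S.hang).Adj v w := by
    rintro v w x h (⟨h', -⟩ | ⟨m', a', h', rfl⟩)
    · omega
    obtain rfl := Nat.succ_injective h'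
    rcases h with ⟨rfl, rfl, -⟩ | ⟨m, a, rfl, rfl⟩
    · exact Wd.adj_vz ((V.W.S.fit.tl _ _).2 (Or.inl rfl)) a'
    · exact ⟨rfl, Or.inl (by simp [Nat.mod_eq_of_lt (Nat.lt_succ_of_le a),
        Nat.mod_eq_of_lt (Nat.lt_succ_of_le a')])⟩
  by_contra c
  obtain rfl | rfl | rfl : x' = x ∨ x' = x + 1 ∨ x = x' + 1 := by omega
  · refine k.ne ?_
    rcases h with ⟨h, rfl, -⟩ | ⟨m, -, h, rfl⟩ <;> rcases h' with ⟨h', rfl, -⟩ | ⟨m', -, h', rfl⟩
    exacts [rfl, by omega, by omega, by rw [show m = m' by omega]]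
  exacts [k.na (z h h'), k.na (z h' h).symm]

/-- only an access down against only an access up -/
theorem du (hT : V.RowLT) (hS : V.RowLS) (sb : V.W.SB L L') (h : Co v L x) (h' : Co w L' x')
    (u : ¬(x ≤ 2 * r + 8 ∨ (x = 2 * r + 9 ∧ V.W.S.Mo L)))
    (u' : ¬(3 ≤ x' ∨ (x' = 2 ∧ ∃ z, L' = inr z))) (k : V.Tsk v w) : V.W.Sv v w := by
  have l := h.le
  intro _ _
  obtain ⟨x, rfl⟩ : ∃ y, x = y + 2 := ⟨x - 2, by omega⟩
  obtain ⟨_, _, a⟩ := h.dn (V := V) (by omega)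
  obtain rfl : v = vz L (x + 1) := by
    rcases h with ⟨h, -⟩ | ⟨m, -, h, rfl⟩
    exacts [by omega, by rw [show m = x + 1 by omega]]
  have o : V.DO (vz L (x + 1)) L := by
    obtain rfl | rfl : x = 2 * r + 8 ∨ x = 2 * r + 7 := by omega
    exacts [Or.inl rfl, Or.inr ⟨rfl, fun c => u (Or.inr ⟨rfl, c⟩)⟩]
  rcases h' with ⟨-, rfl, z, rfl⟩ | ⟨m, -, rfl, rfl⟩
  · exact hS z L _ _ sb o (Or.inl rfl) k
  rcases L' with (y | ⟨y, t⟩) | z
  · exact hT y L _ m (sb.symm.in (V.W.in_pay _)) o (by omega) k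
  · exact V.sv_lm' a.at (by omega) (by omega) (sb.symm.in (V.W.in_pay _)) t (by omega)
  · obtain rfl : m = 0 := by_contra fun c => u' (by simp; omega)
    exact hS z L _ _ sb o (Or.inr rfl) k

end Rl

open Rl in
/-- **Two points in one loop or in one payload block.** -/
theorem gb_of {V : Fw K N r r0 q D e b} (hE : V.RowLE) (hT : V.RowLT) (hS : V.RowLS)
    (hK : V.RowLK) : V.GB := by
  intro d v L i f σ d' w L' i' f' σ' a a' sb k _ _
  replace sb : V.W.SB L L' := sb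
  rcases co_of a with ⟨n, t, rfl, c⟩ | ⟨x, h⟩
  · exact hE n t _ _ _ _ _ _ a' (sb.in c) k
  rcases co_of a' with ⟨n, t, rfl, c⟩ | ⟨x', h'⟩
  · exact Wd.Sv.symm (hE n t _ _ _ _ _ _ a (sb.symm.in c) k.symm)
  by_cases c : (x ≤ 2 * r + 8 ∨ (x = 2 * r + 9 ∧ V.W.S.Mo L)) ∨
    (3 ≤ x' ∨ (x' = 2 ∧ ∃ z, L' = inr z))
  swap
  · exact du hT hS sb h h' (fun y => c (Or.inl y)) (fun y => c (Or.inr y)) k
  by_cases c' : (x' ≤ 2 * r + 8 ∨ (x' = 2 * r + 9 ∧ V.W.S.Mo L')) ∨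
    (3 ≤ x ∨ (x = 2 ∧ ∃ z, L = inr z))
  swap
  · exact Wd.Sv.symm (du hT hS sb.symm h' h (fun y => c' (Or.inl y)) (fun y => c' (Or.inr y)) k.symm)
  obtain ⟨g, fg⟩ := V.W.exists_grp V.grp [L, L'] (by simp)
  have f1 := fg L (by simp)
  have f2 := fg L' (by simp)
  have : ((L ≠ L' ∧ Rl.Ref V g (fun _ => Fin.last r0) L L') ∨ (L = L' ∧ x + 2 ≤ x')) ∨
      ((L' ≠ L ∧ Rl.Ref V g (fun _ => Fin.last r0) L' L) ∨ (L' = L ∧ x' + 2 ≤ x)) := by
    by_cases y : L = L'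
    · subst y
      exact (h.far h' k).imp (fun y => Or.inr ⟨rfl, y⟩) fun y => Or.inr ⟨rfl, y⟩
    · exact (ref_or sb f1 f2 y).imp (fun z => Or.inl ⟨y, z⟩) fun z => Or.inl ⟨Ne.symm y, z⟩
  rcases this with o | o
  exacts [Rl.fst hK sb f1 f2 k.ne h h' o c (by omega),
    Wd.Sv.symm (Rl.fst hK sb.symm f2 f1 k.ne.symm h' h o c' (by omega))]

end Fw

end Pool.Agent.P.MP_439f1f_co
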