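import Pool.Agent.P.MP_439f1f_co.Rl0
import Pool.Agent.P.MP_439f1f_co.Sv2

/-!
The start of a system line and the end of a line in another loop of the block.
-/

set_option autoImplicit false
set_option linter.unusedSectionVars false

namespace Pool.Agent.P.MP_439f1f_co

open Function SimpleGraph Sum

variable {K N : Type} {r r0 q D e b : ℕ} [DecidableEq K] [Finite K] [Finite N] [Nonempty K]

/-- **An access from above, then an access from below.** -/
theorem Fw.sv_ud (V : Fw K N r r0 q D e b) {v w : Vx K N (Pt K N) r r0}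
    {L L' : Hub K N (Pt K N) r0} {i i' : ℕ} {f f' : Bool} {σ σ' : Slot (r + 1)}
    (a : V.W.S.Acc true w L i f σ) (a' : V.W.S.Acc false v L' i' f' σ') (hi : i ≤ 2)
    (hs : ∃ z, L = inr z) (h1 : 2 * r + 6 ≤ i') (_h2 : i' ≤ 2 * r + 8)
    (sb : V.W.SB L L') (ne : V.W.lo L ≠ V.W.lo L')
    (nm : ∀ n, V.W.lo L = inl (inl n, 1) → V.W.lo L' ≠ inl (inl n, 0))
    (lz : ¬(V.F.tree (V.W.S.sn L f σ)).Lz (V.F.tree (V.W.S.sn L' f' σ'))) (vw : v ≠ w) :
    V.W.Sv v w := by
  have := V.hr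
  have := V.he
  obtain ⟨z, rfl⟩ := hs
  obtain rfl : f = false := a.at.half.2 (by omega)
  obtain rfl : f' = true := by
    have := a'.at.half
    cases f' <;> simp at this ⊢
    omega
  have t : (V.F.tree (V.W.S.sn (inr z) false σ)).1 = (HT.tS _ _ _, σ) := a.at.val V.D_pos
  have t' : (V.F.tree (V.W.S.sn L' true σ')).1 = _ := a'.at.val V.D_pos
  have hd := V.W.S.hd_typ L' true
  have sz : σ ≠ .Z := by
    rintro rfl
    have := a.at.pos_eq (V.W.S.lo_Z _) rfl
    omega
  have lx : V.F.lev _ = D := V.W.S.lev_sn V.D_pos (inr z) false σ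
  have ly : V.F.lev _ = D := V.W.S.lev_sn V.D_pos L' true σ'
  have cx : ∀ n, V.W.In (inr z) n → _ = (V.F.tree n).col + 1 := fun n h =>
    (V.W.S.col_sn V.D_pos (inr z) false σ).trans (V.W.col_in h false)
  have cy : ∀ n, V.W.In (inr z) n → _ = (V.F.tree n).col + 1 := fun n h =>
    (V.W.S.col_sn V.D_pos L' true σ').trans (V.W.col_in (sb.in h) true)
  have c1 := fun j l t (k : V.W.Rs (ι := Fin 2) j l t) => k.ch_acc a
  have c2 := fun j l t (k : V.W.Rs (ι := Fin 2) j l t) => k.ch_acc a'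
  have fx := fun j (h : V.W.Far j (inr z)) => h.sn V.D_pos false σ
  have fy := fun j (h : V.W.Far j L') => h.sn V.D_pos true σ'
  generalize V.W.S.sn (inr z) false σ = x at *
  generalize V.W.S.sn L' true σ' = y at *
  generalize V.W.S.typ L' true = T at *
  have xy : V.F.tree x ≠ V.F.tree y := fun c => by
    rw [c, t'] at t
    rw [(Prod.mk.inj t).1] at hd
    exact nomatch hd
  obtain ⟨dr, cd, sp, o⟩ := V.ord 2 ne nm fun n n' c c' d => absurd ((sb.in c).unique c') d
  obtain ⟨κ, hκ⟩ := Kl.exists_kap (V.F.tree x) (V.F.tree y)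
  obtain ⟨g, far⟩ := V.W.exists_grp V.grp [inr z, L'] (by simp)
  obtain ⟨j, s⟩ := V.exists_st g
    (Par.TA.two (π := { Par.base r r0 D with dr := dr, cd := cd, sp := sp, kap := κ }) rfl rfl
      (fun c => (hκ c).1) (by simp [Par.base]) (by simp [Par.base]) (by simp [Par.base]) xy
      (fun i _ => ⟨fun c => by cases i; exacts [(hκ c).2.1, (hκ c).2.2], Kl.Px.last,
        by simp [Par.base]⟩)
      fun _ _ => ⟨by
        refine ⟨xy, ?_, fun c => sz ((Kl.sl_val t).symm.trans c.2.1), ?_, fun c => c.elim lz ?_⟩ <;>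
          cases T <;> simp_all [Kl.Con, Kl.Mz, Kl.Lz, Kl.ty, HT.hd],
        Kl.Pn.last (by simp [Kl.Mh, t]) (by simp [Kl.Mh, t]), by simp [Par.base]⟩)
    [] (by simp) (by simp)
  have p := far (inr z) (by simp) j s.grp
  have p' := far L' (by simp) j s.grp
  have rx := s.role false (V.F.tree x) rfl (fx j p)
  have ry := s.role true (V.F.tree y) rfl (fy j p')
  have k := Rs.two
    ((s.liv (i := false) (T := V.F.tree x) rfl rx.1 rfl).run rfl (by rw [lx, V.od]) (V.F.surj x).1)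
    ((s.liv (i := true) (T := V.F.tree y) rfl ry.1 rfl).run rfl (by rw [ly, V.od]) (V.F.surj y).1)
    (Wd.On.tree_ne xy) rx ry
  have rs : ∀ n, V.W.In (inr z) n → V.Rest j (V.F.tree n) := fun n h =>
    s.rest_kind (p.wor h) fun a T c => Kl.kind_ne (by
      rcases Par.mt_tw c with ⟨_ | _, -, rfl⟩ | ⟨-, _, c, -⟩
      · exact (cx n h).trans_ne (Kl.col_ne_succ _).symm
      · exact (cy n h).trans_ne (Kl.col_ne_succ _).symm
      · exact nomatch c)
  have i1 : V.InF j (inr z) := fun n c _ d => d.not_rest (rs n (p.bk.1 c))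
  have i2 : V.InF j L' := fun n c _ d => d.not_rest (rs n (sb.symm.in (p'.bk.1 c)))
  intro _ _
  exact k.serve ((k.toRs.ch_cut 1).app (c2 _ _ _ k.toRs)) ((k.toRs.ch_cut 0).app (c1 _ _ _ k.toRs))
    vw (fun g => by fin_cases g <;> simp) [.lt 3 1, .lt 1 2, .lt 2 0] [] (by decide +kernel)
    ⟨k.FF i1 i2 (fq_lt (fr_lt.2 (o j p p' s.dr s.cd s.sp
      (fun n c => rs n (c.elim id sb.symm.in)) fun n n' c c' d => absurd ((sb.in c).unique c') d))),
      k.F_cut i2 0, k.II (k.inI_cut (g := 0) rx) (k.inI_cut (g := 1) ry) s.rook (by simp [Par.zi])⟩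
    trivial

end Pool.Agent.P.MP_439f1f_co
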