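import Pool.Agent.P.MP_439f1f_co.Dy5

/-!
The moat and the node of a block are ring neighbours; every ring has at least six ports.
-/

set_option autoImplicit false
set_option linter.unusedSectionVars false

namespace Pool.Agent.P.MP_439f1f_co

open Sum Function

/-- an orbit with six different points is long -/
theorem orbit_long {Y : Type} (f : Equiv.Perm Y) (y : Y) (p : Fin 6 → Y) (hp : Injective p)
    (h : ∀ q, ∃ n : ℕ, (f ^ n) y = p q) {k k' : ℕ} (hk : k < k') (hk' : k' < 6) :
    f^[k] y ≠ f^[k'] y := by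
  intro c
  obtain ⟨d, rfl⟩ := Nat.exists_eq_add_of_lt hk
  rw [add_assoc, iterate_add_apply] at c
  have per : IsPeriodicPt f (d + 1) y := (f.injective.iterate k c).symm
  choose n hn using h
  have a : ∀ q, f^[n q % (d + 1)] y = p q := fun q => by
    rw [per.iterate_mod_apply, Equiv.Perm.iterate_eq_pow, hn]
  have b : Injective fun q => (⟨n q % (d + 1), Nat.mod_lt _ d.succ_pos⟩ : Fin (d + 1)) :=
    fun q q' e => hp (by rw [← a, ← a, show n q % (d + 1) = n q' % (d + 1) from congrArg Fin.val e])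
  have := Fintype.card_le_of_injective _ b
  simp only [Fintype.card_fin] at this
  omega

/-- consecutive loops of a block -/
theorem Blk.nx_lay {P N K β : Type} [LinearOrder β] [DecidableEq K] [Finite N] [Finite K]
    (O : Blk P N K β) (i : K) (g : Bl N K) {a b : Fin 4} (h : (O.lay i g a : ℕ) + 1 = O.lay i g b) :
    O.rings.nx i (some (inl (g, a))) = some (inl (g, b)) := by
  refine O.rings.nx_eq rfl (O.key_ll.2 (Or.inr ⟨rfl, by omega⟩)) fun w _ => ?_
  simp only [Blk.rings_key, Blk.key, Prod.Lex.toLex_le_toLex, Blk.bo_l, Blk.rk_l]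
  rcases lt_trichotomy (O.kb i (Blk.bo (some w))) (O.kb i (some g)) with c | c | c
  exacts [Or.inl (Or.inl c), by simp only [c, lt_irrefl, false_or, true_and]; omega,
    Or.inr (Or.inl c)]

variable {K N : Type} {r r0 q D e b : ℕ} [DecidableEq K] [Finite K] [Finite N] [Nonempty K]

/-- every ring has at least six ports -/
theorem Wd.ring_long {β : Type} [LinearOrder β] (W : Wd K N β r r0 q D e b) (s : K) (y : Pt K N)
    {k k' : ℕ} (h : k < 6) (h' : k' < 6) (c : (W.S.O.nx s)^[k] y = (W.S.O.nx s)^[k'] y) :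
    k = k' := by
  obtain ⟨p, hp, a⟩ : ∃ p : Fin 6 → Pt K N, Injective p ∧ ∀ q, W.S.fam s y = W.S.fam s (p q) := by
    cases f : W.S.fam s y
    · obtain ⟨p, a1, a2⟩ := W.S.rng.pu
      exact ⟨p, a1, fun q => (a2 q s).1.symm⟩
    · obtain ⟨p, a1, a2⟩ := W.S.rng.pv s
      exact ⟨p, a1, fun q => (a2 q).1.symm⟩
  have o := fun q => W.S.rng.one s y (p q) (a q)
  rcases lt_trichotomy k k' with d | d | d
  exacts [absurd c (orbit_long _ y p hp o d h'), d, absurd c.symm (orbit_long _ y p hp o d h)]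

/-- the ports of the moat and of the node of a block are neighbours on their ring -/
theorem Fw.nx_moat (V : Fw K N r r0 q D e b) (s : K) (n : N) :
    V.W.S.O.nx s (some (inl (inl n, 0))) = some (inl (inl n, 1)) ∨
      V.W.S.O.nx s (some (inl (inl n, 1))) = some (inl (inl n, 0)) := by
  have k : ∀ s f, (blay s f 0 : ℕ) + 1 = blay s f 1 ∨ (blay s f 1 : ℕ) + 1 = blay s f 0 := by decide
  have a : (V.W.lay s (inl n) 0 : ℕ) + 1 = V.W.lay s (inl n) 1 ∨
      (V.W.lay s (inl n) 1 : ℕ) + 1 = V.W.lay s (inl n) 0 := by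
    by_cases h : V.Opn s n
    exacts [h.lay ▸ k _ _, Fw.lay_closed h ▸ k _ _]
  exact a.imp (V.W.B.nx_lay s (inl n)) (V.W.B.nx_lay s (inl n))

end Pool.Agent.P.MP_439f1f_co
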