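import Pool.Agent.P.MP_439f1f_co.Rl0

/-!
Two accesses in one direction whose tokens are the ends of a short run.
-/

set_option autoImplicit false
set_option linter.unusedSectionVars false

namespace Pool.Agent.P.MP_439f1f_co

open Function SimpleGraph Sum

variable {K N : Type} {r r0 q D e b : ℕ} [DecidableEq K] [Finite K] [Finite N] [Nonempty K]

/-- a head and the vertex after a tail, or the vertex before the last label and a hub -/
def Fw.LS2 (V : Fw K N r r0 q D e b) : Prop := ∀ (s : K) (z z' : Pt K N × Fin 3) v w,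
  V.W.SB (inr (s, z')) (V.W.S.O.sl s z) → V.W.S.fam s z.1 = V.W.S.fam s z'.1 →
  (v = vz (V.W.S.O.sl s z) (2 * r + 9) ∧ w = vz (inr (s, z')) 1) ∨
    (v = vz (V.W.S.O.sl s z) (2 * r + 7) ∧ w = hv (inr (s, z'))) → V.W.Sv v w

theorem Fw.rowLK_of (V : Fw K N r r0 q D e b) (h : V.LS2) (d : Bool) (v : Vx K N (Pt K N) r r0)
    (L : Hub K N (Pt K N) r0) (i : ℕ) (f : Bool) (σ : Slot (r + 1)) (w : Vx K N (Pt K N) r r0)
    (L' : Hub K N (Pt K N) r0) (i' : ℕ) (f' : Bool) (σ' : Slot (r + 1))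
    (a : V.W.S.Acc d v L i f σ) (a' : V.W.S.Acc d w L' i' f' σ') (sb : V.W.SB L L')
    (c : (V.F.tree (V.W.S.sn L' f' σ')).Lz (V.F.tree (V.W.S.sn L f σ))) : V.W.Sv v w := by
  obtain ⟨s, p, x, p', x', c1, c2, -⟩ := c
  obtain ⟨rfl, z', rfl⟩ := a'.at.pos_tS V.D_pos c1
  obtain ⟨rfl, z, g⟩ := a.at.pos_hS V.D_pos c2
  obtain ⟨b1, -⟩ := a'.at.of_val V.D_pos c1
  obtain ⟨b2, -⟩ := a.at.of_val V.D_pos c2
  obtain rfl := (Pre.typ_tS b1).1
  obtain rfl := (Pre.typ_hS b2).1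
  rw [Pre.typ, g] at b2
  obtain rfl := Mac.eq_sl _ |>.2 g
  intro _ _
  refine h s.1 z z' v w sb.symm
    ((congrArg Prod.snd (HT.hS.inj b2).1).trans (congrArg Prod.snd (HT.tS.inj b1).1).symm) ?_
  cases d
  · obtain ⟨-, ⟨-, k⟩ | ⟨k, rfl, u⟩⟩ := a
    · simp at k
    obtain ⟨-, ⟨-, k'⟩ | ⟨k', rfl, u'⟩⟩ := a'
    · simp at k'
    exact Or.inl ⟨by rw [← vz_val, ← show _ = (k : ℕ) from u], by
      rw [← vz_val, ← show _ = (k' : ℕ) from u']⟩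
  · obtain ⟨-, ⟨-, k⟩ | ⟨k, rfl, u⟩⟩ := a
    · simp at k
    obtain ⟨-, ⟨rfl, -⟩ | ⟨k', rfl, u'⟩⟩ := a'
    · exact Or.inr ⟨by rw [← vz_val, show (k : ℕ) = 2 * r + 7 by simpa using u], rfl⟩
    · simp at u'

end Pool.Agent.P.MP_439f1f_co
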