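import Pool.Agent.P.MP_439f1f_co.Rk1
import Pool.Agent.P.MP_439f1f_co.Rl1
import Pool.Agent.P.MP_439f1f_co.Rl6
import Pool.Agent.P.MP_439f1f_co.Rl7
import Pool.Agent.P.MP_439f1f_co.Rl9

/-!
The end of a line and the start of a system line in one block: the split into the tables.
-/

set_option autoImplicit false
set_option linter.unusedSectionVars false

namespace Pool.Agent.P.MP_439f1f_co

open Function SimpleGraph Sum Mu

theorem Mu.sx_ixt : ∀ (t : ZMod 4) (d a a' : Fin 3),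
    (sx (nw 0 d a' 0) + 12 - sx (nv 0 d a 5)) % 12 =
      (ixt (t + if (d : ℕ) = 1 then 1 else 0) a' - 1 -
        ixt (t + if (d : ℕ) = 2 then 1 else 0) a).val := by decide

variable {K N : Type} {r r0 q D e b : ℕ} [DecidableEq K] [Finite K] [Finite N] [Nonempty K]

/-- a system hub (`c = 7`) or a vertex on its line -/
noncomputable def wv (r : ℕ) (z : K × Pt K N × Fin 3) (c : ℕ) : Vx K N (Pt K N) r r0 :=
  if c = 7 then hv (inr z) else vz (inr z) (fc r c)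

namespace Wd

variable {β : Type} [LinearOrder β] {W : Wd K N β r r0 q D e b} {s : K} {y p p' : Pt K N}
  {a a' : Fin 3} {k c : ℕ}

theorem pt_back (n t : ℕ) : W.pt s ((W.S.O.nx s).symm^[n] y) (n + t) = W.pt s y t := by
  rw [pt, add_comm n, iterate_add_apply, pt]
  exact congrArg _ ((W.S.O.nx s).right_inv.iterate n y)

theorem vx_nv (h : c ≠ 7) : W.vx s y (k, a, c) = vz (W.S.O.sl s (W.pt s y k, a)) (fc r c) := by
  rw [vx, if_neg h, ln_sl (Nat.le_of_lt_succ a.2), Fin.ofNat_val_eq_self]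

theorem vx_nw : W.vx s y (k, if c = 7 then a else a + 1, c) = wv r (s, W.pt s y k, a) c := by
  by_cases h : c = 7 <;> simp [vx, wv, ln, h]

theorem port_eq (h : W.lo (inr (s, p, a)) = W.lo (inr (s, p', a')))
    (f : W.S.fam s p = W.S.fam s p') : p = p' := by
  rcases p with _ | y <;> rcases p' with _ | y'
  · rfl
  · obtain rfl : inl (inr (inl s), 0) = y' := h
    exact nomatch f
  · obtain rfl : y = inl (inr (inl s), 0) := h
    exact nomatch f
  · exact congrArg some h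

theorem port_pay {n : N} {i : Fin 4} (h : W.lo (inr (s, p, a)) = inl (inl n, i)) :
    p = some (inl (inl n, i)) := by
  rcases p with _ | y
  exacts [by simp at h, congrArg some h]

end Wd

namespace Fw

variable (V : Fw K N r r0 q D e b)

/-- two vertices of one system -/
def TabA : Prop := ∀ s y x x' op, chkS x x' op = true → V.W.vx s y x ≠ V.W.vx s y x' →
  V.W.Sv (V.W.vx s y x) (V.W.vx s y x')

/-- a vertex of a system and the end of another line -/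
def TabB : Prop := ∀ s y x op, chkG x op = true → ∀ v L i f σ, V.W.S.Acc false v L i f σ →
  2 * r + 6 ≤ i → i ≤ 2 * r + 8 → V.W.SB (V.W.ln s y 2 1) L →
  (∀ z, V.W.S.O.dA L = inr (s, z) → V.W.S.fam s z.1 ≠ V.W.S.fam s y) → v ≠ V.W.vx s y x →
  V.W.Sv v (V.W.vx s y x)

variable {V} {s : K} {p p' : Pt K N} {a a' : Fin 3} {c c' : ℕ} {T : List (List ℕ)}

/-- equal or neighbouring ports -/
theorem sv_near (hA : V.TabA) (h : chkT c c' T = true) (hc : c ≠ 7)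
    (n : p' = p ∨ p' = V.W.S.O.nx s p ∨ p = V.W.S.O.nx s p')
    (ne : vz (V.W.S.O.sl s (p, a)) (fc r c) ≠ wv r (s, p', a') c')
    (k : c = 6 → c' = 7 → V.Tsk (vz (V.W.S.O.sl s (p, a)) (2 * r + 9)) (hv (inr (s, p', a')))) :
    V.W.Sv (vz (V.W.S.O.sl s (p, a)) (fc r c)) (wv r (s, p', a') c') := by
  obtain ⟨d, y, rfl, rfl⟩ : ∃ (d : Fin 3) (y : _),
      p = V.W.pt s y (if (d : ℕ) = 2 then 1 else 0) ∧
      p' = V.W.pt s y (if (d : ℕ) = 1 then 1 else 0) := by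
    rcases n with n | n | n
    exacts [⟨0, p, rfl, n⟩, ⟨1, p, rfl, n⟩, ⟨2, p', n, rfl⟩]
  have t : ∀ (x : Prop) [Decidable x], V.W.S.tag s (V.W.pt s y (if x then 1 else 0)) =
      V.W.S.tag s y + if x then 1 else 0 := fun x _ => by
    split_ifs
    exacts [V.W.S.tagn s y, (add_zero _).symm]
  have f : ∀ (x : Prop) [Decidable x], V.W.S.fam s (V.W.pt s y (if x then 1 else 0)) =
      V.W.S.fam s y := fun x _ => by
    split_ifs
    exacts [V.W.S.rng.famn s y, rfl]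
  obtain ⟨n, op, ok⟩ := chkT_ok h d.2 a.2 a'.2 (by
    rintro ⟨rfl, rfl, ⟨g, g'⟩ | g⟩
    · obtain rfl := Fin.ext g'
      refine (k rfl rfl).na (Wd.adj_vz ((V.W.S.fit.hs _ _ _).2 (Or.inl ?_)) le_rfl).symm
      simp [g]
    · have := (k rfl rfl).own _ _ (s, V.W.S.fam s y) _ _ _ _
        (by rw [Pre.typ, Pre.tt, f]) (by rw [Pre.typ, Mac.dA_sl, Pre.ht, f]) (Or.inr ⟨rfl, rfl⟩)
      simp only [Pre.idx, t, ← Mu.sx_ixt] at this
      omega)
  have := hA s ((V.W.S.O.nx s).symm^[n] y) _ _ op ok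
  simp only [nv, nw, Wd.vx_nv hc, Wd.vx_nw, Wd.pt_back] at this
  intro _ _
  exact this ne

theorem acc_wv (z : K × Pt K N × Fin 3) (h : c' = 7 ∨ c' ≤ 1) : ∃ i f σ,
    V.W.S.Acc true (wv r z c') (inr z) i f σ ∧ i ≤ 2 ∧ (i = 0 → c' = 7) := by
  rcases h with rfl | h
  · exact ⟨_, _, _, V.W.S.acc_sys z, by omega, fun _ => rfl⟩
  · obtain ⟨f, σ, g⟩ := V.W.S.acc_up (inr z) ⟨c', by omega⟩ (Or.inl (by simp only; omega))
    refine ⟨c' + 1, f, σ, ?_, by omega, by omega⟩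
    rwa [wv, if_neg (by omega), fc, if_pos (by omega), ← vz_val] at *

theorem acc_end (L : Hub K N (Pt K N) r0) (h : 4 ≤ c) (h' : c ≤ 6) :
    ∃ f σ, V.W.S.Acc false (vz L (fc r c)) L (2 * r + 2 + c) f σ := by
  obtain ⟨f, σ, g⟩ := V.W.S.acc_dn L ⟨2 * r + 3 + c, by omega⟩ (Or.inl (by simp only; omega))
  refine ⟨f, σ, ?_⟩
  rw [← vz_val] at g
  rw [fc, if_neg (by omega), show 2 * r + 2 + c = 2 * r + 3 + c - 1 by omega]
  exact g

/-- both lines belong to one ring of one system -/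
theorem sv_fam (hA : V.TabA) (h : chkT c c' T = true) (h1 : 4 ≤ c) (h2 : c ≤ 6)
    (h3 : c' = 7 ∨ c' ≤ 1) (sb : V.W.SB (inr (s, p', a')) (V.W.S.O.sl s (p, a)))
    (fm : V.W.S.fam s p = V.W.S.fam s p')
    (ne : vz (V.W.S.O.sl s (p, a)) (fc r c) ≠ wv r (s, p', a') c')
    (k : c = 6 → c' = 7 → V.Tsk (vz (V.W.S.O.sl s (p, a)) (2 * r + 9)) (hv (inr (s, p', a')))) :
    V.W.Sv (vz (V.W.S.O.sl s (p, a)) (fc r c)) (wv r (s, p', a') c') := by
  have l : V.W.lo (V.W.S.O.sl s (p, a)) = V.W.lo (inr (s, p, a)) := V.W.lo_dA_symm _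
  intro _ _
  by_cases x : V.W.lo (inr (s, p', a')) = V.W.lo (V.W.S.O.sl s (p, a))
  · exact sv_near hA h (by omega) (Or.inl (Wd.port_eq (x.trans l) fm.symm)) ne k
  by_cases x' : ∃ n, V.W.lo (inr (s, p', a')) = inl (inl n, 1) ∧
    V.W.lo (V.W.S.O.sl s (p, a)) = inl (inl n, 0)
  · obtain ⟨n, g, g'⟩ := x'
    refine sv_near hA h (by omega) (Or.inr ?_) ne k
    rw [Wd.port_pay g, Wd.port_pay (l.symm.trans g')]
    exact (V.nx_moat s n).imp Eq.symm Eq.symm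
  obtain ⟨i, f, σ, g, hi, hi'⟩ := acc_wv (V := V) (s, p', a') h3
  obtain ⟨f', σ', g'⟩ := acc_end (V := V) (V.W.S.O.sl s (p, a)) h1 h2
  refine V.sv_ud g g' hi ⟨_, rfl⟩ (by omega) (by omega) sb x (fun n y y' => x' ⟨n, y, y'⟩)
    (fun y => ?_) ne
  have := g.at.lz V.D_pos g'.at y
  obtain ⟨u, t, m, t', m', b1, b2, b3⟩ := y
  have d1 := (g.at.of_val V.D_pos b1).1
  have d2 := (g'.at.of_val V.D_pos b2).1
  obtain rfl := (Pre.typ_tS d1).1
  obtain rfl := (Pre.typ_hS d2).1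
  exact ((k (by omega) (hi' this.1)).own _ _ _ _ _ _ _ d1 d2 (Or.inr ⟨rfl, rfl⟩)).not_gt b3

/-- **The rows with a short run.** -/
theorem ls2_of (hA : V.TabA) : V.LS2 := by
  rintro s ⟨p, a⟩ ⟨p', a'⟩ v w sb fm (⟨rfl, rfl⟩ | ⟨rfl, rfl⟩) _ _
  · refine sv_fam hA tab61 (by omega) le_rfl (by omega) sb fm (fun x => ?_) (by omega)
    simpa [Nat.mod_eq_of_lt, fc] using congrArg Fin.val (Prod.ext_iff.1 (inr.inj x)).2
  · exact sv_fam hA tab47 le_rfl (by omega) (by omega) sb fm (fun x => nomatch x) (by omega)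

/-- **The end of a line and the hub or the tail of a system line.** -/
theorem rowLS_of (hA : V.TabA) (hB : V.TabB) : V.RowLS := by
  rintro ⟨s, p', a'⟩ L v w sb o hw k _ _
  obtain ⟨c, h1, h2, rfl⟩ : ∃ c, 5 ≤ c ∧ c ≤ 6 ∧ v = vz L (fc r c) :=
    o.elim (fun x => ⟨6, by omega, le_rfl, x⟩) fun x => ⟨5, le_rfl, by omega, x.1⟩
  obtain ⟨c', h3, rfl⟩ : ∃ c', (c' = 7 ∨ c' = 0) ∧ w = wv r (s, p', a') c' :=
    hw.elim (fun x => ⟨7, Or.inl rfl, x⟩) fun x => ⟨0, Or.inr rfl, x⟩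
  by_cases x : ∃ z, V.W.S.O.dA L = inr (s, z) ∧ V.W.S.fam s z.1 = V.W.S.fam s p'
  · obtain ⟨⟨p, a⟩, x, fm⟩ := x
    obtain rfl := (Mac.eq_sl _).2 x
    obtain ⟨T, h⟩ : ∃ T, chkT c c' T = true := by
      obtain rfl | rfl : c = 5 ∨ c = 6 := by omega
      all_goals rcases h3 with rfl | rfl
      exacts [⟨_, tab57⟩, ⟨_, tab50⟩, ⟨_, tab67⟩, ⟨_, tab60⟩]
    refine sv_fam hA h (by omega) h2 (by omega) sb.symm fm k.ne ?_
    rintro rfl rfl
    exact k
  obtain ⟨op, ok⟩ : ∃ op, chkG (2, if c' = 7 then a' else a' + 1, c') op = true := by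
    have := List.all_eq_true.1 tabG a' (List.mem_range.2 a'.2)
    rw [Bool.and_eq_true] at this
    rcases h3 with rfl | rfl
    exacts [⟨_, this.1⟩, ⟨_, this.2⟩]
  obtain ⟨f, σ, g⟩ := acc_end (V := V) L (le_trans (by omega) h1) h2
  obtain ⟨y0, t⟩ : ∃ y0, V.W.pt s y0 2 = p' := ⟨_, Wd.pt_back 2 0⟩
  have := hB s y0 _ op ok _ L _ f σ g (by omega) (by omega)
    (by rw [Wd.ln, t]
        exact .trans (Or.inl (by rcases p' with _ | y <;> rfl)) sb.symm)
    fun z y y' => x ⟨z, y, y'.trans (by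
      rw [← t, Wd.pt_succ, Wd.pt_succ, V.W.S.rng.famn, V.W.S.rng.famn]; rfl)⟩
  rw [Wd.vx_nw, t] at this
  exact this k.ne

end Fw

end Pool.Agent.P.MP_439f1f_co
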