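import Pool.Agent.P.MP_439f1f_co.Ro2
import Pool.Agent.P.MP_439f1f_co.Dy6
import Pool.Agent.P.MP_439f1f_co.Top0

/-!
The cold pairs are served in the state of their own system.
-/

set_option autoImplicit false
set_option linter.unusedSectionVars false

namespace Pool.Agent.P.MP_439f1f_co

open Function SimpleGraph Sum

variable {K N β : Type} [DecidableEq K] [LinearOrder β] {r r0 q D e b : ℕ}
  [Finite K] [Finite N] [Nonempty K]

namespace Wd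

variable {W : Wd K N β r r0 q D e b} {j : K} {X : N → Prop} {z : N} {f : Bool}

/-- the ports of a ring are visited in the order of the ring -/
theorem ring_cyc (j : K) (f : Bool) (X : N → Prop) :
    Cyc {y | W.S.fam j y = f} (W.S.O.nx j) fun y => W.ro j X (inr (j, y, 2)) := by
  have a : Cyc {y | W.S.fam j y = f} (W.S.O.nx j) (W.B.rings.uk j) := by
    refine (W.B.rings.hnx j f).ofLt ?_
    rintro (_ | u) hu (_ | v) hv
    · simp
    · simp [Rings.uk_ns, W.B.rings.ak_B (hv.trans hu.symm)]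
    · simp [Rings.uk_sn, W.B.rings.ak_B (hu.trans hv.symm)]
    · simpa using W.B.rings.uk_same (hu.trans hv.symm)
  have c : Cyc {y | W.S.fam j y = f} (W.S.O.nx j) fun y => W.pos j (inr (j, y, 2)) :=
    a.ofLt fun u _ v _ => ⟨fun d => lt_of_le_of_ne
      (by simpa using W.B.rings.uk_le_of_pos d.le) fun g => d.ne (by rw [W.B.rings.uk_inj j g]),
      fun d => W.B.rings.pos_lt_of_uk (by simpa using d)⟩
  exact c.rhD (H := fun y => ∀ v, X v → W.pos j (nl v) < W.pos j (inr (j, y, 2)))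
    fun _ _ h c v d => (h v d).trans_le c

theorem le_of_lt_nxt {L L' : Hub K N (Pt K N) r0} (h : W.ro j X L < W.ro j X (W.S.O.nxt j L')) :
    W.ro j X L ≤ W.ro j X L' :=
  not_lt.1 fun c => (nxt_ro c).not_gt h

/-- **A head and a hub of one system.** -/
theorem sv_sys (hz : X z) (oy : ∀ x : Pt K N × Fin 3, W.S.fam j x.1 = f → W.Oy j X x)
    (pf : ∀ x y : Pt K N × Fin 3, W.S.fam j x.1 = f → W.S.fam j y.1 = f →
      (∀ d < 4, W.S.idx j x ≠ W.S.idx j y + (d + 1 : ℕ)) → W.PF j X (W.zl j x) (W.la j (W.nb j y)))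
    (jf : ∀ x y : Pt K N × Fin 3, W.S.fam j x.1 = f → W.S.fam j y.1 = f →
      W.S.idx j x = W.S.idx j y + 1 → x.2 ≠ 2 → W.JF j X (W.zl j x) (W.la j (W.nb j y)))
    {x y : Pt K N × Fin 3} (hx : W.S.fam j x.1 = f) (hy : W.S.fam j y.1 = f) (ne : x ≠ y)
    (c : (W.S.idx j y - W.S.idx j x).val < 4) : W.Sv (W.hd j x) (hv (inr (j, W.nb j y))) := by
  intro _ _
  have fb : ∀ {x : Pt K N × Fin 3}, W.S.fam j x.1 = f → W.S.fam j (W.nb j x).1 = f :=
    fun {x} h => (W.B.fo_bt j x).trans h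
  have fs : ∀ {x : Pt K N × Fin 3}, W.S.fam j x.1 = f → W.S.fam j ((W.nb j).symm x).1 = f :=
    fun {x} h => (W.B.fo_bt j _).symm.trans (by rwa [← (W.nb j).apply_symm_apply x] at h)
  have fn : ∀ {u}, W.S.fam j u = f → W.S.fam j (W.S.O.nx j u) = f :=
    fun {u} h => (W.B.rings.fo_nx j u).trans h
  have fp : ∀ {u}, W.S.fam j u = f → W.S.fam j ((W.S.O.nx j).symm u) = f :=
    fun {u} h => (W.B.rings.fo_nx_symm j u).trans h
  have n0 : ∀ u, W.S.O.nxt j (W.S.O.sl j ((W.S.O.nx j).symm u, 0)) = W.S.O.sl j (W.S.O.nx j u, 2) :=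
    fun u => by simp [Mac.nxt_hot]
  have n2 : ∀ u, W.S.O.nxt j (W.S.O.sl j (u, 2)) = W.S.O.sl j (u, 1) := fun u => W.S.O.nxt_hot ..
  have n1 : ∀ u, W.S.O.nxt j (W.S.O.sl j (W.S.O.nx j u, 1)) = inr (j, u, 2) :=
    fun u => by rw [Mac.nxt_hot]; simp
  have inj : ∀ {L L'}, W.ro j X L ≤ W.ro j X L' → L ≠ L' → W.ro j X L < W.ro j X L' :=
    fun c d => c.lt_of_ne fun g => d ((W.ro_cyc j X).inj trivial trivial g)
  have ib := W.S.idx_bt j
  rcases six_rows (ν := W.nu j X) (ring_cyc j f X) (fun _ => fp) (W.S.tagn j)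
    (fun u hu => ⟨((oy (_, 0) (fp hu)).1.nxt hz).trans_eq (congrArg _ (n0 u)),
      ((oy (_, 2) (fn hu)).1.nxt hz).trans_eq (congrArg _ (n2 _))⟩)
    (fun u hu v _ d => (n1 u ▸ (oy (_, 1) (fn hu)).1.nxt hz).trans_le (le_of_lt_nxt (n0 v ▸
      inj (le_of_lt_nxt (n2 _ ▸ inj (le_of_lt_nxt (n1 v ▸ d)) (by simp))) (by simp))))
    hx hy ne c with o | ⟨o, ⟨g, o1 | o1⟩ | ⟨g, t, o1, o2⟩ | ⟨g, ⟨t, o1, o2⟩ | ⟨t, o1, o2⟩⟩⟩
  · exact (pf x y hx hy ((by decide : ∀ s t : ZMod 12, (t - s).val < 4 →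
      ∀ d < 4, s ≠ t + (d + 1 : ℕ)) _ _ c)).r00 (oy _ hx) (oy _ (fb hy)) o
  · exact (pf _ y (fb hx) hy (ib x ▸ (by decide : ∀ s t : ZMod 12, (t - s).val < 4 → t ≠ s →
      ∀ d < 4, s + 1 ≠ t + (d + 1 : ℕ)) _ _ c g)).r10 (oy _ hx) (oy _ (fb hx)) (oy _ hy)
        (oy _ (fb hy)) o1 o
  · obtain ⟨y, rfl⟩ := (W.nb j).surjective y
    have hy' := fs hy
    rw [Equiv.symm_apply_apply] at o1 hy'
    exact (pf x y hx hy' ((by decide : ∀ s t : ZMod 12, (t + 1 - s).val < 4 → t + 1 ≠ s →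
      ∀ d < 4, s ≠ t + (d + 1 : ℕ)) _ _ (ib y ▸ c) (ib y ▸ g))).r01 (oy _ hx) (oy _ hy) o1 o
  · obtain ⟨y, rfl⟩ := (W.nb j).surjective y
    obtain ⟨y, rfl⟩ := (W.nb j).surjective y
    have hy' := fs (fs hy)
    simp only [Equiv.symm_apply_apply] at o1 o2 hy'
    exact (jf x y hx hy' (add_right_cancel (g.symm.trans ((ib _).trans (by rw [ib]))))
      (by simp [t])).r02 (oy _ hx) (oy _ hy') (oy _ (fb hy')) (oy _ hy) o o1 o2
  · refine (jf _ y (fb hx) hy ((ib x).trans (congrArg (· + 1) g.symm)) ?_).r10 (oy _ hx)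
      (oy _ (fb hx)) (oy _ hy) (oy _ (fb hy)) o1 o2
    obtain ⟨u, i⟩ := x
    fin_cases i <;> simp at t ⊢
  · obtain ⟨y, rfl⟩ := (W.nb j).surjective y
    have hy' := fs hy
    rw [Equiv.symm_apply_apply] at o1 o2 hy'
    exact (jf x y hx hy' (g.symm.trans (ib y)) (by simp [t])).r01 (oy _ hx) (oy _ hy') (oy _ hy)
      o1 o2

end Wd

namespace Fw

variable {V : Fw K N r r0 q D e b} {j : K} {f : Bool} {p p' : ZMod 12} {c c' : ZMod 3}
  {a z : N} {x y : Pt K N × Fin 3}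

/-- **No common window.** -/
theorem pf_cld (ha : V.IsZ j f p c a) (la : V.F.lev a = D) (hz : V.IsL j f p' c' z)
    (lz : V.F.lev z = D) (h : ∀ d < 4, p ≠ p' + (d + 1 : ℕ)) :
    V.W.PF j (fun n => V.W.S.wor n = (j, f)) a z := by
  have wo : ∀ v, V.F.Anc v a ∨ V.F.Anc v z → V.W.S.wor v = (j, f) := fun v d =>
    d.elim (fun d => (ha.of_tree d.tree).wor) fun d => (hz.of_tree d.tree).wor
  refine Wd.pf_of V.od la lz (ha.tree_ne hz) wo (Sw.nl_lt.2 (lt_of_zo_fz ha.wor hz.wor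
    (by rw [ha.zo_lab la, hz.zo_lab lz]; omega))) ?_
  rintro t ⟨o, l, k⟩
  rw [W_F] at o l k
  have g := V.F.lev_kid l
  have ps : V.W.Pass j t → _ ∧ ∀ v, V.F.Anc v a ∨ V.F.Anc v z → _ → _ → v = t ∨ v = V.F.kid t :=
    fun k => ⟨k.lt, fun v _ a1 a2 => (k.btw (nl v) a1 a2).imp (fun i => (Wd.bk_nl.1 i).symm)
      fun i => (Wd.bk_nl.1 i).symm⟩
  have eq : ∀ {x v}, V.F.Anc t x → V.F.Anc (V.F.kid t) x → V.F.Anc v x →
      V.F.lev v = V.F.lev t ∨ V.F.lev v = V.F.lev t + 1 → v = t ∨ v = V.F.kid t :=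
    fun a1 a2 a3 => Or.imp (fun i => (a3.of_le a1 i.le).eq i.ge)
      fun i => (a3.of_le a2 (by omega)).eq (by omega)
  have wZ : ∀ {v w s}, V.F.Anc v a → (V.L j).wn v = some (w, s) → ∃ d < 4, ∃ (u : ZMod 3)
      (i : Fin 2), V.F.lev v = 7 + 2 * (3 * d + u.val) + i ∧ w = wno p d c u := fun {v w s} d w1 => by
    rw [(ha.of_tree d.tree).wn] at w1
    have := (winZ_none p c (l := V.F.lev v)).not.1 (by simp [w1])
    obtain ⟨d, d1, u, i, d2⟩ := exists_levZ (l := V.F.lev v) (by omega) (by omega)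
    rw [d2, winZ_eq _ _ _ d1, Option.some_inj, Prod.mk.injEq] at w1
    exact ⟨d, d1, u, i, d2, w1.1.symm⟩
  have wL : ∀ {v w s}, V.F.Anc v z → (V.L j).wn v = some (w, s) → ∃ d < 4, ∃ (u : ZMod 3)
      (i : Fin 4), V.F.lev v = 7 + 4 * (3 * d + u.val) + i ∧ w = wno (p' + (d + 1 : ℕ)) d u c' ∧
        s = offL (p' + (d + 1 : ℕ)) d i := fun {v w s} d w1 => by
    rw [(hz.of_tree d.tree).wn] at w1
    have := (winL_none p' c' (l := V.F.lev v)).not.1 (by simp [w1])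
    obtain ⟨d, d1, u, i, d2⟩ := exists_levL (l := V.F.lev v) (by omega) (by omega)
    rw [d2, winL_eq _ _ _ d1, Option.some_inj, Prod.mk.injEq] at w1
    exact ⟨d, d1, u, i, d2, w1.1.symm, w1.2.symm⟩
  have wn : ∀ {w s s'}, V.F.Anc t a ∨ V.F.Anc t z → V.F.Anc (V.F.kid t) a ∨ V.F.Anc (V.F.kid t) z →
      (V.L j).wn t = some (w, s) → (V.L j).wn (V.F.kid t) = some (w, s') → s < s' →
      (∀ v s1, V.F.Anc v a ∨ V.F.Anc v z → (V.L j).wn v = some (w, s1) → s ≤ s1 → s1 ≤ s' →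
        v = t ∨ v = V.F.kid t) → V.W.pos j (nl t) < V.W.pos j (nl (V.F.kid t)) ∧
      ∀ v, V.F.Anc v a ∨ V.F.Anc v z → V.W.pos j (nl t) ≤ V.W.pos j (nl v) →
        V.W.pos j (nl v) ≤ V.W.pos j (nl (V.F.kid t)) → v = t ∨ v = V.F.kid t :=
    fun {w s s'} a1 a2 w1 w2 lt k => by
      have g1 := (gr_wor (wo _ a1)).trans (gr_wor (wo _ a2)).symm
      have z0 : ∀ {y}, (V.L j).wn y ≠ none → ((V.L j).dt y).zw = 0 :=
        fun h => (own_of_wn h).zw.1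
      have g2 := (z0 (y := t) (by simp [w1])).trans (z0 (y := V.F.kid t) (by simp [w2])).symm
      refine ⟨Sw.nl_lt.2 ((Lay.win_lt w1 w2 g1 g2).2 (Or.inr ⟨rfl, Or.inl lt⟩)),
        fun v a0 b1 b2 => ?_⟩
      obtain ⟨-, -, w3, s1, b3, b4, b5⟩ :=
        Lay.win_between w1 w2 g1 g2 (Sw.nl_le.1 b1) (Sw.nl_le.1 b2)
      obtain rfl : w3 = w := by omega
      exact k v s1 a0 b3 (by omega) (by omega)
  rcases k with ⟨k, -⟩ | ⟨k, -⟩
  · have k' := k.kid o fun i => l.ne (i ▸ la)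
    by_cases w : V.F.lev t < 6 ∨ 31 ≤ V.F.lev t
    · exact ps ((ha.of_tree k.tree).pass o l w)
    obtain ⟨d, d1, u, i, d2⟩ := exists_levZ (l := V.F.lev t) (by omega) (by omega)
    obtain rfl : i = 0 := by omega
    refine wn (Or.inl k) (Or.inl k') (by rw [(ha.of_tree k.tree).wn, d2, winZ_eq _ _ _ d1])
      (by rw [(ha.of_tree k'.tree).wn, g, d2]; exact winZ_eq p c u d1 1)
      (by unfold offZ; split_ifs <;> decide) ?_
    rintro v s (a0 | a0) w1 - -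
    · obtain ⟨d', e1, u', i', e2, e3⟩ := wZ a0 w1
      obtain ⟨-, rfl, -, rfl⟩ := wno_inj d1 e1 e3
      exact eq k k' a0 (by omega)
    · obtain ⟨d', e1, u', i', -, e3, -⟩ := wL a0 w1
      exact absurd (wno_inj d1 e1 e3).1 (h _ e1)
  · have k' := k.kid o fun i => l.ne (i ▸ lz)
    by_cases w : V.F.lev t < 6 ∨ 55 ≤ V.F.lev t
    · exact ps ((hz.of_tree k.tree).own.pass o l w)
    obtain ⟨d, d1, u, i, d2⟩ := exists_levL (l := V.F.lev t) (by omega) (by omega)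
    have i0 : i = 0 ∨ i = 2 := by omega
    have i1 : ((i + 1 : Fin 4) : ℕ) = i + 1 := by rcases i0 with rfl | rfl <;> rfl
    have of : offL (p' + (d + 1 : ℕ)) d i < offL (p' + (d + 1 : ℕ)) d (i + 1) ∧
        ∀ i', offL (p' + (d + 1 : ℕ)) d i ≤ offL (p' + (d + 1 : ℕ)) d i' →
          offL (p' + (d + 1 : ℕ)) d i' ≤ offL (p' + (d + 1 : ℕ)) d (i + 1) →
            i' = i ∨ i' = i + 1 := by
      unfold offL
      rcases i0 with rfl | rfl <;> split_ifs <;> decide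
    refine wn (Or.inr k) (Or.inr k') (by rw [(hz.of_tree k.tree).wn, d2, winL_eq _ _ _ d1])
      (by rw [(hz.of_tree k'.tree).wn, g, d2, add_assoc, ← i1, winL_eq _ _ _ d1]) of.1 ?_
    rintro v s (a0 | a0) w1 b1 b2
    · obtain ⟨d', e1, u', i', -, e3⟩ := wZ a0 w1
      exact absurd (wno_inj d1 e1 e3).1.symm (h _ d1)
    · obtain ⟨d', e1, u', i', e2, e3, rfl⟩ := wL a0 w1
      obtain ⟨-, rfl, rfl, -⟩ := wno_inj d1 e1 e3
      have := of.2 i' b1 b2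
      exact eq k k' a0 (by omega)

/-- **A swapping window.** -/
theorem jf_cld (ha : V.IsZ j f (p + 1) c a) (la : V.F.lev a = D) (hz : V.IsL j f p c' z)
    (lz : V.F.lev z = D) (s : (p.val + 1) % 3 ≠ 2) :
    V.W.JF j (fun n => V.W.S.wor n = (j, f)) a z := by
  have H : V.Hw j f p 0 c c' a z :=
    ⟨by rw [Nat.zero_add, Nat.cast_one]; exact ha, hz, la, lz, by omega⟩
  have := V.hD
  have := ZMod.val_lt c
  have := ZMod.val_lt c'
  obtain ⟨o1, w1, g1⟩ := H.cell_a rfl (t := 0) (by omega)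
  obtain ⟨o2, w2, g2⟩ := H.cell_c rfl (t := 0) (by omega)
  obtain ⟨o3, w3, g3⟩ := H.cell_a rfl (t := 1) (by omega)
  obtain ⟨o4, w4, g4⟩ := H.cell_c rfl (t := 1) (by omega)
  have a1 := (H.an H.la (l := 7 + 2 * c'.val) (by omega) (by omega)).1
  have a2 := (H.an H.lc (l := 7 + 4 * c.val) (by omega) (by omega)).1
  have a3 := (H.an H.la (l := 7 + 2 * c'.val + 1) (by omega) (by omega)).1
  have a4 := (H.an H.lc (l := 7 + 4 * c.val + 1) (by omega) (by omega)).1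
  exact Wd.jf_of (W := V.W) V.od la lz H.tr (fun _ => H.wor) (by omega) (by omega) (by omega)
    (by omega) (H.lt (Or.inl a1) (Or.inr a2) w1 w2 rfl (by omega))
    (H.lt (Or.inr a2) (Or.inl a3) w2 w3 rfl (by omega))
    (H.lt (Or.inl a3) (Or.inr a4) w3 w4 rfl (by omega))
    (H.lab_lt.2 _ (Or.inr a4) (w4.trans_ne (by simp))) H.lab_lt.1 fun t => H.adj rfl s

theorem isZ_zl (h : V.W.S.fam j x.1 = f) :
    V.IsZ j f (V.W.S.idx j x) (V.W.S.pc j x.1) (V.W.zl j x) := by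
  rw [IsZ, show V.F.tree _ = _ from V.W.S.tree_sn V.D_pos .., Pre.typ, Mac.dA_sl, ← h]
  rfl

theorem isL_la (h : V.W.S.fam j x.1 = f) :
    V.IsL j f (V.W.S.idx j x - 1) (V.W.S.pc j x.1) (V.W.la j x) := by
  rw [IsL, show V.F.tree _ = _ from V.W.S.tree_sn V.D_pos .., ← h]
  rfl

theorem isL_nb (h : V.W.S.fam j x.1 = f) :
    V.IsL j f (V.W.S.idx j x) (V.W.S.pc j (V.W.nb j x).1) (V.W.la j (V.W.nb j x)) := by
  have := isL_la (x := V.W.nb j x) ((V.W.B.fo_bt j x).trans h)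
  rwa [V.W.S.idx_bt, add_sub_cancel_right] at this

theorem oy_wor (h : V.W.S.fam j x.1 = f) : V.W.Oy j (fun n => V.W.S.wor n = (j, f)) x := by
  have a : ∀ L, (∀ n, V.W.Bk j L n → V.W.S.wor n ≠ (j, f)) →
      V.W.Ou j (fun n => V.W.S.wor n = (j, f)) L := fun L c u v hu hv => by
    by_contra g
    rw [not_or, not_lt, not_lt] at g
    obtain ⟨x, a1, a2⟩ := wor_itv hu hv g.1 g.2
    exact c x a1 a2
  exact ⟨a _ fun _ c => h ▸ Wd.sl_out c, a _ fun _ c => h ▸ Wd.hub_out c⟩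

/-- **The cold pairs.** -/
theorem sv_cld (V : Fw K N r r0 q D e b) {v w : Vx K N (Pt K N) r r0} (h : V.Cld v w)
    (na : ¬(HL (2 * r + 9) V.W.S.hang).Adj v w) : V.W.Sv v w := by
  intro _ _
  obtain ⟨⟨j, f⟩, p, p', hv, hw, c⟩ := h
  have d := (by decide : ∀ s t : ZMod 12, (t - s).val < 4 → ∀ d < 4, s ≠ t + (d + 1 : ℕ)) _ _ c
  have lv : ∀ L u σ, V.F.lev (V.W.S.sn L u σ) = D := V.W.S.lev_sn V.D_pos
  have hd : ∀ {L c}, V.W.S.typ L true = .hS (j, f) p c →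
      ∃ x, L = V.W.S.O.sl j x ∧ V.W.S.fam j x.1 = f ∧ V.W.S.idx j x = p := fun {L c} g => by
    rw [Pre.typ] at g
    rcases k : V.W.S.O.dA L with (n | n) | ⟨j', x⟩ <;> rw [k] at g <;> cases g
    exact ⟨x, V.W.S.O.eq_sl.2 k, rfl, rfl⟩
  have tl : ∀ {z c}, V.W.S.typ (inr z) false = .tS (j, f) p' c →
      ∃ y, z = (j, V.W.nb j y) ∧ V.W.S.fam j y.1 = f ∧ V.W.S.idx j y = p' := by
    rintro ⟨j', y⟩ c g
    cases g
    obtain ⟨y, rfl⟩ := (V.W.nb j').surjective y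
    exact ⟨y, rfl, (V.W.B.fo_bt j' y).symm, by rw [V.W.S.idx_bt, add_sub_cancel_right]⟩
  rcases hv with ⟨a, ca, rfl, la, ha⟩ | ⟨L, ca, rfl, ha⟩ <;>
    rcases hw with ⟨z, cz, rfl, lz, hz⟩ | ⟨z, cz, rfl, hz⟩
  · exact (pf_cld ha la hz lz d).ss
  · obtain ⟨y, rfl, hy, rfl⟩ := tl hz
    exact (pf_cld ha la (isL_nb hy) (lv ..) d).sr (oy_wor ((V.W.B.fo_bt j y).trans hy))
  · obtain ⟨x, rfl, hx, rfl⟩ := hd ha
    exact (pf_cld (isZ_zl hx) (lv ..) hz lz d).fs (oy_wor hx)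
  obtain ⟨x, rfl, hx, rfl⟩ := hd ha
  obtain ⟨y, rfl, hy, rfl⟩ := tl hz
  have s3 : ∀ (s : ZMod 12) (t : ZMod 4) (i : Fin 3), ixt t i = s + 1 → i ≠ 2 →
      (s.val + 1) % 3 ≠ 2 := by decide
  refine Wd.sv_sys (f := f) (X := fun n => V.W.S.wor n = (j, f)) (isZ_zl hx).wor (fun _ => oy_wor)
    (fun x y hx hy g => pf_cld (isZ_zl hx) (lv ..) (isL_nb hy) (lv ..) g)
    (fun x y hx hy g t => ?_) hx hy ?_ c
  · have a := isZ_zl hx
    rw [g] at a
    exact jf_cld a (lv ..) (isL_nb hy) (lv ..) (s3 _ (V.W.S.tag j x.1) x.2 g t)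
  rintro rfl
  exact na (Wd.adj_vz ((V.W.S.fit.hs j x _).2 (Or.inr rfl)) le_rfl).symm

theorem gO (V : Fw K N r r0 q D e b) : V.GO := fun _ _ _ na h => V.sv_cld h na

end Fw

end Pool.Agent.P.MP_439f1f_co
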