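import Pool.Agent.P.MP_439f1f_co.Fin0
import Pool.Agent.P.MP_439f1f_co.Gb9
import Pool.Agent.P.MP_439f1f_co.Ro3
import Pool.Agent.P.MP_439f1f_co.Rk3

/-!
The theorem from the two lemmas on the tables.
-/

set_option autoImplicit false

namespace Pool.Agent.P.MP_439f1f_co

theorem mnh_of_tabs
    (h : ∀ (K N : Type) [Finite K] [DecidableEq K] [Nonempty K] [Finite N] (r r0 q D e b : ℕ)
      (V : Fw K N r r0 q D e b), V.W.S.Good e → V.TabA ∧ V.TabB) (k : ℕ) :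
    ∃ n : ℕ, ∃ G : SimpleGraph (Fin n), ¬G.IsHamiltonian ∧
      (∀ u v : Fin n, u ≠ v → ¬G.Adj u v →
        (G ⊔ SimpleGraph.fromEdgeSet {s(u, v)}).IsHamiltonian) ∧ ¬G.IsAcyclic ∧ k ≤ G.girth :=
  mnh_of_two (fun K N _ _ _ _ r r0 q D e b V G =>
    let ⟨a, c⟩ := h K N r r0 q D e b V G
    ⟨V.gO, Fw.gB_ls G (Fw.rowLS_of a c) (Fw.ls2_of a)⟩) k

end Pool.Agent.P.MP_439f1f_co
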