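import Pool.Agent.P.MP_439f1f_co.B1

/-!
Tools for the greedy choice of the labels: many new edges, degrees, counting.
-/

set_option autoImplicit false

namespace Pool.Agent.P.MP_439f1f_co

open SimpleGraph Sum

variable {V : Type*}

theorem GG.of_walk {k : ℕ} {G : SimpleGraph V}
    (h : ∀ a b, G.Adj a b → ∀ p : G.Walk a b, s(a, b) ∉ p.edges → k ≤ p.length + 1) : GG k G := by
  classical
  intro x w hw
  have hn := hw.not_nil
  have he : s(x, w.snd) ∈ w.edges := by
    cases w with
    | nil => exact absurd Walk.Nil.nil hn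
    | cons h p => simp
  obtain ⟨p, h1, h2, -⟩ := cycle_split hw he
  rw [← h1]
  exact h _ _ (w.adj_snd hn) p h2

theorem GG.walk {k : ℕ} {G : SimpleGraph V} (h : GG k G) {a b : V} (hab : G.Adj a b)
    (p : G.Walk a b) (hp : s(a, b) ∉ p.edges) : k ≤ p.length + 1 := by
  classical
  have h1 : (Walk.cons hab.symm p.bypass).IsCycle :=
    (Walk.cons_isCycle_iff _ _).2 ⟨p.bypass_isPath, fun h => hp (by
      rw [Sym2.eq_swap]; exact p.edges_bypass_subset_edges h)⟩
  have h2 := h _ _ h1
  have h3 := p.length_bypass_le_length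
  simp only [Walk.length_cons] at h2
  omega

theorem walk_lift {W : Type*} {G : SimpleGraph V} (e : V ↪ W) {u v : W}
    (p : (G.map e).Walk u v) : ∀ c d : V, e c = u → e d = v →
      ∃ q : G.Walk c d, q.length = p.length ∧ ∀ x y, s(x, y) ∈ q.edges → s(e x, e y) ∈ p.edges := by
  induction p with
  | nil =>
    intro c d h1 h2
    obtain rfl := e.injective (h1.trans h2.symm)
    exact ⟨Walk.nil, rfl, by simp⟩
  | cons hadj p ih =>
    intro c d h1 h2
    obtain ⟨x, y, hxy, hx, hy⟩ := (map_adj e G _ _).1 hadj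
    obtain rfl := e.injective (h1.trans hx.symm)
    obtain ⟨q, h3, h4⟩ := ih y d hy h2
    refine ⟨q.cons hxy, by simp [h3], fun s t hst => ?_⟩
    simp only [Walk.edges_cons, List.mem_cons] at hst ⊢
    rcases hst with hst | hst
    · left
      rw [← hx, ← hy]
      simpa using congrArg (Sym2.map e) hst
    · exact Or.inr (h4 s t hst)

theorem GG.map {W : Type*} {k : ℕ} {G : SimpleGraph V} (h : GG k G) (e : V ↪ W) :
    GG k (G.map e) := by
  refine GG.of_walk ?_
  intro a' b' hab p hp
  obtain ⟨a, b, hab2, rfl, rfl⟩ := (map_adj e G a' b').1 hab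
  obtain ⟨q, h1, h2⟩ := walk_lift e p a b rfl rfl
  rw [← h1]
  exact h.walk hab2 q fun hq => hp (h2 a b hq)

theorem GG.of_hom {W : Type*} {k : ℕ} {G : SimpleGraph V} {H : SimpleGraph W} (h : GG k H)
    (f : G →g H) (hf : Function.Injective f) : GG k G :=
  fun _ w hw => by simpa using h _ (w.map f) (hw.map hf)

/-- the graph of a family of edges -/
def Ed {I : Type*} (D : I → Prop) (a b : I → V) : SimpleGraph V :=
  fromRel fun u v => ∃ i, D i ∧ u = a i ∧ v = b i

theorem Ed_adj {I : Type*} {D : I → Prop} {a b : I → V} {u v : V} :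
    (Ed D a b).Adj u v ↔ u ≠ v ∧ ∃ i, D i ∧ ((u = a i ∧ v = b i) ∨ (u = b i ∧ v = a i)) := by
  rw [Ed, fromRel_adj]
  refine and_congr_right fun _ => ⟨?_, ?_⟩
  · rintro (⟨i, h, h1, h2⟩ | ⟨i, h, h1, h2⟩)
    exacts [⟨i, h, Or.inl ⟨h1, h2⟩⟩, ⟨i, h, Or.inr ⟨h2, h1⟩⟩]
  · rintro ⟨i, h, ⟨h1, h2⟩ | ⟨h1, h2⟩⟩
    exacts [Or.inl ⟨i, h, h1, h2⟩, Or.inr ⟨i, h, h2, h1⟩]

theorem GG.add_many {I : Type*} {k : ℕ} {G : SimpleGraph V} (h : GG k G) (D : I → Prop)
    (a b : I → V) (hA : ∀ i j, D i → D j → ∀ p : G.Walk (b i) (a j), k ≤ p.length + 1)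
    (hB : ∀ i j, D i → D j → i ≠ j → ∀ p : G.Walk (b i) (b j), k ≤ p.length + 2) :
    GG k (G ⊔ Ed D a b) := by
  classical
  intro x w hw
  by_cases hex : ∃ i, D i ∧ s(b i, a i) ∈ w.edges
  · obtain ⟨i, hi, he⟩ := hex
    obtain ⟨p, h1, h2, -⟩ := cycle_split hw he
    have key : ∀ {y z : V} (p : (G ⊔ Ed D a b).Walk y z), z = a i → s(b i, a i) ∉ p.edges →
        ∀ q : G.Walk (b i) y, k ≤ q.length + p.length + 1 := by
      intro y z p
      induction p with
      | nil =>
        rintro rfl - q
        simpa using hA i i hi hi q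
      | cons hadj p ih =>
        intro hz hp q
        simp only [Walk.edges_cons, List.mem_cons, not_or] at hp
        rw [Walk.length_cons]
        rcases hadj with hadj | hadj
        · have := ih hz hp.2 (q.concat hadj)
          rw [Walk.length_concat] at this
          omega
        · obtain ⟨-, j, hj, ⟨rfl, -⟩ | ⟨rfl, rfl⟩⟩ := Ed_adj.1 hadj
          · have := hA i j hi hj q
            omega
          · have := hB i j hi hj (fun e => hp.1 (by rw [e])) q
            omega
    have := key p rfl h2 Walk.nil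
    simp only [Walk.length_nil] at this
    omega
  · have tr : ∀ e ∈ w.edges, e ∈ G.edgeSet := by
      intro e he
      induction e with
      | h u v =>
        rcases w.adj_of_mem_edges he with h1 | h1
        · exact h1
        · obtain ⟨-, j, hj, ⟨rfl, rfl⟩ | ⟨rfl, rfl⟩⟩ := Ed_adj.1 h1
          · exact absurd ⟨j, hj, Sym2.eq_swap ▸ he⟩ hex
          · exact absurd ⟨j, hj, he⟩ hex
    have := h x (w.transfer G tr) (hw.transfer _)
    rwa [Walk.length_transfer] at this

theorem GG.add_far {I : Type*} {k : ℕ} {G : SimpleGraph V} (h : GG k G) (D : I → Prop)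
    (a b : I → V) (hA : ∀ i j, D i → D j → b i ∉ Ball G (a j) k)
    (hB : ∀ i j, D i → D j → i ≠ j → b i ∉ Ball G (b j) k) : GG k (G ⊔ Ed D a b) :=
  h.add_many D a b
    (fun i j hi hj p => by
      by_contra hc
      exact hA i j hi hj ⟨p.reverse, by rw [Walk.length_reverse]; omega⟩)
    fun i j hi hj hij p => by
      by_contra hc
      exact hB i j hi hj hij ⟨p.reverse, by rw [Walk.length_reverse]; omega⟩

theorem deg_Ed [Finite V] {I : Type*} [Finite I] (G : SimpleGraph V) (D : I → Prop) (a b : I → V)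
    (v : V) : ((G ⊔ Ed D a b).neighborSet v).ncard ≤
      (G.neighborSet v).ncard + {i | D i ∧ a i = v}.ncard + {i | D i ∧ b i = v}.ncard := by
  have hs : (G ⊔ Ed D a b).neighborSet v ⊆
      (G.neighborSet v ∪ b '' {i | D i ∧ a i = v}) ∪ a '' {i | D i ∧ b i = v} := by
    rintro w (h | h)
    · exact Or.inl (Or.inl h)
    · obtain ⟨-, j, hj, ⟨rfl, rfl⟩ | ⟨rfl, rfl⟩⟩ := Ed_adj.1 h
      · exact Or.inl (Or.inr ⟨j, ⟨hj, rfl⟩, rfl⟩)
      · exact Or.inr ⟨j, ⟨hj, rfl⟩, rfl⟩
  refine (Set.ncard_le_ncard hs).trans ((Set.ncard_union_le _ _).trans (add_le_add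
    ((Set.ncard_union_le _ _).trans (add_le_add le_rfl (Set.ncard_image_le (Set.toFinite _))))
    (Set.ncard_image_le (Set.toFinite _))))

theorem deg_map {W : Type*} {G : SimpleGraph V} [Finite V] (e : V ↪ W) {Δ : ℕ}
    (h : ∀ v, (G.neighborSet v).ncard ≤ Δ) (w : W) : ((G.map e).neighborSet w).ncard ≤ Δ := by
  by_cases hw : ∃ v, e v = w
  · obtain ⟨v, rfl⟩ := hw
    have : (G.map e).neighborSet (e v) ⊆ e '' G.neighborSet v := by
      intro x hx
      obtain ⟨a, b, hab, h1, rfl⟩ := (map_adj e G _ _).1 hx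
      exact ⟨b, e.injective h1 ▸ hab, rfl⟩
    exact (Set.ncard_le_ncard this).trans ((Set.ncard_image_le (Set.toFinite _)).trans (h v))
  · have : (G.map e).neighborSet w = ∅ := by
      ext x
      simp only [mem_neighborSet, Set.mem_empty_iff_false, iff_false]
      intro hx
      obtain ⟨a, b, -, h1, -⟩ := (map_adj e G _ _).1 hx
      exact hw ⟨a, h1⟩
    simp [this]

/-- at most `|Sl|` pairs have the same first coordinate -/
theorem ncard_slots {J Sl : Type*} [Fintype Sl] (P : J × Sl → Prop)
    (h : ∀ i j, P i → P j → i.1 = j.1) : {i | P i}.ncard ≤ Fintype.card Sl := by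
  have := Set.ncard_le_ncard_of_injOn (s := {i | P i}) (t := (Set.univ : Set Sl)) Prod.snd
    (fun _ _ => Set.mem_univ _) fun i hi j hj e => Prod.ext (h i j hi hj) e
  rwa [Set.ncard_univ, Nat.card_eq_fintype_card] at this

theorem ncard_lines {J Sl W : Type*} [Finite W] (g : J → Sl → W)
    (hg : ∀ j σ j' σ', g j σ = g j' σ' → j = j') (A : Set W) :
    {j | ∃ σ, g j σ ∈ A}.ncard ≤ A.ncard := by
  rcases A.eq_empty_or_nonempty with rfl | ⟨w0, -⟩
  · simp
  · have : ∀ j, ∃ w, (∃ σ, g j σ ∈ A) → w ∈ A ∧ ∃ σ, g j σ = w := by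
      intro j
      by_cases h : ∃ σ, g j σ ∈ A
      · obtain ⟨σ, h⟩ := h
        exact ⟨g j σ, fun _ => ⟨h, σ, rfl⟩⟩
      · exact ⟨w0, fun h' => absurd h' h⟩
    choose f hf using this
    refine Set.ncard_le_ncard_of_injOn f (fun j hj => (hf j hj).1) fun i hi j hj e => ?_
    obtain ⟨σ, h1⟩ := (hf i hi).2
    obtain ⟨σ', h2⟩ := (hf j hj).2
    exact hg _ _ _ _ (h1.trans (e.trans h2.symm))

section count

variable {Var Q : Type*} [Fintype Var] [DecidableEq Var] [Fintype Q]

open Finset

theorem count_one (E : (Var → Q) → Prop) [DecidablePred E] (w : Var) {β : ℕ}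
    (h : ∀ x, {t | E (Function.update x w t)}.ncard ≤ β) :
    (univ.filter E).card * Fintype.card Q ≤ β * Fintype.card (Var → Q) := by
  classical
  have e1 : ((univ.filter E) ×ˢ (univ : Finset Q)).card =
      (univ.filter fun z : (Var → Q) × Q => E (Function.update z.1 w z.2)).card := by
    refine card_nbij' (fun z => (Function.update z.1 w z.2, z.1 w))
      (fun z => (Function.update z.1 w z.2, z.1 w)) ?_ ?_ ?_ ?_
    · intro z hz
      simpa using hz
    · intro z hz
      simpa using hz
    · intro z _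
      simp
    · intro z _
      simp
  rw [card_product, card_univ] at e1
  rw [e1, card_eq_sum_card_fiberwise (f := Prod.fst) (t := univ) fun _ _ => mem_univ _, mul_comm,
    ← card_univ, ← smul_eq_mul]
  refine sum_le_card_nsmul _ _ _ fun x _ => le_trans ?_ (h x)
  rw [Set.ncard_eq_toFinset_card']
  refine card_le_card_of_injOn Prod.snd (fun z hz => ?_) fun z hz z' hz' e => ?_
  · simp only [coe_filter, mem_filter, mem_univ, true_and, Set.mem_ofPred_eq] at hz
    simpa [← hz.2] using hz.1
  · simp only [coe_filter, mem_filter, mem_univ, true_and, Set.mem_ofPred_eq] at hz hz'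
    exact Prod.ext (hz.2.trans hz'.2.symm) e

theorem count_two (E : Q → Q → Prop) [DecidableRel E] {u v : Var} (huv : u ≠ v) :
    (univ.filter fun x : Var → Q => E (x u) (x v)).card * (Fintype.card Q * Fintype.card Q) =
      {z : Q × Q | E z.1 z.2}.ncard * Fintype.card (Var → Q) := by
  classical
  have e1 : ((univ.filter fun x : Var → Q => E (x u) (x v)) ×ˢ (univ : Finset (Q × Q))).card =
      ((univ : Finset (Var → Q)) ×ˢ (univ.filter fun z : Q × Q => E z.1 z.2)).card := by
    refine card_nbij'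
      (fun z => (Function.update (Function.update z.1 u z.2.1) v z.2.2, (z.1 u, z.1 v)))
      (fun z => (Function.update (Function.update z.1 u z.2.1) v z.2.2, (z.1 u, z.1 v))) ?_ ?_ ?_ ?_
    · intro z hz
      simpa using hz
    · intro z hz
      simpa [Function.update_of_ne huv] using hz
    · intro z _
      ext w
      · by_cases h1 : w = v
        · subst h1; simp
        · by_cases h2 : w = u
          · subst h2; simp [Function.update_of_ne h1]
          · simp [Function.update_of_ne h1, Function.update_of_ne h2]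
      · simp [Function.update_of_ne huv]
      · simp
    · intro z _
      ext w
      · by_cases h1 : w = v
        · subst h1; simp
        · by_cases h2 : w = u
          · subst h2; simp [Function.update_of_ne h1]
          · simp [Function.update_of_ne h1, Function.update_of_ne h2]
      · simp [Function.update_of_ne huv]
      · simp
  rw [card_product, card_product, card_univ, card_univ, Fintype.card_prod] at e1
  rw [e1, mul_comm, Set.ncard_eq_toFinset_card']
  congr 2
  ext z
  simp

theorem union_bound {I Ω : Type*} [Fintype I] [Fintype Ω] [Nonempty Ω] (E : I → Ω → Prop)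
    [∀ i, DecidablePred (E i)] (wt : I → ℕ) (N : ℕ)
    (h : ∀ i, (univ.filter (E i)).card * N ≤ wt i * Fintype.card Ω) (hs : ∑ i, wt i < N) :
    ∃ x, ∀ i, ¬E i x := by
  classical
  by_contra hc
  push Not at hc
  have h1 : (univ : Finset Ω) ⊆ univ.biUnion fun i => univ.filter (E i) := fun x _ => by
    simpa using hc x
  have h2 := (card_le_card h1).trans card_biUnion_le
  rw [card_univ] at h2
  have h3 : Fintype.card Ω * N ≤ (∑ i, wt i) * Fintype.card Ω := by
    refine (Nat.mul_le_mul_right N h2).trans ?_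
    rw [sum_mul, sum_mul]
    exact sum_le_sum fun i _ => h i
  have h4 : 0 < Fintype.card Ω := Fintype.card_pos
  nlinarith

end count

end Pool.Agent.P.MP_439f1f_co
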