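import Pool.Agent.P.MP_439f1f_co.G11

/-!
The slot table of a half line: `H (a, b)`, `X1 (a, d 0)`, `X2 (b, d 0)`, `C i (d i, d (i + 1))`
for `i < ρ`, `Y1 (d ρ, u)`, `Y2 (d ρ, w)`, `Z (u, w)`.
-/

set_option autoImplicit false

namespace Pool.Agent.P.MP_439f1f_co

open Sum SimpleGraph

/-- the slots of a half line -/
inductive Slot (r : ℕ) where
  | H | X1 | X2 | C (i : Fin r) | Y1 | Y2 | Z
  deriving DecidableEq, Fintype

/-- the variables of a half line -/
inductive Vr (r : ℕ) where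
  | a | b | d (i : Fin (r + 1)) | u | w
  deriving DecidableEq, Fintype

theorem Slot.card (r : ℕ) : Fintype.card (Slot r) = r + 6 := by
  let e : Slot r ≃ Fin r ⊕ Fin 6 :=
    { toFun := fun
        | .H => inr 0 | .X1 => inr 1 | .X2 => inr 2 | .C i => inl i | .Y1 => inr 3 | .Y2 => inr 4
        | .Z => inr 5
      invFun := Sum.elim .C ![.H, .X1, .X2, .Y1, .Y2, .Z]
      left_inv := fun σ => by cases σ <;> rfl
      right_inv := by
        rintro (i | i)
        · rfl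
        · fin_cases i <;> rfl }
  rw [Fintype.card_congr e]
  simp

theorem Vr.card (r : ℕ) : Fintype.card (Vr r) = r + 5 := by
  let e : Vr r ≃ Fin (r + 1) ⊕ Fin 4 :=
    { toFun := fun
        | .a => inr 0 | .b => inr 1 | .d i => inl i | .u => inr 2 | .w => inr 3
      invFun := Sum.elim .d ![.a, .b, .u, .w]
      left_inv := fun σ => by cases σ <;> rfl
      right_inv := by
        rintro (i | i)
        · rfl
        · fin_cases i <;> rfl }
  rw [Fintype.card_congr e]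
  simp

namespace Slot

variable {r : ℕ} (ρ : Fin (r + 1))

/-- the slots in use if the chain has the length `ρ` -/
def act : Slot r → Prop
  | C i => (i : ℕ) < ρ
  | _ => True

/-- the position of a slot in the half line -/
def off : Slot r → ℕ
  | H => 0
  | X1 => 1
  | X2 => 1
  | C i => min (i : ℕ) ρ + 2
  | Y1 => ρ + 2
  | Y2 => ρ + 2
  | Z => ρ + 3

/-- the variable in the first (`false`) or second (`true`) coordinate of the label -/
def var : Slot r → Bool → Vr r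
  | H, false => .a
  | H, true => .b
  | X1, false => .a
  | X2, false => .b
  | X1, true => .d 0
  | X2, true => .d 0
  | C i, false => .d i.castSucc
  | C i, true => .d i.succ
  | Y1, false => .d ρ
  | Y2, false => .d ρ
  | Y1, true => .u
  | Y2, true => .w
  | Z, false => .u
  | Z, true => .w

/-- the coordinates that agree for the slots at consecutive positions -/
def lk : Slot r → Slot r → Bool × Bool
  | H, X1 => (false, false)
  | Y2, Z => (true, true)
  | _, _ => (true, false)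

variable {ρ}

theorem off_le (σ : Slot r) : σ.off ρ ≤ ρ + 3 := by cases σ <;> simp [off]

theorem off_C {i : Fin r} (h : (C i).act ρ) : (C i).off ρ = i + 2 := by
  simp only [act] at h
  simp [off, h.le]

theorem var_ne (σ : Slot r) : σ.var ρ false ≠ σ.var ρ true := by
  cases σ <;> simp [var, Fin.ext_iff]

theorem var_hd {σ σ' : Slot r} (h : σ.act ρ) (h' : σ'.act ρ) (ne : σ ≠ σ') :
    (σ.var ρ false ≠ σ'.var ρ false ∧ σ.var ρ false ≠ σ'.var ρ true) ∨
      (σ.var ρ true ≠ σ'.var ρ false ∧ σ.var ρ true ≠ σ'.var ρ true) := by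
  cases σ <;> cases σ' <;> simp only [var, act, ne_eq, Vr.d.injEq, C.injEq, Fin.ext_iff,
    Fin.val_castSucc, Fin.val_succ, Fin.val_zero, reduceCtorEq, not_true, not_false_eq_true,
    true_and, and_true, and_false, true_or, or_true, or_false] at h h' ne ⊢ <;> omega

/-- every position of the half line carries a slot -/
theorem exists_off {i : ℕ} (h : i ≤ ρ + 3) : ∃ σ : Slot r, σ.act ρ ∧ σ.off ρ = i := by
  have := ρ.2
  rcases (by omega : i = 0 ∨ i = 1 ∨ (2 ≤ i ∧ i < ρ + 2) ∨ i = ρ + 2 ∨ i = ρ + 3) with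
    e | e | e | e | e
  exacts [⟨H, trivial, e.symm⟩, ⟨X1, trivial, e.symm⟩,
    ⟨C ⟨i - 2, by omega⟩, by simp only [act]; omega, by simp only [off]; omega⟩,
    ⟨Y1, trivial, e.symm⟩, ⟨Z, trivial, e.symm⟩]

theorem off_zero {σ : Slot r} : σ.off ρ = 0 ↔ σ = H := by cases σ <;> simp [off]

theorem off_one {σ : Slot r} : σ.off ρ = 1 ↔ σ = X1 ∨ σ = X2 := by cases σ <;> simp [off]

theorem off_last {σ : Slot r} : σ.off ρ = ρ + 3 ↔ σ = Z := by
  cases σ <;> simp [off]
  omega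

theorem off_pen {σ : Slot r} (h : σ.act ρ) : σ.off ρ = ρ + 2 ↔ σ = Y1 ∨ σ = Y2 := by
  cases σ <;> simp [off, act] at h ⊢
  omega

/-- two slots at one position -/
theorem off_eq {σ σ' : Slot r} (h : σ.act ρ) (h' : σ'.act ρ) (e : σ.off ρ = σ'.off ρ) :
    σ = σ' ∨ (σ = X1 ∧ σ' = X2) ∨ (σ = X2 ∧ σ' = X1) ∨ (σ = Y1 ∧ σ' = Y2) ∨ (σ = Y2 ∧ σ' = Y1) := by
  cases σ <;> cases σ' <;> simp only [off, act, C.injEq, Fin.ext_iff, reduceCtorEq, and_self,
    and_true, and_false, or_true, or_false] at h h' e ⊢ <;> omega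

/-- **Links**: slots at consecutive positions share a variable. -/
theorem link {σ σ' : Slot r} (h : σ.act ρ) (h' : σ'.act ρ) (e : σ'.off ρ = σ.off ρ + 1) :
    σ.var ρ (lk σ σ').1 = σ'.var ρ (lk σ σ').2 := by
  cases σ <;> cases σ' <;> simp only [off, act, var, lk, Vr.d.injEq, Fin.ext_iff,
    Fin.val_castSucc, Fin.val_succ, Fin.val_zero, reduceCtorEq] at h h' e ⊢ <;> omega

/-- **Pins**: every coordinate of a slot is linked to a slot at a neighbouring position. -/
theorem pin {σ : Slot r} (h : σ.act ρ) (c : Bool) :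
    (∃ σ' : Slot r, σ'.act ρ ∧ σ'.off ρ = σ.off ρ + 1 ∧ (lk σ σ').1 = c) ∨
      ∃ σ' : Slot r, σ'.act ρ ∧ σ.off ρ = σ'.off ρ + 1 ∧ (lk σ' σ).2 = c := by
  have up : ∀ i ≤ (ρ : ℕ), ∃ σ' : Slot r, σ'.act ρ ∧ σ'.off ρ = i + 2 ∧ σ' ≠ Z := fun i hi => by
    obtain ⟨σ', a, b⟩ := exists_off (ρ := ρ) (i := i + 2) (by omega)
    exact ⟨σ', a, b, fun e => by rw [off_last.2 e] at b; omega⟩
  have dn : ∀ i ≤ (ρ : ℕ), ∃ σ' : Slot r, σ'.act ρ ∧ σ'.off ρ = i + 1 ∧ σ' ≠ H := fun i hi => by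
    obtain ⟨σ', a, b⟩ := exists_off (ρ := ρ) (i := i + 1) (by omega)
    exact ⟨σ', a, b, fun e => by rw [off_zero.2 e] at b; omega⟩
  cases σ with
  | H => cases c; exacts [Or.inl ⟨X1, trivial, rfl, rfl⟩, Or.inl ⟨X2, trivial, rfl, rfl⟩]
  | X1 =>
    cases c
    · exact Or.inr ⟨H, trivial, rfl, rfl⟩
    · obtain ⟨σ', a, b, -⟩ := up 0 (by omega)
      exact Or.inl ⟨σ', a, b, rfl⟩
  | X2 =>
    cases c
    · exact Or.inr ⟨H, trivial, rfl, rfl⟩
    · obtain ⟨σ', a, b, -⟩ := up 0 (by omega)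
      exact Or.inl ⟨σ', a, b, rfl⟩
  | C i =>
    cases c
    · obtain ⟨σ', a, b, -⟩ := dn i (le_of_lt h)
      exact Or.inr ⟨σ', a, by rw [off_C h, b], by cases σ' <;> rfl⟩
    · obtain ⟨σ', a, b, -⟩ := up (i + 1) h
      exact Or.inl ⟨σ', a, by rw [off_C h, b], rfl⟩
  | Y1 =>
    cases c
    · obtain ⟨σ', a, b, -⟩ := dn ρ le_rfl
      exact Or.inr ⟨σ', a, by rw [b]; rfl, by cases σ' <;> rfl⟩
    · exact Or.inl ⟨Z, trivial, rfl, rfl⟩
  | Y2 =>
    cases c
    · obtain ⟨σ', a, b, -⟩ := dn ρ le_rfl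
      exact Or.inr ⟨σ', a, by rw [b]; rfl, by cases σ' <;> rfl⟩
    · exact Or.inl ⟨Z, trivial, rfl, rfl⟩
  | Z => cases c; exacts [Or.inr ⟨Y1, trivial, rfl, rfl⟩, Or.inr ⟨Y2, trivial, rfl, rfl⟩]

end Slot

section

variable {S Λ Ty C' Q : Type} {r : ℕ} (lab : C' → Q → Q → S) (typ : Λ → Bool → Ty) (st : Ty → ℕ)
  (ρ : Ty → Fin (r + 1)) (cls : Ty → Slot r → C') (x : Λ → Bool → Vr r → Q)

/-- the label in the slot `σ` of the half `e` of the line `L` -/
def slab (L : Λ) (e : Bool) (σ : Slot r) : S :=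
  lab (cls (typ L e) σ) (x L e (σ.var (ρ (typ L e)) false)) (x L e (σ.var (ρ (typ L e)) true))

/-- The labels on the lines: the half `e` of the line `L` has the type `typ L e`, starts at the
position `st` of the type and has a chain of the length `ρ` of the type. -/
def hang2 (L : Λ) (i : ℕ) (s : S) : Prop :=
  ∃ e, ∃ σ : Slot r, σ.act (ρ (typ L e)) ∧ st (typ L e) + σ.off (ρ (typ L e)) = i ∧
    slab lab typ ρ cls x L e σ = s

variable {lab typ st ρ cls x} {h m i : ℕ} {L : Λ} {s t : S}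

theorem hang2_slab {e : Bool} {σ : Slot r} (a : σ.act (ρ (typ L e))) :
    hang2 lab typ st ρ cls x L (st (typ L e) + σ.off (ρ (typ L e))) (slab lab typ ρ cls x L e σ) :=
  ⟨e, σ, a, rfl, rfl⟩

/-- the label option of a tail -/
theorem hang2_zero (h1 : h < st (typ L true)) : hang2 lab typ st ρ cls x L 0 s ↔
    st (typ L false) = 0 ∧ s = slab lab typ ρ cls x L false .H := by
  refine ⟨?_, fun a => ⟨false, .H, trivial, a.1, a.2.symm⟩⟩
  rintro ⟨_ | _, σ, -, a, rfl⟩
  · exact ⟨by omega, by rw [Slot.off_zero.1 (by omega : σ.off (ρ (typ L false)) = 0)]⟩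
  · omega

/-- the label option of a head -/
theorem hang2_last (h0 : st (typ L false) + ρ (typ L false) + 3 < m)
    (h2 : st (typ L true) + ρ (typ L true) + 3 ≤ m) : hang2 lab typ st ρ cls x L m s ↔
    st (typ L true) + ρ (typ L true) + 3 = m ∧ s = slab lab typ ρ cls x L true .Z := by
  refine ⟨?_, fun a => ⟨true, .Z, trivial, a.1, a.2.symm⟩⟩
  rintro ⟨_ | _, σ, -, a, rfl⟩
  · have := σ.off_le (ρ := ρ (typ L false))
    omega
  · have := σ.off_le (ρ := ρ (typ L true))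
    exact ⟨by omega, by rw [Slot.off_last.1 (by omega : σ.off (ρ (typ L true)) = _)]⟩

/-- labels at consecutive positions: neighbouring slots of one half, or the middle of the line -/
theorem hang2_adj (h0 : st (typ L false) + ρ (typ L false) + 3 ≤ h) (h1 : h < st (typ L true))
    (hs : hang2 lab typ st ρ cls x L i s) (ht : hang2 lab typ st ρ cls x L (i + 1) t) :
    (∃ e, ∃ σ σ' : Slot r, σ.act (ρ (typ L e)) ∧ σ'.act (ρ (typ L e)) ∧
      σ'.off (ρ (typ L e)) = σ.off (ρ (typ L e)) + 1 ∧ st (typ L e) + σ.off (ρ (typ L e)) = i ∧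
      s = slab lab typ ρ cls x L e σ ∧ t = slab lab typ ρ cls x L e σ') ∨
    (i = h ∧ s = slab lab typ ρ cls x L false .Z ∧ t = slab lab typ ρ cls x L true .H) := by
  obtain ⟨e, σ, a1, a2, rfl⟩ := hs
  obtain ⟨e', σ', b1, b2, rfl⟩ := ht
  have := σ.off_le (ρ := ρ (typ L false))
  have := σ'.off_le (ρ := ρ (typ L false))
  cases e <;> cases e'
  · exact Or.inl ⟨false, σ, σ', a1, b1, by omega, a2, rfl, rfl⟩
  · exact Or.inr ⟨by omega, by rw [Slot.off_last.1 (by omega : σ.off (ρ (typ L false)) = _)],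
      by rw [Slot.off_zero.1 (by omega : σ'.off (ρ (typ L true)) = 0)]⟩
  · omega
  · exact Or.inl ⟨true, σ, σ', a1, b1, by omega, a2, rfl, rfl⟩

/-- every position between the start of the first half and the end of the second is used -/
theorem hang2_ex (h0 : st (typ L false) + ρ (typ L false) + 3 = h) (h1 : st (typ L true) = h + 1)
    (a : st (typ L false) ≤ i) (b : i ≤ st (typ L true) + ρ (typ L true) + 3) :
    ∃ e, ∃ σ : Slot r, σ.act (ρ (typ L e)) ∧ st (typ L e) + σ.off (ρ (typ L e)) = i := by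
  rcases le_or_gt i h with c | c
  · obtain ⟨σ, a1, a2⟩ := Slot.exists_off (ρ := ρ (typ L false)) (i := i - st (typ L false))
      (by omega)
    exact ⟨false, σ, a1, by omega⟩
  · obtain ⟨σ, a1, a2⟩ := Slot.exists_off (ρ := ρ (typ L true)) (i := i - st (typ L true))
      (by omega)
    exact ⟨true, σ, a1, by omega⟩

end

/-- **The labels of the half lines.** -/
theorem Forest.Skel.halves {X C T N Z S Λ Ty C' Q : Type} {cl : X → C} {tr : C → T}
    {D e b m k a r h : ℕ} {F : Forest X C T N cl tr D e b} {hang : Λ → ℕ → S → Prop}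
    {κ : S → Option (N ⊕ Z)} {gate : N → Z} {σ : Z → Z} {own : Z → Option N}
    {nm : Λ → ℕ → N ⊕ N ⊕ Z} {A : Λ → ℕ → S} [Finite N] [Finite Z] [Finite T] [Finite Λ]
    [Finite Ty] [Fintype Q]
    (H : F.Skel m k hang κ gate σ own nm A) (hm : k + 1 ≤ m) (he : k ≤ e) (hD : k + 2 ≤ D)
    (xl : C' → Q → Q → X)
    (hx : ∀ c a b c' a' b', xl c a b = xl c' a' b' → c = c' ∧ a = a' ∧ b = b')
    (lab : C' → Q → Q → S) (hl : ∀ c a b, κ (lab c a b) = some (inl (F.anc (xl c a b) D)))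
    (typ : Λ → Bool → Ty) (st : Ty → ℕ) (ρ : Ty → Fin (r + 1))
    (h0 : ∀ L, st (typ L false) + ρ (typ L false) + 3 ≤ h) (h1 : ∀ L, h < st (typ L true))
    (h2 : ∀ L e, st (typ L e) + ρ (typ L e) + 3 ≤ m) (cls : Ty → Slot r → C')
    (hQ : (Fintype.card Q).Prime) (hV : r + 5 ≤ Fintype.card Q) (des : Ty → Prop)
    (hdes : ∀ T σ T' σ', des T → des T' → Slot.act (ρ T) σ → Slot.act (ρ T') σ' →
      cls T σ = cls T' σ' → T = T' ∧ σ = σ')
    (many : ∀ T, des T →
      2 * (Fintype.card Q * Fintype.card Q) ≤ {j : Λ × Bool | typ j.1 j.2 = T}.ncard)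
    (hJ : 2 * Nat.card Λ ≤ a * (Fintype.card Q * Fintype.card Q))
    (hq : 4 * (r + 6) ^ 2 * (Nat.card T + b + 6 + (r + 6) + (2 * (r + 6) ^ 2 * a + 1) + 1) ^ k <
      Fintype.card Q) :
    ∃ x : Λ → Bool → Vr r → Q,
      GG k (HL m fun L i s => hang L i s ∨ hang2 lab typ st ρ cls x L i s) ∧
      ∀ T σ, des T → Slot.act (ρ T) σ → ∀ a b, ∃ L e, typ L e = T ∧
        x L e (σ.var (ρ T) false) = a ∧ x L e (σ.var (ρ T) true) = b := by
  have := Fintype.ofFinite Λ
  obtain ⟨x, a1, a2⟩ := H.greedy (J := Λ × Bool) (a := a) hm he hD xl hx lab hl Prod.fst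
    (fun j => typ j.1 j.2) (fun T => Slot.act (ρ T))
    (fun j σ => st (typ j.1 j.2) + σ.off (ρ (typ j.1 j.2)))
    (fun j σ => by have := h2 j.1 j.2; have := σ.off_le (ρ := ρ (typ j.1 j.2)); omega)
    (by
      rintro ⟨L, e⟩ σ ⟨L', e'⟩ σ' (rfl : L = L') c
      have := h0 L
      have := h1 L
      have := σ.off_le (ρ := ρ (typ L false))
      have := σ'.off_le (ρ := ρ (typ L false))
      cases e <;> cases e' <;> first | rfl | (exfalso; dsimp only at c; omega))
    cls (fun T σ => σ.var (ρ T) false) (fun T σ => σ.var (ρ T) true) (fun T σ _ => σ.var_ne)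
    (fun T σ σ' => Slot.var_hd) hQ (by rwa [Vr.card]) des hdes many
    (by rwa [Fintype.card_prod, Fintype.card_bool, mul_comm, ← Nat.card_eq_fintype_card])
    (by rwa [Slot.card])
  refine ⟨fun L e => x (L, e), a1.mono ?_, fun T σ c1 c2 a b => ?_⟩
  · rintro (s | ⟨L, i⟩) (t | ⟨L', i'⟩) c
    · exact c
    · exact Or.imp id (fun ⟨e, σ, c⟩ => ⟨(L', e), σ, rfl, c⟩) c
    · exact Or.imp id (fun ⟨e, σ, c⟩ => ⟨(L, e), σ, rfl, c⟩) c
    · exact c
  · obtain ⟨j, c⟩ := a2 T σ c1 c2 a b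
    exact ⟨j.1, j.2, c⟩

end Pool.Agent.P.MP_439f1f_co
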