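import Pool.Agent.P.MP_439f1f_co.G12

/-!
The whole chapter in one statement: the forest, the numbers and the labels.
-/

set_option autoImplicit false

namespace Pool.Agent.P.MP_439f1f_co

open Sum SimpleGraph

/-- two private levels of a class give enough jobs -/
theorem Forest.many {C T N J : Type} {tr : C → T} {D e b q : ℕ} [Finite J]
    (F : Forest (C × Fin q × Fin q) C T N Prod.fst tr D e b) (f : N → J)
    (hf : Function.Injective f) (A : Set J) (c : C) {l l' : ℕ} (ne : l ≠ l') (h0 : e < D)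
    (h1 : D ≤ l + e) (h2 : l ≤ D) (h3 : D ≤ l' + e) (h4 : l' ≤ D)
    (hA : ∀ z, f (F.anc (c, z) l) ∈ A ∧ f (F.anc (c, z) l') ∈ A) : 2 * (q * q) ≤ A.ncard := by
  have := Set.ncard_le_ncard_of_injOn (s := (Set.univ : Set (Bool × Fin q × Fin q))) (t := A)
    (fun z => f (F.anc (c, z.2) (if z.1 then l else l')))
    (by
      rintro ⟨_ | _, z⟩ -
      exacts [(hA z).2, (hA z).1])
    (by
      rintro ⟨s, z⟩ - ⟨s', z'⟩ - a
      have a := hf a
      have a' := congrArg F.lev a
      rw [F.lev_anc _ _ (by split_ifs <;> omega) (by split_ifs <;> omega),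
        F.lev_anc _ _ (by split_ifs <;> omega) (by split_ifs <;> omega)] at a'
      obtain rfl : s = s' := by
        revert a'
        cases s <;> cases s' <;> simp [ne, ne.symm]
      have := F.priv _ _ _ (by split_ifs <;> omega) (by split_ifs <;> omega) a
      exact Prod.ext rfl (Prod.ext_iff.1 this).2)
  simpa [Set.ncard_univ] using this

theorem exists_pq (k r c a q0 : ℕ) : ∃ p q : ℕ, q.Prime ∧ 0 < p ∧ q0 ≤ q ∧ r + 5 ≤ q ∧
    q * q ≤ p ^ (2 * k + 4) ∧ 4 * (r + 6) ^ 2 *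
      (c + (c + 1) * (p + 1) + 6 + (r + 6) + (2 * (r + 6) ^ 2 * a + 1) + 1) ^ k < q := by
  obtain ⟨A, hA⟩ : ∃ A, A = q0 + 4 * (r + 6) ^ 2 + 3 * c + r + 16 + 2 * (r + 6) ^ 2 * a := ⟨_, rfl⟩
  obtain ⟨p, q, h1, h2, h3, h4, h5, h6⟩ := exists_numbers k 1 A
  refine ⟨p, q, h1, by omega, by omega, by omega, by simpa using h5, lt_of_le_of_lt
    (Nat.mul_le_mul (by omega) (Nat.pow_le_pow_left ?_ _)) h6⟩
  generalize 2 * (r + 6) ^ 2 * a = u at hA ⊢
  generalize 4 * (r + 6) ^ 2 = v at hA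
  obtain ⟨p, rfl⟩ : ∃ p', p = p' + 1 := ⟨p - 1, by omega⟩
  subst hA
  nlinarith [Nat.zero_le (q0 * p), Nat.zero_le (v * p), Nat.zero_le (c * p), Nat.zero_le (r * p),
    Nat.zero_le (u * p)]

/-- **The world**: for any finite set of classes there is a forest with stems such that the labels
can be chosen for every system of lines whose size is linear in the size of the forest. -/
theorem exists_world (C : Type) [Finite C] (k s r a0 D q0 : ℕ)
    (hD : 2 * (s + (2 * k + 4)) + 4 + k ≤ D) :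
    ∃ (q b : ℕ) (N : Type) (F : Forest (C × Fin q × Fin q) C C N Prod.fst id D k b), q0 ≤ q ∧
      (∀ x y l, 1 ≤ l → l ≤ 2 * s + 4 → (F.anc x l = F.anc y l ↔ x.1 = y.1)) ∧
      ∀ (Z H Ty : Type) [Finite Z] [Finite H] [Finite Ty] (m h : ℕ) (_ : k + 1 ≤ m)
        (_ : Nat.card H ≤ a0 * (Nat.card N + 1))
        (κ : H → N ⊕ Z) (_ : Function.Injective κ) (nd : N → H) (_ : ∀ n, κ (nd n) = inl n)
        (gate : N → Z) (σ : Z → Z) (own : Z → Option N) (_ : Function.Injective σ)
        (_ : ∀ z j, 0 < j → j ≤ k → σ^[j] z ≠ z) (_ : ∀ z, own (σ z) = own z)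
        (_ : ∀ n, own (gate n) = some n) (dA : H → H) (_ : Function.Injective dA)
        (tB hB : H → Option H) (ts : Z → Prop)
        (_ : ∀ L, tB L = some L ∨ (∃ n, κ L = inl n ∧ (tB L).map κ = F.eb gate σ (inl n)) ∨
          ∃ z, ts z ∧ κ L = inr z ∧ (tB L).map κ = some (inr (σ z)))
        (_ : ∀ L, hB L = some L ∨ (∃ n, κ L = inl n ∧ (hB L).map κ = some (inr (gate n))) ∨
          ∃ z, ¬ts z ∧ κ L = inr z ∧ (hB L).map κ = some (inr (σ z)))
        (typ : H → Bool → Ty) (st : Ty → ℕ) (ρ : Ty → Fin (r + 1))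
        (_ : ∀ L, st (typ L false) + ρ (typ L false) + 3 ≤ h) (_ : ∀ L, h < st (typ L true))
        (_ : ∀ L e, st (typ L e) + ρ (typ L e) + 3 ≤ m) (cls : Ty → Slot r → C) (des : Ty → Prop)
        (_ : ∀ T σ T' σ', des T → des T' → Slot.act (ρ T) σ → Slot.act (ρ T') σ' →
          cls T σ = cls T' σ' → T = T' ∧ σ = σ')
        (_ : ∀ T, des T → 2 * (q * q) ≤ {j : H × Bool | typ j.1 j.2 = T}.ncard),
        ∃ x : H → Bool → Vr r → Fin q,
          GG k (HL m fun L i s => Forest.hang1 dA tB hB m L i s ∨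
            hang2 (fun c a b => some (nd (F.anc (c, a, b) D))) typ st ρ cls x L i s) ∧
          ∀ T σ, des T → Slot.act (ρ T) σ → ∀ a b, ∃ L e, typ L e = T ∧
            x L e (σ.var (ρ T) false) = a ∧ x L e (σ.var (ρ T) true) = b := by
  obtain ⟨p, q, h1, h2, h3, h4, h5, h6⟩ :=
    exists_pq k r (Nat.card C) (2 * a0 * (Nat.card C * (D + 1) + 1)) q0
  obtain ⟨N, F, hF⟩ := exists_forest_stem C h2 h5 hD
  refine ⟨q, _, N, F, h3, hF, ?_⟩
  intro Z H Ty _ _ _ m h hm hH κ kinj nd hnd gate σ own sinj long own_s own_g dA dinj tB hB ts ht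
    hh typ st ρ a0' a1 a2 cls des hdes many
  have := F.finite
  have c := F.card_le
  simp only [Nat.card_prod, Nat.card_eq_fintype_card (α := Fin q), Fintype.card_fin] at c
  refine (F.skel1 (by omega) κ kinj sinj long own_s own_g dinj ts ht hh).halves
    (a := 2 * a0 * (Nat.card C * (D + 1) + 1)) hm le_rfl (by omega) (fun c a b => (c, a, b))
    (fun _ _ _ _ _ _ e => by simpa using e) (fun c a b => some (nd (F.anc (c, a, b) D)))
    (fun c a b => congrArg some (hnd _)) typ st ρ a0' a1 a2 cls (by simpa using h1) (by simpa using h4) des hdes (by simpa using many) ?_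
    (by simpa using h6)
  rw [Fintype.card_fin]
  have q1 : 1 ≤ q * q := Nat.mul_pos h1.pos h1.pos
  generalize q * q = Q at c q1 ⊢
  have : Nat.card N + 1 ≤ (Nat.card C * (D + 1) + 1) * Q := by nlinarith
  calc 2 * Nat.card H ≤ 2 * (a0 * ((Nat.card C * (D + 1) + 1) * Q)) :=
      Nat.mul_le_mul_left _ (hH.trans (Nat.mul_le_mul_left _ this))
    _ = _ := by ring

end Pool.Agent.P.MP_439f1f_co
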