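import Pool.Agent.P.MP_439f1f_co.G1

/-!
First phase: every prescribed chain of labels finds its line.
-/

set_option autoImplicit false

namespace Pool.Agent.P.MP_439f1f_co

open SimpleGraph Sum

theorem phase_one {V X J Sl Ty : Type*} [Finite V] [Finite X] [Finite J] [Fintype Sl] {k Δ : ℕ}
    {G : SimpleGraph V} (hG : GG k G) (hΔ : ∀ v, (G.neighborSet v).ncard ≤ Δ)
    (act : X → Sl → Prop) (lb : X → Sl → V)
    (hlb : ∀ χ σ χ' σ', act χ σ → act χ' σ' → lb χ σ ∈ Ball G (lb χ' σ') k → χ = χ' ∧ σ = σ')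
    (pos : J → Sl → V) (hpos : ∀ j σ j' σ', pos j σ = pos j' σ' → j = j') (ty : X → Ty)
    (typ : J → Ty)
    (many : ∀ χ, {χ' | ty χ' = ty χ}.ncard + Fintype.card Sl * (Δ + Fintype.card Sl + 1 + 1) ^ k <
      {j | typ j = ty χ}.ncard) :
    ∃ d : X → J, Function.Injective d ∧ (∀ χ, typ (d χ) = ty χ) ∧
      GG k (G ⊔ Ed (fun i : X × Sl => act i.1 i.2) (fun i => pos (d i.1) i.2)
        fun i => lb i.1 i.2) := by
  classical
  have := Fintype.ofFinite X
  let e : V ↪ V ⊕ X := Function.Embedding.inl
  let f : Finset X → (X → J) → X × Sl → V ⊕ X := fun P d i =>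
    if i.1 ∈ P then inl (pos (d i.1) i.2) else inr i.1
  let L : X × Sl → V ⊕ X := fun i => inl (lb i.1 i.2)
  have lbi : ∀ i j : X × Sl, act i.1 i.2 → act j.1 j.2 → lb i.1 i.2 = lb j.1 j.2 → i = j := by
    intro i j hi hj h
    obtain ⟨h1, h2⟩ := hlb _ _ _ _ hi hj ⟨Walk.nil.copy rfl h.symm, by simp⟩
    exact Prod.ext h1 h2
  have nr : ∀ χ w, ¬(G.map e).Adj (inr χ) w := by
    intro χ w h
    obtain ⟨a, b, -, h1, -⟩ := (map_adj e G _ _).1 h
    cases h1
  have main : ∀ P : Finset X, ∃ d : X → J, Set.InjOn d P ∧ (∀ χ ∈ P, typ (d χ) = ty χ) ∧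
      GG k (G.map e ⊔ Ed (fun i : X × Sl => act i.1 i.2) (f P d) L) := by
    intro P
    induction P using Finset.induction_on with
    | empty =>
      have : ∀ χ, ∃ j, typ j = ty χ := fun χ =>
        Set.nonempty_of_ncard_ne_zero (s := {j | typ j = ty χ}) (by have := many χ; omega)
      choose d _ using this
      refine ⟨d, by simp, by simp, (hG.map e).add_far _ _ _ ?_ ?_⟩
      · rintro i j - - ⟨p, -⟩
        simp only [f, Finset.notMem_empty, if_false] at p
        cases p with
        | cons h _ => exact nr _ _ h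
      · rintro i j hi hj hij ⟨p, hp⟩
        obtain ⟨q, h1, -⟩ := walk_lift e p _ _ rfl rfl
        obtain ⟨h2, h3⟩ := hlb _ _ _ _ hi hj ⟨q, h1 ▸ hp⟩
        exact hij (Prod.ext h2 h3)
    | insert c P hc ih =>
      obtain ⟨d, hd, ht, hW⟩ := ih
      let W := G.map e ⊔ Ed (fun i : X × Sl => act i.1 i.2 ∧ i.1 ≠ c) (f P d) L
      have hle : W ≤ G.map e ⊔ Ed (fun i : X × Sl => act i.1 i.2) (f P d) L := by
        refine sup_le_sup_left (fun u v h => ?_) _
        obtain ⟨h1, i, h2, h3⟩ := Ed_adj.1 h
        exact Ed_adj.2 ⟨h1, i, h2.1, h3⟩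
      have hdeg : ∀ w, (W.neighborSet w).ncard ≤ Δ + Fintype.card Sl + 1 := by
        intro w
        refine (deg_Ed _ _ _ _ w).trans (add_le_add (add_le_add (deg_map e hΔ w)
          (ncard_slots _ fun i j hi hj => ?_)) ?_)
        · have h := hi.2.trans hj.2.symm
          simp only [f] at h
          split_ifs at h with h1 h2 h2
          · exact hd h1 h2 (hpos _ _ _ _ (inl_injective h))
          · exact inr_injective h
        · refine (Set.ncard_le_one (Set.toFinite _)).2 fun i hi j hj => ?_
          exact lbi i j hi.1.1 hj.1.1 (inl_injective (hi.2.trans hj.2.symm))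
      obtain ⟨j0, hj0, hj1⟩ : ∃ j0, j0 ∈ {j | typ j = ty c} ∧ j0 ∉ d '' {χ | ty χ = ty c} ∪
          {j | ∃ σ, (inl (pos j σ) : V ⊕ X) ∈ ⋃ σ', Ball W (L (c, σ')) k} := by
        refine Set.exists_mem_notMem_of_ncard_lt_ncard (lt_of_le_of_lt ?_ (many c))
        refine (Set.ncard_union_le _ _).trans (add_le_add (Set.ncard_image_le (Set.toFinite _))
          ((ncard_lines (fun j σ => (inl (pos j σ) : V ⊕ X))
            (fun _ _ _ _ h => hpos _ _ _ _ (inl_injective h)) _).trans
          ((Set.ncard_iUnion_le_of_fintype _).trans ?_)))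
        rw [← smul_eq_mul, ← Finset.card_univ]
        exact Finset.sum_le_card_nsmul _ _ _ fun σ _ => ball_card hdeg _ _
      simp only [Set.mem_union, Set.mem_image, Set.mem_ofPred_eq, Set.mem_iUnion, not_or,
        not_exists, not_and] at hj0 hj1
      have ne : ∀ χ ∈ P, χ ≠ c := fun χ h e => hc (e ▸ h)
      have nz : ∀ w, ¬W.Adj (inr c) w := by
        rintro w (h | h)
        · exact nr _ _ h
        · obtain ⟨-, i, h2, ⟨h3, -⟩ | ⟨h3, -⟩⟩ := Ed_adj.1 h
          · simp only [f] at h3
            split_ifs at h3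
            exact h2.2 (inr_injective h3).symm
          · cases h3
      have st : ∀ σ, act c σ → (G.map e ⊔ Ed (fun i : X × Sl => act i.1 i.2) (f P d) L).Adj
          (L (c, σ)) (inr c) := fun σ h =>
        Or.inr (Ed_adj.2 ⟨by simp [L], (c, σ), h, Or.inr ⟨rfl, by simp [f, hc]⟩⟩)
      have key := (hW.mono hle).add_many (act c) (fun σ => inl (pos j0 σ)) (fun σ => L (c, σ))
        (fun σ σ' _ _ p => by
          by_contra h
          exact hj1.2 σ' σ ⟨p, by omega⟩)
        (fun σ σ' h h' hne p => by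
          have := hW.walk (st σ h) ((p.mapLe hle).concat (st σ' h')) (by
            rw [Walk.edges_concat, List.concat_eq_append, List.mem_append, Walk.edges_mapLe_eq_edges]
            rintro (h1 | h1)
            · exact nz _ (p.adj_of_mem_edges h1).symm
            · simp only [List.mem_singleton, Sym2.eq, Sym2.rel_iff', Prod.mk.injEq, and_true,
                Prod.swap_prod_mk, L, reduceCtorEq, false_and, or_false, inl.injEq] at h1
              exact hne (congrArg Prod.snd (lbi (c, σ) (c, σ') h h' h1)))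
          simpa using this)
      refine ⟨Function.update d c j0, ?_, ?_, key.mono ?_⟩
      · intro a ha b hb h
        simp only [Finset.coe_insert, Set.mem_insert_iff, Finset.mem_coe] at ha hb
        rcases ha with rfl | ha <;> rcases hb with rfl | hb
        · rfl
        · rw [Function.update_self, Function.update_of_ne (ne b hb)] at h
          exact absurd h.symm (hj1.1 b (by rw [← ht b hb, ← h, hj0]))
        · rw [Function.update_self, Function.update_of_ne (ne a ha)] at h
          exact absurd h (hj1.1 a (by rw [← ht a ha, h, hj0]))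
        · rw [Function.update_of_ne (ne a ha), Function.update_of_ne (ne b hb)] at h
          exact hd ha hb h
      · intro a ha
        rcases Finset.mem_insert.1 ha with rfl | ha
        · rw [Function.update_self, hj0]
        · rw [Function.update_of_ne (ne a ha), ht a ha]
      · rintro u v (h | h)
        · exact Or.inl (Or.inl h)
        · obtain ⟨h1, ⟨a, σ⟩, h2, h3⟩ := Ed_adj.1 h
          by_cases ha : a = c
          · subst ha
            exact Or.inr (Ed_adj.2 ⟨h1, σ, h2, by simpa [f] using h3⟩)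
          · exact Or.inl (Or.inr (Ed_adj.2 ⟨h1, (a, σ), ⟨h2, ha⟩, by
              simpa [f, ha, Function.update_of_ne ha] using h3⟩))
  obtain ⟨d, h1, h2, h3⟩ := main Finset.univ
  refine ⟨d, fun a b h => h1 (by simp) (by simp) h, fun χ => h2 χ (Finset.mem_univ _),
    h3.of_hom ⟨inl, ?_⟩ inl_injective⟩
  rintro u v (h | h)
  · exact Or.inl ((map_adj e G _ _).2 ⟨u, v, h, rfl, rfl⟩)
  · obtain ⟨h4, i, h5, h6⟩ := Ed_adj.1 h
    exact Or.inr (Ed_adj.2 ⟨by simpa using h4, i, h5, by simpa [f, L] using h6⟩)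

end Pool.Agent.P.MP_439f1f_co
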