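import Pool.Agent.P.MP_439f1f_co.G2

/-!
Second phase: the remaining lines choose their labels; the final theorem.
-/

set_option autoImplicit false

namespace Pool.Agent.P.MP_439f1f_co

open SimpleGraph Sum Finset

theorem one_line {V Sl Var Q : Type*} [Finite V] [Fintype Sl] [Fintype Var] [Fintype Q] {k Δ : ℕ}
    {G : SimpleGraph V} (hΔ : ∀ v, (G.neighborSet v).ncard ≤ Δ) (act : Sl → Prop)
    (lab : Sl → Q → Q → V) (hlab : ∀ σ a b a' b', lab σ a b = lab σ a' b' → a = a' ∧ b = b')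
    (pos : Sl → V) (u v : Sl → Var) (huv : ∀ σ, act σ → u σ ≠ v σ)
    (hd : ∀ σ σ', act σ → act σ' → σ ≠ σ' → (u σ ≠ u σ' ∧ u σ ≠ v σ') ∨ (v σ ≠ u σ' ∧ v σ ≠ v σ'))
    (Sat : Set V) (h1 : 4 * Fintype.card Sl ^ 2 * (Δ + 1) ^ k < Fintype.card Q)
    (h2 : 2 * Fintype.card Sl * Sat.ncard ≤ Fintype.card Q * Fintype.card Q) :
    ∃ y : Var → Q, (∀ σ σ', act σ → lab σ (y (u σ)) (y (v σ)) ∉ Ball G (pos σ') k) ∧
      (∀ σ σ', act σ → act σ' → σ ≠ σ' →
        lab σ (y (u σ)) (y (v σ)) ∉ Ball G (lab σ' (y (u σ')) (y (v σ'))) k) ∧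
      ∀ σ, act σ → lab σ (y (u σ)) (y (v σ)) ∉ Sat := by
  classical
  have hQ : Nonempty Q := Fintype.card_pos_iff.1 (by omega)
  set q := Fintype.card Q with hq
  set B := (Δ + 1) ^ k with hB
  have row : ∀ σ b w, {t | lab σ t b ∈ Ball G w k}.ncard ≤ B := fun σ b w =>
    (Set.ncard_le_ncard_of_injOn (fun t => lab σ t b) (fun _ h => h)
      fun _ _ _ _ h => (hlab _ _ _ _ _ h).1).trans (ball_card hΔ w k)
  have col : ∀ σ a w, {t | lab σ a t ∈ Ball G w k}.ncard ≤ B := fun σ a w =>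
    (Set.ncard_le_ncard_of_injOn (fun t => lab σ a t) (fun _ h => h)
      fun _ _ _ _ h => (hlab _ _ _ _ _ h).2).trans (ball_card hΔ w k)
  have up : ∀ {n : ℕ}, n * q ≤ B * Fintype.card (Var → Q) →
      n * (q * q) ≤ B * q * Fintype.card (Var → Q) := fun {n} h => by
    calc n * (q * q) = n * q * q := by ring
      _ ≤ B * Fintype.card (Var → Q) * q := Nat.mul_le_mul_right _ h
      _ = _ := by ring
  obtain ⟨y, hy⟩ := union_bound (I := (Sl × Sl ⊕ Sl × Sl) ⊕ Sl) (Ω := Var → Q)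
    (Sum.elim (Sum.elim
      (fun z y => act z.1 ∧ lab z.1 (y (u z.1)) (y (v z.1)) ∈ Ball G (pos z.2) k)
      (fun z y => (act z.1 ∧ act z.2 ∧ z.1 ≠ z.2) ∧ lab z.1 (y (u z.1)) (y (v z.1)) ∈
        Ball G (lab z.2 (y (u z.2)) (y (v z.2))) k))
      fun σ y => act σ ∧ lab σ (y (u σ)) (y (v σ)) ∈ Sat)
    (Sum.elim (fun _ => B * q) fun _ => Sat.ncard) (q * q) (by
      rintro ((⟨σ, σ'⟩ | ⟨σ, σ'⟩) | σ) <;> simp only [elim_inl, elim_inr]
      · refine up (count_one _ (u σ) fun x => ?_)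
        refine le_trans (Set.ncard_le_ncard fun t ht => ?_) (row σ (x (v σ)) (pos σ'))
        have := ht.2
        rwa [Function.update_self, Function.update_of_ne (huv σ ht.1).symm] at this
      · by_cases h : act σ ∧ act σ' ∧ σ ≠ σ'
        · rcases hd σ σ' h.1 h.2.1 h.2.2 with ⟨a1, a2⟩ | ⟨a1, a2⟩
          · refine up (count_one _ (u σ) fun x => ?_)
            refine le_trans (Set.ncard_le_ncard fun t ht => ?_)
              (row σ (x (v σ)) (lab σ' (x (u σ')) (x (v σ'))))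
            have := ht.2
            rwa [Function.update_self, Function.update_of_ne (huv σ h.1).symm,
              Function.update_of_ne a1.symm, Function.update_of_ne a2.symm] at this
          · refine up (count_one _ (v σ) fun x => ?_)
            refine le_trans (Set.ncard_le_ncard fun t ht => ?_)
              (col σ (x (u σ)) (lab σ' (x (u σ')) (x (v σ'))))
            have := ht.2
            rwa [Function.update_self, Function.update_of_ne (huv σ h.1),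
              Function.update_of_ne a1.symm, Function.update_of_ne a2.symm] at this
        · simp [h]
      · by_cases h : act σ
        · have := count_two (fun a b => lab σ a b ∈ Sat) (huv σ h)
          simp only [h, true_and]
          refine (le_of_eq this).trans (Nat.mul_le_mul_right _ ?_)
          exact Set.ncard_le_ncard_of_injOn (fun z : Q × Q => lab σ z.1 z.2) (fun _ h => h)
            fun _ _ _ _ h => Prod.ext (hlab _ _ _ _ _ h).1 (hlab _ _ _ _ _ h).2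
        · simp [h]) (by
      rw [Fintype.sum_sum_type]
      simp only [elim_inl, elim_inr, sum_const, card_univ, Fintype.card_sum,
        Fintype.card_prod, smul_eq_mul]
      have h3 : 4 * Fintype.card Sl ^ 2 * B * q < q * q :=
        Nat.mul_lt_mul_of_pos_right h1 (by omega)
      nlinarith)
  exact ⟨y, fun σ σ' a h => hy (inl (inl (σ, σ'))) ⟨a, h⟩,
    fun σ σ' a a' n h => hy (inl (inr (σ, σ'))) ⟨⟨a, a', n⟩, h⟩, fun σ a h => hy (inr σ) ⟨a, h⟩⟩

theorem sat_card {V I : Type*} [Finite V] [Fintype I] (P : I → Prop) (b : I → V) (D : ℕ) :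
    {y | D ≤ {i | P i ∧ b i = y}.ncard}.ncard * D ≤ Fintype.card I := by
  classical
  have := Fintype.ofFinite V
  rw [Set.ncard_eq_toFinset_card', ← smul_eq_mul]
  refine (card_nsmul_le_sum _ (fun y => (univ.filter fun i => b i = y).card) D
    fun y hy => ?_).trans ?_
  · simp only [Set.mem_toFinset, Set.mem_ofPred_eq] at hy
    refine hy.trans ?_
    rw [Set.ncard_eq_toFinset_card']
    exact card_le_card fun i hi => by
      simp only [Set.mem_toFinset, Set.mem_ofPred_eq] at hi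
      simp [hi.2]
  · rw [← card_univ, card_eq_sum_card_fiberwise (f := b) (t := univ) fun _ _ => mem_univ _]
    exact sum_le_sum_of_subset (subset_univ _)

theorem phase_two {V J Sl Var Q : Type*} [Finite V] [Fintype J] [Fintype Sl] [Fintype Var]
    [Fintype Q] {k Δ D : ℕ} {G : SimpleGraph V} (hΔ : ∀ v, (G.neighborSet v).ncard ≤ Δ)
    (act : J → Sl → Prop) (lab : J → Sl → Q → Q → V)
    (hlab : ∀ j σ a b a' b', lab j σ a b = lab j σ a' b' → a = a' ∧ b = b')
    (pos : J → Sl → V) (hpos : ∀ j σ j' σ', pos j σ = pos j' σ' → j = j') (u v : J → Sl → Var)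
    (huv : ∀ j σ, act j σ → u j σ ≠ v j σ)
    (hd : ∀ j σ σ', act j σ → act j σ' → σ ≠ σ' →
      (u j σ ≠ u j σ' ∧ u j σ ≠ v j σ') ∨ (v j σ ≠ u j σ' ∧ v j σ ≠ v j σ'))
    (h1 : 4 * Fintype.card Sl ^ 2 * (Δ + Fintype.card Sl + D + 1) ^ k < Fintype.card Q)
    (h2 : 2 * Fintype.card Sl ^ 2 * Fintype.card J ≤ D * (Fintype.card Q * Fintype.card Q))
    (hD : 0 < D) (P0 : Set J) (x0 : J → Var → Q)
    (hG : GG k (G ⊔ Ed (fun i : J × Sl => i.1 ∈ P0 ∧ act i.1 i.2) (fun i => pos i.1 i.2)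
      fun i => lab i.1 i.2 (x0 i.1 (u i.1 i.2)) (x0 i.1 (v i.1 i.2))))
    (hc : ∀ y, {i : J × Sl | (i.1 ∈ P0 ∧ act i.1 i.2) ∧
      lab i.1 i.2 (x0 i.1 (u i.1 i.2)) (x0 i.1 (v i.1 i.2)) = y}.ncard ≤ D) :
    ∃ x : J → Var → Q, (∀ j ∈ P0, x j = x0 j) ∧
      GG k (G ⊔ Ed (fun i : J × Sl => act i.1 i.2) (fun i => pos i.1 i.2)
        fun i => lab i.1 i.2 (x i.1 (u i.1 i.2)) (x i.1 (v i.1 i.2))) := by
  classical
  let l : (J → Var → Q) → J × Sl → V := fun x i =>
    lab i.1 i.2 (x i.1 (u i.1 i.2)) (x i.1 (v i.1 i.2))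
  have main : ∀ N : Finset J, ∃ x : J → Var → Q, (∀ j ∈ P0, x j = x0 j) ∧
      GG k (G ⊔ Ed (fun i : J × Sl => (i.1 ∈ P0 ∨ i.1 ∈ N) ∧ act i.1 i.2) (fun i => pos i.1 i.2)
        (l x)) ∧
      ∀ y, {i : J × Sl | ((i.1 ∈ P0 ∨ i.1 ∈ N) ∧ act i.1 i.2) ∧ l x i = y}.ncard ≤ D := by
    intro N
    induction N using Finset.induction_on with
    | empty => exact ⟨x0, fun _ _ => rfl, by simpa using hG, by simpa using hc⟩
    | insert c N hN ih =>
      obtain ⟨x, a1, a2, a3⟩ := ih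
      by_cases hc0 : c ∈ P0
      · have e : ∀ j, (j ∈ P0 ∨ j ∈ insert c N) ↔ (j ∈ P0 ∨ j ∈ N) := fun j => by
          rw [mem_insert]
          constructor
          · rintro (h | rfl | h)
            exacts [Or.inl h, Or.inl hc0, Or.inr h]
          · exact Or.imp_right Or.inr
        exact ⟨x, a1, by simpa only [e] using a2, by simpa only [e] using a3⟩
      set W := G ⊔ Ed (fun i : J × Sl => (i.1 ∈ P0 ∨ i.1 ∈ N) ∧ act i.1 i.2)
        (fun i => pos i.1 i.2) (l x) with hW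
      have hdeg : ∀ w, (W.neighborSet w).ncard ≤ Δ + Fintype.card Sl + D := fun w =>
        (deg_Ed _ _ _ _ w).trans (add_le_add (add_le_add (hΔ w) (ncard_slots _ fun i j hi hj =>
          hpos _ _ _ _ (hi.2.trans hj.2.symm))) (a3 w))
      have hs := sat_card (fun i : J × Sl => (i.1 ∈ P0 ∨ i.1 ∈ N) ∧ act i.1 i.2) (l x) D
      obtain ⟨y, b1, b2, b3⟩ := one_line hdeg (act c) (lab c) (hlab c) (pos c) (u c) (v c) (huv c)
        (hd c) {w | D ≤ {i : J × Sl | ((i.1 ∈ P0 ∨ i.1 ∈ N) ∧ act i.1 i.2) ∧ l x i = w}.ncard} h1 (by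
          rw [Fintype.card_prod] at hs
          refine Nat.le_of_mul_le_mul_left (le_trans ?_ h2) hD
          nlinarith [Nat.mul_le_mul_left (2 * Fintype.card Sl) hs])
      have old : ∀ i : J × Sl, i.1 ≠ c → l (Function.update x c y) i = l x i := fun i h => by
        simp only [l, Function.update_of_ne h]
      have new : ∀ σ, l (Function.update x c y) (c, σ) = lab c σ (y (u c σ)) (y (v c σ)) :=
        fun σ => by simp only [l, Function.update_self]
      have mem : ∀ j, j ≠ c → j ∈ P0 ∨ j ∈ insert c N → j ∈ P0 ∨ j ∈ N := fun j h =>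
        Or.imp_right fun h' => (mem_insert.1 h').resolve_left h
      refine ⟨Function.update x c y, fun j hj => ?_, (a2.add_far (act c) (pos c)
        (fun σ => lab c σ (y (u c σ)) (y (v c σ))) (fun σ σ' h _ => b1 σ σ' h) b2).mono ?_,
        fun w => ?_⟩
      · rw [Function.update_of_ne fun e : j = c => hc0 (e ▸ hj), a1 j hj]
      · rintro s t (h | h)
        · exact Or.inl (Or.inl h)
        · obtain ⟨c1, ⟨j, σ⟩, c2, c3⟩ := Ed_adj.1 h
          by_cases hj : j = c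
          · subst hj
            exact Or.inr (Ed_adj.2 ⟨c1, σ, c2.2, by simpa only [new] using c3⟩)
          · exact Or.inl (Or.inr (Ed_adj.2 ⟨c1, (j, σ), ⟨mem j hj c2.1, c2.2⟩, by
              simpa only [old (j, σ) hj] using c3⟩))
      · by_cases hw : ∃ σ, act c σ ∧ lab c σ (y (u c σ)) (y (v c σ)) = w
        · obtain ⟨σ, c1, c2⟩ := hw
          have c3 := b3 σ c1
          rw [c2, Set.mem_ofPred_eq, not_le] at c3
          refine le_trans (Set.ncard_le_ncard (t := insert (c, σ) {i : J × Sl |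
            ((i.1 ∈ P0 ∨ i.1 ∈ N) ∧ act i.1 i.2) ∧ l x i = w}) ?_)
            ((Set.ncard_insert_le _ _).trans c3)
          rintro ⟨j, σ'⟩ ⟨c4, c5⟩
          by_cases hj : j = c
          · subst hj
            left
            rw [new] at c5
            by_contra hne
            refine b2 σ' σ c4.2 c1 (fun e => hne (by rw [e])) ?_
            rw [c5, c2]
            exact ⟨Walk.nil, by simp⟩
          · exact Or.inr ⟨⟨mem j hj c4.1, c4.2⟩, (old _ hj).symm.trans c5⟩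
        · refine le_trans (Set.ncard_le_ncard ?_) (a3 w)
          rintro ⟨j, σ'⟩ ⟨c4, c5⟩
          by_cases hj : j = c
          · subst hj
            exact absurd ⟨σ', c4.2, (new σ').symm.trans c5⟩ hw
          · exact ⟨⟨mem j hj c4.1, c4.2⟩, (old _ hj).symm.trans c5⟩
  obtain ⟨x, a1, a2, -⟩ := main univ
  exact ⟨x, a1, by simpa using a2⟩

/-- The greedy choice of the labels. -/
theorem greedy {V J Ty Sl Var C Q : Type*} [Finite V] [Fintype J] [Finite Ty] [Fintype Sl]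
    [Fintype Var] [Fintype Q] {k Δ D : ℕ} {G : SimpleGraph V} (hG : GG k G)
    (hΔ : ∀ v, (G.neighborSet v).ncard ≤ Δ) (lab : C → Q → Q → V)
    (hlab : ∀ c a b c' a' b', lab c a b ∈ Ball G (lab c' a' b') k → c = c' ∧ a = a' ∧ b = b')
    (typ : J → Ty) (act : Ty → Sl → Prop) (pos : J → Sl → V)
    (hpos : ∀ j σ j' σ', pos j σ = pos j' σ' → j = j') (cls : Ty → Sl → C) (u v : Ty → Sl → Var)
    (huv : ∀ T σ, act T σ → u T σ ≠ v T σ)
    (hd : ∀ T σ σ', act T σ → act T σ' → σ ≠ σ' →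
      (u T σ ≠ u T σ' ∧ u T σ ≠ v T σ') ∨ (v T σ ≠ u T σ' ∧ v T σ ≠ v T σ'))
    (lat : Var → Q → Q → Q)
    (hlat : ∀ w w', w ≠ w' → Function.Injective fun z : Q × Q => (lat w z.1 z.2, lat w' z.1 z.2))
    (des : Ty → Prop)
    (hdes : ∀ T σ T' σ', des T → des T' → act T σ → act T' σ' → cls T σ = cls T' σ' →
      T = T' ∧ σ = σ')
    (many : ∀ T, des T → Fintype.card Q * Fintype.card Q +
      Fintype.card Sl * (Δ + Fintype.card Sl + D + 1) ^ k < {j | typ j = T}.ncard)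
    (h1 : 4 * Fintype.card Sl ^ 2 * (Δ + Fintype.card Sl + D + 1) ^ k < Fintype.card Q)
    (h2 : 2 * Fintype.card Sl ^ 2 * Fintype.card J ≤ D * (Fintype.card Q * Fintype.card Q))
    (hD : 0 < D) :
    ∃ x : J → Var → Q,
      GG k (G ⊔ Ed (fun i : J × Sl => act (typ i.1) i.2) (fun i => pos i.1 i.2) fun i =>
        lab (cls (typ i.1) i.2) (x i.1 (u (typ i.1) i.2)) (x i.1 (v (typ i.1) i.2))) ∧
      ∀ T σ, des T → act T σ → ∀ a b, ∃ j, typ j = T ∧ x j (u T σ) = a ∧ x j (v T σ) = b := by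
  classical
  have hQ : Nonempty Q := Fintype.card_pos_iff.1 (by omega)
  have labi : ∀ c a b c' a' b', lab c a b = lab c' a' b' → c = c' ∧ a = a' ∧ b = b' :=
    fun c a b c' a' b' h => hlab _ _ _ _ _ _ ⟨Walk.nil.copy rfl h.symm, by simp⟩
  let X := {T // des T} × Q × Q
  let lb : X → Sl → V := fun χ σ =>
    lab (cls χ.1 σ) (lat (u χ.1 σ) χ.2.1 χ.2.2) (lat (v χ.1 σ) χ.2.1 χ.2.2)
  have hlb : ∀ χ σ χ' σ', act χ.1 σ → act χ'.1 σ' → lb χ σ ∈ Ball G (lb χ' σ') k →
      χ = χ' ∧ σ = σ' := by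
    rintro ⟨⟨T, hT⟩, z⟩ σ ⟨⟨T', hT'⟩, z'⟩ σ' a a' h
    obtain ⟨e1, e2, e3⟩ := hlab _ _ _ _ _ _ h
    obtain ⟨rfl, rfl⟩ := hdes _ _ _ _ hT hT' a a' e1
    exact ⟨Prod.ext rfl (hlat _ _ (huv T σ a) (Prod.ext e2 e3)), rfl⟩
  obtain ⟨d, d1, d2, d3⟩ := phase_one (X := X) hG hΔ (fun χ σ => act χ.1 σ) lb hlb pos hpos
    (fun χ => χ.1.1) typ fun χ => by
      refine lt_of_le_of_lt (add_le_add ?_ ?_) (many _ χ.1.2)
      · have := Set.ncard_le_ncard_of_injOn (s := {χ' : X | χ'.1.1 = χ.1.1})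
          (t := (Set.univ : Set (Q × Q))) Prod.snd (fun _ _ => Set.mem_univ _)
          fun i hi j hj e => Prod.ext (Subtype.ext (Eq.trans hi (Eq.symm hj))) e
        rwa [Set.ncard_univ, Nat.card_eq_fintype_card, Fintype.card_prod] at this
      · exact Nat.mul_le_mul_left _ (Nat.pow_le_pow_left (by omega) _)
  obtain ⟨x0, hx0⟩ : ∃ x0 : J → Var → Q, ∀ χ w, x0 (d χ) w = lat w χ.2.1 χ.2.2 :=
    ⟨Function.extend d (fun χ w => lat w χ.2.1 χ.2.2) fun _ _ => Classical.arbitrary Q,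
      fun χ w => by rw [d1.extend_apply]⟩
  have e0 : ∀ χ σ, lab (cls (typ (d χ)) σ) (x0 (d χ) (u (typ (d χ)) σ))
      (x0 (d χ) (v (typ (d χ)) σ)) = lb χ σ := fun χ σ => by rw [hx0, hx0, d2]
  obtain ⟨x, a1, a2⟩ := phase_two hΔ (fun j σ => act (typ j) σ) (fun j σ => lab (cls (typ j) σ))
    (fun j σ a b a' b' h => (labi _ _ _ _ _ _ h).2) pos hpos (fun j => u (typ j))
    (fun j => v (typ j)) (fun j => huv _) (fun j => hd _) h1 h2 hD (Set.range d) x0
    (d3.mono (sup_le_sup_left (fun s t h => by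
      obtain ⟨c1, ⟨_, σ⟩, ⟨⟨χ, rfl⟩, c2⟩, c3⟩ := Ed_adj.1 h
      exact Ed_adj.2 ⟨c1, (χ, σ), d2 χ ▸ c2, by simpa only [e0] using c3⟩) _))
    fun y => by
      refine le_trans ((Set.ncard_le_one (Set.toFinite _)).2 ?_) hD
      rintro ⟨_, σ⟩ ⟨⟨⟨χ, rfl⟩, c1⟩, c2⟩ ⟨_, σ'⟩ ⟨⟨⟨χ', rfl⟩, c3⟩, c4⟩
      simp only [e0] at c2 c4
      obtain ⟨rfl, rfl⟩ := hlb χ σ χ' σ' (d2 χ ▸ c1) (d2 χ' ▸ c3)
        ⟨Walk.nil.copy rfl (c4.trans c2.symm), by simp⟩
      rfl
  refine ⟨x, a2, fun T σ hT ha a b => ?_⟩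
  obtain ⟨z, hz⟩ := Finite.injective_iff_surjective.1 (hlat _ _ (huv T σ ha)) (a, b)
  refine ⟨d (⟨T, hT⟩, z), d2 _, ?_, ?_⟩
  · rw [a1 _ ⟨_, rfl⟩, hx0]; exact (Prod.ext_iff.1 hz).1
  · rw [a1 _ ⟨_, rfl⟩, hx0]; exact (Prod.ext_iff.1 hz).2

/-- Latin families exist on `Fin p` for a prime `p` that is large enough. -/
theorem exists_lat {Var : Type*} [Fintype Var] {p : ℕ} (hp : p.Prime) (h : Fintype.card Var ≤ p) :
    ∃ lat : Var → Fin p → Fin p → Fin p, ∀ w w', w ≠ w' →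
      Function.Injective fun z : Fin p × Fin p => (lat w z.1 z.2, lat w' z.1 z.2) := by
  have := Fact.mk hp
  have : NeZero p := ⟨hp.ne_zero⟩
  obtain ⟨e⟩ : Nonempty (Fin p ≃ ZMod p) := Fintype.card_eq.1 (by simp)
  obtain ⟨i⟩ : Nonempty (Var ↪ ZMod p) := Function.Embedding.nonempty_of_card_le (by simpa using h)
  refine ⟨fun w s t => e.symm (e s + i w * e t), fun w w' hw z z' hz => ?_⟩
  simp only [Prod.mk.injEq, EmbeddingLike.apply_eq_iff_eq] at hz
  have h1 : (i w - i w') * (e z.2 - e z'.2) = 0 := by linear_combination hz.1 - hz.2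
  have h2 : e z.2 = e z'.2 :=
    sub_eq_zero.1 ((mul_eq_zero.1 h1).resolve_left (sub_ne_zero.2 fun h => hw (i.injective h)))
  have h3 : e z.1 = e z'.1 := by
    have := hz.1
    rw [h2] at this
    exact add_right_cancel this
  exact Prod.ext (e.injective h3) (e.injective h2)

end Pool.Agent.P.MP_439f1f_co
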