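import Pool.Agent.P.MP_439f1f_co.G3
import Pool.Agent.P.MP_439f1f_co.B2

/-!
Girth, degrees and distances in the skeleton; the greedy theorem for hubs and lines.
-/

set_option autoImplicit false

namespace Pool.Agent.P.MP_439f1f_co

open SimpleGraph Sum

variable {S Λ : Type*}

theorem cyc_two {V : Type*} {G : SimpleGraph V} {x v : V} {w : G.Walk x x} (hw : w.IsCycle)
    (hv : v ∈ w.support) : ∃ a b, a ≠ b ∧ s(v, a) ∈ w.edges ∧ s(v, b) ∈ w.edges := by
  obtain ⟨a, b, hab, hN⟩ := Set.ncard_eq_two.1 (hw.ncard_neighborSet_toSubgraph_eq_two hv)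
  have ha : a ∈ w.toSubgraph.neighborSet v := by rw [hN]; simp
  have hb : b ∈ w.toSubgraph.neighborSet v := by rw [hN]; simp
  exact ⟨a, b, hab, Walk.adj_toSubgraph_iff_mem_edges.1 ha, Walk.adj_toSubgraph_iff_mem_edges.1 hb⟩

/-- Girth of a skeleton (only the ends of the lines have hub neighbours, at most two each).
Every hub has at most one ordinary end leading to a hub of rank not smaller; every special end
has a potential. -/
theorem gg_skel {m k : ℕ} {hang : Λ → ℕ → S → Prop} (hk : k ≤ m)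
    (hend : ∀ L i s, hang L i s → i = 0 ∨ i = m)
    (two : ∀ L i a b c, hang L i a → hang L i b → hang L i c → a = b ∨ a = c ∨ b = c)
    (ρ : S → ℕ) (sp : Λ → ℕ → Prop)
    (up : ∀ s L i t L' i' t', hang L i s → hang L i t → t ≠ s → ρ s ≤ ρ t → ¬sp L i →
      hang L' i' s → hang L' i' t' → t' ≠ s → ρ s ≤ ρ t' → ¬sp L' i' → L = L' ∧ i = i')
    (hsp : ∀ L i a b, sp L i → hang L i a → hang L i b → a ≠ b → ∃ ψ : S → ℕ,
      (∀ L' i' s t, ¬(L' = L ∧ i' = i) → hang L' i' s → hang L' i' t → ψ s ≤ ψ t + 1) ∧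
      (ψ a + k ≤ ψ b ∨ ψ b + k ≤ ψ a)) : GG k (HL m hang) := by
  classical
  intro x w hw
  by_cases hl : ∃ p q, s(inr p, inr q) ∈ w.edges
  · -- a cycle with an edge of a line contains the line
    obtain ⟨L, i, j, hij, he⟩ : ∃ (L : Λ) (i j : Fin (m + 1)), (i : ℕ) + 1 = j ∧
        s(inr (L, i), inr (L, j)) ∈ w.edges := by
      obtain ⟨⟨L, i⟩, ⟨L', j⟩, he⟩ := hl
      obtain ⟨e, h⟩ := (HL_rr _ _).1 (w.adj_of_mem_edges he)
      simp only at e h
      subst e
      rcases h with h | h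
      exacts [⟨L, i, j, h, he⟩, ⟨L, j, i, h, Sym2.eq_swap ▸ he⟩]
    obtain ⟨p, e1, e2, -⟩ := cycle_split hw he
    have := walk_pot (Sum.elim (fun _ => 0) fun q : Λ × Fin (m + 1) =>
      if q.1 = L then (if (q.2 : ℕ) ≤ i then -(q.2 : ℕ) else (m : ℤ) - (q.2 : ℕ)) else 0) p (by
      rintro (s | ⟨A, a⟩) (t | ⟨B, b⟩) h hm
      · exact h.elim
      · have := hend _ _ _ h
        have := j.isLt
        simp only [elim_inl, elim_inr] at *
        split_ifs <;> omega
      · have := hend _ _ _ h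
        have := j.isLt
        simp only [elim_inl, elim_inr] at *
        split_ifs <;> omega
      · obtain ⟨e, h⟩ := (HL_rr _ _).1 h
        simp only at e h
        subst e
        simp only [elim_inr]
        by_cases hA : A = L
        · subst hA
          have n1 : ¬((a : ℕ) = i ∧ (b : ℕ) = j) := fun ⟨h1, h2⟩ =>
            e2 (by rwa [Fin.ext h1, Fin.ext h2] at hm)
          have n2 : ¬((b : ℕ) = i ∧ (a : ℕ) = j) := fun ⟨h1, h2⟩ =>
            e2 (by rwa [Fin.ext h1, Fin.ext h2, Sym2.eq_swap] at hm)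
          simp only [if_true]
          split_ifs <;> omega
        · simp [hA])
    simp only [elim_inr, if_true, le_refl] at this
    rw [if_neg (by omega)] at this
    omega
  have hub : ∀ p z, s(inr p, z) ∈ w.edges → ∃ t, z = inl t ∧ hang p.1 p.2 t := by
    rintro p (t | q) h
    · exact ⟨t, rfl, w.adj_of_mem_edges h⟩
    · exact absurd ⟨p, q, h⟩ hl
  by_cases hs : ∃ p : Λ × Fin (m + 1), inr p ∈ w.support ∧ sp p.1 p.2
  · obtain ⟨p, hp, hsp'⟩ := hs
    obtain ⟨a, b, hab, ea, eb⟩ := cyc_two hw hp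
    obtain ⟨a, rfl, ha⟩ := hub p a ea
    obtain ⟨b, rfl, hb⟩ := hub p b eb
    have hab' : a ≠ b := fun e => hab (by rw [e])
    obtain ⟨ψ, h1, h2⟩ := hsp _ _ a b hsp' ha hb hab'
    have fin : ∀ a b, s(inr p, inl a) ∈ w.edges → hang p.1 p.2 a → hang p.1 p.2 b → a ≠ b →
        ψ a + k ≤ ψ b → k ≤ w.length := by
      intro a b ea ha hb hab h2
      obtain ⟨q, e1, e2, e3⟩ := cycle_split hw (Sym2.eq_swap ▸ ea : s(inl a, inr p) ∈ w.edges)
      have lip : ∀ s (r : Λ × Fin (m + 1)), hang r.1 r.2 s → s(inl s, inr r) ∈ q.edges →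
          (if r = p then ψ b else sInf (ψ '' {s | hang r.1 r.2 s})) ≤ ψ s + 1 ∧
          ψ s ≤ (if r = p then ψ b else sInf (ψ '' {s | hang r.1 r.2 s})) + 1 := by
        intro s r h hm
        split_ifs with hr
        · subst hr
          rcases two _ _ s a b h ha hb with rfl | rfl | e
          · exact absurd hm e2
          · omega
          · exact absurd e hab
        · have c1 : sInf (ψ '' {s | hang r.1 r.2 s}) ≤ ψ s := Nat.sInf_le ⟨s, h, rfl⟩
          obtain ⟨t, c2, c3⟩ := Nat.sInf_mem (s := ψ '' {s | hang r.1 r.2 s}) ⟨_, s, h, rfl⟩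
          have := h1 _ _ s t (fun e => hr (Prod.ext e.1 (Fin.ext e.2))) h c2
          omega
      have := walk_pot (Sum.elim (fun s => (ψ s : ℤ)) fun r : Λ × Fin (m + 1) =>
        ((if r = p then ψ b else sInf (ψ '' {s | hang r.1 r.2 s}) : ℕ) : ℤ)) q (by
        rintro (s | r) (t | r') h hm
        · exact h.elim
        · have := (lip s r' h hm).1
          simp only [elim_inl, elim_inr]
          omega
        · have := (lip t r h (Sym2.eq_swap ▸ hm)).2
          simp only [elim_inl, elim_inr]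
          omega
        · exact absurd ⟨r, r', e3 _ hm⟩ hl)
      simp only [elim_inl, elim_inr, if_true] at this
      omega
    rcases h2 with h2 | h2
    exacts [fin a b ea ha hb hab' h2, fin b a eb hb ha hab'.symm h2]
  · exfalso
    have ne : ∃ s, inl s ∈ w.support := by
      rcases x with s | p
      · exact ⟨s, w.start_mem_support⟩
      · obtain ⟨a, -, -, ea, -⟩ := cyc_two hw w.start_mem_support
        obtain ⟨t, rfl, -⟩ := hub p a ea
        exact ⟨t, w.snd_mem_support_of_mem_edges ea⟩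
    obtain ⟨_, ⟨s, hs1, rfl⟩, hmin⟩ := wellFounded_lt.has_min (ρ '' {s | inl s ∈ w.support})
      (Set.Nonempty.image ρ ne)
    have step : ∀ z, s(inl s, z) ∈ w.edges → ∃ p t, z = inr p ∧ hang p.1 p.2 s ∧ hang p.1 p.2 t ∧
        t ≠ s ∧ ρ s ≤ ρ t ∧ ¬sp p.1 p.2 := by
      rintro (t | p) h
      · exact (w.adj_of_mem_edges h).elim
      · have hp := w.snd_mem_support_of_mem_edges h
        obtain ⟨a, b, hab, ea, eb⟩ := cyc_two hw hp
        obtain ⟨a, rfl, ha⟩ := hub p a ea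
        obtain ⟨b, rfl, hb⟩ := hub p b eb
        have c : ∀ t, s(inr p, inl t) ∈ w.edges → ρ s ≤ ρ t := fun t e =>
          not_lt.1 (hmin _ ⟨t, w.snd_mem_support_of_mem_edges e, rfl⟩)
        by_cases e : a = s
        · exact ⟨p, b, rfl, w.adj_of_mem_edges h, hb, fun e' => hab (by rw [e, e']), c b eb,
            fun h' => hs ⟨p, hp, h'⟩⟩
        · exact ⟨p, a, rfl, w.adj_of_mem_edges h, ha, e, c a ea, fun h' => hs ⟨p, hp, h'⟩⟩
    obtain ⟨a, b, hab, ea, eb⟩ := cyc_two hw hs1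
    obtain ⟨p, t, rfl, a1, a2, a3, a4, a5⟩ := step a ea
    obtain ⟨q, t', rfl, b1, b2, b3, b4, b5⟩ := step b eb
    obtain ⟨e1, e2⟩ := up s _ _ t _ _ t' a1 a2 a3 a4 a5 b1 b2 b3 b4 b5
    exact hab (by rw [Prod.ext e1 (Fin.ext e2)])

/-- Distances between hubs in a skeleton from a potential on the hubs. -/
theorem far_skel {m : ℕ} {hang : Λ → ℕ → S → Prop} (hm : 1 ≤ m)
    (hend : ∀ L i s, hang L i s → i = 0 ∨ i = m) (ψ : S → ℕ) (hb : ∀ s, ψ s ≤ m)
    (hψ : ∀ L i s t, hang L i s → hang L i t → ψ s ≤ ψ t + 1) {a b : S} {k : ℕ}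
    (h : ψ a + k < ψ b) : inl b ∉ Ball (HL m hang) (inl a) k := by
  rintro ⟨p, hp⟩
  have lip : ∀ L i s, hang L i s → sInf (ψ '' {s | hang L i s}) ≤ ψ s ∧
      ψ s ≤ sInf (ψ '' {s | hang L i s}) + 1 := by
    intro L i s h
    obtain ⟨t, c2, c3⟩ := Nat.sInf_mem (s := ψ '' {s | hang L i s}) ⟨_, s, h, rfl⟩
    have := hψ _ _ s t h c2
    exact ⟨Nat.sInf_le ⟨s, h, rfl⟩, by omega⟩
  have bd : ∀ L i, sInf (ψ '' {s | hang L i s}) ≤ m := by
    intro L i
    rcases Set.eq_empty_or_nonempty {s | hang L i s} with e | ⟨s, hs⟩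
    · simp [e]
    · exact (lip L i s hs).1.trans (hb s)
  have := walk_pot (Sum.elim (fun s => (ψ s : ℤ)) fun r : Λ × Fin (m + 1) =>
    ((min (sInf (ψ '' {s | hang r.1 0 s}) + r.2) (sInf (ψ '' {s | hang r.1 m s}) + (m - r.2)) : ℕ) :
      ℤ)) p (by
    rintro (s | ⟨A, i⟩) (t | ⟨B, j⟩) h -
    · exact h.elim
    · have h' : hang B j s := h
      have c0 := bd B 0
      have c1 := bd B m
      simp only [elim_inl, elim_inr]
      rcases hend _ _ _ h' with e | e <;> rw [e] at h' ⊢ <;> have := lip _ _ _ h' <;> omega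
    · have h' : hang A i t := h
      have c0 := bd A 0
      have c1 := bd A m
      simp only [elim_inl, elim_inr]
      rcases hend _ _ _ h' with e | e <;> rw [e] at h' ⊢ <;> have := lip _ _ _ h' <;> omega
    · obtain ⟨e, h⟩ := (HL_rr _ _).1 h
      simp only at e h
      subst e
      have := i.isLt
      have := j.isLt
      simp only [elim_inr]
      omega)
  simp only [elim_inl] at this
  omega

theorem deg_HL [Finite S] [Finite Λ] {m Δ : ℕ} {hang : Λ → ℕ → S → Prop}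
    (h1 : ∀ s, {p : Λ × Fin (m + 1) | hang p.1 p.2 s}.ncard ≤ Δ)
    (h2 : ∀ L i, {s | hang L i s}.ncard + 2 ≤ Δ) (v : S ⊕ Λ × Fin (m + 1)) :
    ((HL m hang).neighborSet v).ncard ≤ Δ := by
  have e : (HL m hang).neighborSet v = {z | (HL m hang).Adj v z} := rfl
  rw [e, ncard_sum]
  rcases v with s | ⟨L, i⟩
  · simpa using h1 s
  · refine le_trans (add_le_add le_rfl ?_) (h2 L i)
    have := Set.ncard_le_ncard_of_injOn (s := {q | (HL m hang).Adj (inr (L, i)) (inr q)})
      (t := ({(i : ℕ) + 2, (i : ℕ)} : Set ℕ)) (fun q => (q.2 : ℕ) + 1) (fun q hq => by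
        have := ((HL_rr (hang := hang) _ _).1 hq).2
        simp only [Set.mem_insert_iff, Set.mem_singleton_iff] at this ⊢
        omega) fun q hq r hr e =>
      Prod.ext (((HL_rr (hang := hang) _ _).1 hq).1.symm.trans ((HL_rr (hang := hang) _ _).1 hr).1)
        (Fin.ext (by simpa using e))
    exact this.trans ((Set.ncard_insert_le _ _).trans (by simp))

/-- The greedy choice of the labels for hubs and lines. -/
theorem greedy_HL {Ty Sl Var C Q : Type*} [Finite S] [Fintype Λ] [Finite Ty] [Fintype Sl]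
    [Fintype Var] [Fintype Q] {m k Δ D : ℕ} {hang0 : Λ → ℕ → S → Prop} (hG : GG k (HL m hang0))
    (hΔ : ∀ v, ((HL m hang0).neighborSet v).ncard ≤ Δ) (lab : C → Q → Q → S)
    (hlab : ∀ c a b c' a' b', inl (lab c a b) ∈ Ball (HL m hang0) (inl (lab c' a' b')) k →
      c = c' ∧ a = a' ∧ b = b')
    (typ : Λ → Ty) (act : Ty → Sl → Prop) (ps : Ty → Sl → ℕ) (hps : ∀ T σ, ps T σ ≤ m)
    (cls : Ty → Sl → C) (u v : Ty → Sl → Var) (huv : ∀ T σ, act T σ → u T σ ≠ v T σ)
    (hd : ∀ T σ σ', act T σ → act T σ' → σ ≠ σ' →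
      (u T σ ≠ u T σ' ∧ u T σ ≠ v T σ') ∨ (v T σ ≠ u T σ' ∧ v T σ ≠ v T σ'))
    (lat : Var → Q → Q → Q)
    (hlat : ∀ w w', w ≠ w' → Function.Injective fun z : Q × Q => (lat w z.1 z.2, lat w' z.1 z.2))
    (des : Ty → Prop)
    (hdes : ∀ T σ T' σ', des T → des T' → act T σ → act T' σ' → cls T σ = cls T' σ' →
      T = T' ∧ σ = σ')
    (many : ∀ T, des T → Fintype.card Q * Fintype.card Q +
      Fintype.card Sl * (Δ + Fintype.card Sl + D + 1) ^ k < {L | typ L = T}.ncard)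
    (h1 : 4 * Fintype.card Sl ^ 2 * (Δ + Fintype.card Sl + D + 1) ^ k < Fintype.card Q)
    (h2 : 2 * Fintype.card Sl ^ 2 * Fintype.card Λ ≤ D * (Fintype.card Q * Fintype.card Q))
    (hD : 0 < D) :
    ∃ x : Λ → Var → Q,
      GG k (HL m fun L i s => hang0 L i s ∨ ∃ σ, act (typ L) σ ∧ ps (typ L) σ = i ∧
        lab (cls (typ L) σ) (x L (u (typ L) σ)) (x L (v (typ L) σ)) = s) ∧
      ∀ T σ, des T → act T σ → ∀ a b, ∃ L, typ L = T ∧ x L (u T σ) = a ∧ x L (v T σ) = b := by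
  obtain ⟨x, a1, a2⟩ := greedy hG hΔ (fun c a b => inl (lab c a b)) hlab typ act
    (fun L σ => inr (L, ⟨ps (typ L) σ, Nat.lt_succ_of_le (hps _ _)⟩))
    (fun _ _ _ _ h => congrArg Prod.fst (inr_injective h)) cls u v huv hd lat hlat des hdes many
    h1 h2 hD
  refine ⟨x, a1.mono ?_, a2⟩
  rintro (s | ⟨L, i⟩) (t | ⟨L', j⟩) h
  · exact h.elim
  · refine Or.imp id ?_ h
    rintro ⟨σ, c1, c2, rfl⟩
    exact Ed_adj.2 ⟨by simp, (L', σ), c1, Or.inr ⟨rfl, congrArg inr (Prod.ext rfl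
      (Fin.ext c2.symm))⟩⟩
  · refine Or.imp id ?_ h
    rintro ⟨σ, c1, c2, rfl⟩
    exact Ed_adj.2 ⟨by simp, (L, σ), c1, Or.inl ⟨congrArg inr (Prod.ext rfl
      (Fin.ext c2.symm)), rfl⟩⟩
  · exact Or.inl h

end Pool.Agent.P.MP_439f1f_co
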