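import Pool.Agent.P.MP_439f1f_co.G4

/-!
The greedy theorem when a line carries several independent jobs.
-/

set_option autoImplicit false

namespace Pool.Agent.P.MP_439f1f_co

open SimpleGraph Sum

variable {S Λ : Type*}

/-- The greedy choice of the labels, several jobs on one line. -/
theorem greedy_HLJ {J Ty Sl Var C Q : Type*} [Finite S] [Finite Λ] [Fintype J] [Finite Ty]
    [Fintype Sl] [Fintype Var] [Fintype Q] {m k Δ D : ℕ} {hang0 : Λ → ℕ → S → Prop}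
    (hG : GG k (HL m hang0)) (hΔ : ∀ v, ((HL m hang0).neighborSet v).ncard ≤ Δ)
    (lab : C → Q → Q → S)
    (hlab : ∀ c a b c' a' b', inl (lab c a b) ∈ Ball (HL m hang0) (inl (lab c' a' b')) k →
      c = c' ∧ a = a' ∧ b = b')
    (line : J → Λ) (typ : J → Ty) (act : Ty → Sl → Prop) (ps : J → Sl → ℕ)
    (hps : ∀ j σ, ps j σ ≤ m)
    (hpos : ∀ j σ j' σ', line j = line j' → ps j σ = ps j' σ' → j = j')
    (cls : Ty → Sl → C) (u v : Ty → Sl → Var) (huv : ∀ T σ, act T σ → u T σ ≠ v T σ)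
    (hd : ∀ T σ σ', act T σ → act T σ' → σ ≠ σ' →
      (u T σ ≠ u T σ' ∧ u T σ ≠ v T σ') ∨ (v T σ ≠ u T σ' ∧ v T σ ≠ v T σ'))
    (lat : Var → Q → Q → Q)
    (hlat : ∀ w w', w ≠ w' → Function.Injective fun z : Q × Q => (lat w z.1 z.2, lat w' z.1 z.2))
    (des : Ty → Prop)
    (hdes : ∀ T σ T' σ', des T → des T' → act T σ → act T' σ' → cls T σ = cls T' σ' →
      T = T' ∧ σ = σ')
    (many : ∀ T, des T → Fintype.card Q * Fintype.card Q +
      Fintype.card Sl * (Δ + Fintype.card Sl + D + 1) ^ k < {j | typ j = T}.ncard)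
    (h1 : 4 * Fintype.card Sl ^ 2 * (Δ + Fintype.card Sl + D + 1) ^ k < Fintype.card Q)
    (h2 : 2 * Fintype.card Sl ^ 2 * Fintype.card J ≤ D * (Fintype.card Q * Fintype.card Q))
    (hD : 0 < D) :
    ∃ x : J → Var → Q,
      GG k (HL m fun L i s => hang0 L i s ∨ ∃ j σ, line j = L ∧ act (typ j) σ ∧ ps j σ = i ∧
        lab (cls (typ j) σ) (x j (u (typ j) σ)) (x j (v (typ j) σ)) = s) ∧
      ∀ T σ, des T → act T σ → ∀ a b, ∃ j, typ j = T ∧ x j (u T σ) = a ∧ x j (v T σ) = b := by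
  obtain ⟨x, a1, a2⟩ := greedy hG hΔ (fun c a b => inl (lab c a b)) hlab typ act
    (fun j σ => inr (line j, ⟨ps j σ, Nat.lt_succ_of_le (hps _ _)⟩))
    (fun j σ j' σ' h => hpos j σ j' σ' (congrArg Prod.fst (inr_injective h))
      (congrArg (fun p : Λ × Fin (m + 1) => (p.2 : ℕ)) (inr_injective h)))
    cls u v huv hd lat hlat des hdes many h1 h2 hD
  refine ⟨x, a1.mono ?_, a2⟩
  rintro (s | ⟨L, i⟩) (t | ⟨L', i'⟩) h
  · exact h.elim
  · refine Or.imp id ?_ h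
    rintro ⟨j, σ, rfl, c1, c2, rfl⟩
    exact Ed_adj.2 ⟨by simp, (j, σ), c1, Or.inr ⟨rfl, congrArg inr (Prod.ext rfl
      (Fin.ext c2.symm))⟩⟩
  · refine Or.imp id ?_ h
    rintro ⟨j, σ, rfl, c1, c2, rfl⟩
    exact Ed_adj.2 ⟨by simp, (j, σ), c1, Or.inl ⟨congrArg inr (Prod.ext rfl
      (Fin.ext c2.symm)), rfl⟩⟩
  · exact Or.inl h

end Pool.Agent.P.MP_439f1f_co
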