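import Pool.Agent.P.MP_439f1f_co.G5

/-!
Forests of bounded branching above the labels.
-/

set_option autoImplicit false

namespace Pool.Agent.P.MP_439f1f_co

/-- A forest with the levels `1, …, D`; the leaves (level `D`) are the labels `X`.
The levels `1, 2` depend on the tree only, the levels `3, 4` on the class only, odd nodes have one
child, the last `e` steps above a label are private, and there are at most `b` children. -/
structure Forest (X C T N : Type) (cl : X → C) (tr : C → T) (D e b : ℕ) where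
  anc : X → ℕ → N
  lev : N → ℕ
  par : N → N
  lev_anc : ∀ x l, 1 ≤ l → l ≤ D → lev (anc x l) = l
  surj : ∀ n, 1 ≤ lev n ∧ lev n ≤ D ∧ ∃ x, anc x (lev n) = n
  par_anc : ∀ x l, 1 ≤ l → l < D → par (anc x (l + 1)) = anc x l
  top : ∀ x y l, 1 ≤ l → l ≤ 2 → (anc x l = anc y l ↔ tr (cl x) = tr (cl y))
  mid : ∀ x y l, 3 ≤ l → l ≤ 4 → (anc x l = anc y l ↔ cl x = cl y)
  odd : ∀ x y l, Odd l → l < D → anc x l = anc y l → anc x (l + 1) = anc y (l + 1)
  priv : ∀ x y l, D ≤ l + e → l ≤ D → anc x l = anc y l → x = y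
  deg : ∀ n, {n' | 2 ≤ lev n' ∧ par n' = n}.ncard ≤ b

namespace Forest

variable {X C T N : Type} {cl : X → C} {tr : C → T} {D e b : ℕ} (F : Forest X C T N cl tr D e b)

theorem up {x y : X} {l l' : ℕ} (h : F.anc x l = F.anc y l) (h1 : 1 ≤ l') (h2 : l' ≤ l)
    (h3 : l ≤ D) : F.anc x l' = F.anc y l' := by
  induction l, h2 using Nat.le_induction with
  | base => exact h
  | succ l h2 ih =>
    refine ih ?_ (by omega)
    rw [← F.par_anc x l (by omega) h3, h, F.par_anc y l (by omega) h3]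

theorem lev_par {n : N} (h : 2 ≤ F.lev n) : F.lev (F.par n) + 1 = F.lev n := by
  obtain ⟨-, h1, x, h2⟩ := F.surj n
  obtain ⟨l, hl⟩ : ∃ l, F.lev n = l + 1 := ⟨F.lev n - 1, by omega⟩
  rw [hl] at h2
  rw [← h2, F.par_anc x l (by omega) (by omega), F.lev_anc x l (by omega) (by omega),
    F.lev_anc x (l + 1) (by omega) (by omega)]

theorem par_eq {n : N} {x : X} {l : ℕ} (h : 2 ≤ F.lev n) (hl : l ≤ D) (h1 : 1 ≤ l)
    (e : F.par n = F.anc x l) : F.lev n = l + 1 := by
  rw [← F.lev_par h, e, F.lev_anc x l h1 hl]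

include F in
theorem finite [Finite X] : Finite N :=
  Finite.of_surjective (fun z : X × Fin (D + 1) => F.anc z.1 z.2) fun n => by
    obtain ⟨-, h, x, e⟩ := F.surj n
    exact ⟨(x, ⟨_, Nat.lt_succ_of_le h⟩), e⟩

include F in
theorem card_le [Finite X] : Nat.card N ≤ Nat.card X * (D + 1) := by
  have := Nat.card_le_card_of_surjective (fun z : X × Fin (D + 1) => F.anc z.1 z.2) fun n => by
    obtain ⟨-, h, x, e⟩ := F.surj n
    exact ⟨(x, ⟨_, Nat.lt_succ_of_le h⟩), e⟩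
  simpa using this

theorem roots [Finite T] : {n | F.lev n = 1}.ncard ≤ Nat.card T := by
  have h : ∀ n, ∃ x, F.anc x (F.lev n) = n := fun n => (F.surj n).2.2
  choose g hg using h
  rw [← Set.ncard_univ]
  refine Set.ncard_le_ncard_of_injOn (fun n => tr (cl (g n))) (fun _ _ => Set.mem_univ _)
    fun n hn n' hn' e => ?_
  have h1 : F.lev n = 1 := hn
  have h2 : F.lev n' = 1 := hn'
  rw [← hg n, ← hg n', h1, h2]
  exact (F.top _ _ 1 le_rfl one_le_two).2 e

end Forest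

/-- what a node of level `l` knows about a label -/
def nkey {X C T : Type} {w p : ℕ} (cl : X → C) (tr : C → T) (wd : X → Fin w → Fin p) (l : ℕ)
    (x : X) : ℕ × T × Option C × (ℕ → Option (Fin p)) :=
  (l, tr (cl x), if 3 ≤ l then some (cl x) else none,
    fun i => if h : i < w ∧ 2 * i + 5 ≤ l then some (wd x ⟨i, h.1⟩) else none)

theorem nkey_eq {X C T : Type} {w p : ℕ} {cl : X → C} {tr : C → T} {wd : X → Fin w → Fin p}
    {l : ℕ} {x y : X} : nkey cl tr wd l x = nkey cl tr wd l y ↔ tr (cl x) = tr (cl y) ∧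
      (3 ≤ l → cl x = cl y) ∧ ∀ i : Fin w, 2 * (i : ℕ) + 5 ≤ l → wd x i = wd y i := by
  simp only [nkey, Prod.mk.injEq, true_and, funext_iff]
  refine and_congr_right fun _ => and_congr ?_ ⟨fun h i hi => ?_, fun h i => ?_⟩
  · split_ifs with h <;> simp [h]
  · simpa [hi] using h i
  · split_ifs with hi
    exacts [congrArg some (h ⟨i, hi.1⟩ hi.2), rfl]

theorem exists_forest {X C T : Type} [Finite C] {w p D e : ℕ} (cl : X → C) (tr : C → T)
    (wd : X → Fin w → Fin p) (inj : ∀ x y, cl x = cl y → wd x = wd y → x = y)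
    (hD : 2 * w + 4 + e ≤ D) :
    ∃ N : Type, Nonempty (Forest X C T N cl tr D e ((Nat.card C + 1) * (p + 1))) := by
  classical
  let cp : ℕ → ℕ := fun l => max 1 (min l D)
  have c0 : ∀ l, 1 ≤ cp l ∧ cp l ≤ D := fun l => by simp only [cp]; omega
  have c1 : ∀ l, 1 ≤ l → l ≤ D → cp l = l := fun l _ _ => by simp only [cp]; omega
  let N := {z // ∃ l x, 1 ≤ l ∧ l ≤ D ∧ z = nkey cl tr wd l x}
  let anc : X → ℕ → N := fun x l => ⟨nkey cl tr wd (cp l) x, _, x, (c0 l).1, (c0 l).2, rfl⟩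
  have ae : ∀ x y l, 1 ≤ l → l ≤ D → (anc x l = anc y l ↔ tr (cl x) = tr (cl y) ∧
      (3 ≤ l → cl x = cl y) ∧ ∀ i : Fin w, 2 * (i : ℕ) + 5 ≤ l → wd x i = wd y i) := by
    intro x y l h1 h2
    rw [Subtype.ext_iff]
    simp only [anc, c1 l h1 h2, nkey_eq]
  have su : ∀ n : N, 1 ≤ n.1.1 ∧ n.1.1 ≤ D ∧ ∃ x, anc x n.1.1 = n := by
    rintro ⟨_, l, x, h1, h2, rfl⟩
    exact ⟨h1, h2, x, Subtype.ext (congrArg (nkey cl tr wd · x) (c1 l h1 h2))⟩
  choose s1 s2 g hg using su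
  have pa : ∀ x l, 1 ≤ l → l < D → anc (g (anc x (l + 1))) ((anc x (l + 1)).1.1 - 1) = anc x l := by
    intro x l h1 h2
    have e : (anc x (l + 1)).1.1 = l + 1 := c1 _ (by omega) h2
    have h3 := hg (anc x (l + 1))
    rw [e] at h3 ⊢
    obtain ⟨a1, a2, a3⟩ := (ae _ _ _ (by omega) h2).1 h3
    exact (ae _ _ l h1 h2.le).2 ⟨a1, fun h => a2 (by omega), fun i h => a3 i (by omega)⟩
  refine ⟨N, ⟨⟨anc, fun n => n.1.1, fun n => anc (g n) (n.1.1 - 1), fun x l => c1 l,
    fun n => ⟨s1 n, s2 n, g n, hg n⟩, pa, fun x y l h1 h2 => ?_, fun x y l h1 h2 => ?_,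
    fun x y l h1 h2 h => ?_, fun x y l h1 h2 h => ?_, fun n => ?_⟩⟩⟩
  · rw [ae x y l h1 (by omega)]
    exact ⟨fun h => h.1, fun h => ⟨h, fun _ => by omega, fun _ _ => by omega⟩⟩
  · rw [ae x y l (by omega) (by omega)]
    exact ⟨fun h => h.2.1 h1, fun h => ⟨congrArg tr h, fun _ => h, fun _ _ => by omega⟩⟩
  · obtain ⟨j, rfl⟩ := h1
    obtain ⟨a1, a2, a3⟩ := (ae _ _ _ (by omega) h2.le).1 h
    exact (ae _ _ _ (by omega) h2).2 ⟨a1, fun h => a2 (by omega), fun i h => a3 i (by omega)⟩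
  · obtain ⟨-, a2, a3⟩ := (ae _ _ _ (by omega) h2).1 h
    exact inj x y (a2 (by omega)) (funext fun i => a3 i (by have := i.2; omega))
  · have e : (Nat.card C + 1) * (p + 1) = (Set.univ : Set (Option C × Option (Fin p))).ncard := by
      simp [Set.ncard_univ, Finite.card_option]
    rw [e]
    refine Set.ncard_le_ncard_of_injOn
      (fun n' : N => (some (cl (g n')), (nkey cl tr wd n'.1.1 (g n')).2.2.2 ((n.1.1 - 4) / 2)))
      (fun _ _ => Set.mem_univ _) fun a ha b hb h => ?_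
    have lv : ∀ a : N, 2 ≤ a.1.1 → anc (g a) (a.1.1 - 1) = n → a.1.1 = n.1.1 + 1 := by
      intro a h1 h2
      have : cp (a.1.1 - 1) = n.1.1 := congrArg (fun z : N => z.1.1) h2
      have := c1 (a.1.1 - 1) (by omega) (by have := s2 a; omega)
      omega
    have la := lv a ha.1 ha.2
    have lb := lv b hb.1 hb.2
    have h1 := ha.2.trans hb.2.symm
    have h2 := s1 n
    have h3 := s2 a
    simp only [la, lb, Nat.add_sub_cancel, Prod.mk.injEq, Option.some.injEq, nkey] at h1 h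
    obtain ⟨a1, -, a3⟩ := (ae _ _ _ h2 (s2 n)).1 h1
    rw [← hg a, ← hg b, la, lb, ae _ _ _ (by omega) (by omega)]
    refine ⟨a1, fun _ => h.1, fun i hi => ?_⟩
    by_cases hl : 2 * (i : ℕ) + 5 ≤ n.1.1
    · exact a3 i hl
    · have e : (n.1.1 - 4) / 2 = i := by omega
      have := h.2
      rw [e, dif_pos ⟨i.2, hi⟩, dif_pos ⟨i.2, hi⟩] at this
      exact Option.some.inj this

end Pool.Agent.P.MP_439f1f_co
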