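import Pool.Agent.P.MP_439f1f_co.G6

/-!
The skeleton made of a forest and of long cycles: girth, degrees, distance of the labels.
-/

set_option autoImplicit false

namespace Pool.Agent.P.MP_439f1f_co

open SimpleGraph Sum

/-- capped distance along a map -/
noncomputable def cd {Z : Type} (σ : Z → Z) (k : ℕ) (z w : Z) : ℕ :=
  sInf {j | j = k ∨ σ^[j] z = w}

theorem cd_spec {Z : Type} (σ : Z → Z) (k : ℕ) (z w : Z) :
    cd σ k z w ≤ k ∧ (cd σ k z w = k ∨ σ^[cd σ k z w] z = w) ∧
      ∀ j, σ^[j] z = w → cd σ k z w ≤ j :=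
  ⟨Nat.sInf_le (Or.inl rfl), Nat.sInf_mem (s := {j | j = k ∨ σ^[j] z = w}) ⟨k, Or.inl rfl⟩,
    fun _ h => Nat.sInf_le (Or.inr h)⟩

theorem cd_step {Z : Type} {σ : Z → Z} (hσ : Function.Injective σ) (k : ℕ) {z w : Z}
    (h : w ≠ z) : cd σ k (σ z) (σ w) ≤ cd σ k (σ z) w + 1 ∧
      cd σ k (σ z) w ≤ cd σ k (σ z) (σ w) + 1 := by
  obtain ⟨a1, a2, a3⟩ := cd_spec σ k (σ z) w
  obtain ⟨b1, b2, b3⟩ := cd_spec σ k (σ z) (σ w)
  constructor
  · rcases a2 with e | e
    · omega
    · exact b3 _ (by rw [Function.iterate_succ_apply', e])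
  · rcases b2 with e | e
    · omega
    · rcases hj : cd σ k (σ z) (σ w) with _ | j <;> rw [hj] at e
      · exact absurd (hσ e).symm h
      · rw [Function.iterate_succ_apply'] at e
        have := a3 j (hσ e)
        omega

namespace Forest

variable {X C T N Z : Type} {cl : X → C} {tr : C → T} {D e b : ℕ} (F : Forest X C T N cl tr D e b)

/-- first hub of an edge of the skeleton -/
def ea : N ⊕ N ⊕ Z → Option (N ⊕ Z)
  | inl n => some (inl n)
  | inr (inl n) => some (inl n)
  | inr (inr z) => some (inr z)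

/-- second hub of an edge of the skeleton -/
def eb (gate : N → Z) (σ : Z → Z) : N ⊕ N ⊕ Z → Option (N ⊕ Z)
  | inl n => if F.lev n = 1 then none else some (inl (F.par n))
  | inr (inl n) => some (inr (gate n))
  | inr (inr z) => some (inr (σ z))

/-- The skeleton: the hubs are coded by `κ` (`none` is the centre), the ends with two hubs are
coded by `nm`; `A L i` is the standard hub of an end. -/
structure Skel {S Λ : Type} (m k : ℕ) (hang : Λ → ℕ → S → Prop) (κ : S → Option (N ⊕ Z))
    (gate : N → Z) (σ : Z → Z) (own : Z → Option N) (nm : Λ → ℕ → N ⊕ N ⊕ Z)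
    (A : Λ → ℕ → S) : Prop where
  kinj : Function.Injective κ
  sinj : Function.Injective σ
  long : ∀ z j, 0 < j → j ≤ k → σ^[j] z ≠ z
  own_s : ∀ z, own (σ z) = own z
  own_g : ∀ n, own (gate n) = some n
  ends : ∀ L i s, hang L i s → i = 0 ∨ i = m
  std : ∀ L i s, hang L i s → hang L i (A L i)
  ainj : ∀ L L' i, A L i = A L' i → L = L'
  name : ∀ L i s t, hang L i s → hang L i t → s ≠ t →
    (κ s = ea (nm L i) ∧ κ t = F.eb gate σ (nm L i)) ∨
      (κ t = ea (nm L i) ∧ κ s = F.eb gate σ (nm L i))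
  ninj : ∀ L i s t L' i' s' t', hang L i s → hang L i t → s ≠ t → hang L' i' s' → hang L' i' t' →
    s' ≠ t' → nm L i = nm L' i' → L = L' ∧ i = i'

variable {F} {S Λ : Type} {m k : ℕ} {hang : Λ → ℕ → S → Prop} {κ : S → Option (N ⊕ Z)}
  {gate : N → Z} {σ : Z → Z} {own : Z → Option N} {nm : Λ → ℕ → N ⊕ N ⊕ Z} {A : Λ → ℕ → S}

theorem Skel.two (H : F.Skel m k hang κ gate σ own nm A) (L : Λ) (i : ℕ) (a b c : S)
    (ha : hang L i a) (hb : hang L i b) (hc : hang L i c) : a = b ∨ a = c ∨ b = c := by
  by_contra h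
  push Not at h
  rcases H.name L i a b ha hb h.1 with p | p <;> rcases H.name L i a c ha hc h.2.1 with q | q
  exacts [h.2.2 (H.kinj (p.2.trans q.2.symm)), h.2.1 (H.kinj (p.1.trans q.1.symm)),
    h.1 (H.kinj (q.1.trans p.1.symm)), h.2.2 (H.kinj (p.1.trans q.1.symm))]

theorem Skel.lip (H : F.Skel m k hang κ gate σ own nm A) (ψ : Option (N ⊕ Z) → ℕ) {L : Λ} {i : ℕ}
    (h : (∃ s t, hang L i s ∧ hang L i t ∧ s ≠ t) → ψ (ea (nm L i)) ≤ ψ (F.eb gate σ (nm L i)) + 1 ∧
      ψ (F.eb gate σ (nm L i)) ≤ ψ (ea (nm L i)) + 1) (s t : S) (hs : hang L i s)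
    (ht : hang L i t) : ψ (κ s) ≤ ψ (κ t) + 1 := by
  by_cases e : s = t
  · rw [e]; omega
  · have := h ⟨s, t, hs, ht, e⟩
    rcases H.name L i s t hs ht e with p | p <;> rw [p.1, p.2]
    exacts [this.1, this.2]

theorem Skel.gg (H : F.Skel m k hang κ gate σ own nm A) (hk : k ≤ m) : GG k (HL m hang) := by
  classical
  let ρ : Option (N ⊕ Z) → ℕ := fun v => v.elim (D + 1) (Sum.elim (fun n => D + 1 - F.lev n) 0)
  refine gg_skel hk H.ends H.two (fun s => ρ (κ s)) (fun L i => ∃ z, nm L i = inr (inr z)) ?_ ?_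
  · have key : ∀ s L i t, hang L i s → hang L i t → t ≠ s → ρ (κ s) ≤ ρ (κ t) →
        (¬∃ z, nm L i = inr (inr z)) → ∃ n, (nm L i = inl n ∧ κ s = some (inl n)) ∨
          (nm L i = inr (inl n) ∧ κ s = some (inr (gate n))) := by
      intro s L i t hs ht hne hρ hsp
      have := H.name L i s t hs ht hne.symm
      rcases hn : nm L i with n | n | z <;> rw [hn] at this
      · refine ⟨n, Or.inl ⟨rfl, ?_⟩⟩
        rcases this with p | p
        · exact p.1
        · exfalso
          obtain ⟨l1, l2, -⟩ := F.surj n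
          rw [p.1, p.2] at hρ
          simp only [ea, eb, ρ] at hρ
          split_ifs at hρ with h
          · simp at hρ; omega
          · have := F.lev_par (n := n) (by omega)
            simp at hρ; omega
      · refine ⟨n, Or.inr ⟨rfl, ?_⟩⟩
        rcases this with p | p
        · exfalso
          obtain ⟨l1, l2, -⟩ := F.surj n
          rw [p.1, p.2] at hρ
          simp [ea, eb, ρ] at hρ
          omega
        · exact p.2
      · exact absurd ⟨z, hn⟩ hsp
    intro s L i t L' i' t' a1 a2 a3 a4 a5 b1 b2 b3 b4 b5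
    obtain ⟨n, hn⟩ := key s L i t a1 a2 a3 a4 a5
    obtain ⟨n', hn'⟩ := key s L' i' t' b1 b2 b3 b4 b5
    refine H.ninj L i t s L' i' t' s a2 a1 a3 b2 b1 b3 ?_
    rcases hn with p | p <;> rcases hn' with q | q <;> have r := p.2.symm.trans q.2 <;>
      simp only [Option.some.injEq, inl.injEq, inr.injEq, reduceCtorEq] at r
    · rw [p.1, q.1, r]
    · have := H.own_g n
      rw [r, H.own_g] at this
      rw [p.1, q.1, Option.some.inj this]
  · rintro L i a c ⟨z, hz⟩ ha hc hac
    let ψ0 : ℕ := (own z).elim 0 fun n => cd σ k (σ z) (gate n)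
    let ψ : Option (N ⊕ Z) → ℕ := fun v => v.elim ψ0
      (Sum.elim (fun _ => ψ0) fun w => if own w = own z then cd σ k (σ z) w else ψ0)
    refine ⟨fun s => ψ (κ s), fun L' i' s t hne => H.lip ψ ?_ s t, ?_⟩
    · rintro ⟨s', t', h1, h2, h3⟩
      rcases hn : nm L' i' with n | n | w
      · simp only [ea, eb, ψ]
        split_ifs <;> simp
      · simp only [ea, eb, ψ, Option.elim, elim_inl, elim_inr, H.own_g]
        split_ifs with h
        · simp only [ψ0, ← h, Option.elim]; omega
        · omega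
      · have hw : w ≠ z := fun e => hne (H.ninj _ _ _ _ _ _ _ _ h1 h2 h3 ha hc hac (by
          rw [hn, hz, e]))
        simp only [ea, eb, ψ, Option.elim, elim_inr, H.own_s]
        split_ifs
        · exact (cd_step H.sinj k hw).symm
        · omega
    · have e0 : ψ (some (inr (σ z))) = 0 := by
        simp only [ψ, Option.elim, elim_inr, H.own_s, if_true]
        exact Nat.le_zero.1 ((cd_spec σ k _ _).2.2 0 rfl)
      have e1 : k ≤ ψ (some (inr z)) := by
        simp only [ψ, Option.elim, elim_inr, if_true]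
        obtain ⟨a1, a2 | a2, -⟩ := cd_spec σ k (σ z) z
        · omega
        · by_contra hlt
          exact H.long z (cd σ k (σ z) z + 1) (by omega) (by omega) a2
      have := H.name L i a c ha hc hac
      rw [hz] at this
      rcases this with p | p <;> simp only [p.1, p.2, ea, eb, e0]
      exacts [Or.inr (by omega), Or.inl (by omega)]

/-- Labels are far from each other and from the cycles that are not attached to the forest. -/
theorem Skel.far (H : F.Skel m k hang κ gate σ own nm A) {k' : ℕ} (hm : k' + 1 ≤ m) (he : k' ≤ e)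
    (hD : k' + 2 ≤ D) {x : X} {s t : S} (hs : κ s = some (inl (F.anc x D)))
    (ht : (∃ y, y ≠ x ∧ κ t = some (inl (F.anc y D))) ∨ ∃ z, own z = none ∧ κ t = some (inr z)) :
    inl t ∉ Ball (HL m hang) (inl s) k' := by
  classical
  let φ : N → ℕ := fun n => if F.anc x (F.lev n) = n then min (D - F.lev n) (k' + 1) else k' + 1
  let ψ : Option (N ⊕ Z) → ℕ := fun v => v.elim (k' + 1)
    (Sum.elim φ fun w => (own w).elim (k' + 1) φ)
  have b0 : ∀ n, φ n ≤ k' + 1 := fun n => by simp only [φ]; split_ifs <;> omega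
  refine far_skel (by omega) H.ends (fun s => ψ (κ s)) (fun s => le_trans ?_ hm)
    (fun L i => H.lip ψ fun _ => ?_) ?_
  · rcases κ s with _ | n | w
    · exact le_rfl
    · exact b0 n
    · simp only [ψ, Option.elim, elim_inr]
      rcases own w with _ | n
      exacts [le_rfl, b0 n]
  · rcases nm L i with n | n | w
    · obtain ⟨l1, l2, y, hy⟩ := F.surj n
      simp only [ea, eb]
      split_ifs with h
      · simp only [ψ, φ, Option.elim, elim_inl]
        split_ifs <;> omega
      · obtain ⟨l, hl⟩ : ∃ l, F.lev n = l + 1 := ⟨F.lev n - 1, by omega⟩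
        have e1 : F.lev (F.par n) = l := by have := F.lev_par (n := n) (by omega); omega
        have e2 : ∀ y, F.anc y (l + 1) = n → F.par n = F.anc y l := fun y h => by
          rw [← h, F.par_anc y l (by omega) (by omega)]
        simp only [ψ, φ, Option.elim, elim_inl, hl, e1]
        rw [hl] at hy
        split_ifs with h1 h2 h2
        · omega
        · exact absurd (e2 x h1).symm h2
        · by_cases h3 : D ≤ l + e
          · exact absurd (F.priv x y l h3 (by omega) (h2.trans (e2 y hy)) ▸ hy) h1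
          · omega
        · omega
    · simp [ea, eb, ψ, H.own_g]
    · simp [ea, eb, ψ, H.own_s]
  · have e0 := fun y => F.lev_anc y D (by omega) le_rfl
    rcases ht with ⟨y, h1, h2⟩ | ⟨z, h1, h2⟩
    · simp only [hs, h2, ψ, φ, Option.elim, elim_inl, e0, if_true]
      rw [if_neg fun h => h1 (F.priv x y D (by omega) le_rfl h).symm]
      omega
    · simp only [hs, h2, ψ, φ, Option.elim, elim_inl, elim_inr, e0, if_true, h1]
      omega

theorem Skel.star [Finite N] [Finite Z] [Finite T] (H : F.Skel m k hang κ gate σ own nm A)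
    (v : Option (N ⊕ Z)) :
    {ε | ea ε = v ∨ F.eb gate σ ε = v}.ncard ≤ Nat.card T + b + 4 := by
  have gi : ∀ n n', gate n = gate n' → n = n' := fun n n' h =>
    Option.some.inj ((H.own_g n).symm.trans (h ▸ H.own_g n'))
  have h1 : {n | ea (Z := Z) (inl n) = v ∨ F.eb gate σ (inl n) = v}.ncard ≤ Nat.card T + b + 1 := by
    simp only [ea, eb]
    rcases v with _ | n | z
    · refine le_trans (Set.ncard_le_ncard fun n h => ?_) (F.roots.trans (by omega))
      by_contra hn
      simp [show ¬F.lev n = 1 from hn] at h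
    · refine le_trans (Set.ncard_le_ncard (t := insert n {n' | 2 ≤ F.lev n' ∧ F.par n' = n})
        fun n' h => ?_) ((Set.ncard_insert_le _ _).trans (by have := F.deg n; omega))
      have := (F.surj n').1
      by_cases hn : F.lev n' = 1
      · simpa [hn] using h
      · simp only [hn, if_false, Set.mem_ofPred_eq, Option.some.injEq, inl.injEq] at h
        exact h.imp_right fun h => ⟨by omega, h⟩
    · refine le_trans (Set.ncard_le_ncard (t := ∅) fun n h => ?_) (by simp)
      by_cases hn : F.lev n = 1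
      · simp at h
      · simp at h
  have h2 : {n | ea (inr (inl n)) = v ∨ F.eb gate σ (inr (inl n)) = v}.ncard ≤ 1 := by
    refine (Set.ncard_le_one (Set.toFinite _)).2 ?_
    rintro n (rfl | rfl) n' (h | h) <;> simp only [ea, eb, Option.some.injEq, inl.injEq, inr.injEq,
      reduceCtorEq] at h
    exacts [h.symm, (gi _ _ h).symm]
  have h3 : {z | ea (N := N) (inr (inr z)) = v ∨ F.eb gate σ (inr (inr z)) = v}.ncard ≤ 2 := by
    refine (Set.ncard_union_le {z | ea (N := N) (inr (inr z)) = v}
      {z | F.eb gate σ (inr (inr z)) = v}).trans (add_le_add (b := 1) (d := 1)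
      ((Set.ncard_le_one (Set.toFinite _)).2 ?_) ((Set.ncard_le_one (Set.toFinite _)).2 ?_))
    · rintro z rfl z' h
      simpa [ea, eq_comm] using h
    · rintro z rfl z' h
      exact H.sinj (by simpa [eb, eq_comm] using h)
  rw [ncard_sum, ncard_sum]
  omega

theorem Skel.deg [Finite S] [Finite Λ] [Finite N] [Finite Z] [Finite T] (H : F.Skel m k hang κ gate σ own nm A)
    (v : S ⊕ Λ × Fin (m + 1)) : ((HL m hang).neighborSet v).ncard ≤ Nat.card T + b + 6 := by
  classical
  refine deg_HL (fun s => ?_) (fun L i => ?_) v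
  · have h1 : {p : Λ × Fin (m + 1) | hang p.1 p.2 s ∧ A p.1 p.2 = s}.ncard ≤ ({0, m} : Set ℕ).ncard :=
      Set.ncard_le_ncard_of_injOn (fun p => (p.2 : ℕ)) (fun p h => H.ends _ _ _ h.1)
        fun p hp q hq e => Prod.ext (H.ainj _ _ (p.2 : ℕ) (hp.2.trans (by
          rw [show (p.2 : ℕ) = q.2 from e]; exact hq.2.symm))) (Fin.ext e)
    have h2 : {p : Λ × Fin (m + 1) | hang p.1 p.2 s ∧ A p.1 p.2 ≠ s}.ncard ≤ _ :=
      (Set.ncard_le_ncard_of_injOn (fun p => nm p.1 p.2) (fun p h =>
        (H.name _ _ _ _ h.1 (H.std _ _ _ h.1) h.2.symm).imp (fun h => h.1.symm) fun h => h.2.symm)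
        fun p hp q hq e => by
          obtain ⟨e1, e2⟩ := H.ninj _ _ _ _ _ _ _ _ hp.1 (H.std _ _ _ hp.1) hp.2.symm hq.1
            (H.std _ _ _ hq.1) hq.2.symm e
          exact Prod.ext e1 (Fin.ext e2)).trans (H.star (κ s))
    have h3 := Set.ncard_insert_le 0 ({m} : Set ℕ)
    rw [Set.ncard_singleton] at h3
    refine le_trans (Set.ncard_le_ncard fun p h => ?_) ((Set.ncard_union_le _ _).trans
      ((add_le_add h1 h2).trans (by omega)))
    exact (em (A p.1 p.2 = s)).imp (And.intro h) (And.intro h)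
  · have : {s | hang L i s}.ncard ≤ 2 := by
      by_contra h
      obtain ⟨a, c, d, ha, hc, hd, h1, h2, h3⟩ :=
        (Set.two_lt_ncard_iff (Set.toFinite _)).1 (not_le.1 h)
      rcases H.two L i a c d ha hc hd with h | h | h <;> contradiction
    omega

end Forest

end Pool.Agent.P.MP_439f1f_co
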