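import Pool.Agent.P.MP_439f1f_co.G7

/-!
The greedy theorem for the skeleton, and the choice of the numbers.
-/

set_option autoImplicit false

namespace Pool.Agent.P.MP_439f1f_co

open SimpleGraph Sum

/-- The labels can be chosen so that the girth stays large and designated types are covered. -/
theorem Forest.Skel.greedy {X C T N Z S Λ J Ty Sl Var C' Q : Type} {cl : X → C} {tr : C → T}
    {D e b m k a : ℕ} {F : Forest X C T N cl tr D e b} {hang : Λ → ℕ → S → Prop}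
    {κ : S → Option (N ⊕ Z)} {gate : N → Z} {σ : Z → Z} {own : Z → Option N}
    {nm : Λ → ℕ → N ⊕ N ⊕ Z} {A : Λ → ℕ → S} [Finite N] [Finite Z] [Finite T] [Finite Λ]
    [Fintype J] [Finite Ty] [Fintype Sl] [Fintype Var] [Fintype Q]
    (H : F.Skel m k hang κ gate σ own nm A) (hm : k + 1 ≤ m) (he : k ≤ e) (hD : k + 2 ≤ D)
    (xl : C' → Q → Q → X)
    (hx : ∀ c a b c' a' b', xl c a b = xl c' a' b' → c = c' ∧ a = a' ∧ b = b')
    (lab : C' → Q → Q → S) (hl : ∀ c a b, κ (lab c a b) = some (inl (F.anc (xl c a b) D)))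
    (line : J → Λ) (typ : J → Ty) (act : Ty → Sl → Prop) (ps : J → Sl → ℕ)
    (hps : ∀ j σ, ps j σ ≤ m)
    (hpos : ∀ j σ j' σ', line j = line j' → ps j σ = ps j' σ' → j = j')
    (cls : Ty → Sl → C') (u v : Ty → Sl → Var) (huv : ∀ T σ, act T σ → u T σ ≠ v T σ)
    (hd : ∀ T σ σ', act T σ → act T σ' → σ ≠ σ' →
      (u T σ ≠ u T σ' ∧ u T σ ≠ v T σ') ∨ (v T σ ≠ u T σ' ∧ v T σ ≠ v T σ'))
    (hQ : (Fintype.card Q).Prime) (hV : Fintype.card Var ≤ Fintype.card Q) (des : Ty → Prop)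
    (hdes : ∀ T σ T' σ', des T → des T' → act T σ → act T' σ' → cls T σ = cls T' σ' →
      T = T' ∧ σ = σ')
    (many : ∀ T, des T → 2 * (Fintype.card Q * Fintype.card Q) ≤ {j | typ j = T}.ncard)
    (hJ : Fintype.card J ≤ a * (Fintype.card Q * Fintype.card Q))
    (hq : 4 * Fintype.card Sl ^ 2 * (Nat.card T + b + 6 + Fintype.card Sl +
      (2 * Fintype.card Sl ^ 2 * a + 1) + 1) ^ k < Fintype.card Q) :
    ∃ x : J → Var → Q,
      GG k (HL m fun L i s => hang L i s ∨ ∃ j σ, line j = L ∧ act (typ j) σ ∧ ps j σ = i ∧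
        lab (cls (typ j) σ) (x j (u (typ j) σ)) (x j (v (typ j) σ)) = s) ∧
      ∀ T σ, des T → act T σ → ∀ a b, ∃ j, typ j = T ∧ x j (u T σ) = a ∧ x j (v T σ) = b := by
  have : Finite S := Finite.of_injective κ H.kinj
  obtain ⟨lat, hlat⟩ := exists_lat hQ hV
  let ε := Fintype.equivFin Q
  refine greedy_HLJ (H.gg (by omega)) H.deg lab (fun c a b c' a' b' h => hx _ _ _ _ _ _ ?_)
    line typ act ps hps hpos cls u v huv hd (fun w s t => ε.symm (lat w (ε s) (ε t)))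
    (fun w w' hw z z' h => ?_) des hdes (fun T hT => lt_of_lt_of_le ?_ (many T hT)) hq
    (by nlinarith [Nat.mul_le_mul_left (2 * Fintype.card Sl ^ 2) hJ]) (by omega)
  · by_contra hne
    exact H.far hm he hD (hl c' a' b') (Or.inl ⟨_, hne, hl c a b⟩) h
  · simp only [Prod.mk.injEq, EmbeddingLike.apply_eq_iff_eq] at h
    have := hlat w w' hw (a₁ := (ε z.1, ε z.2)) (a₂ := (ε z'.1, ε z'.2)) (Prod.ext h.1 h.2)
    simp only [Prod.mk.injEq, EmbeddingLike.apply_eq_iff_eq] at this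
    exact Prod.ext this.1 this.2
  · generalize (Nat.card _ + b + 6 + Fintype.card Sl + _ + 1) ^ k = B at hq ⊢
    have h1 : Fintype.card Sl * B ≤ 4 * Fintype.card Sl ^ 2 * B :=
      Nat.mul_le_mul_right _ (by nlinarith)
    have h2 := Nat.le_mul_self (Fintype.card Q)
    omega

/-- The numbers: `q` labels in a row, digits in base `p`, words of length `2 s k + 4`. -/
theorem exists_numbers (k s a : ℕ) : ∃ p q : ℕ, q.Prime ∧ a ≤ p ∧ 2 ≤ p ∧ p < q ∧
    q * q ≤ p ^ (2 * s * k + 4) ∧ a * (a * p ^ s) ^ k < q := by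
  obtain ⟨p, h1, h2, h3⟩ : ∃ p, a ≤ p ∧ 2 ≤ p ∧ a ^ (k + 1) ≤ p :=
    ⟨a + 2 + a ^ (k + 1), by omega, by omega, by omega⟩
  obtain ⟨q, hq, h4, h5⟩ := Nat.exists_prime_lt_and_le_two_mul (p ^ (s * k + 1)) (by positivity)
  refine ⟨p, q, hq, h1, h2, lt_of_le_of_lt (Nat.le_self_pow (by omega) p) h4, ?_,
    lt_of_le_of_lt ?_ h4⟩
  · calc q * q ≤ (p * p ^ (s * k + 1)) * (p * p ^ (s * k + 1)) :=
        Nat.mul_self_le_mul_self (h5.trans (Nat.mul_le_mul_right _ h2))
      _ = _ := by ring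
  · calc a * (a * p ^ s) ^ k = a ^ (k + 1) * p ^ (s * k) := by ring
      _ ≤ p * p ^ (s * k) := Nat.mul_le_mul_right _ h3
      _ = _ := by ring

/-- A forest above the labels `C × Fin q × Fin q`, with its words. -/
theorem exists_forest' {C T : Type} [Finite C] (tr : C → T) {p q w D e : ℕ} (h : q * q ≤ p ^ w)
    (hD : 2 * w + 4 + e ≤ D) : ∃ N : Type, Nonempty
      (Forest (C × Fin q × Fin q) C T N Prod.fst tr D e ((Nat.card C + 1) * (p + 1))) := by
  obtain ⟨wd⟩ : Nonempty (Fin q × Fin q ↪ (Fin w → Fin p)) :=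
    Function.Embedding.nonempty_of_card_le (by simpa using h)
  exact exists_forest Prod.fst tr (fun x => wd x.2) (fun x y h1 h2 => Prod.ext h1 (wd.injective h2))
    hD

end Pool.Agent.P.MP_439f1f_co
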