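import Pool.Agent.P.MP_439f1f_co.G8

/-!
The cycles of the skeleton: moats and systems.
-/

set_option autoImplicit false

namespace Pool.Agent.P.MP_439f1f_co

open Sum

theorem long_of_cyc {E : Type} [Finite E] {β : Equiv.Perm E} (h : ∀ e e', ∃ n : ℕ, (β ^ n) e = e')
    {k : ℕ} (hk : k < Nat.card E) (e : E) (j : ℕ) (h0 : 0 < j) (hj : j ≤ k) : β^[j] e ≠ e := by
  intro he
  have := Nat.card_le_card_of_surjective (fun i : Fin j => β^[i] e) fun e' => by
    obtain ⟨n, rfl⟩ := h e e'
    exact ⟨⟨n % j, Nat.mod_lt _ h0⟩, (Function.IsPeriodicPt.iterate_mod_apply he n).trans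
      (congrFun (Equiv.Perm.iterate_eq_pow β n) e)⟩
  simp only [Nat.card_eq_fintype_card, Fintype.card_fin] at this
  omega

variable {N R K E : Type}

/-- the successor on the moats and on the systems -/
def sig (ρ : Equiv.Perm R) (β : K → Equiv.Perm E) : N × R ⊕ K × E → N × R ⊕ K × E :=
  Sum.map (fun z => (z.1, ρ z.2)) fun z => (z.1, β z.1 z.2)

/-- the node to which a moat is attached -/
def sown : N × R ⊕ K × E → Option N := Sum.elim (fun z => some z.1) fun _ => none

variable {ρ : Equiv.Perm R} {β : K → Equiv.Perm E}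

theorem sig_inj : Function.Injective (sig (N := N) ρ β) := by
  rintro (⟨a, b⟩ | ⟨a, b⟩) (⟨c, d⟩ | ⟨c, d⟩) h <;> simp only [sig, map_inl, map_inr, inl.injEq,
    inr.injEq, Prod.mk.injEq, reduceCtorEq] at h <;> obtain ⟨rfl, h⟩ := h
  exacts [by rw [ρ.injective h], by rw [(β a).injective h]]

theorem sown_sig (z : N × R ⊕ K × E) : sown (sig ρ β z) = sown z := by
  rcases z with z | z <;> rfl

theorem sig_long [Finite R] [Finite E] (h1 : ∀ e e', ∃ n : ℕ, (ρ ^ n) e = e')
    (h2 : ∀ j e e', ∃ n : ℕ, (β j ^ n) e = e') {k : ℕ} (k1 : k < Nat.card R) (k2 : k < Nat.card E)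
    (z : N × R ⊕ K × E) (j : ℕ) (h0 : 0 < j) (hj : j ≤ k) : (sig ρ β)^[j] z ≠ z := by
  rcases z with ⟨a, b⟩ | ⟨a, b⟩
  · have : ∀ j, (sig (N := N) ρ β)^[j] (inl (a, b)) = inl (a, ρ^[j] b) := fun j => by
      induction j with
      | zero => rfl
      | succ j ih => simp only [Function.iterate_succ_apply', ih]; rfl
    rw [this]
    exact fun h => long_of_cyc h1 k1 b j h0 hj (Prod.ext_iff.1 (inl_injective h)).2
  · have : ∀ j, (sig (N := N) ρ β)^[j] (inr (a, b)) = inr (a, (β a)^[j] b) := fun j => by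
      induction j with
      | zero => rfl
      | succ j ih => simp only [Function.iterate_succ_apply', ih]; rfl
    rw [this]
    exact fun h => long_of_cyc (h2 a) k2 b j h0 hj (Prod.ext_iff.1 (inr_injective h)).2

theorem add_cyc {r : ℕ} [NeZero r] (a b : ZMod r) : ∃ n : ℕ, (Equiv.addRight (1 : ZMod r) ^ n) a = b :=
  ⟨(b - a).val, by simp⟩

theorem rot_cyc {r : ℕ} (a b : Fin (r + 1)) : ∃ n : ℕ, (finRotate (r + 1) ^ n) a = b := by
  have e : finRotate (r + 1) = Equiv.addRight (1 : Fin (r + 1)) := by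
    ext i
    simp
  rw [e]
  exact add_cyc (r := r + 1) a b

end Pool.Agent.P.MP_439f1f_co
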