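import Pool.Agent.P.MP_439f1f_co.Sv2

/-!
The first two vertices of the line of a node and a point of the same block with an access down.
-/

set_option autoImplicit false
set_option linter.unusedSectionVars false

namespace Pool.Agent.P.MP_439f1f_co

open Function SimpleGraph Sum

variable {K N : Type} {r r0 q D e b : ℕ}

/-- two living trees in this order, without a condition on the ports -/
structure Kl.Frt (x y : Kl K r r0) : Prop where
  bf : x.Bf y
  mh : ¬x.Mh y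
  mh' : ¬y.Mh x

theorem Kl.Frt.of_col {x y : Kl K r r0} (h : x.col ≠ y.col) (o : ¬x.Own y) : x.Frt y :=
  ⟨.of_col h o, mt Kl.Mh.col h, mt Kl.Mh.col h.symm⟩

theorem Kl.Frt.of_tN {x y : Kl K r r0} {w c l σ} (h : x.1 = (.tN w c l, σ)) (s : σ ≠ .Z)
    (d : y.ty.hd = true) : x.Frt y := by
  have t : x.ty ≠ y.ty := fun f => by simp [← f, Kl.ty_val h, HT.hd] at d
  refine ⟨⟨fun f => t (f ▸ rfl), fun f => t f.1, fun f => s ((Kl.sl_val h).symm.trans f.2.1),
    ?_, ?_⟩, ?_, ?_⟩ <;> simp [Kl.Mz, Kl.Mh, Kl.Own, Kl.Lz, h]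

namespace Par

/-- two living items -/
def frt (dr cd sp : Bool) (κ : ZMod 3 → Fin 7) : Par r r0 D :=
  { base r r0 D with dr := dr, cd := cd, sp := sp, kap := κ }

theorem frt_ta {x y : Kl K r r0} (dr cd sp : Bool) {κ : ZMod 3 → Fin 7} (h : x.Frt y)
    (k : Kl.Kap κ x y) : (frt dr cd sp κ : Par r r0 D).TA (tw x y) :=
  TA.two rfl rfl (fun c => (k c).1) (fun _ => Or.inl rfl) (by simp [frt, base])
    (by simp [frt, base]) h.bf.ne
    (fun i _ => ⟨fun c => by cases i; exacts [(k c).2.1, (k c).2.2], .last, absurd rfl⟩)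
    fun _ _ => ⟨h.bf, .last h.mh h.mh', by simp [frt, base]⟩

end Par

variable [DecidableEq K] [Finite K] [Finite N] [Nonempty K]

namespace Fw

variable {V : Fw K N r r0 q D e b} {g : Fin 64} {j : K} {dr cd sp f : Bool} {κ : ZMod 3 → Fin 7}
  {x y z t n n' : N} {L L' : Hub K N (Pt K N) r0} {i i' m : ℕ} {σ τ : Slot (r + 1)}

namespace Lt

theorem fq_le (h : V.Hi j L' → V.Hi j L) (c : V.W.pos j L ≤ V.W.pos j L') (d : i < i')
    (d' : i' ≤ 2 * r + 10) : V.fq j (pz L i) < V.fq j (pz L' i') :=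
  c.eq_or_lt.elim (fun c => (V.W.S.O.cyc j).inj trivial trivial c ▸ fq_line d d')
    fun c => fq_lt (fr_of h c)

theorem vz_ne (h : i ≠ i') (a : i ≤ 2 * r + 9) (a' : i' ≤ 2 * r + 9) :
    (vz L i : Vx K N (Pt K N) r r0) ≠ vz L' i' := fun c => h (by
  simpa [Nat.mod_eq_of_lt (Nat.lt_succ_of_le a), Nat.mod_eq_of_lt (Nat.lt_succ_of_le a')] using
    congrArg Fin.val (Prod.ext_iff.1 (inr.inj c)).2)

/-- a line of the block comes before or after the line of the node in all states of a group -/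
theorem blk_or (h : V.W.Fag V.grp g L) (h' : V.W.Fag V.grp g (nl y)) (c : V.W.In L y) :
    (∀ j, V.grp j = g → V.W.lay j (inl y) = blay false false → V.W.pos j (nl y) ≤ V.W.pos j L) ∨
      ∀ j s, V.grp j = g → V.W.lay j (inl y) = blay s false → V.W.pos j L < V.W.pos j (nl y) := by
  obtain ⟨i, c⟩ := c
  by_cases d : i = 1
  · subst d
    by_cases f : ∃ j, V.grp j = g ∧ V.W.pos j L < V.W.pos j (nl y)
    · obtain ⟨j, a1, a2⟩ := f
      exact Or.inr fun j' _ a _ => (Wd.Fag.twin V.mono h h' a1 a c (by simp [c])).1 a2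
    · exact Or.inl fun j a _ => not_lt.1 fun a' => f ⟨j, a, a'⟩
  by_cases d' : i = 0
  · exact Or.inr fun j s a l => (Wd.pos_lay (h j a).cold (h' j a).cold c rfl d).2
      (l ▸ d' ▸ (blay_lt s false).2 rfl)
  · exact Or.inl fun j a l => ((Wd.pos_lay (h' j a).cold (h j a).cold rfl c (Ne.symm d)).2
      (l ▸ (by decide : ∀ i : Fin 4, i ≠ 1 → i ≠ 0 → blay false false 1 < blay false false i)
        i d d')).le

variable (V) in
/-- the trees of `x` and `z` are the living items, in this order -/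
structure Tq (j : K) (dr cd sp : Bool) (κ : ZMod 3 → Fin 7) (x z y : N) : Prop where
  dr : (V.par j).dr = dr
  cd : (V.par j).cd = cd
  sp : (V.par j).sp = sp
  kap : (V.par j).kap = κ
  rook : (V.par j).rook = false
  op : (V.par j).op = none
  rx : V.Role j (some false) (V.F.tree x)
  rz : V.Role j (some true) (V.F.tree z)
  lx : V.Liv j (V.F.tree x)
  lz : V.Liv j (V.F.tree z)
  ne : V.F.tree x ≠ V.F.tree z
  lev : V.F.lev z = D
  rest : ∀ T : Kl K r r0, T.stg ≠ j → T.col ≠ (V.F.tree x).col → T.col ≠ (V.F.tree z).col →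
    V.Rest j T
  ry : V.F.tree y ≠ V.F.tree x → V.Rest j (V.F.tree y)

theorem exists_tq (dr cd sp : Bool) (sb : V.W.In L y) (hL : V.W.Fag V.grp g L)
    (hx : ∀ j, V.grp j = g → (V.F.tree x).stg ≠ j)
    (h : (V.F.tree x).Frt (V.F.tree (V.W.S.sn L true σ)))
    (k : Kl.Kap κ (V.F.tree x) (V.F.tree (V.W.S.sn L true σ))) :
    ∃ j, V.grp j = g ∧ Tq V j dr cd sp κ x (V.W.S.sn L true σ) y := by
  have c := V.W.col_ne V.D_pos sb true σ
  obtain ⟨j, s⟩ := V.exists_st g (Par.frt_ta dr cd sp h k) [V.F.tree y] (by simp) (by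
    simp only [List.mem_singleton]
    rintro _ rfl _ rfl _ _ _ rfl _ d
    exact absurd (Kl.col_of_kind d).symm c)
  have sz := (hL j s.grp).sn V.D_pos true σ
  refine ⟨j, s.grp, s.dr, s.cd, s.sp, s.kap, s.rook, s.op, s.role false _ rfl (hx j s.grp),
    s.role true _ rfl sz, s.liv (i := false) rfl (hx j s.grp) rfl, s.liv (i := true) rfl sz rfl,
    h.bf.ne, V.W.S.lev_sn V.D_pos _ _ _, fun T a1 a2 a3 => s.rest_kind a1 fun a T0 d d' => ?_,
    fun a => s.rest ((hL j s.grp).wor sb) (by simp) ?_ (absurd rfl)⟩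
  · obtain ⟨_ | _, -, rfl⟩ | ⟨-, _, d, -⟩ := Par.mt_tw d
    exacts [a2 (Kl.col_of_kind d').symm, a3 (Kl.col_of_kind d').symm, nomatch d]
  · rintro (_ | _)
    exacts [a, fun d => c (congrArg Kl.col d).symm]

namespace Tq

variable (s : Tq V j dr cd sp κ x z y)
include s

theorem lay (n : N) : V.W.lay j (inl n) = blay sp false :=
  s.sp ▸ lay_closed fun o => o.op s.op

theorem rs (h : V.F.tree t = V.F.tree x) (o : V.F.lev t % 2 = 1) : V.Rs j ![0, 0] ![t, z] :=
  .two (Liv.run (h ▸ s.lx) rfl o (V.F.surj t).1)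
    (s.lz.run rfl (by rw [s.lev, V.od]) (V.F.surj z).1) (Wd.On.tree_ne (h ▸ s.ne)) (h ▸ s.rx) s.rz

/-- ancestors come first in a living tree -/
theorem anc (h : V.F.tree n = V.F.tree x) (a : V.F.Anc n n') (l : V.F.lev n < V.F.lev n') :
    (V.L j).key n < (V.L j).key n' :=
  (Lay.anc_lt (fm_plain (not_own (h ▸ s.rx.1)) s.rook)
    (fm_plain (not_own (a.tree ▸ h ▸ s.rx.1)) s.rook) a fun d => by rw [d] at l; omega).2
    (Or.inl fun d => by
      have : 2 ≤ V.kap j (V.F.tree n) := d.1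
      rw [h, s.lx.kap] at this
      omega)

theorem off (h : V.F.tree n = V.F.tree x) (l : V.F.lev t < V.F.lev n) (g : Fin 2) :
    ¬V.W.On (![0, 0] g) (![t, z] g) n := fun c => by
  fin_cases g
  exacts [l.not_ge c.1.1, s.ne (h.symm.trans c.1.tree)]

theorem anb (h : V.F.tree n = V.F.tree x) (l : V.F.lev t < V.F.lev n)
    (c : V.W.Anb ![0, 0] ![t, z] n n') : n' = n := c.resolve_right fun ⟨g, d, _⟩ => s.off h l g d

variable (k : V.Rs j ![0, 0] ![t, z])
include k

theorem cut_lt (c : V.W.Bk j L n) (h : V.F.tree t = V.F.tree x) (a : V.F.Anc t n)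
    (l : V.F.lev t < V.F.lev n) :
    V.vr j ![0, 0] ![t, z] (pz (V.W.cut 0 t) 0) < V.vr j ![0, 0] ![t, z] (pz L i) :=
  k.cut_bk (g := 0) c (a.tree ▸ h ▸ s.rx) fun _ d => by
    rw [s.anb (a.tree ▸ h) l d]
    exact s.anc h a l

theorem bk_lt (c : V.W.Bk j L n) (c' : V.W.Bk j L' n') (h : V.F.tree n = V.F.tree x)
    (a : V.F.Anc n n') (l : V.F.lev t < V.F.lev n) (l' : V.F.lev n < V.F.lev n') :
    V.vr j ![0, 0] ![t, z] (pz L i) < V.vr j ![0, 0] ![t, z] (pz L' i') :=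
  k.bk_bk c c' (a.tree ▸ h ▸ s.rx) fun _ _ d d' => by
    rw [s.anb h l d, s.anb (a.tree ▸ h) (l.trans l') d']
    exact s.anc h a l'

theorem lt_cut (h : V.InI j (some false) L) :
    V.vr j ![0, 0] ![t, z] (pz L i) < V.vr j ![0, 0] ![t, z] (pz (V.W.cut 0 z) 0) :=
  k.II h (k.inI_cut (g := 1) s.rz) s.rook (by simp [Par.zi])

end Tq

theorem hd_sn (a : V.W.S.At L i true σ) : (V.F.tree (V.W.S.sn L true σ)).ty.hd = true := by
  rw [show V.F.tree _ = _ from a.tree V.D_pos]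
  show (V.W.S.ht _).hd = true
  rcases V.W.S.O.dA L with (n | w) | z <;> rfl

theorem fre_nl (a : V.W.S.At L i true σ) (c : V.W.S.At (nl n) i' false τ) (d : τ ≠ .Z) :
    (V.F.tree (V.W.S.sn (nl n) false τ)).Frt (V.F.tree (V.W.S.sn L true σ)) :=
  .of_tN (congrArg Subtype.val (c.tree V.D_pos)) d (hd_sn a)

theorem fre_col (a : V.W.S.At L i true σ) {T : Kl K r r0}
    (c : T.col ≠ (V.F.tree (V.W.S.sn L true σ)).col) (d : ∀ w p c z, T.1 = (.tS w p c, .H) →
      V.W.S.O.dA L = inr z → w ≠ (z.1, V.W.S.fam z.1 z.2.1)) :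
    T.Frt (V.F.tree (V.W.S.sn L true σ)) := by
  refine .of_col c ?_
  rintro (⟨w, p, c, p', c', a1, a2, -⟩ | ⟨w, p, c, p', c', a1, -⟩)
  · have : V.W.S.ht (V.W.S.O.dA L) = _ := congrArg Prod.fst
      ((congrArg Subtype.val (a.tree V.D_pos)).symm.trans a2)
    rcases f : V.W.S.O.dA L with (n | w) | z <;> rw [f] at this
    exacts [(nomatch this), (nomatch this), d _ _ _ _ a1 f (congrArg HT.wor this).symm]
  · simpa [Kl.ty_val a1, HT.hd] using hd_sn a

theorem rev (h : V.Rest j (V.F.tree n)) (d : (V.par j).dr = false) (c : V.F.Anc n n')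
    (l : V.F.lev n < V.F.lev n') (k : V.kap j (V.F.tree n) ≤ V.F.lev n + 1) :
    (V.L j).key n' < (V.L j).key n :=
  have ne : n ≠ n' := fun d => by rw [d] at l; omega
  (Lay.lt_iff_not ne.symm).2 (mt (Lay.anc_lt (Cut.fm (Or.inl h)) (Cut.fm (Or.inl (c.tree ▸ h))) c
    ne).1 (not_or.2 ⟨not_not.2 ⟨Cut.two (Or.inl h), k⟩,
      fun g => Bool.false_ne_true ((h.asc.trans d).symm.trans g.1)⟩))

theorem hang_kid (l : V.F.lev n < D) : V.W.S.hang (nl (V.F.kid n)) 0 (some (nl n)) := by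
  simpa only [V.W_F, V.F.par_kid l] using Wd.hang_par (W := V.W) (n := V.F.kid n)
    (by rw [V.W_F, V.F.lev_kid l]; have := (V.F.surj n).1; omega)

theorem kap_H (a : V.W.S.At L i true σ) (n : N) (c : ZMod 3) {k : Fin 7} (h : k = 2 ∨ k = 4)
    (l : lc k ≠ lc (V.F.lev n)) : ∃ κ, Kl.Kap κ (V.F.tree (V.W.S.sn (nl n) false .H))
      (V.F.tree (V.W.S.sn L true σ)) ∧ κ c = k :=
  Kl.exists_kap' c k (h.imp_right Or.inl) (fun w l' f => (HT.tN.inj (congrArg Prod.fst
    ((congrArg Subtype.val ((V.W.S.pay_H (inl n)).tree V.D_pos)).symm.trans f))).2.2 ▸ l)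
    fun w l' f => by simpa [Kl.ty_val f, HT.hd] using hd_sn a

theorem ne_H (t : V.F.tree n = V.F.tree y) : V.F.tree y ≠ V.F.tree (V.W.S.sn (nl n) false .H) :=
  fun c => V.W.col_ne V.D_pos (V.W.in_pay (inl n)) false .H (congrArg Kl.col (t.trans c).symm)

variable (a : V.W.S.At L i true σ) (hi : i < 2 * r + 9) (sb : V.W.In L y)
  (hL : V.W.Fag V.grp g L) (hy : V.W.Fag V.grp g (nl y))
include a hi sb hL hy

/-- the line of the node comes first -/
theorem svA (c : V.W.S.At (nl y) (m + 1) false τ) (d : τ ≠ .Z) (o : ∀ j, V.grp j = g →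
    V.W.lay j (inl y) = blay false false → V.W.pos j (nl y) ≤ V.W.pos j L) :
    V.W.Sv (vz (nl y) m) (vz L (i + 1)) := by
  have := c.half.1 rfl
  have : r + 4 < i := not_le.1 fun f => by simpa using a.half.2 f
  obtain ⟨κ, kp⟩ := Kl.exists_kap (V.F.tree (V.W.S.sn (nl y) false τ))
    (V.F.tree (V.W.S.sn L true σ))
  obtain ⟨j, hj, s⟩ := exists_tq true true false sb hL
    (fun j h => (hy j h).sn V.D_pos false τ) (fre_nl a c d) kp
  have ry := s.ry fun f =>
    V.W.col_ne V.D_pos (V.W.in_pay (inl y)) false τ (congrArg Kl.col f).symm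
  have b1 := (hL j hj).bk.2 sb
  have k := s.rs rfl (by rw [show V.F.lev _ = D from V.W.S.lev_sn V.D_pos _ _ _, V.od])
  intro _ _
  exact k.serve ((k.toRs.ch_cut 0).app (Wd.ch_up c.hang (by omega)))
    ((k.toRs.ch_cut 1).app (Wd.ch_dn a.hang hi)) (vz_ne (by omega) (by omega) hi)
    (fun g => by fin_cases g <;> simp) [.lt 1 3, .lt 3 0, .lt 3 2] [(0, 2)] (by decide +kernel)
    ⟨k.FF (ry.inF (.self _ j y)) (ry.inF b1) (fq_le (hi_congr (.self _ j y) b1 rfl).2
        (o j hj (s.lay y)) (by omega) (by omega)),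
      k.F_cut (ry.inF b1) 0, k.F_cut (ry.inF b1) 1⟩ (k.cut_ne (g := 0) (g' := 1) (by decide))

variable (o : ∀ j s, V.grp j = g → V.W.lay j (inl y) = blay s false →
  V.W.pos j L < V.W.pos j (nl y))
include o

/-- the first inner vertex: the tree of the node is alive -/
theorem svC : V.W.Sv (vz (nl y) 1) (vz L (i + 1)) := by
  have : r + 4 < i := not_le.1 fun f => by simpa using a.half.2 f
  obtain ⟨κ, kp⟩ := Kl.exists_kap (V.F.tree y) (V.F.tree (V.W.S.sn L true σ))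
  obtain ⟨j, hj, s⟩ := exists_tq true true false sb hL (fun j h => (hL j h).wor sb)
    (fre_col a (V.W.col_ne V.D_pos sb true σ).symm fun w p c z d f g =>
      V.W.wor_ne (f ▸ V.W.in_dA.2 sb) ((congrArg (·.1.wor) d).trans g)) kp
  have b1 := (hL j hj).bk.2 sb
  have ne : (vz (nl y) 1 : Vx K N (Pt K N) r r0) ≠ vz L (i + 1) := vz_ne (by omega) (by omega) hi
  have o1 : ∀ {ι : Type} {l : ι → ℕ} {t : ι → N} (k : V.Rs j l t), (∀ g, ¬V.W.On (l g) (t g) y) →
      V.vr j l t (pz L (i + 1)) < V.vr j l t (pz (nl y) 1) := fun k c =>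
    k.of_vqI (s.rx.inI (.self _ j y)) (Wd.vq_out (k.toRs.out_bk b1 fun g d => (c g d).elim)
      (k.toRs.out_bk (.self _ j y) fun g d => (c g d).elim) (o j _ hj (s.lay y)))
  have := (V.F.surj y).1
  intro _ _
  by_cases l : V.F.lev y = 1
  · have k := Rs.one (s.lz.run (l := 0) rfl (by rw [s.lev, V.od]) (V.F.surj _).1) s.rz
    exact k.serve (Wd.ch_dn (Wd.hang_root l) (by omega))
      ((k.toRs.ch_cut 0).app (Wd.ch_dn a.hang hi)) ne (fun g => by fin_cases g; simp)
      [.lt 2 0, .lt 0 1] [] (by decide +kernel)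
      ⟨o1 k fun g d => by fin_cases g; exact s.ne d.1.tree,
        k.II (s.rx.inI (.self _ j y)) (k.inI_cut (g := 0) s.rz) s.rook (by simp [Par.zi])⟩ trivial
  have l2 : 2 ≤ V.F.lev y := by omega
  have lp := V.F.lev_par l2
  have tp := V.F.tree_par l2
  rcases Nat.mod_two_eq_zero_or_one (V.F.lev y) with c | c
  · have k := s.rs tp (by omega)
    exact k.serve ((k.toRs.ch_cut 0).app (Wd.ch_dn (Wd.hang_par l2) (by omega)))
      ((k.toRs.ch_cut 1).app (Wd.ch_dn a.hang hi)) ne (fun g => by fin_cases g <;> simp)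
      [.lt 0 3, .lt 3 1, .lt 1 2] [] (by decide +kernel)
      ⟨s.cut_lt k b1 tp (Forest.anc_par l2) (by omega), o1 k (s.off rfl (by omega)),
        s.lt_cut k (s.rx.inI (.self _ j y))⟩ trivial
  · have l3 : 2 ≤ V.F.lev (V.F.par y) := by omega
    have lq := V.F.lev_par l3
    have tq := (V.F.tree_par l3).trans tp
    have k := s.rs tq (by omega)
    exact k.serve (((k.toRs.ch_cut 0).app (k.toRs.ch_kid (s.off tp (by omega)) l3)).app
        (Wd.ch_dn (Wd.hang_par l2) (by omega)))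
      ((k.toRs.ch_cut 1).app (Wd.ch_dn a.hang hi)) ne (fun g => by fin_cases g <;> simp)
      [.lt 0 1, .lt 1 4, .lt 4 2, .lt 2 3] [] (by decide +kernel)
      ⟨s.cut_lt k (.self _ j _) tq (Forest.anc_par l3) (by omega),
        s.bk_lt k (.self _ j _) b1 tp (Forest.anc_par l2) (by omega) (by omega),
        o1 k (s.off rfl (by omega)), s.lt_cut k (s.rx.inI (.self _ j y))⟩ trivial

/-- the tail vertex, reached from a line that comes first -/
theorem svT {u : Bool} (c : V.W.S.At L' (cond u (m + 1) m) f τ)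
    (h : V.W.S.hang L' (cond u m (m + 1)) (some (nl y))) (hm : m < 2 * r + 9) (hj : V.grp j = g)
    (s : Tq V j dr cd sp κ (V.W.S.sn L' f τ) (V.W.S.sn L true σ) y)
    (ne : V.F.tree y ≠ V.F.tree (V.W.S.sn L' f τ)) (b0 : V.InF j L') (b : V.fr j L' < V.fr j L) :
    V.W.Sv (vz (nl y) 0) (vz L (i + 1)) := by
  have ry := s.ry ne
  have b1 := (hL j hj).bk.2 sb
  have k := s.rs rfl (by rw [show V.F.lev _ = D from V.W.S.lev_sn V.D_pos _ _ _, V.od])
  have of : (V.W.rts ![0, 0] ![V.W.S.sn L' f τ, V.W.S.sn L true σ]).Off (nl y) :=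
    k.toRs.off_nl fun g d => by
      fin_cases g
      exacts [ne d.1.tree, V.W.col_ne V.D_pos sb true σ (congrArg Kl.col d.1.tree).symm]
  have o1 := k.FF (p := pz L' (m + 1)) (p' := pz L (i + 1)) b0 (ry.inF b1) (fq_lt b)
  have o2 := k.FF (p := pz L (i + 1)) (p' := pz (nl y) 0) (ry.inF b1) (ry.inF (.self _ j y))
    (fq_lt (fr_of (hi_congr b1 (.self _ j y) rfl).2 (o j _ hj (s.lay y))))
  have o3 := k.F_cut (i := 0) (ry.inF (.self _ j y)) 0
  have o4 := s.lt_cut (i := 0) k (k.inI_cut (g := 0) s.rx)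
  intro _ _
  cases u
  · exact k.serve (((k.toRs.ch_cut 0).app (Wd.ch_dn c.hang hm)).app (Wd.ch_ftail of h hm))
      ((k.toRs.ch_cut 1).app (Wd.ch_dn a.hang hi)) (vz_ne (by omega) (by omega) hi)
      (fun g => by fin_cases g <;> simp) [.lt 1 4, .lt 4 2, .lt 2 0, .lt 0 3] []
      (by decide +kernel) ⟨o1, o2, o3, o4⟩ trivial
  · exact k.serve (((k.toRs.ch_cut 0).app (Wd.ch_up c.hang hm)).app (Wd.ch_ftail of h hm.le))
      ((k.toRs.ch_cut 1).app (Wd.ch_dn a.hang hi)) (vz_ne (by omega) (by omega) hi)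
      (fun g => by fin_cases g <;> simp) [.lt 1 4, .lt 4 2, .lt 2 0, .lt 0 3] []
      (by decide +kernel) ⟨o1, o2, o3, o4⟩ trivial

/-- the tail of an inner node -/
theorem svH (l : 2 ≤ V.F.lev y) (l' : V.F.lev y < D) (hx : V.W.Fag V.grp g (nl (V.F.kid y))) :
    V.W.Sv (vz (nl y) 0) (vz L (i + 1)) := by
  have lk := V.F.lev_kid l'
  have tk := Forest.tree_kid l'
  obtain ⟨k, k1, k2, k3⟩ : ∃ k : Fin 7, (k = 2 ∨ k = 4) ∧ lc k ≠ lc (V.F.lev (V.F.kid y)) ∧
      k ≤ V.F.lev y + 1 := by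
    by_cases c : (V.F.lev y + 1) % 6 = 2
    · exact ⟨4, Or.inr rfl, by rw [lk, lc, lc, if_neg (by omega : ¬(V.F.lev y + 1) % 2 = 1)]; simp [c],
        show 4 ≤ _ by omega⟩
    · refine ⟨2, Or.inl rfl, ?_, show 2 ≤ _ by omega⟩
      rw [lk, lc, lc, if_neg c]
      split_ifs <;> simp_all
  obtain ⟨κ, kp, k4⟩ := kap_H a _ (V.F.tree y).col k1 k2
  obtain ⟨j, hj, s⟩ := exists_tq false true false sb hL
    (fun j h => (hx j h).sn V.D_pos false .H) (fre_nl a (V.W.S.pay_H (inl _)) (by simp)) kp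
  have ry := s.ry (ne_H tk)
  have b1 := (hL j hj).bk.2 sb
  intro _ _
  exact svT a hi sb hL hy o (u := true) (m := 0) (V.W.S.pay_H (inl _)) (hang_kid l') (by omega) hj s
    (ne_H tk) (Rest.inF (tk ▸ ry) (.self _ j _)) (fr_of (hi_congr (.self _ j _) b1 tk).2
      (Sw.lt_of_key (.self _ j _) b1 (rev ry s.dr (Forest.anc_kid l') (by omega)
        (by rw [ry.kap, s.kap, k4]; exact k3))))

/-- the tail of a root -/
theorem svR (l : V.F.lev y = 1) (hx : V.W.Fag V.grp g (nl (V.F.kid (V.F.kid y)))) :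
    V.W.Sv (vz (nl y) 0) (vz L (i + 1)) := by
  have := V.hD
  have l1 : V.F.lev y < D := by omega
  have lk := V.F.lev_kid l1
  have l2 : V.F.lev (V.F.kid y) < D := by omega
  have lk' := V.F.lev_kid l2
  have tk := Forest.tree_kid l1
  have tk' := (Forest.tree_kid l2).trans tk
  obtain ⟨κ, kp, k4⟩ := kap_H a (V.F.kid (V.F.kid y)) (V.F.tree y).col (Or.inl rfl)
    (by rw [lk', lk, l]; decide)
  obtain ⟨j, hj, s⟩ := exists_tq false true false sb hL
    (fun j h => (hx j h).sn V.D_pos false .H) (fre_nl a (V.W.S.pay_H (inl _)) (by simp)) kp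
  have ry := s.ry (ne_H tk')
  have k5 : V.kap j (V.F.tree y) = 2 := by rw [ry.kap, s.kap, k4]; rfl
  have b1 := (hL j hj).bk.2 sb
  have k := s.rs rfl (by rw [show V.F.lev _ = D from V.W.S.lev_sn V.D_pos _ _ _, V.od])
  have of : ∀ n, V.F.tree n = V.F.tree y → (V.W.rts ![0, 0]
      ![V.W.S.sn (nl (V.F.kid (V.F.kid y))) false .H, V.W.S.sn L true σ]).Off (nl n) :=
    fun n t => k.toRs.off_nl fun g d => by
      fin_cases g
      exacts [ne_H tk' (t.symm.trans d.1.tree),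
        V.W.col_ne V.D_pos sb true σ (congrArg Kl.col (t.symm.trans d.1.tree)).symm]
  have f2 := Rest.inF (tk ▸ ry) (.self _ j (V.F.kid y))
  intro _ _
  exact k.serve ((((k.toRs.ch_cut 0).app (Wd.ch_up (V.W.S.pay_H (inl _)).hang (by omega))).app
      (Wd.ch_ftail (of _ tk) (hang_kid l2) (by omega))).app
      (Wd.ch_ftail (of _ rfl) (hang_kid l1) (by omega)))
    ((k.toRs.ch_cut 1).app (Wd.ch_dn a.hang hi)) (vz_ne (by omega) (by omega) hi)
    (fun g => by fin_cases g <;> simp) [.lt 1 2, .lt 2 5, .lt 5 3, .lt 3 0, .lt 0 4] []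
    (by decide +kernel)
    ⟨k.FF (Rest.inF (tk' ▸ ry) (.self _ j _)) f2 (fq_lt (fr_of
        (hi_congr (.self _ j _) (.self _ j _) (Forest.tree_kid l2)).2 (Sw.nl_lt.2
          (rev (tk ▸ ry) s.dr (Forest.anc_kid l2) (by omega) (by rw [tk, k5]; omega))))),
      k.FF f2 (ry.inF b1) (fq_lt (fr_of (hi_congr (.self _ j _) b1 tk).2 (Sw.lt_of_key
        (.self _ j _) b1 (rev ry s.dr (Forest.anc_kid l1) (by omega) (by omega))))),
      k.FF (ry.inF b1) (ry.inF (.self _ j y))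
        (fq_lt (fr_of (hi_congr b1 (.self _ j y) rfl).2 (o j _ hj (s.lay y)))),
      k.F_cut (ry.inF (.self _ j y)) 0, s.lt_cut k (k.inI_cut (g := 0) s.rx)⟩ trivial

/-- the tail of a label -/
theorem svL {f' : Bool} {τ' : Slot (r + 1)} (c : V.W.S.At L' m f' τ') (hc : V.W.S.sn L' f' τ' = y)
    (hx : V.W.Fag V.grp g L') : V.W.Sv (vz (nl y) 0) (vz L (i + 1)) := by
  have cl : ∀ L f σ, (V.F.tree (V.W.S.sn L f σ)).col = pcol V.F (some (V.W.lo L)) := fun L f σ =>
    (V.W.S.col_sn V.D_pos L f σ).trans (V.W.col_typ L f)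
  have c0 := V.W.col_ne V.D_pos sb true σ
  have c1 : ∀ f τ, (V.F.tree (V.W.S.sn L' f τ)).col = (V.F.tree y).col := fun f τ =>
    hc ▸ (cl _ _ _).trans (cl _ _ _).symm
  have c2 : ∀ n, V.W.In L' n → (V.F.tree n).col + 1 = (V.F.tree y).col := fun n h =>
    (V.W.col_in h f').symm.trans ((V.W.S.col_sn V.D_pos _ _ _).symm.trans (c1 f' τ'))
  have c3 : (V.F.tree (V.W.S.sn L true σ)).col = (V.F.tree y).col + 1 :=
    (V.W.S.col_sn V.D_pos _ _ _).trans (V.W.col_in sb true)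
  have c4 : ∀ n n', V.W.In L' n → V.W.In L n' → V.F.tree n ≠ V.F.tree n' := fun n n' h h' t =>
    Kl.col_ne_succ _ (h'.unique sb ▸ t ▸ c2 n h).symm
  obtain ⟨dr, cd, sp, od⟩ := V.ord (L := L') (L' := L) 0
    (fun h => c0 ((cl _ _ _).trans (h ▸ (cl _ f' τ').symm.trans (c1 _ _))))
    (fun n h h' => c4 n n ⟨_, h⟩ ⟨_, h'⟩ rfl) fun n n' h h' _ =>
      ⟨fun d => absurd d.tree.symm (c4 n n' h h'), fun d => absurd d.tree (c4 n n' h h')⟩
  have key : ∀ (u : Bool) {m' f τ}, V.W.S.At L' (cond u (m' + 1) m') f τ → m = cond u m' (m' + 1) →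
      0 < cond u (m' + 1) m' → m' < 2 * r + 9 → V.W.Sv (vz (nl y) 0) (vz L (i + 1)) := by
    intro u m' f τ d h h0 h1
    have ne : V.F.tree y ≠ V.F.tree (V.W.S.sn L' f τ) :=
      hc ▸ c.tree_ne V.D_pos d (by cases u <;> simp [h])
    obtain ⟨κ, kp⟩ := Kl.exists_kap (V.F.tree (V.W.S.sn L' f τ)) (V.F.tree (V.W.S.sn L true σ))
    obtain ⟨j, hj, s⟩ := exists_tq dr cd sp sb hL (fun j h => (hx j h).sn V.D_pos f τ)
      (fre_col a (c1 f τ ▸ c0.symm) fun w p c z g _ _ => by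
        obtain ⟨g1, rfl⟩ := Prod.ext_iff.1 ((congrArg Subtype.val (d.tree V.D_pos)).symm.trans g)
        have := d.off
        rw [show V.W.S.typ L' f = _ from g1] at this
        exact h0.ne this) kp
    have rs : ∀ n, V.W.In L' n → V.Rest j (V.F.tree n) := fun n h =>
      s.rest _ ((hx j hj).wor h) (by rw [c1, ← c2 n h]; exact Kl.col_ne_succ _) (by
        rw [c3, ← c2 n h]
        exact (by decide : ∀ c : ZMod 3, c ≠ c + 1 + 1) _)
    intro _ _
    exact svT a hi sb hL hy o d (h ▸ hc ▸ c.hang) h1 hj s ne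
      (fun n g _ g' => g'.not_rest (rs n ((hx j hj).bk.1 g)))
      (fr_lt.2 (od j (hx j hj) (hL j hj) s.dr s.cd s.sp
        (fun n g => g.elim (rs n) fun g => g.unique sb ▸ s.ry ne)
        fun n n' g g' _ t => absurd t (c4 n n' g g')))
  have := c.le
  intro _ _
  rcases le_or_gt m 1 with d | d
  · obtain ⟨f, τ, d'⟩ := V.W.S.at_mid L' (i := m + 1) (by omega) (by omega)
    exact key true d' rfl (Nat.succ_pos m) (by omega)
  · obtain ⟨m, rfl⟩ : ∃ m', m = m' + 1 := ⟨m - 1, by omega⟩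
    obtain ⟨f, τ, d'⟩ := V.W.S.at_mid L' (i := m) (by omega) (by omega)
    exact key false d' rfl (show 0 < m by omega) (by omega)

end Lt

/-- **The first two vertices of the line of `y` and a point of the block of `y` with an access down
in a second half.** -/
theorem sv_lt' (V : Fw K N r r0 q D e b) (gd : V.W.S.Good e) (a : V.W.S.At L i true σ)
    (hi : i < 2 * r + 9) (sb : V.W.In L y) (hm : m ≤ 1) :
    V.W.Sv (vz (nl y) m) (vz L (i + 1)) := by
  have key : ∀ X, (∀ g, V.W.Fag V.grp g L → V.W.Fag V.grp g (nl y) →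
      (∀ j s, V.grp j = g → V.W.lay j (inl y) = blay s false → V.W.pos j L < V.W.pos j (nl y)) →
      V.W.Fag V.grp g X → V.W.Sv (vz (nl y) m) (vz L (i + 1))) →
      V.W.Sv (vz (nl y) m) (vz L (i + 1)) := fun X h => by
    obtain ⟨g, f⟩ := V.W.exists_grp V.grp [L, nl y, X] (by simp)
    have hL := f L (by simp)
    have hy := f (nl y) (by simp)
    intro _ _
    rcases Lt.blk_or hL hy sb with o | o
    · interval_cases m
      exacts [Lt.svA a hi sb hL hy (V.W.S.pay_H (inl y)) (by simp) o,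
        Lt.svA a hi sb hL hy (V.W.S.pay_X1 (inl y)) (by simp) o]
    · exact h g hL hy o (f X (by simp))
  intro _ _
  interval_cases m
  · rcases (V.F.surj y).2.1.eq_or_lt with c | c
    · obtain ⟨L', m, f, τ, a1, a2⟩ := gd.use c
      exact key L' fun g hL hy o => Lt.svL a hi sb hL hy o a1 a2
    rcases (V.F.surj y).1.eq_or_lt with d | d
    exacts [key _ fun g hL hy o => Lt.svR a hi sb hL hy o d.symm,
      key _ fun g hL hy o => Lt.svH a hi sb hL hy o d c]
  · exact key L fun g hL hy o _ => Lt.svC a hi sb hL hy o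

/-- **The first two vertices of the line of `y` and a point with accesses down only.** -/
theorem sv_lt (V : Fw K N r r0 q D e b) (gd : V.W.S.Good e) {v : Vx K N (Pt K N) r r0}
    (a : V.W.S.Acc false v L i f σ) (sb : V.W.In L y) (hm : m ≤ 1)
    (nm : ∀ w, v ≠ hv (inl (inr w))) (du : ∀ L i f σ, ¬V.W.S.Acc true v L i f σ) :
    V.W.Sv (vz (nl y) m) v := by
  rcases a.cases with ⟨c, -⟩ | ⟨-, w, -, c, -⟩ | ⟨k, rfl, c⟩
  · exact nomatch c
  · exact absurd c (nm w)
  have c : i + 1 = k := c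
  have := k.2
  have d : ¬(k : ℕ) + 1 < 2 * r + 9 := fun d =>
    let ⟨_, _, d⟩ := V.W.S.acc_up L k (Or.inl d)
    du _ _ _ _ d
  obtain rfl : f = true := by
    cases f
    exacts [by have := a.at.half.1 rfl; omega, rfl]
  rw [← vz_val, ← c]
  intro _ _
  exact V.sv_lt' gd a.at (by omega) sb hm

/-- the same for the last two vertices of a line -/
theorem sv_lt2 (V : Fw K N r r0 q D e b) (gd : V.W.S.Good e) {v : Vx K N (Pt K N) r r0}
    (sb : V.W.In L y) (h : v = vz L (2 * r + 9) ∨ (v = vz L (2 * r + 8) ∧ ¬V.W.S.Mo L))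
    (hm : m ≤ 1) : V.W.Sv v (vz (nl y) m) := by
  intro _ _
  refine Wd.Sv.symm fun {_ _} => ?_
  rcases h with rfl | ⟨rfl, h⟩
  · by_cases c : V.W.S.Mo L
    exacts [V.sv_lt' gd (Stat.mo_Y1 c) (by omega) sb hm, V.sv_lt' gd (Stat.nm_Z c) (by omega) sb hm]
  · exact V.sv_lt' gd (Stat.nm_Y1 h) (by omega) sb hm

end Fw

end Pool.Agent.P.MP_439f1f_co
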