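import Pool.Agent.P.MP_439f1f_co.Rl1
import Pool.Agent.P.MP_439f1f_co.Rl3
import Pool.Agent.P.MP_439f1f_co.Rl9

/-!
Two points in one block: the remaining rows.
-/

set_option autoImplicit false
set_option linter.unusedSectionVars false

namespace Pool.Agent.P.MP_439f1f_co

variable {K N : Type} {r r0 q D e b : ℕ} [DecidableEq K] [Finite K] [Finite N] [Nonempty K]

theorem Fw.gB_of {V : Fw K N r r0 q D e b} (G : V.W.S.Good e) (hE : V.RowLE) (hS : V.RowLS)
    (h2 : V.LS2) : V.GB :=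
  Fw.gb_of hE (fun _ _ _ _ sb h hm _ => V.sv_lt2 G sb h hm) hS (V.rowLK_of h2)

end Pool.Agent.P.MP_439f1f_co
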