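import Pool.Agent.P.MP_439f1f_co.Rb1
import Pool.Agent.P.MP_439f1f_co.Rc1

/-!
A node and the first moat hub above it.
-/

set_option autoImplicit false
set_option linter.unusedSectionVars false

namespace Pool.Agent.P.MP_439f1f_co

open Function SimpleGraph Sum

variable {K N : Type} {r r0 q D e b : ℕ} [DecidableEq K] [Finite K] [Finite N] [Nonempty K]

open Rb in
theorem Fw.rowTx_zero (V : Fw K N r r0 q D e b) (u y : N) (an : V.F.Anc y u)
    (pa : V.F.lev y % 2 = V.F.lev u % 2) : V.W.Sv (hv (nl u)) (hv (ml y 0)) := by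
  have two := V.two_r0
  have t : V.F.tree y = V.F.tree u := an.tree
  obtain ⟨j, s, fj⟩ := Rc.far V (Par.solo_adm (D := D) (κ := (V.F.tree y).kind) (d := true)
    (o := some false) two (by simp) (Or.inl rfl)) [V.W.prv (inl y)] (by simp)
  have sy : (V.F.tree y).stg ≠ j := (fj _ (by simp)).wor (V.W.in_prv (inl y))
  obtain ⟨rX, -, -, po, lay⟩ := Rc.solo_leak s sy
  have ru : V.Role j _ (V.F.tree u) := t ▸ Rc.solo_role s sy
  have lu : V.Liv j (V.F.tree u) := t ▸ Rc.solo_liv s sy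
  have RX := run_lab rX.liv (V.lev_ell y 1)
  have rk := rX.rook
  have mn : ∀ i, V.W.pos j (ml y i) < V.W.pos j (nl y) := fun i => V.W.pos_mn.2 lay
  have pn := (Wd.prv_lt j (Wd.mo y 1)).trans (mn _)
  have key : ∀ {n n'}, V.F.tree n = V.F.tree u → V.F.Anc n n' → n ≠ n' →
      (V.L j).key n < (V.L j).key n' := fun d a ne =>
    key_liv (d ▸ lu) rk a.tree.symm (V.ho.lt _ a ne)
  have yu : V.W.pos j (nl y) ≤ V.W.pos j (nl u) := Sw.nl_le.2
    ((eq_or_ne y u).elim (fun d => d ▸ le_rfl) fun d => (key t an d).le)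
  have ne : V.F.tree u ≠ V.F.tree (V.W.ell y 1) := fun d => absurd (ru.eq (d ▸ rX)) (by simp)
  have zi : (V.par j).zi (some false) < (V.par j).zi none := by
    rw [s]
    exact Nat.lt_of_sub_eq_succ rfl
  have pne : ∀ {n}, 2 ≤ V.F.lev n → V.F.par n ≠ n := fun h d => by
    have := V.F.lev_par h
    rw [d] at this
    omega
  have el0 : el (r0 + 1) (V.W.port j y) (0 % (r0 + 1)) <
      el (r0 + 1) (V.W.port j y) (1 % (r0 + 1)) := by
    rw [po, Nat.mod_eq_of_lt (show 1 < _ by omega)]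
    simp [el]
    omega
  rcases Nat.mod_two_eq_zero_or_one (V.F.lev u) with o | o
  · have l2 : 2 ≤ V.F.lev u := V.F.tre.two_le o
    have lp := V.F.lev_par l2
    have ap := Forest.anc_par l2
    have tp : V.F.tree (V.F.par u) = V.F.tree u := ap.tree
    have k := Wd.Rs.two (Liv.run (tp ▸ lu) (l := 0) rfl (by omega) (by omega)) RX
      (Wd.On.tree_ne (tp ▸ ne))
    have off : ∀ z, ¬V.W.On (![0, 0] z) (![V.F.par u, V.W.ell y 1] z) u := fun z a => by
      fin_cases z
      exacts [by have : V.F.lev u ≤ V.F.lev (V.F.par u) := a.1.1; omega, ne a.1.tree]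
    have y2 : 2 ≤ V.F.lev y := V.F.tre.two_le (pa.trans o)
    have py : V.W.pos j (nl (V.F.par y)) < V.W.pos j (ml y 0) :=
      Sw.lt_of_key (.self _ j _) (Wd.bk_pay.2 rfl) (key ((Forest.anc_par y2).tree.trans t)
        (Forest.anc_par y2) (pne y2))
    have pu : (V.L j).key (V.F.par u) < (V.L j).key u := key tp ap (pne l2)
    intro _ _
    refine k.serve ((k.ch_cut 0).app (k.ch_kid off l2))
      ((k.ch_cut 1).app ((Wd.ch_entry y 1).app (k.ch_moat y 0))) (by simp [Wd.mo])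
      (fun g => by fin_cases g <;> simp)
      [.lt 0 4, .lt 4 3, .lt 3 1, .lt 1 2] [] (by decide +kernel)
      ⟨Wd.vq_lt ((k.cut_lt_iff _ 0).2 ⟨?_, by simp [Wd.cut, Wd.mo]⟩), k.vq_ml_prv el0,
        Wd.vq_lt (Rts.vp_of_an ?_), Wd.vq_lt (vp_role k (.self _ j _) (Wd.bk_cut j _ _) ru
          (((k.on_cut 1).1.tree : V.F.tree _ = _) ▸ rX) rk zi)⟩ trivial
    · by_cases d : y = u
      · subst d
        exact (Rts.an_out (k.out_bk (L := ml y 0) (n := y) (Wd.bk_pay.2 rfl)
          fun z a => (off z a).elim)).symm ▸ py.le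
      · exact (k.rb_even (g := 0) ⟨(an.par d).2, (V.F.surj y).1⟩ (pa.trans o) py.le (mn 0)).symm ▸
          le_rfl
    · rw [Rts.an_out (k.out_bk (.self _ j u) fun z a => (off z a).elim)]
      rcases k.an_cases (V.W.prv (Wd.mo y 1)) with d | ⟨z, a, a1, -, a3, d⟩ <;> rw [d]
      · exact pn.trans_le yu
      · obtain rfl := a3.unique (Wd.bk_prv' j _)
        fin_cases z
        exacts [Sw.nl_lt.2 pu, (ne (t.symm.trans a1.1.tree)).elim]
  · have k := Wd.Rs.two (lu.run (l := 0) rfl o (V.F.surj u).1) RX (Wd.On.tree_ne ne)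
    intro _ _
    refine k.serve (k.ch_cut 0) ((k.ch_cut 1).app ((Wd.ch_entry y 1).app (k.ch_moat y 0)))
      (by simp [Wd.mo]) (fun g => by fin_cases g <;> simp)
      [.lt 3 2, .lt 2 0, .lt 0 1] [] (by decide +kernel)
      ⟨k.vq_ml_prv el0, Wd.vq_lt ((k.lt_cut_iff _ 0).2 ?_),
        Wd.vq_lt (vp_role k (Wd.bk_cut j _ _) (Wd.bk_cut j _ _)
          (((k.on_cut 0).1.tree : V.F.tree _ = _) ▸ ru)
          (((k.on_cut 1).1.tree : V.F.tree _ = _) ▸ rX) rk zi)⟩ trivial
    exact (Rts.an_out (k.rb_odd (y := y) (Wd.bk_prv' j (Wd.mo y _)) (pa.trans o) pn)).symm ▸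
      pn.trans_le yu

/-- **A node and a moat hub above it.** -/
theorem Fw.rowTx' (V : Fw K N r r0 q D e b) : V.RowTx := fun u y k a p => by
  intro _ _
  rcases eq_or_ne k 0 with rfl | d
  exacts [V.rowTx_zero u y a p, V.rowTx_pos u y k a p d]

end Pool.Agent.P.MP_439f1f_co
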