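import Pool.Agent.P.MP_439f1f_co.Nd0

/-!
A node and a point in the same tree; the tree is alive and closed.
-/

set_option autoImplicit false
set_option linter.unusedSectionVars false

namespace Pool.Agent.P.MP_439f1f_co

open Function SimpleGraph Sum

variable {K N ι : Type} {r r0 q D e b : ℕ}

namespace Rd

/-- two alive items; the first may be open, with the entry tree in front -/
def pd (D : ℕ) (k : ZMod 3 → Fin 7) (s : Bool) (o : Option Bool) : Par r r0 D :=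
  { Par.base r r0 D with kap := k, cd := s, op := o, ek := Fin.ofNat _ 1 }

theorem exists_kap (x y : Kl K r r0) : ∃ k : ZMod 3 → Fin 7, ∀ c,
    (k c = 2 ∨ k c = 4 ∨ k c = 6) ∧ x.Hk (k c) c ∧ y.Hk (k c) c := by
  have a : ∀ (z : Kl K r r0) c, ∃ l0, ∀ k, lc k ≠ l0 → z.Hk k c := fun z c => by
    by_cases h : ∃ w l, z.1 = (.tN w (c + 1) l, .H)
    · obtain ⟨w, l, h⟩ := h
      exact ⟨l, fun k d w' l' f => by
        obtain ⟨-, -, rfl⟩ : w = w' ∧ True ∧ l = l' := by simpa [h] using f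
        exact d⟩
    · exact ⟨0, fun _ _ w l f => absurd ⟨w, l, f⟩ h⟩
  choose lx hx using a x
  choose ly hy using a y
  choose k h1 h2 h3 using fun c => (by decide : ∀ l l' : Fin 4, ∃ k : Fin 7,
    (k = 2 ∨ k = 4 ∨ k = 6) ∧ lc k ≠ l ∧ lc k ≠ l') (lx c) (ly c)
  exact ⟨k, fun c => ⟨h1 c, hx c _ (h2 c), hy c _ (h3 c)⟩⟩

theorem ta (two : 2 ≤ r0) {x y : Kl K r r0} (s : Bool) {o : Option Bool} (ne : x.col ≠ y.col)
    (lz : ¬x.Own y) (ho : o = none ∨ (o = some false ∧ x.col = y.col + 1 ∧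
      ∀ w c l, x.1 ≠ (.tN w c l, .H))) :
    ∃ k, (pd D k s o).TA fun i => {cond i y x} := by
  obtain ⟨k, hk⟩ := exists_kap x y
  have k1 : ∀ c : ZMod 3, c + 1 ≠ c ∧ c + 1 + 1 ≠ c := by decide
  have m : ∀ {a T}, (pd D k s o).Mt (fun i => {cond i y x}) a T → (a = some false ∧ T = x) ∨
      (a = some true ∧ T = y) ∨ (a = none ∧ T = x.ent (Fin.ofNat _ 1) ∧ x.col = y.col + 1) := by
    rintro (_ | _ | _) T h
    · obtain ⟨i, _, rfl, a, rfl⟩ := h
      rcases ho with rfl | ⟨rfl, d, -⟩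
      · exact nomatch a
      · obtain rfl := Option.some.inj a
        exact Or.inr (Or.inr ⟨rfl, rfl, d⟩)
    exacts [Or.inl ⟨rfl, h⟩, Or.inr (Or.inl ⟨rfl, h⟩)]
  have n : ∀ {a a' T T'}, (pd D k s o).Mt (fun i => {cond i y x}) a T →
      (pd D k s o).Mt (fun i => {cond i y x}) a' T' → T.col = T'.col → a = a' ∧ T = T' := by
    intro a a' T T' h h' d
    have := k1 y.col
    have := k1 x.col
    rcases m h with ⟨rfl, rfl⟩ | ⟨rfl, rfl⟩ | ⟨rfl, rfl, f⟩ <;>
      rcases m h' with ⟨rfl, rfl⟩ | ⟨rfl, rfl⟩ | ⟨rfl, rfl, f'⟩ <;>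
        first | exact ⟨rfl, rfl⟩ | (exfalso; (try simp only [Kl.col_ent] at d); grind)
  refine ⟨k, fun i T h T' h' => by rw [h, h'], fun c => (hk c).1, fun _ => Or.inl rfl,
    fun a a' T h h' => (n h h' rfl).1, by simp [pd, Par.base], fun a T c h => ⟨?_, ?_⟩,
    fun a a' T T' h h' d => ?_, fun a a' T T' h h' d => ?_, fun a a' T T' w c k h h' d d' => ?_,
    fun a a' T T' w c k i h h' d d' => ?_, fun a a' T T' h h' d => ?_, by simp [pd, Par.base],
    by simp [pd, Par.base], fun _ _ _ _ k _ _ _ => Fin.le_last k, fun i a => ?_, ?_, ?_,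
    by simp [pd, Par.base]⟩
  · rcases m h.1 with ⟨-, rfl⟩ | ⟨-, rfl⟩ | ⟨-, rfl, -⟩
    exacts [(hk c).2.1, (hk c).2.2, .of_sl (by simp [Kl.ent])]
  · exact fun _ _ _ f => absurd rfl f
  · have := d.2
    rw [(n h.1 h'.1 d.col).2] at this
    omega
  · have := d.1
    rw [(n h.1 h'.1 d.col).2, d.2.2.1] at this
    exact nomatch this
  · rw [(n h.1 h'.1 ((Kl.col_val d).trans (Kl.col_val d').symm)).2, d'] at d
    exact nomatch d
  · rw [(n h.1 h'.1 ((Kl.col_val d).trans (Kl.col_val d').symm)).2, d'] at d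
    exact nomatch d
  · rcases m h.1 with ⟨-, rfl⟩ | ⟨-, rfl⟩ | ⟨-, rfl, -⟩ <;>
      rcases m h'.1 with ⟨-, rfl⟩ | ⟨-, rfl⟩ | ⟨-, rfl, -⟩ <;>
        first | exact lz (Or.inl d) | exact lz (Or.inr d) |
          (obtain ⟨_, _, _, _, _, d, d', -⟩ := d; simp_all [Kl.val_ent])
  · exact ⟨Set.subsingleton_singleton, Nat.zero_le _, by
      simp only [pd, Fin.val_ofNat, Nat.mod_eq_of_lt (show 1 < r0 + 1 by omega)], Or.inl rfl⟩
  · rintro i a - _ rfl _ rfl w k d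
    rcases ho with rfl | ⟨rfl, f, -⟩
    · exact nomatch a
    · obtain rfl := Option.some.inj a
      exact (k1 y.col).2 (f ▸ (Kl.col_val d).symm)
  · rintro i a _ rfl w c l d
    rcases ho with rfl | ⟨rfl, -, f⟩
    · exact nomatch a
    · obtain rfl := Option.some.inj a
      exact absurd d (f _ _ _)

variable [DecidableEq K] [Finite K] [Finite N] [Nonempty K]

section wd
variable {β : Type} [LinearOrder β] {W : Wd K N β r r0 q D e b} {j : K} {l : ι → ℕ} {t : ι → N}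
  {L : Hub K N (Pt K N) r0} {y : N} {g : ι}

/-- the labels of a system line do not lie in the world of its block -/
theorem sys_wor (h : W.In L y) {f : Bool} {w : K × Bool} {p : ZMod 12} {c : ZMod 3}
    (d : W.S.typ L f = .tS w p c ∨ W.S.typ L f = .hS w p c) : W.S.wor y ≠ w := by
  cases f
  · rcases L with (n | n) | ⟨i, z, a⟩ <;> simp [Pre.typ, Pre.tt] at d
    exact d.1 ▸ W.wor_ne h
  · have h' := W.in_dA.2 h
    simp only [Pre.typ] at d
    revert h' d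
    rcases W.S.O.dA L with (n | n) | ⟨i, z, a⟩ <;> intro d h' <;> simp [Pre.ht] at d
    exact d.1 ▸ W.wor_ne h'

variable (k : W.Rs j l t) (h : W.Bk j L y) (c : W.pos j L < W.pos j (nl y))
include k h c

/-- the front of an odd block is not carried -/
theorem out_odd (o : W.F.lev y % 2 = 1) : (W.rts l t).Out (W.pos j) L := fun i s d => by
  obtain ⟨p, a⟩ := k.pair d.1
  rcases p.btw L d.2.1 (a ▸ d.2.2.le) with f | f
  · exact c.not_ge (h.unique f ▸ d.2.1)
  · have := W.F.lev_kid p.lev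
    have := p.odd
    rw [← h.unique f] at *
    omega

/-- the front of an even block of a route is carried -/
theorem an_even (o : W.F.lev y % 2 = 0) (a : W.On (l g) (t g) y) :
    (W.rts l t).an (W.pos j) L = nl (t g) := by
  have a1 := k.len g
  have a2 := (k.run g).ev
  have a3 := a.1.1
  have a4 := a.2
  obtain ⟨s, hs⟩ : ∃ s, l g + (2 * s + 1) + 1 = W.F.lev y := ⟨(W.F.lev y - l g) / 2 - 1, by omega⟩
  have hn : s < (W.rts l t).n g := by omega
  obtain ⟨p, d⟩ := k.pair hn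
  have d' : W.F.at' (t g) (l g + (2 * s + 1) + 1) = y := hs ▸ a.1.2
  have ne : W.F.at' (t g) (l g + 2 * s + 1) ≠ y := fun f => by
    have := p.odd
    rw [f] at this
    omega
  refine (k.ok.an_in (W.lref j) (j := s) ⟨hn, le_of_lt ?_, ?_⟩).trans (k.lab g)
  · exact ((Wd.Bk.self W j _).lt_iff h ne).2 (((Wd.Bk.self W j _).lt_iff (.self W j y) ne).1
      (d' ▸ d ▸ p.lt))
  · exact c.trans_eq (congrArg (fun n => W.pos j (nl n)) d'.symm)

end wd

variable {V : Fw K N r r0 q D e b} {j : K} {l : ι → ℕ} {t : ι → N} {L L' : Hub K N (Pt K N) r0}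
  {u y x n n' : N} {g : ι} {s d f : Bool} {i i' : ℕ} {σ : Slot (r + 1)} {T : Kl K r r0}
  {a a' : Option Bool} {v : Vx K N (Pt K N) r r0}

variable (V) in
/-- the tree is alive and closed, in the standard layout -/
structure Al (j : K) (s : Bool) (T : Kl K r r0) : Prop where
  liv : V.Liv j T
  cl : ¬V.Ot j T
  rook : (V.par j).rook = false
  sp : (V.par j).sp = false
  cd : (V.par j).cd = s

theorem Al.lay (h : Al V j s (V.F.tree n)) : V.W.lay j (inl n) = 1 := by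
  rw [Fw.lay_closed fun c => h.cl c.ot, h.sp]
  rfl

theorem Al.key (h : Al V j s (V.F.tree n)) (c : V.F.tree n' = V.F.tree n)
    (o : V.o s n < V.o s n') : (V.L j).key n < (V.L j).key n' := by
  have w := Fw.not_own h.liv.stg
  refine (Lay.high_lt (Fw.fm_plain w h.rook) (Fw.fm_plain (c ▸ w) h.rook) c (fun d => ?_)
    fun d => ?_).2 (by rwa [Fw.L_dt, Fw.td_cs w, h.cd])
  · exact absurd (d.1.trans_eq h.liv.kap) (by omega)
  · exact absurd (d.1.trans_eq (Fw.Liv.kap (c ▸ h.liv))) (by omega)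

theorem Al.key_le (h : Al V j s (V.F.tree n)) (c : V.F.Anc n n') :
    (V.L j).key n ≤ (V.L j).key n' :=
  (em (n = n')).elim (fun d => d ▸ le_rfl) fun d => (h.key c.tree.symm (V.ho.lt s c d)).le

theorem Al.front (h : Al V j s (V.F.tree y)) (c : Cold j L) (o : V.W.lo L = inl (inl y, 0)) :
    V.W.pos j L < V.W.pos j (nl y) :=
  (Wd.pos_lay c (cold_pay j _) o (V.W.lo_n y) (by decide)).2 (by rw [h.lay]; decide)

theorem exists_cd (V : Fw K N r r0 q D e b) (u y : N) : ∃ s, ¬V.F.Anc y u → V.o s u < V.o s y := by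
  by_cases c : V.F.Anc y u
  · exact ⟨true, fun d => absurd c d⟩
  by_cases c' : V.F.Anc u y
  · exact ⟨true, fun _ => V.ho.lt _ c' fun d => c (d ▸ .refl _)⟩
  · exact (V.ho.choose c' c).imp fun _ d _ => d

theorem zone (k : V.W.Rs j l t) (h : V.InI j a L) (h' : V.InI j a' L')
    (d : (V.par j).rook = false) (c : (V.par j).zi a < (V.par j).zi a') :
    V.W.vq j l t (pz L i) < V.W.vq j l t (pz L' i') :=
  let ⟨_, a1, a2⟩ := h
  let ⟨_, b1, b2⟩ := h'
  Wd.vq_lt (Sw.bk_lt k a1 b1 fun _ _ f f' => Fw.Role.lt ((show V.F.tree _ = _ from f.tree) ▸ a2)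
    ((show V.F.tree _ = _ from f'.tree) ▸ b2) d c)

theorem in_cut (k : V.W.Rs j l t) (g : ι) (h : V.Role j a (V.F.tree (t g))) :
    V.InI j a (V.W.cut (l g) (t g)) :=
  ⟨_, Wd.bk_cut j _ _, (show V.F.tree _ = _ from (k.on_cut g).1.tree) ▸ h⟩

variable (V) in
/-- the end of the route to `u` -/
def Ed (u z : N) : Prop :=
  (V.F.lev u % 2 = 1 ∧ z = u) ∨ (V.F.lev u % 2 = 0 ∧ 2 ≤ V.F.lev u ∧ z = V.F.par u)

theorem exists_ed (V : Fw K N r r0 q D e b) (u : N) :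
    ∃ z, Ed V u z ∧ V.F.lev z % 2 = 1 ∧ V.F.tree z = V.F.tree u := by
  rcases Nat.mod_two_eq_zero_or_one (V.F.lev u) with c | c
  · have d : 2 ≤ V.F.lev u := V.F.tre.two_le c
    have := V.F.lev_par d
    exact ⟨_, Or.inr ⟨c, d, rfl⟩, by omega, V.F.tree_par d⟩
  · exact ⟨u, Or.inl ⟨c, rfl⟩, c, rfl⟩

section geo
variable (k : V.W.Rs j l t) (inj : ∀ g', V.F.tree (t g') = V.F.tree u → g' = g) (l0 : l g = 0)
  (al : Al V j s (V.F.tree u))
include k inj

theorem on_anc (c : V.F.tree y = V.F.tree u) {g' : ι} (h : V.W.On (l g') (t g') y) :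
    g' = g ∧ V.F.Anc y (t g) := by
  obtain rfl := inj g' (h.1.tree.symm.trans c)
  exact ⟨rfl, h.1⟩

theorem anb_eq (c : V.F.tree y = V.F.tree u) (o : ¬V.F.Anc y (t g)) (h : V.W.Anb l t y n) : n = y :=
  h.resolve_right fun ⟨_, d, _⟩ => o (on_anc k inj c d).2

theorem out_u (h : V.W.Bk j L u) (c : V.F.lev (t g) ≤ V.F.lev u) :
    (V.W.rts l t).Out (V.W.pos j) L :=
  k.out_bk h fun _ d => let ⟨a1, a2⟩ := on_anc k inj rfl d; a1 ▸ a2.eq c

omit inj in
theorem cut_vq (h : V.W.pos j (nl (t g)) ≤ V.W.pos j ((V.W.rts l t).an (V.W.pos j) L))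
    (h0 : ∀ n, L = nl n → 0 < i) (hi : i ≤ 2 * r + 10) :
    V.W.vq j l t (pz (V.W.cut (l g) (t g)) 0) < V.W.vq j l t (pz L i) := by
  by_cases c : L = V.W.cut (l g) (t g)
  exacts [c ▸ Wd.vq_line (h0 _ c) hi, Wd.vq_lt ((k.cut_lt_iff L g).2 ⟨h, c⟩)]

include l0

omit inj in
theorem ch0 : V.W.Ch j l t (inl none) [true] [pz (V.W.cut (l g) (t g)) 0] (hv (nl (t g))) :=
  (show V.W.base (l g) (t g) = none by rw [l0]; rfl) ▸ k.ch_cut g

include al

/-- the last step to an even node -/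
theorem kid (h : 2 ≤ V.F.lev u) (c : t g = V.F.par u) :
    V.W.Ch j l t (inl none) [true, true] [pz (V.W.cut (l g) (t g)) 0, pz (nl u) 0] (hv (nl u)) ∧
      V.W.vq j l t (pz (V.W.cut (l g) (t g)) 0) < V.W.vq j l t (pz (nl u) 0) := by
  have a := V.F.lev_par h
  have o : ¬V.F.Anc u (t g) := fun d => by
    have := d.1
    rw [c] at this
    omega
  refine ⟨?_, Wd.vq_lt (Sw.cut_lt_bk k (.self _ j u) fun n d => ?_)⟩
  · exact (ch0 k l0).app (c ▸ k.ch_kid (fun _ d => o (on_anc k inj rfl d).2) h)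
  · rw [anb_eq k inj rfl o d, c]
    exact Al.key (V.F.tree_par h ▸ al) (V.F.tree_par h).symm (V.ho.lt s (Forest.anc_par h)
      fun d => o (by rw [c, d]; exact .refl _))

/-- **Behind the route.** -/
theorem behind (ed : Ed V u (t g)) (cd : ¬V.F.Anc y u → V.o s u < V.o s y) (h : V.W.Bk j L y)
    (c : V.F.tree y = V.F.tree u)
    (bh : ¬V.F.Anc y u ∨ (y = u ∧ V.W.pos j (nl u) ≤ V.W.pos j L) ∨
      (V.F.Anc y u ∧ V.F.lev y % 2 ≠ V.F.lev u % 2 ∧ V.W.pos j L < V.W.pos j (nl y)))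
    (h0 : ∀ n, L = nl n → 0 < i) (hi : i ≤ 2 * r + 10) :
    (V.W.Ch j l t (inl none) [true] [pz (V.W.cut (l g) (t g)) 0] (hv (nl u)) ∧
      V.W.vq j l t (pz (V.W.cut (l g) (t g)) 0) < V.W.vq j l t (pz L i)) ∨
    (V.W.Ch j l t (inl none) [true, true] [pz (V.W.cut (l g) (t g)) 0, pz (nl u) 0] (hv (nl u)) ∧
      V.W.vq j l t (pz (V.W.cut (l g) (t g)) 0) < V.W.vq j l t (pz (nl u) 0) ∧
      (V.W.vq j l t (pz L i) < V.W.vq j l t (pz (V.W.cut (l g) (t g)) 0) ∨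
        V.W.vq j l t (pz (nl u) 0) < V.W.vq j l t (pz L i))) := by
  rcases ed with ⟨o, z⟩ | ⟨o, h2, z⟩
  · refine Or.inl ⟨z ▸ ch0 k l0, ?_⟩
    rcases bh with b | ⟨rfl, b⟩ | ⟨b1, b2, b3⟩
    · exact Wd.vq_lt (Sw.cut_lt_bk k h fun n d => by
        rw [anb_eq k inj c (z ▸ b) d, z]
        exact al.key c (cd b))
    · exact cut_vq k (by rwa [Rts.an_out (out_u k inj h (z ▸ le_rfl)), z]) h0 hi
    · exact cut_vq k (by rw [an_even k h b3 (show V.F.lev y % 2 = 0 by omega) (g := g)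
        ⟨z ▸ b1, l0 ▸ (V.F.surj y).1⟩]) h0 hi
  · have a := V.F.lev_par h2
    have p := Forest.anc_par h2
    have le : V.F.lev (t g) ≤ V.F.lev u := z ▸ p.1
    refine Or.inr ⟨(kid k inj l0 al h2 z).1, (kid k inj l0 al h2 z).2, ?_⟩
    rcases bh with b | ⟨rfl, b⟩ | ⟨b1, b2, b3⟩
    · refine Or.inr (Wd.vq_lt (Sw.bk_lt k (.self _ j u) h fun n n' d d' => ?_))
      rw [anb_eq k inj c (fun f => b ((z ▸ f).trans p)) d', anb_eq k inj rfl (fun f => by
        have := f.1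
        rw [z] at this
        omega) d]
      exact al.key c (cd b)
    · refine Or.inr ?_
      by_cases f : L = nl y
      exacts [f ▸ Wd.vq_line (h0 _ f) hi, Wd.vq_out (out_u k inj (.self _ j y) le) (out_u k inj h le)
        (lt_of_le_of_ne b (Wd.pos_ne (Ne.symm f)))]
    · refine Or.inl (Wd.vq_lt ((k.lt_cut_iff L g).2 ?_))
      rw [Rts.an_out (out_odd k h b3 (show V.F.lev y % 2 = 1 by omega)), z]
      exact b3.trans_le (Sw.nl_le.2 (Al.key_le (c ▸ al) (b1.par fun f => b2 (by rw [f])).2))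

/-- **In front of the route.** -/
theorem before (ed : Ed V u (t g)) (h : V.W.Bk j L y) (c : V.F.Anc y u)
    (p : V.F.lev y % 2 = V.F.lev u % 2) (b : V.W.pos j L < V.W.pos j (nl y))
    (h0 : ∀ n, L ≠ nl n) :
    (V.W.Ch j l t (inl none) [true] [pz (V.W.cut (l g) (t g)) 0] (hv (nl u)) ∧
      V.W.vq j l t (pz L i) < V.W.vq j l t (pz (V.W.cut (l g) (t g)) 0)) ∨
    (V.W.Ch j l t (inl none) [true, true] [pz (V.W.cut (l g) (t g)) 0, pz (nl u) 0] (hv (nl u)) ∧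
      V.W.vq j l t (pz (V.W.cut (l g) (t g)) 0) < V.W.vq j l t (pz L i) ∧
      V.W.vq j l t (pz L i) < V.W.vq j l t (pz (nl u) 0)) := by
  rcases ed with ⟨o, z⟩ | ⟨o, h2, z⟩
  · refine Or.inl ⟨z ▸ ch0 k l0, Wd.vq_lt ((k.lt_cut_iff L g).2 ?_)⟩
    rw [Rts.an_out (out_odd k h b (p.trans o)), z]
    exact b.trans_le (Sw.nl_le.2 (Al.key_le (c.tree ▸ al) c))
  · have a := Forest.anc_par h2
    have le : V.F.lev (t g) ≤ V.F.lev u := z ▸ a.1
    have ne : V.F.par u ≠ u := fun f => by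
      have := V.F.lev_par h2
      rw [f] at this
      omega
    have lt := Al.key (V.F.tree_par h2 ▸ al) (V.F.tree_par h2).symm (V.ho.lt s a ne)
    have ou := out_u k inj (.self _ j u) le
    refine Or.inr ⟨(kid k inj l0 al h2 z).1, ?_⟩
    by_cases f : y = u
    · subst f
      have ol := out_u k inj h le
      exact ⟨Wd.vq_lt ((k.cut_lt_iff L g).2 ⟨by
        rw [Rts.an_out ol, z]
        exact (Sw.lt_of_key (.self _ j _) h lt).le, h0 _⟩), Wd.vq_out ol ou b⟩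
    · have an := an_even k h b (p.trans o) (g := g) ⟨z ▸ (c.par f).2, l0 ▸ (V.F.surj y).1⟩
      exact ⟨Wd.vq_lt ((k.cut_lt_iff L g).2 ⟨by rw [an], h0 _⟩), Wd.vq_lt (Rts.vp_of_an (by
        rw [an, Rts.an_out ou, z]
        exact Sw.nl_lt.2 lt))⟩

end geo

theorem col_sn (h : V.W.In L y) (c : V.F.tree y = V.F.tree u) (f : Bool) (σ : Slot (r + 1)) :
    (V.F.tree (V.W.S.sn L f σ)).col = (V.F.tree u).col + 1 :=
  c ▸ (V.W.S.col_sn V.D_pos L f σ).trans (V.W.col_in h f)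

theorem tree_ne (h : V.W.In L y) (c : V.F.tree y = V.F.tree u) (f : Bool) (σ : Slot (r + 1)) :
    V.F.tree u ≠ V.F.tree (V.W.S.sn L f σ) := fun d =>
  (by decide : ∀ c : ZMod 3, c ≠ c + 1) _ ((congrArg Kl.col d).trans (col_sn h c f σ))

/-- **The state.** -/
theorem state {G : Fin 64} (a : V.W.S.At L i f σ) (h : V.W.In L y) (c : V.F.tree y = V.F.tree u)
    (F : V.W.Fag V.grp G L) (s d : Bool) {o : Option Bool} (ho : o = none ∨ (o = some false ∧
      d = true ∧ ∀ w c l, (V.W.S.typ L f, σ) ≠ (.tN w c l, .H))) :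
    ∃ j, V.grp j = G ∧ Al V j s (V.F.tree u) ∧ V.Role j (some d) (V.F.tree u) ∧
      V.Role j (some (!d)) (V.F.tree (V.W.S.sn L f σ)) ∧ V.Liv j (V.F.tree (V.W.S.sn L f σ)) ∧
      (V.par j).op = o ∧ (V.par j).ek = Fin.ofNat _ 1 ∧ (V.par j).fl = 0 ∧
      (V.par j).flip = false := by
  have c1 := col_sn h c f σ
  have t := congrArg Subtype.val (a.tree V.D_pos)
  have ne : (V.F.tree u).col ≠ (V.F.tree (V.W.S.sn L f σ)).col :=
    c1 ▸ (by decide : ∀ c : ZMod 3, c ≠ c + 1) _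
  have ow : ¬(V.F.tree u).Own (V.F.tree (V.W.S.sn L f σ)) := by
    rintro (⟨w, p, _, _, _, a1, a2, -⟩ | ⟨w, p, _, _, _, a2, a1, -⟩)
    · exact sys_wor h (Or.inr (congrArg Prod.fst (t.symm.trans a2)))
        (by rw [V.wor_eq, c, Kl.ty_val a1]; rfl)
    · exact sys_wor h (Or.inl (congrArg Prod.fst (t.symm.trans a2)))
        (by rw [V.wor_eq, c, Kl.ty_val a1]; rfl)
  obtain ⟨k, ta⟩ : ∃ k, (pd D k s o).TA fun i =>
      {cond (i == d) (V.F.tree u) (V.F.tree (V.W.S.sn L f σ))} := by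
    cases d
    · obtain rfl : o = none := ho.resolve_right fun z => nomatch z.2.1
      simpa using ta (D := D) V.two_r0 s ne ow (Or.inl rfl)
    · simpa using ta (D := D) V.two_r0 s ne.symm (fun z => ow z.symm)
        (ho.imp_right fun z => ⟨z.1, c1, fun w c l d => z.2.2 w c l (t.symm.trans d)⟩)
  obtain ⟨j, st⟩ := V.exists_st G ta [] (by simp) (by simp)
  have f1 : (V.F.tree u).stg ≠ j := c ▸ (F j st.grp).wor h
  have f2 : (V.F.tree (V.W.S.sn L f σ)).stg ≠ j := (F j st.grp).sn V.D_pos f σ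
  have r1 := st.role d (V.F.tree u) (by simp) f1
  have r2 := st.role (!d) (V.F.tree (V.W.S.sn L f σ)) (by cases d <;> simp) f2
  refine ⟨j, st.grp, ⟨r1.liv' (st.cut ▸ rfl), fun z => ?_, st.rook, st.sp, st.cd⟩, r1, r2,
    r2.liv' (st.cut ▸ rfl), st.op, st.ek, st.fl, st.flip⟩
  have := st.op.symm.trans (r1.ot.1 z).2
  rcases ho with rfl | ⟨rfl, rfl, -⟩ <;> exact nomatch this

theorem acc_ne (a : V.W.S.Acc d v L i f σ) : hv (nl u) ≠ v := by
  rcases a.cases with ⟨-, y, rfl, rfl, -⟩ | ⟨-, y, -, rfl, -⟩ | ⟨y, rfl, -⟩ <;> simp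

theorem rs {z : N} (h : V.Liv j (V.F.tree u)) (h' : V.Liv j (V.F.tree x)) (o : V.F.lev z % 2 = 1)
    (c : V.F.tree z = V.F.tree u) (d : V.F.lev x = D) (ne : V.F.tree u ≠ V.F.tree x) :
    V.W.Rs j ![0, 0] ![z, x] ∧ ∀ g, V.F.tree (![z, x] g) = V.F.tree u → g = 0 :=
  ⟨.two (Fw.Liv.run (c ▸ h) rfl o (V.F.surj z).1) (h'.run rfl (by rw [d, V.od]) (V.F.surj x).1)
    (Wd.On.tree_ne fun f => ne (c.symm.trans f)), fun g a => by
      fin_cases g
      exacts [rfl, absurd a.symm ne]⟩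

theorem bh_pos {G : Fin 64} (h : V.Bh G u y L) (a : V.grp j = G) (al : Al V j s (V.F.tree u))
    (c : Cold j L) : ¬V.F.Anc y u ∨ (y = u ∧ V.W.pos j (nl u) ≤ V.W.pos j L) ∨
      (V.F.Anc y u ∧ V.F.lev y % 2 ≠ V.F.lev u % 2 ∧ V.W.pos j L < V.W.pos j (nl y)) :=
  h.imp_right (Or.imp (And.imp_right fun d => d j a al.lay)
    fun d => ⟨d.1, d.2.1, Al.front (d.1.tree ▸ al) c d.2.2⟩)

end Rd

open Rd

variable [DecidableEq K] [Finite K] [Finite N] [Nonempty K]

theorem Fw.rowSD (V : Fw K N r r0 q D e b) : V.RowSD := by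
  intro G u y v L i f σ a h c F _ bh
  obtain ⟨z, ed, oz, tz⟩ := exists_ed V u
  obtain ⟨s, cd⟩ := exists_cd V u y
  obtain ⟨j, g, al, r1, r2, lv, -⟩ := state a.at h c F s true (Or.inl rfl)
  obtain ⟨k, inj⟩ := rs al.liv lv oz tz (V.W.S.lev_sn V.D_pos L f σ) (tree_ne h c f σ)
  have bk := (F j g).bk.2 h
  have i0 := in_cut k 0 (tz ▸ r1)
  have i1 := in_cut k 1 r2
  have lt : (V.par j).zi (some false) < (V.par j).zi (some true) := by simp [Par.zi]
  have le := a.at.le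
  intro _ _
  rcases behind k inj rfl al ed cd bk c (bh_pos bh g al (F j g).cold) (i := i + 1)
    (fun _ _ => Nat.succ_pos _) (by omega) with ⟨c1, o⟩ | ⟨c1, o, o'⟩
  · exact k.serve c1 ((k.ch_cut 1).app (k.ch_acc a)) (acc_ne a) (fun g => by fin_cases g <;> simp)
      [.lt 1 0, .lt 0 2] [] (by decide +kernel) ⟨zone k i1 i0 al.rook lt, o⟩ trivial
  · exact k.serve c1 ((k.ch_cut 1).app (k.ch_acc a)) (acc_ne a) (fun g => by fin_cases g <;> simp)
      [.lt 2 0, .lt 0 1, .lt 2 3, .or (.lt 3 0) (.lt 1 3)] [] (by decide +kernel)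
      ⟨zone k i1 i0 al.rook lt, o, zone k i1 (Role.inI (c ▸ r1) bk) al.rook lt, o'⟩ trivial

theorem Fw.rowSL (V : Fw K N r r0 q D e b) : V.RowSL := by
  intro G u y v L i f σ a h c F _ bh nh
  obtain ⟨z, ed, oz, tz⟩ := exists_ed V u
  obtain ⟨s, cd⟩ := exists_cd V u y
  obtain ⟨j, g, al, r1, r2, lv, op, ek, fl, fp⟩ :=
    state a.at h c F s true (Or.inr ⟨rfl, rfl, nh⟩)
  have ne := tree_ne h c f σ
  have cl := col_sn h c f σ
  generalize hx : V.W.S.sn L f σ = x at r2 lv ne cl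
  have two := V.two_r0
  have ot : V.Ot j (V.F.tree x) := ⟨_, r2, op⟩
  have opn : V.Opn j x := ot.opn.2 (lv.kap ▸ Nat.zero_le _)
  have r3 := ot.ell
  rw [ek, Fin.val_ofNat, Nat.mod_eq_of_lt (by omega)] at r3
  have ce : (V.F.tree (V.W.ell x 1)).col = (V.F.tree x).col + 1 := V.W.col_ell V.D_pos x 1
  have k1 : ∀ c : ZMod 3, c ≠ c + 1 ∧ c ≠ c + 1 + 1 := by decide
  obtain ⟨k, inj⟩ := rs al.liv r3.liv oz tz (V.lev_ell x 1)
    fun d => (k1 _).2 ((congrArg Kl.col d).trans (cl ▸ ce))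
  obtain ⟨o1, o2⟩ := k.leak_front (n := x) two (fun g d => by
    have d : V.F.tree x = _ := d.1.tree
    fin_cases g
    exacts [absurd (d.trans tz).symm ne, absurd ((congrArg Kl.col d).trans ce) (k1 _).1])
    opn.port (by rw [opn.lay, fp]; exact (blay_lt _ _).2 rfl)
  have bk := (F j g).bk.2 h
  have i0 := in_cut k 0 (tz ▸ r1)
  have i1 := in_cut k 1 r3
  have i2 := Role.inI r2 (Wd.bk_pay (p := Wd.mo x 0).2 rfl)
  have i3 := Role.inI r2 (Wd.bk_prv' j (inl x))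
  have lt : (V.par j).zi (some false) < (V.par j).zi (some true) := by simp [Par.zi]
  have lt' : (V.par j).zi none < (V.par j).zi (some false) := by simp [Par.zi, fl]
  have le := a.at.le
  have c2 := (k.ch_cut 1).app ((k.ch_leak x).app (hx ▸ k.ch_acc a))
  intro _ _
  rcases behind k inj rfl al ed cd bk c (bh_pos bh g al (F j g).cold) (i := i)
    (fun n d => Nat.pos_of_ne_zero fun z => by
      obtain ⟨⟨_, z⟩, -⟩ := (z ▸ a.at).zero
      simp [d] at z) (by omega) with ⟨c1, o⟩ | ⟨c1, o, o'⟩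
  · exact k.serve c1 c2 (acc_ne a) (fun g => by fin_cases g <;> simp)
      [.lt 1 3, .lt 3 2, .lt 2 4, .lt 4 0, .lt 0 5] [] (by decide +kernel)
      ⟨zone k i1 i2 al.rook lt', o1, o2, zone k i3 i0 al.rook lt, o⟩ trivial
  · exact k.serve c1 c2 (acc_ne a) (fun g => by fin_cases g <;> simp)
      [.lt 2 4, .lt 4 3, .lt 3 5, .lt 5 0, .lt 0 1, .lt 5 6, .or (.lt 6 0) (.lt 1 6)] []
      (by decide +kernel) ⟨zone k i1 i2 al.rook lt', o1, o2, zone k i3 i0 al.rook lt, o,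
        zone k i3 (Role.inI (c ▸ r1) bk) al.rook lt, o'⟩ trivial

theorem Fw.rowSU (V : Fw K N r r0 q D e b) : V.RowSU := by
  intro u y m an p
  have a : V.W.S.Acc true (vz (inl (inr (y, m))) 0) (inl (inr (y, m))) 1 false .H :=
    Stat.At.up (k := Fin.ofNat _ 0) (V.W.S.pay_H _)
  have h : V.W.In (inl (inr (y, m))) y := V.W.in_pay _
  have c : V.F.tree y = V.F.tree u := an.tree
  obtain ⟨G, F⟩ := V.W.exists_grp V.grp [inl (inr (y, m))] (by simp)
  have F := F _ (List.mem_singleton_self _)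
  obtain ⟨z, ed, oz, tz⟩ := exists_ed V u
  obtain ⟨j, g, al, r1, r2, lv, -⟩ := state a.at h c F true false (Or.inl rfl)
  obtain ⟨k, inj⟩ := rs al.liv lv oz tz (V.W.S.lev_sn V.D_pos _ _ _) (tree_ne h c false .H)
  have bk := (F j g).bk.2 h
  have i0 := in_cut k 0 (tz ▸ r1)
  have i1 := in_cut k 1 r2
  have lt : (V.par j).zi (some false) < (V.par j).zi (some true) := by simp [Par.zi]
  intro _ _
  rcases before k inj rfl al ed bk an p (Al.front (c ▸ al) (cold_pay j _) rfl) (i := 1)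
    (by simp) with ⟨c1, o⟩ | ⟨c1, o, o'⟩
  · exact k.serve c1 ((k.ch_cut 1).app (k.ch_acc a)) (acc_ne a) (fun g => by fin_cases g <;> simp)
      [.lt 2 0, .lt 0 1] [] (by decide +kernel) ⟨o, zone k i0 i1 al.rook lt⟩ trivial
  · exact k.serve c1 ((k.ch_cut 1).app (k.ch_acc a)) (acc_ne a) (fun g => by fin_cases g <;> simp)
      [.lt 0 3, .lt 3 1, .lt 1 2] [] (by decide +kernel)
      ⟨o, o', zone k (Role.inI r1 (.self _ j u)) i1 al.rook lt⟩ trivial

end Pool.Agent.P.MP_439f1f_co
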