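import Pool.Agent.P.MP_439f1f_co.Nd0
import Pool.Agent.P.MP_439f1f_co.B21

/-!
Service of a node and a head into a node or a moat hub, or the first moat hub, in the same tree.
-/

set_option autoImplicit false
set_option linter.unusedSectionVars false

namespace Pool.Agent.P.MP_439f1f_co

open Function SimpleGraph Sum

variable {K N : Type} {r r0 q D e b : ℕ}

/-- a level of the cuts at rest that is allowed while the type is alive -/
def HT.kpw : HT K r0 → Fin 7
  | .tN _ _ l => if l = 1 then 4 else 2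
  | _ => 2

namespace Par

/-- the tree `T` is the first item; all items are alive -/
def tri (D : ℕ) (T : Kl K r r0) (o : Option Bool) (f : Bool) (p : Fin (r0 + 1)) : Par r r0 D :=
  { base r r0 D with
    kap _ := T.ty.kpw
    op := o
    fl := 2
    flip := f
    ek := Fin.ofNat _ 1
    np c := if c = T.col then p else Fin.last _ }

theorem tri_ta {T : Kl K r r0} {o : Option Bool} {f : Bool} {p : Fin (r0 + 1)}
    {B : Set (Kl K r r0)} (two : 2 ≤ r0) (sub : B.Subsingleton)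
    (h1 : o = none ∨ (o = some false ∧ p = Fin.last _))
    (h2 : ∀ x ∈ B, (o = none ∧ ∃ w i, x.1 = (.tE w (T.col + 1) i, .H)) ∨
      (o = some false ∧ f = true ∧ ∃ w, x.1 = (.hP w (T.col + 1), .Z))) :
    (tri D T o f p).TA fun i => cond i B {T} := by
  have z : ∀ c : ZMod 3, c + 1 ≠ c ∧ c + 1 + 1 ≠ c := by decide
  have m : ∀ {a x}, (tri D T o f p).Mt (fun i => cond i B {T}) a x → (a = some false ∧ x = T) ∨
      (a = some true ∧ x ∈ B) ∨ (a = none ∧ o = some false ∧ x = T.ent (Fin.ofNat _ 1)) := by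
    rintro (_ | _ | _) x c
    · obtain ⟨_ | _, T0, c1, c2, rfl⟩ := c
      · exact Or.inr (Or.inr ⟨rfl, c2, by rw [show T0 = T from c1]; rfl⟩)
      · rcases h1 with d | d
        · exact nomatch d.symm.trans c2
        · exact nomatch d.1.symm.trans c2
    exacts [Or.inl ⟨rfl, c⟩, Or.inr (Or.inl ⟨rfl, c⟩)]
  have cB : ∀ x ∈ B, x.col = T.col + 1 := fun x c => by
    rcases h2 x c with ⟨-, _, _, d⟩ | ⟨-, -, _, d⟩ <;> exact Kl.col_val d
  have cT : ∀ {a x}, (tri D T o f p).Mt (fun i => cond i B {T}) a x → x.col = T.col →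
      a = some false ∧ x = T := fun c d => by
    rcases m c with c | ⟨-, c⟩ | ⟨-, -, rfl⟩
    exacts [c, absurd ((cB _ c).symm.trans d) (z _).1, absurd d (z _).1]
  have nM : ∀ x ∈ B, ∀ w c k, x.ty ≠ .hM w c k := fun x c w c' k d => by
    rcases h2 x c with ⟨-, _, _, g⟩ | ⟨-, -, _, g⟩ <;> exact nomatch d.symm.trans (Kl.ty_val g)
  have sm : ∀ {a a' x y}, (tri D T o f p).Mt (fun i => cond i B {T}) a x →
      (tri D T o f p).Mt (fun i => cond i B {T}) a' y → x.ty = y.ty → a = a' ∧ x = y := by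
    intro a a' x y c c' d
    rcases m c with ⟨rfl, rfl⟩ | ⟨rfl, c1⟩ | ⟨rfl, -, rfl⟩
    · exact (cT c' (congrArg HT.col d.symm)).imp Eq.symm Eq.symm
    · rcases m c' with ⟨rfl, rfl⟩ | ⟨rfl, c2⟩ | ⟨rfl, -, rfl⟩
      exacts [cT c (congrArg HT.col d), ⟨rfl, sub c1 c2⟩, absurd d (nM _ c1 _ _ _)]
    · rcases m c' with ⟨rfl, rfl⟩ | ⟨rfl, c2⟩ | ⟨rfl, -, rfl⟩
      exacts [cT c (congrArg HT.col d), absurd d.symm (nM _ c2 _ _ _), ⟨rfl, rfl⟩]
  have no : ∀ i, o = some i → i = false := fun i c => by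
    rcases h1 with d | d
    exacts [(nomatch d.symm.trans c), (Option.some.inj (d.1.symm.trans c)).symm]
  constructor
  · rintro (_ | _) x c y c'
    exacts [by rw [show x = T from c, show y = T from c'], by rw [sub c c']]
  · intro c
    simp only [tri, HT.kpw]
    split
    · split_ifs <;> simp
    · simp
  · exact fun _ => Or.inl rfl
  · exact fun a a' x c c' => (sm c c' rfl).1
  · simp [tri, base]
  · intro a x c d
    refine ⟨fun w l g => ?_, fun _ _ _ g => absurd rfl g⟩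
    rcases m d.1 with ⟨-, rfl⟩ | ⟨-, d⟩ | ⟨-, -, rfl⟩
    · simp only [tri, Kl.ty, g, HT.kpw]
      clear g
      revert l
      decide
    · rcases h2 x d with ⟨-, _, _, d⟩ | ⟨-, -, _, d⟩ <;> exact nomatch d.symm.trans g
    · exact nomatch g
  · intro a a' x y c c' d
    have := d.2
    rw [(sm c.1 c'.1 d.1).2] at this
    omega
  · intro a a' x y c c' d
    have g : y = T := by
      rcases m c'.1 with ⟨-, g⟩ | ⟨-, g⟩ | ⟨-, -, rfl⟩
      · exact g
      · rcases h2 y g with ⟨-, _, _, g⟩ | ⟨-, -, _, g⟩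
        · exact nomatch (Kl.ty_val g ▸ d.2.2.1 :)
        · exact nomatch (Kl.sl_val g).symm.trans d.2.2.2.1
      · exact nomatch d.2.2.2.1
    have := d.1
    rw [(cT c.1 (g ▸ d.col)).2, ← g, d.2.2.1] at this
    exact nomatch this
  · intro a a' x y w c k d d' g g'
    have cc : y.col = x.col := (Kl.col_val g').trans (Kl.col_val g).symm
    rcases m d.1 with ⟨-, rfl⟩ | ⟨-, e1⟩ | ⟨rfl, e1, rfl⟩
    · exact absurd (((cT d'.1 cc).2 ▸ g').symm.trans g) (by simp)
    · exact absurd (Kl.ty_val g) (nM _ e1 _ _ _)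
    rcases m d'.1 with ⟨-, rfl⟩ | ⟨rfl, e2⟩ | ⟨-, -, rfl⟩
    · exact absurd cc.symm (z _).1
    · have p1 := ((h1.resolve_left (by simp [e1])).2)
      refine ⟨⟨fun i c => by simp [no i c], by simp [zi, tri], fun a0 x c1 c2 => Or.inl ?_⟩,
        by simp [tri, base], fun _ => ((h2 y e2).resolve_left (by simp [e1])).2.1,
        by simp [tri, p1, Fin.le_last]⟩
      rw [(cT c1 (add_right_cancel (c2.trans (Kl.col_val g).symm))).1]
      simp [zi]
    · exact absurd g' (by simp [Kl.ent])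
  · intro a a' x y w c k i d d' g g'
    have cc : y.col = x.col := (Kl.col_val g').trans (Kl.col_val g).symm
    rcases m d.1 with ⟨-, rfl⟩ | ⟨-, e1⟩ | ⟨rfl, e1, rfl⟩
    · exact absurd (((cT d'.1 cc).2 ▸ g').symm.trans g) (by simp)
    · exact absurd (Kl.ty_val g) (nM _ e1 _ _ _)
    rcases m d'.1 with ⟨-, rfl⟩ | ⟨rfl, e2⟩ | ⟨-, -, rfl⟩
    · exact absurd cc.symm (z _).1
    · obtain ⟨-, -, _, e3⟩ := (h2 y e2).resolve_left (by simp [e1])
      exact absurd (e3.symm.trans g') (by simp)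
    · exact absurd g' (by simp [Kl.ent])
  · rintro a a' x y d d' ⟨w, p, c, p', c', g, g', -⟩
    have k : ∀ {a x}, (tri D T o f _).Mt (fun i => cond i B {T}) a x →
        (x.ty = .tS w p c ∨ x.ty = .hS w p' c') → x = T := fun d g => by
      rcases m d with ⟨-, d⟩ | ⟨-, d⟩ | ⟨-, -, rfl⟩
      · exact d
      · rcases h2 _ d with ⟨-, _, _, d⟩ | ⟨-, -, _, d⟩ <;> simp [Kl.ty_val d] at g
      · simp [Kl.ent] at g
    rw [k d.1 (Or.inl (Kl.ty_val g))] at g
    rw [k d'.1 (Or.inr (Kl.ty_val g')), g] at g'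
    exact nomatch g'
  · intro c c' d d'
    have k : ∀ c, (tri D T o f p).np c ≠ Fin.last _ → c = T.col := fun c d =>
      by_contra fun g => d (if_neg g)
    exact (k c d).trans (k c' d').symm
  · intro c d
    refine h1.resolve_right fun g => d ?_
    simp [tri, g.2]
  · intro a x w c k d g _
    simp only [tri]
    split_ifs with c1
    · rcases m d.1 with ⟨-, rfl⟩ | ⟨-, e1⟩ | ⟨rfl, e1, rfl⟩
      · exact absurd ((c1 ▸ Kl.col_val g).symm :) (z _).1
      · exact absurd (Kl.ty_val g) (nM _ e1 _ _ _)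
      · exact ((h1.resolve_left (by simp [e1])).2).symm ▸ Fin.le_last k
    · exact Fin.le_last k
  · intro i c
    obtain rfl := no i c
    refine ⟨Set.subsingleton_singleton, Nat.zero_le _, ?_, Or.inl rfl⟩
    simp only [tri, Fin.val_ofNat, Nat.mod_eq_of_lt (show 1 < r0 + 1 by omega)]
  · intro i c _ x d _ _ w k g
    obtain rfl := no i c
    exact nM x d _ _ _ (Kl.ty_val g)
  · intro i c x d w c' l g
    obtain rfl := no i c
    obtain rfl : x = T := d
    exact Or.inr ⟨rfl, Or.inr fun y d => by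
      rw [cB y d, show c' = x.col from (Kl.col_val g).symm]; exact (z _).2⟩
  · refine fun _ => ⟨rfl, fun i c x d => ?_⟩
    obtain rfl := no i c
    refine ⟨rfl, rfl, ?_⟩
    rintro _ (rfl : _ = T)
    exact ((h2 x d).resolve_left fun g => nomatch g.1.symm.trans c).2.2

end Par

variable [DecidableEq K] [Finite K] [Finite N] [Nonempty K]

section
variable {β ι : Type} [LinearOrder β] {W : Wd K N β r r0 q D e b} {j : K} {l : ι → ℕ} {t : ι → N}
  {L : Hub K N (Pt K N) r0} {y x : N} {g : ι} {i i' : ℕ} (k : W.Rs j l t)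
include k

/-- the part of the block of an odd node before the node is not carried -/
theorem Wd.Rs.out_oddw (h : W.Bk j L y) (o : W.F.lev y % 2 = 1) (c : W.pos j L < W.pos j (nl y)) :
    (W.rts l t).Out (W.pos j) L := fun _ _ d => by
  obtain ⟨p, g⟩ := k.pair d.1
  rcases p.btw L d.2.1 (g ▸ d.2.2.le) with a | a
  · exact c.not_ge (h.unique a ▸ d.2.1)
  · have := W.F.lev_kid p.lev
    have := p.odd
    rw [h.unique a] at o
    omega

/-- the part of the block of an even node of a route before the node is carried -/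
theorem Wd.Rs.an_evenw (h : W.Bk j L y) (o : W.F.lev y % 2 = 0) (c : W.pos j L < W.pos j (nl y))
    (hy : W.On (l g) (t g) y) : (W.rts l t).an (W.pos j) L = nl (t g) := by
  have a1 := k.len g
  have a2 := hy.1.1
  have a3 := hy.2
  have a4 := (k.run g).ev
  have a5 := (k.run g).od
  obtain ⟨s, hs⟩ : ∃ s, W.F.lev y = l g + (2 * s + 1) + 1 := ⟨(W.F.lev y - l g - 2) / 2, by omega⟩
  have lt : s < (W.rts l t).n g := by omega
  obtain ⟨p, a⟩ := k.pair lt
  have e : W.F.at' (t g) (l g + (2 * s + 1) + 1) = y := hs ▸ hy.1.2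
  have b := p.lt
  rw [a, e] at b
  have ne : W.F.at' (t g) (l g + 2 * s + 1) ≠ y := fun d => b.ne (by rw [d])
  exact (k.ok.an_in (W.lref j) (i := g) (j := s) ⟨lt, (((Wd.Bk.self W j _).lt_iff h ne).2
    (((Wd.Bk.self W j _).lt_iff (.self W j _) ne).1 b)).le, by
      show _ < W.pos j (nl (W.F.at' (t g) (l g + (2 * s + 1) + 1)))
      rwa [e]⟩).trans (k.lab g)

/-- the line of a node lies outside an interval of a moat -/
theorem Wd.Rs.nl_outw (h : W.pos j (ml y i) < W.pos j (ml y i')) (x : N) :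
    (W.vp j l t (nl x) < W.vp j l t (ml y i) ∧
      W.vp j l t (nl x) < W.vp j l t (W.prv (Wd.mo y i'))) ∨
    (W.vp j l t (ml y i) < W.vp j l t (nl x) ∧
      W.vp j l t (W.prv (Wd.mo y i')) < W.vp j l t (nl x)) := by
  have a := (k.vp_itv (L := W.prv (Wd.mo y i')) h).2 ⟨Wd.le_prv.2 h, Wd.prv_lt j _⟩
  rcases lt_or_ge (W.vp j l t (nl x)) (W.vp j l t (ml y i)) with c | c
  · exact Or.inl ⟨c, c.trans_le a.1⟩
  have : W.vp j l t (W.prv (Wd.mo y i')) < W.vp j l t (nl x) := not_le.1 fun d => by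
    have := (k.vp_itv h).1 ⟨c, d.trans_lt a.2⟩
    simpa [Wd.lp_cold (cold_pay j _)] using Wd.lp_btw this.1 this.2.le
  exact Or.inr ⟨a.1.trans_lt this, this⟩

end

namespace Fw.Rw

variable {V : Fw K N r r0 q D e b} {j : K} {n n' u y : N} {L L' : Hub K N (Pt K N) r0}
  {T : Kl K r r0} {o : Option Bool} {f : Bool} {p : Fin (r0 + 1)} {B : Set (Kl K r r0)}

theorem exists_tri (u : N) (sub : B.Subsingleton)
    (h1 : o = none ∨ (o = some false ∧ p = Fin.last _))
    (h2 : ∀ x ∈ B, (o = none ∧ ∃ w i, x.1 = (.tE w ((V.F.tree u).col + 1) i, .H)) ∨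
      (o = some false ∧ f = true ∧ ∃ w, x.1 = (.hP w ((V.F.tree u).col + 1), .Z))) :
    ∃ g j, V.St g (.tri D (V.F.tree u) o f p) (fun i => cond i B {V.F.tree u}) [] j ∧
      (V.F.tree u).stg ≠ j := by
  obtain ⟨g, a⟩ := V.W.exists_grp V.grp [nl u] (by simp)
  obtain ⟨j, s⟩ := V.exists_st g (Par.tri_ta V.two_r0 sub h1 h2) [] (by simp) (by simp)
  exact ⟨g, j, s, (a (nl u) (by simp) j s.grp).wor (V.W.in_pay (inl u))⟩

/-- ancestors come first in a living tree -/
theorem anc_lt (h : V.Liv j (V.F.tree n)) (c : (V.par j).rook = false) (a : V.F.Anc n n')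
    (ne : n ≠ n') : (V.L j).key n < (V.L j).key n' :=
  (Lay.anc_lt (fm_plain (not_own h.stg) c) (fm_plain (not_own (a.tree ▸ h.stg)) c) a ne).2
    (Or.inl fun l => absurd (l.1.trans_eq h.kap) (by omega))

theorem par_lt (h : V.Liv j (V.F.tree n)) (c : (V.par j).rook = false) (l : 2 ≤ V.F.lev n) :
    (V.L j).key (V.F.par n) < (V.L j).key n :=
  anc_lt (V.F.tree_par l ▸ h) c (Forest.anc_par l) fun d => by
    have := V.F.lev_par l
    rw [d] at this
    omega

theorem anb_two {t0 t1 : N} (h0 : ¬V.F.Anc n t0) (h1 : V.F.tree n ≠ V.F.tree t1)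
    (c : V.W.Anb ![0, 0] ![t0, t1] n n') : n' = n := c.resolve_right fun ⟨g, d, _⟩ => by
  fin_cases g
  exacts [h0 d.1, h1 d.1.tree]

theorem off_two {t0 t1 : N} (h0 : ¬V.F.Anc n t0) (h1 : V.F.tree n ≠ V.F.tree t1) (g : Fin 2) :
    ¬V.W.On (![0, 0] g) (![t0, t1] g) n := fun d => by
  fin_cases g
  exacts [h0 d.1, h1 d.1.tree]

theorem not_anc_par (l : 2 ≤ V.F.lev n) : ¬V.F.Anc n (V.F.par n) := fun d => by
  have := V.F.lev_par l
  have := d.1
  omega

theorem role_ne {a a' : Option Bool} {T' : Kl K r r0} (h : V.Role j a T) (h' : V.Role j a' T')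
    (ne : a ≠ a') : T ≠ T' := fun c => ne (h.eq (c ▸ h'))

theorem succ_ne {x : Kl K r r0} (h : x.col = T.col + 1) : T ≠ x := fun c =>
  (by decide : ∀ c : ZMod 3, c ≠ c + 1) _ (c ▸ h)

variable (V) in
theorem col_ell (n : N) (k : ℕ) : (V.F.tree (V.W.ell n k)).col = (V.F.tree n).col + 1 :=
  V.W.col_ell V.D_pos n k

theorem ek_one {g : Fin 64} {A : Bool → Set (Kl K r r0)} (s : V.St g (.tri D T o f p) A [] j) :
    ((V.par j).ek : ℕ) = 1 := by
  have := V.two_r0
  rw [s.ek]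
  exact Nat.mod_eq_of_lt (by omega)

end Fw.Rw

open Fw.Rw

/-- **The head into a node above `u`.** -/
theorem Fw.rowWF (V : Fw K N r r0 q D e b) : V.RowWF := by
  intro u y a ne
  obtain ⟨l2, ap⟩ := a.par ne
  have lp := V.F.lev_par l2
  have tp := V.F.tree_par l2
  have ty : V.F.tree y = V.F.tree u := a.tree
  have at1 : V.W.S.At (V.W.prv (inl y)) (2 * r + 8) true .Z := Stat.nm_Z (Stat.not_mo_nd y)
  set z := V.W.S.sn (V.W.prv (inl y)) true .Z with hz
  have tz : (V.F.tree z).1 = (.hP (V.F.tree u).ty.wor ((V.F.tree u).col + 1), .Z) := by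
    refine (congrArg Subtype.val (at1.tree V.D_pos)).trans ?_
    simp only [Pre.typ, Wd.prv, Equiv.apply_symm_apply, ← ty]
    rfl
  obtain ⟨g, j, s, st⟩ := exists_tri (V := V) (B := {V.F.tree z}) (o := some false) (f := true)
    u Set.subsingleton_singleton (Or.inr ⟨rfl, rfl⟩) (by
      rintro _ rfl
      exact Or.inr ⟨rfl, rfl, _, tz⟩)
  have lz : V.F.lev z = D := V.W.S.lev_sn V.D_pos _ _ _
  have sz : (V.F.tree z).stg ≠ j := by rwa [Kl.stg, Kl.ty_val tz]
  have ru := s.role false _ rfl st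
  have rz := s.role true _ rfl sz
  have lu := s.liv (i := false) rfl st rfl
  have op := s.opn (n := V.F.par u) (i := false) tp (tp ▸ st) rfl (Nat.zero_le _)
  have rx := op.ot.ell
  rw [ek_one s] at rx
  have k : V.Rs j ![0, 0] ![V.W.ell (V.F.par u) 1, z] :=
    .two (rx.liv.run rfl (by rw [V.lev_ell, V.od]) (V.F.surj _).1)
      ((s.liv (i := true) rfl sz rfl).run rfl (by rw [lz, V.od]) (V.F.surj _).1)
      (Wd.On.tree_ne (role_ne rx rz (by simp))) rx rz
  have off : ∀ {n}, V.F.tree n = V.F.tree u → ∀ g : Fin 2,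
      ¬V.W.On (![0, 0] g) (![V.W.ell (V.F.par u) 1, z] g) n := fun t =>
    off_two (fun c => role_ne ru rx (by simp) (t.symm.trans c.tree))
      fun c => role_ne ru rz (by simp) (t.symm.trans c)
  have anb : ∀ {n n'}, V.F.tree n = V.F.tree u →
      V.W.Anb ![0, 0] ![V.W.ell (V.F.par u) 1, z] n n' → n' = n := fun t c =>
    c.resolve_right fun ⟨g, d, _⟩ => off t g d
  have o := k.toRs.leak_back V.two_r0 (fun g c => (off tp g c).elim) op.port
    (by rw [op.lay, s.flip]; exact (blay_gt _ _).2 rfl)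
  have rp : V.Role j (some false) (V.F.tree (V.F.par u)) := tp ▸ ru
  intro _ _
  exact k.serve (((k.toRs.ch_cut 0).app (k.toRs.ch_leak _)).app (k.toRs.ch_kid (off rfl) l2))
    ((k.toRs.ch_cut 1).app (Wd.ch_dn at1.hang (by omega))) (by simp [vz])
    (fun g => by fin_cases g <;> simp)
    [.lt 6 3, .lt 3 2, .lt 2 1, .lt 1 4, .lt 4 5, .lt 5 0] [] (by decide +kernel)
    ⟨(em (y = V.F.par u)).elim (fun c => c ▸ vr_line (by omega) le_rfl) fun c =>
        k.bk_bk (Wd.bk_prv' j (inl y)) (Wd.bk_prv' j (inl _)) rp fun _ _ d d' =>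
          anb ty d ▸ anb tp d' ▸ anc_lt (ty ▸ lu) s.rook ap c,
      k.of_vqI (rp.inI (Wd.bk_pay.2 rfl)) o.1, k.of_vqI (rp.inI (Wd.bk_prv' j _)) o.2,
      k.bk_bk (Wd.bk_prv' j _) (.self _ j u) ru fun _ _ d d' => by
        rw [anb tp d, anb rfl d']
        exact par_lt lu s.rook l2,
      k.II (ru.inI (.self _ j u)) (k.inI_cut (g := 1) rz) s.rook (by simp [Par.zi]),
      k.II (k.inI_cut (g := 1) rz) (k.inI_cut (g := 0) rx) s.rook
        (by rw [s.zi, s.zi]; exact Nat.lt_succ_self 3)⟩ trivial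

/-- **The first moat hub above `u`.** -/
theorem Fw.rowT0 (V : Fw K N r r0 q D e b) {u y : N} (a : V.F.Anc y u)
    (pa : V.F.lev y % 2 = V.F.lev u % 2) : V.W.Sv (hv (nl u)) (hv (inl (inr (y, 0)))) := by
  have ty : V.F.tree y = V.F.tree u := a.tree
  obtain ⟨g, j, s, st⟩ := exists_tri (V := V) (B := ∅) (o := some false) (f := false)
    u Set.subsingleton_empty (Or.inr ⟨rfl, rfl⟩) (by simp)
  have ru := s.role false _ rfl st
  have ry : V.Role j (some false) (V.F.tree y) := ty ▸ ru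
  have lu := s.liv (i := false) rfl st rfl
  have op := s.opn (n := y) (i := false) ty (ty ▸ st) rfl (Nat.zero_le _)
  have rx := op.ot.ell
  rw [ek_one s] at rx
  have nx : V.F.tree u ≠ V.F.tree (V.W.ell y 1) := role_ne ru rx (by simp)
  have rs : ∀ {t}, V.F.tree t = V.F.tree u → V.F.lev t % 2 = 1 →
      V.Rs j ![0, 0] ![t, V.W.ell y 1] := fun {t} c o =>
    .two (Liv.run (c ▸ lu) rfl o (V.F.surj _).1)
      (rx.liv.run rfl (by rw [V.lev_ell, V.od]) (V.F.surj _).1) (Wd.On.tree_ne (c ▸ nx))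
      (a := some false) (c ▸ ru) rx
  have two := V.two_r0
  have fr : ∀ i, V.W.pos j (ml y i) < V.W.pos j (nl y) := fun i =>
    V.W.pos_mn.2 (by rw [op.lay, s.flip]; exact (blay_lt _ _).2 rfl)
  have fr' := (Wd.prv_lt j _).trans (fr 1)
  have o1 : ∀ {t} (k : V.Rs j ![0, 0] ![t, V.W.ell y 1]), V.vr j ![0, 0] ![t, V.W.ell y 1]
      (pz (ml y 0) 0) < V.vr j ![0, 0] ![t, V.W.ell y 1] (pz (V.W.prv (Wd.mo y 1)) (2 * r + 10)) :=
    fun k => k.of_vqI (ry.inI (Wd.bk_prv' j _)) (k.toRs.vq_ml_prv (by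
      rw [op.port, Nat.mod_eq_of_lt (show 1 < r0 + 1 by omega)]
      simp [el]
      omega))
  have zi : (V.par j).zi (some false) < (V.par j).zi none := by
    rw [s.zi, s.zi]
    exact Nat.lt_of_sub_eq_succ rfl
  intro _ _
  rcases Nat.mod_two_eq_zero_or_one (V.F.lev u) with c | c
  · have l2 : 2 ≤ V.F.lev u := by have := (V.F.surj u).1; omega
    have lp := V.F.lev_par l2
    have tp := V.F.tree_par l2
    have k := rs tp (by omega)
    have au : ∀ {n}, V.W.Anb ![0, 0] ![V.F.par u, V.W.ell y 1] u n → n = u :=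
      anb_two (not_anc_par l2) nx
    have pu := par_lt lu s.rook l2
    have h : V.vr j ![0, 0] ![V.F.par u, V.W.ell y 1] (pz (V.W.cut 0 (V.F.par u)) 0) <
        V.vr j ![0, 0] ![V.F.par u, V.W.ell y 1] (pz (ml y 0) 0) ∧
        V.vr j ![0, 0] ![V.F.par u, V.W.ell y 1] (pz (V.W.prv (Wd.mo y 1)) (2 * r + 10)) <
        V.vr j ![0, 0] ![V.F.par u, V.W.ell y 1] (pz (nl u) 0) := by
      by_cases d : y = u
      · subst d
        have out : ∀ {L}, V.W.Bk j L y → (V.W.rts ![0, 0] ![V.F.par y, V.W.ell y 1]).Out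
            (V.W.pos j) L := fun h =>
          k.toRs.out_bk h fun g c => (off_two (not_anc_par l2) nx g c).elim
        exact ⟨k.cut_bk (g := 0) (Wd.bk_pay.2 rfl) ry fun _ d => au d ▸ pu,
          k.of_vqI (ry.inI (.self _ j y)) (Wd.vq_out (out (Wd.bk_prv' j _)) (out (.self _ j y)) fr')⟩
      · have ap := (a.par d).2
        refine ⟨k.of_vp (ry.inI (Wd.bk_pay.2 rfl)) ((k.toRs.cut_lt_iff _ 0).2 ⟨?_, by simp [Wd.cut, Wd.mo]⟩),
          k.bk_bk (Wd.bk_prv' j _) (.self _ j u) ru fun _ _ d1 d2 => ?_⟩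
        · rw [k.toRs.an_evenw (g := 0) (y := y) (L := ml y 0) (Wd.bk_pay.2 rfl) (pa.trans c) (fr 0) ⟨ap, (V.F.surj y).1⟩]
        · rw [au d2]
          rcases d1 with rfl | ⟨g, d1, rfl⟩
          · exact anc_lt (ty ▸ lu) s.rook a d
          · fin_cases g
            exacts [pu, absurd (ty.symm.trans d1.1.tree) nx]
    exact k.serve ((k.toRs.ch_cut 0).app (k.toRs.ch_kid (off_two (not_anc_par l2) nx) l2))
      (((k.toRs.ch_cut 1).app (Wd.ch_entry y 1)).app (k.toRs.ch_moat y 0)) (by simp [Wd.mo])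
      (fun g => by fin_cases g <;> simp) [.lt 0 4, .lt 4 3, .lt 3 1, .lt 1 2] []
      (by decide +kernel)
      ⟨h.1, o1 k, h.2, k.II (ru.inI (.self _ j u)) (k.inI_cut (g := 1) rx) s.rook zi⟩ trivial
  · have k := rs rfl c
    refine k.serve (k.toRs.ch_cut 0)
      (((k.toRs.ch_cut 1).app (Wd.ch_entry y 1)).app (k.toRs.ch_moat y 0)) (by simp [Wd.mo])
      (fun g => by fin_cases g <;> simp) [.lt 3 2, .lt 2 0, .lt 0 1] [] (by decide +kernel)
      ⟨o1 k, k.of_vp (k.inI_cut (g := 0) ru) ((k.toRs.lt_cut_iff _ 0).2 ?_),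
        k.II (k.inI_cut (g := 0) ru) (k.inI_cut (g := 1) rx) s.rook zi⟩ trivial
    rw [Rts.an_out (k.toRs.out_oddw (y := y) (Wd.bk_prv' j (Wd.mo y 1)) (pa.trans c) fr')]
    refine fr'.trans_le (Sw.nl_le.2 ?_)
    by_cases d : y = u
    exacts [d ▸ le_rfl, (anc_lt (ty ▸ lu) s.rook a d).le]

/-- **The head into a moat hub.** -/
theorem Fw.rowSm (V : Fw K N r r0 q D e b) : V.RowSm := by
  intro u y k0 ty
  have two := V.two_r0
  have at1 := V.W.S.pay_H (Wd.mo y (k0 + r0))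
  set z := V.W.S.sn (ml y (k0 + r0)) false .H with hz
  have tz : (V.F.tree z).1 = (.tE (V.F.tree u).ty.wor ((V.F.tree u).col + 1)
      (Fin.ofNat _ (k0 + r0)), .H) := by
    refine (congrArg Subtype.val (at1.tree V.D_pos)).trans ?_
    rw [← ty]
    rfl
  obtain ⟨g, j, s, st⟩ := exists_tri (V := V) (B := {V.F.tree z}) (o := none) (f := false)
    (p := Fin.ofNat _ (k0 + r0)) u Set.subsingleton_singleton (Or.inl rfl) (by
      rintro _ rfl
      exact Or.inl ⟨rfl, _, _, tz⟩)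
  have lz : V.F.lev z = D := V.W.S.lev_sn V.D_pos _ _ _
  have sz : (V.F.tree z).stg ≠ j := by rwa [Kl.stg, Kl.ty_val tz]
  have ru := s.role false _ rfl st
  have ry : V.Role j (some false) (V.F.tree y) := ty ▸ ru
  have rz := s.role true _ rfl sz
  have lu := s.liv (i := false) rfl st rfl
  have nx : V.F.tree u ≠ V.F.tree z := role_ne ru rz (by simp)
  have rs : ∀ {t}, V.F.tree t = V.F.tree u → V.F.lev t % 2 = 1 → V.Rs j ![0, 0] ![t, z] :=
    fun {t} c o => .two (Liv.run (c ▸ lu) rfl o (V.F.surj _).1)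
      ((s.liv (i := true) rfl sz rfl).run rfl (by rw [lz, V.od]) (V.F.surj _).1)
      (Wd.On.tree_ne (c ▸ nx)) (a := some false) (c ▸ ru) rz
  have pt : (V.W.port j y : ℕ) = (k0 + r0) % (r0 + 1) := by
    rw [port_np ry.1 fun c => c.op s.op, s.np, ty]
    simp [Par.tri]
  have e0 : (Wd.mo y (k0 + r0 + 1) : N ⊕ N × Fin (r0 + 1)) = inr (y, k0) :=
    (inl.inj (ml_add (K := K) y k0)).trans (Wd.mo_val y k0)
  have lt : V.W.pos j (ml y (k0 + r0)) < V.W.pos j (ml y (k0 + r0 + 1)) := Wd.pos_ml.2 (by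
    have := k0.2
    rw [pt, add_assoc, Nat.add_mod_right, Nat.mod_eq_of_lt this]
    rcases Nat.eq_zero_or_pos k0 with c | c
    · rw [c, zero_add, Nat.mod_eq_of_lt (Nat.lt_succ_self _)]
      simp [el]
      omega
    · rw [show (k0 : ℕ) + r0 = k0 - 1 + (r0 + 1) by omega, Nat.add_mod_right,
        Nat.mod_eq_of_lt (by omega)]
      simp only [el]
      split_ifs <;> omega)
  have hg : V.W.S.hang (ml y (k0 + r0)) 0 (some (V.W.S.O.nxt j (V.W.prv (Wd.mo y (k0 + r0 + 1))))) :=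
    V.W.nxt_prv j _ ▸ Wd.hang_moat y _
  have zi : (V.par j).zi (some false) < (V.par j).zi (some true) := by simp [Par.zi]
  have o1 : ∀ {t} (k : V.W.Rs j ![0, 0] ![t, z]), V.W.vq j ![0, 0] ![t, z] (pz (ml y (k0 + r0)) 1) <
      V.W.vq j ![0, 0] ![t, z] (pz (V.W.prv (Wd.mo y (k0 + r0 + 1))) (2 * r + 10)) := fun k =>
    Wd.vq_le ((k.vp_itv lt).2 ⟨Wd.le_prv.2 lt, Wd.prv_lt j _⟩).1 (by omega) le_rfl
  have i1 := ry.inI (Wd.bk_pay (p := Wd.mo y (k0 + r0)).2 rfl)
  have i2 := ry.inI (Wd.bk_prv' j (Wd.mo y (k0 + r0 + 1)))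
  have o2 : ∀ {t} (k : V.Rs j ![0, 0] ![t, z]) (x : N), V.InI j (some false) (nl x) →
      (V.vr j ![0, 0] ![t, z] (pz (nl x) 0) < V.vr j ![0, 0] ![t, z] (pz (ml y (k0 + r0)) 1) ∧
        V.vr j ![0, 0] ![t, z] (pz (nl x) 0) <
          V.vr j ![0, 0] ![t, z] (pz (V.W.prv (Wd.mo y (k0 + r0 + 1))) (2 * r + 10))) ∨
      (V.vr j ![0, 0] ![t, z] (pz (ml y (k0 + r0)) 1) < V.vr j ![0, 0] ![t, z] (pz (nl x) 0) ∧
        V.vr j ![0, 0] ![t, z] (pz (V.W.prv (Wd.mo y (k0 + r0 + 1))) (2 * r + 10)) <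
          V.vr j ![0, 0] ![t, z] (pz (nl x) 0)) := fun k x c =>
    (k.toRs.nl_outw lt x).imp (And.imp (k.of_vp i1) (k.of_vp i2)) (And.imp (k.of_vp c) (k.of_vp c))
  rw [← e0]
  intro _ _
  rcases Nat.mod_two_eq_zero_or_one (V.F.lev u) with c | c
  · have l2 : 2 ≤ V.F.lev u := by have := (V.F.surj u).1; omega
    have lp := V.F.lev_par l2
    have tp := V.F.tree_par l2
    have k := rs tp (by omega)
    exact k.serve ((k.toRs.ch_cut 0).app (k.toRs.ch_kid (off_two (not_anc_par l2) nx) l2))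
      (((k.toRs.ch_cut 1).app (Wd.ch_up at1.hang (by omega))).app (Wd.ch_fhead hg (by omega)))
      (by simp [vz]) (fun g => by fin_cases g <;> simp)
      [.lt 0 1, .lt 1 2, .lt 3 4, .lt 4 2, .out 0 3 4, .out 1 3 4] [] (by decide +kernel)
      ⟨k.cut_bk (g := 0) (.self _ j u) ru fun _ d => by
          rw [anb_two (not_anc_par l2) nx d]
          exact par_lt lu s.rook l2,
        k.II (ru.inI (.self _ j u)) (k.inI_cut (g := 1) rz) s.rook zi, k.of_vqI i2 (o1 k.toRs),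
        k.II i2 (k.inI_cut (g := 1) rz) s.rook zi, o2 k _ (k.inI_cut (g := 0) (tp ▸ ru)),
        o2 k u (ru.inI (.self _ j u))⟩ trivial
  · have k := rs rfl c
    exact k.serve (k.toRs.ch_cut 0)
      (((k.toRs.ch_cut 1).app (Wd.ch_up at1.hang (by omega))).app (Wd.ch_fhead hg (by omega)))
      (by simp [vz]) (fun g => by fin_cases g <;> simp)
      [.lt 0 1, .lt 2 3, .lt 3 1, .out 0 2 3] [] (by decide +kernel)
      ⟨k.II (k.inI_cut (g := 0) ru) (k.inI_cut (g := 1) rz) s.rook zi, k.of_vqI i2 (o1 k.toRs),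
        k.II i2 (k.inI_cut (g := 1) rz) s.rook zi, o2 k _ (k.inI_cut (g := 0) ru)⟩ trivial

end Pool.Agent.P.MP_439f1f_co
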