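import Pool.Agent.P.MP_439f1f_co.Top0
import Pool.Agent.P.MP_439f1f_co.Rd1
import Pool.Agent.P.MP_439f1f_co.Rb2
import Pool.Agent.P.MP_439f1f_co.Rw1

/-!
A node and a point in a block of its tree: the whole group.
-/

set_option autoImplicit false
set_option linter.unusedSectionVars false

namespace Pool.Agent.P.MP_439f1f_co

variable {K N : Type} {r r0 q D e b : ℕ} [DecidableEq K] [Finite K] [Finite N] [Nonempty K]

theorem Fw.gS (V : Fw K N r r0 q D e b) (G : V.W.S.Good e) : V.GS :=
  Fw.gs_of G V.rowSb V.rowSD V.rowSL V.rowSU V.rowTx' V.rowSm V.rowWF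

end Pool.Agent.P.MP_439f1f_co
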