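import Pool.Agent.P.MP_439f1f_co.Sz1

/-!
Synchronisation of the state machine with two rings per stage.
-/

set_option autoImplicit false

namespace Pool.Agent.P.MP_439f1f_co

open Function

variable {S Λ Y K : Type*} {m : ℕ} {hang : Λ → ℕ → S → Prop} {x y : S} {τ η : Λ → S} {L0 : Λ}

namespace Syf

variable (M : Syf m hang Y K)

/-- the hub that holds the head of `sl j e` in the state `j0` -/
def ref [DecidableEq K] (j0 j : K) (e : Y × Fin 3) : S :=
  if j = j0 then M.sh j (bt (M.nx j) e) else M.sh j e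

/-- the other option of this head -/
def oth [DecidableEq K] (j0 j : K) (e : Y × Fin 3) : S :=
  if j = j0 then M.sh j e else M.sh j (bt (M.nx j) e)

/-- `oth j0 j e = ref j0 j (gam j0 j e)`: the head that is held by the other option of `e` -/
def gam [DecidableEq K] (j0 j : K) : Equiv.Perm (Y × Fin 3) :=
  if j = j0 then (bt (M.nx j))⁻¹ else bt (M.nx j)

theorem oth_eq [DecidableEq K] (j0 j : K) (e : Y × Fin 3) :
    M.oth j0 j e = M.ref j0 j (M.gam j0 j e) := by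
  unfold oth ref gam
  split_ifs <;> simp

variable [Finite S] [Finite Λ]

omit [Finite S] [Finite Λ] in
theorem rel (j : K) (b : Bool) (e : Y × Fin 3) :
    M.fam j (bt (M.nx j) e).1 = b ↔ M.fam j e.1 = b := by rw [fam_bt (M.famn j)]

omit [Finite S] [Finite Λ] in
theorem cy (j : K) (b : Bool) (e e' : Y × Fin 3) (h : M.fam j e.1 = b) (h' : M.fam j e'.1 = b) :
    ∃ n : ℕ, (bt (M.nx j) ^ n) e = e' := bt_cyc' (M.famn j) (M.cyc j) e e' (h.trans h'.symm)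

omit [Finite S] in
/-- a ring without a gap hub is uniform -/
theorem uni (h : Ends m hang x y τ η) (j : K) (b : Bool) (hx : ∀ e, x ≠ M.sh j e)
    (hy : ∀ e, M.fam j e.1 = b → y ≠ M.sh j e) :
    ((∀ e, M.fam j e.1 = b → η (M.sl j e) = M.sh j (bt (M.nx j) e)) ∨
      ∀ e, M.fam j e.1 = b → η (M.sl j e) = M.sh j e) ∧
      ∀ e, M.fam j e.1 = b → τ (M.ln (M.sh j e)) = M.sh j e := by
  have l := fun (e : Y × Fin 3) (r : M.fam j e.1 = b) =>
    (if_neg (hx _) ▸ if_neg (hy _ ((M.rel j b e).2 r)) ▸ M.load h j e :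
      _ + _ + _ + 0 + 0 = 2)
  have u := cyc_uni' (M.rel j b) (M.cy j b) (a := fun e => ¬η (M.sl j e) = M.sh j e)
    fun e r c d => by
      have := l e r
      rw [if_neg d, if_pos (not_not.1 c)] at this
      split_ifs at this <;> omega
  refine ⟨u.imp (fun c e r => (M.head _ _ _ (h.hh _)).resolve_left (c e r))
    fun c e r => not_not.1 (c e r), fun e r => ?_⟩
  obtain ⟨e, rfl⟩ := (bt (M.nx j)).surjective e
  have r' := (M.rel j b e).1 r
  have := l e r'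
  by_contra d
  rw [if_neg d] at this
  rcases u with u | u
  · rw [if_neg (u _ r), if_neg (u _ r')] at this
    omega
  · rw [if_pos (not_not.1 (u _ r)), if_pos (not_not.1 (u _ r'))] at this
    omega

variable [Nonempty K] [DecidableEq K]

/-- **Synchronisation**, no gap hub in the machine: one state, no system tail is moved. -/
theorem sync_none (h : Ends m hang x y τ η) (c : Cn L0 x y τ η) (hx : ∀ j e, x ≠ M.sh j e)
    (hy : ∀ j e, y ≠ M.sh j e) : ∃ j0, ∀ j e, η (M.sl j e) = M.ref j0 j e ∧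
      τ (M.ln (M.sh j e)) = M.sh j e := by
  have u := fun j b => M.uni h j b (hx j) fun e _ => hy j e
  obtain ⟨j0, h0⟩ := M.one_hot h c
    (fun j b => ∀ e, M.fam j e.1 = b → η (M.sl j e) = M.sh j (bt (M.nx j) e))
    (fun _ z => M.sl z.1 z.2 = L0)
    (fun _ z z' a b => let t := M.sli _ _ _ _ (a.trans b.symm); Prod.ext t.1 t.2)
    (fun j e a b => ⟨b 0, (u j _).1.resolve_left a e rfl, (u j _).2 e rfl⟩)
    fun j e a b => ⟨b 0, a e rfl, (u j _).2 _ rfl⟩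
  refine ⟨j0, fun j e => ⟨?_, (u j _).2 e rfl⟩⟩
  unfold ref
  split_ifs with d
  exacts [(h0 j _).2 d e rfl, (u j _).1.resolve_left (fun a => d ((h0 j _).1 a)) e rfl]

omit [Nonempty K] [DecidableEq K] in
/-- the two kinds of windows -/
theorem window {j1 : K} {e0 : Y × Fin 3} (hy : y = M.sh j1 (bt (M.nx j1) e0))
    (h : Ends m hang x y τ η) (c : Cn (M.sl j1 e0) x y τ η) (hx : ∀ e, x ≠ M.sh j1 e)
    (h0 : η (M.sl j1 e0) = M.sh j1 e0) :
    (∃ n ≤ 3, (∀ i, 1 ≤ i → i < n → ((bt (M.nx j1) ^ i) e0).2 ≠ 2) ∧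
      (∀ e, M.fam j1 e.1 = M.fam j1 e0.1 → (¬η (M.sl j1 e) = M.sh j1 e ↔
        ∃ i, 1 ≤ i ∧ i ≤ n ∧ e = (bt (M.nx j1) ^ i) e0)) ∧
      ∀ e, M.fam j1 e.1 = M.fam j1 e0.1 →
        (¬τ (M.ln (M.sh j1 e)) = M.sh j1 e ↔ e = (bt (M.nx j1) ^ (n + 1)) e0)) ∨
    ∃ n ≤ 3, (∀ i, 1 ≤ i → i < n → (((bt (M.nx j1))⁻¹ ^ i) e0).2 ≠ 1) ∧
      (∀ e, M.fam j1 e.1 = M.fam j1 e0.1 →
        (η (M.sl j1 e) = M.sh j1 e ↔ ∃ i ≤ n, e = ((bt (M.nx j1))⁻¹ ^ i) e0)) ∧
      ∀ e, M.fam j1 e.1 = M.fam j1 e0.1 →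
        (¬τ (M.ln (M.sh j1 e)) = M.sh j1 e ↔ e = ((bt (M.nx j1))⁻¹ ^ n) e0) := by
  have cy := M.cy j1 (M.fam j1 e0.1)
  have rl := M.rel j1 (M.fam j1 e0.1)
  have l := fun e => M.load h j1 e
  simp only [hx, if_false] at l
  have l1 : ∀ e, e ≠ e0 → (η (M.sl j1 e) = M.sh j1 e →
      η (M.sl j1 (bt (M.nx j1) e)) = M.sh j1 (bt (M.nx j1) e)) ∧
      (¬τ (M.ln (M.sh j1 (bt (M.nx j1) e))) = M.sh j1 (bt (M.nx j1) e) ↔
        η (M.sl j1 (bt (M.nx j1) e)) = M.sh j1 (bt (M.nx j1) e) ∧ ¬η (M.sl j1 e) = M.sh j1 e) := by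
    intro e he
    have := l e
    rw [if_neg (c := y = _) fun d => he ((bt _).injective (M.shi (hy.symm.trans d)).2).symm] at this
    split_ifs at this <;> simp_all
  have l2 : ¬τ (M.ln (M.sh j1 (bt (M.nx j1) e0))) = M.sh j1 (bt (M.nx j1) e0) ↔
      η (M.sl j1 (bt (M.nx j1) e0)) = M.sh j1 (bt (M.nx j1) e0) := by
    have := l e0
    rw [if_pos hy, if_pos h0] at this
    split_ifs at this <;> simp_all
  obtain ⟨n, a1, a2⟩ := win_fwd' (t := fun e => τ (M.ln (M.sh j1 e)) = M.sh j1 e) rl cy rfl h0 l1 l2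
  -- the first head of type `2` after `e0` and the head of type `1` of the same loop
  obtain ⟨i0, k, z, k0, k3, k4, e2, e1, n2, n1⟩ : ∃ i0 k z, 1 ≤ i0 ∧ i0 ≤ 3 ∧ k ≤ 3 ∧
      (bt (M.nx j1) ^ i0) e0 = (z, 2) ∧ ((bt (M.nx j1))⁻¹ ^ k) e0 = (z, 1) ∧
      (∀ i, 1 ≤ i → i < i0 → ((bt (M.nx j1) ^ i) e0).2 ≠ 2) ∧
      (∀ i, 1 ≤ i → i < k → (((bt (M.nx j1))⁻¹ ^ i) e0).2 ≠ 1) ∧ (z, 1) ≠ e0 ∧
        (bt (M.nx j1))⁻¹ (z, 1) ≠ e0 := by
    obtain ⟨w, r⟩ := e0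
    have nf := M.nf j1
    fin_cases r
    · refine ⟨2, 2, M.nx j1 w, by simp, by simp, by simp, by simp [pow_two], by simp [pow_two],
        fun i a b => ?_, fun i a b => ?_, by simp, ?_⟩
      · simp [show i = 1 by omega]
      · simp [show i = 1 by omega]
      · simpa [Equiv.symm_apply_eq] using (nf w).symm
    · refine ⟨1, 3, (M.nx j1).symm w, by simp, by simp, by simp, by simp, by simp [pow_succ],
        fun i a b => by omega, fun i a b => ?_, ?_, by simp⟩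
      · rcases (show i = 1 ∨ i = 2 by omega) with rfl | rfl <;> simp [pow_two]
      · simpa [Equiv.symm_apply_eq] using (nf w).symm
    · refine ⟨3, 1, M.nx j1 w, by simp, by simp, by simp, by simp [pow_succ], by simp,
        fun i a b => ?_, fun i a b => by omega, by simp, by simp⟩
      rcases (show i = 1 ∨ i = 2 by omega) with rfl | rfl <;> simp [pow_two]
  by_cases hn : n ≤ i0
  · exact Or.inl ⟨n, by omega, fun i a b => n2 i a (by omega), a1, a2⟩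
  right
  have fz : M.fam j1 z = M.fam j1 e0.1 := by rw [← fam_pow (M.famn j1) i0 e0, e2]
  have b2 : ¬η (M.sl j1 (z, 2)) = M.sh j1 (z, 2) := (a1 (z, 2) fz).2 ⟨i0, k0, by omega, e2.symm⟩
  have b0 : ¬η (M.sl j1 (z, 0)) = M.sh j1 (z, 0) :=
    (a1 (z, 0) fz).2 ⟨i0 + 1, by omega, by omega, by rw [pow_succ', Equiv.Perm.mul_apply, e2, bt2]⟩
  have ne2 : (z, 2) ≠ e0 := fun d => b2 (d ▸ h0)
  have t0 : τ (M.ln (M.sh j1 (z, 0))) = M.sh j1 (z, 0) :=
    by_contra fun d => b0 ((l1 _ ne2).2.1 d).1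
  have key : ¬η (M.sl j1 ((bt (M.nx j1))⁻¹ (z, 1))) = M.sh j1 ((bt (M.nx j1))⁻¹ (z, 1)) := by
    intro d
    have l3 := l1 _ n1.2.2
    rw [show bt (M.nx j1) ((bt (M.nx j1))⁻¹ (z, 1)) = (z, 1) by simp] at l3
    refine M.no_fam h c (fun u => u = (j1, z, 1) ∨ u = (j1, z, 2)) _ (Or.inl rfl)
      (fun u => if u.2.2 = 1 then (z, 1) else (z, 0)) ?_ ?_
    · rintro _ (rfl | rfl)
      · exact ⟨fun u => n1.2.1 (M.sli _ _ _ _ u).2, l3.1 d, by_contra fun u => (l3.2.1 u).2 d⟩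
      · exact ⟨fun u => ne2 (M.sli _ _ _ _ u).2, (M.head _ _ _ (h.hh _)).resolve_left b2, t0⟩
    · rintro _ (rfl | rfl)
      exacts [⟨_, Or.inr rfl, M.ln1 _ _⟩, ⟨_, Or.inl rfl, M.ln0 _ _⟩]
  obtain ⟨n', c1, c2, c3⟩ := win_bwd' (t := fun e => τ (M.ln (M.sh j1 e)) = M.sh j1 e) rl cy rfl
    h0 l1 l2 (k := k) (by rwa [pow_succ', Equiv.Perm.mul_apply, e1])
  exact ⟨n', by omega, fun i a b => n1.1 i a (by omega), c2, c3⟩

/-- **Synchronisation**, last gap of a system line `sl j1 e0`.  After the normalisation of the head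
of this line all heads are in the reference position of a state `j0`, except for the heads
`gam ^ i e0`, `1 ≤ i ≤ n`, and the only moved system tail is at the other option of the last of
them. -/
theorem sync_win [DecidableEq Λ] {j1 : K} {e0 : Y × Fin 3} (h : Ends m hang x y τ η)
    (c : Cn (M.sl j1 e0) x y τ η) (hx : ∀ j e, x ≠ M.sh j e) (hy : hang (M.sl j1 e0) m y) :
    ∃ j0, ∃ n ≤ 3, ∃ η', η' = update η (M.sl j1 e0) (M.ref j0 j1 e0) ∧
      Ends m hang x (M.oth j0 j1 e0) τ η' ∧ Cn (M.sl j1 e0) x (M.oth j0 j1 e0) τ η' ∧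
      (∀ i, 1 ≤ i → i < n → ((M.gam j0 j1 ^ i) e0).2 ≠ if j1 = j0 then 1 else 2) ∧
      (∀ i, 1 ≤ i → i ≤ n →
        η' (M.sl j1 ((M.gam j0 j1 ^ i) e0)) = M.oth j0 j1 ((M.gam j0 j1 ^ i) e0)) ∧
      (∀ j e, (j = j1 → ∀ i, 1 ≤ i → i ≤ n → e ≠ (M.gam j0 j1 ^ i) e0) →
        η' (M.sl j e) = M.ref j0 j e) ∧
      ∀ j e, τ (M.ln (M.sh j e)) ≠ M.sh j e ↔ M.sh j e = M.oth j0 j1 ((M.gam j0 j1 ^ n) e0) := by
  obtain ⟨hA, cA⟩ := norm_head h c hy (M.head j1 e0)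
  obtain ⟨hB, cB⟩ := norm_head h c hy fun s d => (M.head j1 e0 s d).symm
  have fp := fun n => fam_pow (M.famn j1) n e0
  have fi := fun n => fam_inv_pow (M.famn j1) n e0
  have u := fun j b (d : ¬(j = j1 ∧ b = M.fam j1 e0.1)) => M.uni hA j b (hx j) fun e r t => d (by
    obtain ⟨rfl, rfl⟩ := M.shi t
    exact ⟨rfl, by rw [← r, fam_bt (M.famn _)]⟩)
  have opt := fun j e => M.head j e _ (hA.hh _)
  have hB' : ∀ (g : Fin 5 → Y × Fin 3) (i : Fin 5) (z z' : K × Y × Fin 3),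
      z = (j1, g i) → z' = (j1, g i) → z = z' := fun _ _ _ _ a b => a.trans b.symm
  have nL : ∀ j e, (j, e) ≠ (j1, e0) → M.sl j e ≠ M.sl j1 e0 := fun j e a b =>
    a (let t := M.sli _ _ _ _ b; Prod.ext t.1 t.2)
  generalize hη : update η (M.sl j1 e0) (M.sh j1 e0) = ηA at hA cA u opt
  have h0 : ηA (M.sl j1 e0) = M.sh j1 e0 := by rw [← hη, update_self]
  rcases M.window rfl hA cA (hx j1) h0 with ⟨n, a0, a1, a2, a3⟩ | ⟨n, a0, a1, a2, a3⟩
  · obtain ⟨j0, g⟩ := M.one_hot hA cA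
      (fun j b => ¬(j = j1 ∧ b = M.fam j1 e0.1) ∧
        ∀ e, M.fam j e.1 = b → ηA (M.sl j e) = M.sh j (bt (M.nx j) e))
      (fun i z => z = (j1, (bt (M.nx j1) ^ (i : ℕ)) e0)) (hB' _) (fun j e a b => ⟨nL _ _ (b 0), by
        by_cases d : j = j1 ∧ M.fam j e.1 = M.fam j1 e0.1
        · obtain ⟨rfl, d⟩ := d
          refine ⟨by_contra fun t => ?_,
            by_contra fun t => b ⟨n + 1, by omega⟩ (by rw [(a3 e d).1 t])⟩
          obtain ⟨i, -, i2, rfl⟩ := (a2 e d).1 t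
          exact b ⟨i, by omega⟩ rfl
        · exact ⟨(u j _ d).1.resolve_left (fun t => a ⟨d, t⟩) e rfl, (u j _ d).2 e rfl⟩⟩)
      fun j e a b => ⟨nL _ _ (b 0), a.2 e rfl, (u j _ a.1).2 _ (fam_bt (M.famn j) e)⟩
    have ne : ¬j1 = j0 := fun d => ((g j1 _).2 d).1 ⟨rfl, rfl⟩
    refine ⟨j0, n, a0, ηA, ?_⟩
    simp only [ref, oth, gam, if_neg ne]
    refine ⟨hη.symm, hA, cA, a1,
      fun i i1 i2 => (opt _ _).resolve_left ((a2 _ (fp i)).2 ⟨i, i1, i2, rfl⟩),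
      fun j e d => ?_, fun j e => ?_⟩
    · split_ifs with t
      · exact ((g j _).2 t).2 e rfl
      by_cases d' : j = j1 ∧ M.fam j e.1 = M.fam j1 e0.1
      · obtain ⟨rfl, d'⟩ := d'
        by_contra t'
        obtain ⟨i, i1, i2, i3⟩ := (a2 e d').1 t'
        exact d rfl i i1 i2 i3
      · exact (u j _ d').1.resolve_left (fun t' => t ((g j _).1 ⟨d', t'⟩)) e rfl
    · rw [← Equiv.Perm.mul_apply, ← pow_succ']
      by_cases d : j = j1 ∧ M.fam j e.1 = M.fam j1 e0.1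
      · obtain ⟨rfl, d⟩ := d
        exact (a3 e d).trans ⟨fun t => by rw [t], fun t => (M.shi t).2⟩
      · refine iff_of_false (not_not.2 ((u j _ d).2 e rfl)) fun t => d ?_
        obtain ⟨rfl, rfl⟩ := M.shi t
        exact ⟨rfl, fp _⟩
  · obtain ⟨j0, g⟩ := M.one_hot hA cA
      (fun j b => (j = j1 ∧ b = M.fam j1 e0.1) ∨
        ∀ e, M.fam j e.1 = b → ηA (M.sl j e) = M.sh j (bt (M.nx j) e))
      (fun i z => z = (j1, ((bt (M.nx j1))⁻¹ ^ (i : ℕ)) e0)) (hB' _)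
      (fun j e a b => have d : ¬(j = j1 ∧ M.fam j e.1 = M.fam j1 e0.1) := fun t => a (Or.inl t)
        ⟨nL _ _ (b 0), (u j _ d).1.resolve_left (fun t => a (Or.inr t)) e rfl, (u j _ d).2 e rfl⟩)
      fun j e a b => ⟨nL _ _ (b 0), by
        by_cases d : j = j1 ∧ M.fam j e.1 = M.fam j1 e0.1
        · obtain ⟨rfl, d⟩ := d
          refine ⟨(opt _ _).resolve_left fun t => ?_, by_contra fun t => b ⟨n + 1, by omega⟩ ?_⟩
          · obtain ⟨i, i2, rfl⟩ := (a2 e d).1 t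
            exact b ⟨i, by omega⟩ rfl
          · rw [pow_succ', Equiv.Perm.mul_apply, ← (a3 _ ((fam_bt (M.famn j) e).trans d)).1 t]
            simp
        · exact ⟨a.resolve_left d e rfl, (u j _ d).2 _ (fam_bt (M.famn j) e)⟩⟩
    obtain rfl : j1 = j0 := (g j1 _).1 (Or.inl ⟨rfl, rfl⟩)
    refine ⟨j1, n, a0, _, rfl, ?_⟩
    simp only [ref, oth, gam, if_true]
    have up : ∀ j e, (j, e) ≠ (j1, e0) →
        update η (M.sl j1 e0) (M.sh j1 (bt (M.nx j1) e0)) (M.sl j e) = ηA (M.sl j e) :=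
      fun j e d => by rw [← hη, update_of_ne (nL _ _ d), update_of_ne (nL _ _ d)]
    refine ⟨hB, cB, a1, fun i i1 i2 => ?_, fun j e d => ?_, fun j e => ?_⟩
    · rw [up, (a2 _ (fi i)).2 ⟨i, i2, rfl⟩]
      intro d
      have d := (Prod.mk.inj d).2
      have nf := M.nf j1 e0.1
      obtain ⟨w, r⟩ := e0
      rcases (show i = 1 ∨ i = 2 ∨ i = 3 by omega) with rfl | rfl | rfl <;> fin_cases r <;>
        simp [pow_succ, Equiv.symm_apply_eq] at d <;> exact nf d.symm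
    · by_cases d0 : (j, e) = (j1, e0)
      · cases d0
        rw [update_self, if_pos rfl]
      rw [up _ _ d0]
      split_ifs with t
      · subst t
        by_cases f : M.fam j e.1 = M.fam j e0.1
        · refine (opt _ _).resolve_left fun t' => ?_
          obtain ⟨_ | i, i2, i3⟩ := (a2 e f).1 t'
          exacts [d0 (by rw [i3]; rfl), d rfl _ (by omega) i2 i3]
        · exact ((g j _).2 rfl).resolve_left (fun c => f c.2) e rfl
      · exact (u j _ fun c => t c.1).1.resolve_left (fun t' => t ((g j _).1 (Or.inr t'))) e rfl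
    · by_cases d : j = j1 ∧ M.fam j e.1 = M.fam j1 e0.1
      · obtain ⟨rfl, d⟩ := d
        exact (a3 e d).trans ⟨fun t => by rw [t], fun t => (M.shi t).2⟩
      · refine iff_of_false (not_not.2 ((u j _ d).2 e rfl)) fun t => d ?_
        obtain ⟨rfl, rfl⟩ := M.shi t
        exact ⟨rfl, fi _⟩

end Syf

end Pool.Agent.P.MP_439f1f_co
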