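import Pool.Agent.P.MP_439f1f_co.Lq1
import Pool.Agent.P.MP_439f1f_co.Sz2

/-!
Machines with two rings per stage: hubs, heads and the cycle of a state.
-/

set_option autoImplicit false

namespace Pool.Agent.P.MP_439f1f_co

open Function Sum

variable {P Y K β : Type*} [LinearOrder β] [DecidableEq K]

/-- A machine.  The elements are payload hubs `inl p` and ports `inr (j, y)`; `sc` is the successor
in the loops, `nx j` the rings of the ports of the stage `j`.  In the state `j` the element after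
`a` is `sc a`, or `(j, nx j y)` if `sc a` is the port `(j, y)`; this is the cyclic successor for the
key `ep j`. -/
structure Mac (P Y K β : Type*) [LinearOrder β] [DecidableEq K] where
  sc : Equiv.Perm (P ⊕ K × Y)
  nx : K → Equiv.Perm Y
  ep : K → P ⊕ K × Y → β
  ord : ∀ j, Cyc Set.univ (fun a => ehot nx j (sc a)) (ep j)

/-- It is enough that the key increases along all steps except one. -/
def Mac.ofMono [Finite P] [Finite Y] [Finite K] (sc : Equiv.Perm (P ⊕ K × Y))
    (nx : K → Equiv.Perm Y) (ep : K → P ⊕ K × Y → β) (hi : K → P ⊕ K × Y)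
    (h1 : ∀ j a, (∀ y, sc a ≠ inr (j, y)) → ep j a < ep j (sc a))
    (h2 : ∀ j a y, a ≠ hi j → sc a = inr (j, y) → ep j a < ep j (inr (j, nx j y))) :
    Mac P Y K β :=
  ⟨sc, nx, ep, fun j => Cyc.of_mono (fun _ _ => trivial)
    ((ehot nx j).injective.comp sc.injective).injOn (hi j) fun a _ ha => by
      by_cases c : ∀ y, sc a ≠ inr (j, y)
      · rw [ehot_of_ne nx c]
        exact h1 j a c
      · push Not at c
        obtain ⟨y, c⟩ := c
        rw [c, ehot_self]
        exact h2 j a y ha c⟩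

namespace Mac

variable (O : Mac P Y K β)

/-- The cold head: the line of the hub `h` ends at `dA h`. -/
def dA : Equiv.Perm (P ⊕ K × Y × Fin 3) where
  toFun
    | inl p => efst (O.sc (inl p))
    | inr (j, y, r) => if r = 2 then efst (O.sc (inr (j, y))) else inr (j, y, r + 1)
  invFun
    | inl p => elst (O.sc.symm (inl p))
    | inr (j, y, r) => if r = 0 then elst (O.sc.symm (inr (j, y))) else inr (j, y, r - 1)
  left_inv := by
    have k : ∀ a, (match (efst a : P ⊕ K × Y × Fin 3) with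
        | inl p => elst (O.sc.symm (inl p))
        | inr (j, y, r) => if r = 0 then elst (O.sc.symm (inr (j, y))) else inr (j, y, r - 1)) =
        elst (O.sc.symm a) := by rintro (p | z) <;> rfl
    rintro (p | ⟨j, y, r⟩)
    · exact (k _).trans (by simp)
    · fin_cases r
      exacts [rfl, rfl, (k _).trans (by simp)]
  right_inv := by
    have k : ∀ a, (match (elst a : P ⊕ K × Y × Fin 3) with
        | inl p => efst (O.sc (inl p))
        | inr (j, y, r) => if r = 2 then efst (O.sc (inr (j, y))) else inr (j, y, r + 1)) =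
        efst (O.sc a) := by rintro (p | z) <;> rfl
    rintro (p | ⟨j, y, r⟩)
    · exact (k _).trans (by simp)
    · fin_cases r
      exacts [(k _).trans (by simp), rfl, rfl]

theorem dA_l (p : P) : O.dA (inl p) = efst (O.sc (inl p)) := rfl
@[simp] theorem dA_0 (j : K) (y : Y) : O.dA (inr (j, y, 0)) = inr (j, y, 1) := rfl
@[simp] theorem dA_1 (j : K) (y : Y) : O.dA (inr (j, y, 1)) = inr (j, y, 2) := rfl
theorem dA_2 (j : K) (y : Y) : O.dA (inr (j, y, 2)) = efst (O.sc (inr (j, y))) := rfl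
theorem dA_elst (a : P ⊕ K × Y) : O.dA (elst a) = efst (O.sc a) := by cases a <;> rfl
theorem dA_symm_efst (a : P ⊕ K × Y) : O.dA.symm (efst a) = elst (O.sc.symm a) := by
  cases a <;> rfl

/-- the line whose cold head is the system hub `(j, e)` -/
def sl (j : K) (e : Y × Fin 3) : P ⊕ K × Y × Fin 3 := O.dA.symm (inr (j, e))

@[simp] theorem dA_sl (j : K) (e : Y × Fin 3) : O.dA (O.sl j e) = inr (j, e) :=
  O.dA.apply_symm_apply _
theorem sl_0 (j : K) (y : Y) : O.sl j (y, 0) = elst (O.sc.symm (inr (j, y))) := rfl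
@[simp] theorem sl_1 (j : K) (y : Y) : O.sl j (y, 1) = inr (j, y, 0) := rfl
@[simp] theorem sl_2 (j : K) (y : Y) : O.sl j (y, 2) = inr (j, y, 1) := rfl
theorem eq_sl {j : K} {e : Y × Fin 3} {h : P ⊕ K × Y × Fin 3} :
    h = O.sl j e ↔ O.dA h = inr (j, e) := O.dA.eq_symm_apply

/-- the heads of the stage `j0` move to the option `B` -/
def hot (j0 : K) : Equiv.Perm (P ⊕ K × Y × Fin 3) :=
  Equiv.sumCongr (Equiv.refl P) (Equiv.prodCongrRight fun j => if j = j0 then bt (O.nx j) else 1)

@[simp] theorem hot_l (j0 : K) (p : P) : O.hot j0 (inl p) = inl p := rfl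
@[simp] theorem hot_self (j0 : K) (e : Y × Fin 3) :
    O.hot j0 (inr (j0, e)) = inr (j0, bt (O.nx j0) e) := by simp [hot]
theorem hot_ne {j0 j : K} (h : j ≠ j0) (e : Y × Fin 3) : O.hot j0 (inr (j, e)) = inr (j, e) := by
  simp [hot, h]

/-- The head of the line of `h` in the state `j0`. -/
def nxt (j0 : K) : Equiv.Perm (P ⊕ K × Y × Fin 3) := O.hot j0 * O.dA

theorem nxt_apply (j0 : K) (h : P ⊕ K × Y × Fin 3) : O.nxt j0 h = O.hot j0 (O.dA h) := rfl

theorem nxt_pay {j0 : K} {h : P ⊕ K × Y × Fin 3} {p : P} (e : O.dA h = inl p) :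
    O.nxt j0 h = inl p := by rw [nxt_apply, e, hot_l]

theorem nxt_cold {j0 j : K} (c : j ≠ j0) (e : Y × Fin 3) : O.nxt j0 (O.sl j e) = inr (j, e) := by
  rw [nxt_apply, dA_sl, O.hot_ne c]

theorem nxt_hot (j0 : K) (e : Y × Fin 3) :
    O.nxt j0 (O.sl j0 e) = inr (j0, bt (O.nx j0) e) := by rw [nxt_apply, dA_sl, hot_self]

/-- The element at which a hub is visited in the state `j0`: the first two hubs of a hot port are
visited at the port before it on the cycle of the machine. -/
def el (j0 : K) : P ⊕ K × Y × Fin 3 → P ⊕ K × Y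
  | inl p => inl p
  | inr (j, y, r) => if j = j0 ∧ r ≠ 2 then inr (j, (O.nx j0).symm y) else inr (j, y)

@[simp] theorem el_l (j0 : K) (p : P) : O.el j0 (inl p) = inl p := rfl
@[simp] theorem el_2 (j0 j : K) (y : Y) : O.el j0 (inr (j, y, 2)) = inr (j, y) := by simp [el]
@[simp] theorem el_0 (j0 : K) (y : Y) :
    O.el j0 (inr (j0, y, 0)) = inr (j0, (O.nx j0).symm y) := by simp [el]
@[simp] theorem el_1 (j0 : K) (y : Y) :
    O.el j0 (inr (j0, y, 1)) = inr (j0, (O.nx j0).symm y) := by simp [el]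
theorem el_ne {j0 j : K} (h : j ≠ j0) (y : Y) (r : Fin 3) :
    O.el j0 (inr (j, y, r)) = inr (j, y) := by simp [el, h]
@[simp] theorem el_elst (j0 : K) (a : P ⊕ K × Y) : O.el j0 (elst a) = a := by
  rcases a with p | ⟨j, y⟩ <;> simp

/-- the order of the three hubs at a port: `1, 0, 2` if hot and `0, 1, 2` if cold -/
def sub (j0 : K) : P ⊕ K × Y × Fin 3 → Fin 3
  | inl _ => 0
  | inr (j, _, r) => if j = j0 then (if r = 1 then 0 else if r = 0 then 1 else 2) else r

/-- the position in the cycle of the state `j0` -/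
def pos (j0 : K) (h : P ⊕ K × Y × Fin 3) : β ×ₗ Fin 3 := toLex (O.ep j0 (O.el j0 h), sub j0 h)

theorem ep_inj (j : K) : Injective (O.ep j) := fun _ _ e => (O.ord j).inj trivial trivial e

theorem pos_lt {j0 : K} {u v : P ⊕ K × Y × Fin 3} : O.pos j0 u < O.pos j0 v ↔
    O.ep j0 (O.el j0 u) < O.ep j0 (O.el j0 v) ∨
      (O.el j0 u = O.el j0 v ∧ sub j0 u < sub j0 v) := by
  simp only [pos, Prod.Lex.toLex_lt_toLex, (O.ep_inj j0).eq_iff]

theorem pos_lt_of_ep {j0 : K} {u v : P ⊕ K × Y × Fin 3}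
    (h : O.ep j0 (O.el j0 u) < O.ep j0 (O.el j0 v)) : O.pos j0 u < O.pos j0 v :=
  O.pos_lt.2 (Or.inl h)

theorem ep_le_of_pos {j0 : K} {u v : P ⊕ K × Y × Fin 3} (h : O.pos j0 u ≤ O.pos j0 v) :
    O.ep j0 (O.el j0 u) ≤ O.ep j0 (O.el j0 v) :=
  not_lt.1 fun c => absurd (O.pos_lt_of_ep c) (not_lt.2 h)

@[simp] theorem pos_pay {j0 : K} {p q : P} :
    O.pos j0 (inl p) < O.pos j0 (inl q) ↔ O.ep j0 (inl p) < O.ep j0 (inl q) := by
  simp [pos_lt, sub]

/-- the step from the last hub of an element goes to the next element -/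
theorem el_nxt (j0 : K) (a : P ⊕ K × Y) :
    O.el j0 (O.nxt j0 (elst a)) = ehot O.nx j0 (O.sc a) := by
  rw [nxt_apply, dA_elst]
  rcases O.sc a with p | ⟨j, y⟩
  · rfl
  by_cases c : j = j0
  · simp [c]
  · rw [efst_r, O.hot_ne c, O.el_ne c, ehot_ne _ c]

/-- every step stays at the element, or starts at the last hub of the element -/
theorem step (j0 : K) (u : P ⊕ K × Y × Fin 3) :
    (O.el j0 (O.nxt j0 u) = O.el j0 u ∧ sub j0 u < sub j0 (O.nxt j0 u)) ∨
      u = elst (O.el j0 u) := by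
  rcases u with p | ⟨j, y, r⟩
  · exact Or.inr rfl
  by_cases c : j = j0
  · subst c
    fin_cases r <;> simp [nxt_apply, sub]
  · fin_cases r <;> simp [nxt_apply, O.hot_ne c, O.el_ne c, sub, c]

/-- **The cycle of a state.** -/
theorem cyc [Finite P] [Finite Y] [Finite K] [Nonempty Y] (j0 : K) :
    Cyc Set.univ (O.nxt j0) (O.pos j0) := by
  have : Nonempty (P ⊕ K × Y) := ⟨inr (j0, Classical.arbitrary Y)⟩
  obtain ⟨z, hz⟩ := Finite.exists_max (O.ep j0)
  refine Cyc.of_mono (fun _ _ => trivial) (O.nxt j0).injective.injOn (elst z)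
    fun u _ hu => O.pos_lt.2 ?_
  rcases O.step j0 u with ⟨a, b⟩ | a
  · exact Or.inr ⟨a.symm, b⟩
  · have : O.el j0 u ≠ z := fun c => hu (c ▸ a)
    refine Or.inl ?_
    conv_rhs => rw [a, el_nxt]
    exact ((O.ord j0).succ _ trivial z trivial
      (lt_of_le_of_ne (hz _) fun e => this (O.ep_inj j0 e))).1

end Mac

end Pool.Agent.P.MP_439f1f_co
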