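import Pool.Agent.P.MP_439f1f_co.Hm1

/-!
Machines with two rings per stage: the state machine, the reference configuration and the four kinds of gaps.
Hubs are `Option H` (`none` is the root), lines are `H = P ⊕ K × Y × Fin 3`.
-/

set_option autoImplicit false

namespace Pool.Agent.P.MP_439f1f_co

open Function Sum

variable {P Y K β : Type*} [LinearOrder β] [DecidableEq K]

namespace Mac

/-- Rings, pure loops and guards: `fam j y` is the ring of the port `(j, y)`. -/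
structure Rng (O : Mac P Y K β) (fam : K → Y → Bool) : Prop where
  famn : ∀ j y, fam j (O.nx j y) = fam j y
  one : ∀ j y y', fam j y = fam j y' → ∃ n : ℕ, (O.nx j ^ n) y = y'
  pu : ∃ pu : Fin 6 → Y, Injective pu ∧ ∀ q j, fam j (pu q) = false ∧
    ∃ j', O.sc (inr (j, pu q)) = inr (j', pu q)
  pv : ∀ i, ∃ pv : Fin 6 → Y, Injective pv ∧ ∀ q, fam i (pv q) = true ∧
    ∀ j, ∃ j', O.sc (inr (j, pv q)) = inr (j', pv q)
  guard : ∀ j j' b, j ≠ j' → ∃ a : Fin 6 → Y, Injective a ∧ ∀ q, fam j (a q) = b ∧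
    fam j' (a q) = false ∧ O.nx j (O.nx j' (a q)) = a q ∧
    O.sc (inr (j, a q)) = inr (j', a q) ∧
    O.sc (inr (j', O.nx j' (a q))) = inr (j, O.nx j' (a q))

/-- the machine can be synchronised -/
def Sync (O : Mac P Y K β) : Prop := ∃ fam, O.Rng fam

/-- The ends of the lines.  `tB L` is the second option of the tail of `L`, `hO p` the second
option of the head of the line into the payload hub `p` (put `tB L = some L` or
`hO p = some (inl p)` if there is none). -/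
structure Fit (O : Mac P Y K β) (m : ℕ)
    (hang : P ⊕ K × Y × Fin 3 → ℕ → Option (P ⊕ K × Y × Fin 3) → Prop)
    (tB : P ⊕ K × Y × Fin 3 → Option (P ⊕ K × Y × Fin 3))
    (hO : P → Option (P ⊕ K × Y × Fin 3)) : Prop where
  tl : ∀ L s, hang L 0 s ↔ s = some L ∨ s = tB L
  hp : ∀ L p s, O.dA L = inl p → (hang L m s ↔ s = some (inl p) ∨ s = hO p)
  hs : ∀ j e s, hang (O.sl j e) m s ↔
    s = some (inr (j, e)) ∨ s = some (inr (j, bt (O.nx j) e))
  md : ∀ L i s, 0 < i → i < m → hang L i s → ∃ p, s = some (inl p)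
  tBs : ∀ L z, tB L = some (inr z) → L = inr z
  hOs : ∀ p z, hO p ≠ some (inr z)
  sync : O.Sync

variable {O : Mac P Y K β} {m : ℕ}
  {hang : P ⊕ K × Y × Fin 3 → ℕ → Option (P ⊕ K × Y × Fin 3) → Prop}
  {tB : P ⊕ K × Y × Fin 3 → Option (P ⊕ K × Y × Fin 3)} {hO : P → Option (P ⊕ K × Y × Fin 3)}
  {x y : Option (P ⊕ K × Y × Fin 3)} {τ η : P ⊕ K × Y × Fin 3 → Option (P ⊕ K × Y × Fin 3)}
  {L0 : P ⊕ K × Y × Fin 3}

theorem sl_of_sc {j j' : K} {y : Y} (h : O.sc (inr (j, y)) = inr (j', y)) :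
    inr (j, y, 2) = O.sl j' (y, 0) := O.eq_sl.2 (by rw [dA_2, h]; rfl)

theorem sl_inj {j j' : K} {e e' : Y × Fin 3} (h : O.sl j e = O.sl j' e') : j = j' ∧ e = e' := by
  simpa using O.dA.symm.injective h

/-- every line ends at a payload hub or is a system line -/
theorem pay_or_sl (O : Mac P Y K β) (L : P ⊕ K × Y × Fin 3) :
    (∃ p, O.dA L = inl p) ∨ ∃ j e, L = O.sl j e := by
  rcases h : O.dA L with p | ⟨j, e⟩
  exacts [Or.inl ⟨p, rfl⟩, Or.inr ⟨j, e, O.eq_sl.2 h⟩]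

/-- the state machine of the loops -/
noncomputable def Fit.sys (F : O.Fit m hang tB hO) (d : P ⊕ K × Y × Fin 3) : Syf m hang Y K where
  nx := O.nx
  sh j e := some (inr (j, e))
  sl := O.sl
  ln s := s.getD d
  lni _ _ _ _ h := by simpa using h
  sli _ _ _ _ := sl_inj
  ln0 _ _ := rfl
  ln1 _ _ := rfl
  head j e s := (F.hs j e s).1
  hd L j e h := (O.pay_or_sl L).resolve_left fun ⟨p, hp⟩ =>
    ((F.hp L p _ hp).1 h).elim (fun c => nomatch c) fun c => F.hOs p _ c.symm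
  tt L j e h := ((F.tl L _).1 h).elim (fun c => (Option.some.inj c).symm) fun c => F.tBs L _ c.symm
  fam := F.sync.choose
  famn := F.sync.choose_spec.famn
  cyc := F.sync.choose_spec.one
  pu := F.sync.choose_spec.pu.choose
  pui := F.sync.choose_spec.pu.choose_spec.1
  pure q j := (F.sync.choose_spec.pu.choose_spec.2 q j).imp id fun h => h.imp fun _ => sl_of_sc
  pv i := (F.sync.choose_spec.pv i).choose
  pvi i := (F.sync.choose_spec.pv i).choose_spec.1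
  pvf i q := ((F.sync.choose_spec.pv i).choose_spec.2 q).1
  purv i q j := (((F.sync.choose_spec.pv i).choose_spec.2 q).2 j).imp fun _ => sl_of_sc
  guard j j' b h := (F.sync.choose_spec.guard j j' b h).imp fun _ a => ⟨a.1, fun q =>
    ⟨(a.2 q).1, (a.2 q).2.1, (a.2 q).2.2.1, sl_of_sc (a.2 q).2.2.2.1, sl_of_sc (a.2 q).2.2.2.2⟩⟩

/-- the option of the head of `sl j e` that is not used in the state `j0` -/
def alt (O : Mac P Y K β) (j0 j : K) (e : Y × Fin 3) : P ⊕ K × Y × Fin 3 :=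
  if j = j0 then inr (j, e) else inr (j, bt (O.nx j) e)

/-- the head that `alt j0 j e` holds in the state `j0` -/
def gam (O : Mac P Y K β) (j0 j : K) : Equiv.Perm (Y × Fin 3) :=
  if j = j0 then (bt (O.nx j))⁻¹ else bt (O.nx j)

theorem alt_self (j0 : K) (e : Y × Fin 3) : O.alt j0 j0 e = inr (j0, e) := if_pos rfl
theorem alt_ne {j0 j : K} (h : j ≠ j0) (e : Y × Fin 3) :
    O.alt j0 j e = inr (j, bt (O.nx j) e) := if_neg h
theorem gam_self (j0 : K) : O.gam j0 j0 = (bt (O.nx j0))⁻¹ := if_pos rfl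
theorem gam_ne {j0 j : K} (h : j ≠ j0) : O.gam j0 j = bt (O.nx j) := if_neg h

theorem alt_eq (j0 j : K) (e : Y × Fin 3) :
    O.alt j0 j e = O.nxt j0 (O.sl j (O.gam j0 j e)) := by
  by_cases h : j = j0
  · subst h
    simp [alt_self, gam_self, nxt_hot]
  · rw [alt_ne h, gam_ne h, O.nxt_cold h]

theorem nxt_eq_pay {j0 : K} {L : P ⊕ K × Y × Fin 3} {p : P} :
    O.nxt j0 L = inl p ↔ O.dA L = inl p := by
  refine ⟨fun h => (O.hot j0).injective h, O.nxt_pay⟩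

/-- the heads of the state are admissible -/
theorem Fit.hang_nxt (F : O.Fit m hang tB hO) (j0 : K) (L : P ⊕ K × Y × Fin 3) :
    hang L m (some (O.nxt j0 L)) := by
  obtain ⟨p, h⟩ | ⟨j, e, rfl⟩ := O.pay_or_sl L
  · exact (F.hp L p _ h).2 (Or.inl (by rw [O.nxt_pay h]))
  · by_cases c : j = j0
    · subst c
      exact (F.hs _ _ _).2 (Or.inr (by rw [nxt_hot]))
    · exact (F.hs _ _ _).2 (Or.inl (by rw [O.nxt_cold c]))

theorem Fit.hang_alt (F : O.Fit m hang tB hO) (j0 j : K) (e : Y × Fin 3) :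
    hang (O.sl j e) m (some (O.alt j0 j e)) := by
  refine (F.hs _ _ _).2 ?_
  unfold alt
  split_ifs <;> simp

/-- **The reference configuration of a state**: the root is isolated. -/
theorem Fit.ref (F : O.Fit m hang tB hO) (j0 : K) :
    Ends m hang none none some fun L => some (O.nxt j0 L) := by
  refine ⟨fun L => (F.tl L _).2 (Or.inl rfl), F.hang_nxt j0, ?_⟩
  rintro (_ | s)
  · simp
  · have : {L | O.nxt j0 L = s} = {(O.nxt j0).symm s} := by
      ext L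
      simp [Equiv.eq_symm_apply]
    simp [this]

variable [Finite P] [Finite Y] [Finite K]

/-- the cycle of a state on the hubs other than the root -/
theorem ocyc (O : Mac P Y K β) [Nonempty Y] (j0 : K) (d : P ⊕ K × Y × Fin 3) :
    Cyc {none}ᶜ (Option.map (O.nxt j0)) fun s => O.pos j0 (s.getD d) := (O.cyc j0).opt d

/-- All system ends are in the position of the state `j0`: only tails of payload lines and heads
into payload hubs can be at their second option. -/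
structure Calm (O : Mac P Y K β) (tB : P ⊕ K × Y × Fin 3 → Option (P ⊕ K × Y × Fin 3))
    (hO : P → Option (P ⊕ K × Y × Fin 3)) (j0 : K)
    (τ η : P ⊕ K × Y × Fin 3 → Option (P ⊕ K × Y × Fin 3)) : Prop where
  tl : ∀ L, τ L = some L ∨ ∃ p, L = inl p ∧ τ L = tB L
  hd : ∀ L, η L = some (O.nxt j0 L) ∨ ∃ p, O.dA L = inl p ∧ η L = hO p

omit [Finite P] [Finite Y] [Finite K] in
theorem Fit.pay_head (F : O.Fit m hang tB hO) (h : Ends m hang x y τ η) (j0 : K)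
    {L : P ⊕ K × Y × Fin 3} {p : P} (c : O.dA L = inl p) :
    η L = some (O.nxt j0 L) ∨ ∃ p, O.dA L = inl p ∧ η L = hO p :=
  ((F.hp L p _ c).1 (h.hh L)).imp (fun a => by rw [a, O.nxt_pay c]) fun a => ⟨p, c, a⟩

variable [Nonempty K]

/-- **No gap hub is a system hub.** -/
theorem Fit.calm (F : O.Fit m hang tB hO) (h : Ends m hang x y τ η) (c : Cn L0 x y τ η)
    (hx : ∀ z, x ≠ some (inr z)) (hy : ∀ z, y ≠ some (inr z)) : ∃ j0, O.Calm tB hO j0 τ η := by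
  obtain ⟨j0, a⟩ := (F.sys L0).sync_none h c (fun _ _ => hx _) fun _ _ => hy _
  refine ⟨j0, ?_, fun L => ?_⟩
  · rintro (p | ⟨j, e⟩)
    exacts [((F.tl _ _).1 (h.ht _)).imp id fun a => ⟨p, rfl, a⟩, Or.inl (a j e).2]
  · obtain ⟨p, b⟩ | ⟨j, e, rfl⟩ := O.pay_or_sl L
    · exact F.pay_head h j0 b
    · refine Or.inl ((a j e).1.trans ?_)
      by_cases d : j = j0
      · subst d
        rw [nxt_hot]
        exact if_pos rfl
      · rw [O.nxt_cold d]
        exact if_neg d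

/-- **Middle gap.** -/
theorem Fit.mid (F : O.Fit m hang tB hO) {i : ℕ} (h0 : 0 < i) (h1 : i + 1 < m)
    (hx : hang L0 i x) (hy : hang L0 (i + 1) y) (c : Cut m hang L0 x y) :
    ∃ j0 τ η, Ends m hang x y τ η ∧ Cn L0 x y τ η ∧ O.Calm tB hO j0 τ η := by
  obtain ⟨τ, η, h, c⟩ := c
  obtain ⟨p, rfl⟩ := F.md _ _ _ h0 (by omega) hx
  obtain ⟨q, rfl⟩ := F.md _ _ _ (by omega) h1 hy
  obtain ⟨j0, a⟩ := F.calm h c (by simp) (by simp)
  exact ⟨j0, τ, η, h, c, a⟩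

/-- **First gap**: the tail stays, the lower gap hub is the second option. -/
theorem Fit.first (F : O.Fit m hang tB hO) (hm : 1 < m) (hx : hang L0 0 x) (hy : hang L0 1 y)
    (c : Cut m hang L0 x y) : ∃ j0 τ η, τ L0 = some L0 ∧ tB L0 ≠ some L0 ∧
      Ends m hang (tB L0) y τ η ∧ Cn L0 (tB L0) y τ η ∧ O.Calm tB hO j0 τ η := by
  classical
  obtain ⟨τ, η, h, c⟩ := c
  obtain ⟨h, c⟩ := norm_tail h c hx fun s => (F.tl L0 s).1
  obtain ⟨q, rfl⟩ := F.md _ _ _ Nat.one_pos hm hy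
  have n : tB L0 ≠ some L0 := fun e => h.tail_ne c (by simp [e])
  obtain ⟨j0, a⟩ := F.calm h c (fun z e => n (by rw [e, F.tBs _ _ e])) (by simp)
  exact ⟨j0, _, η, update_self .., n, h, c, a⟩

/-- **Last gap of a line into a payload hub**: the head stays, the upper gap hub is the second
option. -/
theorem Fit.last_pay (F : O.Fit m hang tB hO) {i : ℕ} (h0 : 0 < i) (h1 : i + 1 = m) {p : P}
    (hp : O.dA L0 = inl p) (hx : hang L0 i x) (hy : hang L0 (i + 1) y) (c : Cut m hang L0 x y) :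
    ∃ j0 τ η, η L0 = some (inl p) ∧ hO p ≠ some (inl p) ∧
      Ends m hang x (hO p) τ η ∧ Cn L0 x (hO p) τ η ∧ O.Calm tB hO j0 τ η := by
  classical
  obtain ⟨τ, η, h, c⟩ := c
  obtain ⟨h, c⟩ := norm_head h c (h1 ▸ hy) fun s => (F.hp L0 p s hp).1
  obtain ⟨q, rfl⟩ := F.md _ _ _ h0 (by omega) hx
  have n : hO p ≠ some (inl p) := fun e => h.head_ne c (by simp [e])
  obtain ⟨j0, a⟩ := F.calm h c (by simp) (F.hOs p)
  exact ⟨j0, τ, _, update_self .., n, h, c, a⟩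

/-- **Last gap of a system line**: the head is in the position of the state, the upper gap hub is
the other option; a run of `n ≤ 3` heads moved, and the tail at the end of the run left. -/
theorem Fit.last_sys (F : O.Fit m hang tB hO) {i : ℕ} (h0 : 0 < i) (h1 : i + 1 = m) {j1 : K}
    {e0 : Y × Fin 3} (hx : hang (O.sl j1 e0) i x) (hy : hang (O.sl j1 e0) (i + 1) y)
    (c : Cut m hang (O.sl j1 e0) x y) :
    ∃ j0, ∃ n ≤ 3, ∃ τ η, Ends m hang x (some (O.alt j0 j1 e0)) τ η ∧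
      Cn (O.sl j1 e0) x (some (O.alt j0 j1 e0)) τ η ∧
      (∀ i, 1 ≤ i → i < n → ((O.gam j0 j1 ^ i) e0).2 ≠ if j1 = j0 then 1 else 2) ∧
      (∀ i, 1 ≤ i → i ≤ n → η (O.sl j1 ((O.gam j0 j1 ^ i) e0)) =
        some (O.alt j0 j1 ((O.gam j0 j1 ^ i) e0))) ∧
      (∀ L, (∀ i, 1 ≤ i → i ≤ n → L ≠ O.sl j1 ((O.gam j0 j1 ^ i) e0)) →
        η L = some (O.nxt j0 L) ∨ ∃ p, O.dA L = inl p ∧ η L = hO p) ∧
      ∀ w, w = O.alt j0 j1 ((O.gam j0 j1 ^ n) e0) → τ w = tB w ∧ tB w ≠ some w ∧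
        ∀ L, L ≠ w → τ L = some L ∨ ∃ p, L = inl p ∧ τ L = tB L := by
  classical
  obtain ⟨τ, η, h, c⟩ := c
  obtain ⟨q, rfl⟩ := F.md _ _ _ h0 (by omega) hx
  have ot : ∀ j0 j e, (F.sys (O.sl j1 e0)).oth j0 j e = some (O.alt j0 j e) := fun j0 j e => by
    unfold Syf.oth alt
    split_ifs <;> rfl
  obtain ⟨j0, n, hn, η', -, a1, a2, a3, a4, a5, a6⟩ :=
    (F.sys (O.sl j1 e0)).sync_win (j1 := j1) (e0 := e0) h c (fun _ _ h => nomatch h) (h1 ▸ hy)
  simp only [ot] at a1 a2 a4 a6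
  refine ⟨j0, n, hn, τ, η', a1, a2, a3, a4, fun L hL => ?_, fun w hw => ?_⟩
  · obtain ⟨p, b⟩ | ⟨j, e, rfl⟩ := O.pay_or_sl L
    · exact F.pay_head a1 j0 b
    · refine Or.inl ((a5 j e fun d i u v w => hL i u v (by rw [d, w]; rfl)).trans ?_)
      by_cases d : j = j0
      · subst d
        rw [nxt_hot]
        exact if_pos rfl
      · rw [O.nxt_cold d]
        exact if_neg d
  · obtain ⟨e, he⟩ : ∃ e, w = inr (j1, e) := by
      rw [hw, alt]
      split_ifs <;> exact ⟨_, rfl⟩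
    have b : τ w ≠ some w := he ▸ (a6 j1 e).2 (congrArg some (he.symm.trans hw))
    have b1 := ((F.tl _ _).1 (h.ht w)).resolve_left b
    refine ⟨b1, b1 ▸ b, ?_⟩
    rintro (p | ⟨j, e⟩) hL
    · exact ((F.tl _ _).1 (h.ht _)).imp id fun a => ⟨p, rfl, a⟩
    · exact Or.inl (by_contra fun d => hL ((Option.some.inj ((a6 j e).1 d)).trans hw.symm))

/-- **Non-hamiltonicity** from the four kinds of gaps. -/
theorem Fit.not_ham [Fintype (P ⊕ K × Y × Fin 3)] [DecidableEq (P ⊕ K × Y × Fin 3)]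
    (F : O.Fit m hang tB hO) (hm : 1 < m)
    (first : ∀ L0 y j0 τ η, hang L0 1 y → τ L0 = some L0 → tB L0 ≠ some L0 →
      Ends m hang (tB L0) y τ η → Cn L0 (tB L0) y τ η → ¬O.Calm tB hO j0 τ η)
    (mid : ∀ L0 i x y j0 τ η, 0 < i → i + 1 < m → hang L0 i x → hang L0 (i + 1) y →
      Ends m hang x y τ η → Cn L0 x y τ η → ¬O.Calm tB hO j0 τ η)
    (last : ∀ L0 p x j0 τ η, O.dA L0 = inl p → hang L0 (m - 1) x → η L0 = some (inl p) →
      hO p ≠ some (inl p) → Ends m hang x (hO p) τ η → Cn L0 x (hO p) τ η →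
      ¬O.Calm tB hO j0 τ η)
    (win : ∀ j1 e0 x j0 n τ η, n ≤ 3 → hang (O.sl j1 e0) (m - 1) x →
      Ends m hang x (some (O.alt j0 j1 e0)) τ η →
      Cn (O.sl j1 e0) x (some (O.alt j0 j1 e0)) τ η →
      (∀ i, 1 ≤ i → i < n → ((O.gam j0 j1 ^ i) e0).2 ≠ if j1 = j0 then 1 else 2) →
      (∀ i, 1 ≤ i → i ≤ n → η (O.sl j1 ((O.gam j0 j1 ^ i) e0)) =
        some (O.alt j0 j1 ((O.gam j0 j1 ^ i) e0))) →
      (∀ L, (∀ i, 1 ≤ i → i ≤ n → L ≠ O.sl j1 ((O.gam j0 j1 ^ i) e0)) →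
        η L = some (O.nxt j0 L) ∨ ∃ p, O.dA L = inl p ∧ η L = hO p) →
      ∀ w, w = O.alt j0 j1 ((O.gam j0 j1 ^ n) e0) → τ w = tB w → tB w ≠ some w →
        (∀ L, L ≠ w → τ L = some L ∨ ∃ p, L = inl p ∧ τ L = tB L) → False) :
    ¬(HL m hang).IsHamiltonian := by
  obtain ⟨j⟩ := ‹Nonempty K›
  have : Nonempty (P ⊕ K × Y × Fin 3) := ⟨inr (j, F.sync.choose_spec.pu.choose 0, 0)⟩
  refine not_ham_of_cut hm.le Fintype.card_option fun L i x y hi hx hy c => ?_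
  rcases Nat.eq_zero_or_pos i with rfl | h0
  · obtain ⟨j0, τ, η, a1, a2, a3, a4, a5⟩ := F.first hm hx hy c
    exact first _ _ _ _ _ hy a1 a2 a3 a4 a5
  rcases Nat.lt_or_eq_of_le (Nat.succ_le_of_lt hi) with h1 | h1
  · obtain ⟨j0, τ, η, a1, a2, a3⟩ := F.mid h0 h1 hx hy c
    exact mid _ _ _ _ _ _ _ h0 h1 hx hy a1 a2 a3
  have hx' : hang L (m - 1) x := by rwa [← h1]
  obtain ⟨p, hp⟩ | ⟨j1, e0, rfl⟩ := O.pay_or_sl L
  · obtain ⟨j0, τ, η, a1, a2, a3, a4, a5⟩ := F.last_pay h0 h1 hp hx hy c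
    exact last _ _ _ _ _ _ hp hx' a1 a2 a3 a4 a5
  · obtain ⟨j0, n, hn, τ, η, a1, a2, a3, a4, a5, a6⟩ := F.last_sys h0 h1 hx hy c
    obtain ⟨b1, b2, b3⟩ := a6 _ rfl
    exact win _ _ _ _ _ _ _ hn hx' a1 a2 a3 a4 a5 _ rfl b1 b2 b3

end Mac

end Pool.Agent.P.MP_439f1f_co
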