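import Pool.Agent.P.MP_439f1f_co.Hm3

/-!
Machines from loops that are given by keys.
-/

set_option autoImplicit false

namespace Pool.Agent.P.MP_439f1f_co

open Function Sum

/-- A key that is injective on the fibres of `lo` defines a cyclic successor on every fibre. -/
theorem exists_fib {α Z γ : Type*} [Finite α] [LinearOrder γ] (lo : α → Z) (lk : α → γ)
    (h : ∀ a b, lo a = lo b → lk a = lk b → a = b) :
    ∃ sc : Equiv.Perm α, ∀ z, Cyc {a | lo a = z} sc lk := by
  choose f hf using fun y => exists_cyc (D := {a | lo a = y}) (pos := lk)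
    fun a ha b hb => h a b (ha.trans hb.symm)
  have inj : Injective fun a => f (lo a) a := fun a b e => by
    have a1 : lo _ = _ := (hf _).mem a rfl
    have a2 : lo _ = _ := (hf _).mem b rfl
    have a3 : lo a = lo b := by rw [← a1, show f (lo a) a = _ from e, a2]
    simp only [← a3] at e
    exact (hf _).injOn rfl a3.symm e
  exact ⟨Equiv.ofBijective _ (Finite.injective_iff_bijective.1 inj),
    fun y => (hf y).congr fun a ha => by rw [← ha]; rfl⟩

variable {P Y K Z β γ : Type*} [LinearOrder β] [LinearOrder γ]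

/-- Loops `lo` ordered by `lk`; `nu j` is the next port of the stage `j` in the loop; after the unit
that starts at the port `y` comes the unit that starts at `nx j (nu j y)`, and this is the cyclic
successor for `key j`. -/
structure Ports (P Y K Z β γ : Type*) [LinearOrder β] [LinearOrder γ] where
  lo : P ⊕ K × Y → Z
  lk : P ⊕ K × Y → γ
  sc : Equiv.Perm (P ⊕ K × Y)
  hsc : ∀ z, Cyc {a | lo a = z} sc lk
  nu : K → Y → Y
  hnu : ∀ j z, Cyc {y | lo (inr (j, y)) = z} (nu j) fun y => lk (inr (j, y))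
  has : ∀ j a, ∃ y, lo (inr (j, y)) = lo a
  nx : K → Equiv.Perm Y
  key : K → Y → β
  hkey : ∀ j, Cyc Set.univ (fun y => nx j (nu j y)) (key j)

namespace Ports

variable (O : Ports P Y K Z β γ)

/-- `y` is the last port of the stage `j` at or before `a`, cyclically -/
def St (j : K) (a : P ⊕ K × Y) (y : Y) : Prop :=
  O.lo (inr (j, y)) = O.lo a ∧ ∀ y', O.lo (inr (j, y')) = O.lo a →
    (O.lk (inr (j, y')) ≤ O.lk a → O.lk (inr (j, y')) ≤ O.lk (inr (j, y)) ∧
      O.lk (inr (j, y)) ≤ O.lk a) ∧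
    (O.lk a < O.lk (inr (j, y)) → O.lk (inr (j, y')) ≤ O.lk (inr (j, y)))

theorem lk_inj {a b : P ⊕ K × Y} (h : O.lo a = O.lo b) (e : O.lk a = O.lk b) : a = b :=
  (O.hsc _).inj h rfl e

theorem lo_sc (a : P ⊕ K × Y) : O.lo (O.sc a) = O.lo a := (O.hsc _).mem a rfl

variable {O}

theorem St.unique {j : K} {a : P ⊕ K × Y} {y y' : Y} (h : O.St j a y) (h' : O.St j a y') :
    y = y' := by
  have a1 := h.2 y' h'.1
  have a2 := h'.2 y h.1
  have : O.lk (inr (j, y)) = O.lk (inr (j, y')) := by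
    rcases le_or_gt (O.lk (inr (j, y))) (O.lk a) with c | c <;>
      rcases le_or_gt (O.lk (inr (j, y'))) (O.lk a) with d | d <;> grind
  simpa using O.lk_inj (h.1.trans h'.1.symm) this

theorem St.self (j : K) (y : Y) : O.St j (inr (j, y)) y :=
  ⟨rfl, fun _ _ => ⟨fun h => ⟨h, le_rfl⟩, fun h => absurd h (lt_irrefl _)⟩⟩

/-- the only port of the stage in the loop -/
theorem St.only {j : K} {a : P ⊕ K × Y} {y : Y} (h : O.lo (inr (j, y)) = O.lo a)
    (h1 : ∀ y', O.lo (inr (j, y')) = O.lo a → y' = y) : O.St j a y :=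
  ⟨h, fun y' h' => h1 y' h' ▸ ⟨fun c => ⟨le_rfl, c⟩, fun _ => le_rfl⟩⟩

theorem St.of_le {j : K} {a : P ⊕ K × Y} {y : Y} (h : O.lo (inr (j, y)) = O.lo a)
    (h1 : O.lk (inr (j, y)) ≤ O.lk a) (h2 : ∀ y', O.lo (inr (j, y')) = O.lo a →
      O.lk (inr (j, y')) ≤ O.lk a → O.lk (inr (j, y')) ≤ O.lk (inr (j, y))) : O.St j a y :=
  ⟨h, fun y' h' => ⟨fun c => ⟨h2 y' h' c, h1⟩, fun c => absurd h1 (not_le.2 c)⟩⟩

/-- an element lies between the start of its unit and every later port -/
theorem St.between {j : K} {a : P ⊕ K × Y} {y y' : Y} (h : O.St j a y)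
    (h1 : O.lo (inr (j, y')) = O.lo a) (h2 : O.lk (inr (j, y)) < O.lk (inr (j, y'))) :
    O.lk (inr (j, y)) ≤ O.lk a ∧ O.lk a < O.lk (inr (j, y')) := by
  have := h.2 y' h1
  grind

theorem St.sc {j : K} {a : P ⊕ K × Y} {y : Y} (h : O.St j a y) (c : ∀ y, O.sc a ≠ inr (j, y)) :
    O.St j (O.sc a) y := by
  have n : ∀ y', O.lo (inr (j, y')) = O.lo a → O.lk (inr (j, y')) ≠ O.lk (O.sc a) :=
    fun y' h' e => c y' (O.lk_inj (h'.trans (O.lo_sc a).symm) e).symm
  refine ⟨h.1.trans (O.lo_sc a).symm, fun y' h' => ?_⟩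
  rw [O.lo_sc] at h'
  have a1 := h.2 y' h'
  have a2 := n y' h'
  have a3 := n y h.1
  rcases (O.hsc (O.lo a)).cases (u := a) rfl with ⟨b1, b2⟩ | ⟨b1, b2⟩
  · have := b2 _ h'
    have := b2 _ h.1
    grind
  · have := b1 _ h'
    have := b2 _ h'
    have := b2 _ h.1
    grind

theorem St.nu {j : K} {a : P ⊕ K × Y} {y y' : Y} (h : O.St j a y) (c : O.sc a = inr (j, y')) :
    O.nu j y = y' := by
  have l : O.lo (inr (j, y')) = O.lo a := c ▸ O.lo_sc a
  have o := O.hnu j (O.lo a)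
  rcases (O.hsc (O.lo a)).cases (u := a) rfl with ⟨b1, b2⟩ | ⟨b1, b2⟩ <;> rw [c] at b2
  · rw [c] at b1
    rcases le_or_gt (O.lk (inr (j, y))) (O.lk a) with d | d
    · refine o.of_nx ⟨h.1, l, d.trans_lt b1, fun w hw => ?_⟩
      exact (b2 _ hw).imp (fun e => ((h.2 w hw).1 e).1) id
    · refine o.last h.1 l (fun w hw => (h.2 w hw).2 d) fun w hw => (b2 _ hw).resolve_left ?_
      exact fun e => absurd ((h.2 w hw).1 e).2 (not_le.2 d)
  · exact o.last h.1 l (fun w hw => ((h.2 w hw).1 (b1 _ hw)).1) fun w hw => b2 _ hw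

variable (O) [Finite Y]

theorem exists_st (j : K) (a : P ⊕ K × Y) : ∃ y, O.St j a y := by
  by_cases h : ∃ y, O.lo (inr (j, y)) = O.lo a ∧ O.lk (inr (j, y)) ≤ O.lk a
  · obtain ⟨y, h1, h2⟩ := Set.exists_max_image
      {y | O.lo (inr (j, y)) = O.lo a ∧ O.lk (inr (j, y)) ≤ O.lk a} (fun y => O.lk (inr (j, y)))
      (Set.toFinite _) h
    exact ⟨y, St.of_le h1.1 h1.2 fun y' a b => h2 y' ⟨a, b⟩⟩
  · obtain ⟨y, h1, h2⟩ := Set.exists_max_image {y | O.lo (inr (j, y)) = O.lo a}
      (fun y => O.lk (inr (j, y))) (Set.toFinite _) (O.has j a)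
    exact ⟨y, h1, fun y' a => ⟨fun b => absurd ⟨y', a, b⟩ h, fun _ => h2 y' a⟩⟩

/-- the port at which the unit of `a` starts -/
noncomputable def st (j : K) (a : P ⊕ K × Y) : Y := (O.exists_st j a).choose

theorem st_spec (j : K) (a : P ⊕ K × Y) : O.St j a (O.st j a) := (O.exists_st j a).choose_spec

variable {O} in
theorem St.eq {j : K} {a : P ⊕ K × Y} {y : Y} (h : O.St j a y) : O.st j a = y :=
  (O.st_spec j a).unique h

@[simp] theorem st_self (j : K) (y : Y) : O.st j (inr (j, y)) = y := (St.self j y).eq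

/-- the position of an element in the state `j` -/
noncomputable def ep (j : K) (a : P ⊕ K × Y) : β ×ₗ ℕ ×ₗ γ :=
  toLex (O.key j (O.st j a),
    toLex (if O.lk (inr (j, O.st j a)) ≤ O.lk a then 0 else 1, O.lk a))

theorem ep_lt_of_key {j : K} {a b : P ⊕ K × Y}
    (h : O.key j (O.st j a) < O.key j (O.st j b)) : O.ep j a < O.ep j b :=
  Prod.Lex.toLex_lt_toLex.2 (Or.inl h)

theorem key_le_of_ep {j : K} {a b : P ⊕ K × Y} (h : O.ep j a ≤ O.ep j b) :
    O.key j (O.st j a) ≤ O.key j (O.st j b) :=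
  not_lt.1 fun c => absurd (O.ep_lt_of_key c) (not_lt.2 h)

/-- two elements of one unit that do not come before the port in the order of the loop -/
theorem ep_lt_iff {j : K} {a b : P ⊕ K × Y} (h : O.st j a = O.st j b)
    (ha : O.lk (inr (j, O.st j a)) ≤ O.lk a) (hb : O.lk (inr (j, O.st j b)) ≤ O.lk b) :
    O.ep j a < O.ep j b ↔ O.lk a < O.lk b := by
  rw [ep, ep, if_pos ha, if_pos hb, h]
  simp [Prod.Lex.toLex_lt_toLex]

/-- **The machine.** -/
noncomputable def mac [DecidableEq K] [Finite P] [Finite K] [Nonempty Y] :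
    Mac P Y K (β ×ₗ ℕ ×ₗ γ) :=
  Mac.ofMono O.sc O.nx O.ep
    (fun j => O.sc.symm (inr (j, O.nu j (Finite.exists_max (O.key j)).choose)))
    (fun j a c => by
      have h := O.st_spec j a
      have n : O.lk (inr (j, O.st j a)) ≠ O.lk (O.sc a) := fun e =>
        c _ (O.lk_inj (h.1.trans (O.lo_sc a).symm) e).symm
      simp only [ep, (h.sc c).eq, Prod.Lex.toLex_lt_toLex]
      refine Or.inr ⟨trivial, ?_⟩
      rcases (O.hsc (O.lo a)).cases (u := a) rfl with ⟨b1, b2⟩ | ⟨b1, b2⟩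
      · have := b2 _ h.1
        grind
      · have := b1 _ h.1
        have := b2 _ h.1
        grind)
    fun j a y ha c => by
      have h := (O.st_spec j a).nu c
      have hz := (Finite.exists_max (O.key j)).choose_spec
      generalize (Finite.exists_max (O.key j)).choose = z at ha hz
      have n : O.st j a ≠ z := fun e => ha (by rw [← e, h, ← c, Equiv.symm_apply_apply])
      refine O.ep_lt_of_key ?_
      rw [st_self, ← h]
      exact ((O.hkey j).succ _ trivial z trivial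
        (lt_of_le_of_ne (hz _) fun e => n ((O.hkey j).inj trivial trivial e))).1

end Ports

end Pool.Agent.P.MP_439f1f_co
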