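import Pool.Agent.P.MP_439f1f_co.Hm4

/-!
The hinge machine: every loop has one port of every stage, the hinge loop `g j` has a second port
`none` of the stage `j`.
-/

set_option autoImplicit false

namespace Pool.Agent.P.MP_439f1f_co

open Function Sum

theorem Cyc.of_mono' {α β : Type*} [LinearOrder β] {D : Set α} {pos : α → β} [Finite α]
    {f : α → α} (mem : ∀ u ∈ D, f u ∈ D) (inj : Set.InjOn f D) (E : α → Prop)
    (h : ∀ u ∈ D, E u ∨ pos u < pos (f u)) (hE : ∀ u ∈ D, ∀ v ∈ D, E u → E v → u = v) :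
    Cyc D f pos := by
  by_cases c : ∃ u ∈ D, E u
  · obtain ⟨u, hu, e⟩ := c
    exact Cyc.of_mono mem inj u fun v hv n => (h v hv).resolve_left fun d => n (hE v hv u hu d e)
  · rcases D.eq_empty_or_nonempty with rfl | ⟨u, -⟩
    · exact ⟨by simp, by simp, by simp, by simp⟩
    · exact Cyc.of_mono mem inj u fun v hv _ => (h v hv).resolve_left fun d => c ⟨v, hv, d⟩

/-- a cyclic order on a set is one cycle -/
theorem Cyc.one' {α β : Type*} [LinearOrder β] {D : Set α} {pos : α → β} [Finite α]
    {σ : Equiv.Perm α} (o : Cyc D σ pos) {y y' : α} (hy : y ∈ D) (hy' : y' ∈ D) :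
    ∃ n : ℕ, (σ ^ n) y = y' := by
  refine (o.all (P := fun u => ∃ n : ℕ, (σ ^ n) u = y') (z := y') hy' (fun u _ c => ?_)
    hy).2 ⟨0, rfl⟩
  constructor
  · rintro ⟨n, hn⟩
    cases n with
    | zero => exact absurd hn c
    | succ n => exact ⟨n, by rwa [pow_succ, Equiv.Perm.mul_apply] at hn⟩
  · rintro ⟨n, hn⟩
    exact ⟨n + 1, by rwa [pow_succ, Equiv.Perm.mul_apply]⟩

variable {P Lo K β γ : Type*} [LinearOrder β] [LinearOrder γ]

/-- the loop of an element -/
def rlo (lp : P → Lo) (g : K → Lo) : P ⊕ K × Option Lo → Lo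
  | inl p => lp p
  | inr (_, some y) => y
  | inr (j, none) => g j

/-- Loops `Lo`; `lp p` is the loop of the payload hub `p`, `lk` orders the elements of a loop.  The
port `(j, some y)` of the loop `y` lies on the ring `fam j y` of the stage `j`, the second port
`(j, none)` of the hinge `g j` is the last port of the ring `true`.  Both rings are ordered by
`key j`. -/
structure Rings (P Lo K β γ : Type*) [LinearOrder β] [LinearOrder γ] where
  lp : P → Lo
  g : K → Lo
  fam : K → Lo → Bool
  famg : ∀ j, fam j (g j) = false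
  lk : P ⊕ K × Option Lo → γ
  lki : ∀ a b, rlo lp g a = rlo lp g b → lk a = lk b → a = b
  key : K → Lo → β
  keyi : ∀ j y y', fam j y = fam j y' → key j y = key j y' → y = y'

namespace Rings

variable (O : Rings P Lo K β γ)

/-- the loop of an element -/
def lo (a : P ⊕ K × Option Lo) : Lo := rlo O.lp O.g a

@[simp] theorem lo_l (p : P) : O.lo (inl p) = O.lp p := rfl
@[simp] theorem lo_s (j : K) (y : Lo) : O.lo (inr (j, some y)) = y := rfl
@[simp] theorem lo_n (j : K) : O.lo (inr (j, none)) = O.g j := rfl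

/-- the ring of a port -/
def fo (j : K) : Option Lo → Bool
  | some y => O.fam j y
  | none => true

@[simp] theorem fo_s (j : K) (y : Lo) : O.fo j (some y) = O.fam j y := rfl
@[simp] theorem fo_n (j : K) : O.fo j none = true := rfl

/-- the place of a port on its ring -/
def ok (j : K) : Option Lo → WithTop β
  | some y => O.key j y
  | none => ⊤

@[simp] theorem ok_s (j : K) (y : Lo) : O.ok j (some y) = O.key j y := rfl
@[simp] theorem ok_n (j : K) : O.ok j none = ⊤ := rfl

theorem ok_inj (j : K) (a b : Option Lo) (h : O.fo j a = O.fo j b) (e : O.ok j a = O.ok j b) :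
    a = b := by
  rcases a with _ | a <;> rcases b with _ | b <;> simp at h e ⊢
  exact O.keyi j a b h e

theorem ne_g {j : K} {y : Lo} (h : O.fam j y = true) : y ≠ O.g j := fun e => by
  simp [e, O.famg] at h

theorem lo_port {j : K} {u : Option Lo} {z : Lo} :
    O.lo (inr (j, u)) = z ↔ u = some z ∨ (u = none ∧ z = O.g j) := by
  rcases u with _ | u <;> simp [eq_comm]

open Classical in
/-- the next port of the stage in the loop -/
noncomputable def nu (j : K) : Equiv.Perm (Option Lo) := Equiv.swap (some (O.g j)) none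

@[simp] theorem nu_g (j : K) : O.nu j (some (O.g j)) = none := by simp [nu]
@[simp] theorem nu_n (j : K) : O.nu j none = some (O.g j) := by simp [nu]
theorem nu_ne {j : K} {y : Lo} (h : y ≠ O.g j) : O.nu j (some y) = some y := by
  classical
  exact Equiv.swap_apply_of_ne_of_ne (by simpa using h) (by simp)

/-- the loop of the ring `false` at which the loop `y` is visited in the state `j` -/
def ak (j : K) (y : Lo) : β := if O.fam j y then O.key j (O.g j) else O.key j y

theorem ak_A {j : K} {y : Lo} (h : O.fam j y = false) : O.ak j y = O.key j y := by simp [ak, h]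
theorem ak_B {j : K} {y : Lo} (h : O.fam j y = true) : O.ak j y = O.key j (O.g j) := by
  simp [ak, h]
@[simp] theorem ak_g (j : K) : O.ak j (O.g j) = O.key j (O.g j) := O.ak_A (O.famg j)

/-- the order of the units in the state `j` -/
def uk (j : K) : Option Lo → β ×ₗ ℕ ×ₗ β
  | some y => toLex (O.ak j y, toLex (if O.fam j y then 1 else 0, O.key j y))
  | none => toLex (O.key j (O.g j), toLex (2, O.key j (O.g j)))

theorem uk_AA {j : K} {y y' : Lo} (h : O.fam j y = false) (h' : O.fam j y' = false) :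
    O.uk j (some y) < O.uk j (some y') ↔ O.key j y < O.key j y' := by
  simp [uk, ak, h, h', Prod.Lex.toLex_lt_toLex]

theorem uk_BB {j : K} {y y' : Lo} (h : O.fam j y = true) (h' : O.fam j y' = true) :
    O.uk j (some y) < O.uk j (some y') ↔ O.key j y < O.key j y' := by
  simp [uk, ak, h, h', Prod.Lex.toLex_lt_toLex]

theorem uk_same {j : K} {y y' : Lo} (h : O.fam j y = O.fam j y') :
    O.uk j (some y) < O.uk j (some y') ↔ O.key j y < O.key j y' := by
  cases c : O.fam j y
  exacts [O.uk_AA c (h ▸ c), O.uk_BB c (h ▸ c)]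

theorem uk_AB {j : K} {y y' : Lo} (h : O.fam j y = false) (h' : O.fam j y' = true) :
    O.uk j (some y) < O.uk j (some y') ↔ O.key j y ≤ O.key j (O.g j) := by
  simp [uk, ak, h, h', Prod.Lex.toLex_lt_toLex, le_iff_lt_or_eq]

theorem uk_BA {j : K} {y y' : Lo} (h : O.fam j y = true) (h' : O.fam j y' = false) :
    O.uk j (some y) < O.uk j (some y') ↔ O.key j (O.g j) < O.key j y' := by
  simp [uk, ak, h, h', Prod.Lex.toLex_lt_toLex]

theorem uk_sn {j : K} {y : Lo} :
    O.uk j (some y) < O.uk j none ↔ O.ak j y ≤ O.key j (O.g j) := by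
  cases h : O.fam j y <;> simp [uk, h, Prod.Lex.toLex_lt_toLex, le_iff_lt_or_eq]

theorem uk_ns {j : K} {y : Lo} :
    O.uk j none < O.uk j (some y) ↔ O.key j (O.g j) < O.ak j y := by
  cases h : O.fam j y <;> simp [uk, h, Prod.Lex.toLex_lt_toLex]

theorem uk_fst (j : K) (u : Option Lo) : (ofLex (O.uk j u)).1 = O.ak j (O.lo (inr (j, u))) := by
  cases u <;> simp [uk]

variable [Finite P] [Finite Lo] [Finite K]

/-- the successor in the loops -/
noncomputable def sc : Equiv.Perm (P ⊕ K × Option Lo) := (exists_fib O.lo O.lk O.lki).choose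

theorem hsc (z : Lo) : Cyc {a | O.lo a = z} O.sc O.lk := (exists_fib O.lo O.lk O.lki).choose_spec z

omit [Finite P] [Finite K] in
/-- the successor on the rings -/
noncomputable def nx (j : K) : Equiv.Perm (Option Lo) :=
  (exists_fib (O.fo j) (O.ok j) (O.ok_inj j)).choose

section
omit [Finite P] [Finite K]

theorem hnx (j : K) (b : Bool) : Cyc {u | O.fo j u = b} (O.nx j) (O.ok j) :=
  (exists_fib (O.fo j) (O.ok j) (O.ok_inj j)).choose_spec b

@[simp] theorem fo_nx (j : K) (u : Option Lo) : O.fo j (O.nx j u) = O.fo j u :=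
  (O.hnx j _).mem u rfl

@[simp] theorem fo_nx_symm (j : K) (u : Option Lo) : O.fo j ((O.nx j).symm u) = O.fo j u := by
  rw [← O.fo_nx, Equiv.apply_symm_apply]

/-- neighbours on a ring -/
theorem nx_eq {j : K} {a b : Lo} (h : O.fam j b = O.fam j a) (h1 : O.key j a < O.key j b)
    (h2 : ∀ w, O.fam j w = O.fam j a → O.key j w ≤ O.key j a ∨ O.key j b ≤ O.key j w) :
    O.nx j (some a) = some b := by
  refine (O.hnx j (O.fam j a)).of_nx ⟨rfl, h, by simpa using h1, ?_⟩
  rintro (_ | w) hw
  · simp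
  · simpa using h2 w hw

/-- the last loop of the ring `true` -/
theorem nx_top {j : K} {a : Lo} (h : O.fam j a = true)
    (h2 : ∀ w, O.fam j w = true → O.key j w ≤ O.key j a) : O.nx j (some a) = none := by
  refine (O.hnx j true).of_nx ⟨h, rfl, by simp, ?_⟩
  rintro (_ | w) hw
  · simp
  · simpa using h2 w hw

/-- the first loop of the ring `true` -/
theorem nx_none {j : K} {b : Lo} (h : O.fam j b = true)
    (h2 : ∀ w, O.fam j w = true → O.key j b ≤ O.key j w) : O.nx j none = some b := by
  refine (O.hnx j true).last rfl h (by simp) ?_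
  rintro (_ | w) hw
  · simp
  · simpa using h2 w hw

/-- from the last to the first loop of the ring `false` -/
theorem nx_last {j : K} {a b : Lo} (h : O.fam j a = false) (h' : O.fam j b = false)
    (h1 : ∀ w, O.fam j w = false → O.key j w ≤ O.key j a)
    (h2 : ∀ w, O.fam j w = false → O.key j b ≤ O.key j w) : O.nx j (some a) = some b := by
  refine (O.hnx j false).last h h' ?_ ?_ <;> rintro (_ | w) hw
  · simp at hw
  · simpa using h1 w hw
  · simp
  · simpa using h2 w hw

theorem nx_A {j : K} {a : Lo} (h : O.fam j a = false) :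
    ∃ b, O.fam j b = false ∧ O.nx j (some a) = some b := by
  have := O.fo_nx j (some a)
  rcases e : O.nx j (some a) with _ | b <;> simp [e, h] at this
  exact ⟨b, this, rfl⟩

theorem hkey (j : K) : Cyc Set.univ (fun u => O.nx j (O.nu j u)) (O.uk j) := by
  refine Cyc.of_mono' (fun _ _ => trivial) ((O.nx j).injective.comp (O.nu j).injective).injOn
    (fun u => O.fo j (O.nu j u) = false ∧ ∀ w, O.fo j w = false → O.ok j w ≤ O.ok j (O.nu j u))
    (fun u _ => ?_) fun u _ v _ a b => (O.nu j).injective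
      (O.ok_inj j _ _ (a.1.trans b.1.symm) (le_antisymm (b.2 _ a.1) (a.2 _ b.1)))
  have A : ∀ y, O.fam j y = false → (∀ w, O.fo j w = false → O.ok j w ≤ O.ok j (some y)) ∨
      ∃ b, O.fam j b = false ∧ O.nx j (some y) = some b ∧ O.key j y < O.key j b := fun y h => by
    obtain ⟨b, b1, b2⟩ := O.nx_A h
    rcases (O.hnx j false).cases (u := some y) h with ⟨a, -⟩ | ⟨a, -⟩
    exacts [Or.inr ⟨b, b1, b2, by simpa [b2] using a⟩, Or.inl a]
  rcases u with _ | y
  · refine (A _ (O.famg j)).imp (fun a => by simpa [O.famg] using a) fun ⟨b, b1, b2, b3⟩ => ?_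
    simpa [b2, uk_ns, O.ak_A b1] using b3
  by_cases c : y = O.g j
  · subst c
    have := O.fo_nx j none
    rcases e : O.nx j none with _ | b <;> simp [e, uk_sn] at this ⊢
    simp [O.uk_AB (O.famg j) this]
  simp only [O.nu_ne c]
  cases h : O.fam j y
  · exact (A y h).imp (fun a => ⟨h, a⟩) fun ⟨b, b1, b2, b3⟩ => b2 ▸ (O.uk_AA h b1).2 b3
  · have a := ((O.hnx j true).succ (some y) h none rfl (by simp)).1
    have := O.fo_nx j (some y)
    rcases e : O.nx j (some y) with _ | b <;> simp [e, h] at a this ⊢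
    exacts [by simp [uk_sn, O.ak_B h], (O.uk_BB h this).2 a]

end

omit [Finite P] [Finite K] in
theorem hnu (j : K) (z : Lo) :
    Cyc {u | O.lo (inr (j, u)) = z} (O.nu j) fun u => O.lk (inr (j, u)) := by
  have k : ∀ u, O.lo (inr (j, O.nu j u)) = O.lo (inr (j, u)) := by
    rintro (_ | y)
    · simp
    by_cases c : y = O.g j
    exacts [by simp [c], by rw [O.nu_ne c]]
  refine Cyc.of_mono' (fun u hu => (k u).trans hu) (O.nu j).injective.injOn
    (fun u => O.lk (inr (j, O.nu j u)) ≤ O.lk (inr (j, u))) (fun u _ => le_or_gt _ _)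
    fun u hu v hv a b => ?_
  rcases O.lo_port.1 hu with rfl | ⟨rfl, rfl⟩ <;> rcases O.lo_port.1 hv with rfl | ⟨rfl, c⟩
  · rfl
  · subst c
    simpa using O.lki (inr (j, some (O.g j))) (inr (j, none)) rfl
      (le_antisymm (by simpa using b) (by simpa using a))
  · simpa using O.lki (inr (j, some (O.g j))) (inr (j, none)) rfl
      (le_antisymm (by simpa using a) (by simpa using b))
  · rfl

/-- the loops with their ports -/
noncomputable def ports : Ports P (Option Lo) K Lo (β ×ₗ ℕ ×ₗ β) γ :=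
  ⟨O.lo, O.lk, O.sc, O.hsc, fun j => O.nu j, O.hnu, fun _ a => ⟨some (O.lo a), rfl⟩, O.nx, O.uk,
    O.hkey⟩

/-- **The hinge machine.** -/
noncomputable def mac [DecidableEq K] : Mac P (Option Lo) K ((β ×ₗ ℕ ×ₗ β) ×ₗ ℕ ×ₗ γ) :=
  O.ports.mac

@[simp] theorem mac_sc [DecidableEq K] : O.mac.sc = O.sc := rfl
@[simp] theorem mac_nx [DecidableEq K] : O.mac.nx = O.nx := rfl
theorem mac_ep [DecidableEq K] : O.mac.ep = O.ports.ep := rfl

@[simp] theorem lo_sc (a : P ⊕ K × Option Lo) : O.lo (O.sc a) = O.lo a := (O.hsc _).mem a rfl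
@[simp] theorem lo_sc_symm (a : P ⊕ K × Option Lo) : O.lo (O.sc.symm a) = O.lo a := by
  rw [← O.lo_sc, Equiv.apply_symm_apply]

theorem sc_eq {a b : P ⊕ K × Option Lo} (h : O.lo b = O.lo a) (h1 : O.lk a < O.lk b)
    (h2 : ∀ w, O.lo w = O.lo a → O.lk w ≤ O.lk a ∨ O.lk b ≤ O.lk w) : O.sc a = b :=
  (O.hsc _).of_nx ⟨rfl, h, h1, h2⟩

theorem sc_last {a b : P ⊕ K × Option Lo} (h : O.lo b = O.lo a)
    (h1 : ∀ w, O.lo w = O.lo a → O.lk w ≤ O.lk a) (h2 : ∀ w, O.lo w = O.lo a → O.lk b ≤ O.lk w) :
    O.sc a = b := (O.hsc _).last rfl h h1 h2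

end Rings

end Pool.Agent.P.MP_439f1f_co
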