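import Pool.Agent.P.MP_439f1f_co.Mo5

/-!
The moat chapter for an arbitrary machine: everything is stated for one state, given by its cycle
on the hubs `P ⊕ Z` (payload hubs and system hubs).
-/

set_option autoImplicit false

namespace Pool.Agent.P.MP_439f1f_co

open Function Sum

variable {P Z β N : Type*} [LinearOrder β]

/-- One state: `nxt` is the reference head, `pos` the order of the cycle, `prv p` the line into the
payload hub `p`. -/
structure Sta (m : ℕ) (hang : P ⊕ Z → ℕ → Option (P ⊕ Z) → Prop) (tB : P ⊕ Z → Option (P ⊕ Z))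
    (hO : P → Option (P ⊕ Z)) (prv : P → P ⊕ Z) (nxt : Equiv.Perm (P ⊕ Z)) (pos : P ⊕ Z → β) :
    Prop where
  cyc : Cyc Set.univ nxt pos
  nprv : ∀ p, nxt (prv p) = inl p
  tl : ∀ L s, hang L 0 s ↔ s = some L ∨ s = tB L
  hp : ∀ p s, hang (prv p) m s → s = some (inl p) ∨ s = hO p
  hs : ∀ L q, hang L m (some (inl q)) → ∃ p, L = prv p
  ref : Ends m hang none none some fun L => some (nxt L)

/-- The moat of the node `u` in one state: its hubs come in the order `e p, .., e 0, e (r-1), ..,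
e (p+1)`, with no other payload hub between them. -/
structure MoatSt (tB : P ⊕ Z → Option (P ⊕ Z)) (hO : P → Option (P ⊕ Z)) (pos : P ⊕ Z → β)
    (r p : ℕ) (u : P) (e : ℕ → P) : Prop where
  odd : r % 2 = 1
  three : 3 ≤ r
  plt : p < r
  mono : ∀ n, n + 1 < r → pos (inl (e (el r p n))) < pos (inl (e (el r p (n + 1))))
  only : ∀ q, pos (inl (e p)) ≤ pos (inl q) → pos (inl q) ≤ pos (inl (e (el r p (r - 1)))) →
    ∃ i < r, q = e i
  une : ∀ i < r, u ≠ e i
  tBe : ∀ i < r, tB (inl (e i)) = some (inl (e (sc r i)))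
  tBo : ∀ i < r, ∀ L, tB L = some (inl (e i)) → L = inl (e i) ∨ L = inl (e (pr r i))
  hOu : hO u = some (inl (e 0))
  hOo : ∀ i < r, ∀ q, hO q = some (inl (e i)) → q = e i ∨ (i = 0 ∧ q = u)

/-- the node is the first payload hub after its moat -/
def Front (pos : P ⊕ Z → β) (r p : ℕ) (u : P) (e : ℕ → P) : Prop :=
  pos (inl (e (el r p (r - 1)))) < pos (inl u) ∧
    ∀ q, pos (inl (e (el r p (r - 1)))) < pos (inl q) → pos (inl u) ≤ pos (inl q)

/-- One token crosses the moat from the entry `e k` to `e q`: the only moved head is the head into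
`e k`, the moved tails are those of `e (k-1), .., e q` (cyclically), or all if `k = q`. -/
def Cross (prv : P → P ⊕ Z) (τ η : P ⊕ Z → Option (P ⊕ Z)) (r : ℕ) (e : ℕ → P) (k q : ℕ) : Prop :=
  k < r ∧ η (prv (e k)) ≠ some (inl (e k)) ∧
    (∀ i < r, i ≠ k → η (prv (e i)) = some (inl (e i))) ∧
    ((k = q ∧ ∀ i < r, τ (inl (e i)) ≠ some (inl (e i))) ∨
      (q ≤ k ∧ ∀ i < r, (τ (inl (e i)) ≠ some (inl (e i)) ↔ q ≤ i ∧ i < k)) ∨
      (k < q ∧ ∀ i < r, (τ (inl (e i)) ≠ some (inl (e i)) ↔ q ≤ i ∨ i < k)))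

/-- the line `L` is not broken, and only ends at payload hubs may have left the state -/
def Pcl (nxt : P ⊕ Z → P ⊕ Z) (L0 : P ⊕ Z) (τ η : P ⊕ Z → Option (P ⊕ Z)) (L : P ⊕ Z) : Prop :=
  L ≠ L0 ∧ (τ L = some L ∨ ∃ q, L = inl q) ∧ (η L = some (nxt L) ∨ ∃ q, nxt L = inl q)

/-- neither the gap nor the window touches the moat, or the lines from the moat up to the node -/
structure Cln (nxt : P ⊕ Z → P ⊕ Z) (pos : P ⊕ Z → β) (L0 : P ⊕ Z) (x y : Option (P ⊕ Z))
    (τ η : P ⊕ Z → Option (P ⊕ Z)) (r p : ℕ) (u : P) (e : ℕ → P) : Prop where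
  hx : ∀ i < r, x ≠ some (inl (e i))
  hy : ∀ i < r, y ≠ some (inl (e i))
  pc : ∀ L, pos (inl (e p)) ≤ pos L →
    (pos L < pos (inl (e (el r p (r - 1)))) ∨ (Front pos r p u e ∧ pos L < pos (inl u))) →
    Pcl nxt L0 τ η L

/-- A token can end in the set `V` of payload hubs: a gap hub or the source of a window. -/
def Snk (x y : Option (P ⊕ Z)) (τ : P ⊕ Z → Option (P ⊕ Z)) (V : P → Prop) : Prop :=
  ∃ q, V q ∧ (x = some (inl q) ∨ y = some (inl q) ∨ ∃ w, τ (inr w) = some (inl q))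

/-- `τ'` is `τ` with the tails of all rotated moats put back -/
structure Drt (r : ℕ) (e : N → ℕ → P) (τ τ' : P ⊕ Z → Option (P ⊕ Z)) : Prop where
  or : ∀ L, τ' L = τ L ∨ τ' L = some L
  out : ∀ L, (∀ n, ∀ i < r, L ≠ inl (e n i)) → τ' L = τ L
  rot : ∀ n, (∀ i < r, τ (inl (e n i)) ≠ some (inl (e n i))) →
    ∀ i < r, τ' (inl (e n i)) = some (inl (e n i))
  keep : ∀ n, (∃ i < r, τ (inl (e n i)) = some (inl (e n i))) →
    ∀ i < r, τ' (inl (e n i)) = τ (inl (e n i))

/-- the hubs of the moat from the port `p` on, then the node -/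
def mhb (r p : ℕ) (u : P) (e : ℕ → P) (n : ℕ) : P := if n < r then e (el r p n) else u

theorem mhb_lt {r p n : ℕ} {u : P} {e : ℕ → P} (h : n < r) : mhb r p u e n = e (el r p n) :=
  if_pos h

theorem mhb_r {r p : ℕ} {u : P} {e : ℕ → P} : mhb r p u e r = u := if_neg (lt_irrefl _)

variable {m : ℕ} {hang : P ⊕ Z → ℕ → Option (P ⊕ Z) → Prop} {tB : P ⊕ Z → Option (P ⊕ Z)}
  {hO : P → Option (P ⊕ Z)} {prv : P → P ⊕ Z} {nxt : Equiv.Perm (P ⊕ Z)} {pos : P ⊕ Z → β}
  {x y : Option (P ⊕ Z)} {τ τ' η : P ⊕ Z → Option (P ⊕ Z)} {L0 : P ⊕ Z} {r : ℕ}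

theorem Drt.not_rot {e : N → ℕ → P} (D : Drt r e τ τ') (hr : 0 < r) (n : N) :
    ∃ i < r, τ' (inl (e n i)) = some (inl (e n i)) := by
  by_cases h : ∃ i < r, τ (inl (e n i)) = some (inl (e n i))
  · obtain ⟨i, hi, a⟩ := id h
    exact ⟨i, hi, (D.keep n h i hi).trans a⟩
  · exact ⟨0, hr, D.rot n (fun i hi a => h ⟨i, hi, a⟩) 0 hr⟩

theorem Drt.stay {e : N → ℕ → P} (D : Drt r e τ τ') {L : P ⊕ Z} (h : τ L = some L) :
    τ' L = some L := (D.or L).elim (fun a => a.trans h) id

theorem Drt.pcl {e : N → ℕ → P} (D : Drt r e τ τ') {L : P ⊕ Z} (h : Pcl nxt L0 τ η L) :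
    Pcl nxt L0 τ' η L := ⟨h.1, h.2.1.imp D.stay id, h.2.2⟩

/-- if one tail is in place, the moved tails of an exit are those below the entry -/
theorem Cross.zero {e : ℕ → P} {k : ℕ} (A : Cross prv τ η r e k 0)
    (h : ∃ i < r, τ (inl (e i)) = some (inl (e i))) :
    ∀ i < r, (τ (inl (e i)) ≠ some (inl (e i)) ↔ i < k) := by
  rcases A.2.2.2 with a | a | a
  · obtain ⟨i, hi, b⟩ := h
    exact absurd b (a.2 i hi)
  · exact fun i hi => (a.2 i hi).trans (and_iff_right (Nat.zero_le _))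
  · omega

theorem Sta.eq_prv (A : Sta m hang tB hO prv nxt pos) {L : P ⊕ Z} {q : P} (h : nxt L = inl q) :
    L = prv q := nxt.injective (h.trans (A.nprv q).symm)

/-- **Flow of tokens**: an end left the set `V` of payload hubs, so a token ends in `V` or leaves
`V` along a second option. -/
theorem Sta.flow [Finite P] [Finite Z] (A : Sta m hang tB hO prv nxt pos)
    (h : Ends m hang x y τ η) {V : P → Prop} {q : P} (hq : V q)
    (hl : (∀ q', V q' → τ (inl q) ≠ some (inl q')) ∨ ∀ q', V q' → η (prv q) ≠ some (inl q')) :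
    Snk x y τ V ∨ ∃ p q', ¬V p ∧ V q' ∧
      ((τ (inl p) = some (inl q') ∧ tB (inl p) = some (inl q')) ∨
        (η (prv p) = some (inl q') ∧ hO p = some (inl q'))) := by
  obtain ⟨b, ⟨q', b1, b2⟩, b3⟩ : ∃ b : En (P ⊕ Z),
      b.hub x y τ η ∈ {s | ∃ q, V q ∧ s = some (inl q)} ∧
        b.hub none none some (fun L => some (nxt L)) ∉ {s | ∃ q, V q ∧ s = some (inl q)} := by
    rcases hl with hl | hl
    · exact h.in_of_out A.ref (.tl (inl q)) ⟨q, hq, rfl⟩ fun ⟨q', a, b⟩ => hl q' a b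
    · exact h.in_of_out A.ref (.hd (prv q)) ⟨q, hq, congrArg some (A.nprv q)⟩
        fun ⟨q', a, b⟩ => hl q' a b
  cases b with
  | lo => exact Or.inl ⟨q', b1, Or.inl b2⟩
  | hi => exact Or.inl ⟨q', b1, Or.inr (Or.inl b2)⟩
  | tl L =>
    rcases L with p | w
    · have a : ¬V p := fun a => b3 ⟨p, a, rfl⟩
      refine Or.inr ⟨p, q', a, b1, Or.inl ⟨b2, ?_⟩⟩
      rcases (A.tl _ _).1 (h.ht (inl p)) with d | d
      · obtain rfl : p = q' := by simpa using d.symm.trans b2
        exact absurd b1 a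
      · exact d.symm.trans b2
    · exact Or.inl ⟨q', b1, Or.inr (Or.inr ⟨w, b2⟩)⟩
  | hd L =>
    obtain ⟨p, rfl⟩ := A.hs L q' (b2 ▸ h.hh L)
    have a : ¬V p := fun a => b3 ⟨p, a, congrArg some (A.nprv p)⟩
    refine Or.inr ⟨p, q', a, b1, Or.inr ⟨b2, ?_⟩⟩
    rcases A.hp p _ (h.hh _) with d | d
    · obtain rfl : p = q' := by simpa using d.symm.trans b2
      exact absurd b1 a
    · exact d.symm.trans b2

namespace MoatSt

variable {p : ℕ} {u : P} {e : ℕ → P} (G : MoatSt tB hO pos r p u e)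

include G

theorem pos_mono {n k : ℕ} (h : n < k) (hk : k < r) :
    pos (inl (e (el r p n))) < pos (inl (e (el r p k))) := by
  induction k, h using Nat.le_induction with
  | base => exact G.mono n hk
  | succ k h ih => exact (ih (by omega)).trans (G.mono k hk)

theorem pos_le {n k : ℕ} (h : n ≤ k) (hk : k < r) :
    pos (inl (e (el r p n))) ≤ pos (inl (e (el r p k))) := by
  rcases h.eq_or_lt with rfl | h
  · exact le_rfl
  · exact (G.pos_mono h hk).le

theorem first_le {n : ℕ} (h : n < r) : pos (inl (e p)) ≤ pos (inl (e (el r p n))) := by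
  simpa only [el_zero] using G.pos_le (Nat.zero_le n) h

theorem mhb_p : mhb r p u e p = e 0 := by rw [mhb_lt G.plt, el_self]

theorem mhb_el {i : ℕ} (hi : i < r) : mhb r p u e (el r p i) = e i := by
  rw [mhb_lt (el_lt G.plt hi), el_el G.plt hi]

theorem ne_mhb (hx : ∀ i < r, x ≠ some (inl (e i))) :
    ∀ n < r, x ≠ some (inl (mhb r p u e n)) := fun n hn => by
  rw [mhb_lt hn]
  exact hx _ (el_lt G.plt hn)

theorem cross {n q : ℕ} (hq : q < r)
    (A : Moat.Arc τ η r (fun n => some (inl (mhb r p u e n))) (fun n => inl (mhb r p u e n))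
      (fun n => prv (mhb r p u e n)) n q) : Cross prv τ η r e (el r p n) (el r p q) := by
  have hp := G.plt
  obtain ⟨a1, a2, a3, a4⟩ := A
  refine ⟨el_lt hp a1, by simpa only [mhb_lt a1] using a2, fun i hi ne => ?_,
    arc_el (t := fun i => τ (inl (e i)) ≠ some (inl (e i))) hp a1 hq ?_⟩
  · have := a3 _ (el_lt hp hi) fun h => ne (by rw [← h, el_el hp hi])
    simpa only [G.mhb_el hi] using this
  · refine a4.imp (And.imp id fun h i hi => ?_) (Or.imp (And.imp id fun h i hi => ?_)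
      (And.imp id fun h i hi => ?_)) <;> simpa only [mhb_lt hi] using h i hi

theorem mid_of {L : P ⊕ Z} {n : ℕ} (hn : n < r)
    (h : rkey (pos (inl (e p))) (pos L) < rkey (pos (inl (e p))) (pos (inl (mhb r p u e n)))) :
    pos (inl (e p)) ≤ pos L ∧ pos L < pos (inl (e (el r p n))) := by
  rw [mhb_lt hn] at h
  have := (rkey_le (G.first_le hn)).1 h.le
  exact ⟨this.1, this.2.lt_of_ne fun l => h.ne (by rw [l])⟩

variable [Finite P] [Finite Z] (A : Sta m hang tB hO prv nxt pos)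

include A

theorem moat : Moat m hang (fun s => rkey (pos (inl (e p))) (pos (s.getD (inl u)))) some
    (fun L => some (nxt L)) r p (fun n => some (inl (mhb r p u e n))) (fun n => hO (e (el r p n)))
    (fun n => inl (mhb r p u e n)) fun n => prv (mhb r p u e n) := by
  have o := A.cyc.rot (inl (e p))
  have hp := G.plt
  have h3 := G.three
  refine ⟨G.odd, h3, hp, ?_, Option.some_injective _,
    (Option.some_injective _).comp nxt.injective, ⟨_, rfl⟩, fun n hn => ?_,
    fun _ _ => rfl, fun n _ => congrArg some (A.nprv _),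
    fun L _ h => ?_, fun n hn L h => ?_, fun n hn L h => ?_, fun n hn s h => ?_,
    fun n hn s h => ?_, fun n _ => (A.tl _ _).2 (Or.inl rfl)⟩
  · rintro _ ⟨a, rfl⟩ _ ⟨b, rfl⟩ h
    exact congrArg some (o.inj trivial trivial h)
  · have a1 := G.first_le hn
    refine rkey_lt.2 ?_
    simp only [Option.getD_some, mhb_lt hn]
    rcases (Nat.succ_le_of_lt hn).eq_or_lt with h | h
    · rw [show n + 1 = r from h, mhb_r]
      rcases lt_or_ge (pos (inl u)) (pos (inl (e p))) with l | l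
      · exact Or.inl ⟨a1, l⟩
      · refine Or.inr ⟨iff_of_false a1.not_gt l.not_gt, not_le.1 fun l' => ?_⟩
        obtain ⟨i, hi, b⟩ := G.only u l (l'.trans (G.pos_le (by omega) (by omega)))
        exact G.une i hi b
    · have a2 := G.mono n h
      rw [mhb_lt h]
      exact Or.inr ⟨iff_of_false a1.not_gt (a1.trans a2.le).not_gt, a2⟩
  · have := o.to_nx (u := L) trivial (o.succ L trivial _ trivial h).1
    exact ⟨⟨_, rfl⟩, ⟨_, rfl⟩, this.2.2.1, by
      rintro _ ⟨w, rfl⟩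
      exact this.2.2.2 w trivial⟩
  · simp only [mhb_lt (sc_lt' hn), el_sc hp hn, mhb_lt hn] at h ⊢
    exact ((A.tl _ _).1 h).elim (fun h => Or.inl (Option.some.inj h).symm)
      fun h => G.tBo _ (el_lt hp hn) L h.symm
  · simp only [mhb_lt hn, mhb_r] at h ⊢
    obtain ⟨q, rfl⟩ := A.hs L _ h
    rcases A.hp q _ h with h | h
    · exact Or.inl (by rw [inl_injective (Option.some.inj h)])
    · rcases G.hOo _ (el_lt hp hn) q h.symm with rfl | ⟨h1, rfl⟩
      · exact Or.inl rfl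
      · exact Or.inr ⟨by rw [← el_el hp hn, h1, el_zero], rfl⟩
  · simp only [mhb_lt (pr_lt' hn), el_pr hp hn, mhb_lt hn] at h ⊢
    rw [← G.tBe _ (el_lt hp hn)]
    exact (A.tl _ _).1 h
  · simp only [mhb_lt hn] at h ⊢
    exact A.hp _ _ h

/-- **No gap hub in the moat, no exit**: no entry, and all tails or no tail moved. -/
theorem idle (h : Ends m hang x y τ η) (hx : ∀ i < r, x ≠ some (inl (e i)))
    (hy : ∀ i < r, y ≠ some (inl (e i))) (he : η (prv u) ≠ some (inl (e 0))) :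
    (∀ i < r, η (prv (e i)) = some (inl (e i))) ∧
      ((∀ i < r, τ (inl (e i)) ≠ some (inl (e i))) ∨ ∀ i < r, τ (inl (e i)) = some (inl (e i))) := by
  have hp := G.plt
  obtain ⟨a, b⟩ := (G.moat A).idle h (G.ne_mhb hx) (G.ne_mhb hy)
    (by simpa only [mhb_r, G.mhb_p] using he)
  refine ⟨fun i hi => ?_, b.imp (fun b i hi => ?_) fun b i hi => ?_⟩
  · simpa only [G.mhb_el hi] using a _ (el_lt hp hi)
  · simpa only [G.mhb_el hi] using b _ (el_lt hp hi)
  · simpa only [G.mhb_el hi] using b _ (el_lt hp hi)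

/-- the lower gap hub is `e q` -/
theorem arc_x (h : Ends m hang x y τ η) {q : ℕ} (hq : q < r) (hx : x = some (inl (e q)))
    (hy : ∀ i < r, y ≠ some (inl (e i))) (he : η (prv u) ≠ some (inl (e 0))) :
    ∃ k, Cross prv τ η r e k q := by
  have hp := G.plt
  obtain ⟨n, B⟩ := (G.moat A).arc_x h (el_lt hp hq) (by rw [G.mhb_el hq, hx]) (G.ne_mhb hy)
    (by simpa only [mhb_r, G.mhb_p] using he)
  exact ⟨_, el_el hp hq ▸ G.cross (el_lt hp hq) B⟩

/-- the upper gap hub is `e q` -/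
theorem arc_y (h : Ends m hang x y τ η) {q : ℕ} (hq : q < r) (hy : y = some (inl (e q)))
    (hx : ∀ i < r, x ≠ some (inl (e i))) (he : η (prv u) ≠ some (inl (e 0))) :
    ∃ k, Cross prv τ η r e k q := G.arc_x A h.symm hq hy hx he

/-- exit, no gap hub in the moat -/
theorem arc_exit (h : Ends m hang x y τ η) (hx : ∀ i < r, x ≠ some (inl (e i)))
    (hy : ∀ i < r, y ≠ some (inl (e i))) (he : η (prv u) = some (inl (e 0))) :
    ∃ k, Cross prv τ η r e k 0 := by
  obtain ⟨n, B⟩ := (G.moat A).arc_exit h (G.ne_mhb hx) (G.ne_mhb hy)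
    (by simpa only [mhb_r, G.mhb_p] using he)
  exact ⟨_, el_self r p ▸ G.cross G.plt B⟩

/-- an exit needs an entry, wherever the gap is -/
theorem exit_entry (h : Ends m hang x y τ η) (he : η (prv u) = some (inl (e 0))) :
    ∃ k < r, η (prv (e k)) ≠ some (inl (e k)) := by
  obtain ⟨n, hn, B⟩ := (G.moat A).exit_entry h (by simpa only [mhb_r, G.mhb_p] using he)
  exact ⟨_, el_lt G.plt hn, by simpa only [mhb_lt hn] using B⟩

omit [Finite P] [Finite Z] in
theorem cl_of {L w : P ⊕ Z} (c : Pcl nxt L0 τ η L) (h1 : pos (inl (e p)) ≤ pos L)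
    (h2 : pos L < pos w) (h3 : ∀ q, pos (inl (e p)) ≤ pos (inl q) → pos (inl q) ≤ pos w →
      (∃ i < r, q = e i) ∨ (q = u ∧ w = inl u)) :
    Cl L0 τ η some (fun L => some (nxt L)) r (fun n => inl (mhb r p u e n))
      (fun n => prv (mhb r p u e n)) L := by
  have hp := G.plt
  refine ⟨c.1, c.2.1.imp id ?_, c.2.2.imp id ?_⟩
  · rintro ⟨q, rfl⟩
    rcases h3 q h1 h2.le with ⟨i, hi, rfl⟩ | ⟨rfl, rfl⟩
    · exact ⟨_, el_lt hp hi, by simp only [G.mhb_el hi]⟩
    · exact absurd h2 (lt_irrefl _)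
  · rintro ⟨q, hq⟩
    have s := A.cyc.succ L trivial w trivial h2
    rw [hq] at s
    rcases h3 q (h1.trans s.1.le) s.2 with ⟨i, hi, rfl⟩ | ⟨rfl, -⟩
    · exact ⟨_, (el_lt hp hi).le, by simp only [G.mhb_el hi, A.eq_prv hq]⟩
    · exact ⟨r, le_rfl, by simp only [mhb_r, A.eq_prv hq]⟩

/-- **Exit through a clean block**: a leak; the port is even, the entry class is larger. -/
theorem dead_exit (h : Ends m hang x y τ η) (c : Cn L0 x y τ η) (fr : Front pos r p u e)
    (cl : Cln nxt pos L0 x y τ η r p u e) (he : η (prv u) = some (inl (e 0))) :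
    ∃ k, p < k ∧ p % 2 = 0 ∧ Cross prv τ η r e k 0 := by
  have hp := G.plt
  obtain ⟨n, a1, a2, B⟩ := (G.moat A).dead_exit h c (G.ne_mhb cl.hx) (G.ne_mhb cl.hy)
    (by simpa only [mhb_r, G.mhb_p] using he) fun L _ b => by
      simp only [Option.getD_some, mhb_r] at b
      have l := (G.first_le (n := r - 1) (by omega)).trans fr.1.le
      have b1 := (rkey_le l).1 b.le
      have b2 : pos L < pos (inl u) := b1.2.lt_of_ne fun l => b.ne (by rw [l])
      refine G.cl_of A (cl.pc L b1.1 (Or.inr ⟨fr, b2⟩)) b1.1 b2 fun q d1 d2 => ?_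
      rcases le_or_gt (pos (inl q)) (pos (inl (e (el r p (r - 1))))) with d | d
      · exact Or.inl (G.only q d1 d)
      · exact Or.inr ⟨inl_injective (A.cyc.inj trivial trivial (le_antisymm d2 (fr.2 q d))), rfl⟩
  refine ⟨_, ?_, a2, el_self r p ▸ G.cross hp B⟩
  have := B.1
  unfold el
  split_ifs <;> omega

/-- **First gap of the line of `e i`** in normal form: the entry comes later than `e i` seen from
the port, or is `e i` at an odd position.  In particular it is not the class of the port. -/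
theorem first_gap {i : ℕ} (hi : i < r) (h : Ends m hang (tB (inl (e i))) y τ η)
    (c : Cn (inl (e i)) (tB (inl (e i))) y τ η) (ht : τ (inl (e i)) = some (inl (e i)))
    (hy : ∀ i < r, y ≠ some (inl (e i))) (he : η (prv u) ≠ some (inl (e 0)))
    (cl : ∀ L, pos (inl (e p)) ≤ pos L → pos L < pos (inl (e (el r p (r - 1)))) →
      L ≠ inl (e i) → Pcl nxt (inl (e i)) τ η L) :
    ∃ k, k ≠ p ∧ (el r p i < el r p k ∨ (k = i ∧ el r p i % 2 = 1)) ∧
      Cross prv τ η r e k (sc r i) := by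
  have hp := G.plt
  have h3 := G.three
  have hk := el_lt hp hi
  have q : el r p (pr r (el r p i)) = sc r i := by rw [el_pr hp hk, el_el hp hi]
  obtain ⟨n, a, B⟩ := (G.moat A).first_gap h hk (by simpa only [G.mhb_el hi] using c)
    (by simpa only [G.mhb_el hi] using ht) (by simp only [mhb_lt (pr_lt' hk), q, G.tBe i hi])
    (G.ne_mhb hy) (by simpa only [mhb_r, G.mhb_p] using he) fun L _ b ne => by
      have b := G.mid_of (by omega) b
      simp only [G.mhb_el hi] at ne ⊢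
      exact G.cl_of A (cl L b.1 b.2 ne) b.1 b.2 fun q d1 d2 => Or.inl (G.only q d1 d2)
  have hn := B.1
  refine ⟨el r p n, fun l => ?_, ?_, q ▸ G.cross (pr_lt' hk) B⟩
  · have : n = 0 := by rw [← el_el hp hn, l, el_self]
    omega
  · rw [el_el hp hn]
    exact a.imp id fun a => ⟨by rw [a.1, el_el hp hi], a.2⟩

end MoatSt

/-- the condition for derotation: outside one segment of the moat nothing else changed -/
def OneSeg (nxt : P ⊕ Z → P ⊕ Z) (pos : P ⊕ Z → β) (L0 : P ⊕ Z) (τ η : P ⊕ Z → Option (P ⊕ Z))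
    (r p : ℕ) (e : ℕ → P) : Prop :=
  ∃ i0, i0 + 1 < r ∧ ∀ L, pos (inl (e p)) ≤ pos L → pos L < pos (inl (e (el r p (r - 1)))) →
    (pos L < pos (inl (e (el r p i0))) ∨ pos (inl (e (el r p (i0 + 1)))) ≤ pos L) →
    L ≠ L0 ∧ η L = some (nxt L) ∧ (τ L = some L ∨ ∃ q, L = inl q)

namespace MoatSt

variable {p : ℕ} {u : P} {e : ℕ → P} (G : MoatSt tB hO pos r p u e) [Finite P] [Finite Z]
  (A : Sta m hang tB hO prv nxt pos)

include G A

omit [Finite P] [Finite Z] in
theorem head_of {L : P ⊕ Z} (h1 : pos (inl (e p)) ≤ pos L)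
    (h2 : pos L < pos (inl (e (el r p (r - 1))))) (c : η L = some (nxt L) ∨ ∃ q, nxt L = inl q)
    (h : ∀ i < r, nxt L = inl (e i) → η (prv (e i)) = some (inl (e i))) : η L = some (nxt L) :=
  c.elim id fun ⟨q, d⟩ => by
    have s := A.cyc.succ L trivial _ trivial h2
    rw [d] at s
    obtain ⟨i, hi, rfl⟩ := G.only q (h1.trans s.1.le) s.2
    rw [d, A.eq_prv d, h i hi d]

omit [Finite P] [Finite Z] in
/-- a rotated moat whose only entry is `e 0` -/
theorem seg_zero (rot : ∀ i < r, τ (inl (e i)) ≠ some (inl (e i))) {k : ℕ}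
    (B : Cross prv τ η r e k 0) (pc : ∀ L, pos (inl (e p)) ≤ pos L →
      pos L < pos (inl (e (el r p (r - 1)))) → Pcl nxt L0 τ η L) : OneSeg nxt pos L0 τ η r p e := by
  have h3 := G.three
  have hp := G.plt
  obtain ⟨k1, -, k2, k3⟩ := B
  obtain rfl : k = 0 := by
    rcases k3 with k3 | k3 | k3
    · exact k3.1
    · exact absurd ((k3.2 k k1).1 (rot k k1)).2 (lt_irrefl _)
    · omega
  refine ⟨p - 1, by omega, fun L a2 a3 a4 => ⟨(pc L a2 a3).1,
    G.head_of A a2 a3 (pc L a2 a3).2.2 fun i hi d => k2 i hi ?_, (pc L a2 a3).2.1⟩⟩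
  rintro rfl
  have s := fun w => A.cyc.succ L trivial w trivial
  rw [d, ← el_self r p] at s
  have s1 := (s _ a3).1
  rcases Nat.eq_zero_or_pos p with p0 | p0
  · subst p0
    exact absurd s1 a2.not_gt
  · rcases a4 with a4 | a4
    · exact absurd (G.pos_mono (by omega) hp) (s _ a4).2.not_gt
    · exact absurd ((G.pos_le (by omega) (by omega)).trans a4) s1.not_ge

/-- a rotated moat with a clean exit -/
theorem seg_exit (h : Ends m hang x y τ η) (rot : ∀ i < r, τ (inl (e i)) ≠ some (inl (e i)))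
    (he : η (prv u) = some (inl (e 0))) (cl : Cln nxt pos L0 x y τ η r p u e) :
    OneSeg nxt pos L0 τ η r p e :=
  let ⟨_, B⟩ := G.arc_exit A h cl.hx cl.hy he
  G.seg_zero A rot B fun L a b => cl.pc L a (Or.inl b)

/-- no token in the moat; all lines that are not calm lie in the segment `i0` -/
theorem seg_idle (h : Ends m hang x y τ η) (hx : ∀ i < r, x ≠ some (inl (e i)))
    (hy : ∀ i < r, y ≠ some (inl (e i))) (he : η (prv u) ≠ some (inl (e 0))) {i0 : ℕ}
    (hi : i0 + 1 < r) (pc : ∀ L, pos (inl (e p)) ≤ pos L →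
      pos L < pos (inl (e (el r p (r - 1)))) →
      (pos L < pos (inl (e (el r p i0))) ∨ pos (inl (e (el r p (i0 + 1)))) ≤ pos L) →
      Pcl nxt L0 τ η L) : OneSeg nxt pos L0 τ η r p e :=
  ⟨i0, hi, fun L a b c => ⟨(pc L a b c).1, G.head_of A a b (pc L a b c).2.2
    fun i hi _ => (G.idle A h hx hy he).1 i hi, (pc L a b c).2.1⟩⟩

/-- the same if only the broken line is not calm -/
theorem seg_calm (h : Ends m hang x y τ η) (hx : ∀ i < r, x ≠ some (inl (e i)))
    (hy : ∀ i < r, y ≠ some (inl (e i))) (he : η (prv u) ≠ some (inl (e 0)))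
    (pc : ∀ L, L ≠ L0 → Pcl nxt L0 τ η L) : OneSeg nxt pos L0 τ η r p e := by
  have h3 := G.three
  by_cases b : pos (inl (e p)) ≤ pos L0 ∧ pos L0 < pos (inl (e (el r p (r - 1))))
  · obtain ⟨i0, b1, b2, b3⟩ := Moat.find (κ := pos) (a := fun n => inl (e (el r p n)))
      (by simpa only [el_zero] using b.1) b.2
    refine G.seg_idle A h hx hy he (i0 := i0) (by omega) fun L _ _ a4 => pc L ?_
    rintro rfl
    exact a4.elim b2.not_gt b3.not_ge
  · refine G.seg_idle A h hx hy he (i0 := 0) (by omega) fun L a2 a3 _ => pc L ?_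
    rintro rfl
    exact b ⟨a2, a3⟩

/-- the same for a window: `W` is a set of hubs that meets the moat in one segment, and all lines
that neither start nor end in `W` are calm -/
theorem seg_win (h : Ends m hang x y τ η) (hx : ∀ i < r, x ≠ some (inl (e i)))
    (hy : ∀ i < r, y ≠ some (inl (e i))) (he : η (prv u) ≠ some (inl (e 0))) (W : P ⊕ Z → Prop)
    (pc : ∀ L, ¬W L → ¬W (nxt L) → Pcl nxt L0 τ η L) {i0 : ℕ} (hi : i0 + 1 < r)
    (hW : ∀ w, W w → pos (inl (e p)) ≤ pos w → pos w ≤ pos (inl (e (el r p (r - 1)))) →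
      pos (inl (e (el r p i0))) < pos w ∧ pos w < pos (inl (e (el r p (i0 + 1))))) :
    OneSeg nxt pos L0 τ η r p e := by
  refine G.seg_idle A h hx hy he hi fun L a2 a3 a4 => pc L (fun b => ?_) fun b => ?_
  · obtain ⟨d2, d3⟩ := hW L b a2 a3.le
    exact a4.elim d2.not_gt d3.not_ge
  · have s := fun w => A.cyc.succ L trivial w trivial
    obtain ⟨d2, d3⟩ := hW _ b (a2.trans (s _ a3).1.le) (s _ a3).2
    rcases a4 with a4 | a4
    · exact absurd d2 (s _ a4).2.not_gt
    · exact absurd ((s _ a3).1.trans d3) a4.not_gt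

end MoatSt

variable [Finite P] [Finite Z] {u : N → P} {e : N → ℕ → P} {p : N → ℕ}

/-- **Derotation**, general form. -/
theorem Sta.derot [Finite N] (A : Sta m hang tB hO prv nxt pos)
    (G : ∀ n, MoatSt tB hO pos r (p n) (u n) (e n))
    (dis : ∀ n n', ∀ i < r, ∀ j < r, e n i = e n' j → n = n')
    (h : Ends m hang x y τ η) (c : Cn L0 x y τ η)
    (cl : ∀ n, (∀ i < r, τ (inl (e n i)) ≠ some (inl (e n i))) →
      OneSeg nxt pos L0 τ η r (p n) (e n)) :
    ∃ τ', Ends m hang x y τ' η ∧ Cn L0 x y τ' η ∧ Drt r e τ τ' := by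
  have lt : ∀ n, ∀ i < r, el r (p n) i < r := fun n i hi => el_lt (G n).plt hi
  obtain ⟨τ', a1, a2, a3, a4, a5⟩ := derot_ex (fun n => (G n).moat A)
    (fun n n' i hi j hj b => dis n n' _ (lt n i hi) _ (lt n' j hj) (by
      simpa only [mhb_lt hi, mhb_lt hj, inl.injEq] using b)) h c fun n rot => by
      have h3 := (G n).three
      obtain ⟨i0, b1, b2⟩ := cl n fun i hi => by
        simpa only [(G n).mhb_el hi] using rot _ (lt n i hi)
      refine ⟨i0, b1, fun L hL => ?_⟩
      have k2 : pos (inl (e n (p n))) ≤ pos L ∧ pos L < pos (inl (e n (el r (p n) (r - 1)))) ∧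
          (pos L < pos (inl (e n (el r (p n) i0))) ∨
            pos (inl (e n (el r (p n) (i0 + 1)))) ≤ pos L) := by
        rcases hL with ⟨-, d⟩ | ⟨d1, d2⟩
        · have := (G n).mid_of (by omega) d
          exact ⟨this.1, this.2.trans_le ((G n).pos_le (by omega) (by omega)), Or.inl this.2⟩
        · have := (G n).mid_of (by omega) d2
          refine ⟨this.1, this.2, Or.inr ?_⟩
          simpa only [mhb_lt b1, Option.getD_some] using ((rkey_le this.1).1 d1).2
      obtain ⟨d1, d2, d3⟩ := b2 L k2.1 k2.2.1 k2.2.2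
      refine ⟨d1, d2, d3.imp id ?_⟩
      rintro ⟨q, rfl⟩
      obtain ⟨i, hi, rfl⟩ := (G n).only q k2.1 k2.2.1.le
      exact ⟨_, lt n i hi, by simp only [(G n).mhb_el hi]⟩
  refine ⟨τ', a1, a2, a3, fun L b => a4 L fun n i hi => ?_, fun n b i hi => ?_,
    fun n ⟨k, hk, b⟩ i hi => ?_⟩
  · rw [mhb_lt hi]
    exact b n _ (lt n i hi)
  · simpa only [(G n).mhb_el hi] using (a5 n).1
      (fun i hi => by simpa only [mhb_lt hi] using b _ (lt n i hi)) _ (lt n i hi)
  · simpa only [(G n).mhb_el hi] using (a5 n).2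
      ⟨_, lt n k hk, by simpa only [(G n).mhb_el hk] using b⟩ _ (lt n i hi)

/-- **Derotation, calm case** (first, middle and last gaps), all exits clean. -/
theorem Sta.derot_calm [Finite N] (A : Sta m hang tB hO prv nxt pos)
    (G : ∀ n, MoatSt tB hO pos r (p n) (u n) (e n))
    (dis : ∀ n n', ∀ i < r, ∀ j < r, e n i = e n' j → n = n')
    (h : Ends m hang x y τ η) (c : Cn L0 x y τ η) (hc : ∀ L, L ≠ L0 → Pcl nxt L0 τ η L)
    (hex : ∀ n, η (prv (u n)) = some (inl (e n 0)) → Cln nxt pos L0 x y τ η r (p n) (u n) (e n))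
    (hx : ∀ n, ∀ i < r, x = some (inl (e n i)) → ∃ i < r, τ (inl (e n i)) = some (inl (e n i)))
    (hy : ∀ n, ∀ i < r, y = some (inl (e n i)) → i = 0 ∧ L0 = prv (u n)) :
    ∃ τ', Ends m hang x y τ' η ∧ Cn L0 x y τ' η ∧ Drt r e τ τ' := by
  refine A.derot G dis h c fun n rot => ?_
  by_cases he : η (prv (u n)) = some (inl (e n 0))
  · exact (G n).seg_exit A h rot he (hex n he)
  have hx' : ∀ i < r, x ≠ some (inl (e n i)) := fun i hi a =>
    let ⟨i, hi, b⟩ := hx n i hi a
    rot i hi b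
  by_cases hy' : ∀ i < r, y ≠ some (inl (e n i))
  · exact (G n).seg_calm A h hx' hy' he hc
  · push Not at hy'
    obtain ⟨i, hi, hy'⟩ := hy'
    obtain ⟨rfl, b⟩ := hy n i hi hy'
    obtain ⟨k, B⟩ := (G n).arc_y A h hi hy' hx' he
    refine (G n).seg_zero A rot B fun L a1 a2 => hc L ?_
    rintro rfl
    have s := A.cyc.succ _ trivial _ trivial a2
    rw [b, A.nprv] at s
    obtain ⟨i, hi, d⟩ := (G n).only _ (a1.trans (b ▸ s.1.le)) s.2
    exact (G n).une i hi d

/-- **Derotation, window**: `W` is the set of the hubs of the system of the window. -/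
theorem Sta.derot_win [Finite N] (A : Sta m hang tB hO prv nxt pos)
    (G : ∀ n, MoatSt tB hO pos r (p n) (u n) (e n))
    (dis : ∀ n n', ∀ i < r, ∀ j < r, e n i = e n' j → n = n')
    (h : Ends m hang x y τ η) (c : Cn L0 x y τ η) (W : P ⊕ Z → Prop)
    (hb : ∀ L, ¬W L → ¬W (nxt L) → Pcl nxt L0 τ η L)
    (hW : ∀ n, ∃ i0, i0 + 1 < r ∧ ∀ w, W w → pos (inl (e n (p n))) ≤ pos w →
      pos w ≤ pos (inl (e n (el r (p n) (r - 1)))) →
      pos (inl (e n (el r (p n) i0))) < pos w ∧ pos w < pos (inl (e n (el r (p n) (i0 + 1)))))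
    (hex : ∀ n, η (prv (u n)) = some (inl (e n 0)) → Cln nxt pos L0 x y τ η r (p n) (u n) (e n))
    (hx : ∀ n, ∀ i < r, x ≠ some (inl (e n i))) (hy : ∀ n, ∀ i < r, y ≠ some (inl (e n i))) :
    ∃ τ', Ends m hang x y τ' η ∧ Cn L0 x y τ' η ∧ Drt r e τ τ' := by
  refine A.derot G dis h c fun n rot => ?_
  by_cases he : η (prv (u n)) = some (inl (e n 0))
  · exact (G n).seg_exit A h rot he (hex n he)
  · obtain ⟨i0, a, b⟩ := hW n
    exact (G n).seg_win A h (hx n) (hy n) he W hb a b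

/-- the token of an exit ends in the region of the node or takes an exit of the colour below -/
theorem Sta.exit_step (A : Sta m hang tB hO prv nxt pos)
    (G : ∀ n, MoatSt tB hO pos r (p n) (u n) (e n)) (h : Ends m hang x y τ η) (reg : P → ZMod 3)
    (rT : ∀ p q, tB (inl p) = some (inl q) → reg q = reg p)
    (rH : ∀ p q, hO p = some (inl q) → reg q = reg p ∨ ∃ n, p = u n)
    (rE : ∀ n, reg (e n 0) = reg (u n) + 1) (n : N) (he : η (prv (u n)) = some (inl (e n 0))) :
    (Snk x y τ fun q => reg q = reg (u n)) ∨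
      ∃ n', η (prv (u n')) = some (inl (e n' 0)) ∧ reg (u n') + 1 = reg (u n) := by
  have k1 : ∀ a : ZMod 3, a + 1 ≠ a := by decide
  refine (A.flow h (V := fun q => reg q = reg (u n)) (q := u n) rfl
    (Or.inr fun q' a b => ?_)).imp id ?_
  · obtain rfl : e n 0 = q' := by simpa using he.symm.trans b
    exact k1 _ ((rE n).symm.trans a)
  · rintro ⟨p, q', a1, a2, ⟨-, a3⟩ | ⟨a3, a4⟩⟩
    · exact absurd ((rT _ _ a3).symm.trans a2) a1
    · obtain ⟨n', rfl⟩ := (rH _ _ a4).resolve_left fun b => a1 (b.symm.trans a2)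
      obtain rfl : e n' 0 = q' := by simpa using (G n').hOu.symm.trans a4
      exact ⟨n', a3, (rE n').symm.trans a2⟩

/-- a clean exit has the colour `g0` -/
theorem Sta.exit_clean (A : Sta m hang tB hO prv nxt pos) {p : ℕ} {u : P} {e : ℕ → P}
    (G : MoatSt tB hO pos r p u e) (h : Ends m hang x y τ η) (c : Cn L0 x y τ η)
    (fr : Front pos r p u e) (hp : p + 1 = r ∨ p % 2 = 1)
    (cl : Cln nxt pos L0 x y τ η r p u e) : η (prv u) ≠ some (inl (e 0)) := fun he => by
  obtain ⟨k, d1, d2, d3⟩ := G.dead_exit A h c fr cl he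
  have := d3.1
  omega

/-- **Exit lemma.** -/
theorem Sta.exits (A : Sta m hang tB hO prv nxt pos)
    (G : ∀ n, MoatSt tB hO pos r (p n) (u n) (e n))
    (h : Ends m hang x y τ η) (c : Cn L0 x y τ η) (reg : P → ZMod 3) (g0 : ZMod 3)
    (rT : ∀ p q, tB (inl p) = some (inl q) → reg q = reg p)
    (rH : ∀ p q, hO p = some (inl q) → reg q = reg p ∨ ∃ n, p = u n)
    (rE : ∀ n, reg (e n 0) = reg (u n) + 1)
    (hg : ∀ n, reg (u n) ≠ g0 → Front pos r (p n) (u n) (e n) ∧ (p n + 1 = r ∨ p n % 2 = 1))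
    (hd : ∀ n, ¬Cln nxt pos L0 x y τ η r (p n) (u n) (e n) →
      ∀ g, Snk x y τ (fun q => reg q = g) → g = reg (u n) + 1)
    (hs : ∃ g, Snk x y τ fun q => reg q = g) (n : N)
    (he : η (prv (u n)) = some (inl (e n 0))) :
    Cln nxt pos L0 x y τ η r (p n) (u n) (e n) ∧ reg (u n) = g0 ∧
      (Snk x y τ fun q => reg q = g0) ∧ ∃ k, Cross prv τ η r (e n) k 0 ∧
        (Front pos r (p n) (u n) (e n) → p n < k ∧ p n % 2 = 0) := by
  have k1 : ∀ a : ZMod 3, a + 1 ≠ a := by decide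
  have st := A.exit_step G h reg rT rH rE
  have cl : ∀ n, η (prv (u n)) = some (inl (e n 0)) →
      Cln nxt pos L0 x y τ η r (p n) (u n) (e n) → reg (u n) = g0 := fun n he a =>
    by_contra fun b => A.exit_clean (G n) h c (hg n b).1 (hg n b).2 a he
  obtain ⟨g, hs⟩ := hs
  have k2 : ∀ a b c : ZMod 3, b + 1 = a → c + 1 = b →
      a ≠ a + 1 ∧ b ≠ a + 1 ∧ a + 1 ≠ b + 1 ∧ a + 1 ≠ c + 1 ∧ b ≠ c := by decide
  have all : ∀ n, η (prv (u n)) = some (inl (e n 0)) →
      Cln nxt pos L0 x y τ η r (p n) (u n) (e n) := fun n he => by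
    by_contra a
    have a0 := hd n a
    obtain ⟨n1, a1, a2⟩ := (st n he).resolve_left fun b => (k1 _).symm (a0 _ b)
    have k := fun c => k2 _ _ c a2
    obtain ⟨n2, a3, a4⟩ := (st n1 a1).resolve_left fun b =>
      (k (reg (u n1) - 1) (by ring)).2.1 (a0 _ b)
    have k := k _ a4
    have b1 : reg (u n1) = g0 := cl n1 a1 (by_contra fun b =>
      k.2.2.1 ((a0 g hs).symm.trans (hd n1 b g hs)))
    have b2 : reg (u n2) = g0 := cl n2 a3 (by_contra fun b =>
      k.2.2.2.1 ((a0 g hs).symm.trans (hd n2 b g hs)))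
    exact k.2.2.2.2 (b1.trans b2.symm)
  have a := all n he
  have b := cl n he a
  refine ⟨a, b, b ▸ (st n he).resolve_right fun ⟨n', d1, d2⟩ =>
    k1 _ (d2.trans (b.trans (cl n' d1 (all n' d1)).symm)), ?_⟩
  by_cases fr : Front pos r (p n) (u n) (e n)
  · obtain ⟨k, d1, d2, d3⟩ := (G n).dead_exit A h c fr a he
    exact ⟨k, d3, fun _ => ⟨d1, d2⟩⟩
  · obtain ⟨k, d⟩ := (G n).arc_exit A h a.hx a.hy he
    exact ⟨k, d, fun b => absurd b fr⟩

end Pool.Agent.P.MP_439f1f_co
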