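import Pool.Agent.P.MP_439f1f_co.Hm5
import Pool.Agent.P.MP_439f1f_co.B12
import Pool.Agent.P.MP_439f1f_co.Mo6

/-!
The hinge machine: positions, guards, ranks and tags; the interfaces to service and moats.
-/

set_option autoImplicit false

namespace Pool.Agent.P.MP_439f1f_co

open Function Sum

section fit
variable {P Y K β : Type*} [LinearOrder β] [DecidableEq K] [Finite P] [Finite Y] [Finite K]
  [Nonempty Y] {O : Mac P Y K β} {m : ℕ}
  {hang : P ⊕ K × Y × Fin 3 → ℕ → Option (P ⊕ K × Y × Fin 3) → Prop}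
  {tB : P ⊕ K × Y × Fin 3 → Option (P ⊕ K × Y × Fin 3)} {hO : P → Option (P ⊕ K × Y × Fin 3)}

/-- the reference order of a state for the service checks -/
theorem Mac.Fit.lref (F : O.Fit m hang tB hO) (j0 : K) {R0 : Set (P ⊕ K × Y × Fin 3)}
    {en : P ⊕ K × Y × Fin 3 → P ⊕ K × Y × Fin 3} (lt : ∀ r ∈ R0, O.pos j0 r < O.pos j0 (en r))
    (dis : ∀ r ∈ R0, ∀ s ∈ R0, O.pos j0 r < O.pos j0 s → O.pos j0 (en r) < O.pos j0 s) :
    LRef m hang none some (O.nxt j0) (O.pos j0) R0 en :=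
  ⟨O.cyc j0, by rintro (_ | s); exacts [Or.inl rfl, Or.inr ⟨s, rfl⟩], F.ref j0, lt, dis⟩

/-- a state for the moat chapter -/
theorem Mac.Fit.sta (F : O.Fit m hang tB hO) (j0 : K) :
    Sta m hang tB hO (fun p => O.dA.symm (inl p)) (O.nxt j0) (O.pos j0) :=
  ⟨O.cyc j0, fun _ => O.nxt_pay (O.dA.apply_symm_apply _), F.tl,
    fun p s => (F.hp _ p s (O.dA.apply_symm_apply _)).1,
    fun L q h => (O.pay_or_sl L).elim (fun ⟨p, a⟩ => ⟨p, O.dA.eq_symm_apply.2 a⟩)
      fun ⟨j, e, a⟩ => absurd ((F.hs j e (some (inl q))).1 (a ▸ h)) (by simp), F.ref j0⟩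

end fit

section rank
variable {Y β : Type*} [LinearOrder β]

/-- If a cyclic order consists of consecutive blocks of `M + 1` elements, then the place in the
block increases by one. -/
theorem Cyc.rank' {Y0 β0 : Type*} [LinearOrder β0] {D : Set Y} {s : Y → Y} {key : Y → β} {M : ℕ}
    (o : Cyc D s key) (b : Y → Y0) (ρ : Y → Fin (M + 1)) (k0 : Y0 → β0)
    (hk : ∀ z ∈ D, ∀ z' ∈ D, key z < key z' ↔ k0 (b z) < k0 (b z') ∨ (b z = b z' ∧ ρ z < ρ z'))
    (sur : ∀ z ∈ D, ∀ i, ∃ z' ∈ D, b z' = b z ∧ ρ z' = i) {z : Y} (hz : z ∈ D) :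
    ρ (s z) = ρ z + 1 := by
  have hs := o.mem z hz
  by_cases h : ρ z = Fin.last M
  · obtain ⟨w, w0, w1, w2⟩ := sur (s z) hs 0
    rw [h, Fin.last_add_one]
    by_contra c
    have c1 : key w < key (s z) := (hk _ w0 _ hs).2 (Or.inr ⟨w1, by
      rw [w2]; exact (Fin.pos_iff_ne_zero' _).2 c⟩)
    rcases o.cases hz with ⟨a1, a2⟩ | ⟨-, a2⟩
    · have a3 := (a2 w w0).resolve_right (not_le.2 c1)
      have a4 := (hk _ hz _ w0).not.1 (not_lt.2 a3)
      rcases (hk _ hz _ hs).1 a1 with d | d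
      · exact a4 (Or.inl (w1 ▸ d))
      · exact absurd (h ▸ d.2) (not_lt.2 (Fin.le_last _))
    · exact absurd (a2 w w0) (not_le.2 c1)
  · obtain ⟨w, w0, w1, w2⟩ := sur z hz (ρ z + 1)
    have v : ((ρ z + 1 : Fin (M + 1)) : ℕ) = ρ z + 1 := by rw [Fin.val_add_one, if_neg h]
    have lt : ρ z < ρ z + 1 := by rw [Fin.lt_def, v]; omega
    rw [← w2, o.of_nx ⟨hz, w0, (hk z hz w w0).2 (Or.inr ⟨w1.symm, w2 ▸ lt⟩), fun u hu => ?_⟩]
    by_contra c
    push Not at c
    have c1 := (hk _ hz _ hu).1 c.1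
    have c2 := (hk _ hu _ w0).1 c.2
    rw [w1, w2] at c2
    rcases c1 with c1 | c1 <;> rcases c2 with c2 | c2
    · exact lt_asymm c1 c2
    · exact absurd c1 (by rw [c2.1]; exact lt_irrefl _)
    · exact absurd c2 (by rw [c1.1]; exact lt_irrefl _)
    · have a := c1.2
      have b := c2.2
      rw [Fin.lt_def] at a b
      omega

/-- the index of a head on the cycle `bt`: `3 n`, `3 n - 5`, `3 n - 1` -/
def gtag {R : Type*} [CommRing R] (r : Y → R) (e : Y × Fin 3) : R :=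
  r e.1 + if e.2 = 0 then 0 else if e.2 = 1 then -5 else -1

section
variable {R : Type*} [CommRing R] {s : Equiv.Perm Y} {r : Y → R}

@[simp] theorem gtag_0 (y : Y) : gtag r (y, 0) = r y := by simp [gtag]
@[simp] theorem gtag_1 (y : Y) : gtag r (y, 1) = r y - 5 := by simp [gtag, sub_eq_add_neg]
@[simp] theorem gtag_2 (y : Y) : gtag r (y, 2) = r y - 1 := by simp [gtag, sub_eq_add_neg]

theorem gtag_bt (h : ∀ z, r (s z) = r z + 3) (e : Y × Fin 3) :
    gtag r (bt s e) = gtag r e + 1 := by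
  obtain ⟨z, i⟩ := e
  obtain ⟨z, rfl⟩ := s.surjective z
  have r0 : i = 0 ∨ i = 1 ∨ i = 2 := by
    revert i
    decide
  rcases r0 with rfl | rfl | rfl <;> simp [h] <;> ring

theorem gtag_pow (h : ∀ z, r (s z) = r z + 3) (e : Y × Fin 3) (n : ℕ) :
    gtag r ((bt s ^ n) e) = gtag r e + n := by
  induction n with
  | zero => simp
  | succ n ih => rw [pow_succ', Equiv.Perm.mul_apply, gtag_bt h, ih]; push_cast; ring

theorem gtag_inv_pow (h : ∀ z, r (s z) = r z + 3) (e : Y × Fin 3) (n : ℕ) :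
    gtag r (((bt s)⁻¹ ^ n) e) = gtag r e - n := by
  have := gtag_pow h (((bt s)⁻¹ ^ n) e) n
  rw [show (bt s ^ n) (((bt s)⁻¹ ^ n) e) = e by simp] at this
  rw [this]
  ring

end

/-- three times the place in a block -/
def tri {M : ℕ} (a : Fin (M + 1)) : ZMod (3 * (M + 1)) := 3 * ((a : ℕ) : ZMod (3 * (M + 1)))

theorem tri_succ {M : ℕ} (a : Fin (M + 1)) : tri (a + 1) = tri a + 3 := by
  rw [tri, tri, Fin.val_add_one]
  split_ifs with h
  · have := ZMod.natCast_self (3 * (M + 1))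
    rw [h, Fin.val_last]
    push_cast at this ⊢
    linear_combination -this
  · push_cast
    ring

end rank

variable {P Lo K β γ : Type*} [LinearOrder β] [LinearOrder γ]

namespace Rings

variable (O : Rings P Lo K β γ) [Finite P] [Finite Lo] [Finite K]

/-! ### positions of elements -/

/-- the port at which the unit of `a` starts in the state `j` -/
noncomputable def st (j : K) (a : P ⊕ K × Option Lo) : Option Lo := O.ports.st j a

@[simp] theorem st_self (j : K) (u : Option Lo) : O.st j (inr (j, u)) = u := O.ports.st_self j u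

@[simp] theorem lo_st (j : K) (a : P ⊕ K × Option Lo) : O.lo (inr (j, O.st j a)) = O.lo a :=
  (O.ports.st_spec j a).1

theorem st_ne {j : K} {a : P ⊕ K × Option Lo} (h : O.lo a ≠ O.g j) : O.st j a = some (O.lo a) :=
  (O.lo_port.1 (O.lo_st j a)).resolve_right fun c => h c.2

/-- `0` after the port of the stage `j`, `1` before it -/
noncomputable def ph (j : K) (a : P ⊕ K × Option Lo) : ℕ :=
  if O.lk (inr (j, O.st j a)) ≤ O.lk a then 0 else 1

theorem ph_ne {j : K} {a : P ⊕ K × Option Lo} (h : O.lo a ≠ O.g j) :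
    O.ph j a = if O.lk (inr (j, some (O.lo a))) ≤ O.lk a then 0 else 1 := by rw [ph, O.st_ne h]

@[simp] theorem ph_self (j : K) (u : Option Lo) : O.ph j (inr (j, u)) = 0 := by simp [ph]

omit [Finite P] [Finite K] in
theorem uk_inj (j : K) : Injective (O.uk j) := fun _ _ e => (O.hkey j).inj trivial trivial e

variable [DecidableEq K]

theorem ep_eq (j : K) (a : P ⊕ K × Option Lo) :
    O.mac.ep j a = toLex (O.uk j (O.st j a), toLex (O.ph j a, O.lk a)) := rfl

/-- **The order of the elements**: by units, and inside a unit cyclically from the port. -/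
theorem ep_lt {j : K} {a b : P ⊕ K × Option Lo} : O.mac.ep j a < O.mac.ep j b ↔
    O.uk j (O.st j a) < O.uk j (O.st j b) ∨ (O.st j a = O.st j b ∧
      (O.ph j a < O.ph j b ∨ (O.ph j a = O.ph j b ∧ O.lk a < O.lk b))) := by
  simp only [ep_eq, Prod.Lex.toLex_lt_toLex, (O.uk_inj j).eq_iff]

theorem ep_lt' {j : K} {a b : P ⊕ K × Option Lo} (ha : O.lo a ≠ O.g j) (hb : O.lo b ≠ O.g j) :
    O.mac.ep j a < O.mac.ep j b ↔ O.uk j (some (O.lo a)) < O.uk j (some (O.lo b)) ∨
      (O.lo a = O.lo b ∧ (O.ph j a < O.ph j b ∨ (O.ph j a = O.ph j b ∧ O.lk a < O.lk b))) := by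
  rw [ep_lt, O.st_ne ha, O.st_ne hb, Option.some_inj]

theorem ep_lt_of_ak {j : K} {a b : P ⊕ K × Option Lo}
    (h : O.ak j (O.lo a) < O.ak j (O.lo b)) : O.mac.ep j a < O.mac.ep j b :=
  O.ep_lt.2 (Or.inl (Prod.Lex.lt_iff.2 (Or.inl (by rwa [uk_fst, uk_fst, lo_st, lo_st]))))

theorem ak_le_of_ep {j : K} {a b : P ⊕ K × Option Lo} (h : O.mac.ep j a ≤ O.mac.ep j b) :
    O.ak j (O.lo a) ≤ O.ak j (O.lo b) := not_lt.1 fun c => absurd (O.ep_lt_of_ak c) (not_lt.2 h)

/-- two loops of one ring -/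
theorem ep_lt_of_key {j : K} {a b : P ⊕ K × Option Lo} (f : O.fam j (O.lo a) = O.fam j (O.lo b))
    (h : O.key j (O.lo a) < O.key j (O.lo b)) : O.mac.ep j a < O.mac.ep j b := by
  cases c : O.fam j (O.lo a)
  · exact O.ep_lt_of_ak (by rwa [O.ak_A c, O.ak_A (f ▸ c)])
  · exact (O.ep_lt' (O.ne_g c) (O.ne_g (f ▸ c))).2 (Or.inl ((O.uk_same f).2 h))

theorem key_le_of_ep {j : K} {a b : P ⊕ K × Option Lo} (f : O.fam j (O.lo a) = O.fam j (O.lo b))
    (h : O.mac.ep j a ≤ O.mac.ep j b) : O.key j (O.lo a) ≤ O.key j (O.lo b) :=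
  not_lt.1 fun c => absurd (O.ep_lt_of_key f.symm c) (not_lt.2 h)

/-- an element of the ring `false` before or after the excursion -/
theorem ep_AB {j : K} {a b : P ⊕ K × Option Lo} (ha : O.lo a ≠ O.g j)
    (fa : O.fam j (O.lo a) = false) (fb : O.fam j (O.lo b) = true) :
    O.mac.ep j a < O.mac.ep j b ↔ O.key j (O.lo a) < O.key j (O.g j) := by
  have n : O.lo a ≠ O.lo b := fun e => by simp [e, fb] at fa
  rw [O.ep_lt' ha (O.ne_g fb), O.uk_AB fa fb, or_iff_left fun c => n c.1]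
  exact ⟨fun c => lt_of_le_of_ne c fun e => ha (O.keyi j _ _ (fa.trans (O.famg j).symm) e),
    le_of_lt⟩

theorem ep_BA {j : K} {a b : P ⊕ K × Option Lo} (hb : O.lo b ≠ O.g j)
    (fa : O.fam j (O.lo a) = true) (fb : O.fam j (O.lo b) = false) :
    O.mac.ep j a < O.mac.ep j b ↔ O.key j (O.g j) < O.key j (O.lo b) := by
  have n : O.lo a ≠ O.lo b := fun e => by simp [e, fb] at fa
  rw [O.ep_lt' (O.ne_g fa) hb, O.uk_BA fa fb, or_iff_left fun c => n c.1]

/-- between two elements of the ring `true` there are only elements of this ring -/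
theorem fam_between {j : K} {a b c : P ⊕ K × Option Lo} (fa : O.fam j (O.lo a) = true)
    (fc : O.fam j (O.lo c) = true) (h1 : O.mac.ep j a ≤ O.mac.ep j b)
    (h2 : O.mac.ep j b ≤ O.mac.ep j c) : O.fam j (O.lo b) = true := by
  have k : ∀ {u v}, O.mac.ep j u ≤ O.mac.ep j v → ¬O.uk j (O.st j v) < O.uk j (O.st j u) :=
    fun h d => absurd (O.ep_lt.2 (Or.inl d)) (not_lt.2 h)
  have k1 := k h1
  have k2 := k h2
  rw [O.st_ne (O.ne_g fa)] at k1
  rw [O.st_ne (O.ne_g fc)] at k2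
  by_contra n
  rw [Bool.not_eq_true] at n
  rcases O.lo_port.1 (O.lo_st j b) with e | ⟨e, -⟩ <;> rw [e] at k1 k2
  · rw [O.uk_AB n fa] at k1
    rw [O.uk_BA fc n] at k2
    exact k2 (not_le.1 k1)
  · exact k2 (O.uk_sn.2 (O.ak_B fc).le)

/-- two elements of one loop, both after or both before the port -/
theorem ep_lt_iff {j : K} {a b : P ⊕ K × Option Lo} (ha : O.lo a ≠ O.g j) (h : O.lo a = O.lo b)
    (p : O.ph j a = O.ph j b) : O.mac.ep j a < O.mac.ep j b ↔ O.lk a < O.lk b := by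
  simp [O.ep_lt' ha (h ▸ ha), h, p]

/-! ### positions of hubs -/

/-- the unit in which a hub is visited in the state `j` -/
noncomputable def un (j : K) (h : P ⊕ K × Option Lo × Fin 3) : Option Lo := O.st j (O.mac.el j h)

theorem un_l {j : K} {p : P} (h : O.lp p ≠ O.g j) : O.un j (inl p) = some (O.lp p) := O.st_ne h
@[simp] theorem un_2 (j : K) (u : Option Lo) : O.un j (inr (j, u, 2)) = u := by simp [un]
@[simp] theorem un_0 (j : K) (u : Option Lo) : O.un j (inr (j, u, 0)) = (O.nx j).symm u := by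
  simp [un]
@[simp] theorem un_1 (j : K) (u : Option Lo) : O.un j (inr (j, u, 1)) = (O.nx j).symm u := by
  simp [un]
theorem un_ne {j j' : K} (c : j' ≠ j) {y : Lo} (h : y ≠ O.g j) (r : Fin 3) :
    O.un j (inr (j', some y, r)) = some y := by
  rw [un, O.mac.el_ne c]
  exact O.st_ne h

theorem pos_lt_of_uk {j : K} {u v : P ⊕ K × Option Lo × Fin 3}
    (h : O.uk j (O.un j u) < O.uk j (O.un j v)) : O.mac.pos j u < O.mac.pos j v :=
  O.mac.pos_lt_of_ep (O.ep_lt.2 (Or.inl h))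

theorem uk_le_of_pos {j : K} {u v : P ⊕ K × Option Lo × Fin 3}
    (h : O.mac.pos j u ≤ O.mac.pos j v) : O.uk j (O.un j u) ≤ O.uk j (O.un j v) :=
  not_lt.1 fun c => absurd (O.pos_lt_of_uk c) (not_lt.2 h)

/-! ### guards -/

omit [DecidableEq K] in
/-- in a loop without payload and without second ports the port `b` follows the port `a` if these
are the first two -/
theorem sc_pure {y : Lo} (hy : ∀ p, O.lp p ≠ y) (hg : ∀ j, O.g j ≠ y) {a b : K}
    (h1 : O.lk (inr (a, some y)) < O.lk (inr (b, some y)))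
    (h2 : ∀ j, j ≠ a → j ≠ b → O.lk (inr (b, some y)) ≤ O.lk (inr (j, some y))) :
    O.sc (inr (a, some y)) = inr (b, some y) := by
  refine O.sc_eq rfl h1 ?_
  rintro (p | ⟨j, _ | z⟩) h
  · exact absurd h (hy p)
  · exact absurd h (hg j)
  obtain rfl : z = y := h
  by_cases c : j = a
  · exact Or.inl (c ▸ le_rfl)
  by_cases d : j = b
  exacts [Or.inr (d ▸ le_rfl), Or.inr (h2 j c d)]

omit [DecidableEq K] in
theorem pure_sc {y : Lo} (hy : ∀ p, O.lp p ≠ y) (hg : ∀ j, O.g j ≠ y) (j : K) :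
    ∃ j', O.sc (inr (j, some y)) = inr (j', some y) := by
  have := O.lo_sc (inr (j, some y))
  rcases h : O.sc (inr (j, some y)) with p | ⟨j', _ | z⟩ <;> rw [h] at this
  exacts [absurd this (hy p), absurd this (hg j'), ⟨j', by rw [show z = y from this]⟩]

/-- **Guards.**  Loops `ι (j, j', b, q, s)` without payload and without second ports, on the ring
`b` of the stage `j` and on the ring `false` of all other stages.  The ports of the loop with
`s = false` start with `j, j'`, with `s = true` with `j', j`; the two loops are neighbours in the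
stages `j` and `j'`, `true` first in the stage `j`, `false` first in the stage `j'`. -/
theorem sync [Nonempty K] (ι : K × K × Bool × Fin 6 × Bool → Lo) (hι : Injective ι)
    (np : ∀ p z, O.lp p ≠ ι z) (ng : ∀ j z, O.g j ≠ ι z)
    (f1 : ∀ j j' b q s, O.fam j (ι (j, j', b, q, s)) = b)
    (f2 : ∀ j j' b q s i, i ≠ j → O.fam i (ι (j, j', b, q, s)) = false)
    (k1 : ∀ j j' b q s y, j ≠ j' → y = ι (j, j', b, q, s) →
      O.lk (inr (cond s j' j, some y)) < O.lk (inr (cond s j j', some y)) ∧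
        ∀ i, i ≠ j → i ≠ j' → O.lk (inr (cond s j j', some y)) ≤ O.lk (inr (i, some y)))
    (k2 : ∀ j j' b q s i y y', j ≠ j' → i = cond s j j' → y = ι (j, j', b, q, s) →
      y' = ι (j, j', b, q, !s) → O.key i y < O.key i y' ∧
        ∀ w, O.fam i w = O.fam i y → O.key i w ≤ O.key i y ∨ O.key i y' ≤ O.key i w) :
    O.mac.Sync := by
  obtain ⟨j0⟩ := ‹Nonempty K›
  have inj : ∀ j j' b s, Injective fun q => some (ι (j, j', b, q, s)) := fun _ _ _ _ _ _ h => by
    simpa using hι (Option.some.inj h)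
  refine ⟨O.fo, O.fo_nx, fun j y y' h => (O.hnx j _).one' h rfl,
    ⟨_, inj j0 j0 false false, fun q j => ⟨?_, O.pure_sc (np · _) (ng · _) j⟩⟩,
    fun i => ⟨_, inj i i true false, fun q => ⟨f1 .., O.pure_sc (np · _) (ng · _)⟩⟩,
    fun j j' b h => ⟨_, inj j j' b false, fun q => ?_⟩⟩
  · by_cases c : j = j0
    exacts [c ▸ f1 .., f2 _ _ _ _ _ _ c]
  have a1 := k2 j j' b q false j' _ _ h rfl rfl rfl
  have a2 := k2 j j' b q true j _ _ h rfl rfl rfl
  have a3 := k1 j j' b q false _ h rfl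
  have a4 := k1 j j' b q true _ h rfl
  simp only [mac_nx, mac_sc, O.nx_eq (by rw [f2 _ _ _ _ _ _ h.symm, f2 _ _ _ _ _ _ h.symm])
    a1.1 a1.2]
  exact ⟨f1 .., f2 _ _ _ _ _ _ h.symm, O.nx_eq (by rw [f1, f1]) a2.1 a2.2,
    O.sc_pure (np · _) (ng · _) a3.1 a3.2,
    O.sc_pure (np · _) (ng · _) a4.1 fun i a b => a4.2 i b a⟩

end Rings

end Pool.Agent.P.MP_439f1f_co
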