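import Pool.Agent.P.MP_439f1f_co.Hm6

/-!
The hinge machine built from blocks of four loops: payload blocks, one hinge block per stage, guard
blocks, and three more loops at the end of every ring `true`.
-/

set_option autoImplicit false

namespace Pool.Agent.P.MP_439f1f_co

open Function Sum

namespace Rings

variable {P Lo K β γ : Type*} [LinearOrder β] [LinearOrder γ] (O : Rings P Lo K β γ) [Finite P]
  [Finite Lo] [Finite K] [DecidableEq K]

/-- the guards, with the rings named -/
theorem rng [Nonempty K] (ι : K × K × Bool × Fin 6 × Bool → Lo) (hι : Injective ι)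
    (np : ∀ p z, O.lp p ≠ ι z) (ng : ∀ j z, O.g j ≠ ι z)
    (f1 : ∀ j j' b q s, O.fam j (ι (j, j', b, q, s)) = b)
    (f2 : ∀ j j' b q s i, i ≠ j → O.fam i (ι (j, j', b, q, s)) = false)
    (k1 : ∀ j j' b q s y, j ≠ j' → y = ι (j, j', b, q, s) →
      O.lk (inr (cond s j' j, some y)) < O.lk (inr (cond s j j', some y)) ∧
        ∀ i, i ≠ j → i ≠ j' → O.lk (inr (cond s j j', some y)) ≤ O.lk (inr (i, some y)))
    (k2 : ∀ j j' b q s i y y', j ≠ j' → i = cond s j j' → y = ι (j, j', b, q, s) →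
      y' = ι (j, j', b, q, !s) → O.key i y < O.key i y' ∧
        ∀ w, O.fam i w = O.fam i y → O.key i w ≤ O.key i y ∨ O.key i y' ≤ O.key i w) :
    O.mac.Rng O.fo := by
  obtain ⟨j0⟩ := ‹Nonempty K›
  have inj : ∀ j j' b s, Injective fun q => some (ι (j, j', b, q, s)) := fun _ _ _ _ _ _ h => by
    simpa using hι (Option.some.inj h)
  refine ⟨O.fo_nx, fun j y y' h => (O.hnx j _).one' h rfl,
    ⟨_, inj j0 j0 false false, fun q j => ⟨?_, O.pure_sc (np · _) (ng · _) j⟩⟩,
    fun i => ⟨_, inj i i true false, fun q => ⟨f1 .., O.pure_sc (np · _) (ng · _)⟩⟩,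
    fun j j' b h => ⟨_, inj j j' b false, fun q => ?_⟩⟩
  · by_cases c : j = j0
    exacts [c ▸ f1 .., f2 _ _ _ _ _ _ c]
  have a1 := k2 j j' b q false j' _ _ h rfl rfl rfl
  have a2 := k2 j j' b q true j _ _ h rfl rfl rfl
  have a3 := k1 j j' b q false _ h rfl
  have a4 := k1 j j' b q true _ h rfl
  simp only [mac_nx, mac_sc, O.nx_eq (by rw [f2 _ _ _ _ _ _ h.symm, f2 _ _ _ _ _ _ h.symm])
    a1.1 a1.2]
  exact ⟨f1 .., f2 _ _ _ _ _ _ h.symm, O.nx_eq (by rw [f1, f1]) a2.1 a2.2,
    O.sc_pure (np · _) (ng · _) a3.1 a3.2,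
    O.sc_pure (np · _) (ng · _) a4.1 fun i a b => a4.2 i b a⟩

/-- a line and its cold head lie in one loop -/
@[simp] theorem lo_dA (h : P ⊕ K × Option Lo × Fin 3) : O.lo (elt (O.mac.dA h)) = O.lo (elt h) := by
  rcases h with p | ⟨j, y, r⟩
  · simp [Mac.dA_l]
  · fin_cases r <;> simp [Mac.dA_2]

@[simp] theorem lo_dA_symm (h : P ⊕ K × Option Lo × Fin 3) :
    O.lo (elt (O.mac.dA.symm h)) = O.lo (elt h) := by rw [← O.lo_dA, Equiv.apply_symm_apply]

@[simp] theorem lo_sl (j : K) (e : Option Lo × Fin 3) :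
    O.lo (elt (O.mac.sl j e)) = O.lo (inr (j, e.1)) := O.lo_dA_symm _

/-- a hub that is not a hub of the stage `j` is visited at its own element -/
theorem el_cold {j : K} {h : P ⊕ K × Option Lo × Fin 3} (c : ∀ e, h ≠ inr (j, e)) :
    O.mac.el j h = elt h := by
  rcases h with p | ⟨i, y, r⟩
  exacts [rfl, O.mac.el_ne (fun d => c (y, r) (by rw [d])) y r]

end Rings

/-- blocks: payload blocks, hinge blocks, guard blocks -/
abbrev Bl (N K : Type*) := N ⊕ K ⊕ K × K × Bool × Fin 6

/-- loops: four in every block, and three more -/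
abbrev Lop (N K : Type*) := Bl N K × Fin 4 ⊕ Fin 3

/-- The data.  The payload hub `p` lies in the loop `lp p` at the place `hp p`; the port of the
stage `j` in the payload loop `y` comes just before the place `pp j y`, ports at the same place are
ordered by `idx`.  In the state `j` the blocks of each ring are ordered by `bk j`, the loops of a
block by `lay j`; the ring `true` is visited inside the loop `0` of the hinge block of `j`. -/
structure Blk (P N K β : Type*) [LinearOrder β] where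
  lp : P → N × Fin 4
  hp : P → ℕ
  hpi : ∀ p q, lp p = lp q → hp p = hp q → p = q
  pp : K → N × Fin 4 → ℕ
  idx : K → ℕ
  idxi : Injective idx
  fam : K → N → Bool
  bk : K → Bl N K → β
  bki : ∀ j, Injective (bk j)
  lay : K → Bl N K → Equiv.Perm (Fin 4)
  pad : K → Equiv.Perm (Fin 3)
  lay1 : ∀ j j' b q, j ≠ j' →
    (lay j (inr (inr (j, j', b, q))) 1 : ℕ) + 1 = lay j (inr (inr (j, j', b, q))) 0
  lay2 : ∀ j j' b q, j ≠ j' →
    (lay j' (inr (inr (j, j', b, q))) 0 : ℕ) + 1 = lay j' (inr (inr (j, j', b, q))) 1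

namespace Blk

variable {P N K β : Type*} [LinearOrder β] [DecidableEq K] (O : Blk P N K β)

/-- the ring of a block in the stage `j` -/
def fb (j : K) : Bl N K → Bool
  | inl n => O.fam j n
  | inr (inl _) => false
  | inr (inr (i, _, b, _)) => if j = i then b else false

@[simp] theorem fb_l (j : K) (n : N) : O.fb j (inl n) = O.fam j n := rfl
@[simp] theorem fb_h (j i : K) : O.fb j (inr (inl i)) = false := rfl

/-- the ring of a loop -/
def fl (j : K) : Lop N K → Bool := Sum.elim (fun y => O.fb j y.1) fun _ => true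

@[simp] theorem fl_l (j : K) (y : Bl N K × Fin 4) : O.fl j (inl y) = O.fb j y.1 := rfl
@[simp] theorem fl_r (j : K) (i : Fin 3) : O.fl j (inr i) = true := rfl

/-- the place of the port of the stage `j` in a loop -/
def pl (j : K) : Lop N K → ℕ
  | inl (inl n, i) => O.pp j (n, i)
  | inl (inr (inr (a, a', _, _)), i) =>
    if j = (if i = 1 then a' else a) then 0 else if j = (if i = 1 then a else a') then 1 else 2
  | _ => 0

@[simp] theorem pl_l (j : K) (n : N) (i : Fin 4) : O.pl j (inl (inl n, i)) = O.pp j (n, i) := rfl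

/-- the order of the elements of a loop -/
def lk : P ⊕ K × Option (Lop N K) → ℕ ×ₗ ℕ ×ₗ ℕ
  | inl p => toLex (O.hp p, toLex (2, 0))
  | inr (j, some y) => toLex (O.pl j y, toLex (0, O.idx j))
  | inr (j, none) => toLex (0, toLex (1, O.idx j))

omit [DecidableEq K] in
/-- the loop of a payload hub -/
def lq (p : P) : Lop N K := inl (inl (O.lp p).1, (O.lp p).2)

/-- the hinge of the stage `j` -/
def hg (j : K) : Lop N K := inl (inr (inl j), 0)

/-- the block of a port on its ring -/
def bo : Option (Lop N K) → Option (Bl N K)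
  | some (inl y) => some y.1
  | _ => none

omit [DecidableEq K] in
/-- the place of a port in its block -/
def rk (j : K) : Option (Lop N K) → Fin 4
  | some (inl y) => O.lay j y.1 y.2
  | some (inr i) => (O.pad j i).castSucc
  | none => 3

omit [DecidableEq K] in
/-- the order of the blocks -/
def kb (j : K) : Option (Bl N K) → WithTop β
  | some b => O.bk j b
  | none => ⊤

omit [DecidableEq K] in
/-- the order of the loops -/
def key (j : K) (y : Lop N K) : WithTop β ×ₗ Fin 4 := toLex (O.kb j (bo (some y)), O.rk j (some y))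

section
omit [DecidableEq K]

@[simp] theorem bo_l (y : Bl N K × Fin 4) : bo (some (inl y : Lop N K)) = some y.1 := rfl
@[simp] theorem bo_r (i : Fin 3) : bo (some (inr i : Lop N K)) = none := rfl
@[simp] theorem bo_n : bo (none : Option (Lop N K)) = none := rfl
@[simp] theorem rk_l (j : K) (y : Bl N K × Fin 4) : O.rk j (some (inl y)) = O.lay j y.1 y.2 := rfl
@[simp] theorem rk_r (j : K) (i : Fin 3) : O.rk j (some (inr i)) = (O.pad j i).castSucc := rfl
@[simp] theorem rk_n (j : K) : O.rk j none = 3 := rfl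
@[simp] theorem kb_s (j : K) (b : Bl N K) : O.kb j (some b) = O.bk j b := rfl
@[simp] theorem kb_n (j : K) : O.kb j none = ⊤ := rfl

theorem kb_inj (j : K) : Injective (O.kb j) := by
  rintro (_ | a) (_ | b) h <;> simp at h ⊢
  exact O.bki j h

theorem key_lt {j : K} {y y' : Lop N K} : O.key j y < O.key j y' ↔
    O.kb j (bo (some y)) < O.kb j (bo (some y')) ∨
      (bo (some y) = bo (some y') ∧ O.rk j (some y) < O.rk j (some y')) := by
  simp only [key, Prod.Lex.toLex_lt_toLex, (O.kb_inj j).eq_iff]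

theorem key_ll {j : K} {b b' : Bl N K} {i i' : Fin 4} :
    O.key j (inl (b, i)) < O.key j (inl (b', i')) ↔
      O.bk j b < O.bk j b' ∨ (b = b' ∧ O.lay j b i < O.lay j b' i') := by simp [key_lt]

theorem key_inj (j : K) : Injective (O.key j) := by
  rintro (⟨b, i⟩ | i) (⟨b', i'⟩ | i') h <;> simp [key, (O.bki j).eq_iff] at h ⊢
  exacts [⟨h.1, by simpa [← h.1] using h.2⟩, h]

theorem lq_inj {p q : P} : O.lq p = O.lq q ↔ O.lp p = O.lp q := by simp [lq, Prod.ext_iff]

end

/-- the rings -/
def rings : Rings P (Lop N K) K (WithTop β ×ₗ Fin 4) (ℕ ×ₗ ℕ ×ₗ ℕ) where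
  lp := O.lq
  g := hg
  fam := O.fl
  famg _ := rfl
  lk := O.lk
  lki := by
    rintro (p | ⟨j, _ | y⟩) (q | ⟨j', _ | y'⟩) h e <;> simp [lk, O.idxi.eq_iff] at e ⊢
    exacts [O.hpi p q (O.lq_inj.1 h) e, e, ⟨e.2, h⟩]
  key := O.key
  keyi j _ _ _ h := O.key_inj j h

@[simp] theorem rings_lp : O.rings.lp = O.lq := rfl
@[simp] theorem rings_g : O.rings.g = hg := rfl
@[simp] theorem rings_fam : O.rings.fam = O.fl := rfl
@[simp] theorem rings_lk : O.rings.lk = O.lk := rfl
@[simp] theorem rings_key : O.rings.key = O.key := rfl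

theorem lq_ne_hg (p : P) (j : K) : O.rings.lo (inl p) ≠ O.rings.g j := by simp [lq, hg]

variable [Finite P] [Finite N] [Finite K]

/-- **The machine.** -/
noncomputable abbrev mac := O.rings.mac

theorem rng [Nonempty K] : O.mac.Rng O.rings.fo := by
  refine O.rings.rng (fun z => inl (inr (inr (z.1, z.2.1, z.2.2.1, z.2.2.2.1)),
    cond z.2.2.2.2 1 0)) ?_ (by simp [lq]) (by simp [hg]) (by simp [fb]) (by simp +contextual [fb])
    ?_ ?_
  · rintro ⟨a, b, c, d, _ | _⟩ ⟨a', b', c', d', _ | _⟩ h <;> simp_all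
  · rintro j j' b q (_ | _) y h rfl <;>
      simp +contextual [lk, pl, h, h.symm, Prod.Lex.toLex_lt_toLex, Prod.Lex.toLex_le_toLex]
  · have k : ∀ i g (a b : Fin 4), (O.lay i g a : ℕ) + 1 = O.lay i g b →
        O.key i (inl (g, a)) < O.key i (inl (g, b)) ∧ ∀ w, O.key i w ≤ O.key i (inl (g, a)) ∨
          O.key i (inl (g, b)) ≤ O.key i w := fun i g a b h =>
      ⟨O.key_ll.2 (Or.inr ⟨rfl, by omega⟩), fun w => by
        simp only [key, Prod.Lex.toLex_le_toLex, bo_l, rk_l]
        rcases lt_trichotomy (O.kb i (bo (some w))) (O.kb i (some g)) with c | c | c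
        exacts [Or.inl (Or.inl c), by simp only [c, lt_irrefl, false_or, true_and]; omega,
          Or.inr (Or.inl c)]⟩
    rintro j j' b q (_ | _) i y y' h rfl rfl rfl
    exacts [(k _ _ _ _ (O.lay2 _ _ b q h)).imp id fun a w _ => a w,
      (k _ _ _ _ (O.lay1 _ _ b q h)).imp id fun a w _ => a w]

theorem sync [Nonempty K] : O.mac.Sync := ⟨_, O.rng⟩

/-! ### ranks and tags -/

omit [Finite P] in
theorem rk_nx (j : K) (u : Option (Lop N K)) : O.rk j (O.rings.nx j u) = O.rk j u + 1 := by
  refine (O.rings.hnx j _).rank' (M := 3) bo (O.rk j) (O.kb j) ?_ ?_ rfl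
  · rintro (_ | y) - (_ | y') -
    · simp
    · rcases y' with y' | i <;> simp
      exact Fin.le_last _
    · rcases y with y | i <;> simp
      exact Fin.castSucc_lt_last _
    · simpa using O.key_lt
  · have k : ∀ z, bo z = none → O.rings.fo j z = true → ∀ i, ∃ z', O.rings.fo j z' = true ∧
        bo z' = none ∧ O.rk j z' = i := fun z _ _ i => by
      induction i using Fin.lastCases with
      | last => exact ⟨none, rfl, rfl, rfl⟩
      | cast i => exact ⟨some (inr ((O.pad j).symm i)), rfl, rfl, by simp⟩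
    rintro (_ | ⟨b, a⟩ | a) hz i
    · simpa [← show _ = _ from hz] using k none rfl rfl i
    · exact ⟨some (inl (b, (O.lay j b).symm i)), hz, rfl, by simp⟩
    · simpa [← show _ = _ from hz] using k none rfl rfl i

omit [DecidableEq K] [Finite P] [Finite N] [Finite K] in
/-- the index of the line `sl j e` modulo twelve -/
def tg (j : K) (e : Option (Lop N K) × Fin 3) : ZMod 12 :=
  gtag (fun u => tri (M := 3) (O.rk j u)) e

theorem tri_nx (j : K) (u : Option (Lop N K)) :
    tri (M := 3) (O.rk j (O.mac.nx j u)) = tri (M := 3) (O.rk j u) + 3 := by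
  rw [Rings.mac_nx, rk_nx, tri_succ]

theorem tg_bt (j : K) (e : Option (Lop N K) × Fin 3) :
    O.tg j (bt (O.mac.nx j) e) = O.tg j e + 1 := gtag_bt (O.tri_nx j) e

theorem tg_pow (j : K) (e : Option (Lop N K) × Fin 3) (n : ℕ) :
    O.tg j ((bt (O.mac.nx j) ^ n) e) = O.tg j e + n := gtag_pow (O.tri_nx j) e n

theorem tg_inv_pow (j : K) (e : Option (Lop N K) × Fin 3) (n : ℕ) :
    O.tg j (((bt (O.mac.nx j))⁻¹ ^ n) e) = O.tg j e - n := gtag_inv_pow (O.tri_nx j) e n

omit [DecidableEq K] [Finite P] [Finite N] [Finite K] in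
/-- the type of a line is its index modulo three -/
theorem tg_val (j : K) (e : Option (Lop N K) × Fin 3) : (O.tg j e).val % 3 = e.2 := by
  have : ∀ (a : Fin 4) (r : Fin 3), (gtag (fun a => tri (M := 3) a) (a, r)).val % 3 = r := by
    decide
  exact this (O.rk j e.1) e.2

theorem fo_bt (j : K) (e : Option (Lop N K) × Fin 3) :
    O.rings.fo j (bt (O.mac.nx j) e).1 = O.rings.fo j e.1 := fam_bt (O.rings.fo_nx j) e

theorem fo_pow (j : K) (n : ℕ) (e : Option (Lop N K) × Fin 3) :
    O.rings.fo j ((bt (O.mac.nx j) ^ n) e).1 = O.rings.fo j e.1 := fam_pow (O.rings.fo_nx j) n e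

theorem fo_inv_pow (j : K) (n : ℕ) (e : Option (Lop N K) × Fin 3) :
    O.rings.fo j (((bt (O.mac.nx j))⁻¹ ^ n) e).1 = O.rings.fo j e.1 :=
  fam_inv_pow (O.rings.fo_nx j) n e

omit [DecidableEq K] [Finite P] [Finite N] [Finite K] in
/-- every block has a line with a given index -/
theorem exists_tg (j : K) (b : Bl N K) (t : ZMod 12) :
    ∃ i r, O.tg j (some (inl (b, i)), r) = t := by
  have : ∀ t : ZMod 12, ∃ (a : Fin 4) (r : Fin 3), gtag (fun a => tri (M := 3) a) (a, r) = t := by
    decide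
  obtain ⟨a, r, h⟩ := this t
  exact ⟨(O.lay j b).symm a, r, by simpa [tg, gtag] using h⟩

/-! ### the order of the elements -/

/-- two blocks of one ring -/
theorem ep_lt_of_bk {j : K} {u v : P ⊕ K × Option (Lop N K)} {b b' : Bl N K} {i i' : Fin 4}
    (hu : O.rings.lo u = inl (b, i)) (hv : O.rings.lo v = inl (b', i')) (f : O.fb j b = O.fb j b')
    (h : O.bk j b < O.bk j b') : O.mac.ep j u < O.mac.ep j v :=
  O.rings.ep_lt_of_key (by simpa [hu, hv] using f) (by rw [hu, hv]; exact O.key_ll.2 (Or.inl h))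

/-- two loops of one block -/
theorem ep_lt_of_lay {j : K} {u v : P ⊕ K × Option (Lop N K)} {b : Bl N K} {i i' : Fin 4}
    (hu : O.rings.lo u = inl (b, i)) (hv : O.rings.lo v = inl (b, i'))
    (h : O.lay j b i < O.lay j b i') : O.mac.ep j u < O.mac.ep j v :=
  O.rings.ep_lt_of_key (by simp [hu, hv]) (by rw [hu, hv]; exact O.key_ll.2 (Or.inr ⟨rfl, h⟩))

/-- the block of the ring `false` at which a block (`none`: the last three loops) is visited -/
def ab (j : K) : Option (Bl N K) → β
  | some b => if O.fb j b then O.bk j (inr (inl j)) else O.bk j b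
  | none => O.bk j (inr (inl j))

theorem ep_lt_of_ab {j : K} {u v : P ⊕ K × Option (Lop N K)}
    (h : O.ab j (bo (some (O.rings.lo u))) < O.ab j (bo (some (O.rings.lo v)))) :
    O.mac.ep j u < O.mac.ep j v := by
  have k : ∀ y, (ofLex (O.rings.ak j y)).1 = O.ab j (bo (some y)) := by
    rintro (⟨b, i⟩ | i)
    · cases c : O.fb j b <;> simp [Rings.ak, ab, c, key, hg]
    · simp [Rings.ak, ab, key, hg]
  exact O.rings.ep_lt_of_ak (Prod.Lex.lt_iff.2 (Or.inl (by rw [k, k]; exact_mod_cast h)))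

/-- a loop of the ring `true` comes before the last three loops -/
theorem ep_lt_pad {j : K} {u v : P ⊕ K × Option (Lop N K)} {b : Bl N K} {i : Fin 4} {i' : Fin 3}
    (hu : O.rings.lo u = inl (b, i)) (hv : O.rings.lo v = inr i') (f : O.fb j b = true) :
    O.mac.ep j u < O.mac.ep j v :=
  O.rings.ep_lt_of_key (by simpa [hu, hv] using f) (by rw [hu, hv]; exact O.key_lt.2 (by simp))

/-! ### the order of the payload hubs -/

omit [DecidableEq K] [Finite P] [Finite N] [Finite K] in
/-- the place of a payload hub in its loop, counted from the port of the stage `j` -/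
def cp (j : K) (p : P) : ℕ ×ₗ ℕ := toLex (if O.pp j (O.lp p) ≤ O.hp p then 0 else 1, O.hp p)

theorem ph_pay (j : K) (p : P) :
    O.rings.ph j (inl p) = if O.pp j (O.lp p) ≤ O.hp p then 0 else 1 := by
  rw [O.rings.ph_ne (O.lq_ne_hg p j)]
  simp [lk, lq, Prod.Lex.toLex_lt_toLex, le_iff_lt_or_eq]

/-- two payload hubs on one ring -/
theorem pos_same {j : K} {p q : P} (h : O.fam j (O.lp p).1 = O.fam j (O.lp q).1) :
    O.mac.pos j (inl p) < O.mac.pos j (inl q) ↔
      O.bk j (inl (O.lp p).1) < O.bk j (inl (O.lp q).1) ∨ ((O.lp p).1 = (O.lp q).1 ∧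
        O.lay j (inl (O.lp p).1) (O.lp p).2 < O.lay j (inl (O.lp q).1) (O.lp q).2) ∨
          (O.lp p = O.lp q ∧ O.cp j p < O.cp j q) := by
  rw [Mac.pos_pay, O.rings.ep_lt' (O.lq_ne_hg p j) (O.lq_ne_hg q j),
    O.rings.uk_same (y := O.rings.lo (inl p)) (y' := O.rings.lo (inl q)) h, ph_pay, ph_pay,
    ← or_assoc]
  refine or_congr (O.key_ll.trans (by simp)) (and_congr O.lq_inj ?_)
  simp [cp, lk, Prod.Lex.toLex_lt_toLex]

/-- ring `false` before ring `true` -/
theorem pos_AB {j : K} {p q : P} (hp : O.fam j (O.lp p).1 = false)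
    (hq : O.fam j (O.lp q).1 = true) : O.mac.pos j (inl p) < O.mac.pos j (inl q) ↔
      O.bk j (inl (O.lp p).1) < O.bk j (inr (inl j)) := by
  rw [Mac.pos_pay, O.rings.ep_AB (b := inl q) (O.lq_ne_hg p j) hp hq]
  exact O.key_ll.trans (by simp)

/-- ring `true` before ring `false` -/
theorem pos_BA {j : K} {p q : P} (hp : O.fam j (O.lp p).1 = true)
    (hq : O.fam j (O.lp q).1 = false) : O.mac.pos j (inl p) < O.mac.pos j (inl q) ↔
      O.bk j (inr (inl j)) < O.bk j (inl (O.lp q).1) := by
  rw [Mac.pos_pay, O.rings.ep_BA (a := inl p) (O.lq_ne_hg q j) hp hq]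
  exact O.key_ll.trans (by simp)

end Blk

end Pool.Agent.P.MP_439f1f_co
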