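import Pool.Agent.P.MP_439f1f_co.G13
import Pool.Agent.P.MP_439f1f_co.G10
import Pool.Agent.P.MP_439f1f_co.Hm2

/-!
The static layer of the construction: types of half lines, classes, labels, the graph.
-/

set_option autoImplicit false

namespace Pool.Agent.P.MP_439f1f_co

open Sum SimpleGraph Function

/-- The types of the half lines.  Tails: system hub, node, moat hub.  Heads: into a system hub, a
node, a moat hub. -/
inductive HT (K : Type) (r0 : ℕ) where
  | tS (s : K × Bool) (q : ZMod 12) (c : ZMod 3)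
  | tN (w : K × Bool) (c : ZMod 3) (l : Fin 4)
  | tE (w : K × Bool) (c : ZMod 3) (i : Fin (r0 + 1))
  | hS (s : K × Bool) (p : ZMod 12) (c : ZMod 3)
  | hP (w : K × Bool) (c : ZMod 3)
  | hM (w : K × Bool) (c : ZMod 3) (i : Fin (r0 + 1))
  deriving DecidableEq, Fintype

namespace HT

variable {K : Type} {r0 : ℕ}

/-- the world of the classes of a type -/
def wor : HT K r0 → K × Bool
  | tS s _ _ => s
  | tN w _ _ => w
  | tE w _ _ => w
  | hS s _ _ => s
  | hP w _ => w
  | hM w _ _ => w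

/-- the colour of the classes of a type -/
def col : HT K r0 → ZMod 3
  | tS _ _ c => c
  | tN _ c _ => c
  | tE _ c _ => c
  | hS _ _ c => c
  | hP _ c => c
  | hM _ c _ => c

/-- the position of the first slot -/
def st (r : ℕ) : HT K r0 → ℕ
  | tS _ _ _ => 0
  | tN _ _ _ => 1
  | tE _ _ _ => 1
  | _ => r + 5

/-- the length of the chain -/
def len (r : ℕ) : HT K r0 → Fin (r + 2)
  | tS _ _ _ => Fin.last _
  | hM _ _ _ => Fin.last _
  | _ => (Fin.last _).castSucc

end HT

/-- an unused slot is replaced by the first slot -/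
def Slot.fix {r : ℕ} (ρ : Fin (r + 1)) : Slot r → Slot r
  | .C i => if (i : ℕ) < ρ then .C i else .H
  | σ => σ

theorem Slot.fix_act {r : ℕ} (ρ : Fin (r + 1)) (σ : Slot r) : (σ.fix ρ).act ρ := by
  cases σ with
  | C i =>
    simp only [fix]
    split_ifs with h
    exacts [h, trivial]
  | _ => trivial

theorem Slot.fix_eq {r : ℕ} {ρ : Fin (r + 1)} {σ : Slot r} (h : σ.act ρ) : σ.fix ρ = σ := by
  cases σ with
  | C i => exact if_pos h
  | _ => rfl

/-- the classes of labels: a type and one of its slots -/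
abbrev Kl (K : Type) (r r0 : ℕ) : Type :=
  {z : HT K r0 × Slot (r + 1) // z.2.act (z.1.len r)}

/-- the class of a slot -/
def HT.cls {K : Type} {r r0 : ℕ} (T : HT K r0) (σ : Slot (r + 1)) : Kl K r r0 :=
  ⟨(T, σ.fix (T.len r)), σ.fix_act _⟩

theorem HT.cls_eq {K : Type} {r r0 : ℕ} {T : HT K r0} {σ : Slot (r + 1)} (h : σ.act (T.len r)) :
    T.cls σ = ⟨(T, σ), h⟩ := Subtype.ext (Prod.ext rfl (Slot.fix_eq h))

theorem Kl.cls {K : Type} {r r0 : ℕ} (c : Kl K r r0) : c.1.1.cls c.1.2 = c := HT.cls_eq c.2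

/-- the kind of a level: `0, 1, 2` for the residues `0, 2, 4` modulo six, `3` for odd levels -/
def lc (l : ℕ) : Fin 4 := if l % 2 = 1 then 3 else if l % 6 = 0 then 0 else if l % 6 = 2 then 1 else 2

theorem exists_lc (i : Fin 4) {D : ℕ} (h : 12 ≤ D) :
    ∃ l, D ≤ l + 11 ∧ l + 6 ≤ D ∧ lc l = i ∧ lc (l + 6) = i := by
  refine ⟨D - 11 + (![0, 2, 4, 1] i + 6 * D + 11 - D) % 6, by omega, by omega, ?_⟩
  fin_cases i <;> simp only [lc] <;> constructor <;> split_ifs <;>
    first | rfl | (exfalso; simp at *; omega)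

/-- the index of the line of the type `i` into a port with the tag `t` -/
def ixt (t : ZMod 4) (i : Fin 3) : ZMod 12 := 3 * (t.val : ZMod 12) + ![0, -5, -1] i

theorem ixt_sur : ∀ p, ∃ t i, ixt t i = p := by decide
theorem ixt_inj : ∀ t i t' i', ixt t i = ixt t' i' → t = t' ∧ i = i' := by decide
theorem ixt_0 : ∀ t, ixt (t + 1 + 1) 1 = ixt t 0 + 1 := by decide
theorem ixt_1 : ∀ t, ixt t 2 = ixt (t + 1) 1 + 1 := by decide
theorem ixt_2 : ∀ t, ixt t 0 = ixt t 2 + 1 := by decide

/-- the hubs other than the centre, and the lines -/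
abbrev Hub (K N Y : Type) (r0 : ℕ) : Type := (N ⊕ N × Fin (r0 + 1)) ⊕ K × Y × Fin 3

/-- the forest and the machine -/
structure Pre (K N Y β : Type) [DecidableEq K] [LinearOrder β] (r r0 q D e b : ℕ) where
  F : Forest (Kl K r r0 × Fin q × Fin q) (Kl K r r0) (Kl K r r0) N Prod.fst id D e b
  O : Mac (N ⊕ N × Fin (r0 + 1)) Y K β
  fam : K → Y → Bool
  tag : K → Y → ZMod 4
  pc : K → Y → ZMod 3
  rng : O.Rng fam
  tagn : ∀ j y, tag j (O.nx j y) = tag j y + 1

variable {K N Y β : Type} [DecidableEq K] [LinearOrder β] {r r0 q D e b : ℕ}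

namespace Pre

variable (W : Pre K N Y β r r0 q D e b)

/-- the world of a node -/
noncomputable def wor (n : N) : K × Bool := (W.F.tree n).1.1.wor

/-- the colour of a node -/
noncomputable def col (n : N) : ZMod 3 := (W.F.tree n).1.1.col

/-- the index of the line `sl j z`; the hub `(j, z)` has the index `idx j z - 1` -/
def idx (j : K) (z : Y × Fin 3) : ZMod 12 := ixt (W.tag j z.1) z.2

theorem idx_bt (j : K) (z : Y × Fin 3) : W.idx j (bt (W.O.nx j) z) = W.idx j z + 1 := by
  obtain ⟨y, i⟩ := z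
  have := W.tagn j ((W.O.nx j).symm y)
  rw [Equiv.apply_symm_apply] at this
  fin_cases i
  · simp only [idx, Fin.zero_eta, bt0, W.tagn, ixt_0]
  · simp only [idx, Fin.mk_one, bt1, this, ixt_1]
  · exact ixt_2 _

/-- the type of the first half of a line -/
noncomputable def tt : Hub K N Y r0 → HT K r0
  | inl (inl n) => .tN (W.wor n) (W.col n + 1) (lc (W.F.lev n))
  | inl (inr w) => .tE (W.wor w.1) (W.col w.1 + 1) w.2
  | inr z => .tS (z.1, W.fam z.1 z.2.1) (W.idx z.1 z.2 - 1) (W.pc z.1 z.2.1)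

/-- the type of the second half of the line whose cold head is at the given hub -/
noncomputable def ht : Hub K N Y r0 → HT K r0
  | inl (inl n) => .hP (W.wor n) (W.col n + 1)
  | inl (inr w) => .hM (W.wor w.1) (W.col w.1 + 1) w.2
  | inr z => .hS (z.1, W.fam z.1 z.2.1) (W.idx z.1 z.2) (W.pc z.1 z.2.1)

/-- the types of the two halves -/
noncomputable def typ (L : Hub K N Y r0) : Bool → HT K r0
  | false => W.tt L
  | true => W.ht (W.O.dA L)

/-- the label with the coordinates `a`, `a'` in the class `c` -/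
def lab (c : Kl K r r0) (a a' : Fin q) : Option (Hub K N Y r0) :=
  some (inl (inl (W.F.anc (c, a, a') D)))

theorem lab_inj {c c' : Kl K r r0} {a a' d d' : Fin q} (h : W.lab c a a' = W.lab c' d d') :
    c = c' ∧ a = d ∧ a' = d' := by
  have := W.F.priv (c, a, a') (c', d, d') D (by omega) le_rfl (by simpa [lab] using h)
  simpa only [Prod.mk.injEq] using this

theorem wor_anc (z : Kl K r r0 × Fin q × Fin q) {l : ℕ} (h1 : 1 ≤ l) (h2 : l ≤ D) :
    W.wor (W.F.anc z l) = z.1.1.1.wor := by rw [wor, W.F.tree_anc _ h1 h2]; rfl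

theorem col_anc (z : Kl K r r0 × Fin q × Fin q) {l : ℕ} (h1 : 1 ≤ l) (h2 : l ≤ D) :
    W.col (W.F.anc z l) = z.1.1.1.col := by rw [col, W.F.tree_anc _ h1 h2]; rfl

/-- second options of the heads in the skeleton -/
def hB0 : Hub K N Y r0 → Option (Hub K N Y r0)
  | inl (inl n) => some (inl (inr (n, 0)))
  | inl (inr w) => some (inl (inr w))
  | inr z => some (inr (z.1, bt (W.O.nx z.1) z.2))

theorem st_tt (L : Hub K N Y r0) : (W.typ L false).st r + (W.typ L false).len r + 3 = r + 4 := by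
  rcases L with (n | w) | z <;> simp [typ, tt, HT.st, HT.len] <;> omega

theorem st_ht (L : Hub K N Y r0) : (W.typ L true).st r = r + 5 := by
  simp only [typ]
  rcases W.O.dA L with (n | w) | z <;> rfl

theorem st_zero (L : Hub K N Y r0) : (W.typ L false).st r = 0 ↔ ∃ z, L = inr z := by
  rcases L with (n | w) | z <;> simp [typ, tt, HT.st]

theorem st_le (L : Hub K N Y r0) : (W.typ L false).st r ≤ 1 := by
  rcases L with (n | w) | z <;> simp [typ, tt, HT.st]

theorem len_ht (L : Hub K N Y r0) : (((W.typ L true).len r : ℕ) = r + 1 ∧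
    ∃ w, W.O.dA L = inl (inr w)) ∨
    (((W.typ L true).len r : ℕ) = r ∧ ∀ w, W.O.dA L ≠ inl (inr w)) := by
  simp only [typ]
  rcases W.O.dA L with (n | w) | z <;> simp [ht, HT.len]

end Pre

/-- the forest, the machine and the coordinates of the labels -/
structure Stat (K N Y β : Type) [DecidableEq K] [LinearOrder β] (r r0 q D e b : ℕ) extends
    Pre K N Y β r r0 q D e b where
  x : Hub K N Y r0 → Bool → Vr (r + 1) → Fin q

namespace Stat

variable (W : Stat K N Y β r r0 q D e b)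

/-- the label in the slot `σ` of the half `u` of the line `L` -/
noncomputable def sl (L : Hub K N Y r0) (u : Bool) (σ : Slot (r + 1)) : Option (Hub K N Y r0) :=
  slab W.lab W.typ (HT.len r) HT.cls W.x L u σ

/-- the labels on the lines -/
def hg (L : Hub K N Y r0) (i : ℕ) (s : Option (Hub K N Y r0)) : Prop :=
  hang2 W.lab W.typ (HT.st r) (HT.len r) HT.cls W.x L i s

/-- the graph is `HL (2 * r + 9) W.hang` -/
def hang (L : Hub K N Y r0) (i : ℕ) (s : Option (Hub K N Y r0)) : Prop :=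
  Forest.hang1 W.O.dA (W.F.tB0 (finRotate (r0 + 1))) W.hB0 (2 * r + 9) L i s ∨ W.hg L i s

/-- the second option of a tail -/
noncomputable def tB : Hub K N Y r0 → Option (Hub K N Y r0)
  | inl p => W.F.tB0 (finRotate (r0 + 1)) (inl p)
  | inr z => W.sl (inr z) false .H

/-- the second option of the head into a payload hub -/
noncomputable def hO : N ⊕ N × Fin (r0 + 1) → Option (Hub K N Y r0)
  | inl n => some (inl (inr (n, 0)))
  | inr w => W.sl (W.O.dA.symm (inl (inr w))) true .Z

variable {L : Hub K N Y r0} {i : ℕ} {s t : Option (Hub K N Y r0)}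

theorem sl_eq {u : Bool} {σ : Slot (r + 1)} (h : σ.act ((W.typ L u).len r)) :
    W.sl L u σ = W.lab ⟨(W.typ L u, σ), h⟩ (W.x L u (σ.var ((W.typ L u).len r) false))
      (W.x L u (σ.var ((W.typ L u).len r) true)) := by rw [sl, slab, HT.cls_eq h]

theorem hg_sl {u : Bool} {σ : Slot (r + 1)} (h : σ.act ((W.typ L u).len r)) :
    W.hg L ((W.typ L u).st r + σ.off ((W.typ L u).len r)) (W.sl L u σ) := hang2_slab h

theorem hg_zero : W.hg L 0 s ↔ (∃ z, L = inr z) ∧ s = W.sl L false .H := by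
  rw [hg, hang2_zero (h := 0) (by rw [W.st_ht]; omega), W.st_zero]
  rfl

theorem hg_last : W.hg L (2 * r + 9) s ↔ (∃ w, W.O.dA L = inl (inr w)) ∧ s = W.sl L true .Z := by
  have := W.st_ht L
  have := W.st_tt L
  have h := W.len_ht L
  rw [hg, hang2_last (by omega) (by omega)]
  refine and_congr_left' ⟨fun _ => (h.resolve_right (by omega)).2, fun ⟨w, a⟩ => ?_⟩
  have := (h.resolve_right fun c => c.2 w a).1
  omega

theorem hang_mid (h0 : 0 < i) (h1 : i < 2 * r + 9) : W.hang L i s ↔ W.hg L i s :=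
  ⟨fun h => h.resolve_left fun c => c.elim (fun c => by omega) fun c => by omega, Or.inr⟩

theorem hg_lab (h : W.hg L i s) : ∃ c a a', s = W.lab c a a' :=
  let ⟨_, _, _, _, h⟩ := h
  ⟨_, _, _, h.symm⟩

/-- consecutive labels: linked slots of one half, or the middle of the line -/
theorem hg_adj (hs : W.hg L i s) (ht : W.hg L (i + 1) t) :
    (∃ u, ∃ σ σ' : Slot (r + 1), σ.act ((W.typ L u).len r) ∧ σ'.act ((W.typ L u).len r) ∧
      σ'.off ((W.typ L u).len r) = σ.off ((W.typ L u).len r) + 1 ∧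
      (W.typ L u).st r + σ.off ((W.typ L u).len r) = i ∧ s = W.sl L u σ ∧ t = W.sl L u σ') ∨
    (i = r + 4 ∧ s = W.sl L false .Z ∧ t = W.sl L true .H) :=
  hang2_adj (W.st_tt L).le (by rw [W.st_ht]; omega) hs ht

/-- every inner position carries a slot -/
theorem hg_ex (L : Hub K N Y r0) (h0 : 0 < i) (h1 : i < 2 * r + 9) :
    ∃ u, ∃ σ : Slot (r + 1), σ.act ((W.typ L u).len r) ∧
      (W.typ L u).st r + σ.off ((W.typ L u).len r) = i := by
  have := W.st_ht L
  have := W.st_le L
  have := W.len_ht L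
  exact hang2_ex (W.st_tt L) (W.st_ht L) (by omega) (by omega)

theorem fit : W.O.Fit (2 * r + 9) W.hang W.tB W.hO where
  tl L s := by
    rw [hang, W.hg_zero]
    rcases L with p | z <;> simp [Forest.hang1, tB, Forest.tB0]
  hp L p s h := by
    obtain rfl := W.O.dA.eq_symm_apply.2 h
    rw [hang, W.hg_last]
    rcases p with n | w <;> simp [Forest.hang1, hO, Pre.hB0]
  hs j z s := by
    rw [hang, W.hg_last]
    simp [Forest.hang1, Pre.hB0]
  md L i s h0 h1 h :=
    let ⟨_, _, _, h⟩ := W.hg_lab ((W.hang_mid h0 h1).1 h)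
    ⟨_, h⟩
  tBs L z h := by
    rcases L with (n | w) | z'
    · simp only [tB, Forest.tB0] at h
      split_ifs at h <;> simp at h
    · simp [tB, Forest.tB0] at h
    · simp [tB, sl, slab, Pre.lab] at h
  hOs p z := by
    rcases p with n | w
    exacts [by simp [hO], by simp [hO, sl, slab, Pre.lab]]
  sync := ⟨_, W.rng⟩

/-- the girth is large and every label is used in every slot of its class -/
structure Good (k : ℕ) : Prop where
  girth : GG k (HL (2 * r + 9) W.hang)
  cover : ∀ (c : Kl K r r0) a a', ∃ L u, W.typ L u = c.1.1 ∧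
    W.x L u (c.1.2.var (c.1.1.len r) false) = a ∧ W.x L u (c.1.2.var (c.1.1.len r) true) = a' ∧
    W.sl L u c.1.2 = W.lab c a a'

end Stat

theorem Pre.many [Finite K] [Finite N] [Finite Y] (W : Pre K N Y β r r0 q D e b) (h1 : 12 ≤ e)
    (h2 : e < D) (big : ∀ j u t c,
      2 * (q * q) ≤ {y | W.fam j y = u ∧ W.tag j y = t ∧ W.pc j y = c}.ncard) (T : HT K r0) :
    2 * (q * q) ≤ {z : Hub K N Y r0 × Bool | W.typ z.1 z.2 = T}.ncard := by
  have sys : ∀ j u p c (f : Y × Fin 3 → Hub K N Y r0 × Bool), Injective f →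
      (∀ z, W.fam j z.1 = u → W.idx j z = p → W.pc j z.1 = c → W.typ (f z).1 (f z).2 = T) →
      2 * (q * q) ≤ {z : Hub K N Y r0 × Bool | W.typ z.1 z.2 = T}.ncard := by
    intro j u p c f hf h
    obtain ⟨t, i, rfl⟩ := ixt_sur p
    exact (big j u t c).trans (Set.ncard_le_ncard_of_injOn (fun y => f (y, i))
      (fun y a => h _ a.1 (by rw [Pre.idx, a.2.1]) a.2.2)
      fun y _ y' _ a => (Prod.ext_iff.1 (hf a)).1)
  have pay : ∀ w c i (f : N → Hub K N Y r0 × Bool), Injective f →
      (∀ n, W.wor n = w → W.col n + 1 = c → lc (W.F.lev n) = i → W.typ (f n).1 (f n).2 = T) →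
      2 * (q * q) ≤ {z : Hub K N Y r0 × Bool | W.typ z.1 z.2 = T}.ncard := by
    intro w c i f hf h
    obtain ⟨l, a1, a2, a3, a4⟩ := exists_lc i (D := D) (by omega)
    have k : ∀ z l, 1 ≤ l → l ≤ D → lc l = i →
        f (W.F.anc (⟨(.tE w (c - 1) 0, .H), trivial⟩, z) l) ∈
          {z : Hub K N Y r0 × Bool | W.typ z.1 z.2 = T} := fun z l b1 b2 b3 =>
      h _ (by rw [Pre.wor, W.F.tree_anc _ b1 b2]; rfl)
        (by rw [Pre.col, W.F.tree_anc _ b1 b2]; exact sub_add_cancel _ _)
        (by rw [W.F.lev_anc _ _ b1 b2, b3])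
    exact W.F.many f hf _ ⟨(.tE w (c - 1) 0, .H), trivial⟩ (l := l) (l' := l + 6) (by omega) h2
      (by omega) (by omega) (by omega) a2
      fun z => ⟨k z _ (by omega) (by omega) a3, k z _ (by omega) a2 a4⟩
  cases T with
  | tS s p c =>
    exact sys s.1 s.2 (p + 1) c (fun z => (inr (s.1, z), false)) (fun _ _ a => by simpa using a)
      fun z a c d => by simp [Pre.typ, Pre.tt, a, c, d]
  | tN w c i =>
    exact pay w c i (fun n => (inl (inl n), false)) (fun _ _ a => by simpa using a)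
      fun n a c d => by simp [Pre.typ, Pre.tt, a, c, d]
  | tE w c i =>
    exact pay w c 0 (fun n => (inl (inr (n, i)), false)) (fun _ _ a => by simpa using a)
      fun n a c _ => by simp [Pre.typ, Pre.tt, a, c]
  | hS s p c =>
    exact sys s.1 s.2 p c (fun z => (W.O.dA.symm (inr (s.1, z)), true))
      (fun _ _ a => by simpa using a) fun z a c d => by simp [Pre.typ, Pre.ht, a, c, d]
  | hP w c =>
    exact pay w c 0 (fun n => (W.O.dA.symm (inl (inl n)), true)) (fun _ _ a => by simpa using a)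
      fun n a c _ => by simp [Pre.typ, Pre.ht, a, c]
  | hM w c i =>
    exact pay w c 0 (fun n => (W.O.dA.symm (inl (inr (n, i))), true))
      (fun _ _ a => by simpa using a) fun n a c _ => by simp [Pre.typ, Pre.ht, a, c]

theorem Pre.long [Finite Y] (W : Pre K N Y β r r0 q D e b) {k : ℕ} (h1 : k ≤ r0)
    (big : ∀ j u, k ≤ {y | W.fam j y = u}.ncard) (z : N × Fin (r0 + 1) ⊕ K × Y × Fin 3) (j : ℕ)
    (h0 : 0 < j) (hj : j ≤ k) : (sig (finRotate (r0 + 1)) fun j => bt (W.O.nx j))^[j] z ≠ z := by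
  rcases z with ⟨a, c⟩ | ⟨a, c⟩
  · have : ∀ j, (sig (N := N) (finRotate (r0 + 1)) fun j => bt (W.O.nx j))^[j] (inl (a, c)) =
        inl (a, (finRotate (r0 + 1))^[j] c) := fun j => by
      induction j with
      | zero => rfl
      | succ j ih => simp only [Function.iterate_succ_apply', ih]; rfl
    rw [this]
    exact fun h => long_of_cyc rot_cyc (by simp; omega) c j h0 hj
      (Prod.ext_iff.1 (inl_injective h)).2
  · have : ∀ j, (sig (N := N) (finRotate (r0 + 1)) fun j => bt (W.O.nx j))^[j] (inr (a, c)) =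
        inr (a, (bt (W.O.nx a))^[j] c) := fun j => by
      induction j with
      | zero => rfl
      | succ j ih => simp only [Function.iterate_succ_apply', ih]; rfl
    rw [this]
    intro h
    have h : IsPeriodicPt (bt (W.O.nx a)) j c := (Prod.ext_iff.1 (inr_injective h)).2
    have c1 : ∀ z : Y × Fin 3, W.fam a z.1 = W.fam a c.1 → ∃ n < j, (bt (W.O.nx a))^[n] c = z :=
      fun z hz => by
        obtain ⟨n, rfl⟩ := bt_cyc' (W.rng.famn a) (W.rng.one a) c z hz.symm
        exact ⟨n % j, Nat.mod_lt _ h0,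
          (h.iterate_mod_apply n).trans (congrFun (Equiv.Perm.iterate_eq_pow _ n) c)⟩
    choose! g g1 g2 using c1
    have := Set.ncard_le_ncard_of_injOn (s := {y | W.fam a y = W.fam a c.1} ×ˢ Set.univ)
      (t := (Finset.range j : Set ℕ)) g (fun z hz => by simpa using g1 z hz.1)
      fun z hz z' hz' d => by rw [← g2 z hz.1, d, g2 z' hz'.1]
    rw [Set.ncard_prod, Set.ncard_coe_finset, Finset.card_range, Set.ncard_univ, Nat.card_fin]
      at this
    have := big a (W.fam a c.1)
    omega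

/-- **The static layer exists.** -/
theorem exists_stat (K : Type) [Finite K] [DecidableEq K] (k r r0 s D a0 q0 : ℕ) (h1 : 12 ≤ k)
    (h2 : k ≤ 2 * r + 8) (h3 : k ≤ r0) (hD : 2 * (s + (2 * k + 4)) + 4 + k ≤ D) :
    ∃ (q b : ℕ) (N : Type) (F : Forest (Kl K r r0 × Fin q × Fin q) (Kl K r r0) (Kl K r r0) N
      Prod.fst id D k b), q0 ≤ q ∧ Finite N ∧
      (∀ x y l, 1 ≤ l → l ≤ 2 * s + 4 → (F.anc x l = F.anc y l ↔ x.1 = y.1)) ∧
      ∀ (Y β : Type) [Finite Y] [LinearOrder β] (W : Pre K N Y β r r0 q D k b), W.F = F →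
        (∀ j u t c, 2 * (q * q) ≤ {y | W.fam j y = u ∧ W.tag j y = t ∧ W.pc j y = c}.ncard) →
        Nat.card Y ≤ a0 * (Nat.card N + 1) → ∃ x, (⟨W, x⟩ : Stat K N Y β r r0 q D k b).Good k := by
  have := Fintype.ofFinite K
  obtain ⟨q, b, N, F, a1, a2, a3⟩ := exists_world (Kl K r r0) k s (r + 1)
    (r0 + 2 + Nat.card K * a0 * 3) D (q0 + k) hD
  have := F.finite
  refine ⟨q, b, N, F, by omega, this, a2, ?_⟩
  rintro Y β _ _ W rfl big hY
  obtain ⟨x, b1, b2⟩ := a3 (N × Fin (r0 + 1) ⊕ K × Y × Fin 3) (Hub K N Y r0) (HT K r0) (2 * r + 9)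
    (r + 4) (by omega)
    (by
      simp only [Nat.card_sum, Nat.card_prod, Nat.card_fin]
      nlinarith [Nat.mul_le_mul_left (Nat.card K * 3) hY])
    (Equiv.sumAssoc _ _ _) (Equiv.injective _) (fun n => inl (inl n)) (fun _ => rfl)
    (fun n => inl (n, 0)) (sig (finRotate (r0 + 1)) fun j => bt (W.O.nx j)) sown sig_inj
    (W.long h3 fun j u => le_trans (by nlinarith [Nat.le_mul_self q])
      ((big j u 0 0).trans (Set.ncard_le_ncard fun _ a => a.1))) sown_sig
    (fun _ => rfl) W.O.dA W.O.dA.injective (W.F.tB0 (finRotate (r0 + 1))) W.hB0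
    (fun z => z.isLeft)
    (by
      rintro ((n | w) | z)
      · refine Or.inr (Or.inl ⟨n, rfl, ?_⟩)
        simp only [Forest.tB0, Forest.eb]
        split_ifs <;> rfl
      · exact Or.inr (Or.inr ⟨inl w, rfl, rfl, rfl⟩)
      · exact Or.inl rfl)
    (by
      rintro ((n | w) | z)
      exacts [Or.inr (Or.inl ⟨n, rfl, rfl⟩), Or.inl rfl,
        Or.inr (Or.inr ⟨inr z, by simp, rfl, rfl⟩)])
    W.typ (HT.st r) (HT.len r) (fun L => (W.st_tt L).le) (fun L => by rw [W.st_ht]; omega)
    (fun L u => by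
      have := W.st_tt L
      have := W.st_ht L
      have := W.len_ht L
      cases u <;> omega)
    HT.cls (fun _ => True)
    (fun T σ T' σ' _ _ c c' d => by
      rw [HT.cls_eq c, HT.cls_eq c'] at d
      simpa using d)
    fun T _ => W.many h1 (by omega) big T
  refine ⟨x, b1, fun c a a' => ?_⟩
  obtain ⟨L, u, d1, d2, d3⟩ := b2 c.1.1 c.1.2 trivial c.2 a a'
  refine ⟨L, u, d1, d2, d3, ?_⟩
  simp only [Stat.sl, slab, d1, d2, d3, c.cls]

end Pool.Agent.P.MP_439f1f_co
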