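import Pool.Agent.P.MP_439f1f_co.K0
import Pool.Agent.P.MP_439f1f_co.Hm7

/-!
The construction for given orders of the blocks: machine, labels, moats.
-/

set_option autoImplicit false

namespace Pool.Agent.P.MP_439f1f_co

open Sum SimpleGraph Function

/-- The states: order of the stages, of the blocks and of the loops of a block (`0` is the moat,
`1` the node, `2` and `3` are spacers), and the ports of the moats. -/
structure Dyn (K N β : Type) [LinearOrder β] (r0 : ℕ) where
  idx : K → ℕ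
  idxi : Injective idx
  bk : K → Bl N K → β
  bki : ∀ j, Injective (bk j)
  lay : K → Bl N K → Equiv.Perm (Fin 4)
  pad : K → Equiv.Perm (Fin 3)
  lay1 : ∀ j j' b q, j ≠ j' →
    (lay j (inr (inr (j, j', b, q))) 1 : ℕ) + 1 = lay j (inr (inr (j, j', b, q))) 0
  lay2 : ∀ j j' b q, j ≠ j' →
    (lay j' (inr (inr (j, j', b, q))) 0 : ℕ) + 1 = lay j' (inr (inr (j, j', b, q))) 1
  port : K → N → Fin (r0 + 1)

/-- the forest of the labels -/
abbrev Fo (K N : Type) (r r0 q D e b : ℕ) : Type :=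
  Forest (Kl K r r0 × Fin q × Fin q) (Kl K r r0) (Kl K r r0) N Prod.fst id D e b

/-- the ports of a stage -/
abbrev Pt (K N : Type) : Type := Option (Lop N K)

/-- the keys of the machine -/
abbrev Ky (β : Type) : Type :=
  ((WithTop β ×ₗ Fin 4) ×ₗ ℕ ×ₗ (WithTop β ×ₗ Fin 4)) ×ₗ ℕ ×ₗ (ℕ ×ₗ ℕ ×ₗ ℕ)

variable {K N β : Type} [DecidableEq K] [LinearOrder β] {r r0 q D e b : ℕ}

/-- the blocks: the loops of the world `(j, false)` form the ring `true` of the stage `j` -/
noncomputable def Dyn.blk (A : Dyn K N β r0) (F : Fo K N r r0 q D e b) :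
    Blk (N ⊕ N × Fin (r0 + 1)) N K β where
  lp := Sum.elim (fun n => (n, 1)) fun w => (w.1, 0)
  hp := Sum.elim (fun _ => 0) fun w => r0 - w.2
  hpi := by
    rintro (n | ⟨n, i⟩) (n' | ⟨n', i'⟩) h1 h2 <;> simp at h1 h2 ⊢
    exacts [h1, ⟨h1, Fin.ext (by omega)⟩]
  pp j y := if y.2 = 0 then r0 - A.port j y.1 else 0
  idx := A.idx
  idxi := A.idxi
  fam j n := decide ((F.tree n).1.1.wor = (j, false))
  bk := A.bk
  bki := A.bki
  lay := A.lay
  pad := A.pad
  lay1 := A.lay1
  lay2 := A.lay2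

/-- the colour of the halves of the system lines in a loop -/
noncomputable def pcol (F : Fo K N r r0 q D e b) : Pt K N → ZMod 3
  | some (inl (inl n, _)) => (F.tree n).1.1.col + 1
  | _ => 0

variable [Finite K] [Finite N] [Nonempty K]

/-- the forest and the machine -/
noncomputable def Dyn.pre (A : Dyn K N β r0) (F : Fo K N r r0 q D e b) :
    Pre K N (Pt K N) (Ky β) r r0 q D e b where
  F := F
  O := (A.blk F).mac
  fam := (A.blk F).rings.fo
  tag := (A.blk F).rk
  pc _ := pcol F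
  rng := (A.blk F).rng
  tagn := (A.blk F).rk_nx

/-- all data -/
structure Wd (K N β : Type) [LinearOrder β] (r r0 q D e b : ℕ) extends Dyn K N β r0 where
  F : Fo K N r r0 q D e b
  x : Hub K N (Pt K N) r0 → Bool → Vr (r + 1) → Fin q

namespace Wd

variable (W : Wd K N β r r0 q D e b)

/-- the blocks -/
noncomputable abbrev B : Blk (N ⊕ N × Fin (r0 + 1)) N K β := W.toDyn.blk W.F

/-- the static layer -/
noncomputable def S : Stat K N (Pt K N) (Ky β) r r0 q D e b := ⟨W.toDyn.pre W.F, W.x⟩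

theorem S_F : W.S.F = W.F := rfl
theorem S_O : W.S.O = W.B.mac := rfl
theorem S_fam : W.S.fam = W.B.rings.fo := rfl
theorem S_x : W.S.x = W.x := rfl
theorem S_pc (j : K) : W.S.pc j = pcol W.F := rfl
theorem pc_nd (j : K) (n : N) (i : Fin 4) : W.S.pc j (some (inl (inl n, i))) = W.S.col n + 1 := rfl

theorem S_idx (j : K) (z : Pt K N × Fin 3) : W.S.idx j z = W.B.tg j z := by
  have : ∀ (a : Fin 4) (i : Fin 3), ixt a i = gtag (fun a => tri (M := 3) a) (a, i) := by decide
  exact this _ _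

theorem fam_eq {j : K} {n : N} : W.B.fam j n = true ↔ W.S.wor n = (j, false) := decide_eq_true_iff

theorem fam_ne {j : K} {n : N} : W.B.fam j n = false ↔ W.S.wor n ≠ (j, false) :=
  decide_eq_false_iff_not

/-- the node of a payload hub -/
def nd : N ⊕ N × Fin (r0 + 1) → N := Sum.elim id Prod.fst

omit [Finite K] [Finite N] [Nonempty K] in
theorem lp_fst (p : N ⊕ N × Fin (r0 + 1)) : (W.B.lp p).1 = nd p := by cases p <;> rfl

/-- the position of a hub in the state `j` -/
noncomputable abbrev pos (j : K) := W.S.O.pos j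

/-- two payload hubs on one ring in different blocks -/
theorem pos_blk {j : K} {p p' : N ⊕ N × Fin (r0 + 1)} (h : W.B.fam j (nd p) = W.B.fam j (nd p'))
    (ne : nd p ≠ nd p') : W.pos j (inl p) < W.pos j (inl p') ↔
      W.bk j (inl (nd p)) < W.bk j (inl (nd p')) := by
  refine (W.B.pos_same (by rwa [lp_fst, lp_fst])).trans ?_
  rw [lp_fst, lp_fst]
  exact or_iff_left (not_or.2 ⟨fun c => ne c.1, fun c => ne (by rw [← W.lp_fst, c.1, lp_fst])⟩)

theorem pos_AB {j : K} {p p' : N ⊕ N × Fin (r0 + 1)} (h : W.B.fam j (nd p) = false)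
    (h' : W.B.fam j (nd p') = true) : W.pos j (inl p) < W.pos j (inl p') ↔
      W.bk j (inl (nd p)) < W.bk j (inr (inl j)) := by
  refine (W.B.pos_AB (by rwa [lp_fst]) (by rwa [lp_fst])).trans ?_
  rw [lp_fst]
  rfl

theorem pos_BA {j : K} {p p' : N ⊕ N × Fin (r0 + 1)} (h : W.B.fam j (nd p) = true)
    (h' : W.B.fam j (nd p') = false) : W.pos j (inl p) < W.pos j (inl p') ↔
      W.bk j (inr (inl j)) < W.bk j (inl (nd p')) := by
  refine (W.B.pos_BA (by rwa [lp_fst]) (by rwa [lp_fst])).trans ?_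
  rw [lp_fst]
  rfl

/-- the order of two payload hubs in different blocks depends on the blocks only -/
theorem pos_congr {j : K} {p p' u u' : N ⊕ N × Fin (r0 + 1)} (ne : nd p ≠ nd p')
    (h : nd u = nd p) (h' : nd u' = nd p') :
    W.pos j (inl u) < W.pos j (inl u') ↔ W.pos j (inl p) < W.pos j (inl p') := by
  cases c : W.B.fam j (nd p) <;> cases c' : W.B.fam j (nd p')
  · rw [W.pos_blk (c.trans c'.symm) ne, W.pos_blk (by rw [h, h', c, c']) (by rwa [h, h']), h, h']
  · rw [W.pos_AB c c', W.pos_AB (h ▸ c) (h' ▸ c'), h]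
  · rw [W.pos_BA c c', W.pos_BA (h ▸ c) (h' ▸ c'), h']
  · rw [W.pos_blk (c.trans c'.symm) ne, W.pos_blk (by rw [h, h', c, c']) (by rwa [h, h']), h, h']

theorem pos_mn {j : K} {n : N} {i : Fin (r0 + 1)} :
    W.pos j (inl (inr (n, i))) < W.pos j (inl (inl n)) ↔ W.lay j (inl n) 0 < W.lay j (inl n) 1 :=
  (W.B.pos_same (p := inr (n, i)) (q := inl n) rfl).trans (by simp [Dyn.blk])

theorem pos_nm {j : K} {n : N} {i : Fin (r0 + 1)} :
    W.pos j (inl (inl n)) < W.pos j (inl (inr (n, i))) ↔ W.lay j (inl n) 1 < W.lay j (inl n) 0 :=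
  (W.B.pos_same (p := inl n) (q := inr (n, i)) rfl).trans (by simp [Dyn.blk])

/-- the order in a moat: `port, .., 0, r0, .., port + 1` -/
theorem pos_mm {j : K} {n : N} {i i' : Fin (r0 + 1)} :
    W.pos j (inl (inr (n, i))) < W.pos j (inl (inr (n, i'))) ↔
      el (r0 + 1) (W.port j n) i < el (r0 + 1) (W.port j n) i' := by
  refine (W.B.pos_same (p := inr (n, i)) (q := inr (n, i')) rfl).trans ?_
  have a := i.2
  have a' := i'.2
  have a'' := (W.port j n).2
  simp only [Dyn.blk, Sum.elim_inr, lt_irrefl, and_false, false_or, true_and, Blk.cp, if_true,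
    Prod.Lex.toLex_lt_toLex, el]
  generalize (i : ℕ) = u at a ⊢
  generalize (i' : ℕ) = u' at a' ⊢
  generalize (W.port j n : ℕ) = v at a'' ⊢
  split_ifs <;> simp only [lt_irrefl, false_or, true_and, zero_lt_one, true_or, true_iff,
    not_lt_zero, false_and, or_self, false_iff] <;> omega

/-- the hubs of the moat of `n` -/
def mo (n : N) (i : ℕ) : N ⊕ N × Fin (r0 + 1) := inr (n, Fin.ofNat (r0 + 1) i)

theorem pos_mo {j : K} {n : N} {i i' : ℕ} (h : i < r0 + 1) (h' : i' < r0 + 1) :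
    W.pos j (inl (mo n i)) < W.pos j (inl (mo n i')) ↔
      el (r0 + 1) (W.port j n) i < el (r0 + 1) (W.port j n) i' := by
  rw [mo, mo, pos_mm]
  simp [Nat.mod_eq_of_lt h, Nat.mod_eq_of_lt h']

/-- **The moats.** -/
theorem moat (ev : r0 % 2 = 0) (two : 2 ≤ r0) (j : K) (n : N) :
    MoatSt W.S.tB W.S.hO (W.pos j) (r0 + 1) (W.port j n) (inl n) (mo n) := by
  have v : ∀ i < r0 + 1, ((Fin.ofNat (r0 + 1) i : Fin (r0 + 1)) : ℕ) = i := fun i hi =>
    Nat.mod_eq_of_lt hi
  have rot : ∀ i < r0 + 1, finRotate (r0 + 1) (Fin.ofNat (r0 + 1) i) =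
      Fin.ofNat (r0 + 1) (sc (r0 + 1) i) := fun i hi => by
    refine Fin.ext ?_
    rw [v _ (sc_lt' hi), finRotate_apply, Fin.val_add_one, sc]
    simp only [Fin.ext_iff, v i hi, Fin.val_last, Nat.add_right_cancel_iff]
  have hp := (W.port j n).2
  refine ⟨by omega, by omega, hp, fun i hi => ?_, fun p h1 h2 => ?_, by simp [mo],
    fun i hi => by simp only [mo, Stat.tB, Forest.tB0, rot i hi], fun i hi L h => ?_, rfl,
    fun i hi p h => ?_⟩
  · rw [W.pos_mo (el_lt hp (by omega)) (el_lt hp hi), el_el hp (by omega), el_el hp hi]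
    omega
  · by_cases c : nd p = n
    · rcases p with n' | ⟨n', i⟩ <;> obtain rfl : n' = n := c
      · rw [← not_lt, mo] at h1 h2
        exact absurd ((W.lay j (inl n')).injective (le_antisymm (not_lt.1 (mt W.pos_nm.2 h1))
          (not_lt.1 (mt W.pos_mn.2 h2)))) (by decide)
      · exact ⟨i, i.2, by simp [mo]⟩
    · refine absurd ((W.pos_congr (p := mo n (W.port j n)) (p' := p) (Ne.symm c) ?_ rfl).2
        (lt_of_le_of_ne h1 fun a => c (by
          rw [← inl.inj (((W.S.O.cyc j).inj trivial trivial) a)]; rfl))) (not_lt.2 h2)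
      rfl
  · rcases L with (n' | ⟨n', i'⟩) | z
    · simp only [Stat.tB, Forest.tB0, mo] at h
      split_ifs at h <;> simp at h
    · simp only [Stat.tB, Forest.tB0, mo, Option.some.injEq, inl.injEq, inr.injEq,
        Prod.mk.injEq] at h
      obtain ⟨rfl, h⟩ := h
      have := rot _ (pr_lt' hi)
      rw [sc_pr hi, ← h] at this
      exact Or.inr (by rw [mo, (finRotate (r0 + 1)).injective this])
    · simp [Stat.tB, Stat.sl, slab, Pre.lab, mo] at h
  · rcases p with n' | w
    · simp only [Stat.hO, mo, Option.some.injEq, inl.injEq, inr.injEq, Prod.mk.injEq] at h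
      obtain ⟨rfl, h⟩ := h
      exact Or.inr ⟨by rw [← v i hi, ← h]; rfl, rfl⟩
    · simp [Stat.hO, Stat.sl, slab, Pre.lab, mo] at h

/-- the moat comes before the node -/
theorem front {j : K} {n : N} (h : W.lay j (inl n) 0 < W.lay j (inl n) 1) :
    Front (W.pos j) (r0 + 1) (W.port j n) (inl n) (mo n) := by
  refine ⟨W.pos_mn.2 h, fun p hp => ?_⟩
  by_cases c : nd p = n
  · rcases p with n' | ⟨n', i⟩ <;> obtain rfl : n' = n := c
    · exact le_rfl
    · have a := (W.port j n').2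
      have := el_lt a i.2
      rw [mo, pos_mm] at hp
      simp only [Fin.val_ofNat, Nat.mod_eq_of_lt (el_lt a (Nat.sub_lt r0.succ_pos one_pos)),
        el_el a (Nat.sub_lt r0.succ_pos one_pos)] at hp
      omega
  · exact ((W.pos_congr (p := mo n _) (u := inl n) (p' := p) (Ne.symm c) rfl rfl).2 hp).le

end Wd

/-- **The labels exist for all orders of the blocks.** -/
theorem exists_wd (K : Type) [Finite K] [DecidableEq K] [Nonempty K] (k r r0 s D q0 : ℕ)
    (h1 : 12 ≤ k) (h2 : k ≤ 2 * r + 8) (h3 : k ≤ r0) (hD : 2 * (s + (2 * k + 4)) + 4 + k ≤ D) :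
    ∃ (q b : ℕ) (N : Type) (_ : Finite N) (F : Fo K N r r0 q D k b), q0 ≤ q ∧
      (∀ x y l, 1 ≤ l → l ≤ 2 * s + 4 → (F.anc x l = F.anc y l ↔ x.1 = y.1)) ∧
      ∀ (β : Type) [LinearOrder β] (A : Dyn K N β r0),
        ∃ x, (⟨A, F, x⟩ : Wd K N β r r0 q D k b).S.Good k := by
  obtain ⟨q, b, N, F, a1, a2, a3, a4⟩ :=
    exists_stat K k r r0 s D (4 * Nat.card K + 48 * (Nat.card K * Nat.card K) + 4) q0 h1 h2 h3 hD
  refine ⟨q, b, N, a2, F, a1, a3, fun β _ A => a4 _ _ (A.pre F) rfl (fun j u t c => ?_) ?_⟩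
  · have k : ∀ z l, 1 ≤ l → l ≤ D → (fun n => some (inl (inl n, (A.lay j (inl n)).symm t)))
        (F.anc (⟨(.tE (j, !u) (c - 1) 0, .H), trivial⟩, z) l) ∈
        {y | (A.pre F).fam j y = u ∧ (A.pre F).tag j y = t ∧ (A.pre F).pc j y = c} := by
      intro z l b1 b2
      refine ⟨?_, Equiv.apply_symm_apply _ _, ?_⟩
      · show decide ((F.tree _).1.1.wor = (j, false)) = u
        rw [F.tree_anc _ b1 b2]
        cases u <;> simp [HT.wor]
      · show (F.tree _).1.1.col + 1 = c
        rw [F.tree_anc _ b1 b2]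
        exact sub_add_cancel _ _
    exact F.many (fun n => (some (inl (inl n, (A.lay j (inl n)).symm t)) : Pt K N))
      (fun n n' a => inl.inj (Prod.ext_iff.1 (inl.inj (Option.some.inj a))).1) _
      ⟨(.tE (j, !u) (c - 1) 0, .H), trivial⟩ (l := D) (l' := D - 1) (by omega) (by omega) (by omega)
      le_rfl (by omega) (by omega)
      fun z => ⟨k z D (by omega) le_rfl, k z (D - 1) (by omega) (by omega)⟩
  · simp only [Finite.card_option, Nat.card_sum, Nat.card_prod, Nat.card_fin,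
      Nat.card_eq_fintype_card (α := Bool), Fintype.card_bool]
    nlinarith [Nat.zero_le (Nat.card K * Nat.card N),
      Nat.zero_le (Nat.card K * Nat.card K * Nat.card N)]

end Pool.Agent.P.MP_439f1f_co
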