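import Pool.Agent.P.MP_439f1f_co.K1

/-!
Blocks, colours and worlds of the lines and of their labels; the final assembly.
-/

set_option autoImplicit false

namespace Pool.Agent.P.MP_439f1f_co

open Sum SimpleGraph Function

variable {K N β : Type} [DecidableEq K] [LinearOrder β] {r r0 q D e b : ℕ}

section stat

variable {Y : Type} (W : Stat K N Y β r r0 q D e b)

/-- the node of the label in a slot -/
noncomputable def Stat.sn (L : Hub K N Y r0) (u : Bool) (σ : Slot (r + 1)) : N :=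
  W.F.anc ((W.typ L u).cls σ, W.x L u (σ.var ((W.typ L u).len r) false),
    W.x L u (σ.var ((W.typ L u).len r) true)) D

theorem Stat.sl_sn (L : Hub K N Y r0) (u : Bool) (σ : Slot (r + 1)) :
    W.sl L u σ = some (inl (inl (W.sn L u σ))) := rfl

theorem Stat.tree_sn (hD : 1 ≤ D) (L : Hub K N Y r0) (u : Bool) (σ : Slot (r + 1)) :
    W.F.tree (W.sn L u σ) = (W.typ L u).cls σ := W.F.tree_anc _ hD le_rfl

theorem Stat.lev_sn (hD : 1 ≤ D) (L : Hub K N Y r0) (u : Bool) (σ : Slot (r + 1)) :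
    W.F.lev (W.sn L u σ) = D := W.F.lev_anc _ _ hD le_rfl

theorem Stat.col_sn (hD : 1 ≤ D) (L : Hub K N Y r0) (u : Bool) (σ : Slot (r + 1)) :
    W.col (W.sn L u σ) = (W.typ L u).col := W.col_anc _ hD le_rfl

theorem Stat.wor_sn (hD : 1 ≤ D) (L : Hub K N Y r0) (u : Bool) (σ : Slot (r + 1)) :
    W.wor (W.sn L u σ) = (W.typ L u).wor := W.wor_anc _ hD le_rfl

theorem Stat.hg_sn {L : Hub K N Y r0} {i : ℕ} {s : Option (Hub K N Y r0)} (h : W.hg L i s) :
    ∃ u σ, σ.act ((W.typ L u).len r) ∧ (W.typ L u).st r + σ.off ((W.typ L u).len r) = i ∧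
      s = some (inl (inl (W.sn L u σ))) :=
  let ⟨u, σ, a1, a2, a3⟩ := h
  ⟨u, σ, a1, a2, a3.symm⟩

/-- **Assembly.** -/
theorem Stat.mnh [Fintype (Hub K N Y r0)] [DecidableEq (Hub K N Y r0)] [Nonempty (Hub K N Y r0)]
    {k k' : ℕ} (g : W.Good k') (hk : k ≤ k') (h4 : 4 ≤ k')
    (safe : ¬(HL (2 * r + 9) W.hang).IsHamiltonian)
    (serve : ∀ u v, u ≠ v → ¬(HL (2 * r + 9) W.hang).Adj u v →
      (HL (2 * r + 9) W.hang ⊔ edge u v).IsHamiltonian) :
    ∃ n : ℕ, ∃ G : SimpleGraph (Fin n), ¬G.IsHamiltonian ∧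
      (∀ u v : Fin n, u ≠ v → ¬G.Adj u v →
        (G ⊔ SimpleGraph.fromEdgeSet {s(u, v)}).IsHamiltonian) ∧ ¬G.IsAcyclic ∧ k ≤ G.girth := by
  obtain ⟨n, G, a1, a2, a3, a4⟩ := assemble h4 (by
    have := Fintype.card_pos (α := Hub K N Y r0)
    simp only [Fintype.card_sum, Fintype.card_prod, Fintype.card_fin]
    nlinarith) le_rfl g.girth safe serve
  exact ⟨n, G, a1, a2, a3, hk.trans a4⟩

end stat

variable [Finite K] [Finite N] [Nonempty K]

namespace Wd

variable (W : Wd K N β r r0 q D e b)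

/-- the loop of a hub and of its line -/
noncomputable def lo (L : Hub K N (Pt K N) r0) : Lop N K := W.B.rings.lo (elt L)

omit [Finite K] [Finite N] [Nonempty K] in
@[simp] theorem lo_n (n : N) : W.lo (inl (inl n)) = inl (inl n, 1) := rfl
omit [Finite K] [Finite N] [Nonempty K] in
@[simp] theorem lo_m (w : N × Fin (r0 + 1)) : W.lo (inl (inr w)) = inl (inl w.1, 0) := rfl
omit [Finite K] [Finite N] [Nonempty K] in
@[simp] theorem lo_s (j : K) (y : Lop N K) (i : Fin 3) : W.lo (inr (j, some y, i)) = y := rfl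
omit [Finite K] [Finite N] [Nonempty K] in
@[simp] theorem lo_h (j : K) (i : Fin 3) : W.lo (inr (j, none, i)) = inl (inr (inl j), 0) := rfl

@[simp] theorem lo_dA (L : Hub K N (Pt K N) r0) : W.lo (W.S.O.dA L) = W.lo L := W.B.rings.lo_dA L

@[simp] theorem lo_dA_symm (L : Hub K N (Pt K N) r0) : W.lo (W.S.O.dA.symm L) = W.lo L :=
  W.B.rings.lo_dA_symm L

/-- the line `L` lies in the block of the node `n` -/
def In (L : Hub K N (Pt K N) r0) (n : N) : Prop := ∃ i, W.lo L = inl (inl n, i)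

omit [Finite K] [Finite N] [Nonempty K] in
theorem In.unique {W : Wd K N β r r0 q D e b} {L : Hub K N (Pt K N) r0} {n n' : N} (h : W.In L n)
    (h' : W.In L n') : n = n' := by
  obtain ⟨i, h⟩ := h
  obtain ⟨i', h'⟩ := h'
  exact inl.inj (Prod.ext_iff.1 (inl.inj (h.symm.trans h'))).1

omit [Finite K] [Finite N] [Nonempty K] in
theorem in_pay (p : N ⊕ N × Fin (r0 + 1)) : W.In (inl p) (nd p) := by cases p <;> exact ⟨_, rfl⟩

theorem in_dA {L : Hub K N (Pt K N) r0} {n : N} : W.In (W.S.O.dA L) n ↔ W.In L n := by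
  simp only [In, lo_dA]

theorem col_tt (L : Hub K N (Pt K N) r0) : (W.S.tt L).col = pcol W.F (some (W.lo L)) := by
  rcases L with (n | w) | ⟨j, _ | y, i⟩ <;> rfl

theorem col_ht (L : Hub K N (Pt K N) r0) : (W.S.ht L).col = pcol W.F (some (W.lo L)) := by
  rcases L with (n | w) | ⟨j, _ | y, i⟩ <;> rfl

/-- the colour of both halves of a line depends on its loop only -/
theorem col_typ (L : Hub K N (Pt K N) r0) (u : Bool) :
    (W.S.typ L u).col = pcol W.F (some (W.lo L)) := by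
  cases u
  exacts [W.col_tt L, (W.col_ht _).trans (by rw [lo_dA])]

theorem col_in {L : Hub K N (Pt K N) r0} {n : N} (h : W.In L n) (u : Bool) :
    (W.S.typ L u).col = W.S.col n + 1 := by
  obtain ⟨i, h⟩ := h
  rw [col_typ, h]
  rfl

/-- a line does not lie in a block of the colour of its labels -/
theorem col_ne (hD : 1 ≤ D) {L : Hub K N (Pt K N) r0} {n : N} (h : W.In L n) (u : Bool)
    (σ : Slot (r + 1)) : W.S.col (W.S.sn L u σ) ≠ W.S.col n := by
  have : ∀ c : ZMod 3, c + 1 ≠ c := by decide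
  rw [W.S.col_sn hD, W.col_in h]
  exact this _

/-- a port of a system does not lie in the world of the system -/
theorem wor_ne {j : K} {y : Pt K N} {i : Fin 3} {n : N} (h : W.In (inr (j, y, i)) n) :
    W.S.wor n ≠ (j, W.S.fam j y) := by
  obtain ⟨a, h⟩ := h
  rcases y with _ | y
  · simp at h
  · obtain rfl : y = _ := h
    show _ ≠ (j, W.B.fam j n)
    cases c : W.B.fam j n
    exacts [W.fam_ne.1 c, by rw [W.fam_eq.1 c]; simp]

/-- the ring of a port in a payload block -/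
theorem fam_in {j : K} {y : Pt K N} {i : Fin 3} {n : N} (h : W.In (inr (j, y, i)) n) :
    W.S.fam j y = W.B.fam j n := by
  obtain ⟨a, h⟩ := h
  rcases y with _ | y
  · simp at h
  · obtain rfl : y = _ := h
    rfl

end Wd

end Pool.Agent.P.MP_439f1f_co
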