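import Pool.Agent.P.MP_439f1f_co.K2
import Pool.Agent.P.MP_439f1f_co.B14

/-!
The inventory of the vertices: positions of the slots, direct accesses.
-/

set_option autoImplicit false

namespace Pool.Agent.P.MP_439f1f_co

open Sum SimpleGraph Function

variable {K N Y β : Type} [DecidableEq K] [LinearOrder β] {r r0 q D e b : ℕ}

/-- the vertices of the graph -/
abbrev Vx (K N Y : Type) (r r0 : ℕ) : Type :=
  Option (Hub K N Y r0) ⊕ Hub K N Y r0 × Fin (2 * r + 9 + 1)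

namespace Stat

variable (W : Stat K N Y β r r0 q D e b)

/-- the slot `σ` of the half `u` is in use and lies at the position `i` of the line `L` -/
structure At (L : Hub K N Y r0) (i : ℕ) (u : Bool) (σ : Slot (r + 1)) : Prop where
  act : σ.act ((W.typ L u).len r)
  off : (W.typ L u).st r + σ.off ((W.typ L u).len r) = i

/-- the line ends at a moat hub -/
def Mo (L : Hub K N Y r0) : Prop := ∃ w, W.O.dA L = inl (inr w)

variable {W} {L L' : Hub K N Y r0} {i i' : ℕ} {u u' : Bool} {σ σ' : Slot (r + 1)}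

theorem At.hg (h : W.At L i u σ) : W.hg L i (some (inl (inl (W.sn L u σ)))) :=
  h.off ▸ W.hg_sl h.act

theorem At.hang (h : W.At L i u σ) : W.hang L i (some (inl (inl (W.sn L u σ)))) := Or.inr h.hg

theorem hg_at {s : Option (Hub K N Y r0)} :
    W.hg L i s ↔ ∃ u σ, W.At L i u σ ∧ s = some (inl (inl (W.sn L u σ))) :=
  ⟨fun h => let ⟨u, σ, a1, a2, a3⟩ := W.hg_sn h; ⟨u, σ, ⟨a1, a2⟩, a3⟩,
    fun ⟨_, _, a, c⟩ => c ▸ a.hg⟩

theorem At.tree (hD : 1 ≤ D) (h : W.At L i u σ) :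
    W.F.tree (W.sn L u σ) = ⟨(W.typ L u, σ), h.act⟩ := by rw [W.tree_sn hD, HT.cls_eq h.act]

theorem At.sn (h : W.At L i u σ) : W.sn L u σ = W.F.anc (⟨(W.typ L u, σ), h.act⟩,
    W.x L u (σ.var ((W.typ L u).len r) false), W.x L u (σ.var ((W.typ L u).len r) true)) D := by
  rw [Stat.sn, HT.cls_eq h.act]

/-- the first half ends at `r + 4` -/
theorem At.half (h : W.At L i u σ) : u = false ↔ i ≤ r + 4 := by
  have := h.off
  have := W.st_tt L
  have := W.st_ht L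
  have := σ.off_le (ρ := (W.typ L false).len r)
  cases u <;> simp <;> omega

theorem At.le (h : W.At L i u σ) : i ≤ 2 * r + 9 := by
  have := h.off
  have := W.st_tt L
  have := W.st_ht L
  have := W.len_ht L
  have := σ.off_le (ρ := (W.typ L u).len r)
  cases u <;> omega

theorem At.half_eq (h : W.At L i u σ) (h' : W.At L' i u' σ') : u = u' := by
  have := h.half
  have := h'.half
  cases u <;> cases u' <;> simp_all
  omega

/-- the slots at one position -/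
theorem At.slot (h : W.At L i u σ) (h' : W.At L i u' σ') : u = u' ∧ (σ = σ' ∨
    (σ = .X1 ∧ σ' = .X2) ∨ (σ = .X2 ∧ σ' = .X1) ∨ (σ = .Y1 ∧ σ' = .Y2) ∨ (σ = .Y2 ∧ σ' = .Y1)) := by
  obtain rfl := h.half_eq h'
  exact ⟨rfl, Slot.off_eq h.act h'.act (by have := h.off; have := h'.off; omega)⟩

theorem typ_half (h : W.typ L u = W.typ L' u') : u = u' := by
  have := congrArg (HT.st r) h
  have := W.st_le L
  have := W.st_le L'
  have := W.st_ht L
  have := W.st_ht L'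
  cases u <;> cases u' <;> first | rfl | omega

/-- labels of one class lie at the same position of halves of the same type -/
theorem At.same (hD : 1 ≤ D) (h : W.At L i u σ) (h' : W.At L' i' u' σ') :
    W.F.tree (W.sn L u σ) = W.F.tree (W.sn L' u' σ') ↔ W.typ L u = W.typ L' u' ∧ σ = σ' := by
  rw [h.tree hD, h'.tree hD]
  simp

theorem At.pos_eq (h : W.At L i u σ) (h' : W.At L' i' u' σ) (c : W.typ L u = W.typ L' u') :
    i = i' := by rw [← h.off, ← h'.off, c]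

theorem At.tree_ne (hD : 1 ≤ D) (h : W.At L i u σ) (h' : W.At L' i' u' σ') (ne : i ≠ i') :
    W.F.tree (W.sn L u σ) ≠ W.F.tree (W.sn L' u' σ') := fun c => by
  obtain ⟨c', rfl⟩ := (h.same hD h').1 c
  exact ne (h.pos_eq h' c')

theorem At.move (h : W.At L i u σ) (c : W.typ L u = W.typ L' u) : W.At L' i u σ :=
  ⟨c ▸ h.act, c ▸ h.off⟩

/-- consecutive slots of one half share a coordinate -/
theorem At.link (h : W.At L i u σ) (h' : W.At L (i + 1) u σ') :
    σ.var ((W.typ L u).len r) (σ.lk σ').1 = σ'.var ((W.typ L u).len r) (σ.lk σ').2 :=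
  Slot.link h.act h'.act (by have := h.off; have := h'.off; omega)

theorem not_mo_sl (j : K) (z : Y × Fin 3) : ¬W.Mo (W.O.sl j z) := by simp [Mo]
theorem not_mo_nd (n : N) : ¬W.Mo (W.O.dA.symm (inl (inl n))) := by simp [Mo]
theorem mo_mo (w : N × Fin (r0 + 1)) : W.Mo (W.O.dA.symm (inl (inr w))) := ⟨w, by simp⟩

theorem len_mo (h : W.Mo L) : ((W.typ L true).len r : ℕ) = r + 1 :=
  ((W.len_ht L).resolve_right fun c => h.elim c.2).1

theorem len_nm (h : ¬W.Mo L) : ((W.typ L true).len r : ℕ) = r :=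
  ((W.len_ht L).resolve_left fun c => h c.2).1

theorem st_pay (p : N ⊕ N × Fin (r0 + 1)) : (W.typ (inl p) false).st r = 1 := by cases p <;> rfl
theorem st_sys (z : K × Y × Fin 3) : (W.typ (inr z) false).st r = 0 := rfl

section table

variable (W)

theorem sys_H (z : K × Y × Fin 3) : W.At (inr z) 0 false .H := ⟨trivial, rfl⟩
theorem sys_X1 (z : K × Y × Fin 3) : W.At (inr z) 1 false .X1 := ⟨trivial, rfl⟩
theorem sys_X2 (z : K × Y × Fin 3) : W.At (inr z) 1 false .X2 := ⟨trivial, rfl⟩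
theorem pay_H (p : N ⊕ N × Fin (r0 + 1)) : W.At (inl p) 1 false .H := ⟨trivial, st_pay p⟩
theorem pay_X1 (p : N ⊕ N × Fin (r0 + 1)) : W.At (inl p) 2 false .X1 :=
  ⟨trivial, by rw [st_pay]; rfl⟩
theorem pay_X2 (p : N ⊕ N × Fin (r0 + 1)) : W.At (inl p) 2 false .X2 :=
  ⟨trivial, by rw [st_pay]; rfl⟩
theorem lo_Y1 (L : Hub K N Y r0) : W.At L (r + 3) false .Y1 :=
  ⟨trivial, by have := W.st_tt L; simp only [Slot.off]; omega⟩
theorem lo_Y2 (L : Hub K N Y r0) : W.At L (r + 3) false .Y2 :=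
  ⟨trivial, by have := W.st_tt L; simp only [Slot.off]; omega⟩
theorem lo_Z (L : Hub K N Y r0) : W.At L (r + 4) false .Z := ⟨trivial, W.st_tt L⟩
theorem hi_H (L : Hub K N Y r0) : W.At L (r + 5) true .H := ⟨trivial, W.st_ht L⟩
theorem hi_X1 (L : Hub K N Y r0) : W.At L (r + 6) true .X1 := ⟨trivial, by rw [W.st_ht]; rfl⟩
theorem hi_X2 (L : Hub K N Y r0) : W.At L (r + 6) true .X2 := ⟨trivial, by rw [W.st_ht]; rfl⟩

variable {W}

theorem mo_Z (h : W.Mo L) : W.At L (2 * r + 9) true .Z :=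
  ⟨trivial, by rw [W.st_ht, Slot.off, len_mo h]; omega⟩
theorem mo_Y1 (h : W.Mo L) : W.At L (2 * r + 8) true .Y1 :=
  ⟨trivial, by rw [W.st_ht, Slot.off, len_mo h]; omega⟩
theorem mo_Y2 (h : W.Mo L) : W.At L (2 * r + 8) true .Y2 :=
  ⟨trivial, by rw [W.st_ht, Slot.off, len_mo h]; omega⟩
theorem nm_Z (h : ¬W.Mo L) : W.At L (2 * r + 8) true .Z :=
  ⟨trivial, by rw [W.st_ht, Slot.off, len_nm h]; omega⟩
theorem nm_Y1 (h : ¬W.Mo L) : W.At L (2 * r + 7) true .Y1 :=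
  ⟨trivial, by rw [W.st_ht, Slot.off, len_nm h]; omega⟩
theorem nm_Y2 (h : ¬W.Mo L) : W.At L (2 * r + 7) true .Y2 :=
  ⟨trivial, by rw [W.st_ht, Slot.off, len_nm h]; omega⟩

end table

theorem At.zero (h : W.At L 0 u σ) : (∃ z, L = inr z) ∧ u = false ∧ σ = .H := by
  obtain rfl := h.half.2 (by omega)
  have := h.off
  exact ⟨(W.st_zero L).1 (by omega), rfl,
    (Slot.off_zero (ρ := (W.typ L false).len r)).1 (by omega)⟩

theorem At.last (h : W.At L (2 * r + 9) u σ) : W.Mo L ∧ u = true ∧ σ = .Z := by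
  have a := (W.hg_last.1 h.hg).1
  have := h.slot (mo_Z a)
  exact ⟨a, this.1, by simpa using this.2⟩

theorem At.H_lo (h : W.At L i false .H) : (i = 0 ∧ ∃ z, L = inr z) ∨ (i = 1 ∧ ∃ p, L = inl p) := by
  rcases L with p | z
  exacts [Or.inr ⟨h.pos_eq (W.pay_H p) rfl, p, rfl⟩, Or.inl ⟨h.pos_eq (W.sys_H z) rfl, z, rfl⟩]

theorem At.Z_hi (h : W.At L i true .Z) :
    (i = 2 * r + 9 ∧ W.Mo L) ∨ (i = 2 * r + 8 ∧ ¬W.Mo L) := by
  by_cases c : W.Mo L
  exacts [Or.inl ⟨h.pos_eq (mo_Z c) rfl, c⟩, Or.inr ⟨h.pos_eq (nm_Z c) rfl, c⟩]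

variable (W) in
theorem at_mid (L : Hub K N Y r0) (h0 : 0 < i) (h1 : i < 2 * r + 9) : ∃ u σ, W.At L i u σ :=
  let ⟨u, σ, a1, a2⟩ := W.hg_ex L h0 h1
  ⟨u, σ, a1, a2⟩

variable (W) in
/-- **Direct access**: the vertex next to `v` on the line `z`, above (`d = true`) or below, hangs
on the label in the slot `σ` of the half `u` at the position `i`. -/
def Acc (d : Bool) (v : Vx K N Y r r0) (z : Hub K N Y r0) (i : ℕ) (u : Bool) (σ : Slot (r + 1)) :
    Prop :=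
  W.At z i u σ ∧ ((v = inl (some (cond d z (W.O.dA z))) ∧ i = cond d 0 (2 * r + 9)) ∨
    ∃ k : Fin (2 * r + 9 + 1), v = inr (z, k) ∧ cond d ((k : ℕ) + 1 = i) (i + 1 = k))

variable {d : Bool} {v : Vx K N Y r r0} {z : Hub K N Y r0}

theorem Acc.at (h : W.Acc d v z i u σ) : W.At z i u σ := h.1

/-- an access is a pointer in every state -/
theorem Acc.ptr (h : W.Acc d v z i u σ) (j : K) :
    Ptr (2 * r + 9) W.hang some (W.O.nxt j) d v z (some (inl (inl (W.sn z u σ)))) := by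
  obtain ⟨a, ⟨rfl, rfl⟩ | ⟨k, rfl, c⟩⟩ := h
  · cases d
    · obtain ⟨⟨w, c⟩, -⟩ := a.last
      exact Or.inl ⟨by simp only [cond_false, c, W.O.nxt_pay c], a.hang⟩
    · exact Ptr.tail a.hang
  · have := a.le
    cases d
    · exact Ptr.down (by simp only [cond_false] at c; omega)
        (by simp only [cond_false] at c; rw [← c]; exact a.hang)
    · exact Ptr.up (by simp only [cond_true] at c; omega)
        (by simp only [cond_true] at c; rw [c]; exact a.hang)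

theorem Acc.other (h : W.Acc d v z i u σ) (a : W.At z i u' σ') : W.Acc d v z i u' σ' := ⟨a, h.2⟩

theorem At.up {k : Fin (2 * r + 9 + 1)} (h : W.At z (k + 1) u σ) :
    W.Acc true (inr (z, k)) z (k + 1) u σ := ⟨h, Or.inr ⟨k, rfl, rfl⟩⟩

theorem At.dn {k : Fin (2 * r + 9 + 1)} (h : W.At z i u σ) (c : i + 1 = k) :
    W.Acc false (inr (z, k)) z i u σ := ⟨h, Or.inr ⟨k, rfl, c⟩⟩

variable (W) in
theorem acc_sys (z : K × Y × Fin 3) : W.Acc true (inl (some (inr z))) (inr z) 0 false .H :=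
  ⟨W.sys_H z, Or.inl ⟨rfl, rfl⟩⟩

variable (W) in
theorem acc_moat (w : N × Fin (r0 + 1)) : W.Acc false (inl (some (inl (inr w))))
    (W.O.dA.symm (inl (inr w))) (2 * r + 9) true .Z :=
  ⟨mo_Z (mo_mo w), Or.inl ⟨by simp, rfl⟩⟩

variable (W) in
theorem acc_up (z : Hub K N Y r0) (k : Fin (2 * r + 9 + 1))
    (h : (k : ℕ) + 1 < 2 * r + 9 ∨ ((k : ℕ) + 1 = 2 * r + 9 ∧ W.Mo z)) :
    ∃ u σ, W.Acc true (inr (z, k)) z (k + 1) u σ := by
  rcases h with h | h
  · obtain ⟨u, σ, a⟩ := W.at_mid z (Nat.succ_pos k) h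
    exact ⟨u, σ, a.up⟩
  · exact ⟨true, .Z, At.up (by rw [h.1]; exact mo_Z h.2)⟩

variable (W) in
theorem acc_dn (z : Hub K N Y r0) (k : Fin (2 * r + 9 + 1))
    (h : 2 ≤ (k : ℕ) ∨ ((k : ℕ) = 1 ∧ ∃ y, z = inr y)) :
    ∃ u σ, W.Acc false (inr (z, k)) z (k - 1) u σ := by
  rcases h with h | ⟨h, y, rfl⟩
  · obtain ⟨u, σ, a⟩ := W.at_mid z (i := k - 1) (by omega) (by omega)
    exact ⟨u, σ, a.dn (by omega)⟩
  · exact ⟨false, .H, At.dn (by rw [h]; exact W.sys_H y) (by omega)⟩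

/-- the forms of an access -/
theorem Acc.cases (h : W.Acc d v z i u σ) :
    (d = true ∧ ∃ y, z = inr y ∧ v = inl (some z) ∧ i = 0 ∧ u = false ∧ σ = .H) ∨
    (d = false ∧ ∃ w, W.O.dA z = inl (inr w) ∧ v = inl (some (inl (inr w))) ∧ i = 2 * r + 9 ∧
      u = true ∧ σ = .Z) ∨
    ∃ k : Fin (2 * r + 9 + 1), v = inr (z, k) ∧ cond d ((k : ℕ) + 1 = i) (i + 1 = k) := by
  obtain ⟨a, ⟨rfl, rfl⟩ | c⟩ := h
  · cases d
    · obtain ⟨⟨w, c⟩, c'⟩ := a.last
      exact Or.inr (Or.inl ⟨rfl, w, c, by rw [cond_false, c], rfl, c'⟩)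
    · obtain ⟨⟨y, c⟩, c'⟩ := a.zero
      exact Or.inl ⟨rfl, y, c, rfl, rfl, c'⟩
  · exact Or.inr (Or.inr c)

variable (W) in
/-- **Every vertex is the centre, a node, or has a direct access.** -/
theorem inv (v : Vx K N Y r r0) :
    v = inl none ∨ (∃ n, v = inl (some (inl (inl n)))) ∨ ∃ d z i u σ, W.Acc d v z i u σ := by
  rcases v with (_ | (n | w) | y) | ⟨z, k⟩
  · exact Or.inl rfl
  · exact Or.inr (Or.inl ⟨n, rfl⟩)
  · exact Or.inr (Or.inr ⟨_, _, _, _, _, W.acc_moat w⟩)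
  · exact Or.inr (Or.inr ⟨_, _, _, _, _, W.acc_sys y⟩)
  · rcases le_or_gt 2 (k : ℕ) with c | c
    · obtain ⟨u, σ, a⟩ := W.acc_dn z k (Or.inl c)
      exact Or.inr (Or.inr ⟨_, _, _, _, _, a⟩)
    · obtain ⟨u, σ, a⟩ := W.acc_up z k (Or.inl (by omega))
      exact Or.inr (Or.inr ⟨_, _, _, _, _, a⟩)

/-- a label that is not joined to the position `i` differs from the label there in a coordinate -/
theorem At.coord (h : W.At L i u σ) {a a' : Fin q}
    (na : ¬W.hang L i (W.lab ⟨(W.typ L u, σ), h.act⟩ a a')) :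
    a ≠ W.x L u (σ.var ((W.typ L u).len r) false) ∨
      a' ≠ W.x L u (σ.var ((W.typ L u).len r) true) := by
  by_contra c
  obtain ⟨rfl, rfl⟩ : a = _ ∧ a' = _ := by simpa using c
  exact na (W.sl_eq h.act ▸ h.hang)

/-- every label hangs on a line -/
theorem Good.use {k : ℕ} (g : W.Good k) {n : N} (h : W.F.lev n = D) :
    ∃ L i u σ, W.At L i u σ ∧ W.sn L u σ = n := by
  obtain ⟨-, -, ⟨c, a, a'⟩, hx⟩ := W.F.surj n
  obtain ⟨L, u, a1, -, -, a2⟩ := g.cover c a a'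
  refine ⟨L, _, u, c.1.2, ⟨a1 ▸ c.2, rfl⟩, ?_⟩
  rw [← hx, h]
  simpa [sl_sn, Pre.lab] using a2

end Stat

end Pool.Agent.P.MP_439f1f_co
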