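import Pool.Agent.P.MP_439f1f_co.Lp2

/-!
Loops with ports: balance at a hub, and the list of windows.
-/

set_option autoImplicit false

namespace Pool.Agent.P.MP_439f1f_co

open Function Sum

variable {P Y K β γ : Type*} [LinearOrder β] [LinearOrder γ]

namespace Loops

variable {O : Loops P Y K β γ} {m : ℕ}
  {hang : P ⊕ K × Y × Fin 3 → ℕ → Option (P ⊕ K × Y × Fin 3) → Prop}
  {tB : P ⊕ K × Y × Fin 3 → Option (P ⊕ K × Y × Fin 3)} {hO : P → Option (P ⊕ K × Y × Fin 3)}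
  {x y : Option (P ⊕ K × Y × Fin 3)} {τ η : P ⊕ K × Y × Fin 3 → Option (P ⊕ K × Y × Fin 3)}
  {L0 : P ⊕ K × Y × Fin 3} [DecidableEq K]

/-- the hub of an end in the reference configuration of the state `j0` -/
def rf (O : Loops P Y K β γ) (j0 : K) (a : En (P ⊕ K × Y × Fin 3)) :
    Option (P ⊕ K × Y × Fin 3) := a.hub none none some fun L => some (O.nxt j0 L)

@[simp] theorem rf_tl (j0 : K) (L : P ⊕ K × Y × Fin 3) : O.rf j0 (.tl L) = some L := rfl
@[simp] theorem rf_hd (j0 : K) (L : P ⊕ K × Y × Fin 3) :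
    O.rf j0 (.hd L) = some (O.nxt j0 L) := rfl
@[simp] theorem rf_lo (j0 : K) : O.rf j0 .lo = none := rfl
@[simp] theorem rf_hi (j0 : K) : O.rf j0 .hi = none := rfl

theorem rf_some {j0 : K} {a : En (P ⊕ K × Y × Fin 3)} {v : P ⊕ K × Y × Fin 3} :
    O.rf j0 a = some v ↔ a = .tl v ∨ a = .hd ((O.nxt j0).symm v) := by
  cases a <;> simp [Equiv.eq_symm_apply]

theorem rf_none {j0 : K} {a : En (P ⊕ K × Y × Fin 3)} :
    O.rf j0 a = none ↔ a = .lo ∨ a = .hi := by
  cases a <;> simp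

/-- the line into a payload hub does not depend on the state -/
theorem prv_pay (j0 : K) (p : P) : (O.nxt j0).symm (inl p) = O.dA.symm (inl p) :=
  (Equiv.symm_apply_eq _).2 (O.nxt_pay (O.dA.apply_symm_apply _)).symm

variable [Finite P] [Finite Y] [Finite K]

/-- A new end or token sits at `v`: the tail of `v` or the head into `v` left. -/
theorem Fit.out (F : O.Fit m hang tB hO) (j0 : K) (h : Ends m hang x y τ η)
    {v : P ⊕ K × Y × Fin 3} (a : En (P ⊕ K × Y × Fin 3)) (h1 : a.hub x y τ η = some v)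
    (h2 : O.rf j0 a ≠ some v) : τ v ≠ some v ∨ η ((O.nxt j0).symm v) ≠ some v := by
  obtain ⟨b, b1, b2⟩ := h.out_of_in (F.ref j0) (U := {some v}) a h1 h2
  rcases rf_some.1 b1 with rfl | rfl
  exacts [Or.inl b2, Or.inr b2]

/-- Two new ends or tokens sit at `v`: both left. -/
theorem Fit.out2 (F : O.Fit m hang tB hO) (j0 : K) (h : Ends m hang x y τ η)
    {v : P ⊕ K × Y × Fin 3} (a a' : En (P ⊕ K × Y × Fin 3)) (ne : a ≠ a')
    (h1 : a.hub x y τ η = some v) (h2 : O.rf j0 a ≠ some v) (h3 : a'.hub x y τ η = some v)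
    (h4 : O.rf j0 a' ≠ some v) : τ v ≠ some v ∧ η ((O.nxt j0).symm v) ≠ some v := by
  obtain ⟨b, b', ⟨b1, b2⟩, ⟨b3, b4⟩, b5⟩ :=
    h.out_of_in2 (F.ref j0) (U := {some v}) a a' ne h1 h2 h3 h4
  rcases rf_some.1 b1 with rfl | rfl <;> rcases rf_some.1 b3 with rfl | rfl
  exacts [absurd rfl b5, ⟨b2, b4⟩, ⟨b4, b2⟩, absurd rfl b5]

/-- The tail of `v` or the head into `v` left: a new end or token sits at `v`. -/
theorem Fit.into (F : O.Fit m hang tB hO) (j0 : K) (h : Ends m hang x y τ η)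
    {v : P ⊕ K × Y × Fin 3} (h1 : τ v ≠ some v ∨ η ((O.nxt j0).symm v) ≠ some v) :
    x = some v ∨ y = some v ∨ (∃ L, L ≠ v ∧ τ L = some v) ∨
      ∃ L, O.nxt j0 L ≠ v ∧ η L = some v := by
  obtain ⟨b, b1, b2⟩ : ∃ b : En (P ⊕ K × Y × Fin 3), b.hub x y τ η = some v ∧
      O.rf j0 b ≠ some v := by
    rcases h1 with h1 | h1
    · exact h.in_of_out (F.ref j0) (U := {some v}) (.tl v) rfl h1
    · exact h.in_of_out (F.ref j0) (U := {some v}) (.hd _) (rf_some.2 (Or.inr rfl)) h1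
  cases b with
  | tl L => exact Or.inr (Or.inr (Or.inl ⟨L, fun e => b2 (congrArg some e), b1⟩))
  | hd L => exact Or.inr (Or.inr (Or.inr ⟨L, fun e => b2 (congrArg some e), b1⟩))
  | lo => exact Or.inl b1
  | hi => exact Or.inr (Or.inl b1)

/-- Both left: two different new ends or tokens sit at `v`. -/
theorem Fit.into2 (F : O.Fit m hang tB hO) (j0 : K) (h : Ends m hang x y τ η)
    {v : P ⊕ K × Y × Fin 3} (h1 : τ v ≠ some v) (h2 : η ((O.nxt j0).symm v) ≠ some v) :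
    ∃ a a' : En (P ⊕ K × Y × Fin 3), (a.hub x y τ η = some v ∧ O.rf j0 a ≠ some v) ∧
      (a'.hub x y τ η = some v ∧ O.rf j0 a' ≠ some v) ∧ a ≠ a' :=
  (F.ref j0).out_of_in2 h (U := {some v}) (.tl v) (.hd _) (fun e => nomatch e) rfl h1
    (rf_some.2 (Or.inr rfl)) h2

/-- Balance over a set of hubs without the root: something entered, so a tail or a head left. -/
theorem Fit.out_set (F : O.Fit m hang tB hO) (j0 : K) (h : Ends m hang x y τ η)
    {U : Set (Option (P ⊕ K × Y × Fin 3))} (hU : none ∉ U) (a : En (P ⊕ K × Y × Fin 3))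
    (h1 : a.hub x y τ η ∈ U) (h2 : O.rf j0 a ∉ U) :
    (∃ L, some L ∈ U ∧ τ L ∉ U) ∨ ∃ L, some (O.nxt j0 L) ∈ U ∧ η L ∉ U := by
  obtain ⟨b, b1, b2⟩ := h.out_of_in (F.ref j0) a h1 h2
  cases b with
  | tl L => exact Or.inl ⟨L, b1, b2⟩
  | hd L => exact Or.inr ⟨L, b1, b2⟩
  | lo => exact absurd b1 hU
  | hi => exact absurd b1 hU

/-! ### windows -/

omit [Finite P] [Finite Y] [Finite K] in
/-- the lengths of the runs, cold window -/
theorem win_cold {j0 j1 : K} (c : j1 ≠ j0) {e0 : Y × Fin 3} {n : ℕ} (hn : n ≤ 3)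
    (h : ∀ i, 1 ≤ i → i < n → ((O.gam j0 j1 ^ i) e0).2 ≠ if j1 = j0 then 1 else 2) :
    n = 0 ∨ n = 1 ∨ (n = 2 ∧ e0.2 ≠ 1) ∨ (n = 3 ∧ e0.2 = 2) := by
  obtain ⟨z, r⟩ := e0
  have h1 := h 1 le_rfl
  have h2 := h 2 (by omega)
  simp only [gam_ne c, if_neg c, pow_two, pow_one, Equiv.Perm.mul_apply] at h1 h2
  interval_cases n <;> fin_cases r <;> simp at h1 h2 ⊢

omit [Finite P] [Finite Y] [Finite K] in
theorem win_hot {j0 : K} {e0 : Y × Fin 3} {n : ℕ} (hn : n ≤ 3)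
    (h : ∀ i, 1 ≤ i → i < n → ((O.gam j0 j0 ^ i) e0).2 ≠ if j0 = j0 then 1 else 2) :
    n = 0 ∨ n = 1 ∨ (n = 2 ∧ e0.2 ≠ 2) ∨ (n = 3 ∧ e0.2 = 1) := by
  obtain ⟨z, r⟩ := e0
  have h1 := h 1 le_rfl
  have h2 := h 2 (by omega)
  simp only [gam_self, if_true, pow_two, pow_one, Equiv.Perm.mul_apply] at h1 h2
  interval_cases n <;> fin_cases r <;> simp at h1 h2 ⊢

omit [Finite P] [Finite Y] [Finite K] in
/-- the hub whose tail leaves, cold window -/
theorem alt_cold {j0 j1 : K} (c : j1 ≠ j0) (e0 : Y × Fin 3) (n : ℕ) :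
    O.alt j0 j1 ((O.gam j0 j1 ^ n) e0) = inr (j1, (bt (O.nx j1) ^ (n + 1)) e0) := by
  rw [alt_ne c, gam_ne c, pow_succ', Equiv.Perm.mul_apply]

omit [Finite P] [Finite Y] [Finite K] in
/-- the hub whose tail leaves, hot window -/
theorem alt_hot (j0 : K) (e0 : Y × Fin 3) (n : ℕ) :
    O.alt j0 j0 ((O.gam j0 j0 ^ n) e0) = inr (j0, ((bt (O.nx j0))⁻¹ ^ n) e0) := by
  rw [alt_self, gam_self]

/-! ### tags modulo nine -/

omit [Finite P] [Finite Y] [Finite K] [DecidableEq K] in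
/-- If the loops come in triples that are consecutive in the state `j`, then the place in the
triple increases by one along the cycle of the loops. -/
theorem rank_nx {Y0 β0 : Type*} [LinearOrder β0] (j : K) (b : Y → Y0) (ρ : Y → Fin 3)
    (k0 : Y0 → β0) (hk : ∀ z z', O.key j z < O.key j z' ↔
      k0 (b z) < k0 (b z') ∨ (b z = b z' ∧ ρ z < ρ z'))
    (sur : ∀ z i, ∃ z', b z' = b z ∧ ρ z' = i) (z : Y) : ρ (O.nx j z) = ρ z + 1 := by
  have o := O.hnx j
  by_cases h : ρ z = 2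
  · obtain ⟨w, w1, w2⟩ := sur (O.nx j z) 0
    rw [h]
    by_contra c
    have c1 : O.key j w < O.key j (O.nx j z) := (hk _ _).2 (Or.inr ⟨w1, by
      rw [w2]; exact (Fin.pos_iff_ne_zero' _).2 c⟩)
    rcases o.cases (u := z) trivial with ⟨a1, a2⟩ | ⟨-, a2⟩
    · have a3 := (a2 w trivial).resolve_right (not_le.2 c1)
      have a4 := (hk _ _).not.1 (not_lt.2 a3)
      rcases (hk _ _).1 a1 with d | d
      · exact a4 (Or.inl (w1 ▸ d))
      · have := d.2
        omega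
    · exact absurd (a2 w trivial) (not_le.2 c1)
  · obtain ⟨w, w1, w2⟩ := sur z (ρ z + 1)
    have lt : ρ z < ρ z + 1 := by
      revert h
      generalize ρ z = r
      revert r
      decide
    rw [← w2, O.nx_eq ((hk z w).2 (Or.inr ⟨w1.symm, w2 ▸ lt⟩)) fun v => ?_]
    by_contra c
    push Not at c
    have c1 := (hk _ _).1 c.1
    have c2 := (hk _ _).1 c.2
    rw [w1, w2] at c2
    rcases c1 with c1 | c1 <;> rcases c2 with c2 | c2
    · exact lt_asymm c1 c2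
    · exact absurd c1 (by rw [c2.1]; exact lt_irrefl _)
    · exact absurd c2 (by rw [c1.1]; exact lt_irrefl _)
    · have a := c1.2
      have b := c2.2
      revert a b
      generalize ρ z = r
      generalize ρ v = t
      revert r t
      decide

end Loops

/-- the number of a head on the cycle `bt`, modulo nine -/
def tag (ρ : Y → Fin 3) (e : Y × Fin 3) : ZMod 9 :=
  3 * ((ρ e.1 : ℕ) : ZMod 9) + if e.2 = 0 then 0 else if e.2 = 1 then 4 else 8

theorem tag_bt {s : Equiv.Perm Y} {ρ : Y → Fin 3} (h : ∀ z, ρ (s z) = ρ z + 1) (e : Y × Fin 3) :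
    tag ρ (bt s e) = tag ρ e + 1 := by
  obtain ⟨z, r⟩ := e
  obtain ⟨z, rfl⟩ := s.surjective z
  have k : ∀ a : Fin 3, (3 * ((a + 1 : Fin 3) : ℕ) : ZMod 9) = 3 * (a : ℕ) + 3 := by decide
  have r0 : r = 0 ∨ r = 1 ∨ r = 2 := by
    revert r
    decide
  rcases r0 with rfl | rfl | rfl <;> simp [tag, h, k] <;> grind

theorem tag_pow {s : Equiv.Perm Y} {ρ : Y → Fin 3} (h : ∀ z, ρ (s z) = ρ z + 1) (e : Y × Fin 3)
    (n : ℕ) : tag ρ ((bt s ^ n) e) = tag ρ e + n := by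
  induction n with
  | zero => simp
  | succ n ih => rw [pow_succ', Equiv.Perm.mul_apply, tag_bt h, ih]; push_cast; ring

theorem tag_inv_pow {s : Equiv.Perm Y} {ρ : Y → Fin 3} (h : ∀ z, ρ (s z) = ρ z + 1)
    (e : Y × Fin 3) (n : ℕ) : tag ρ (((bt s)⁻¹ ^ n) e) = tag ρ e - n := by
  have := tag_pow h (((bt s)⁻¹ ^ n) e) n
  rw [show (bt s ^ n) (((bt s)⁻¹ ^ n) e) = e by simp] at this
  rw [this]
  ring

end Pool.Agent.P.MP_439f1f_co
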