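import Pool.Agent.P.MP_439f1f_co.Sy1

/-!
The moat: one loop of `r` hubs (`r` odd), read from the port of the state.  Index lemmas, balance,
closed sets made of whole segments.
-/

set_option autoImplicit false

namespace Pool.Agent.P.MP_439f1f_co

open Function

/-- cyclic predecessor on `0 .. r-1` -/
def pr (r i : ℕ) : ℕ := if i = 0 then r - 1 else i - 1

/-- cyclic successor on `0 .. r-1` -/
def sc (r i : ℕ) : ℕ := if i + 1 = r then 0 else i + 1

theorem pr_zero (r : ℕ) : pr r 0 = r - 1 := rfl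

theorem pr_pos (r : ℕ) {i : ℕ} (h : 0 < i) : pr r i = i - 1 := if_neg (by omega)

theorem sc_lt {r i : ℕ} (h : i + 1 < r) : sc r i = i + 1 := if_neg (by omega)

theorem sc_eq {r i : ℕ} (h : i + 1 = r) : sc r i = 0 := if_pos h

theorem pr_sc {r i : ℕ} : pr r (sc r i) = i := by
  by_cases h : i + 1 = r
  · rw [sc_eq h, pr_zero]
    omega
  · rw [sc, if_neg h, pr_pos _ (by omega)]
    omega

theorem sc_pr {r i : ℕ} (h : i < r) : sc r (pr r i) = i := by
  unfold pr sc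
  split_ifs <;> omega

theorem sc_lt' {r i : ℕ} (h : i < r) : sc r i < r := by
  unfold sc
  split_ifs <;> omega

theorem pr_lt' {r i : ℕ} (h : i < r) : pr r i < r := by
  unfold pr
  split_ifs <;> omega

/-- balance at a hub without a source -/
def Z0 (r : ℕ) (t h : ℕ → Prop) (n : ℕ) : Prop := (t (sc r n) ↔ t n ∨ h n) ∧ ¬(t n ∧ h n)

/-- balance at a hub with one source -/
def Z1 (r : ℕ) (t h : ℕ → Prop) (n : ℕ) : Prop := (t n ∨ h n) ∧ (t (sc r n) ↔ t n ∧ h n)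

section idx
variable {r : ℕ} {t h : ℕ → Prop}

theorem up_of {i j : ℕ} (hij : i ≤ j) (hj : j < r) (b : ∀ n, i ≤ n → n < j → Z0 r t h n)
    (hi : t i) : t j := by
  induction j, hij using Nat.le_induction with
  | base => exact hi
  | succ j hij ih =>
    have := (b j hij (by omega)).1
    rw [sc_lt hj] at this
    exact this.2 (Or.inl (ih (by omega) fun n h1 h2 => b n h1 (by omega)))

/-- `t` passes from `i` to `j` along the cyclic arc that avoids the position `q` -/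
theorem cyc_of {q i j : ℕ} (hq : q < r) (b : ∀ n < r, n ≠ q → Z0 r t h n) (hj : j < r)
    (hij : (q < i ∧ i ≤ j) ∨ (i ≤ j ∧ j ≤ q) ∨ (q < i ∧ i < r ∧ j ≤ q)) (hi : t i) : t j := by
  rcases hij with ⟨h1, h2⟩ | ⟨h1, h2⟩ | ⟨h1, h2, h3⟩
  · exact up_of h2 hj (fun n a1 a2 => b n (by omega) (by omega)) hi
  · exact up_of h1 hj (fun n a1 a2 => b n (by omega) (by omega)) hi
  · have a1 : t (r - 1) :=
      up_of (by omega) (by omega) (fun n a1 a2 => b n (by omega) (by omega)) hi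
    have a2 := (b (r - 1) (by omega) (by omega)).1
    rw [sc_eq (by omega)] at a2
    exact up_of (Nat.zero_le _) hj (fun n a1 a2 => b n (by omega) (by omega)) (a2.2 (Or.inl a1))

/-- no source: no entry, and all tails or no tail moved -/
theorem idx_none (hr : 0 < r) (b : ∀ n < r, Z0 r t h n) :
    (∀ n < r, ¬h n) ∧ ((∀ n < r, t n) ∨ ∀ n < r, ¬t n) := by
  have key : ∀ i < r, ∀ j < r, t i → t j := fun i hi j hj ti => by
    have a0 : t (r - 1) := up_of (by omega) (by omega) (fun n _ a2 => b n (by omega)) ti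
    have a2 := (b (r - 1) (by omega)).1
    rw [sc_eq (by omega)] at a2
    exact up_of (Nat.zero_le _) hj (fun n _ a2 => b n (by omega)) (a2.2 (Or.inl a0))
  refine ⟨fun n hn a => (b n hn).2 ⟨key _ (sc_lt' hn) n hn ((b n hn).1.2 (Or.inr a)), a⟩, ?_⟩
  by_cases a : t 0
  · exact Or.inl fun n hn => key 0 hr n hn a
  · exact Or.inr fun n hn a' => a (key n hn 0 hr a')

/-- one source at `q`: exactly one entry `n`, the moved tails form the arc from `n` to `q` or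
everything -/
theorem idx_one {q : ℕ} (hq : q < r) (b : ∀ n < r, n ≠ q → Z0 r t h n) (b1 : Z1 r t h q) :
    ∃ n < r, h n ∧ (∀ i < r, h i → i = n) ∧ ((n = q ∧ ∀ i < r, t i) ∨
      (n ≤ q ∧ ∀ i < r, (t i ↔ n < i ∧ i ≤ q)) ∨ (q < n ∧ ∀ i < r, (t i ↔ i ≤ q ∨ n < i))) := by
  have cy := fun i j hj hij hi => cyc_of (i := i) (j := j) hq b hj hij hi
  have hs := sc_lt' hq
  have toq : ∀ i < r, t i → t q := fun i hi a => cy i q hq (by omega) a
  have frq : ∀ j < r, t (sc r q) → t j := fun j hj a => cy _ j hj (by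
    unfold sc
    split_ifs <;> omega) a
  have ent : ∀ i < r, i ≠ q → h i → ¬t i ∧ t (sc r i) := fun i hi e a =>
    ⟨fun a' => (b i hi e).2 ⟨a', a⟩, (b i hi e).1.2 (Or.inr a)⟩
  by_cases hh : h q
  · by_cases ht : t q
    · have all := fun j hj => frq j hj (b1.2.2 ⟨ht, hh⟩)
      refine ⟨q, hq, hh, fun i hi a => ?_, Or.inl ⟨rfl, all⟩⟩
      by_contra e
      exact (ent i hi e a).1 (all i hi)
    · refine ⟨q, hq, hh, fun i hi a => ?_, Or.inr (Or.inl ⟨le_rfl, fun i hi =>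
        ⟨fun a => absurd (toq i hi a) ht, fun a => by omega⟩⟩)⟩
      by_contra e
      exact ht (toq _ (sc_lt' hi) (ent i hi e a).2)
  · have ht : t q := b1.1.resolve_right hh
    have hs' : ¬t (sc r q) := fun a => hh (b1.2.1 a).2
    have ex : ∃ n < r, n ≠ q ∧ h n := by
      by_contra ne
      push Not at ne
      have back : ∀ n < r, n ≠ q → Z0 r (fun i => ¬t i) (fun _ => False) n := fun n hn e =>
        ⟨by have := (b n hn e).1; have := ne n hn e; tauto, fun a => a.2⟩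
      exact cyc_of (i := sc r q) (j := q) hq back hq (by
        unfold sc
        split_ifs <;> omega) hs' ht
    obtain ⟨n, hn, hnq, a⟩ := ex
    obtain ⟨e1, e2⟩ := ent n hn hnq a
    have T1 : ∀ i < r, (n < q ∧ n < i ∧ i ≤ q) ∨ (q < n ∧ (i ≤ q ∨ n < i)) → t i :=
      fun i hi hh => cy _ i hi (by
        unfold sc
        split_ifs <;> omega) e2
    have T2 : ∀ i < r, t i → (n < q ∧ n < i ∧ i ≤ q) ∨ (q < n ∧ (i ≤ q ∨ n < i)) :=
      fun i hi ti => by
        by_contra hc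
        exact e1 (cy i n hn (by omega) ti)
    refine ⟨n, hn, a, fun i hi a' => ?_, Or.inr ?_⟩
    · have hiq : i ≠ q := fun e => hh (e ▸ a')
      obtain ⟨f1, f2⟩ := ent i hi hiq a'
      have g1 := mt (T1 i hi) f1
      have g2 := T2 _ (sc_lt' hi) f2
      unfold sc at g2
      split_ifs at g2 <;> omega
    · rcases lt_or_gt_of_ne hnq with l | l
      · exact Or.inl ⟨l.le, fun i hi => ⟨fun a => by have := T2 i hi a; omega,
          fun a => T1 i hi (by omega)⟩⟩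
      · exact Or.inr ⟨l, fun i hi => ⟨fun a => by have := T2 i hi a; omega,
          fun a => T1 i hi (by omega)⟩⟩

end idx

open Classical in
theorem ncard_two {α : Type*} {P : α → Prop} {u v : α} (huv : u ≠ v) (h : ∀ a, P a → a = u ∨ a = v) :
    {a | P a}.ncard = (if P u then 1 else 0) + if P v then 1 else 0 := by
  by_cases h1 : P u <;> by_cases h2 : P v <;> simp only [h1, h2, if_true, if_false]
  · rw [one_add_one_eq_two, ← Set.ncard_pair huv]
    congr 1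
    ext a
    exact ⟨h a, by rintro (rfl | rfl) <;> assumption⟩
  · rw [add_zero, ← Set.ncard_singleton u]
    congr 1
    ext a
    exact ⟨fun b => (h a b).resolve_right fun e => h2 (e ▸ b), by rintro rfl; exact h1⟩
  · rw [zero_add, ← Set.ncard_singleton v]
    congr 1
    ext a
    exact ⟨fun b => (h a b).resolve_left fun e => h1 (e ▸ b), by rintro rfl; exact h2⟩
  · rw [add_zero, ← Set.ncard_empty α]
    congr 1
    ext a
    exact ⟨fun b => (h a b).elim (fun e => h1 (e ▸ b)) fun e => h2 (e ▸ b), False.elim⟩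

/-- The moat of a node in one state.  `d L`, `nx L` are the reference tail and head of the line `L`,
`κ` is the key of the reference order, `a 0, .., a (r-1)` are the hubs of the moat from the port on,
`a r` is the node, `a p` is the hub next to the node; `Lo n` starts at `a n`, `Wi n` ends at
`a n`. -/
structure Moat {S Λ β : Type*} [LinearOrder β] (m : ℕ) (hang : Λ → ℕ → S → Prop) (κ : S → β)
    (d nx : Λ → S) (r p : ℕ) (a X : ℕ → S) (Lo Wi : ℕ → Λ) : Prop where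
  odd : r % 2 = 1
  three : 3 ≤ r
  hp : p < r
  inj : Set.InjOn κ (Set.range d)
  dinj : Injective d
  ninj : Injective nx
  last : a r ∈ Set.range d
  mono : ∀ n < r, κ (a n) < κ (a (n + 1))
  dLo : ∀ n < r, d (Lo n) = a n
  nWi : ∀ n ≤ r, nx (Wi n) = a n
  step : ∀ L, κ (a 0) ≤ κ (d L) → κ (d L) < κ (a r) → Nx (Set.range d) κ (d L) (nx L)
  tl : ∀ n < r, ∀ L, hang L 0 (a n) → L = Lo n ∨ L = Lo (sc r n)
  hd : ∀ n < r, ∀ L, hang L m (a n) → L = Wi n ∨ (n = p ∧ L = Wi r)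
  oLo : ∀ n < r, ∀ s, hang (Lo n) 0 s → s = a n ∨ s = a (pr r n)
  oWi : ∀ n < r, ∀ s, hang (Wi n) m s → s = a n ∨ s = X n
  hLo : ∀ n < r, hang (Lo n) 0 (a n)

/-- the line `L` is not broken, and only ends that belong to the moat may have moved -/
def Cl {S Λ : Type*} (L0 : Λ) (τ η d nx : Λ → S) (r : ℕ) (Lo Wi : ℕ → Λ) (L : Λ) : Prop :=
  L ≠ L0 ∧ (τ L = d L ∨ ∃ n < r, L = Lo n) ∧ (η L = nx L ∨ ∃ n ≤ r, L = Wi n)

namespace Moat

variable {S Λ β : Type*} [LinearOrder β] {m : ℕ} {hang : Λ → ℕ → S → Prop} {κ : S → β}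
  {d nx : Λ → S} {r p : ℕ} {a X : ℕ → S} {Lo Wi : ℕ → Λ} {x y : S} {τ η : Λ → S} {L0 : Λ}
  (M : Moat m hang κ d nx r p a X Lo Wi)

include M

theorem mem {n : ℕ} (h : n ≤ r) : a n ∈ Set.range d := by
  rcases h.eq_or_lt with rfl | h
  · exact M.last
  · exact ⟨_, M.dLo n h⟩

theorem lt_of {i j : ℕ} (hij : i < j) (hj : j ≤ r) : κ (a i) < κ (a j) := by
  induction j, hij using Nat.le_induction with
  | base => exact M.mono i hj
  | succ j hij ih => exact (ih (by omega)).trans (M.mono j hj)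

theorem le_of {i j : ℕ} (hij : i ≤ j) (hj : j ≤ r) : κ (a i) ≤ κ (a j) := by
  rcases hij.eq_or_lt with rfl | h
  · exact le_rfl
  · exact (M.lt_of h hj).le

theorem lt_iff {i j : ℕ} (hi : i ≤ r) (hj : j ≤ r) : κ (a i) < κ (a j) ↔ i < j :=
  ⟨fun h => by
    by_contra hc
    exact absurd (M.le_of (not_lt.1 hc) hi) (not_le.2 h), fun h => M.lt_of h hj⟩

theorem le_iff {i j : ℕ} (hi : i ≤ r) (hj : j ≤ r) : κ (a i) ≤ κ (a j) ↔ i ≤ j := by
  rw [← not_lt, M.lt_iff hj hi, not_lt]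

theorem a_inj {i j : ℕ} (hi : i ≤ r) (hj : j ≤ r) (h : a i = a j) : i = j :=
  le_antisymm ((M.le_iff hi hj).1 (by rw [h])) ((M.le_iff hj hi).1 (by rw [h]))

theorem Lo_inj {i j : ℕ} (hi : i < r) (hj : j < r) (h : Lo i = Lo j) : i = j :=
  M.a_inj hi.le hj.le (by rw [← M.dLo i hi, h, M.dLo j hj])

theorem Wi_inj {i j : ℕ} (hi : i ≤ r) (hj : j ≤ r) (h : Wi i = Wi j) : i = j :=
  M.a_inj hi hj (by rw [← M.nWi i hi, h, M.nWi j hj])

omit M in
theorem find {j : ℕ} {b : β} (h0 : κ (a 0) ≤ b) (h1 : b < κ (a j)) :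
    ∃ i < j, κ (a i) ≤ b ∧ b < κ (a (i + 1)) := by
  induction j with
  | zero => exact absurd h0 (not_le.2 h1)
  | succ j ih =>
    rcases lt_or_ge b (κ (a j)) with h | h
    · obtain ⟨i, a1, a2⟩ := ih h
      exact ⟨i, by omega, a2⟩
    · exact ⟨j, by omega, h, h1⟩

/-- a tail that moved sits at the preceding hub -/
theorem tail_eq (e : Ends m hang x y τ η) {n : ℕ} (hn : n < r) (h : τ (Lo n) ≠ a n) :
    τ (Lo n) = a (pr r n) := (M.oLo n hn _ (e.ht _)).resolve_left h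

/-- a head that moved sits at the entry label -/
theorem head_eq (e : Ends m hang x y τ η) {n : ℕ} (hn : n < r) (h : η (Wi n) ≠ a n) :
    η (Wi n) = X n := (M.oWi n hn _ (e.hh _)).resolve_left h

theorem sc_ne {n : ℕ} : n ≠ sc r n := by
  have := M.three
  unfold sc
  split_ifs <;> omega

open Classical in
/-- balance at the hub `a n` -/
theorem bal (e : Ends m hang x y τ η) {n : ℕ} (hn : n < r) :
    (if τ (Lo (sc r n)) ≠ a (sc r n) then 1 else 0) + (if x = a n then 1 else 0) +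
      (if y = a n then 1 else 0) + (if n = p ∧ η (Wi r) = a p then 1 else 0) =
    (if τ (Lo n) ≠ a n then 1 else 0) + (if η (Wi n) ≠ a n then 1 else 0 : ℕ) := by
  have hs := sc_lt' hn
  have l := e.load (a n)
  rw [ncard_two (P := fun L => τ L = a n) (u := Lo n) (v := Lo (sc r n))
      (fun h => M.sc_ne (M.Lo_inj hn hs h)) fun L h => M.tl n hn L (h ▸ e.ht L),
    ncard_two (P := fun L => η L = a n) (u := Wi n) (v := Wi r)
      (fun h => hn.ne (M.Wi_inj hn.le le_rfl h))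
      fun L h => (M.hd n hn L (h ▸ e.hh L)).imp id And.right] at l
  have e1 : τ (Lo (sc r n)) = a n ↔ τ (Lo (sc r n)) ≠ a (sc r n) :=
    ⟨fun h h' => M.sc_ne (M.a_inj hn.le hs.le (h.symm.trans h')),
      fun h => by rw [M.tail_eq e hs h, pr_sc]⟩
  have e2 : η (Wi r) = a n ↔ n = p ∧ η (Wi r) = a p :=
    ⟨fun h => by
      rcases M.hd n hn _ (h ▸ e.hh (Wi r)) with h' | h'
      · exact absurd (M.Wi_inj le_rfl hn.le h') hn.ne'
      · exact ⟨h'.1, h'.1 ▸ h⟩, fun h => h.1 ▸ h.2⟩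
  simp only [e1, e2] at l
  by_cases c1 : τ (Lo n) = a n <;> by_cases c2 : η (Wi n) = a n <;>
    simp only [c1, c2, ne_eq, not_true, not_false_iff, if_true, if_false] at l ⊢ <;> omega

theorem z0 (e : Ends m hang x y τ η) {n : ℕ} (hn : n < r) (hx : x ≠ a n) (hy : y ≠ a n)
    (he : ¬(n = p ∧ η (Wi r) = a p)) :
    Z0 r (fun i => τ (Lo i) ≠ a i) (fun i => η (Wi i) ≠ a i) n := by
  have b := M.bal e hn
  rw [if_neg hx, if_neg hy, if_neg he] at b
  unfold Z0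
  split_ifs at b <;> first | omega | tauto

theorem z1 (e : Ends m hang x y τ η) {n : ℕ} (hn : n < r)
    (h : (x = a n ∧ y ≠ a n ∧ ¬(n = p ∧ η (Wi r) = a p)) ∨
      (x ≠ a n ∧ y = a n ∧ ¬(n = p ∧ η (Wi r) = a p)) ∨
      (x ≠ a n ∧ y ≠ a n ∧ n = p ∧ η (Wi r) = a p)) :
    Z1 r (fun i => τ (Lo i) ≠ a i) (fun i => η (Wi i) ≠ a i) n := by
  have b := M.bal e hn
  unfold Z1
  rcases h with ⟨h1, h2, h3⟩ | ⟨h1, h2, h3⟩ | ⟨h1, h2, h3⟩
  · rw [if_pos h1, if_neg h2, if_neg h3] at b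
    split_ifs at b <;> first | omega | tauto
  · rw [if_neg h1, if_pos h2, if_neg h3] at b
    split_ifs at b <;> first | omega | tauto
  · rw [if_neg h1, if_neg h2, if_pos h3] at b
    split_ifs at b <;> first | omega | tauto

/-- No gap hub in the moat and no exit: no entry, and no tail moved or all tails moved. -/
theorem idle (e : Ends m hang x y τ η) (hx : ∀ n < r, x ≠ a n) (hy : ∀ n < r, y ≠ a n)
    (he : η (Wi r) ≠ a p) : (∀ n < r, η (Wi n) = a n) ∧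
      ((∀ n < r, τ (Lo n) ≠ a n) ∨ ∀ n < r, τ (Lo n) = a n) := by
  obtain ⟨h1, h2⟩ := idx_none (by have := M.three; omega)
    fun n hn => M.z0 e hn (hx n hn) (hy n hn) fun h => he h.2
  exact ⟨fun n hn => not_not.1 (h1 n hn), h2.imp id fun h n hn => not_not.1 (h n hn)⟩

/-- the result of the one-source analysis: entry `n`, end `q` -/
def Arc (τ η : Λ → S) (r : ℕ) (a : ℕ → S) (Lo Wi : ℕ → Λ) (n q : ℕ) : Prop :=
  n < r ∧ η (Wi n) ≠ a n ∧ (∀ i < r, i ≠ n → η (Wi i) = a i) ∧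
    ((n = q ∧ ∀ i < r, τ (Lo i) ≠ a i) ∨ (n ≤ q ∧ ∀ i < r, (τ (Lo i) ≠ a i ↔ n < i ∧ i ≤ q)) ∨
      (q < n ∧ ∀ i < r, (τ (Lo i) ≠ a i ↔ i ≤ q ∨ n < i)))

theorem arc_of (e : Ends m hang x y τ η) {q : ℕ} (hq : q < r)
    (hx : ∀ n < r, n ≠ q → x ≠ a n) (hy : ∀ n < r, n ≠ q → y ≠ a n)
    (he : η (Wi r) = a p → p = q)
    (h : (x = a q ∧ y ≠ a q ∧ ¬(q = p ∧ η (Wi r) = a p)) ∨
      (x ≠ a q ∧ y = a q ∧ ¬(q = p ∧ η (Wi r) = a p)) ∨
      (x ≠ a q ∧ y ≠ a q ∧ q = p ∧ η (Wi r) = a p)) : ∃ n, Arc τ η r a Lo Wi n q := by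
  obtain ⟨n, h1, h2, h3, h4⟩ := idx_one hq (fun n hn ne => M.z0 e hn (hx n hn ne) (hy n hn ne)
    fun h => ne (h.1.trans (he h.2))) (M.z1 e hq h)
  exact ⟨n, h1, h2, fun i hi ne => not_not.1 fun h => ne (h3 i hi h), h4⟩

/-- the lower gap hub is `a q` -/
theorem arc_x (e : Ends m hang x y τ η) {q : ℕ} (hq : q < r) (hx : x = a q)
    (hy : ∀ n < r, y ≠ a n) (he : η (Wi r) ≠ a p) : ∃ n, Arc τ η r a Lo Wi n q :=
  M.arc_of e hq (fun _ hn ne h => ne (M.a_inj hn.le hq.le (h.symm.trans hx)))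
    (fun n hn _ => hy n hn) (fun h => absurd h he) (Or.inl ⟨hx, hy q hq, fun h => he h.2⟩)

/-- the upper gap hub is `a q` -/
theorem arc_y (e : Ends m hang x y τ η) {q : ℕ} (hq : q < r) (hy : y = a q)
    (hx : ∀ n < r, x ≠ a n) (he : η (Wi r) ≠ a p) : ∃ n, Arc τ η r a Lo Wi n q :=
  M.arc_of e hq (fun n hn _ => hx n hn)
    (fun _ hn ne h => ne (M.a_inj hn.le hq.le (h.symm.trans hy))) (fun h => absurd h he)
    (Or.inr (Or.inl ⟨hx q hq, hy, fun h => he h.2⟩))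

/-- exit, no gap hub in the moat -/
theorem arc_exit (e : Ends m hang x y τ η) (hx : ∀ n < r, x ≠ a n) (hy : ∀ n < r, y ≠ a n)
    (he : η (Wi r) = a p) : ∃ n, Arc τ η r a Lo Wi n p :=
  M.arc_of e M.hp (fun n hn _ => hx n hn) (fun n hn _ => hy n hn) (fun _ => rfl)
    (Or.inr (Or.inr ⟨hx p M.hp, hy p M.hp, rfl, he⟩))

/-- an exit needs an entry, wherever the gap is -/
theorem exit_entry (e : Ends m hang x y τ η) (he : η (Wi r) = a p) :
    ∃ n < r, η (Wi n) ≠ a n := by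
  by_contra ne
  push Not at ne
  have hp := M.hp
  have back : ∀ n < r, n ≠ p → τ (Lo n) = a n → τ (Lo (sc r n)) = a (sc r n) :=
    fun n hn _ h => by
      have b := M.bal e hn
      rw [if_neg (not_not.2 h), if_neg (not_not.2 (ne n hn))] at b
      by_contra hc
      rw [if_pos hc] at b
      omega
  have b := M.bal e hp
  rw [if_pos (⟨rfl, he⟩ : p = p ∧ _), if_neg (not_not.2 (ne p hp))] at b
  have b1 : τ (Lo p) ≠ a p := fun h => by
    rw [if_neg (not_not.2 h)] at b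
    omega
  have b2 : τ (Lo (sc r p)) = a (sc r p) := by
    by_contra hc
    rw [if_pos hc, if_pos b1] at b
    omega
  refine b1 (cyc_of (t := fun i => τ (Lo i) = a i)
    (h := fun i => τ (Lo i) ≠ a i ∧ τ (Lo (sc r i)) = a (sc r i)) (i := sc r p) hp
    (fun n hn ne => ⟨⟨fun h => by tauto, fun h => h.elim (back n hn ne) And.right⟩,
      fun h => h.2.1 h.1⟩) hp ?_ b2)
  unfold sc
  split_ifs <;> omega

/-- the reference head of a line of the segment `i` -/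
theorem seg_nx {i : ℕ} (hi : i < r) {L : Λ} (h1 : κ (a i) ≤ κ (d L))
    (h2 : κ (d L) < κ (a (i + 1))) : Nx (Set.range d) κ (d L) (nx L) ∧ κ (a i) < κ (nx L) ∧
      κ (nx L) ≤ κ (a (i + 1)) := by
  have s := M.step L ((M.le_of (Nat.zero_le _) hi.le).trans h1) (h2.trans_le (M.le_of hi le_rfl))
  exact ⟨s, h1.trans_lt s.2.2.1, (s.2.2.2 _ (M.mem hi)).resolve_left (not_le.2 h2)⟩

theorem not_in {i n : ℕ} (hi : i < r) (hn : n ≤ r) (h1 : κ (a i) < κ (a n))
    (h2 : κ (a n) < κ (a (i + 1))) : False := by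
  rw [M.lt_iff hi.le hn] at h1
  rw [M.lt_iff hn hi] at h2
  omega

/-- **Closed sets made of segments**: `I` segments, `J` moat hubs, `φ j` the line of `a j`. -/
theorem seg_loop [Finite S] [Finite Λ] (e : Ends m hang x y τ η) (c : Cn L0 x y τ η)
    (I J : Set ℕ) (φ : ℕ → ℕ) (hJ : J.Nonempty) (hφ : Set.InjOn φ J)
    (Ir : ∀ i ∈ I, i < r)
    (h1 : ∀ j ∈ J, φ j < r ∧ (∃ k ∈ J, τ (Lo (φ j)) = a k) ∧
      (φ j ∈ I ∨ (Lo (φ j) = L0 ∧ ∃ k ∈ J, x = a k)))
    (h2 : ∀ i ∈ I, ∃ k ∈ J, η (Wi (i + 1)) = a k)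
    (h3 : ∀ i ∈ I, ∀ L, κ (a i) ≤ κ (d L) → κ (d L) < κ (a (i + 1)) →
      Cl L0 τ η d nx r Lo Wi L) : False := by
  classical
  have : Nonempty Λ := ⟨L0⟩
  let T : Set S := {s | (∃ j ∈ J, s = a j) ∨
    ∃ i ∈ I, s ∈ Set.range d ∧ κ (a i) < κ s ∧ κ s < κ (a (i + 1))}
  let f : S → Λ := fun s => if h : ∃ j ∈ J, s = a j then Lo (φ h.choose) else invFun d s
  have fa : ∀ s, (∃ j ∈ J, s = a j) → ∃ j ∈ J, s = a j ∧ f s = Lo (φ j) := fun s h =>
    ⟨_, h.choose_spec.1, h.choose_spec.2, dif_pos h⟩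
  have fb : ∀ s, (¬∃ j ∈ J, s = a j) → s ∈ T → ∃ i ∈ I, d (f s) = s ∧ κ (a i) < κ s ∧
      κ s < κ (a (i + 1)) := fun s h hs => by
    obtain ⟨i, hi, b1, b2⟩ := hs.resolve_left h
    exact ⟨i, hi, by simp only [f, dif_neg h]; exact invFun_eq b1, b2⟩
  have head : ∀ i ∈ I, ∀ L, κ (a i) ≤ κ (d L) → κ (d L) < κ (a (i + 1)) → η L ∈ T :=
    fun i hi L b1 b2 => by
      obtain ⟨s, s1, s2⟩ := M.seg_nx (Ir i hi) b1 b2
      rcases s2.eq_or_lt with s2 | s2
      · have : L = Wi (i + 1) := M.ninj (by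
          rw [M.nWi _ (Ir i hi)]
          exact M.inj s.2.1 (M.mem (Ir i hi)) s2)
        obtain ⟨k, k1, k2⟩ := h2 i hi
        exact Or.inl ⟨k, k1, this ▸ k2⟩
      · rcases (h3 i hi L b1 b2).2.2 with h | ⟨n, hn, h⟩
        · exact Or.inr ⟨i, hi, h ▸ s.2.1, h ▸ s1, h ▸ s2⟩
        · rw [h, M.nWi n hn] at s1 s2
          exact (M.not_in (Ir i hi) hn s1 s2).elim
  have inLo : ∀ i ∈ I, κ (a i) ≤ κ (d (Lo i)) ∧ κ (d (Lo i)) < κ (a (i + 1)) := fun i hi => by
    rw [M.dLo i (Ir i hi)]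
    exact ⟨le_rfl, M.mono i (Ir i hi)⟩
  obtain ⟨j0, hj0⟩ := hJ
  refine e.no_low c (T := T) ⟨a j0, Or.inl ⟨j0, hj0, rfl⟩⟩ f (fun s hs t ht h => ?_)
    (fun s hs => ?_) (fun s hs h => ?_) fun s hs h => ?_
  · by_cases b1 : ∃ j ∈ J, s = a j <;> by_cases b2 : ∃ j ∈ J, t = a j
    · obtain ⟨j, j1, rfl, j3⟩ := fa s b1
      obtain ⟨k, k1, rfl, k3⟩ := fa t b2
      rw [hφ j1 k1 (M.Lo_inj (h1 j j1).1 (h1 k k1).1 (j3.symm.trans (h.trans k3)))]
    · obtain ⟨j, j1, rfl, j3⟩ := fa s b1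
      obtain ⟨i, i1, i2, i3, i4⟩ := fb t b2 ht
      rw [← i2, ← h, j3, M.dLo _ (h1 j j1).1] at i3 i4
      exact (M.not_in (Ir i i1) (h1 j j1).1.le i3 i4).elim
    · obtain ⟨j, j1, rfl, j3⟩ := fa t b2
      obtain ⟨i, i1, i2, i3, i4⟩ := fb s b1 hs
      rw [← i2, h, j3, M.dLo _ (h1 j j1).1] at i3 i4
      exact (M.not_in (Ir i i1) (h1 j j1).1.le i3 i4).elim
    · obtain ⟨i, -, i2, -⟩ := fb s b1 hs
      obtain ⟨k, -, k2, -⟩ := fb t b2 ht
      rw [← i2, h, k2]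
  · by_cases b1 : ∃ j ∈ J, s = a j
    · obtain ⟨j, j1, -, j3⟩ := fa s b1
      obtain ⟨k, k1, k2⟩ := (h1 j j1).2.1
      exact Or.inl ⟨k, k1, j3 ▸ k2⟩
    · obtain ⟨i, i1, i2, i3, i4⟩ := fb s b1 hs
      rcases (h3 i i1 (f s) (by rw [i2]; exact i3.le) (by rw [i2]; exact i4)).2.1 with
        h | ⟨n, hn, h⟩
      · rw [h, i2]
        exact hs
      · rw [← i2, h, M.dLo n hn] at i3 i4
        exact (M.not_in (Ir i i1) hn.le i3 i4).elim
  · by_cases b1 : ∃ j ∈ J, s = a j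
    · obtain ⟨j, j1, -, j3⟩ := fa s b1
      have := (h1 j j1).2.2.resolve_right fun b => h (j3.trans b.1)
      rw [j3]
      exact head _ this _ (inLo _ this).1 (inLo _ this).2
    · obtain ⟨i, i1, i2, i3, i4⟩ := fb s b1 hs
      exact head i i1 _ (by rw [i2]; exact i3.le) (by rw [i2]; exact i4)
  · by_cases b1 : ∃ j ∈ J, s = a j
    · obtain ⟨j, j1, -, j3⟩ := fa s b1
      rcases (h1 j j1).2.2 with b | ⟨-, b⟩
      · exact absurd (j3.symm.trans h) (h3 _ b _ (inLo _ b).1 (inLo _ b).2).1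
      · exact Or.inl b
    · obtain ⟨i, i1, i2, i3, i4⟩ := fb s b1 hs
      exact absurd h (h3 i i1 (f s) (by rw [i2]; exact i3.le) (by rw [i2]; exact i4)).1

end Moat

end Pool.Agent.P.MP_439f1f_co
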