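import Pool.Agent.P.MP_439f1f_co.Mo1

/-!
The moat: dead exits, first gaps, and removal of the rotation.
-/

set_option autoImplicit false

namespace Pool.Agent.P.MP_439f1f_co

open Function

/-- a hub that holds a tail and a head holds nothing else -/
theorem Ends.full_th {S Λ : Type*} [Finite Λ] {m : ℕ} {hang : Λ → ℕ → S → Prop} {x y s : S}
    {τ η : Λ → S} (e : Ends m hang x y τ η) {K1 K2 : Λ} (h1 : τ K1 = s) (h2 : η K2 = s) :
    (∀ K, τ K = s → K = K1) ∧ (∀ K, η K = s → K = K2) ∧ x ≠ s ∧ y ≠ s := by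
  have l := e.load s
  have a1 := one_le_ncard (P := fun L => τ L = s) h1
  have a2 := one_le_ncard (P := fun L => η L = s) h2
  refine ⟨fun K h => eq_of_ncard (P := fun L => τ L = s) (by omega) h h1,
    fun K h => eq_of_ncard (P := fun L => η L = s) (by omega) h h2, fun h => ?_, fun h => ?_⟩
  · rw [if_pos h] at l
    omega
  · rw [if_pos h] at l
    omega

/-- rank of a segment in the order of the rotated moat -/
def rk (r i : ℕ) : ℕ := if i % 2 = 1 then i else r + i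

namespace Moat

variable {S Λ β : Type*} [LinearOrder β] {m : ℕ} {hang : Λ → ℕ → S → Prop} {κ : S → β}
  {d nx : Λ → S} {r p : ℕ} {a X : ℕ → S} {Lo Wi : ℕ → Λ} {x y : S} {τ η : Λ → S} {L0 : Λ}
  (M : Moat m hang κ d nx r p a X Lo Wi)

include M

/-- **Exit through a clean block**: it is a leak, the entry comes after `a p` and `p` is even. -/
theorem dead_exit [Finite S] [Finite Λ] (e : Ends m hang x y τ η) (c : Cn L0 x y τ η)
    (hx : ∀ n < r, x ≠ a n) (hy : ∀ n < r, y ≠ a n) (he : η (Wi r) = a p)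
    (cl : ∀ L, κ (a 0) ≤ κ (d L) → κ (d L) < κ (a r) → Cl L0 τ η d nx r Lo Wi L) :
    ∃ n, p < n ∧ p % 2 = 0 ∧ Arc τ η r a Lo Wi n p := by
  obtain ⟨n, A⟩ := M.arc_exit e hx hy he
  have hp := M.hp
  have ho := M.odd
  have cl' : ∀ i < r, ∀ L, κ (a i) ≤ κ (d L) → κ (d L) < κ (a (i + 1)) →
      Cl L0 τ η d nx r Lo Wi L := fun i hi L b1 b2 =>
    cl L ((M.le_of (Nat.zero_le _) hi.le).trans b1) (b2.trans_le (M.le_of hi le_rfl))
  obtain ⟨hn, -, hH, hT⟩ := id A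
  have hd : ∀ (J : Set ℕ) (i : ℕ), i < r → p ∈ J → (i + 1 < r → i + 1 ≠ n ∧ i + 1 ∈ J) →
      ∃ k ∈ J, η (Wi (i + 1)) = a k := fun J i hi b1 b2 => by
    by_cases h : i + 1 = r
    · exact ⟨p, b1, h ▸ he⟩
    · exact ⟨i + 1, (b2 (by omega)).2, hH _ (by omega) (b2 (by omega)).1⟩
  rcases hT with ⟨rfl, hT⟩ | ⟨h1, hT⟩ | ⟨h1, hT⟩
  · exfalso
    refine M.seg_loop e c
      {i | i < r ∧ ((n < i ∧ i % 2 ≠ n % 2) ∨ (n % 2 = 0 ∧ i % 2 = 0))}
      {j | j < r ∧ ((n ≤ j ∧ j % 2 = n % 2) ∨ (n % 2 = 0 ∧ j % 2 = 1))} (sc r)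
      ⟨n, hn, Or.inl ⟨le_rfl, rfl⟩⟩ (fun i _ j _ h => by rw [← pr_sc (r := r) (i := i), h, pr_sc])
      (fun i h => h.1) (fun j hj => ⟨sc_lt' hj.1, ⟨j, hj, ?_⟩, Or.inl ⟨sc_lt' hj.1, ?_⟩⟩)
      (fun i hi => hd _ i hi.1 ⟨hn, Or.inl ⟨le_rfl, rfl⟩⟩ fun h => ?_) fun i hi => cl' i hi.1
    · rw [M.tail_eq e (sc_lt' hj.1) (hT _ (sc_lt' hj.1)), pr_sc]
    · obtain ⟨b1, b2⟩ := hj
      unfold sc
      split_ifs <;> omega
    · obtain ⟨b1, b2⟩ := hi
      exact ⟨by omega, h, by omega⟩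
  · exfalso
    refine M.seg_loop e c {i | n ≤ i ∧ i < r} {i | n ≤ i ∧ i < r} id ⟨n, le_rfl, hn⟩
      (Set.injOn_id _) (fun i h => h.2) (fun j hj => ⟨hj.2, ?_, Or.inl hj⟩)
      (fun i hi => hd _ i hi.2 ⟨h1, hp⟩ fun h => ⟨by have := hi.1; omega,
        by have := hi.1; omega, h⟩) fun i hi => cl' i hi.2
    by_cases h : τ (Lo j) = a j
    · exact ⟨j, hj, h⟩
    · have := (hT j hj.2).1 h
      exact ⟨pr r j, ⟨by rw [pr_pos _ (by omega)]; omega, pr_lt' hj.2⟩, M.tail_eq e hj.2 h⟩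
  · refine ⟨n, h1, ?_, A⟩
    by_contra hc
    refine M.seg_loop e c {i | (i < p ∧ i % 2 = 0) ∨ (n ≤ i ∧ i < r)}
      {j | (j ≤ p ∧ j % 2 = 1) ∨ (n ≤ j ∧ j < r)}
      (fun j => if j < p then j + 1 else if j = p then 0 else j) ⟨n, Or.inr ⟨le_rfl, hn⟩⟩
      (fun i hi j hj h => ?_) (fun i h => by rcases h with h | h <;> omega) (fun j hj => ?_)
      (fun i hi => hd _ i (by rcases hi with h | h <;> omega) (Or.inl ⟨le_rfl, by omega⟩)
        fun h => ?_) fun i hi => cl' i (by rcases hi with h | h <;> omega)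
    · simp only [Set.mem_ofPred_eq] at hi hj h
      split_ifs at h <;> omega
    · simp only [Set.mem_ofPred_eq] at hj ⊢
      split_ifs with b1 b2
      · refine ⟨by omega, ⟨j, hj, ?_⟩, Or.inl (by omega)⟩
        rw [M.tail_eq e (by omega) ((hT (j + 1) (by omega)).2 (by omega)), pr_pos _ (by omega)]
        rfl
      · exact ⟨by omega, ⟨r - 1, by omega,
          M.tail_eq e (by omega) ((hT 0 (by omega)).2 (by omega))⟩, Or.inl (by omega)⟩
      · refine ⟨by omega, ?_, Or.inl (by omega)⟩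
        by_cases h : τ (Lo j) = a j
        · exact ⟨j, hj, h⟩
        · have := (hT j (by omega)).1 h
          exact ⟨pr r j, by rw [pr_pos _ (by omega)]; omega, M.tail_eq e (by omega) h⟩
    · simp only [Set.mem_ofPred_eq] at hi ⊢
      omega

/-- **First gap of a moat line** in normal form: the entry comes after `a k`, or at `a k` with `k`
odd. -/
theorem first_gap [Finite S] [Finite Λ] (e : Ends m hang x y τ η) {k : ℕ} (hk : k < r)
    (c : Cn (Lo k) x y τ η) (ht : τ (Lo k) = a k) (hx : x = a (pr r k)) (hy : ∀ n < r, y ≠ a n)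
    (he : η (Wi r) ≠ a p)
    (cl : ∀ L, κ (a 0) ≤ κ (d L) → κ (d L) < κ (a (r - 1)) → L ≠ Lo k →
      Cl (Lo k) τ η d nx r Lo Wi L) :
    ∃ n, (k < n ∨ (n = k ∧ k % 2 = 1)) ∧ Arc τ η r a Lo Wi n (pr r k) := by
  obtain ⟨n, A⟩ := M.arc_x e (pr_lt' hk) hx hy he
  have ho := M.odd
  have h3 := M.three
  have cl' : ∀ i, i + 1 < r → i ≠ k → ∀ L, κ (a i) ≤ κ (d L) → κ (d L) < κ (a (i + 1)) →
      Cl (Lo k) τ η d nx r Lo Wi L := fun i hi ne L b1 b2 =>
    cl L ((M.le_of (Nat.zero_le _) (by omega)).trans b1)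
      (b2.trans_le (M.le_of (by omega) (by omega))) fun h => by
        rw [h, M.dLo k hk] at b1 b2
        rw [M.le_iff (by omega) hk.le] at b1
        rw [M.lt_iff hk.le hi.le] at b2
        omega
  refine ⟨n, ?_, A⟩
  obtain ⟨hn, -, hH, hT⟩ := A
  by_contra hc
  have hnk : n < k ∨ (n = k ∧ k % 2 = 0) := by omega
  rcases hnk with hnk | ⟨rfl, hnk⟩
  · have hq : pr r k = k - 1 := pr_pos _ (by omega)
    rw [hq] at hT hx
    have hT' : ∀ i < r, τ (Lo i) ≠ a i → n < i := by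
      rcases hT with ⟨-, hT⟩ | ⟨-, hT⟩ | ⟨h, -⟩
      · exact absurd ht (hT k hk)
      · exact fun i hi h => ((hT i hi).1 h).1
      · omega
    refine M.seg_loop e c {i | n ≤ i ∧ i < k} {i | n ≤ i ∧ i ≤ k} id ⟨n, le_rfl, hnk.le⟩
      (Set.injOn_id _) (fun i h => h.2.trans hk) (fun j hj => ⟨hj.2.trans_lt hk, ?_, ?_⟩)
      (fun i hi => ⟨i + 1, ⟨hi.1.trans i.le_succ, hi.2⟩, hH _ (by have := hi.2; omega)
        (by have := hi.1; omega)⟩) fun i hi => cl' i (by have := hi.2; omega) hi.2.ne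
    · have hj' := hj.2.trans_lt hk
      by_cases h : τ (Lo j) = a j
      · exact ⟨j, hj, h⟩
      · have := hT' j hj' h
        have := hj.2
        exact ⟨pr r j, by rw [pr_pos _ (by omega)]; exact ⟨by omega, by omega⟩, M.tail_eq e hj' h⟩
    · rcases hj.2.eq_or_lt with h | h
      · exact Or.inr ⟨congrArg Lo h, k - 1, ⟨by omega, by omega⟩, hx⟩
      · exact Or.inl ⟨hj.1, h⟩
  · have hT' : ∀ i < r, i ≠ n → τ (Lo i) ≠ a i := by
      rcases hT with ⟨-, hT⟩ | ⟨h, hT⟩ | ⟨h, hT⟩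
      · exact fun i hi _ => hT i hi
      · refine fun i hi ne => (hT i hi).2 ?_
        unfold pr at h ⊢
        split_ifs at h ⊢ <;> omega
      · refine fun i hi ne => (hT i hi).2 ?_
        unfold pr at h ⊢
        split_ifs at h ⊢ <;> omega
    have mq : pr r n < r ∧ ((n ≤ pr r n ∧ pr r n % 2 = 0) ∨ (pr r n < n ∧ pr r n % 2 = 1)) := by
      unfold pr
      split_ifs <;> omega
    refine M.seg_loop e c {i | i < r ∧ ((n < i ∧ i % 2 = 1) ∨ (i < n ∧ i % 2 = 0))}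
      {j | j < r ∧ ((n ≤ j ∧ j % 2 = 0) ∨ (j < n ∧ j % 2 = 1))} (sc r)
      ⟨n, hn, Or.inl ⟨le_rfl, hnk⟩⟩ (fun i _ j _ h => by rw [← pr_sc (r := r) (i := i), h, pr_sc])
      (fun i h => h.1) (fun j hj => ⟨sc_lt' hj.1, ?_⟩)
      (fun i hi => ?_) fun i hi => cl' i (by obtain ⟨b1, b2⟩ := hi; omega)
        (by obtain ⟨b1, b2⟩ := hi; omega)
    · by_cases h : sc r j = n
      · rw [h]
        exact ⟨⟨n, ⟨hn, Or.inl ⟨le_rfl, hnk⟩⟩, ht⟩, Or.inr ⟨rfl, pr r n, mq, hx⟩⟩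
      · refine ⟨⟨j, hj, by rw [M.tail_eq e (sc_lt' hj.1) (hT' _ (sc_lt' hj.1) h), pr_sc]⟩,
          Or.inl ⟨sc_lt' hj.1, ?_⟩⟩
        obtain ⟨b1, b2⟩ := hj
        unfold sc at h ⊢
        split_ifs at h ⊢ <;> omega
    · obtain ⟨b1, b2⟩ := hi
      exact ⟨i + 1, ⟨by omega, by omega⟩, hH _ (by omega) (by omega)⟩

open Classical in
/-- putting the tails of a rotated moat back keeps the load -/
theorem derot_ends (e : Ends m hang x y τ η) (rot : ∀ n < r, τ (Lo n) ≠ a n) :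
    Ends m hang x y (fun L => if ∃ n < r, L = Lo n then d L else τ L) η := by
  have t1 : ∀ n < r, (if ∃ k < r, Lo n = Lo k then d (Lo n) else τ (Lo n)) = a n :=
    fun n hn => by rw [if_pos ⟨n, hn, rfl⟩, M.dLo n hn]
  have ht : ∀ L, hang L 0 (if ∃ n < r, L = Lo n then d L else τ L) := fun L => by
    split_ifs with h
    · obtain ⟨n, hn, rfl⟩ := h
      rw [M.dLo n hn]
      exact M.hLo n hn
    · exact e.ht L
  refine ⟨ht, e.hh, fun s => ?_⟩
  rw [← e.load s]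
  congr 3
  by_cases hs : ∃ n < r, s = a n
  · obtain ⟨n, hn, rfl⟩ := hs
    have hs := sc_lt' hn
    have ne : Lo n ≠ Lo (sc r n) := fun h => M.sc_ne (M.Lo_inj hn hs h)
    rw [ncard_two (P := fun L => τ L = a n) ne fun L h => M.tl n hn L (h ▸ e.ht L),
      ncard_two (P := fun L => (if ∃ n < r, L = Lo n then d L else τ L) = a n) ne
        fun L h => M.tl n hn L (h ▸ ht L), if_pos (t1 n hn), if_neg (rot n hn),
      if_neg (by rw [t1 _ hs]; exact fun h => M.sc_ne (M.a_inj hn.le hs.le h.symm)),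
      if_pos (by rw [M.tail_eq e hs (rot _ hs), pr_sc])]
  · congr 1
    ext L
    simp only [Set.mem_ofPred_eq]
    split_ifs with h
    · obtain ⟨n, hn, rfl⟩ := h
      rw [M.dLo n hn, M.tail_eq e hn (rot n hn)]
      exact ⟨fun h => absurd ⟨n, hn, h.symm⟩ hs, fun h => absurd ⟨_, pr_lt' hn, h.symm⟩ hs⟩
    · exact Iff.rfl

open Classical in
/-- **Derotation.**  All tails of the moat moved, and between `a 0` and `a (r-1)` all other changes
concern lines of the segment `i0`: then the tails can be put back. -/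
theorem derot [Finite S] [Finite Λ] (e : Ends m hang x y τ η) (c : Cn L0 x y τ η)
    (rot : ∀ n < r, τ (Lo n) ≠ a n) {i0 : ℕ} (hi : i0 + 1 < r)
    (cl : ∀ L, (κ (a 0) ≤ κ (d L) ∧ κ (d L) < κ (a i0)) ∨
      (κ (a (i0 + 1)) ≤ κ (d L) ∧ κ (d L) < κ (a (r - 1))) →
      L ≠ L0 ∧ η L = nx L ∧ (τ L = d L ∨ ∃ n < r, L = Lo n)) :
    Cn L0 x y (fun L => if ∃ n < r, L = Lo n then d L else τ L) η := by
  intro A' a1 a2 a3
  have ho := M.odd
  have t3 : ∀ n < r, τ (Lo n) = a (pr r n) := fun n hn => M.tail_eq e hn (rot n hn)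
  let Seg : Λ → ℕ → Prop := fun L i => κ (a i) ≤ κ (d L) ∧ κ (d L) < κ (a (i + 1))
  have segLo : ∀ n < r, ∀ i < r, Seg (Lo n) i → n = i := fun n hn i hi' h => by
    obtain ⟨b1, b2⟩ := h
    rw [M.dLo n hn] at b1 b2
    rw [M.le_iff hi'.le hn.le] at b1
    rw [M.lt_iff hn.le hi'] at b2
    omega
  have cl' : ∀ i, i + 1 < r → i ≠ i0 → ∀ L, Seg L i →
      L ≠ L0 ∧ η L = nx L ∧ (τ L = d L ∨ L = Lo i) := fun i h1 h2 L h => by
    have := cl L (by
      rcases lt_or_gt_of_ne h2 with l | l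
      · exact Or.inl ⟨(M.le_of (Nat.zero_le _) (by omega)).trans h.1,
          h.2.trans_le (M.le_of l (by omega))⟩
      · exact Or.inr ⟨(M.le_of l (by omega)).trans h.1,
          h.2.trans_le (M.le_of (by omega) (by omega))⟩)
    refine ⟨this.1, this.2.1, this.2.2.imp id ?_⟩
    rintro ⟨n, hn, rfl⟩
    rw [segLo n hn i (by omega) h]
  let Reg : ℕ → S → Prop := fun i s => i + 1 < r ∧ i ≠ i0 ∧ s ∈ Set.range d ∧ κ (a i) < κ s ∧
    κ s ≤ κ (a (i + 1))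
  have uniq : ∀ i j s, Reg i s → Reg j s → i = j := fun i j s h1 h2 => by
    have b1 := (M.lt_iff (by have := h1.1; omega) h2.1.le).1 (h1.2.2.2.1.trans_le h2.2.2.2.2)
    have b2 := (M.lt_iff (by have := h2.1; omega) h1.1.le).1 (h2.2.2.2.1.trans_le h1.2.2.2.2)
    omega
  have full : ∀ i s, Reg i s → (∀ K, η K = s → Seg K i) ∧
      (∀ K, τ K = s → Seg K i ∨ ∃ n < r, K = Lo n) ∧ x ≠ s ∧ y ≠ s := fun i s h => by
    obtain ⟨h1, h2, h3, h4, h5⟩ := h
    obtain ⟨_, ⟨⟨K2, rfl⟩, k1⟩, k2⟩ := Set.exists_max_image {w | w ∈ Set.range d ∧ κ w < κ s} κ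
      (Set.toFinite _) ⟨a i, M.mem (by omega), h4⟩
    have s2 : Seg K2 i := ⟨k2 _ ⟨M.mem (by omega), h4⟩, k1.trans_le h5⟩
    have n2 : nx K2 = s := Nx.right_unique M.inj (M.seg_nx (by omega) s2.1 s2.2).1
      ⟨⟨K2, rfl⟩, h3, k1, fun w hw => (lt_or_ge (κ w) (κ s)).imp (fun b => k2 w ⟨hw, b⟩) id⟩
    have e2 : η K2 = s := (cl' i h1 h2 K2 s2).2.1.trans n2
    rcases h5.eq_or_lt with h5 | h5
    · have hs : s = a (i + 1) := M.inj h3 (M.mem h1.le) h5
      obtain ⟨f1, f2, f3⟩ := e.full_th (K1 := Lo (sc r (i + 1)))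
        (by rw [t3 _ (sc_lt' h1), pr_sc, hs]) e2
      exact ⟨fun K h => f2 K h ▸ s2, fun K h => Or.inr ⟨_, sc_lt' h1, f1 K h⟩, f3⟩
    · obtain ⟨K1, rfl⟩ := h3
      have s1 : Seg K1 i := ⟨h4.le, h5⟩
      have e1 : τ K1 = d K1 := (cl' i h1 h2 K1 s1).2.2.resolve_right fun h => by
        rw [h, M.dLo i (by omega)] at h4
        exact h4.false
      obtain ⟨f1, f2, f3⟩ := e.full_th e1 e2
      exact ⟨fun K h => f2 K h ▸ s2, fun K h => Or.inl (f1 K h ▸ s1), f3⟩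
  have st : ∀ i, i + 1 < r → i ≠ i0 → ∀ L, Seg L i → ∀ v, Nx (Set.range d) κ (d L) v →
      (d L ∈ A' ↔ v ∈ A') := fun i h1 h2 L h v hv => by
    obtain ⟨b1, b2, b3⟩ := cl' i h1 h2 L h
    have b4 := a1 L b1
    rw [b2, Nx.right_unique M.inj (M.seg_nx (by omega) h.1 h.2).1 hv] at b4
    refine Iff.trans ?_ b4
    simp only
    split_ifs with h'
    · exact Iff.rfl
    · rw [b3.resolve_right fun b => h' ⟨i, by omega, b⟩]
  have ch1 : ∀ s ∈ Set.range d, κ (a 0) ≤ κ s → κ s ≤ κ (a i0) → (a 0 ∈ A' ↔ s ∈ A') :=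
    fun s hs b1 b2 => arc_key (P := (· ∈ A')) M.inj (M.mem (Nat.zero_le _)) hs b1
      fun u v c1 c2 c3 => by
        obtain ⟨L, rfl⟩ := c3.1
        obtain ⟨i, d1, d2⟩ := find (a := a) c1 (c2.trans_le b2)
        exact st i (by omega) (by omega) L d2 v c3
  have ch2 : ∀ s ∈ Set.range d, κ (a (i0 + 1)) ≤ κ s → κ s ≤ κ (a (r - 1)) →
      (a (i0 + 1) ∈ A' ↔ s ∈ A') :=
    fun s hs b1 b2 => arc_key (P := (· ∈ A')) M.inj (M.mem hi.le) hs b1
      fun u v c1 c2 c3 => by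
        obtain ⟨L, rfl⟩ := c3.1
        obtain ⟨i, d1, d2⟩ := find (a := a) ((M.le_of (Nat.zero_le _) hi.le).trans c1)
          (c2.trans_le b2)
        have := (M.lt_iff hi.le (by omega)).1 (c1.trans_lt d2.2)
        exact st i (by omega) (by omega) L d2 v c3
  let col : Prop → Prop := fun b => if b then a 0 ∈ A' else a (i0 + 1) ∈ A'
  let A : Set S := {s | (∃ i, Reg i s ∧ col (rk r i < rk r i0)) ∨ ((¬∃ i, Reg i s) ∧ s ∈ A')}
  have m1 : ∀ i s, Reg i s → (s ∈ A ↔ col (rk r i < rk r i0)) := fun i s h =>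
    ⟨fun b => b.elim (fun ⟨j, b1, b2⟩ => uniq j i s b1 h ▸ b2) fun b => absurd ⟨i, h⟩ b.1,
      fun b => Or.inl ⟨i, h, b⟩⟩
  have m2 : ∀ s, (¬∃ i, Reg i s) → (s ∈ A ↔ s ∈ A') := fun s h =>
    ⟨fun b => b.elim (fun ⟨j, b1, _⟩ => absurd ⟨j, b1⟩ h) And.right, fun b => Or.inr ⟨h, b⟩⟩
  have ra : ∀ j < r, ∀ i, Reg i (a j) → j = i + 1 := fun j hj i h => by
    have b1 := (M.lt_iff (by have := h.1; omega) hj.le).1 h.2.2.2.1
    have b2 := (M.le_iff hj.le h.1.le).1 h.2.2.2.2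
    omega
  have m0 : a 0 ∈ A ↔ a 0 ∈ A' := m2 _ fun ⟨i, h⟩ => by have := ra 0 (by omega) i h; omega
  have m3 : a (i0 + 1) ∈ A ↔ a (i0 + 1) ∈ A' := m2 _ fun ⟨i, h⟩ => by
    have := ra _ hi i h
    have := h.2.1
    omega
  have ca : ∀ j < r, ∀ b : Prop, (b ↔ j = 0 ∨ rk r (j - 1) < rk r i0) → (a j ∈ A ↔ col b) :=
    fun j hj b hb => by
      rcases j with _ | j
      · rw [m0]
        simp only [col, if_pos (hb.2 (Or.inl rfl))]
      · by_cases h : j = i0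
        · subst h
          rw [m3]
          simp only [col, if_neg (show ¬b from fun h => by have := hb.1 h; simp at this)]
        · rw [m1 j _ ⟨hj, h, M.mem hj.le, M.mono j (by omega), le_rfl⟩,
            show b = (rk r j < rk r i0) from propext (by simpa using hb)]
  have tail : ∀ L, (¬∃ i, i + 1 < r ∧ i ≠ i0 ∧ Seg L i) →
      (τ L ∈ A ↔ (if ∃ n < r, L = Lo n then d L else τ L) ∈ A') := fun L h => by
    split_ifs with h'
    · obtain ⟨n, hn, rfl⟩ := h'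
      have hn' : n = i0 ∨ n + 1 = r := by
        by_contra hc
        exact h ⟨n, by omega, by omega, by rw [M.dLo n hn], by
          rw [M.dLo n hn]
          exact M.mono n hn⟩
      rw [t3 n hn, M.dLo n hn]
      rcases hn' with rfl | hn'
      · rw [ca _ (pr_lt' hn) True (by
          unfold pr rk
          split_ifs <;> simp <;> omega)]
        simp only [col, if_true]
        exact ch1 _ (M.mem hn.le) (M.le_of (Nat.zero_le _) hn.le) le_rfl
      · rw [ca _ (pr_lt' hn) False (by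
          unfold pr rk
          split_ifs <;> simp <;> omega)]
        simp only [col, if_false]
        exact ch2 _ (M.mem hn.le) (M.le_of (by omega) hn.le) (M.le_of (by omega) (by omega))
    · exact m2 _ fun ⟨i, b⟩ => ((full i _ b).2.1 L rfl).elim (fun b' => h ⟨i, b.1, b.2.1, b'⟩) h'
  have head : ∀ L, (¬∃ i, i + 1 < r ∧ i ≠ i0 ∧ Seg L i) → (η L ∈ A ↔ η L ∈ A') := fun L h =>
    m2 _ fun ⟨i, b⟩ => h ⟨i, b.1, b.2.1, (full i _ b).1 L rfl⟩
  have h0 : ¬∃ i, i + 1 < r ∧ i ≠ i0 ∧ Seg L0 i := fun ⟨i, b1, b2, b3⟩ =>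
    (cl' i b1 b2 L0 b3).1 rfl
  have key := c A (fun L hL => ?_)
    ((tail L0 h0).trans (a2.trans (m2 x fun ⟨i, b⟩ => (full i _ b).2.2.1 rfl).symm))
    ((m2 y fun ⟨i, b⟩ => (full i _ b).2.2.2 rfl).trans (a3.trans (head L0 h0).symm))
  · have rep : ∀ s, ∃ s', s ∈ A' ↔ s' ∈ A := fun s => by
      by_cases h : ∃ i, Reg i s
      · obtain ⟨i, b1, b2, b3, b4, b5⟩ := h
        rcases lt_or_gt_of_ne b2 with l | l
        · exact ⟨a 0, (m0.trans (ch1 s b3 ((M.le_of (Nat.zero_le _) (by omega)).trans b4.le)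
            (b5.trans (M.le_of l (by omega))))).symm⟩
        · exact ⟨a (i0 + 1), (m3.trans (ch2 s b3 ((M.le_of l (by omega)).trans b4.le)
            (b5.trans (M.le_of (by omega) (by omega))))).symm⟩
      · exact ⟨s, (m2 s h).symm⟩
    intro s t hs
    obtain ⟨s', h1⟩ := rep s
    obtain ⟨t', h2⟩ := rep t
    exact h2.2 (key s' t' (h1.1 hs))
  · by_cases h : ∃ i, i + 1 < r ∧ i ≠ i0 ∧ Seg L i
    · obtain ⟨i, b1, b2, b3⟩ := h
      obtain ⟨-, b4, b5⟩ := cl' i b1 b2 L b3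
      obtain ⟨c1, c2, c3⟩ := M.seg_nx (by omega) b3.1 b3.2
      rw [b4, m1 i _ ⟨b1, b2, c1.2.1, c2, c3⟩]
      by_cases b6 : L = Lo i
      · rw [b6, t3 i (by omega)]
        refine ca _ (pr_lt' (by omega)) _ ?_
        unfold pr rk
        split_ifs <;> omega
      · rw [b5.resolve_right b6]
        refine m1 i _ ⟨b1, b2, ⟨L, rfl⟩, b3.1.lt_of_ne fun h => b6 (M.dinj ?_), b3.2.le⟩
        rw [M.dLo i (by omega)]
        exact (M.inj (M.mem (by omega)) ⟨L, rfl⟩ h).symm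
    · exact (tail L h).trans ((a1 L hL).trans (head L h).symm)

end Moat

open Classical in
/-- **Derotation of a family of moats.** -/
theorem derot_all {S Λ β Y : Type*} [LinearOrder β] [Finite S] [Finite Λ] {m : ℕ}
    {hang : Λ → ℕ → S → Prop} {κ : Y → S → β} {d nx : Λ → S} {r : ℕ} {p : Y → ℕ} {a X : Y → ℕ → S}
    {Lo Wi : Y → ℕ → Λ} {x y : S} {η : Λ → S} {L0 : Λ}
    (M : ∀ u, Moat m hang (κ u) d nx r (p u) (a u) (X u) (Lo u) (Wi u))
    (dis : ∀ u v, ∀ i < r, ∀ j < r, Lo u i = Lo v j → u = v) (R : Finset Y) {τ : Λ → S}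
    (e : Ends m hang x y τ η) (c : Cn L0 x y τ η) (rot : ∀ u ∈ R, ∀ n < r, τ (Lo u n) ≠ a u n)
    (cl : ∀ u ∈ R, ∃ i0, i0 + 1 < r ∧ ∀ L,
      (κ u (a u 0) ≤ κ u (d L) ∧ κ u (d L) < κ u (a u i0)) ∨
      (κ u (a u (i0 + 1)) ≤ κ u (d L) ∧ κ u (d L) < κ u (a u (r - 1))) →
      L ≠ L0 ∧ η L = nx L ∧ (τ L = d L ∨ ∃ n < r, L = Lo u n)) :
    Ends m hang x y (fun L => if ∃ u ∈ R, ∃ n < r, L = Lo u n then d L else τ L) η ∧
      Cn L0 x y (fun L => if ∃ u ∈ R, ∃ n < r, L = Lo u n then d L else τ L) η := by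
  induction R using Finset.induction_on with
  | empty => simpa using ⟨e, c⟩
  | insert u R hu ih =>
    obtain ⟨e1, c1⟩ := ih (fun v hv => rot v (Finset.mem_insert_of_mem hv))
      fun v hv => cl v (Finset.mem_insert_of_mem hv)
    obtain ⟨i0, h1, h2⟩ := cl u (Finset.mem_insert_self _ _)
    have rot' : ∀ n < r, (if ∃ v ∈ R, ∃ k < r, Lo u n = Lo v k then d (Lo u n) else τ (Lo u n)) ≠
        a u n := fun n hn => by
      rw [if_neg fun ⟨v, hv, k, hk, h⟩ => hu (dis u v n hn k hk h ▸ hv)]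
      exact rot u (Finset.mem_insert_self _ _) n hn
    have e2 := (M u).derot_ends e1 rot'
    have c2 := (M u).derot e1 c1 rot' h1 fun L hL => ⟨(h2 L hL).1, (h2 L hL).2.1,
      (h2 L hL).2.2.imp (fun h => by split_ifs <;> [rfl; exact h]) id⟩
    have q : (fun L => if ∃ n < r, L = Lo u n then d L else
        if ∃ v ∈ R, ∃ n < r, L = Lo v n then d L else τ L) =
        fun L => if ∃ v ∈ insert u R, ∃ n < r, L = Lo v n then d L else τ L := by
      funext L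
      simp only [Finset.mem_insert, exists_eq_or_imp]
      by_cases b1 : ∃ n < r, L = Lo u n
      · rw [if_pos b1, if_pos (Or.inl b1)]
      · simp only [b1, if_false, false_or]
    rw [← q]
    exact ⟨e2, c2⟩

/-- The same as a normal form: afterwards no moat is rotated, and nothing else changed. -/
theorem derot_ex {S Λ β Y : Type*} [LinearOrder β] [Finite S] [Finite Λ] [Finite Y] {m : ℕ}
    {hang : Λ → ℕ → S → Prop} {κ : Y → S → β} {d nx : Λ → S} {r : ℕ} {p : Y → ℕ} {a X : Y → ℕ → S}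
    {Lo Wi : Y → ℕ → Λ} {x y : S} {τ η : Λ → S} {L0 : Λ}
    (M : ∀ u, Moat m hang (κ u) d nx r (p u) (a u) (X u) (Lo u) (Wi u))
    (dis : ∀ u v, ∀ i < r, ∀ j < r, Lo u i = Lo v j → u = v)
    (e : Ends m hang x y τ η) (c : Cn L0 x y τ η)
    (cl : ∀ u, (∀ n < r, τ (Lo u n) ≠ a u n) → ∃ i0, i0 + 1 < r ∧ ∀ L,
      (κ u (a u 0) ≤ κ u (d L) ∧ κ u (d L) < κ u (a u i0)) ∨
      (κ u (a u (i0 + 1)) ≤ κ u (d L) ∧ κ u (d L) < κ u (a u (r - 1))) →
      L ≠ L0 ∧ η L = nx L ∧ (τ L = d L ∨ ∃ n < r, L = Lo u n)) :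
    ∃ τ', Ends m hang x y τ' η ∧ Cn L0 x y τ' η ∧ (∀ L, τ' L = τ L ∨ τ' L = d L) ∧
      (∀ L, (∀ u, ∀ n < r, L ≠ Lo u n) → τ' L = τ L) ∧
      ∀ u, ((∀ n < r, τ (Lo u n) ≠ a u n) → ∀ n < r, τ' (Lo u n) = a u n) ∧
        ((∃ n < r, τ (Lo u n) = a u n) → ∀ n < r, τ' (Lo u n) = τ (Lo u n)) := by
  classical
  have := Fintype.ofFinite Y
  obtain ⟨e1, c1⟩ := derot_all M dis (Finset.univ.filter fun u => ∀ n < r, τ (Lo u n) ≠ a u n)
    e c (fun u hu => (Finset.mem_filter.1 hu).2) fun u hu => cl u (Finset.mem_filter.1 hu).2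
  refine ⟨_, e1, c1, fun L => ?_, fun L h => if_neg fun ⟨u, _, n, hn, b⟩ => h u n hn b,
    fun u => ⟨fun h n hn => ?_, fun ⟨k, hk, h⟩ n hn => if_neg fun ⟨v, hv, j, hj, b⟩ => ?_⟩⟩
  · split_ifs
    exacts [Or.inr rfl, Or.inl rfl]
  · exact (if_pos ⟨u, Finset.mem_filter.2 ⟨Finset.mem_univ _, h⟩, n, hn, rfl⟩).trans
      ((M u).dLo n hn)
  · obtain rfl := dis u v n hn j hj b
    exact (Finset.mem_filter.1 hv).2 k hk h

end Pool.Agent.P.MP_439f1f_co
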