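import Pool.Agent.P.MP_439f1f_co.Mo2
import Pool.Agent.P.MP_439f1f_co.Lp2

/-!
The moat inside the loop layer: the results of the moat chapter in terms of `Loops` and `Fit`.
-/

set_option autoImplicit false

namespace Pool.Agent.P.MP_439f1f_co

open Function Sum

/-- position of the element `i` of the moat seen from the port `p`, and conversely -/
def el (r p i : ℕ) : ℕ := if i ≤ p then p - i else r + p - i

theorem el_lt {r p i : ℕ} (hp : p < r) (hi : i < r) : el r p i < r := by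
  unfold el
  split_ifs <;> omega

theorem el_el {r p i : ℕ} (hp : p < r) (hi : i < r) : el r p (el r p i) = i := by
  unfold el
  split_ifs <;> omega

theorem el_self (r p : ℕ) : el r p p = 0 := by simp [el]

theorem el_zero (r p : ℕ) : el r p 0 = p := by simp [el]

theorem el_sc {r p i : ℕ} (hp : p < r) (hi : i < r) : el r p (sc r i) = pr r (el r p i) := by
  unfold el sc pr
  split_ifs <;> omega

theorem el_pr {r p i : ℕ} (hp : p < r) (hi : i < r) : el r p (pr r i) = sc r (el r p i) := by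
  unfold el sc pr
  split_ifs <;> omega

theorem arc_el {r p n q : ℕ} {t : ℕ → Prop} (hp : p < r) (hn : n < r) (hq : q < r)
    (h : (n = q ∧ ∀ i < r, t (el r p i)) ∨ (n ≤ q ∧ ∀ i < r, (t (el r p i) ↔ n < i ∧ i ≤ q)) ∨
      (q < n ∧ ∀ i < r, (t (el r p i) ↔ i ≤ q ∨ n < i))) :
    (el r p n = el r p q ∧ ∀ i < r, t i) ∨
      (el r p q ≤ el r p n ∧ ∀ i < r, (t i ↔ el r p q ≤ i ∧ i < el r p n)) ∨
      (el r p n < el r p q ∧ ∀ i < r, (t i ↔ el r p q ≤ i ∨ i < el r p n)) := by
  rcases h with ⟨rfl, h⟩ | h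
  · exact Or.inl ⟨rfl, fun i hi => el_el hp hi ▸ h _ (el_lt hp hi)⟩
  right
  have k : ∀ i < r, (t i ↔ (n ≤ q ∧ n < el r p i ∧ el r p i ≤ q) ∨
      (q < n ∧ (el r p i ≤ q ∨ n < el r p i))) := fun i hi => by
    rcases h with ⟨h1, h⟩ | ⟨h1, h⟩
    · have := h _ (el_lt hp hi)
      rw [el_el hp hi] at this
      rw [this]
      omega
    · have := h _ (el_lt hp hi)
      rw [el_el hp hi] at this
      rw [this]
      omega
  rcases le_or_gt (el r p q) (el r p n) with l | l
  · refine Or.inl ⟨l, fun i hi => (k i hi).trans ?_⟩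
    unfold el at l ⊢
    split_ifs at l ⊢ <;> omega
  · refine Or.inr ⟨l, fun i hi => (k i hi).trans ?_⟩
    unfold el at l ⊢
    split_ifs at l ⊢ <;> omega

/-- the key of a cyclic order read from the value `b` on -/
def rkey {β : Type*} [LinearOrder β] (b x : β) : ℕ ×ₗ β := toLex (if x < b then 1 else 0, x)

theorem rkey_lt {β : Type*} [LinearOrder β] {b x y : β} :
    rkey b x < rkey b y ↔ (b ≤ x ∧ y < b) ∨ ((x < b ↔ y < b) ∧ x < y) := by
  unfold rkey
  rw [Prod.Lex.toLex_lt_toLex]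
  split_ifs <;> grind

theorem rkey_le {β : Type*} [LinearOrder β] {b x y : β} (hy : b ≤ y) :
    rkey b x ≤ rkey b y ↔ b ≤ x ∧ x ≤ y := by
  rw [← not_lt, rkey_lt]
  grind

theorem Cyc.rot {α β : Type*} [Finite α] [LinearOrder β] {σ : Equiv.Perm α} {pos : α → β}
    (o : Cyc Set.univ σ pos) (a : α) : Cyc Set.univ σ fun u => rkey (pos a) (pos u) := by
  refine Cyc.of_mono (fun _ _ => trivial) σ.injective.injOn (σ.symm a) fun u _ hu => ?_
  have ne : pos (σ u) ≠ pos a := fun h => hu (by rw [← o.inj trivial trivial h]; simp)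
  rw [rkey_lt]
  rcases o.cases (u := u) trivial with ⟨a1, a2⟩ | ⟨a1, a2⟩
  · have := a2 a trivial
    grind
  · have := a1 a trivial
    have := a2 a trivial
    grind

variable {P Y K β γ : Type*} [LinearOrder β] [LinearOrder γ]

namespace Loops

/-- The moat of the payload hub `u`: the loop `z` carries the payload hubs `e (r-1), .., e 0` in
this order, the port of the stage `j` lies just before `e (port j)`. -/
structure MoatFit (O : Loops P Y K β γ)
    (tB : P ⊕ K × Y × Fin 3 → Option (P ⊕ K × Y × Fin 3))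
    (hO : P → Option (P ⊕ K × Y × Fin 3)) (r : ℕ) (u : P) (e : ℕ → P) (z : Y) (port : K → ℕ) :
    Prop where
  odd : r % 2 = 1
  three : 3 ≤ r
  lpe : ∀ i < r, O.lp (e i) = z
  only : ∀ q, O.lp q = z → ∃ i < r, q = e i
  lpu : O.lp u ≠ z
  onlyu : ∀ q, O.lp q = O.lp u → q = u
  lke : ∀ i, i + 1 < r → O.lk (inl (e (i + 1))) < O.lk (inl (e i))
  plt : ∀ j, port j < r
  p1 : ∀ j, O.lk (inr (j, z)) < O.lk (inl (e (port j)))
  p2 : ∀ j, port j + 1 < r → O.lk (inl (e (port j + 1))) < O.lk (inr (j, z))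
  tBe : ∀ i < r, tB (inl (e i)) = some (inl (e (MP_439f1f_co.sc r i)))
  tBo : ∀ i < r, ∀ L, tB L = some (inl (e i)) → L = inl (e i) ∨ L = inl (e (pr r i))
  hOu : hO u = some (inl (e 0))
  hOo : ∀ i < r, ∀ q, hO q = some (inl (e i)) → q = e i ∨ (i = 0 ∧ q = u)

/-- One token crosses the moat from the entry `e k` to `e q`: the only moved head is the head into
`e k`, the moved tails are those of `e (k-1), .., e q` (cyclically), or all if `k = q`. -/
def ArcE (O : Loops P Y K β γ) (τ η : P ⊕ K × Y × Fin 3 → Option (P ⊕ K × Y × Fin 3)) (r : ℕ)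
    (e : ℕ → P) (k q : ℕ) : Prop :=
  k < r ∧ η (O.dA.symm (inl (e k))) ≠ some (inl (e k)) ∧
    (∀ i < r, i ≠ k → η (O.dA.symm (inl (e i))) = some (inl (e i))) ∧
    ((k = q ∧ ∀ i < r, τ (inl (e i)) ≠ some (inl (e i))) ∨
      (q ≤ k ∧ ∀ i < r, (τ (inl (e i)) ≠ some (inl (e i)) ↔ q ≤ i ∧ i < k)) ∨
      (k < q ∧ ∀ i < r, (τ (inl (e i)) ≠ some (inl (e i)) ↔ q ≤ i ∨ i < k)))

/-- the hubs of the moat from the port `p` on, then the node -/
def mh (r p : ℕ) (u : P) (e : ℕ → P) (n : ℕ) : P ⊕ K × Y × Fin 3 :=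
  inl (if n < r then e (el r p n) else u)

theorem mh_lt {r p n : ℕ} {u : P} {e : ℕ → P} (h : n < r) :
    (mh r p u e n : P ⊕ K × Y × Fin 3) = inl (e (el r p n)) := by rw [mh, if_pos h]

theorem mh_r {r p : ℕ} {u : P} {e : ℕ → P} : (mh r p u e r : P ⊕ K × Y × Fin 3) = inl u := by
  rw [mh, if_neg (lt_irrefl _)]

variable [DecidableEq K]

/-- the line `L` is not broken, and only ends at payload hubs may have left the state `j0` -/
def Pc (O : Loops P Y K β γ) (j0 : K) (L0 : P ⊕ K × Y × Fin 3)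
    (τ η : P ⊕ K × Y × Fin 3 → Option (P ⊕ K × Y × Fin 3)) (L : P ⊕ K × Y × Fin 3) : Prop :=
  L ≠ L0 ∧ (τ L = some L ∨ ∃ q, L = inl q) ∧ (η L = some (O.nxt j0 L) ∨ ∃ q, O.dA L = inl q)

/-- the key of the state `j0` read from the hub `a` on -/
def rpos (O : Loops P Y K β γ) (j0 : K) (a : P ⊕ K × Y × Fin 3)
    (s : Option (P ⊕ K × Y × Fin 3)) : ℕ ×ₗ β ×ₗ ℕ ×ₗ γ ×ₗ Fin 3 :=
  rkey (O.pos j0 a) (O.pos j0 (s.getD a))

variable {O : Loops P Y K β γ} {m : ℕ}
  {hang : P ⊕ K × Y × Fin 3 → ℕ → Option (P ⊕ K × Y × Fin 3) → Prop}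
  {tB : P ⊕ K × Y × Fin 3 → Option (P ⊕ K × Y × Fin 3)} {hO : P → Option (P ⊕ K × Y × Fin 3)}
  {x y : Option (P ⊕ K × Y × Fin 3)} {τ η : P ⊕ K × Y × Fin 3 → Option (P ⊕ K × Y × Fin 3)}
  {L0 : P ⊕ K × Y × Fin 3} {r : ℕ} {u : P} {e : ℕ → P} {z : Y} {port : K → ℕ}

theorem Calm.pc {j0 : K} (h : O.Calm tB hO j0 τ η) {L : P ⊕ K × Y × Fin 3} (hL : L ≠ L0) :
    O.Pc j0 L0 τ η L :=
  ⟨hL, (h.tl L).imp id fun ⟨q, a, _⟩ => ⟨q, a⟩, (h.hd L).imp id fun ⟨q, a, _⟩ => ⟨q, a⟩⟩

/-- a line into a payload hub lies in the unit of that hub -/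
theorem un_of_dA (j0 : K) {L : P ⊕ K × Y × Fin 3} {q : P} (h : O.dA L = inl q) :
    O.un j0 L = O.lp q := by
  rw [← O.dA.symm_apply_apply L, h, ← efst_l, dA_symm_efst, un_elst, lo_sc_symm, lo_l]

namespace MoatFit

variable (G : O.MoatFit tB hO r u e z port)

include G

omit [DecidableEq K] in
theorem lk_lt {i j : ℕ} (hij : i < j) (hj : j < r) : O.lk (inl (e j)) < O.lk (inl (e i)) := by
  induction j, hij using Nat.le_induction with
  | base => exact G.lke i hj
  | succ j hij ih => exact (G.lke j hj).trans (ih (by omega))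

omit [DecidableEq K] in
theorem port_lt (j : K) {i : ℕ} (h : i ≤ port j) : O.lk (inr (j, z)) < O.lk (inl (e i)) := by
  rcases h.eq_or_lt with rfl | h
  · exact G.p1 j
  · exact (G.p1 j).trans (G.lk_lt h (G.plt j))

omit [DecidableEq K] in
theorem lt_port (j : K) {i : ℕ} (h : port j < i) (hi : i < r) :
    O.lk (inl (e i)) < O.lk (inr (j, z)) := by
  rcases (Nat.succ_le_of_lt h).eq_or_lt with rfl | h'
  · exact G.p2 j hi
  · exact (G.lk_lt h' hi).trans (G.p2 j (by omega))

omit [DecidableEq K] in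
theorem ph_e (j : K) {i : ℕ} (hi : i < r) :
    O.ph j (inl (e i)) = if i ≤ port j then 3 else 4 := by
  rw [ph, lo_l, G.lpe i hi]
  by_cases h : i ≤ port j
  · rw [if_pos h, if_pos (G.port_lt j h)]
  · rw [if_neg h, if_neg (G.lt_port j (not_le.1 h) hi).not_gt]

theorem pos_mono (j : K) {n k : ℕ} (h : n < k) (hk : k < r) :
    O.pos j (mh r (port j) u e n) < O.pos j (mh r (port j) u e k) := by
  have hp := G.plt j
  have a1 := el_lt hp (h.trans hk)
  have a2 := el_lt hp hk
  rw [mh_lt (h.trans hk), mh_lt hk]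
  refine O.pos_lt.2 (Or.inr ⟨by simp [G.lpe _ a1, G.lpe _ a2],
    O.ix_lt (fun _ h => nomatch h) (fun _ h => nomatch h) ?_⟩)
  simp only [elt_l, G.ph_e j a1, G.ph_e j a2]
  by_cases c : el r (port j) k < el r (port j) n
  · refine Or.inr ⟨?_, G.lk_lt c a1⟩
    unfold el at *
    split_ifs at * <;> omega
  · left
    unfold el at *
    split_ifs at * <;> omega

theorem pos_le (j : K) {n k : ℕ} (h : n ≤ k) (hk : k < r) :
    O.pos j (mh r (port j) u e n) ≤ O.pos j (mh r (port j) u e k) := by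
  rcases h.eq_or_lt with rfl | h
  · exact le_rfl
  · exact (G.pos_mono j h hk).le

theorem un_mh (j : K) {n : ℕ} (h : n < r) : O.un j (mh r (port j) u e n) = z := by
  rw [mh_lt h, un_l, G.lpe _ (el_lt (G.plt j) h)]

/-- between two hubs of the moat there are only hubs of its unit -/
theorem un_mid (j : K) {n : ℕ} (h : n < r) {s : P ⊕ K × Y × Fin 3}
    (h1 : O.pos j (mh r (port j) u e 0) ≤ O.pos j s)
    (h2 : O.pos j s ≤ O.pos j (mh r (port j) u e n)) : O.un j s = z := by
  have a1 := O.key_le_of_pos h1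
  have a2 := O.key_le_of_pos h2
  rw [G.un_mh j (by omega)] at a1
  rw [G.un_mh j h] at a2
  exact O.key_inj j (le_antisymm a2 a1)

/-- the hubs of a port lie in the segment before `e (port j1)` -/
theorem sys_mid (j0 j1 : K) (w : Y × Fin 3)
    (h1 : O.pos j0 (mh r (port j0) u e 0) ≤ O.pos j0 (inr (j1, w)))
    (h2 : O.pos j0 (inr (j1, w)) ≤ O.pos j0 (mh r (port j0) u e (r - 1))) :
    0 < el r (port j0) (port j1) ∧
      O.pos j0 (mh r (port j0) u e (el r (port j0) (port j1) - 1)) < O.pos j0 (inr (j1, w)) ∧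
      O.pos j0 (inr (j1, w)) < O.pos j0 (mh r (port j0) u e (el r (port j0) (port j1))) := by
  have h3 := G.three
  have p0 := G.plt j0
  have p1 := G.plt j1
  have un := G.un_mid j0 (by omega) h1 h2
  by_cases c : j1 = j0
  · subst c
    refine absurd (O.pos_lt.2 (Or.inr ⟨un.trans (G.un_mh j1 (by omega)).symm,
      O.ix_hot w fun _ h => nomatch h⟩)) h1.not_gt
  obtain ⟨y, s⟩ := w
  rw [O.un_ne c] at un
  subst un
  have nh : ∀ w, (inr (j1, y, s) : P ⊕ K × Y × Fin 3) ≠ inr (j0, w) := fun w h => c (by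
    simpa using congrArg (Sum.elim (fun _ => j1) Prod.fst) h)
  have lt1 : ∀ n < r, (O.ph j0 (inr (j1, y)) < (if el r (port j0) n ≤ port j0 then 3 else 4) ∨
      (O.ph j0 (inr (j1, y)) = (if el r (port j0) n ≤ port j0 then 3 else 4) ∧
        el r (port j0) n ≤ port j1)) →
      O.pos j0 (inr (j1, y, s)) < O.pos j0 (mh r (port j0) u e n) := fun n hn h => by
    refine O.pos_lt.2 (Or.inr ⟨(O.un_ne c _ _).trans (G.un_mh j0 hn).symm, ?_⟩)
    rw [mh_lt hn]
    refine O.ix_lt nh (fun _ h => nomatch h) ?_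
    simp only [elt_l, elt_r, G.ph_e j0 (el_lt p0 hn)]
    exact h.imp id fun h => ⟨h.1, G.port_lt j1 h.2⟩
  have lt2 : ∀ n < r, ((if el r (port j0) n ≤ port j0 then 3 else 4) < O.ph j0 (inr (j1, y)) ∨
      ((if el r (port j0) n ≤ port j0 then 3 else 4) = O.ph j0 (inr (j1, y)) ∧
        port j1 < el r (port j0) n)) →
      O.pos j0 (mh r (port j0) u e n) < O.pos j0 (inr (j1, y, s)) := fun n hn h => by
    refine O.pos_lt.2 (Or.inr ⟨(G.un_mh j0 hn).trans (O.un_ne c _ _).symm, ?_⟩)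
    rw [mh_lt hn]
    refine O.ix_lt (fun _ h => nomatch h) nh ?_
    simp only [elt_l, elt_r, G.ph_e j0 (el_lt p0 hn)]
    exact h.imp id fun h => ⟨h.1, G.lt_port j1 h.2 (el_lt p0 hn)⟩
  have b1 := mt (lt1 0 (by omega)) h1.not_gt
  have b2 := mt (lt2 (r - 1) (by omega)) h2.not_gt
  have ph : (O.ph j0 (inr (j1, y)) = 3 ∧ port j1 ≤ port j0) ∨
      (O.ph j0 (inr (j1, y)) = 4 ∧ port j0 ≤ port j1) := by
    unfold Loops.ph
    split_ifs with h
    · exact Or.inl ⟨rfl, not_lt.1 fun l =>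
        h.not_gt ((G.p1 j1).trans (G.lt_port j0 l p1))⟩
    · exact Or.inr ⟨rfl, not_lt.1 fun l => h ((G.p1 j0).trans (G.lt_port j1 l p0))⟩
  have a := el_lt p0 p1
  rcases ph with ⟨c1, c2⟩ | ⟨c1, c2⟩ <;> rw [c1] at lt1 lt2 b1 b2 <;>
    refine ⟨?_, lt2 _ (by omega) ?_, lt1 _ a ?_⟩ <;> unfold el at b1 b2 ⊢ <;>
    split_ifs at b1 b2 ⊢ <;> omega

variable [Finite P] [Finite Y] [Finite K]

/-- **The moat in the state `j`.** -/
theorem moat (F : O.Fit m hang tB hO) (j : K) :
    Moat m hang (O.rpos j (mh r (port j) u e 0)) some (fun L => some (O.nxt j L)) r (port j)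
      (fun n => some (mh r (port j) u e n)) (fun n => hO (e (el r (port j) n)))
      (mh r (port j) u e) fun n => O.dA.symm (mh r (port j) u e n) := by
  have : Nonempty Y := ⟨z⟩
  have o := (O.cyc j).rot (mh r (port j) u e 0)
  have hp := G.plt j
  have h3 := G.three
  refine ⟨G.odd, h3, hp, ?_, Option.some_injective _,
    (Option.some_injective _).comp (O.nxt j).injective, ⟨_, rfl⟩, fun n hn => ?_,
    fun _ _ => rfl, fun n _ => congrArg some (O.nxt_pay (O.dA.apply_symm_apply _)),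
    fun L _ h => ?_, fun n hn L h => ?_, fun n hn L h => ?_, fun n hn s h => ?_,
    fun n hn s h => ?_, fun n _ => (F.tl _ _).2 (Or.inl rfl)⟩
  · rintro _ ⟨a, rfl⟩ _ ⟨b, rfl⟩ h
    exact congrArg some (o.inj trivial trivial h)
  · have a1 := G.pos_le j (Nat.zero_le n) hn
    refine rkey_lt.2 ?_
    simp only [Option.getD_some]
    rcases (Nat.succ_le_of_lt hn).eq_or_lt with h | h
    · rw [show n + 1 = r from h, mh_r]
      rcases lt_or_ge (O.pos j (inl u)) (O.pos j (mh r (port j) u e 0)) with l | l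
      · exact Or.inl ⟨a1, l⟩
      · refine Or.inr ⟨iff_of_false a1.not_gt l.not_gt, not_le.1 fun l' => G.lpu ?_⟩
        exact G.un_mid j hn l l'
    · have a2 := G.pos_mono j n.lt_succ_self h
      exact Or.inr ⟨iff_of_false a1.not_gt (a1.trans a2.le).not_gt, a2⟩
  · have := o.to_nx (u := L) trivial (o.succ L trivial _ trivial h).1
    exact ⟨⟨_, rfl⟩, ⟨_, rfl⟩, this.2.2.1, by
      rintro _ ⟨w, rfl⟩
      exact this.2.2.2 w trivial⟩
  · rw [mh_lt (sc_lt' hn), el_sc hp hn]
    simp only [mh_lt hn] at h ⊢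
    exact ((F.tl _ _).1 h).elim (fun h => Or.inl (Option.some.inj h).symm)
      fun h => G.tBo _ (el_lt hp hn) L h.symm
  · simp only [mh_lt hn, mh_r] at h ⊢
    obtain ⟨q, hq⟩ | ⟨j1, w, rfl⟩ := O.pay_or_sl L
    · rw [← O.dA.symm_apply_apply L, hq]
      rcases (F.hp L q _ hq).1 h with h | h
      · exact Or.inl (by rw [Option.some.inj h])
      · rcases G.hOo _ (el_lt hp hn) q h.symm with rfl | ⟨h1, rfl⟩
        · exact Or.inl rfl
        · exact Or.inr ⟨by rw [← el_el hp hn, h1, el_zero], rfl⟩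
    · exact ((F.hs _ _ _).1 h).elim (fun h => nomatch h) fun h => nomatch h
  · simp only [mh_lt (pr_lt' hn), el_pr hp hn, mh_lt hn] at h ⊢
    rw [← G.tBe _ (el_lt hp hn)]
    exact (F.tl _ _).1 h
  · simp only [mh_lt hn] at h ⊢
    exact (F.hp _ _ _ (O.dA.apply_symm_apply _)).1 h

omit [Finite P] [Finite Y] [Finite K] [DecidableEq K] in
theorem arcE (j : K) {n q : ℕ} (hq : q < r)
    (A : Moat.Arc τ η r (fun n => some (mh r (port j) u e n)) (mh r (port j) u e)
      (fun n => O.dA.symm (mh r (port j) u e n)) n q) :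
    O.ArcE τ η r e (el r (port j) n) (el r (port j) q) := by
  have hp := G.plt j
  obtain ⟨a1, a2, a3, a4⟩ := A
  refine ⟨el_lt hp a1, by simpa only [mh_lt a1] using a2, fun i hi ne => ?_,
    arc_el (t := fun i => τ (inl (e i)) ≠ some (inl (e i))) hp a1 hq ?_⟩
  · have := a3 _ (el_lt hp hi) fun h => ne (by rw [← h, el_el hp hi])
    simpa only [mh_lt (el_lt hp hi), el_el hp hi] using this
  · refine a4.imp (And.imp id fun h i hi => ?_) (Or.imp (And.imp id fun h i hi => ?_)
      (And.imp id fun h i hi => ?_)) <;> simpa only [mh_lt hi] using h i hi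

omit [Finite P] [Finite Y] [Finite K] [DecidableEq K] in
theorem ne_mh (j : K) (hx : ∀ i < r, x ≠ some (inl (e i))) :
    ∀ n < r, x ≠ some (mh r (port j) u e n) := fun n hn => by
  rw [mh_lt hn]
  exact hx _ (el_lt (G.plt j) hn)

omit [Finite P] [Finite Y] [Finite K] [DecidableEq K] in
theorem mh_p (j : K) : (mh r (port j) u e (port j) : P ⊕ K × Y × Fin 3) = inl (e 0) := by
  rw [mh_lt (G.plt j), el_self]

omit [Finite P] [Finite Y] [Finite K] [DecidableEq K] in
theorem mh_el (j : K) {i : ℕ} (hi : i < r) :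
    (mh r (port j) u e (el r (port j) i) : P ⊕ K × Y × Fin 3) = inl (e i) := by
  rw [mh_lt (el_lt (G.plt j) hi), el_el (G.plt j) hi]

/-- **No gap hub in the moat, no exit**: no entry, and all tails or no tail moved. -/
theorem idle [Nonempty K] (F : O.Fit m hang tB hO) (h : Ends m hang x y τ η)
    (hx : ∀ i < r, x ≠ some (inl (e i))) (hy : ∀ i < r, y ≠ some (inl (e i)))
    (he : η (O.dA.symm (inl u)) ≠ some (inl (e 0))) :
    (∀ i < r, η (O.dA.symm (inl (e i))) = some (inl (e i))) ∧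
      ((∀ i < r, τ (inl (e i)) ≠ some (inl (e i))) ∨ ∀ i < r, τ (inl (e i)) = some (inl (e i))) := by
  obtain ⟨j⟩ := ‹Nonempty K›
  have hp := G.plt j
  obtain ⟨a, b⟩ := (G.moat F j).idle h (G.ne_mh j hx) (G.ne_mh j hy)
    (by simpa only [mh_r, G.mh_p j] using he)
  refine ⟨fun i hi => ?_, b.imp (fun b i hi => ?_) fun b i hi => ?_⟩
  · simpa only [G.mh_el j hi] using a _ (el_lt hp hi)
  · simpa only [G.mh_el j hi] using b _ (el_lt hp hi)
  · simpa only [G.mh_el j hi] using b _ (el_lt hp hi)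

/-- the lower gap hub is `e q` -/
theorem arc_x [Nonempty K] (F : O.Fit m hang tB hO) (h : Ends m hang x y τ η) {q : ℕ} (hq : q < r)
    (hx : x = some (inl (e q))) (hy : ∀ i < r, y ≠ some (inl (e i)))
    (he : η (O.dA.symm (inl u)) ≠ some (inl (e 0))) : ∃ k, O.ArcE τ η r e k q := by
  obtain ⟨j⟩ := ‹Nonempty K›
  have hp := G.plt j
  obtain ⟨n, A⟩ := (G.moat F j).arc_x h (el_lt hp hq) (by rw [G.mh_el j hq, hx]) (G.ne_mh j hy)
    (by simpa only [mh_r, G.mh_p j] using he)
  exact ⟨_, el_el hp hq ▸ G.arcE j (el_lt hp hq) A⟩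

/-- the upper gap hub is `e q` -/
theorem arc_y [Nonempty K] (F : O.Fit m hang tB hO) (h : Ends m hang x y τ η) {q : ℕ} (hq : q < r)
    (hy : y = some (inl (e q))) (hx : ∀ i < r, x ≠ some (inl (e i)))
    (he : η (O.dA.symm (inl u)) ≠ some (inl (e 0))) : ∃ k, O.ArcE τ η r e k q :=
  G.arc_x F h.symm hq hy hx he

/-- exit, no gap hub in the moat -/
theorem arc_exit [Nonempty K] (F : O.Fit m hang tB hO) (h : Ends m hang x y τ η)
    (hx : ∀ i < r, x ≠ some (inl (e i))) (hy : ∀ i < r, y ≠ some (inl (e i)))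
    (he : η (O.dA.symm (inl u)) = some (inl (e 0))) : ∃ k, O.ArcE τ η r e k 0 := by
  obtain ⟨j⟩ := ‹Nonempty K›
  obtain ⟨n, A⟩ := (G.moat F j).arc_exit h (G.ne_mh j hx) (G.ne_mh j hy)
    (by simpa only [mh_r, G.mh_p j] using he)
  exact ⟨_, el_self r (port j) ▸ G.arcE j (G.plt j) A⟩

/-- an exit needs an entry, wherever the gap is -/
theorem exit_entry [Nonempty K] (F : O.Fit m hang tB hO) (h : Ends m hang x y τ η)
    (he : η (O.dA.symm (inl u)) = some (inl (e 0))) :
    ∃ k < r, η (O.dA.symm (inl (e k))) ≠ some (inl (e k)) := by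
  obtain ⟨j⟩ := ‹Nonempty K›
  obtain ⟨n, hn, A⟩ := (G.moat F j).exit_entry h (by simpa only [mh_r, G.mh_p j] using he)
  exact ⟨_, el_lt (G.plt j) hn, by simpa only [mh_lt hn] using A⟩

omit [Finite P] [Finite Y] [Finite K] in
theorem cl_of (j : K) {L : P ⊕ K × Y × Fin 3} (c : O.Pc j L0 τ η L)
    (h : O.un j L = z ∨ (O.un j L = O.lp u ∧ L ≠ inl u)) :
    Cl L0 τ η some (fun L => some (O.nxt j L)) r (mh r (port j) u e)
      (fun n => O.dA.symm (mh r (port j) u e n)) L := by
  have hp := G.plt j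
  refine ⟨c.1, c.2.1.imp id ?_, c.2.2.imp id ?_⟩
  · rintro ⟨q, rfl⟩
    rcases h with h | h
    · obtain ⟨i, hi, rfl⟩ := G.only q h
      exact ⟨_, el_lt hp hi, (G.mh_el j hi).symm⟩
    · exact absurd (congrArg inl (G.onlyu q h.1)) h.2
  · rintro ⟨q, hq⟩
    rw [un_of_dA j hq] at h
    rcases h with h | h
    · obtain ⟨i, hi, rfl⟩ := G.only q h
      exact ⟨_, (el_lt hp hi).le, by
        simp only [G.mh_el j hi, ← hq, Equiv.symm_apply_apply]⟩
    · exact ⟨r, le_rfl, by
        rw [G.onlyu q h.1] at hq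
        simp only [mh_r, ← hq, Equiv.symm_apply_apply]⟩

/-- **Exit through a clean block.**  The unit of the node follows the unit of the moat, and up to
the node only payload ends moved: the exit is a leak, the port is even and the entry class is
larger than the port. -/
theorem dead_exit (F : O.Fit m hang tB hO) (j : K) (h : Ends m hang x y τ η)
    (c : Cn L0 x y τ η) (adj : O.nx j z = O.lp u)
    (hx : ∀ i < r, x ≠ some (inl (e i))) (hy : ∀ i < r, y ≠ some (inl (e i)))
    (he : η (O.dA.symm (inl u)) = some (inl (e 0)))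
    (cl : ∀ L, O.un j L = z ∨ (O.un j L = O.lp u ∧ O.ix j L < O.ix j (inl u)) →
      O.Pc j L0 τ η L) :
    ∃ k, port j < k ∧ port j % 2 = 0 ∧ O.ArcE τ η r e k 0 := by
  have hp := G.plt j
  obtain ⟨n, a1, a2, A⟩ := (G.moat F j).dead_exit h c (G.ne_mh j hx) (G.ne_mh j hy)
    (by simpa only [mh_r, G.mh_p j] using he) fun L _ b => by
      have b := rkey_lt.1 b
      simp only [Option.getD_some, mh_r] at b
      have k : O.un j L = z ∨ (O.un j L = O.lp u ∧ O.ix j L < O.ix j (inl u)) := by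
        have k0 := G.un_mh j (n := 0) (by omega)
        have k1 : O.pos j (mh r (port j) u e 0) ≤ O.pos j L → O.key j z ≤ O.key j (O.un j L) :=
          fun l => k0 ▸ O.key_le_of_pos l
        have k2 : O.pos j (inl u) < O.pos j (mh r (port j) u e 0) →
            O.key j (O.lp u) ≤ O.key j z := fun l => k0 ▸ O.key_le_of_pos l.le
        have k3 : O.pos j L < O.pos j (mh r (port j) u e 0) →
            O.key j (O.un j L) ≤ O.key j z := fun l => k0 ▸ O.key_le_of_pos l.le
        have k4 : O.pos j (mh r (port j) u e 0) ≤ O.pos j (inl u) →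
            O.key j z ≤ O.key j (O.lp u) := fun l => k0 ▸ O.key_le_of_pos l
        have k5 : O.key j (O.lp u) ≠ O.key j z := fun l => G.lpu (O.key_inj j l)
        have k6 := O.pos_lt (j0 := j) (u := L) (v := inl u)
        have k7 : O.key j (O.un j L) = O.key j z → O.un j L = z := fun l => O.key_inj j l
        rw [un_l] at k6
        rcases (O.hnx j).cases (u := z) trivial with ⟨d1, d2⟩ | ⟨d1, d2⟩
        · have := d2 (O.un j L) trivial
          rw [adj] at d1 this
          grind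
        · have := d1 (O.un j L) trivial
          have := d2 (O.un j L) trivial
          rw [adj] at this
          grind
      exact G.cl_of j (cl L k) (k.imp id fun k => ⟨k.1, fun l => (l ▸ k.2).false⟩)
  refine ⟨_, ?_, a2, el_self r (port j) ▸ G.arcE j hp A⟩
  have := A.1
  unfold el
  split_ifs <;> omega

omit [Finite P] [Finite Y] [Finite K] in
theorem mid_of (j : K) {L : P ⊕ K × Y × Fin 3} {n : ℕ} (hn : n < r)
    (h : O.rpos j (mh r (port j) u e 0) (some L) ≤
      O.rpos j (mh r (port j) u e 0) (some (mh r (port j) u e n))) :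
    O.pos j (mh r (port j) u e 0) ≤ O.pos j L ∧ O.pos j L ≤ O.pos j (mh r (port j) u e n) :=
  (rkey_le (G.pos_le j (Nat.zero_le _) hn)).1 h

/-- **First gap of the line of `e i`** in normal form: the entry comes later than `e i` seen from
the port, or is `e i` at an odd position.  In particular it is not the class of the port. -/
theorem first_gap (F : O.Fit m hang tB hO) (j : K) {i : ℕ} (hi : i < r)
    (h : Ends m hang (tB (inl (e i))) y τ η) (c : Cn (inl (e i)) (tB (inl (e i))) y τ η)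
    (ht : τ (inl (e i)) = some (inl (e i))) (hy : ∀ i < r, y ≠ some (inl (e i)))
    (he : η (O.dA.symm (inl u)) ≠ some (inl (e 0)))
    (cl : ∀ L, O.un j L = z → L ≠ inl (e i) → O.Pc j (inl (e i)) τ η L) :
    ∃ k, k ≠ port j ∧ (el r (port j) i < el r (port j) k ∨ (k = i ∧ el r (port j) i % 2 = 1)) ∧
      O.ArcE τ η r e k (MP_439f1f_co.sc r i) := by
  have hp := G.plt j
  have h3 := G.three
  have hk := el_lt hp hi
  have q : el r (port j) (pr r (el r (port j) i)) = MP_439f1f_co.sc r i := by rw [el_pr hp hk, el_el hp hi]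
  obtain ⟨n, a, A⟩ := (G.moat F j).first_gap h hk (by simpa only [G.mh_el j hi] using c)
    (by simpa only [G.mh_el j hi] using ht) (by simp only [mh_lt (pr_lt' hk), q, G.tBe i hi])
    (G.ne_mh j hy) (by simpa only [mh_r, G.mh_p j] using he) fun L _ b ne => by
      have b := G.mid_of j (by omega) b.le
      have b := G.un_mid j (by omega) b.1 b.2
      simp only [G.mh_el j hi] at ne ⊢
      exact G.cl_of j (cl L b ne) (Or.inl b)
  have hn := A.1
  refine ⟨el r (port j) n, fun l => ?_, ?_, q ▸ G.arcE j (pr_lt' hk) A⟩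
  · have : n = 0 := by rw [← el_el hp hn, l, el_self]
    omega
  · rw [el_el hp hn]
    exact a.imp id fun a => ⟨by rw [a.1, el_el hp hi], a.2⟩

end MoatFit

end Loops

end Pool.Agent.P.MP_439f1f_co
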