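import Pool.Agent.P.MP_439f1f_co.Mo3

/-!
Derotation inside the loop layer.
-/

set_option autoImplicit false

namespace Pool.Agent.P.MP_439f1f_co

open Function Sum

variable {P Y K β γ N : Type*} [LinearOrder β] [LinearOrder γ]

namespace Loops

/-- `τ'` is `τ` with the tails of all rotated moats put back -/
structure Derot (r : ℕ) (e : N → ℕ → P)
    (τ τ' : P ⊕ K × Y × Fin 3 → Option (P ⊕ K × Y × Fin 3)) : Prop where
  or : ∀ L, τ' L = τ L ∨ τ' L = some L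
  out : ∀ L, (∀ n, ∀ i < r, L ≠ inl (e n i)) → τ' L = τ L
  rot : ∀ n, (∀ i < r, τ (inl (e n i)) ≠ some (inl (e n i))) →
    ∀ i < r, τ' (inl (e n i)) = some (inl (e n i))
  keep : ∀ n, (∃ i < r, τ (inl (e n i)) = some (inl (e n i))) →
    ∀ i < r, τ' (inl (e n i)) = τ (inl (e n i))

variable {r : ℕ} {e : N → ℕ → P} {τ τ' η : P ⊕ K × Y × Fin 3 → Option (P ⊕ K × Y × Fin 3)}

/-- afterwards no moat is rotated -/
theorem Derot.not_rot (D : Derot r e τ τ') (hr : 0 < r) (n : N) :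
    ∃ i < r, τ' (inl (e n i)) = some (inl (e n i)) := by
  by_cases h : ∃ i < r, τ (inl (e n i)) = some (inl (e n i))
  · obtain ⟨i, hi, a⟩ := id h
    exact ⟨i, hi, (D.keep n h i hi).trans a⟩
  · exact ⟨0, hr, D.rot n (fun i hi a => h ⟨i, hi, a⟩) 0 hr⟩

theorem Derot.stay (D : Derot r e τ τ') {L : P ⊕ K × Y × Fin 3} (h : τ L = some L) :
    τ' L = some L := (D.or L).elim (fun a => a.trans h) id

variable [DecidableEq K] {O : Loops P Y K β γ} {m : ℕ}
  {hang : P ⊕ K × Y × Fin 3 → ℕ → Option (P ⊕ K × Y × Fin 3) → Prop}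
  {tB : P ⊕ K × Y × Fin 3 → Option (P ⊕ K × Y × Fin 3)} {hO : P → Option (P ⊕ K × Y × Fin 3)}
  {x y : Option (P ⊕ K × Y × Fin 3)} {L0 : P ⊕ K × Y × Fin 3} {u : N → P} {z : N → Y}
  {port : N → K → ℕ} {j0 : K}

theorem Derot.calm (D : Derot r e τ τ') (h : O.Calm tB hO j0 τ η) : O.Calm tB hO j0 τ' η :=
  ⟨fun L => (D.or L).elim (fun a => a ▸ h.tl L) Or.inl, h.hd⟩

theorem Derot.pc (D : Derot r e τ τ') {L : P ⊕ K × Y × Fin 3} (h : O.Pc j0 L0 τ η L) :
    O.Pc j0 L0 τ' η L := ⟨h.1, h.2.1.imp D.stay id, h.2.2⟩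

/-- in a window all lines outside the stage `j1` are calm -/
theorem win_pc {j1 : K} {e0 : Y × Fin 3} {n : ℕ} {w : P ⊕ K × Y × Fin 3}
    (h1 : ∀ L, (∀ i, 1 ≤ i → i ≤ n → L ≠ O.sl j1 ((O.gam j0 j1 ^ i) e0)) →
      η L = some (O.nxt j0 L) ∨ ∃ p, O.dA L = inl p ∧ η L = hO p)
    (hw : w = O.alt j0 j1 ((O.gam j0 j1 ^ n) e0))
    (h2 : ∀ L, L ≠ w → τ L = some L ∨ ∃ p, L = inl p ∧ τ L = tB L) (L : P ⊕ K × Y × Fin 3)
    (a : ∀ v, L ≠ O.sl j1 v) (b : ∀ v, L ≠ inr (j1, v)) : O.Pc j0 (O.sl j1 e0) τ η L := by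
  refine ⟨a _, (h2 L ?_).imp id fun ⟨q, c, _⟩ => ⟨q, c⟩,
    (h1 L fun _ _ _ => a _).imp id fun ⟨q, c, _⟩ => ⟨q, c⟩⟩
  rw [hw, alt]
  split_ifs with c
  exacts [b _, b _]

variable [Finite P] [Finite Y] [Finite K] [Finite N]

/-- general form: one segment `i0` for every rotated moat -/
theorem derot_gen (F : O.Fit m hang tB hO)
    (G : ∀ n, O.MoatFit tB hO r (u n) (e n) (z n) (port n)) (hz : Injective z)
    (h : Ends m hang x y τ η) (c : Cn L0 x y τ η)
    (cl : ∀ n, (∀ i < r, τ (inl (e n i)) ≠ some (inl (e n i))) → ∃ i0, i0 + 1 < r ∧ ∀ L,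
      O.un j0 L = z n → O.pos j0 (mh r (port n j0) (u n) (e n) 0) ≤ O.pos j0 L →
      O.pos j0 L < O.pos j0 (mh r (port n j0) (u n) (e n) (r - 1)) →
      (O.pos j0 L < O.pos j0 (mh r (port n j0) (u n) (e n) i0) ∨
        O.pos j0 (mh r (port n j0) (u n) (e n) (i0 + 1)) ≤ O.pos j0 L) →
      L ≠ L0 ∧ η L = some (O.nxt j0 L) ∧ (τ L = some L ∨ ∃ q, L = inl q)) :
    ∃ τ', Ends m hang x y τ' η ∧ Cn L0 x y τ' η ∧ Derot r e τ τ' := by
  have lt : ∀ n, ∀ i < r, el r (port n j0) i < r := fun n i hi => el_lt ((G n).plt j0) hi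
  obtain ⟨τ', a1, a2, a3, a4, a5⟩ := derot_ex (fun n => (G n).moat F j0)
    (fun n n' i hi j hj b => hz (by
      rw [← (G n).un_mh j0 hi, b, (G n').un_mh j0 hj])) h c fun n rot => by
      have h3 := (G n).three
      obtain ⟨i0, b1, b2⟩ := cl n fun i hi => by
        simpa only [(G n).mh_el j0 hi] using rot _ (lt n i hi)
      refine ⟨i0, b1, fun L hL => ?_⟩
      have k : ∀ i < r, O.rpos j0 (mh r (port n j0) (u n) (e n) 0) (some L) <
          O.rpos j0 (mh r (port n j0) (u n) (e n) 0) (some (mh r (port n j0) (u n) (e n) i)) →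
          O.pos j0 (mh r (port n j0) (u n) (e n) 0) ≤ O.pos j0 L ∧
            O.pos j0 L < O.pos j0 (mh r (port n j0) (u n) (e n) i) := fun i hi b =>
        ⟨((G n).mid_of j0 hi b.le).1, ((G n).mid_of j0 hi b.le).2.lt_of_ne fun l =>
          b.ne (by simp only [rpos, Option.getD_some, l])⟩
      have k2 : O.pos j0 (mh r (port n j0) (u n) (e n) 0) ≤ O.pos j0 L ∧
          O.pos j0 L < O.pos j0 (mh r (port n j0) (u n) (e n) (r - 1)) ∧
          (O.pos j0 L < O.pos j0 (mh r (port n j0) (u n) (e n) i0) ∨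
            O.pos j0 (mh r (port n j0) (u n) (e n) (i0 + 1)) ≤ O.pos j0 L) := by
        rcases hL with ⟨-, d⟩ | ⟨d1, d2⟩
        · have := k i0 (by omega) d
          exact ⟨this.1, this.2.trans_le ((G n).pos_le j0 (by omega) (by omega)), Or.inl this.2⟩
        · have := k (r - 1) (by omega) d2
          exact ⟨this.1, this.2, Or.inr ((rkey_le this.1).1 d1).2⟩
      have un := (G n).un_mid j0 (by omega) k2.1 k2.2.1.le
      obtain ⟨d1, d2, d3⟩ := b2 L un k2.1 k2.2.1 k2.2.2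
      refine ⟨d1, d2, d3.imp id ?_⟩
      rintro ⟨q, rfl⟩
      obtain ⟨i, hi, rfl⟩ := (G n).only q un
      exact ⟨_, lt n i hi, ((G n).mh_el j0 hi).symm⟩
  refine ⟨τ', a1, a2, a3, fun L b => a4 L fun n i hi => ?_, fun n b i hi => ?_,
    fun n ⟨k, hk, b⟩ i hi => ?_⟩
  · rw [mh_lt hi]
    exact b n _ (lt n i hi)
  · simpa only [(G n).mh_el j0 hi] using (a5 n).1
      (fun i hi => by simpa only [mh_lt hi] using b _ (lt n i hi)) _ (lt n i hi)
  · simpa only [(G n).mh_el j0 hi] using (a5 n).2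
      ⟨_, lt n k hk, by simpa only [(G n).mh_el j0 hk] using b⟩ _ (lt n i hi)

omit [Finite P] [Finite Y] [Finite K] [Finite N] in
theorem head_nxt {L : P ⊕ K × Y × Fin 3} {q : P} (h : O.dA L = inl q)
    (h' : η (O.dA.symm (inl q)) = some (inl q)) : η L = some (O.nxt j0 L) := by
  rw [O.nxt_pay h, ← h', ← h, Equiv.symm_apply_apply]

/-- **Derotation, all system ends in the position of the state** (first, middle and last gaps). -/
theorem derot_calm (F : O.Fit m hang tB hO)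
    (G : ∀ n, O.MoatFit tB hO r (u n) (e n) (z n) (port n)) (hz : Injective z)
    (h : Ends m hang x y τ η) (c : Cn L0 x y τ η) (hc : O.Calm tB hO j0 τ η)
    (hex : ∀ n, η (O.dA.symm (inl (u n))) = some (inl (e n 0)) →
      ∃ i < r, τ (inl (e n i)) = some (inl (e n i)))
    (hx : ∀ n, ∀ i < r, x = some (inl (e n i)) → ∃ i < r, τ (inl (e n i)) = some (inl (e n i)))
    (hy : ∀ n, ∀ i < r, y = some (inl (e n i)) → i = 0 ∧ O.dA L0 = inl (u n)) :
    ∃ τ', Ends m hang x y τ' η ∧ Cn L0 x y τ' η ∧ O.Calm tB hO j0 τ' η ∧ Derot r e τ τ' := by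
  have : Nonempty K := ⟨j0⟩
  suffices h : ∃ τ', Ends m hang x y τ' η ∧ Cn L0 x y τ' η ∧ Derot r e τ τ' from
    let ⟨τ', a, b, d⟩ := h
    ⟨τ', a, b, d.calm hc, d⟩
  refine derot_gen (j0 := j0) F G hz h c fun n rot => ?_
  have : Nonempty Y := ⟨z n⟩
  have h3 := (G n).three
  have hp := (G n).plt j0
  have he : η (O.dA.symm (inl (u n))) ≠ some (inl (e n 0)) := fun a =>
    let ⟨i, hi, b⟩ := hex n a
    rot i hi b
  have hx' : ∀ i < r, x ≠ some (inl (e n i)) := fun i hi a =>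
    let ⟨i, hi, b⟩ := hx n i hi a
    rot i hi b
  have tl : ∀ L, τ L = some L ∨ ∃ q, L = inl q := fun L =>
    (hc.tl L).imp id fun ⟨q, a, _⟩ => ⟨q, a⟩
  have hd : ∀ L, O.un j0 L = z n → (∀ i < r, O.dA L = inl (e n i) →
      η (O.dA.symm (inl (e n i))) = some (inl (e n i))) → η L = some (O.nxt j0 L) :=
    fun L a b => (hc.hd L).elim id fun ⟨q, d, _⟩ => by
      obtain ⟨i, hi, rfl⟩ := (G n).only q ((un_of_dA j0 d).symm.trans a)
      exact head_nxt d (b i hi d)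
  by_cases hy' : ∀ i < r, y ≠ some (inl (e n i))
  · have id := ((G n).idle F h hx' hy' he).1
    by_cases b : O.pos j0 (mh r (port n j0) (u n) (e n) 0) ≤ O.pos j0 L0 ∧
        O.pos j0 L0 < O.pos j0 (mh r (port n j0) (u n) (e n) (r - 1))
    · obtain ⟨i0, b1, b2, b3⟩ := Moat.find (κ := O.pos j0) (a := mh r (port n j0) (u n) (e n))
        b.1 b.2
      refine ⟨i0, by omega, fun L a1 _ _ a4 => ⟨?_, hd L a1 fun i hi _ => id i hi, tl L⟩⟩
      rintro rfl
      exact a4.elim b2.not_gt b3.not_ge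
    · refine ⟨0, by omega, fun L a1 a2 a3 _ => ⟨?_, hd L a1 fun i hi _ => id i hi, tl L⟩⟩
      rintro rfl
      exact b ⟨a2, a3⟩
  · push Not at hy'
    obtain ⟨i, hi, hy'⟩ := hy'
    obtain ⟨rfl, b⟩ := hy n i hi hy'
    obtain ⟨k, k1, -, k2, k3⟩ := (G n).arc_y F h hi hy' hx' he
    obtain rfl : k = 0 := by
      rcases k3 with k3 | k3 | k3
      · exact k3.1
      · exact absurd ((k3.2 k k1).1 (rot k k1)).2 (lt_irrefl _)
      · omega
    refine ⟨port n j0 - 1, by omega, fun L a1 a2 a3 a4 => ⟨?_, hd L a1 fun i hi d => k2 i hi ?_,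
      tl L⟩⟩
    · rintro rfl
      exact (G n).lpu ((un_of_dA j0 b).symm.trans a1)
    · rintro rfl
      have s := fun w => (O.cyc j0).succ L trivial w trivial
      rw [O.nxt_pay d, ← (G n).mh_p j0] at s
      have s1 := (s _ a3).1
      rcases Nat.eq_zero_or_pos (port n j0) with p0 | p0
      · exact absurd (s1.trans_le ((G n).pos_le j0 p0.le (by omega))) a2.not_gt
      · rcases a4 with a4 | a4
        · exact absurd ((G n).pos_mono j0 (by omega) hp) (s _ a4).2.not_gt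
        · exact absurd (((G n).pos_le j0 (by omega) (by omega)).trans a4) s1.not_ge

/-- **Derotation with a window in the stage `j1`** (last gap of a system line; the hypothesis `hb`
is `win_pc`). -/
theorem derot_win (F : O.Fit m hang tB hO)
    (G : ∀ n, O.MoatFit tB hO r (u n) (e n) (z n) (port n)) (hz : Injective z)
    (h : Ends m hang x y τ η) (c : Cn L0 x y τ η) (j1 : K)
    (hb : ∀ L, (∀ v, L ≠ O.sl j1 v) → (∀ v, L ≠ inr (j1, v)) → O.Pc j0 L0 τ η L)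
    (hex : ∀ n, η (O.dA.symm (inl (u n))) = some (inl (e n 0)) →
      ∃ i < r, τ (inl (e n i)) = some (inl (e n i)))
    (hx : ∀ n, ∀ i < r, x ≠ some (inl (e n i))) (hy : ∀ n, ∀ i < r, y ≠ some (inl (e n i))) :
    ∃ τ', Ends m hang x y τ' η ∧ Cn L0 x y τ' η ∧ Derot r e τ τ' := by
  have : Nonempty K := ⟨j0⟩
  refine derot_gen (j0 := j0) F G hz h c fun n rot => ?_
  have : Nonempty Y := ⟨z n⟩
  have h3 := (G n).three
  have a := el_lt ((G n).plt j0) ((G n).plt j1)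
  have id := ((G n).idle F h (hx n) (hy n) fun a =>
    let ⟨i, hi, b⟩ := hex n a
    rot i hi b).1
  refine ⟨el r (port n j0) (port n j1) - 1, by omega, fun L a1 a2 a3 a4 => ?_⟩
  have s := fun w => (O.cyc j0).succ L trivial w trivial
  have n1 : ∀ v, L ≠ O.sl j1 v := fun v hv => by
    obtain ⟨w, hw⟩ : ∃ w, O.nxt j0 L = inr (j1, w) := by
      by_cases d : j1 = j0
      · exact ⟨_, by rw [hv, d, nxt_hot]⟩
      · exact ⟨_, by rw [hv, O.nxt_cold d]⟩
    rw [hw] at s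
    obtain ⟨d1, d2, d3⟩ := (G n).sys_mid j0 j1 w (a2.trans (s _ a3).1.le) (s _ a3).2
    rw [Nat.sub_add_cancel d1] at a4
    rcases a4 with a4 | a4
    · exact absurd d2 (s _ a4).2.not_gt
    · exact absurd ((s _ a3).1.trans d3) a4.not_gt
  have n2 : ∀ v, L ≠ inr (j1, v) := by
    rintro v rfl
    obtain ⟨d1, d2, d3⟩ := (G n).sys_mid j0 j1 v a2 a3.le
    rw [Nat.sub_add_cancel d1] at a4
    exact a4.elim d2.not_gt d3.not_ge
  obtain ⟨b1, b2, b3⟩ := hb L n1 n2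
  refine ⟨b1, b3.elim (fun b => b) fun ⟨q, d⟩ => ?_, b2⟩
  obtain ⟨i, hi, rfl⟩ := (G n).only q ((un_of_dA j0 d).symm.trans a1)
  exact head_nxt d (id i hi)

end Loops

end Pool.Agent.P.MP_439f1f_co
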