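import Pool.Agent.P.MP_439f1f_co.Mo4
import Pool.Agent.P.MP_439f1f_co.Lp3

/-!
Moats: the standard instance, the exit lemma, and derotation in the presence of clean exits.
-/

set_option autoImplicit false

namespace Pool.Agent.P.MP_439f1f_co

open Function Sum

variable {P Y K β γ N : Type*} [LinearOrder β] [LinearOrder γ]

namespace Loops

/-- The moats of the payload `N ⊕ N × Fin (r + 1)`. -/
theorem moatFit_fin {r : ℕ} (O : Loops (N ⊕ N × Fin (r + 1)) Y K β γ)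
    {tB : (N ⊕ N × Fin (r + 1)) ⊕ K × Y × Fin 3 → Option ((N ⊕ N × Fin (r + 1)) ⊕ K × Y × Fin 3)}
    {hO : N ⊕ N × Fin (r + 1) → Option ((N ⊕ N × Fin (r + 1)) ⊕ K × Y × Fin 3)}
    (zN zM : N → Y) (port : N → K → Fin (r + 1)) (ev : r % 2 = 0) (two : 2 ≤ r)
    (lpN : ∀ n, O.lp (inl n) = zN n) (lpM : ∀ n i, O.lp (inr (n, i)) = zM n)
    (iN : Injective zN) (iM : Injective zM) (ne : ∀ n n', zN n ≠ zM n')
    (lke : ∀ n i j, i < j → O.lk (inl (inr (n, j))) < O.lk (inl (inr (n, i))))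
    (p1 : ∀ n j, O.lk (inr (j, zM n)) < O.lk (inl (inr (n, port n j))))
    (p2 : ∀ n j i, port n j < i → O.lk (inl (inr (n, i))) < O.lk (inr (j, zM n)))
    (tBM : ∀ n i, tB (inl (inr (n, i))) = some (inl (inr (n, finRotate (r + 1) i))))
    (tBN : ∀ n w, tB (inl (inl n)) ≠ some (inl (inr w)))
    (tBS : ∀ z w, tB (inr z) ≠ some (inl (inr w)))
    (hON : ∀ n, hO (inl n) = some (inl (inr (n, 0))))
    (hOM : ∀ w w', hO (inr w) ≠ some (inl (inr w'))) (n : N) :
    O.MoatFit tB hO (r + 1) (inl n) (fun i => inr (n, Fin.ofNat (r + 1) i)) (zM n)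
      fun j => port n j := by
  have v : ∀ i < r + 1, ((Fin.ofNat (r + 1) i : Fin (r + 1)) : ℕ) = i := fun i hi =>
    Nat.mod_eq_of_lt hi
  have rot : ∀ i < r + 1, finRotate (r + 1) (Fin.ofNat (r + 1) i) =
      Fin.ofNat (r + 1) (MP_439f1f_co.sc (r + 1) i) := fun i hi => by
    refine Fin.ext ?_
    rw [v _ (sc_lt' hi), finRotate_apply, Fin.val_add_one, MP_439f1f_co.sc]
    simp only [Fin.ext_iff, v i hi, Fin.val_last, Nat.add_right_cancel_iff]
  refine ⟨by omega, by omega, fun i _ => lpM _ _, ?_, by rw [lpN]; exact ne _ _, ?_,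
    fun i hi => lke _ _ _ (by rw [Fin.lt_def, v i (by omega), v _ hi]; omega),
    fun j => (port n j).isLt, fun j => by simpa using p1 n j,
    fun j hj => p2 n j _ (by rw [Fin.lt_def, v _ hj]; omega),
    fun i hi => by rw [tBM, rot i hi], fun i hi L h => ?_, hON n, fun i hi q h => ?_⟩
  · rintro (n' | ⟨n', i⟩) h
    · exact absurd ((lpN _).symm.trans h) (ne _ _)
    · obtain rfl := iM ((lpM _ _).symm.trans h)
      exact ⟨i, i.isLt, by simp⟩
  · rintro (n' | ⟨n', i⟩) h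
    · rw [iN ((lpN _).symm.trans (h.trans (lpN _)))]
    · exact absurd ((lpN _).symm.trans (h.symm.trans (lpM _ _))) (ne _ _)
  · rcases L with (n' | ⟨n', i'⟩) | z
    · exact absurd h (tBN _ _)
    · rw [tBM] at h
      simp only [Option.some.injEq, inl.injEq, inr.injEq, Prod.mk.injEq] at h
      obtain ⟨rfl, h⟩ := h
      have := rot _ (pr_lt' hi)
      rw [sc_pr hi, ← h] at this
      exact Or.inr (by rw [(finRotate (r + 1)).injective this])
    · exact absurd h (tBS _ _)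
  · rcases q with n' | w
    · rw [hON] at h
      simp only [Option.some.injEq, inl.injEq, inr.injEq, Prod.mk.injEq] at h
      obtain ⟨rfl, h⟩ := h
      exact Or.inr ⟨by rw [← v i hi, ← h]; rfl, rfl⟩
    · exact absurd h (hOM _ _)

variable [DecidableEq K] {O : Loops P Y K β γ} {m : ℕ}
  {hang : P ⊕ K × Y × Fin 3 → ℕ → Option (P ⊕ K × Y × Fin 3) → Prop}
  {tB : P ⊕ K × Y × Fin 3 → Option (P ⊕ K × Y × Fin 3)} {hO : P → Option (P ⊕ K × Y × Fin 3)}
  {x y : Option (P ⊕ K × Y × Fin 3)} {τ η : P ⊕ K × Y × Fin 3 → Option (P ⊕ K × Y × Fin 3)}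
  {L0 : P ⊕ K × Y × Fin 3} {r : ℕ} {u : N → P} {e : N → ℕ → P} {z : N → Y} {port : N → K → ℕ}
  {j0 : K}

/-- A token can end in the set `V` of payload hubs: a gap hub or the source of a window. -/
def Sink (x y : Option (P ⊕ K × Y × Fin 3))
    (τ : P ⊕ K × Y × Fin 3 → Option (P ⊕ K × Y × Fin 3)) (V : P → Prop) : Prop :=
  ∃ q, V q ∧ (x = some (inl q) ∨ y = some (inl q) ∨ ∃ w, τ (inr w) = some (inl q))

/-- neither the gap nor the window touches the moat of `u` or the unit of `u` before `u` -/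
structure Clean (O : Loops P Y K β γ) (j0 : K) (L0 : P ⊕ K × Y × Fin 3)
    (x y : Option (P ⊕ K × Y × Fin 3)) (τ η : P ⊕ K × Y × Fin 3 → Option (P ⊕ K × Y × Fin 3))
    (r : ℕ) (u : P) (e : ℕ → P) (z : Y) : Prop where
  hx : ∀ i < r, x ≠ some (inl (e i))
  hy : ∀ i < r, y ≠ some (inl (e i))
  pc : ∀ L, O.un j0 L = z ∨ (O.un j0 L = O.lp u ∧ O.ix j0 L < O.ix j0 (inl u)) → O.Pc j0 L0 τ η L

variable [Finite P] [Finite Y] [Finite K]

/-- **Flow of tokens**: an end left the set `V` of payload hubs, so a token ends in `V` or leaves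
`V` along a second option. -/
theorem Fit.flow_pay [Nonempty K] (F : O.Fit m hang tB hO) (h : Ends m hang x y τ η)
    {V : P → Prop} {q : P} (hq : V q)
    (hl : (∀ q', V q' → τ (inl q) ≠ some (inl q')) ∨
      ∀ q', V q' → η (O.dA.symm (inl q)) ≠ some (inl q')) :
    Sink x y τ V ∨ ∃ p q', ¬V p ∧ V q' ∧
      ((τ (inl p) = some (inl q') ∧ tB (inl p) = some (inl q')) ∨
        (η (O.dA.symm (inl p)) = some (inl q') ∧ hO p = some (inl q'))) := by
  obtain ⟨j0⟩ := ‹Nonempty K›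
  obtain ⟨b, ⟨q', b1, b2⟩, b3⟩ : ∃ b : En (P ⊕ K × Y × Fin 3),
      b.hub x y τ η ∈ {s | ∃ q, V q ∧ s = some (inl q)} ∧
        O.rf j0 b ∉ {s | ∃ q, V q ∧ s = some (inl q)} := by
    rcases hl with hl | hl
    · exact h.in_of_out (F.ref j0) (.tl (inl q)) ⟨q, hq, rfl⟩ fun ⟨q', a, b⟩ => hl q' a b
    · exact h.in_of_out (F.ref j0) (.hd (O.dA.symm (inl q)))
        ⟨q, hq, congrArg some (O.nxt_pay (O.dA.apply_symm_apply _))⟩ fun ⟨q', a, b⟩ => hl q' a b
  cases b with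
  | lo => exact Or.inl ⟨q', b1, Or.inl b2⟩
  | hi => exact Or.inl ⟨q', b1, Or.inr (Or.inl b2)⟩
  | tl L =>
    rcases L with p | w
    · have a : ¬V p := fun a => b3 ⟨p, a, rfl⟩
      refine Or.inr ⟨p, q', a, b1, Or.inl ⟨b2, ?_⟩⟩
      rcases (F.tl _ _).1 (h.ht (inl p)) with d | d
      · obtain rfl : p = q' := by simpa using d.symm.trans b2
        exact absurd b1 a
      · exact d.symm.trans b2
    · exact Or.inl ⟨q', b1, Or.inr (Or.inr ⟨w, b2⟩)⟩
  | hd L =>
    obtain ⟨p, hp⟩ | ⟨j, w, rfl⟩ := O.pay_or_sl L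
    · have a : ¬V p := fun a => b3 ⟨p, a, congrArg some (O.nxt_pay hp)⟩
      refine Or.inr ⟨p, q', a, b1, Or.inr ⟨by rw [← hp, Equiv.symm_apply_apply]; exact b2, ?_⟩⟩
      rcases (F.hp L p _ hp).1 (h.hh L) with d | d
      · obtain rfl : p = q' := by simpa using d.symm.trans b2
        exact absurd b1 a
      · exact d.symm.trans b2
    · exact ((F.hs _ _ _).1 (h.hh _)).elim (fun d => nomatch d.symm.trans b2)
        fun d => nomatch d.symm.trans b2

/-- **Exit lemma.**  `reg` is the colour of the tokens; only the nodes of colour `g0` may have a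
leaking port or an open order.  If a gap or window that touches the block of a node of colour `g`
has all its sinks in the region `g + 1`, then every exit is clean and has the colour `g0`. -/
theorem exits (F : O.Fit m hang tB hO) (G : ∀ n, O.MoatFit tB hO r (u n) (e n) (z n) (port n))
    (h : Ends m hang x y τ η) (c : Cn L0 x y τ η) (reg : P → ZMod 3) (g0 : ZMod 3)
    (rT : ∀ p q, tB (inl p) = some (inl q) → reg q = reg p)
    (rH : ∀ p q, hO p = some (inl q) → reg q = reg p ∨ ∃ n, p = u n)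
    (rE : ∀ n, reg (e n 0) = reg (u n) + 1)
    (hg : ∀ n, reg (u n) ≠ g0 →
      O.nx j0 (z n) = O.lp (u n) ∧ (port n j0 + 1 = r ∨ port n j0 % 2 = 1))
    (hd : ∀ n, ¬O.Clean j0 L0 x y τ η r (u n) (e n) (z n) →
      ∀ g, Sink x y τ (fun q => reg q = g) → g = reg (u n) + 1)
    (hs : ∃ g, Sink x y τ fun q => reg q = g) (n : N)
    (he : η (O.dA.symm (inl (u n))) = some (inl (e n 0))) :
    O.Clean j0 L0 x y τ η r (u n) (e n) (z n) ∧ reg (u n) = g0 ∧
      (Sink x y τ fun q => reg q = g0) ∧ ∃ k, O.ArcE τ η r (e n) k 0 ∧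
        (O.nx j0 (z n) = O.lp (u n) → port n j0 < k ∧ port n j0 % 2 = 0) := by
  have : Nonempty K := ⟨j0⟩
  have k1 : ∀ a : ZMod 3, a + 1 ≠ a := by decide
  have st : ∀ n, η (O.dA.symm (inl (u n))) = some (inl (e n 0)) →
      (Sink x y τ fun q => reg q = reg (u n)) ∨
        ∃ n', η (O.dA.symm (inl (u n'))) = some (inl (e n' 0)) ∧ reg (u n') + 1 = reg (u n) :=
    fun n he => by
      refine (F.flow_pay h (V := fun q => reg q = reg (u n)) (q := u n) rfl
        (Or.inr fun q' a b => ?_)).imp id ?_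
      · obtain rfl : e n 0 = q' := by simpa using he.symm.trans b
        exact k1 _ ((rE n).symm.trans a)
      · rintro ⟨p, q', a1, a2, ⟨-, a3⟩ | ⟨a3, a4⟩⟩
        · exact absurd ((rT _ _ a3).symm.trans a2) a1
        · obtain ⟨n', rfl⟩ := (rH _ _ a4).resolve_left fun b => a1 (b.symm.trans a2)
          obtain rfl : e n' 0 = q' := by simpa using (G n').hOu.symm.trans a4
          exact ⟨n', a3, (rE n').symm.trans a2⟩
  have cl : ∀ n, η (O.dA.symm (inl (u n))) = some (inl (e n 0)) →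
      O.Clean j0 L0 x y τ η r (u n) (e n) (z n) → reg (u n) = g0 := fun n he a => by
    by_contra b
    obtain ⟨k, d1, d2, d3⟩ := (G n).dead_exit F j0 h c (hg n b).1 a.hx a.hy he a.pc
    have := d3.1
    have := (hg n b).2
    omega
  obtain ⟨g, hs⟩ := hs
  have k2 : ∀ a b c : ZMod 3, b + 1 = a → c + 1 = b →
      a ≠ a + 1 ∧ b ≠ a + 1 ∧ a + 1 ≠ b + 1 ∧ a + 1 ≠ c + 1 ∧ b ≠ c := by decide
  have all : ∀ n, η (O.dA.symm (inl (u n))) = some (inl (e n 0)) →
      O.Clean j0 L0 x y τ η r (u n) (e n) (z n) := fun n he => by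
    by_contra a
    have a0 := hd n a
    obtain ⟨n1, a1, a2⟩ := (st n he).resolve_left fun b => (k1 _).symm (a0 _ b)
    have k := fun c => k2 _ _ c a2
    obtain ⟨n2, a3, a4⟩ := (st n1 a1).resolve_left fun b =>
      (k (reg (u n1) - 1) (by ring)).2.1 (a0 _ b)
    have k := k _ a4
    have b1 : reg (u n1) = g0 := cl n1 a1 (by_contra fun b =>
      k.2.2.1 ((a0 g hs).symm.trans (hd n1 b g hs)))
    have b2 : reg (u n2) = g0 := cl n2 a3 (by_contra fun b =>
      k.2.2.2.1 ((a0 g hs).symm.trans (hd n2 b g hs)))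
    exact k.2.2.2.2 (b1.trans b2.symm)
  have a := all n he
  have b := cl n he a
  refine ⟨a, b, b ▸ (st n he).resolve_right fun ⟨n', d1, d2⟩ =>
    k1 _ (d2.trans (b.trans (cl n' d1 (all n' d1)).symm)), ?_⟩
  by_cases adj : O.nx j0 (z n) = O.lp (u n)
  · obtain ⟨k, d1, d2, d3⟩ := (G n).dead_exit F j0 h c adj a.hx a.hy he a.pc
    exact ⟨k, d3, fun _ => ⟨d1, d2⟩⟩
  · obtain ⟨k, d⟩ := (G n).arc_exit F h a.hx a.hy he
    exact ⟨k, d, fun b => absurd b adj⟩

/-- a rotated moat whose only entry is `e 0` -/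
theorem MoatFit.seg_zero {u : P} {e : ℕ → P} {z : Y} {port : K → ℕ}
    (G : O.MoatFit tB hO r u e z port) (rot : ∀ i < r, τ (inl (e i)) ≠ some (inl (e i))) {k : ℕ}
    (A : O.ArcE τ η r e k 0) (pc : ∀ L, O.un j0 L = z → O.Pc j0 L0 τ η L) :
    ∃ i0, i0 + 1 < r ∧ ∀ L, O.un j0 L = z → O.pos j0 (mh r (port j0) u e 0) ≤ O.pos j0 L →
      O.pos j0 L < O.pos j0 (mh r (port j0) u e (r - 1)) →
      (O.pos j0 L < O.pos j0 (mh r (port j0) u e i0) ∨
        O.pos j0 (mh r (port j0) u e (i0 + 1)) ≤ O.pos j0 L) →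
      L ≠ L0 ∧ η L = some (O.nxt j0 L) ∧ (τ L = some L ∨ ∃ q, L = inl q) := by
  have : Nonempty Y := ⟨z⟩
  have h3 := G.three
  have hp := G.plt j0
  obtain ⟨k1, -, k2, k3⟩ := A
  obtain rfl : k = 0 := by
    rcases k3 with k3 | k3 | k3
    · exact k3.1
    · exact absurd ((k3.2 k k1).1 (rot k k1)).2 (lt_irrefl _)
    · omega
  refine ⟨port j0 - 1, by omega, fun L a1 a2 a3 a4 => ⟨(pc L a1).1,
    (pc L a1).2.2.elim id fun ⟨q, d⟩ => ?_, (pc L a1).2.1⟩⟩
  obtain ⟨i, hi, rfl⟩ := G.only q ((un_of_dA j0 d).symm.trans a1)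
  refine head_nxt d (k2 i hi ?_)
  rintro rfl
  have s := fun w => (O.cyc j0).succ L trivial w trivial
  rw [O.nxt_pay d, ← G.mh_p j0] at s
  have s1 := (s _ a3).1
  rcases Nat.eq_zero_or_pos (port j0) with p0 | p0
  · exact absurd (s1.trans_le (G.pos_le j0 p0.le (by omega))) a2.not_gt
  · rcases a4 with a4 | a4
    · exact absurd (G.pos_mono j0 (by omega) hp) (s _ a4).2.not_gt
    · exact absurd ((G.pos_le j0 (by omega) (by omega)).trans a4) s1.not_ge

variable [Finite N]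

/-- **Derotation, calm case**, all exits clean. -/
theorem derot_calm' (F : O.Fit m hang tB hO)
    (G : ∀ n, O.MoatFit tB hO r (u n) (e n) (z n) (port n)) (hz : Injective z)
    (h : Ends m hang x y τ η) (c : Cn L0 x y τ η) (hc : O.Calm tB hO j0 τ η)
    (hex : ∀ n, η (O.dA.symm (inl (u n))) = some (inl (e n 0)) →
      O.Clean j0 L0 x y τ η r (u n) (e n) (z n))
    (hx : ∀ n, ∀ i < r, x = some (inl (e n i)) → ∃ i < r, τ (inl (e n i)) = some (inl (e n i)))
    (hy : ∀ n, ∀ i < r, y = some (inl (e n i)) → i = 0 ∧ O.dA L0 = inl (u n)) :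
    ∃ τ', Ends m hang x y τ' η ∧ Cn L0 x y τ' η ∧ O.Calm tB hO j0 τ' η ∧ Derot r e τ τ' := by
  have : Nonempty K := ⟨j0⟩
  suffices h : ∃ τ', Ends m hang x y τ' η ∧ Cn L0 x y τ' η ∧ Derot r e τ τ' from
    let ⟨τ', a, b, d⟩ := h
    ⟨τ', a, b, d.calm hc, d⟩
  refine derot_gen (j0 := j0) F G hz h c fun n rot => ?_
  have h3 := (G n).three
  by_cases he : η (O.dA.symm (inl (u n))) = some (inl (e n 0))
  · have a := hex n he
    obtain ⟨k, A⟩ := (G n).arc_exit F h a.hx a.hy he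
    exact (G n).seg_zero rot A fun L b => a.pc L (Or.inl b)
  have hx' : ∀ i < r, x ≠ some (inl (e n i)) := fun i hi a =>
    let ⟨i, hi, b⟩ := hx n i hi a
    rot i hi b
  by_cases hy' : ∀ i < r, y ≠ some (inl (e n i))
  · have id := ((G n).idle F h hx' hy' he).1
    have k : ∀ L, O.un j0 L = z n → η L = some (O.nxt j0 L) ∧ (τ L = some L ∨ ∃ q, L = inl q) :=
      fun L a => ⟨(hc.hd L).elim (fun b => b) fun ⟨q, d, _⟩ => by
        obtain ⟨i, hi, rfl⟩ := (G n).only q ((un_of_dA j0 d).symm.trans a)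
        exact head_nxt d (id i hi), (hc.tl L).imp (fun b => b) fun ⟨q, a, _⟩ => ⟨q, a⟩⟩
    by_cases b : O.pos j0 (mh r (port n j0) (u n) (e n) 0) ≤ O.pos j0 L0 ∧
        O.pos j0 L0 < O.pos j0 (mh r (port n j0) (u n) (e n) (r - 1))
    · obtain ⟨i0, b1, b2, b3⟩ := Moat.find (κ := O.pos j0) (a := mh r (port n j0) (u n) (e n))
        b.1 b.2
      refine ⟨i0, by omega, fun L a1 _ _ a4 => ⟨?_, k L a1⟩⟩
      rintro rfl
      exact a4.elim b2.not_gt b3.not_ge
    · refine ⟨0, by omega, fun L a1 a2 a3 _ => ⟨?_, k L a1⟩⟩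
      rintro rfl
      exact b ⟨a2, a3⟩
  · push Not at hy'
    obtain ⟨i, hi, hy'⟩ := hy'
    obtain ⟨rfl, b⟩ := hy n i hi hy'
    obtain ⟨k, A⟩ := (G n).arc_y F h hi hy' hx' he
    refine (G n).seg_zero rot A fun L a => hc.pc ?_
    rintro rfl
    exact (G n).lpu ((un_of_dA j0 b).symm.trans a)

/-- **Derotation, window in the stage `j1`**, all exits clean. -/
theorem derot_win' (F : O.Fit m hang tB hO)
    (G : ∀ n, O.MoatFit tB hO r (u n) (e n) (z n) (port n)) (hz : Injective z)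
    (h : Ends m hang x y τ η) (c : Cn L0 x y τ η) (j1 : K)
    (hb : ∀ L, (∀ v, L ≠ O.sl j1 v) → (∀ v, L ≠ inr (j1, v)) → O.Pc j0 L0 τ η L)
    (hex : ∀ n, η (O.dA.symm (inl (u n))) = some (inl (e n 0)) →
      O.Clean j0 L0 x y τ η r (u n) (e n) (z n))
    (hx : ∀ n, ∀ i < r, x ≠ some (inl (e n i))) (hy : ∀ n, ∀ i < r, y ≠ some (inl (e n i))) :
    ∃ τ', Ends m hang x y τ' η ∧ Cn L0 x y τ' η ∧ Derot r e τ τ' := by
  have : Nonempty K := ⟨j0⟩
  refine derot_gen (j0 := j0) F G hz h c fun n rot => ?_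
  have : Nonempty Y := ⟨z n⟩
  have h3 := (G n).three
  by_cases he : η (O.dA.symm (inl (u n))) = some (inl (e n 0))
  · have a := hex n he
    obtain ⟨k, A⟩ := (G n).arc_exit F h a.hx a.hy he
    exact (G n).seg_zero rot A fun L b => a.pc L (Or.inl b)
  have a := el_lt ((G n).plt j0) ((G n).plt j1)
  have id := ((G n).idle F h (hx n) (hy n) he).1
  refine ⟨el r (port n j0) (port n j1) - 1, by omega, fun L a1 a2 a3 a4 => ?_⟩
  have s := fun w => (O.cyc j0).succ L trivial w trivial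
  have n1 : ∀ v, L ≠ O.sl j1 v := fun v hv => by
    obtain ⟨w, hw⟩ : ∃ w, O.nxt j0 L = inr (j1, w) := by
      by_cases d : j1 = j0
      · exact ⟨_, by rw [hv, d, nxt_hot]⟩
      · exact ⟨_, by rw [hv, O.nxt_cold d]⟩
    rw [hw] at s
    obtain ⟨d1, d2, d3⟩ := (G n).sys_mid j0 j1 w (a2.trans (s _ a3).1.le) (s _ a3).2
    rw [Nat.sub_add_cancel d1] at a4
    rcases a4 with a4 | a4
    · exact absurd d2 (s _ a4).2.not_gt
    · exact absurd ((s _ a3).1.trans d3) a4.not_gt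
  have n2 : ∀ v, L ≠ inr (j1, v) := by
    rintro v rfl
    obtain ⟨d1, d2, d3⟩ := (G n).sys_mid j0 j1 v a2 a3.le
    rw [Nat.sub_add_cancel d1] at a4
    exact a4.elim d2.not_gt d3.not_ge
  obtain ⟨b1, b2, b3⟩ := hb L n1 n2
  refine ⟨b1, b3.elim (fun b => b) fun ⟨q, d⟩ => ?_, b2⟩
  obtain ⟨i, hi, rfl⟩ := (G n).only q ((un_of_dA j0 d).symm.trans a1)
  exact head_nxt d (id i hi)

end Loops

end Pool.Agent.P.MP_439f1f_co
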