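import Pool.Agent.P.MP_439f1f_co.Sv1

/-!
The statements of the service rows for a node and a point in the same tree; the cold pairs.
-/

set_option autoImplicit false
set_option linter.unusedSectionVars false

namespace Pool.Agent.P.MP_439f1f_co

open Function SimpleGraph Sum

variable {K N : Type} {r r0 q D e b : ℕ} [DecidableEq K] [Finite K] [Finite N] [Nonempty K]

namespace Fw

variable (V : Fw K N r r0 q D e b)

/-- the vertex stands for the last class of the head type `(s, p)`: a label or a head -/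
def ZEnd (v : Vx K N (Pt K N) r r0) (s : K × Bool) (p : ZMod 12) : Prop :=
  (∃ n c, v = hv (nl n) ∧ V.F.lev n = D ∧ (V.F.tree n).1 = (.hS s p c, .Z)) ∨
    ∃ L c, v = vz L (2 * r + 9) ∧ V.W.S.typ L true = .hS s p c

/-- the vertex stands for the first class of the tail type `(s, p)`: a label or a system hub -/
def LEnd (v : Vx K N (Pt K N) r r0) (s : K × Bool) (p : ZMod 12) : Prop :=
  (∃ n c, v = hv (nl n) ∧ V.F.lev n = D ∧ (V.F.tree n).1 = (.tS s p c, .H)) ∨
    ∃ z c, v = hv (inr z) ∧ V.W.S.typ (inr z) false = .tS s p c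

/-- the cold pairs; they are served in the state of their own system -/
def Cld (v w : Vx K N (Pt K N) r r0) : Prop :=
  ∃ s p p', V.ZEnd v s p ∧ V.LEnd w s p' ∧ (p' - p).val < 4

/-- the line comes before the line of `u` in all states of the group with the standard layout -/
def Bf (g : Fin 64) (u : N) (L : Hub K N (Pt K N) r0) : Prop :=
  ∀ j, V.grp j = g → V.W.lay j (inl u) = 1 → V.W.pos j L < V.W.pos j (nl u)

/-- the line does not come before the line of `u` -/
def Af (g : Fin 64) (u : N) (L : Hub K N (Pt K N) r0) : Prop :=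
  ∀ j, V.grp j = g → V.W.lay j (inl u) = 1 → V.W.pos j (nl u) ≤ V.W.pos j L

/-- the line `L` in the block `y` lies behind the route of `u` (outside, if `u` is even) -/
def Bh (g : Fin 64) (u y : N) (L : Hub K N (Pt K N) r0) : Prop :=
  ¬V.F.Anc y u ∨ (y = u ∧ V.Af g u L) ∨
    (V.F.Anc y u ∧ V.F.lev y % 2 ≠ V.F.lev u % 2 ∧ V.W.lo L = inl (inl y, 0))

/-- classes that may be alive next to the entry tree with the index `1` -/
def Gd (T : HT K r0) (σ : Slot (r + 1)) : Prop :=
  (∀ w c k, T = .hM w c k → σ ≠ .Z ∧ σ ≠ .Y1 ∧ σ ≠ .Y2) ∧ (∀ w c k, T = .tE w c k → σ ≠ .H) ∧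
    ∀ w c, T = .hP w c → σ ≠ .Z

/-- `u` leaks, order `T`, token, entry tree -/
def RowSb : Prop := ∀ g u y d v L i f σ, V.W.S.Acc d v L i f σ → V.W.In L y →
  V.F.tree y = V.F.tree u → V.W.Fag V.grp g L → V.W.Fag V.grp g (nl u) → Gd (V.W.S.typ L f) σ →
  (¬V.F.Anc u y ∨ (y = u ∧ V.Bf g u L)) → V.W.Sv (hv (nl u)) v

/-- access down, behind the route: order token, `T` -/
def RowSD : Prop := ∀ g u y v L i f σ, V.W.S.Acc false v L i f σ → V.W.In L y →
  V.F.tree y = V.F.tree u → V.W.Fag V.grp g L → V.W.Fag V.grp g (nl u) → V.Bh g u y L →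
  V.W.Sv (hv (nl u)) v

/-- access up, behind the route: the token leaks, order entry tree, token, `T` -/
def RowSL : Prop := ∀ g u y v L i f σ, V.W.S.Acc true v L i f σ → V.W.In L y →
  V.F.tree y = V.F.tree u → V.W.Fag V.grp g L → V.W.Fag V.grp g (nl u) → V.Bh g u y L →
  (∀ w c l, (V.W.S.typ L f, σ) ≠ (.tN w c l, .H)) → V.W.Sv (hv (nl u)) v

/-- the tail of a moat line above `u` -/
def RowSU : Prop := ∀ u y (k : Fin (r0 + 1)), V.F.Anc y u → V.F.lev y % 2 = V.F.lev u % 2 →
  V.W.Sv (hv (nl u)) (vz (inl (inr (y, k))) 0)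

/-- a moat hub above `u` -/
def RowTx : Prop := ∀ u y (k : Fin (r0 + 1)), V.F.Anc y u → V.F.lev y % 2 = V.F.lev u % 2 →
  V.W.Sv (hv (nl u)) (hv (inl (inr (y, k))))

/-- the head into a moat hub -/
def RowSm : Prop := ∀ u y (k : Fin (r0 + 1)), V.F.tree y = V.F.tree u →
  V.W.Sv (hv (nl u)) (vz (V.W.prv (inr (y, k))) (2 * r + 9))

/-- the head into a node above `u` -/
def RowWF : Prop := ∀ u y, V.F.Anc y u → y ≠ u →
  V.W.Sv (hv (nl u)) (vz (V.W.prv (inl y)) (2 * r + 9))

/-- the tail of a node below `u` -/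
def RowNT : Prop := ∀ u y, V.F.Anc u y → y ≠ u → V.F.par y ≠ u → V.W.Sv (hv (nl u)) (vz (nl y) 0)

end Fw

end Pool.Agent.P.MP_439f1f_co
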