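import Pool.Agent.P.MP_439f1f_co.Sv1

/-!
Service of a node and the tail vertex of the line of a descendant.
-/

set_option autoImplicit false
set_option linter.unusedSectionVars false

namespace Pool.Agent.P.MP_439f1f_co

open Function SimpleGraph Sum

variable {K N : Type} {r r0 q D e b : ℕ}

/-- a level of the cuts at rest that is allowed while the type is alive -/
def HT.kpt : HT K r0 → Fin 7
  | .tN _ _ l => if l = 1 then 4 else 2
  | _ => 2

namespace Par

/-- the item `i` is alive, the other item is cut at the level `k` and reversed below -/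
def duo (x : Kl K r r0) (i : Bool) (k : Fin (D + 1)) : Par r r0 D :=
  { base r r0 D with
    kap _ := x.ty.kpt
    dir _ := false
    cut i' := if i' = i then 0 else k }

theorem duo_ta {x T : Kl K r r0} (i : Bool) {k : Fin (D + 1)} (k0 : k ≠ 0)
    (k1 : (k : ℕ) % 2 = 0 ∨ (k : ℕ) = D) (ne : x ≠ T) (h : x.Hk k T.col) :
    (duo x i k).TA fun i' => {if i' = i then x else T} := by
  have m : ∀ a T0, (duo x i k).At (fun i' => {if i' = i then x else T}) a T0 → T0 = x := by
    rintro (_ | i') T0 ⟨c, d⟩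
    · simp [Mt, duo, base] at c
    · by_cases f : i' = i
      · simpa [Mt, f] using c
      · simpa [duo, base, f, k0] using d i' rfl
  constructor
  · rintro _ _ rfl _ rfl
    rfl
  · intro c
    simp only [duo, HT.kpt]
    split
    · split_ifs <;> simp
    · simp
  · intro i'
    simp only [duo]
    split_ifs
    exacts [Or.inl rfl, k1]
  · rintro (_ | i1) (_ | i2) T0 c c' <;> simp only [Mt, duo, base, Set.mem_singleton_iff] at c c'
    · rfl
    · simp at c
    · simp at c'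
    · revert c c'
      cases i <;> cases i1 <;> cases i2 <;> simp <;> rintro rfl <;> first | exact ne | exact ne.symm
  · simp [duo, base]
  · intro a T0 c d
    obtain rfl := m a T0 d
    refine ⟨fun w l f => ?_, ?_⟩
    · simp only [duo, Kl.ty, f, HT.kpt]
      clear f
      revert l
      decide
    · rintro i' _ rfl f
      by_cases g : i' = i
      · simp [duo, g] at f
      · simpa [duo, g] using h
  · intro a a' T0 T1 c c' d
    rw [m _ _ c, m _ _ c'] at d
    have := d.2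
    omega
  · intro a a' T0 T1 c c' d
    rw [m _ _ c, m _ _ c'] at d
    exact absurd (d.1.symm.trans d.2.2.1) (by simp)
  · intro a a' T0 T1 w c k1 d d' f f'
    rw [m _ _ d] at f
    rw [m _ _ d', f] at f'
    exact nomatch f'
  · intro a a' T0 T1 w c k1 i1 d d' f f'
    rw [m _ _ d] at f
    rw [m _ _ d', f] at f'
    exact nomatch f'
  · rintro a a' T0 T1 d d' ⟨w, p, c, p', c', f, f', -⟩
    rw [m _ _ d] at f
    rw [m _ _ d', f] at f'
    exact nomatch f'
  · simp [duo, base]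
  · simp [duo, base]
  · exact fun _ _ _ _ k _ _ _ => Fin.le_last k
  · simp [duo, base]
  · simp [duo, base]
  · simp [duo, base]
  · simp [duo, base]

end Par

variable [DecidableEq K] [Finite K] [Finite N] [Nonempty K]

namespace Fw.Rt

variable {V : Fw K N r r0 q D e b} {j : K} {i : Bool} {k : ℕ} {n n' u y z t0 : N}
  {L : Hub K N (Pt K N) r0}

variable (V) in
/-- the tree of `z` is the living item `i`, the tree of `u` is the other item, cut at the level
`k` -/
structure Du (j : K) (i : Bool) (k : ℕ) (z u : N) : Prop where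
  rz : V.Role j (some i) (V.F.tree z)
  liv : V.Liv j (V.F.tree z)
  ru : V.Role j (some (!i)) (V.F.tree u)
  kap : V.kap j (V.F.tree u) = k
  asc : (V.S.td j (V.F.tree u)).asc = false
  rook : (V.par j).rook = false
  two : 2 ≤ k
  ne : V.F.tree z ≠ V.F.tree u
  col : ∀ a T, V.Role j a T → T.col = (V.F.tree z).col ∨ T.col = (V.F.tree u).col

theorem exists_du (i : Bool) (k2 : 2 ≤ k) (kD : k ≤ D) (k1 : k % 2 = 0 ∨ k = D)
    (ne : V.F.tree z ≠ V.F.tree u) (h : (V.F.tree z).Hk k (V.F.tree u).col)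
    (L : Hub K N (Pt K N) r0) : ∃ j, V.W.Far j L ∧ Du V j i k z u := by
  obtain ⟨g, a⟩ := V.W.exists_grp V.grp [L, nl z, nl u] (by simp)
  obtain ⟨j, s⟩ := V.exists_st g (Par.duo_ta i (k := ⟨k, by omega⟩)
    (fun c => by have := congrArg Fin.val c; simp at this; omega) k1 ne h) [] (by simp) (by simp)
  have sz := (a (nl z) (by simp) j s.grp).wor (V.W.in_pay (inl z))
  have su := (a (nl u) (by simp) j s.grp).wor (V.W.in_pay (inl u))
  have ru := s.role (!i) (V.F.tree u) (by simp) su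
  refine ⟨j, a L (by simp) j s.grp, s.role i _ (by simp) sz,
    s.liv (i := i) (by simp) sz (by simp [Par.duo]), ru, by simp [ru.kap, s.cut, Par.duo],
    by simp [ru.asc, s.dir, s.op, Par.duo, Par.base], s.rook, k2, ne, fun a T c => ?_⟩
  obtain ⟨T0, c1, c2⟩ := s.kind c
  rw [← Kl.col_of_kind c2]
  rcases a with _ | i'
  · simp [Par.Mt, Par.duo, Par.base] at c1
  · obtain rfl : T0 = _ := c1
    split_ifs
    exacts [Or.inl rfl, Or.inr rfl]

namespace Du

variable (s : Du V j i k z u)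
include s

theorem fm (t : V.F.tree n = V.F.tree u) : (V.L j).fm n = 0 :=
  fm_kap (by rw [t, s.kap]; have := s.two; omega)

theorem anc (t : V.F.tree n = V.F.tree u) (a : V.F.Anc n n') (ne : n ≠ n') :
    (V.L j).key n < (V.L j).key n' ↔ V.F.lev n + 1 < k := by
  have d : (V.L j).dt n = V.S.td j (V.F.tree u) := by rw [L_dt, t]
  rw [Lay.anc_lt (s.fm t) (s.fm (a.tree ▸ t)) a ne, Lay.Low, d, s.asc,
    show (V.S.td j (V.F.tree u)).kap = k from s.kap]
  have := s.two
  simp only [Bool.false_eq_true, false_and, or_false, Sch.L_F, S_F]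
  omega

theorem hi (t : V.F.tree n = V.F.tree u) (a : V.F.Anc n n') (c : V.F.lev n < V.F.lev n')
    (l : V.F.lev n + 1 < k) : (V.L j).key n < (V.L j).key n' :=
  (s.anc t a fun d => by rw [d] at c; omega).2 l

theorem lo (t : V.F.tree n = V.F.tree u) (a : V.F.Anc n n') (c : V.F.lev n < V.F.lev n')
    (l : k ≤ V.F.lev n + 1) : (V.L j).key n' < (V.L j).key n :=
  have ne : n ≠ n' := fun d => by rw [d] at c; omega
  (Lay.lt_iff_not ne.symm).2 fun d => ((s.anc t a ne).1 d).not_ge l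

theorem rs (t : V.F.tree t0 = V.F.tree u) (o : V.F.lev t0 % 2 = 1) (l : V.F.lev t0 < k)
    (lz : V.F.lev z = D) : V.Rs j ![0, 0] ![t0, z] :=
  .two (run (not_own (t ▸ s.ru.1)) rfl o (V.F.surj t0).1 (Or.inr (Or.inl (by rwa [t, s.kap]))))
    (s.liv.run rfl (by rw [lz, V.od]) (V.F.surj z).1) (Wd.On.tree_ne (t ▸ s.ne.symm)) (t ▸ s.ru)
    s.rz

theorem off (t : V.F.tree n = V.F.tree u) (l : V.F.lev t0 < V.F.lev n) (g : Fin 2) :
    ¬V.W.On (![0, 0] g) (![t0, z] g) n := fun c => by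
  fin_cases g
  exacts [l.not_ge c.1.1, s.ne (c.1.tree.symm.trans t)]

theorem anb (t : V.F.tree n = V.F.tree u) (l : V.F.lev t0 < V.F.lev n)
    (c : V.W.Anb ![0, 0] ![t0, z] n n') : n' = n := c.resolve_right fun ⟨g, d, _⟩ => s.off t l g d

variable (h : V.Rs j ![0, 0] ![t0, z]) {m m' : ℕ}
include h

theorem cut_lt (t : V.F.tree n = V.F.tree u) (l : V.F.lev t0 < V.F.lev n)
    (c : (V.L j).key t0 < (V.L j).key n) : V.vr j ![0, 0] ![t0, z] (pz (V.W.cut 0 t0) 0) <
      V.vr j ![0, 0] ![t0, z] (pz (nl n) m) :=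
  h.cut_bk (g := 0) (.self _ j n) (t ▸ s.ru) fun _ d => s.anb t l d ▸ c

theorem lt_cut (t : V.F.tree n = V.F.tree u) (l : V.F.lev t0 < V.F.lev n)
    (c : (V.L j).key n < (V.L j).key t0) : V.vr j ![0, 0] ![t0, z] (pz (nl n) m) <
      V.vr j ![0, 0] ![t0, z] (pz (V.W.cut 0 t0) 0) :=
  h.bk_cut (g := 0) (.self _ j n) fun _ d => s.anb t l d ▸ c

theorem nl_lt (t : V.F.tree n = V.F.tree u) (l : V.F.lev t0 < V.F.lev n)
    (t' : V.F.tree n' = V.F.tree u) (l' : V.F.lev t0 < V.F.lev n')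
    (c : (V.L j).key n < (V.L j).key n') : V.vr j ![0, 0] ![t0, z] (pz (nl n) m) <
      V.vr j ![0, 0] ![t0, z] (pz (nl n') m') :=
  h.bk_bk (.self _ j n) (.self _ j n') (t' ▸ s.ru) fun _ _ d d' =>
    s.anb t l d ▸ s.anb t' l' d' ▸ c

theorem inz : V.InI j (some i) (V.W.cut 0 z) := h.inI_cut (g := 1) s.rz

theorem inu (t : V.F.tree t0 = V.F.tree u) : V.InI j (some (!i)) (V.W.cut 0 t0) :=
  h.inI_cut (g := 0) (t ▸ s.ru)

end Du

theorem zi_lt (π : Par r r0 D) : π.zi (some false) < π.zi (some true) := by simp [Par.zi]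

variable (V) in
theorem tree_H (y : N) : (V.F.tree (V.W.S.sn (nl y) false .H)).1 =
    (.tN (V.F.tree y).ty.wor ((V.F.tree y).col + 1) (lc (V.F.lev y)), .H) :=
  congrArg Subtype.val ((V.W.S.pay_H (inl y)).tree V.D_pos)

theorem ne_H (t : V.F.tree y = V.F.tree u) :
    V.F.tree (V.W.S.sn (nl y) false .H) ≠ V.F.tree u := fun c =>
  V.W.col_ne V.D_pos (V.W.in_pay (inl y)) false .H (congrArg Kl.col (c.trans t.symm))

theorem hk_H (c : lc k ≠ lc (V.F.lev y)) (d : ZMod 3) :
    (V.F.tree (V.W.S.sn (nl y) false .H)).Hk k d := fun w l f => by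
  rw [tree_H] at f
  obtain ⟨-, -, rfl⟩ : _ ∧ _ ∧ _ := by simpa using f
  exact c

/-- two odd levels -/
theorem sv_tR (a : V.F.Anc u y) (l : V.F.lev u < V.F.lev y) (ou : V.F.lev u % 2 = 1)
    (oy : V.F.lev y % 2 = 1) : V.W.Sv (hv (nl u)) (vz (nl y) 0) := by
  have := (V.F.surj y).2.1
  obtain ⟨j, -, s⟩ := exists_du (k := V.F.lev u + 1) true (by omega) (by omega) (by omega)
    (ne_H a.tree.symm) (hk_H (by unfold lc; split_ifs <;> omega) _) (nl y)
  have k := s.rs rfl ou (by omega) (V.W.S.lev_sn V.D_pos _ _ _)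
  intro _ _
  exact k.serve (k.toRs.ch_cut 0) ((k.toRs.ch_cut 1).app
      (Wd.ch_up (V.W.S.pay_H (inl y)).hang (by omega))) (by simp [vz])
    (fun g => by fin_cases g <;> simp) [.lt 2 0, .lt 0 1] [] (by decide +kernel)
    ⟨s.lt_cut k a.tree.symm l (s.lo rfl a l le_rfl),
      k.II (s.inu k rfl) (s.inz k) s.rook (zi_lt _)⟩ trivial

/-- the tail of an inner node -/
theorem sv_tHd (a : V.F.Anc u y) (l : V.F.lev u + 1 < V.F.lev y) (ly : V.F.lev y < D)
    (o : V.F.lev u % 2 = 0 ∨ V.F.lev y % 2 = 0) : V.W.Sv (hv (nl u)) (vz (nl y) 0) := by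
  have lk := V.F.lev_kid ly
  have ak := Forest.anc_kid ly
  have tk : V.F.tree (V.F.kid y) = V.F.tree u := (a.trans ak).tree.symm
  have := (V.F.surj u).1
  obtain ⟨j, -, s⟩ := exists_du (k := V.F.lev y / 2 * 2) false (by omega) (by omega) (by omega)
    (ne_H tk) (hk_H (by unfold lc; split_ifs <;> omega) _) (nl y)
  have hg : V.W.S.hang (nl (V.F.kid y)) 0 (some (nl y)) := by
    simpa only [V.W_F, V.F.par_kid ly] using Wd.hang_par (W := V.W) (n := V.F.kid y)
      (by rw [V.W_F]; omega)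
  have b1 := s.hi rfl (a.trans ak) (by omega) (by omega)
  have b2 := s.lo a.tree.symm ak (by omega) (by omega)
  intro _ _
  rcases Nat.mod_two_eq_zero_or_one (V.F.lev u) with c | c
  · have lp := V.F.lev_par (n := u) (by omega)
    have tp := V.F.tree_par (n := u) (by omega)
    have k := s.rs tp (by omega) (by omega) (V.W.S.lev_sn V.D_pos _ _ _)
    exact k.serve ((k.toRs.ch_cut 0).app (k.toRs.ch_kid (s.off rfl (by omega))
        (by rw [V.W_F]; omega))) (((k.toRs.ch_cut 1).app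
        (Wd.ch_up (V.W.S.pay_H (inl _)).hang (by omega))).app
        (Wd.ch_ftail (k.toRs.off_nl (s.off a.tree.symm (by omega))) hg (by omega))) (by simp [vz])
      (fun g => by fin_cases g <;> simp) [.lt 2 0, .lt 0 1, .lt 1 3, .lt 3 4] []
      (by decide +kernel)
      ⟨k.II (s.inz k) (s.inu k tp) s.rook (zi_lt _), s.cut_lt k rfl (by omega)
          (s.hi tp (Forest.anc_par (by omega)) (by omega) (by omega)),
        s.nl_lt k rfl (by omega) tk (by omega) b1,
        s.nl_lt k tk (by omega) a.tree.symm (by omega) b2⟩ trivial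
  · have k := s.rs rfl c (by omega) (V.W.S.lev_sn V.D_pos _ _ _)
    exact k.serve (k.toRs.ch_cut 0) (((k.toRs.ch_cut 1).app
        (Wd.ch_up (V.W.S.pay_H (inl _)).hang (by omega))).app
        (Wd.ch_ftail (k.toRs.off_nl (s.off a.tree.symm (by omega))) hg (by omega))) (by simp [vz])
      (fun g => by fin_cases g <;> simp) [.lt 1 0, .lt 0 2, .lt 2 3] [] (by decide +kernel)
      ⟨k.II (s.inz k) (s.inu k rfl) s.rook (zi_lt _), s.cut_lt k tk (by omega) b1,
        s.nl_lt k tk (by omega) a.tree.symm (by omega) b2⟩ trivial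

/-- the tail of a label -/
theorem sv_tHl (g : V.W.S.Good e) (a : V.F.Anc u y) (l : V.F.lev u + 1 < V.F.lev y)
    (ly : V.F.lev y = D) (c : V.F.lev u % 2 = 0) : V.W.Sv (hv (nl u)) (vz (nl y) 0) := by
  obtain ⟨L, m, f, τ, at1, rfl⟩ := g.use ly
  have := (V.F.surj u).1
  have lp := V.F.lev_par (n := u) (by omega)
  have tp := V.F.tree_par (n := u) (by omega)
  have ty : V.F.tree (V.W.S.sn L f τ) = V.F.tree u := a.tree.symm
  have cl : ∀ f σ, (V.F.tree (V.W.S.sn L f σ)).col = pcol V.F (some (V.W.lo L)) := fun f σ =>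
    (V.W.S.col_sn V.D_pos L f σ).trans (V.W.col_typ L f)
  have key : ∀ (i : Bool) {m' f' σ}, V.W.S.At L m' f' σ → m' ≠ m → ∃ j,
      Du V j i D (V.W.S.sn L f' σ) u ∧ V.InF j L ∧
        V.Rs j ![0, 0] ![V.F.par u, V.W.S.sn L f' σ] := by
    intro i m' f' σ at2 ne
    obtain ⟨j, hf, s⟩ := exists_du (V := V) (k := D) (u := u) i (by omega) le_rfl (Or.inr rfl)
      (ty ▸ at2.tree_ne V.D_pos at1 ne) (.of_col (by
        rw [← ty, cl, cl]
        exact (by decide : ∀ c : ZMod 3, c ≠ c + 1) _)) L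
    refine ⟨j, s, fun n d a' d' => ?_,
      s.rs tp (by omega) (by omega) (V.W.S.lev_sn V.D_pos _ _ _)⟩
    rcases s.col _ _ d' with d' | d'
    exacts [V.W.col_ne V.D_pos (hf.bk.1 d) f' σ d'.symm,
      V.W.col_ne V.D_pos (hf.bk.1 d) f τ ((congrArg Kl.col ty).trans d'.symm)]
  have := at1.le
  intro _ _
  rcases le_or_gt m 1 with d | d
  · obtain ⟨f', σ, at2⟩ := V.W.S.at_mid L (i := m + 1) (by omega) (by omega)
    obtain ⟨j, s, hf, k⟩ := key true at2 (by omega)
    exact k.serve ((k.toRs.ch_cut 0).app (k.toRs.ch_kid (s.off rfl (by omega))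
        (by rw [V.W_F]; omega))) (((k.toRs.ch_cut 1).app (Wd.ch_up at2.hang (by omega))).app
        (Wd.ch_ftail (k.toRs.off_nl (s.off ty (by omega))) at1.hang (by omega))) (by simp [vz])
      (fun g => by fin_cases g <;> simp) [.lt 3 0, .lt 0 1, .lt 1 4, .lt 4 2] []
      (by decide +kernel)
      ⟨k.F_cut hf 0, s.cut_lt k rfl (by omega)
          (s.hi tp (Forest.anc_par (by omega)) (by omega) (by omega)),
        s.nl_lt k rfl (by omega) ty (by omega) (s.hi rfl a (by omega) (by omega)),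
        k.II (Role.inI (ty ▸ s.ru) (.self _ j _)) (s.inz k) s.rook (zi_lt _)⟩ trivial
  · obtain ⟨m, rfl⟩ : ∃ m', m = m' + 1 := ⟨m - 1, by omega⟩
    obtain ⟨f', σ, at2⟩ := V.W.S.at_mid L (i := m) (by omega) (by omega)
    obtain ⟨j, s, hf, k⟩ := key false at2 (by omega)
    exact k.serve ((k.toRs.ch_cut 0).app (k.toRs.ch_kid (s.off rfl (by omega))
        (by rw [V.W_F]; omega))) (((k.toRs.ch_cut 1).app (Wd.ch_dn at2.hang (by omega))).app
        (Wd.ch_ftail (k.toRs.off_nl (s.off ty (by omega))) at1.hang (by omega))) (by simp [vz])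
      (fun g => by fin_cases g <;> simp) [.lt 3 2, .lt 2 0, .lt 0 1, .lt 1 4] []
      (by decide +kernel)
      ⟨k.F_cut hf 1, k.II (s.inz k) (s.inu k tp) s.rook (zi_lt _), s.cut_lt k rfl (by omega)
          (s.hi tp (Forest.anc_par (by omega)) (by omega) (by omega)),
        s.nl_lt k rfl (by omega) ty (by omega) (s.hi rfl a (by omega) (by omega))⟩ trivial

end Fw.Rt

/-- **A node and the tail vertex of the line of a descendant.** -/
theorem Fw.sv_nt' (V : Fw K N r r0 q D e b) (g : V.W.S.Good e) (u y : N) (a : V.F.Anc u y)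
    (ne : y ≠ u) (np : V.F.par y ≠ u) : V.W.Sv (hv (nl u)) (vz (nl y) 0) := by
  obtain ⟨l2, ap⟩ := a.par ne.symm
  have lp := V.F.lev_par l2
  have := mt ap.eq np.symm
  have l : V.F.lev u + 1 < V.F.lev y := by omega
  have := V.od
  intro _ _
  by_cases o : V.F.lev u % 2 = 1 ∧ V.F.lev y % 2 = 1
  · exact Rt.sv_tR a (by omega) o.1 o.2
  rcases (V.F.surj y).2.1.eq_or_lt with c | c
  exacts [Rt.sv_tHl g a l c (by omega), Rt.sv_tHd a l c (by omega)]

theorem Fw.sv_nt (V : Fw K N r r0 q D e b) (g : V.W.S.Good e) {u y : N} (a : V.F.Anc u y)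
    (na : ¬(HL (2 * r + 9) V.W.S.hang).Adj (hv (nl u)) (vz (nl y) 0)) :
    V.W.Sv (hv (nl u)) (vz (nl y) 0) := by
  have ne : y ≠ u := by
    rintro rfl
    exact na (Wd.adj_vz ((V.W.S.fit.tl _ _).2 (Or.inl rfl)) (Nat.zero_le _))
  intro _ _
  exact V.sv_nt' g u y a ne fun c =>
    na (c ▸ Wd.adj_vz (Wd.hang_par (W := V.W) (a.par ne.symm).1) (Nat.zero_le _))

end Pool.Agent.P.MP_439f1f_co
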