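import Pool.Agent.P.MP_439f1f_co.Nd0
import Pool.Agent.P.MP_439f1f_co.Rt1

/-!
Service of a node and a point in a block of the same tree: the case split.
-/

set_option autoImplicit false
set_option linter.unusedSectionVars false

namespace Pool.Agent.P.MP_439f1f_co

open Function SimpleGraph Sum

variable {K N : Type} {r r0 q D e b : ℕ} [DecidableEq K] [Finite K] [Finite N] [Nonempty K]

namespace Fw

variable {V : Fw K N r r0 q D e b} {g : Fin 64} {u y : N} {L : Hub K N (Pt K N) r0}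

/-- a line of the block of `u` comes before the line of `u` or not, in all states of a group -/
theorem bf_or_af (h : V.W.In L u) (f : V.W.Fag V.grp g L) (f' : V.W.Fag V.grp g (nl u)) :
    V.Bf g u L ∨ V.Af g u L := by
  obtain ⟨i, h⟩ := h
  by_cases c : i = 1
  · by_contra d
    simp only [Bf, Af, not_or, not_forall, not_lt, not_le] at d
    obtain ⟨⟨j, a1, -, a2⟩, j', a3, -, a4⟩ := d
    exact a2.not_gt ((Wd.Fag.twin V.mono f f' a3 a1 (by rw [h, c]; rfl) fun n d => by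
      rw [h, c] at d
      simp at d).1 a4)
  have k := fun j (a : V.grp j = g) =>
    Wd.pos_lay (f j a).cold (f' j a).cold h (V.W.lo_n u) c
  rcases lt_or_gt_of_ne c with d | d
  · exact Or.inl fun j a a' => (k j a).2 (by rwa [a'])
  · exact Or.inr fun j a a' => not_lt.1 fun x => by
      have := (k j a).1 x
      rw [a'] at this
      exact d.not_gt this

theorem bh_of (h : V.W.In L y) (f : V.W.Fag V.grp g L) (f' : V.W.Fag V.grp g (nl u))
    (c : ¬(¬V.F.Anc u y ∨ (y = u ∧ V.Bf g u L))) : V.F.Anc u y ∧ V.Bh g u y L := by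
  rw [not_or, not_not] at c
  refine ⟨c.1, ?_⟩
  by_cases d : y = u
  · subst d
    exact Or.inr (Or.inl ⟨rfl, (bf_or_af h f f').resolve_left fun a => c.2 ⟨rfl, a⟩⟩)
  · exact Or.inl fun a => d (a.eq c.1.1)

theorem bh_moat (h : V.W.lo L = inl (inl y, 0))
    (c : ¬(V.F.Anc y u ∧ V.F.lev y % 2 = V.F.lev u % 2)) : V.Bh g u y L := by
  by_cases a : V.F.Anc y u
  exacts [Or.inr (Or.inr ⟨a, fun d => c ⟨a, d⟩, h⟩), Or.inl a]

theorem gd_lo {i : ℕ} {f : Bool} {σ : Slot (r + 1)} (a : V.W.S.At L i f σ) (h : i ≤ r + 4)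
    (c : i = 1 → ∀ w, L ≠ inl (inr w)) : Gd (V.W.S.typ L f) σ := by
  obtain rfl := a.half.2 h
  rcases L with (n | w) | z
  · exact ⟨nofun, nofun, nofun⟩
  · refine ⟨nofun, fun _ _ _ _ d => ?_, nofun⟩
    subst d
    exact c (a.pos_eq (V.W.S.pay_H _) rfl) w rfl
  · exact ⟨nofun, nofun, nofun⟩

theorem gd_hi {i : ℕ} {σ : Slot (r + 1)} (a : V.W.S.At L i true σ)
    (c : ∀ p, V.W.S.O.dA L = inl p → i < 2 * r + 8) : Gd (V.W.S.typ L true) σ := by
  have k : V.W.S.typ L true = V.W.S.ht (V.W.S.O.dA L) := rfl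
  rcases h : V.W.S.O.dA L with (n | w) | z <;> rw [h] at k
  · refine k ▸ ⟨nofun, nofun, fun _ _ _ d => ?_⟩
    subst d
    have := c _ h
    have := a.pos_eq (Stat.nm_Z fun ⟨w, x⟩ => by simp [h] at x) rfl
    omega
  · have := c _ h
    have m : V.W.S.Mo L := ⟨w, h⟩
    refine k ▸ ⟨fun _ _ _ _ => ⟨?_, ?_, ?_⟩, nofun, nofun⟩ <;>
      rintro rfl
    · have := a.pos_eq (Stat.mo_Z m) rfl
      omega
    · have := a.pos_eq (Stat.mo_Y1 m) rfl
      omega
    · have := a.pos_eq (Stat.mo_Y2 m) rfl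
      omega
  · exact k ▸ ⟨nofun, nofun, nofun⟩

/-- **A node and a point in a block of the same tree.** -/
theorem sv_ns_of (G : V.W.S.Good e) (hSb : V.RowSb) (hSD : V.RowSD) (hSL : V.RowSL)
    (hSU : V.RowSU) (hTx : V.RowTx) (hSm : V.RowSm) (hWF : V.RowWF) {d f : Bool} {i : ℕ}
    {σ : Slot (r + 1)} {v : Vx K N (Pt K N) r r0} (a : V.W.S.Acc d v L i f σ) (hy : V.W.In L y)
    (t : V.F.tree y = V.F.tree u) (na : ¬(HL (2 * r + 9) V.W.S.hang).Adj (hv (nl u)) v) :
    V.W.Sv (hv (nl u)) v := by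
  obtain ⟨g, hg⟩ := V.W.exists_grp V.grp [L, nl u] (by simp)
  have fL := hg L (by simp)
  have fu := hg (nl u) (by simp)
  have key : ∀ {d f i σ}, V.W.S.Acc d v L i f σ → Gd (V.W.S.typ L f) σ →
      V.W.Sv (hv (nl u)) v := by
    intro d f i σ a gd _ _
    by_cases c : ¬V.F.Anc u y ∨ (y = u ∧ V.Bf g u L)
    · exact hSb g u y d v L i f σ a hy t fL fu gd c
    obtain ⟨an, bh⟩ := bh_of hy fL fu c
    cases d
    · exact hSD g u y v L i f σ a hy t fL fu bh
    by_cases c : ∀ w c l, (V.W.S.typ L f, σ) ≠ (.tN w c l, .H)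
    · exact hSL g u y v L i f σ a hy t fL fu bh c
    simp only [not_forall, not_not, Prod.mk.injEq] at c
    obtain ⟨w, c, l, h, rfl⟩ := c
    cases f
    swap
    · have k : V.W.S.typ L true = V.W.S.ht (V.W.S.O.dA L) := rfl
      rw [h] at k
      rcases h : V.W.S.O.dA L with (n | w) | z <;> rw [h] at k <;> exact nomatch k
    rcases L with (n | w) | z
    · obtain rfl := hy.unique (V.W.in_pay (inl n))
      have := a.at.pos_eq (V.W.S.pay_H _) rfl
      rcases a.cases with ⟨-, z, c, -⟩ | ⟨c, -⟩ | ⟨k, rfl, c⟩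
      · exact nomatch c
      · exact nomatch c
      · rw [← vz_val, show (k : ℕ) = 0 by simp only [cond_true] at c; omega] at na ⊢
        exact V.sv_nt G an na
    · exact nomatch h
    · exact nomatch h
  intro _ _
  rcases a.cases with ⟨rfl, z, rfl, -, rfl, rfl, rfl⟩ | ⟨rfl, ⟨n, k⟩, h, rfl, -⟩ | ⟨k, rfl, -⟩
  · exact key a (gd_lo a.at (by omega) (by omega))
  · obtain rfl : y = n := (V.W.in_dA.2 hy).unique (h ▸ V.W.in_pay (inr (n, k)))
    by_cases c : V.F.Anc y u ∧ V.F.lev y % 2 = V.F.lev u % 2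
    · exact hTx u y k c.1 c.2
    · exact hSD g u y _ L i f σ a hy t fL fu (bh_moat (by rw [← V.W.lo_dA, h]; rfl) c)
  rcases le_or_gt (k : ℕ) (r + 3) with c | c
  · obtain ⟨f, σ, a⟩ := V.W.S.acc_up L k (Or.inl (by omega))
    by_cases m : (k : ℕ) + 1 = 1 → ∀ w, L ≠ inl (inr w)
    · exact key a (gd_lo a.at (by omega) m)
    simp only [not_forall, not_not] at m
    obtain ⟨m, ⟨n, k'⟩, rfl⟩ := m
    obtain rfl : n = y := (V.W.in_pay (inr (n, k'))).unique hy
    by_cases c : V.F.Anc n u ∧ V.F.lev n % 2 = V.F.lev u % 2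
    · rw [← vz_val, show (k : ℕ) = 0 by omega]
      exact hSU u n k' c.1 c.2
    · refine hSL g u n _ _ _ f σ a hy t fL fu (bh_moat rfl c) fun w c l d => ?_
      obtain rfl := a.at.half.2 (by omega)
      exact nomatch (Prod.ext_iff.1 d).1
  obtain ⟨f, σ, a⟩ := V.W.S.acc_dn L k (Or.inl (by omega))
  cases f
  · exact key a (gd_lo a.at (a.at.half.1 rfl) (by omega))
  by_cases m : ∀ p, V.W.S.O.dA L = inl p → (k : ℕ) - 1 < 2 * r + 8
  · exact key a (gd_hi a.at m)
  simp only [not_forall] at m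
  obtain ⟨p, h, m⟩ := m
  obtain rfl : L = V.W.prv p := (Equiv.eq_symm_apply _).2 h
  obtain rfl := hy.unique (V.W.in_prv p)
  have hk : (k : ℕ) = 2 * r + 9 := by omega
  rcases p with n | ⟨n, k'⟩
  · by_cases c : V.F.Anc n u
    · rw [← vz_val, hk] at na ⊢
      refine hWF u n c ?_
      rintro rfl
      exact na (Wd.adj_vz ((V.W.S.fit.hp _ _ _ h).2 (Or.inl rfl)) le_rfl)
    · exact hSD g u n _ _ _ _ σ a hy t fL fu (Or.inl c)
  · rw [← vz_val, hk]
    exact hSm u n k' t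

end Fw

end Pool.Agent.P.MP_439f1f_co
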