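import Pool.Agent.P.MP_439f1f_co.Nd0
import Pool.Agent.P.MP_439f1f_co.B21

/-!
A node and a point before it in the same tree.
-/

set_option autoImplicit false
set_option linter.unusedSectionVars false

namespace Pool.Agent.P.MP_439f1f_co

open Function SimpleGraph Sum

variable {K N : Type} {r r0 q D e b : ℕ}

namespace Rb

theorem z3 : ∀ c : ZMod 3, c ≠ c + 1 ∧ c + 1 + 1 ≠ c := by decide

/-- a level of the cuts at rest that is possible next to two trees -/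
theorem exists_k (x y : Kl K r r0) : ∃ k : Fin 7, (k = 2 ∨ k = 4 ∨ k = 6) ∧
    (∀ c, x.Hk k c) ∧ ∀ c, y.Hk k c := by
  have a : ∀ x : Kl K r r0, ∃ l0 : Fin 4, ∀ w c l, x.1 = (.tN w c l, .H) → l = l0 := fun x => by
    by_cases h : ∃ w c l, x.1 = (.tN w c l, .H)
    · obtain ⟨w, c, l, h⟩ := h
      exact ⟨l, fun _ _ _ d => by
        rw [h] at d
        cases d
        rfl⟩
    · exact ⟨0, fun w c l d => absurd ⟨w, c, l, d⟩ h⟩
  obtain ⟨l1, a1⟩ := a x
  obtain ⟨l2, a2⟩ := a y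
  obtain ⟨k, b1, b2, b3⟩ := (by decide : ∀ a b : Fin 4, ∃ k : Fin 7, (k = 2 ∨ k = 4 ∨ k = 6) ∧
    lc k ≠ a ∧ lc k ≠ b) l1 l2
  exact ⟨k, b1, fun _ _ _ d => a1 _ _ _ d ▸ b2, fun _ _ _ d => a2 _ _ _ d ▸ b3⟩

/-- two single trees -/
def two (x y : Kl K r r0) (i : Bool) : Set (Kl K r r0) := {cond i y x}

/-- the first item is open, the entry tree comes last -/
def parS (D : ℕ) (cd : Bool) (k : Fin 7) : Par r r0 D :=
  { Par.base r r0 D with cd := cd, kap _ := k, op := some false, fl := 2, ek := Fin.ofNat _ 1 }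

/-- the ports of the colour `c` are at `p` -/
def parT (D : ℕ) (k : Fin 7) (c : ZMod 3) (p : Fin (r0 + 1)) : Par r r0 D :=
  { Par.base r r0 D with kap _ := k, np c' := if c' = c then p else Fin.last _ }

variable {x y T : Kl K r r0} {cd : Bool} {k : Fin 7} {a : Option Bool}

theorem mtS (h : (parS D cd k).Mt (two x y) a T) : (a = some false ∧ T = x) ∨
    (a = some true ∧ T = y) ∨ (a = none ∧ T = x.ent (Fin.ofNat _ 1)) := by
  rcases a with _ | _ | _
  · obtain ⟨_ | _, _, rfl, a2, rfl⟩ := h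
    exacts [Or.inr (Or.inr ⟨rfl, rfl⟩), nomatch a2]
  exacts [Or.inl ⟨rfl, h⟩, Or.inr (Or.inl ⟨rfl, h⟩)]

theorem mtT {c : ZMod 3} {p : Fin (r0 + 1)} (h : (parT D k c p).Mt (two x y) a T) :
    (a = some false ∧ T = x) ∨ (a = some true ∧ T = y) := by
  rcases a with _ | _ | _
  · obtain ⟨_, _, -, a2, -⟩ := h
    exact nomatch a2
  exacts [Or.inl ⟨rfl, h⟩, Or.inr ⟨rfl, h⟩]

theorem taS (two0 : 2 ≤ r0) (hk : k = 2 ∨ k = 4 ∨ k = 6) (hx : ∀ c, x.Hk k c) (hy : ∀ c, y.Hk k c)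
    (c : y.col = x.col + 1) (g : Fw.Gd y.ty y.sl) (o : ¬x.Own y) :
    (parS D cd k).TA (two x y) := by
  have ye : ∀ w c k, y.1 ≠ (.hM w c k, .Z) := fun w c k d =>
    (g.1 w c k (Kl.ty_val d)).1 (Kl.sl_val d)
  have m : ∀ {a a' T T'}, (parS D cd k).Mt (two x y) a T → (parS D cd k).Mt (two x y) a' T' →
      T.col = T'.col → (a = a' ∧ T = T') ∨ (T = y ∧ T' = x.ent (Fin.ofNat _ 1)) ∨
        (T' = y ∧ T = x.ent (Fin.ofNat _ 1)) := fun h h' d => by
    have z := (z3 x.col).1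
    rcases mtS h with ⟨a1, a2⟩ | ⟨a1, a2⟩ | ⟨a1, a2⟩ <;>
      rcases mtS h' with ⟨b1, b2⟩ | ⟨b1, b2⟩ | ⟨b1, b2⟩ <;> rw [a2, b2] at d
    exacts [Or.inl ⟨a1.trans b1.symm, a2.trans b2.symm⟩, absurd (d.trans c) z, absurd d z,
      absurd (d.symm.trans c) z, Or.inl ⟨a1.trans b1.symm, a2.trans b2.symm⟩,
      Or.inr (Or.inl ⟨a2, b2⟩), absurd d.symm z, Or.inr (Or.inr ⟨b2, a2⟩),
      Or.inl ⟨a1.trans b1.symm, a2.trans b2.symm⟩]
  constructor
  · rintro _ _ rfl _ rfl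
    rfl
  · exact fun _ => hk
  · exact fun _ => Or.inl rfl
  · intro a a' T h h'
    rcases m h h' rfl with d | d | d
    exacts [d.1, absurd (d.1 ▸ congrArg Subtype.val d.2) (ye _ _ _),
      absurd (d.1 ▸ congrArg Subtype.val d.2) (ye _ _ _)]
  · exact nofun
  · intro a T c h
    refine ⟨?_, fun _ _ _ d => absurd rfl d⟩
    rcases mtS h.1 with ⟨-, rfl⟩ | ⟨-, rfl⟩ | ⟨-, rfl⟩
    exacts [hx _, hy _, .of_sl nofun]
  · intro a a' T T' h h' d
    exfalso
    have d2 := d.2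
    rcases m h.1 h'.1 d.col with ⟨-, rfl⟩ | ⟨rfl, rfl⟩ | ⟨rfl, rfl⟩
    · omega
    · have := g.1 _ _ _ d.1
      have a1 : T.sl.act (T.ty.len r) := T.2
      simp only [Kl.off, ← d.1] at d2
      revert this a1 d2
      rw [show (x.ent (Fin.ofNat _ 1)).sl = .Z from rfl]
      cases T.sl <;> simp [Slot.off, Slot.act]
    · have := T'.sl.off_le (ρ := T'.ty.len r)
      simp only [Kl.off, d.1] at d2
      rw [show (x.ent (Fin.ofNat _ 1)).sl = .Z from rfl, Slot.off] at d2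
      omega
  · intro a a' T T' h h' d
    exfalso
    rcases m h.1 h'.1 d.col with ⟨-, rfl⟩ | ⟨rfl, rfl⟩ | ⟨rfl, rfl⟩
    exacts [by simpa [d.2.1] using d.2.2.2.1, (nomatch d.2.2.2.1), nomatch d.1]
  · intro a a' T T' w c k h h' d d'
    exfalso
    rcases m h.1 h'.1 (Kl.Mz.col ⟨_, _, _, d, d'⟩) with ⟨-, rfl⟩ | ⟨rfl, rfl⟩ | ⟨rfl, rfl⟩
    exacts [by simp [d] at d', ye _ _ _ d, g.2.2 _ _ (Kl.ty_val d') (Kl.sl_val d')]
  · intro a a' T T' w c k i h h' d d'
    exfalso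
    rcases m h.1 h'.1 (Kl.Mh.col ⟨_, _, _, _, d, d'⟩) with ⟨-, rfl⟩ | ⟨rfl, rfl⟩ | ⟨rfl, rfl⟩
    exacts [by simp [d] at d', ye _ _ _ d, g.2.1 _ _ _ (Kl.ty_val d') (Kl.sl_val d')]
  · intro a a' T T' h h' d
    have d0 := d
    obtain ⟨_, _, _, _, _, d1, d2, -⟩ := d0
    rcases mtS h.1 with ⟨-, rfl⟩ | ⟨-, rfl⟩ | ⟨-, rfl⟩ <;>
      rcases mtS h'.1 with ⟨-, rfl⟩ | ⟨-, rfl⟩ | ⟨-, rfl⟩ <;>
      first | exact o (Or.inl d) | exact o (Or.inr d) | simp_all [Kl.val_ent]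
  · exact fun _ _ d => absurd rfl d
  · exact fun _ d => absurd rfl d
  · exact fun _ _ _ _ k _ _ _ => Fin.le_last k
  · rintro (_ | _) d
    · refine ⟨Set.subsingleton_singleton, Nat.zero_le _, ?_, Or.inl rfl⟩
      simp only [parS, Fin.val_ofNat, Nat.mod_eq_of_lt (show 1 < r0 + 1 by omega)]
    · exact nomatch d
  · rintro (_ | _) d
    · rintro - _ rfl _ - w k
      exact ye _ _ _
    · exact nomatch d
  · rintro (_ | _) d
    · rintro _ rfl w c' l f
      refine Or.inr ⟨rfl, Or.inr ?_⟩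
      rintro _ rfl
      have f' : _ = c' := Kl.col_val f
      rw [← f']
      exact fun d => (z3 _).2 ((congrArg (· + 1) c).symm.trans d)
    · exact nomatch d
  · exact nofun

theorem taT {w : K × Bool} {p p' : Fin (r0 + 1)} (hk : k = 2 ∨ k = 4 ∨ k = 6) (hx : ∀ c, x.Hk k c)
    (hy : y.1 = (.hM w (x.col + 1) p', .Z)) (h : (p : ℕ) % 2 = 0 → p' ≤ p) :
    (parT D k x.col p).TA (two x y) := by
  have c : y.col = x.col + 1 := Kl.col_val hy
  have m : ∀ {a a' T T'}, (parT D k x.col p).Mt (two x y) a T →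
      (parT D k x.col p).Mt (two x y) a' T' → T.col = T'.col → a = a' ∧ T = T' := fun h h' d => by
    have := z3 x.col
    rcases mtT h with ⟨rfl, rfl⟩ | ⟨rfl, rfl⟩ <;> rcases mtT h' with ⟨rfl, rfl⟩ | ⟨rfl, rfl⟩ <;>
      simp_all
  constructor
  · rintro _ _ rfl _ rfl
    rfl
  · exact fun _ => hk
  · exact fun _ => Or.inl rfl
  · exact fun a a' T h h' => (m h h' rfl).1
  · exact nofun
  · intro a T c h
    refine ⟨?_, fun _ _ _ d => absurd rfl d⟩
    rcases mtT h.1 with ⟨-, rfl⟩ | ⟨-, rfl⟩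
    exacts [hx _, .of_sl (by simp [Kl.sl_val hy])]
  · intro a a' T T' h h' d
    obtain ⟨-, rfl⟩ := m h.1 h'.1 d.col
    have := d.2
    omega
  · intro a a' T T' h h' d
    obtain ⟨-, rfl⟩ := m h.1 h'.1 d.col
    simpa [d.2.1] using d.2.2.2.1
  · intro a a' T T' w c k h h' d d'
    obtain ⟨-, rfl⟩ := m h.1 h'.1 (Kl.Mz.col ⟨_, _, _, d, d'⟩)
    simp [d] at d'
  · intro a a' T T' w c k i h h' d d'
    obtain ⟨-, rfl⟩ := m h.1 h'.1 (Kl.Mh.col ⟨_, _, _, _, d, d'⟩)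
    simp [d] at d'
  · rintro a a' T T' h h' ⟨_, _, _, _, _, d1, d2, -⟩
    rcases mtT h.1 with ⟨-, rfl⟩ | ⟨-, rfl⟩ <;> rcases mtT h'.1 with ⟨-, rfl⟩ | ⟨-, rfl⟩ <;>
      simp_all
  · intro c c' d d'
    simp only [parT, ne_eq, ite_eq_right_iff, not_forall] at d d'
    exact d.1.trans d'.1.symm
  · exact fun _ _ => rfl
  · intro a T w c k h1 d f
    by_cases g : c = x.col
    · subst g
      simp only [parT, if_true] at f ⊢
      rcases mtT h1.1 with ⟨-, rfl⟩ | ⟨-, rfl⟩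
      · exact absurd (Kl.col_val d) (z3 _).1
      · obtain rfl : p' = k := by simpa using (by simpa [hy] using d : _ ∧ _).2
        exact h f
    · simp only [parT, g, if_false]
      exact Fin.le_last k
  · exact nofun
  · exact nofun
  · exact nofun
  · exact nofun

variable [DecidableEq K] [Finite K] [Finite N] [Nonempty K] {V : Fw K N r r0 q D e b} {j : K}
  {L : Hub K N (Pt K N) r0} {n n' : N} {f : Bool} {σ : Slot (r + 1)} {i : ℕ}

/-- the system classes of a line do not lie in the world of its block -/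
theorem sys_wor (h : V.W.In L n) {s : K × Bool} {p : ZMod 12} {c : ZMod 3}
    (d : V.W.S.typ L f = .tS s p c ∨ V.W.S.typ L f = .hS s p c) : (V.F.tree n).ty.wor ≠ s := by
  cases f
  · rcases L with (m | w) | ⟨j, y, i⟩ <;> rcases d with d | d <;> cases d
    exact V.W.wor_ne h
  · have h' := V.W.in_dA.2 h
    simp only [Pre.typ] at d
    revert h' d
    rcases V.W.S.O.dA L with (m | w) | ⟨j, y, i⟩ <;> rintro (d | d) h' <;> cases d
    exact V.W.wor_ne h'

theorem not_own (a : V.W.S.At L i f σ) (h : V.W.In L n) :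
    ¬(V.F.tree n).Own (V.F.tree (V.W.S.sn L f σ)) := by
  rw [show V.F.tree _ = _ from a.tree V.D_pos]
  rintro (⟨w, p, c, p', c', a1, a2, -⟩ | ⟨w, p, c, p', c', a1, a2, -⟩)
  exacts [sys_wor h (Or.inr (Prod.ext_iff.1 a2).1) (by rw [Kl.ty_val a1]; rfl),
    sys_wor h (Or.inl (Prod.ext_iff.1 a1).1) (by rw [Kl.ty_val a2]; rfl)]

theorem col_lab (h : V.W.In L n) (f : Bool) (σ : Slot (r + 1)) :
    (V.F.tree (V.W.S.sn L f σ)).col = (V.F.tree n).col + 1 :=
  (V.W.S.col_sn V.D_pos L f σ).trans (V.W.col_in h f)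

/-- the order in a living tree -/
theorem key_liv (h : V.Liv j (V.F.tree n)) (o : (V.par j).rook = false)
    (t : V.F.tree n' = V.F.tree n) (c : V.o (V.par j).cd n < V.o (V.par j).cd n') :
    (V.L j).key n < (V.L j).key n' := by
  have a := Fw.not_own h.stg
  have k : ∀ {x}, V.F.tree x = V.F.tree n → ¬(V.L j).Low x := fun d l => by
    have := l.1
    rw [Fw.L_dt, d, show (V.S.td j (V.F.tree n)).kap = 0 from h.kap] at this
    omega
  refine (Lay.high_lt (Fw.fm_plain a o) (Fw.fm_plain (t ▸ a) o) t (k rfl) (k t)).2 ?_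
  rwa [Fw.L_dt, Fw.td_cs a]

theorem run_lab (h : V.Liv j (V.F.tree n)) (l : V.F.lev n = D) : V.W.Run j 0 n :=
  h.run rfl (by rw [l, V.od]) (V.F.surj n).1

theorem vp_role {ι : Type} {l : ι → ℕ} {t : ι → N} (k : V.W.Rs j l t) {L' : Hub K N (Pt K N) r0}
    (h : V.W.Bk j L n) (h' : V.W.Bk j L' n') {a' : Option Bool}
    (c : V.Role j a (V.F.tree n)) (c' : V.Role j a' (V.F.tree n')) (o : (V.par j).rook = false)
    (z : (V.par j).zi a < (V.par j).zi a') : V.W.vp j l t L < V.W.vp j l t L' :=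
  Sw.bk_lt k h h' fun _ _ b b' => Fw.Role.lt ((b.tree : V.F.tree _ = _) ▸ c)
    ((b'.tree : V.F.tree _ = _) ▸ c') o z

end Rb

open Rb in
/-- **A node that leaks and a point before it.** -/
theorem Fw.rowSb [DecidableEq K] [Finite K] [Finite N] [Nonempty K] (V : Fw K N r r0 q D e b) :
    V.RowSb := by
  intro g u y d v L i f σ h hin t fg _ gd bf
  have two0 := V.two_r0
  have c := t ▸ col_lab hin f σ
  obtain ⟨k, k1, k2, k3⟩ := exists_k (V.F.tree u) (V.F.tree (V.W.S.sn L f σ))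
  obtain ⟨cd, hc⟩ : ∃ cd, ¬V.F.Anc u y → V.o cd y < V.o cd u := by
    by_cases a : V.F.Anc u y
    · exact ⟨true, fun a' => absurd a a'⟩
    by_cases a' : V.F.Anc y u
    · exact ⟨true, fun _ => V.ho.lt _ a' fun d => a (d ▸ .refl _)⟩
    · exact (V.ho.choose a' a).imp fun _ d _ => d
  obtain ⟨j, s⟩ := V.exists_st g (taS (D := D) (cd := cd) two0 k1 k2 k3 c
    (by rwa [show V.F.tree _ = _ from h.at.tree V.D_pos]) (t ▸ Rb.not_own h.at hin)) [] (by simp)
    (by simp)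
  have fj := fg j s.grp
  have su : (V.F.tree u).stg ≠ j := t ▸ fj.wor hin
  have sa := fj.sn V.D_pos f σ
  have ru : V.Role j _ (V.F.tree u) := s.role false _ rfl su
  have ra : V.Role j _ (V.F.tree (V.W.S.sn L f σ)) := s.role true _ rfl sa
  have o : V.Opn j u := s.opn (i := false) rfl su rfl (Nat.zero_le _)
  have x := o.ot.ell
  rw [show ((V.par j).ek : ℕ) = 1 by rw [s.ek]; exact Nat.mod_eq_of_lt (by omega)] at x
  have k := Wd.Rs.two (run_lab x.liv (V.lev_ell u 1))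
    (run_lab (s.liv (i := true) rfl sa rfl) (V.W.S.lev_sn V.D_pos L f σ))
    (Wd.On.tree_ne fun (d : V.F.tree _ = V.F.tree _) =>
      absurd (ra.eq (by rwa [← d])) (by simp : some true ≠ none))
  have lay : V.W.lay j (inl u) = 1 := by rw [o.lay, s.sp, s.flip]; rfl
  have p : V.W.pos j L < V.W.pos j (nl u) := bf.elim (fun a => Sw.lt_of_key (fj.bk.2 hin)
    (.self _ j u) (key_liv (t ▸ s.liv (i := false) rfl su rfl) s.rook t.symm (s.cd ▸ hc a)))
    fun a => a.2 j s.grp lay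
  have out : ∀ {n}, V.F.tree n = V.F.tree u → ∀ z, V.W.On (![0, 0] z)
      (![V.W.ell u 1, V.W.S.sn L f σ] z) n → n = ![V.W.ell u 1, V.W.S.sn L f σ] z := fun d z a => by
    have a' : V.F.tree _ = _ := a.1.tree
    fin_cases z
    exacts [absurd (ru.eq (by rwa [← d, a'])) (by simp : some false ≠ none),
      absurd (ru.eq (by rwa [← d, a'])) (by simp : some false ≠ some true)]
  have o1 := k.leak_front two0 (out rfl) o.port (by rw [lay]; decide)
  have x' := ((k.on_cut 0).1.tree : V.F.tree _ = _) ▸ x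
  have ra' := ((k.on_cut 1).1.tree : V.F.tree _ = _) ▸ ra
  have le := h.at.le
  have a1 : (cond d i (i + 1) ≤ 2 * r + 9 ∧ (cond d i (i + 1) = 0 → ∃ z, L = inr z)) := by
    rcases h.cases with ⟨rfl, z, rfl, -, rfl, -⟩ | ⟨rfl, w, a1, -, rfl, rfl, rfl⟩ | ⟨z, -, a1⟩
    · simp
    · exact absurd rfl (gd.1 _ _ _ (by simp only [Pre.typ, a1]; rfl)).1
    · have := z.2
      cases d <;> simp only [cond] at a1 ⊢ <;> omega
  intro _ _
  exact k.serve ((k.ch_cut 0).app (k.ch_leak u)) ((k.ch_cut 1).app (k.ch_acc h))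
    (by rcases h.cases with ⟨_, _, rfl, a, _⟩ | ⟨_, _, _, a, _⟩ | ⟨_, a, _⟩ <;> simp [a])
    (fun g => by fin_cases g <;> simp) [.lt 2 1, .lt 1 3, .lt 5 3, .lt 3 4, .lt 4 0]
    [(5, 1), (5, 2)] (by cases d <;> decide +kernel)
    ⟨o1.1, o1.2, Wd.vq_out' (k.out_bk (fj.bk.2 hin) (out t)) (k.out_bk (Wd.bk_prv' j _) (out rfl))
      (Wd.le_prv.2 p) (by omega) le_rfl,
      Wd.vq_lt (vp_role k (Wd.bk_prv' j _) (Wd.bk_cut j _ _) ru ra' s.rook
        (by rw [s.zi, s.zi]; exact Nat.lt_of_sub_eq_succ rfl)),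
      Wd.vq_lt (vp_role k (Wd.bk_cut j _ _) (Wd.bk_cut j _ _) ra' x' s.rook
        (by rw [s.zi, s.zi]; exact Nat.lt_of_sub_eq_succ rfl))⟩
    ⟨pz_ne' (by omega) (by omega) le_rfl, by
      by_cases a : cond d i (i + 1) = 0
      · obtain ⟨z, rfl⟩ := a1.2 a
        exact pz_ne (by simp)
      · exact pz_ne' a (by omega) (Nat.zero_le _)⟩

/-- a line before an even node of a route is carried by the route -/
theorem Wd.Rs.rb_even [DecidableEq K] [Finite K] [Finite N] [Nonempty K] {β ι : Type}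
    [LinearOrder β] {W : Wd K N β r r0 q D e b} {j : K} {l : ι → ℕ} {t : ι → N} (k : W.Rs j l t)
    {g : ι} {y : N} {L : Hub K N (Pt K N) r0} (c : W.On (l g) (t g) y) (ev : W.F.lev y % 2 = 0)
    (h1 : W.pos j (nl (W.F.par y)) ≤ W.pos j L) (h2 : W.pos j L < W.pos j (nl y)) :
    (W.rts l t).an (W.pos j) L = nl (t g) := by
  have a1 := k.len g
  have a2 := (k.run g).ev
  have a3 := c.1.1
  have a4 := c.2
  have a5 := (W.F.surj (t g)).2.1
  obtain ⟨s, hs⟩ : ∃ s, W.F.lev y = l g + (2 * s + 1) + 1 := ⟨(W.F.lev y - l g) / 2 - 1, by omega⟩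
  have b1 : W.F.at' (t g) (l g + (2 * s + 1) + 1) = y := hs ▸ c.1.2
  have b2 : W.F.at' (t g) (l g + 2 * s + 1) = W.F.par y := by
    rw [← b1]
    exact (W.F.par_at _ (by omega) (by omega)).symm
  exact (k.ok.an_in (W.lref j) (i := g) (j := s) ⟨by omega, by simpa only [Wd.rts, b2] using h1,
    by simpa only [Wd.rts, b1] using h2⟩).trans (k.lab g)

/-- a line before an odd node in its block is not carried -/
theorem Wd.Rs.rb_odd [DecidableEq K] [Finite K] [Finite N] [Nonempty K] {β ι : Type}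
    [LinearOrder β] {W : Wd K N β r r0 q D e b} {j : K} {l : ι → ℕ} {t : ι → N} (k : W.Rs j l t)
    {y : N} {L : Hub K N (Pt K N) r0} (h : W.Bk j L y) (od : W.F.lev y % 2 = 1)
    (h2 : W.pos j L < W.pos j (nl y)) : (W.rts l t).Out (W.pos j) L := fun g s a => by
  obtain ⟨p, c⟩ := k.pair a.1
  rcases p.btw L a.2.1 (c ▸ a.2.2.le) with d | d
  · exact h2.not_ge (h.unique d ▸ a.2.1)
  · have := W.F.lev_kid p.lev
    have := p.odd
    rw [← h.unique d] at *
    omega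

open Rb in
/-- **A node and a moat hub above it**, not the first one. -/
theorem Fw.rowTx_pos [DecidableEq K] [Finite K] [Finite N] [Nonempty K] (V : Fw K N r r0 q D e b)
    (u y : N) (p : Fin (r0 + 1)) (an : V.F.Anc y u) (pa : V.F.lev y % 2 = V.F.lev u % 2)
    (p0 : p ≠ 0) : V.W.Sv (hv (nl u)) (hv (inl (inr (y, p)))) := by
  have ev := V.ev
  have p1 := p.2
  have p2 : (p : ℕ) ≠ 0 := fun d => p0 (Fin.ext d)
  obtain ⟨m, m1, m2⟩ : ∃ m, p + 2 * m ≤ r0 ∧ ((p : ℕ) % 2 = 0 → p + 2 * m = r0) := by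
    by_cases d : (p : ℕ) % 2 = 0
    exacts [⟨(r0 - p) / 2, by omega, by omega⟩, ⟨0, by omega, by omega⟩]
  have m3 : (p + 2 * m + 1) % (r0 + 1) ≠ p := by
    rcases m1.eq_or_lt with d | d
    · rw [d, Nat.mod_self]
      omega
    · rw [Nat.mod_eq_of_lt (by omega)]
      omega
  have t : V.F.tree y = V.F.tree u := an.tree
  obtain ⟨X, hX⟩ : ∃ X, X = V.W.ell y (p + 2 * m + 1) := ⟨_, rfl⟩
  have tX : (V.F.tree X).1 = (.hM (V.F.tree u).ty.wor ((V.F.tree u).col + 1)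
      (Fin.ofNat _ (p + 2 * m + 1)), .Z) := hX ▸ t ▸ V.W.tree_ell V.D_pos y _
  obtain ⟨k, k1, k2, -⟩ := exists_k (V.F.tree u) (V.F.tree u)
  obtain ⟨g, fg⟩ := V.W.exists_grp V.grp [V.W.prv (inl u)] (by simp)
  obtain ⟨j, s⟩ := V.exists_st g (taT (D := D) (p := p) k1 k2 tX fun d => by
    simp [m2 d]) [] (by simp) (by simp)
  have su : (V.F.tree u).stg ≠ j := (fg _ (by simp) j s.grp).wor (V.W.in_prv (inl u))
  have sX : (V.F.tree X).stg ≠ j := by rwa [Kl.stg, Kl.ty_val tX]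
  have ru : V.Role j _ (V.F.tree u) := s.role false _ rfl su
  have rX : V.Role j _ (V.F.tree X) := s.role true _ rfl sX
  have lu : V.Liv j (V.F.tree u) := s.liv (i := false) rfl su rfl
  have RX := run_lab (s.liv (i := true) rfl sX rfl) (hX ▸ V.lev_ell y _)
  have cl : ∀ n, ¬V.Opn j n := fun n d => d.op s.op
  have po : V.W.port j y = p := by
    rw [port_np (t ▸ su) (cl y), s.np, t]
    exact if_pos rfl
  have A : V.W.Arc j y p m := ⟨by omega, fun i _ => by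
    rw [po, Nat.mod_eq_of_lt (by omega)]; omega⟩
  have fre : V.W.Fre j y p m (pz (V.W.prv (Wd.mo y (p + 2 * m + 1))) (2 * r + 10)) :=
    A.fre_prv fun i _ => by
      rcases m1.eq_or_lt with d | d
      · rw [d, Nat.mod_self, Nat.mod_eq_of_lt (by omega)]
        omega
      · rw [Nat.mod_eq_of_lt (by omega), Nat.mod_eq_of_lt (by omega)]
        omega
  have el0 : el (r0 + 1) (V.W.port j y) (p % (r0 + 1)) <
      el (r0 + 1) (V.W.port j y) ((p + 2 * m + 1) % (r0 + 1)) := by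
    have := Nat.mod_lt (p + 2 * m + 1) (show 0 < r0 + 1 by omega)
    rw [po, Nat.mod_eq_of_lt p1]
    unfold el
    split_ifs <;> omega
  have mn : ∀ i, V.W.pos j (ml y i) < V.W.pos j (nl y) := fun i =>
    V.W.pos_mn.2 (by rw [lay_closed (cl y)]; exact (blay_lt _ _).2 rfl)
  have pn := (Wd.prv_lt j (Wd.mo y (p + 2 * m + 1))).trans (mn _)
  have key : ∀ {n n'}, V.F.tree n = V.F.tree u → V.F.Anc n n' → n ≠ n' →
      (V.L j).key n < (V.L j).key n' := fun d a ne =>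
    key_liv (d ▸ lu) s.rook a.tree.symm (V.ho.lt _ a ne)
  have yu : V.W.pos j (nl y) ≤ V.W.pos j (nl u) := Sw.nl_le.2
    ((eq_or_ne y u).elim (fun d => d ▸ le_rfl) fun d => (key t an d).le)
  have ne : V.F.tree u ≠ V.F.tree X := fun d => absurd (ru.eq (d ▸ rX)) (by simp)
  have zi : (V.par j).zi (some false) < (V.par j).zi (some true) := Nat.lt_of_sub_eq_succ rfl
  have pne : ∀ {n}, 2 ≤ V.F.lev n → V.F.par n ≠ n := fun h d => by
    have := V.F.lev_par h
    rw [d] at this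
    omega
  have en : ∀ {l : Fin 2 → ℕ} {t : Fin 2 → N}, V.W.Ch j l t (hv (nl X)) [false]
      [pz (V.W.prv (Wd.mo y (p + 2 * m + 1))) (2 * r + 10)] (hv (ml y (p + 2 * m + 1))) :=
    hX ▸ Wd.ch_entry y _
  rw [← Wd.mo_val]
  rcases Nat.mod_two_eq_zero_or_one (V.F.lev u) with o | o
  · have l2 : 2 ≤ V.F.lev u := V.F.tre.two_le o
    have lp := V.F.lev_par l2
    have ap := Forest.anc_par l2
    have tp : V.F.tree (V.F.par u) = V.F.tree u := ap.tree
    have k := Wd.Rs.two (Liv.run (tp ▸ lu) (l := 0) rfl (by omega) (by omega)) RX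
      (Wd.On.tree_ne (tp ▸ ne))
    have off : ∀ z, ¬V.W.On (![0, 0] z) (![V.F.par u, X] z) u := fun z a => by
      fin_cases z
      exacts [by have : V.F.lev u ≤ V.F.lev (V.F.par u) := a.1.1; omega, ne a.1.tree]
    have y2 : 2 ≤ V.F.lev y := V.F.tre.two_le (pa.trans o)
    have py : V.W.pos j (nl (V.F.par y)) < V.W.pos j (ml y p) :=
      Sw.lt_of_key (.self _ j _) (Wd.bk_pay.2 rfl) (key ((Forest.anc_par y2).tree.trans t)
        (Forest.anc_par y2) (pne y2))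
    have pu : (V.L j).key (V.F.par u) < (V.L j).key u := key tp ap (pne l2)
    intro _ _
    refine k.ro.serveM A (d := true) ((k.ch_cut 0).app (k.ch_kid off l2))
      ((k.ch_cut 1).app en) (Wd.adj_arc y _) .nil (by simp [Wd.mo])
      (fun g => by fin_cases g <;> simp) ⟨Wd.fre_cut, Wd.fre_nl, Wd.fre_cut, fre⟩
      [.lt 0 4, .lt 4 3, .lt 3 1, .lt 1 2] [] (by decide +kernel)
      ⟨Wd.vq_lt ((k.cut_lt_iff _ 0).2 ⟨?_, by simp [Wd.cut, Wd.mo]⟩), k.vq_ml_prv el0,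
        Wd.vq_lt (Rts.vp_of_an ?_), Wd.vq_lt (vp_role k (.self _ j _) (Wd.bk_cut j _ _) ru
          (((k.on_cut 1).1.tree : V.F.tree _ = _) ▸ rX) s.rook zi)⟩ trivial
    · by_cases d : y = u
      · subst d
        exact (Rts.an_out (k.out_bk (L := ml y p) (n := y) (Wd.bk_pay.2 rfl)
          fun z a => (off z a).elim)).symm ▸ py.le
      · exact (k.rb_even (g := 0) ⟨(an.par d).2, (V.F.surj y).1⟩ (pa.trans o) py.le (mn p)).symm ▸
          le_rfl
    · rw [Rts.an_out (k.out_bk (.self _ j u) fun z a => (off z a).elim)]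
      rcases k.an_cases (V.W.prv (Wd.mo y (p + 2 * m + 1))) with d | ⟨z, a, a1, -, a3, d⟩ <;> rw [d]
      · exact pn.trans_le yu
      · obtain rfl := a3.unique (Wd.bk_prv' j _)
        fin_cases z
        exacts [Sw.nl_lt.2 pu, (ne (t.symm.trans a1.1.tree)).elim]
  · have k := Wd.Rs.two (lu.run (l := 0) rfl o (V.F.surj u).1) RX (Wd.On.tree_ne ne)
    intro _ _
    refine k.ro.serveM A (d := true) (k.ch_cut 0)
      ((k.ch_cut 1).app en) (Wd.adj_arc y _) .nil (by simp [Wd.mo])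
      (fun g => by fin_cases g <;> simp) ⟨Wd.fre_cut, Wd.fre_cut, fre⟩
      [.lt 3 2, .lt 2 0, .lt 0 1] [] (by decide +kernel)
      ⟨k.vq_ml_prv el0, Wd.vq_lt ((k.lt_cut_iff _ 0).2 ?_),
        Wd.vq_lt (vp_role k (Wd.bk_cut j _ _) (Wd.bk_cut j _ _)
          (((k.on_cut 0).1.tree : V.F.tree _ = _) ▸ ru)
          (((k.on_cut 1).1.tree : V.F.tree _ = _) ▸ rX) s.rook zi)⟩ trivial
    exact (Rts.an_out (k.rb_odd (y := y) (Wd.bk_prv' j (Wd.mo y _)) (pa.trans o) pn)).symm ▸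
      pn.trans_le yu

end Pool.Agent.P.MP_439f1f_co
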