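import Pool.Agent.P.MP_439f1f_co.Rb1
import Pool.Agent.P.MP_439f1f_co.Sv2

/-!
A node and the head into a moat hub of the same tree.
-/

set_option autoImplicit false
set_option linter.unusedSectionVars false

namespace Pool.Agent.P.MP_439f1f_co

open Function SimpleGraph Sum

variable {K N : Type} {r r0 q D e b : ℕ} [DecidableEq K] [Finite K] [Finite N] [Nonempty K]

open Rb in
/-- **A node and the head into a moat hub.** -/
theorem Fw.rowSm' (V : Fw K N r r0 q D e b) : V.RowSm := by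
  intro u y p t
  have two := V.two_r0
  have p1 := p.2
  have hin : V.W.In (ml y (p + r0)) y := V.W.in_pay _
  have a := V.W.S.pay_H (Wd.mo y (p + r0))
  obtain ⟨X, hX⟩ : ∃ X, X = V.W.S.sn (ml y (p + r0)) false .H := ⟨_, rfl⟩
  have c : (V.F.tree X).col = (V.F.tree u).col + 1 := hX ▸ t ▸ col_lab hin false .H
  have c' : (V.F.tree u).col ≠ (V.F.tree X).col := c ▸ (z3 _).1
  have sX : (V.F.tree X).sl = .H := by rw [hX, show V.F.tree _ = _ from a.tree V.D_pos]
  obtain ⟨κ, hk⟩ := Kl.exists_kap (V.F.tree u) (V.F.tree X)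
  have px : Kl.Px (Kl.pt (V.F.tree u).col (Fin.ofNat _ (p + r0))) (V.F.tree u) :=
    fun w c k d _ => by
      rw [Kl.pt_ne _ fun f => (z3 c).1 (f.trans (Kl.col_val d))]
      exact k.le_last
  have py : Kl.Px (Kl.pt (V.F.tree u).col (Fin.ofNat _ (p + r0))) (V.F.tree X) :=
    fun w c k d _ => by simp [Kl.sl_val d] at sX
  obtain ⟨g, fg⟩ := V.W.exists_grp V.grp [ml y (p + r0)] (by simp)
  obtain ⟨j, s⟩ := V.exists_st g (Par.TA.two (π := { Par.base r r0 D with
      kap := κ, np := Kl.pt (V.F.tree u).col (Fin.ofNat _ (p + r0)) })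
    rfl rfl (fun c => (hk c).1) (fun _ => Or.inl rfl) (Kl.pt_one _ _) nofun
    (fun d => c' (congrArg _ d)) (fun i _ => by
      cases i
      exacts [⟨fun c => (hk c).2.1, px, fun d => absurd rfl d⟩,
        ⟨fun c => (hk c).2.2, py, fun d => absurd rfl d⟩])
    fun _ _ => ⟨.of_col c' (hX ▸ t ▸ Rb.not_own a hin), ⟨Kl.pt_one _ _, px, py,
      .of (mt Kl.Mh.col c'), .of (mt Kl.Mh.col c'.symm),
      fun _ _ _ d d' => absurd (Kl.Mz.col ⟨_, _, _, d, d'⟩) c',
      fun _ _ _ d d' => absurd (Kl.Mz.col ⟨_, _, _, d, d'⟩) c'.symm⟩, nofun⟩) [] (by simp) (by simp)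
  have fj := fg _ (List.mem_singleton_self _) j s.grp
  have su : (V.F.tree u).stg ≠ j := t ▸ fj.wor hin
  have sx : (V.F.tree X).stg ≠ j := hX ▸ fj.sn V.D_pos false .H
  have ru : V.Role j _ (V.F.tree u) := s.role false _ rfl su
  have rX : V.Role j _ (V.F.tree X) := s.role true _ rfl sx
  have lu : V.Liv j (V.F.tree u) := s.liv (i := false) rfl su rfl
  have RX := run_lab (s.liv (i := true) rfl sx rfl) (hX ▸ V.W.S.lev_sn V.D_pos _ _ _)
  have po : V.W.port j y = Fin.ofNat _ (p + r0) := by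
    rw [port_np (t ▸ su) (fun d => d.op s.op), s.np, t]
    exact Kl.pt_self _ _
  have lt : V.W.pos j (ml y (p + r0)) < V.W.pos j (ml y p) := Wd.pos_ml.2 (by
    rw [po, Fin.val_ofNat, Nat.mod_eq_of_lt p1]
    have : (p + r0) % (r0 + 1) ≠ p := by
      rcases Nat.eq_zero_or_pos p with d | d
      · rw [d, zero_add, Nat.mod_eq_of_lt (by omega)]
        omega
      · rw [show p + r0 = p - 1 + (r0 + 1) by omega, Nat.add_mod_right, Nat.mod_eq_of_lt (by omega)]
        omega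
    have := Nat.mod_lt (p + r0) (show 0 < r0 + 1 by omega)
    unfold el
    split_ifs <;> omega)
  have ne : V.F.tree u ≠ V.F.tree X := fun d => c' (congrArg _ d)
  have zi : (V.par j).zi (some false) < (V.par j).zi (some true) := Nat.lt_of_sub_eq_succ rfl
  have ch : ∀ {l : Fin 2 → ℕ} {t : Fin 2 → N}, V.W.Ch j l t (hv (nl X)) [true, true]
      [pz (ml y (p + r0)) 1, pz (V.W.prv (Wd.mo y p)) (2 * r + 10)]
      (vz (V.W.prv (Wd.mo y p)) (2 * r + 9)) :=
    (Wd.ch_up (hX ▸ a.hang) (by omega)).app (Wd.ch_fhead (by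
      rw [Wd.nxt_prv]
      exact (congrArg some (ml_add y p)) ▸ Wd.hang_moat y (p + r0)) (by omega))
  have ord : ∀ {l : Fin 2 → ℕ} {t : Fin 2 → N}, V.W.Rs j l t → (V.W.vq j l t (pz (ml y (p + r0)) 1) <
      V.W.vq j l t (pz (V.W.prv (Wd.mo y p)) (2 * r + 10))) ∧ ∀ n,
      V.W.vq j l t (pz (nl n) 0) < V.W.vq j l t (pz (ml y (p + r0)) 1) ∨
        V.W.vq j l t (pz (V.W.prv (Wd.mo y p)) (2 * r + 10)) < V.W.vq j l t (pz (nl n) 0) :=
    fun k => by
      have a1 := Wd.le_prv.2 lt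
      have a2 := Wd.prv_lt (W := V.W) j (Wd.mo y p)
      refine ⟨Wd.vq_le (not_lt.1 (mt (k.vp_moat a1 a2.le le_rfl lt.le).1 a1.not_gt)) (by omega)
        le_rfl, fun n => Or.imp Wd.vq_lt Wd.vq_lt (by_contra fun d => ?_)⟩
      rw [not_or, not_lt, not_lt] at d
      have := (k.vp_itv lt).1 ⟨d.1, d.2.trans_lt ((k.vp_moat a1 a2.le lt.le le_rfl).2 a2)⟩
      exact (Wd.out_nl n).elim this.1.not_gt this.2.not_gt
  rw [← Wd.mo_val]
  rcases Nat.mod_two_eq_zero_or_one (V.F.lev u) with o | o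
  · have l2 : 2 ≤ V.F.lev u := V.F.tre.two_le o
    have lp := V.F.lev_par l2
    have ap := Forest.anc_par l2
    have tp : V.F.tree (V.F.par u) = V.F.tree u := ap.tree
    have k := Wd.Rs.two (Liv.run (tp ▸ lu) (l := 0) rfl (by omega) (by omega)) RX
      (Wd.On.tree_ne (tp ▸ ne))
    have off : ∀ z, ¬V.W.On (![0, 0] z) (![V.F.par u, X] z) u := fun z a => by
      fin_cases z
      exacts [by have : V.F.lev u ≤ V.F.lev (V.F.par u) := a.1.1; omega, ne a.1.tree]
    have pu : (V.L j).key (V.F.par u) < (V.L j).key u := key_liv (tp ▸ lu) s.rook tp.symm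
      (V.ho.lt _ ap fun d => by rw [d] at lp; omega)
    have rX' := ((k.on_cut 1).1.tree : V.F.tree _ = _) ▸ rX
    intro _ _
    exact k.serve ((k.ch_cut 0).app (k.ch_kid off l2)) ((k.ch_cut 1).app ch) (by simp [vz])
      (fun g => by fin_cases g <;> simp)
      [.lt 0 1, .lt 1 2, .lt 3 4, .lt 4 2, .or (.lt 0 3) (.lt 4 0), .or (.lt 1 3) (.lt 4 1)] []
      (by decide +kernel)
      ⟨Wd.vq_lt (Sw.cut_lt_bk k (g := 0) (.self _ j u) fun _ d =>
          d.elim (· ▸ pu) fun ⟨z, d, _⟩ => (off z d).elim),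
        Wd.vq_lt (vp_role k (.self _ j _) (Wd.bk_cut j _ _) ru rX' s.rook zi), (ord k).1,
        Wd.vq_lt (vp_role k (Wd.bk_prv' j _) (Wd.bk_cut j _ _) (t ▸ ru) rX' s.rook zi),
        (ord k).2 _, (ord k).2 _⟩ trivial
  · have k := Wd.Rs.two (lu.run (l := 0) rfl o (V.F.surj u).1) RX (Wd.On.tree_ne ne)
    have rX' := ((k.on_cut 1).1.tree : V.F.tree _ = _) ▸ rX
    intro _ _
    exact k.serve (k.ch_cut 0) ((k.ch_cut 1).app ch) (by simp [vz])
      (fun g => by fin_cases g <;> simp)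
      [.lt 0 1, .lt 2 3, .lt 3 1, .or (.lt 0 2) (.lt 3 0)] [] (by decide +kernel)
      ⟨Wd.vq_lt (vp_role k (Wd.bk_cut j _ _) (Wd.bk_cut j _ _)
          (((k.on_cut 0).1.tree : V.F.tree _ = _) ▸ ru) rX' s.rook zi), (ord k).1,
        Wd.vq_lt (vp_role k (Wd.bk_prv' j _) (Wd.bk_cut j _ _) (t ▸ ru) rX' s.rook zi),
        (ord k).2 _⟩ trivial

end Pool.Agent.P.MP_439f1f_co
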