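import Pool.Agent.P.MP_439f1f_co.Rl5

/-!
The menus of the points of a system, and the tables of the options.
-/

set_option autoImplicit false

namespace Pool.Agent.P.MP_439f1f_co.Mu

/-- chains -/
abbrev Cn : Type := List (Bool × Nm)

def btn (z : ℕ × ℕ) : ℕ × ℕ :=
  if z.2 = 0 then (z.1 + 2, 1) else if z.2 = 1 then (z.1 - 1, 2) else (z.1, 0)

def bti (z : ℕ × ℕ) : ℕ × ℕ :=
  if z.2 = 1 then (z.1 - 2, 0) else if z.2 = 2 then (z.1 + 1, 1) else (z.1, 2)

/-- to a hub -/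
def run : ℕ × ℕ → ℕ → Cn
  | z, 0 => [(true, z.1, z.2 + 1, 0)]
  | z, n + 1 => run (btn z) n ++ [(false, z.1, z.2, 7)]

/-- to a head -/
def fill : ℕ × ℕ → ℕ → Cn
  | z, 0 => [(false, z.1, z.2, 6)]
  | z, n + 1 => fill (bti z) n ++ [(true, z.1, z.2, 7)]

/-- the option `n` for the vertex `x` -/
def mn (x : Nm) (n : ℕ) : Cn :=
  if x.2.2 = 7 then run (x.1, x.2.1) n else if x.2.2 = 6 then fill (x.1, x.2.1) n
  else if n = 0 then [if x.2.2 ≤ 1 then (true, x.1, x.2.1, x.2.2 + 1) else (false, x)]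
  else if x.2.2 = 0 then fill (bti (x.1, x.2.1 - 1)) (n - 1) ++ [(false, x)]
  else if x.2.2 = 5 then run (btn (x.1, x.2.1)) (n - 1) ++ [(true, x.1, x.2.1, 6)]
  else [if x.2.2 = 1 then (false, x) else (true, x.1, x.2.1, 5)]

/-- the index of the type of the label at `x` -/
def sx (x : Nm) : ℕ := (3 * x.1 + (if x.2.2 ≤ 2 then
  (if x.2.1 = 1 then 11 else if x.2.1 = 2 then 6 else 10)
  else if x.2.1 = 0 then 0 else if x.2.1 = 1 then 7 else 11)) % 12

/-- the labels may be alive together -/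
def fine (x y : Nm) : Prop := ¬(y.2.2 = x.2.2 + 1 ∧ sx x = sx y) ∧
  ¬(x.2.2 = 0 ∧ y.2.2 = 5 ∧ (sx x + 12 - sx y) % 12 < 4)

instance (x y : Nm) : Decidable (fine x y) := inferInstanceAs (Decidable (_ ∧ _))

/-- the ports that are used -/
def used (l : List Cn) : List ℕ := (List.range 6).filter fun k => l.any (·.any (·.2.1 == k))

/-- two vertices of one system -/
def chkS (x y : Nm) (op : List (Cn × Cn)) : Bool :=
  op.all (fun o => ((chT o.1 x && chT o.2 y) || (chT o.1 y && chT o.2 x)) && op.all fun o' =>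
    decide (¬((tkn o.1).2.2 = (tkn o'.2).2.2 ∧ sx (tkn o.1) = sx (tkn o'.2)) ∧
      fine (tkn o.1) (tkn o'.1) ∧ fine (tkn o.1) (tkn o'.2) ∧ fine (tkn o.2) (tkn o'.1) ∧
      fine (tkn o.2) (tkn o'.2))) &&
  (orders [] (used (op.map Prod.fst ++ op.map Prod.snd)).length).all fun l => op.any fun o =>
    chkO (l.map (nth 0 (used (op.map Prod.fst ++ op.map Prod.snd))) ++ [7, 8]) o.1 o.2

/-- a vertex of a system and another point -/
def chkG (y : Nm) (op : List Cn) : Bool :=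
  op.all (fun o => chT o y && op.all fun o' => decide (fine (tkn o) (tkn o'))) &&
  (orders [.lt 0 1] (6 :: 7 :: used op).length).all fun l => op.any fun o =>
    chkO (l.map (nth 0 (6 :: 7 :: used op)) ++ [8]) [(false, 6, 1, 0)] o

/-- the first vertex of a pair -/
def nv (k d a c : ℕ) : Nm := (k + (if d = 2 then 1 else 0), a, c)

/-- the second vertex of a pair -/
def nw (k d a c : ℕ) : Nm := (k + (if d = 1 then 1 else 0), if c = 7 then a else a + 1, c)

/-- adjacent or cold -/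
def skip (c c' d a a' : ℕ) : Prop := c = 6 ∧ c' = 7 ∧ ((d = 0 ∧ a = a') ∨
  (sx (nw 0 d a' 0) + 12 - sx (nv 0 d a 5)) % 12 < 4)

instance (c c' d a a' : ℕ) : Decidable (skip c c' d a a') := inferInstanceAs (Decidable (_ ∧ _))

/-- an entry of a table -/
def ent (x y : Nm) (l : List ℕ) : List (Cn × Cn) := l.map fun n =>
  if n % 2 = 0 then (mn x (n / 8), mn y (n / 2 % 4)) else (mn y (n / 2 % 4), mn x (n / 8))

/-- a table -/
def chkT (c c' : ℕ) (T : List (List ℕ)) : Bool :=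
  (List.range 3).all fun d => (List.range 3).all fun a => (List.range 3).all fun a' =>
    decide (skip c c' d a a') ||
      chkS (nv (nth 0 (nth [] T (9 * d + 3 * a + a')) 0) d a c)
        (nw (nth 0 (nth [] T (9 * d + 3 * a + a')) 0) d a' c')
        (ent (nv (nth 0 (nth [] T (9 * d + 3 * a + a')) 0) d a c)
          (nw (nth 0 (nth [] T (9 * d + 3 * a + a')) 0) d a' c')
          (nth [] T (9 * d + 3 * a + a')).tail)

theorem chkT_ok {c c' : ℕ} {T : List (List ℕ)} (h : chkT c c' T = true) {d a a' : ℕ} (hd : d < 3)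
    (ha : a < 3) (ha' : a' < 3) (k : ¬skip c c' d a a') :
    ∃ n op, chkS (nv n d a c) (nw n d a' c') op = true := by
  simp only [chkT, List.all_eq_true, List.mem_range, Bool.or_eq_true, decide_eq_true_eq] at h
  exact ⟨_, _, (h d hd a ha a' ha').resolve_left k⟩

theorem tab67 : chkT 6 7
    [[], [0, 8], [0, 2], [0, 0], [], [], [], [0, 0], [], [], [0, 2], [], [2, 8, 0, 16], [], [0, 0,
    2], [], [0, 2], [], [0, 0, 8], [], [0, 0, 2], [], [1, 2, 8], [], [0, 2, 8], [1, 2, 0, 4],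
    [0, 0, 2]] = true := by decide +kernel

theorem tab60 : chkT 6 0
    [[0, 2], [0, 8], [0, 8], [0, 0], [2, 3, 8], [2, 8, 16], [0, 0], [0, 0], [0, 3, 8], [0, 2], [0,
    0, 8], [0, 0, 8], [0, 2], [1, 4, 0, 2], [0, 4, 6], [0, 2], [0, 8], [0, 8], [0, 2], [0, 0,
    8], [0, 0, 8], [0, 2], [2, 4, 0, 2], [1, 4, 16], [0, 2], [2, 4, 0, 2], [0, 1, 3]] = true := by decide +kernel

theorem tab57 : chkT 5 7
    [[0, 2, 9], [1, 2, 4], [0, 2], [0, 0], [1, 2, 9], [0, 2], [0, 0], [0, 0], [0, 2], [0, 2, 16,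
    18], [0, 2], [0, 0, 2], [1, 16, 0, 8], [0, 2], [0, 0, 2], [0, 8], [0, 2], [0, 8], [0, 2,
    0, 6], [1, 2, 0, 4], [0, 0, 2], [0, 1, 9], [0, 1, 9], [0, 11], [0, 8], [0, 8], [0, 8]] = true := by decide +kernel

theorem tab50 : chkT 5 0
    [[0, 2], [2, 2, 4], [1, 21, 29], [0, 0], [2, 2, 4], [1, 13], [0, 0], [0, 0], [0, 8], [0, 2],
    [0, 16, 24], [0, 2, 8, 10], [0, 2], [1, 0, 13], [0, 4, 6], [0, 2], [0, 8], [0, 8], [0, 2],
    [2, 4, 0, 2], [1, 4, 6], [0, 2], [0, 1, 9], [0, 16], [0, 2], [0, 8], [0, 8]] = true := by decide +kernel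

theorem tab61 : chkT 6 1
    [[0, 2], [0, 2], [0, 2], [0, 0], [0, 2], [2, 10], [0, 0], [0, 0], [0, 2], [0, 0, 8], [0, 0,
    2], [0, 0, 8], [0, 0, 2], [2, 8, 0, 16], [0, 0, 2], [0, 8], [0, 8], [0, 8], [0, 0, 2], [0,
    0, 8], [0, 0, 2], [1, 8, 0, 16], [0, 0, 2], [1, 8, 0, 16], [0, 0, 2], [0, 0, 2], [0, 0,
    2]] = true := by decide +kernel

theorem tab47 : chkT 4 7
    [[0, 8], [0, 8], [0, 8], [0, 0], [0, 8], [0, 2], [0, 0], [0, 0], [0, 8], [0, 2, 0, 4, 6], [0,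
    2], [0, 0, 2], [0, 0, 8], [0, 2], [0, 0, 8], [0, 2, 0, 4, 6], [0, 2], [0, 0, 2], [0, 0,
    8], [1, 2, 0, 4], [0, 0, 8], [0, 2, 0, 6], [0, 0, 8], [0, 0, 2], [0, 0, 8], [0, 0, 8], [0,
    0, 8]] = true := by decide +kernel

theorem tabG : ((List.range 3).all fun a =>
    chkG (2, a, 7) ((List.range (if a = 0 then 4 else 4 - a)).map (mn (2, a, 7))) &&
      chkG (2, a + 1, 0) ((List.range (a + 2)).map (mn (2, a + 1, 0)))) = true := by decide +kernel

end Pool.Agent.P.MP_439f1f_co.Mu
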