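import Pool.Agent.P.MP_439f1f_co.Sv1

/-!
Two closed living sets of classes without conditions; states with trees kept out of the items.
-/

set_option autoImplicit false
set_option linter.unusedSectionVars false

namespace Pool.Agent.P.MP_439f1f_co

variable {K N : Type} {r r0 q D e b : ℕ}

/-- two disjoint sets of classes without any condition between them -/
theorem Par.TA.flat {A : Bool → Set (Kl K r r0)}
    (stg : ∀ i, ∀ T ∈ A i, ∀ T' ∈ A i, T.stg = T'.stg) (dis : ∀ T ∈ A false, T ∉ A true)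
    (h : ∀ i i', ∀ T ∈ A i, ∀ T' ∈ A i', ¬T.Con T' ∧ ¬T.Jun T' ∧ ¬T.Lz T')
    (h' : ∀ i, ∀ T ∈ A i, (∀ w c l, T.1 ≠ (.tN w c l, .H)) ∧ ∀ w c k, T.1 ≠ (.hM w c k, .Z)) :
    (Par.base r r0 D).TA A := by
  have m : ∀ a T, (Par.base r r0 D).At A a T → ∃ i, T ∈ A i := by
    rintro (_ | i) T ⟨d, -⟩
    · simp [Mt, base] at d
    · exact ⟨i, d⟩
  refine ⟨stg, by simp [base], by simp [base], ?_, by simp [base], fun a T c d => ?_,
    fun a a' T T' d d' f => ?_, fun a a' T T' d d' f => ?_, fun a a' T T' w c k d _ f => ?_,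
    fun a a' T T' w c k k' d _ f => ?_, fun a a' T T' d d' => ?_, by simp [base], by simp [base],
    fun a T w c k d f => ?_, by simp [base], by simp [base], by simp [base], by simp [base]⟩
  · rintro (_ | i) (_ | i') T d d'
    · rfl
    · simp [Mt, base] at d
    · simp [Mt, base] at d'
    · cases i <;> cases i'
      exacts [rfl, absurd d' (dis T d), absurd d (dis T d'), rfl]
  all_goals obtain ⟨i, g⟩ := m a T d
  · exact ⟨fun w l f => absurd f ((h' i T g).1 _ _ _), by simp [base]⟩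
  · exact let ⟨i', g'⟩ := m a' T' d'; absurd f (h i i' T g T' g').1
  · exact let ⟨i', g'⟩ := m a' T' d'; absurd f (h i i' T g T' g').2.1
  · exact absurd f ((h' i T g).2 _ _ _)
  · exact absurd f ((h' i T g).2 _ _ _)
  · exact let ⟨i', g'⟩ := m a' T' d'; (h i i' T g T' g').2.2
  · exact absurd f ((h' i T g).2 _ _ _)

variable [DecidableEq K] [Finite K] [Finite N] [Nonempty K]

/-- the trees of `E` are kept out of every item that has the stage of the item `i0` -/
theorem Fw.exists_st2 (V : Fw K N r r0 q D e b) (g : Fin 64) {π : Par r r0 D}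
    {A : Bool → Set (Kl K r r0)} (h : π.TA A) (i0 : Bool) (E : List (Kl K r r0))
    (len : E.length ≤ 6) :
    ∃ j, V.St g π A [] j ∧ ∀ i, (∀ x ∈ A i, ∃ y ∈ A i0, x.stg = y.stg) →
      ∀ T ∈ E, V.Role j (some i) T → T ∈ A i := by
  classical
  have k : ∀ i, ∃ z, ∀ T ∈ A i, T.stg = z := fun i => by
    rcases (A i).eq_empty_or_nonempty with c | ⟨T, c⟩
    exacts [⟨Classical.arbitrary K, by simp [c]⟩, ⟨_, fun T' d => h.stg i T' d T c⟩]
  choose z hz using k
  obtain ⟨w, a1, a2⟩ := V.shat (z false :: z true :: E.map Kl.stg) (fun a => decide (a = z i0))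
    (by simp; omega)
  have b1 : ∀ i, w (z i) = decide (z i = z i0) := fun i => a1 _ (by cases i <;> simp)
  obtain ⟨j, c1, c2, c3⟩ := a2 g _ (h.adm (s := fun i => decide (z i = z i0))
    fun i i' d T f T' f' => by
      rw [hz i T f, hz i' T' f']
      cases i <;> cases i' <;> cases i0 <;> simp_all)
  refine ⟨j, ⟨c1, ⟨_, c2⟩, fun i T c d => ⟨d, ?_⟩, by simp⟩, fun i s T c d => ?_⟩
  · rw [c2, c3]
    exact ⟨⟨T, c, rfl⟩, fun s f => by rw [hz i T c, b1]; exact Option.some.inj f⟩
  · have d := d.2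
    rw [c2, c3] at d
    obtain ⟨⟨x, d1, d2⟩, d3⟩ := d
    obtain ⟨y, s1, s2⟩ := s x d1
    have f : z i = z i0 := (hz i x d1).symm.trans (s2.trans (hz i0 y s1))
    have d3 := d3 _ rfl
    rw [a1 _ (List.mem_cons_of_mem _ (List.mem_cons_of_mem _ (List.mem_map_of_mem c))),
      decide_eq_decide] at d3
    exact Kl.ext_kind d2 ((hz i x d1).trans (f.trans (d3.2 f).symm)) ▸ d1

end Pool.Agent.P.MP_439f1f_co
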