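import Pool.Agent.P.MP_439f1f_co.Rk1
import Pool.Agent.P.MP_439f1f_co.Rl7
import Pool.Agent.P.MP_439f1f_co.Rl8
import Pool.Agent.P.MP_439f1f_co.Sv2

/-!
Service of the points of a system by the menus.
-/

set_option autoImplicit false
set_option linter.unusedSectionVars false

namespace Pool.Agent.P.MP_439f1f_co

open Function SimpleGraph Sum Mu

variable {K N : Type} {r r0 q D e b : ℕ} [DecidableEq K] [Finite K] [Finite N] [Nonempty K]

theorem Mu.sx_lt (x : Nm) : sx x < 12 := Nat.mod_lt _ (by omega)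

theorem Mu.chT_tkv {L : Mu.Cn} {x : Nm} (h : chT L x = true) : tkv (tkn L) ∧ (tkn L).1 < 6 := by
  obtain _ | ⟨⟨d, z⟩, L⟩ := L
  · simp [chT] at h
  simp only [chT, Bool.and_eq_true, decide_eq_true_eq] at h
  refine ⟨h.1.2.2, ?_⟩
  cases d
  · simp only [tkn, List.headD_cons, jn, cond_false, prd]
    split_ifs <;> exact h.1.2.1
  · exact h.1.2.1

theorem Mu.used_lt {l : List Mu.Cn} {k : ℕ} (h : k ∈ used l) : k < 6 :=
  List.mem_range.1 (List.mem_filter.1 h).1

theorem Mu.used_nd (l : List Mu.Cn) : (used l).Nodup := List.nodup_range.filter _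

theorem zsub {a c : ℕ} (h : a < 12) (h' : c < 12) :
    ((a : ZMod 12) - c).val = (a + 12 - c) % 12 :=
  (by decide : ∀ a c : Fin 12, (((a : ℕ) : ZMod 12) - (c : ℕ)).val = (a + 12 - c) % 12) ⟨a, h⟩ ⟨c, h'⟩

namespace Wd

variable {β : Type} [LinearOrder β] (W : Wd K N β r r0 q D e b) (s : K) (y : Pt K N)

open Classical in
/-- the slot at a vertex -/
noncomputable def sg (x : Nm) : Slot (r + 1) :=
  if h : ∃ σ, W.S.At (W.ln s y x.1 x.2.1) (fc r x.2.2) (decide (3 ≤ x.2.2)) σ then h.choose else .H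

/-- the label at a vertex -/
noncomputable def tk (x : Nm) : N := W.S.sn (W.ln s y x.1 x.2.1) (decide (3 ≤ x.2.2)) (W.sg s y x)

/-- its type -/
noncomputable def tyx (x : Nm) : HT K r0 :=
  if 3 ≤ x.2.2 then .hS (s, W.S.fam s y) (W.S.idx s (y, 0) + sx x) (W.S.pc s (W.pt s y x.1))
  else .tS (s, W.S.fam s y) (W.S.idx s (y, 0) + sx x) (W.S.pc s (W.pt s y x.1))

variable {W s y} {k i : ℕ} {x x' : Nm}

theorem fam_pt : W.S.fam s (W.pt s y k) = W.S.fam s y := by
  induction k with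
  | zero => rfl
  | succ k ih => rw [pt_succ, W.S.rng.famn, ih]

theorem tag_pt : W.S.tag s (W.pt s y k) = W.S.tag s y + k := by
  induction k with
  | zero => exact (add_zero _).symm
  | succ k ih => rw [pt_succ, W.S.tagn, ih, Nat.cast_succ, add_assoc]

theorem idx_pt (h : k < 6) (h' : i < 3) :
    W.S.idx s (W.pt s y k, Fin.ofNat 3 i) = W.S.idx s (y, 0) + (sx (k, i, 5) : ℕ) := by
  rw [Pre.idx, tag_pt]
  exact (by decide : ∀ (t : ZMod 4) (k : Fin 6) (i : Fin 3), ixt (t + (k : ℕ)) (Fin.ofNat 3 i) =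
    ixt t 0 + (sx (k, i, 5) : ℕ)) _ ⟨k, h⟩ ⟨i, h'⟩

theorem idx_pt' (h : k < 6) (h' : i < 3) :
    W.S.idx s (W.pt s y k, Fin.ofNat 3 i) - 1 = W.S.idx s (y, 0) + (sx (k, i + 1, 0) : ℕ) := by
  rw [idx_pt h h', add_sub_assoc]
  exact congrArg _ ((by decide : ∀ (k : Fin 6) (i : Fin 3), ((sx (k, i, 5) : ℕ) : ZMod 12) - 1 =
    (sx (k, i + 1, 0) : ℕ)) ⟨k, h⟩ ⟨i, h'⟩)

theorem at_tk (h : tkv x) :
    W.S.At (W.ln s y x.1 x.2.1) (fc r x.2.2) (decide (3 ≤ x.2.2)) (W.sg s y x) := by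
  have : ∃ σ, W.S.At (W.ln s y x.1 x.2.1) (fc r x.2.2) (decide (3 ≤ x.2.2)) σ := by
    obtain ⟨k, i, c⟩ := x
    unfold tkv at h
    dsimp only at *
    rcases c.eq_zero_or_pos with rfl | d
    · obtain ⟨i, rfl⟩ : ∃ i', i = i' + 1 := ⟨i - 1, by omega⟩
      exact ⟨_, W.S.sys_H _⟩
    · obtain ⟨u, σ, a⟩ := W.S.at_mid (W.ln s y k i) (i := fc r c)
        (by unfold fc; split_ifs <;> omega) (by unfold fc; split_ifs <;> omega)
      have := a.half
      obtain rfl : u = decide (3 ≤ c) := by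
        unfold fc at this
        split_ifs at this <;> cases u <;> simp at this ⊢ <;> omega
      exact ⟨σ, a⟩
  rw [sg, dif_pos this]
  exact this.choose_spec

theorem typ_tk (h : tkv x) (h' : x.1 < 6) :
    W.S.typ (W.ln s y x.1 x.2.1) (decide (3 ≤ x.2.2)) = W.tyx s y x := by
  obtain ⟨k, i, c⟩ := x
  unfold tkv at h
  dsimp only [tyx] at *
  split_ifs with d
  · rw [decide_eq_true d, Pre.typ, dA_ln (by omega), ln, Pre.ht, fam_pt, idx_pt h' (by omega)]
    simp only [sx, show ¬c ≤ 2 by omega, show ¬5 ≤ 2 by omega, if_false]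
  · obtain ⟨i, rfl⟩ : ∃ i', i = i' + 1 := ⟨i - 1, by omega⟩
    rw [decide_eq_false d, Pre.typ, ln, Pre.tt, fam_pt, idx_pt' h' (by omega)]
    simp only [sx, show c ≤ 2 by omega, show 0 ≤ 2 by omega, if_true]

theorem wor_tyx : (W.tyx s y x).wor = (s, W.S.fam s y) := by unfold tyx; split_ifs <;> rfl

theorem sx_tyx (h : W.tyx s y x = W.tyx s y x') : sx x = sx x' := by
  have : ((sx x : ℕ) : ZMod 12) = (sx x' : ℕ) := by
    unfold tyx at h
    split_ifs at h <;> simp_all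
  rwa [ZMod.natCast_eq_natCast_iff', Nat.mod_eq_of_lt (sx_lt x), Nat.mod_eq_of_lt (sx_lt x')] at this

section
variable (W s y) (hD : 1 ≤ D) (h : tkv x ∧ x.1 < 6)
include hD h

theorem val_tk : (W.F.tree (W.tk s y x)).1 = (W.tyx s y x, W.sg s y x) :=
  ((at_tk h.1).val hD).trans (by rw [typ_tk h.1 h.2])

theorem wor_tk : (W.F.tree (W.tk s y x)).ty.wor = (s, W.S.fam s y) := by
  rw [Kl.ty_val (W.val_tk s y hD h), wor_tyx]

theorem shape_tk : (∀ w c l, (W.F.tree (W.tk s y x)).1 ≠ (.tN w c l, .H)) ∧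
    ∀ w c k, (W.F.tree (W.tk s y x)).1 ≠ (.hM w c k, .Z) := by
  rw [W.val_tk s y hD h, tyx]
  split_ifs <;> simp

variable (h' : tkv x' ∧ x'.1 < 6)
include h'

theorem same_tk (c : W.F.tree (W.tk s y x) = W.F.tree (W.tk s y x')) :
    x.2.2 = x'.2.2 ∧ sx x = sx x' := by
  refine ⟨by_contra fun d => (at_tk h.1).tree_ne hD (at_tk h'.1) ?_ c, sx_tyx (W := W) (s := s)
    (y := y) (by rw [← Kl.ty_val (W.val_tk s y hD h), c, Kl.ty_val (W.val_tk s y hD h')])⟩
  unfold fc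
  split_ifs <;> omega

theorem fine_tk (f : fine x x') : ¬(W.F.tree (W.tk s y x)).Con (W.F.tree (W.tk s y x')) ∧
    ¬(W.F.tree (W.tk s y x)).Jun (W.F.tree (W.tk s y x')) ∧
    ¬(W.F.tree (W.tk s y x)).Lz (W.F.tree (W.tk s y x')) := by
  have a := at_tk (W := W) (s := s) (y := y) h.1
  have a' := at_tk (W := W) (s := s) (y := y) h'.1
  refine ⟨fun c => f.1 ⟨?_, sx_tyx (W := W) (s := s) (y := y) ?_⟩, fun c => ?_, fun c => f.2 ?_⟩
  · have := (a.con hD a' c).2
    unfold fc at this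
    split_ifs at this <;> omega
  · rw [← typ_tk h.1 h.2, (a.con hD a' c).1, typ_tk h'.1 h'.2]
  · have := (a.jun hD a' c).1
    unfold fc at this
    split_ifs at this <;> omega
  · obtain ⟨a1, a2⟩ := a.lz hD a' c
    have b1 : x.2.2 = 0 := by unfold fc at a1; split_ifs at a1 <;> omega
    have b2 : x'.2.2 = 5 := by unfold fc at a2; split_ifs at a2 <;> omega
    obtain ⟨_, _, _, _, _, c1, c2, c3⟩ := c
    rw [W.val_tk s y hD h, tyx, if_neg (by omega)] at c1
    rw [W.val_tk s y hD h', tyx, if_pos (by omega)] at c2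
    simp only [Prod.mk.injEq, HT.tS.injEq, HT.hS.injEq] at c1 c2
    rw [← c1.1.2.1, ← c2.1.2.1, add_sub_add_left_eq_sub, zsub (sx_lt x) (sx_lt x')] at c3
    exact ⟨b1, b2, c3⟩

end

end Wd

namespace Fw

variable {V : Fw K N r r0 q D e b} {s j : K} {y : Pt K N} {A : Bool → Set (Kl K r r0)}
  {g : Fin 64} {t t' : Bool → N} {L : Hub K N (Pt K N) r0} {i : ℕ} {x x' : Nm}

variable (V s y) in
theorem setup (ta : (Par.base r r0 D).TA A) (L : Hub K N (Pt K N) r0) :
    ∃ g j, s ≠ j ∧ V.W.Far j L ∧ V.St g (Par.base r r0 D) A [] j ∧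
      ∀ i, (∀ T ∈ A i, T.ty.wor = (s, V.W.S.fam s y) ∧ ∃ T' ∈ A true, T.stg = T'.stg) →
        ∀ k < 6, ∀ n, V.W.In (V.W.ln s y k 1) n → ¬V.Role j (some i) (V.F.tree n) := by
  obtain ⟨g, a⟩ := V.W.exists_grp V.grp [L, V.W.ln s y 0 1] (by simp)
  have k : ∀ k, ∃ T, ∀ n, V.W.In (V.W.ln s y k 1) n → V.F.tree n = T := fun k => by
    by_cases c : ∃ n, V.W.In (V.W.ln s y k 1) n
    · obtain ⟨n, c⟩ := c
      exact ⟨_, fun n' d => by rw [d.unique c]⟩
    · exact ⟨⟨(.tE (s, true) 0 0, .H), trivial⟩, fun n d => absurd ⟨n, d⟩ c⟩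
  choose T hT using k
  obtain ⟨j, st, h⟩ := V.exists_st2 g ta true ((List.range 6).map T) (by simp)
  refine ⟨g, j, (a (V.W.ln s y 0 1) (by simp) j st.grp).typ false, a L (by simp) j st.grp, st,
    fun i c k hk n d f => V.W.wor_ne d ?_⟩
  rw [Wd.fam_pt]
  exact (c _ (h i (fun T a => (c T a).2) _
    (hT k n d ▸ List.mem_map_of_mem (List.mem_range.2 hk)) f)).1

section
variable (st : V.St g (Par.base r r0 D) A [] j)
include st

theorem St.rs (ta : (Par.base r r0 D).TA A)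
    (h : ∀ i, V.F.tree (t i) ∈ A i ∧ (V.F.tree (t i)).stg ≠ j ∧ V.F.lev (t i) = D) :
    V.Rs j (fun _ => 0) t :=
  ⟨.of_tree (fun i => (st.liv (h i).1 (h i).2.1 rfl).run rfl (by rw [(h i).2.2, V.od])
      (V.F.surj _).1) fun i i' c =>
      Option.some.inj (ta.dis (some i) (some i') _ (h i).1 (c ▸ (h i').1)),
    fun i => ⟨_, st.role i _ (h i).1 (h i).2.1⟩⟩

theorem St.inF (h : ∀ i n, V.W.Bk j L n → ¬V.Role j (some i) (V.F.tree n)) : V.InF j L := by
  rintro n c (_ | i) d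
  exacts [d.op st.op, h i n c d]

theorem St.top (k : V.Rs j (fun _ => 0) t) (c : V.Role j (some true) (V.F.tree (t true)))
    (h : ∀ n, V.W.Bk j L n → ¬V.Role j (some true) (V.F.tree n)) :
    V.vr j (fun _ => 0) t (pz L i) < V.vr j (fun _ => 0) t (pz (V.W.cut 0 (t true)) 0) := by
  rcases V.inF_or j L with d | ⟨_ | _ | _, n, d, d'⟩
  exacts [k.F_cut d true, absurd st.op d'.op,
    k.II ⟨n, d, d'⟩ (k.inI_cut (g := true) c) st.rook (by simp [Par.zi]), absurd d' (h n d)]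

end

theorem Rs.not_top (k : V.Rs j (fun _ => 0) t) (c : V.Role j (some false) (V.F.tree (t false)))
    (n : N) (d : V.W.Bk j (V.W.cut 0 (t false)) n) : ¬V.Role j (some true) (V.F.tree n) :=
  fun f => let ⟨_, a1, a2⟩ := k.inI_cut (g := false) c
    nomatch (a1.unique d ▸ a2).eq f

theorem pt_inj (V : Fw K N r r0 q D e b) (s : K) (y : Pt K N) :
    ∀ k < 6, ∀ k' < 6, V.W.pt s y k = V.W.pt s y k' → k = k' :=
  fun _ h _ h' => V.W.ring_long s y h h'

theorem ln_inj {k k' : ℕ} (h : k < 6) (h' : k' < 6) (c : V.W.ln s y k 1 = V.W.ln s y k' 1) :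
    k = k' := V.pt_inj s y k h k' h' (Prod.ext_iff.1 (Prod.ext_iff.1 (inr.inj c)).2).1

variable (V s y) in
/-- **Two points of one system.** -/
theorem sv_tab {op : List (Mu.Cn × Mu.Cn)} (ok : chkS x x' op = true)
    (ne : V.W.vx s y x ≠ V.W.vx s y x') : V.W.Sv (V.W.vx s y x) (V.W.vx s y x') := by
  simp only [chkS, Bool.and_eq_true, List.all_eq_true (l := op), Bool.or_eq_true,
    decide_eq_true_eq] at ok
  obtain ⟨ok, ok'⟩ := ok
  have hD := V.D_pos
  have tv : ∀ o ∈ op, ∀ i, tkv (tkn (cond i o.2 o.1)) ∧ (tkn (cond i o.2 o.1)).1 < 6 :=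
    fun o c i => by cases i <;> rcases (ok o c).1 with d | d <;>
      first | exact chT_tkv d.1 | exact chT_tkv d.2
  let t : Mu.Cn × Mu.Cn → Bool → N := fun o i => V.W.tk s y (tkn (cond i o.2 o.1))
  have ta : (Par.base r r0 D).TA fun i => {T | ∃ o ∈ op, T = V.F.tree (t o i)} := by
    refine .flat ?_ ?_ ?_ ?_
    · rintro i _ ⟨o, c, rfl⟩ _ ⟨o', c', rfl⟩
      exact (congrArg Prod.fst (V.W.wor_tk s y hD (tv o c i))).trans
        (congrArg Prod.fst (V.W.wor_tk s y hD (tv o' c' i))).symm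
    · rintro _ ⟨o, c, rfl⟩ ⟨o', c', d⟩
      exact ((ok o c).2 o' c').1 (V.W.same_tk s y hD (tv o c false) (tv o' c' true) d)
    · rintro i i' _ ⟨o, c, rfl⟩ _ ⟨o', c', rfl⟩
      refine V.W.fine_tk s y hD (tv o c i) (tv o' c' i') ?_
      have := ((ok o c).2 o' c').2
      cases i <;> cases i'
      exacts [this.1, this.2.1, this.2.2.1, this.2.2.2]
    · rintro i _ ⟨o, c, rfl⟩
      exact V.W.shape_tk s y hD (tv o c i)
  obtain ⟨g, j, c, -, st, h⟩ := V.setup s y ta (V.W.ln s y 0 1)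
  have hs : ∀ o ∈ op, ∀ i, (V.F.tree (t o i)).stg = s := fun o d i =>
    congrArg Prod.fst (V.W.wor_tk s y hD (tv o d i))
  have k : ∀ o ∈ op, V.Rs j (fun _ => 0) (t o) := fun o d => st.rs ta fun i =>
    ⟨⟨o, d, rfl⟩, (hs o d i).symm ▸ c, V.W.S.lev_sn hD _ _ _⟩
  have ro : ∀ o ∈ op, ∀ i, V.Role j (some i) (V.F.tree (t o i)) := fun o d i =>
    st.role i _ ⟨o, d, rfl⟩ ((hs o d i).symm ▸ c)
  have f : ∀ n < 6, ∀ i ≤ 3, V.InF j (V.W.ln s y n i) := fun n hn i hi => st.inF fun a m d =>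
    h a (by
      rintro _ ⟨o, d, rfl⟩
      exact ⟨V.W.wor_tk s y hD (tv o d a), _, ⟨o, d, rfl⟩, (hs o d a).trans (hs o d true).symm⟩)
      n hn m (Wd.bk_ln c hi d)
  obtain ⟨o, d, u, a1, a2⟩ := alt (R := fun o a a' =>
      V.vr j (fun _ => 0) (t o) (V.rq s y (pz (nl (V.W.tk s y x)) 0) (t o) (a, 1, 0)) <
      V.vr j (fun _ => 0) (t o) (V.rq s y (pz (nl (V.W.tk s y x)) 0) (t o) (a', 1, 0)))
    (f := fun u o => chkO u o.1 o.2) (fun a => V.fq j (pz (V.W.ln s y a 1) 0)) (used_nd _)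
    (fun a d a' d' f => ln_inj (used_lt d) (used_lt d')
      (fr_inj (congrArg (fun p => (ofLex p).1) f))) (by simp)
    (fun o d a b1 a' b2 b3 => by
      rw [rq, Wd.rp_lo (used_lt b1), Wd.rp_lo (used_lt b2)]
      exact (k o d).FF (f a (used_lt b1) 1 (by omega)) (f a' (used_lt b2) 1 (by omega)) b3)
    (tl := [7, 8]) (fun o d => ⟨by
        refine List.pairwise_pair.2 ?_
        exact st.top (i := 0) (k o d) (ro o d true) ((k o d).not_top (ro o d false)),
      fun a b1 => by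
        rw [rq, Wd.rp_lo (used_lt b1)]
        refine List.forall_mem_cons.2 ⟨?_, List.forall_mem_singleton.2 ?_⟩
        exacts [(k o d).F_cut (f a (used_lt b1) 1 (by omega)) false,
          (k o d).F_cut (f a (used_lt b1) 1 (by omega)) true]⟩) ok'
  have ch := fun i z (hz : chT (cond i o.2 o.1) z = true) => Wd.ch_chT (s := s) (y := y)
    (ω := pz (nl (V.W.tk s y x)) 0) (a := pz (V.W.cut 0 (t o false)) 0)
    (a' := pz (V.W.cut 0 (t o true)) 0) c (k o d).toRs hz (Wd.at_tk (tv o d i).1).hang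
  have co : ∀ z z', chT o.1 z = true → chT o.2 z' = true → V.W.vx s y z ≠ V.W.vx s y z' →
      V.W.Sv (V.W.vx s y z) (V.W.vx s y z') := by
    intro z z' h1 h2 ne _ _
    exact (k o d).core c (fun n hn i hi => (k o d).F_cut (f n hn i (by omega)) true)
      (V.pt_inj s y) (fun _ _ => Wd.ou_nl _) (ch false _ h1) (ch true _ h2) ne a1 a2
  intro _ _
  rcases (ok o d).1 with b1 | b1
  · exact co _ _ b1.1 b1.2 ne
  · exact Wd.Sv.symm (co _ _ b1.1 b1.2 ne.symm)

variable (V s y) in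
/-- **A point of a system and a point of another world.** -/
theorem sv_gen {op : List Mu.Cn} (ok : chkG x op = true) {v : Vx K N (Pt K N) r r0} {f : Bool}
    {σ : Slot (r + 1)} (a : V.W.S.Acc false v L i f σ) (h1 : 2 * r + 6 ≤ i) (h2 : i ≤ 2 * r + 8)
    (sb : V.W.SB (V.W.ln s y 2 1) L)
    (hw : ∀ z, V.W.S.O.dA L = inr (s, z) → V.W.S.fam s z.1 ≠ V.W.S.fam s y)
    (ne : v ≠ V.W.vx s y x) : V.W.Sv v (V.W.vx s y x) := by
  simp only [chkG, Bool.and_eq_true, List.all_eq_true (l := op), decide_eq_true_eq] at ok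
  obtain ⟨ok, ok'⟩ := ok
  have hD := V.D_pos
  obtain rfl : f = true := Bool.eq_true_of_not_eq_false fun c => by have := a.at.half.1 c; omega
  have tv : ∀ o ∈ op, tkv (tkn o) ∧ (tkn o).1 < 6 := fun o c => chT_tkv (ok o c).1
  let t : Mu.Cn → Bool → N := fun o i => cond i (V.W.tk s y (tkn o)) (V.W.S.sn L true σ)
  have kw : ∀ p c, V.W.S.typ L true ≠ .hS (s, V.W.S.fam s y) p c := fun p c d => by
    obtain ⟨-, z, f⟩ := Pre.typ_hS d
    rw [Pre.typ, f] at d
    exact hw z f (congrArg Prod.snd (HT.hS.inj d).1)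
  have kt : ∀ o ∈ op, (V.F.tree (t o false)).ty ≠ (V.F.tree (t o true)).ty := fun o c d => by
    have d := (Kl.ty_val (a.at.val hD)).symm.trans (d.trans (Kl.ty_val (V.W.val_tk s y hD (tv o c))))
    unfold Wd.tyx at d
    split_ifs at d
    exacts [kw _ _ d, nomatch (Pre.typ_tS d).1]
  have ta : (Par.base r r0 D).TA fun i =>
      cond i {T | ∃ o ∈ op, T = V.F.tree (t o true)} {V.F.tree (V.W.S.sn L true σ)} := by
    refine .flat ?_ ?_ ?_ ?_
    · rintro (_ | _)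
      · rintro _ rfl _ rfl
        rfl
      · rintro _ ⟨o, c, rfl⟩ _ ⟨o', c', rfl⟩
        exact (congrArg Prod.fst (V.W.wor_tk s y hD (tv o c))).trans
          (congrArg Prod.fst (V.W.wor_tk s y hD (tv o' c'))).symm
    · rintro _ rfl ⟨o, c, d⟩
      exact kt o c (congrArg Kl.ty d)
    · rintro (_ | _) (_ | _)
      · rintro _ rfl _ rfl
        exact ⟨Kl.Con.irr, Kl.Jun.irr, Kl.Lz.irr⟩
      · rintro _ rfl _ ⟨o, c, rfl⟩
        have z := Wd.at_tk (W := V.W) (s := s) (y := y) (tv o c).1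
        exact ⟨fun d => kt o c d.1, fun d => by have := (a.at.jun hD z d).1; omega,
          fun d => by have := (a.at.lz hD z d).1; omega⟩
      · rintro _ ⟨o, c, rfl⟩ _ rfl
        have z := Wd.at_tk (W := V.W) (s := s) (y := y) (tv o c).1
        refine ⟨fun d => kt o c d.1.symm, fun d => by have := (z.jun hD a.at d).2; omega, ?_⟩
        rintro ⟨w, _, _, _, _, d1, d2, -⟩
        obtain rfl : w = _ := (congrArg HT.wor (Kl.ty_val d1)).symm.trans
          (V.W.wor_tk s y hD (tv o c))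
        exact kw _ _ (a.at.of_val hD d2).1
      · rintro _ ⟨o, c, rfl⟩ _ ⟨o', c', rfl⟩
        exact V.W.fine_tk s y hD (tv o c) (tv o' c') ((ok o c).2 o' c')
    · rintro (_ | _)
      · rintro _ rfl
        exact ⟨fun _ _ _ d => by have := (a.at.pos_tN hD d).1; omega,
          fun _ _ _ d => by have := (a.at.pos_hM hD d).1; omega⟩
      · rintro _ ⟨o, c, rfl⟩
        exact V.W.shape_tk s y hD (tv o c)
  obtain ⟨g, j, c, far, st, h⟩ := V.setup s y ta L
  have h := h true (by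
    rintro _ ⟨o, d, rfl⟩
    exact ⟨V.W.wor_tk s y hD (tv o d), _, ⟨o, d, rfl⟩, rfl⟩)
  have hs : ∀ o ∈ op, ∀ i, (V.F.tree (t o i)).stg ≠ j := fun o d i => by
    cases i
    exacts [far.sn hD true σ, (congrArg Prod.fst (V.W.wor_tk s y hD (tv o d))).trans_ne c]
  have hm : ∀ o ∈ op, ∀ i, V.F.tree (t o i) ∈ (cond i {T | ∃ o ∈ op, T = V.F.tree (t o true)}
      {V.F.tree (V.W.S.sn L true σ)} : Set _) := fun o d i => by
    cases i
    exacts [rfl, ⟨o, d, rfl⟩]
  have k : ∀ o ∈ op, V.Rs j (fun _ => 0) (t o) := fun o d => st.rs ta fun i =>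
    ⟨hm o d i, hs o d i, by cases i <;> exact V.W.S.lev_sn hD _ _ _⟩
  have ro : ∀ o ∈ op, ∀ i, V.Role j (some i) (V.F.tree (t o i)) := fun o d i =>
    st.role i _ (hm o d i) (hs o d i)
  have f : ∀ n < 6, ∀ i ≤ 3, ∀ m, V.W.Bk j (V.W.ln s y n i) m →
      ¬V.Role j (some true) (V.F.tree m) := fun n hn i hi m d => h n hn m (Wd.bk_ln c hi d)
  have fL : V.InF j L := st.inF fun i n d z => by
    have d := far.bk.1 d
    cases i
    · obtain ⟨_, rfl, z⟩ := st.kind z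
      exact V.W.col_ne hD d true σ (Kl.col_of_kind z)
    · exact h 2 (by omega) n (sb.symm.in d) z
  have ou : ∀ n < 6, V.W.Oux s y n (pz L (i + 1)) := fun n _ => by
    have z : ∀ m ≤ 2, L ≠ V.W.ln s y n m := fun m d z =>
      hw _ (by rw [z, Wd.dA_ln d, Wd.ln]) Wd.fam_pt
    exact ⟨z 1 (by omega), z 2 le_rfl, fun _ => by rw [pz_val (by omega)]; omega,
      fun d => absurd d (z 0 (by omega))⟩
  have us : ∀ a ∈ 6 :: 7 :: used op, a = 6 ∨ a = 7 ∨ a < 6 := fun a d => by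
    simpa using (List.mem_cons.1 d).imp_right fun d => (List.mem_cons.1 d).imp_right used_lt
  have nd : (6 :: 7 :: used op).Nodup := by
    have := @used_lt op
    simp only [List.nodup_cons, List.mem_cons, used_nd, and_true]
    grind
  obtain ⟨o0, d0, -⟩ := alt (R := fun _ _ _ => True)
    (f := fun u o => chkO u [(false, 6, 1, 0)] o) id nd (fun _ _ _ _ => id)
    (by simp [Fm.Holds, nth]) (by simp) (by simp) ok'
  have P : ∀ a ∈ 6 :: 7 :: used op, ∃ L' i', (∀ o, V.rq s y (pz L (i + 1)) (t o) (a, 1, 0) =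
      pz L' i') ∧ ∀ m, V.W.Bk j L' m → ¬V.Role j (some true) (V.F.tree m) := fun a d => by
    rcases us a d with rfl | rfl | d
    exacts [⟨_, _, fun _ => rfl, fun m d => fL m d _⟩,
      ⟨_, _, fun _ => rfl, (k o0 d0).not_top (ro o0 d0 false)⟩,
      ⟨_, _, fun _ => Wd.rp_lo d, f a d 1 (by omega)⟩]
  have ag : ∀ o ∈ op, ∀ a ∈ 6 :: 7 :: used op,
      V.vr j (fun _ => 0) (t o0) (V.rq s y (pz L (i + 1)) (t o0) (a, 1, 0)) =
      V.vr j (fun _ => 0) (t o) (V.rq s y (pz L (i + 1)) (t o) (a, 1, 0)) := fun o d a d' => by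
    obtain ⟨L', i', b1, b2⟩ := P a d'
    have := (k o0 d0).toRs.vp_congr (u := L') (k o d).toRs (by
      rintro (_ | _)
      exacts [Or.inl rfl, Or.inr fun m z => ⟨fun z' => b2 m z (z' ▸ ro o0 d0 true :),
        fun z' => b2 m z (z' ▸ ro o d true :)⟩])
    rw [b1, b1]
    simp only [vr, pos2, rh, pz, this]
  obtain ⟨o, d, u, a1, a2⟩ := alt (R := fun o a a' =>
      V.vr j (fun _ => 0) (t o) (V.rq s y (pz L (i + 1)) (t o) (a, 1, 0)) <
      V.vr j (fun _ => 0) (t o) (V.rq s y (pz L (i + 1)) (t o) (a', 1, 0)))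
    (f := fun u o => chkO u [(false, 6, 1, 0)] o)
    (fun a => V.vr j (fun _ => 0) (t o0) (V.rq s y (pz L (i + 1)) (t o0) (a, 1, 0))) nd
    (fun a d a' d' z => by
      have z1 := Rts.Ok.vp_inj (V.W.lref j) (rh_inj (congrArg (fun p => (ofLex p).1) z))
      have z2 := ((k o0 d0).F_cut (i := i + 1) fL false).ne
      rcases us a d with rfl | rfl | d <;> rcases us a' d' with rfl | rfl | d'
      · rfl
      · exact absurd z z2
      · exact absurd (z1.trans (congrArg _ (Wd.rp_lo d'))) (ou _ d').1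
      · exact absurd z.symm z2
      · rfl
      · exact nomatch z1.trans (congrArg _ (Wd.rp_lo d'))
      · exact absurd (z1.symm.trans (congrArg _ (Wd.rp_lo d))) (ou _ d).1
      · exact nomatch z1.symm.trans (congrArg _ (Wd.rp_lo d))
      · rw [rq, Wd.rp_lo d, Wd.rp_lo d'] at z1
        exact ln_inj d d' z1)
    (by refine List.forall_mem_singleton.2 ?_; exact (k o0 d0).F_cut (i := i + 1) fL false)
    (fun o d a b1 a' b2 b3 => by rwa [← ag o d a b1, ← ag o d a' b2])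
    (fun o d => ⟨List.pairwise_singleton _ _, fun a b1 => List.forall_mem_singleton.2 (by
      obtain ⟨L', i', b2, b3⟩ := P a b1
      rw [b2]
      exact st.top (k o d) (ro o d true) b3)⟩) ok'
  intro _ _
  exact (k o d).core c (fun n hn i hi => st.top (k o d) (ro o d true) (f n hn i (by omega)))
    (V.pt_inj s y) ou (c1 := [(false, 6, 1, 0)]) ((k o d).toRs.ch_acc a)
    (Wd.ch_chT c (k o d).toRs (ok o d).1 (Wd.at_tk (tv o d).1).hang) ne a1 a2

end Fw

end Pool.Agent.P.MP_439f1f_co
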