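import Pool.Agent.P.MP_439f1f_co.B21
import Pool.Agent.P.MP_439f1f_co.Sv2

/-!
A moat hub that is reached through its moat.
-/

set_option autoImplicit false
set_option linter.unusedSectionVars false

namespace Pool.Agent.P.MP_439f1f_co

open Function SimpleGraph Sum

variable {K N β γ ι : Type} {r r0 q D e b : ℕ}

/-- half the length of the arc that ends at the hub `k` -/
def txs (r0 k : ℕ) : ℕ := if k % 2 = 1 then 0 else (r0 - k) / 2

/-- the entry from which the hub `k` is reached -/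
def txe (r0 k : ℕ) : ℕ := k + 2 * txs r0 k + 1

theorem txe_odd {k : ℕ} (h : k % 2 = 1) : txe r0 k = k + 1 := by simp [txe, txs, h]

theorem txe_even {k : ℕ} (ev : r0 % 2 = 0) (h : k % 2 = 0) (l : k ≤ r0) : txe r0 k = r0 + 1 := by
  simp only [txe, txs, h, Nat.zero_ne_one, if_false]
  omega

theorem txe_mod {k : ℕ} (ev : r0 % 2 = 0) (l : k ≤ r0) :
    txe r0 k % (r0 + 1) = if k % 2 = 1 then k + 1 else 0 := by
  split_ifs with h
  · rw [txe_odd h, Nat.mod_eq_of_lt (by omega)]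
  · rw [txe_even ev (by omega) l, Nat.mod_self]

variable [DecidableEq K] [LinearOrder β] [LinearOrder γ] [Finite K] [Finite N] [Nonempty K]

namespace Wd

variable {W : Wd K N β r r0 q D e b} {j : K} {l : ι → ℕ} {t : ι → N}
  {u w x : Vx K N (Pt K N) r r0} {b1 b2 : List Bool} {p1 p2 : List (Ps K N r r0)}
  {L L' : Hub K N (Pt K N) r0} {i i' c s : ℕ} {n : N} {o : Hub K N (Pt K N) r0 → γ}

theorem ml_valX (n : N) (k : Fin (r0 + 1)) : (ml n k : Hub K N (Pt K N) r0) = inl (inr (n, k)) :=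
  congrArg inl (mo_val n k)

/-- an arc that starts at the port -/
theorem arc_portX (h : c + 2 * s ≤ r0) (p : (W.port j n : ℕ) = c) : W.Arc j n c s :=
  ⟨by omega, fun i a => by rw [p, Nat.mod_eq_of_lt (by omega)]; omega⟩

theorem arc_tx (h : c ≤ r0) (p : (W.port j n : ℕ) = c) : W.Arc j n c (txs r0 c) :=
  arc_portX (by unfold txs; split_ifs <;> omega) p

/-- a loop of a payload block is an interval -/
theorem lp_itvX {z z' : Hub K N (Pt K N) r0} {y : Fin 4} (a : W.lp j z = inl (inl n, y))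
    (a' : W.lp j z' = inl (inl n, y)) (h : W.pos j z ≤ W.pos j L) (h' : W.pos j L ≤ W.pos j z') :
    W.lp j L = inl (inl n, y) := by
  obtain ⟨y', d⟩ := bl_iff.1 (Bk.itv (bl_iff.2 ⟨_, a⟩) (bl_iff.2 ⟨_, a'⟩) h h')
  rcases lt_trichotomy (W.lay j (inl n) y') (W.lay j (inl n) y) with f | f | f
  exacts [absurd (lt_of_lay d a f) h.not_gt, (W.lay j _).injective f ▸ d,
    absurd (lt_of_lay a' d f) h'.not_gt]

/-- two lines of a moat loop keep their order -/
theorem Rs.vp_loopX (k : W.Rs j l t) (h : W.lp j L = inl (inl n, 0))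
    (h' : W.lp j L' = inl (inl n, 0)) :
    W.vp j l t L < W.vp j l t L' ↔ W.pos j L < W.pos j L' := by
  have a : ∀ {z z'}, W.lp j z = inl (inl n, 0) → W.lp j z' = inl (inl n, 0) → ∀ m,
      W.pos j (nl m) < W.pos j z ∨ W.pos j z' < W.pos j (nl m) := fun a a' m => by
    by_contra d
    rw [not_or, not_lt, not_lt] at d
    simpa [lp_cold (cold_pay j _)] using lp_itvX a a' d.1 d.2
  exact (le_total (W.pos j L) (W.pos j L')).elim
    (fun d => k.ok.same_lt (W.lref j) (fun _ _ _ => a h h' _) le_rfl d d le_rfl)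
    fun d => k.ok.same_lt (W.lref j) (fun _ _ _ => a h' h _) d le_rfl le_rfl d

namespace Ro

variable (k : W.Ro j l t o)
include k

theorem o_loopX (h : W.lp j L = inl (inl n, 0)) (h' : W.lp j L' = inl (inl n, 0)) :
    o L < o L' ↔ W.pos j L < W.pos j L' := (k.lt_lp (h.trans h'.symm)).trans (k.toRs.vp_loopX h h')

theorem q_loopX (h : W.lp j L = inl (inl n, 0)) (h' : W.lp j L' = inl (inl n, 0))
    (a : W.pos j L < W.pos j L') : pos2 o (pz (r := r) L i) < pos2 o (pz (r := r) L' i') :=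
  pos2_lt.2 (Or.inl ((k.o_loopX h h').2 a))

theorem q_lineX (h : i < i') (h' : i' ≤ 2 * r + 10) :
    pos2 o (pz (r := r) L i) < pos2 o (pz (r := r) L i') :=
  pos2_lt.2 (Or.inr ⟨rfl, by rwa [Fin.lt_def, pz_val h', pz_val (h.le.trans h')]⟩)

theorem q_loopX' (h : W.lp j L = inl (inl n, 0)) (h' : W.lp j L' = inl (inl n, 0))
    (a : W.pos j L ≤ W.pos j L') (d : i < i') (d' : i' ≤ 2 * r + 10) :
    pos2 o (pz (r := r) L i) < pos2 o (pz (r := r) L' i') :=
  a.eq_or_lt.elim (fun a => pos_inj a ▸ k.q_lineX d d') (k.q_loopX h h')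

theorem of_vqX {p p' : Ps K N r r0} (h : W.lp j p.1 = W.lp j p'.1)
    (c : W.vq j l t p < W.vq j l t p') : pos2 o p < pos2 o p' :=
  pos2_lt.2 ((pos2_lt.1 c).imp (k.lt_lp h).2 fun c =>
    ⟨by rw [Rts.Ok.vp_inj (W.lref j) c.1], c.2⟩)

theorem ml_prvX (h : el (r0 + 1) (W.port j n) (i % (r0 + 1)) <
    el (r0 + 1) (W.port j n) (i' % (r0 + 1))) : pos2 o (pz (r := r) (ml n i) 0) <
      pos2 o (pz (r := r) (W.prv (mo n i')) (2 * r + 10)) :=
  k.of_vqX (lp_ml.trans (lp_prv (mo n i')).symm) (k.toRs.vq_ml_prv h)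

/-- the tail at the port comes before all other entries -/
theorem port_prvX (p : (W.port j n : ℕ) = c) (h : i % (r0 + 1) ≠ c) :
    pos2 o (pz (r := r) (ml n c) 0) < pos2 o (pz (r := r) (W.prv (mo n i)) (2 * r + 10)) :=
  k.ml_prvX (by
    have := (W.port j n).2
    have : i % (r0 + 1) < r0 + 1 := Nat.mod_lt i r0.succ_pos
    rw [p, Nat.mod_eq_of_lt (show c < _ by omega)]
    unfold el
    split_ifs <;> omega)

/-- an entry and the tail of a later hub -/
theorem prv_mlX (h : el (r0 + 1) (W.port j n) (i % (r0 + 1)) ≤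
    el (r0 + 1) (W.port j n) (i' % (r0 + 1))) :
    pos2 o (pz (r := r) (W.prv (mo n i)) (2 * r + 10)) < pos2 o (pz (r := r) (ml n i') c) :=
  k.q_loopX (lp_prv _) lp_ml ((prv_lt j _).trans_le (not_lt.1 fun d => (pos_ml.1 d).not_ge h))

variable (A : W.Arc j n c s)
include A

/-- **From the entry `c + 2 * s + 1` through the arc to the hub `c`.** -/
theorem serve_t1 (c1 : W.Ch j l t (inl none) b1 p1 u)
    (c2 : W.Ch j l t (inl none) b2 p2 (hv (nl (W.ell n (c + 2 * s + 1))))) (a : u ≠ hv (ml n c))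
    (hO : ∀ g, pz (W.cut (l g) (t g)) 0 ∈ p1 ++ p2) (fre : (p1 ++ p2).Forall (W.Fre j n c s))
    (F : List Fm) (ne : List (ℕ × ℕ)) (ok : chkC b1 (b2 ++ [false, true]) F ne = true)
    (hF : F.Forall (Fm.Holds fun y => pos2 o (nth (pz (ml n c) 0) (p1 ++ (p2 ++
      [pz (W.prv (mo n (c + 2 * s + 1))) (2 * r + 10), pz (ml n c) 0])) y)))
    (hn : ne.Forall fun y => nth (pz (ml n c) 0) (p1 ++ (p2 ++
      [pz (W.prv (mo n (c + 2 * s + 1))) (2 * r + 10), pz (ml n c) 0])) y.1 ≠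
        nth (pz (ml n c) 0) (p1 ++ (p2 ++
          [pz (W.prv (mo n (c + 2 * s + 1))) (2 * r + 10), pz (ml n c) 0])) y.2) :
    W.Sv u (hv (ml n c)) := by
  intro _ _
  refine k.serveM A (d := true) c1 (c2.app (ch_entry n _)) (adj_arc n _) .nil a (fun g => ?_) ?_
    F ne (by rwa [List.append_assoc]) (by rwa [List.append_assoc]) (by rwa [List.append_assoc])
  · have := hO g
    simp only [List.mem_append] at this ⊢
    tauto
  · simp only [List.forall_append, List.Forall] at fre ⊢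
    refine ⟨fre.1, ⟨fre.2, A.fre_prv fun y hy d => ?_⟩, trivial⟩
    have a := A.le
    have := (Nat.ModEq.add_left_cancel' c (Nat.ModEq.add_right_cancel' 1
      (show c + 2 * y + 1 ≡ c + 2 * s + 1 [MOD r0 + 1] from d))).eq_of_lt_of_lt (by omega)
      (by omega)
    omega

/-- **From the entry `c + 2 * s + 2` through one tail and the arc to the hub `c`.** -/
theorem serve_t2 (h : 2 * s + 1 ≤ r0) (c1 : W.Ch j l t (inl none) b1 p1 u)
    (c2 : W.Ch j l t (inl none) b2 p2 (hv (nl (W.ell n (c + 2 * s + 1 + 1)))))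
    (a : u ≠ hv (ml n c)) (hO : ∀ g, pz (W.cut (l g) (t g)) 0 ∈ p1 ++ p2)
    (fre : (p1 ++ p2).Forall (W.Fre j n c s))
    (F : List Fm) (ne : List (ℕ × ℕ)) (ok : chkC b1 (b2 ++ [false, true, true]) F ne = true)
    (hF : F.Forall (Fm.Holds fun y => pos2 o (nth (pz (ml n c) 0) (p1 ++ (p2 ++
      [pz (W.prv (mo n (c + 2 * s + 1 + 1))) (2 * r + 10), pz (ml n (c + 2 * s + 1)) 0,
        pz (ml n c) 0])) y)))
    (hn : ne.Forall fun y => nth (pz (ml n c) 0) (p1 ++ (p2 ++
      [pz (W.prv (mo n (c + 2 * s + 1 + 1))) (2 * r + 10), pz (ml n (c + 2 * s + 1)) 0,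
        pz (ml n c) 0])) y.1 ≠ nth (pz (ml n c) 0) (p1 ++ (p2 ++
      [pz (W.prv (mo n (c + 2 * s + 1 + 1))) (2 * r + 10), pz (ml n (c + 2 * s + 1)) 0,
        pz (ml n c) 0])) y.2) : W.Sv u (hv (ml n c)) := by
  intro _ _
  refine k.serveM A (d := true) c1 (c2.app ((ch_entry n _).app (k.toRs.ch_moat n _)))
    (adj_arc n _) .nil a (fun g => ?_) ?_
    F ne (by rwa [List.append_assoc]) (by rwa [List.append_assoc]) (by rwa [List.append_assoc])
  · have := hO g
    simp only [List.mem_append] at this ⊢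
    tauto
  · simp only [List.forall_append, List.Forall] at fre ⊢
    refine ⟨fre.1, ⟨fre.2, A.fre_prv fun y _ d => ?_, A.fre_ml fun y _ _ d => ?_⟩, trivial⟩
    · have := (Nat.ModEq.add_left_cancel' c (Nat.ModEq.add_right_cancel' 1
        (show c + 2 * y + 1 ≡ c + (2 * s + 1) + 1 [MOD r0 + 1] from d))).eq_of_lt_of_lt
        (by omega) (by omega)
      omega
    · have := (Nat.ModEq.add_left_cancel' c (show c + y ≡ c + (2 * s + 1) [MOD r0 + 1]
        from d)).eq_of_lt_of_lt (by omega) (by omega)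
      omega

end Ro

end Wd

theorem Fw.Rs.roX {V : Fw K N r r0 q D e b} {j : K} {l : ι → ℕ} {t : ι → N} (k : V.Rs j l t) :
    V.W.Ro j l t (rh (V.Hi j) (V.W.vp j l t)) :=
  ⟨k.toRs, fun _ h => (k.toRs.fr h).rh k.hi_up, V.Hi j, fun _ _ => Fw.hi_lp, fun _ _ => rh_lt⟩

end Pool.Agent.P.MP_439f1f_co
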