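import Pool.Agent.P.MP_439f1f_co.Sv2
import Pool.Agent.P.MP_439f1f_co.Rc1
import Pool.Agent.P.MP_439f1f_co.Rt1
import Pool.Agent.P.MP_439f1f_co.Rn1

/-!
Service of the head vertex of the line into a node and the first vertices of its line.
-/

set_option autoImplicit false
set_option linter.unusedSectionVars false

namespace Pool.Agent.P.MP_439f1f_co

open Function SimpleGraph Sum

variable {K N : Type} {r r0 q D e b : ℕ} [DecidableEq K] [Finite K] [Finite N] [Nonempty K]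

namespace Fw.Re

variable {V : Fw K N r r0 q D e b} {j : K} {x z y : N} {L : Hub K N (Pt K N) r0}

variable (V) in
/-- the trees of `x` and `z` are the living items, all other kinds are at rest -/
structure Tw (j : K) (x z : N) : Prop where
  rx : V.Role j (some false) (V.F.tree x)
  rz : V.Role j (some true) (V.F.tree z)
  cut : ∀ i, (V.par j).cut i = 0
  rook : (V.par j).rook = false
  rest : ∀ T : Kl K r r0, T.stg ≠ j → T.kind ≠ (V.F.tree x).kind → T.kind ≠ (V.F.tree z).kind →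
    V.Rest j T

theorem exists_tw (bf : (V.F.tree x).Bf (V.F.tree z)) (h : ¬(V.F.tree x).Mh (V.F.tree z))
    (h' : ¬(V.F.tree z).Mh (V.F.tree x)) {κ : ZMod 3 → Fin 7}
    (k : Kl.Kap κ (V.F.tree x) (V.F.tree z)) (dr cd sp : Bool) (L L' : Hub K N (Pt K N) r0) :
    ∃ j, Tw V j x z ∧ V.W.Far j L ∧ V.W.Far j L' ∧ (V.par j).dr = dr ∧ (V.par j).cd = cd ∧
      (V.par j).sp = sp ∧ (V.par j).kap = κ := by
  obtain ⟨g, a⟩ := V.W.exists_grp V.grp [L, L', nl x, nl z] (by simp)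
  have n := Kl.Pn.last h h'
  obtain ⟨j, s⟩ := V.exists_st g (π := { Par.base r r0 D with kap := κ, dr := dr, cd := cd, sp := sp })
    (Par.TA.two (x := V.F.tree x) (y := V.F.tree z) rfl rfl (fun c => (k c).1) (fun _ => Or.inl rfl)
      n.one (fun _ _ => rfl) bf.ne
      (fun i _ => ⟨fun c => by cases i; exacts [(k c).2.1, (k c).2.2], .last, fun d => absurd rfl d⟩)
      fun _ _ => ⟨bf, n, fun d => nomatch d⟩) [] (by simp) (by simp)
  refine ⟨j, ⟨s.role false _ rfl ((a (nl x) (by simp) j s.grp).wor (V.W.in_pay (inl x))),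
    s.role true _ rfl ((a (nl z) (by simp) j s.grp).wor (V.W.in_pay (inl z))),
    fun i => by rw [s.cut]; rfl, s.rook, fun T c d d' => s.rest_kind c fun a0 T0 m => ?_⟩,
    a L (by simp) j s.grp, a L' (by simp) j s.grp, s.dr, s.cd, s.sp, s.kap⟩
  rcases Par.mt_tw m with ⟨_ | _, -, rfl⟩ | ⟨-, i, f, -⟩
  exacts [d.symm, d'.symm, nomatch f]

theorem Tw.ne (s : Tw V j x z) : V.F.tree x ≠ V.F.tree z := fun d => by cases s.rx.eq (d ▸ s.rz)

theorem Tw.rs (s : Tw V j x z) (lx : V.F.lev x = D) (lz : V.F.lev z = D) :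
    V.Rs j ![0, 0] ![x, z] :=
  .two ((s.rx.liv' (s.cut _)).run rfl (by rw [lx, V.od]) (V.F.surj x).1)
    ((s.rz.liv' (s.cut _)).run rfl (by rw [lz, V.od]) (V.F.surj z).1) (Wd.On.tree_ne s.ne) s.rx s.rz

theorem Tw.lt (s : Tw V j x z) : (V.L j).key x < (V.L j).key z := s.rx.lt s.rz s.rook (Rt.zi_lt _)

variable (V) in
/-- the last label of the line into the node -/
noncomputable abbrev zp (y : N) : N := V.W.S.sn (V.W.prv (inl y)) true .Z

theorem at_zp (y : N) : V.W.S.At (V.W.prv (inl y)) (2 * r + 8) true .Z :=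
  Stat.nm_Z (Stat.not_mo_nd y)

theorem tree_zp (y : N) : ∃ w c, (V.F.tree (zp V y)).1 = (.hP w c, .Z) := by
  have := congrArg Subtype.val ((at_zp (V := V) y).tree V.D_pos)
  simp only [Pre.typ, Wd.prv, Equiv.apply_symm_apply] at this
  exact ⟨_, _, this⟩

theorem col_zp (y : N) : (V.F.tree (zp V y)).col = (V.F.tree y).col + 1 :=
  (V.W.S.col_sn V.D_pos _ _ _).trans (V.W.col_in (V.W.in_prv (inl y)) true)

theorem bf_zp (h : (V.F.tree x).col = (V.F.tree y).col) : (V.F.tree x).Bf (V.F.tree (zp V y)) ∧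
    ¬(V.F.tree x).Mh (V.F.tree (zp V y)) ∧ ¬(V.F.tree (zp V y)).Mh (V.F.tree x) := by
  have c : (V.F.tree x).col ≠ (V.F.tree (zp V y)).col := by
    rw [h, col_zp]
    exact Kl.col_ne_succ _
  obtain ⟨w, c', d⟩ := tree_zp (V := V) y
  refine ⟨.of_col c ?_, mt Kl.Mh.col c, mt Kl.Mh.col c.symm⟩
  rintro (⟨_, _, _, _, _, -, f, -⟩ | ⟨_, _, _, _, _, f, -⟩) <;> simp [d] at f

/-- the line into a node at rest comes directly before the line of the node -/
theorem prv_vr {l : Fin 2 → ℕ} {t : Fin 2 → N} (k : V.Rs j l t) (h : V.Rest j (V.F.tree y))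
    (i i' : ℕ) : V.vr j l t (pz (V.W.prv (inl y)) i) < V.vr j l t (pz (nl y) i') :=
  k.FF (h.inF (Wd.bk_prv' j (inl y))) (h.inF (.self _ j y))
    (fq_lt (fr_of (hi_congr (Wd.bk_prv' j (inl y)) (.self _ j y) rfl).2 (Wd.prv_lt j (inl y))))

theorem ne_prv (y : N) {i : ℕ} (h : i < 2 * r + 9) :
    (vz (V.W.prv (inl y)) (2 * r + 9) : Vx K N (Pt K N) r r0) ≠ vz (nl y) i := fun c => by
  have := congrArg Fin.val (Prod.ext_iff.1 (inr.inj c)).2
  simp only [Fin.val_ofNat] at this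
  rw [Nat.mod_eq_of_lt (by omega), Nat.mod_eq_of_lt (by omega)] at this
  omega

/-- an inner node -/
theorem sv_hT (l : V.F.lev y < D) :
    V.W.Sv (vz (V.W.prv (inl y)) (2 * r + 9)) (vz (nl y) 0) := by
  have lk := V.F.lev_kid l
  have ak := Forest.anc_kid l
  have tk : V.F.tree (V.F.kid y) = V.F.tree y := ak.tree.symm
  have h1 := Rt.tree_H V y
  have h2 := Rt.tree_H V (V.F.kid y)
  have n : lc (V.F.lev y) ≠ lc (V.F.lev (V.F.kid y)) := by
    rw [lk]
    unfold lc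
    split_ifs <;> first | omega | simp
  obtain ⟨κ, hk⟩ := Kl.exists_kap (V.F.tree (V.W.S.sn (nl y) false .H))
    (V.F.tree (V.W.S.sn (nl (V.F.kid y)) false .H))
  have n2 : (κ (V.F.tree y).col : ℕ) ≠ V.F.lev y + 1 := fun c =>
    (hk (V.F.tree y).col).2.2 _ _ (tk ▸ h2) (by rw [c, lk])
  have ne : y ≠ V.F.kid y := fun c => by rw [← c] at lk; omega
  obtain ⟨dr, cd, o⟩ := V.ord_key (k := κ (V.F.tree y).col) ne
    (fun a => by have := a.1; omega) (fun _ => by omega)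
  obtain ⟨j, s, f, f', a1, a2, -, a3⟩ := exists_tw (x := V.W.S.sn (nl y) false .H)
    (z := V.W.S.sn (nl (V.F.kid y)) false .H)
    ⟨fun c => by simp [c, h2, n.symm] at h1, fun c => by simpa [Kl.ty_val h1, Kl.ty_val h2, n] using c.1,
      fun c => by simpa [Kl.sl_val h1] using c.2.1, fun ⟨_, _, _, c, _⟩ => by simp [h1] at c,
      by rintro (⟨_, _, _, _, _, c, -⟩ | ⟨_, _, _, _, _, c, -⟩); exacts [by simp [h1] at c,
        by simp [h2] at c]⟩
    (fun ⟨_, _, _, _, c, _⟩ => by simp [h1] at c) (fun ⟨_, _, _, _, c, _⟩ => by simp [h2] at c)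
    hk dr cd false (nl y) (nl y)
  have c0 := (V.F.tree y).col_ne_succ
  have ry : V.Rest j (V.F.tree y) := s.rest _ (f.wor (V.W.in_pay (inl y)))
    (Kl.kind_ne (c0.trans_eq (Kl.col_val h1).symm))
    (Kl.kind_ne (c0.trans_eq (tk ▸ Kl.col_val h2).symm))
  have rk : V.Rest j (V.F.tree (V.F.kid y)) := tk ▸ ry
  have k := s.rs (V.W.S.lev_sn V.D_pos _ _ _) (V.W.S.lev_sn V.D_pos _ _ _)
  have hg : V.W.S.hang (nl (V.F.kid y)) 0 (some (V.W.S.O.nxt j (V.W.prv (inl y)))) := by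
    simpa only [V.W_F, V.F.par_kid l, Wd.nxt_prv] using Wd.hang_par (W := V.W) (n := V.F.kid y)
      (by have := (V.F.surj y).1; rw [V.W_F]; omega)
  have lt := o j a1 a2 ry rk fun _ => by rw [a3]
  intro _ _
  exact Wd.Sv.symm (k.serve
    ((k.toRs.ch_cut 0).app (Wd.ch_up (V.W.S.pay_H (inl _)).hang (by omega)))
    (((k.toRs.ch_cut 1).app (Wd.ch_up (V.W.S.pay_H (inl _)).hang (by omega))).app
      (Wd.ch_fhead hg (by omega))) (ne_prv y (by omega)).symm
    (fun g => by fin_cases g <;> simp) [.lt 4 1, .lt 1 3, .lt 3 0, .lt 0 2] [] (by decide +kernel)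
    ⟨prv_vr k ry _ _, k.FF (ry.inF (.self _ j _)) (rk.inF (.self _ j _))
        (fq_lt (fr_of (hi_congr (.self _ j y) (.self _ j _) tk.symm).2 (Sw.nl_lt.2 lt))),
      k.F_cut (rk.inF (.self _ j _)) 0, k.cut_cut (g := 0) (g' := 1) s.lt⟩ trivial)

/-- a label -/
theorem sv_sHu (g : V.W.S.Good e) (l : V.F.lev y = D) :
    V.W.Sv (vz (V.W.prv (inl y)) (2 * r + 9)) (vz (nl y) 0) := by
  obtain ⟨L, m, f, τ, at1, rfl⟩ := g.use l
  set y := V.W.S.sn L f τ with hy
  have cl : ∀ f σ, (V.F.tree (V.W.S.sn L f σ)).col = pcol V.F (some (V.W.lo L)) := fun f σ =>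
    (V.W.S.col_sn V.D_pos L f σ).trans (V.W.col_typ L f)
  have tn : ∀ n, V.W.In L n → (V.F.tree y).col = (V.F.tree n).col + 1 := fun n c =>
    (V.W.S.col_sn V.D_pos L f τ).trans (V.W.col_in c f)
  have iy := V.W.in_prv (inl y)
  have ni : ¬V.W.In L y := fun c => Kl.col_ne_succ _ (tn y c)
  have nt : ∀ n n', V.W.In L n → V.W.In (V.W.prv (inl y)) n' → V.F.tree n ≠ V.F.tree n' :=
    fun n n' c c' d => Kl.col_ne_succ _ ((tn n c).trans (by rw [d, c'.unique iy]; rfl))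
  obtain ⟨dr, cd, sp, o⟩ := V.ord (L := L) (L' := V.W.prv (inl y)) 0
    (fun c => ni (by rwa [Wd.In, c])) (fun n c c' => nt n n ⟨_, c⟩ ⟨_, c'⟩ rfl)
    fun n n' c c' _ => ⟨fun a => (nt n n' c c' a.tree.symm).elim, fun a => (nt n n' c c' a.tree).elim⟩
  have key : ∀ {m' f' σ}, V.W.S.At L m' f' σ → m' ≠ m → ∃ j, ∃ k : V.Rs j ![0, 0]
      ![V.W.S.sn L f' σ, zp V y], (V.W.rts ![0, 0] ![V.W.S.sn L f' σ, zp V y]).Off (nl y) ∧
      ∀ i, [Fm.lt 3 1, .lt 1 4, .lt 4 2, .lt 2 0].Forall (Fm.Holds fun n =>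
        V.vr j ![0, 0] ![V.W.S.sn L f' σ, zp V y] (nth (pz (inr (j, none, 0)) 0)
          [pz (V.W.cut 0 (zp V y)) 0, pz (V.W.prv (inl y)) (2 * r + 8 + 1),
            pz (V.W.cut 0 (V.W.S.sn L f' σ)) 0, pz L i, pz (nl y) 0] n)) := by
    intro m' f' σ at2 ne
    have c1 : (V.F.tree (V.W.S.sn L f' σ)).col = (V.F.tree y).col := by rw [cl, cl]
    obtain ⟨b1, b2, b3⟩ := bf_zp c1
    obtain ⟨κ, hk⟩ := Kl.exists_kap (V.F.tree (V.W.S.sn L f' σ)) (V.F.tree (zp V y))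
    obtain ⟨j, s, f1, f2, a1, a2, a3, -⟩ := exists_tw b1 b2 b3 hk dr cd sp L (V.W.prv (inl y))
    have ry : V.Rest j (V.F.tree y) := s.rest _ (f2.wor iy) (at1.kind_nec V.D_pos at2 ne.symm)
      (Kl.kind_ne ((Kl.col_ne_succ _).trans_eq (col_zp y).symm))
    have rn : ∀ n, V.W.In L n → V.Rest j (V.F.tree n) := fun n c => s.rest _ (f1.wor c)
      (Kl.kind_ne (by rw [c1, tn n c]; exact Kl.col_ne_succ _))
      (Kl.kind_ne (by
        rw [col_zp, tn n c]
        exact (by decide : ∀ c : ZMod 3, c ≠ c + 1 + 1) _))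
    have k := s.rs (V.W.S.lev_sn V.D_pos _ _ _) (V.W.S.lev_sn V.D_pos _ _ _)
    refine ⟨j, k, k.toRs.off_nl fun g c => ?_, fun i => ⟨k.FF
      (fun n c _ d => d.not_rest (rn n (f1.bk.1 c))) (ry.inF (Wd.bk_prv' j (inl y)))
      (fq_lt (fr_lt.2 (o j f1 f2 a1 a2 a3 (fun n c => c.elim (rn n) fun c => c.unique iy ▸ ry)
        fun n n' c c' _ d => (nt n n' c c' d).elim))),
      prv_vr k ry _ _, k.F_cut (ry.inF (.self _ j _)) 0, k.cut_cut (g := 0) (g' := 1) s.lt⟩⟩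
    obtain ⟨_, d⟩ := k.role g
    exact d.not_rest ((c.1.tree : V.F.tree _ = _) ▸ ry)
  have := at1.le
  intro _ _
  rcases le_or_gt m 1 with d | d
  · obtain ⟨f', σ, at2⟩ := V.W.S.at_mid L (i := m + 1) (by omega) (by omega)
    obtain ⟨j, k, c, c'⟩ := key at2 (by omega)
    exact k.serve ((k.toRs.ch_cut 1).app (Wd.ch_dn (at_zp y).hang (by omega)))
      (((k.toRs.ch_cut 0).app (Wd.ch_up at2.hang (by omega))).app
        (Wd.ch_ftail c at1.hang (by omega))) (ne_prv y (by omega))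
      (fun g => by fin_cases g <;> simp) _ [] (by decide +kernel) (c' _) trivial
  · obtain ⟨m, rfl⟩ : ∃ m', m = m' + 1 := ⟨m - 1, by omega⟩
    obtain ⟨f', σ, at2⟩ := V.W.S.at_mid L (i := m) (by omega) (by omega)
    obtain ⟨j, k, c, c'⟩ := key at2 (by omega)
    exact k.serve ((k.toRs.ch_cut 1).app (Wd.ch_dn (at_zp y).hang (by omega)))
      (((k.toRs.ch_cut 0).app (Wd.ch_dn at2.hang (by omega))).app
        (Wd.ch_ftail c at1.hang (by omega))) (ne_prv y (by omega))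
      (fun g => by fin_cases g <;> simp) _ [] (by decide +kernel) (c' _) trivial

end Fw.Re

open Fw.Re in
/-- **The head into a node and the tail vertex of its line.** -/
theorem Fw.sv_eT (V : Fw K N r r0 q D e b) (g : V.W.S.Good e) (y : N) :
    V.W.Sv (vz (V.W.prv (inl y)) (2 * r + 9)) (vz (nl y) 0) := fun {_ _} =>
  (V.F.surj y).2.1.eq_or_lt.elim (fun c => sv_sHu g c) fun c => sv_hT c

open Fw.Re in
/-- **The head into a node and the second vertex of its line.** -/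
theorem Fw.sv_eC (V : Fw K N r r0 q D e b) (y : N) :
    V.W.Sv (vz (V.W.prv (inl y)) (2 * r + 9)) (vz (nl y) 1) := by
  obtain ⟨b1, b2, b3⟩ := bf_zp (V := V) (x := y) (y := y) rfl
  obtain ⟨κ, hk⟩ := Kl.exists_kap (V.F.tree y) (V.F.tree (zp V y))
  obtain ⟨j, s, -⟩ := exists_tw b1 b2 b3 hk true true false (nl y) (nl y)
  have ra : V.W.Run j 0 (zp V y) := (s.rz.liv' (s.cut _)).run rfl
    (by rw [show V.F.lev (zp V y) = D from V.W.S.lev_sn V.D_pos _ _ _, V.od]) (V.F.surj _).1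
  have ne := ne_prv (V := V) y (i := 1) (by omega)
  have pl : ∀ {ι : Type} {l : ι → ℕ} {t : ι → N}, V.W.Rs j l t → (∀ g, ¬V.W.On (l g) (t g) y) →
      V.W.vq j l t (pz (V.W.prv (inl y)) (2 * r + 8 + 1)) < V.W.vq j l t (pz (nl y) (0 + 1)) :=
    fun k c => Wd.vq_out (k.out_bk (Wd.bk_prv' j (inl y)) fun g a => (c g a).elim)
      (k.out_bk (.self _ j y) fun g a => (c g a).elim) (Wd.prv_lt j (inl y))
  intro _ _
  rcases (V.F.surj y).1.eq_or_lt with l | l
  · have k := Wd.Rs.one ra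
    have f : ∀ g, ¬V.W.On (![0] g) (![zp V y] g) y := fun g a => by
      fin_cases g
      exact s.ne a.1.tree
    exact k.serve ((k.ch_cut 0).app (Wd.ch_dn (at_zp y).hang (by omega)))
      (Wd.ch_dn (Wd.hang_root l.symm) (by omega)) ne (fun g => by fin_cases g; simp)
      [.lt 1 2, .lt 2 0] [] (by decide +kernel)
      ⟨pl k f, Wd.vq_lt (Sw.bk_lt_cut k (g := 0) (.self _ j y) fun _ a => a.eq f ▸ s.lt)⟩ trivial
  have lp := V.F.lev_par l
  have tp := V.F.tree_par l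
  have rp : V.Role j (some false) (V.F.tree (V.F.par y)) := tp ▸ s.rx
  have lt : (V.L j).key (V.F.par y) < (V.L j).key y :=
    (Lay.anc_lt (fm_plain (not_own rp.1) s.rook) (fm_plain (not_own s.rx.1) s.rook)
      (Forest.anc_par l) fun f => by rw [show V.F.par y = y from f] at lp; omega).2
      (Or.inl fun f => by
        have f1 : 2 ≤ V.kap j (V.F.tree (V.F.par y)) := f.1
        rw [rp.kap, s.cut] at f1
        simp at f1)
  have tz := tp.trans_ne s.ne
  rcases nn_route rp s.rook (Or.inl (s.cut _)) with ⟨-, ru⟩ | ⟨l', ru, lt'⟩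
  · have k := Wd.Rs.two ru ra (Wd.On.tree_ne tz)
    have f := nn_off s.ne l
    exact k.serve ((k.ch_cut 1).app (Wd.ch_dn (at_zp y).hang (by omega)))
      ((k.ch_cut 0).app (Wd.ch_dn (Wd.hang_par l) (by omega))) ne
      (fun g => by fin_cases g <;> simp) [.lt 2 1, .lt 1 3, .lt 3 0] [] (by decide +kernel)
      ⟨Wd.vq_lt (Sw.cut_lt_bk k (g := 0) (Wd.bk_prv' j (inl y)) fun _ a => a.eq f ▸ lt), pl k f,
        Wd.vq_lt (Sw.bk_lt_cut k (g := 1) (.self _ j y) fun _ a => a.eq f ▸ s.lt)⟩ trivial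
  · have k := Wd.Rs.two ru ra (Wd.On.tree_ne ((V.F.tree_par l').trans_ne tz))
    have f0 := nn_off tz l'
    have f : ∀ g, ¬V.W.On (![0, 0] g) (![V.F.par (V.F.par y), zp V y] g) y := fun g a => by
      fin_cases g
      · have a1 : V.F.lev y ≤ V.F.lev (V.F.par (V.F.par y)) := a.1.1
        have := V.F.lev_par l'
        omega
      · exact s.ne a.1.tree
    exact k.serve ((k.ch_cut 1).app (Wd.ch_dn (at_zp y).hang (by omega)))
      (((k.ch_cut 0).app (k.ch_kid f0 l')).app (Wd.ch_dn (Wd.hang_par l) (by omega))) ne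
      (fun g => by fin_cases g <;> simp) [.lt 2 3, .lt 3 1, .lt 1 4, .lt 4 0] []
      (by decide +kernel)
      ⟨Wd.vq_lt (Sw.cut_lt_bk k (g := 0) (.self _ j _) fun _ a => a.eq f0 ▸ lt'),
        Wd.vq_lt (Sw.bk_lt k (.self _ j _) (Wd.bk_prv' j (inl y)) fun _ _ a a' =>
          a.eq f0 ▸ a'.eq f ▸ lt), pl k f,
        Wd.vq_lt (Sw.bk_lt_cut k (g := 1) (.self _ j y) fun _ a => a.eq f ▸ s.lt)⟩ trivial

end Pool.Agent.P.MP_439f1f_co
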