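import Pool.Agent.P.MP_439f1f_co.Rl0

/-!
Chains through neighbouring ports of a system in a state of another stage.
-/

set_option autoImplicit false
set_option linter.unusedSectionVars false

namespace Pool.Agent.P.MP_439f1f_co

open Function SimpleGraph Sum

/-- the check of two chains for the order `l` of the cuts -/
def chkL (b1 b2 : List Bool) (l : List ℕ) : Bool :=
  frc (b1.length + b2.length) fun n => good ((rowC b1 b2 []).msks n).1 ((rowC b1 b2 []).msks n).2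
    (2 * n + 9) l && (Nat.blt 0 n && (l.isPerm (List.range n) && (rowC b1 b2 []).bal n []))

theorem Fr.chainsL {S Λ β : Type*} [LinearOrder β] {m : ℕ} {hang : Λ → ℕ → S → Prop} {c : S}
    {hb : Λ → S} {nxt : Λ → Λ} {pos : Λ → β} {O : List Λ} [Fintype S] [Fintype Λ] [DecidableEq S]
    [DecidableEq Λ] [Nontrivial S] {b1 b2 : List Bool} {p1 p2 : List (Λ × Fin (m + 2))}
    {u w : S ⊕ Λ × Fin (m + 1)} {l : List ℕ} (h : Fr m (fk hang O) c hb nxt pos Set.univ [])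
    (hm : 1 ≤ m) (c1 : Chn (HL m hang) (inP hb) (outP fun L => hb (nxt L)) (inl c) b1 p1 u)
    (c2 : Chn (HL m hang) (inP hb) (outP fun L => hb (nxt L)) (inl c) b2 p2 w) (a : u ≠ w)
    (hO : ∀ L ∈ O, (L, 0) ∈ p1 ++ p2) (d : Λ × Fin (m + 2)) (ok : chkL b1 b2 l = true)
    (a2 : l.Pairwise fun i j => pos2 pos (nth d (p1 ++ p2) i) < pos2 pos (nth d (p1 ++ p2) j)) :
    (HL m hang ⊔ edge u w).IsHamiltonian := by
  simp only [chkL, frc_eq, Bool.and_eq_true, Nat.blt_eq, List.isPerm_iff] at ok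
  obtain ⟨k3, k0, a3, k2⟩ := ok
  have l1 := c1.len
  have l2 := c2.len
  generalize hz : nth d (p1 ++ p2) = z at a2
  have inj : ∀ i < b1.length + b2.length, ∀ j < b1.length + b2.length, z i = z j → i = j :=
    fun i hi j hj => List.Pairwise.forall_of_forall_of_flip (R := fun i j => z i = z j → i = j)
      (fun _ _ _ => rfl) (a2.imp fun c e => absurd (congrArg _ e) c.ne)
      (a2.imp fun c e => absurd (congrArg _ e) c.ne')
      (a3.symm.subset (List.mem_range.2 hi)) (a3.symm.subset (List.mem_range.2 hj))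
  have e0 := fun t bs ps s k => cE_ok (G := HL m hang ⊔ edge u w) (t := t)
    (f := Cd.pt c hb nxt z fun _ => c) (I := inP hb) (O := outP fun L => hb (nxt L)) (z := z)
    (fun _ => rfl) (fun _ => rfl) bs ps s k
  have e1 := e0 _ b1 p1 .c 0 (c1.mono le_sup_left) fun i hi => by
    rw [← hz, zero_add, nth_get _ _ _ (by simp; omega), List.getElem_append_left hi]
  have e2 := e0 _ b2 p2 .c b1.length (c2.mono le_sup_left) fun i hi => by
    rw [← hz, nth_get _ _ _ (by simp; omega), List.getElem_append_right (by omega)]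
    simp [l1]
  obtain _ | ⟨x, l⟩ := l
  · exact absurd a3.length_eq (by simp; omega)
  refine Row.Ok.ham (R := rowC b1 b2 []) (ad := []) (hang0 := hang) (a := fun _ => c)
    ⟨h, fun _ _ => trivial, inj, trivial, rfl, List.forall_iff_forall_mem.2
      (List.forall_mem_cons.2 ⟨by
        rw [e1.2, e2.2]; exact Or.inr ((edge_adj ..).2 ⟨Or.inl ⟨rfl, rfl⟩, a⟩), fun e he =>
        (List.mem_append.1 he).elim (e1.1 e) fun he => (List.mem_append.1 he).elim (e2.1 e)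
          (by simp [cE])⟩), fun L i s a => a.imp_right fun a => ?_⟩
    hm le_sup_left k2 (by simp) a3 (x := pos2 pos (z x)) (a2.imp_of_mem ?_) k3
  · obtain ⟨k, hk, e⟩ := List.getElem_of_mem (hO L a.1)
    exact ⟨a.2, k, by simpa [l1, l2] using hk, by simp [rowC], hz ▸ (nth_get _ _ _ hk).trans e⟩
  · have g : ∀ i ∈ x :: l, ¬pos2 pos (z i) < pos2 pos (z x) :=
      List.forall_mem_cons.2 ⟨lt_irrefl _, fun i hi => ((List.pairwise_cons.1 a2).1 i hi).not_gt⟩
    exact fun {_ _} hi hj e => Prod.Lex.toLex_lt_toLex.2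
      (Or.inr ⟨decide_eq_decide.2 (iff_of_false (g _ hi) (g _ hj)), e⟩)

theorem bef_lt {R : ℕ → ℕ → Prop} {i j : ℕ} : ∀ l : List ℕ, l.Pairwise R → j ∈ l →
    bef i j l = true → R i j
  | a :: l, p, hj, h => by
    rw [List.pairwise_cons] at p
    unfold bef at h
    cases c : Nat.beq a j
    · have hj := (List.mem_cons.1 hj).resolve_left fun e => Nat.ne_of_beq_eq_false c e.symm
      cases d : Nat.beq a i
      · exact bef_lt l p.2 hj (by simpa [c, d] using h)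
      · exact Nat.eq_of_beq_eq_true d ▸ p.1 j hj
    · simp [c] at h

theorem nth_map {α γ : Type*} (f : α → γ) (d : α) : ∀ (l : List α) (k : ℕ),
    nth (f d) (l.map f) k = f (nth d l k)
  | [], _ => rfl
  | _ :: _, 0 => rfl
  | _ :: l, k + 1 => nth_map f d l k

theorem nth_mem {α : Type*} (d : α) : ∀ (l : List α) (k : ℕ), nth d l k ∈ d :: l
  | [], _ => by simp [nth]
  | _ :: _, 0 => by simp [nth]
  | _ :: l, k + 1 => by
    have := nth_mem d l k
    simp only [nth, List.mem_cons] at this ⊢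
    tauto

namespace Mu

/-- Names: port, line of the port (`0` leads to the port), place on the line. -/
abbrev Nm : Type := ℕ × ℕ × ℕ

/-- the place on a line -/
def fc (r c : ℕ) : ℕ := if c ≤ 2 then c else 2 * r + 3 + c

/-- the name of a cut -/
def val (x : Nm) : Prop :=
  x.2.1 ≤ 3 ∧ x.2.2 ≤ 7 ∧ x.2.2 ≠ 3 ∧ (x.2.1 = 0 → 4 ≤ x.2.2) ∧ (x.2.1 = 3 → x.2.2 ≤ 2)

instance (x : Nm) : Decidable (val x) := inferInstanceAs (Decidable (_ ∧ _))

/-- the vertex below a cut -/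
def prd (x : Nm) : Nm := if x.2.2 = 0 then (x.1, x.2.1 - 1, 7) else (x.1, x.2.1, x.2.2 - 1)

/-- the second option of a head -/
def btS (x y : Nm) : Prop := x.2.2 = 6 ∧ y.2.2 = 7 ∧
  ((x.2.1 = 0 ∧ y.1 = x.1 + 2 ∧ y.2.1 = 1) ∨ (x.2.1 = 1 ∧ x.1 = y.1 + 1 ∧ y.2.1 = 2) ∨
    (x.2.1 = 2 ∧ y.1 = x.1 ∧ y.2.1 = 0))

instance (x y : Nm) : Decidable (btS x y) := inferInstanceAs (Decidable (_ ∧ _))

/-- the vertex that is joined to the holder -/
def jn (p : Bool × Nm) : Nm := cond p.1 p.2 (prd p.2)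

/-- the new holder -/
def hd (p : Bool × Nm) : Nm := cond p.1 (prd p.2) p.2

/-- a chain from `x` to `y` -/
def chn : Nm → List (Bool × Nm) → Nm → Bool
  | x, [], y => decide (x = y)
  | x, p :: l, y => decide (val p.2 ∧ p.2.1 < 6 ∧ (btS x (jn p) ∨ btS (jn p) x)) && chn (hd p) l y

/-- the vertex carries a label -/
def tkv (x : Nm) : Prop :=
  (x.2.2 ≤ 2 ∧ 1 ≤ x.2.1 ∧ x.2.1 ≤ 3) ∨ (3 ≤ x.2.2 ∧ x.2.2 ≤ 5 ∧ x.2.1 ≤ 2)

instance (x : Nm) : Decidable (tkv x) := inferInstanceAs (Decidable (_ ∨ _))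

/-- the vertex at which a chain starts -/
def tkn (l : List (Bool × Nm)) : Nm := jn (l.headD (true, 0, 0, 0))

/-- a chain from a label to `y` -/
def chT : List (Bool × Nm) → Nm → Bool
  | [], _ => false
  | p :: l, y => decide (val p.2 ∧ p.2.1 < 6 ∧ tkv (jn p)) && chn (hd p) l y

/-- the order of the cuts for the order `u` of the ports -/
def nlt (u : List ℕ) (x y : Nm) : Bool :=
  bif Nat.beq x.1 y.1 then Nat.blt x.1 6 &&
    (Nat.blt x.2.1 y.2.1 || (Nat.beq x.2.1 y.2.1 && Nat.blt x.2.2 y.2.2)) else bef x.1 y.1 u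

def insS (f : ℕ → ℕ → Bool) (a : ℕ) : List ℕ → List ℕ
  | [] => [a]
  | c :: l => bif f a c then a :: c :: l else c :: insS f a l

def srtS (f : ℕ → ℕ → Bool) : ℕ → List ℕ
  | 0 => []
  | n + 1 => insS f n (srtS f n)

def chS (f : ℕ → ℕ → Bool) : List ℕ → Bool
  | a :: c :: l => f a c && chS f (c :: l)
  | _ => true

theorem chS_ok {f : ℕ → ℕ → Bool} {R : ℕ → ℕ → Prop} (h : ∀ a c, f a c = true → R a c) :
    ∀ l, chS f l = true → l.IsChain R
  | [], _ => .nil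
  | [_], _ => .singleton _
  | a :: c :: l, k => by
    rw [chS, Bool.and_eq_true] at k
    exact .cons_cons (h _ _ k.1) (chS_ok h _ k.2)

/-- the cuts of two chains; `7` and `8` are the routes -/
def cuts (c1 c2 : List (Bool × Nm)) : List Nm :=
  ((7, 1, 0) :: c1.map Prod.snd) ++ (8, 1, 0) :: c2.map Prod.snd

/-- the check of two chains for the order `u` -/
def chkO (u : List ℕ) (c1 c2 : List (Bool × Nm)) : Bool :=
  chkL (true :: c1.map Prod.fst) (true :: c2.map Prod.fst)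
      (srtS (fun a c => nlt u (nth (7, 1, 0) (cuts c1 c2) a) (nth (7, 1, 0) (cuts c1 c2) c))
        (c1.length + c2.length + 2)) &&
    (chS (fun a c => nlt u (nth (7, 1, 0) (cuts c1 c2) a) (nth (7, 1, 0) (cuts c1 c2) c))
      (srtS (fun a c => nlt u (nth (7, 1, 0) (cuts c1 c2) a) (nth (7, 1, 0) (cuts c1 c2) c))
        (c1.length + c2.length + 2)) && (cuts c1 c2).all fun x => decide (val x ∧ x.1 ∈ u))

end Mu

open Mu

variable {K N β ι : Type} {r r0 q D e b : ℕ} [DecidableEq K] [LinearOrder β] [Finite K] [Finite N]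
  [Nonempty K]

namespace Wd

variable (W : Wd K N β r r0 q D e b) (s : K) (y : Pt K N)

/-- the ports -/
noncomputable def pt (k : ℕ) : Pt K N := (W.S.O.nx s)^[k] y

/-- the lines -/
noncomputable def ln (k : ℕ) : ℕ → Hub K N (Pt K N) r0
  | 0 => W.S.O.sl s (W.pt s y k, 0)
  | i + 1 => inr (s, W.pt s y k, Fin.ofNat 3 i)

/-- the vertices -/
noncomputable def vx (x : Nm) : Vx K N (Pt K N) r r0 :=
  if x.2.2 = 7 then hv (W.ln s y x.1 (x.2.1 + 1)) else vz (W.ln s y x.1 x.2.1) (fc r x.2.2)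

/-- the cuts; `ω`, `a`, `a'` are the three other cuts -/
noncomputable def rp (ω a a' : Ps K N r r0) (x : Nm) : Ps K N r r0 :=
  if x.1 < 6 then pz (W.ln s y x.1 x.2.1) (fc r x.2.2) else if x.1 = 6 then ω else
    if x.1 = 7 then a else a'

/-- the cut lies outside the port `k` -/
def Oux (k : ℕ) (p : Ps K N r r0) : Prop := p.1 ≠ W.ln s y k 1 ∧ p.1 ≠ W.ln s y k 2 ∧
  (p.1 = W.ln s y k 3 → 3 ≤ (p.2 : ℕ)) ∧ (p.1 = W.ln s y k 0 → (p.2 : ℕ) ≤ 2 * r + 6)

variable {W s y} {j : K} {k k' i : ℕ} {x x' : Nm} {l : ι → ℕ} {t : ι → N} {ω a a' : Ps K N r r0}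

theorem pt_succ : W.pt s y (k + 1) = W.S.O.nx s (W.pt s y k) := iterate_succ_apply' _ _ _

theorem ln_sl (h : i ≤ 2) : W.ln s y k i = W.S.O.sl s (W.pt s y k, Fin.ofNat 3 i) := by
  interval_cases i <;> rfl

theorem dA_ln (h : i ≤ 2) : W.S.O.dA (W.ln s y k i) = W.ln s y k (i + 1) := by
  rw [ln_sl h, Mac.dA_sl, ln]

theorem nxt_ln (c : s ≠ j) (h : i ≤ 2) : W.S.O.nxt j (W.ln s y k i) = W.ln s y k (i + 1) := by
  rw [ln_sl h, W.S.O.nxt_cold c, ln]

theorem fc_le {c : ℕ} (h : c ≤ 7) : fc r c ≤ 2 * r + 10 := by unfold fc; split_ifs <;> omega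

theorem out_rp (c : s ≠ j) (h : val x) (h' : x.1 < 6) :
    outP (fun L => some (W.S.O.nxt j L)) (W.rp s y ω a a' x) = W.vx s y x := by
  obtain ⟨k, i, c'⟩ := x
  obtain ⟨h1, h2, h3, h4, h5⟩ := h
  rw [rp, if_pos h', vx]
  split_ifs with d
  · obtain rfl : c' = 7 := d
    exact out_last.trans (by rw [nxt_ln c (by simp at *; omega)])
  · exact out_pz (by simp only [fc] at *; split_ifs <;> omega)

theorem in_rp (k : W.Rs j l t) (h : val x) (h' : x.1 < 6) :
    inP ((W.rts l t).vh some) (W.rp s y ω a a' x) = W.vx s y (prd x) := by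
  obtain ⟨n, i, c'⟩ := x
  obtain ⟨h1, h2, h3, h4, h5⟩ := h
  rw [rp, if_pos h', prd]
  dsimp only at *
  split_ifs with d
  · subst d
    obtain ⟨i, rfl⟩ : ∃ i', i = i' + 1 := ⟨i - 1, by omega⟩
    exact congrArg inl (Rts.vh_off (k.off_sys _))
  · rw [vx, if_neg (by dsimp only; omega),
      show fc r c' = fc r (c' - 1) + 1 by simp only [fc]; split_ifs <;> omega]
    exact in_pz (by simp only [fc]; split_ifs <;> omega)

theorem adj_bt (h : btS x x') : (HL (2 * r + 9) W.S.hang).Adj (W.vx s y x') (W.vx s y x) := by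
  obtain ⟨k, i, c⟩ := x
  obtain ⟨k', i', c'⟩ := x'
  obtain ⟨rfl, rfl, h⟩ := h
  refine adj_vz (?_ : W.S.hang _ (2 * r + 9) _) le_rfl
  rcases h with ⟨rfl, rfl, rfl⟩ | ⟨rfl, rfl, rfl⟩ | ⟨rfl, rfl, rfl⟩ <;> rw [ln_sl (by simp)] <;>
    refine (W.S.fit.hs _ _ _).2 (Or.inr ?_)
  · rw [ln, pt_succ, pt_succ]; rfl
  · rw [ln, pt_succ]
    exact congrArg (fun z => some (inr (s, z, 2))) (Equiv.symm_apply_apply _ _).symm
  · rfl

theorem ch_step (c : s ≠ j) (k : W.Rs j l t) {p : Bool × Nm} {u : Vx K N (Pt K N) r r0}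
    (h : val p.2) (h' : p.2.1 < 6) (d : (HL (2 * r + 9) W.S.hang).Adj u (W.vx s y (jn p))) :
    W.Ch j l t u [p.1] [W.rp s y ω a a' p.2] (W.vx s y (hd p)) := by
  obtain ⟨_ | _, x⟩ := p
  exacts [Ch.dn (in_rp k h h') d (out_rp c h h'), Ch.up (out_rp c h h') d (in_rp k h h')]

theorem ch_chn (c : s ≠ j) (k : W.Rs j l t) : ∀ (L : List (Bool × Nm)) (x : Nm),
    chn x L x' = true →
      W.Ch j l t (W.vx s y x) (L.map Prod.fst) ((L.map Prod.snd).map (W.rp s y ω a a'))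
        (W.vx s y x')
  | [], _, h => by rw [of_decide_eq_true h]; exact .nil
  | p :: L, x, h => by
    simp only [chn, Bool.and_eq_true, decide_eq_true_eq] at h
    exact (ch_step c k h.1.1 h.1.2.1 (h.1.2.2.elim (fun d => (adj_bt d).symm) adj_bt)).app
      (ch_chn c k L _ h.2)

theorem ch_chT (c : s ≠ j) (k : W.Rs j l t) {L : List (Bool × Nm)} (h : chT L x = true) {n : N}
    (d : W.S.hang (W.ln s y (tkn L).1 (tkn L).2.1) (fc r (tkn L).2.2) (some (nl n))) :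
    W.Ch j l t (hv (nl n)) (L.map Prod.fst) ((L.map Prod.snd).map (W.rp s y ω a a'))
      (W.vx s y x) := by
  obtain _ | ⟨p, L⟩ := L
  · simp [chT] at h
  simp only [chT, Bool.and_eq_true, decide_eq_true_eq] at h
  have := h.1.2.2
  refine (ch_step c k h.1.1 h.1.2.1 ?_).app (ch_chn c k L _ h.2)
  rw [vx, if_neg (by unfold tkv at this; omega)]
  exact adj_vz d (by unfold tkv at this; simp only [fc]; split_ifs <;> omega)

theorem rp_lo (h : k < 6) {c : ℕ} :
    W.rp s y ω a a' (k, i, c) = pz (W.ln s y k i) (fc r c) := if_pos h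

theorem rp_hi (h : ¬k < 6) {c : ℕ} : W.rp s y ω a a' (k, i, c) = W.rp s y ω a a' (k, 1, 0) :=
  (if_neg h).trans (if_neg h).symm

theorem ou_nl (n : N) : W.Oux s y k (pz (nl n) 0) :=
  ⟨by simp [ln, pz], by simp [ln, pz], by simp [ln, pz], fun _ => Nat.zero_le _⟩

theorem ou_rp (ne : W.pt s y k ≠ W.pt s y x.1) (h : val x) :
    W.Oux s y k (pz (W.ln s y x.1 x.2.1) (fc r x.2.2)) := by
  obtain ⟨n, i, c⟩ := x
  obtain ⟨h1, h2, h3, h4, h5⟩ := h
  have e : ∀ i' ≤ 2, i ≤ 2 → W.ln s y n i ≠ W.ln s y k i' := fun i' a1 a2 a3 => by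
    rw [ln_sl a1, ln_sl a2] at a3
    exact ne (Prod.ext_iff.1 (Mac.sl_inj a3).2).1.symm
  have e' : ∀ i', 1 ≤ i → W.ln s y n i ≠ W.ln s y k (i' + 1) := fun i' a1 a3 => by
    obtain ⟨i, rfl⟩ : ∃ i', i = i' + 1 := ⟨i - 1, by omega⟩
    exact ne (by simpa [ln] using (Prod.ext_iff.1 (Prod.ext_iff.1 (inr.inj a3)).2).1.symm)
  dsimp only at *
  refine ⟨fun d => ?_, fun d => ?_, fun d => ?_, fun d => ?_⟩
  · exact (le_or_gt i 2).elim (fun f => e 1 (by omega) f d) fun f => e' 0 (by omega) d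
  · exact (le_or_gt i 2).elim (fun f => e 2 (by omega) f d) fun f => e' 1 (by omega) d
  · have : i = 0 := by_contra fun f => e' 2 (by omega) d
    rw [pz_val (fc_le h2), fc]
    split_ifs <;> omega
  · have : i = 3 := by_contra fun f => e 0 (by omega) (by omega) d
    rw [pz_val (fc_le h2), fc]
    split_ifs <;> omega

section ord

variable {γ : Type} [LinearOrder γ] {o : Hub K N (Pt K N) r0 → γ} (inj : Injective o)
  (sc : ∀ i ≤ 2, o (W.ln s y k i) < o (W.ln s y k (i + 1)) ∧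
    ∀ L, o (W.ln s y k i) < o L → o (W.ln s y k (i + 1)) ≤ o L) {p : Ps K N r r0} {c : ℕ}
include sc

theorem ln_lt {i' : ℕ} (h : i < i') (h' : i' ≤ 3) : o (W.ln s y k i) < o (W.ln s y k i') := by
  have a0 := (sc 0 (by omega)).1
  have a1 := (sc 1 (by omega)).1
  have a2 := (sc 2 (by omega)).1
  interval_cases i'
  all_goals interval_cases i
  exacts [a0, a0.trans a1, a1, a0.trans (a1.trans a2), a1.trans a2, a2]

include inj

theorem Oux.up (h : W.Oux s y k p) (v : val (k, i, c))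
    (d : pos2 o (pz (W.ln s y k 1) 0) < pos2 o p) :
    pos2 o (pz (W.ln s y k i) (fc r c)) < pos2 o p := by
  obtain ⟨h1, h2, h3, h4, h5⟩ := v
  have a1 := (pos2_lt.1 d).resolve_right fun f => h.1 (inj f.1).symm
  have a2 := (sc 2 le_rfl).2 _ (lt_of_le_of_ne ((sc 1 one_le_two).2 _ a1) fun f => h.2.1 (inj f).symm)
  rcases h1.lt_or_eq with f | f
  · exact pos2_lt.2 (Or.inl ((ln_lt sc f le_rfl).trans_le a2))
  · obtain rfl : i = 3 := f
    refine pos2_lt.2 (a2.lt_or_eq.imp_right fun f => ⟨f, ?_⟩)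
    have := h.2.2.1 (inj f).symm
    have := h5 rfl
    rw [Fin.lt_def, pz_val (fc_le h2), fc]
    split_ifs <;> omega

theorem Oux.dn (h : W.Oux s y k p) (v : val (k, i, c))
    (d : pos2 o p < pos2 o (pz (W.ln s y k 1) 0)) :
    pos2 o p < pos2 o (pz (W.ln s y k i) (fc r c)) := by
  obtain ⟨h1, h2, h3, h4, h5⟩ := v
  have a1 := (pos2_lt.1 d).resolve_right fun f => by simpa [pz] using f.2
  have a2 : o p.1 ≤ o (W.ln s y k 0) := not_lt.1 fun f => a1.not_ge ((sc 0 zero_le_two).2 _ f)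
  rcases i.eq_zero_or_pos with f | f
  · subst f
    refine pos2_lt.2 (a2.lt_or_eq.imp_right fun f => ⟨f, ?_⟩)
    have := h.2.2.2 (inj f)
    have := h4 rfl
    rw [Fin.lt_def, pz_val (fc_le h2), fc]
    split_ifs <;> omega
  · exact pos2_lt.2 (Or.inl (a2.trans_lt (ln_lt sc f h1)))

end ord

/-- **The order of the cuts.** -/
theorem nlt_ok {γ : Type} [LinearOrder γ] {o : Hub K N (Pt K N) r0 → γ} (inj : Injective o)
    (sc : ∀ k < 6, ∀ i ≤ 2, o (W.ln s y k i) < o (W.ln s y k (i + 1)) ∧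
      ∀ L, o (W.ln s y k i) < o L → o (W.ln s y k (i + 1)) ≤ o L)
    (pi : ∀ k < 6, ∀ k' < 6, W.pt s y k = W.pt s y k' → k = k')
    (ou : ∀ k < 6, W.Oux s y k ω ∧ W.Oux s y k a ∧ W.Oux s y k a') {u : List ℕ}
    (srt : u.Pairwise fun c c' => pos2 o (W.rp s y ω a a' (c, 1, 0)) <
      pos2 o (W.rp s y ω a a' (c', 1, 0))) (v : val x) (v' : val x') (m : x'.1 ∈ u)
    (h : nlt u x x' = true) : pos2 o (W.rp s y ω a a' x) < pos2 o (W.rp s y ω a a' x') := by
  have e : ∀ k < 6, ∀ x, val x → x.1 ≠ k → W.Oux s y k (W.rp s y ω a a' x) := fun k d x f g => by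
    unfold rp
    split_ifs with g'
    exacts [ou_rp (fun c => g (pi _ d _ g' c).symm) f, (ou k d).1, (ou k d).2.1, (ou k d).2.2]
  obtain ⟨n, i, c⟩ := x
  obtain ⟨n', i', c'⟩ := x'
  unfold nlt at h
  cases d : Nat.beq n n'
  · have ne := Nat.ne_of_beq_eq_false d
    have a1 := bef_lt u srt m (by simpa [d] using h)
    have a2 : pos2 o (W.rp s y ω a a' (n, i, c)) < pos2 o (W.rp s y ω a a' (n', 1, 0)) := by
      by_cases f : n < 6
      · rw [rp_lo f] at a1 ⊢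
        exact (e n f (n', 1, 0) (by simp [val]) (Ne.symm ne)).up inj (sc n f) v a1
      · rwa [rp_hi f]
    by_cases f : n' < 6
    · rw [rp_lo f] at a2 ⊢
      exact (e n' f _ v ne).dn inj (sc n' f) v' a2
    · rwa [rp_hi f]
  · obtain rfl := Nat.eq_of_beq_eq_true d
    simp only [d, cond_true, Bool.and_eq_true, Nat.blt_eq, Bool.or_eq_true, Nat.beq_eq] at h
    rw [rp_lo h.1, rp_lo h.1]
    refine pos2_lt.2 (h.2.imp (fun f => ln_lt (sc n h.1) f v'.1) ?_)
    rintro ⟨rfl, f⟩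
    refine ⟨rfl, ?_⟩
    rw [Fin.lt_def, pz_val (fc_le v.2.1), pz_val (fc_le v'.2.1), fc, fc]
    dsimp only
    split_ifs <;> omega

theorem Rs.vp_congr {t' : ι → N} {u : Hub K N (Pt K N) r0} (k : W.Rs j l t) (k' : W.Rs j l t')
    (h : ∀ g, t g = t' g ∨ ∀ n, W.Bk j u n →
      W.F.tree n ≠ W.F.tree (t g) ∧ W.F.tree n ≠ W.F.tree (t' g)) :
    W.vp j l t u = W.vp j l t' u := by
  have e : ∀ g z, (W.rts l t).In (W.pos j) u g z ∨ (W.rts l t').In (W.pos j) u g z →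
      t g = t' g := fun g z c => (h g).resolve_right fun d => c.elim
    (fun c => let ⟨n, a1, _, a2⟩ := k.of_in c; (d n a2).1 a1.1.tree)
    fun c => let ⟨n, a1, _, a2⟩ := k'.of_in c; (d n a2).2 a1.1.tree
  have e' : ∀ g z, t g = t' g →
      ((W.rts l t).In (W.pos j) u g z ↔ (W.rts l t').In (W.pos j) u g z) := fun g z c => by
    simp only [Rts.In, rts, c]
  rcases (W.rts l t).out_or (W.pos j) u with c | ⟨g, z, c⟩
  · have c' : (W.rts l t').Out (W.pos j) u := fun g z d => c g z ((e' g z (e g z (Or.inr d))).2 d)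
    simp only [Rts.vp, Rts.an_out c, Rts.an_out c', Rts.rk_out c, Rts.rk_out c']
  · have d := e g z (Or.inl c)
    have c' := (e' g z d).1 c
    simp only [Rts.vp, k.ok.an_in (W.lref j) c, k'.ok.an_in (W.lref j) c',
      k.ok.rk_in (W.lref j) c, k'.ok.rk_in (W.lref j) c', k.lab, k'.lab, d]

theorem bk_ln (c : s ≠ j) (h : i ≤ 3) {n : N} (d : W.Bk j (W.ln s y k i) n) :
    W.In (W.ln s y k 1) n := by
  obtain _ | i := i
  · obtain ⟨a, d⟩ := bl_iff.1 d
    rw [lp, ln, Mac.sl_0, Mac.el_elst] at d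
    exact ⟨a, (W.B.rings.lo_sc_symm _).symm.trans d⟩
  · obtain ⟨a, d⟩ := (bk_cold (cold_sys.2 c)).1 d
    exact ⟨a, d⟩

end Wd

namespace Fw

variable {V : Fw K N r r0 q D e b} {j s : K} {y : Pt K N} {ω : Ps K N r r0}
  {v w : Vx K N (Pt K N) r r0}

theorem Rs.serveL {l : ι → ℕ} {t : ι → N} {b1 b2 : List Bool} {p1 p2 : List (Ps K N r r0)}
    {d : Ps K N r r0} {o : List ℕ} (k : V.Rs j l t) (c1 : V.W.Ch j l t (inl none) b1 p1 v)
    (c2 : V.W.Ch j l t (inl none) b2 p2 w) (a : v ≠ w)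
    (hO : ∀ g, pz (V.W.cut (l g) (t g)) 0 ∈ p1 ++ p2) (ok : chkL b1 b2 o = true)
    (h : o.Pairwise fun i i' => V.vr j l t (nth d (p1 ++ p2) i) < V.vr j l t (nth d (p1 ++ p2) i')) :
    V.W.Sv v w := fun {_ _} => by
  have v := funext (k.toRs.ok.vh_vn (nxt := V.W.S.O.nxt j))
  refine ((k.toRs.fr (O := ((p1 ++ p2).filter (·.2 = 0)).map Prod.fst) fun g =>
    List.mem_map.2 ⟨_, List.mem_filter.2 ⟨hO g, decide_eq_true rfl⟩, rfl⟩).rh k.hi_up).chainsL
    (by omega) (v ▸ c1) (v ▸ c2) a (fun L h => ?_) _ ok h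
  obtain ⟨⟨_, y⟩, f, rfl⟩ := List.mem_map.1 h
  obtain ⟨f, c⟩ := List.mem_filter.1 f
  obtain rfl : y = 0 := by simpa using c
  exact f

variable (V s y ω) in
/-- the cuts for the routes to `t false` and `t true` -/
noncomputable abbrev rq (t : Bool → N) : Nm → Ps K N r r0 :=
  V.W.rp s y ω (pz (V.W.cut 0 (t false)) 0) (pz (V.W.cut 0 (t true)) 0)

/-- **One option in one order.** -/
theorem Rs.core {t : Bool → N} (k : V.Rs j (fun _ => 0) t) (c : s ≠ j)
    (lo : ∀ n < 6, ∀ i ≤ 2, V.vr j (fun _ => 0) t (pz (V.W.ln s y n i) 0) <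
      V.vr j (fun _ => 0) t (pz (V.W.cut 0 (t true)) 0))
    (pi : ∀ k < 6, ∀ k' < 6, V.W.pt s y k = V.W.pt s y k' → k = k')
    (ou : ∀ n < 6, V.W.Oux s y n ω) {c1 c2 : List (Bool × Nm)}
    (h1 : V.W.Ch j (fun _ => 0) t (hv (nl (t false))) (c1.map Prod.fst)
      ((c1.map Prod.snd).map (V.rq s y ω t)) v)
    (h2 : V.W.Ch j (fun _ => 0) t (hv (nl (t true))) (c2.map Prod.fst)
      ((c2.map Prod.snd).map (V.rq s y ω t)) w) (ne : v ≠ w) {u : List ℕ}
    (srt : u.Pairwise fun a a' => V.vr j (fun _ => 0) t (V.rq s y ω t (a, 1, 0)) <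
      V.vr j (fun _ => 0) t (V.rq s y ω t (a', 1, 0))) (ok : chkO u c1 c2 = true) :
    V.W.Sv v w := by
  simp only [chkO, Bool.and_eq_true, List.all_eq_true, decide_eq_true_eq] at ok
  have cy := ((k.toRs.fr fun g => List.mem_map_of_mem (f := fun g => V.W.cut 0 (t g))
    (show g ∈ [false, true] by cases g <;> simp)).rh k.hi_up).cyc
  have inj : Injective (rh (V.Hi j) (V.W.vp j (fun _ => 0) t)) := fun _ _ =>
    cy.inj trivial trivial
  have m : ∀ a, val (nth (7, 1, 0) (cuts c1 c2) a) ∧ (nth (7, 1, 0) (cuts c1 c2) a).1 ∈ u :=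
    fun a => ok.2.2 _ ((List.mem_cons.1 (nth_mem _ _ a)).elim (fun d => by rw [d]; simp [cuts]) id)
  have : IsTrans ℕ fun a a' => V.vr j (fun _ => 0) t (V.rq s y ω t (nth (7, 1, 0) (cuts c1 c2) a)) <
      V.vr j (fun _ => 0) t (V.rq s y ω t (nth (7, 1, 0) (cuts c1 c2) a')) := ⟨fun _ _ _ => lt_trans⟩
  intro _ _
  refine k.serveL (d := V.rq s y ω t (7, 1, 0)) ((k.toRs.ch_cut false).app h1)
    ((k.toRs.ch_cut true).app h2) ne (by rintro (_ | _) <;> simp) ok.1 ?_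
  have e : [pz (V.W.cut 0 (t false)) 0] ++ (c1.map Prod.snd).map (V.rq s y ω t) ++
      ([pz (V.W.cut 0 (t true)) 0] ++ (c2.map Prod.snd).map (V.rq s y ω t)) =
      (cuts c1 c2).map (V.rq s y ω t) := by simp [cuts, Wd.rp]
  simp only [e, nth_map]
  refine List.isChain_iff_pairwise.1 (chS_ok (fun a a' => Wd.nlt_ok inj (fun n hn i hi => ?_) pi
    (fun n hn => ⟨ou n hn, Wd.ou_nl _, Wd.ou_nl _⟩) srt (m a).1 (m a').1 (m a').2) _ ok.2.1)
  have a1 := (pos2_lt.1 (lo n hn i hi)).resolve_right fun f => f.2.false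
  have a2 : (V.W.rts (fun _ => 0) t).vn (V.W.S.O.nxt j) (V.W.ln s y n i) = V.W.ln s y n (i + 1) :=
    (Rts.vn_off (by rw [Wd.nxt_ln c hi]; exact k.toRs.off_sys _)).trans (Wd.nxt_ln c hi)
  exact a2 ▸ ⟨(cy.succ _ trivial _ trivial a1).1, fun L d => (cy.succ _ trivial L trivial d).2⟩

/-- **Alternatives.** -/
theorem alt {O γ : Type} [LinearOrder γ] {us tl : List ℕ} {F : List Fm}
    {op : List O} {f : List ℕ → O → Bool} {R : O → ℕ → ℕ → Prop} (ρ : ℕ → γ) (nd : us.Nodup)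
    (inj : ∀ a ∈ us, ∀ a' ∈ us, ρ a = ρ a' → a = a') (hF : ∀ g ∈ F, g.Holds fun i => ρ (nth 0 us i))
    (ag : ∀ o ∈ op, ∀ a ∈ us, ∀ a' ∈ us, ρ a < ρ a' → R o a a')
    (h : ∀ o ∈ op, tl.Pairwise (R o) ∧ ∀ a ∈ us, ∀ a' ∈ tl, R o a a')
    (ok : ((orders F us.length).all fun l => op.any (f (l.map (nth 0 us) ++ tl))) = true) :
    ∃ o ∈ op, ∃ u, u.Pairwise (R o) ∧ f u o = true := by
  have m : ∀ i < us.length, nth 0 us i ∈ us := fun i hi => nth_get 0 us i hi ▸ List.getElem_mem _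
  obtain ⟨l, a1, a2, a3⟩ := orders_ok hF us.length fun i hi i' hi' d => by
    have := inj _ (m i' (by omega)) _ (m i hi) d
    rw [nth_get 0 us i hi, nth_get 0 us i' (by omega), nd.getElem_inj_iff] at this
    omega
  obtain ⟨o, b1, b2⟩ := List.any_eq_true.1 (List.all_eq_true.1 ok l a1)
  have m' : ∀ i ∈ l, nth 0 us i ∈ us := fun i hi => m i (List.mem_range.1 (a3.subset hi))
  exact ⟨o, b1, _, List.pairwise_append.2 ⟨List.pairwise_map.2 (a2.imp_of_mem fun c c' =>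
    ag o b1 _ (m' _ c) _ (m' _ c')), (h o b1).1,
    List.forall_mem_map.2 fun i hi => (h o b1).2 _ (m' i hi)⟩, b2⟩

end Fw

end Pool.Agent.P.MP_439f1f_co
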