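import Pool.Agent.P.MP_439f1f_co.Nd0

/-!
Admissible parameters for the pairs of nodes.
-/

set_option autoImplicit false
set_option linter.unusedSectionVars false

namespace Pool.Agent.P.MP_439f1f_co

open Sum Function

variable {K N : Type} {r r0 q D e b : ℕ}

/-- if both classes are alive, then `T'` has to come before `T` -/
def Kl.Bef (T' T : Kl K r r0) : Prop :=
  (T.ty = T'.ty ∧ T'.off = T.off + 1) ∨
    (T.ty.hd = false ∧ T.sl = .Z ∧ T'.ty.hd = true ∧ T'.sl = .H ∧ T.ty.col = T'.ty.col) ∨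
    ∃ w c k, T.1 = (.hM w c k, .Z) ∧ T'.1 = (.hP w c, .Z)

theorem Kl.Bef.asymm {T T' : Kl K r r0} (h : T'.Bef T) : ¬T.Bef T' := by
  rintro (⟨b1, b2⟩ | ⟨b1, b2, b3, b4, -⟩ | ⟨w, c, k, b1, b2⟩) <;>
    rcases h with ⟨c1, c2⟩ | ⟨c1, c2, c3, c4, -⟩ | ⟨w', c', k', c1, c2⟩
  · omega
  · simp [b1, c1] at c3
  · simp [Kl.ty, c1, c2] at b1
  · simp [c1, b1] at b3
  · simp [b1] at c3
  · simp [Kl.ty, c2, HT.hd] at b1
  · simp [Kl.ty, b1, b2] at c1
  · simp [Kl.ty, b2, HT.hd] at c1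
  · simp [b2] at c1

theorem Kl.Bef.col {T T' : Kl K r r0} (h : T'.Bef T) : T.ty.col = T'.ty.col := by
  rcases h with ⟨c1, -⟩ | ⟨-, -, -, -, c⟩ | ⟨w', c', k', c1, c2⟩
  exacts [by rw [c1], c, by simp only [Kl.ty, c1, c2, HT.col]]

theorem Kl.Lz.of_kind {T T' : Kl K r r0} (s : T.stg = T'.stg) (h : T.kind.Lz T'.kind) : T.Lz T' := by
  obtain ⟨w, p, c, p', c', a1, a2, a3⟩ := h
  exact ⟨(T.stg, w.2), p, c, p', c', Kl.val_of_kind a1, s ▸ Kl.val_of_kind a2, a3⟩

/-- the level kind of a class of first labels of node lines -/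
def Kl.hl (T : Kl K r r0) : Fin 4 :=
  match T.ty with
  | .tN _ _ l => l
  | _ => 0

theorem exists_kap (l l' : Fin 4) :
    ∃ k : Fin 7, (k = 2 ∨ k = 4 ∨ k = 6) ∧ lc k ≠ l ∧ lc k ≠ l' := by revert l l'; decide

theorem lc_odd {l : ℕ} (h : l % 2 = 1) : lc l = 3 := if_pos h

theorem col_succ_ne (c : ZMod 3) : c + 1 ≠ c := by revert c; decide

theorem exists_np (ev : r0 % 2 = 0) (κ : Bool → Kd r r0) : ∃ np : ZMod 3 → Fin (r0 + 1),
    (∀ c c', np c ≠ Fin.last _ → np c' ≠ Fin.last _ → c = c') ∧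
    (∀ i w c k, (κ i).1 = (.hM w (c + 1) k, .Z) → k ≤ np c) ∧
    ∀ i i' w c k m, (κ i).1 = (.hM w (c + 1) k, .Z) → (κ i').1 = (.tE w (c + 1) m, .H) →
      el (r0 + 1) (np c) k < el (r0 + 1) (np c) m ∨ (k = m ∧ el (r0 + 1) (np c) m % 2 = 0) := by
  by_cases h : ∃ i i' w c k m, (κ i).1 = (.hM w (c + 1) k, .Z) ∧ (κ i').1 = (.tE w (c + 1) m, .H)
  · obtain ⟨i, i', w, c, k, m, a, a'⟩ := h
    have u : ∀ i1 w1 c1 k1, (κ i1).1 = (.hM w1 (c1 + 1) k1, .Z) → c1 = c ∧ k1 = k :=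
      fun i1 w1 c1 k1 d => by
        have : i1 = i := by
          have n1 : i1 ≠ i' := fun f => by simp [f, a'] at d
          have n2 : i ≠ i' := fun f => by simp [f, a'] at a
          revert n1 n2
          cases i <;> cases i' <;> cases i1 <;> simp
        subst this
        simpa [d, and_assoc] using (by simpa [d] using a : w1 = w ∧ c1 = c ∧ k1 = k).2
    refine ⟨fun c' => if c' = c then k else Fin.last _, fun c1 c2 b1 b2 => ?_,
      fun i1 w1 c1 k1 d => ?_, fun i1 i2 w1 c1 k1 m1 d _ => ?_⟩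
    · rw [(by_contra fun f => b1 (if_neg f) : c1 = c), (by_contra fun f => b2 (if_neg f) : c2 = c)]
    · obtain ⟨rfl, rfl⟩ := u _ _ _ _ d
      simp
    · obtain ⟨rfl, rfl⟩ := u _ _ _ _ d
      have := k1.2
      have := m1.2
      simp only [if_true, el, Fin.ext_iff]
      split_ifs <;> omega
  · exact ⟨fun _ => Fin.last _, fun _ _ a => absurd rfl a, fun _ _ _ _ _ => Fin.le_last _,
      fun i i' w c k m a a' => absurd ⟨i, i', w, c, k, m, a, a'⟩ h⟩

/-- **Two closed items**, alive or cut (`z`) at the last level. -/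
theorem Par.nn_two (od : D % 2 = 1) (ev : r0 % 2 = 0) (κ : Bool → Kd r r0) (s : Bool)
    (z : Bool → Bool) (ne : κ false ≠ κ true)
    (h1 : z false = false → z true = false → ¬(κ true).Bef (κ false) ∧
      (s = false → ∀ i, ¬(κ i).Lz (κ (!i))))
    (h2 : ∀ i w, z i = false → z (!i) = true → (κ i).1 ≠ (.tN w ((κ (!i)).ty.col + 1) 3, .H)) :
    ∃ π : Par r r0 D, π.Adm ∧ π.rook = false ∧ π.op = none ∧ (∀ i, κ i ∈ π.ks i) ∧
      (∀ i, π.sel i = if s then some (!i) else none) ∧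
      ∀ i, (π.cut i : ℕ) = if z i then D else 0 := by
  obtain ⟨k, k1, k2, k3⟩ := exists_kap (κ false).hl (κ true).hl
  obtain ⟨np, n1, n2, n3⟩ := exists_np ev κ
  let π : Par r r0 D := { Par.base r r0 D with
    kap := fun _ => k, ks := fun i => {κ i}, sel := fun i => if s then some (!i) else none,
    cut := fun i => if z i then Fin.last _ else 0, np := np }
  have m : ∀ a x, π.mem a x ↔ ∃ i, a = some i ∧ x = κ i := by
    rintro (_ | i) x <;> simp [Par.mem, π, Par.base]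
  have D0 : (Fin.last D : Fin (D + 1)) ≠ 0 := fun f => by
    have := congrArg Fin.val f
    simp at this
    omega
  have al : ∀ a x, π.Al a x → ∃ i, a = some i ∧ x = κ i ∧ z i = false := fun a x h => by
    obtain ⟨i, rfl, rfl⟩ := (m a x).1 h.1
    refine ⟨i, rfl, rfl, ?_⟩
    have := h.2 i rfl
    cases f : z i
    · rfl
    · simp [π, f, Par.base] at this
      omega
  have ord : ∀ a a' x x', π.Al a x → π.Al a' x' → x'.Bef x → π.Ord a a' x.ty.col := by
    intro a a' x x' h h' c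
    obtain ⟨i, rfl, rfl, f⟩ := al _ _ h
    obtain ⟨i', rfl, rfl, f'⟩ := al _ _ h'
    have : i = true ∧ i' = false := by
      cases i <;> cases i'
      exacts [(c.asymm c).elim, ((h1 f f').1 c).elim, ⟨rfl, rfl⟩, (c.asymm c).elim]
    obtain ⟨rfl, rfl⟩ := this
    refine ⟨fun i d => by simp [π, Par.base] at d, by simp [Par.zi], fun a0 x d g => ?_⟩
    obtain ⟨i, rfl, rfl⟩ := (m _ _).1 d
    cases i
    exacts [absurd (g.trans c.col) (col_succ_ne _), absurd g (col_succ_ne _)]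
  refine ⟨π, ⟨fun _ => k1, fun i => ?_, fun a a' x d h h' => ?_, fun d => by simp [π, Par.base] at d,
    fun a x w c l h d => ?_, fun a a' x x' h h' _ t o => ?_, fun a a' x x' h h' t1 t2 t3 t4 t5 => ?_,
    fun a a' x x' w c k h h' _ d d' => ?_, fun a a' x x' w c k i h h' _ d d' => ?_,
    fun a a' x x' w p c p' c' h h' g d d' => ?_, n1, fun _ _ => rfl,
    fun a x w c k h d _ => ?_, fun i d => by simp [π, Par.base] at d,
    fun i d => by simp [π, Par.base] at d, fun i d => by simp [π, Par.base] at d,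
    fun d => by simp [π, Par.base] at d⟩, rfl, rfl, fun _ => rfl, fun _ => rfl, fun i => ?_⟩
  · cases f : z i <;> simp [π, f]
  · obtain ⟨i, rfl, rfl⟩ := (m _ _).1 h
    obtain ⟨i', rfl, g⟩ := (m _ _).1 h'
    cases i <;> cases i'
    exacts [absurd rfl d, absurd g ne, absurd g.symm ne, absurd rfl d]
  · obtain ⟨i, rfl, rfl, f⟩ := al _ _ h
    have hl : (κ i).hl = l := by simp only [Kl.hl, Kl.ty, d]
    refine ⟨by cases i; exacts [hl ▸ k2, hl ▸ k3], fun i' x g g1 g2 => ?_⟩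
    obtain rfl : x = κ i' := g
    have f' : z i' = true := by_contra fun c => g2 (if_neg c)
    obtain rfl : i' = !i := by revert f f'; cases i <;> cases i' <;> simp_all
    have : (π.cut (!i) : ℕ) = D := by simp [π, f']
    rw [this, lc_odd od]
    rintro rfl
    exact h2 i w f f' (g1 ▸ d)
  · exact ⟨ord _ _ _ _ h h' (Or.inl ⟨t, o⟩), fun d => by simp [π, Par.base] at d⟩
  · exact ⟨ord _ _ _ _ h h' (Or.inr (Or.inl ⟨t1, t2, t3, t4, t5⟩)), rfl⟩
  · have o := ord _ _ _ _ h h' (Or.inr (Or.inr ⟨_, _, _, d, d'⟩))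
    obtain ⟨i, rfl, rfl, -⟩ := al _ _ h
    exact ⟨by simpa only [Kl.ty, d, HT.col] using o, fun d => by simp [π, Par.base] at d,
      by simp, n2 _ _ _ _ d⟩
  · obtain ⟨i1, rfl, rfl, -⟩ := al _ _ h
    obtain ⟨i2, rfl, rfl, -⟩ := al _ _ h'
    exact ⟨by simp, n3 _ _ _ _ _ _ d d'⟩
  · obtain ⟨i1, rfl, rfl, f⟩ := al _ _ h
    obtain ⟨i2, rfl, rfl, f'⟩ := al _ _ h'
    obtain rfl : i2 = !i1 := by
      have : i1 ≠ i2 := fun f => by simp [f, d'] at d
      revert this
      cases i1 <;> cases i2 <;> simp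
    have s0 : s = false := by
      cases s
      · rfl
      · simpa using g (!i1) (!!i1) (by simp [π, Par.sl]) (by simp [π, Par.sl])
    refine not_lt.1 fun l => (h1 ?_ ?_).2 s0 i1 ⟨w, p, c, p', c', d, d', l⟩ <;> cases i1 <;>
      assumption
  · obtain ⟨i, rfl, rfl, -⟩ := al _ _ h
    exact n2 _ _ _ _ d
  · cases f : z i <;> simp [π, f]

/-- **An open item** with the entry `1`, after an item that is cut at the last level. -/
theorem Par.nn_open (od : D % 2 = 1) (two : 2 ≤ r0) (κ : Kd r r0) (S : Set (Kd r r0))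
    (h : ∀ x ∈ S, x ≠ κ ∧ (∀ w, κ.1 ≠ (.tN w (x.ty.col + 1) 3, .H)) ∧
      ∀ w k, x.1 ≠ (.hM w (κ.ty.col + 1) k, .Z)) :
    ∃ π : Par r r0 D, π.Adm ∧ π.op = some true ∧ π.flip = false ∧ π.fl = 2 ∧ (π.ek : ℕ) = 1 ∧
      κ ∈ π.ks true ∧ π.ks false = S ∧ (∀ i, π.sel i = none) ∧ π.cut true = 0 ∧
      (π.cut false : ℕ) = D := by
  obtain ⟨k, k1, k2, -⟩ := exists_kap κ.hl κ.hl
  let π : Par r r0 D := { Par.base r r0 D with
    kap := fun _ => k, ks := fun i => cond i {κ} S, cut := fun i => cond i 0 (Fin.last _),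
    op := some true, fl := 2, ek := ⟨1, by omega⟩ }
  have m0 : ∀ x, π.mem none x ↔ x.1 = (.hM κ.ty.wor (κ.ty.col + 1) ⟨1, by omega⟩, .Z) :=
    fun x => ⟨fun ⟨i, y, g1, g2, g3⟩ => by
      obtain rfl := Option.some.inj g2
      obtain rfl : y = κ := g1
      exact g3, fun g => ⟨true, κ, rfl, rfl, g⟩⟩
  have al : ∀ a x, π.Al a x → (a = some true ∧ x = κ) ∨
      (a = none ∧ x.1 = (.hM κ.ty.wor (κ.ty.col + 1) ⟨1, by omega⟩, .Z)) := by
    rintro (_ | _ | _) x d
    · exact Or.inr ⟨rfl, (m0 x).1 d.1⟩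
    · have := d.2 _ rfl
      simp [π, Fin.ext_iff] at this
      omega
    · exact Or.inl ⟨rfl, d.1⟩
  have cn := col_succ_ne κ.ty.col
  have bef : ∀ a a' x x', π.Al a x → π.Al a' x' → ¬x'.Bef x := fun a a' x x' d d' c => by
    have c1 := c.col
    rcases al _ _ d with ⟨-, rfl⟩ | ⟨-, f⟩ <;> rcases al _ _ d' with ⟨-, rfl⟩ | ⟨-, f'⟩
    · exact c.asymm c
    · exact cn (by simpa only [Kl.ty, f', HT.col] using c1.symm)
    · exact cn (by simpa only [Kl.ty, f, HT.col] using c1)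
    · obtain rfl : x = x' := Subtype.ext (f.trans f'.symm)
      exact c.asymm c
  refine ⟨π, ⟨fun _ => k1, fun i => ?_, fun a a' x d g g' => ?_, fun d => by simp [π, Par.base] at d,
    fun a x w c l g d => ?_, fun a a' x x' g g' _ t o => (bef _ _ _ _ g g' (Or.inl ⟨t, o⟩)).elim,
    fun a a' x x' g g' t1 t2 t3 t4 t5 =>
      (bef _ _ _ _ g g' (Or.inr (Or.inl ⟨t1, t2, t3, t4, t5⟩))).elim,
    fun a a' x x' w c k g g' _ d d' => (bef _ _ _ _ g g' (Or.inr (Or.inr ⟨_, _, _, d, d'⟩))).elim,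
    fun a a' x x' w c k i g g' _ d d' => ?_,
    fun a a' x x' w p c p' c' g g' _ d d' => ?_, fun _ _ a => absurd rfl a, fun _ a => absurd rfl a,
    fun a x w c k _ _ _ => Fin.le_last _, fun i d => ?_, fun i d f => ?_,
    fun i d x _ w c l _ => Or.inr (Or.inl ⟨rfl, Or.inl (Option.some.inj d).symm⟩),
    fun d => by simp [π, Par.base] at d⟩, rfl, rfl, rfl, rfl, rfl, rfl, fun _ => rfl, rfl, rfl⟩
  · cases i <;> simp [π]
  · exfalso
    rcases a with _ | _ | _ <;> rcases a' with _ | _ | _ <;> first | exact d rfl | skip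
    · exact (h x g').2.2 _ _ ((m0 x).1 g)
    · obtain rfl : x = κ := g'
      exact cn (by simpa only [HT.col] using congrArg (·.1.col) ((m0 x).1 g).symm)
    · exact (h x g).2.2 _ _ ((m0 x).1 g')
    · exact (h x g).1 g'
    · obtain rfl : x = κ := g
      exact cn (by simpa only [HT.col] using congrArg (·.1.col) ((m0 x).1 g').symm)
    · exact (h x g').1 g
  · rcases al _ _ g with ⟨-, rfl⟩ | ⟨-, f⟩
    · have hl : x.hl = l := by simp only [Kl.hl, Kl.ty, d]
      refine ⟨hl ▸ k2, fun i y g1 g2 g3 => ?_⟩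
      cases i
      · have : (π.cut false : ℕ) = D := rfl
        rw [this, lc_odd od]
        rintro rfl
        exact (h y g1).2.1 w (g2 ▸ d)
      · exact absurd rfl g3
    · simp [f] at d
  · exfalso
    rcases al _ _ g' with ⟨-, rfl⟩ | ⟨-, f'⟩
    · rcases al _ _ g with ⟨-, rfl⟩ | ⟨-, f⟩
      · simp [d] at d'
      · refine cn ?_
        have := congrArg (·.1.col) (f.symm.trans d)
        simpa only [Kl.ty, d', HT.col] using this
    · simp [f'] at d'
  · exfalso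
    rcases al _ _ g with ⟨-, rfl⟩ | ⟨-, f⟩
    · rcases al _ _ g' with ⟨-, rfl⟩ | ⟨-, f'⟩
      exacts [by simp [d] at d', by simp [f'] at d']
    · simp [f] at d
  · obtain rfl := Option.some.inj d
    exact ⟨Set.subsingleton_singleton, Nat.zero_le _, rfl, Or.inr rfl⟩
  · obtain rfl := Option.some.inj d
    simp [π, Fin.ext_iff] at f
    omega

/-- a stage for the parameters `π` that differs from two given stages and separates them -/
theorem Fw.nn_stage [DecidableEq K] [Finite K] [Finite N] [Nonempty K] (V : Fw K N r r0 q D e b)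
    {π : Par r r0 D} (h : π.Adm) (a a' : K) :
    ∃ j, V.par j = π ∧ a ≠ j ∧ a' ≠ j ∧ V.om j a = true ∧ (a' ≠ a → V.om j a' = false) := by
  obtain ⟨g, g1, g2⟩ : ∃ g : Fin 64, g ≠ V.grp a ∧ g ≠ V.grp a' := by
    generalize V.grp a = x
    generalize V.grp a' = y
    by_contra c
    push Not at c
    by_cases d : 0 = x
    · subst d
      exact absurd ((c 1 (by decide)).trans (c 2 (by decide)).symm) (by decide)
    · by_cases d' : 1 = x
      · subst d'
        exact absurd ((c 0 (by decide)).trans (c 2 (by decide)).symm) (by decide)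
      · exact absurd ((c 0 d).trans (c 1 d').symm) (by decide)
  obtain ⟨j, j1, j2, j3, j4, -⟩ := V.rich g π h a a' a'
  exact ⟨j, j2, fun d => g1 (by rw [d, j1]), fun d => g2 (by rw [d, j1]), j3, j4⟩

end Pool.Agent.P.MP_439f1f_co
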