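import Pool.Agent.P.MP_439f1f_co.Sv2
import Pool.Agent.P.MP_439f1f_co.B21

/-!
Service of the last label before a node and a hub of a moat.
-/

set_option autoImplicit false
set_option linter.unusedSectionVars false

namespace Pool.Agent.P.MP_439f1f_co

open Function SimpleGraph Sum

variable {K N : Type} {r r0 q D e b : ℕ} [DecidableEq K] [Finite K] [Finite N] [Nonempty K]

namespace Fw.Lz

variable (V : Fw K N r r0 q D e b) {u y : N} {w : K × Bool}

theorem st_pos (lu : V.F.lev u = D)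
    (hu : (V.F.tree u).1 = (.hP w ((V.F.tree y).col + 1), .Z)) (k : Fin (r0 + 1)) :
    ∃ j, V.W.Rs j ![0, 0] ![u, V.W.ell y 0] ∧ V.W.port j y = k ∧
      (∀ g, ¬V.W.On (![0, 0] g) (![u, V.W.ell y 0] g) y) ∧
      (V.L j).key y < (V.L j).key u ∧ (V.L j).key u < (V.L j).key (V.W.ell y 0) := by
  have hx : (V.F.tree (V.W.ell y 0)).1 = _ := V.W.tree_ell V.D_pos y 0
  obtain ⟨κ, hκ⟩ := Kl.exists_kap (V.F.tree u) (V.F.tree (V.W.ell y 0))
  have ne : V.F.tree u ≠ V.F.tree (V.W.ell y 0) := fun f => by simp [f, hx] at hu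
  have px : Kl.Px (Kl.pt (V.F.tree y).col k) (V.F.tree u) := by simp [Kl.Px, hu]
  have py : Kl.Px (Kl.pt (V.F.tree y).col k) (V.F.tree (V.W.ell y 0)) := fun w c k' d _ => by
    rw [hx] at d
    simp only [Prod.mk.injEq, HT.hM.injEq] at d
    rw [← d.1.2.2]
    exact Nat.zero_le _
  have ta : ({ Par.base r r0 D with kap := κ, np := Kl.pt (V.F.tree y).col k } : Par r r0 D).TA
      (tw (V.F.tree u) (V.F.tree (V.W.ell y 0))) := by
    refine Par.TA.two rfl rfl (fun c => (hκ c).1) (by simp [Par.base]) (Kl.pt_one _ _)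
      (by simp [Par.base]) ne (fun i _ => ?_) fun _ _ => ⟨⟨ne, ?_, ?_, ?_, ?_⟩,
        ⟨Kl.pt_one _ _, px, py, ?_, ?_, ?_, fun w c k' d _ => ?_⟩, by simp [Par.base]⟩
    · cases i
      exacts [⟨fun c => (hκ c).2.1, px, by simp [Par.base]⟩,
        ⟨fun c => (hκ c).2.2, py, by simp [Par.base]⟩]
    · exact fun d => by simpa [Kl.ty_val hu, Kl.ty_val hx] using d.1
    · exact fun d => by simpa [Kl.ty_val hu, HT.hd] using d.1
    · rintro ⟨_, _, _, d, -⟩
      simp [hu] at d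
    · rintro (⟨_, _, _, _, _, d, -⟩ | ⟨_, _, _, _, _, d, -⟩)
      exacts [by simp [hu] at d, by simp [hx] at d]
    · simp [Kl.Ph, hu]
    · simp [Kl.Ph, hu]
    · simp [hu]
    · rw [hx] at d
      simp only [Prod.mk.injEq, HT.hM.injEq] at d
      rw [← d.1.2.2]
      exact Nat.zero_le _
  obtain ⟨gr, hg⟩ := V.W.exists_grp V.grp [nl y, nl u] (by simp)
  obtain ⟨j, s⟩ := V.exists_st gr ta [] (by simp) (by simp)
  have sn : (V.F.tree y).stg ≠ j := (hg _ (by simp) j s.grp).wor (V.W.in_pay (inl y))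
  have su : (V.F.tree u).stg ≠ j := (hg (nl u) (by simp) j s.grp).wor (V.W.in_pay (inl u))
  have sx : (V.F.tree (V.W.ell y 0)).stg ≠ j := by rwa [Kl.stg, Kl.ty_val hx]
  have ru := s.role false _ rfl su
  have rx := s.role true _ rfl sx
  have z : ∀ c : ZMod 3, c + 1 ≠ c := by decide
  have rn : V.Rest j (V.F.tree y) := s.rest_kind sn (by
    rintro (_ | _ | _) T d
    · simp [Par.Mt, Par.base] at d
    · exact Kl.kind_ne (by rw [show T = _ from d, cond_false, Kl.col_val hu]; exact z _)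
    · exact Kl.kind_ne (by rw [show T = _ from d, cond_true, Kl.col_val hx]; exact z _))
  refine ⟨j, .two ((s.liv (i := false) rfl su rfl).run rfl (by rw [lu, V.od]) (V.F.surj _).1)
    ((s.liv (i := true) rfl sx rfl).run rfl (by rw [V.lev_ell, V.od]) (V.F.surj _).1)
    (Wd.On.tree_ne ne), ?_, fun i f => ?_, rest_lt rn ru s.dr,
    ru.lt rx s.rook (by rw [s.zi, s.zi]; exact Nat.lt_of_sub_eq_succ rfl)⟩
  · rw [port_np sn fun o => Cut.not_ot (Or.inl rn) o.ot, s.np]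
    exact Kl.pt_self _ _
  · have t : V.F.tree y = V.F.tree (![u, V.W.ell y 0] i) := f.1.tree
    fin_cases i
    exacts [ru.not_rest (t ▸ rn), rx.not_rest (t ▸ rn)]

theorem st_zero (lu : V.F.lev u = D)
    (hu : (V.F.tree u).1 = (.hP w ((V.F.tree y).col + 1), .Z)) :
    ∃ j, V.W.Rs j ![0, 0] ![u, V.W.ell y 1] ∧ V.W.port j y = 0 ∧
      (∀ g, ¬V.W.On (![0, 0] g) (![u, V.W.ell y 1] g) y) ∧
      (V.L j).key y < (V.L j).key u ∧ (V.L j).key u < (V.L j).key (V.W.ell y 1) := by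
  have two := V.two_r0
  have cu : (V.F.tree u).col = (V.F.tree y).col + 1 := Kl.col_val hu
  have z : ∀ c : ZMod 3, c ≠ c + 1 := by decide
  have z2 : ∀ c : ZMod 3, c + 1 + 1 ≠ c := by decide
  have nc : (V.F.tree y).col ≠ (V.F.tree u).col := cu ▸ z _
  have ne : V.F.tree y ≠ V.F.tree u := fun f => nc (by rw [f])
  obtain ⟨κ, hκ⟩ := Kl.exists_kap (V.F.tree y) (V.F.tree u)
  have ta : ({ Par.base r r0 D with kap := κ, op := some false, fl := 2, flip := true, ek := ⟨1, by omega⟩ } : Par r r0 D).TA (tw (V.F.tree y) (V.F.tree u)) := by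
    refine Par.TA.opn (i := false) rfl rfl rfl rfl (fun _ => rfl) rfl rfl ne ?_
      (fun c => ⟨(hκ c).1, (hκ c).2.1, (hκ c).2.1⟩)
      (Or.inr ⟨rfl, fun c => ⟨(hκ c).1, (hκ c).2.2, (hκ c).2.2⟩, .of_col nc ?_, ?_, ?_,
        fun _ => rfl⟩) (fun w c l d => Or.inr ⟨rfl, Or.inr ?_⟩) fun _ => ⟨rfl, rfl, rfl, w, hu⟩
    · simp [Kl.ty_val hu, Kl.ent, Kl.ty]
    · rintro (⟨_, _, _, _, _, -, d, -⟩ | ⟨_, _, _, _, _, d, -⟩) <;> simp [hu] at d
    · simp [hu]
    · rintro ⟨_, _, _, _, -, d⟩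
      simp [hu] at d
    · have : (V.F.tree y).col = c := Kl.col_val d
      rw [← this]
      exact cu ▸ z2 _
  obtain ⟨gr, hg⟩ := V.W.exists_grp V.grp [nl y, nl u] (by simp)
  obtain ⟨j, s⟩ := V.exists_st gr ta [] (by simp) (by simp)
  have sn : (V.F.tree y).stg ≠ j := (hg _ (by simp) j s.grp).wor (V.W.in_pay (inl y))
  have su : (V.F.tree u).stg ≠ j := (hg (nl u) (by simp) j s.grp).wor (V.W.in_pay (inl u))
  have ry := s.role false _ rfl sn
  have ru := s.role true _ rfl su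
  have oo : V.Opn j y := s.opn (i := false) rfl sn rfl (Nat.zero_le _)
  have rx := oo.ot.ell
  rw [s.ek] at rx
  replace rx : V.Role j none (V.F.tree (V.W.ell y 1)) := rx
  refine ⟨j, .two ((s.liv (i := true) rfl su rfl).run rfl (by rw [lu, V.od]) (V.F.surj _).1)
    (rx.liv.run rfl (by rw [V.lev_ell, V.od]) (V.F.surj _).1)
    (Wd.On.tree_ne fun d => by cases ru.eq (d ▸ rx)), oo.port, fun i f => ?_,
    ry.lt ru s.rook (by rw [s.zi, s.zi]; exact Nat.lt_of_sub_eq_succ rfl),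
    ru.lt rx s.rook (by rw [s.zi, s.zi]; exact Nat.lt_of_sub_eq_succ rfl)⟩
  have t : V.F.tree y = V.F.tree (![u, V.W.ell y 1] i) := f.1.tree
  fin_cases i
  exacts [ne t, by cases ry.eq (t ▸ rx)]

variable {V} {j : K} {x : N} {L : Hub K N (Pt K N) r0} {i : ℕ}

theorem fst (k : V.W.Rs j ![0, 0] ![u, x]) (no : ∀ g, ¬V.W.On (![0, 0] g) (![u, x] g) y)
    (o : (V.L j).key y < (V.L j).key u) (h : V.W.Bk j L y) :
    V.W.vq j ![0, 0] ![u, x] (pz L i) < V.W.vq j ![0, 0] ![u, x] (pz (V.W.cut 0 u) 0) :=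
  Wd.vq_lt (Sw.bk_lt_cut (g := 0) k h (by
    rintro y (rfl | ⟨i, f, -⟩)
    exacts [o, (no i f).elim]))

theorem snd (k : V.W.Rs j ![0, 0] ![u, x]) (o : (V.L j).key u < (V.L j).key x) :
    V.W.vq j ![0, 0] ![u, x] (pz (V.W.cut 0 u) 0) <
      V.W.vq j ![0, 0] ![u, x] (pz (V.W.cut 0 x) 0) :=
  Wd.vq_lt (Sw.cut_lt_cut (g := 0) (g' := 1) k o)

variable (V)

theorem lz0 (lu : V.F.lev u = D) (hu : (V.F.tree u).1 = (.hP w ((V.F.tree y).col + 1), .Z)) :
    V.W.Sv (hv (nl u)) (hv (ml y 0)) := by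
  have two := V.two_r0
  obtain ⟨j, k, p, no, o1, o2⟩ := st_zero V lu hu
  intro _ _
  exact k.serve (k.ch_cut 0) ((k.ch_cut 1).app ((Wd.ch_entry y 1).app (k.ch_moat y 0)))
    (by simp [Wd.mo]) (fun g => by fin_cases g <;> simp) [.lt 3 2, .lt 2 0, .lt 0 1] []
    (by decide +kernel)
    ⟨k.vq_ml_prv (by rw [p, Nat.mod_eq_of_lt (show 1 < _ by omega)]; simp [el]; omega),
      fst k no o1 (Wd.bk_prv' j _), snd k o2⟩ trivial

theorem lze (lu : V.F.lev u = D) (hu : (V.F.tree u).1 = (.hP w ((V.F.tree y).col + 1), .Z))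
    {a s : ℕ} (h0 : 0 < a) (h : a + 2 * s = r0) : V.W.Sv (hv (nl u)) (hv (ml y a)) := by
  have v : ∀ y ≤ r0, y % (r0 + 1) = y := fun y _ => Nat.mod_eq_of_lt (by omega)
  obtain ⟨j, k, p, no, o1, o2⟩ := st_pos V lu hu ⟨a, by omega⟩
  have A : V.W.Arc j y a s := ⟨by omega, fun i _ => by rw [p, v _ (by omega)]; simp⟩
  have st := Wd.adj_arc (W := V.W) y (a + 2 * s)
  rw [show (ml y (a + 2 * s + 1) : Hub K N (Pt K N) r0) = ml y 0 from
    ml_inj.2 ⟨rfl, by simp [h]⟩] at st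
  intro _ _
  exact k.ro.serveM A (d := true) (k.ch_cut 0) ((k.ch_cut 1).app (Wd.ch_entry y 0)) st .nil
    (by simp [Wd.mo]) (fun g => by fin_cases g <;> simp)
    ⟨Wd.fre_cut, Wd.fre_cut, A.fre_prv fun i _ => by rw [v _ (by omega), v _ (by omega)]; omega⟩
    [.lt 3 2, .lt 2 0, .lt 0 1] [] (by decide +kernel)
    ⟨k.vq_ml_prv (by rw [p, v _ (by omega), v _ (by omega)]; simp [el]; omega),
      fst k no o1 (Wd.bk_prv' j _), snd k o2⟩ trivial

theorem lzo (lu : V.F.lev u = D) (hu : (V.F.tree u).1 = (.hP w ((V.F.tree y).col + 1), .Z))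
    {a s : ℕ} (h0 : 0 < a) (h : a + 1 + 2 * s = r0) : V.W.Sv (hv (nl u)) (hv (ml y a)) := by
  have v : ∀ y ≤ r0, y % (r0 + 1) = y := fun y _ => Nat.mod_eq_of_lt (by omega)
  obtain ⟨j, k, p, no, o1, o2⟩ := st_pos V lu hu ⟨a, by omega⟩
  have A : V.W.Arc j y (a + 1) s := ⟨by omega, fun i _ => by
    rw [p, v _ (by omega)]; simp; omega⟩
  have st := Wd.adj_arc (W := V.W) y (a + 1 + 2 * s)
  rw [show (ml y (a + 1 + 2 * s + 1) : Hub K N (Pt K N) r0) = ml y 0 from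
    ml_inj.2 ⟨rfl, by simp [h]⟩] at st
  intro _ _
  exact k.ro.serveM A (d := true) (k.ch_cut 0) ((k.ch_cut 1).app (Wd.ch_entry y 0)) st
    (k.ch_moat y a) (by simp [Wd.mo]) (fun g => by fin_cases g <;> simp)
    ⟨Wd.fre_cut, ⟨Wd.fre_cut, A.fre_prv fun i _ => by rw [v _ (by omega), v _ (by omega)]; omega,
      A.fre_ml fun i _ _ => by rw [v _ (by omega), v _ (by omega)]; omega⟩⟩
    [.lt 4 2, .lt 2 3, .lt 3 0, .lt 0 1] [] (by decide +kernel)
    ⟨k.vq_ml_prv (by rw [p, v _ (by omega), v _ (by omega)]; simp [el]; omega),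
      Wd.vq_out (k.out_bk (Wd.bk_prv' j _) fun g f => (no g f).elim)
        (k.out_bk (Wd.bk_pay.2 rfl) fun g f => (no g f).elim)
        ((Wd.prv_lt j _).trans (Wd.pos_ml.2 (by
          rw [p, v _ (by omega), v _ (by omega)]; simp [el]; omega))),
      fst k no o1 (Wd.bk_pay.2 rfl), snd k o2⟩ trivial

end Fw.Lz

/-- **The last label before a node and a hub of a moat** whose entry labels have the colour of the
label. -/
theorem Fw.sv_lz' (V : Fw K N r r0 q D e b) (u y : N) (k : Fin (r0 + 1)) (lu : V.F.lev u = D)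
    {w : K × Bool} (hu : (V.F.tree u).1 = (.hP w ((V.F.tree y).col + 1), .Z)) :
    V.W.Sv (hv (nl u)) (hv (inl (inr (y, k)))) := by
  have ev := V.ev
  have hk := k.2
  rw [← Wd.mo_val]
  intro _ _
  rcases Nat.eq_zero_or_pos k with c | c
  · rw [c]
    exact Lz.lz0 V lu hu
  rcases Nat.mod_two_eq_zero_or_one k with d | d
  · exact Lz.lze V lu hu (s := (r0 - k) / 2) c (by omega)
  · exact Lz.lzo V lu hu (s := (r0 - k - 1) / 2) c (by omega)

theorem Fw.sv_lz (V : Fw K N r r0 q D e b) (u y : N) (k : Fin (r0 + 1)) (lu : V.F.lev u = D)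
    (hu : (V.F.tree u).1 = (.hP (V.W.S.wor y) (V.W.S.col y + 1), .Z)) :
    V.W.Sv (hv (nl u)) (hv (inl (inr (y, k)))) := V.sv_lz' u y k lu hu

end Pool.Agent.P.MP_439f1f_co
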