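import Pool.Agent.P.MP_439f1f_co.Nd0
import Pool.Agent.P.MP_439f1f_co.Ht1

/-!
Routes through windows: service in the state of the system of the two ends.
-/

set_option autoImplicit false
set_option linter.unusedSectionVars false

namespace Pool.Agent.P.MP_439f1f_co

open Function SimpleGraph Sum

theorem Cyc.rhD {α β : Type*} [LinearOrder β] {H : α → Prop} {pos : α → β} {nx : α → α}
    {D : Set α} (up : ∀ u v, H u → pos u ≤ pos v → H v) (o : Cyc D nx pos) :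
    Cyc D nx (MP_439f1f_co.rh H pos) := by
  refine ⟨fun u hu v hv e => o.inj hu hv (rh_inj e), o.mem, fun u hu w hw h => ?_,
    fun u hu h w hw => ?_⟩
  · rw [← not_lt, rh_lt, rh_lt]
    rw [rh_lt] at h
    have := up u (nx u)
    have := up (nx u) w
    have := up w u
    have := up w (nx u)
    have := up u w
    rcases o.cases hu with ⟨a1, a2⟩ | ⟨a1, a2⟩
    · have := a2 w hw
      grind
    · have := a1 w hw
      have := a2 w hw
      grind
  · have b1 := h w hw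
    have b2 := h _ (o.mem u hu)
    rw [← not_lt, rh_lt] at b1 b2 ⊢
    have := up u (nx u)
    have := up (nx u) w
    have := up w u
    have := up (nx u) u
    rcases o.cases hu with ⟨a1, a2⟩ | ⟨a1, a2⟩
    · have := a2 w hw
      grind
    · have := a1 w hw
      have := a2 w hw
      have := a1 _ (o.mem u hu)
      grind

variable {K N β ι : Type} [DecidableEq K] [LinearOrder β] {r r0 q D e b : ℕ}
  [Finite K] [Finite N] [Nonempty K]

namespace Wd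

variable (W : Wd K N β r r0 q D e b)

/-- the upper nodes of the pairs of the routes -/
def Pw (l : ι → ℕ) (t : ι → N) (a : N) : Prop :=
  ∃ i, W.On (l i) (t i) a ∧ W.F.lev a % 2 = 1 ∧ a ≠ t i

/-- routes whose pairs are neighbours among the nodes of `U` -/
structure Rw (j : K) (l : ι → ℕ) (t : ι → N) (U X : N → Prop) : Prop where
  sub : ∀ v, U v → X v
  ev : ∀ i, l i % 2 = 0
  od : ∀ i, W.F.lev (t i) % 2 = 1
  lt : ∀ i, l i < W.F.lev (t i)
  dis : ∀ i i' a, W.On (l i) (t i) a → W.On (l i') (t i') a → i = i'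
  mem : ∀ i a, W.On (l i) (t i) a → U a
  adj : ∀ a, W.Pw l t a → W.pos j (nl a) < W.pos j (nl (W.F.kid a)) ∧ ∀ v, U v →
    W.pos j (nl a) ≤ W.pos j (nl v) → W.pos j (nl v) ≤ W.pos j (nl (W.F.kid a)) →
      v = a ∨ v = W.F.kid a

/-- the line is not visited between two nodes of `U` -/
def Ou (j : K) (U : N → Prop) (L : Hub K N (Pt K N) r0) : Prop :=
  ∀ u v, U u → U v → W.pos j L < W.pos j (nl u) ∨ W.pos j (nl v) < W.pos j L

/-- the order of the lines that ends with the nodes of `X` -/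
noncomputable def ro (j : K) (X : N → Prop) :=
  rh (fun L => ∀ v, X v → W.pos j (nl v) < W.pos j L) (W.pos j)

/-- the virtual order of the positions that ends with the cut of the route `g` -/
noncomputable def wr (j : K) (l : ι → ℕ) (t : ι → N) (g : ι) (p : Ps K N r r0) :=
  pos2 (rh (fun L => W.vp j l t (W.cut (l g) (t g)) < W.vp j l t L) (W.vp j l t)) p

theorem ro_cyc (j : K) (X : N → Prop) : Cyc Set.univ (W.S.O.nxt j) (W.ro j X) :=
  (W.S.O.cyc j).rh fun _ _ h c v d => (h v d).trans_le c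

variable {W} {j : K} {l : ι → ℕ} {t : ι → N} {U X : N → Prop} {a n v z : N} {g i i' : ι}
  {L L' u : Hub K N (Pt K N) r0} {m m' : ℕ}

theorem Ou.ne (h : W.Ou j X L) (c : X v) : L ≠ nl v := fun d => by simpa [d] using h v v c c

theorem Ou.hi (h : W.Ou j X L) (c : X z) :
    (∀ v, X v → W.pos j (nl v) < W.pos j L) ↔ W.pos j (nl z) < W.pos j L :=
  ⟨fun d => d z c, fun d v f => (h z v c f).resolve_left d.not_gt⟩

theorem Ou.nxt (h : W.Ou j X L) (c : X z) : W.ro j X L < W.ro j X (W.S.O.nxt j L) := by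
  refine ((W.ro_cyc j X).succ L trivial (nl z) trivial ?_).1
  have : W.pos j L ≠ W.pos j (nl z) := pos_ne (h.ne c)
  have a : ¬∀ v, X v → W.pos j (nl v) < W.pos j (nl z) := fun d => (d z c).false
  rw [ro, rh_lt, h.hi c]
  grind

theorem nxt_ro (h : W.ro j X L < W.ro j X L') : W.ro j X (W.S.O.nxt j L) ≤ W.ro j X L' :=
  ((W.ro_cyc j X).succ L trivial _ trivial h).2

theorem Pw.kid (h : W.Pw l t a) : ∃ i, W.On (l i) (t i) (W.F.kid a) ∧ W.F.lev a < D := by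
  obtain ⟨i, h, o, ne⟩ := h
  have := mt h.1.eq ne
  have := (W.F.surj (t i)).2.1
  have := h.2
  exact ⟨i, ⟨h.1.kid o ne, by rw [W.F.lev_kid (by omega)]; omega⟩, by omega⟩

namespace Rw

variable (k : W.Rw j l t U X)
include k

theorem len (i : ι) : l i + 2 * (W.rts l t).n i + 1 = W.F.lev (t i) := by
  have := k.ev i
  have := k.od i
  have := k.lt i
  show l i + 2 * ((W.F.lev (t i) - l i) / 2) + 1 = _
  omega

theorem lab (i : ι) : (W.rts l t).lab i = nl (t i) := by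
  show nl (W.F.at' (t i) (l i + 2 * (W.rts l t).n i + 1)) = _
  rw [k.len, Forest.at_lev]

theorem on_self (i : ι) : W.On (l i) (t i) (t i) := ⟨.refl _, k.lt i⟩

theorem mem' (c : W.On (l i) (t i) a) : X a := k.sub _ (k.mem _ _ c)

theorem pair {s : ℕ} (h : s < (W.rts l t).n i) : W.Pw l t (W.F.at' (t i) (l i + 2 * s + 1)) ∧
    W.F.kid (W.F.at' (t i) (l i + 2 * s + 1)) = W.F.at' (t i) (l i + (2 * s + 1) + 1) := by
  have := k.len i
  have := k.ev i
  have := (W.F.surj (t i)).2.1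
  have a := W.F.lev_at (t i) (l := l i + 2 * s + 1) (by omega) (by omega)
  exact ⟨⟨i, on_at (by omega), by omega, fun d => by rw [d] at a; omega⟩,
    W.F.kid_at _ (by omega) (by omega)⟩

theorem free (h : W.Pw l t a) (c : U v) (o : W.F.lev v % 2 = 1) (ne : a ≠ v) :
    W.pos j (nl v) < W.pos j (nl a) ∨ W.pos j (nl (W.F.kid a)) < W.pos j (nl v) := by
  by_contra d
  rw [not_or, not_lt, not_lt] at d
  rcases (k.adj a h).2 v c d.1 d.2 with rfl | rfl
  · exact ne rfl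
  · obtain ⟨_, -, f⟩ := h.kid
    obtain ⟨_, -, f', -⟩ := h
    have := W.F.lev_kid f
    omega

theorem lref : LRef (2 * r + 9) W.S.hang none some (W.S.O.nxt j) (W.pos j)
    {L | ∃ a, W.Pw l t a ∧ L = nl a} W.en := by
  refine W.S.fit.lref j ?_ ?_
  · rintro _ ⟨a, h, rfl⟩
    exact (k.adj a h).1
  · rintro _ ⟨a, h, rfl⟩ _ ⟨a', ⟨i, h', o, -⟩, rfl⟩ c
    exact (k.free h (k.mem _ _ h') o fun d => c.ne (by rw [d])).resolve_left c.not_gt

theorem ok : (W.rts l t).Ok W.S.hang some (W.pos j) {L | ∃ a, W.Pw l t a ∧ L = nl a} W.en := by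
  refine Rts.Ok.of_mem k.lref (fun i s i' s' h h' d => ?_)
    (fun i => hang_at _ (by have := k.lt i; have := (W.F.surj (t i)).2.1; omega))
    (fun i s h => ?_) (fun i s h => ⟨⟨_, (k.pair h).1, rfl⟩, congrArg nl (k.pair h).2⟩)
    fun i => Or.inr ?_
  · have a := k.len i
    have a' := k.len i'
    have d : W.F.at' (t i) (l i + s + 1) = W.F.at' (t i') (l i' + s' + 1) := inl.inj (inl.inj d)
    obtain rfl := k.dis i i' _ (on_at (s := s) (by omega)) (d ▸ on_at (s := s') (by omega))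
    have := (W.F.surj (t i)).2.1
    have := congrArg W.F.lev d
    rw [W.F.lev_at _ (by omega) (by omega), W.F.lev_at _ (by omega) (by omega)] at this
    exact ⟨rfl, by omega⟩
  · have := k.len i
    have := (W.F.surj (t i)).2.1
    exact hang_at (t i) (l := l i + s + 1) (by omega)
  · rintro _ ⟨a, h, rfl⟩ ne
    rw [k.lab] at ne ⊢
    exact k.free h (k.mem _ _ (k.on_self i)) (k.od i) fun d => ne (by rw [d])

theorem off (h : ∀ i a, W.On (l i) (t i) a → u ≠ nl a) : (W.rts l t).Off u := fun i s hs d => by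
  have := k.len i
  exact h i _ (on_at (by omega)) d.symm

theorem out_ou (h : W.Ou j X L) : (W.rts l t).Out (W.pos j) L := fun i s d => by
  obtain ⟨p, c⟩ := k.pair d.1
  obtain ⟨i1, c1, -⟩ := p.kid
  obtain ⟨i2, c2, -⟩ := p
  exact (h _ _ (k.mem' c2) (k.mem' c1)).elim d.2.1.not_gt (c ▸ d.2.2.not_gt)

theorem out_ev (c : U v) (o : W.F.lev v % 2 = 0) : (W.rts l t).Out (W.pos j) (nl v) :=
  fun i s d => by
    obtain ⟨p, f⟩ := k.pair d.1
    rcases (k.adj _ p).2 v c d.2.1 (f ▸ d.2.2.le) with rfl | rfl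
    · obtain ⟨_, -, o', -⟩ := p
      omega
    · exact (f ▸ d.2.2).false

theorem lt_cut (h : (W.rts l t).Out (W.pos j) L) :
    W.vp j l t L < W.vp j l t (W.cut (l i) (t i)) ↔ W.pos j L < W.pos j (nl (t i)) := by
  rw [← k.lab, ← Rts.an_out h]
  exact (Rts.an_out h).symm ▸ k.ok.lt_fst k.lref L i

theorem cut_lt (h : (W.rts l t).Out (W.pos j) L) (ne : L ≠ nl (t i)) :
    W.vp j l t (W.cut (l i) (t i)) < W.vp j l t L ↔ W.pos j (nl (t i)) < W.pos j L := by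
  have := (k.lt_cut (i := i) h).not
  have a : W.pos j L ≠ W.pos j (nl (t i)) := pos_ne ne
  refine ⟨fun c => by grind, fun c => lt_of_le_of_ne (by grind) fun d => ?_⟩
  have f := k.ok.an_fst k.lref i
  rw [rts_fst, Rts.Ok.vp_inj k.lref d, Rts.an_out h, k.lab] at f
  exact ne f

theorem cut_cut : W.vp j l t (W.cut (l i) (t i)) < W.vp j l t (W.cut (l i') (t i')) ↔
    W.pos j (nl (t i)) < W.pos j (nl (t i')) := by
  rw [← k.lab, ← k.lab]
  exact k.ok.fst_lt_fst k.lref i i'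

omit k in
theorem wr_in (h : W.vp j l t L < W.vp j l t L')
    (c : W.vp j l t L' ≤ W.vp j l t (W.cut (l g) (t g))) :
    W.wr j l t g (pz L m) < W.wr j l t g (pz L' m') :=
  pos2_lt.2 (Or.inl (rh_lt.2 (Or.inr ⟨iff_of_false (h.trans_le c).not_gt c.not_gt, h⟩)))

/-- the lines outside come first -/
theorem wr_cut (h : W.Ou j X L) (c : W.pos j (nl (t i)) ≤ W.pos j (nl (t g))) :
    W.wr j l t g (pz L m) < W.wr j l t g (pz (W.cut (l i) (t i)) 0) := by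
  have d : W.vp j l t (W.cut (l i) (t i)) ≤ W.vp j l t (W.cut (l g) (t g)) :=
    not_lt.1 (mt k.cut_cut.1 c.not_gt)
  rcases h _ _ (k.mem' (k.on_self i)) (k.mem' (k.on_self g)) with f | f
  · exact wr_in ((k.lt_cut (k.out_ou h)).2 f) d
  · exact pos2_lt.2 (Or.inl (rh_lt.2 (Or.inl
      ⟨(k.cut_lt (k.out_ou h) (h.ne (k.mem' (k.on_self g)))).2 f, d.not_gt⟩)))

/-- the order of the lines outside -/
theorem wr_ou {p p' : Ps K N r r0} (h : W.Ou j X p.1) (h' : W.Ou j X p'.1)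
    (c : pos2 (W.ro j X) p < pos2 (W.ro j X) p') : W.wr j l t g p < W.wr j l t g p' := by
  have f := k.mem' (k.on_self g)
  refine pos2_lt.2 ((pos2_lt.1 c).imp (fun c => ?_) fun c => ⟨?_, c.2⟩)
  · rw [ro, rh_lt, h.hi f, h'.hi f] at c
    rwa [rh_lt, k.cut_lt (k.out_ou h) (h.ne f), k.cut_lt (k.out_ou h') (h'.ne f),
      Rts.vp_out (k.out_ou h) (k.out_ou h')]
  · rw [(W.ro_cyc j X).inj trivial trivial c.1]

theorem ch_cut (g : ι) : W.Ch j l t (inl (W.base (l g) (t g))) [true] [pz (W.cut (l g) (t g)) 0]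
    (hv (nl (t g))) :=
  Ch.up (out_pz (Nat.zero_le _)) (adj_vz (k.ok.h0 g) (Nat.zero_le _))
    (congrArg inl (k.lab g ▸ k.ok.vh_fst g))

theorem serve (g : ι) {u w : Vx K N (Pt K N) r r0} {b1 b2 : List Bool} {p1 p2 : List (Ps K N r r0)}
    (c1 : W.Ch j l t (inl none) b1 p1 u) (c2 : W.Ch j l t (inl none) b2 p2 w)
    (a : u ≠ w) (hO : ∀ g, pz (W.cut (l g) (t g)) 0 ∈ p1 ++ p2) (F : List Fm) (ne : List (ℕ × ℕ))
    (ok : chkC b1 b2 F ne = true)
    (hF : F.Forall (Fm.Holds fun n => W.wr j l t g (nth (pz (inr (j, none, 0)) 0) (p1 ++ p2) n)))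
    (hn : ne.Forall fun c => nth (pz (inr (j, none, 0)) 0) (p1 ++ p2) c.1 ≠
      nth (pz (inr (j, none, 0)) 0) (p1 ++ p2) c.2) :
    W.Sv u w := fun {_ _} => by
  have v := funext (k.ok.vh_vn (nxt := W.S.O.nxt j))
  refine ((k.ok.fr k.lref (O := ((p1 ++ p2).filter (·.2 = 0)).map Prod.fst) fun g =>
    List.mem_map.2 ⟨_, List.mem_filter.2 ⟨hO g, decide_eq_true rfl⟩, rfl⟩).rh
      fun _ _ => lt_of_lt_of_le).chains (by omega) (v ▸ c1) (v ▸ c2) a (fun L h => ?_) _ ok hF hn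
  obtain ⟨⟨_, y⟩, f, rfl⟩ := List.mem_map.1 h
  obtain ⟨f, c⟩ := List.mem_filter.1 f
  obtain rfl : y = 0 := by simpa using c
  exact f

end Rw

/-! ### the cuts of a system in its own state -/

variable (W) in
/-- the last label of a system line -/
noncomputable abbrev zl (j : K) (x : Pt K N × Fin 3) : N := W.S.sn (W.S.O.sl j x) true .Z

variable (W) in
/-- the first label of the line of a system hub -/
noncomputable abbrev la (j : K) (x : Pt K N × Fin 3) : N := W.S.sn (inr (j, x)) false .H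

variable (W) in
/-- the next line of the system -/
noncomputable abbrev nb (j : K) : Equiv.Perm (Pt K N × Fin 3) := bt (W.S.O.nx j)

variable (W) in
/-- the head of a system line -/
noncomputable abbrev hd (j : K) (x : Pt K N × Fin 3) : Vx K N (Pt K N) r r0 :=
  vz (W.S.O.sl j x) (2 * r + 9)

variable (W) in
/-- the order of the system lines -/
noncomputable abbrev nu (j : K) (X : N → Prop) (x : Pt K N × Fin 3) := W.ro j X (W.S.O.sl j x)

variable {x x' y y' : Pt K N × Fin 3}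

theorem hang_A (x : Pt K N × Fin 3) : W.S.hang (W.S.O.sl j x) (2 * r + 9) (some (inr (j, x))) :=
  (W.S.fit.hs j x _).2 (Or.inl rfl)

theorem ch_P (x : Pt K N × Fin 3) : W.Ch j l t (hv (nl (W.zl j x))) [false]
    [pz (W.S.O.sl j x) (2 * r + 9)] (W.hd j x) :=
  ch_dn (Stat.nm_Z (Stat.not_mo_sl j x)).hang (by omega)

theorem ch_Hu (x : Pt K N × Fin 3) : W.Ch j l t (W.hd j (W.nb j x)) [true]
    [pz (W.S.O.sl j x) (2 * r + 10)] (W.hd j x) :=
  ch_fhead (W.S.O.nxt_hot j x ▸ hang_A _) le_rfl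

theorem ch_Hd (x : Pt K N × Fin 3) : W.Ch j l t (hv (inr (j, x))) [false]
    [pz (W.S.O.sl j x) (2 * r + 10)] (hv (inr (j, W.nb j x))) :=
  W.S.O.nxt_hot j x ▸ ch_head (hang_A x)

theorem Rw.ch_T (k : W.Rw j l t U X) (x : Pt K N × Fin 3) : W.Ch j l t (hv (nl (W.la j x))) [true]
    [pz (inr (j, x)) 0] (hv (inr (j, x))) := ch_tail (k.off (by simp)) (W.S.sys_H (j, x)).hang

variable (W) in
/-- the lines and hubs of the system are outside `X` -/
def Oy (j : K) (X : N → Prop) (x : Pt K N × Fin 3) : Prop :=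
  W.Ou j X (W.S.O.sl j x) ∧ W.Ou j X (inr (j, x))

namespace Rw

variable (k : W.Rw j l t U X)
include k

theorem o_ll (h : W.Oy j X x) (h' : W.Oy j X y) (c : W.nu j X x < W.nu j X y) :
    W.wr j l t g (pz (W.S.O.sl j x) m) < W.wr j l t g (pz (W.S.O.sl j y) m') :=
  k.wr_ou h.1 h'.1 (pos2_lt.2 (Or.inl c))

theorem o_lt (h : W.Oy j X x) (h' : W.Oy j X y) (h'' : W.Oy j X (W.nb j y))
    (c : W.nu j X x ≤ W.nu j X y) :
    W.wr j l t g (pz (W.S.O.sl j x) m) < W.wr j l t g (pz (inr (j, W.nb j y)) 0) :=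
  k.wr_ou h.1 h''.2 (pos2_lt.2 (Or.inl (c.trans_lt
    (W.S.O.nxt_hot j y ▸ h'.1.nxt (k.mem' (k.on_self g))))))

theorem o_tl (h : W.Oy j X (W.nb j x)) (h' : W.Oy j X y) (c : W.nu j X x < W.nu j X y)
    (a : 0 < m) (a' : m ≤ 2 * r + 10) :
    W.wr j l t g (pz (inr (j, W.nb j x)) 0) < W.wr j l t g (pz (W.S.O.sl j y) m) :=
  k.wr_ou h.2 h'.1 (pos2_lt.2 ((W.S.O.nxt_hot j x ▸ nxt_ro c).lt_or_eq.imp id fun d =>
    ⟨d, by rwa [Fin.lt_def, pz_val a', pz_val (Nat.zero_le _)]⟩))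

end Rw

/-! ### two separate routes -/

variable (W) in
/-- the routes to `a` and `z` have no common window -/
def PF (j : K) (X : N → Prop) (a z : N) : Prop :=
  ∃ U, W.Rw j ![0, 0] ![a, z] U X ∧ W.pos j (nl a) < W.pos j (nl z)

theorem Rw.o_az (k : W.Rw j ![0, 0] ![a, z] U X) (o : W.pos j (nl a) < W.pos j (nl z)) :
    W.wr j ![0, 0] ![a, z] 1 (pz (W.cut 0 a) 0) < W.wr j ![0, 0] ![a, z] 1 (pz (W.cut 0 z) 0) :=
  Rw.wr_in ((k.cut_cut (i := 0) (i' := 1)).2 o) le_rfl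

namespace PF

theorem ss (h : W.PF j X a z) : W.Sv (hv (nl a)) (hv (nl z)) :=
  let ⟨_, k, o⟩ := h
  k.serve 1 (k.ch_cut 0) (k.ch_cut 1) (fun d => o.ne (congrArg _ (Option.some.inj (inl.inj d))))
    (by simp [Fin.forall_fin_two]) [.lt 0 1] [] (by decide +kernel) (k.o_az o) trivial

theorem sr (h : W.PF j X a (W.la j y)) (c : W.Oy j X y) : W.Sv (hv (nl a)) (hv (inr (j, y))) :=
  let ⟨_, k, o⟩ := h
  k.serve 1 (k.ch_cut 0) ((k.ch_cut 1).app (k.ch_T y)) (by simp)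
    (by simp [Fin.forall_fin_two]) [.lt 2 0, .lt 0 1] [] (by decide +kernel)
    ⟨k.wr_cut (i := 0) c.2 o.le, k.o_az o⟩ trivial

theorem fs (h : W.PF j X (W.zl j x) z) (c : W.Oy j X x) : W.Sv (W.hd j x) (hv (nl z)) :=
  let ⟨_, k, o⟩ := h
  k.serve 1 ((k.ch_cut 0).app (ch_P x)) (k.ch_cut 1) (by simp [vz])
    (by simp [Fin.forall_fin_two]) [.lt 1 0, .lt 0 2] [] (by decide +kernel)
    ⟨k.wr_cut (i := 0) c.1 o.le, k.o_az o⟩ trivial

theorem r00 (h : W.PF j X (W.zl j x) (W.la j (W.nb j y))) (c : W.Oy j X x)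
    (c' : W.Oy j X (W.nb j y)) (o1 : W.nu j X y < W.nu j X x) :
    W.Sv (W.hd j x) (hv (inr (j, W.nb j y))) :=
  let ⟨_, k, o⟩ := h
  k.serve 1 ((k.ch_cut 0).app (ch_P x)) ((k.ch_cut 1).app (k.ch_T _)) (by simp [vz])
    (by simp [Fin.forall_fin_two]) [.lt 3 1, .lt 1 0, .lt 0 2] [] (by decide +kernel)
    ⟨k.o_tl c' c o1 (by omega) (by omega), k.wr_cut (i := 0) c.1 o.le, k.o_az o⟩ trivial

theorem r10 (h : W.PF j X (W.zl j (W.nb j x)) (W.la j (W.nb j y))) (c : W.Oy j X x)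
    (c1 : W.Oy j X (W.nb j x)) (c2 : W.Oy j X y) (c3 : W.Oy j X (W.nb j y))
    (o1 : W.nu j X x < W.nu j X (W.nb j x)) (o2 : W.nu j X x < W.nu j X y) :
    W.Sv (W.hd j x) (hv (inr (j, W.nb j y))) :=
  let ⟨_, k, o⟩ := h
  k.serve 1 ((k.ch_cut 0).app ((ch_P _).app (ch_Hu x))) ((k.ch_cut 1).app (k.ch_T _))
    (by simp [vz]) (by simp [Fin.forall_fin_two]) [.lt 2 1, .lt 2 4, .lt 1 0, .lt 4 0, .lt 0 3]
    [(1, 4)] (by decide +kernel) ⟨k.o_ll c c1 o1, k.o_lt c c2 c3 o2.le,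
      k.wr_cut (i := 0) c1.1 o.le, k.wr_cut (i := 0) c3.2 o.le, k.o_az o⟩
    (pz_ne' (by omega) (by omega) (by omega))

theorem r01 (h : W.PF j X (W.zl j x) (W.la j (W.nb j y))) (c : W.Oy j X x)
    (c1 : W.Oy j X (W.nb j y)) (o1 : W.nu j X y < W.nu j X (W.nb j y))
    (o2 : W.nu j X x < W.nu j X (W.nb j y)) :
    W.Sv (W.hd j x) (hv (inr (j, W.nb j (W.nb j y)))) :=
  let ⟨_, k, o⟩ := h
  k.serve 1 ((k.ch_cut 0).app (ch_P x)) ((k.ch_cut 1).app ((k.ch_T _).app (ch_Hd _)))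
    (by simp [vz]) (by simp [Fin.forall_fin_two]) [.lt 1 4, .lt 3 4, .lt 4 0, .lt 0 2]
    [(1, 3)] (by decide +kernel) ⟨k.o_ll c c1 o2, k.o_tl c1 c1 o1 (by omega) le_rfl,
      k.wr_cut (i := 0) c1.1 o.le, k.o_az o⟩
    (pz_ne' (by omega) (by omega) (by omega))

end PF

/-- the form in which the neighbours are given -/
theorem pf_of (od : D % 2 = 1) (ha : W.F.lev a = D) (hz : W.F.lev z = D)
    (tr : W.F.tree a ≠ W.F.tree z) (sub : ∀ v, W.F.Anc v a ∨ W.F.Anc v z → X v)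
    (o : W.pos j (nl a) < W.pos j (nl z))
    (adj : ∀ t, W.Pc a z 0 0 t → W.pos j (nl t) < W.pos j (nl (W.F.kid t)) ∧
      ∀ v, W.F.Anc v a ∨ W.F.Anc v z → W.pos j (nl t) ≤ W.pos j (nl v) →
        W.pos j (nl v) ≤ W.pos j (nl (W.F.kid t)) → v = t ∨ v = W.F.kid t) : W.PF j X a z := by
  refine ⟨_, ⟨sub, Fin.forall_fin_two.2 ⟨rfl, rfl⟩, 
    Fin.forall_fin_two.2 ⟨(congrArg (· % 2) ha).trans od, (congrArg (· % 2) hz).trans od⟩,
    Fin.forall_fin_two.2 ⟨(W.F.surj a).1, (W.F.surj z).1⟩, fun i i' v c c' => ?_,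
    Fin.forall_fin_two.2 ⟨fun _ c => Or.inl c.1, fun _ c => Or.inr c.1⟩, fun v c => ?_⟩, o⟩
  · fin_cases i <;> fin_cases i'
    exacts [rfl, (On.tree_ne tr v c c').elim, (On.tree_ne tr v c' c).elim, rfl]
  · obtain ⟨_, -, f⟩ := c.kid
    obtain ⟨i, c, c', -⟩ := c
    refine adj v ⟨c', f, ?_⟩
    fin_cases i
    exacts [Or.inl ⟨c.1, c.2.ne'⟩, Or.inr ⟨c.1, c.2.ne'⟩]

/-! ### two routes that are exchanged -/

variable (W) in
/-- the routes to `a` and `z` cross in a window -/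
def JF (j : K) (X : N → Prop) (a z : N) : Prop :=
  ∃ (l : Fin 4 → ℕ) (t : Fin 4 → N) (U : N → Prop) (x0 x1 x2 y0 y1 y2 : Ps K N r r0),
    W.Rw j l t U X ∧ W.Ch j l t (inl none) [true, true, true] [x0, x1, x2] (hv (nl a)) ∧
    W.Ch j l t (inl none) [true, true, true] [y0, y1, y2] (hv (nl z)) ∧
    (∀ p1 p2 g, pz (W.cut (l g) (t g)) 0 ∈ ([x0, x1, x2] ++ p1) ++ ([y0, y1, y2] ++ p2)) ∧
    (∀ L m, W.Ou j X L → W.wr j l t 3 (pz L m) < W.wr j l t 3 x0) ∧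
    W.wr j l t 3 x0 < W.wr j l t 3 y0 ∧ W.wr j l t 3 y0 < W.wr j l t 3 x1 ∧
    W.wr j l t 3 x1 < W.wr j l t 3 y1 ∧ W.wr j l t 3 y1 < W.wr j l t 3 x2 ∧
    W.wr j l t 3 x2 < W.wr j l t 3 y2

theorem jf_of (od : D % 2 = 1) {la lb : ℕ} (ha : W.F.lev a = D) (hz : W.F.lev z = D)
    (tr : W.F.tree a ≠ W.F.tree z) (sub : ∀ v, W.F.Anc v a ∨ W.F.Anc v z → X v)
    (l1 : la % 2 = 1) (l3 : la + 1 < D) (m1 : lb % 2 = 1) (m3 : lb + 1 < D)
    (o1 : W.pos j (nl (W.F.at' a la)) < W.pos j (nl (W.F.at' z lb)))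
    (o2 : W.pos j (nl (W.F.at' z lb)) < W.pos j (nl (W.F.at' a (la + 1))))
    (o3 : W.pos j (nl (W.F.at' a (la + 1))) < W.pos j (nl (W.F.at' z (lb + 1))))
    (o4 : W.pos j (nl (W.F.at' z (lb + 1))) < W.pos j (nl a))
    (o5 : W.pos j (nl a) < W.pos j (nl z))
    (adj : ∀ t, W.Pc a z la lb t → W.pos j (nl t) < W.pos j (nl (W.F.kid t)) ∧
      ∀ v, W.F.Anc v a ∨ W.F.Anc v z → W.pos j (nl t) ≤ W.pos j (nl v) →
        W.pos j (nl v) ≤ W.pos j (nl (W.F.kid t)) → v = t ∨ v = W.F.kid t) : W.JF j X a z := by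
  have an : ∀ {x}, W.F.lev x = D → ∀ l, 1 ≤ l → l ≤ D →
      W.F.Anc (W.F.at' x l) x ∧ W.F.lev (W.F.at' x l) = l := fun {x} d l d1 d2 =>
    ⟨Forest.anc_at x d1 (d2.trans d.ge), W.F.lev_at x d1 d2⟩
  have a0 := an ha la (by omega) (by omega)
  have a1 := an ha (la + 1) (by omega) (by omega)
  have b0 := an hz lb (by omega) (by omega)
  have b1 := an hz (lb + 1) (by omega) (by omega)
  have dj : ∀ {v}, W.F.Anc v a → ¬W.F.Anc v z := fun d d' => tr (d.tree.symm.trans d'.tree)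
  have cs : ∀ (g : Fin 4) v, W.On (![0, la + 1, 0, lb + 1] g)
      (![W.F.at' a la, a, W.F.at' z lb, z] g) v →
      (g = 0 ∧ W.F.Anc v a ∧ W.F.lev v ≤ la) ∨ (g = 1 ∧ W.F.Anc v a ∧ la + 1 < W.F.lev v) ∨
      (g = 2 ∧ W.F.Anc v z ∧ W.F.lev v ≤ lb) ∨ (g = 3 ∧ W.F.Anc v z ∧ lb + 1 < W.F.lev v) :=
    fun g v c => by
      fin_cases g
      exacts [Or.inl ⟨rfl, c.1.trans a0.1, c.1.1.trans a0.2.le⟩, Or.inr (Or.inl ⟨rfl, c⟩),
        Or.inr (Or.inr (Or.inl ⟨rfl, c.1.trans b0.1, c.1.1.trans b0.2.le⟩)),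
        Or.inr (Or.inr (Or.inr ⟨rfl, c⟩))]
  have k : W.Rw j ![0, la + 1, 0, lb + 1] ![W.F.at' a la, a, W.F.at' z lb, z]
      (fun v => W.F.Anc v a ∨ W.F.Anc v z) X := by
    refine ⟨sub, fun g => ?_, fun g => ?_, fun g => ?_, fun i i' v c c' => ?_, fun g v c => ?_,
      fun v c => ?_⟩
    · fin_cases g <;> simp <;> omega
    · fin_cases g <;> simp [a0.2, b0.2, ha, hz] <;> omega
    · fin_cases g <;> simp [a0.2, b0.2, ha, hz] <;> omega
    · have := cs _ _ c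
      have := cs _ _ c'
      have := @dj v
      grind
    · have := cs _ _ c
      tauto
    · obtain ⟨_, -, f⟩ := c.kid
      obtain ⟨i, c, c', ne⟩ := c
      refine adj v ⟨c', f, ?_⟩
      rcases cs _ _ c with ⟨rfl, d, -⟩ | ⟨rfl, d⟩ | ⟨rfl, d, -⟩ | ⟨rfl, d⟩
      exacts [Or.inl ⟨d, fun s => ne (c.1.eq (a0.2.trans s.symm).le)⟩, Or.inl ⟨d.1, by omega⟩,
        Or.inr ⟨d, fun s => ne (c.1.eq (b0.2.trans s.symm).le)⟩, Or.inr ⟨d.1, by omega⟩]
  have ua := k.out_ev (Or.inl a1.1) (by omega)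
  have ub := k.out_ev (Or.inr b1.1) (by omega)
  have le : ∀ {L}, (W.rts _ _).Out (W.pos j) L → W.pos j L < W.pos j (nl z) → _ :=
    fun c d => ((k.lt_cut (i := 3) c).2 d).le
  have c1 := ch_tail (j := j) (k.off (u := nl (W.F.at' a (la + 1))) fun g v c d => by
    obtain rfl := inl.inj (inl.inj d)
    have := cs _ _ c
    have := dj a1.1
    grind) (hang_par (by omega))
  have c2 := ch_tail (j := j) (k.off (u := nl (W.F.at' z (lb + 1))) fun g v c d => by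
    obtain rfl := inl.inj (inl.inj d)
    have := cs _ _ c
    have := mt dj (not_not.2 b1.1)
    grind) (hang_par (by omega))
  rw [W.F.par_at _ (by omega) (by omega)] at c1 c2
  refine ⟨_, _, _, _, _, _, _, _, _, k, (k.ch_cut 0).app (c1.app (k.ch_cut 1)),
    (k.ch_cut 2).app (c2.app (k.ch_cut 3)), fun p1 p2 g => by fin_cases g <;> simp,
    fun L m c => k.wr_cut (i := 0) (g := 3) c (o1.trans (o2.trans (o3.trans (o4.trans o5)))).le,
    Rw.wr_in ((k.cut_cut (i := 0) (i' := 2)).2 o1)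
      ((k.cut_cut (i := 2) (i' := 3)).2 (o2.trans (o3.trans (o4.trans o5)))).le,
    Rw.wr_in ((k.cut_lt (i := 2) ua fun d => o2.ne' (congrArg _ d)).2 o2)
      (le ua (o3.trans (o4.trans o5))),
    Rw.wr_in (?_) (le ub (o4.trans o5)),
    Rw.wr_in ((k.lt_cut (i := 1) ub).2 o4) ((k.cut_cut (i := 1) (i' := 3)).2 o5).le,
    Rw.wr_in ((k.cut_cut (i := 1) (i' := 3)).2 o5) le_rfl⟩
  exact (Rts.vp_out ua ub).2 o3

namespace JF

theorem r10 (h : W.JF j X (W.zl j (W.nb j x)) (W.la j (W.nb j y))) (c : W.Oy j X x)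
    (c1 : W.Oy j X (W.nb j x)) (c2 : W.Oy j X y) (c3 : W.Oy j X (W.nb j y))
    (o1 : W.nu j X x < W.nu j X (W.nb j x)) (o2 : W.nu j X (W.nb j x) < W.nu j X y) :
    W.Sv (W.hd j x) (hv (inr (j, W.nb j y))) :=
  let ⟨_, _, _, _, _, _, _, _, _, k, a1, a2, a3, a4, a5⟩ := h
  k.serve 3 (a1.app ((ch_P _).app (ch_Hu x))) (a2.app (k.ch_T _)) (by simp [vz]) (a3 _ _)
    [.lt 4 3, .lt 3 8, .lt 8 0, .lt 0 5, .lt 5 1, .lt 1 6, .lt 6 2, .lt 2 7] [] (by decide +kernel)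
    ⟨k.o_ll c c1 o1, k.o_lt c1 c2 c3 o2.le, a4 _ _ c3.2, a5⟩ trivial

theorem r01 (h : W.JF j X (W.zl j x) (W.la j (W.nb j y))) (c : W.Oy j X x) (c1 : W.Oy j X y)
    (c2 : W.Oy j X (W.nb j y)) (o1 : W.nu j X x < W.nu j X y)
    (o2 : W.nu j X y < W.nu j X (W.nb j y)) :
    W.Sv (W.hd j x) (hv (inr (j, W.nb j (W.nb j y)))) :=
  let ⟨_, _, _, _, _, _, _, _, _, k, a1, a2, a3, a4, a5⟩ := h
  k.serve 3 (a1.app (ch_P x)) (a2.app ((k.ch_T _).app (ch_Hd _))) (by simp [vz]) (a3 _ _)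
    [.lt 3 7, .lt 7 8, .lt 8 0, .lt 0 4, .lt 4 1, .lt 1 5, .lt 5 2, .lt 2 6] [] (by decide +kernel)
    ⟨k.o_lt c c1 c2 o1.le, k.o_tl c2 c2 o2 (by omega) le_rfl, a4 _ _ c2.1, a5⟩ trivial

theorem r02 (h : W.JF j X (W.zl j x) (W.la j (W.nb j y))) (c : W.Oy j X x) (c1 : W.Oy j X y)
    (c2 : W.Oy j X (W.nb j y)) (c3 : W.Oy j X (W.nb j (W.nb j y)))
    (o1 : W.nu j X x < W.nu j X (W.nb j (W.nb j y)))
    (o2 : W.nu j X (W.nb j (W.nb j y)) < W.nu j X y) (o3 : W.nu j X y < W.nu j X (W.nb j y)) :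
    W.Sv (W.hd j x) (hv (inr (j, W.nb j (W.nb j (W.nb j y))))) :=
  let ⟨_, _, _, _, _, _, _, _, _, k, a1, a2, a3, a4, a5⟩ := h
  k.serve 3 (a1.app (ch_P x)) (a2.app ((k.ch_T _).app ((ch_Hd _).app (ch_Hd _)))) (by simp [vz])
    (a3 _ _) [.lt 3 9, .lt 9 7, .lt 7 8, .lt 8 0, .lt 0 4, .lt 4 1, .lt 1 5, .lt 5 2, .lt 2 6] []
    (by decide +kernel) ⟨k.o_ll c c3 o1, k.o_lt c3 c1 c2 o2.le,
      k.o_tl c2 c2 o3 (by omega) le_rfl, a4 _ _ c2.1, a5⟩ trivial

end JF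

end Wd

end Pool.Agent.P.MP_439f1f_co
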