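import Pool.Agent.P.MP_439f1f_co.Ro1

/-!
The order of the lines of one system: which of six routes serves a head and a hub.
-/

set_option autoImplicit false
set_option linter.unusedSectionVars false

namespace Pool.Agent.P.MP_439f1f_co

open Function SimpleGraph Sum

theorem Cyc.ofLt {α β γ : Type*} [LinearOrder β] [LinearOrder γ] {S : Set α} {nx : α → α}
    {pos : α → β} {pos' : α → γ} (o : Cyc S nx pos)
    (h : ∀ u ∈ S, ∀ v ∈ S, pos' u < pos' v ↔ pos u < pos v) : Cyc S nx pos' := by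
  have k : ∀ u ∈ S, ∀ v ∈ S, pos' u ≤ pos' v ↔ pos u ≤ pos v := fun u hu v hv => by
    rw [← not_lt, h v hv u hu, not_lt]
  refine ⟨fun u hu v hv e => o.inj hu hv (le_antisymm ((k u hu v hv).1 e.le) ((k v hv u hu).1 e.ge)),
    o.mem, fun u hu w hw c => ?_, fun u hu c w hw => ?_⟩
  · rw [h u hu _ (o.mem u hu), k _ (o.mem u hu) w hw]
    exact o.succ u hu w hw ((h u hu w hw).1 c)
  · exact (k _ (o.mem u hu) w hw).2 (o.wrap u hu (fun v hv => (k v hv u hu).1 (c v hv)) w hw)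

/-- **The six ways to serve a head and a hub of one system.** -/
theorem six_rows {Y γ δ : Type*} [LinearOrder γ] [LinearOrder δ] {σ : Equiv.Perm Y} {S : Set Y}
    {κ : Y → δ} {tag : Y → ZMod 4} {ν : Y × Fin 3 → γ} (o : Cyc S σ κ)
    (ms : ∀ y ∈ S, σ.symm y ∈ S) (tn : ∀ y, tag (σ y) = tag y + 1)
    (h1 : ∀ y ∈ S, ν (σ.symm y, 0) < ν (σ y, 2) ∧ ν (σ y, 2) < ν (σ y, 1))
    (h2 : ∀ y ∈ S, ∀ y' ∈ S, κ y < κ y' → ν (σ y, 1) < ν (σ.symm y', 0))
    {e k : Y × Fin 3} (he : e.1 ∈ S) (hk : k.1 ∈ S) (ne : e ≠ k)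
    (c : (ixt (tag k.1) k.2 - ixt (tag e.1) e.2).val < 4) :
    ν k < ν e ∨ (ν e < ν k ∧
      ((ixt (tag k.1) k.2 ≠ ixt (tag e.1) e.2 ∧ (ν e < ν (bt σ e) ∨ ν ((bt σ).symm k) < ν k)) ∨
      (ixt (tag k.1) k.2 = ixt (tag e.1) e.2 + 1 ∧ e.2 = 1 ∧
        ν k < ν ((bt σ).symm ((bt σ).symm k)) ∧
        ν ((bt σ).symm ((bt σ).symm k)) < ν ((bt σ).symm k)) ∨
      (ixt (tag k.1) k.2 = ixt (tag e.1) e.2 ∧
        ((e.2 ≠ 1 ∧ ν e < ν (bt σ e) ∧ ν (bt σ e) < ν k) ∨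
          (e.2 = 1 ∧ ν e < ν ((bt σ).symm k) ∧ ν ((bt σ).symm k) < ν k))))) := by
  have un : ∀ x : Y × Fin 3, x.1 ∈ S →
      ∃ a ∈ S, x = (σ.symm a, 0) ∨ x = (σ a, 2) ∨ x = (σ a, 1) := by
    rintro ⟨y, i⟩ hy
    fin_cases i
    exacts [⟨σ y, o.mem y hy, by simp⟩, ⟨σ.symm y, ms y hy, by simp⟩, ⟨σ.symm y, ms y hy, by simp⟩]
  have tp : ∀ y, tag (σ.symm y) = tag y - 1 := fun y => by
    rw [eq_sub_iff_add_eq, ← tn, Equiv.apply_symm_apply]
  have s1 : ∀ y, (bt σ).symm (σ y, 1) = (σ.symm y, 0) := fun y => by simp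
  have s2 : ∀ y, (bt σ).symm (σ y, 2) = (σ (σ y), 1) := fun y => by simp
  have s0 : ∀ y, (bt σ).symm (σ.symm y, 0) = (σ (σ.symm (σ.symm y)), 2) := fun y => by simp
  have t0 : ∀ y, bt σ (σ.symm y, 0) = (σ y, 1) := fun y => by simp
  have t1 : ∀ y, bt σ (σ y, 1) = (σ (σ.symm y), 2) := fun y => by simp
  have t2 : ∀ y, bt σ (σ y, 2) = (σ.symm (σ (σ y)), 0) := fun y => by simp
  have tri : ∀ a ∈ S, ∀ b ∈ S, κ a < κ b ∨ a = b ∨ κ b < κ a := fun a ha b hb =>
    (lt_trichotomy _ _).imp_right (Or.imp_left (o.inj ha hb))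
  obtain ⟨a, ha, he⟩ := un e he
  obtain ⟨b, hb, hk⟩ := un k hk
  have a1 := h1 a ha
  have b1 := h1 b hb
  have ab := h2 a ha b hb
  have ba := h2 b hb a ha
  have t := tri a ha b hb
  have na := o.mem a ha
  have nb := o.mem b hb
  have su := o.succ a ha b hb
  have su' := o.succ _ na b hb
  have m2 : κ a < κ b → σ a ≠ b → κ a < κ (σ (σ a)) ∧ κ (σ (σ a)) ≤ κ b := fun d d' => by
    have := tri _ na b hb
    grind
  have m3 := h2 a ha _ (o.mem _ na)
  by_cases q : ixt (tag k.1) k.2 = ixt (tag e.1) e.2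
  · obtain ⟨q1, q2⟩ := ixt_inj _ _ _ _ q
    rcases he with rfl | rfl | rfl <;> rcases hk with rfl | rfl | rfl <;>
      simp only [s1, t0, t2, tn, tp] at q q1 q2 ⊢ <;> try exact absurd q2 (by decide)
    · grind
    · have : σ a ≠ b := fun d => by
        rw [← d, tn] at q1
        exact (by decide : ∀ t : ZMod 4, t + 1 + 1 ≠ t + 1) _ q1
      have := tri _ (o.mem _ na) b hb
      have := h2 _ (o.mem _ na) b hb
      have := h1 _ (o.mem _ na)
      grind
    · grind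
  rcases he with rfl | rfl | rfl <;> rcases hk with rfl | rfl | rfl <;>
    simp only [s0, s1, s2, t0, t1, t2, tn, tp] at c q ⊢
  · grind
  · grind
  · grind
  · have : σ a ≠ b := fun d => by
      rw [← d, tn] at c q
      exact q ((by decide : ∀ t : ZMod 4, (ixt (t + 1 - 1) 0 - ixt (t + 1) 2).val < 4 →
        ixt (t + 1 - 1) 0 = ixt (t + 1) 2) _ c)
    grind
  · have := tri _ nb b hb
    have := h2 _ nb b hb
    have := o.succ
    grind
  · grind
  · have pb := ms b hb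
    have pa := ms a ha
    have := h2 a ha _ pa
    have := h1 _ pa
    have := h1 _ (ms _ pb)
    have := h2 _ (ms _ pb) b hb
    have c1 := (o.cases pb).imp (And.imp_right fun d => d a ha) fun d => d.2 a ha
    have c2 := (o.cases (ms _ pb)).imp And.left fun d => And.intro (d.1 b hb) (d.2 a ha)
    have := tri a ha _ pb
    rw [Equiv.apply_symm_apply] at c1 c2
    grind
  · have := (by decide : ∀ t t' : ZMod 4, (ixt (t' + 1) 2 - ixt (t + 1) 1).val < 4 →
      ixt (t' + 1) 2 = ixt (t + 1) 1 + 1) _ _ c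
    have := tri _ nb b hb
    have := h2 _ nb b hb
    have := h2 b hb _ nb
    have := h1 _ nb
    grind
  · grind

end Pool.Agent.P.MP_439f1f_co
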