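import Pool.Agent.P.MP_439f1f_co.Sv1
import Pool.Agent.P.MP_439f1f_co.B21

/-!
Service of a node and a point outside the tree of the node: the rows in a given state.
-/

set_option autoImplicit false
set_option linter.unusedSectionVars false

namespace Pool.Agent.P.MP_439f1f_co

open Function SimpleGraph Sum

variable {K N ι : Type} {r r0 q D e b : ℕ} [DecidableEq K] [Finite K] [Finite N] [Nonempty K]

/-- **The cuts of a leak form an interval that contains no node.** -/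
theorem Wd.Rs.rp_leak {β : Type} [LinearOrder β] {W : Wd K N β r r0 q D e b} {j : K} {l : ι → ℕ}
    {t : ι → N} (k : W.Rs j l t) {n : N} {s : ℕ} (h : 2 * s + 1 ≤ r0) (p : W.port j n = 0)
    (o : W.lay j (inl n) 0 < W.lay j (inl n) 1) :
    W.vq j l t (pz (ml n 0) 0) < W.vq j l t (pz (W.prv (Wd.mo n (2 * s + 1))) (2 * r + 10)) ∧
    W.vp j l t (W.prv (Wd.mo n (2 * s + 1))) < W.vp j l t (W.prv (inl n)) ∧
    ∀ a, W.vp j l t (nl a) < W.vp j l t (ml n 0) ∨ W.vp j l t (W.prv (inl n)) < W.vp j l t (nl a) := by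
  have a1 : W.pos j (ml n 0) ≤ W.pos j (W.prv (Wd.mo n (2 * s + 1))) := Wd.le_prv.2 (Wd.pos_ml.2 (by
    rw [p, Nat.mod_eq_of_lt (show 2 * s + 1 < _ by omega)]; simp [el]; omega))
  have a2 : W.pos j (W.prv (Wd.mo n (2 * s + 1))) < W.pos j (W.prv (inl n)) :=
    (Wd.prv_lt j _).trans_le (Wd.le_prv.2 (W.pos_mn.2 o))
  have a3 : ∀ a, W.pos j (nl a) < W.pos j (ml n 0) ∨ W.pos j (W.prv (inl n)) < W.pos j (nl a) :=
    fun a => by
      by_contra c
      rw [not_or, not_lt, not_lt] at c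
      obtain rfl : n = a := Wd.bk_nl.1 (Wd.Bk.itv (Wd.bk_pay.2 rfl) (Wd.bk_prv' j (inl n)) c.1 c.2)
      exact (Wd.prv_lt j (inl n)).not_ge c.2
  refine ⟨k.vq_ml_prv (by rw [p, Nat.mod_eq_of_lt (show 2 * s + 1 < _ by omega)]; simp [el]; omega),
    (k.ok.same_lt (W.lref j) (fun _ _ _ => a3 _) a1 a2.le (a1.trans a2.le) le_rfl).2 a2, fun a => ?_⟩
  by_contra c
  rw [not_or, not_lt, not_lt] at c
  have := k.ok.itv (W.lref j) (fun _ _ _ => a3 _) (a1.trans a2.le) c.1 c.2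
  exact (a3 a).elim this.1.not_gt this.2.not_gt

namespace Fw.Rp

variable {V : Fw K N r r0 q D e b} {j : K} {l : ι → ℕ} {t : ι → N} {n u x y : N} {s i m : ℕ}
  {L L' : Hub K N (Pt K N) r0} {d f c : Bool} {σ : Slot (r + 1)} {v : Vx K N (Pt K N) r r0}
  {a a' : Option Bool}

theorem ro (k : V.Rs j l t) : V.W.Ro j l t (rh (V.Hi j) (V.W.vp j l t)) :=
  ⟨k.toRs, fun _ hO => (k.toRs.fr hO).rh k.hi_up, V.Hi j, fun _ _ h => hi_lp h, fun _ _ => rh_lt⟩

theorem acc_ne (h : V.W.S.Acc d v L i f σ) : hv (nl u) ≠ v := by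
  rcases h.cases with ⟨_, _, rfl, a, _⟩ | ⟨_, _, _, a, _⟩ | ⟨_, a, _⟩ <;> simp [a]

theorem odd_lab (h : V.F.lev n = D) : V.F.lev n % 2 = 1 := by rw [h, V.od]

theorem run_lab (h : V.Liv j (V.F.tree n)) (l : V.F.lev n = D) : V.W.Run j 0 n :=
  h.run rfl (odd_lab l) (V.F.surj n).1

variable (V) in
/-- the node `n` of the item `c` leaks through the entry `2 * s + 1` -/
structure Lk (j : K) (c : Bool) (n : N) (s : ℕ) : Prop where
  le : 2 * s + 1 ≤ r0
  role : V.Role j (some c) (V.F.tree n)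
  port : V.W.port j n = 0
  lay : V.W.lay j (inl n) 0 < V.W.lay j (inl n) 1
  ent : V.Role j none (V.F.tree (V.W.ell n (2 * s + 1)))

namespace Lk

variable (h : Lk V j c n s)
include h

theorem run : V.W.Run j 0 (V.W.ell n (2 * s + 1)) := run_lab h.ent.liv (V.lev_ell _ _)

theorem rook : (V.par j).rook = false := h.ent.rook

theorem inB : V.InI j (some c) (ml n 0) := h.role.inI (Wd.bk_pay.2 rfl)
theorem inC : V.InI j (some c) (V.W.prv (inl n)) := h.role.inI (Wd.bk_prv' j (inl n))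

theorem fre (g : V.InF j L) : V.W.Fre j n 0 s (pz L i) := Wd.fre_nbk fun a => g n a _ h.role

theorem ne (g : V.Role j (some d) (V.F.tree x)) :
    V.F.tree x ≠ V.F.tree (V.W.ell n (2 * s + 1)) := fun a =>
  Option.some_ne_none _ (g.eq (a ▸ h.ent))

variable (k : V.Rs j l t)
include k

theorem BA : V.vr j l t (pz (ml n 0) 0) <
    V.vr j l t (pz (V.W.prv (Wd.mo n (2 * s + 1))) (2 * r + 10)) :=
  k.of_vqI (h.role.inI (Wd.bk_prv' j (Wd.mo n _))) (k.toRs.rp_leak h.le h.port h.lay).1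

theorem AC : V.vr j l t (pz (V.W.prv (Wd.mo n (2 * s + 1))) (2 * r + 10)) <
    V.vr j l t (pz (V.W.prv (inl n)) (2 * r + 10)) :=
  k.of_vp h.inC (k.toRs.rp_leak h.le h.port h.lay).2.1

theorem out (g : V.InI j a (nl x)) : V.vr j l t (pz (nl x) 0) < V.vr j l t (pz (ml n 0) 0) ∨
    V.vr j l t (pz (V.W.prv (inl n)) (2 * r + 10)) < V.vr j l t (pz (nl x) 0) :=
  ((k.toRs.rp_leak h.le h.port h.lay).2.2 x).imp (k.of_vp h.inB) (k.of_vp g)

end Lk

/-- two routes to odd nodes and an access -/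
theorem row_odd (h : V.W.S.Acc d v L i f σ) (g : V.InF j L)
    (k : V.Rs j ![0, 0] ![u, V.W.S.sn L f σ])
    (o : cond d ((V.L j).key u < (V.L j).key (V.W.S.sn L f σ))
      ((V.L j).key (V.W.S.sn L f σ) < (V.L j).key u)) : V.W.Sv (hv (nl u)) v := by
  intro _ _
  cases d
  · exact k.serve (k.toRs.ch_cut 0) ((k.toRs.ch_cut 1).app (k.toRs.ch_acc h)) (acc_ne h)
      (fun g => by fin_cases g <;> simp) [.lt 2 1, .lt 1 0] [] (by decide +kernel)
      ⟨k.F_cut g 1, k.cut_cut (g := 1) (g' := 0) o⟩ trivial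
  · exact k.serve (k.toRs.ch_cut 0) ((k.toRs.ch_cut 1).app (k.toRs.ch_acc h)) (acc_ne h)
      (fun g => by fin_cases g <;> simp) [.lt 2 0, .lt 0 1] [] (by decide +kernel)
      ⟨k.F_cut g 0, k.cut_cut (g := 0) (g' := 1) o⟩ trivial

variable (V) in
/-- the even node `u` is reached from its parent -/
structure Ev (j : K) (a : Option Bool) (u : N) : Prop where
  two : 2 ≤ V.F.lev u
  role : V.Role j a (V.F.tree u)
  run : V.W.Run j 0 (V.F.par u)
  lt : (V.L j).key (V.F.par u) < (V.L j).key u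

namespace Ev

variable (h : Ev V j a u)
include h

theorem tp : V.F.tree (V.F.par u) = V.F.tree u := V.F.tree_par h.two

theorem rs (ne : V.F.tree u ≠ V.F.tree x) (k : V.W.Run j 0 x) (g : V.Role j a' (V.F.tree x)) :
    V.Rs j ![0, 0] ![V.F.par u, x] :=
  .two h.run k (Wd.On.tree_ne (h.tp ▸ ne)) (h.tp ▸ h.role) g

theorem off (ne : V.F.tree u ≠ V.F.tree x) (g : Fin 2) :
    ¬V.W.On (![0, 0] g) (![V.F.par u, x] g) u := fun c => by
  fin_cases g
  · have := V.F.lev_par h.two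
    have : V.F.lev u ≤ V.F.lev (V.F.par u) := c.1.1
    omega
  · exact ne c.1.tree

theorem inU : V.InI j a (nl u) := h.role.inI (.self _ j u)

variable (ne : V.F.tree u ≠ V.F.tree x) (k : V.Rs j ![0, 0] ![V.F.par u, x])
include ne k

theorem ch : V.W.Ch j ![0, 0] ![V.F.par u, x] (inl none) [true, true]
    [pz (V.W.cut 0 (V.F.par u)) 0, pz (nl u) 0] (hv (nl u)) :=
  (k.toRs.ch_cut 0).app (k.toRs.ch_kid (h.off ne) h.two)

theorem tu : V.vr j ![0, 0] ![V.F.par u, x] (pz (V.W.cut 0 (V.F.par u)) 0) <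
    V.vr j ![0, 0] ![V.F.par u, x] (pz (nl u) 0) :=
  k.cut_bk (g := 0) (.self _ j u) h.role fun _ c =>
    c.resolve_right (fun ⟨g, c, _⟩ => h.off ne g c) ▸ h.lt

omit ne in
theorem inT : V.InI j a (V.W.cut 0 (V.F.par u)) := k.inI_cut (g := 0) (h.tp ▸ h.role)

end Ev

/-- an even node and an access down -/
theorem row_even (h : V.W.S.Acc false v L i f σ) (g : V.InF j L) (w : Ev V j a u)
    (lv : V.Liv j (V.F.tree (V.W.S.sn L f σ))) (ro : V.Role j a' (V.F.tree (V.W.S.sn L f σ)))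
    (rk : (V.par j).rook = false) (z : (V.par j).zi a' < (V.par j).zi a) :
    V.W.Sv (hv (nl u)) v := by
  have ne : V.F.tree u ≠ V.F.tree (V.W.S.sn L f σ) := fun c => z.ne (by rw [ro.eq (c ▸ w.role)])
  have k := w.rs ne (run_lab lv (V.W.S.lev_sn V.D_pos _ _ _)) ro
  intro _ _
  exact k.serve (w.ch ne k) ((k.toRs.ch_cut 1).app (k.toRs.ch_acc h)) (acc_ne h)
    (fun g => by fin_cases g <;> simp) [.lt 3 2, .lt 2 0, .lt 0 1] [] (by decide +kernel)
    ⟨k.F_cut g 1, k.II (k.inI_cut (g := 1) ro) (w.inT k) rk z, w.tu ne k⟩ trivial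

/-- the node `u` leaks, the entry tree comes last; the token may be in the tree of `u` -/
theorem row_KD (h : V.W.S.Acc false v L i f σ) (g : V.InF j L) (w : Lk V j c u s)
    (lv : V.Liv j (V.F.tree (V.W.S.sn L f σ)))
    (ro : V.Role j (some c) (V.F.tree (V.W.S.sn L f σ)))
    (z : (V.par j).zi (some c) < (V.par j).zi none) : V.W.Sv (hv (nl u)) v := by
  have k := Rs.two (run_lab lv (V.W.S.lev_sn V.D_pos _ _ _)) w.run (Wd.On.tree_ne (w.ne ro)) ro w.ent
  have i0 := k.inI_cut (g := 0) ro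
  have i1 := k.inI_cut (g := 1) w.ent
  suffices H : V.W.Sv v (hv (nl u)) from fun {_ _} => H.symm
  intro _ _
  exact (Rp.ro k).serve_leak w.le w.port ((k.toRs.ch_cut 0).app (k.toRs.ch_acc h)) (k.toRs.ch_cut 1)
    .nil (acc_ne h).symm (fun g => by fin_cases g <;> simp) ⟨Wd.fre_cut, w.fre g, Wd.fre_cut⟩
    [.lt 1 0, .lt 1 4, .lt 4 3, .lt 3 5, .lt 5 2, .lt 0 2, .or (.lt 0 4) (.lt 5 0)] []
    (by decide +kernel)
    ⟨k.F_cut g 0, k.FI g w.inB, w.BA k, w.AC k, k.II w.inC i1 w.rook z, k.II i0 i1 w.rook z,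
      w.out k i0⟩ trivial

/-- an odd node; the token of an access up leaks, the entry tree comes last -/
theorem row_KU (h : V.W.S.Acc true v L i f σ) (g : V.InF j L) (w : Lk V j c (V.W.S.sn L f σ) s)
    (ru : V.W.Run j 0 u) (ro : V.Role j (some c) (V.F.tree u))
    (z : (V.par j).zi (some c) < (V.par j).zi none) : V.W.Sv (hv (nl u)) v := by
  have k := Rs.two ru w.run (Wd.On.tree_ne (w.ne ro)) ro w.ent
  have i0 := k.inI_cut (g := 0) ro
  have i1 := k.inI_cut (g := 1) w.ent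
  intro _ _
  exact (Rp.ro k).serve_leak w.le w.port (k.toRs.ch_cut 0) (k.toRs.ch_cut 1) (k.toRs.ch_acc h)
    (acc_ne h) (fun g => by fin_cases g <;> simp) ⟨Wd.fre_cut, Wd.fre_cut, w.fre g⟩
    [.lt 5 0, .lt 5 3, .lt 3 2, .lt 2 4, .lt 4 1, .lt 0 1, .or (.lt 0 3) (.lt 4 0)] []
    (by decide +kernel)
    ⟨k.F_cut g 0, k.FI g w.inB, w.BA k, w.AC k, k.II w.inC i1 w.rook z, k.II i0 i1 w.rook z,
      w.out k i0⟩ trivial

/-- an even node; the token of an access up leaks, the entry tree comes first -/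
theorem row_EU (h : V.W.S.Acc true v L i f σ) (g : V.InF j L) (w : Lk V j c (V.W.S.sn L f σ) s)
    (w' : Ev V j (some d) u) (z : (V.par j).fl = 0) : V.W.Sv (hv (nl u)) v := by
  have ne := w.ne w'.role
  have k := w'.rs ne w.run w.ent
  have i1 := k.inI_cut (g := 1) w.ent
  have z : ∀ c, (V.par j).zi none < (V.par j).zi (some c) := fun c => by
    cases c <;> simp [Par.zi, z]
  intro _ _
  exact (Rp.ro k).serve_leak w.le w.port (w'.ch ne k) (k.toRs.ch_cut 1) (k.toRs.ch_acc h)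
    (acc_ne h) (fun g => by fin_cases g <;> simp) ⟨Wd.fre_cut, Wd.fre_nl, Wd.fre_cut, w.fre g⟩
    [.lt 6 2, .lt 2 0, .lt 2 4, .lt 0 1, .lt 4 3, .lt 3 5, .or (.lt 0 4) (.lt 5 0),
      .or (.lt 1 4) (.lt 5 1)] [] (by decide +kernel)
    ⟨k.F_cut g 1, k.II i1 (w'.inT k) w.rook (z _), k.II i1 w.inB w.rook (z _), w'.tu ne k, w.BA k,
      w.AC k, w.out k (w'.inT k), w.out k w'.inU⟩ trivial

/-- an odd node and the first hub of the moat of an open node -/
theorem row_LZ0 (hs : 2 * s + 1 ≤ r0) (p : V.W.port j y = 0)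
    (ry : V.Role j (some false) (V.F.tree y)) (ru : V.W.Run j 0 u)
    (ro : V.Role j (some true) (V.F.tree u))
    (en : V.Role j none (V.F.tree (V.W.ell y (2 * s + 1)))) (z : (V.par j).fl = 2) :
    V.W.Sv (hv (nl u)) (hv (ml y 0)) := by
  have k := Rs.two ru (run_lab en.liv (V.lev_ell _ _))
    (Wd.On.tree_ne fun c => Option.some_ne_none _ (ro.eq (c ▸ en))) ro en
  have A := Wd.arc_leak hs p
  have iA := ry.inI (Wd.bk_prv' j (Wd.mo y (2 * s + 1)))
  intro _ _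
  exact (Rp.ro k).serveM A (d := true) (k.toRs.ch_cut 0) ((k.toRs.ch_cut 1).app (Wd.ch_entry y _))
    (by rw [zero_add]; exact Wd.adj_arc y _) .nil (by simp [ml, Wd.mo])
    (fun g => by fin_cases g <;> simp)
    ⟨Wd.fre_cut, Wd.fre_cut, A.fre_prv fun y _ => by
      rw [Nat.mod_eq_of_lt (by omega), Nat.mod_eq_of_lt (by omega)]; omega⟩
    [.lt 3 2, .lt 2 0, .lt 0 1] [] (by decide +kernel)
    ⟨k.of_vqI iA (k.toRs.vq_ml_prv (by
        rw [p, Nat.mod_eq_of_lt (show 2 * s + 1 < _ by omega)]; simp [el]; omega)),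
      k.II iA (k.inI_cut (g := 0) ro) en.rook (by simp [Par.zi]),
      k.II (k.inI_cut (g := 0) ro) (k.inI_cut (g := 1) en) en.rook (by simp [Par.zi, z])⟩ trivial

/-- an odd node and a later hub of a moat at rest; the port is at this hub -/
theorem row_LZe (ev : r0 % 2 = 0) (m0 : 0 < m) (p : (V.W.port j y : ℕ) = m)
    (ry : V.Rest j (V.F.tree y)) (k : V.Rs j ![0, 0] ![u, V.W.ell y 0])
    (o : (V.L j).key u < (V.L j).key (V.W.ell y 0)) : V.W.Sv (hv (nl u)) (hv (ml y m)) := by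
  have hm := (V.W.port j y).2
  have iF : ∀ {L}, V.W.Bk j L y → V.InF j L := ry.inF
  have b0 : V.W.Bk j (V.W.prv (Wd.mo y 0)) y := Wd.bk_prv' j (Wd.mo y 0)
  have bm : ∀ i, V.W.Bk j (ml y i) y := fun i => Wd.bk_pay.2 rfl
  have e0 : el (r0 + 1) (V.W.port j y) (m % (r0 + 1)) < el (r0 + 1) (V.W.port j y) (0 % (r0 + 1)) := by
    rw [p, Nat.mod_eq_of_lt (by omega)]
    simp [el, m0]
  have o1 : V.vr j ![0, 0] ![u, V.W.ell y 0] (pz (ml y m) 0) <
      V.vr j ![0, 0] ![u, V.W.ell y 0] (pz (V.W.prv (Wd.mo y 0)) (2 * r + 10)) :=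
    k.of_vq (hi_congr b0 (bm _) rfl).1 (k.toRs.vq_ml_prv e0)
  have ad : ∀ i, i = r0 → (HL (2 * r + 9) V.W.S.hang).Adj (hv (ml y 0)) (vz (ml y i) 0) := by
    intro i hi
    simpa only [← ml_add y 0, zero_add, hi] using Wd.adj_arc (W := V.W) y r0
  intro _ _
  obtain ⟨s, c | c⟩ := Nat.even_or_odd' (r0 - m)
  · have A : V.W.Arc j y m s := ⟨by omega, fun i _ => by
      rw [p, Nat.mod_eq_of_lt (by omega)]; omega⟩
    exact (Rp.ro k).serveM A (d := true) (k.toRs.ch_cut 0)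
      ((k.toRs.ch_cut 1).app (Wd.ch_entry y _)) (ad _ (by omega)) .nil (by simp [ml, Wd.mo])
      (fun g => by fin_cases g <;> simp)
      ⟨Wd.fre_cut, Wd.fre_cut, A.fre_prv fun y _ => by
        rw [Nat.mod_eq_of_lt (by omega), Nat.zero_mod]; omega⟩
      [.lt 3 2, .lt 2 0, .lt 0 1] [] (by decide +kernel)
      ⟨o1, k.F_cut (iF b0) 0, k.cut_cut (g := 0) (g' := 1) o⟩ trivial
  · have A : V.W.Arc j y (m + 1) s := ⟨by omega, fun i _ => by
      rw [p, Nat.mod_eq_of_lt (by omega)]; omega⟩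
    exact (Rp.ro k).serveM A (d := true) (k.toRs.ch_cut 0)
      ((k.toRs.ch_cut 1).app (Wd.ch_entry y _)) (ad _ (by omega)) (k.toRs.ch_moat y m)
      (by simp [Wd.mo]) (fun g => by fin_cases g <;> simp)
      ⟨Wd.fre_cut, Wd.fre_cut, A.fre_prv fun y _ => by
        rw [Nat.mod_eq_of_lt (by omega), Nat.zero_mod]; omega, A.fre_ml fun y _ _ => by
        rw [Nat.mod_eq_of_lt (by omega), Nat.mod_eq_of_lt (by omega)]; omega⟩
      [.lt 4 2, .lt 2 3, .lt 3 0, .lt 0 1] [] (by decide +kernel)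
      ⟨o1, k.FF (iF b0) (iF (bm _)) (fq_lt (fr_of (hi_congr (bm _) b0 rfl).1
          ((Wd.prv_lt j _).trans (Wd.pos_ml.2 (by
            rw [p, Nat.mod_eq_of_lt (show m + 1 < _ by omega)]; simp [el]; omega))))),
        k.F_cut (iF (bm _)) 0, k.cut_cut (g := 0) (g' := 1) o⟩ trivial

end Fw.Rp

end Pool.Agent.P.MP_439f1f_co
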