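import Pool.Agent.P.MP_439f1f_co.Rl8
import Pool.Agent.P.MP_439f1f_co.Rl9
import Pool.Agent.P.MP_439f1f_co.B21

/-!
Menus at a cold system: the head of a line into a system hub, and a system hub.
-/

set_option autoImplicit false
set_option linter.unusedSectionVars false

namespace Pool.Agent.P.MP_439f1f_co

open Function SimpleGraph Sum

variable {K N : Type} {r r0 q D e b : ℕ} [DecidableEq K] [Finite K] [Finite N] [Nonempty K]

namespace Wd

variable {β : Type} [LinearOrder β] {W : Wd K N β r r0 q D e b} {j s : K}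
  {c c' : Pt K N × Fin 3}

theorem fam_bt (W : Wd K N β r r0 q D e b) (s : K) (c : Pt K N × Fin 3) :
    W.S.fam s (bt (W.S.O.nx s) c).1 = W.S.fam s c.1 := by
  obtain ⟨y, k⟩ := c
  have := W.S.rng.famn s ((W.S.O.nx s).symm y)
  rw [Equiv.apply_symm_apply] at this
  fin_cases k
  exacts [(W.S.rng.famn s _).trans (W.S.rng.famn s _), this.symm, rfl]

theorem hang_bt (W : Wd K N β r r0 q D e b) (s : K) (c : Pt K N × Fin 3) :
    W.S.hang (W.S.O.sl s c) (2 * r + 9) (some (inr (s, bt (W.S.O.nx s) c))) :=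
  (W.S.fit.hs _ _ _).2 (Or.inr rfl)

theorem cold_sl (h : s ≠ j) (c : Pt K N × Fin 3) : Cold j (W.S.O.dA (W.S.O.sl s c)) := by
  rw [Mac.dA_sl]
  exact cold_sys.2 h

theorem le_sl (h : s ≠ j) {L : Hub K N (Pt K N) r0} :
    W.pos j L ≤ W.pos j (W.S.O.sl s c) ↔ W.pos j L < W.pos j (inr (s, c)) := by
  rw [← lt_dA_iff (cold_sl h c), Mac.dA_sl]

theorem sl_lt (h : s ≠ j) {L : Hub K N (Pt K N) r0} :
    W.pos j (W.S.O.sl s c) < W.pos j L ↔ W.pos j (inr (s, c)) ≤ W.pos j L := by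
  rw [← not_le, le_sl h, not_lt]

theorem sl_sl (h : s ≠ j) : W.pos j (W.S.O.sl s c) < W.pos j (W.S.O.sl s c') ↔
    W.pos j (inr (s, c)) < W.pos j (inr (s, c')) := by rw [sl_lt h, le_sl h]

theorem hub_ne (k : ZMod 12) (h : W.S.idx s c = W.S.idx s c' + k) (k0 : k ≠ 0) :
    W.pos j (inr (s, c)) ≠ W.pos j (inr (s, c')) := fun a => by
  rw [(Prod.mk.inj (inr.inj (pos_inj a))).2] at h
  exact k0 (by simpa using h)

/-- the three hubs of a cold port are consecutive -/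
theorem stn (h : s ≠ j) (k : c.2 = 2) :
    W.pos j (inr (s, bt (W.S.O.nx s) c)) < W.pos j (inr (s, c)) ∧ ∀ c',
      W.S.idx s c' + 4 ≠ W.S.idx s c →
      W.pos j (inr (s, bt (W.S.O.nx s) c)) < W.pos j (inr (s, c')) →
      W.pos j (inr (s, c)) ≤ W.pos j (inr (s, c')) := by
  obtain ⟨y, _⟩ := c
  obtain rfl := k
  have a := lt_dA (W := W) (j := j) (L := inr (s, y, 0)) (cold_sys.2 h)
  have a' := lt_dA (W := W) (j := j) (L := inr (s, y, 1)) (cold_sys.2 h)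
  refine ⟨a.1.trans a'.1, fun c' n d => a'.2 _ ((a.2 _ d).lt_of_ne fun f => n ?_)⟩
  rw [← (Prod.mk.inj (inr.inj (pos_inj f))).2]
  exact (by decide : ∀ t, ixt t 1 + 4 = ixt t 2) _

theorem tri (f : Equiv.Perm (Pt K N)) (c : Pt K N × Fin 3) :
    c.2 = 2 ∨ (bt f c).2 = 2 ∨ (bt f (bt f c)).2 = 2 := by
  obtain ⟨y, k⟩ := c
  fin_cases k <;> simp

end Wd

namespace Fw.Rq

variable {V : Fw K N r r0 q D e b} {j s : K} {c : Pt K N × Fin 3} {L L' : Hub K N (Pt K N) r0}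
  {i i' : ℕ} {v w : Vx K N (Pt K N) r r0} {x : N}

section
variable {l : Fin 2 → ℕ} {t : Fin 2 → N} (k : V.Rs j l t) (dr : (V.par j).dr = true)
  (h : V.InF j L) (h' : V.InF j L')
include k dr h h'

theorem lt (a : V.W.pos j L < V.W.pos j L') : V.vr j l t (pz L i) < V.vr j l t (pz L' i') :=
  k.FF h h' (fq_lt (fr_of (fun d => by simpa [dr] using d.1) a))

theorem le (a : V.W.pos j L ≤ V.W.pos j L') (d : i < i') (d' : i' ≤ 2 * r + 10) :
    V.vr j l t (pz L i) < V.vr j l t (pz L' i') :=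
  a.eq_or_lt.elim (fun a => Wd.pos_inj a ▸ vr_line d d') (lt k dr h h')

end

variable (V) in
/-- the hub `n` steps after `c` -/
noncomputable abbrev bn (s : K) (c : Pt K N × Fin 3) (n : ℕ) : Pt K N × Fin 3 :=
  (bt (V.W.S.O.nx s))^[n] c

theorem at_Z (c : Pt K N × Fin 3) : V.W.S.At (V.W.S.O.sl s c) (2 * r + 8) true .Z :=
  Stat.nm_Z (by simp [Stat.Mo])

/-- **The menu of a head**: any cut `pz L i` that is reached from above. -/
theorem fill (cs : s ≠ j) (dr : (V.par j).dr = true)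
    (fr : ∀ n < 4, V.InF j (V.W.S.O.sl s (bn V s c n)))
    (rs : ∀ n < 4, V.Rs j ![0, 0] ![V.W.S.sn (V.W.S.O.sl s (bn V s c n)) true .Z, x] ∧
      (V.L j).key (V.W.S.sn (V.W.S.O.sl s (bn V s c n)) true .Z) < (V.L j).key x)
    (fL : V.InF j L) (hi : i ≤ 2 * r + 8)
    (ch : ∀ t : Fin 2 → N, V.W.Ch j ![0, 0] t (hv (nl x)) [true] [pz L i] w)
    (ne : vz (V.W.S.O.sl s (bn V s c 3)) (2 * r + 9) ≠ w) :
    V.W.Sv (vz (V.W.S.O.sl s (bn V s c 3)) (2 * r + 9)) w := by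
  have f3 := fr 0 (by omega)
  have f2 := fr 1 (by omega)
  have f1 := fr 2 (by omega)
  have f0 := fr 3 (by omega)
  obtain ⟨k3, o3⟩ := rs 0 (by omega)
  obtain ⟨k2, o2⟩ := rs 1 (by omega)
  obtain ⟨k1, o1⟩ := rs 2 (by omega)
  obtain ⟨k0, o0⟩ := rs 3 (by omega)
  simp only [bn, iterate_succ_apply', iterate_zero_apply] at *
  have st : ∀ (t : Fin 2 → N) c, V.W.Ch j ![0, 0] t (vz (V.W.S.O.sl s c) (2 * r + 9)) [true]
      [pz (V.W.S.O.sl s (bt (V.W.S.O.nx s) c)) (2 * r + 10)]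
      (vz (V.W.S.O.sl s (bt (V.W.S.O.nx s) c)) (2 * r + 9)) := fun t c =>
    Wd.ch_fhead (by rw [Mac.nxt_cold _ cs]; exact V.W.hang_bt s c) le_rfl
  have i1 := V.W.S.idx_bt s c
  have i2 := V.W.S.idx_bt s (bt (V.W.S.O.nx s) c)
  have i3 := V.W.S.idx_bt s (bt (V.W.S.O.nx s) (bt (V.W.S.O.nx s) c))
  have T := Wd.tri (V.W.S.O.nx s) c
  have s1 := fun a => Wd.stn (W := V.W) (c := c) cs a
  have s2 := fun a => Wd.stn (W := V.W) (c := bt (V.W.S.O.nx s) c) cs a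
  have s3 := fun a => Wd.stn (W := V.W) (c := bt (V.W.S.O.nx s) (bt (V.W.S.O.nx s) c)) cs a
  have st1 := fun t => st t c
  have st2 := fun t => st t (bt (V.W.S.O.nx s) c)
  have st3 := fun t => st t (bt (V.W.S.O.nx s) (bt (V.W.S.O.nx s) c))
  generalize bt (V.W.S.O.nx s) c = c1 at *
  generalize bt (V.W.S.O.nx s) c1 = c2 at *
  generalize bt (V.W.S.O.nx s) c2 = c3 at *
  have n01 := Wd.hub_ne (W := V.W) (j := j) 1 i3 (by decide)
  have n12 := Wd.hub_ne (W := V.W) (j := j) 1 i2 (by decide)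
  have n02 := Wd.hub_ne (W := V.W) (j := j) (c := c3) (c' := c1) 2 (by rw [i3, i2]; ring) (by decide)
  have n13 := Wd.hub_ne (W := V.W) (j := j) (c := c2) (c' := c) 2 (by rw [i2, i1]; ring) (by decide)
  have z : ∀ p : ZMod 12, p + 1 + 1 + 4 ≠ p := by decide
  intro _ _
  rcases le_or_gt (V.W.pos j L) (V.W.pos j (V.W.S.O.sl s c3)) with a0 | a0
  · exact k0.serve ((k0.toRs.ch_cut 0).app (Wd.ch_dn (at_Z c3).hang (by omega)))
      ((k0.toRs.ch_cut 1).app (ch _)) ne (fun g => by fin_cases g <;> simp)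
      [.lt 3 1, .lt 1 0, .lt 0 2] [] (by decide +kernel)
      ⟨le k0 dr fL f0 a0 (by omega) (by omega), k0.F_cut f0 0, k0.cut_cut (g := 0) (g' := 1) o0⟩
      trivial
  rcases n01.lt_or_gt with a1 | a1
  · exact k1.serve (((k1.toRs.ch_cut 0).app (Wd.ch_dn (at_Z c2).hang (by omega))).app (st3 _))
      ((k1.toRs.ch_cut 1).app (ch _)) ne (fun g => by fin_cases g <;> simp)
      [.lt 2 4, .lt 2 1, .lt 1 0, .lt 4 0, .lt 0 3] [(1, 4)] (by decide +kernel)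
      ⟨lt k1 dr f0 fL a0, lt k1 dr f0 f1 ((Wd.sl_sl cs).2 a1), k1.F_cut f1 0, k1.F_cut fL 0,
        k1.cut_cut (g := 0) (g' := 1) o1⟩ (pz_ne' (by omega) (by omega) (by omega))
  have b1 := (Wd.sl_sl cs).2 a1
  have c2' := (((k2.toRs.ch_cut 0).app (Wd.ch_dn (at_Z c1).hang (by omega))).app (st2 _)).app (st3 _)
  have c3' := ((((k3.toRs.ch_cut 0).app (Wd.ch_dn (at_Z c).hang (by omega))).app (st1 _)).app
    (st2 _)).app (st3 _)
  rcases le_or_gt (V.W.pos j L) (V.W.pos j (V.W.S.O.sl s c1)) with a2 | a2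
  · exact k2.serve c2' ((k2.toRs.ch_cut 1).app (ch _)) ne (fun g => by fin_cases g <;> simp)
      [.lt 2 3, .lt 3 5, .lt 5 1, .lt 1 0, .lt 0 4] [] (by decide +kernel)
      ⟨lt k2 dr f1 f0 b1, lt k2 dr f0 fL a0, le k2 dr fL f2 a2 (by omega) (by omega),
        k2.F_cut f2 0, k2.cut_cut (g := 0) (g' := 1) o2⟩ trivial
  rcases n12.lt_or_gt with a3 | a3
  swap
  · have b := (T.resolve_right fun d => d.elim (fun d => (s2 d).1.asymm a3)
      fun d => (s3 d).1.asymm a1)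
    have b3 := ((s1 b).2 c2 (by rw [i2, i1]; exact z _) a3).lt_of_ne n13.symm
    exact k3.serve c3' ((k3.toRs.ch_cut 1).app (ch _)) ne (fun g => by fin_cases g <;> simp)
      [.lt 2 1, .lt 1 3, .lt 3 4, .lt 4 6, .lt 6 0, .lt 0 5] [] (by decide +kernel)
      ⟨lt k3 dr f2 f3 ((Wd.sl_sl cs).2 (s1 b).1), lt k3 dr f3 f1 ((Wd.sl_sl cs).2 b3),
        lt k3 dr f1 f0 b1, lt k3 dr f0 fL a0, k3.F_cut fL 0, k3.cut_cut (g := 0) (g' := 1) o3⟩
      trivial
  rcases n02.lt_or_gt with a4 | a4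
  · have b := (T.resolve_right fun d => d.elim
      (fun d => a4.not_ge ((s2 d).2 c3 (by rw [i3, i2]; exact z _) a1)) fun d => (s3 d).1.asymm a1)
    exact k3.serve c3' ((k3.toRs.ch_cut 1).app (ch _)) ne (fun g => by fin_cases g <;> simp)
      [.lt 3 4, .lt 4 2, .lt 2 1, .lt 2 6, .lt 1 0, .lt 6 0, .lt 0 5] [(1, 6)] (by decide +kernel)
      ⟨lt k3 dr f1 f0 b1, lt k3 dr f0 f2 ((Wd.sl_sl cs).2 a4),
        lt k3 dr f2 f3 ((Wd.sl_sl cs).2 (s1 b).1), lt k3 dr f2 fL a2, k3.F_cut f3 0, k3.F_cut fL 0,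
        k3.cut_cut (g := 0) (g' := 1) o3⟩ (pz_ne' (by omega) (by omega) (by omega))
  · exact k2.serve c2' ((k2.toRs.ch_cut 1).app (ch _)) ne (fun g => by fin_cases g <;> simp)
      [.lt 2 1, .lt 1 3, .lt 3 5, .lt 5 0, .lt 0 4] [] (by decide +kernel)
      ⟨lt k2 dr f1 f2 ((Wd.sl_sl cs).2 a3), lt k2 dr f2 f0 ((Wd.sl_sl cs).2 a4), lt k2 dr f0 fL a0,
        k2.F_cut fL 0, k2.cut_cut (g := 0) (g' := 1) o2⟩ trivial

/-- **The menu of a hub**: any cut `pz L i` that is reached from below. -/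
theorem run (cs : s ≠ j) (dr : (V.par j).dr = true)
    (fr : ∀ n < 4, V.InF j (inr (s, bn V s c n)) ∧ V.InF j (V.W.S.O.sl s (bn V s c n)))
    (rs : ∀ n < 4, V.Rs j ![0, 0] ![x, V.W.S.sn (inr (s, bn V s c n)) false .H] ∧
      (V.L j).key x < (V.L j).key (V.W.S.sn (inr (s, bn V s c n)) false .H))
    (fL : V.InF j L) (h0 : 0 < i) (hi : i ≤ 2 * r + 9)
    (ch : ∀ t : Fin 2 → N, V.W.Ch j ![0, 0] t (hv (nl x)) [false] [pz L i] v)
    (ne : v ≠ hv (inr (s, c))) : V.W.Sv v (hv (inr (s, c))) := by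
  obtain ⟨f0, g0⟩ := fr 0 (by omega)
  obtain ⟨f1, g1⟩ := fr 1 (by omega)
  obtain ⟨f2, g2⟩ := fr 2 (by omega)
  obtain ⟨f3, -⟩ := fr 3 (by omega)
  obtain ⟨k0, o0⟩ := rs 0 (by omega)
  obtain ⟨k1, o1⟩ := rs 1 (by omega)
  obtain ⟨k2, o2⟩ := rs 2 (by omega)
  obtain ⟨k3, o3⟩ := rs 3 (by omega)
  simp only [bn, iterate_succ_apply', iterate_zero_apply] at *
  have st : ∀ (t : Fin 2 → N) c, V.W.Ch j ![0, 0] t (hv (inr (s, bt (V.W.S.O.nx s) c))) [false]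
      [pz (V.W.S.O.sl s c) (2 * r + 10)] (hv (inr (s, c))) := fun t c => by
    have := Wd.ch_head (j := j) (l := ![0, 0]) (t := t) (V.W.hang_bt s c)
    rwa [Mac.nxt_cold _ cs] at this
  have tl : ∀ {t : Fin 2 → N} (k : V.Rs j ![0, 0] t) c, V.W.Ch j ![0, 0] t
      (hv (nl (V.W.S.sn (inr (s, c)) false .H))) [true] [pz (inr (s, c)) 0] (hv (inr (s, c))) :=
    fun k c => Wd.ch_tail (k.toRs.off_sys _) (V.W.S.sys_H _).hang
  have i1 := V.W.S.idx_bt s c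
  have i2 := V.W.S.idx_bt s (bt (V.W.S.O.nx s) c)
  have i3 := V.W.S.idx_bt s (bt (V.W.S.O.nx s) (bt (V.W.S.O.nx s) c))
  have T := Wd.tri (V.W.S.O.nx s) c
  have s1 := fun a => Wd.stn (W := V.W) (c := c) cs a
  have s2 := fun a => Wd.stn (W := V.W) (c := bt (V.W.S.O.nx s) c) cs a
  have s3 := fun a => Wd.stn (W := V.W) (c := bt (V.W.S.O.nx s) (bt (V.W.S.O.nx s) c)) cs a
  have st1 := fun t => st t c
  have st2 := fun t => st t (bt (V.W.S.O.nx s) c)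
  have st3 := fun t => st t (bt (V.W.S.O.nx s) (bt (V.W.S.O.nx s) c))
  generalize bt (V.W.S.O.nx s) c = c1 at *
  generalize bt (V.W.S.O.nx s) c1 = c2 at *
  generalize bt (V.W.S.O.nx s) c2 = c3 at *
  have n10 := Wd.hub_ne (W := V.W) (j := j) 1 i1 (by decide)
  have n21 := Wd.hub_ne (W := V.W) (j := j) 1 i2 (by decide)
  have n20 := Wd.hub_ne (W := V.W) (j := j) (c := c2) (c' := c) 2 (by rw [i2, i1]; ring) (by decide)
  have n31 := Wd.hub_ne (W := V.W) (j := j) (c := c3) (c' := c1) 2 (by rw [i3, i2]; ring) (by decide)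
  have z : ∀ p : ZMod 12, p + 4 ≠ p + 1 := by decide
  have ls := fun {c L} => @Wd.le_sl _ _ _ _ _ _ _ _ _ _ _ _ _ _ V.W j s c cs L
  intro _ _
  rcases le_or_gt (V.W.pos j (inr (s, c))) (V.W.pos j L) with a0 | a0
  · exact k0.serve ((k0.toRs.ch_cut 0).app (ch _)) ((k0.toRs.ch_cut 1).app (tl k0 c)) ne
      (fun g => by fin_cases g <;> simp) [.lt 3 1, .lt 1 0, .lt 0 2] [] (by decide +kernel)
      ⟨le k0 dr f0 fL a0 h0 (by omega), k0.F_cut fL 0, k0.cut_cut (g := 0) (g' := 1) o0⟩ trivial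
  have b0 := ls.2 a0
  rcases n10.lt_or_gt with a1 | a1
  · exact k1.serve ((k1.toRs.ch_cut 0).app (ch _))
      (((k1.toRs.ch_cut 1).app (tl k1 c1)).app (st1 _)) ne (fun g => by fin_cases g <;> simp)
      [.lt 1 4, .lt 3 4, .lt 4 0, .lt 0 2] [(1, 3)] (by decide +kernel)
      ⟨le k1 dr fL g0 b0 (by omega) le_rfl, le k1 dr f1 g0 (ls.2 a1) (by omega) le_rfl,
        k1.F_cut g0 0, k1.cut_cut (g := 0) (g' := 1) o1⟩ (pz_ne' (by omega) (by omega) (by omega))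
  have b1 := (Wd.sl_sl cs).2 a1
  have c2' := (((k2.toRs.ch_cut 1).app (tl k2 c2)).app (st2 _)).app (st1 _)
  have c3' := ((((k3.toRs.ch_cut 1).app (tl k3 c3)).app (st3 _)).app (st2 _)).app (st1 _)
  rcases le_or_gt (V.W.pos j (inr (s, c2))) (V.W.pos j L) with a2 | a2
  · exact k2.serve ((k2.toRs.ch_cut 0).app (ch _)) c2' ne (fun g => by fin_cases g <;> simp)
      [.lt 3 1, .lt 1 5, .lt 5 4, .lt 4 0, .lt 0 2] [] (by decide +kernel)
      ⟨le k2 dr f2 fL a2 h0 (by omega), le k2 dr fL g0 b0 (by omega) le_rfl, lt k2 dr g0 g1 b1,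
        k2.F_cut g1 0, k2.cut_cut (g := 0) (g' := 1) o2⟩ trivial
  rcases n21.lt_or_gt with a3 | a3
  swap
  · have b := (T.resolve_left fun d => (s1 d).1.asymm a1).resolve_left fun d => (s2 d).1.asymm a3
    have b3 : _ < V.W.pos j (inr (s, c3)) := n31.symm.lt_or_gt.resolve_right fun d =>
      a3.not_ge ((s3 b).2 c1 (by rw [i2]; exact z _) d)
    exact k3.serve ((k3.toRs.ch_cut 0).app (ch _)) c3' ne (fun g => by fin_cases g <;> simp)
      [.lt 1 6, .lt 6 5, .lt 5 3, .lt 3 4, .lt 4 0, .lt 0 2] [] (by decide +kernel)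
      ⟨le k3 dr fL g0 b0 (by omega) le_rfl, lt k3 dr g0 g1 b1,
        lt k3 dr g1 f3 ((Wd.sl_lt cs).2 b3.le), le k3 dr f3 g2 (ls.2 (s3 b).1) (by omega) le_rfl,
        k3.F_cut g2 0, k3.cut_cut (g := 0) (g' := 1) o3⟩ trivial
  rcases n20.lt_or_gt with a4 | a4
  · have b := (T.resolve_left fun d => (s1 d).1.asymm a1).resolve_left fun d =>
      a1.not_ge ((s2 d).2 c (by rw [i1]; exact z _) a4)
    exact k3.serve ((k3.toRs.ch_cut 0).app (ch _)) c3' ne (fun g => by fin_cases g <;> simp)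
      [.lt 3 4, .lt 4 6, .lt 6 5, .lt 1 4, .lt 5 0, .lt 0 2] [(1, 3)] (by decide +kernel)
      ⟨le k3 dr f3 g2 (ls.2 (s3 b).1) (by omega) le_rfl, lt k3 dr g2 g0 ((Wd.sl_sl cs).2 a4),
        lt k3 dr g0 g1 b1, le k3 dr fL g2 (ls.2 a2) (by omega) le_rfl, k3.F_cut g1 0,
        k3.cut_cut (g := 0) (g' := 1) o3⟩ (pz_ne' (by omega) (by omega) (by omega))
  · exact k2.serve ((k2.toRs.ch_cut 0).app (ch _)) c2' ne (fun g => by fin_cases g <;> simp)
      [.lt 1 5, .lt 5 3, .lt 3 4, .lt 4 0, .lt 0 2] [] (by decide +kernel)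
      ⟨le k2 dr fL g0 b0 (by omega) le_rfl, lt k2 dr g0 f2 ((Wd.sl_lt cs).2 a4.le),
        le k2 dr f2 g1 (ls.2 a3) (by omega) le_rfl, k2.F_cut g1 0,
        k2.cut_cut (g := 0) (g' := 1) o2⟩ trivial

/-- a state with the labels in the slot `σ` of the lines into the hubs of a ring, then the labels
in the slot `τ` of the lines out of them -/
theorem exists_cs (s : K) (f : Bool) {σ τ : Slot (r + 1)} (h1 : τ ≠ .Z) (h2 : τ = .H → σ ≠ .Z)
    {x0 : Kl K r r0} {p0 : ZMod 12} {c0 : ZMod 3} (h0 : x0.1 = (.hS (s, f) p0 c0, σ))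
    (zs : List (Pt K N × Fin 3)) (len : zs.length ≤ 6) (fm : ∀ z ∈ zs, V.W.S.fam s z.1 = f)
    (z0 : Pt K N × Fin 3) (m0 : z0 ∈ zs) :
    ∃ j, s ≠ j ∧ (V.par j).dr = true ∧
      (∀ z ∈ zs, V.InF j (inr (s, z)) ∧ V.InF j (V.W.S.O.sl s z)) ∧
      ∀ z z', V.W.S.fam s z.1 = f → V.W.S.fam s z'.1 = f → ∀ i i',
        V.W.S.At (V.W.S.O.sl s z) i true σ → V.W.S.At (inr (s, z')) i' false τ →
        V.Rs j ![0, 0] ![V.W.S.sn (V.W.S.O.sl s z) true σ, V.W.S.sn (inr (s, z')) false τ] ∧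
          (V.L j).key (V.W.S.sn (V.W.S.O.sl s z) true σ) <
            (V.L j).key (V.W.S.sn (inr (s, z')) false τ) := by
  classical
  obtain ⟨g, a⟩ := V.W.exists_grp V.grp (zs.map (fun z => inr (s, z)) ++ zs.map (V.W.S.O.sl s))
    (by simp; omega)
  let A : Bool → Set (Kl K r r0) := fun i =>
    {T | ∃ p c, T.1 = cond i (.tS (s, f) p c, τ) (.hS (s, f) p c, σ)}
  have wA : ∀ i, ∀ T ∈ A i, T.ty.wor = (s, f) := by
    rintro (_ | _) T ⟨p, c, d⟩ <;> rw [Kl.ty_val d] <;> rfl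
  have sA : ∀ i, ∀ T ∈ A i, T.stg = s := fun i T d => congrArg Prod.fst (wA i T d)
  obtain ⟨j, S, o⟩ := V.exists_st2 g (Par.TA.flat (D := D) (A := A)
    (fun i T d T' d' => (sA i T d).trans (sA i T' d').symm)
    (fun T ⟨_, _, d⟩ ⟨_, _, d'⟩ => by simp [d] at d')
    (by
      rintro (_ | _) (_ | _) T ⟨p, c, d⟩ T' ⟨p', c', d'⟩ <;>
        simp_all [Kl.Con, Kl.Jun, Kl.Lz, Kl.ty, Kl.sl, Kl.off, HT.hd])
    (by rintro (_ | _) T ⟨p, c, d⟩ <;> simp_all)) false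
    (zs.map fun z => if h : ∃ n, V.W.In (inr (s, z)) n then V.F.tree h.choose else x0) (by simpa)
  have fa : ∀ z ∈ zs, V.W.Far j (inr (s, z)) ∧ V.W.Far j (V.W.S.O.sl s z) := fun z m =>
    ⟨a _ (by simp; tauto) j S.grp, a _ (by simp; tauto) j S.grp⟩
  have cs : s ≠ j := cold_sys.1 (fa z0 m0).1.cold
  have nr : ∀ z ∈ zs, ∀ n, V.W.In (inr (s, z)) n → ∀ a, ¬V.Role j a (V.F.tree n) := by
    rintro z m n c (_ | i) d
    · exact d.op S.op
    · have h : ∃ n, V.W.In (inr (s, z)) n := ⟨n, c⟩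
      refine V.W.wor_ne c (fm z m ▸ wA i _ (o i
        (fun x d => ⟨x0, ⟨p0, c0, h0⟩, (sA i x d).trans (sA false x0 ⟨p0, c0, h0⟩).symm⟩) _
        (List.mem_map.2 ⟨z, m, ?_⟩) d))
      rw [dif_pos h, h.choose_spec.unique c]
      rfl
  refine ⟨j, cs, S.dr, fun z m => ⟨fun n c => nr z m n ((fa z m).1.bk.1 c), fun n c =>
    nr z m n (V.W.S.O.dA_sl s z ▸ V.W.in_dA.2 ((fa z m).2.bk.1 c))⟩,
    fun z z' c c' i i' d d' => ?_⟩
  have t := d.val V.D_pos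
  have t' := d'.val V.D_pos
  simp only [Pre.typ, Mac.dA_sl, Pre.ht, Pre.tt, c, c'] at t t'
  have m : V.F.tree _ ∈ A false := ⟨_, _, t⟩
  have m' : V.F.tree _ ∈ A true := ⟨_, _, t'⟩
  have u := S.role _ _ m ((sA _ _ m).trans_ne cs)
  have u' := S.role _ _ m' ((sA _ _ m').trans_ne cs)
  have lv : ∀ L f σ, V.F.lev (V.W.S.sn L f σ) % 2 = 1 := fun L f σ => by
    rw [show V.F.lev _ = D from V.W.S.lev_sn V.D_pos L f σ, V.od]
  exact ⟨.two ((S.liv m u.1 rfl).run rfl (lv _ _ _) (V.F.surj _).1)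
    ((S.liv m' u'.1 rfl).run rfl (lv _ _ _) (V.F.surj _).1)
    (Wd.On.tree_ne fun d => by cases u.eq (d ▸ u')) u u', u.lt u' S.rook (by simp [Par.zi])⟩

theorem fam_bn (n : ℕ) : V.W.S.fam s (bn V s c n).1 = V.W.S.fam s c.1 := by
  induction n with
  | zero => rfl
  | succ n ih => rw [bn, iterate_succ_apply', Wd.fam_bt, ih]

theorem mem_bn (z : Pt K N × Fin 3) {n : ℕ} (h : n < 4) :
    bn V s c n ∈ z :: (List.range 4).map (bn V s c) :=
  List.mem_cons_of_mem _ (List.mem_map_of_mem (List.mem_range.2 h))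

end Fw.Rq

open Fw.Rq in
/-- **The extra cold pairs.** -/
theorem Fw.ls2' (V : Fw K N r r0 q D e b) : V.LS2 := by
  have := V.hr
  have := V.he
  rintro s z z' v w - f (⟨rfl, rfl⟩ | ⟨rfl, rfl⟩)
  · obtain ⟨c, rfl⟩ := (bt (V.W.S.O.nx s)).surjective.iterate 3 z
    obtain ⟨u, τ, a⟩ := V.W.S.at_mid (inr (s, z')) (i := 2) (by omega) (by omega)
    obtain rfl : u = false := a.half.2 (by omega)
    have f' : V.W.S.fam s z'.1 = V.W.S.fam s c.1 := f.symm.trans (fam_bn 3)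
    have t := (at_Z (V := V) (s := s) c).val V.D_pos
    simp only [Pre.typ, Mac.dA_sl, Pre.ht] at t
    obtain ⟨j, cs, dr, fr, rs⟩ := exists_cs (V := V) s (V.W.S.fam s c.1) (σ := .Z) (τ := τ)
      (by rintro rfl; have := a.pos_eq (V.W.S.lo_Z _) rfl; omega)
      (by rintro rfl; have := a.pos_eq (V.W.S.sys_H _) rfl; omega) t
      (z' :: (List.range 4).map (bn V s c)) (by simp)
      (List.forall_mem_cons.2 ⟨f', List.forall_mem_map.2 fun n _ => fam_bn n⟩) z' (by simp)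
    exact fun {_ _} => fill cs dr (fun n h => (fr _ (mem_bn z' h)).2)
      (fun n _ => rs _ _ (fam_bn n) f' _ _ (at_Z _) a) (fr z' (by simp)).1 (by omega)
      (fun t => Wd.ch_up a.hang (by omega))
      (by simp [vz, Fin.ext_iff, Nat.mod_eq_of_lt (show 1 < 2 * r + 9 + 1 by omega)])
  · obtain ⟨u, σ, a⟩ := V.W.S.at_mid (V.W.S.O.sl s z) (i := 2 * r + 6) (by omega) (by omega)
    obtain rfl : u = true := by
      have := a.half
      cases u <;> simp at this ⊢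
      omega
    have t := a.val V.D_pos
    simp only [Pre.typ, Mac.dA_sl, Pre.ht, f] at t
    obtain ⟨j, cs, dr, fr, rs⟩ := exists_cs (V := V) s (V.W.S.fam s z'.1) (σ := σ) (τ := .H)
      (by simp) (by rintro - rfl; have := a.pos_eq (at_Z z) rfl; omega) t
      (z :: (List.range 4).map (bn V s z')) (by simp)
      (List.forall_mem_cons.2 ⟨f, List.forall_mem_map.2 fun n _ => fam_bn n⟩) z (by simp)
    exact fun {_ _} => Rq.run cs dr (fun n h => fr _ (mem_bn z h))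
      (fun n _ => rs _ _ f (fam_bn n) _ _ a (V.W.S.sys_H _)) (fr z (by simp)).2
      (i := 2 * r + 6 + 1) (by omega) (by omega) (fun t => Wd.ch_dn a.hang (by omega))
      (by simp [vz])

end Pool.Agent.P.MP_439f1f_co
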