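import Pool.Agent.P.MP_439f1f_co.Rc1
import Pool.Agent.P.MP_439f1f_co.Nd0
import Pool.Agent.P.MP_439f1f_co.Dy7

/-!
Service of two points on lines of one colour in different blocks.
-/

set_option autoImplicit false
set_option linter.unusedSectionVars false

namespace Pool.Agent.P.MP_439f1f_co

open Function SimpleGraph Sum

variable {K N : Type} {r r0 q D e b : ℕ}

namespace Kl

/-- the class `T` must come after the class `T'` -/
def Lws (T T' : Kl K r r0) : Prop :=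
  (T.ty = T'.ty ∧ T'.off = T.off + 1) ∨
    (T.ty.hd = false ∧ T.sl = .Z ∧ T'.ty.hd = true ∧ T'.sl = .H) ∨
      ∃ w c k w' c', T.1 = (.hM w c k, .Z) ∧ T'.1 = (.hP w' c', .Z)

theorem Lws.asy {T T' : Kl K r r0} (h : T.Lws T') : ¬T'.Lws T := by
  rintro (c | c | ⟨_, _, _, _, _, c, c'⟩) <;> rcases h with h | h | ⟨_, _, _, _, _, h, h'⟩
  · omega
  · simp [c.1, h.1] at h
  · simp [Kl.ty, h, h'] at c
  · simp [h.1, c.1] at c
  · simp [h.1] at c
  · simp [Kl.ty, h', HT.hd] at c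
  · simp [Kl.ty, c, c'] at h
  · simp [Kl.ty, c', HT.hd] at h
  · simp [h] at c'

/-- the level class that a cut must avoid -/
def bads (T : Kl K r r0) : Fin 4 :=
  match T.1 with
  | (.tN _ _ l, .H) => l
  | _ => 3

theorem bads_ex {T : Kl K r r0} (h : T.bads ≠ 3) : ∃ w c, T.1 = (.tN w c T.bads, .H) := by
  unfold bads at h ⊢
  split
  exacts [⟨_, _, ‹_›⟩, by simp_all]

theorem Lws.bads {T T' : Kl K r r0} (h : T.Lws T') : T'.bads = 3 := by
  by_contra c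
  obtain ⟨w, c, d⟩ := bads_ex c
  rcases h with h | h | ⟨_, _, _, _, _, -, h⟩
  · simpa [Kl.off, Kl.sl, d, Slot.off] using h.2
  · simpa [Kl.ty, d, HT.hd] using h.2.2.1
  · simp [d] at h

/-- the index of an entry class -/
def mzs (T : Kl K r r0) : Option (Fin (r0 + 1)) :=
  match T.1 with
  | (.hM _ _ k, .Z) => some k
  | _ => none

/-- the port for two classes -/
def prts (T T' : Kl K r r0) : Fin (r0 + 1) :=
  match T.mzs, T'.mzs with
  | some k, none => k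
  | none, some k => k
  | _, _ => Fin.last _

end Kl

namespace Par

/-- two alive items -/
def duos (D : ℕ) (κ κ' : Kd r r0) (dr cd sp s : Bool) (k : Fin 7) : Par r r0 D :=
  { base r r0 D with
    dr := dr
    cd := cd
    sp := sp
    kap _ := k
    ks i := {cond i κ' κ}
    sel i := cond s (some !i) none
    np c := if c + 1 = κ.ty.col then κ.prts κ' else Fin.last _ }

variable {κ κ' κ0 : Kd r r0} {dr cd sp s : Bool} {k : Fin 7}

theorem duos_mem {a : Option Bool} : (duos D κ κ' dr cd sp s k).mem a κ0 ↔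
    (a = some false ∧ κ0 = κ) ∨ (a = some true ∧ κ0 = κ') := by
  rcases a with _ | _ | _ <;> simp [mem, duos, base]

theorem duos_adm (hk : k = 2 ∨ k = 4 ∨ k = 6) (col : κ'.ty.col = κ.ty.col) (low : ¬κ.Lws κ')
    (l1 : lc k ≠ κ.bads) (l2 : lc k ≠ κ'.bads) (dis : s = false → κ ≠ κ')
    (lz : s = false → ∀ w p c p' c', (κ.1 = (.tS w p c, .H) ∧ κ'.1 = (.hS w p' c', .Z)) ∨
      (κ'.1 = (.tS w p c, .H) ∧ κ.1 = (.hS w p' c', .Z)) → 4 ≤ (p - p').val) :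
    (duos D κ κ' dr cd sp s k).Adm := by
  have k3 : ∀ c : ZMod 3, c + 1 ≠ c := by decide
  have sh : ∀ i, (duos D κ κ' dr cd sp s k).Shr (some i) (some !i) → s = false := fun i h => by
    cases s
    exacts [rfl, by simpa using h _ _ rfl rfl]
  have od : (duos D κ κ' dr cd sp s k).Ord (some true) (some false) κ.ty.col :=
    ⟨by simp [duos, base], by simp [zi], fun a κ0 h c => by
      rcases duos_mem.1 h with ⟨-, rfl⟩ | ⟨-, rfl⟩
      exacts [absurd c (k3 _), absurd (col ▸ c) (k3 _)]⟩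
  have np : ∀ a κ0 w c k0, (duos D κ κ' dr cd sp s k).mem a κ0 → κ0.1 = (.hM w (c + 1) k0, .Z) →
      (duos D κ κ' dr cd sp s k).np c = κ.prts κ' ∧ k0 ≤ κ.prts κ' := fun a κ0 w c k0 h h' => by
    rcases duos_mem.1 h with ⟨-, rfl⟩ | ⟨-, rfl⟩
    · refine ⟨if_pos (by rw [Kl.ty, h']; rfl), ?_⟩
      unfold Kl.prts
      rw [show κ0.mzs = some k0 by simp [Kl.mzs, h']]
      cases κ'.mzs
      exacts [le_rfl, Fin.le_last _]
    · refine ⟨if_pos (by rw [← col, Kl.ty, h']; rfl), ?_⟩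
      unfold Kl.prts
      rw [show κ0.mzs = some k0 by simp [Kl.mzs, h']]
      cases κ.mzs
      exacts [le_rfl, Fin.le_last _]
  constructor
  · exact fun _ => hk
  · simp [duos, base]
  · intro a a' κ1 ne h1 h2 c
    rcases duos_mem.1 h1 with ⟨rfl, rfl⟩ | ⟨rfl, rfl⟩ <;>
      rcases duos_mem.1 h2 with ⟨rfl, h⟩ | ⟨rfl, h⟩
    exacts [ne rfl, dis (sh false c) h, dis (sh true c) h.symm, ne rfl]
  · simp [duos, base]
  · intro a κ1 w c l h1 h2
    refine ⟨?_, by simp [duos, base]⟩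
    rcases duos_mem.1 h1.1 with ⟨-, rfl⟩ | ⟨-, rfl⟩
    exacts [by simpa [Kl.bads, h2, duos] using l1, by simpa [Kl.bads, h2, duos] using l2]
  · intro a a' κ1 κ2 h1 h2 _ c c'
    rcases duos_mem.1 h1.1 with ⟨rfl, rfl⟩ | ⟨rfl, rfl⟩ <;>
      rcases duos_mem.1 h2.1 with ⟨rfl, rfl⟩ | ⟨rfl, rfl⟩
    exacts [by omega, absurd (Or.inl ⟨c, c'⟩) low, ⟨col ▸ od, by simp [duos, base]⟩, by omega]
  · intro a a' κ1 κ2 h1 h2 c1 c2 c3 c4 _
    rcases duos_mem.1 h1.1 with ⟨rfl, rfl⟩ | ⟨rfl, rfl⟩ <;>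
      rcases duos_mem.1 h2.1 with ⟨rfl, rfl⟩ | ⟨rfl, rfl⟩
    exacts [by simp [c1] at c3, absurd (Or.inr (Or.inl ⟨c1, c2, c3, c4⟩)) low, ⟨col ▸ od, rfl⟩,
      by simp [c1] at c3]
  · intro a a' κ1 κ2 w c k0 h1 h2 _ c1 c2
    have := np _ _ _ _ _ h1.1 c1
    rcases duos_mem.1 h1.1 with ⟨rfl, rfl⟩ | ⟨rfl, rfl⟩ <;>
      rcases duos_mem.1 h2.1 with ⟨rfl, rfl⟩ | ⟨rfl, rfl⟩
    exacts [by simp [c1] at c2, absurd (Or.inr (Or.inr ⟨_, _, _, _, _, c1, c2⟩)) low,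
      ⟨by simpa only [Kl.ty, c2, HT.col] using od, by simp [duos, base], by simp, this.1 ▸ this.2⟩,
      by simp [c1] at c2]
  · intro a a' κ1 κ2 w c k0 i h1 h2 _ c1 c2
    have p : κ.prts κ' = k0 ∧ a ≠ none := by
      rcases duos_mem.1 h1.1 with ⟨rfl, rfl⟩ | ⟨rfl, rfl⟩ <;>
        rcases duos_mem.1 h2.1 with ⟨rfl, rfl⟩ | ⟨rfl, rfl⟩ <;> simp [Kl.prts, Kl.mzs, c1, c2] <;>
        simp [c1] at c2
    refine ⟨p.2, ?_⟩
    rw [(np _ _ _ _ _ h1.1 c1).1, p.1, el_self]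
    by_cases f : k0 = i
    · exact Or.inr ⟨f, by rw [f, el_self]⟩
    · have := mt Fin.ext f
      have := i.2
      unfold el
      split_ifs <;> omega
  · intro a a' κ1 κ2 w p c p' c' h1 h2 z c1 c2
    rcases duos_mem.1 h1.1 with ⟨rfl, rfl⟩ | ⟨rfl, rfl⟩ <;>
      rcases duos_mem.1 h2.1 with ⟨rfl, rfl⟩ | ⟨rfl, rfl⟩
    exacts [by simp [c1] at c2, lz (sh false z) _ _ _ _ _ (Or.inl ⟨c1, c2⟩),
      lz (sh true z) _ _ _ _ _ (Or.inr ⟨c1, c2⟩), by simp [c1] at c2]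
  · intro c c' h h'
    exact add_right_cancel ((by_contra fun f => h (if_neg f) : c + 1 = _).trans
      (by_contra fun f => h' (if_neg f) : c' + 1 = _).symm)
  · exact fun _ _ => rfl
  · intro a κ1 w c k0 h1 c1 _
    exact (np _ _ _ _ _ h1.1 c1).1 ▸ (np _ _ _ _ _ h1.1 c1).2
  all_goals simp [duos, base]

end Par

variable [DecidableEq K] [Finite K] [Finite N] [Nonempty K]

namespace Fw.Sc

open Fw.Rc

variable (V : Fw K N r r0 q D e b)

/-- a state with the two alive items `x`, `y` -/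
structure Du (j : K) (x y : N) (dr cd sp : Bool) (k : Fin 7) : Prop where
  rx : V.Role j (some false) (V.F.tree x)
  ry : V.Role j (some true) (V.F.tree y)
  cut : ∀ i, (V.par j).cut i = 0
  rook : (V.par j).rook = false
  dr : (V.par j).dr = dr
  cd : (V.par j).cd = cd
  sp : (V.par j).sp = sp
  kap : ∀ c, (V.par j).kap c = k
  rest : ∀ T, T.stg ≠ j → T.ty.col ≠ (V.F.tree x).ty.col → V.Rest j T

/-- the side condition for the order of two lines -/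
def Sd (k : ℕ) (L L' : Hub K N (Pt K N) r0) : Prop :=
  ∀ n n', V.W.In L n → V.W.In L' n' → n ≠ n' → (V.F.Anc n' n → k ≤ V.F.lev n' + 1) ∧
    (V.F.Anc n n' → V.F.lev n + 1 < k ∨ k < V.F.lev n')

variable {V} {j : K} {x y n t : N} {dr cd sp d d' f f' : Bool} {k : Fin 7}
  {L L' : Hub K N (Pt K N) r0} {i i' : ℕ} {σ σ' : Slot (r + 1)} {v w : Vx K N (Pt K N) r r0}

theorem exists_du (ne : V.F.tree x ≠ V.F.tree y)
    (col : (V.F.tree y).ty.col = (V.F.tree x).ty.col) (hk : k = 2 ∨ k = 4 ∨ k = 6)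
    (low : ¬(V.F.tree x).kind.Lws (V.F.tree y).kind) (l1 : lc k ≠ (V.F.tree x).kind.bads)
    (l2 : lc k ≠ (V.F.tree y).kind.bads) (lz : ¬(V.F.tree x).Own (V.F.tree y)) (dr cd sp : Bool)
    (ls : List (Hub K N (Pt K N) r0)) (c : ls.length < 16) :
    ∃ j, (∀ L ∈ ls, V.W.Far j L) ∧ ((V.F.tree x).stg ≠ j → (V.F.tree y).stg ≠ j →
      Du V j x y dr cd sp k) := by
  obtain ⟨g, a⟩ := V.W.exists_grp V.grp ls (by simp; omega)
  obtain ⟨j, a1, p, a2, a3, -⟩ := V.rich g _ (Par.duos_adm (D := D) (dr := dr) (cd := cd) (sp := sp)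
    (s := decide ((V.F.tree y).stg ≠ (V.F.tree x).stg)) hk (by simpa using col) low l1 l2
    (fun s c => ne (Kl.ext_kind c (Eq.symm (by simpa using s)))) fun s w p c p' c' h => by
      have s : (V.F.tree y).stg = (V.F.tree x).stg := by simpa using s
      exact not_lt.1 fun g => lz (h.imp
        (fun h => ⟨_, p, c, p', c', Kl.val_of_kind h.1, s ▸ Kl.val_of_kind h.2, g⟩)
        fun h => ⟨_, p, c, p', c', Kl.val_of_kind h.1, s ▸ Kl.val_of_kind h.2, g⟩))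
    (V.F.tree x).stg (V.F.tree y).stg (V.F.tree y).stg
  refine ⟨j, fun L c => a L c j a1, fun s s' => ⟨⟨s, p ▸ Par.duos_mem.2 (Or.inl ⟨rfl, rfl⟩), ?_⟩,
    ⟨s', p ▸ Par.duos_mem.2 (Or.inr ⟨rfl, rfl⟩), ?_⟩, fun _ => by rw [p]; rfl, by rw [p]; rfl,
    by rw [p]; rfl, by rw [p]; rfl, by rw [p]; rfl, fun _ => by rw [p]; rfl,
    fun T s c => ⟨s, fun _ h => ?_⟩⟩⟩
  · by_cases g : (V.F.tree y).stg = (V.F.tree x).stg <;> simp [p, Par.sl, Par.duos, a2, g]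
  · by_cases g : (V.F.tree y).stg = (V.F.tree x).stg <;> simp [p, Par.sl, Par.duos, g]
    exact a3 g
  · rcases Par.duos_mem.1 (p ▸ h.1) with ⟨-, h⟩ | ⟨-, h⟩
    exacts [kind_ne c h, kind_ne (col ▸ c) h]

theorem Du.lt (s : Du V j x y dr cd sp k) : (V.L j).key x < (V.L j).key y :=
  s.rx.lt s.ry s.rook (by simp [Par.zi])

theorem Du.rs (s : Du V j x y dr cd sp k) (h : V.F.lev x = D) (h' : V.F.lev y = D) :
    V.Rs j ![0, 0] ![x, y] ∧ V.Rs j ![0, 0] ![y, x] :=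
  have ne : V.W.F.tree x ≠ V.W.F.tree y := fun c => absurd (s.rx.eq (c ▸ s.ry)) (by decide)
  have a := run_lab (s.rx.liv' (s.cut _)) h
  have a' := run_lab (s.ry.liv' (s.cut _)) h'
  ⟨.two a a' (Wd.On.tree_ne ne) s.rx s.ry, .two a' a (Wd.On.tree_ne ne.symm) s.ry s.rx⟩

theorem inF_of (hf : V.W.Far j L) (h : ∀ n, V.W.In L n → V.Rest j (V.F.tree n)) : V.InF j L :=
  fun n c _ a => a.not_rest (h n (hf.bk.1 c))

theorem Du.rest_in (s : Du V j x y dr cd sp k) (hf : V.W.Far j L)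
    (c : (V.F.tree (V.W.S.sn L f σ)).ty.col = (V.F.tree x).ty.col) (n : N) (h : V.W.In L n) :
    V.Rest j (V.F.tree n) :=
  s.rest _ (hf.wor h) (c ▸ (V.W.col_ne V.D_pos h f σ).symm)

theorem acc_ne (a : V.W.S.Acc d v L i f σ) (a' : V.W.S.Acc d' w L' i' f' σ')
    (nl : V.W.lo L ≠ V.W.lo L') : v ≠ w := by
  rintro rfl
  refine nl (congrArg _ ?_)
  rcases a.cases with ⟨-, _, rfl, h, -⟩ | ⟨-, _, c, h, -⟩ | ⟨_, h, -⟩ <;>
    rcases a'.cases with ⟨-, _, rfl, h', -⟩ | ⟨-, _, c', h', -⟩ | ⟨_, h', -⟩ <;>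
    simp only [h, inl.injEq, inr.injEq, Option.some.injEq, Prod.mk.injEq, reduceCtorEq] at h'
  exacts [congrArg _ h', V.W.S.O.dA.injective (c.trans (h' ▸ c'.symm)), h'.1]

/-- two direct accesses, two routes -/
theorem fin2 (a : V.W.S.Acc d v L i f σ) (a' : V.W.S.Acc d' w L' i' f' σ') (ne : v ≠ w)
    (k : V.Rs j ![0, 0] ![V.W.S.sn L f σ, V.W.S.sn L' f' σ']) (h : V.InF j L) (h' : V.InF j L')
    (o : V.fr j L < V.fr j L') (c : (d = d' ∧ (V.L j).key (V.W.S.sn L f σ) <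
      (V.L j).key (V.W.S.sn L' f' σ')) ∨ (d = true ∧ d' = false)) : V.W.Sv v w := by
  intro _ _
  rcases c with ⟨rfl, c⟩ | ⟨rfl, rfl⟩
  · cases d <;> exact k.serve ((k.toRs.ch_cut 0).app (k.toRs.ch_acc a))
      ((k.toRs.ch_cut 1).app (k.toRs.ch_acc a')) ne (fun g => by fin_cases g <;> simp)
      [.lt 1 3, .lt 3 0, .lt 0 2] [] (by decide +kernel)
      ⟨k.FF h h' (fq_lt o), k.F_cut h' 0, k.cut_cut (g := 0) (g' := 1) c⟩ trivial
  · exact k.serve ((k.toRs.ch_cut 0).app (k.toRs.ch_acc a))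
      ((k.toRs.ch_cut 1).app (k.toRs.ch_acc a')) ne (fun g => by fin_cases g <;> simp)
      [.lt 1 3, .lt 3 0, .lt 3 2] [(0, 2)] (by decide +kernel)
      ⟨k.FF h h' (fq_lt o), k.F_cut h' 0, k.F_cut h' 1⟩ (k.cut_ne (g := 0) (g' := 1) (by decide))

/-- two labels of one tree: the second one leaks -/
theorem leak2 (a : V.W.S.Acc d v L i f σ) (a' : V.W.S.Acc d w L' i' f' σ') (ne : v ≠ w)
    (p : V.par j = .solo D (V.F.tree (V.W.S.sn L' f' σ')).kind true (some false) 2)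
    (t : V.F.tree (V.W.S.sn L f σ) = V.F.tree (V.W.S.sn L' f' σ')) (h : V.W.Far j L)
    (h' : V.W.Far j L') (o : V.fr j L < V.fr j L') : V.W.Sv v w := by
  have s := h'.sn V.D_pos f' σ'
  obtain ⟨x, -, -, a1, a2⟩ := solo_leak p s
  have rb := solo_role p s
  have ra : V.Role j (some false) (V.F.tree (V.W.S.sn L f σ)) := t ▸ rb
  have la := V.W.S.lev_sn V.D_pos L f σ
  have lb := V.W.S.lev_sn V.D_pos L' f' σ'
  have k := Rs.two (run_lab (ra.liv' (by rw [p]; rfl)) la) (run_lab x.liv (V.lev_ell _ 1))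
    (Wd.On.tree_ne fun c => absurd (ra.eq (c ▸ x)) (by decide)) ra x
  have o1 := k.toRs.leak_front (n := V.W.S.sn L' f' σ') V.two_r0 (fun g c => by
    fin_cases g
    · exact c.1.eq (la.trans lb.symm).le
    · exact absurd (rb.eq ((c.1.tree : V.F.tree _ = _) ▸ x)) (by simp)) a1 a2
  have z : ∀ c : ZMod 3, c ≠ c + 1 ∧ c ≠ c + 1 + 1 := by decide
  have i1 := inF_of h fun n c => solo_rest p (h.wor c) (kind_ne (t ▸ col_lab c f σ ▸ (z _).1))
    (Or.inr (t ▸ col_lab c f σ ▸ (z _).2))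
  have i2 := inF_of h' fun n c => solo_rest p (h'.wor c) (kind_ne (col_lab c f' σ' ▸ (z _).1))
    (Or.inr (col_lab c f' σ' ▸ (z _).2))
  have ro : (V.par j).rook = false := by rw [p]; rfl
  have zi : (V.par j).zi (some false) < (V.par j).zi none := by
    rw [p]
    exact Nat.lt_of_sub_eq_succ rfl
  intro _ _
  cases d <;> exact k.serve ((k.toRs.ch_cut 0).app (k.toRs.ch_acc a))
    (((k.toRs.ch_cut 1).app (k.toRs.ch_leak _)).app (k.toRs.ch_acc a')) ne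
    (fun g => by fin_cases g <;> simp)
    [.lt 1 6, .lt 6 0, .lt 6 4, .lt 4 3, .lt 3 5, .lt 5 2, .lt 0 2] [(0, 3), (0, 4), (0, 5)]
    (by decide +kernel)
    ⟨k.FF i1 i2 (fq_lt o), k.F_cut i2 0, k.FI i2 (rb.inI (Wd.bk_pay.2 rfl)),
      k.of_vqI (rb.inI (Wd.bk_prv' j _)) o1.1, k.of_vqI (rb.inI (Wd.bk_prv' j _)) o1.2,
      k.II (rb.inI (Wd.bk_prv' j _)) (k.inI_cut (g := 1) x) ro zi,
      k.cut_cut (g := 0) (g' := 1) (ra.lt x ro zi)⟩
    ⟨pz_ne' (by omega) (by omega) le_rfl, pz_ne (by simp [Wd.cut, Wd.mo]),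
      pz_ne' (by omega) (by omega) le_rfl⟩

theorem sd_total (k : ℕ) : Sd V k L L' ∨ Sd V k L' L := by
  by_contra c
  simp only [Sd, not_or, not_forall] at c
  obtain ⟨⟨n, n', a1, a2, a3, a4⟩, m', m, b2, b1, -, b4⟩ := c
  obtain rfl := a1.unique b1
  obtain rfl := a2.unique b2
  have : V.F.Anc n' n → ¬V.F.Anc n n' := fun h h' => a3 (h'.eq h.1)
  grind

theorem sd_ex (l : Fin 4) : (∃ k : Fin 7, (k = 2 ∨ k = 4 ∨ k = 6) ∧ lc k ≠ l ∧ Sd V k L L') ∨
    (l = 1 ∧ ∃ n n', V.W.In L n ∧ V.W.In L' n' ∧ V.F.Anc n' n ∧ n ≠ n' ∧ V.F.lev n' ≤ 2) := by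
  obtain ⟨k0, k1, k2⟩ := (by decide : ∀ l : Fin 4, ∃ k : Fin 7, (k = 2 ∨ k = 4 ∨ k = 6) ∧
    lc k ≠ l) l
  by_cases h : Sd V k0 L L'
  · exact Or.inl ⟨k0, k1, k2, h⟩
  simp only [Sd, not_forall] at h
  obtain ⟨n, n', a1, a2, a3, -⟩ := h
  have z : ∀ k, ((V.F.Anc n' n → k ≤ V.F.lev n' + 1) ∧
      (V.F.Anc n n' → V.F.lev n + 1 < k ∨ k < V.F.lev n')) → Sd V k L L' :=
    fun k h m m' b1 b2 _ => a1.unique b1 ▸ a2.unique b2 ▸ h
  have a4 : V.F.Anc n' n → ¬V.F.Anc n n' := fun h h' => a3 (h'.eq h.1)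
  have a5 : V.F.Anc n n' → V.F.lev n < V.F.lev n' := fun h => not_le.1 fun c => a3 (h.eq c)
  have := (V.F.surj n).1
  have := (V.F.surj n').1
  refine or_iff_not_imp_left.2 fun c => ?_
  have b2 : l ≠ 1 → ¬_ := fun g h => c ⟨2, by simp, g.symm, z 2 h⟩
  have b4 : l ≠ 2 → ¬_ := fun g h => c ⟨4, by simp, g.symm, z 4 h⟩
  have b6 : l ≠ 0 → ¬_ := fun g h => c ⟨6, by simp, g.symm, z 6 h⟩
  have : l = 1 ∧ V.F.Anc n' n ∧ V.F.lev n' ≤ 2 := by
    clear c z k1 k2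
    grind
  exact ⟨this.1, n, n', a1, a2, this.2.1, a3, this.2.2⟩

theorem val_sn (h : V.W.S.At L i f σ) : (V.F.tree (V.W.S.sn L f σ)).1 = (V.W.S.typ L f, σ) :=
  congrArg Subtype.val (h.tree V.D_pos)

theorem pos_sn (h : V.W.S.At L i f σ) :
    (V.F.tree (V.W.S.sn L f σ)).kind.ty.st r + (V.F.tree (V.W.S.sn L f σ)).kind.off = i := by
  simpa only [Kl.off, Kl.ty_kind, Kl.sl_kind, HT.st_mapc, HT.len_map, Kl.ty, Kl.sl, val_sn h]
    using h.off

theorem node_of {u : Unit × Bool} {c : ZMod 3} {l : Fin 4} (h : V.W.S.At L i f σ)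
    (a : (V.F.tree (V.W.S.sn L f σ)).kind.ty = .tN u c l) : ∃ x, L = nl x ∧ lc (V.F.lev x) = l := by
  rw [Kl.ty_kind, Kl.ty, val_sn h] at a
  cases f
  · rcases L with (x | z) | z
    exacts [⟨x, rfl, (HT.tN.inj a).2.2⟩, (nomatch a), nomatch a]
  · revert a
    simp only [Pre.typ]
    rcases V.W.S.O.dA L with (x | z) | z <;> exact fun a => nomatch a

theorem bads_pos (h : V.W.S.At L i f σ) (c : (V.F.tree (V.W.S.sn L f σ)).kind.bads ≠ 3) : i = 1 := by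
  obtain ⟨w, c, d⟩ := Kl.bads_ex c
  simpa [Kl.off, Kl.sl, Kl.ty, d, Slot.off, HT.st, eq_comm] using pos_sn h

theorem lz_pos (h : V.W.S.At L i f σ) (h' : V.W.S.At L' i' f' σ')
    (c : (V.F.tree (V.W.S.sn L f σ)).Lz (V.F.tree (V.W.S.sn L' f' σ'))) : i = 0 ∧ i' = 2 * r + 8 := by
  obtain ⟨u, p, c, p', c', a, a', -⟩ := c
  obtain ⟨a, rfl⟩ := Prod.ext_iff.1 ((val_sn h).symm.trans a)
  obtain ⟨a', rfl⟩ := Prod.ext_iff.1 ((val_sn h').symm.trans a')
  have b := h.off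
  have b' := h'.off
  simp only at a a'
  simp only [a, a', HT.st, HT.len, Slot.off, Fin.val_castSucc, Fin.val_last] at b b'
  omega

theorem acc_tau (a : V.W.S.Acc true v (nl x) 1 f σ) : v = vz (nl x) 0 := by
  rcases a.cases with ⟨-, _, c, -⟩ | ⟨c, -⟩ | ⟨k, rfl, c⟩
  · exact nomatch c
  · exact nomatch c
  · rw [← vz_val, show (k : ℕ) = 0 by simpa using c]

theorem lc_ne3 (hk : k = 2 ∨ k = 4 ∨ k = 6) : lc k ≠ 3 := by revert k; decide

theorem lc_one {l : ℕ} (h : lc l = 1) : l % 6 = 2 := by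
  unfold lc at h
  split_ifs at h <;> simp_all

/-- the tail of a node is freed through the first gap of a child -/
theorem alt (h2 : 2 ≤ V.F.lev t) (od : V.F.lev t % 2 = 1) (a : V.W.S.Acc d w L i f σ)
    (hy : V.W.In L y) (l2 : (V.F.tree (V.W.S.sn L f σ)).kind.bads = 3)
    (c : ∀ u c, (V.F.tree (V.W.S.sn L f σ)).kind.ty = .tN u c 3 →
      2 ≤ (V.F.tree (V.W.S.sn L f σ)).kind.off)
    (o : (d = false ∧ V.F.Anc y (V.F.par t) ∧ y ≠ V.F.par t) ∨ (d = true ∧ V.F.Anc t y ∧ t ≠ y)) :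
    V.W.Sv (vz (nl (V.F.par t)) 0) w := by
  have z := V.W.S.pay_H (inl t)
  have it := V.W.in_pay (inl t)
  have zk : ∃ u c, (V.F.tree (V.W.S.sn (nl t) false .H)).kind.1 = (.tN u c 3, .H) :=
    ⟨_, _, (Kl.kind_of_val (val_sn z)).trans (by
      simp only [Pre.typ, Pre.tt, HT.map, show lc (V.W.S.F.lev t) = 3 from if_pos od]
      rfl)⟩
  obtain ⟨u, c0, zk⟩ := zk
  have z0 : (V.F.tree (V.W.S.sn (nl t) false .H)).kind.off = 0 := by rw [Kl.off, Kl.sl, zk]; rfl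
  have pt := Forest.anc_par h2
  have ty : V.F.tree y = V.F.tree t := o.elim (fun o => o.2.1.tree.trans pt.tree)
    fun o => o.2.1.tree.symm
  obtain ⟨j, hf, s⟩ := exists_du (x := V.W.S.sn (nl t) false .H) (y := V.W.S.sn L f σ) (k := 2)
    (fun g => by have := c u c0 (by rw [← g, Kl.ty, zk]); rw [← g] at this; omega)
    (by rw [col_lab hy, col_lab it, ty]; rfl) (by simp)
    (by
      rintro (g | g | ⟨_, _, _, _, _, g, -⟩)
      · have := c u c0 (by rw [← g.1, Kl.ty, zk])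
        omega
      · simpa [Kl.sl, zk] using g.2.1
      · simp [zk] at g)
    (by simp only [Kl.bads, zk]; decide) (by rw [l2]; decide)
    (by
      rintro (g | g)
      exacts [by simpa using (lz_pos z a.at g).1, by have := (lz_pos a.at z g).2; omega])
    false true true [nl t, nl (V.F.par t), L] (by simp)
  have f1 := hf (nl t) (by simp)
  have f2 := hf (nl (V.F.par t)) (by simp)
  have f3 := hf L (by simp)
  have s := s (f1.sn V.D_pos _ _) (f3.sn V.D_pos _ _)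
  have k := (s.rs (V.W.S.lev_sn V.D_pos _ _ _) (V.W.S.lev_sn V.D_pos _ _ _)).1
  have rt := s.rest_in f1 rfl t it
  have rv : ∀ {L1 L2 m m'}, V.W.Bk j L1 m → V.W.Bk j L2 m' → V.F.tree m' = V.F.tree t →
      V.F.Anc m' m → m' ≠ m → ∀ i i', V.vr j ![0, 0] ![V.W.S.sn (nl t) false .H, V.W.S.sn L f σ]
        (pz L1 i) < V.vr j ![0, 0] ![V.W.S.sn (nl t) false .H, V.W.S.sn L f σ] (pz L2 i') :=
    fun {L1 L2 m m'} b1 b2 b3 b4 b5 _ _ => by
      have r2 : V.Rest j (V.F.tree m') := b3 ▸ rt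
      have r1 : V.Rest j (V.F.tree m) := b4.tree ▸ r2
      refine k.FF (r1.inF b1) (r2.inF b2) (fq_lt (fr_of (hi_congr b1 b2 b4.tree.symm).2
        (Sw.lt_of_key b1 b2 ((Lay.lt_iff_not b5.symm).2 (mt (Lay.anc_lt (Cut.fm (Or.inl r2))
          (Cut.fm (Or.inl r1)) b4 b5).1 (not_or.2 ⟨not_not.2 ⟨Cut.two (Or.inl r2), ?_⟩,
            fun g => Bool.false_ne_true ((r2.asc.trans s.dr).symm.trans g.1)⟩))))))
      exact (r2.kap.trans (by rw [s.kap]; rfl)).trans_le (Nat.succ_le_succ (V.F.surj m').1)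
  have pn : V.F.par t ≠ t := fun g => by have := V.F.lev_par h2; rw [g] at this; omega
  have o1 := rv (.self _ j _) (.self _ j _) pt.tree pt pn 1 0
  have r2 : V.Rest j (V.F.tree (V.F.par t)) := pt.tree ▸ rt
  have c1 := ((k.toRs.ch_cut 0).app (Wd.ch_up (i := 0) z.hang (by omega))).app
    (Wd.ch_ftail (k.toRs.off_nl fun g c => (k.role g).elim fun _ h =>
      h.not_rest ((c.1.tree : V.F.tree _ = _) ▸ r2)) (Wd.hang_par (W := V.W) h2) (by omega))
  have ne : vz (nl (V.F.par t)) 0 ≠ w := acc_ne (V.W.S.pay_H (inl (V.F.par t))).up a fun g => by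
    obtain rfl := hy.unique ⟨_, g.symm⟩
    exact o.elim (fun o => o.2.2 rfl) fun o => pn (pt.eq o.2.1.1)
  intro _ _
  rcases o with ⟨rfl, o⟩ | ⟨rfl, o⟩
  · exact k.serve c1 ((k.toRs.ch_cut 1).app (k.toRs.ch_acc a)) ne (fun g => by fin_cases g <;> simp)
      [.lt 1 2, .lt 2 4, .lt 4 0, .lt 0 3] [] (by decide +kernel)
      ⟨o1, rv (.self _ j _) (f3.bk.2 hy) ty o.1 o.2 _ _, k.F_cut (Rest.inF (ty ▸ rt) (f3.bk.2 hy)) 0,
        k.cut_cut (g := 0) (g' := 1) s.lt⟩ trivial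
  · exact k.serve c1 ((k.toRs.ch_cut 1).app (k.toRs.ch_acc a)) ne (fun g => by fin_cases g <;> simp)
      [.lt 4 1, .lt 1 2, .lt 2 0, .lt 0 3] [] (by decide +kernel)
      ⟨rv (f3.bk.2 hy) (.self _ j _) rfl o.1 o.2 _ _, o1, k.F_cut (r2.inF (.self _ j _)) 0,
        k.cut_cut (g := 0) (g' := 1) s.lt⟩ trivial

section
variable (a : V.W.S.Acc d v L i f σ) (a' : V.W.S.Acc d' w L' i' f' σ')
  (col : (V.W.S.typ L f).col = (V.W.S.typ L' f').col) (nl : V.W.lo L ≠ V.W.lo L')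
  (nb : ∀ n, V.W.In L n → ¬V.W.In L' n)
include a a' col nl nb

/-- two labels of different trees, the line `L` comes first -/
theorem two (ne : V.F.tree (V.W.S.sn L f σ) ≠ V.F.tree (V.W.S.sn L' f' σ'))
    (lz : ¬(V.F.tree (V.W.S.sn L f σ)).Own (V.F.tree (V.W.S.sn L' f' σ')))
    (hk : k = 2 ∨ k = 4 ∨ k = 6) (sd : Sd V k L L')
    (l1 : lc k ≠ (V.F.tree (V.W.S.sn L f σ)).kind.bads)
    (l2 : lc k ≠ (V.F.tree (V.W.S.sn L' f' σ')).kind.bads)
    (c : (d = d' ∧ ¬(V.F.tree (V.W.S.sn L f σ)).kind.Lws (V.F.tree (V.W.S.sn L' f' σ')).kind) ∨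
      (d = true ∧ d' = false)) : V.W.Sv v w := by
  intro _ _
  obtain ⟨dr, cd, sp, h⟩ := V.ord k nl (fun n g g' => nb n ⟨_, g⟩ ⟨_, g'⟩) sd
  have cl : (V.F.tree (V.W.S.sn L' f' σ')).ty.col = (V.F.tree (V.W.S.sn L f σ)).ty.col := by
    rw [Kl.ty, Kl.ty, val_sn a.at, val_sn a'.at, col]
  have la := V.W.S.lev_sn V.D_pos L f σ
  have lb := V.W.S.lev_sn V.D_pos L' f' σ'
  have z : ∀ {j x y}, V.W.Far j L → V.W.Far j L' → Du V j x y dr cd sp k →
      (V.F.tree (V.W.S.sn L f σ)).ty.col = (V.F.tree x).ty.col →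
      V.InF j L ∧ V.InF j L' ∧ V.fr j L < V.fr j L' := fun f1 f2 s c =>
    ⟨inF_of f1 (s.rest_in f1 c), inF_of f2 (s.rest_in f2 (cl.trans c)), fr_lt.2 (h _ f1 f2 s.dr
      s.cd s.sp (fun n g => g.elim (s.rest_in f1 c n) (s.rest_in f2 (cl.trans c) n))
        fun _ _ _ _ _ _ => by rw [s.kap])⟩
  by_cases low : (V.F.tree (V.W.S.sn L f σ)).kind.Lws (V.F.tree (V.W.S.sn L' f' σ')).kind
  · obtain ⟨j, hf, s⟩ := exists_du ne.symm cl.symm hk low.asy l2 l1 (mt Or.symm lz) dr cd sp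
      [L, L'] (by simp)
    have f1 := hf L (by simp)
    have f2 := hf L' (by simp)
    have s := s (f2.sn V.D_pos _ _) (f1.sn V.D_pos _ _)
    obtain ⟨z1, z2, z3⟩ := z f1 f2 s cl.symm
    exact fin2 a a' (acc_ne a a' nl) (s.rs lb la).2 z1 z2 z3 (c.imp_left fun c => absurd low c.2)
  · obtain ⟨j, hf, s⟩ := exists_du ne cl hk low l1 l2 lz dr cd sp [L, L'] (by simp)
    have f1 := hf L (by simp)
    have f2 := hf L' (by simp)
    have s := s (f1.sn V.D_pos _ _) (f2.sn V.D_pos _ _)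
    obtain ⟨z1, z2, z3⟩ := z f1 f2 s rfl
    exact fin2 a a' (acc_ne a a' nl) (s.rs la lb).1 z1 z2 z3 (c.imp_left fun c => ⟨c.1, s.lt⟩)

/-- the same direction; the label of `L` must come first -/
theorem low (dd : d = d') (hd : d' = false → i' ≠ 1)
    (lz : ¬(V.F.tree (V.W.S.sn L f σ)).Own (V.F.tree (V.W.S.sn L' f' σ')))
    (h : (V.F.tree (V.W.S.sn L' f' σ')).kind.Lws (V.F.tree (V.W.S.sn L f σ)).kind) :
    V.W.Sv v w := by
  intro _ _
  rcases sd_ex (V := V) (L := L) (L' := L') (V.F.tree (V.W.S.sn L' f' σ')).kind.bads with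
    ⟨k, hk, l2, sd⟩ | ⟨l, n, n', a1, a2, a3, a4, a5⟩
  · exact two a a' col nl nb (fun g => h.asy (g ▸ h)) lz hk sd (h.bads ▸ lc_ne3 hk) l2
      (Or.inl ⟨dd, h.asy⟩)
  obtain rfl := bads_pos a'.at (by simp [l])
  obtain rfl : d' = true := by simpa using hd
  obtain ⟨u, c, z⟩ := Kl.bads_ex (T := (V.F.tree (V.W.S.sn L' f' σ')).kind) (by simp [l])
  rw [l] at z
  have g : (V.F.tree (V.W.S.sn L f σ)).kind.ty = .tN u c 1 := by
    rcases h with h | h | ⟨_, _, _, _, _, h, -⟩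
    exacts [h.1.symm.trans (Kl.ty_val z), by simpa [Kl.sl, z] using h.2.1, by simp [z] at h]
  obtain ⟨x, rfl, lx⟩ := node_of a.at g
  obtain ⟨y, rfl, ly⟩ := node_of a'.at (Kl.ty_val z)
  obtain rfl : x = n := (V.W.in_pay (inl x)).unique a1
  obtain rfl : y = n' := (V.W.in_pay (inl y)).unique a2
  have lx := lc_one lx
  have ly := lc_one ly
  have := mt a3.eq a4.symm
  have := (V.F.surj x).2.1
  have l3 := V.F.lev_at x (l := 3) (by omega) (by omega)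
  have p : V.F.par (V.F.at' x 3) = y := by
    rw [V.F.par_at x (l := 2) (by omega) (by omega), ← a3.2, show V.F.lev y = 2 by omega]
  rw [acc_tau a', ← p]
  exact Wd.Sv.symm (alt (t := V.F.at' x 3) (by omega) (by omega) a a1 h.bads
    (fun _ _ g' => by rw [g] at g'; simp at g')
    (Or.inr ⟨dd, Forest.anc_at x (by omega) (by omega), fun g => by rw [g] at l3; omega⟩))

omit a' in
/-- the same direction -/
theorem same (a' : V.W.S.Acc d w L' i' f' σ')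
    (hd : cond d (i ≤ 2 * r + 7 ∧ i' ≤ 2 * r + 7) (3 ≤ i ∧ 3 ≤ i')) : V.W.Sv v w := by
  intro _ _
  have nb' : ∀ n, V.W.In L' n → ¬V.W.In L n := fun n g g' => nb n g' g
  have lz : ¬(V.F.tree (V.W.S.sn L f σ)).Own (V.F.tree (V.W.S.sn L' f' σ')) := by
    rintro (g | g)
    · have := lz_pos a.at a'.at g
      cases d <;> simp only [cond] at hd <;> omega
    · have := lz_pos a'.at a.at g
      cases d <;> simp only [cond] at hd <;> omega
  by_cases t : V.F.tree (V.W.S.sn L f σ) = V.F.tree (V.W.S.sn L' f' σ')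
  · obtain ⟨j, p, hf⟩ := far V (Par.solo_adm (D := D) (κ := (V.F.tree (V.W.S.sn L' f' σ')).kind)
      (d := true) (o := some false) V.two_r0 (by simp) (Or.inl rfl)) [L, L'] (by simp)
    have f1 := hf L (by simp)
    have f2 := hf L' (by simp)
    rcases lt_or_gt_of_ne (mt fr_inj fun g => nl (congrArg _ g) : V.fr j L ≠ V.fr j L') with o | o
    exacts [leak2 a a' (acc_ne a a' nl) p t f1 f2 o,
      Wd.Sv.symm (leak2 a' a (acc_ne a a' nl).symm (t ▸ p) t.symm f2 f1 o)]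
  by_cases h : (V.F.tree (V.W.S.sn L' f' σ')).kind.Lws (V.F.tree (V.W.S.sn L f σ)).kind
  · exact low a a' col nl nb rfl (by rintro rfl; have := hd.2; omega) lz h
  by_cases h' : (V.F.tree (V.W.S.sn L f σ)).kind.Lws (V.F.tree (V.W.S.sn L' f' σ')).kind
  · exact Wd.Sv.symm (low a' a col.symm nl.symm nb' rfl (by rintro rfl; have := hd.1; omega)
      (mt Or.symm lz) h')
  obtain ⟨k, hk, l1, l2⟩ := (by decide : ∀ l l' : Fin 4, ∃ k : Fin 7, (k = 2 ∨ k = 4 ∨ k = 6) ∧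
    lc k ≠ l ∧ lc k ≠ l') (V.F.tree (V.W.S.sn L f σ)).kind.bads
      (V.F.tree (V.W.S.sn L' f' σ')).kind.bads
  rcases sd_total (V := V) (L := L) (L' := L') k with sd | sd
  exacts [two a a' col nl nb t lz hk sd l1 l2 (Or.inl ⟨rfl, h'⟩), Wd.Sv.symm (two a' a col.symm
    nl.symm nb' (Ne.symm t) (mt Or.symm lz) hk sd l2 l1 (Or.inl ⟨rfl, h⟩))]

omit a a' in
/-- an access up and an access down -/
theorem updn (a : V.W.S.Acc true v L i f σ) (a' : V.W.S.Acc false w L' i' f' σ')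
    (h : i ≤ r + 5) (h' : r + 4 ≤ i') (own : ¬V.Cld w v) : V.W.Sv v w := by
  intro _ _
  have := V.hr
  have := V.he
  by_cases t : V.F.tree (V.W.S.sn L f σ) = V.F.tree (V.W.S.sn L' f' σ')
  · obtain rfl : i = i' := by_contra fun g => a.at.tree_ne V.D_pos a'.at g t
    rcases a'.cases with ⟨g, -⟩ | ⟨-, _, -, -, g, -⟩ | ⟨m, rfl, g⟩
    · exact nomatch g
    · omega
    have g : i + 1 = m := g
    obtain ⟨u, τ, a2⟩ := V.W.S.acc_up L' m (Or.inl (by omega))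
    exact same a (by rw [col, V.W.col_typ, V.W.col_typ]) nl nb a2 ⟨by omega, by omega⟩
  have l2 : (V.F.tree (V.W.S.sn L' f' σ')).kind.bads = 3 :=
    by_contra fun g => by have := bads_pos a'.at g; omega
  rcases sd_ex (V := V) (L := L) (L' := L') (V.F.tree (V.W.S.sn L f σ)).kind.bads with
    ⟨k, hk, l1, sd⟩ | ⟨l, n, n', a1, a2, a3, a4, a5⟩
  · refine two a a' col nl nb t ?_ hk sd l1 (l2 ▸ lc_ne3 hk) (Or.inr ⟨rfl, rfl⟩)
    rintro (g | g)
    · obtain ⟨rfl, rfl⟩ := lz_pos a.at a'.at g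
      obtain ⟨u, p, c, p', c', g1, g2, g3⟩ := g
      obtain ⟨⟨z, rfl⟩, rfl, -⟩ := a.at.zero
      obtain rfl : f' = true := by simpa using mt a'.at.half.1 (by omega)
      refine own ⟨u, p', p, Or.inr ⟨L', c', ?_, congrArg Prod.fst ((val_sn a'.at).symm.trans g2)⟩,
        Or.inr ⟨z, c, ?_, congrArg Prod.fst ((val_sn a.at).symm.trans g1)⟩, g3⟩
      · rcases a'.cases with ⟨g, -⟩ | ⟨-, _, -, -, g, -⟩ | ⟨m, rfl, g⟩
        exacts [(nomatch g), by omega, by rw [← vz_val, show (m : ℕ) = 2 * r + 9 from Eq.symm g]]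
      · rcases a.cases with ⟨-, _, -, g, -⟩ | ⟨g, -⟩ | ⟨m, rfl, g⟩
        exacts [g, (nomatch g), nomatch g]
    · have := (lz_pos a'.at a.at g).1
      omega
  obtain rfl := bads_pos a.at (by simp [l])
  obtain ⟨u, c, z⟩ := Kl.bads_ex (T := (V.F.tree (V.W.S.sn L f σ)).kind) (by simp [l])
  rw [l] at z
  obtain ⟨x, rfl, lx⟩ := node_of a.at (Kl.ty_val z)
  obtain rfl : x = n := (V.W.in_pay (inl x)).unique a1
  have lx := lc_one lx
  have := V.od
  have := (V.F.surj x).2.1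
  have l1 : V.F.lev x < D := by omega
  have := V.F.lev_kid l1
  rw [acc_tau a, ← V.F.par_kid l1]
  refine alt (by omega) (by omega) a' a2 l2 (fun _ _ g => ?_)
    (Or.inl ⟨rfl, by rw [V.F.par_kid l1]; exact ⟨a3, a4.symm⟩⟩)
  have := pos_sn a'.at
  rw [g, HT.st] at this
  omega

end

theorem prim (a : V.W.S.Acc d v L i f σ) : (∃ i f σ, V.W.S.Acc true v L i f σ ∧ i ≤ r + 5) ∨
    ∃ i f σ, V.W.S.Acc false v L i f σ ∧ r + 4 ≤ i := by
  have := V.hr
  have := V.he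
  rcases a.cases with ⟨rfl, _, -, -, g, -⟩ | ⟨rfl, _, -, -, g, -⟩ | ⟨m, rfl, -⟩
  · exact Or.inl ⟨_, _, _, a, by omega⟩
  · exact Or.inr ⟨_, _, _, a, by omega⟩
  rcases le_or_gt (m : ℕ) (r + 4) with c | c
  · obtain ⟨u, τ, a⟩ := V.W.S.acc_up L m (Or.inl (by omega))
    exact Or.inl ⟨_, _, _, a, by omega⟩
  · obtain ⟨u, τ, a⟩ := V.W.S.acc_dn L m (Or.inl (by omega))
    exact Or.inr ⟨_, _, _, a, by omega⟩

/-- **Two points on lines of one colour in different blocks are served.** -/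
theorem _root_.Pool.Agent.P.MP_439f1f_co.Fw.sv_samecol (V : Fw K N r r0 q D e b)
    (a : V.W.S.Acc d v L i f σ) (a' : V.W.S.Acc d' w L' i' f' σ')
    (col : (V.W.S.typ L f).col = (V.W.S.typ L' f').col) (nl : V.W.lo L ≠ V.W.lo L')
    (nb : ∀ n, V.W.In L n → ¬V.W.In L' n) (own : ¬V.Cld v w) (own' : ¬V.Cld w v) :
    V.W.Sv v w := by
  intro _ _
  have := V.hr
  have := V.he
  have c : ∀ f f', (V.W.S.typ L f).col = (V.W.S.typ L' f').col := fun _ _ => by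
    rw [V.W.col_typ, V.W.col_typ] at col ⊢
    exact col
  rcases prim a with ⟨_, _, _, a, h⟩ | ⟨_, _, _, a, h⟩ <;>
    rcases prim a' with ⟨_, _, _, a', h'⟩ | ⟨_, _, _, a', h'⟩
  exacts [same a (c _ _) nl nb a' ⟨by omega, by omega⟩, updn (c _ _) nl nb a a' h h' own',
    Wd.Sv.symm (updn (c _ _).symm nl.symm (fun n g g' => nb n g' g) a' a h' h own),
    same a (c _ _) nl nb a' ⟨by omega, by omega⟩]

end Fw.Sc

end Pool.Agent.P.MP_439f1f_co
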