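import Pool.Agent.P.MP_439f1f_co.Mo6
import Pool.Agent.P.MP_439f1f_co.B13

/-!
Safety of the payload, first part: trees, kills, and the normal form of the exits.
-/

set_option autoImplicit false

namespace Pool.Agent.P.MP_439f1f_co

open Function Sum Relation

/-- levels, parents, the child of an odd node, and the tree of a node -/
structure Tre (N T : Type*) where
  lev : N → ℕ
  par : N → N
  kid : N → N
  tree : N → T
  one : ∀ n, 1 ≤ lev n
  lev_par : ∀ n, 2 ≤ lev n → lev (par n) + 1 = lev n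
  tree_par : ∀ n, 2 ≤ lev n → tree (par n) = tree n
  kid_par : ∀ n, lev n % 2 = 0 → kid (par n) = n

namespace Tre

variable {N T : Type*} (R : Tre N T)

/-- `v` is `a` or an ancestor of `a` -/
def Up (a v : N) : Prop := ReflTransGen (fun n q => 2 ≤ R.lev n ∧ q = R.par n) a v

/-- the nodes of the loop that is closed by the killed node `k` -/
def Kl (k n : N) : Prop := n = R.par k ∨ (2 ≤ R.lev n ∧ R.par n = R.par k)

variable {R} {a v w : N}

theorem Up.refl : R.Up a a := ReflTransGen.refl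

theorem Up.trans (h : R.Up a v) (h' : R.Up v w) : R.Up a w := ReflTransGen.trans h h'

theorem Up.par (h : R.Up a v) (hv : 2 ≤ R.lev v) : R.Up a (R.par v) := h.tail ⟨hv, rfl⟩

theorem Up.kid (h : R.Up (R.par a) v) (ha : 2 ≤ R.lev a) : R.Up a v :=
  ReflTransGen.head ⟨ha, rfl⟩ h

theorem Up.tree (h : R.Up a v) : R.tree v = R.tree a := by
  induction h with
  | refl => rfl
  | tail _ h ih => rw [h.2, R.tree_par _ h.1, ih]

theorem Up.cases (h : R.Up a v) : v = a ∨ (2 ≤ R.lev a ∧ R.Up (R.par a) v) :=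
  (ReflTransGen.cases_head h).imp Eq.symm fun ⟨_, h1, h2⟩ => ⟨h1.1, h1.2 ▸ h2⟩

theorem Up.cases' (h : R.Up a v) : v = a ∨ ∃ w, R.Up a w ∧ 2 ≤ R.lev w ∧ v = R.par w :=
  (ReflTransGen.cases_tail h).imp id fun ⟨w, h1, h2⟩ => ⟨w, h1, h2⟩

theorem Up.lev (h : R.Up a v) : v = a ∨ R.lev v < R.lev a := by
  induction h with
  | refl => exact Or.inl rfl
  | @tail b c _ h ih =>
    have := R.lev_par b h.1
    rw [← h.2] at this
    rcases ih with rfl | ih <;> exact Or.inr (by omega)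

theorem Up.lev_le (h : R.Up a v) : R.lev v ≤ R.lev a := h.lev.elim (fun e => e ▸ le_rfl) le_of_lt

theorem Up.eq (h : R.Up a v) (h' : R.Up a w) (l : R.lev v = R.lev w) : v = w := by
  induction h using ReflTransGen.head_induction_on with
  | refl => exact (h'.lev.resolve_right (by omega)).symm
  | @head b c h1 h2 ih =>
    rcases h'.cases with rfl | h'
    · have := Up.lev_le h2
      have := R.lev_par w h1.1
      rw [← h1.2] at this
      omega
    · exact ih (h1.2 ▸ h'.2)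

theorem Kl.tree {k n : N} (h : R.Kl k n) (hk : 2 ≤ R.lev k) : R.tree n = R.tree k := by
  rcases h with rfl | h
  · exact R.tree_par _ hk
  · rw [← R.tree_par _ h.1, h.2, R.tree_par _ hk]

theorem Kl.lev {k n : N} (h : R.Kl k n) (hk : 2 ≤ R.lev k) :
    R.lev n + 1 = R.lev k ∨ R.lev n = R.lev k := by
  have := R.lev_par _ hk
  rcases h with rfl | h
  · exact Or.inl this
  · have h2 := R.lev_par _ h.1
    rw [h.2] at h2
    omega

end Tre

variable {P Z β N T : Type*} [LinearOrder β]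

/-- The payload: nodes `u n`, moat hubs `e n i`, entry labels `ell n i`. -/
structure Pay (R : Tre N T) (tB : P ⊕ Z → Option (P ⊕ Z)) (hO : P → Option (P ⊕ Z)) (r : ℕ)
    (u : N → P) (e : N → ℕ → P) (ell : N → ℕ → N) : Prop where
  uinj : Injective u
  une : ∀ n n', ∀ i < r, u n ≠ e n' i
  dis : ∀ n n', ∀ i < r, ∀ j < r, e n i = e n' j → n = n' ∧ i = j
  all : ∀ q, (∃ n, q = u n) ∨ ∃ n, ∃ i < r, q = e n i
  tB1 : ∀ n, R.lev n = 1 → tB (inl (u n)) = none
  tB2 : ∀ n, 2 ≤ R.lev n → tB (inl (u n)) = some (inl (u (R.par n)))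
  hOe : ∀ n, ∀ i < r, hO (e n i) = some (inl (u (ell n i)))
  hx : ∀ n, ∀ i < r, R.tree (ell n i) ≠ R.tree n

/-- The geometry of one state: ports `p`, killed nodes `kl`; `blk L n` says that the line `L` lies
in the block of the node `n`. -/
structure Geo (R : Tre N T) (tB : P ⊕ Z → Option (P ⊕ Z)) (hO : P → Option (P ⊕ Z))
    (pos : P ⊕ Z → β) (r : ℕ) (u : N → P) (e : N → ℕ → P) (p : N → ℕ) (kl : N → Prop)
    (blk : P ⊕ Z → N → Prop) : Prop where
  moat : ∀ n, MoatSt tB hO pos r (p n) (u n) (e n)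
  bs : ∀ n, blk (inl (u n)) n
  bu : ∀ n n', blk (inl (u n)) n' → n' = n
  be : ∀ n n', ∀ i < r, blk (inl (e n i)) n' → n' = n
  bm : ∀ n L, pos (inl (e n (p n))) ≤ pos L → (pos L ≤ pos (inl (e n (el r (p n) (r - 1)))) ∨
    (Front pos r (p n) (u n) (e n) ∧ pos L < pos (inl (u n)))) → blk L n
  kill : ∀ k, kl k → 2 ≤ R.lev k ∧ pos (inl (u k)) < pos (inl (u (R.par k))) ∧
    ∀ L, pos (inl (u k)) ≤ pos L → pos L ≤ pos (inl (u (R.par k))) → ∃ n, blk L n ∧ R.Kl k n

/-- the entry class `k` can be used by a clean exit -/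
def Can (pos : P ⊕ Z → β) (r p : ℕ) (u : P) (e : ℕ → P) (k : ℕ) : Prop :=
  k < r ∧ (Front pos r p u e → p < k ∧ p % 2 = 0)

/-- a gap hub or the source of a window puts a token on `q` -/
def Sn (x y : Option (P ⊕ Z)) (τ : P ⊕ Z → Option (P ⊕ Z)) (q : P) : Prop :=
  x = some (inl q) ∨ y = some (inl q) ∨ ∃ w, τ (inr w) = some (inl q)

/-- All data of one state and one configuration.  `Dn` are the nodes whose blocks are touched by
the gap or the window; only the moat of `n0` may be touched. -/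
structure Sit (R : Tre N T) (m : ℕ) (hang : P ⊕ Z → ℕ → Option (P ⊕ Z) → Prop)
    (tB : P ⊕ Z → Option (P ⊕ Z)) (hO : P → Option (P ⊕ Z)) (prv : P → P ⊕ Z)
    (nxt : Equiv.Perm (P ⊕ Z)) (pos : P ⊕ Z → β) (r : ℕ) (u : N → P) (e : N → ℕ → P)
    (ell : N → ℕ → N) (p : N → ℕ) (kl : N → Prop) (blk : P ⊕ Z → N → Prop)
    (x y : Option (P ⊕ Z)) (τ η : P ⊕ Z → Option (P ⊕ Z)) (L0 : P ⊕ Z) (Dn : N → Prop) :
    Prop where
  sta : Sta m hang tB hO prv nxt pos
  pay : Pay R tB hO r u e ell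
  geo : Geo R tB hO pos r u e p kl blk
  ends : Ends m hang x y τ η
  cn : Cn L0 x y τ η
  pcl : ∀ L n, blk L n → ¬Dn n → Pcl nxt L0 τ η L
  gx : ∀ n, ∀ i < r, x = some (inl (e n i)) → Dn n
  gy : ∀ n, ∀ i < r, y = some (inl (e n i)) → Dn n

variable {R : Tre N T} {m : ℕ} {hang : P ⊕ Z → ℕ → Option (P ⊕ Z) → Prop}
  {tB : P ⊕ Z → Option (P ⊕ Z)} {hO : P → Option (P ⊕ Z)} {prv : P → P ⊕ Z}
  {nxt : Equiv.Perm (P ⊕ Z)} {pos : P ⊕ Z → β} {r : ℕ} {u : N → P} {e : N → ℕ → P}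
  {ell : N → ℕ → N} {p : N → ℕ} {kl : N → Prop} {blk : P ⊕ Z → N → Prop}
  {x y : Option (P ⊕ Z)} {τ η : P ⊕ Z → Option (P ⊕ Z)} {L0 : P ⊕ Z} {Dn : N → Prop}

namespace Sit

variable (S : Sit R m hang tB hO prv nxt pos r u e ell p kl blk x y τ η L0 Dn)

include S

theorem rpos (n : N) : 0 < r := lt_of_lt_of_le (by omega) (S.geo.moat n).three

theorem cln {n : N} (h : ¬Dn n) : Cln nxt pos L0 x y τ η r (p n) (u n) (e n) :=
  ⟨fun i hi a => h (S.gx n i hi a), fun i hi a => h (S.gy n i hi a),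
    fun L a b => S.pcl L n (S.geo.bm n L a (b.imp le_of_lt id)) h⟩

/-- a node without exit keeps the head into it -/
theorem head {n : N} (h : η (prv (u n)) ≠ some (inl (e n 0))) :
    η (prv (u n)) = some (inl (u n)) :=
  (S.sta.hp _ _ (S.ends.hh _)).resolve_right (by rwa [(S.geo.moat n).hOu])

theorem entry {n : N} {i : ℕ} (hi : i < r) (h : η (prv (e n i)) ≠ some (inl (e n i))) :
    η (prv (e n i)) = some (inl (u (ell n i))) :=
  S.pay.hOe n i hi ▸ (S.sta.hp _ _ (S.ends.hh _)).resolve_left h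

theorem tail {n : N} (h2 : 2 ≤ R.lev n) (h : τ (inl (u n)) ≠ some (inl (u n))) :
    τ (inl (u n)) = some (inl (u (R.par n))) :=
  S.pay.tB2 n h2 ▸ ((S.sta.tl _ _).1 (S.ends.ht _)).resolve_left h

theorem prv_inj {q q' : P} (h : prv q = prv q') : q = q' :=
  inl_injective ((S.sta.nprv q).symm.trans (h ▸ S.sta.nprv q'))

theorem par_ne {n : N} (h : 2 ≤ R.lev n) : u n ≠ u (R.par n) := fun a => by
  have := R.lev_par n h
  rw [← S.pay.uinj a] at this
  omega

variable [Finite P] [Finite Z]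

/-- a token at a node without exit moves its tail -/
theorem lose {n : N} (he : η (prv (u n)) ≠ some (inl (e n 0))) (a : En (P ⊕ Z))
    (ha : a.hub x y τ η = some (inl (u n))) (a1 : a ≠ .tl (inl (u n))) (a2 : a ≠ .hd (prv (u n))) :
    τ (inl (u n)) ≠ some (inl (u n)) :=
  S.ends.lose_tail (hb := some) (S.head he) a ha a1 a2

theorem lose_sn {n : N} (he : η (prv (u n)) ≠ some (inl (e n 0))) (h : Sn x y τ (u n)) :
    τ (inl (u n)) ≠ some (inl (u n)) := by
  rcases h with h | h | ⟨w, h⟩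
  · exact S.lose he .lo h (by simp) (by simp)
  · exact S.lose he .hi h (by simp) (by simp)
  · exact S.lose he (.tl (inr w)) h (by simp) (by simp)

theorem lose_en {n : N} {k : ℕ} (hk : k < r) (h : η (prv (e n k)) ≠ some (inl (e n k)))
    (he : η (prv (u (ell n k))) ≠ some (inl (e (ell n k) 0))) :
    τ (inl (u (ell n k))) ≠ some (inl (u (ell n k))) :=
  S.lose he (.hd (prv (e n k))) (S.entry hk h) (by simp)
    fun a => S.pay.une _ _ k hk (S.prv_inj (En.hd.inj a)).symm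

/-- **Climbing.** -/
theorem climb {a v : N} (h : R.Up a v) (ha : τ (inl (u a)) ≠ some (inl (u a)))
    (he : ∀ w, R.Up a w → R.Up w v → η (prv (u w)) ≠ some (inl (e w 0))) :
    τ (inl (u v)) ≠ some (inl (u v)) := by
  induction h with
  | refl => exact ha
  | @tail b c h1 h2 ih =>
    obtain ⟨h2, rfl⟩ := h2
    exact S.lose (he _ (Tre.Up.par h1 h2) Tre.Up.refl) (.tl (inl (u b)))
      (S.tail h2 (ih fun w a b => he w a (b.par h2))) (by simpa using S.par_ne h2) (by simp)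

/-- **Descent.**  A node that lost an end has a token below it. -/
theorem src {v : N} (h : τ (inl (u v)) ≠ some (inl (u v)) ∨ η (prv (u v)) = some (inl (e v 0))) :
    ∃ s, R.Up s v ∧ (Sn x y τ (u s) ∨
      ∃ n, ∃ k < r, s = ell n k ∧ η (prv (e n k)) ≠ some (inl (e n k))) := by
  have h0 := S.rpos v
  have hl : (∀ q', (∃ s, R.Up s v ∧ q' = u s) → τ (inl (u v)) ≠ some (inl q')) ∨
      ∀ q', (∃ s, R.Up s v ∧ q' = u s) → η (prv (u v)) ≠ some (inl q') := by
    refine h.imp (fun h => ?_) fun h => ?_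
    · rintro _ ⟨s, a, rfl⟩ b
      rcases (R.one v).eq_or_lt with l | l
      · rw [((S.sta.tl _ _).1 (S.ends.ht _)).resolve_left h, S.pay.tB1 v l.symm] at b
        cases b
      · rw [S.tail l h] at b
        obtain rfl : R.par v = s := S.pay.uinj (by simpa using b)
        have := a.lev_le
        have := R.lev_par v l
        omega
    · rintro _ ⟨s, -, rfl⟩ b
      exact S.pay.une s v 0 h0 (by simpa using b.symm.trans h)
  rcases S.sta.flow S.ends (V := fun q => ∃ s, R.Up s v ∧ q = u s) (q := u v)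
    ⟨v, Tre.Up.refl, rfl⟩ hl with ⟨_, ⟨s, a, rfl⟩, b⟩ | ⟨q, _, a, ⟨s, b, rfl⟩, d⟩
  · exact ⟨s, a, Or.inl b⟩
  · rcases S.pay.all q with ⟨n, rfl⟩ | ⟨n, i, hi, rfl⟩
    · rcases d with ⟨-, d⟩ | ⟨-, d⟩
      · rcases (R.one n).eq_or_lt with l | l
        · rw [S.pay.tB1 n l.symm] at d
          cases d
        · rw [S.pay.tB2 n l] at d
          obtain rfl : R.par n = s := S.pay.uinj (by simpa using d)
          exact absurd ⟨n, b.kid l, rfl⟩ a
      · rw [(S.geo.moat n).hOu] at d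
        exact absurd (by simpa using d) (S.pay.une s n 0 h0).symm
    · rcases d with ⟨-, d⟩ | ⟨d', d⟩
      · rw [(S.geo.moat n).tBe i hi] at d
        exact absurd (by simpa using d) (S.pay.une s n _ (sc_lt' hi)).symm
      · rw [S.pay.hOe n i hi] at d
        refine ⟨s, b, Or.inr ⟨n, i, hi, S.pay.uinj (by simpa using d.symm), ?_⟩⟩
        rw [d']
        simpa using S.pay.une s n i hi

/-- a clean exit uses a possible entry class -/
theorem can {n : N} (cl : Cln nxt pos L0 x y τ η r (p n) (u n) (e n))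
    (he : η (prv (u n)) = some (inl (e n 0))) :
    ∃ k, Can pos r (p n) (u n) (e n) k ∧ Cross prv τ η r (e n) k 0 := by
  by_cases fr : Front pos r (p n) (u n) (e n)
  · obtain ⟨k, d1, d2, d3⟩ := (S.geo.moat n).dead_exit S.sta S.ends S.cn fr cl he
    exact ⟨k, ⟨d3.1, fun _ => ⟨d1, d2⟩⟩, d3⟩
  · obtain ⟨k, d⟩ := (S.geo.moat n).arc_exit S.sta S.ends cl.hx cl.hy he
    exact ⟨k, ⟨d.1, fun b => absurd b fr⟩, d⟩

variable [Finite N]

/-- **Kill.**  The tail of a killed node moved, its loop is untouched and without exit. -/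
theorem kill {k : N} (hk : kl k) (ht : τ (inl (u k)) ≠ some (inl (u k)))
    (hK : ∀ n, R.Kl k n → ¬Dn n ∧ η (prv (u n)) ≠ some (inl (e n 0))) : False := by
  obtain ⟨k2, lt, inb⟩ := S.geo.kill k hk
  have ht := S.tail k2 ht
  have id := fun n (h : R.Kl k n) => (S.geo.moat n).idle S.sta S.ends (S.cln (hK n h).1).hx
    (S.cln (hK n h).1).hy (hK n h).2
  obtain ⟨τ', e', c', D⟩ := S.sta.derot (N := {n // R.Kl k n}) (u := fun n => u n)
    (e := fun n => e n) (p := fun n => p n) (fun n => S.geo.moat n)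
    (fun n n' i hi j hj h => Subtype.ext (S.pay.dis _ _ i hi j hj h).1) S.ends S.cn fun n _ => by
      have cl := S.cln (hK n n.2).1
      have := (S.geo.moat n).three
      exact (S.geo.moat n).seg_idle S.sta S.ends cl.hx cl.hy (hK n n.2).2 (i0 := 0) (by omega)
        fun L a b _ => cl.pc L a (Or.inl b)
  have ou : ∀ n, τ' (inl (u n)) = τ (inl (u n)) := fun n => D.out _ fun n' i hi h =>
    S.pay.une _ _ i hi (inl_injective h)
  have pc : ∀ L, pos (inl (u k)) ≤ pos L → pos L < pos (inl (u (R.par k))) → Pcl nxt L0 τ η L :=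
    fun L a b => let ⟨n, d1, d2⟩ := inb L a b.le; S.pcl L n d1 (hK n d2).1
  refine e'.no_kill (hb := some) c' S.sta.cyc lt ((ou k).trans ht) (fun L a b => ?_)
    fun L a b => ⟨(pc L a b).1, ?_⟩
  · rcases (pc L a.le b).2.1 with h | ⟨q, rfl⟩
    · exact D.stay h
    obtain ⟨n', d1, d2⟩ := inb _ a.le b.le
    rcases S.pay.all q with ⟨n, rfl⟩ | ⟨n, i, hi, rfl⟩
    · obtain rfl := S.geo.bu _ _ d1
      rw [ou]
      by_contra h
      rcases d2 with rfl | d2
      · exact lt_irrefl _ b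
      · rcases S.ends.full (a := .tl (inl (u k))) (b := .hd (prv (u (R.par k))))
          (d := .tl (inl (u n'))) (by simp) ht (S.head (hK _ (Or.inl rfl)).2)
          (d2.2 ▸ S.tail d2.1 h) with h' | h'
        · rw [En.tl.inj h'] at a
          exact lt_irrefl _ a
        · cases h'
    · obtain rfl := S.geo.be _ _ i hi d1
      exact (id _ d2).2.elim (fun h => D.rot ⟨n', d2⟩ h i hi) fun h => D.stay (h i hi)
  · rcases (pc L a b).2.2 with h | ⟨q, h⟩
    · exact h
    have s := S.sta.cyc.succ L trivial _ trivial b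
    rw [h] at s ⊢
    rw [S.sta.eq_prv h]
    obtain ⟨n', d1, d2⟩ := inb _ (a.trans s.1.le) s.2
    rcases S.pay.all q with ⟨n, rfl⟩ | ⟨n, i, hi, rfl⟩
    · obtain rfl := S.geo.bu _ _ d1
      exact S.head (hK _ d2).2
    · obtain rfl := S.geo.be _ _ i hi d1
      exact (id _ d2).1 i hi

/-- a token at `a` dies if a killed node above `a` has an untouched loop and no exit is taken -/
theorem dead {a k : N} (h : R.Up a k) (hk : kl k)
    (ha : η (prv (u a)) ≠ some (inl (e a 0)) → τ (inl (u a)) ≠ some (inl (u a)))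
    (he : ∀ w, R.Up a w → R.Up w k → η (prv (u w)) ≠ some (inl (e w 0)))
    (hK : ∀ n, R.Kl k n → ¬Dn n ∧ η (prv (u n)) ≠ some (inl (e n 0))) : False :=
  S.kill hk (S.climb h (ha (he a Tre.Up.refl h)) he) hK

end Sit

/-- a killed node above `a` whose loop is untouched -/
def Tre.Safe (R : Tre N T) (kl Dn : N → Prop) (a : N) : Prop :=
  ∃ k, R.Up a k ∧ kl k ∧ ∀ n, R.Kl k n → ¬Dn n

/-- a killed node above `a` that is reached before any open node -/
def Tre.Dead (R : Tre N T) (kl : N → Prop) (opn : N → ℕ → Prop) (a : N) : Prop :=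
  ∃ k, R.Up a k ∧ kl k ∧ (∀ w, R.Up a w → R.Up w k → ∀ j, ¬opn w j) ∧
    ∀ n, R.Kl k n → ∀ j, ¬opn n j

/-- no clean exit is possible in the tree `t` -/
def Tre.Std (R : Tre N T) (pos : P ⊕ Z → β) (r : ℕ) (u : N → P) (e : N → ℕ → P) (p : N → ℕ)
    (t : T) : Prop := ∀ n, R.tree n = t → ∀ k, ¬Can pos r (p n) (u n) (e n) k

/-- The conditions on the exits.  `opn n k`: the node `n` may be left towards the class `k`. -/
structure Exi (R : Tre N T) (nxt : P ⊕ Z → P ⊕ Z) (pos : P ⊕ Z → β) (r : ℕ) (u : N → P)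
    (e : N → ℕ → P) (ell : N → ℕ → N) (p : N → ℕ) (kl : N → Prop) (opn : N → ℕ → Prop)
    (x y : Option (P ⊕ Z)) (τ η : P ⊕ Z → Option (P ⊕ Z)) (L0 : P ⊕ Z) (Dn : N → Prop) :
    Prop where
  one : ∀ n n', ¬Cln nxt pos L0 x y τ η r (p n) (u n) (e n) →
    ¬Cln nxt pos L0 x y τ η r (p n') (u n') (e n') → n = n'
  hs : ∀ n s, ¬Cln nxt pos L0 x y τ η r (p n) (u n) (e n) → R.Up s n → ¬Sn x y τ (u s)
  s1 : ∀ n k, Can pos r (p n) (u n) (e n) k → R.Std pos r u e p (R.tree (ell n k))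
  s2 : ∀ n k, Can pos r (p n) (u n) (e n) k → ∀ w, R.Up (ell n k) w → ∀ j < r,
    R.Std pos r u e p (R.tree (ell w j))
  d1 : ∀ n k s, Can pos r (p n) (u n) (e n) k → R.Up s n → (Sn x y τ (u s) ∨
    ∃ w, ∃ j < r, s = ell w j ∧ ∃ i < r, x = some (inl (e w i)) ∨ y = some (inl (e w i))) →
    opn n k ∨ R.Safe kl Dn (ell n k)
  d2 : ∀ n k s w, Can pos r (p n) (u n) (e n) k → R.Up s n → Sn x y τ (u s) →
    R.Up (ell n k) w → ¬Cln nxt pos L0 x y τ η r (p w) (u w) (e w) →
    ∀ j < r, R.Safe kl Dn (ell w j)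

/-- a token starts at `s`: a gap hub, the source of a window, or the entry of the moat that
contains a gap hub -/
def Tok (prv : P → P ⊕ Z) (r : ℕ) (u : N → P) (e : N → ℕ → P) (ell : N → ℕ → N)
    (x y : Option (P ⊕ Z)) (τ η : P ⊕ Z → Option (P ⊕ Z)) (s : N) : Prop :=
  Sn x y τ (u s) ∨ ∃ w, ∃ j < r, s = ell w j ∧ η (prv (e w j)) ≠ some (inl (e w j)) ∧
    η (prv (u w)) ≠ some (inl (e w 0)) ∧ ∃ i < r, x = some (inl (e w i)) ∨ y = some (inl (e w i))

namespace Sit

variable {opn : N → ℕ → Prop} [Finite P] [Finite Z] [Finite N]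
  (S : Sit R m hang tB hO prv nxt pos r u e ell p kl blk x y τ η L0 Dn)

include S

omit [Finite N] in
/-- an entry needs an exit or a gap hub in the moat -/
theorem entry_src {n : N} {k : ℕ} (hk : k < r) (h : η (prv (e n k)) ≠ some (inl (e n k))) :
    η (prv (u n)) = some (inl (e n 0)) ∨
      ∃ i < r, x = some (inl (e n i)) ∨ y = some (inl (e n i)) := by
  by_contra a
  push Not at a
  exact h (((S.geo.moat n).idle S.sta S.ends (fun i hi => (a.2 i hi).1) (fun i hi => (a.2 i hi).2)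
    a.1).1 k hk)

/-- an entry towards a safely killed label -/
theorem safe_false {n : N} {k : ℕ} (hk : k < r) (h : η (prv (e n k)) ≠ some (inl (e n k)))
    (st : R.Std pos r u e p (R.tree (ell n k))) (sf : R.Safe kl Dn (ell n k))
    (cl : ∀ w, R.tree w = R.tree (ell n k) → η (prv (u w)) = some (inl (e w 0)) →
      Cln nxt pos L0 x y τ η r (p w) (u w) (e w)) : False := by
  obtain ⟨q, a1, a2, a3⟩ := sf
  have ne : ∀ w, R.tree w = R.tree (ell n k) → η (prv (u w)) ≠ some (inl (e w 0)) :=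
    fun w a b => let ⟨j, d, _⟩ := S.can (cl w a b) b; st w a j d
  exact S.dead a1 a2 (S.lose_en hk h) (fun w a _ => ne w a.tree)
    fun w a => ⟨a3 w a, ne w ((a.tree (S.geo.kill q a2).1).trans a1.tree)⟩

variable (E : Exi R nxt pos r u e ell p kl opn x y τ η L0 Dn)

include E

/-- **No exit through a touched moat.** -/
theorem exit_cln {n : N} (he : η (prv (u n)) = some (inl (e n 0))) :
    Cln nxt pos L0 x y τ η r (p n) (u n) (e n) := by
  by_contra dn
  have ot : ∀ w, w ≠ n → Cln nxt pos L0 x y τ η r (p w) (u w) (e w) := fun w a =>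
    by_contra fun b => a (E.one _ _ b dn)
  have st : ∀ w, ∀ j < r, w ≠ n → η (prv (e w j)) ≠ some (inl (e w j)) →
      η (prv (u w)) = some (inl (e w 0)) ∧ Can pos r (p w) (u w) (e w) j := fun w j hj a b => by
    have d := (S.entry_src hj b).resolve_right fun ⟨i, hi, d⟩ =>
      d.elim ((ot w a).hx i hi) ((ot w a).hy i hi)
    obtain ⟨k, d1, d2⟩ := S.can (ot w a) d
    exact ⟨d, by_contra fun f => b (d2.2.2.1 j hj fun g => f (g ▸ d1))⟩
  obtain ⟨_, a1, a2 | ⟨w, j, hj, rfl, a2⟩⟩ := S.src (Or.inr he)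
  · exact E.hs n _ dn a1 a2
  obtain ⟨a3, a4⟩ := st w j hj (fun a => S.pay.hx w j hj (a ▸ a1.tree.symm)) a2
  obtain ⟨k, hk, b⟩ := (S.geo.moat n).exit_entry S.sta S.ends he
  obtain ⟨s, b1, b2 | ⟨w', j', hj', rfl, b2⟩⟩ := S.src (Or.inr a3)
  · exact S.safe_false hk b (E.s2 w j a4 n a1 k hk) (E.d2 w j s n a4 b1 b2 a1 dn k hk)
      fun v d _ => ot v fun f => S.pay.hx n k hk (f ▸ d.symm)
  · by_cases f : w' = n
    · exact E.s2 w j a4 n a1 j' hj' w (f ▸ b1.tree) j a4
    · exact E.s1 w' j' (st w' j' hj' f b2).2 w b1.tree j a4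

/-- **Normal form of the exits**: clean, at an open node, above the start of a token. -/
theorem exit_nf {n : N} (he : η (prv (u n)) = some (inl (e n 0))) :
    ∃ k, Can pos r (p n) (u n) (e n) k ∧ opn n k ∧ Cross prv τ η r (e n) k 0 ∧
      ∃ s, R.Up s n ∧ Tok prv r u e ell x y τ η s := by
  obtain ⟨k, a1, a2⟩ := S.can (S.exit_cln E he) he
  obtain ⟨s, b1, b2⟩ : ∃ s, R.Up s n ∧ Tok prv r u e ell x y τ η s := by
    obtain ⟨s, b1, b2 | ⟨w, j, hj, rfl, b2⟩⟩ := S.src (Or.inr he)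
    · exact ⟨s, b1, Or.inl b2⟩
    have ne : η (prv (u w)) ≠ some (inl (e w 0)) := fun d => by
      obtain ⟨j', d1, d2⟩ := S.can (S.exit_cln E d) d
      obtain rfl : j = j' := by_contra fun f => b2 (d2.2.2.1 j hj f)
      exact E.s1 w j d1 n b1.tree k a1
    exact ⟨_, b1, Or.inr ⟨w, j, hj, rfl, b2, ne, (S.entry_src hj b2).resolve_left ne⟩⟩
  refine ⟨k, a1, (E.d1 n k s a1 b1 (b2.imp id fun ⟨w, j, hj, d, _, _, f⟩ =>
    ⟨w, j, hj, d, f⟩)).resolve_right fun sf =>
      S.safe_false a1.1 a2.2.1 (E.s1 n k a1) sf fun w _ => S.exit_cln E, a2, s, b1, b2⟩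

theorem no_exit {n : N} (h : ∀ j, ¬opn n j) : η (prv (u n)) ≠ some (inl (e n 0)) := fun he =>
  let ⟨k, _, a, _⟩ := S.exit_nf E he; h k a

/-- no open node above the starts of the tokens: no exit at all -/
theorem no_exits (h : ∀ s w, Tok prv r u e ell x y τ η s → R.Up s w → ∀ j, ¬opn w j) (n : N) :
    η (prv (u n)) ≠ some (inl (e n 0)) := fun he =>
  let ⟨k, _, a, _, s, b, d⟩ := S.exit_nf E he; h s n d b k a

/-- **A dead token.** -/
theorem dead_false {a : N} (h : R.Dead kl opn a)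
    (hD : ∀ n, Dn n → R.tree n ≠ R.tree a ∨ R.lev a < R.lev n)
    (ha : Sn x y τ (u a) ∨ ∃ n, ∃ k < r, a = ell n k ∧ η (prv (e n k)) ≠ some (inl (e n k))) :
    False := by
  obtain ⟨k, a1, a2, a3, a4⟩ := h
  have k2 := (S.geo.kill k a2).1
  refine S.dead a1 a2 (fun he => ?_) (fun w a b => S.no_exit E (a3 w a b)) fun n a =>
    ⟨fun b => (hD n b).elim (fun d => d ((a.tree k2).trans a1.tree)) fun d => ?_,
      S.no_exit E (a4 n a)⟩
  · rcases ha with ha | ⟨n, j, hj, rfl, ha⟩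
    exacts [S.lose_sn he ha, S.lose_en hj ha he]
  · have := a.lev k2
    have := a1.lev_le
    omega

end Sit

end Pool.Agent.P.MP_439f1f_co
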