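import Pool.Agent.P.MP_439f1f_co.Sf1

/-!
Safety of the payload, second part: closed windows of two tokens without exits.
-/

set_option autoImplicit false

namespace Pool.Agent.P.MP_439f1f_co

open Function Sum Relation

section gen
variable {S Λ β : Type*} {m : ℕ} {hang : Λ → ℕ → S → Prop} {x y : S} {τ η : Λ → S} {L0 : Λ}
  {hb : Λ → S} {en : Λ → Λ} [Finite S] [Finite Λ]

/-- A closed set that contains both parts of the broken line and misses a line. -/
theorem Ends.no_both (e : Ends m hang x y τ η) (c : Cn L0 x y τ η) {U : Set Λ} (φ : Λ → S) (s0 : S)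
    (h1 : ∀ L ∈ U, τ L ∈ insert s0 (φ '' U)) (h2 : ∀ L ∈ U, L ≠ L0 → η L ∈ insert s0 (φ '' U))
    (hx : x ∈ insert s0 (φ '' U)) (hy : y ∈ insert s0 (φ '' U)) (h3 : η L0 ∈ insert s0 (φ '' U))
    {L1 : Λ} (h4 : L1 ∉ U) : False := by
  classical
  have : Nonempty Λ := ⟨L0⟩
  have a : ∀ s ∈ insert s0 (φ '' U), s ≠ s0 → invFunOn φ U s ∈ U ∧ φ (invFunOn φ U s) = s :=
    fun s hs h => invFunOn_pos (hs.resolve_left h)
  have key := two_reg (V := Option Λ) (fun v => v.elim y τ)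
    (fun v => v.elim (η L0) (update η L0 x))
    (fun s => ?_) (fun A hA => c A (fun L hL => ?_) ?_ (hA none))
    (T := insert s0 (φ '' U)) ⟨s0, Set.mem_insert _ _⟩
    (fun s => if s = s0 then none else some (invFunOn φ U s))
    (fun s hs t ht h => ?_) (fun s hs => ?_) (fun s hs => ?_) (some L1)
  · obtain ⟨s, hs, b⟩ := key
    by_cases h : s = s0
    · simp [h] at b
    · simp only [h, if_false, Option.some.injEq] at b
      exact h4 (b ▸ (a s hs h).1)
  · rw [ncard_opt, ncard_opt]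
    have a1 := e.load s
    have a2 := ncard_update η L0 x s
    simp only [Option.elim] at *
    by_cases b1 : η L0 = s <;> by_cases b2 : x = s <;> by_cases b3 : y = s <;>
      simp only [b1, b2, b3, if_true, if_false] at a1 a2 ⊢ <;> omega
  · simpa [update_of_ne hL] using hA (some L)
  · simpa using hA (some L0)
  · by_cases b1 : s = s0 <;> by_cases b2 : t = s0
    · exact b1.trans b2.symm
    · simp [b1, b2] at h
    · simp [b1, b2] at h
    · simp only [b1, b2, if_false, Option.some.injEq] at h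
      rw [← (a s hs b1).2, h, (a t ht b2).2]
  · by_cases h : s = s0
    · simpa only [h, if_true, Option.elim] using hy
    · simpa only [h, if_false, Option.elim] using h1 _ (a s hs h).1
  · by_cases h : s = s0
    · simpa only [h, if_true, Option.elim] using h3
    · simp only [h, if_false, Option.elim]
      by_cases d : invFunOn φ U s = L0
      · rwa [d, update_self]
      · rw [update_of_ne d]
        exact h2 _ (a s hs h).1 d

variable [LinearOrder β] {pos : Λ → β} {R : Set Λ} {σ : Equiv.Perm Λ}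

omit [Finite S] [Finite Λ] in
theorem rot_lt {a : β} (lt : ∀ r ∈ R, pos r < pos (en r))
    (av : ∀ r ∈ R, a < pos r ∨ pos (en r) < a) :
    ∀ r ∈ R, rkey a (pos r) < rkey a (pos (en r)) := fun r hr => by
  have := lt r hr
  have := av r hr
  rw [rkey_lt]
  grind

omit [Finite S] [Finite Λ] in
theorem rot_dis {a : β} (lt : ∀ r ∈ R, pos r < pos (en r))
    (dis : ∀ r ∈ R, ∀ s ∈ R, pos r < pos s → pos (en r) < pos s)
    (av : ∀ r ∈ R, a < pos r ∨ pos (en r) < a) :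
    ∀ r ∈ R, ∀ s ∈ R, rkey a (pos r) < rkey a (pos s) → rkey a (pos (en r)) < rkey a (pos s) :=
  fun r hr s hs => by
    have := lt r hr
    have := av r hr
    have := av s hs
    have := dis r hr s hs
    simp only [rkey_lt]
    grind

omit [Finite S] [Finite Λ] in
theorem rot_in {a w : β} {r : Λ} (lt : pos r < pos (en r)) (av : a < pos r ∨ pos (en r) < a) :
    rkey a (pos r) < rkey a w ∧ rkey a w ≤ rkey a (pos (en r)) ↔ pos r < w ∧ w ≤ pos (en r) := by
  simp only [← not_lt, rkey_lt]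
  grind

omit [Finite S] [Finite Λ] in
theorem rkey_min {a w : β} : rkey a a ≤ rkey a w := by
  rw [← not_lt, rkey_lt]
  grind

omit [Finite S] [Finite Λ] in
theorem rkey_pos {a w : β} (h : w ≠ a) : rkey a a < rkey a w := by
  rw [rkey_lt]
  grind

/-- **Closed window from the gap to `q`**, cyclic form.  `B` is a set of hubs of the window among
which ends may have moved. -/
theorem Ends.no_win_cyc (e : Ends m hang x y τ η) (k : Cn L0 x y τ η) (o : Cyc Set.univ σ pos)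
    {q : Λ} (lt : ∀ r ∈ R, pos r < pos (en r))
    (dis : ∀ r ∈ R, ∀ s ∈ R, pos r < pos s → pos (en r) < pos s)
    (av : ∀ r ∈ R, pos L0 < pos r ∨ pos (en r) < pos L0) (B : Λ → Prop)
    (hB : ∀ w, B w → w ≠ L0 ∧ rkey (pos L0) (pos w) ≤ rkey (pos L0) (pos q) ∧
      ∀ r ∈ R, ¬(pos r < pos w ∧ pos w ≤ pos (en r)))
    (hy : ∃ w, B w ∧ y = hb w)
    (t1 : ∀ u, u ≠ L0 → rkey (pos L0) (pos u) < rkey (pos L0) (pos q) → u ∉ R →
      (∀ r ∈ R, u ≠ en r) → τ u = hb u ∨ ∃ w, B w ∧ τ u = hb w)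
    (t2 : ∀ r ∈ R, τ (en r) = hb r)
    (h2 : ∀ u, rkey (pos L0) (pos u) < rkey (pos L0) (pos q) →
      η u = hb (σ u) ∨ ∃ w, B w ∧ η u = hb w) : False := by
  have o' := o.rot L0
  have inB : ∀ s, (∃ w, B w ∧ s = hb w) →
      s ∈ hb '' Win (fun u => rkey (pos L0) (pos u)) R en L0 q := by
    rintro _ ⟨w, a, rfl⟩
    exact ⟨w, ⟨rkey_pos fun h => (hB w a).1 (o.inj trivial trivial h), (hB w a).2.1,
      fun r hr h => (hB w a).2.2 r hr ((rot_in (lt r hr) (av r hr)).1 h)⟩, rfl⟩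
  obtain ⟨w, l0, -⟩ := inB _ hy
  refine e.no_win_high (hb := hb) k o' (q := q) (l0.1.trans_le l0.2.1) (rot_lt lt av)
    (rot_dis lt dis av) (fun r hr h => ?_) (inB _ hy)
    (fun u hu a b => (t1 u (fun d => ?_) (lt_of_le_of_ne hu.2.1 fun d =>
      b (o'.inj trivial trivial d)) a fun r hr d => ?_).imp id (inB _)) (fun r hr _ => t2 r hr)
    fun u hu => (h2 u (o'.pre_win hu).2.1).imp id (inB _)
  · have := lt r hr
    have := av r hr
    exact absurd h.1 (rkey_pos (by grind)).not_ge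
  · exact absurd hu.1 (d ▸ lt_irrefl _)
  · exact hu.2.2 r hr ⟨d ▸ rot_lt lt av r hr, d ▸ le_rfl⟩

/-- **Closed window `[n, q]` that contains both parts of the broken line**, cyclic form.  `B` is a
set of hubs of the window among which ends may have moved. -/
theorem Ends.no_win_both (e : Ends m hang x y τ η) (k : Cn L0 x y τ η) (o : Cyc Set.univ σ pos)
    {n q : Λ} (lt : ∀ r ∈ R, pos r < pos (en r))
    (dis : ∀ r ∈ R, ∀ s ∈ R, pos r < pos s → pos (en r) < pos s)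
    (av : ∀ r ∈ R, pos n < pos r ∨ pos (en r) < pos n) (B : Λ → Prop)
    (hB : ∀ w, B w → rkey (pos n) (pos w) ≤ rkey (pos n) (pos q) ∧
      ∀ r ∈ R, ¬(pos r < pos w ∧ pos w ≤ pos (en r)))
    (hx : ∃ w, B w ∧ x = hb w) (hy : ∃ w, B w ∧ y = hb w) (h0 : ∃ w, B w ∧ η L0 = hb w)
    (t1 : ∀ u, rkey (pos n) (pos u) < rkey (pos n) (pos q) → u ∉ R →
      (∀ r ∈ R, u ≠ en r) → τ u = hb u ∨ ∃ w, B w ∧ τ u = hb w)
    (t2 : ∀ r ∈ R, τ (en r) = hb r)
    (h2 : ∀ u, rkey (pos n) (pos u) < rkey (pos n) (pos q) → u ≠ L0 → η u = hb (σ u)) : False := by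
  have o' := o.rot n
  have lt' := rot_lt lt av
  have dis' := rot_dis lt dis av
  set pos' := fun u => rkey (pos n) (pos u)
  have im : (fun u => hb (σ u)) '' (σ ⁻¹' Win pos' R en n q) = hb '' Win pos' R en n q := by
    rw [← Set.image_image hb σ, Set.image_preimage_eq _ σ.surjective]
  have inB : ∀ s, (∃ w, B w ∧ s = hb w) → s ∈ insert (hb n) (hb '' Win pos' R en n q) := by
    rintro _ ⟨w, a, rfl⟩
    by_cases d : w = n
    · exact Or.inl (d ▸ rfl)
    · exact Or.inr ⟨w, ⟨rkey_pos fun h => d (o.inj trivial trivial h), (hB w a).1,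
        fun r hr h => (hB w a).2 r hr ((rot_in (lt r hr) (av r hr)).1 h)⟩, rfl⟩
  refine e.no_both k (U := σ ⁻¹' Win pos' R en n q) (fun u => hb (σ u)) (hb n) (fun u hu => ?_)
    (fun u hu a => Or.inr ⟨u, hu, (h2 u (o'.pre_win hu).2.1 a).symm⟩) (im ▸ inB _ hx)
    (im ▸ inB _ hy) (im ▸ inB _ h0) (L1 := q) fun h => lt_irrefl _ (o'.pre_win h).2.1
  rw [im]
  obtain ⟨a1, a2, a3, a4⟩ := o'.pre_win hu
  by_cases d : ∃ r ∈ R, u = en r
  · obtain ⟨r, hr, rfl⟩ := d
    have b := lt r hr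
    have b' := av r hr
    refine Or.inr ⟨r, ⟨rkey_pos (by grind), ((lt' r hr).trans a2).le, fun s hs h => ?_⟩,
      (t2 r hr).symm⟩
    exact absurd (dis' s hs r hr h.1) h.2.not_gt
  · rcases t1 u a2 (fun h => a3 u h ⟨le_rfl, lt' u h⟩) fun r hr h => d ⟨r, hr, h⟩ with b | b
    · rcases a4 with rfl | a4 | a4
      exacts [Or.inl b, Or.inr ⟨u, a4, b.symm⟩, absurd a4 d]
    · exact inB _ b

end gen

variable {P Z β N T : Type*} [LinearOrder β]

/-- the even node `v` and its parent form a pass pair -/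
def Tre.Pas (R : Tre N T) (pos : P ⊕ Z → β) (u : N → P) (blk : P ⊕ Z → N → Prop) (v : N) : Prop :=
  pos (inl (u (R.par v))) < pos (inl (u v)) ∧ ∀ L, pos (inl (u (R.par v))) ≤ pos L →
    pos L ≤ pos (inl (u v)) → ∃ n, blk L n ∧ (n = R.par v ∨ n = v)

/-- the route above `a` consists of pass pairs and has no open node -/
def Tre.Alive (R : Tre N T) (pos : P ⊕ Z → β) (u : N → P) (blk : P ⊕ Z → N → Prop)
    (opn : N → ℕ → Prop) (a : N) : Prop :=
  ∀ v, R.Up a v → (∀ j, ¬opn v j) ∧ (R.lev v % 2 = 0 → R.Pas pos u blk v)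

/-- the starts of the pass pairs whose lower node satisfies `Q` -/
def Tre.pcs (R : Tre N T) (u : N → P) (Q : N → Prop) : Set (P ⊕ Z) :=
  {L | ∃ v, Q v ∧ R.lev v % 2 = 0 ∧ L = inl (u (R.par v))}

open Classical in
/-- the end of a pass pair -/
noncomputable def Tre.pen (R : Tre N T) (u : N → P) (L : P ⊕ Z) : P ⊕ Z :=
  if h : ∃ n, L = inl (u n) then inl (u (R.kid h.choose)) else L

/-- all system ends are in the position of the state -/
def Cam (nxt : P ⊕ Z → P ⊕ Z) (τ η : P ⊕ Z → Option (P ⊕ Z)) : Prop :=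
  ∀ L, (τ L = some L ∨ ∃ q, L = inl q) ∧ (η L = some (nxt L) ∨ ∃ q, nxt L = inl q)

variable {R : Tre N T} {m : ℕ} {hang : P ⊕ Z → ℕ → Option (P ⊕ Z) → Prop}
  {tB : P ⊕ Z → Option (P ⊕ Z)} {hO : P → Option (P ⊕ Z)} {prv : P → P ⊕ Z}
  {nxt : Equiv.Perm (P ⊕ Z)} {pos : P ⊕ Z → β} {r : ℕ} {u : N → P} {e : N → ℕ → P}
  {ell : N → ℕ → N} {p : N → ℕ} {kl : N → Prop} {blk : P ⊕ Z → N → Prop}
  {x y : Option (P ⊕ Z)} {τ τ' η : P ⊕ Z → Option (P ⊕ Z)} {L0 : P ⊕ Z} {Dn Q : N → Prop}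
  {opn : N → ℕ → Prop}

theorem Tre.two_le {v : N} (h : R.lev v % 2 = 0) : 2 ≤ R.lev v := by
  have := R.one v
  omega

theorem Tre.pen_par (inj : Injective u) {v : N} (h : R.lev v % 2 = 0) :
    R.pen u (inl (u (R.par v)) : P ⊕ Z) = inl (u v) := by
  have a : ∃ n, (inl (u (R.par v)) : P ⊕ Z) = inl (u n) := ⟨_, rfl⟩
  rw [Tre.pen, dif_pos a, ← inj (inl_injective a.choose_spec), R.kid_par v h]

theorem Cam.pcl (h : Cam nxt τ η) {L : P ⊕ Z} (hL : L ≠ L0) : Pcl nxt L0 τ η L :=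
  ⟨hL, (h L).1, (h L).2⟩

theorem Cam.drt {e : N → ℕ → P} (h : Cam nxt τ η) (D : Drt r e τ τ') : Cam nxt τ' η :=
  fun L => ⟨(h L).1.imp D.stay id, (h L).2⟩

theorem Cam.sn (h : Cam nxt τ η) {q : P} (a : Sn x y τ q) :
    x = some (inl q) ∨ y = some (inl q) :=
  a.imp id fun a => a.elim id fun ⟨w, b⟩ => by
    rcases (h (inr w)).1 with d | ⟨_, d⟩
    · cases d.symm.trans b
    · cases d

namespace Sit

variable (S : Sit R m hang tB hO prv nxt pos r u e ell p kl blk x y τ η L0 Dn)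

include S

theorem drt (h : Ends m hang x y τ' η) (c : Cn L0 x y τ' η) (D : Drt r e τ τ') :
    Sit R m hang tB hO prv nxt pos r u e ell p kl blk x y τ' η L0 Dn :=
  ⟨S.sta, S.pay, S.geo, h, c, fun L n a b => D.pcl (S.pcl L n a b), S.gx, S.gy⟩

theorem dis : ∀ n n', ∀ i < r, ∀ j < r, e n i = e n' j → n = n' :=
  fun n n' i hi j hj h => (S.pay.dis n n' i hi j hj h).1

theorem pcs_lt (h : ∀ v, Q v → R.lev v % 2 = 0 → R.Pas pos u blk v) :
    ∀ s ∈ R.pcs u Q, pos s < pos (R.pen u s) := by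
  rintro _ ⟨v, a, b, rfl⟩
  rw [Tre.pen_par S.pay.uinj b]
  exact (h v a b).1

theorem pcs_dis (h : ∀ v, Q v → R.lev v % 2 = 0 → R.Pas pos u blk v) :
    ∀ s ∈ R.pcs u Q, ∀ t ∈ R.pcs u Q, pos s < pos t → pos (R.pen u s) < pos t := by
  rintro _ ⟨v, a, b, rfl⟩ _ ⟨w, a', b', rfl⟩ l
  rw [Tre.pen_par S.pay.uinj b]
  refine not_le.1 fun l' => ?_
  obtain ⟨n, d1, d2⟩ := (h v a b).2 _ l.le l'
  rw [S.geo.bu _ _ d1] at d2
  rcases d2 with d2 | d2
  · rw [d2] at l
    exact lt_irrefl _ l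
  · have := R.lev_par w (Tre.two_le b')
    rw [d2] at this
    omega

/-- a line outside the blocks of the pairs -/
theorem pcs_av (h : ∀ v, Q v → R.lev v % 2 = 0 → R.Pas pos u blk v) {L : P ⊕ Z}
    (hL : ∀ n v, blk L n → Q v → R.lev v % 2 = 0 → n ≠ R.par v ∧ n ≠ v) :
    ∀ s ∈ R.pcs u Q, pos L < pos s ∨ pos (R.pen u s) < pos L := by
  rintro _ ⟨v, a, b, rfl⟩
  rw [Tre.pen_par S.pay.uinj b]
  by_contra d
  push Not at d
  obtain ⟨n, d1, d2⟩ := (h v a b).2 _ d.1 d.2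
  exact d2.elim (hL n v d1 a b).1 (hL n v d1 a b).2

/-- an odd node is not inside a pair -/
theorem pcs_odd (h : ∀ v, Q v → R.lev v % 2 = 0 → R.Pas pos u blk v) {b : N}
    (hb : R.lev b % 2 = 1) :
    ∀ s ∈ R.pcs u Q, ¬(pos s < pos (inl (u b)) ∧ pos (inl (u b)) ≤ pos (R.pen u s)) := by
  rintro _ ⟨v, a, a', rfl⟩ d
  rw [Tre.pen_par S.pay.uinj a'] at d
  obtain ⟨n, d1, d2⟩ := (h v a a').2 _ d.1.le d.2
  rw [S.geo.bu _ _ d1] at d2
  rcases d2 with rfl | rfl
  · exact lt_irrefl _ d.1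
  · omega

variable [Finite P] [Finite Z]

/-- without exits, a moved tail lies above the start of a token -/
theorem tok (ne : ∀ n, η (prv (u n)) ≠ some (inl (e n 0))) {n : N}
    (h : τ (inl (u n)) ≠ some (inl (u n))) : ∃ s, R.Up s n ∧ Tok prv r u e ell x y τ η s := by
  obtain ⟨s, a, b⟩ := S.src (Or.inl h)
  refine ⟨s, a, b.imp id ?_⟩
  rintro ⟨w, j, hj, d1, d2⟩
  exact ⟨w, j, hj, d1, d2, ne w, (S.entry_src hj d2).resolve_left (ne w)⟩

theorem pcs_t2 (ne : ∀ n, η (prv (u n)) ≠ some (inl (e n 0)))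
    (h : ∀ v, Q v → ∃ s, R.Up s v ∧ τ (inl (u s)) ≠ some (inl (u s))) :
    ∀ s ∈ R.pcs u Q, τ (R.pen u s) = some s := by
  rintro _ ⟨v, a, b, rfl⟩
  obtain ⟨s, d1, d2⟩ := h v a
  rw [Tre.pen_par S.pay.uinj b]
  exact S.tail (Tre.two_le b) (S.climb d1 d2 fun w _ _ => ne w)

omit [Finite P] [Finite Z] in
/-- a node on one of two routes is a start, or belongs to a pair -/
theorem pcs_on {a b n : N} (h : R.Up a n ∨ R.Up b n)
    (h1 : (inl (u n) : P ⊕ Z) ∉ R.pcs u fun v => R.Up a v ∨ R.Up b v)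
    (h2 : ∀ s ∈ R.pcs u fun v => R.Up a v ∨ R.Up b v, (inl (u n) : P ⊕ Z) ≠ R.pen u s) :
    R.lev n % 2 = 1 ∧ (n = a ∨ n = b) := by
  have od : R.lev n % 2 = 1 := by_contra fun d =>
    h2 _ ⟨n, h, by omega, rfl⟩ (Tre.pen_par S.pay.uinj (by omega)).symm
  have k : ∀ a, R.Up a n → (∀ v, R.Up a v → R.Up _ v ∨ R.Up b v) → n = a := fun a h f =>
    h.cases'.resolve_right fun ⟨w, d1, d2, d3⟩ => h1 ⟨w, f w d1, by
      have := R.lev_par w d2
      rw [← d3] at this
      omega, by rw [d3]⟩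
  exact ⟨od, h.imp (k a · fun _ => Or.inl) (k b · fun _ => Or.inr)⟩

/-- an idle moat that is not rotated -/
theorem quiet {n : N} (ne : η (prv (u n)) ≠ some (inl (e n 0)))
    (hx : ∀ i < r, x ≠ some (inl (e n i))) (hy : ∀ i < r, y ≠ some (inl (e n i)))
    (nr : ∃ i < r, τ (inl (e n i)) = some (inl (e n i))) : ∀ i < r,
      η (prv (e n i)) = some (inl (e n i)) ∧ τ (inl (e n i)) = some (inl (e n i)) := by
  obtain ⟨a, b⟩ := (S.geo.moat n).idle S.sta S.ends hx hy ne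
  obtain ⟨j, hj, d⟩ := nr
  exact fun i hi => ⟨a i hi, b.resolve_left (fun f => f j hj d) i hi⟩

variable [Finite N]

/-- **Two tokens on nodes, no exits**: the window from the gap to the upper gap hub is closed. -/
theorem two_high (cam : Cam nxt τ η) (ne : ∀ n, η (prv (u n)) ≠ some (inl (e n 0))) {a b : N}
    (hx : x = some (inl (u a)) ∨ (x = none ∧ a = b)) (hy : y = some (inl (u b)))
    (hb : R.lev b % 2 = 1) (pas : ∀ v, R.Up a v ∨ R.Up b v → R.lev v % 2 = 0 → R.Pas pos u blk v)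
    (h0 : L0 ≠ inl (u b))
    (av : ∀ n v, blk L0 n → R.Up a v ∨ R.Up b v → R.lev v % 2 = 0 → n ≠ R.par v ∧ n ≠ v)
    (ord : R.lev a % 2 = 1 →
      ¬rkey (pos L0) (pos (inl (u a))) < rkey (pos L0) (pos (inl (u b)))) : False := by
  have mx : ∀ n, ∀ i < r, x ≠ some (inl (e n i)) := fun n i hi d => by
    rcases hx with hx | hx
    · exact S.pay.une a n i hi (by simpa using hx.symm.trans d)
    · cases hx.1.symm.trans d
  have my : ∀ n, ∀ i < r, y ≠ some (inl (e n i)) := fun n i hi d =>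
    S.pay.une b n i hi (by simpa using hy.symm.trans d)
  obtain ⟨τ', e', c', D⟩ := S.sta.derot_calm S.geo.moat S.dis S.ends S.cn (fun _ => cam.pcl)
    (fun n h => absurd h (ne n)) (fun n i hi h => absurd h (mx n i hi))
    fun n i hi h => absurd h (my n i hi)
  have S' := S.drt e' c' D
  have cam' := cam.drt D
  have q := fun n => S'.quiet (ne n) (mx n) (my n) (D.not_rot (S.rpos n) n)
  have tb := S'.lose_sn (ne b) (Or.inr (Or.inl hy))
  refine e'.no_win_cyc (hb := some) c' S.sta.cyc (q := inl (u b)) (S.pcs_lt pas) (S.pcs_dis pas)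
    (S.pcs_av pas av) (· = inl (u b)) (by rintro _ rfl; exact ⟨h0.symm, le_rfl, S.pcs_odd pas hb⟩)
    ⟨_, rfl, hy⟩ (fun L _ l h1 h2 => Or.inl ?_) (S'.pcs_t2 ne fun v h => ?_) fun L _ => Or.inl ?_
  · rcases (cam' L).1 with h | ⟨w, rfl⟩
    · exact h
    rcases S.pay.all w with ⟨n, rfl⟩ | ⟨n, i, hi, rfl⟩
    · by_contra h
      obtain ⟨s, d1, d2⟩ := S'.tok ne h
      have d3 : R.Up a n ∨ R.Up b n := by
        rcases d2 with d2 | ⟨w, _, _, _, _, _, i, hi, d2⟩
        · rcases cam'.sn d2 with d2 | d2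
          · rcases hx with hx | hx
            · exact Or.inl (S.pay.uinj (by simpa using hx.symm.trans d2 : u a = u s) ▸ d1)
            · cases hx.1.symm.trans d2
          · exact Or.inr (S.pay.uinj (by simpa using hy.symm.trans d2 : u b = u s) ▸ d1)
        · exact (d2.elim (mx w i hi) (my w i hi)).elim
      obtain ⟨od, rfl | rfl⟩ := S.pcs_on d3 h1 h2
      exacts [ord od l, lt_irrefl _ l]
    · exact (q n i hi).2
  · rcases h with h | h
    · rcases hx with hx | ⟨-, rfl⟩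
      exacts [⟨a, h, S'.lose_sn (ne a) (Or.inl hx)⟩, ⟨a, h, tb⟩]
    · exact ⟨b, h, tb⟩
  · rcases (cam L).2 with h | ⟨w, h⟩
    · exact h
    rw [h, S.sta.eq_prv h]
    rcases S.pay.all w with ⟨n, rfl⟩ | ⟨n, i, hi, rfl⟩
    exacts [S.head (ne n), (q n i hi).1]

end Sit

end Pool.Agent.P.MP_439f1f_co
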