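import Pool.Agent.P.MP_439f1f_co.Sf3

/-!
Safety of the payload, fourth part: the gaps and the windows.
-/

set_option autoImplicit false

namespace Pool.Agent.P.MP_439f1f_co

open Function Sum Relation

variable {P Z β N T : Type*} [LinearOrder β]

/-- one of the tokens `a`, `b` dies -/
def Tre.Die (R : Tre N T) (pos : P ⊕ Z → β) (r : ℕ) (u : N → P) (e : N → ℕ → P) (ell : N → ℕ → N)
    (blk : P ⊕ Z → N → Prop) (kl : N → Prop) (opn : N → ℕ → Prop) (Dn : N → Prop) (a b : N) :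
    Prop :=
  R.Dead kl opn a ∨ R.Dead kl opn b ∨ R.Tt pos r u e ell blk kl opn Dn a b ∨
    R.Tt pos r u e ell blk kl opn Dn b a

/-- the parent of `v` comes before `v`, and only nodes of the same tree lie between them -/
def Tre.Pw (R : Tre N T) (pos : P ⊕ Z → β) (u : N → P) (v : N) : Prop :=
  pos (inl (u (R.par v))) < pos (inl (u v)) ∧ ∀ w, pos (inl (u (R.par v))) ≤ pos (inl (u w)) →
    pos (inl (u w)) ≤ pos (inl (u v)) → R.tree w = R.tree v

/-- First gap of the line of `n`, label `h`: the token at the parent of `n` may leave through an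
open node `v`, which closes the interval from `v` to `n`. -/
def Tre.FnB (R : Tre N T) (pos : P ⊕ Z → β) (r : ℕ) (u : N → P) (e : N → ℕ → P) (ell : N → ℕ → N)
    (blk : P ⊕ Z → N → Prop) (kl : N → Prop) (opn : N → ℕ → Prop) (n h : N) : Prop :=
  2 ≤ R.lev n ∧ R.Alive pos u blk opn h ∧ ((∃ k, R.Up (R.par n) k ∧ kl k) ∨
    ((R.lev n % 2 = 0 → R.Pw pos u n) ∧
      ∀ v, R.Up (R.par n) v → R.lev v % 2 = 0 → R.Pas pos u blk v)) ∧
  ∀ v j, R.Up (R.par n) v → opn v j →
    (∀ w, R.Up (R.par n) w → R.Up w v →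
      pos (inl (u v)) ≤ pos (inl (u w)) ∧ pos (inl (u w)) ≤ pos (inl (u n))) ∧
    (∀ i < r, pos (inl (e v i)) < pos (inl (u v)) ∨ pos (inl (u n)) < pos (inl (e v i))) ∧
    ∀ w, R.Up h w ∨ R.Up (ell v j) w →
      pos (inl (u w)) < pos (inl (u v)) ∨ pos (inl (u n)) < pos (inl (u w))

/-- First gap of the line of `n`, label `h`: the token at `h` may leave through an open node `v`
towards a label that comes after the route and the moat. -/
def Tre.FnC (R : Tre N T) (pos : P ⊕ Z → β) (r : ℕ) (u : N → P) (e : N → ℕ → P) (ell : N → ℕ → N)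
    (blk : P ⊕ Z → N → Prop) (kl : N → Prop) (opn : N → ℕ → Prop) (n h : N) : Prop :=
  (2 ≤ R.lev n → R.Alive pos u blk opn (R.par n)) ∧ (R.lev n % 2 = 0 → R.Pw pos u n) ∧
  R.Rte pos u blk kl h ∧ ∀ v k, R.Up h v → opn v k →
    R.Alive pos u blk opn (ell v k) ∧ R.lev (ell v k) % 2 = 1 ∧ R.tree (ell v k) ≠ R.tree n ∧
    (∀ w, R.Up h w → rkey (pos (inl (u n))) (pos (inl (u w))) <
      rkey (pos (inl (u n))) (pos (inl (u (ell v k))))) ∧
    ∀ i < r, rkey (pos (inl (u n))) (pos (inl (e v i))) <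
      rkey (pos (inl (u n))) (pos (inl (u (ell v k))))

variable {R : Tre N T} {m : ℕ} {hang : P ⊕ Z → ℕ → Option (P ⊕ Z) → Prop}
  {tB : P ⊕ Z → Option (P ⊕ Z)} {hO : P → Option (P ⊕ Z)} {prv : P → P ⊕ Z}
  {nxt : Equiv.Perm (P ⊕ Z)} {pos : P ⊕ Z → β} {r : ℕ} {u : N → P} {e : N → ℕ → P}
  {ell : N → ℕ → N} {p : N → ℕ} {kl : N → Prop} {blk : P ⊕ Z → N → Prop}
  {x y : Option (P ⊕ Z)} {τ τ' η : P ⊕ Z → Option (P ⊕ Z)} {L0 : P ⊕ Z} {Dn Q : N → Prop}
  {opn : N → ℕ → Prop}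

theorem Tre.Pas.pw {v : N} (h : R.Pas pos u blk v) (l : R.lev v % 2 = 0)
    (bu : ∀ n n', blk (inl (u n)) n' → n' = n) : R.Pw pos u v :=
  ⟨h.1, fun _ a b => let ⟨_, d, f⟩ := h.2 _ a b; bu _ _ d ▸ f.elim
    (fun f => f ▸ R.tree_par v (Tre.two_le l)) fun f => f ▸ rfl⟩

namespace Sit

variable [Finite P] [Finite Z] [Finite N]
  (S : Sit R m hang tB hO prv nxt pos r u e ell p kl blk x y τ η L0 Dn)
  (E : Exi R nxt pos r u e ell p kl opn x y τ η L0 Dn)

include S

omit [Finite N] in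
/-- one token in a tree: one exit above it, and no moved tail above the exit -/
theorem sole {s v : N} (c0 : En (P ⊕ Z)) (v1 : R.Up s v) (he : η (prv (u v)) = some (inl (e v 0)))
    (hc : ∀ (f : En (P ⊕ Z)) n, R.tree n = R.tree s → f.hub x y τ η = some (inl (u n)) →
      (f = .lo ∨ f = .hi ∨ (∃ z, f = .tl (inr z)) ∨
        ∃ n', ∃ k < r, f = .hd (prv (e n' k)) ∧ n = ell n' k) → f = c0) :
    (∀ n, R.Up s n → η (prv (u n)) = some (inl (e n 0)) → n = v) ∧
      ∀ n, R.Up s n → τ (inl (u n)) ≠ some (inl (u n)) → 2 ≤ R.lev n ∧ R.Up (R.par n) v := by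
  have r0 := S.rpos v
  have two : ∀ n, R.Up s n → ∀ a : En (P ⊕ Z), ∀ w, R.Up w n → R.Up v n →
      a.hub none none some (fun L => some (nxt L)) = some (inl (u w)) →
      (∀ n', R.Up n' n → a.hub x y τ η ≠ some (inl (u n'))) → a = .hd (prv (u v)) :=
    fun n f a w g1 g2 g3 g4 => by_contra fun d => by
      obtain ⟨c, d, cd, g⟩ := S.two_in (V := fun n' => R.Up n' n) (fun _ l g => g.kid l) d g1 g2 g3
        g4 (congrArg some (S.sta.nprv _)) fun n' _ g => S.u_ne g v 0 r0 he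
      have k : ∀ b, b = c ∨ b = d → b = c0 := fun b hb =>
        let ⟨n', g1, g2, g3⟩ := g b hb
        hc b n' (g1.tree.symm.trans f.tree) g2 g3
      exact cd ((k c (Or.inl rfl)).trans (k d (Or.inr rfl)).symm)
  refine ⟨fun n d2 d => ?_, fun n f d => ?_⟩
  · have k := fun w f g1 g2 => S.pay.uinj (S.prv_inj (En.hd.inj (two w f (.hd (prv (u n))) n g1 g2
      (congrArg some (S.sta.nprv _)) fun n' _ g => S.u_ne g n 0 r0 d)))
    exact (v1.total d2).elim (k n d2 Tre.Up.refl) fun g => k v v1 g Tre.Up.refl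
  · have k : ¬R.Up v n := fun g => by
      cases two n f (.tl (inl (u n))) n Tre.Up.refl g rfl fun n' g' d' => by
        rcases (R.one n).eq_or_lt with l | l
        · cases (S.pay.tB1 n l.symm ▸ ((S.sta.tl _ _).1 (S.ends.ht _)).resolve_left d).symm.trans d'
        · have := (S.u_eq d' (S.tail l d) ▸ g').lev_le
          have := R.lev_par n l
          omega
    exact ((f.total v1).resolve_right k).cases.resolve_left fun g => k (g ▸ Tre.Up.refl)

include E

theorem die_false {a b : N} (h : R.Die pos r u e ell blk kl opn Dn a b)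
    (hD : ∀ n, Dn n → (R.tree n ≠ R.tree a ∨ R.lev a < R.lev n) ∧
      (R.tree n ≠ R.tree b ∨ R.lev b < R.lev n))
    (ha : Sn x y τ (u a) ∨ ∃ n, ∃ k < r, a = ell n k ∧ η (prv (e n k)) ≠ some (inl (e n k)))
    (hb : Sn x y τ (u b) ∨ ∃ n, ∃ k < r, b = ell n k ∧ η (prv (e n k)) ≠ some (inl (e n k)))
    (ot : ∀ t, Tok prv r u e ell x y τ η t → t = a ∨ t = b) : False := by
  rcases h with h | h | h | h
  · exact S.dead_false E h (fun n d => (hD n d).1) ha
  · exact S.dead_false E h (fun n d => (hD n d).2) hb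
  · exact S.tt_false E h ha ot
  · exact S.tt_false E h hb fun t d => (ot t d).symm

/-- **Both gap hubs are labels.** -/
theorem pair_false (cam : Cam nxt τ η) {a b : N} (hx : x = some (inl (u a)))
    (hy : y = some (inl (u b))) (hb : R.lev b % 2 = 1) (hL : ∀ n, blk L0 n → Dn n)
    (hD : ∀ n, Dn n → R.tree n ≠ R.tree a ∧ R.tree n ≠ R.tree b)
    (adm : R.Die pos r u e ell blk kl opn Dn a b ∨ (R.Alive pos u blk opn a ∧
      R.Alive pos u blk opn b ∧
      ¬rkey (pos L0) (pos (inl (u a))) < rkey (pos L0) (pos (inl (u b))))) : False := by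
  have tk : ∀ s, Tok prv r u e ell x y τ η s → s = a ∨ s = b := by
    rintro s (d | ⟨n, _, _, _, _, _, i, hi, d⟩)
    · exact (cam.sn d).imp (S.u_eq · hx) (S.u_eq · hy)
    · exact (d.elim (S.u_ne hx n i hi) (S.u_ne hy n i hi)).elim
  rcases adm with h | ⟨h1, h2, h3⟩
  · exact S.die_false E h (fun n d => ⟨Or.inl (hD n d).1, Or.inl (hD n d).2⟩) (Or.inl (Or.inl hx))
      (Or.inl (Or.inr (Or.inl hy))) tk
  refine S.two_high cam (S.no_exits E fun s w d f => (tk s d).elim (fun g => (h1 w (g ▸ f)).1)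
    fun g => (h2 w (g ▸ f)).1) (Or.inl hx) hy hb
    (fun v h => h.elim (fun h => (h1 v h).2) fun h => (h2 v h).2)
    (fun h => (hD b (hL b (h ▸ S.geo.bs b))).2 rfl) (fun n v d f g => ?_) fun _ => h3
  have k : R.tree v ≠ R.tree n := fun k => f.elim
    (fun f => (hD n (hL n d)).1 (k.symm.trans f.tree)) fun f =>
      (hD n (hL n d)).2 (k.symm.trans f.tree)
  exact ⟨fun l => k (by rw [l, R.tree_par v (Tre.two_le g)]), fun l => k (by rw [l])⟩

/-- **First gap of a moat line.** -/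
theorem fmoat_false (cam : Cam nxt τ η) {n0 h : N} {i : ℕ} (hi : i < r) (h0 : L0 = inl (e n0 i))
    (hx : x = tB L0) (ht : τ L0 = some L0) (hy : y = some (inl (u h))) (hD : ∀ n, Dn n → n = n0)
    (tr : R.tree n0 ≠ R.tree h)
    (adm : ∀ k < r, el r (p n0) i < el r (p n0) k ∨ (k = i ∧ el r (p n0) i % 2 = 1) →
      R.Die pos r u e ell blk kl opn Dn h (ell n0 k)) : False := by
  subst h0 hx
  have hx := (S.geo.moat n0).tBe i hi
  obtain ⟨k, -, b1, b2⟩ := (S.geo.moat n0).first_gap S.sta hi S.ends S.cn ht (S.u_ne hy n0)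
    (fun he => (S.exit_cln E he).hx _ (sc_lt' hi) hx) fun L _ _ d => cam.pcl d
  refine S.die_false E (adm k b2.1 b1) (fun n d => by
    obtain rfl := hD n d
    exact ⟨Or.inl tr, Or.inl (S.pay.hx n k b2.1).symm⟩) (Or.inl (Or.inr (Or.inl hy)))
    (Or.inr ⟨n0, k, b2.1, rfl, b2.2.1⟩) ?_
  rintro s (d | ⟨n, j, hj, rfl, d1, -, i', hi', d⟩)
  · exact Or.inl ((cam.sn d).elim (fun d => (S.u_ne d n0 _ (sc_lt' hi) hx).elim) (S.u_eq · hy))
  · obtain rfl := S.dis n n0 i' hi' _ (sc_lt' hi)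
      (by simpa using (d.resolve_right (S.u_ne hy n i' hi')).symm.trans hx)
    exact Or.inr (by rw [by_contra fun f => d1 (b2.2.2.1 j hj f)])

/-- **Last gap of the line into a node.** -/
theorem lnode_false (cam : Cam nxt τ η) {n0 z : N} (h0 : L0 = prv (u n0))
    (hη : η L0 = some (inl (u n0))) (hx : x = some (inl (u z))) (hy : y = some (inl (e n0 0)))
    (hD : ∀ n, Dn n → n = n0) (tr : R.tree n0 ≠ R.tree z) (hz : R.lev z % 2 = 1)
    (adm : ∀ k < r, R.Die pos r u e ell blk kl opn Dn z (ell n0 k) ∨ (R.Alive pos u blk opn z ∧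
      R.Alive pos u blk opn (ell n0 k) ∧ ((Front pos r (p n0) (u n0) (e n0) ∧ k ≤ p n0 ∧
        ¬rkey (pos (inl (u n0))) (pos (inl (u (ell n0 k)))) <
          rkey (pos (inl (u n0))) (pos (inl (u z)))) ∨ (Back pos (p n0) (u n0) (e n0) ∧ 1 ≤ k)))) :
    False := by
  have r0 := S.rpos n0
  have G := S.geo.moat n0
  have ne0 : η (prv (u n0)) ≠ some (inl (e n0 0)) := h0 ▸ S.u_ne hη n0 0 r0
  have my : ∀ n, ∀ i < r, y = some (inl (e n i)) → n = n0 ∧ i = 0 := fun n i hi d =>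
    S.pay.dis n n0 i hi 0 r0 (by simpa using d.symm.trans hy)
  obtain ⟨τ', e', c', D⟩ := S.sta.derot_calm S.geo.moat S.dis S.ends S.cn (fun _ => cam.pcl)
    (fun n => S.exit_cln E) (fun n i hi h => absurd h (S.u_ne hx n i hi))
    fun n i hi h => ⟨(my n i hi h).2, (my n i hi h).1 ▸ h0⟩
  have S' := S.drt e' c' D
  have cam' := cam.drt D
  obtain ⟨k, B⟩ := G.arc_y S.sta e' r0 hy (S.u_ne hx n0) ne0
  have hk := B.1
  have tx := S.pay.hx n0 k hk
  have tk : ∀ τ1, Cam nxt τ1 η → ∀ s, Tok prv r u e ell x y τ1 η s → s = z ∨ s = ell n0 k := by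
    rintro τ1 c1 s (d | ⟨n, j, hj, rfl, d1, -, i, hi, d⟩)
    · exact (c1.sn d).elim (fun d => Or.inl (S.u_eq d hx)) fun d =>
        absurd hy (S.u_ne d n0 0 r0)
    · obtain rfl := (my n i hi (d.resolve_left (S.u_ne hx n i hi))).1
      exact Or.inr (by rw [by_contra fun f => d1 (B.2.2.1 j hj f)])
  rcases adm k hk with a | ⟨a1, a2, a3⟩
  · exact S.die_false E a (fun n d => by obtain rfl := hD n d; exact ⟨Or.inl tr, Or.inl tx.symm⟩)
      (Or.inl (Or.inl hx)) (Or.inr ⟨n0, k, hk, rfl, B.2.1⟩) (tk τ cam)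
  have ne := S.no_exits E fun s w d f => (tk τ cam s d).elim (fun g => (a1 w (g ▸ f)).1)
    fun g => (a2 w (g ▸ f)).1
  have onr : ∀ n, τ' (inl (u n)) ≠ some (inl (u n)) → R.Up z n ∨ R.Up (ell n0 k) n := fun n h =>
    let ⟨s, d1, d2⟩ := S'.tok ne h
    (tk τ' cam' s d2).elim (fun g => Or.inl (g ▸ d1)) fun g => Or.inr (g ▸ d1)
  have ot : ∀ v, R.Up z v ∨ R.Up (ell n0 k) v → R.tree v ≠ R.tree n0 := fun v h =>
    h.elim (fun h => h.tree ▸ tr.symm) fun h => h.tree ▸ tx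
  have hd : ∀ L, L ≠ prv (e n0 k) → η L = some (nxt L) := fun L d => by
    rcases (cam L).2 with h | ⟨w, h⟩
    · exact h
    rw [S.sta.eq_prv h] at d
    rw [h, S.sta.eq_prv h]
    rcases S.pay.all w with ⟨n, rfl⟩ | ⟨n, i, hi, rfl⟩
    · exact S.head (ne n)
    · by_cases f : n = n0
      · subst f
        exact B.2.2.1 i hi fun g => d (g ▸ rfl)
      · exact (((S.geo.moat n).idle S.sta S.ends (S.u_ne hx n)
          (fun i hi g => f (my n i hi g).1) (ne n)).1 i hi)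
  rcases a3 with ⟨fr, kp, ord⟩ | ⟨⟨p0, b1, b2⟩, k1⟩
  · have pas : ∀ v, R.Up z v ∨ R.Up (ell n0 k) v → R.lev v % 2 = 0 → R.Pas pos u blk v :=
      fun v h => h.elim (fun h => (a1 v h).2) fun h => (a2 v h).2
    have mo : ∀ i ≤ k, pos (inl (e n0 k)) ≤ pos (inl (e n0 i)) ∧
        pos (inl (e n0 i)) ≤ pos (inl (u n0)) := fun i hi => by
      have d1 := G.pos_le (n := el r (p n0) k) (k := el r (p n0) i) (by unfold el; split_ifs <;> omega)
        (el_lt G.plt (by omega))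
      have d2 := G.pos_le (n := el r (p n0) i) (k := r - 1)
        (by have := el_lt G.plt (show i < r by omega); omega) (by omega)
      rw [el_el G.plt (by omega)] at d2
      rw [el_el G.plt hk, el_el G.plt (by omega)] at d1
      exact ⟨d1, d2.trans fr.1.le⟩
    have ku := (mo k le_rfl).2
    have out : ∀ v, R.tree v ≠ R.tree n0 →
        pos (inl (u v)) < pos (inl (e n0 k)) ∨ pos (inl (u n0)) < pos (inl (u v)) := fun v h => by
      by_contra d
      push Not at d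
      have d1 := G.first_le (el_lt G.plt hk)
      rw [el_el G.plt hk] at d1
      refine h (congrArg _ (S.geo.bu _ _ (S.geo.bm n0 _ (d1.trans d.1) (Or.inr ⟨fr,
        lt_of_le_of_ne d.2 fun f => h ?_⟩))).symm)
      rw [S.pay.uinj (inl_injective (S.sta.cyc.inj trivial trivial f))]
    have oz := out z tr.symm
    have np : ∀ L, (∀ n', blk L n' → n' = n0) → ∀ s ∈ R.pcs u fun v => R.Up z v ∨ R.Up (ell n0 k) v,
        ¬(pos s < pos L ∧ pos L ≤ pos (R.pen u s)) := fun L h s hs d =>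
      (S.pcs_tree pas h ot s hs).elim d.1.not_gt d.2.not_gt
    refine e'.no_win_both (hb := some) c' S.sta.cyc (n := inl (e n0 k)) (q := inl (u z))
      (S.pcs_lt pas) (S.pcs_dis pas) (S.pcs_tree pas (fun n' => S.geo.be _ _ k hk) ot)
      (fun w => w = inl (u z) ∨ w = inl (u n0) ∨ ∃ i ≤ k, w = inl (e n0 i)) ?_
      ⟨_, Or.inl rfl, hx⟩ ⟨_, Or.inr (Or.inr ⟨0, Nat.zero_le _, rfl⟩), hy⟩
      ⟨_, Or.inr (Or.inl rfl), hη⟩ (fun L l h1 h2 => ?_) (S'.pcs_t2 ne fun v h => ?_)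
      fun L l _ => hd L ?_
    · rintro _ (rfl | rfl | ⟨i, hi, rfl⟩)
      · exact ⟨le_rfl, S.pcs_odd pas hz⟩
      · exact ⟨(rkey_mid ku le_rfl oz).le, np _ (S.geo.bu _)⟩
      · exact ⟨(rkey_mid (mo i hi).1 (mo i hi).2 oz).le, np _ fun n' => S.geo.be _ _ i (by omega)⟩
    · rcases (cam' L).1 with h | ⟨w, rfl⟩
      · exact Or.inl h
      rcases S.pay.all w with ⟨n, rfl⟩ | ⟨n, i, hi, rfl⟩
      · refine Or.inl (by_contra fun h => ?_)
        obtain ⟨-, rfl | rfl⟩ := S.pcs_on (onr n h) h1 h2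
        exacts [lt_irrefl _ l, ord ((rkey_out ku (out _ tx) oz).1 l)]
      by_cases f : n = n0
      · subst f
        refine or_iff_not_imp_left.2 fun h => ?_
        have ik := (B.zero (D.not_rot r0 n) i hi).1 h
        refine ⟨_, Or.inr (Or.inr ⟨i + 1, ik, rfl⟩), ?_⟩
        rw [((S.sta.tl _ _).1 (e'.ht _)).resolve_left h, G.tBe i hi, sc, if_neg (by omega)]
      · exact Or.inl (S'.quiet (ne n) (S.u_ne hx n) (fun i hi g => f (my n i hi g).1)
          (D.not_rot r0 n) i hi).2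
    · exact h.elim (fun h => ⟨z, h, S'.lose_sn (ne z) (Or.inl hx)⟩)
        fun h => ⟨_, h, S'.lose_en hk B.2.1 (ne _)⟩
    · rintro rfl
      have := ((S.sta.cyc.rot (inl (e n0 k))).succ _ trivial _ trivial l).1
      rw [S.sta.nprv] at this
      exact absurd this rkey_min.not_gt
  · have o := S.sta.cyc
    have pre : ∀ L, pos (inl (u n0)) ≤ pos (nxt L) → pos (nxt L) ≤ pos (inl (e n0 0)) → L ≠ L0 →
        pos (inl (u n0)) ≤ pos L ∧ pos L < pos (inl (e n0 0)) := fun L l1 l2 d => by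
      have l3 : pos (inl (u n0)) < pos (nxt L) := lt_of_le_of_ne l1 fun f =>
        d (h0 ▸ S.sta.eq_prv (o.inj trivial trivial f).symm)
      rcases o.cases (u := L) trivial with ⟨g1, g2⟩ | ⟨-, g2⟩
      · exact ⟨(g2 _ trivial).resolve_right l3.not_ge |>.trans' le_rfl, g1.trans_le l2⟩
      · exact absurd (g2 _ trivial) l3.not_ge
    refine e'.no_pre_high (hb := some) c' nxt.surjective
      (W := {w | pos (inl (u n0)) ≤ pos w ∧ pos w ≤ pos (inl (e n0 0))}) ⟨_, le_rfl, b1.le⟩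
      (fun L l d => ⟨L, ⟨(pre L l.1 l.2 d).1, (pre L l.1 l.2 d).2.le⟩, .symm ?_⟩)
      (fun L l => Or.inl (hd L ?_)) fun _ => ⟨_, ⟨b1.le, le_rfl⟩, hy.symm⟩
    · rcases (cam' L).1 with h | ⟨w, rfl⟩
      · exact h
      obtain ⟨l1, l2⟩ := pre _ l.1 l.2 d
      rw [← o.inj trivial trivial (l1.eq_or_lt.resolve_right fun f => absurd (b2 w f) l2.not_ge)]
      exact by_contra fun h => ot n0 (onr n0 h) rfl
    · rintro rfl
      have d1 := G.pos_mono (n := 0) (k := el r (p n0) k) (by unfold el; split_ifs <;> omega)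
        (el_lt G.plt hk)
      rw [el_el G.plt hk, el_zero, p0] at d1
      have l2 := l.2
      rw [S.sta.nprv] at l2
      exact absurd d1 l2.not_gt

/-- **First gap of a node line.** -/
theorem fnode_false (cam : Cam nxt τ η) {n0 h : N} (h0 : L0 = inl (u n0)) (hx : x = tB L0)
    (hy : y = some (inl (u h))) (hD : ∀ n, Dn n → n = n0) (tr : R.tree n0 ≠ R.tree h)
    (hh : R.lev h % 2 = 1)
    (adm : (R.lev n0 = 1 ∧ R.Die pos r u e ell blk kl opn Dn h h) ∨
      (2 ≤ R.lev n0 ∧ R.Die pos r u e ell blk kl opn Dn (R.par n0) h) ∨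
      R.FnB pos r u e ell blk kl opn n0 h ∨ R.FnC pos r u e ell blk kl opn n0 h) : False := by
  subst h0
  have x2 : 2 ≤ R.lev n0 → x = some (inl (u (R.par n0))) := fun l => hx.trans (S.pay.tB2 n0 l)
  have x1 : ¬2 ≤ R.lev n0 → x = none := fun l =>
    hx.trans (S.pay.tB1 n0 (by have := R.one n0; omega))
  have xu : ∀ s, x = some (inl (u s)) → 2 ≤ R.lev n0 ∧ s = R.par n0 := fun s d => by
    by_cases l : 2 ≤ R.lev n0
    · exact ⟨l, S.u_eq d (x2 l)⟩
    · cases (x1 l).symm.trans d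
  have mx : ∀ n, ∀ i < r, x ≠ some (inl (e n i)) := fun n i hi d => by
    by_cases l : 2 ≤ R.lev n0
    · exact S.u_ne (x2 l) n i hi d
    · cases (x1 l).symm.trans d
  have my := S.u_ne hy
  -- the second route, the order condition and the position of the gap
  have two : (R.lev n0 % 2 = 0 → R.Pw pos u n0) →
      (2 ≤ R.lev n0 → ∀ v, R.Up (R.par n0) v → R.lev v % 2 = 0 → R.Pas pos u blk v) →
      ∀ b, R.tree b ≠ R.tree n0 → (∀ v, R.Up b v → R.lev v % 2 = 0 → R.Pas pos u blk v) →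
      ∃ a, (x = some (inl (u a)) ∨ (x = none ∧ a = b)) ∧
        (∀ v, R.Up a v ∨ R.Up b v → (R.lev v % 2 = 0 → R.Pas pos u blk v) ∧
          (R.tree v = R.tree n0 ∨ R.tree v = R.tree b)) ∧
        (∀ n v, blk (inl (u n0)) n → R.Up a v ∨ R.Up b v → R.lev v % 2 = 0 →
          n ≠ R.par v ∧ n ≠ v) ∧ (R.lev a % 2 = 1 → ¬rkey (pos (inl (u n0))) (pos (inl (u a))) <
          rkey (pos (inl (u n0))) (pos (inl (u b)))) := fun a0 a1 b tb pb => by
    have k : ∀ n v, blk (inl (u n0)) n → R.Up b v → R.lev v % 2 = 0 → n ≠ R.par v ∧ n ≠ v :=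
      fun n v d f g => S.geo.bu _ _ d ▸ ⟨fun l => tb (by
        rw [l, R.tree_par v (Tre.two_le g), f.tree]), fun l => tb (by rw [l, f.tree])⟩
    by_cases l : 2 ≤ R.lev n0
    · have l' := R.lev_par n0 l
      refine ⟨_, Or.inl (x2 l), fun v f => f.elim (fun f => ⟨a1 l v f,
        Or.inl (f.tree.trans (R.tree_par _ l))⟩) fun f => ⟨pb v f, Or.inr f.tree⟩,
        fun n v d f g => f.elim (fun f => ?_) fun f => k n v d f g, fun od lt => ?_⟩
      · have := f.lev_le
        have := R.lev_par v (Tre.two_le g)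
        rw [S.geo.bu _ _ d]
        constructor <;> rintro rfl <;> omega
      · obtain ⟨d1, d2⟩ := a0 (by omega)
        rw [rkey_lt] at lt
        exact tb (d2 b (by grind) (by grind))
    · exact ⟨b, Or.inr ⟨x1 l, rfl⟩, fun v f => ⟨pb v (f.elim id id), Or.inr (f.elim id id).tree⟩,
        fun n v d f => k n v d (f.elim id id), fun _ => lt_irrefl _⟩
  have tk : ∀ s, Tok prv r u e ell x y τ η s → (2 ≤ R.lev n0 ∧ s = R.par n0) ∨ s = h := by
    rintro s (d | ⟨w, _, _, _, _, _, i, hi, d⟩)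
    · exact (cam.sn d).imp (xu s) (S.u_eq · hy)
    · exact (d.elim (mx w i hi) (my w i hi)).elim
  have sh : Sn x y τ (u h) := Or.inr (Or.inl hy)
  have en : ∀ n, ∀ j < r, η (prv (e n j)) ≠ some (inl (e n j)) →
      η (prv (u n)) = some (inl (e n 0)) := fun n j hj d =>
    (S.entry_src hj d).resolve_right fun ⟨i, hi, f⟩ => f.elim (mx n i hi) (my n i hi)
  have kil : (∀ n, η (prv (u n)) ≠ some (inl (e n 0))) → ∀ a k, R.Up a k → kl k → Sn x y τ (u a) →
      R.tree n0 ≠ R.tree a ∨ R.lev a < R.lev n0 → False := fun ne a k b1 b2 b3 b4 =>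
    S.dead b1 b2 (S.lose_sn · b3) (fun w _ _ => ne w) fun n d => ⟨fun f => by
      obtain rfl := hD n f
      have := d.lev (S.geo.kill k b2).1
      have := b1.lev_le
      exact b4.elim (fun g => g ((d.tree (S.geo.kill k b2).1).trans b1.tree)) (by omega), ne n⟩
  have hi2 : (∀ n, η (prv (u n)) ≠ some (inl (e n 0))) →
      (R.lev n0 % 2 = 0 → R.Pw pos u n0) →
      (2 ≤ R.lev n0 → ∀ v, R.Up (R.par n0) v → R.lev v % 2 = 0 → R.Pas pos u blk v) →
      (∀ v, R.Up h v → R.lev v % 2 = 0 → R.Pas pos u blk v) → False := fun ne a0 a1 a3 => by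
    obtain ⟨a, b1, b2, b3, b4⟩ := two a0 a1 h tr.symm a3
    exact S.two_high cam ne b1 hy hh (fun v f => (b2 v f).1)
      (fun f => tr (by rw [S.pay.uinj (inl_injective f)])) b3 b4
  have so : ∀ s v k, R.Up s v → η (prv (u v)) = some (inl (e v 0)) →
      Can pos r (p v) (u v) (e v) k → ∀ c0 : En (P ⊕ Z),
      (∀ n, R.tree n = R.tree s → x = some (inl (u n)) → .lo = c0) →
      (∀ n, R.tree n = R.tree s → y = some (inl (u n)) → .hi = c0) →
      (∀ n, R.Up s n → η (prv (u n)) = some (inl (e n 0)) → n = v) ∧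
        ∀ n, R.Up s n → τ (inl (u n)) ≠ some (inl (u n)) → 2 ≤ R.lev n ∧ R.Up (R.par n) v :=
    fun s v k hv he c1 c0 b1 b2 => S.sole c0 hv he (by
      rintro f n t g (rfl | rfl | ⟨z, rfl⟩ | ⟨w, j, hj, rfl, rfl⟩)
      · exact b1 n t g
      · exact b2 n t g
      · rcases (cam (inr z)).1 with d | ⟨_, d⟩
        · cases d.symm.trans g
        · cases d
      · have f := S.u_ne g w j hj
        obtain ⟨j', g1, -, g2, -⟩ := S.exit_nf E (en w j hj f)
        obtain rfl : j = j' := by_contra fun g => f (g2.2.2.1 j hj g)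
        exact absurd c1 (E.s1 w j g1 v (hv.tree.trans t.symm) k))
  obtain ⟨τ', e', c', D⟩ := S.sta.derot_calm S.geo.moat S.dis S.ends S.cn (fun _ => cam.pcl)
    (fun n => S.exit_cln E) (fun n i hi h => absurd h (mx n i hi))
    fun n i hi h => absurd h (my n i hi)
  have S' := S.drt e' c' D
  have cam' := cam.drt D
  have ou : ∀ n, τ' (inl (u n)) = τ (inl (u n)) := fun n => D.out _ fun n' i hi h =>
    S.pay.une _ _ i hi (inl_injective h)
  rcases adm with ⟨l, a⟩ | ⟨l, a⟩ | ⟨l, a1, a2, a4⟩ | ⟨a1, a2, a3, a4⟩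
  · exact S.die_false E a (fun n d => by obtain rfl := hD n d; exact ⟨Or.inl tr, Or.inl tr⟩)
      (Or.inl sh) (Or.inl sh) fun t d => Or.inl ((tk t d).resolve_left (by omega))
  · refine S.die_false E a (fun n d => ?_) (Or.inl (Or.inl (x2 l))) (Or.inl sh)
      fun t d => (tk t d).imp And.right id
    obtain rfl := hD n d
    have := R.lev_par n l
    exact ⟨Or.inr (by omega), Or.inl tr⟩
  · have l' := R.lev_par n0 l
    by_cases ne : ∀ n, η (prv (u n)) ≠ some (inl (e n 0))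
    · exact a2.elim (fun ⟨k, b1, b2⟩ => kil ne _ k b1 b2 (Or.inl (x2 l)) (Or.inr (by omega)))
        fun a2 => hi2 ne a2.1 (fun _ => a2.2) fun v f => (a1 v f).2
    have ex : ∀ v, η (prv (u v)) = some (inl (e v 0)) → ∃ k, Can pos r (p v) (u v) (e v) k ∧
        opn v k ∧ Cross prv τ η r (e v) k 0 ∧ R.Up (R.par n0) v := fun v he =>
      let ⟨k, b1, b2, b3, s, b4, b5⟩ := S.exit_nf E he
      ⟨k, b1, b2, b3, (tk s b5).elim (fun d => d.2 ▸ b4) fun d =>
        absurd b2 ((a1 v (d ▸ b4)).1 k)⟩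
    push Not at ne
    obtain ⟨v, he⟩ := ne
    obtain ⟨k, c1, c2, B, hv⟩ := ex v he
    have r0 := S.rpos v
    obtain ⟨u1, u2⟩ := so _ v k hv he c1 .lo (fun _ _ _ => rfl) fun n t g =>
      (tr (by rw [← S.u_eq g hy, t, R.tree_par _ l])).elim
    have uq : ∀ n, η (prv (u n)) = some (inl (e n 0)) → n = v := fun n d =>
      let ⟨_, _, _, _, f⟩ := ex n d; u1 n f d
    obtain ⟨x1, x3, x4⟩ := a4 v k hv c2
    have o := S.sta.cyc
    refine e'.no_img_low c' (U := {L | pos (inl (u v)) ≤ pos L ∧ pos L ≤ pos (inl (u n0))})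
      ⟨_, x1 v hv Tre.Up.refl⟩ some (fun L b => ?_) (fun L b d => ?_)
      fun _ => ⟨_, x1 _ Tre.Up.refl hv, (x2 l).symm⟩
    · by_cases d : τ' L = some L
      · exact ⟨L, b, d.symm⟩
      obtain ⟨w, rfl⟩ := (cam' L).1.resolve_left d
      rcases S.pay.all w with ⟨n, rfl⟩ | ⟨n, i, hi, rfl⟩
      · have g : R.Up (R.par n0) n := by
          have nk : ¬(R.Up h n ∨ R.Up (ell v k) n) := fun g =>
            (x4 n g).elim b.1.not_gt b.2.not_gt
          obtain ⟨s, d1, d2 | ⟨w, j, hj, rfl, d2⟩⟩ := S'.src (Or.inl d)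
          · exact (cam'.sn d2).elim (fun d2 => S.u_eq d2 (x2 l) ▸ d1) fun d2 =>
              (nk (Or.inl (S.u_eq d2 hy ▸ d1))).elim
          · obtain rfl := uq w (en w j hj d2)
            obtain rfl : j = k := by_contra fun g => d2 (B.2.2.1 j hj g)
            exact (nk (Or.inr d1)).elim
        obtain ⟨g1, g2⟩ := u2 n g (ou n ▸ d)
        exact ⟨_, x1 _ (g.par g1) g2, (S'.tail g1 d).symm⟩
      · obtain rfl : n = v := by_contra fun f => d (S'.quiet (fun g => f (uq n g)) (mx n) (my n)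
          (D.not_rot r0 n) i hi).2
        exact ((x3 i hi).elim b.1.not_gt b.2.not_gt).elim
    · obtain ⟨s1, s2⟩ := o.succ L trivial _ trivial
        (lt_of_le_of_ne b.2 fun f => d (o.inj trivial trivial f))
      refine ⟨nxt L, ⟨b.1.trans s1.le, s2⟩, .symm ?_⟩
      rcases (cam L).2 with f | ⟨w, f⟩
      · exact f
      rw [f] at s1 s2 ⊢
      rw [S.sta.eq_prv f]
      by_contra g
      rcases S.pay.all w with ⟨n, rfl⟩ | ⟨n, i, hi, rfl⟩
      · obtain rfl : n = v := uq n (by_contra fun f => g (S.head f))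
        exact absurd s1 b.1.not_gt
      · obtain rfl := uq n (en n i hi g)
        exact (x3 i hi).elim (b.1.trans s1.le).not_gt s2.not_gt
  have a5 := fun l v f => (a1 l v f).2
  by_cases ne : ∀ n, η (prv (u n)) ≠ some (inl (e n 0))
  · exact a3.elim (fun ⟨k, b1, b2⟩ => kil ne _ k b1 b2 sh (Or.inl tr)) (hi2 ne a2 a5)
  have ex : ∀ v, η (prv (u v)) = some (inl (e v 0)) → ∃ k, Can pos r (p v) (u v) (e v) k ∧
      opn v k ∧ Cross prv τ η r (e v) k 0 ∧ R.Up h v := fun v he =>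
    let ⟨k, b1, b2, b3, s, b4, b5⟩ := S.exit_nf E he
    ⟨k, b1, b2, b3, (tk s b5).elim (fun d => absurd b2 ((a1 d.1 v (d.2 ▸ b4)).1 k))
      fun d => d ▸ b4⟩
  push Not at ne
  obtain ⟨v, he⟩ := ne
  obtain ⟨k, c1, c2, B, hv⟩ := ex v he
  have hk := B.1
  have r0 := S.rpos v
  obtain ⟨u1, u2⟩ := so _ v k hv he c1 .hi (fun n t g => (tr (by
    rw [← t, (xu n g).2, R.tree_par _ (xu n g).1])).elim) fun _ _ _ => rfl
  have uq : ∀ n, η (prv (u n)) = some (inl (e n 0)) → n = v := fun n d =>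
    let ⟨_, _, _, _, f⟩ := ex n d; u1 n f d
  obtain ⟨x3, x4, x5, x6, x7⟩ := a4 v k hv c2
  have tx : R.tree (ell v k) ≠ R.tree h := hv.tree ▸ S.pay.hx v k hk
  obtain ⟨a, b1, b2, b3, b4⟩ := two a2 a5 _ x5 fun w f => (x3 w f).2
  have th : ∀ w, R.Up a w ∨ R.Up (ell v k) w → R.tree w ≠ R.tree h := fun w f =>
    (b2 w f).2.elim (fun g => g ▸ tr) fun g => g ▸ tx
  have nr : ∀ w, R.Up a w ∨ R.Up (ell v k) w → η (prv (u w)) ≠ some (inl (e w 0)) :=
    fun w f d => th w f (uq w d ▸ hv.tree)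
  have pas := fun w f => (b2 w f).1
  have tX := S'.lose_en hk B.2.1 (nr _ (Or.inr Tre.Up.refl))
  have np : ∀ n L, R.Up h n → (∀ n', blk L n' → n' = n) →
      ∀ s ∈ R.pcs u fun w => R.Up a w ∨ R.Up (ell v k) w,
        ¬(pos s < pos L ∧ pos L ≤ pos (R.pen u s)) := fun n L f h s hs d =>
    (S.pcs_tree pas h (fun w g => f.tree ▸ th w g) s hs).elim d.1.not_gt d.2.not_gt
  refine e'.no_win_cyc (hb := some) c' S.sta.cyc (q := inl (u (ell v k))) (S.pcs_lt pas)
    (S.pcs_dis pas) (S.pcs_av pas b3) (fun w => (∃ n, R.Up h n ∧ w = inl (u n)) ∨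
      (∃ i < r, w = inl (e v i)) ∨ w = inl (u (ell v k))) ?_
    ⟨_, Or.inl ⟨h, Tre.Up.refl, rfl⟩, hy⟩ (fun L _ l h1 h2 => ?_) ?_ fun L _ => ?_
  · rintro _ (⟨n, f, rfl⟩ | ⟨i, hi, rfl⟩ | rfl)
    · exact ⟨fun g => tr (by rw [← S.pay.uinj (inl_injective g), f.tree]), (x6 n f).le,
        np n _ f (S.geo.bu _)⟩
    · exact ⟨fun g => S.pay.une _ _ i hi (inl_injective g).symm, (x7 i hi).le,
        np v _ hv fun n' => S.geo.be _ _ i hi⟩
    · exact ⟨fun g => x5 (by rw [S.pay.uinj (inl_injective g)]), le_rfl, S.pcs_odd pas x4⟩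
  · rcases (cam' L).1 with d | ⟨w, rfl⟩
    · exact Or.inl d
    refine or_iff_not_imp_left.2 fun d => ?_
    rcases S.pay.all w with ⟨n, rfl⟩ | ⟨n, i, hi, rfl⟩
    · by_cases f : R.Up h n
      · have l2 := (u2 n f (ou n ▸ d)).1
        exact ⟨_, Or.inl ⟨_, f.par l2, rfl⟩, S'.tail l2 d⟩
      exfalso
      have g : R.Up a n ∨ R.Up (ell v k) n := by
        obtain ⟨s, d1, d2 | ⟨w, j, hj, rfl, d2⟩⟩ := S'.src (Or.inl d)
        · rcases cam'.sn d2 with d2 | d2
          · rcases b1 with b1 | b1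
            · exact Or.inl (S.u_eq d2 b1 ▸ d1)
            · cases b1.1.symm.trans d2
          · exact absurd (S.u_eq d2 hy ▸ d1) f
        · obtain rfl := uq w (en w j hj d2)
          obtain rfl : j = k := by_contra fun g => d2 (B.2.2.1 j hj g)
          exact Or.inr d1
      obtain ⟨od, rfl | rfl⟩ := S.pcs_on g h1 h2
      exacts [b4 od l, lt_irrefl _ l]
    · obtain rfl : n = v := by_contra fun f => d (S'.quiet (fun g => f (uq n g)) (mx n) (my n)
        (D.not_rot r0 n) i hi).2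
      exact ⟨_, Or.inr (Or.inl ⟨_, sc_lt' hi, rfl⟩), (S.geo.moat n).tBe i hi ▸
        ((S.sta.tl _ _).1 (e'.ht _)).resolve_left d⟩
  · rintro _ ⟨w, f, g, rfl⟩
    rw [Tre.pen_par S.pay.uinj g]
    refine S'.tail (Tre.two_le g) ?_
    rcases f with f | f
    · rcases b1 with b1 | ⟨-, rfl⟩
      · exact S'.climb f (S'.lose_sn (nr a (Or.inl Tre.Up.refl)) (Or.inl b1))
          fun w' g _ => nr w' (Or.inl g)
      · exact S'.climb f tX fun w' g _ => nr w' (Or.inl g)
    · exact S'.climb f tX fun w' g _ => nr w' (Or.inr g)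
  · rcases (cam L).2 with d | ⟨w, d⟩
    · exact Or.inl d
    rw [d, S.sta.eq_prv d]
    refine or_iff_not_imp_left.2 fun f => ?_
    rcases S.pay.all w with ⟨n, rfl⟩ | ⟨n, i, hi, rfl⟩
    · obtain rfl : n = v := uq n (by_contra fun g => f (S.head g))
      exact ⟨_, Or.inr (Or.inl ⟨0, r0, rfl⟩), he⟩
    · obtain rfl := uq n (en n i hi f)
      obtain rfl : i = k := by_contra fun g => f (B.2.2.1 i hi g)
      exact ⟨_, Or.inr (Or.inr rfl), S.entry hi f⟩


omit E [Finite P] [Finite Z] [Finite N] in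
theorem win_tok {a b : N} {w : Z} (hx : x = some (inl (u a))) (hy : ∀ q, y ≠ some (inl q))
    (hw : τ (inr w) = some (inl (u b))) (ht : ∀ z, z ≠ w → τ (inr z) = some (inr z)) (s : N)
    (h : Tok prv r u e ell x y τ η s) : s = a ∨ s = b := by
  rcases h with (d | d | ⟨z, d⟩) | ⟨n, _, _, _, _, _, i, hi, d⟩
  · exact Or.inl (S.u_eq d hx)
  · exact absurd d (hy _)
  · obtain rfl : z = w := by_contra fun f => by cases (ht z f).symm.trans d
    exact Or.inr (S.u_eq d hw)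
  · exact (d.elim (S.u_ne hx n i hi) (hy _)).elim

/-- **A window with a dying token.** -/
theorem win_false {a b : N} {w : Z} (hx : x = some (inl (u a))) (hy : ∀ q, y ≠ some (inl q))
    (hw : τ (inr w) = some (inl (u b))) (ht : ∀ z, z ≠ w → τ (inr z) = some (inr z))
    (hD : ∀ n, Dn n → R.tree n ≠ R.tree a ∧ R.tree n ≠ R.tree b)
    (adm : R.Die pos r u e ell blk kl opn Dn a b) : False :=
  S.die_false E adm (fun n d => ⟨Or.inl (hD n d).1, Or.inl (hD n d).2⟩) (Or.inl (Or.inl hx))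
    (Or.inl (Or.inr (Or.inr ⟨w, hw⟩))) (S.win_tok hx hy hw ht)

/-- **A window without exits**: both tokens climb to the roots, nothing else moves. -/
theorem win_bare {a b : N} {w : Z} (hx : x = some (inl (u a))) (hy : ∀ q, y ≠ some (inl q))
    (hw : τ (inr w) = some (inl (u b))) (ht : ∀ z, z ≠ w → τ (inr z) = some (inr z))
    (op : ∀ v, R.Up a v ∨ R.Up b v → ∀ j, ¬opn v j)
    (seg : ∀ n L, pos (inl (e n (p n))) ≤ pos L → pos L < pos (inl (e n (el r (p n) (r - 1)))) →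
      Pcl nxt L0 τ η L) :
    ∃ τ', Ends m hang x y τ' η ∧ Cn L0 x y τ' η ∧ (∀ z, τ' (inr z) = τ (inr z)) ∧
      (∀ q, η (prv q) = some (inl q)) ∧ (∀ n, ∀ i < r, τ' (inl (e n i)) = some (inl (e n i))) ∧
      ∀ n, (R.Up a n ∨ R.Up b n → τ' (inl (u n)) = tB (inl (u n))) ∧
        (¬(R.Up a n ∨ R.Up b n) → τ' (inl (u n)) = some (inl (u n))) := by
  have ne := S.no_exits E fun s v d f => op v ((S.win_tok hx hy hw ht s d).elim
    (fun g => Or.inl (g ▸ f)) fun g => Or.inr (g ▸ f))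
  have mx := S.u_ne hx
  have my : ∀ n, ∀ i < r, y ≠ some (inl (e n i)) := fun _ _ _ => hy _
  obtain ⟨τ', e', c', D⟩ := S.sta.derot S.geo.moat S.dis S.ends S.cn fun n _ => by
    have := (S.geo.moat n).three
    exact (S.geo.moat n).seg_idle S.sta S.ends (mx n) (my n) (ne n) (i0 := 0) (by omega)
      fun L a b _ => seg n L a b
  have S' := S.drt e' c' D
  have z : ∀ z, τ' (inr z) = τ (inr z) := fun z => D.out _ (by simp)
  have q := fun n => S'.quiet (ne n) (mx n) (my n) (D.not_rot (S.rpos n) n)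
  refine ⟨τ', e', c', z, fun w => ?_, fun n i hi => (q n i hi).2, fun n => ⟨fun h => ?_,
    fun h => by_contra fun d => ?_⟩⟩
  · rcases S.pay.all w with ⟨n, rfl⟩ | ⟨n, i, hi, rfl⟩
    exacts [S.head (ne n), (q n i hi).1]
  · refine ((S.sta.tl _ _).1 (e'.ht _)).resolve_left (h.elim (fun h => ?_) fun h => ?_)
    · exact S'.climb h (S'.lose_sn (ne a) (Or.inl hx)) fun w _ _ => ne w
    · exact S'.climb h (S'.lose_sn (ne b) (Or.inr (Or.inr ⟨w, (z w).trans hw⟩))) fun w _ _ => ne w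
  · obtain ⟨s, d1, d2⟩ := S'.tok ne d
    exact h ((S'.win_tok hx hy ((z w).trans hw) (fun z' f => (z z').trans (ht z' f)) s d2).elim
      (fun g => Or.inl (g ▸ d1)) fun g => Or.inr (g ▸ d1))

end Sit

end Pool.Agent.P.MP_439f1f_co
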