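import Pool.Agent.P.MP_439f1f_co.Dy5

/-!
Safety of the states: exits, last gaps, pairs of labels.
-/

set_option autoImplicit false
set_option linter.unusedSectionVars false

namespace Pool.Agent.P.MP_439f1f_co

open Function Sum

variable {K N : Type} [DecidableEq K] {r r0 q D e b : ℕ} [Finite K] [Finite N] [Nonempty K]

/-- the labels of a line that is visited in the block of `n`, finer form -/
theorem Wd.bk_lab' {β : Type} [LinearOrder β] {W : Wd K N β r r0 q D e b} {j : K}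
    {L : Hub K N (Pt K N) r0} {n : N} (hD : 1 ≤ D) (h : W.Bk j L n) (u : Bool) (σ : Slot (r + 1)) :
    W.S.col n + 1 = W.S.col (W.S.sn L u σ) ∨ (W.S.wor (W.S.sn L u σ)).1 = j := by
  by_cases c : Cold j L
  · exact Or.inl (Wd.col_lab hD ((Wd.bk_cold c).1 h) u σ).symm
  obtain ⟨⟨y, t⟩, rfl⟩ : ∃ z, L = inr (j, z) := by simpa [Cold] using c
  obtain ⟨i, h⟩ := Wd.bl_iff.1 h
  by_cases d : t = 2
  · subst d
    exact Or.inl (Wd.col_lab hD ⟨i, (Wd.lp_2 y).symm.trans h⟩ u σ).symm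
  rw [W.S.wor_sn hD]
  cases u
  · exact Or.inr rfl
  · exact Or.inr (congrArg (fun L => (W.S.ht L).wor.1)
      (if_neg d : W.S.O.dA (inr (j, y, t)) = inr (j, y, t + 1)))

namespace Fw

variable {V : Fw K N r r0 q D e b} {j : K} {n n' u v : N} {a a' : Option Bool} {k : ℕ}
  {L : Hub K N (Pt K N) r0}

/-- **Related labels come in the safe order.** -/
theorem sf_ord {c : ZMod 3} (o : (V.par j).Ord a a' c) (h : V.Role j a (V.F.tree u))
    (h' : V.Role j a' (V.F.tree v)) (l : V.F.lev u = D) (l' : V.F.lev v = D)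
    (rk : (V.par j).rook = true → V.W.S.wor v = V.W.S.wor u ∧
      crd ((V.par j).lk false) (V.F.lb v) = crd ((V.par j).lk true) (V.F.lb u))
    (g : ∀ x, V.W.Bk j L x → V.W.S.col x + 1 = c) :
    ¬rkey (V.W.pos j L) (V.W.pos j (nl u)) < rkey (V.W.pos j L) (V.W.pos j (nl v)) :=
  rkey_of h'.1 (Ord.lt o h h' fun d => ⟨l, l', rk d⟩) fun x c k k' => Ord.out o h h' k k' (g x c)

theorem sf_col (V : Fw K N r r0 q D e b) (j : K) :
    ∃ g, ∀ n k, V.W.Can j n k → V.W.S.col n = g := by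
  by_cases h : ∃ n k, V.W.Can j n k
  swap
  · exact ⟨0, fun n k c => absurd ⟨n, k, c⟩ h⟩
  obtain ⟨n, k, h⟩ := h
  have z : ∀ {n k}, V.W.Can j n k → ((V.par j).np (V.W.S.col n) : ℕ) < k →
      (V.par j).np (V.W.S.col n) ≠ Fin.last _ := fun c d f => by
    have := c.1
    rw [f, Fin.val_last] at d
    omega
  refine ⟨V.W.S.col n, fun n' k' h' => ?_⟩
  rcases can h with c | c <;> rcases can h' with c' | c'
  exacts [c'.ot.col c.ot, absurd c'.2.1 c.op, absurd c.2.1 c'.op,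
    (V.adm j).np1 _ _ (z h' c'.2.2.1) (z h c.2.2.1)]

theorem sf_ek (h : V.Role j none (V.F.tree (V.W.ell n k))) (hk : k < r0 + 1) :
    k = (V.par j).ek := by
  obtain ⟨T, -, c⟩ := h.entry
  have := (V.W.tree_ell V.D_pos n k).symm.trans c
  simp only [Prod.mk.injEq, HT.hM.injEq, and_true, Fin.ext_iff, Fin.val_ofNat,
    Nat.mod_eq_of_lt hk] at this
  exact this.2.2

theorem sf_ell (V : Fw K N r r0 q D e b) (j : K) (n : N) (k : ℕ) :
    V.W.F.tre.Dead (V.W.Kill j) (V.opn j) (V.W.ell n k) ∨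
      ∃ a, V.Alv j a (V.F.tree (V.W.ell n k)) :=
  (V.cases' j _).imp (Cut.dead_lab · (V.lev_ell n k)) (·.resolve_right fun ⟨_, _, _, c⟩ => by
    have := V.W.tree_ell V.D_pos n k
    rcases c with c | c <;> cases this.symm.trans c)

theorem sf_exit (h : V.W.Can j n k) :
    V.opn j n k ∨ ∃ v, V.W.F.tre.Up (V.W.ell n k) v ∧ V.W.Kill j v := by
  rcases V.sf_ell j n k with ⟨v, c, d, -⟩ | ⟨a, c⟩
  · exact Or.inr ⟨v, c, d⟩
  have t := V.W.tree_ell V.D_pos n k
  rcases can h with d | ⟨-, -, d⟩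
  · obtain rfl := c.nom d.ot t
    exact Or.inl ⟨d, sf_ek c.1 h.1⟩
  · have := Fin.le_def.1 (c.np3 t d.2)
    simp only [Fin.val_ofNat, Nat.mod_eq_of_lt h.1] at this
    exact absurd d.1 this.not_gt

/-- the last gap of the line into a node -/
theorem sf_ln (V : Fw K N r r0 q D e b) (j : K) (n z : N)
    (hz : z = V.W.S.sn (V.W.prv (inl n)) true .Z) (k : ℕ) (hk : k < r0 + 1) :
    V.W.Die j (V.opn j) (· = n) z (V.W.ell n k) ∨
    (V.W.Alive j (V.opn j) z ∧ V.W.Alive j (V.opn j) (V.W.ell n k) ∧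
      ((Front (V.W.pos j) (r0 + 1) (V.W.prt j n) (inl n) (Wd.mo n) ∧ k ≤ V.W.prt j n ∧
        ¬rkey (V.W.pos j (inl (inl n))) (V.W.pos j (inl (inl (V.W.ell n k)))) <
          rkey (V.W.pos j (inl (inl n))) (V.W.pos j (inl (inl z)))) ∨
        (Back (V.W.pos j) (V.W.prt j n) (inl n) (Wd.mo n) ∧ 1 ≤ k))) := by
  have t := V.W.tree_ell V.D_pos n k
  have l := V.W.lev_ell V.D_pos n k
  have l' : V.F.lev z = D := hz ▸ V.W.S.lev_sn V.D_pos _ _ _
  have t' : (V.F.tree z).1 = (.hP (V.W.S.wor n) (V.W.S.col n + 1), .Z) := by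
    refine hz ▸ (congrArg Subtype.val (V.W.S.tree_sn V.D_pos _ _ _)).trans ?_
    simp only [Pre.typ, Wd.prv, Equiv.apply_symm_apply]
    rfl
  rcases V.sf_ell j n k with c | ⟨a, c⟩
  · exact Or.inl (Or.inr (Or.inl c))
  rcases V.cases' j (V.F.tree z) with c' | ⟨a', c'⟩ | ⟨_, _, _, c' | c'⟩
  · exact Or.inl (Or.inl (c'.dead_lab l'))
  swap
  · cases t'.symm.trans c'
  swap
  · cases t'.symm.trans c'
  obtain ⟨o, m1, m2, m3⟩ := c.mz c' t t'
  refine Or.inr ⟨c'.alive (Ord.not_ot' o c'.1), c.alive (Ord.not_ot o c.1), ?_⟩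
  by_cases h : V.Opn j n
  · obtain ⟨i, -, f⟩ := h.ot
    obtain rfl := c.nom h.ot t
    have := ((V.adm j).one i f).2.2.1
    have := sf_ek c.1 hk
    exact Or.inr ⟨h.back (m2 rfl), by omega⟩
  · have w := V.W.wor_ell V.D_pos n k
    refine Or.inl ⟨front h, ?_, sf_ord o c.1 c'.1 l l' (fun d => ⟨?_, by simp [m1 d, crd]⟩)
      fun x d => by rw [Wd.bk_nl.1 d]⟩
    · rw [Wd.prt, port_np (fun d => c.1.1 ((congrArg Prod.fst w).trans d)) h]
      simpa only [Fin.le_def, Fin.val_ofNat, Nat.mod_eq_of_lt hk, col_eq] using m3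
    · exact (congrArg (·.1.wor) t').trans w.symm

/-- two consecutive labels -/
theorem sf_pair (V : Fw K N r r0 q D e b) (j : K) (L : Hub K N (Pt K N) r0) (i : ℕ) (u : Bool)
    (σ : Slot (r + 1)) (u' : Bool) (σ' : Slot (r + 1)) (h : V.W.S.At L i u σ)
    (h' : V.W.S.At L (i + 1) u' σ') :
    V.W.Die j (V.opn j) (V.W.Bk j L) (V.W.S.sn L u σ) (V.W.S.sn L u' σ') ∨
    (V.W.Alive j (V.opn j) (V.W.S.sn L u σ) ∧ V.W.Alive j (V.opn j) (V.W.S.sn L u' σ') ∧
      ¬rkey (V.W.pos j L) (V.W.pos j (inl (inl (V.W.S.sn L u σ)))) <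
        rkey (V.W.pos j L) (V.W.pos j (inl (inl (V.W.S.sn L u' σ'))))) := by
  have h1 := V.D_pos
  have l : ∀ u σ, V.F.lev (V.W.S.sn L u σ) = D := V.W.S.lev_sn h1 L
  have t : V.F.tree _ = _ := h.tree h1
  have t' : V.F.tree _ = _ := h'.tree h1
  have fin : ∀ {a a'}, V.Alv j a (V.F.tree (V.W.S.sn L u σ)) →
      V.Alv j a' (V.F.tree (V.W.S.sn L u' σ')) →
      (V.par j).Ord a a' (V.F.tree (V.W.S.sn L u σ)).ty.col → ((V.par j).rook = true →
        V.W.S.wor (V.W.S.sn L u' σ') = V.W.S.wor (V.W.S.sn L u σ) ∧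
        crd ((V.par j).lk false) (V.F.lb (V.W.S.sn L u' σ')) =
          crd ((V.par j).lk true) (V.F.lb (V.W.S.sn L u σ))) → _ := fun c c' o rk =>
    And.intro (c.alive (Ord.not_ot o c.1)) (And.intro
      (c'.alive (Ord.not_ot' o c'.1)) (sf_ord (L := L) o c.1 c'.1 (l _ _) (l _ _) rk
        fun x d => (Wd.bk_lab' h1 d u σ).resolve_right c.1.1))
  refine or_iff_not_imp_left.2 fun nd => ?_
  have c := (V.cases' j _).resolve_left fun c => nd (Or.inl (c.dead_lab (l u σ)))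
  have c' := (V.cases' j _).resolve_left fun c => nd (Or.inr (Or.inl (c.dead_lab (l u' σ'))))
  by_cases d : u = u'
  · subst d
    have ty : (V.F.tree (V.W.S.sn L u σ)).ty = (V.F.tree (V.W.S.sn L u σ')).ty := by rw [t, t']
    have of : (V.F.tree (V.W.S.sn L u σ')).off = (V.F.tree (V.W.S.sn L u σ)).off + 1 := by
      have := h.off
      have := h'.off
      rw [t, t']
      simp only [Kl.off, Kl.sl, Kl.ty]
      omega
    rcases c with ⟨a, c⟩ | c <;> rcases c' with ⟨a', c'⟩ | c'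
    · obtain ⟨o, rk⟩ := c.con c' ty of
      refine fin c c' o fun d => ⟨congrArg HT.wor ty.symm, ?_⟩
      rw [(rk d).1, (rk d).2, lb_sn h, lb_sn h', t, t', h.link h']
    · exact absurd (by rw [Kl.stg, ty]; exact c'.stg) c.1.1
    · exact absurd (by rw [Kl.stg, ← ty]; exact c.stg) c'.1.1
    · obtain ⟨_, _, _, c | c⟩ := c <;> obtain ⟨_, _, _, c' | c'⟩ := c' <;>
        simp [Kl.off, Kl.sl, Kl.ty, c, c'] at ty of
      all_goals simp [ty] at of
  have a1 := h.half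
  have a2 := h'.half
  obtain ⟨rfl, rfl, rfl⟩ : u = false ∧ u' = true ∧ i = r + 4 := by
    revert d a1 a2
    cases u <;> cases u' <;> simp <;> omega
  obtain rfl : σ = .Z := by simpa using (h.slot (V.W.S.lo_Z L)).2
  obtain rfl : σ' = .H := by simpa using (h'.slot (V.W.S.hi_H L)).2
  have d1 : (V.F.tree (V.W.S.sn L false .Z)).ty.hd = false := by
    rw [t]
    rcases L with (_ | _) | _ <;> rfl
  have d2 : (V.F.tree (V.W.S.sn L true .H)).ty.hd = true := by
    rw [t']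
    show (V.W.S.ht _).hd = true
    rcases V.W.S.O.dA L with (_ | _) | _ <;> rfl
  have s1 : (V.F.tree (V.W.S.sn L false .Z)).sl = .Z := by rw [t]
  have s2 : (V.F.tree (V.W.S.sn L true .H)).sl = .H := by rw [t']
  obtain ⟨a, c⟩ := c.resolve_right fun ⟨_, _, _, c⟩ => by
    rcases c with c | c <;> simp [Kl.ty, Kl.sl, c, HT.hd] at d1 s1
  obtain ⟨a', c'⟩ := c'.resolve_right fun ⟨_, _, _, c⟩ => by
    rcases c with c | c <;> simp [Kl.ty, Kl.sl, c, HT.hd] at d2 s2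
  obtain ⟨o, rk⟩ := c.jun c' d1 s1 d2 s2 (by
    rw [t, t']
    exact (V.W.col_typ L false).trans (V.W.col_typ L true).symm)
  exact fin c c' o (by simp [rk])

end Fw

end Pool.Agent.P.MP_439f1f_co
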