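import Pool.Agent.P.MP_439f1f_co.Dy4
import Pool.Agent.P.MP_439f1f_co.Sf6

/-!
Admissible parameters give admissible states: first gaps and windows.
-/

set_option autoImplicit false
set_option linter.unusedSectionVars false

namespace Pool.Agent.P.MP_439f1f_co

open Sum Function

variable {K N : Type} {r r0 q D e b : ℕ} [DecidableEq K] [Finite K] [Finite N] [Nonempty K]

namespace Fw

variable {V : Fw K N r r0 q D e b} {j : K} {n h t v w : N} {a : Option Bool} {Dn : N → Prop}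

theorem fg_shut (c : ¬V.Ot j (V.F.tree n)) (d : V.F.tree v = V.F.tree n) (k : ℕ) : ¬V.opn j v k :=
  fun f => c (d ▸ f.1.ot)

/-- the node at the level of an even cut is killed -/
theorem fg_kill (c : V.kap j (V.F.tree n) ≠ 0) (l : V.kap j (V.F.tree n) ≤ V.F.lev n) :
    ∃ k, V.F.tre.Up n k ∧ V.W.Kill j k := by
  have o : ¬Own j (V.F.tree n) := fun d => c d.kap
  have := V.hD
  have := (V.F.surj n).2.1
  rcases (V.kap_spec j (V.F.tree n)).2 with d | d
  · have a := Forest.anc_at (F := V.F) n (l := V.kap j (V.F.tree n)) (by omega) l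
    have a' := V.F.lev_at n (l := V.kap j (V.F.tree n)) (by omega) (by omega)
    exact ⟨_, Forest.up_iff.2 a, Sw.kill_of V.od (congrArg (V.S.td j) a.tree) (a'.symm ▸ d)
      (td_win o _) (td_win o _) (V.td_ud j _) d (by unfold kap at *; omega) (Or.inl a')⟩
  · exact ⟨n, .refl, Sw.kill_lab (T := V.S.td j (V.F.tree n)) rfl (by omega)
      (by rw [S_F]; omega) (td_win o _) (td_win o _) (V.td_ud j _) (td_sep c) d⟩

theorem fg_dead (c : V.Cut j (V.F.tree n)) (l : V.kap j (V.F.tree n) ≤ V.F.lev n) :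
    V.F.tre.Dead (V.W.Kill j) (V.opn j) n :=
  let ⟨k, a1, a2⟩ := fg_kill (by have := c.two; omega) l
  ⟨k, a1, a2, fun _ d _ => fg_shut c.not_ot d.tree,
    fun _ d => fg_shut c.not_ot ((d.tree a2.1).trans a1.tree)⟩

theorem fg_lab (c : V.Cut j (V.F.tree n)) (l : V.F.lev n = D) :
    V.F.tre.Dead (V.W.Kill j) (V.opn j) n := fg_dead c ((V.kap_spec j _).1.trans l.ge)

/-- pass pairs above the cut -/
theorem fg_pas (s : (V.F.tree n).stg ≠ j)
    (c : V.kap j (V.F.tree n) = 0 ∨ V.F.lev n + 1 < V.kap j (V.F.tree n)) (a : V.F.tre.Up n v)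
    (o : V.F.lev v % 2 = 0) : V.F.tre.Pas (V.W.pos j) inl (V.W.Bk j) v := by
  have l : 2 ≤ V.F.lev v := V.F.tre.two_le o
  have := V.F.lev_par l
  have := (V.F.surj v).2.1
  have : V.F.lev v ≤ V.F.lev n := a.lev_le
  exact (Wd.pas_iff (W := V.W) o).2 (Sw.pass_of (t := V.F.par v) V.od
    (congrArg (V.S.td j) ((Forest.anc_par l).tree.trans a.tree)) (by rw [S_F]; omega)
    (by rw [S_F]; omega) (td_win (not_own s) _) (td_win (not_own s) _)
    (Or.inr (c.imp id fun d => Or.inl (by simp only [S_F, kap, Forest.tre_tree] at *; omega))))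

theorem fg_alive (c : V.Liv j (V.F.tree n)) (d : ¬V.Ot j (V.F.tree n)) :
    V.W.Alive j (V.opn j) n :=
  fun _ a => ⟨fg_shut d a.tree, fg_pas c.stg (Or.inl c.kap) a⟩

theorem fg_fm (s : (V.F.tree n).stg ≠ j) (l : V.F.lev n ≠ D) : (V.L j).fm n = 0 :=
  fm_zero (not_own s) (Or.inl l)

/-- the route above a node that is above the cut -/
theorem fg_high (s : (V.F.tree n).stg ≠ j)
    (c : V.kap j (V.F.tree n) = 0 ∨ V.F.lev n < V.kap j (V.F.tree n)) :
    (V.F.lev n % 2 = 0 → V.F.tre.Pw (V.W.pos j) inl n) ∧ (2 ≤ V.F.lev n →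
      ∀ v, V.F.tre.Up (V.F.par n) v → V.F.lev v % 2 = 0 →
        V.F.tre.Pas (V.W.pos j) inl (V.W.Bk j) v) := by
  refine ⟨fun o => ?_, fun l v => ?_⟩
  · have l : 2 ≤ V.F.lev n := V.F.tre.two_le o
    have g := V.F.lev_par l
    have := (V.F.surj n).2.1
    have := V.od
    have a := Forest.anc_par l
    have f := fg_fm s (by omega)
    have f' := fg_fm (n := V.F.par n) (a.tree ▸ s) (by omega)
    refine ⟨Sw.nl_lt.2 ((Lay.anc_lt f' f a fun d => by rw [d] at g; omega).2 (Or.inl ?_)),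
      fun w a1 a2 => (Lay.tree_between (Sw.nl_le.1 a1) (Sw.nl_le.1 a2) f' f a.tree.symm).2.trans
        a.tree⟩
    rw [Lay.Low, L_dt, a.tree]
    show ¬(2 ≤ V.kap j _ ∧ V.kap j _ ≤ V.F.lev _ + 1)
    omega
  · have := V.F.lev_par l
    have a := (Forest.anc_par l).tree
    exact fg_pas (a ▸ s) (by rw [a]; omega)

theorem fg_stg (d : V.W.S.wor n = V.W.S.wor v) : (V.F.tree n).stg = (V.F.tree v).stg :=
  congrArg Prod.fst d

theorem fg_cls (L : Hub K N (Pt K N) r0) (u : Bool) {σ : Slot (r + 1)} (c : σ = .H ∨ σ = .Z) :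
    (V.F.tree (V.W.S.sn L u σ)).1 = (V.W.S.typ L u, σ) := by
  rcases c with rfl | rfl <;> exact congrArg Subtype.val (V.W.S.tree_sn V.D_pos ..)

theorem fg_ell (k : Fin (r0 + 1)) :
    (V.F.tree (V.W.ell n k)).1 = (.hM (V.F.tree n).ty.wor ((V.F.tree n).ty.col + 1) k, .Z) := by
  have := V.W.tree_ell V.D_pos n k
  rwa [Fin.ofNat_val_eq_self] at this

theorem fg_port (s : (V.F.tree n).stg ≠ j) (c : ¬V.Opn j n) :
    V.W.port j n = (V.par j).np (V.F.tree n).ty.col := by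
  rw [Sw.port_eq, Sch.L_dt]
  refine V.td_ind j _ (fun z => z.port _ = _) (fun _ => rfl) (fun _ => rfl)
    (fun i d => if_neg fun f => c ⟨i, d, f⟩) (fun d => absurd d s) fun d => absurd d.stg s

/-- **First gaps of moat lines.** -/
theorem adm_fm (n : N) (i : ℕ) (hi : i < r0 + 1) (k : ℕ) (hk : k < r0 + 1)
    (c : el (r0 + 1) (V.W.prt j n) i < el (r0 + 1) (V.W.prt j n) k ∨
      (k = i ∧ el (r0 + 1) (V.W.prt j n) i % 2 = 1)) :
    V.W.Die j (V.opn j) Dn (V.W.S.sn (inl (Wd.mo n i)) false .H) (V.W.ell n k) := by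
  lift i to Fin (r0 + 1) using hi
  lift k to Fin (r0 + 1) using hk
  have a1 : (V.F.tree (V.W.S.sn (inl (Wd.mo n i)) false .H)).1 =
      (.tE (V.F.tree n).ty.wor ((V.F.tree n).ty.col + 1) i, .H) := by
    rw [fg_cls _ _ (Or.inl rfl), Wd.mo_val]
    rfl
  have a2 := fg_ell (V := V) (n := n) k
  rcases V.cases' j (V.F.tree (V.W.S.sn (inl (Wd.mo n i)) false .H)) with d | ⟨a, d⟩ | d
  · exact Or.inl (fg_lab d (V.W.S.lev_sn V.D_pos ..))
  swap
  · simp [Own, a1] at d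
  rcases V.cases' j (V.F.tree (V.W.ell n k)) with d' | ⟨a', d'⟩ | d'
  · exact Or.inr (Or.inl (fg_lab d' (V.W.lev_ell V.D_pos ..)))
  swap
  · simp [Own, a2] at d'
  obtain ⟨m1, m2⟩ := d'.mh d a2 a1
  have s : (V.F.tree n).stg ≠ j := fun f => d'.1.1 (by rw [← f, Kl.stg, Kl.ty, a2]; rfl)
  rw [Wd.prt, fg_port s fun f => ?_] at c
  · rw [Fin.ext_iff] at m2
    rcases c with c | ⟨c, c'⟩
    · rcases m2 with m2 | ⟨m2, -⟩
      exacts [absurd m2 c.not_gt, absurd (by rw [m2]) c.ne]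
    · rw [c] at m2
      omega
  exact m1 (d'.nom f.ot a2)

/-- the label of the first gap of a node line -/
theorem fg_H (n : N) : (V.F.tree (V.W.S.sn (nl n) false .H)).1 =
    (.tN (V.F.tree n).ty.wor ((V.F.tree n).ty.col + 1) (lc (V.F.lev n)), .H) :=
  fg_cls _ _ (Or.inl rfl)

theorem fg_col {T T' : Kl K r r0} {c : ZMod 3} (d : T.ty.col = c) (d' : T'.ty.col = c + 1) :
    T ≠ T' := fun f => (by decide : ∀ c : ZMod 3, c ≠ c + 1) c (by rw [← d', ← f, d])

/-- the order on a route below the cut of an open tree -/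
theorem fg_asc (o : V.Ot j (V.F.tree n)) (c : V.F.Anc v w) (c' : V.F.Anc w n)
    (l : V.kap j (V.F.tree n) ≤ V.F.lev v) : (V.L j).key v ≤ (V.L j).key w := by
  refine (em (v = w)).elim (fun d => d ▸ le_rfl) fun d => le_of_lt ?_
  have := mt c.eq d
  have s := fun {x} (f : V.F.Anc x n) => fm_plain (n := x) (f.tree ▸ not_own o.stg) o.rook
  refine (Lay.anc_lt (s (c.trans c')) (s c') c d).2 (Or.inr ?_)
  rw [L_dt, (c.trans c').tree]
  exact ⟨o.asc, by show V.kap j _ < V.F.lev w; omega⟩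

/-- the gap node lies in an open tree -/
theorem fg_B {i : Bool} (o : V.Ot j (V.F.tree n)) (l : 2 ≤ V.F.lev n)
    (k : V.kap j (V.F.tree n) ≠ 0 → V.kap j (V.F.tree n) ≠ V.F.lev n)
    (hh : h = V.W.S.sn (nl n) false .H) (c : V.Role j (some i) (V.F.tree h))
    (c' : V.Liv j (V.F.tree h)) :
    V.F.tre.FnB (V.W.pos j) (r0 + 1) inl Wd.mo V.W.ell (V.W.Bk j) (V.W.Kill j) (V.opn j) n h := by
  have a1 := hh ▸ fg_H (V := V) n
  have a2 : (V.F.tree h).ty.col = (V.F.tree n).ty.col + 1 := by rw [Kl.ty, a1]; rfl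
  have no : ¬V.Ot j (V.F.tree h) := fun d => (by decide : ∀ c : ZMod 3, c + 1 ≠ c) _
    (a2.symm.trans (d.col o))
  have g := V.F.lev_par l
  have a := Forest.anc_par l
  have fm := fun {x} (f : V.F.Anc x n) => fm_plain (n := x) (f.tree ▸ not_own o.stg) o.rook
  refine ⟨l, fg_alive c' no, ?_, fun v k' d d' => ?_⟩
  · by_cases d : V.kap j (V.F.tree n) = 0 ∨ V.F.lev n < V.kap j (V.F.tree n)
    · exact Or.inr ((fg_high o.stg d).imp_right fun f => f l)
    · exact Or.inl (fg_kill (n := V.F.par n) (by rw [a.tree]; omega) (by rw [a.tree]; omega))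
  have d := Forest.up_iff.1 d
  have lv := ((d.trans a).tree ▸ o).opn.1 d'.1
  rw [(d.trans a).tree] at lv
  refine ⟨fun w f f' => ?_, fun i' _ => Or.inl ?_, fun w f => ?_⟩
  · have f := Forest.up_iff.1 f
    have f' := Forest.up_iff.1 f'
    exact ⟨Sw.nl_le.2 (fg_asc o f' (f.trans a) lv),
      Sw.nl_le.2 (fg_asc o (f.trans a) (.refl _) (lv.trans f'.1))⟩
  · obtain ⟨i0, f1, f2⟩ := d'.1
    have fl : (V.par j).flip = false := Bool.eq_false_iff.2 fun f => by
      obtain rfl : i = !i0 := by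
        have := mt (fun z : i = i0 => (⟨i, c, z ▸ f2.1⟩ : V.Ot j _)) no
        revert this
        cases i <;> cases i0 <;> simp
      obtain ⟨w, z⟩ := (((V.adm j).flip f).2 i0 f2.1 _ c.2.1).2.2 _ f1.2.1
      simp [Kl.kind_of_val a1] at z
    refine V.W.pos_mn.2 ?_
    rw [Sw.lay_l, Sch.L_dt, S_F, f1.td]
    simp only [Par.tdI, fl, Bool.false_and, blay_lt]
  · have t : V.F.tree w ≠ V.F.tree n := Ne.symm (fg_col rfl (f.elim (fun z => by
      rw [show V.F.tree w = V.F.tree h from z.tree, a2]) fun z => by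
        rw [show V.F.tree w = _ from z.tree, ← (d.trans a).tree]
        exact V.W.col_ell V.D_pos ..))
    by_contra z
    rw [not_or, not_lt, not_lt, Sw.nl_le, Sw.nl_le] at z
    exact t ((Lay.tree_between z.1 z.2 (fm (d.trans a)) (fm (.refl _)) (d.trans a).tree.symm).2.trans
      (d.trans a).tree)

/-- the label lies in an open tree -/
theorem fg_C (o : V.Ot j (V.F.tree h)) (hh : h = V.W.S.sn (nl n) false .H)
    (c : V.kap j (V.F.tree n) = 0 ∨ V.F.lev n < V.kap j (V.F.tree n)) :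
    V.F.tre.FnC (V.W.pos j) (r0 + 1) inl Wd.mo V.W.ell (V.W.Bk j) (V.W.Kill j) (V.opn j) n h := by
  have a1 := hh ▸ fg_H (V := V) n
  have a2 : (V.F.tree h).ty.col = (V.F.tree n).ty.col + 1 := by rw [Kl.ty, a1]; rfl
  have s : (V.F.tree n).stg ≠ j := fun f => o.stg (by rw [← f, Kl.stg, Kl.ty, a1]; rfl)
  have z1 : ∀ c : ZMod 3, c ≠ c + 1 := by decide
  have z2 : ∀ c : ZMod 3, c ≠ c + 1 + 1 := by decide
  have no : ¬V.Ot j (V.F.tree n) := fun d => z1 _ ((d.col o).trans a2)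
  have lh : V.F.lev h = D := hh ▸ V.W.S.lev_sn V.D_pos ..
  refine ⟨fun l v d => ⟨fg_shut no (d.tree.trans (Forest.anc_par l).tree),
    (fg_high s c).2 l v d⟩, (fg_high s c).1, ?_, fun v k d d' => ?_⟩
  · by_cases d : V.kap j (V.F.tree h) = 0
    · exact Or.inr fun v => fg_pas o.stg (Or.inl d)
    · exact Or.inl (fg_kill d ((V.kap_spec j _).1.trans lh.ge))
  obtain rfl := d'.2
  have t : V.F.tree v = V.F.tree h := d.tree
  have x1 := fg_ell (V := V) (n := v) (V.par j).ek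
  have x2 := d'.1.ot.entry x1
  have x3 : (V.F.tree (V.W.ell v (V.par j).ek)).ty.col = (V.F.tree n).ty.col + 1 + 1 := by
    rw [← a2, ← t]
    exact V.W.col_ell V.D_pos ..
  obtain ⟨i, o1, o2⟩ := id o
  have nx := (V.adm j).nxt i o2 _ o1.2.1 _ _ _ (Kl.kind_of_val a1)
  have k : ∀ {w L}, V.F.tree w = V.F.tree h → V.W.Bk j L w → rkey (V.W.pos j (nl n)) (V.W.pos j L) <
      rkey (V.W.pos j (nl n)) (V.W.pos j (nl (V.W.ell v (V.par j).ek))) := fun {w L} f g => by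
    have lt := Sw.lt_of_key g (.self _ j _) (Role.lt (f ▸ o1) x2 o.rook (by
      rcases nx with ⟨rfl, z⟩ | ⟨z, -⟩ | ⟨z, -⟩
      · simp [Par.zi, z]
      all_goals cases i <;> simp [Par.zi, z]))
    refine rkey_lt.2 (Or.symm (or_iff_not_imp_left.2 fun z => ?_))
    rw [and_iff_left lt] at z
    refine absurd ⟨fun y => not_le.1 fun y' => ?_, lt.trans⟩ z
    obtain ⟨a0, b1, b2⟩ := Role.btw (f ▸ o1) x2 (Sw.key_le g (.self _ j n) y.le) (Sw.nl_le.1 y')
    have b2 := b2 o.rook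
    rcases a0 with _ | i'
    · obtain ⟨T, b3, b4⟩ := b1.entry
      refine z2 (V.F.tree n).ty.col ?_
      rw [← a2, o.col b3, Kl.ty, b4]
      rfl
    have ne : i' ≠ i := fun y => no ⟨i', b1, y ▸ o2⟩
    have m := b1.2.1
    rcases nx with ⟨rfl, y⟩ | ⟨y, rfl | y'⟩ | ⟨-, y⟩
    rotate_right
    · obtain rfl : i' = !i := by revert ne; cases i <;> cases i' <;> simp
      exact y _ m (by simp)
    all_goals cases i' <;> simp_all [Par.zi, Par.mem]
  exact ⟨fg_alive x2.liv fun f => by simpa using (x2.ot.1 f).1,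
    (congrArg (· % 2) (V.W.lev_ell V.D_pos ..)).trans V.od,
    fun f => z2 _ ((congrArg (·.ty.col) f).symm.trans x3),
    fun w f => k f.tree (.self _ j _), fun i' _ => k t (Wd.bk_pay.2 rfl)⟩

/-- **First gaps of node lines.** -/
theorem adm_fn (n h : N) (hh : h = V.W.S.sn (inl (inl n)) false .H) :
    (V.W.F.tre.lev n = 1 ∧ V.W.Die j (V.opn j) Dn h h) ∨
    (2 ≤ V.W.F.tre.lev n ∧ V.W.Die j (V.opn j) Dn (V.W.F.tre.par n) h) ∨
    V.W.F.tre.FnB (V.W.pos j) (r0 + 1) inl Wd.mo V.W.ell (V.W.Bk j) (V.W.Kill j) (V.opn j) n h ∨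
    V.W.F.tre.FnC (V.W.pos j) (r0 + 1) inl Wd.mo V.W.ell (V.W.Bk j) (V.W.Kill j) (V.opn j) n h := by
  have a1 := hh ▸ fg_H (V := V) n
  have lh : V.F.lev h = D := hh ▸ V.W.S.lev_sn V.D_pos ..
  have one := (V.F.surj n).1
  rcases V.cases' j (V.F.tree h) with d | ⟨a, d⟩ | d
  · exact one.eq_or_lt.elim (fun l => Or.inl ⟨l.symm, Or.inl (fg_lab d lh)⟩)
      fun l => Or.inr (Or.inl ⟨l, Or.inr (Or.inl (fg_lab d lh))⟩)
  swap
  · simp [Own, a1] at d
  have s : (V.F.tree n).stg ≠ j := fun f => d.1.1 (by rw [← f, Kl.stg, Kl.ty, a1]; rfl)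
  have k : V.kap j (V.F.tree n) ≠ 0 → V.kap j (V.F.tree n) ≠ V.F.lev n := fun f g =>
    d.lev a1 s rfl f (by rw [g])
  have hi : ¬V.Ot j (V.F.tree n) → (2 ≤ V.F.lev n ∧ V.W.Die j (V.opn j) Dn (V.F.par n) h) ∨
      V.kap j (V.F.tree n) = 0 ∨ V.F.lev n < V.kap j (V.F.tree n) := fun no => by
    rcases V.cases' j (V.F.tree n) with f | ⟨_, f⟩ | f
    · have := f.two
      refine (lt_or_ge (V.F.lev n) (V.kap j (V.F.tree n))).symm.imp (fun l => ?_) Or.inr
      have l2 : 2 ≤ V.F.lev n := by omega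
      have := V.F.lev_par l2
      have t := (Forest.anc_par l2).tree
      exact ⟨l2, Or.inl (fg_dead (n := V.F.par n) (t ▸ f) (by rw [t]; omega))⟩
    · exact Or.inr (Or.inl (f.cases.resolve_right no).1.kap)
    · exact absurd f.stg s
  rcases d.cases with ⟨d1, d2⟩ | o
  swap
  · refine Or.inr ((hi fun f => ?_).imp_right fun f => Or.inr (fg_C o hh f))
    have := o.col f
    rw [Kl.ty, a1] at this
    exact (by decide : ∀ c : ZMod 3, c + 1 ≠ c) _ this
  have al := fg_alive d1 d2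
  have fc : (2 ≤ V.F.lev n → ¬V.Ot j (V.F.tree n)) → V.F.lev n = 1 ∨ V.kap j (V.F.tree n) = 0 ∨
      V.F.lev n < V.kap j (V.F.tree n) → V.F.tre.FnC (V.W.pos j) (r0 + 1) inl Wd.mo V.W.ell
        (V.W.Bk j) (V.W.Kill j) (V.opn j) n h := fun no c =>
    ⟨fun l v f => ⟨fg_shut (no l) (f.tree.trans (Forest.anc_par l).tree),
      (fg_high s (c.resolve_left (by simp only [Forest.tre_lev] at l; omega))).2 l v f⟩,
      fun l => (fg_high s (c.resolve_left (by simp only [Forest.tre_lev] at l; omega))).1 l,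
      Or.inr fun v f => (al v f).2, fun v k f g => absurd g ((al v f).1 k)⟩
  rcases one.eq_or_lt with l | l
  · exact Or.inr (Or.inr (Or.inr (fc (by omega) (Or.inl l.symm))))
  by_cases o : V.Ot j (V.F.tree n)
  · rcases a with _ | i
    · obtain ⟨_, -, f⟩ := d.1.entry
      simp [a1] at f
    · exact Or.inr (Or.inr (Or.inl (fg_B o l k hh d.1 d1)))
  · exact Or.inr ((hi o).imp_right fun f => Or.inr (fc (fun _ => o) (Or.inr f)))

/-- **Windows.** -/
theorem adm_win (j1 : K) (e0 : Pt K N × Fin 3) (n : ℕ) (hn : n ≤ 3) (a c : N)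
    (ha : a = V.W.S.sn (V.W.S.O.sl j1 e0) true .Z)
    (hc : c = V.W.S.sn (V.W.S.O.alt j j1 ((V.W.S.O.gam j j1 ^ n) e0)) false .H)
    (hot : j1 = j → V.W.Hot j e0 n a c) : V.W.Die j (V.opn j) Dn a c ∨
      (j1 = j ∧ (∀ v, V.W.F.tre.Up a v ∨ V.W.F.tre.Up c v → ∀ k, ¬V.opn j v k) ∧
        V.W.Hot j e0 n a c) := by
  have a1 : (V.F.tree a).1 =
      (.hS (j1, V.W.S.fam j1 e0.1) (V.W.S.idx j1 e0) (V.W.S.pc j1 e0.1), .Z) := by
    rw [ha, fg_cls _ _ (Or.inr rfl), Pre.typ, Mac.dA_sl]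
    rfl
  by_cases d : j1 = j
  · subst d
    refine Or.inr ⟨rfl, fun v f => f.elim (fun g => fg_shut (fun o => o.stg ?_) g.tree)
      fun g => fg_shut (fun o => o.stg ?_) g.tree, hot rfl⟩
    · rw [Kl.stg, Kl.ty, a1]
      rfl
    · rw [Kl.stg, Kl.ty, hc, fg_cls _ _ (Or.inl rfl), Mac.alt_self]
      rfl
  have ix : ∀ m : ℕ, V.W.S.idx j1 ((bt (V.W.S.O.nx j1) ^ m) e0) = V.W.S.idx j1 e0 + m := fun m => by
    induction m with
    | zero => simp
    | succ m ih => rw [pow_succ', Equiv.Perm.mul_apply, V.W.S.idx_bt, ih, Nat.cast_succ, add_assoc]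
  obtain ⟨g, a2⟩ : ∃ g, (V.F.tree c).1 =
      (.tS (j1, V.W.S.fam j1 e0.1) (V.W.S.idx j1 e0 + n) g, .H) := by
    rw [hc, fg_cls _ _ (Or.inl rfl), V.W.S.O.alt_cold d, Pre.typ, Pre.tt, ix,
      ← show V.W.S.fam j1 _ = V.W.S.fam j1 e0.1 from V.W.B.fo_pow j1 (n + 1) e0, Nat.cast_succ,
      ← add_assoc, add_sub_cancel_right]
    exact ⟨_, rfl⟩
  rcases V.cases' j (V.F.tree a) with f | ⟨_, f⟩ | f
  · exact Or.inl (Or.inl (fg_lab f (ha ▸ V.W.S.lev_sn V.D_pos ..)))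
  swap
  · simp [Own, a1, d] at f
  rcases V.cases' j (V.F.tree c) with f' | ⟨_, f'⟩ | f'
  · exact Or.inl (Or.inr (Or.inl (fg_lab f' (hc ▸ V.W.S.lev_sn V.D_pos ..))))
  swap
  · simp [Own, a2, d] at f'
  have := f'.lz f a2 a1
  rw [add_sub_cancel_left, ZMod.val_natCast] at this
  omega

end Fw

end Pool.Agent.P.MP_439f1f_co
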