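import Pool.Agent.P.MP_439f1f_co.Sf7
import Pool.Agent.P.MP_439f1f_co.Sf8

/-!
Safety of the construction from the hot windows.
-/

set_option autoImplicit false

namespace Pool.Agent.P.MP_439f1f_co

open Function Sum

variable {K N : Type} [DecidableEq K] {r r0 q D e b : ℕ} [Finite K] [Finite N] [Nonempty K]

namespace Fw

variable (V : Fw K N r r0 q D e b)

/-- all hot windows are impossible -/
def Hots : Prop := ∀ j e0, ∀ n ≤ 3, (∀ i, 1 ≤ i → i < n → ((V.W.S.O.gam j j ^ i) e0).2 ≠ 1) →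
  V.W.Hot j e0 n (V.W.S.sn (V.W.S.O.sl j e0) true .Z)
    (V.W.S.sn (V.W.S.O.alt j j ((V.W.S.O.gam j j ^ n) e0)) false .H)

variable {V}

theorem Hots.adm (h : V.Hots) (j : K) : V.W.Adm j (V.opn j) where
  col := V.sf_col j
  can _ _ := sf_exit
  fn n := adm_fn n
  fm n := adm_fm n
  ln := V.sf_ln j
  pair := V.sf_pair j
  win j1 e0 n hn run a c ha hc := adm_win j1 e0 n hn a c ha hc fun d => by
    subst d ha hc
    exact h j1 e0 n hn (by simpa using run)

/-- **Safety of the construction.** -/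
theorem Hots.safe [Fintype (Hub K N (Pt K N) r0)] [DecidableEq (Hub K N (Pt K N) r0)]
    (h : V.Hots) : ¬(HL (2 * r + 9) V.W.S.hang).IsHamiltonian :=
  Wd.safe V.ev V.two_r0 V.od V.core fun j => ⟨_, h.adm j⟩

end Fw

end Pool.Agent.P.MP_439f1f_co
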