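import Pool.Agent.P.MP_439f1f_co.B20
import Pool.Agent.P.MP_439f1f_co.Dy5

/-!
The order of a state that ends with the items.
-/

set_option autoImplicit false
set_option linter.unusedSectionVars false

namespace Pool.Agent.P.MP_439f1f_co

open Function SimpleGraph Sum

section rot
variable {α β S : Type*} [LinearOrder β] {H : α → Prop} {pos : α → β} {nx : α → α} {u v : α}

open Classical in
/-- the order in which the set `H` comes first -/
noncomputable def rh (H : α → Prop) (pos : α → β) (u : α) : Bool ×ₗ β :=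
  toLex (decide (¬H u), pos u)

theorem rh_lt : rh H pos u < rh H pos v ↔ (H u ∧ ¬H v) ∨ ((H u ↔ H v) ∧ pos u < pos v) := by
  simp only [rh, Prod.Lex.toLex_lt_toLex, decide_eq_decide]
  by_cases h : H u <;> by_cases h' : H v <;> simp [h, h']

theorem rh_inj (h : rh H pos u = rh H pos v) : pos u = pos v := congrArg (fun p => (ofLex p).2) h

variable (up : ∀ u v, H u → pos u ≤ pos v → H v)
include up

theorem Cyc.rh (o : Cyc Set.univ nx pos) : Cyc Set.univ nx (rh H pos) := by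
  refine ⟨fun u hu v hv e => o.inj hu hv (rh_inj e), o.mem, fun u hu w hw h => ?_,
    fun u hu h w hw => ?_⟩
  · rw [← not_lt, rh_lt, rh_lt]
    rw [rh_lt] at h
    have := up u (nx u)
    have := up (nx u) w
    have := up w u
    have := up w (nx u)
    have := up u w
    rcases o.cases hu with ⟨a1, a2⟩ | ⟨a1, a2⟩
    · have := a2 w hw
      grind
    · have := a1 w hw
      have := a2 w hw
      grind
  · have b1 := h w hw
    have b2 := h _ (o.mem u hu)
    rw [← not_lt, rh_lt] at b1 b2 ⊢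
    have := up u (nx u)
    have := up (nx u) w
    have := up w u
    have := up (nx u) u
    rcases o.cases hu with ⟨a1, a2⟩ | ⟨a1, a2⟩
    · have := a2 w hw
      grind
    · have := a1 w hw
      have := a2 w hw
      have := a1 _ (o.mem u hu)
      grind

theorem CO.rh {l : List α} (h : CO (rh H pos) l) : CO pos l := by
  obtain ⟨k, h⟩ := h
  have k0 : ∀ l : List α, l.Pairwise (fun u v => MP_439f1f_co.rh H pos u < MP_439f1f_co.rh H pos v) →
      ∃ l1 l2, l = l1 ++ l2 ∧ (∀ u ∈ l1, H u) ∧ ∀ u ∈ l2, ¬H u := fun l h => by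
    induction l with
    | nil => exact ⟨[], [], rfl, by simp, by simp⟩
    | cons a l ih =>
      rw [List.pairwise_cons] at h
      by_cases c : H a
      · obtain ⟨l1, l2, rfl, a1, a2⟩ := ih h.2
        exact ⟨a :: l1, l2, rfl, List.forall_mem_cons.2 ⟨c, a1⟩, a2⟩
      · refine ⟨[], a :: l, rfl, by simp, List.forall_mem_cons.2 ⟨c, fun u hu => ?_⟩⟩
        have := rh_lt.1 (h.1 u hu)
        tauto
  have : IsTrans α fun u v => MP_439f1f_co.rh H pos u < MP_439f1f_co.rh H pos v :=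
    ⟨fun _ _ _ => lt_trans⟩
  rw [List.isChain_iff_pairwise] at h
  obtain ⟨l1, l2, e, a1, a2⟩ := k0 _ h
  rw [e, List.pairwise_append] at h
  refine ⟨k + l1.length, ?_⟩
  rw [← List.rotate_rotate, e, List.rotate_append_length_eq]
  refine List.Pairwise.isChain (List.pairwise_append.2 ⟨h.2.1.imp_of_mem fun {u v} hu hv e => ?_,
    h.1.imp_of_mem fun {u v} hu hv e => ?_, fun u hu v hv =>
      not_le.1 fun c => a2 u hu (up v u (a1 v hv) c)⟩)
  · have := a2 u hu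
    have := rh_lt.1 e
    tauto
  · have := a1 v hv
    have := rh_lt.1 e
    tauto

theorem Fr.rh {m : ℕ} {hang : α → ℕ → S → Prop} {c : S} {hb : α → S} {G : Set α}
    {T : List (S × S)} (h : Fr m hang c hb nx pos G T) : Fr m hang c hb nx (rh H pos) G T :=
  let ⟨τ, η, h0, h1, h2, h3, h4⟩ := h.base
  ⟨⟨τ, η, h0, h1, h2, h3, fun l a1 a2 => h4 l a1 (a2.rh up)⟩, h.cyc.rh up, h.he⟩

end rot

variable {K N ι : Type} {r r0 q D e b : ℕ} [DecidableEq K] [Finite K] [Finite N] [Nonempty K]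

namespace Fw

variable (V : Fw K N r r0 q D e b)

/-- the lines in the blocks at rest that come after the items -/
def Hi (j : K) (L : Hub K N (Pt K N) r0) : Prop :=
  (V.par j).dr = false ∧ ∃ n, V.W.Bk j L n ∧ V.Rest j (V.F.tree n)

/-- the line is not visited in a block of an item or of an entry tree -/
def InF (j : K) (L : Hub K N (Pt K N) r0) : Prop :=
  ∀ n, V.W.Bk j L n → ∀ a, ¬V.Role j a (V.F.tree n)

/-- the line is visited in a block of the item (or of the entry trees) `a` -/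
def InI (j : K) (a : Option Bool) (L : Hub K N (Pt K N) r0) : Prop :=
  ∃ n, V.W.Bk j L n ∧ V.Role j a (V.F.tree n)

/-- the order of the lines that ends with the items -/
noncomputable def fr (j : K) (L : Hub K N (Pt K N) r0) := rh (V.Hi j) (V.W.pos j) L

/-- the same for positions -/
noncomputable def fq (j : K) (p : Ps K N r r0) := pos2 (V.fr j) p

/-- the virtual order of the positions that ends with the items -/
noncomputable def vr (j : K) (l : ι → ℕ) (t : ι → N) (p : Ps K N r r0) :=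
  pos2 (rh (V.Hi j) (V.W.vp j l t)) p

/-- routes in the trees of the items -/
structure Rs (j : K) (l : ι → ℕ) (t : ι → N) : Prop extends V.W.Rs j l t where
  role : ∀ g, ∃ a, V.Role j a (V.F.tree (t g))

variable {V} {j : K} {l : ι → ℕ} {t : ι → N} {L L' : Hub K N (Pt K N) r0} {n n' : N}
  {a a' : Option Bool} {i i' : ℕ} {g g' : ι} {p p' : Ps K N r r0}
  {u w : Vx K N (Pt K N) r r0} {b1 b2 b3 : List Bool} {p1 p2 p3 : List (Ps K N r r0)}

theorem inF_or (V : Fw K N r r0 q D e b) (j : K) (L : Hub K N (Pt K N) r0) :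
    V.InF j L ∨ ∃ a, V.InI j a L := by
  by_contra c
  simp only [InF, InI, not_or, not_forall, not_not, not_exists, not_and] at c
  obtain ⟨⟨n, a1, a, a2⟩, c⟩ := c
  exact c a n a1 a2

theorem InI.not_hi (h : V.InI j a L) : ¬V.Hi j L := fun ⟨_, _, c, d⟩ =>
  let ⟨_, a1, a2⟩ := h
  a2.not_rest (c.unique a1 ▸ d)

theorem Hi.inF (h : V.Hi j L) : V.InF j L := fun n c _ d => InI.not_hi ⟨n, c, d⟩ h

theorem Rest.inF (h : V.Rest j (V.F.tree n)) (c : V.W.Bk j L n) : V.InF j L :=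
  fun _ d _ f => f.not_rest (c.unique d ▸ h)

theorem Role.inI (h : V.Role j a (V.F.tree n)) (c : V.W.Bk j L n) : V.InI j a L := ⟨n, c, h⟩

theorem hi_congr (h : V.W.Bk j L n) (h' : V.W.Bk j L' n') (c : V.F.tree n = V.F.tree n') :
    V.Hi j L ↔ V.Hi j L' :=
  and_congr_right' ⟨fun ⟨_, a1, a2⟩ => ⟨n', h', c ▸ a1.unique h ▸ a2⟩,
    fun ⟨_, a1, a2⟩ => ⟨n, h, c ▸ a1.unique h' ▸ a2⟩⟩

theorem hi_lp (h : V.W.lp j L = V.W.lp j L') : V.Hi j L ↔ V.Hi j L' := by
  simp only [Hi, Wd.Bk, Wd.bl, h]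

theorem Hi.up (h : V.Hi j L) (c : V.W.pos j L ≤ V.W.pos j L') : V.Hi j L' := by
  obtain ⟨d, n, a1, a2⟩ := h
  rcases V.S.out_or j L' with ⟨x, b1, -⟩ | ⟨-, b⟩
  exacts [⟨d, x, b1, a2.up d (Sw.key_le a1 b1 c)⟩, absurd (b _ n a1 (fam_two a2.1)) c.not_gt]

theorem fr_lt : V.fr j L < V.fr j L' ↔
    (V.Hi j L ∧ ¬V.Hi j L') ∨ ((V.Hi j L ↔ V.Hi j L') ∧ V.W.pos j L < V.W.pos j L') := rh_lt

theorem fr_of (h : V.Hi j L' → V.Hi j L) (c : V.W.pos j L < V.W.pos j L') :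
    V.fr j L < V.fr j L' := fr_lt.2 (Or.inr ⟨⟨fun d => d.up c.le, h⟩, c⟩)

theorem fr_inj (h : V.fr j L = V.fr j L') : L = L' :=
  (V.W.S.O.cyc j).inj trivial trivial (rh_inj h)

theorem fq_lt (h : V.fr j L < V.fr j L') : V.fq j (pz L i) < V.fq j (pz L' i') :=
  pos2_lt.2 (Or.inl h)

theorem fq_line (h : i < i') (h' : i' ≤ 2 * r + 10) : V.fq j (pz L i) < V.fq j (pz L i') :=
  pos2_lt.2 (Or.inr ⟨rfl, by rwa [Fin.lt_def, pz_val h', pz_val (h.le.trans h')]⟩)

theorem vr_line (h : i < i') (h' : i' ≤ 2 * r + 10) :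
    V.vr j l t (pz L i) < V.vr j l t (pz L i') :=
  pos2_lt.2 (Or.inr ⟨rfl, by rwa [Fin.lt_def, pz_val h', pz_val (h.le.trans h')]⟩)

/-- the items come last -/
theorem InF.pos_lt (h : V.InF j L) (c : ¬V.Hi j L) (h' : V.InI j a L') :
    V.W.pos j L < V.W.pos j L' := by
  obtain ⟨n', b1, b2⟩ := h'
  rcases V.S.out_or j L with ⟨x, a1, -⟩ | ⟨-, d⟩
  · refine Sw.lt_of_key a1 b1 ?_
    by_cases s : (V.F.tree x).stg = j
    · exact fz_lt s b2.1
    · have f := (role_or_rest (V := V) s).resolve_left fun ⟨a, f⟩ => h x a1 a f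
      exact rest_lt f b2 (by_contra fun d => c ⟨by simpa using d, x, a1, f⟩)
  · exact d _ _ b1 (fam_two b2.1)

namespace Rs

variable (k : V.Rs j l t)
include k

theorem out (h : V.InF j L) : (V.W.rts l t).Out (V.W.pos j) L :=
  k.toRs.out_of fun g a c _ d => let ⟨_, f⟩ := k.role g; h a d _ (c.1.tree ▸ f)

theorem an_I (h : V.InI j a L) : V.InI j a ((V.W.rts l t).an (V.W.pos j) L) :=
  let ⟨_, a1, a2⟩ := h
  let ⟨y, b1, b2⟩ := k.toRs.an_bk a1
  ⟨y, b2, (show V.F.tree y = _ from b1.tree) ▸ a2⟩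

theorem inI_cut (h : V.Role j a (V.F.tree (t g))) : V.InI j a (V.W.cut (l g) (t g)) :=
  ⟨_, Wd.bk_cut j _ _, (show V.F.tree _ = _ from (k.toRs.on_cut g).1.tree) ▸ h⟩

theorem hi_up (L L' : Hub K N (Pt K N) r0) (h : V.Hi j L) (c : V.W.vp j l t L ≤ V.W.vp j l t L') :
    V.Hi j L' := by
  rcases V.inF_or j L' with d | ⟨a, d⟩
  · exact h.up (not_lt.1 fun f => c.not_gt ((Rts.vp_out (k.out d) (k.out h.inF)).2 f))
  · refine absurd (h.up (not_lt.1 fun f => c.not_gt (Rts.vp_of_an ?_))) (k.an_I d).not_hi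
    rwa [Rts.an_out (k.out h.inF)]

/-- from the virtual order of `B20` -/
theorem of_vq (h : V.Hi j p'.1 → V.Hi j p.1) (c : V.W.vq j l t p < V.W.vq j l t p') :
    V.vr j l t p < V.vr j l t p' :=
  pos2_lt.2 ((pos2_lt.1 c).imp (fun c => rh_lt.2 (Or.inr ⟨⟨fun d => k.hi_up _ _ d c.le, h⟩, c⟩))
    fun c => ⟨by rw [Rts.Ok.vp_inj (V.W.lref j) c.1], c.2⟩)

theorem of_vp (h : V.InI j a L') (c : V.W.vp j l t L < V.W.vp j l t L') :
    V.vr j l t (pz L i) < V.vr j l t (pz L' i') :=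
  k.of_vq (fun d => absurd d h.not_hi) (Wd.vq_lt c)

theorem of_vqI (h : V.InI j a p'.1) (c : V.W.vq j l t p < V.W.vq j l t p') :
    V.vr j l t p < V.vr j l t p' := k.of_vq (fun d => absurd d h.not_hi) c

/-- **The items come last.** -/
theorem FI (h : V.InF j L) (h' : V.InI j a L') : V.vr j l t (pz L i) < V.vr j l t (pz L' i') := by
  refine pos2_lt.2 (Or.inl (rh_lt.2 ?_))
  by_cases c : V.Hi j L
  · exact Or.inl ⟨c, h'.not_hi⟩
  · refine Or.inr ⟨iff_of_false c h'.not_hi, Rts.vp_of_an ?_⟩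
    rw [pz, Rts.an_out (k.out h)]
    exact h.pos_lt c (k.an_I h')

/-- **The order of the items.** -/
theorem II (h : V.InI j a L) (h' : V.InI j a' L') (d : (V.par j).rook = false)
    (c : (V.par j).zi a < (V.par j).zi a') : V.vr j l t (pz L i) < V.vr j l t (pz L' i') :=
  let ⟨_, a1, a2⟩ := k.an_I h
  let ⟨_, b1, b2⟩ := k.an_I h'
  k.of_vp h' (Rts.vp_of_an (Sw.lt_of_key a1 b1 (a2.lt b2 d c)))

/-- **The order outside the items.** -/
theorem FF (h : V.InF j p.1) (h' : V.InF j p'.1) (c : V.fq j p < V.fq j p') :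
    V.vr j l t p < V.vr j l t p' :=
  pos2_lt.2 ((pos2_lt.1 c).imp
    (fun c => rh_lt.2 ((fr_lt.1 c).imp_right (And.imp_right (Rts.vp_out (k.out h) (k.out h')).2)))
    fun c => ⟨by rw [fr_inj c.1], c.2⟩)

theorem F_cut (h : V.InF j L) (g : ι) :
    V.vr j l t (pz L i) < V.vr j l t (pz (V.W.cut (l g) (t g)) 0) :=
  let ⟨_, a⟩ := k.role g
  k.FI h (k.inI_cut a)

theorem cut_cut (h : (V.L j).key (t g) < (V.L j).key (t g')) :
    V.vr j l t (pz (V.W.cut (l g) (t g)) 0) < V.vr j l t (pz (V.W.cut (l g') (t g')) 0) :=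
  let ⟨_, a⟩ := k.role g'
  k.of_vp (k.inI_cut a) (Sw.cut_lt_cut k.toRs h)

theorem cut_ne (h : g ≠ g') :
    (pz (V.W.cut (l g) (t g)) 0 : Ps K N r r0) ≠ pz (V.W.cut (l g') (t g')) 0 :=
  pz_ne fun c => h (k.dis g g' _ (k.toRs.on_cut g) (inl.inj (inl.inj c) ▸ k.toRs.on_cut g'))

/-- a line in the block `n` of an item and a token -/
theorem bk_cut (h : V.W.Bk j L n)
    (c : ∀ y, V.W.Anb l t n y → (V.L j).key y < (V.L j).key (t g)) :
    V.vr j l t (pz L i) < V.vr j l t (pz (V.W.cut (l g) (t g)) 0) :=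
  let ⟨_, a⟩ := k.role g
  k.of_vp (k.inI_cut a) (Sw.bk_lt_cut k.toRs h c)

theorem cut_bk (h : V.W.Bk j L n) (d : V.Role j a (V.F.tree n))
    (c : ∀ y, V.W.Anb l t n y → (V.L j).key (t g) < (V.L j).key y) :
    V.vr j l t (pz (V.W.cut (l g) (t g)) 0) < V.vr j l t (pz L i) :=
  k.of_vp (d.inI h) (Sw.cut_lt_bk k.toRs h c)

theorem bk_bk (h : V.W.Bk j L n) (h' : V.W.Bk j L' n') (d : V.Role j a (V.F.tree n'))
    (c : ∀ y y', V.W.Anb l t n y → V.W.Anb l t n' y' → (V.L j).key y < (V.L j).key y') :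
    V.vr j l t (pz L i) < V.vr j l t (pz L' i') := k.of_vp (d.inI h') (Sw.bk_lt k.toRs h h' c)

/-- **Service by two chains.** -/
theorem serve (c1 : V.W.Ch j l t (inl none) b1 p1 u) (c2 : V.W.Ch j l t (inl none) b2 p2 w)
    (a : u ≠ w) (hO : ∀ g, pz (V.W.cut (l g) (t g)) 0 ∈ p1 ++ p2) (F : List Fm)
    (ne : List (ℕ × ℕ)) (ok : chkC b1 b2 F ne = true)
    (hF : F.Forall (Fm.Holds fun n => V.vr j l t (nth (pz (inr (j, none, 0)) 0) (p1 ++ p2) n)))
    (hn : ne.Forall fun c => nth (pz (inr (j, none, 0)) 0) (p1 ++ p2) c.1 ≠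
      nth (pz (inr (j, none, 0)) 0) (p1 ++ p2) c.2) : V.W.Sv u w := fun {_ _} => by
  have v := funext (k.toRs.ok.vh_vn (nxt := V.W.S.O.nxt j))
  refine ((k.toRs.fr (O := ((p1 ++ p2).filter (·.2 = 0)).map Prod.fst) fun g =>
    List.mem_map.2 ⟨_, List.mem_filter.2 ⟨hO g, decide_eq_true rfl⟩, rfl⟩).rh k.hi_up).chains
    (by omega) (v ▸ c1) (v ▸ c2) a (fun L h => ?_) _ ok hF hn
  obtain ⟨⟨_, y⟩, f, rfl⟩ := List.mem_map.1 h
  obtain ⟨f, c⟩ := List.mem_filter.1 f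
  obtain rfl : y = 0 := by simpa using c
  exact f

end Rs

theorem Rs.one {l0 : ℕ} {t0 : N} (h0 : V.W.Run j l0 t0) (a0 : V.Role j a (V.F.tree t0)) :
    V.Rs j ![l0] ![t0] := ⟨.one h0, fun i => by fin_cases i; exact ⟨_, a0⟩⟩

theorem Rs.two {l0 l1 : ℕ} {t0 t1 : N} (h0 : V.W.Run j l0 t0) (h1 : V.W.Run j l1 t1)
    (g : ∀ a, V.W.On l0 t0 a → ¬V.W.On l1 t1 a) (a0 : V.Role j a (V.F.tree t0))
    (a1 : V.Role j a' (V.F.tree t1)) : V.Rs j ![l0, l1] ![t0, t1] :=
  ⟨.two h0 h1 g, fun i => by fin_cases i; exacts [⟨_, a0⟩, ⟨_, a1⟩]⟩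

end Fw

end Pool.Agent.P.MP_439f1f_co
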