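import Pool.Agent.P.MP_439f1f_co.Sv0

/-!
The choice of a state: the items are given by trees.
-/

set_option autoImplicit false
set_option linter.unusedSectionVars false

namespace Pool.Agent.P.MP_439f1f_co

open Function Sum

variable {K N : Type} {r r0 q D e b : ℕ}

namespace Kl

variable (x y : Kl K r r0)

/-- the colour -/
abbrev col : ZMod 3 := x.ty.col

/-- `y` is the next slot of the half line -/
def Con : Prop := x.ty = y.ty ∧ y.off = x.off + 1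

/-- the middle of a line -/
def Jun : Prop := x.ty.hd = false ∧ x.sl = .Z ∧ y.ty.hd = true ∧ y.sl = .H ∧ x.col = y.col

/-- an entry label and the last label before the node -/
def Mz : Prop := ∃ w c k, x.1 = (.hM w c k, .Z) ∧ y.1 = (.hP w c, .Z)

/-- an entry label and the first label of a moat line -/
def Mh : Prop := ∃ w c k i, x.1 = (.hM w c k, .Z) ∧ y.1 = (.tE w c i, .H)

/-- the ends of a short run -/
def Lz : Prop := ∃ w p c p' c', x.1 = (.tS w p c, .H) ∧ y.1 = (.hS w p' c', .Z) ∧ (p - p').val < 4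

/-- `x` and `y` can only be served in their own state -/
def Own : Prop := x.Lz y ∨ y.Lz x

/-- a cut at the level `k` in a tree of the colour `c` is possible while `x` is alive -/
def Hk (k : ℕ) (c : ZMod 3) : Prop := ∀ w l, x.1 = (.tN w (c + 1) l, .H) → lc k ≠ l

/-- the tree of the entry labels -/
def ent (k : Fin (r0 + 1)) : Kl K r r0 := ⟨(.hM x.ty.wor (x.col + 1) k, .Z), trivial⟩

variable {x y}

@[simp] theorem col_kind : x.kind.col = x.col := HT.col_map (fun _ => ()) x.ty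
@[simp] theorem off_kind : x.kind.off = x.off := by simp [Kl.off]
@[simp] theorem col_ent {k : Fin (r0 + 1)} : (x.ent k).col = x.col + 1 := rfl
@[simp] theorem stg_ent {k : Fin (r0 + 1)} : (x.ent k).stg = x.stg := rfl
theorem val_ent {k : Fin (r0 + 1)} : (x.ent k).1 = (.hM x.ty.wor (x.col + 1) k, .Z) := rfl

theorem kind_ent {k : Fin (r0 + 1)} : (x.ent k).kind = x.kind.ent k :=
  Subtype.ext (by rw [val_kind, val_ent, col_kind, ty_kind x, HT.wor_map]; rfl)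

theorem col_of_kind (h : x.kind = y.kind) : x.col = y.col := by
  simpa using congrArg Kl.col h

theorem kind_ne (h : x.col ≠ y.col) : x.kind ≠ y.kind := mt col_of_kind h

theorem col_val {t : HT K r0} {σ : Slot (r + 1)} (h : x.1 = (t, σ)) : x.col = t.col := by
  rw [col, Kl.ty, h]

theorem ty_val {t : HT K r0} {σ : Slot (r + 1)} (h : x.1 = (t, σ)) : x.ty = t := by rw [Kl.ty, h]
theorem sl_val {t : HT K r0} {σ : Slot (r + 1)} (h : x.1 = (t, σ)) : x.sl = σ := by rw [Kl.sl, h]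

theorem ty_of_kind (h : x.kind.ty = y.kind.ty) (s : x.stg = y.stg) : x.ty = y.ty := by
  rw [← x.ty.map_fg, ← y.ty.map_fg, ← ty_kind, h, show x.ty.wor.1 = _ from s]
  rfl

theorem Con.col (h : x.Con y) : x.col = y.col := congrArg HT.col h.1
theorem Jun.col (h : x.Jun y) : x.col = y.col := h.2.2.2.2
theorem Mz.col (h : x.Mz y) : x.col = y.col :=
  let ⟨_, _, _, a, c⟩ := h; (col_val a).trans (col_val c).symm
theorem Mh.col (h : x.Mh y) : x.col = y.col :=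
  let ⟨_, _, _, _, a, c⟩ := h; (col_val a).trans (col_val c).symm

theorem Hk.of_col {k : ℕ} {c : ZMod 3} (h : x.col ≠ c + 1) : x.Hk k c :=
  fun _ _ a => absurd (col_val a) h

theorem Hk.of_sl {k : ℕ} {c : ZMod 3} (h : x.sl ≠ .H) : x.Hk k c :=
  fun _ _ a => absurd (sl_val a) h

end Kl

namespace Par

variable (π : Par r r0 D) (A : Bool → Set (Kl K r r0))

/-- the parameters with the items `A` and the selectors `s` -/
def set (s : Bool → Bool) : Par r r0 D :=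
  { π with ks := fun i => Kl.kind '' A i, sel := fun i => some (s i) }

/-- the trees of the items and the entry trees -/
def Mt : Option Bool → Kl K r r0 → Prop
  | some i, T => T ∈ A i
  | none, T => ∃ i, ∃ T0 ∈ A i, π.op = some i ∧ T = T0.ent π.ek

/-- alive or open -/
def At (a : Option Bool) (T : Kl K r r0) : Prop :=
  π.Mt A a T ∧ ∀ i, a = some i → π.cut i = 0 ∨ π.op = some i

/-- the order of two related trees -/
def Ot (a a' : Option Bool) (c : ZMod 3) : Prop :=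
  (∀ i, π.op = some i → a ≠ some i ∧ a' ≠ some i) ∧ π.zi a' < π.zi a ∧
    ∀ a0 T, π.Mt A a0 T → T.col + 1 = c → π.zi a0 < π.zi a' ∨ π.zi a < π.zi a0

/-- **Admissible items**, in terms of trees. -/
structure TA : Prop where
  stg : ∀ i, ∀ T ∈ A i, ∀ T' ∈ A i, T.stg = T'.stg
  kap : ∀ c, π.kap c = 2 ∨ π.kap c = 4 ∨ π.kap c = 6
  cut : ∀ i, (π.cut i : ℕ) % 2 = 0 ∨ (π.cut i : ℕ) = D
  dis : ∀ a a' T, π.Mt A a T → π.Mt A a' T → a = a'
  rook : π.rook = true → π.op = none ∧ ∀ i, π.cut i = 0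
  lev : ∀ a T c, π.At A a T → T.Hk (π.kap c) c ∧
    ∀ i, ∀ T' ∈ A i, π.cut i ≠ 0 → T.Hk (π.cut i) T'.col
  con : ∀ a a' T T', π.At A a T → π.At A a' T' → T.Con T' → π.Ot A a a' T.col ∧ (π.rook = true →
    π.lk true = some (T.sl.lk T'.sl).1 ∧ π.lk false = some (T.sl.lk T'.sl).2)
  jun : ∀ a a' T T', π.At A a T → π.At A a' T' → T.Jun T' → π.Ot A a a' T.col ∧ π.rook = false
  mz : ∀ a a' T T' w c k, π.At A a T → π.At A a' T' → T.1 = (.hM w (c + 1) k, .Z) →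
    T'.1 = (.hP w (c + 1), .Z) → π.Ot A a a' (c + 1) ∧ (π.rook = true → ∀ i, π.lk i = none) ∧
      (a = none → π.flip = true) ∧ k ≤ π.np c
  mh : ∀ a a' T T' w c k i, π.At A a T → π.At A a' T' → T.1 = (.hM w (c + 1) k, .Z) →
    T'.1 = (.tE w (c + 1) i, .H) → a ≠ none ∧ (el (r0 + 1) (π.np c) k < el (r0 + 1) (π.np c) i ∨
      (k = i ∧ el (r0 + 1) (π.np c) i % 2 = 0))
  lz : ∀ a a' T T', π.At A a T → π.At A a' T' → ¬T.Lz T'
  np1 : ∀ c c', π.np c ≠ Fin.last _ → π.np c' ≠ Fin.last _ → c = c'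
  np2 : ∀ c, π.np c ≠ Fin.last _ → π.op = none
  np3 : ∀ a T w c k, π.At A a T → T.1 = (.hM w (c + 1) k, .Z) → (π.np c : ℕ) % 2 = 0 → k ≤ π.np c
  one : ∀ i, π.op = some i → (A i).Subsingleton ∧ (π.cut i : ℕ) ≤ 6 ∧ (π.ek : ℕ) % 2 = 1 ∧
    (π.cut (!i) = 0 ∨ (π.cut (!i) : ℕ) = D)
  nom : ∀ i, π.op = some i → π.cut (!i) = 0 → ∀ T ∈ A (!i), ∀ T0 ∈ A i, ∀ w k,
    T.1 ≠ (.hM w (T0.col + 1) k, .Z)
  nxt : ∀ i, π.op = some i → ∀ T ∈ A i, ∀ w c l, T.1 = (.tN w c l, .H) →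
    (i = false ∧ π.fl = 1) ∨ (π.fl = 2 ∧ (i = true ∨ ∀ T' ∈ A (!i), T'.col + 1 ≠ c))
  flip : π.flip = true → π.fl = 2 ∧ ∀ i, π.op = some i → ∀ T ∈ A (!i), i = false ∧
    π.cut true = 0 ∧ ∀ T0 ∈ A i, ∃ w, T.1 = (.hP w (T0.col + 1), .Z)

variable {π A} {s : Bool → Bool} {a a' : Option Bool} {κ κ' : Kd r r0} {T T' : Kl K r r0}

theorem mem_set : (π.set A s).mem a κ ↔ ∃ T, π.Mt A a T ∧ T.kind = κ := by
  rcases a with _ | i
  · constructor
    · rintro ⟨i, _, ⟨T, a1, rfl⟩, a2, a3⟩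
      exact ⟨_, ⟨i, T, a1, a2, rfl⟩, Kl.kind_ent.trans (Subtype.ext a3.symm)⟩
    · rintro ⟨_, ⟨i, T, a1, a2, rfl⟩, rfl⟩
      exact ⟨i, _, ⟨T, a1, rfl⟩, a2, congrArg Subtype.val Kl.kind_ent⟩
  · rfl

theorem al_set : (π.set A s).Al a κ ↔ ∃ T, π.At A a T ∧ T.kind = κ :=
  ⟨fun h => let ⟨T, a1, a2⟩ := mem_set.1 h.1; ⟨T, ⟨a1, h.2⟩, a2⟩,
    fun ⟨T, a1, a2⟩ => ⟨mem_set.2 ⟨T, a1.1, a2⟩, a1.2⟩⟩

theorem Ot.ord {c : ZMod 3} (h : π.Ot A a a' c) : (π.set A s).Ord a a' c :=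
  ⟨h.1, h.2.1, fun a0 _ m d => by
    obtain ⟨T, a1, rfl⟩ := mem_set.1 m
    exact h.2.2 a0 T a1 (by simpa using d)⟩

theorem Mt.side (h : π.Mt A a T) :
    ∃ i, (π.set A s).sl a = some (s i) ∧ ∃ T0 ∈ A i, T.stg = T0.stg := by
  rcases a with _ | i
  · obtain ⟨i, T0, a1, a2, rfl⟩ := h
    exact ⟨i, by simp [sl, set, a2], T0, a1, rfl⟩
  · exact ⟨i, rfl, T, h, rfl⟩

theorem TA.adm (h : π.TA A)
    (hs : ∀ i i', s i = s i' → ∀ T ∈ A i, ∀ T' ∈ A i', T.stg = T'.stg) : (π.set A s).Adm := by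
  have sh : ∀ {a a' T T'}, π.Mt A a T → π.Mt A a' T' → (π.set A s).Shr a a' → T.stg = T'.stg :=
    fun c c' d => by
      obtain ⟨i, a1, T0, a2, a3⟩ := c.side (s := s)
      obtain ⟨i', b1, T1, b2, b3⟩ := c'.side (s := s)
      rw [a3, b3, hs i i' (d _ _ a1 b1) _ a2 _ b2]
  refine ⟨h.kap, h.cut, fun a a' κ ne c c' d => ?_, h.rook, fun a κ w c l m d => ?_,
    fun a a' κ κ' m m' d t o => ?_, fun a a' κ κ' m m' t1 t2 t3 t4 t5 => ?_,
    fun a a' κ κ' w c k m m' d t t' => ?_, fun a a' κ κ' w c k i m m' d t t' => ?_,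
    fun a a' κ κ' w p c p' c' m m' d t t' => ?_, h.np1, h.np2, fun a κ w c k m t => ?_,
    fun i o => ⟨(h.one i o).1.image _, (h.one i o).2⟩, ?_, ?_, fun f => ⟨(h.flip f).1, ?_⟩⟩
  · obtain ⟨T, a1, rfl⟩ := mem_set.1 c
    obtain ⟨T', b1, b2⟩ := mem_set.1 c'
    obtain rfl := Kl.ext_kind b2 (sh a1 b1 d).symm
    exact ne (h.dis _ _ _ a1 b1)
  · obtain ⟨T, a1, rfl⟩ := al_set.1 m
    refine ⟨(h.lev a T c a1).1 _ _ (Kl.val_of_kind d), ?_⟩
    rintro i _ ⟨T', b1, rfl⟩ rfl f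
    exact (h.lev a T 0 a1).2 i T' b1 f _ _ ((Kl.val_of_kind d).trans (by rw [← Kl.col_kind]; rfl))
  · obtain ⟨T, a1, rfl⟩ := al_set.1 m
    obtain ⟨T', b1, rfl⟩ := al_set.1 m'
    have := h.con a a' T T' a1 b1 ⟨Kl.ty_of_kind t (sh a1.1 b1.1 d), by simpa using o⟩
    exact ⟨by simpa using this.1.ord, this.2⟩
  · obtain ⟨T, a1, rfl⟩ := al_set.1 m
    obtain ⟨T', b1, rfl⟩ := al_set.1 m'
    have := h.jun a a' T T' a1 b1 ⟨by simpa using t1, t2, by simpa using t3, t4, by simpa using t5⟩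
    exact ⟨by simpa using this.1.ord, this.2⟩
  · obtain ⟨T, a1, rfl⟩ := al_set.1 m
    obtain ⟨T', b1, rfl⟩ := al_set.1 m'
    have := h.mz a a' T T' _ c k a1 b1 (Kl.val_of_kind t) (sh a1.1 b1.1 d ▸ Kl.val_of_kind t')
    exact ⟨this.1.ord, this.2⟩
  · obtain ⟨T, a1, rfl⟩ := al_set.1 m
    obtain ⟨T', b1, rfl⟩ := al_set.1 m'
    exact h.mh a a' T T' _ c k i a1 b1 (Kl.val_of_kind t) (sh a1.1 b1.1 d ▸ Kl.val_of_kind t')
  · obtain ⟨T, a1, rfl⟩ := al_set.1 m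
    obtain ⟨T', b1, rfl⟩ := al_set.1 m'
    exact not_lt.1 fun f => h.lz a a' T T' a1 b1
      ⟨_, p, c, p', c', Kl.val_of_kind t, sh a1.1 b1.1 d ▸ Kl.val_of_kind t', f⟩
  · obtain ⟨T, a1, rfl⟩ := al_set.1 m
    exact h.np3 a T _ c k a1 (Kl.val_of_kind t)
  · rintro i o f _ ⟨T, a1, rfl⟩ _ ⟨T0, b1, rfl⟩ w k t
    exact h.nom i o f T a1 T0 b1 _ k ((Kl.val_of_kind t).trans (by rw [← Kl.col_kind]; rfl))
  · rintro i o _ ⟨T, a1, rfl⟩ w c l t
    rcases h.nxt i o T a1 _ c l (Kl.val_of_kind t) with f | ⟨f, g | g⟩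
    · exact Or.inl f
    · exact Or.inr (Or.inl ⟨f, Or.inl g⟩)
    · refine Or.inr (Or.inr ⟨f, ?_⟩)
      rintro _ ⟨T', b1, rfl⟩
      simpa using g T' b1
  · rintro i o _ ⟨T, a1, rfl⟩
    obtain ⟨b1, b2, b3⟩ := (h.flip f).2 i o T a1
    refine ⟨b1, b2, ?_⟩
    rintro _ ⟨T0, c1, rfl⟩
    obtain ⟨w, c2⟩ := b3 T0 c1
    exact ⟨_, (Kl.kind_of_val c2).trans (by rw [← Kl.col_kind]; rfl)⟩

end Par

variable [DecidableEq K] [Finite K] [Finite N] [Nonempty K]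

namespace Fw

variable (V : Fw K N r r0 q D e b)

/-- the state `j` of the group `g` has the parameters `π` and the items `A`; a tree of the list
`E` belongs to an item only if it is in `A` -/
structure St (g : Fin 64) (π : Par r r0 D) (A : Bool → Set (Kl K r r0)) (E : List (Kl K r r0))
    (j : K) : Prop where
  grp : V.grp j = g
  par : ∃ s, V.par j = π.set A s
  role : ∀ i, ∀ T ∈ A i, T.stg ≠ j → V.Role j (some i) T
  only : ∀ i, ∀ T ∈ E, V.Role j (some i) T → T ∈ A i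

/-- **The choice of a state.** -/
theorem exists_st (g : Fin 64) {π : Par r r0 D} {A : Bool → Set (Kl K r r0)} (h : π.TA A)
    (E : List (Kl K r r0)) (len : E.length ≤ 6)
    (hE : ∀ T ∈ E, ∀ T' ∈ E, ∀ x ∈ A false, ∀ y ∈ A true, T.kind = x.kind → T'.kind = y.kind →
      T.stg = T'.stg → T.stg = x.stg ∨ T'.stg = y.stg) : ∃ j, V.St g π A E j := by
  classical
  have k : ∀ i, ∃ z, ∀ T ∈ A i, T.stg = z := fun i => by
    rcases (A i).eq_empty_or_nonempty with c | ⟨T, c⟩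
    exacts [⟨Classical.arbitrary K, by simp [c]⟩, ⟨_, fun T' d => h.stg i T' d T c⟩]
  choose z hz using k
  obtain ⟨w, a1, a2⟩ := V.shat (z false :: z true :: E.map Kl.stg) (fun a => decide (a = z false ∨
    (z true ≠ z false ∧ a ≠ z true ∧ ∃ T ∈ E, T.stg = a ∧ ∃ y ∈ A true, T.kind = y.kind)))
    (by simp; omega)
  have b1 : ∀ i, w (z i) = decide (z i = z false) := fun i => by
    rw [a1 _ (by cases i <;> simp)]
    cases i <;> simp
  obtain ⟨j, c1, c2, c3⟩ := a2 g _ (h.adm (s := fun i => decide (z i = z false))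
    fun i i' d T f T' f' => by
      rw [hz i T f, hz i' T' f']
      cases i <;> cases i' <;> simp_all)
  refine ⟨j, c1, ⟨_, c2⟩, fun i T c d => ⟨d, ?_⟩, fun i T c d => ?_⟩
  · rw [c2, c3]
    exact ⟨⟨T, c, rfl⟩, fun s f => by rw [hz i T c, b1]; exact Option.some.inj f⟩
  · have d := d.2
    rw [c2, c3] at d
    obtain ⟨⟨x, d1, d2⟩, d3⟩ := d
    have d3 := d3 _ rfl
    rw [a1 _ (List.mem_cons_of_mem _ (List.mem_cons_of_mem _ (List.mem_map_of_mem c))), decide_eq_decide] at d3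
    refine Kl.ext_kind d2 ((hz i x d1).trans (by_contra fun f => ?_)) ▸ d1
    cases i
    · obtain ⟨g1, g2, T', g3, g4, y, g5, g6⟩ := (d3.2 rfl).resolve_left fun g => f g.symm
      rcases hE T c T' g3 x d1 y g5 d2.symm g6 g4.symm with g | g
      exacts [f ((hz _ x d1).symm.trans g.symm), g2 (g4.symm.trans (g.trans (hz _ y g5)))]
    · by_cases g : z true = z false
      · exact (d3.2 g).elim (fun g' => f (g.trans g'.symm)) fun g' => g'.1 g
      · exact g (d3.1 (Or.inr ⟨g, fun g' => f g'.symm, T, c, rfl, x, d1, d2.symm⟩))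

namespace St

variable {V} {g : Fin 64} {π : Par r r0 D} {A : Bool → Set (Kl K r r0)} {E : List (Kl K r r0)}
  {j : K} {T T' : Kl K r r0} {i : Bool} {a : Option Bool} (s : V.St g π A E j)
include s

theorem dr : (V.par j).dr = π.dr := let ⟨_, h⟩ := s.par; h ▸ rfl
theorem cd : (V.par j).cd = π.cd := let ⟨_, h⟩ := s.par; h ▸ rfl
theorem rk : (V.par j).rk = π.rk := let ⟨_, h⟩ := s.par; h ▸ rfl
theorem rook : (V.par j).rook = π.rook := let ⟨_, h⟩ := s.par; h ▸ rfl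
theorem sp : (V.par j).sp = π.sp := let ⟨_, h⟩ := s.par; h ▸ rfl
theorem flip : (V.par j).flip = π.flip := let ⟨_, h⟩ := s.par; h ▸ rfl
theorem kap : (V.par j).kap = π.kap := let ⟨_, h⟩ := s.par; h ▸ rfl
theorem dir : (V.par j).dir = π.dir := let ⟨_, h⟩ := s.par; h ▸ rfl
theorem cut : (V.par j).cut = π.cut := let ⟨_, h⟩ := s.par; h ▸ rfl
theorem lk : (V.par j).lk = π.lk := let ⟨_, h⟩ := s.par; h ▸ rfl
theorem op : (V.par j).op = π.op := let ⟨_, h⟩ := s.par; h ▸ rfl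
theorem fl : (V.par j).fl = π.fl := let ⟨_, h⟩ := s.par; h ▸ rfl
theorem ek : (V.par j).ek = π.ek := let ⟨_, h⟩ := s.par; h ▸ rfl
theorem np : (V.par j).np = π.np := let ⟨_, h⟩ := s.par; h ▸ rfl
theorem zi (a : Option Bool) : (V.par j).zi a = π.zi a := let ⟨_, h⟩ := s.par; h ▸ rfl

theorem kind (h : V.Role j a T) : ∃ T0, π.Mt A a T0 ∧ T0.kind = T.kind :=
  let ⟨_, c⟩ := s.par
  Par.mem_set.1 (c ▸ h.2.1)

theorem liv (h : T ∈ A i) (c : T.stg ≠ j) (d : π.cut i = 0) : V.Liv j T :=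
  (s.role i T h c).liv' (s.cut ▸ d)

theorem ot (h : T ∈ A i) (c : T.stg ≠ j) (d : π.op = some i) : V.Ot j T :=
  ⟨i, s.role i T h c, s.op ▸ d⟩

theorem opn {n : N} (h : V.F.tree n ∈ A i) (c : (V.F.tree n).stg ≠ j) (d : π.op = some i)
    (f : (π.cut i : ℕ) ≤ V.F.lev n) : V.Opn j n := ⟨i, s.role i _ h c, s.op ▸ d, s.cut ▸ f⟩

theorem ent (h : T ∈ A i) (c : T.stg ≠ j) (d : π.op = some i) : V.Role j none (T.ent π.ek) :=
  (s.ot h c d).entry (s.ek ▸ rfl)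

/-- a tree whose kind does not occur is at rest -/
theorem rest_kind (c : T.stg ≠ j) (h : ∀ a T0, π.Mt A a T0 → T0.kind ≠ T.kind) : V.Rest j T :=
  ⟨c, fun a d => let ⟨T0, a1, a2⟩ := s.kind ⟨c, d⟩; h a T0 a1 a2⟩

/-- a tree of the list `E` is at rest -/
theorem rest (c : T.stg ≠ j) (h : T ∈ E) (h' : ∀ i, T ∉ A i)
    (k : π.op ≠ none → ∀ w c, T.ty ≠ .hM w c π.ek) : V.Rest j T := by
  refine ⟨c, ?_⟩
  rintro (_ | i) d
  · obtain ⟨T0, -, a⟩ := Role.entry (V := V) ⟨c, d⟩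
    exact k (s.op ▸ Role.op ⟨c, d⟩) _ _ (s.ek ▸ Kl.ty_val a)
  · exact h' i (s.only i T h ⟨c, d⟩)

end St

end Fw

end Pool.Agent.P.MP_439f1f_co
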