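import Pool.Agent.P.MP_439f1f_co.Sv2
import Pool.Agent.P.MP_439f1f_co.B21

/-!
Two living tokens; the rows for two points outside the items; leaks.
-/

set_option autoImplicit false
set_option linter.unusedSectionVars false

namespace Pool.Agent.P.MP_439f1f_co

open Function Sum

variable {K N ι : Type} {r r0 q D e b : ℕ} [DecidableEq K] [Finite K] [Finite N] [Nonempty K]

/-- the trees of the list `E` can be kept out of the items `x` and `y` -/
def Kl.Sep (E : List (Kl K r r0)) (x y : Kl K r r0) : Prop := ∀ T ∈ E, ∀ T' ∈ E,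
  T.kind = x.kind → T'.kind = y.kind → T.stg = T'.stg → T.stg = x.stg ∨ T'.stg = y.stg

theorem Kl.Sep.symm {E : List (Kl K r r0)} {x y : Kl K r r0} (h : Kl.Sep E x y) : Kl.Sep E y x :=
  fun T a T' a' c c' d => (h T' a' T a c' c d.symm).symm

theorem Kl.Sep.left {E : List (Kl K r r0)} {x y : Kl K r r0} (h : ∀ T ∈ E, T.col ≠ x.col) :
    Kl.Sep E x y := fun T a _ _ c => absurd (Kl.col_of_kind c) (h T a)

theorem Kl.Sep.right {E : List (Kl K r r0)} {x y : Kl K r r0} (h : ∀ T ∈ E, T.col ≠ y.col) :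
    Kl.Sep E x y := (Kl.Sep.left h).symm

theorem Kl.Sep.nil {x y : Kl K r r0} : Kl.Sep [] x y := by simp [Kl.Sep]

namespace Fw

variable (V : Fw K N r r0 q D e b)

theorem exists_tw (g : Fin 64) {π : Par r r0 D} {x y : Kl K r r0} (h : π.TA (tw x y))
    (E : List (Kl K r r0)) (len : E.length ≤ 6) (hE : Kl.Sep E x y) : ∃ j, V.St g π (tw x y) E j :=
  V.exists_st g h E len fun T a T' a' _ c _ c' => c ▸ c' ▸ hE T a T' a'

theorem exists_so (g : Fin 64) {π : Par r r0 D} {x : Kl K r r0} (h : π.TA (so x))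
    (E : List (Kl K r r0)) (len : E.length ≤ 6) : ∃ j, V.St g π (so x) E j :=
  V.exists_st g h E len fun _ _ _ _ _ _ _ c => by simp [so] at c

/-- the token `x` may come before the token `y` -/
structure Can (x y : N) : Prop where
  ne : V.F.tree x ≠ V.F.tree y
  jun : ¬(V.F.tree x).Jun (V.F.tree y)
  mz : ¬(V.F.tree x).Mz (V.F.tree y)
  own : ¬(V.F.tree x).Own (V.F.tree y)
  con : (V.F.tree x).Con (V.F.tree y) → V.F.lev x = D ∧ V.F.lev y = D ∧
    crd (some ((V.F.tree x).sl.lk (V.F.tree y).sl).1) (V.F.lb x) ≠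
      crd (some ((V.F.tree x).sl.lk (V.F.tree y).sl).2) (V.F.lb y)

/-- the trees of `x` and `y` are alive, and `x` comes first -/
structure S2 (g : Fin 64) (dr cd sp : Bool) (κ : ZMod 3 → Fin 7) (np : ZMod 3 → Fin (r0 + 1))
    (x y : N) (E : List (Kl K r r0)) (j : K) : Prop where
  grp : V.grp j = g
  dr : (V.par j).dr = dr
  cd : (V.par j).cd = cd
  sp : (V.par j).sp = sp
  kap : (V.par j).kap = κ
  np : (V.par j).np = np
  op : (V.par j).op = none
  lx : V.Liv j (V.F.tree x)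
  ly : V.Liv j (V.F.tree y)
  lt : (V.L j).key x < (V.L j).key y
  rest : ∀ T ∈ E, T.stg ≠ j → T ≠ V.F.tree x → T ≠ V.F.tree y → V.Rest j T
  kind : ∀ T : Kl K r r0, T.stg ≠ j → T.kind ≠ (V.F.tree x).kind → T.kind ≠ (V.F.tree y).kind →
    V.Rest j T

variable {V} {g : Fin 64} {dr cd sp d d' f f' : Bool} {κ : ZMod 3 → Fin 7}
  {np : ZMod 3 → Fin (r0 + 1)} {x y n : N} {E : List (Kl K r r0)} {j : K} {l : ι → ℕ} {t : ι → N}
  {L L' : Hub K N (Pt K N) r0} {i i' s : ℕ} {σ σ' : Slot (r + 1)} {u w : Vx K N (Pt K N) r r0}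
  {a : Option Bool}

theorem Can.of_bf (h : (V.F.tree x).Bf (V.F.tree y)) : V.Can x y :=
  ⟨h.ne, h.jun, h.mz, h.own, fun c => absurd c h.con⟩

theorem can_or (h : V.F.tree x ≠ V.F.tree y) (o : ¬(V.F.tree x).Own (V.F.tree y)) :
    V.Can x y ∨ V.Can y x := (Kl.bf_or h o).imp .of_bf .of_bf

theorem St.s2 {π : Par r r0 D} {T T' : Kl K r r0} (s : V.St g π (tw T T') E j) (op : π.op = none) :
    (∀ Z ∈ E, Z.stg ≠ j → Z ≠ T → Z ≠ T' → V.Rest j Z) ∧
      ∀ Z : Kl K r r0, Z.stg ≠ j → Z.kind ≠ T.kind → Z.kind ≠ T'.kind → V.Rest j Z :=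
  ⟨fun Z a c h h' => s.rest c a (fun i => by cases i; exacts [h, h']) (absurd op),
    fun Z c h h' => s.rest_kind c fun a T0 m => by
      obtain ⟨_ | _, -, rfl⟩ := (Par.mt_tw m).resolve_right (by simp [op])
      exacts [h.symm, h'.symm]⟩

variable (V) in
/-- **Two living tokens in a prescribed order.** -/
theorem exists_s2 (g : Fin 64) (dr cd sp : Bool) (hk : Kl.Kap κ (V.F.tree x) (V.F.tree y))
    (hn : Kl.Pn np (V.F.tree x) (V.F.tree y)) (c : V.Can x y)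
    (fx : ∀ j, V.grp j = g → (V.F.tree x).stg ≠ j) (fy : ∀ j, V.grp j = g → (V.F.tree y).stg ≠ j)
    (E : List (Kl K r r0)) (len : E.length ≤ 6) (hE : Kl.Sep E (V.F.tree x) (V.F.tree y)) :
    ∃ j, V.S2 g dr cd sp κ np x y E j := by
  by_cases h : (V.F.tree x).Con (V.F.tree y)
  · obtain ⟨a1, a2, a3⟩ := c.con h
    obtain ⟨rk, a3⟩ := exists_sg a3
    have bf := (Kl.bf_or c.ne c.own).resolve_left fun d => d.con h
    obtain ⟨j, s⟩ := V.exists_tw g (π := { Par.base r r0 D with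
      dr := dr, cd := cd, sp := sp, kap := κ, np := np, rook := true, rk := rk
      lk := fun i => some (cond i ((V.F.tree x).sl.lk (V.F.tree y).sl).1
        ((V.F.tree x).sl.lk (V.F.tree y).sl).2) }) (.two rfl rfl (fun c => (hk c).1)
      (fun _ => Or.inl rfl) hn.one (fun _ _ => rfl) c.ne.symm (fun i _ => by
        cases i
        exacts [⟨fun c => (hk c).2.2, hn.py, absurd rfl⟩, ⟨fun c => (hk c).2.1, hn.px, absurd rfl⟩])
      fun _ _ => ⟨bf, hn.symm, fun _ => ⟨h, rfl, rfl⟩⟩) E len hE.symm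
    have b1 := s.role true _ rfl (fx j s.grp)
    have b2 := s.role false _ rfl (fy j s.grp)
    refine ⟨j, s.grp, s.dr, s.cd, s.sp, s.kap, s.np, s.op, b1.liv' (s.cut ▸ rfl),
      b2.liv' (s.cut ▸ rfl), (rook_lt b1 b2 s.rook a1 a2).2 (Or.inr ⟨congrArg HT.wor h.1,
        Or.inl ?_⟩), fun T a c h h' => (s.s2 rfl).1 T a c h' h,
        fun T c h h' => (s.s2 rfl).2 T c h' h⟩
    rw [s.rk, s.lk]
    exact a3
  · obtain ⟨j, s⟩ := V.exists_tw g (π := { Par.base r r0 D with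
      dr := dr, cd := cd, sp := sp, kap := κ, np := np }) (.two rfl rfl (fun c => (hk c).1)
      (fun _ => Or.inl rfl) hn.one (fun _ _ => rfl) c.ne (fun i _ => by
        cases i
        exacts [⟨fun c => (hk c).2.1, hn.px, absurd rfl⟩, ⟨fun c => (hk c).2.2, hn.py, absurd rfl⟩])
      fun _ _ => ⟨⟨c.ne, h, c.jun, c.mz, c.own⟩, hn, fun d => nomatch d⟩) E len hE
    have b1 := s.role false _ rfl (fx j s.grp)
    have b2 := s.role true _ rfl (fy j s.grp)
    exact ⟨j, s.grp, s.dr, s.cd, s.sp, s.kap, s.np, s.op, b1.liv' (s.cut ▸ rfl),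
      b2.liv' (s.cut ▸ rfl), b1.lt b2 s.rook (by simp [Par.zi]), (s.s2 rfl).1, (s.s2 rfl).2⟩

theorem Liv.rs (h : V.Liv j (V.F.tree x)) (h' : V.Liv j (V.F.tree y))
    (ne : V.F.tree x ≠ V.F.tree y) (o : V.F.lev x % 2 = 1) (o' : V.F.lev y % 2 = 1) :
    V.Rs j ![0, 0] ![x, y] :=
  .two (h.run rfl o (by omega)) (h'.run rfl o' (by omega)) (Wd.On.tree_ne ne) h.choose_spec.1
    h'.choose_spec.1

theorem odd_sn (V : Fw K N r r0 q D e b) (L : Hub K N (Pt K N) r0) (f : Bool) (σ : Slot (r + 1)) :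
    V.F.lev (V.W.S.sn L f σ) % 2 = 1 := (congrArg (· % 2) (V.W.S.lev_sn V.D_pos L f σ)).trans V.od

theorem col_sn (h : V.W.In L n) (f : Bool) (σ : Slot (r + 1)) :
    (V.F.tree (V.W.S.sn L f σ)).col = (V.F.tree n).col + 1 :=
  (V.W.S.col_sn V.D_pos L f σ).trans (V.W.col_in h f)

theorem far_sn (h : V.W.Fag V.grp g L) (f : Bool) (σ : Slot (r + 1)) (j : K) (c : V.grp j = g) :
    (V.F.tree (V.W.S.sn L f σ)).stg ≠ j := (h j c).sn V.D_pos f σ

theorem far_in (h : V.W.Fag V.grp g L) (d : V.W.In L n) (j : K) (c : V.grp j = g) :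
    (V.F.tree n).stg ≠ j := (h j c).wor d

theorem inF_of (h : V.W.Far j L) (c : ∀ n, V.W.In L n → V.Rest j (V.F.tree n)) : V.InF j L :=
  fun n d _ f => f.not_rest (c n (h.bk.1 d))

theorem S2.not_opn (s : V.S2 g dr cd sp κ np x y E j) (n : N) : ¬V.Opn j n := fun c => c.op s.op

/-- **Two points outside the items**, `u` first; the case down, up is excluded. -/
theorem pp (h : V.W.S.Acc d u L i f σ) (h' : V.W.S.Acc d' w L' i' f' σ') (ne : u ≠ w)
    (lx : V.Liv j (V.F.tree (V.W.S.sn L f σ))) (ly : V.Liv j (V.F.tree (V.W.S.sn L' f' σ')))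
    (nt : V.F.tree (V.W.S.sn L f σ) ≠ V.F.tree (V.W.S.sn L' f' σ')) (c : V.InF j L)
    (c' : V.InF j L') (o : V.fq j (pz L (cond d i (i + 1))) < V.fq j (pz L' (cond d' i' (i' + 1))))
    (ud : d = true ∨ d' = false)
    (lt : d = d' → (V.L j).key (V.W.S.sn L f σ) < (V.L j).key (V.W.S.sn L' f' σ')) :
    V.W.Sv u w := by
  have k := lx.rs ly nt (V.odd_sn ..) (V.odd_sn ..)
  have c1 := (k.toRs.ch_cut 0).app (k.toRs.ch_acc h)
  have c2 := (k.toRs.ch_cut 1).app (k.toRs.ch_acc h')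
  intro _ _
  cases d <;> cases d'
  · exact k.serve c1 c2 ne (fun g => by fin_cases g <;> simp) [.lt 1 3, .lt 3 0, .lt 0 2] []
      (by decide +kernel) ⟨k.FF c c' o, k.F_cut c' 0, k.cut_cut (g := 0) (g' := 1) (lt rfl)⟩ trivial
  · simp at ud
  · exact k.serve c1 c2 ne (fun g => by fin_cases g <;> simp) [.lt 1 3, .lt 3 0, .lt 3 2] [(0, 2)]
      (by decide +kernel) ⟨k.FF c c' o, k.F_cut c' 0, k.F_cut c' 1⟩ (k.cut_ne (g := 0) (g' := 1) (by decide))
  · exact k.serve c1 c2 ne (fun g => by fin_cases g <;> simp) [.lt 1 3, .lt 3 0, .lt 0 2] []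
      (by decide +kernel) ⟨k.FF c c' o, k.F_cut c' 0, k.cut_cut (g := 0) (g' := 1) (lt rfl)⟩ trivial

namespace Rs

variable (k : V.Rs j l t)
include k

theorem ro : V.W.Ro j l t (rh (V.Hi j) (V.W.vp j l t)) :=
  ⟨k.toRs, fun _ h => (k.toRs.fr h).rh k.hi_up, V.Hi j, fun _ _ => hi_lp, fun _ _ => rh_lt⟩

/-- the order of the cuts of a leak -/
theorem leak (h : 2 * s + 1 ≤ r0) (o : V.Opn j n) (fl : (V.par j).flip = false)
    (c : ∀ g, V.W.On (l g) (t g) n → n = t g) :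
    V.vr j l t (pz (ml n 0) 0) < V.vr j l t (pz (V.W.prv (Wd.mo n (2 * s + 1))) (2 * r + 10)) ∧
      V.vr j l t (pz (V.W.prv (Wd.mo n (2 * s + 1))) (2 * r + 10)) <
        V.vr j l t (pz (V.W.prv (inl n)) (2 * r + 10)) :=
  let ⟨_, a, _⟩ := id o
  have z := k.toRs.leak_front' h c o.port (by rw [o.lay, fl]; exact (blay_lt _ _).2 rfl)
  ⟨k.of_vqI (a.inI (Wd.bk_prv' j _)) z.1, k.of_vqI (a.inI (Wd.bk_prv' j _)) z.2⟩

theorem leak_flip (h : 2 * s + 1 ≤ r0) (o : V.Opn j n) (fl : (V.par j).flip = true)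
    (c : ∀ g, V.W.On (l g) (t g) n → n = t g) :
    V.vr j l t (pz (V.W.prv (inl n)) (2 * r + 10)) < V.vr j l t (pz (ml n 0) 0) ∧
      V.vr j l t (pz (ml n 0) 0) < V.vr j l t (pz (V.W.prv (Wd.mo n (2 * s + 1))) (2 * r + 10)) :=
  let ⟨_, a, _⟩ := id o
  have z := k.toRs.leak_back' h c o.port (by rw [o.lay, fl]; exact (blay_gt _ _).2 rfl)
  ⟨k.of_vqI (a.inI (Wd.bk_pay.2 rfl)) z.1, k.of_vqI (a.inI (Wd.bk_prv' j _)) z.2⟩

theorem anb (c : ∀ g, V.W.On (l g) (t g) n → n = t g) (h : V.W.Anb l t n y) : y = n :=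
  h.elim id fun ⟨g, a, d⟩ => d ▸ (c g a).symm

/-- the head into a node comes before the token at this node -/
theorem exit_cut (g : ι) (c : ∀ g', V.W.On (l g') (t g') (t g) → t g = t g') :
    V.vr j l t (pz (V.W.prv (inl (t g))) i) < V.vr j l t (pz (V.W.cut (l g) (t g)) 0) :=
  let ⟨_, a⟩ := k.role g
  k.of_vp (k.inI_cut a) ((k.toRs.lt_cut_iff _ g).2 (by
    rw [Rts.an_out (k.toRs.out_bk (Wd.bk_prv' j (inl (t g))) c)]
    exact Wd.prv_lt j _))

/-- a token lies before or after the cuts of a leak -/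
theorem tok_leak (g : ι) (d : V.Role j a (V.F.tree n)) (c : ∀ g, V.W.On (l g) (t g) n → n = t g) :
    V.vr j l t (pz (V.W.cut (l g) (t g)) 0) < V.vr j l t (pz (ml n 0) 0) ∨
      V.vr j l t (pz (V.W.prv (inl n)) (2 * r + 10)) < V.vr j l t (pz (V.W.cut (l g) (t g)) 0) := by
  rcases lt_trichotomy ((V.L j).key (t g)) ((V.L j).key n) with h | h | h
  · exact Or.inl (k.cut_bk (Wd.bk_pay.2 rfl) d fun y a => k.anb c a ▸ h)
  · obtain rfl := (V.L j).key_inj h
    exact Or.inr (k.exit_cut g c)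
  · exact Or.inr (k.bk_cut (Wd.bk_prv' j _) fun y a => k.anb c a ▸ h)

end Rs

theorem on_lab {l0 : ℕ} (h : V.F.lev n = D) (c : V.W.On l0 x n) : n = x :=
  c.1.eq ((V.F.surj x).2.1.trans h.ge)

theorem Opn.ent (h : V.Opn j n) (c : ((V.par j).ek : ℕ) = i) :
    V.Role j none (V.F.tree (V.W.ell n i)) := c ▸ h.ot.ell

/-- **Two points outside the items with tokens in one tree**: the first point routes, the second
one leaks; the entry tree comes last. -/
theorem lk (h : V.W.S.Acc d u L i f σ) (h' : V.W.S.Acc d w L' i' f' σ') (ne : u ≠ w)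
    (lx : V.Liv j (V.F.tree (V.W.S.sn L f σ))) (op : (V.par j).op = some false)
    (ly : V.Role j (some false) (V.F.tree (V.W.S.sn L' f' σ')))
    (nt : V.F.tree (V.W.S.sn L f σ) = V.F.tree (V.W.S.sn L' f' σ')) (ek : ((V.par j).ek : ℕ) = 1)
    (fl : (V.par j).fl ≠ 0) (fp : (V.par j).flip = false) (c : V.InF j L) (c' : V.InF j L')
    (o : V.fq j (pz L (cond d i (i + 1))) < V.fq j (pz L' (cond d i' (i' + 1)))) :
    V.W.Sv u w := by
  have ot : V.Ot j (V.F.tree (V.W.S.sn L' f' σ')) := ⟨_, ly, op⟩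
  have lv := V.W.S.lev_sn V.D_pos L' f' σ'
  have no : V.Opn j (V.W.S.sn L' f' σ') := ot.opn.2 ((V.kap_spec j _).1.trans lv.ge)
  have en := no.ent ek
  have k := lx.rs en.liv (fun c => Option.some_ne_none _ (ly.eq (nt.symm.trans c ▸ en))) (V.odd_sn ..)
    (by rw [V.lev_ell, V.od])
  have c0 : ∀ g, V.W.On (![0, 0] g) (![V.W.S.sn L f σ, V.W.ell (V.W.S.sn L' f' σ') 1] g)
    (V.W.S.sn L' f' σ') → _ := fun g => on_lab lv
  have z : (V.par j).zi (some false) < (V.par j).zi none := by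
    simp only [Par.zi, cond]
    have := mt Fin.ext fl
    simp only [Fin.val_zero] at this
    omega
  have c1 := (k.toRs.ch_cut 0).app (k.toRs.ch_acc h)
  have c2 := (k.toRs.ch_cut 1).app ((k.toRs.ch_leak _).app (k.toRs.ch_acc h'))
  have a1 := k.leak (s := 0) (by have := V.two_r0; omega) no fp c0
  have a2 := k.tok_leak 0 ly c0
  intro _ _
  cases d <;> exact k.serve c1 c2 ne (fun g => by fin_cases g <;> simp)
    [.lt 1 6, .lt 6 0, .lt 6 4, .lt 4 3, .lt 3 5, .lt 0 2, .lt 5 2, .or (.lt 0 4) (.lt 5 0)] []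
    (by decide +kernel) ⟨k.FF c c' o, k.F_cut c' 0, k.FI c' (ly.inI (Wd.bk_pay.2 rfl)), a1.1, a1.2,
      k.II (k.inI_cut (g := 0) (nt ▸ ly)) (k.inI_cut (g := 1) en) ot.rook z,
      k.II (ly.inI (Wd.bk_prv' j _)) (k.inI_cut (g := 1) en) ot.rook z, a2⟩ trivial

end Fw

end Pool.Agent.P.MP_439f1f_co
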