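import Pool.Agent.P.MP_439f1f_co.Sv1

/-!
The choice of a state in which some trees are kept out of one item.
-/

set_option autoImplicit false
set_option linter.unusedSectionVars false

namespace Pool.Agent.P.MP_439f1f_co

variable {K N : Type} {r r0 q D e b : ℕ} [DecidableEq K] [Finite K] [Finite N] [Nonempty K]

/-- the trees of `E` are kept out of the item `i0` (they may get into the other item) -/
theorem Fw.exists_st1 (V : Fw K N r r0 q D e b) (g : Fin 64) {π : Par r r0 D}
    {A : Bool → Set (Kl K r r0)} (h : π.TA A) (i0 : Bool) (E : List (Kl K r r0))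
    (len : E.length ≤ 6) :
    ∃ j, V.St g π A [] j ∧ ∀ T ∈ E, V.Role j (some i0) T → T ∈ A i0 := by
  classical
  have k : ∀ i, ∃ z, ∀ T ∈ A i, T.stg = z := fun i => by
    rcases (A i).eq_empty_or_nonempty with c | ⟨T, c⟩
    exacts [⟨Classical.arbitrary K, by simp [c]⟩, ⟨_, fun T' d => h.stg i T' d T c⟩]
  choose z hz using k
  obtain ⟨w, a1, a2⟩ := V.shat (z false :: z true :: E.map Kl.stg) (fun a => decide (a = z i0))
    (by simp; omega)
  have b1 : ∀ i, w (z i) = decide (z i = z i0) := fun i => a1 _ (by cases i <;> simp)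
  obtain ⟨j, c1, c2, c3⟩ := a2 g _ (h.adm (s := fun i => decide (z i = z i0))
    fun i i' d T f T' f' => by
      rw [hz i T f, hz i' T' f']
      cases i <;> cases i' <;> cases i0 <;> simp_all)
  refine ⟨j, ⟨c1, ⟨_, c2⟩, fun i T c d => ⟨d, ?_⟩, by simp⟩, fun T c d => ?_⟩
  · rw [c2, c3]
    exact ⟨⟨T, c, rfl⟩, fun s f => by rw [hz i T c, b1]; exact Option.some.inj f⟩
  · have d := d.2
    rw [c2, c3] at d
    obtain ⟨⟨x, d1, d2⟩, d3⟩ := d
    have d3 := d3 _ rfl
    rw [a1 _ (List.mem_cons_of_mem _ (List.mem_cons_of_mem _ (List.mem_map_of_mem c))),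
      decide_eq_decide] at d3
    exact Kl.ext_kind d2 ((hz i0 x d1).trans (d3.2 rfl).symm) ▸ d1

end Pool.Agent.P.MP_439f1f_co
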