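import Pool.Agent.P.MP_439f1f_co.B6

/-!
Closed sets by counting, and normal forms of the end gaps.
-/

set_option autoImplicit false

namespace Pool.Agent.P.MP_439f1f_co

open Function

variable {S Λ : Type*}

theorem ncard_pre {V : Type*} [Finite V] (a : V → S) (T : Finset S) :
    {v | a v ∈ T}.ncard = ∑ s ∈ T, {v | a v = s}.ncard := by
  classical
  induction T using Finset.induction_on with
  | empty => simp
  | insert s T hs ih =>
    rw [Finset.sum_insert hs, ← ih, ← Set.ncard_union_eq]
    · congr 1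
      ext v
      simp
    · rw [Set.disjoint_left]
      rintro v rfl h
      exact hs h

/-- A two-regular connected multigraph has no set `T` of vertices spanning `|T|` edges, unless these
are all edges. -/
theorem two_reg {V : Type*} [Finite V] [Finite S] (a b : V → S)
    (load : ∀ s, {v | a v = s}.ncard + {v | b v = s}.ncard = 2)
    (conn : ∀ A : Set S, (∀ v, a v ∈ A ↔ b v ∈ A) → ∀ s t, s ∈ A → t ∈ A)
    {T : Set S} (hT : T.Nonempty) (g : S → V) (hg : Set.InjOn g T) (ha : ∀ s ∈ T, a (g s) ∈ T)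
    (hb : ∀ s ∈ T, b (g s) ∈ T) (w : V) : w ∈ g '' T := by
  have hfin := T.toFinite
  have h1 := ncard_pre a hfin.toFinset
  have h2 := ncard_pre b hfin.toFinset
  simp only [Set.Finite.mem_toFinset] at h1 h2
  have h3 : {v | a v ∈ T}.ncard + {v | b v ∈ T}.ncard = 2 * T.ncard := by
    rw [h1, h2, ← Finset.sum_add_distrib, Finset.sum_congr rfl fun s _ => load s,
      Set.ncard_eq_toFinset_card T hfin]
    simp [mul_comm]
  have s1 : g '' T ⊆ {v | a v ∈ T} := by rintro _ ⟨s, hs, rfl⟩; exact ha s hs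
  have s2 : g '' T ⊆ {v | b v ∈ T} := by rintro _ ⟨s, hs, rfl⟩; exact hb s hs
  have c := hg.ncard_image
  have c1 := Set.ncard_le_ncard s1
  have c2 := Set.ncard_le_ncard s2
  have e1 := Set.eq_of_subset_of_ncard_le s1 (by omega)
  have e2 := Set.eq_of_subset_of_ncard_le s2 (by omega)
  obtain ⟨s, hs⟩ := hT
  rw [e1]
  exact conn T (fun v => Set.ext_iff.1 (e1.symm.trans e2) v) s _ hs

/-- no proper closed set of hubs once the gap of `L0` is broken -/
def Cn (L0 : Λ) (x y : S) (τ η : Λ → S) : Prop :=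
  ∀ A : Set S, (∀ L, L ≠ L0 → (τ L ∈ A ↔ η L ∈ A)) → (τ L0 ∈ A ↔ x ∈ A) →
    (y ∈ A ↔ η L0 ∈ A) → ∀ s t, s ∈ A → t ∈ A

variable {m : ℕ} {hang : Λ → ℕ → S → Prop} {x y : S} {τ η : Λ → S} {L0 : Λ}

theorem cut_iff : Cut m hang L0 x y ↔ ∃ τ η, Ends m hang x y τ η ∧ Cn L0 x y τ η := Iff.rfl

theorem ncard_opt [Finite Λ] (P : Option Λ → Prop) [Decidable (P none)] :
    {v | P v}.ncard = {L | P (some L)}.ncard + if P none then 1 else 0 := by
  have e : {v | P v} = some '' {L | P (some L)} ∪ {v | v = none ∧ P none} := by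
    ext (_ | L) <;> simp
  rw [e, Set.ncard_union_eq, Set.ncard_image_of_injective _ (Option.some_injective _)]
  · split_ifs with h <;> simp [h]
  · rw [Set.disjoint_left]
    rintro _ ⟨L, -, rfl⟩ ⟨h, -⟩
    cases h

/-- **Closed sets by counting.**  To refute a cut it is enough to give a nonempty set `T` of hubs
and for each hub of `T` its own line with both ends in `T`; the broken line counts through its
lower part. -/
theorem Ends.no_low [Finite S] [Finite Λ] (e : Ends m hang x y τ η) (c : Cn L0 x y τ η)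
    {T : Set S} (hT : T.Nonempty) (f : S → Λ) (hf : Set.InjOn f T) (h1 : ∀ s ∈ T, τ (f s) ∈ T)
    (h2 : ∀ s ∈ T, f s ≠ L0 → η (f s) ∈ T) (h3 : ∀ s ∈ T, f s = L0 → x ∈ T) : False := by
  classical
  have := two_reg (V := Option Λ) (fun v => v.elim y τ) (fun v => v.elim (η L0) (update η L0 x))
    (fun s => ?_) (fun A hA => c A (fun L hL => ?_) ?_ (hA none)) hT (fun s => some (f s))
    (fun s hs t ht h => hf hs ht (Option.some_injective _ h)) h1 (fun s hs => ?_) none
  · simp at this
  · rw [ncard_opt, ncard_opt]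
    have a1 := e.load s
    have a2 := ncard_update η L0 x s
    simp only [Option.elim] at *
    by_cases b1 : η L0 = s <;> by_cases b2 : x = s <;> by_cases b3 : y = s <;>
      simp only [b1, b2, b3, if_true, if_false] at a1 a2 ⊢ <;> omega
  · simpa [update_of_ne hL] using hA (some L)
  · simpa using hA (some L0)
  · by_cases h : f s = L0
    · simpa [h] using h3 s hs h
    · simpa [update_of_ne h] using h2 s hs h

/-- The same, the broken line counts through its upper part. -/
theorem Ends.no_high [Finite S] [Finite Λ] (e : Ends m hang x y τ η) (c : Cn L0 x y τ η)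
    {T : Set S} (hT : T.Nonempty) (f : S → Λ) (hf : Set.InjOn f T)
    (h1 : ∀ s ∈ T, f s ≠ L0 → τ (f s) ∈ T) (h2 : ∀ s ∈ T, η (f s) ∈ T)
    (h3 : ∀ s ∈ T, f s = L0 → y ∈ T) : False := by
  classical
  have := two_reg (V := Option Λ) (fun v => v.elim (τ L0) (update τ L0 y)) (fun v => v.elim x η)
    (fun s => ?_) (fun A hA => c A (fun L hL => ?_) (hA none) ?_) hT (fun s => some (f s))
    (fun s hs t ht h => hf hs ht (Option.some_injective _ h)) (fun s hs => ?_) h2 none
  · simp at this
  · rw [ncard_opt, ncard_opt]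
    have a1 := e.load s
    have a2 := ncard_update τ L0 y s
    simp only [Option.elim] at *
    by_cases b1 : τ L0 = s <;> by_cases b2 : x = s <;> by_cases b3 : y = s <;>
      simp only [b1, b2, b3, if_true, if_false] at a1 a2 ⊢ <;> omega
  · simpa [update_of_ne hL] using hA (some L)
  · simpa using hA (some L0)
  · by_cases h : f s = L0
    · simpa [h] using h3 s hs h
    · simpa [update_of_ne h] using h1 s hs h

/-- The same, the broken line is not used. -/
theorem Ends.no_loop [Finite S] [Finite Λ] (e : Ends m hang x y τ η) (c : Cn L0 x y τ η)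
    {T : Set S} (hT : T.Nonempty) (f : S → Λ) (hf : Set.InjOn f T) (h0 : ∀ s ∈ T, f s ≠ L0)
    (h1 : ∀ s ∈ T, τ (f s) ∈ T) (h2 : ∀ s ∈ T, η (f s) ∈ T) : False :=
  e.no_low c hT f hf h1 (fun s hs _ => h2 s hs) fun s hs h => absurd h (h0 s hs)

theorem Ends.tail_ne [Finite S] [Finite Λ] (e : Ends m hang x y τ η) (c : Cn L0 x y τ η) :
    τ L0 ≠ x := fun h =>
  e.no_low c (T := {x}) ⟨x, rfl⟩ (fun _ => L0) (fun _ hs _ ht _ => hs.trans ht.symm)
    (fun _ _ => h) (fun _ _ h' => absurd rfl h') fun _ _ _ => rfl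

theorem Ends.head_ne [Finite S] [Finite Λ] (e : Ends m hang x y τ η) (c : Cn L0 x y τ η) :
    η L0 ≠ y := fun h =>
  e.no_high c (T := {y}) ⟨y, rfl⟩ (fun _ => L0) (fun _ hs _ ht _ => hs.trans ht.symm)
    (fun _ _ h' => absurd rfl h') (fun _ _ => h) fun _ _ _ => rfl

variable [DecidableEq Λ]

/-- first gap: the two hubs at the tail can be exchanged -/
theorem Cn.tail (c : Cn L0 x y τ η) : Cn L0 (τ L0) y (update τ L0 x) η := fun A a1 a2 a3 =>
  c A (fun L h => by simpa [update_of_ne h] using a1 L h) (by simpa using a2.symm) a3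

/-- last gap: the two hubs at the head can be exchanged -/
theorem Cn.head (c : Cn L0 x y τ η) : Cn L0 x (η L0) τ (update η L0 y) := fun A a1 a2 a3 =>
  c A (fun L h => by simpa [update_of_ne h] using a1 L h) a2 (by simpa using a3.symm)

/-- normal form of a first gap: the tail sits at the option `d` -/
theorem norm_tail [Finite S] [Finite Λ] (e : Ends m hang x y τ η) (c : Cn L0 x y τ η) {d o : S}
    (hx : hang L0 0 x) (h : ∀ s, hang L0 0 s → s = d ∨ s = o) :
    Ends m hang o y (update τ L0 d) η ∧ Cn L0 o y (update τ L0 d) η := by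
  have ne := e.tail_ne c
  rcases h _ hx with rfl | rfl
  · have : τ L0 = o := (h _ (e.ht L0)).resolve_left ne
    exact this ▸ ⟨e.tail hx, c.tail⟩
  · have : τ L0 = d := (h _ (e.ht L0)).resolve_right ne
    rw [← this, update_eq_self]
    exact ⟨e, c⟩

/-- normal form of a last gap: the head sits at the option `d` -/
theorem norm_head [Finite S] [Finite Λ] (e : Ends m hang x y τ η) (c : Cn L0 x y τ η) {d o : S}
    (hy : hang L0 m y) (h : ∀ s, hang L0 m s → s = d ∨ s = o) :
    Ends m hang x o τ (update η L0 d) ∧ Cn L0 x o τ (update η L0 d) := by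
  have ne := e.head_ne c
  rcases h _ hy with rfl | rfl
  · have : η L0 = o := (h _ (e.hh L0)).resolve_left ne
    exact this ▸ ⟨(e.symm.head hy).symm, c.head⟩
  · have : η L0 = d := (h _ (e.hh L0)).resolve_right ne
    rw [← this, update_eq_self]
    exact ⟨e, c⟩

end Pool.Agent.P.MP_439f1f_co
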