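import Pool.Agent.P.MP_439f1f_co.Sy1

/-!
The state machine: in a configuration without a closed set exactly one stage is hot, and the heads
of the system lines are in the reference position except for one short window.
-/

set_option autoImplicit false

namespace Pool.Agent.P.MP_439f1f_co

open Function

variable {S Λ Y K : Type*}

/-- The cycle of the heads of one stage: the option `B` of the head `e` is the option `A` of the
head `bt s e`.  Types: `0` the line into the port, `1`, `2` the lines of the first two hubs. -/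
def bt (s : Equiv.Perm Y) : Equiv.Perm (Y × Fin 3) where
  toFun e := if e.2 = 0 then (s (s e.1), 1) else if e.2 = 1 then (s.symm e.1, 2) else (e.1, 0)
  invFun e :=
    if e.2 = 0 then (e.1, 2) else if e.2 = 1 then (s.symm (s.symm e.1), 0) else (s e.1, 1)
  left_inv := by
    rintro ⟨y, r⟩
    fin_cases r <;> simp
  right_inv := by
    rintro ⟨y, r⟩
    fin_cases r <;> simp

section bt
variable (s : Equiv.Perm Y) (y : Y)

@[simp] theorem bt0 : bt s (y, 0) = (s (s y), 1) := rfl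
@[simp] theorem bt1 : bt s (y, 1) = (s.symm y, 2) := rfl
@[simp] theorem bt2 : bt s (y, 2) = (y, 0) := rfl
@[simp] theorem bti0 : (bt s)⁻¹ (y, 0) = (y, 2) := rfl
@[simp] theorem bti1 : (bt s)⁻¹ (y, 1) = (s.symm (s.symm y), 0) := rfl
@[simp] theorem bti2 : (bt s)⁻¹ (y, 2) = (s y, 1) := rfl

@[simp] theorem bts0 : (bt s).symm (y, 0) = (y, 2) := rfl
@[simp] theorem bts1 : (bt s).symm (y, 1) = (s.symm (s.symm y), 0) := rfl
@[simp] theorem bts2 : (bt s).symm (y, 2) = (s y, 1) := rfl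

theorem bt_snd (e : Y × Fin 3) : (bt s e).2 = e.2 + 1 := by
  obtain ⟨y, r⟩ := e
  fin_cases r <;> rfl

theorem bt_ne (e : Y × Fin 3) : bt s e ≠ e := fun h => by
  have := bt_snd s e
  rw [h] at this
  revert this
  generalize e.2 = r
  revert r
  decide

theorem bt_three (e : Y × Fin 3) : bt s (bt s (bt s e)) = (s e.1, e.2) := by
  obtain ⟨y, r⟩ := e
  fin_cases r <;> simp

theorem bt_cyc (h : ∀ y y', ∃ n : ℕ, (s ^ n) y = y') (e e' : Y × Fin 3) :
    ∃ n : ℕ, (bt s ^ n) e = e' := by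
  have k : ∀ (n : ℕ) (e : Y × Fin 3), (bt s ^ (3 * n)) e = ((s ^ n) e.1, e.2) := by
    intro n e
    induction n with
    | zero => rfl
    | succ n ih =>
      rw [show 3 * (n + 1) = 3 * n + 1 + 1 + 1 from rfl, pow_succ', pow_succ', pow_succ', pow_succ']
      simp only [Equiv.Perm.mul_apply, ih, bt_three]
  have t : ∃ i : ℕ, ((bt s ^ i) e).2 = e'.2 := by
    have h1 := bt_snd s e
    have h2 := bt_snd s (bt s e)
    have : e.2 = e'.2 ∨ e.2 + 1 = e'.2 ∨ e.2 + 1 + 1 = e'.2 := by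
      generalize e.2 = a
      generalize e'.2 = b
      revert a b
      decide
    rcases this with h | h | h
    exacts [⟨0, h⟩, ⟨1, h1.trans h⟩, ⟨2, by rw [pow_two, Equiv.Perm.mul_apply, h2, h1, h]⟩]
  obtain ⟨i, hi⟩ := t
  obtain ⟨n, hn⟩ := h ((bt s ^ i) e).1 e'.1
  exact ⟨3 * n + i, by rw [pow_add, Equiv.Perm.mul_apply, k, hn, hi]⟩

end bt

theorem cyc_inv {E : Type*} {β : Equiv.Perm E} (h : ∀ e e', ∃ n : ℕ, (β ^ n) e = e')
    (e e' : E) : ∃ n : ℕ, (β⁻¹ ^ n) e = e' := by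
  obtain ⟨n, hn⟩ := h e' e
  exact ⟨n, by rw [← hn, inv_pow]; simp⟩

/-- propagation along a cycle that is broken just before `e1` -/
theorem cyc_prop {E : Type*} {β : Equiv.Perm E} (h : ∀ e e', ∃ n : ℕ, (β ^ n) e = e')
    {b : E → Prop} {e1 : E} (hb : ∀ e, β e ≠ e1 → ¬b e → ¬b (β e)) {n : ℕ}
    (hn : ¬b ((β ^ n) e1)) (e : E) (he : b e) : ∃ i < n, e = (β ^ i) e1 := by
  classical
  have hi := Nat.find_spec (h e1 e)
  by_cases c : Nat.find (h e1 e) < n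
  · exact ⟨_, c, hi.symm⟩
  have key : ∀ k, n ≤ k → k ≤ Nat.find (h e1 e) → ¬b ((β ^ k) e1) := by
    intro k h1 h2
    induction k, h1 using Nat.le_induction with
    | base => exact hn
    | succ k h1 ih =>
      rw [pow_succ', Equiv.Perm.mul_apply]
      refine hb _ (fun h3 => ?_) (ih (by omega))
      refine Nat.find_min (h e1 e) (m := Nat.find (h e1 e) - (k + 1)) (by omega) ?_
      rw [← Equiv.Perm.mul_apply, ← pow_succ'] at h3
      conv_rhs => rw [← hi, ← Nat.sub_add_cancel h2, pow_add, Equiv.Perm.mul_apply, h3]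
  exact (key _ (by omega) le_rfl (by rwa [hi])).elim

theorem cyc_uni {E : Type*} {β : Equiv.Perm E} (h : ∀ e e', ∃ n : ℕ, (β ^ n) e = e')
    {b : E → Prop} (hb : ∀ e, ¬b e → ¬b (β e)) : (∀ e, b e) ∨ ∀ e, ¬b e := by
  by_cases c : ∀ e, b e
  · exact Or.inl c
  · push Not at c
    obtain ⟨e1, h1⟩ := c
    refine Or.inr fun e he => ?_
    obtain ⟨i, hi, -⟩ := cyc_prop h (e1 := e1) (n := 0) (fun e _ => hb e) h1 e he
    omega

theorem pigeon {Z : Type*} (F : Fin 6 → Z → Prop) (hF : ∀ q q' z, F q z → F q' z → q = q')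
    (B : Fin 5 → Z → Prop) (hB : ∀ i z z', B i z → B i z' → z = z') :
    ∃ q, ∀ z, F q z → ∀ i, ¬B i z := by
  by_contra hc
  push Not at hc
  choose z h1 i h2 using hc
  obtain ⟨q, q', hne, h⟩ := Fintype.exists_ne_map_eq_of_card_lt i (by simp)
  exact hne (hF q q' _ (h1 q) (hB _ _ _ (h2 q') (h ▸ h2 q) ▸ h1 q'))

/-- The state machine.  `sh j (y, r)` are the three system hubs of the loop `y` in the stage `j`,
`sl j (y, r)` the line whose head has the option `A` at `sh j (y, r)`, and `ln s` the own line of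
the hub `s`. -/
structure Sys (m : ℕ) (hang : Λ → ℕ → S → Prop) (Y K : Type*) where
  nx : K → Equiv.Perm Y
  sh : K → Y × Fin 3 → S
  sl : K → Y × Fin 3 → Λ
  ln : S → Λ
  lni : ∀ j e j' e', ln (sh j e) = ln (sh j' e') → j = j' ∧ e = e'
  sli : ∀ j e j' e', sl j e = sl j' e' → j = j' ∧ e = e'
  ln0 : ∀ j y, ln (sh j (y, 0)) = sl j (y, 1)
  ln1 : ∀ j y, ln (sh j (y, 1)) = sl j (y, 2)
  head : ∀ j e s, hang (sl j e) m s → s = sh j e ∨ s = sh j (bt (nx j) e)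
  hd : ∀ L j e, hang L m (sh j e) → ∃ j' e', L = sl j' e'
  tt : ∀ L j e, hang L 0 (sh j e) → L = ln (sh j e)
  cyc : ∀ j y y', ∃ n : ℕ, (nx j ^ n) y = y'
  /-- six loops that consist of ports only -/
  pu : Fin 6 → Y
  pui : Injective pu
  pure : ∀ q j, ∃ j', ln (sh j (pu q, 2)) = sl j' (pu q, 0)
  /-- six guard pairs `a`, `nx j' a` for two different stages -/
  guard : ∀ j j', j ≠ j' → ∃ a : Fin 6 → Y, Injective a ∧ ∀ q, nx j (nx j' (a q)) = a q ∧
    ln (sh j (a q, 2)) = sl j' (a q, 0) ∧ ln (sh j' (nx j' (a q), 2)) = sl j (nx j' (a q), 0)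

variable {m : ℕ} {hang : Λ → ℕ → S → Prop} {x y : S} {τ η : Λ → S} {L0 : Λ}

namespace Sys

variable (M : Sys m hang Y K)

theorem shi {j j' : K} {e e' : Y × Fin 3} (h : M.sh j e = M.sh j' e') : j = j' ∧ e = e' :=
  M.lni _ _ _ _ (congrArg _ h)

theorem nf (j : K) (z : Y) : M.nx j z ≠ z := fun h => by
  have : ∀ n : ℕ, (M.nx j ^ n) z = z := fun n => Equiv.Perm.pow_apply_eq_self_of_apply_eq_self h n
  obtain ⟨a, ha⟩ := M.cyc j z (M.pu 0)
  obtain ⟨b, hb⟩ := M.cyc j z (M.pu 1)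
  exact absurd (M.pui (ha.symm.trans ((this a).trans ((this b).symm.trans hb)))) (by decide)

theorem AneB (j : K) (e : Y × Fin 3) : M.sh j e ≠ M.sh j (bt (M.nx j) e) := fun h =>
  bt_ne _ _ (M.shi h).2.symm

variable [Finite S] [Finite Λ]

omit [Finite S] in
open Classical in
/-- the load at a system hub -/
theorem load (h : Ends m hang x y τ η) (j : K) (e : Y × Fin 3) :
    (if τ (M.ln (M.sh j (bt (M.nx j) e))) = M.sh j (bt (M.nx j) e) then 1 else 0) +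
      (if η (M.sl j (bt (M.nx j) e)) = M.sh j (bt (M.nx j) e) then 1 else 0) +
      (if η (M.sl j e) = M.sh j e then 0 else 1) + (if x = M.sh j (bt (M.nx j) e) then 1 else 0) +
      (if y = M.sh j (bt (M.nx j) e) then 1 else 0) = 2 := by
  rw [← h.load (M.sh j (bt (M.nx j) e))]
  have ne : M.sl j (bt (M.nx j) e) ≠ M.sl j e := fun c => bt_ne _ _ (M.sli _ _ _ _ c).2
  have k1 : ∀ L, τ L = M.sh j (bt (M.nx j) e) → L = M.ln (M.sh j (bt (M.nx j) e)) := fun L c =>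
    M.tt L _ _ (c ▸ h.ht L)
  have k2 : ∀ L, η L = M.sh j (bt (M.nx j) e) → L = M.sl j (bt (M.nx j) e) ∨ L = M.sl j e := by
    intro L c
    obtain ⟨j', e', rfl⟩ := M.hd L _ _ (c ▸ h.hh L)
    rcases M.head _ _ _ (h.hh _) with d | d <;> obtain ⟨rfl, d'⟩ := M.shi (c.symm.trans d)
    exacts [Or.inl (by rw [d']), Or.inr (by rw [(bt _).injective d'])]
  have k3 : η (M.sl j e) = M.sh j (bt (M.nx j) e) ↔ ¬η (M.sl j e) = M.sh j e :=
    ⟨fun c d => M.AneB j e (d.symm.trans c), (M.head _ _ _ (h.hh _)).resolve_left⟩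
  have e1 : {L | τ L = M.sh j (bt (M.nx j) e)}.ncard =
      if τ (M.ln (M.sh j (bt (M.nx j) e))) = M.sh j (bt (M.nx j) e) then 1 else 0 := by
    split_ifs with c
    · exact Set.ncard_eq_one.2 ⟨_, Set.eq_singleton_iff_unique_mem.2 ⟨c, k1⟩⟩
    · rw [Set.ncard_eq_zero]
      exact Set.eq_empty_of_forall_notMem fun L d => c (k1 L d ▸ d)
  have e2 : {L | η L = M.sh j (bt (M.nx j) e)}.ncard =
      (if η (M.sl j (bt (M.nx j) e)) = M.sh j (bt (M.nx j) e) then 1 else 0) +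
      (if η (M.sl j e) = M.sh j e then 0 else 1) := by
    split_ifs with c d d
    · refine Set.ncard_eq_one.2 ⟨_, Set.eq_singleton_iff_unique_mem.2 ⟨c, fun L t => ?_⟩⟩
      exact (k2 L t).resolve_right fun u => k3.1 (u ▸ t) d
    · refine Set.ncard_eq_two.2 ⟨_, _, ne, Set.ext fun L => ⟨k2 L, ?_⟩⟩
      rintro (rfl | rfl)
      exacts [c, k3.2 d]
    · rw [Set.ncard_eq_zero]
      refine Set.eq_empty_of_forall_notMem fun L t => ?_
      rcases k2 L t with rfl | rfl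
      exacts [c t, k3.1 t d]
    · refine Set.ncard_eq_one.2 ⟨_, Set.eq_singleton_iff_unique_mem.2 ⟨k3.2 d, fun L t => ?_⟩⟩
      exact (k2 L t).resolve_left fun u => c (u ▸ t)
  rw [e1, e2]
  omega

/-- a closed family of heads -/
theorem no_fam (h : Ends m hang x y τ η) (c : Cn L0 x y τ η) (F : K × Y × Fin 3 → Prop)
    (z0 : K × Y × Fin 3) (h0 : F z0) (tg : K × Y × Fin 3 → Y × Fin 3)
    (good : ∀ z, F z → M.sl z.1 z.2 ≠ L0 ∧ η (M.sl z.1 z.2) = M.sh z.1 (tg z) ∧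
      τ (M.ln (M.sh z.1 (tg z))) = M.sh z.1 (tg z))
    (cl : ∀ z, F z → ∃ z', F z' ∧ M.ln (M.sh z.1 (tg z)) = M.sl z'.1 z'.2) : False := by
  refine h.no_loop c (T := {s | ∃ z, F z ∧ M.sh z.1 (tg z) = s}) ⟨_, z0, h0, rfl⟩ M.ln ?_ ?_ ?_ ?_
  · rintro _ ⟨z, -, rfl⟩ _ ⟨z', -, rfl⟩ e
    obtain ⟨e1, e2⟩ := M.lni _ _ _ _ e
    rw [e1, e2]
  · rintro _ ⟨z, hz, rfl⟩
    obtain ⟨z', a, b⟩ := cl z hz
    exact b ▸ (good z' a).1
  · rintro _ ⟨z, hz, rfl⟩
    exact ⟨z, hz, (good z hz).2.2.symm⟩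
  · rintro _ ⟨z, hz, rfl⟩
    obtain ⟨z', a, b⟩ := cl z hz
    exact ⟨z', a, by rw [b, (good z' a).2.1]⟩

/-- exactly one stage is hot -/
theorem one_hot [Nonempty K] (h : Ends m hang x y τ η) (c : Cn L0 x y τ η) (hot : K → Prop)
    (B : Fin 5 → K × Y × Fin 3 → Prop) (hB : ∀ i z z', B i z → B i z' → z = z')
    (gA : ∀ j e, ¬hot j → (∀ i, ¬B i (j, e)) → M.sl j e ≠ L0 ∧ η (M.sl j e) = M.sh j e ∧
      τ (M.ln (M.sh j e)) = M.sh j e)
    (gB : ∀ j e, hot j → (∀ i, ¬B i (j, e)) → M.sl j e ≠ L0 ∧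
      η (M.sl j e) = M.sh j (bt (M.nx j) e) ∧
      τ (M.ln (M.sh j (bt (M.nx j) e))) = M.sh j (bt (M.nx j) e)) :
    ∃ j0, ∀ j, hot j ↔ j = j0 := by
  obtain ⟨j0, h0⟩ : ∃ j, hot j := by
    by_contra hc
    push Not at hc
    obtain ⟨q, hq⟩ := pigeon (fun q (z : K × Y × Fin 3) => z.2.1 = M.pu q)
      (fun q q' z a b => M.pui (a.symm.trans b)) B hB
    refine M.no_fam h c (fun z => z.2.1 = M.pu q) (Classical.arbitrary K, M.pu q, 0) rfl
      (fun z => z.2) (fun z hz => gA _ _ (hc _) (hq z hz)) ?_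
    rintro ⟨j, p, r⟩ (rfl : p = _)
    obtain ⟨j', e⟩ := M.pure q j
    fin_cases r
    exacts [⟨(j, _, 1), rfl, M.ln0 _ _⟩, ⟨(j, _, 2), rfl, M.ln1 _ _⟩, ⟨(j', _, 0), rfl, e⟩]
  refine ⟨j0, fun j => ⟨fun hj => by_contra fun ne => ?_, fun e => e ▸ h0⟩⟩
  obtain ⟨a, ha, g⟩ := M.guard j j0 ne
  let F : Fin 6 → K × Y × Fin 3 → Prop := fun q z =>
    z = (j0, a q, 0) ∨ z = (j0, M.nx j0 (M.nx j0 (a q)), 1) ∨ z = (j0, M.nx j0 (M.nx j0 (a q)), 2) ∨
    z = (j, M.nx j0 (a q), 0) ∨ z = (j, M.nx j (a q), 1) ∨ z = (j, M.nx j (a q), 2)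
  obtain ⟨q, hq⟩ := pigeon F (fun q q' z u v => ha (by
    rcases u with rfl | rfl | rfl | rfl | rfl | rfl <;> simpa [F, ne, Ne.symm ne] using v)) B hB
  obtain ⟨g1, g2, g3⟩ := g q
  refine M.no_fam h c (F q) (j0, a q, 0) (Or.inl rfl) (fun z => bt (M.nx z.1) z.2)
    (fun z hz => gB _ _ ?_ (hq z hz)) ?_
  · rcases hz with rfl | rfl | rfl | rfl | rfl | rfl <;> assumption
  rintro _ (rfl | rfl | rfl | rfl | rfl | rfl)
  · exact ⟨(j0, _, 2), by simp [F], M.ln1 _ _⟩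
  · exact ⟨(j, M.nx j0 (a q), 0), by simp [F], by simpa using g3⟩
  · exact ⟨(j0, _, 1), by simp [F], M.ln0 _ _⟩
  · exact ⟨(j, M.nx j (a q), 2), by simp [F], by simpa [g1] using M.ln1 _ _⟩
  · exact ⟨(j0, a q, 0), by simp [F], by simpa using g2⟩
  · exact ⟨(j, _, 1), by simp [F], M.ln0 _ _⟩

end Sys

end Pool.Agent.P.MP_439f1f_co
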