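import Pool.Agent.P.MP_439f1f_co.Sy3

/-!
The state machine with two rings per stage.
-/

set_option autoImplicit false

namespace Pool.Agent.P.MP_439f1f_co

open Function

section rel
variable {E : Type*} {β : Equiv.Perm E} {R a t : E → Prop} {e0 : E}

theorem sub_pow (hR : ∀ e, R (β e) ↔ R e) (n : ℕ) (e : {e // R e}) :
    ((β.subtypePerm hR ^ n) e).1 = (β ^ n) e.1 := by
  rw [Equiv.Perm.subtypePerm_pow]
  rfl

theorem sub_inv_pow (hR : ∀ e, R (β e) ↔ R e) (n : ℕ) (e : {e // R e}) :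
    (((β.subtypePerm hR)⁻¹ ^ n) e).1 = (β⁻¹ ^ n) e.1 := by
  induction n with
  | zero => rfl
  | succ n ih => rw [pow_succ', pow_succ', Equiv.Perm.mul_apply, Equiv.Perm.mul_apply, ← ih]; rfl

theorem sub_cyc (hR : ∀ e, R (β e) ↔ R e) (h : ∀ e e', R e → R e' → ∃ n : ℕ, (β ^ n) e = e')
    (e e' : {e // R e}) : ∃ n : ℕ, (β.subtypePerm hR ^ n) e = e' :=
  (h e.1 e'.1 e.2 e'.2).imp fun n hn => Subtype.ext ((sub_pow hR n e).trans hn)

theorem cyc_uni' (hR : ∀ e, R (β e) ↔ R e) (h : ∀ e e', R e → R e' → ∃ n : ℕ, (β ^ n) e = e')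
    (hb : ∀ e, R e → ¬a e → ¬a (β e)) : (∀ e, R e → a e) ∨ ∀ e, R e → ¬a e :=
  (cyc_uni (sub_cyc hR h) (b := fun e => a e.1) fun e => hb e.1 e.2).imp
    (fun c e r => c ⟨e, r⟩) fun c e r => c ⟨e, r⟩

theorem win_fwd' (hR : ∀ e, R (β e) ↔ R e) (h : ∀ e e', R e → R e' → ∃ n : ℕ, (β ^ n) e = e')
    (r0 : R e0) (h0 : a e0)
    (l1 : ∀ e, e ≠ e0 → (a e → a (β e)) ∧ (¬t (β e) ↔ a (β e) ∧ ¬a e))
    (l2 : ¬t (β e0) ↔ a (β e0)) :
    ∃ n, (∀ e, R e → (¬a e ↔ ∃ i, 1 ≤ i ∧ i ≤ n ∧ e = (β ^ i) e0)) ∧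
      ∀ e, R e → (¬t e ↔ e = (β ^ (n + 1)) e0) := by
  obtain ⟨n, h1, h2⟩ := win_fwd (sub_cyc hR h) (a := fun e => a e.1) (t := fun e => t e.1)
    (e0 := ⟨e0, r0⟩) h0 (fun e c => l1 e.1 fun d => c (Subtype.ext d)) l2
  simp only [Subtype.ext_iff, sub_pow] at h1 h2
  exact ⟨n, fun e r => h1 ⟨e, r⟩, fun e r => h2 ⟨e, r⟩⟩

theorem win_bwd' (hR : ∀ e, R (β e) ↔ R e) (h : ∀ e e', R e → R e' → ∃ n : ℕ, (β ^ n) e = e')
    (r0 : R e0) (h0 : a e0)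
    (l1 : ∀ e, e ≠ e0 → (a e → a (β e)) ∧ (¬t (β e) ↔ a (β e) ∧ ¬a e))
    (l2 : ¬t (β e0) ↔ a (β e0)) {k : ℕ} (hk : ¬a ((β⁻¹ ^ (k + 1)) e0)) :
    ∃ n ≤ k, (∀ e, R e → (a e ↔ ∃ i ≤ n, e = (β⁻¹ ^ i) e0)) ∧
      ∀ e, R e → (¬t e ↔ e = (β⁻¹ ^ n) e0) := by
  obtain ⟨n, h, h1, h2⟩ := win_bwd (sub_cyc hR h) (a := fun e => a e.1) (t := fun e => t e.1)
    (e0 := ⟨e0, r0⟩) h0 (fun e c => l1 e.1 fun d => c (Subtype.ext d)) l2 (k := k)
    (by rwa [sub_inv_pow])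
  simp only [Subtype.ext_iff, sub_inv_pow] at h1 h2
  exact ⟨n, h, fun e r => h1 ⟨e, r⟩, fun e r => h2 ⟨e, r⟩⟩

end rel

variable {S Λ Y K : Type*}

section fam
variable {s : Equiv.Perm Y} {f : Y → Bool}

theorem fam_symm (hf : ∀ y, f (s y) = f y) (y : Y) : f (s.symm y) = f y := by
  rw [← hf, Equiv.apply_symm_apply]

theorem fam_bt (hf : ∀ y, f (s y) = f y) (e : Y × Fin 3) : f (bt s e).1 = f e.1 := by
  obtain ⟨y, r⟩ := e
  fin_cases r <;> simp [hf, fam_symm hf]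

theorem fam_pow (hf : ∀ y, f (s y) = f y) (n : ℕ) (e : Y × Fin 3) :
    f ((bt s ^ n) e).1 = f e.1 := by
  induction n with
  | zero => rfl
  | succ n ih => rw [pow_succ', Equiv.Perm.mul_apply, fam_bt hf, ih]

theorem fam_inv_pow (hf : ∀ y, f (s y) = f y) (n : ℕ) (e : Y × Fin 3) :
    f (((bt s)⁻¹ ^ n) e).1 = f e.1 := by
  rw [← fam_pow hf n]
  simp

theorem bt_cyc' (hf : ∀ y, f (s y) = f y) (h : ∀ y y', f y = f y' → ∃ n : ℕ, (s ^ n) y = y')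
    (e e' : Y × Fin 3) (c : f e.1 = f e'.1) : ∃ n : ℕ, (bt s ^ n) e = e' := by
  have k : ∀ (n : ℕ) (e : Y × Fin 3), (bt s ^ (3 * n)) e = ((s ^ n) e.1, e.2) := by
    intro n e
    induction n with
    | zero => rfl
    | succ n ih =>
      rw [show 3 * (n + 1) = 3 * n + 1 + 1 + 1 from rfl, pow_succ', pow_succ', pow_succ', pow_succ']
      simp only [Equiv.Perm.mul_apply, ih, bt_three]
  have t : ∃ i : ℕ, ((bt s ^ i) e).2 = e'.2 := by
    have h1 := bt_snd s e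
    have h2 := bt_snd s (bt s e)
    have : e.2 = e'.2 ∨ e.2 + 1 = e'.2 ∨ e.2 + 1 + 1 = e'.2 := by
      generalize e.2 = a
      generalize e'.2 = b
      revert a b
      decide
    rcases this with h | h | h
    exacts [⟨0, h⟩, ⟨1, h1.trans h⟩, ⟨2, by rw [pow_two, Equiv.Perm.mul_apply, h2, h1, h]⟩]
  obtain ⟨i, hi⟩ := t
  obtain ⟨n, hn⟩ := h ((bt s ^ i) e).1 e'.1 ((fam_pow hf i e).trans c)
  exact ⟨3 * n + i, by rw [pow_add, Equiv.Perm.mul_apply, k, hn, hi]⟩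

end fam

/-- The state machine with the rings `fam j y = false` and `fam j y = true` in every stage `j`. -/
structure Syf (m : ℕ) (hang : Λ → ℕ → S → Prop) (Y K : Type*) where
  nx : K → Equiv.Perm Y
  sh : K → Y × Fin 3 → S
  sl : K → Y × Fin 3 → Λ
  ln : S → Λ
  lni : ∀ j e j' e', ln (sh j e) = ln (sh j' e') → j = j' ∧ e = e'
  sli : ∀ j e j' e', sl j e = sl j' e' → j = j' ∧ e = e'
  ln0 : ∀ j y, ln (sh j (y, 0)) = sl j (y, 1)
  ln1 : ∀ j y, ln (sh j (y, 1)) = sl j (y, 2)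
  head : ∀ j e s, hang (sl j e) m s → s = sh j e ∨ s = sh j (bt (nx j) e)
  hd : ∀ L j e, hang L m (sh j e) → ∃ j' e', L = sl j' e'
  tt : ∀ L j e, hang L 0 (sh j e) → L = ln (sh j e)
  fam : K → Y → Bool
  famn : ∀ j y, fam j (nx j y) = fam j y
  cyc : ∀ j y y', fam j y = fam j y' → ∃ n : ℕ, (nx j ^ n) y = y'
  /-- six loops that consist of ports of the rings `false` only -/
  pu : Fin 6 → Y
  pui : Injective pu
  pure : ∀ q j, fam j (pu q) = false ∧ ∃ j', ln (sh j (pu q, 2)) = sl j' (pu q, 0)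
  /-- six loops of ports on the ring `true` of the stage `i` -/
  pv : K → Fin 6 → Y
  pvi : ∀ i, Injective (pv i)
  pvf : ∀ i q, fam i (pv i q) = true
  purv : ∀ i q j, ∃ j', ln (sh j (pv i q, 2)) = sl j' (pv i q, 0)
  /-- six guard pairs for a ring of `j` and the ring `false` of `j'` -/
  guard : ∀ j j' b, j ≠ j' → ∃ a : Fin 6 → Y, Injective a ∧ ∀ q, fam j (a q) = b ∧
    fam j' (a q) = false ∧ nx j (nx j' (a q)) = a q ∧
    ln (sh j (a q, 2)) = sl j' (a q, 0) ∧ ln (sh j' (nx j' (a q), 2)) = sl j (nx j' (a q), 0)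

variable {m : ℕ} {hang : Λ → ℕ → S → Prop} {x y : S} {τ η : Λ → S} {L0 : Λ}

namespace Syf

variable (M : Syf m hang Y K)

theorem shi {j j' : K} {e e' : Y × Fin 3} (h : M.sh j e = M.sh j' e') : j = j' ∧ e = e' :=
  M.lni _ _ _ _ (congrArg _ h)

theorem nf (j : K) (z : Y) : M.nx j z ≠ z := fun h => by
  have : ∀ n : ℕ, (M.nx j ^ n) z = z := fun n => Equiv.Perm.pow_apply_eq_self_of_apply_eq_self h n
  have k : ∀ w, M.fam j z = M.fam j w → w = z := fun w c =>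
    let ⟨a, ha⟩ := M.cyc j z w c
    ha.symm.trans (this a)
  cases c : M.fam j z
  · exact absurd (M.pui ((k _ (c.trans (M.pure 0 j).1.symm)).trans
      (k _ (c.trans (M.pure 1 j).1.symm)).symm)) (by decide)
  · exact absurd (M.pvi j ((k _ (c.trans (M.pvf j 0).symm)).trans
      (k _ (c.trans (M.pvf j 1).symm)).symm)) (by decide)

theorem AneB (j : K) (e : Y × Fin 3) : M.sh j e ≠ M.sh j (bt (M.nx j) e) := fun h =>
  bt_ne _ _ (M.shi h).2.symm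

variable [Finite S] [Finite Λ]

omit [Finite S] in
open Classical in
/-- the load at a system hub -/
theorem load (h : Ends m hang x y τ η) (j : K) (e : Y × Fin 3) :
    (if τ (M.ln (M.sh j (bt (M.nx j) e))) = M.sh j (bt (M.nx j) e) then 1 else 0) +
      (if η (M.sl j (bt (M.nx j) e)) = M.sh j (bt (M.nx j) e) then 1 else 0) +
      (if η (M.sl j e) = M.sh j e then 0 else 1) + (if x = M.sh j (bt (M.nx j) e) then 1 else 0) +
      (if y = M.sh j (bt (M.nx j) e) then 1 else 0) = 2 := by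
  rw [← h.load (M.sh j (bt (M.nx j) e))]
  have ne : M.sl j (bt (M.nx j) e) ≠ M.sl j e := fun c => bt_ne _ _ (M.sli _ _ _ _ c).2
  have k1 : ∀ L, τ L = M.sh j (bt (M.nx j) e) → L = M.ln (M.sh j (bt (M.nx j) e)) := fun L c =>
    M.tt L _ _ (c ▸ h.ht L)
  have k2 : ∀ L, η L = M.sh j (bt (M.nx j) e) → L = M.sl j (bt (M.nx j) e) ∨ L = M.sl j e := by
    intro L c
    obtain ⟨j', e', rfl⟩ := M.hd L _ _ (c ▸ h.hh L)
    rcases M.head _ _ _ (h.hh _) with d | d <;> obtain ⟨rfl, d'⟩ := M.shi (c.symm.trans d)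
    exacts [Or.inl (by rw [d']), Or.inr (by rw [(bt _).injective d'])]
  have k3 : η (M.sl j e) = M.sh j (bt (M.nx j) e) ↔ ¬η (M.sl j e) = M.sh j e :=
    ⟨fun c d => M.AneB j e (d.symm.trans c), (M.head _ _ _ (h.hh _)).resolve_left⟩
  have e1 : {L | τ L = M.sh j (bt (M.nx j) e)}.ncard =
      if τ (M.ln (M.sh j (bt (M.nx j) e))) = M.sh j (bt (M.nx j) e) then 1 else 0 := by
    split_ifs with c
    · exact Set.ncard_eq_one.2 ⟨_, Set.eq_singleton_iff_unique_mem.2 ⟨c, k1⟩⟩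
    · rw [Set.ncard_eq_zero]
      exact Set.eq_empty_of_forall_notMem fun L d => c (k1 L d ▸ d)
  have e2 : {L | η L = M.sh j (bt (M.nx j) e)}.ncard =
      (if η (M.sl j (bt (M.nx j) e)) = M.sh j (bt (M.nx j) e) then 1 else 0) +
      (if η (M.sl j e) = M.sh j e then 0 else 1) := by
    split_ifs with c d d
    · refine Set.ncard_eq_one.2 ⟨_, Set.eq_singleton_iff_unique_mem.2 ⟨c, fun L t => ?_⟩⟩
      exact (k2 L t).resolve_right fun u => k3.1 (u ▸ t) d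
    · refine Set.ncard_eq_two.2 ⟨_, _, ne, Set.ext fun L => ⟨k2 L, ?_⟩⟩
      rintro (rfl | rfl)
      exacts [c, k3.2 d]
    · rw [Set.ncard_eq_zero]
      refine Set.eq_empty_of_forall_notMem fun L t => ?_
      rcases k2 L t with rfl | rfl
      exacts [c t, k3.1 t d]
    · refine Set.ncard_eq_one.2 ⟨_, Set.eq_singleton_iff_unique_mem.2 ⟨k3.2 d, fun L t => ?_⟩⟩
      exact (k2 L t).resolve_left fun u => c (u ▸ t)
  rw [e1, e2]
  omega

/-- a closed family of heads -/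
theorem no_fam (h : Ends m hang x y τ η) (c : Cn L0 x y τ η) (F : K × Y × Fin 3 → Prop)
    (z0 : K × Y × Fin 3) (h0 : F z0) (tg : K × Y × Fin 3 → Y × Fin 3)
    (good : ∀ z, F z → M.sl z.1 z.2 ≠ L0 ∧ η (M.sl z.1 z.2) = M.sh z.1 (tg z) ∧
      τ (M.ln (M.sh z.1 (tg z))) = M.sh z.1 (tg z))
    (cl : ∀ z, F z → ∃ z', F z' ∧ M.ln (M.sh z.1 (tg z)) = M.sl z'.1 z'.2) : False := by
  refine h.no_loop c (T := {s | ∃ z, F z ∧ M.sh z.1 (tg z) = s}) ⟨_, z0, h0, rfl⟩ M.ln ?_ ?_ ?_ ?_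
  · rintro _ ⟨z, -, rfl⟩ _ ⟨z', -, rfl⟩ e
    obtain ⟨e1, e2⟩ := M.lni _ _ _ _ e
    rw [e1, e2]
  · rintro _ ⟨z, hz, rfl⟩
    obtain ⟨z', a, b⟩ := cl z hz
    exact b ▸ (good z' a).1
  · rintro _ ⟨z, hz, rfl⟩
    exact ⟨z, hz, (good z hz).2.2.symm⟩
  · rintro _ ⟨z, hz, rfl⟩
    obtain ⟨z', a, b⟩ := cl z hz
    exact ⟨z', a, by rw [b, (good z' a).2.1]⟩

/-- exactly one stage is hot, with both rings -/
theorem one_hot [Nonempty K] (h : Ends m hang x y τ η) (c : Cn L0 x y τ η) (hot : K → Bool → Prop)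
    (B : Fin 5 → K × Y × Fin 3 → Prop) (hB : ∀ i z z', B i z → B i z' → z = z')
    (gA : ∀ j e, ¬hot j (M.fam j e.1) → (∀ i, ¬B i (j, e)) → M.sl j e ≠ L0 ∧
      η (M.sl j e) = M.sh j e ∧ τ (M.ln (M.sh j e)) = M.sh j e)
    (gB : ∀ j e, hot j (M.fam j e.1) → (∀ i, ¬B i (j, e)) → M.sl j e ≠ L0 ∧
      η (M.sl j e) = M.sh j (bt (M.nx j) e) ∧
      τ (M.ln (M.sh j (bt (M.nx j) e))) = M.sh j (bt (M.nx j) e)) :
    ∃ j0, ∀ j b, hot j b ↔ j = j0 := by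
  have pur : ∀ p : Fin 6 → Y, Injective p → (∀ q j, ¬hot j (M.fam j (p q))) →
      (∀ q j, ∃ j', M.ln (M.sh j (p q, 2)) = M.sl j' (p q, 0)) → False := fun p pi hc pure => by
    obtain ⟨q, hq⟩ := pigeon (fun q (z : K × Y × Fin 3) => z.2.1 = p q)
      (fun q q' z a b => pi (a.symm.trans b)) B hB
    refine M.no_fam h c (fun z => z.2.1 = p q) (Classical.arbitrary K, p q, 0) rfl
      (fun z => z.2) (fun z hz => gA _ _ (hz ▸ hc q _) (hq z hz)) ?_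
    rintro ⟨j, p, r⟩ (rfl : p = _)
    obtain ⟨j', e⟩ := pure q j
    fin_cases r
    exacts [⟨(j, _, 1), rfl, M.ln0 _ _⟩, ⟨(j, _, 2), rfl, M.ln1 _ _⟩, ⟨(j', _, 0), rfl, e⟩]
  obtain ⟨j0, h0⟩ : ∃ j, hot j false := by
    by_contra hc
    exact pur M.pu M.pui (fun q j d => hc ⟨j, (M.pure q j).1 ▸ d⟩) fun q j => (M.pure q j).2
  have oth : ∀ j b, hot j b → j = j0 := fun j b hj => by_contra fun ne => by
    obtain ⟨a, ha, g⟩ := M.guard j j0 b ne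
    let F : Fin 6 → K × Y × Fin 3 → Prop := fun q z =>
      z = (j0, a q, 0) ∨ z = (j0, M.nx j0 (M.nx j0 (a q)), 1) ∨
      z = (j0, M.nx j0 (M.nx j0 (a q)), 2) ∨
      z = (j, M.nx j0 (a q), 0) ∨ z = (j, M.nx j (a q), 1) ∨ z = (j, M.nx j (a q), 2)
    obtain ⟨q, hq⟩ := pigeon F (fun q q' z u v => ha (by
      rcases u with rfl | rfl | rfl | rfl | rfl | rfl <;> simpa [F, ne, Ne.symm ne] using v)) B hB
    obtain ⟨f1, f2, g1, g2, g3⟩ := g q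
    have f3 : M.fam j (M.nx j0 (a q)) = b := by rw [← M.famn, g1, f1]
    refine M.no_fam h c (F q) (j0, a q, 0) (Or.inl rfl) (fun z => bt (M.nx z.1) z.2)
      (fun z hz => gB _ _ ?_ (hq z hz)) ?_
    · rcases hz with rfl | rfl | rfl | rfl | rfl | rfl <;> simpa only [M.famn, f1, f2, f3]
    rintro _ (rfl | rfl | rfl | rfl | rfl | rfl)
    · exact ⟨(j0, _, 2), by simp [F], M.ln1 _ _⟩
    · exact ⟨(j, M.nx j0 (a q), 0), by simp [F], by simpa using g3⟩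
    · exact ⟨(j0, _, 1), by simp [F], M.ln0 _ _⟩
    · exact ⟨(j, M.nx j (a q), 2), by simp [F], by simpa [g1] using M.ln1 _ _⟩
    · exact ⟨(j0, a q, 0), by simp [F], by simpa using g2⟩
    · exact ⟨(j, _, 1), by simp [F], M.ln0 _ _⟩
  refine ⟨j0, fun j b => ⟨oth j b, ?_⟩⟩
  rintro rfl
  cases b
  · exact h0
  · by_contra hc
    refine pur (M.pv j) (M.pvi j) (fun q i d => ?_) (M.purv j)
    obtain rfl := oth _ _ d
    exact hc (M.pvf i q ▸ d)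

end Syf

end Pool.Agent.P.MP_439f1f_co
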